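import Mathlib

/-!
PW: a doubling scale of lengths gives both indices of the counting function (abstract form, helper59).
m N is the size of the objects of height N, W N their number up to the height N, V x their number up to the length x.
-/

set_option autoImplicit false

namespace HexObs

namespace PWIdx

open Finset

/-- a scale of lengths: monotone, of slope at least 5/4, doubling -/
structure Scale (m : ℕ → ℝ) (K : ℝ) : Prop where
  pos : ∀ N : ℕ, 1 ≤ N → 0 < m N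
  mono : ∀ N M : ℕ, 1 ≤ N → N ≤ M → m N ≤ m M
  slope : ∀ b N : ℕ, 1 ≤ b → 1 ≤ N → (b : ℝ) ^ (5 / 4 : ℝ) * m N ≤ m (b * N)
  dbl : ∀ N : ℕ, 1 ≤ N → m (2 * N) ≤ K * m N

variable {m W V : ℕ → ℝ} {K l0 c0 C0 c1 q : ℝ}

lemma Scale.K_gt (h : Scale m K) : 2 ≤ K := by
  have h1 := h.slope 2 1 (by norm_num) le_rfl
  have h2 := h.dbl 1 le_rfl
  have h3 := h.pos 1 le_rfl
  have h4 : (2 : ℝ) ≤ (2 : ℝ) ^ (5 / 4 : ℝ) := by
    nth_rewrite 1 [← Real.rpow_one (2 : ℝ)]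
    exact Real.rpow_le_rpow_of_exponent_le (by norm_num) (by norm_num)
  norm_num at h1 h2
  have h5 : (2 : ℝ) ^ (5 / 4 : ℝ) * m 1 ≤ K * m 1 := h1.trans h2
  exact h4.trans (le_of_mul_le_mul_right h5 h3)

lemma Scale.pow (h : Scale m K) (j : ℕ) {N : ℕ} (hN : 1 ≤ N) : m (2 ^ j * N) ≤ K ^ j * m N := by
  induction j with
  | zero => simp
  | succ j ih =>
    have h1 := h.dbl (2 ^ j * N) (Nat.succ_le_of_lt (Nat.mul_pos (by positivity) hN))
    have e : 2 ^ (j + 1) * N = 2 * (2 ^ j * N) := by ring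
    rw [e]
    calc m (2 * (2 ^ j * N)) ≤ K * m (2 ^ j * N) := h1
      _ ≤ K * (K ^ j * m N) := mul_le_mul_of_nonneg_left ih (by linarith [h.K_gt])
      _ = _ := by ring

/-- the height that belongs to a number -/
lemma Scale.inv (h : Scale m K) {y : ℝ} (hy : m 1 ≤ y) : ∃ N : ℕ, 1 ≤ N ∧ m N ≤ y ∧ y < m (N + 1) := by
  have h1 := h.pos 1 le_rfl
  -- m is unbounded
  obtain ⟨b, hb⟩ := exists_nat_gt (y / m 1)
  have hy0 : 0 < y := h1.trans_le hy
  have hb1 : 1 ≤ b := by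
    by_contra hcon
    have : b = 0 := by omega
    rw [this] at hb
    have : 0 < y / m 1 := by positivity
    norm_num at hb
    linarith
  have hbR : (1 : ℝ) ≤ b := by exact_mod_cast hb1
  have h2 := h.slope b 1 hb1 le_rfl
  rw [mul_one] at h2
  have h3 : (b : ℝ) ≤ (b : ℝ) ^ (5 / 4 : ℝ) := by
    nth_rewrite 1 [← Real.rpow_one (b : ℝ)]
    exact Real.rpow_le_rpow_of_exponent_le hbR (by norm_num)
  have h4 : y < m b := by
    rw [div_lt_iff₀ h1] at hb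
    exact hb.trans_le ((mul_le_mul_of_nonneg_right h3 h1.le).trans h2)
  have hex : ∃ n : ℕ, 1 ≤ n ∧ y < m (n + 1) := by
    refine ⟨b, hb1, h4.trans_le (h.mono b (b + 1) hb1 (by omega))⟩
  classical
  refine ⟨Nat.find hex, (Nat.find_spec hex).1, ?_, (Nat.find_spec hex).2⟩
  by_contra hcon
  push Not at hcon
  have hmin := Nat.find_min hex (m := Nat.find hex - 1)
  have h5 := (Nat.find_spec hex).1
  rcases Nat.eq_or_lt_of_le h5 with h6 | h6
  · rw [← h6] at hcon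
    linarith
  · apply hmin (by omega)
    refine ⟨by omega, ?_⟩
    have e : Nat.find hex - 1 + 1 = Nat.find hex := by omega
    rw [e]
    exact hcon

lemma Scale.K_ge (h : Scale m K) : (2 : ℝ) ^ (5 / 4 : ℝ) ≤ K := by
  have h1 := h.slope 2 1 (by norm_num) le_rfl
  have h2 := h.dbl 1 le_rfl
  have h3 := h.pos 1 le_rfl
  norm_num at h1 h2
  have h5 : (2 : ℝ) ^ (5 / 4 : ℝ) * m 1 ≤ K * m 1 := h1.trans h2
  exact le_of_mul_le_mul_right h5 h3

/-- the two bounds by the height of the number -/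
lemma two_side (hm : Scale m K) (hl : 0 < l0) (hc0 : 0 < c0)
    (hW : ∀ n : ℕ, 1 ≤ n → c0 * (n : ℝ) ^ (3 / 4 : ℝ) ≤ W n ∧ W n ≤ C0 * (n : ℝ) ^ (3 / 4 : ℝ))
    (hlo : ∀ N x : ℕ, 1 ≤ N → l0 * m N ≤ 2 * (x : ℝ) → W N ≤ 2 * V x)
    (hc1 : 0 < c1) (hq : 0 < q)
    (hup : ∀ N x : ℕ, 1 ≤ N → 2 * (x : ℝ) < c1 * m N → V x ≤ W N / q) :
    ∃ A : ℝ, 0 < A ∧ ∀ x : ℕ, l0 * m 1 ≤ 2 * (x : ℝ) → ∃ N : ℕ, 1 ≤ N ∧ m N ≤ 2 * (x : ℝ) / l0 ∧
      2 * (x : ℝ) / l0 < m (N + 1) ∧ c0 / 2 * (N : ℝ) ^ (3 / 4 : ℝ) ≤ V x ∧ V x ≤ A * (N : ℝ) ^ (3 / 4 : ℝ) := by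
  have hC0 : 0 < C0 := by
    have := hW 1 le_rfl
    norm_num at this
    linarith
  obtain ⟨b0, hb0⟩ := exists_nat_gt (l0 / c1 + 1)
  have hq0 : 0 < l0 / c1 := by positivity
  have hb01 : 1 ≤ b0 := by
    have : (1 : ℝ) < b0 := by linarith
    exact_mod_cast this.le
  have hb0R : (1 : ℝ) ≤ b0 := by exact_mod_cast hb01
  have hb0c : l0 ≤ c1 * (b0 : ℝ) ^ (5 / 4 : ℝ) := by
    have h1 : (b0 : ℝ) ≤ (b0 : ℝ) ^ (5 / 4 : ℝ) := by
      nth_rewrite 1 [← Real.rpow_one (b0 : ℝ)]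
      exact Real.rpow_le_rpow_of_exponent_le hb0R (by norm_num)
    have h2 : l0 / c1 ≤ (b0 : ℝ) ^ (5 / 4 : ℝ) := by linarith
    rw [div_le_iff₀ hc1] at h2
    linarith
  refine ⟨C0 * (2 * b0) ^ (3 / 4 : ℝ) / q, by positivity, fun x hx => ?_⟩
  have hy : m 1 ≤ 2 * (x : ℝ) / l0 := by rw [le_div_iff₀ hl]; linarith
  obtain ⟨N, hN, h1, h2⟩ := hm.inv hy
  refine ⟨N, hN, h1, h2, ?_, ?_⟩
  · have h3 : l0 * m N ≤ 2 * (x : ℝ) := by rw [le_div_iff₀ hl] at h1; linarith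
    have h4 := hlo N x hN h3
    have h5 := (hW N hN).1
    linarith
  · have h3 : 2 * (x : ℝ) < l0 * m (N + 1) := by rw [div_lt_iff₀ hl] at h2; linarith
    have hp : 0 < m (N + 1) := hm.pos _ (by omega)
    have h4 : l0 * m (N + 1) ≤ c1 * m (b0 * (N + 1)) := by
      have := hm.slope b0 (N + 1) hb01 (by omega)
      calc l0 * m (N + 1) ≤ c1 * (b0 : ℝ) ^ (5 / 4 : ℝ) * m (N + 1) := mul_le_mul_of_nonneg_right hb0c hp.le
        _ = c1 * ((b0 : ℝ) ^ (5 / 4 : ℝ) * m (N + 1)) := by ring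
        _ ≤ _ := mul_le_mul_of_nonneg_left this hc1.le
    have hb1 : 1 ≤ b0 * (N + 1) := Nat.succ_le_of_lt (Nat.mul_pos (by omega) (by omega))
    have h5 := hup (b0 * (N + 1)) x hb1 (h3.trans_le h4)
    have h6 := (hW (b0 * (N + 1)) hb1).2
    have h7 : ((b0 * (N + 1) : ℕ) : ℝ) ^ (3 / 4 : ℝ) ≤ (2 * b0) ^ (3 / 4 : ℝ) * (N : ℝ) ^ (3 / 4 : ℝ) := by
      rw [← Real.mul_rpow (by positivity) (by positivity)]
      apply Real.rpow_le_rpow (by positivity) _ (by norm_num)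
      have : (1 : ℝ) ≤ N := by exact_mod_cast hN
      push_cast
      nlinarith
    calc V x ≤ W (b0 * (N + 1)) / q := h5
      _ ≤ (C0 * ((2 * b0) ^ (3 / 4 : ℝ) * (N : ℝ) ^ (3 / 4 : ℝ))) / q := by
          apply div_le_div_of_nonneg_right _ hq.le
          exact h6.trans (mul_le_mul_of_nonneg_left h7 hC0.le)
      _ = _ := by ring

/-- both indices of the number of objects by the length, from the scale of the lengths -/
theorem index (hm : Scale m K) (hl : 0 < l0) (hc0 : 0 < c0)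
    (hW : ∀ n : ℕ, 1 ≤ n → c0 * (n : ℝ) ^ (3 / 4 : ℝ) ≤ W n ∧ W n ≤ C0 * (n : ℝ) ^ (3 / 4 : ℝ))
    (hV : Monotone V) (hV0 : 0 < V 1)
    (hlo : ∀ N x : ℕ, 1 ≤ N → l0 * m N ≤ 2 * (x : ℝ) → W N ≤ 2 * V x)
    (hc1 : 0 < c1) (hq : 0 < q)
    (hup : ∀ N x : ℕ, 1 ≤ N → 2 * (x : ℝ) < c1 * m N → V x ≤ W N / q) :
    ∃ a1 c C : ℝ, 0 < a1 ∧ a1 ≤ 3 / 5 ∧ 0 < c ∧ 0 < C ∧ ∀ b x : ℕ, 1 ≤ b → 1 ≤ x →
      c * (b : ℝ) ^ a1 * V x ≤ V (b * x) ∧ V (b * x) ≤ C * (b : ℝ) ^ (3 / 5 : ℝ) * V x := by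
  obtain ⟨A, hA, hT⟩ := two_side hm hl hc0 hW hlo hc1 hq hup
  have hK2 := hm.K_gt
  have hK0 : 0 < K := by linarith
  have hK1 : 1 < K := by linarith
  have hlK : 0 < Real.log K := Real.log_pos hK1
  have hl2 : 0 < Real.log 2 := Real.log_pos (by norm_num)
  obtain ⟨th, hth⟩ : ∃ th : ℝ, th = Real.log 2 / Real.log K := ⟨_, rfl⟩
  have hth0 : 0 < th := by rw [hth]; positivity
  have hth1 : th ≤ 4 / 5 := by
    rw [hth, div_le_iff₀ hlK]
    have h1 := Real.log_le_log (by positivity) hm.K_ge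
    rw [Real.log_rpow (by norm_num)] at h1
    linarith
  have hKth : K ^ th = 2 := by
    rw [hth, Real.rpow_def_of_pos hK0, mul_div_cancel₀ _ hlK.ne', Real.exp_log (by norm_num)]
  -- positive values
  have hVpos : ∀ x : ℕ, 1 ≤ x → 0 < V x := fun x hx => hV0.trans_le (hV hx)
  -- upper, big x
  have hupB : ∀ b x : ℕ, 1 ≤ b → 1 ≤ x → l0 * m 1 ≤ 2 * (x : ℝ) →
      V (b * x) ≤ A * 4 ^ (3 / 4 : ℝ) * (2 / c0) * (b : ℝ) ^ (3 / 5 : ℝ) * V x := by
    intro b x hb hx1 hx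
    have hbR : (1 : ℝ) ≤ b := by exact_mod_cast hb
    have hxR : (1 : ℝ) ≤ x := by exact_mod_cast hx1
    obtain ⟨N, hN, h1, h2, h3, h4⟩ := hT x hx
    have hbx : l0 * m 1 ≤ 2 * ((b * x : ℕ) : ℝ) := by
      push_cast
      nlinarith
    obtain ⟨N', hN', g1, g2, g3, g4⟩ := hT (b * x) hbx
    obtain ⟨k, hk⟩ : ∃ k : ℕ, k = ⌈(b : ℝ) ^ (4 / 5 : ℝ)⌉₊ := ⟨_, rfl⟩
    have hb45 : 1 ≤ (b : ℝ) ^ (4 / 5 : ℝ) := Real.one_le_rpow hbR (by norm_num)
    have hk1 : (b : ℝ) ^ (4 / 5 : ℝ) ≤ k := by rw [hk]; exact Nat.le_ceil _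
    have hk2 : (k : ℝ) ≤ 2 * (b : ℝ) ^ (4 / 5 : ℝ) := by
      have := Nat.ceil_lt_add_one (a := (b : ℝ) ^ (4 / 5 : ℝ)) (by positivity)
      rw [← hk] at this
      linarith
    have hk3 : 1 ≤ k := by exact_mod_cast hb45.trans hk1
    have hk4 : (b : ℝ) ≤ (k : ℝ) ^ (5 / 4 : ℝ) := by
      calc (b : ℝ) = ((b : ℝ) ^ (4 / 5 : ℝ)) ^ (5 / 4 : ℝ) := by
            rw [← Real.rpow_mul (by positivity)]; norm_num
        _ ≤ _ := Real.rpow_le_rpow (by positivity) hk1 (by norm_num)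
    have hlt : N' < k * (N + 1) := by
      by_contra hcon
      push Not at hcon
      have e1 : 1 ≤ k * (N + 1) := Nat.succ_le_of_lt (Nat.mul_pos (by omega) (by omega))
      have h5 := hm.mono (k * (N + 1)) N' e1 hcon
      have h6 := hm.slope k (N + 1) hk3 (by omega)
      have h7 : (b : ℝ) * m (N + 1) ≤ (k : ℝ) ^ (5 / 4 : ℝ) * m (N + 1) :=
        mul_le_mul_of_nonneg_right hk4 (hm.pos _ (by omega)).le
      have h8 : 2 * ((b * x : ℕ) : ℝ) / l0 < b * m (N + 1) := by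
        push_cast
        calc 2 * ((b : ℝ) * x) / l0 = b * (2 * (x : ℝ) / l0) := by ring
          _ < _ := mul_lt_mul_of_pos_left h2 (by linarith)
      linarith
    have hNR : (1 : ℝ) ≤ N := by exact_mod_cast hN
    have hN'R : (N' : ℝ) ≤ 4 * (b : ℝ) ^ (4 / 5 : ℝ) * N := by
      have h5 : (N' : ℝ) ≤ k * (N + 1) := by exact_mod_cast hlt.le
      have h6 : (k : ℝ) * (N + 1) ≤ k * (2 * N) := mul_le_mul_of_nonneg_left (by linarith) (by positivity)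
      have h7 : (k : ℝ) * (2 * N) ≤ 2 * (b : ℝ) ^ (4 / 5 : ℝ) * (2 * N) := mul_le_mul_of_nonneg_right hk2 (by positivity)
      linarith
    have h9 : (N' : ℝ) ^ (3 / 4 : ℝ) ≤ 4 ^ (3 / 4 : ℝ) * (b : ℝ) ^ (3 / 5 : ℝ) * (N : ℝ) ^ (3 / 4 : ℝ) := by
      calc (N' : ℝ) ^ (3 / 4 : ℝ) ≤ (4 * (b : ℝ) ^ (4 / 5 : ℝ) * N) ^ (3 / 4 : ℝ) :=
            Real.rpow_le_rpow (by positivity) hN'R (by norm_num)
        _ = _ := by
            rw [Real.mul_rpow (by positivity) (by positivity), Real.mul_rpow (by positivity) (by positivity),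
              ← Real.rpow_mul (by positivity)]
            norm_num
    have h10 : (N : ℝ) ^ (3 / 4 : ℝ) ≤ 2 / c0 * V x := by
      have : c0 / 2 * (N : ℝ) ^ (3 / 4 : ℝ) * (2 / c0) ≤ V x * (2 / c0) := mul_le_mul_of_nonneg_right h3 (by positivity)
      have e : c0 / 2 * (N : ℝ) ^ (3 / 4 : ℝ) * (2 / c0) = (N : ℝ) ^ (3 / 4 : ℝ) := by field_simp
      linarith
    calc V (b * x) ≤ A * (N' : ℝ) ^ (3 / 4 : ℝ) := g4
      _ ≤ A * (4 ^ (3 / 4 : ℝ) * (b : ℝ) ^ (3 / 5 : ℝ) * (N : ℝ) ^ (3 / 4 : ℝ)) := mul_le_mul_of_nonneg_left h9 hA.le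
      _ ≤ A * (4 ^ (3 / 4 : ℝ) * (b : ℝ) ^ (3 / 5 : ℝ) * (2 / c0 * V x)) := by
          apply mul_le_mul_of_nonneg_left _ hA.le
          exact mul_le_mul_of_nonneg_left h10 (by positivity)
      _ = _ := by ring
  -- lower, big x
  have hloB : ∀ b x : ℕ, 1 ≤ b → 1 ≤ x → l0 * m 1 ≤ 2 * (x : ℝ) →
      c0 / (4 * A) * (b : ℝ) ^ (3 / 4 * th) * V x ≤ V (b * x) := by
    intro b x hb hx1 hx
    have hbR : (1 : ℝ) ≤ b := by exact_mod_cast hb
    obtain ⟨N, hN, h1, h2, h3, h4⟩ := hT x hx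
    have hNR : (1 : ℝ) ≤ N := by exact_mod_cast hN
    obtain ⟨j, hj1, hj2⟩ := exists_nat_pow_near hbR hK1
    have hp1 : 1 ≤ 2 ^ j * N := Nat.succ_le_of_lt (Nat.mul_pos (by positivity) hN)
    have h5 : l0 * m (2 ^ j * N) ≤ 2 * ((b * x : ℕ) : ℝ) := by
      have g1 := hm.pow j hN
      have g2 : K ^ j * m N ≤ b * (2 * (x : ℝ) / l0) :=
        mul_le_mul hj1 h1 (hm.pos N hN).le (by linarith)
      have g3 : l0 * m (2 ^ j * N) ≤ l0 * (b * (2 * (x : ℝ) / l0)) :=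
        mul_le_mul_of_nonneg_left (g1.trans g2) hl.le
      have e : l0 * (b * (2 * (x : ℝ) / l0)) = 2 * ((b * x : ℕ) : ℝ) := by
        push_cast
        field_simp
      linarith
    have h6 := hlo (2 ^ j * N) (b * x) hp1 h5
    have h7 := (hW (2 ^ j * N) hp1).1
    have h8 : (b : ℝ) ^ th ≤ 2 * 2 ^ j := by
      calc (b : ℝ) ^ th ≤ (K ^ (j + 1)) ^ th := Real.rpow_le_rpow (by positivity) hj2.le hth0.le
        _ = (K ^ th) ^ (j + 1) := by
            rw [← Real.rpow_natCast, ← Real.rpow_mul hK0.le, mul_comm, Real.rpow_mul hK0.le, Real.rpow_natCast]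
        _ = 2 * 2 ^ j := by rw [hKth]; ring
    have h9 : (b : ℝ) ^ (3 / 4 * th) ≤ 2 * ((2 : ℝ) ^ j) ^ (3 / 4 : ℝ) := by
      calc (b : ℝ) ^ (3 / 4 * th) = ((b : ℝ) ^ th) ^ (3 / 4 : ℝ) := by
            rw [← Real.rpow_mul (by positivity)]; ring_nf
        _ ≤ (2 * 2 ^ j) ^ (3 / 4 : ℝ) := Real.rpow_le_rpow (by positivity) h8 (by norm_num)
        _ = 2 ^ (3 / 4 : ℝ) * ((2 : ℝ) ^ j) ^ (3 / 4 : ℝ) := Real.mul_rpow (by norm_num) (by positivity)
        _ ≤ _ := by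
            apply mul_le_mul_of_nonneg_right _ (by positivity)
            nth_rewrite 2 [← Real.rpow_one (2 : ℝ)]
            exact Real.rpow_le_rpow_of_exponent_le (by norm_num) (by norm_num)
    have e1 : ((2 ^ j * N : ℕ) : ℝ) ^ (3 / 4 : ℝ) = ((2 : ℝ) ^ j) ^ (3 / 4 : ℝ) * (N : ℝ) ^ (3 / 4 : ℝ) := by
      push_cast
      exact Real.mul_rpow (by positivity) (by positivity)
    rw [e1] at h7
    have hNp : 0 < (N : ℝ) ^ (3 / 4 : ℝ) := by positivity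
    calc c0 / (4 * A) * (b : ℝ) ^ (3 / 4 * th) * V x
        ≤ c0 / (4 * A) * (2 * ((2 : ℝ) ^ j) ^ (3 / 4 : ℝ)) * (A * (N : ℝ) ^ (3 / 4 : ℝ)) := by
          apply mul_le_mul (mul_le_mul_of_nonneg_left h9 (by positivity)) h4 (hVpos x hx1).le (by positivity)
      _ = c0 * (((2 : ℝ) ^ j) ^ (3 / 4 : ℝ) * (N : ℝ) ^ (3 / 4 : ℝ)) / 2 := by field_simp; ring
      _ ≤ V (b * x) := by linarith
  -- all x
  obtain ⟨x1, hx1⟩ := exists_nat_gt (l0 * m 1)
  obtain ⟨x0, hx0⟩ : ∃ x0 : ℕ, x0 = x1 + 1 := ⟨_, rfl⟩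
  have hx01 : 1 ≤ x0 := by omega
  have hx0R : (1 : ℝ) ≤ x0 := by exact_mod_cast hx01
  have hx0m : l0 * m 1 ≤ 2 * (x0 : ℝ) := by
    have : (x1 : ℝ) ≤ x0 := by exact_mod_cast (by omega : x1 ≤ x0)
    linarith
  have hbig : ∀ x : ℕ, x0 ≤ x → l0 * m 1 ≤ 2 * (x : ℝ) := by
    intro x hx
    have : (x0 : ℝ) ≤ x := by exact_mod_cast hx
    linarith
  have ha0 : 0 < 3 / 4 * th := by positivity
  have hVx0 := hVpos x0 hx01
  obtain ⟨CC, hCC⟩ : ∃ CC : ℝ, CC = A * 4 ^ (3 / 4 : ℝ) * (2 / c0) := ⟨_, rfl⟩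
  have hCC0 : 0 < CC := by rw [hCC]; positivity
  obtain ⟨cc, hcc⟩ : ∃ cc : ℝ, cc = min 1 (c0 / (4 * A)) := ⟨_, rfl⟩
  have hcc0 : 0 < cc := by rw [hcc]; exact lt_min one_pos (by positivity)
  have hcc1 : cc ≤ 1 := by rw [hcc]; exact min_le_left _ _
  have hcc2 : cc ≤ c0 / (4 * A) := by rw [hcc]; exact min_le_right _ _
  have hr1 : 1 ≤ V x0 / V 1 := by rw [one_le_div hV0]; exact hV hx01
  obtain ⟨s, hs⟩ : ∃ s : ℝ, s = (1 / (2 * (x0 : ℝ))) ^ (3 / 4 * th) := ⟨_, rfl⟩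
  have hs0 : 0 < s := by rw [hs]; positivity
  have hs1 : s ≤ 1 := by
    rw [hs]
    apply Real.rpow_le_one (by positivity) _ ha0.le
    rw [div_le_one (by positivity)]
    linarith
  refine ⟨3 / 4 * th, cc * s, CC * (V x0 / V 1), ha0, by linarith, by positivity, by positivity, fun b x hb hx => ?_⟩
  have hbR : (1 : ℝ) ≤ b := by exact_mod_cast hb
  have hVx := hVpos x hx
  rcases Nat.lt_or_ge x x0 with hxx | hxx
  · constructor
    · rcases Nat.lt_or_ge b x0 with hbb | hbb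
      · -- b small
        have h1 : cc * s * (b : ℝ) ^ (3 / 4 * th) ≤ 1 := by
          have h2 : s * (b : ℝ) ^ (3 / 4 * th) ≤ 1 := by
            rw [hs, ← Real.mul_rpow (by positivity) (by positivity)]
            apply Real.rpow_le_one (by positivity) _ ha0.le
            have : (b : ℝ) ≤ x0 := by exact_mod_cast hbb.le
            rw [div_mul_eq_mul_div, one_mul, div_le_one (by positivity)]
            linarith
          calc cc * s * (b : ℝ) ^ (3 / 4 * th) = cc * (s * (b : ℝ) ^ (3 / 4 * th)) := by ring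
            _ ≤ 1 * 1 := mul_le_mul hcc1 h2 (by positivity) (by norm_num)
            _ = 1 := by ring
        calc cc * s * (b : ℝ) ^ (3 / 4 * th) * V x ≤ 1 * V x := mul_le_mul_of_nonneg_right h1 hVx.le
          _ = V x := one_mul _
          _ ≤ V (b * x) := hV (Nat.le_mul_of_pos_left x (by omega))
      · -- b big
        have hdiv1 : 1 ≤ b / x0 := (Nat.one_le_div_iff (by omega)).2 hbb
        have h1 := hloB (b / x0) x0 hdiv1 hx01 hx0m
        have h2 : b / x0 * x0 ≤ b * x := (Nat.div_mul_le_self b x0).trans (Nat.le_mul_of_pos_right b (by omega))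
        have h3 := hV h2
        have h4 : s * (b : ℝ) ^ (3 / 4 * th) ≤ (((b / x0 : ℕ) : ℝ)) ^ (3 / 4 * th) := by
          rw [hs, ← Real.mul_rpow (by positivity) (by positivity)]
          apply Real.rpow_le_rpow (by positivity) _ ha0.le
          have h5 : b < (b / x0 + 1) * x0 := by
            have := Nat.lt_div_mul_add (a := b) (b := x0) (by omega)
            nlinarith
          have h6 : (b : ℝ) < ((b / x0 : ℕ) + 1) * x0 := by exact_mod_cast h5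
          have h7 : (1 : ℝ) ≤ ((b / x0 : ℕ) : ℝ) := by exact_mod_cast hdiv1
          rw [div_mul_eq_mul_div, one_mul, div_le_iff₀ (by positivity)]
          nlinarith
        calc cc * s * (b : ℝ) ^ (3 / 4 * th) * V x = cc * (s * (b : ℝ) ^ (3 / 4 * th)) * V x := by ring
          _ ≤ c0 / (4 * A) * (((b / x0 : ℕ) : ℝ)) ^ (3 / 4 * th) * V x0 := by
              apply mul_le_mul _ (hV hxx.le) hVx.le (by positivity)
              exact mul_le_mul hcc2 h4 (by positivity) (by positivity)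
          _ ≤ V (b / x0 * x0) := h1
          _ ≤ V (b * x) := h3
    · have h1 := hupB b x0 hb hx01 hx0m
      rw [← hCC] at h1
      have h2 : V (b * x) ≤ V (b * x0) := hV (Nat.mul_le_mul_left b hxx.le)
      have h3 : V 1 ≤ V x := hV hx
      calc V (b * x) ≤ CC * (b : ℝ) ^ (3 / 5 : ℝ) * V x0 := h2.trans h1
        _ = CC * (V x0 / V 1) * (b : ℝ) ^ (3 / 5 : ℝ) * V 1 := by field_simp
        _ ≤ _ := mul_le_mul_of_nonneg_left h3 (by positivity)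
  · constructor
    · refine le_trans ?_ (hloB b x hb hx (hbig x hxx))
      apply mul_le_mul_of_nonneg_right _ hVx.le
      apply mul_le_mul_of_nonneg_right _ (by positivity)
      calc cc * s ≤ cc * 1 := mul_le_mul_of_nonneg_left hs1 hcc0.le
        _ ≤ _ := by rw [mul_one]; exact hcc2
    · have h1 := hupB b x hb hx (hbig x hxx)
      rw [← hCC] at h1
      refine h1.trans ?_
      apply mul_le_mul_of_nonneg_right _ hVx.le
      apply mul_le_mul_of_nonneg_right _ (by positivity)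
      calc CC = CC * 1 := (mul_one _).symm
        _ ≤ _ := mul_le_mul_of_nonneg_left hr1 hCC0.le

end PWIdx

end HexObs
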