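import Pool.Agent.PW.ZtUp
import Pool.Agent.PW.IndexA

/-!
PW: the scale of lengths mZ N = N ^ (5 / 4) Zt N.
-/

set_option autoImplicit false

namespace HexObs

namespace PW

/-- the mean length of the bridges of height N. -/
noncomputable def mZ (N : ℕ) : ℝ := (N : ℝ) ^ (5 / 4 : ℝ) * Zt N

lemma mZ_pos {N : ℕ} (hN : 1 ≤ N) : 0 < mZ N := by
  have h0 : (0 : ℝ) < N := by exact_mod_cast hN
  exact mul_pos (Real.rpow_pos_of_pos h0 _) (Zt_pos N)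

lemma mZ_nonneg (N : ℕ) : 0 ≤ mZ N := mul_nonneg (by positivity) (Zt_pos N).le

lemma le_mZ (N : ℕ) : (N : ℝ) ^ (5 / 4 : ℝ) ≤ mZ N := by
  have h1 := one_le_Zt N
  have h2 : (0 : ℝ) ≤ (N : ℝ) ^ (5 / 4 : ℝ) := by positivity
  unfold mZ
  nlinarith

lemma mZ_mono {N M : ℕ} (h : N ≤ M) : mZ N ≤ mZ M := by
  have h1 : (N : ℝ) ≤ M := by exact_mod_cast h
  exact mul_le_mul (Real.rpow_le_rpow (Nat.cast_nonneg N) h1 (by norm_num)) (Zt_mono h) (Zt_pos N).le (by positivity)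

/-- the slope. -/
lemma mZ_slope {b N : ℕ} (hb : 1 ≤ b) : (b : ℝ) ^ (5 / 4 : ℝ) * mZ N ≤ mZ (b * N) := by
  unfold mZ
  have h1 : N ≤ b * N := Nat.le_mul_of_pos_left _ hb
  have h2 := Zt_mono h1
  rw [← mul_assoc, ← Real.mul_rpow (Nat.cast_nonneg b) (Nat.cast_nonneg N)]
  push_cast
  exact mul_le_mul_of_nonneg_left h2 (by positivity)

/-- the growth, one exponent for all the ratios. -/
theorem mZ_growth {a : ℝ} (ha : 5 / 4 + 5 * Real.sqrt 3 / 36 < a) : ∃ C : ℝ, 1 ≤ C ∧ ∀ h n : ℕ, 1 ≤ h → h ≤ n →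
    mZ n ≤ C * ((n : ℝ) / h) ^ a * mZ h := by
  obtain ⟨C, hC, h1⟩ := Zt_growth (g := a - 5 / 4) (by linarith)
  refine ⟨C, hC, fun h n hh hn => ?_⟩
  have hh0 : (0 : ℝ) < h := by exact_mod_cast hh
  have hn1 : 1 ≤ n := hh.trans hn
  have hn0 : (0 : ℝ) < n := by exact_mod_cast hn1
  have h2 := h1 h n hh hn
  unfold mZ
  have h3 : ((n : ℝ) / h) ^ a = ((n : ℝ) / h) ^ (5 / 4 : ℝ) * ((n : ℝ) / h) ^ (a - 5 / 4) := by
    rw [← Real.rpow_add (by positivity)]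
    congr 1
    ring
  have h4 : ((n : ℝ) / h) ^ (5 / 4 : ℝ) * (h : ℝ) ^ (5 / 4 : ℝ) = (n : ℝ) ^ (5 / 4 : ℝ) := by
    rw [← Real.mul_rpow (by positivity) hh0.le, div_mul_cancel₀ _ hh0.ne']
  calc (n : ℝ) ^ (5 / 4 : ℝ) * Zt n ≤ (n : ℝ) ^ (5 / 4 : ℝ) * (C * ((n : ℝ) / h) ^ (a - 5 / 4) * Zt h) :=
        mul_le_mul_of_nonneg_left h2 (by positivity)
    _ = C * (((n : ℝ) / h) ^ (5 / 4 : ℝ) * ((n : ℝ) / h) ^ (a - 5 / 4)) * ((h : ℝ) ^ (5 / 4 : ℝ) * Zt h) := by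
        rw [← h4]
        ring
    _ = _ := by rw [h3]

/-- an exponent below 3 / 2. -/
theorem mZ_growth_32 : ∃ a C : ℝ, a < 3 / 2 ∧ 1 ≤ C ∧ ∀ h n : ℕ, 1 ≤ h → h ≤ n →
    mZ n ≤ C * ((n : ℝ) / h) ^ a * mZ h := by
  have hs : Real.sqrt 3 < 9 / 5 := by
    rw [Real.sqrt_lt' (by norm_num)]
    norm_num
  obtain ⟨a, ha1, ha2⟩ := exists_between (show 5 / 4 + 5 * Real.sqrt 3 / 36 < 3 / 2 by linarith)
  obtain ⟨C, hC, h⟩ := mZ_growth ha1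
  exact ⟨a, C, ha2, hC, h⟩

/-- mZ is a scale of lengths. -/
theorem scale_mZ : ∃ K : ℝ, PWIdx.Scale mZ K := by
  obtain ⟨C, hC, hd⟩ := Zt_double
  refine ⟨2 ^ (5 / 4 : ℝ) * C, ⟨fun N hN => mZ_pos hN, fun N M _ h => mZ_mono h, fun b N hb _ => mZ_slope hb,
    fun N hN => ?_⟩⟩
  have h1 := hd N hN
  unfold mZ
  push_cast
  rw [Real.mul_rpow (by norm_num) (Nat.cast_nonneg N)]
  have h2 : (0 : ℝ) ≤ (2 : ℝ) ^ (5 / 4 : ℝ) * (N : ℝ) ^ (5 / 4 : ℝ) := by positivity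
  calc (2 : ℝ) ^ (5 / 4 : ℝ) * (N : ℝ) ^ (5 / 4 : ℝ) * Zt (2 * N) ≤
        (2 : ℝ) ^ (5 / 4 : ℝ) * (N : ℝ) ^ (5 / 4 : ℝ) * (C * Zt N) := mul_le_mul_of_nonneg_left h1 h2
    _ = _ := by ring

end PW

end HexObs
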