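import Pool.Agent.PW.RenF
import Pool.Agent.NUX.Br1

/-! Theorem R for the bridges of the honeycomb lattice by the number of letters (helper69). -/

set_option autoImplicit false

namespace HexObs

namespace BrL

open Finset TS

open scoped ENNReal

lemma ttff_mem : [true, true, false, false] ∈ Brd 1 := by
  rw [mem_Brd]
  refine ⟨?_, ?_, by decide, by decide⟩
  · intro i h1 h2
    have : i ≤ 4 := h2
    interval_cases i <;> decide
  · intro i k h1 h2
    have : k ≤ 4 := h2
    interval_cases k <;> interval_cases i <;> decide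

lemma fb_two : 0 < fb 2 := by
  have hI : [true, true, false, false] ∈ ILs (2 * 2) := by
    refine ⟨⟨1, ttff_mem, by simp, ?_⟩, rfl⟩
    intro a b s u hs hu he
    by_contra hc
    push Not at hc
    have h1 : 1 ≤ a := by
      rcases Nat.eq_zero_or_pos a with h | h
      · subst h; rw [Brd_zero] at hs; exact absurd hs hc.1
      · exact h
    have h2 : 1 ≤ b := by
      rcases Nat.eq_zero_or_pos b with h | h
      · subst h; rw [Brd_zero] at hu; exact absurd hu hc.2
      · exact h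
    have h3 := Brd_append hs hu
    rw [← he] at h3
    have := Brd_height ttff_mem h3
    omega
  unfold fb
  apply ENNReal.toReal_pos _ (ILs_ne_top _)
  have h1 : gf ({[true, true, false, false]} : Set (List Bool)) ≤ gf (ILs (2 * 2)) :=
    gf_mono (Set.singleton_subset_iff.2 hI)
  intro h0
  rw [h0] at h1
  have h2 := gf_finset {[true, true, false, false]}
  rw [Finset.coe_singleton] at h2
  rw [h2, Finset.sum_singleton] at h1
  have h3 := ENNReal.ofReal_eq_zero.1 (le_antisymm h1 zero_le)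
  have := pow_pos xc_pos [true, true, false, false].length
  linarith

/-- both indices of the cumulative weight of the bridges, with constants -/
def IndB : Prop := ∃ a1 c C : ℝ, 0 < a1 ∧ a1 ≤ 3 / 5 ∧ 0 < c ∧ 0 < C ∧ ∀ b x : ℕ, 1 ≤ b → 1 ≤ x →
  c * (b : ℝ) ^ a1 * ∑ j ∈ range x, ub j ≤ ∑ j ∈ range (b * x), ub j ∧
  ∑ j ∈ range (b * x), ub j ≤ C * (b : ℝ) ^ (3 / 5 : ℝ) * ∑ j ∈ range x, ub j

/-- **bridges with exactly `2 n` letters, every `n`**: `b n ≥ c (b 0 + ... + b (n-1)) / n` -/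
theorem ub_low (hI : IndB) : ∃ c : ℝ, 0 < c ∧ ∀ n : ℕ, 1 ≤ n → c * ((∑ j ∈ range n, ub j) / n) ≤ ub n := by
  obtain ⟨a1, c, C, h1, h2, h3, h4, h5⟩ := hI
  obtain ⟨c', hc', h6⟩ := PWR.renewal_low (a := a1) (b := 3 / 5) (c := c) (C := C) ren fb_two
    ⟨h1, h2, by norm_num, h3, fun k x hk hx => (h5 k x hk hx).1, fun k x hk hx => (h5 k x hk hx).2⟩
  exact ⟨c', hc', h6⟩

/-- **pointwise lower bound for the bridges**: `b n ≥ n ^ (9/16 - 1 - o(1))` for every `n` -/
theorem ub_Lo (hI : IndB) (hL : NUX.Lo (NUX.UU ub) (9 / 16)) : NUX.Lo ub (9 / 16 - 1) := by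
  obtain ⟨a1, c, C, h1, h2, h3, h4, h5⟩ := hI
  exact PWR.renewal_lo (a := a1) (b := 3 / 5) (c := c) (C := C) ren fb_two
    ⟨h1, h2, by norm_num, h3, fun k x hk hx => (h5 k x hk hx).1, fun k x hk hx => (h5 k x hk hx).2⟩ hL

end BrL

end HexObs
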