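import Pool.Agent.PW.RenG
import Pool.Agent.PW.RenH

/-! The two-sided pointwise law for the bridges of the honeycomb lattice by the number of letters (helper69). -/

set_option autoImplicit false

namespace HexObs

namespace BrL

open Finset

/-- indices `a1 ∈ (1/2, 3/5]` and `3/5` -/
def IndB2 (a1 : ℝ) : Prop := ∃ c C : ℝ, 0 < c ∧ 0 < C ∧ ∀ b x : ℕ, 1 ≤ b → 1 ≤ x →
  c * (b : ℝ) ^ a1 * ∑ j ∈ range x, ub j ≤ ∑ j ∈ range (b * x), ub j ∧
  ∑ j ∈ range (b * x), ub j ≤ C * (b : ℝ) ^ (3 / 5 : ℝ) * ∑ j ∈ range x, ub j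

/-- **bridges with exactly `2 n` letters, every `n`, two sided**: `b n` is `(b 0 + ... + b (n-1)) / n` up to constants -/
theorem ub_two {a1 : ℝ} (h1 : 1 / 2 < a1) (h2 : a1 ≤ 3 / 5) (hI : IndB2 a1) :
    ∃ c' C' : ℝ, 0 < c' ∧ 0 < C' ∧ ∀ n : ℕ, 1 ≤ n →
      c' * ((∑ j ∈ range n, ub j) / n) ≤ ub n ∧ ub n ≤ C' * ((∑ j ∈ range n, ub j) / n) := by
  obtain ⟨c, C, h3, h4, h5⟩ := hI
  exact PWR.renewal_two (a := a1) (b := 3 / 5) (c := c) (C := C) ren fb_two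
    ⟨by linarith, h2, by norm_num, h3, fun k x hk hx => (h5 k x hk hx).1, fun k x hk hx => (h5 k x hk hx).2⟩ h1

end BrL

end HexObs
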