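import Pool.Agent.PW.MomT
import Pool.Agent.TPF.Main
import Pool.Agent.TPC.XLow
import Pool.Agent.TPC.XUp
import Pool.Agent.PLD.SelN

/-!
# PW, row MomT (helper70): the two-point bound at a far end, the regularity of gK; MomT without hypothesis
-/

set_option autoImplicit false

namespace HexObs

namespace PWN

open Finset TS SDN TIW HexObs.SIM

open scoped ENNReal

/-- gK is of the order 2 ^ (- 5 K / 24) -/
theorem gK_two : ∃ (a A : ℝ), 0 < a ∧ 0 < A ∧ ∀ K : ℕ, a * (2 : ℝ) ^ (-(5 / 24) * (K : ℝ)) ≤ gK K ∧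
    gK K ≤ A * (2 : ℝ) ^ (-(5 / 24) * (K : ℝ)) := by
  obtain ⟨A2, hA2, hUb⟩ := TPF.Ub_up
  obtain ⟨A3, hA3, hUl⟩ := PLD.Ub_low
  obtain ⟨C1, hC1, hX⟩ := TPC.xUp
  obtain ⟨c1, hc1, hXl⟩ := TPC.xLow
  have hA30 : 0 < A3 := by linarith
  have e4 : ∀ K : ℕ, (4 : ℝ) ^ K = (2 : ℝ) ^ (2 * (K : ℝ)) := fun K => by
    rw [Real.rpow_mul (by norm_num), Real.rpow_natCast]
    norm_num
  have e5 : ∀ K : ℕ, (2 : ℝ) ^ (-(5 / 24) * (K : ℝ)) =
      (2 : ℝ) ^ (3 / 4 * (K : ℝ)) * (2 : ℝ) ^ (25 / 24 * (K : ℝ)) / (4 : ℝ) ^ K := by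
    intro K
    rw [e4, eq_div_iff (by positivity), ← Real.rpow_add (by norm_num), ← Real.rpow_add (by norm_num)]
    congr 1
    ring
  have hXr : ∀ K : ℕ, (NTA.Xb K).toReal ^ 2 ≤ C1 * (2 : ℝ) ^ (25 / 24 * (K : ℝ)) := by
    intro K
    have h := ENNReal.toReal_mono ENNReal.ofReal_ne_top (hX K)
    rwa [ENNReal.toReal_pow, ENNReal.toReal_ofReal (by positivity)] at h
  have hXr' : ∀ K : ℕ, c1 * (2 : ℝ) ^ (25 / 24 * (K : ℝ)) ≤ (NTA.Xb K).toReal ^ 2 := by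
    intro K
    have h := ENNReal.toReal_mono (ENNReal.pow_ne_top (NTA.Xb_ne_top K)) (hXl K)
    rwa [ENNReal.toReal_pow, ENNReal.toReal_ofReal (by positivity)] at h
  refine ⟨1 / A3 * c1, A2 * C1, by positivity, by positivity, fun K => ⟨?_, ?_⟩⟩
  · rw [e5]
    unfold gK
    have h1 : (1 / A3) * (2 : ℝ) ^ (3 / 4 * (K : ℝ)) ≤ Ub K := by
      have := hUl K
      rw [one_div, inv_mul_le_iff₀ hA30]
      exact this
    have hU := Ub_pos K
    calc 1 / A3 * c1 * ((2 : ℝ) ^ (3 / 4 * (K : ℝ)) * (2 : ℝ) ^ (25 / 24 * (K : ℝ)) / (4 : ℝ) ^ K) =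
        (1 / A3 * (2 : ℝ) ^ (3 / 4 * (K : ℝ))) / 4 ^ K * (c1 * (2 : ℝ) ^ (25 / 24 * (K : ℝ))) := by ring
      _ ≤ Ub K / 4 ^ K * (NTA.Xb K).toReal ^ 2 := by
        have := hXr' K
        gcongr
  · rw [e5]
    unfold gK
    calc Ub K / 4 ^ K * (NTA.Xb K).toReal ^ 2 ≤
        (A2 * (2 : ℝ) ^ (3 / 4 * (K : ℝ))) / 4 ^ K * (C1 * (2 : ℝ) ^ (25 / 24 * (K : ℝ))) := by
          have h1 := hXr K
          have h2 := hUb K
          gcongr
      _ = _ := by ring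

/-- **regularity of gK** -/
theorem gSh : GSh := by
  obtain ⟨a, A, ha, hA, h⟩ := gK_two
  intro J
  refine ⟨A / a * (2 : ℝ) ^ (5 / 24 * (J : ℝ)), by positivity, fun K => ?_⟩
  have h1 := h K
  have h2 := h (K + J)
  have e : (2 : ℝ) ^ (-(5 / 24) * ((K + J : ℕ) : ℝ)) * (2 : ℝ) ^ (5 / 24 * (J : ℝ)) = (2 : ℝ) ^ (-(5 / 24) * (K : ℝ)) := by
    rw [← Real.rpow_add (by norm_num)]
    congr 1
    push_cast
    ring
  constructor
  · calc gK K ≤ A * (2 : ℝ) ^ (-(5 / 24) * (K : ℝ)) := h1.2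
      _ = A / a * (2 : ℝ) ^ (5 / 24 * (J : ℝ)) * (a * (2 : ℝ) ^ (-(5 / 24) * ((K + J : ℕ) : ℝ))) := by
          rw [← e]
          field_simp
      _ ≤ _ := mul_le_mul_of_nonneg_left h2.1 (by positivity)
  · have h3 : (2 : ℝ) ^ (-(5 / 24) * ((K + J : ℕ) : ℝ)) ≤ (2 : ℝ) ^ (-(5 / 24) * (K : ℝ)) := by
      refine Real.rpow_le_rpow_of_exponent_le (by norm_num) ?_
      push_cast
      have : (0 : ℝ) ≤ J := Nat.cast_nonneg J
      nlinarith
    have h4 : (1 : ℝ) ≤ (2 : ℝ) ^ (5 / 24 * (J : ℝ)) := Real.one_le_rpow (by norm_num) (by positivity)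
    calc gK (K + J) ≤ A * (2 : ℝ) ^ (-(5 / 24) * ((K + J : ℕ) : ℝ)) := h2.2
      _ ≤ A * (2 : ℝ) ^ (-(5 / 24) * (K : ℝ)) := mul_le_mul_of_nonneg_left h3 hA.le
      _ = A / a * 1 * (a * (2 : ℝ) ^ (-(5 / 24) * (K : ℝ))) := by
          field_simp
      _ ≤ A / a * (2 : ℝ) ^ (5 / 24 * (J : ℝ)) * gK K := by
          refine mul_le_mul (mul_le_mul_of_nonneg_left h4 (by positivity)) h1.1 (by positivity) (by positivity)

/-- two of the three levels determine the norm -/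
lemma hn_lvl (y : Pt) : hn y ≤ |lvl false y| + |lvl true y| := by
  refine hn_le fun d hd => ?_
  have h3 : lvl false y = ip y (0, 1) := rfl
  have h4 : lvl true y = ip y (-1, 0) := rfl
  rw [h3, h4]
  have h1 := le_abs_self (ip y (0, 1))
  have h1' := neg_abs_le (ip y (0, 1))
  have h2 := le_abs_self (ip y (-1, 0))
  have h2' := neg_abs_le (ip y (-1, 0))
  have h5 := abs_nonneg (ip y (0, 1))
  have h6 := abs_nonneg (ip y (-1, 0))
  generalize |ip y (0, 1)| = a at *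
  generalize |ip y (-1, 0)| = b at *
  have key : d = (1, 0) ∨ d = (0, 1) ∨ d = (-1, 1) ∨ d = (-1, 0) ∨ d = (0, -1) ∨ d = (1, -1) := by
    revert d
    decide
  unfold ip at *
  rcases key with rfl | rfl | rfl | rfl | rfl | rfl <;> simp only at * <;> linarith

/-- **the two-point bound at a far end** -/
theorem seY : SeY := by
  obtain ⟨C, D0, hC, h⟩ := TPF.up_gfC TPF.ur TPC.xUp
  obtain ⟨a, A, ha, hA, hg⟩ := gK_two
  refine ⟨C * (2 : ℝ) ^ (5 / 24 : ℝ) / a, D0 + 2, by positivity, fun K y hK hy => ?_⟩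
  have hlt : D0 ≤ 2 ^ (K - 1) := by
    have : K - 1 < 2 ^ (K - 1) := Nat.lt_two_pow_self
    omega
  have hp : (2 : ℤ) ^ K = 2 * 2 ^ (K - 1) := by
    rw [← pow_succ']
    congr 1
    omega
  have hq : ((2 ^ (K - 1) : ℕ) : ℤ) ≤ |lvl false y| ∨ ((2 ^ (K - 1) : ℕ) : ℤ) ≤ |lvl true y| := by
    by_contra hc
    push Not at hc
    push_cast at hc
    have := hn_lvl y
    omega
  have h1 := h y (2 ^ (K - 1)) hlt hq
  refine h1.trans (ENNReal.ofReal_le_ofReal ?_)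
  have e1 : ((2 ^ (K - 1) : ℕ) : ℝ) ^ (-(5 / 24) : ℝ) = (2 : ℝ) ^ (5 / 24 : ℝ) * (2 : ℝ) ^ (-(5 / 24) * (K : ℝ)) := by
    rw [← Real.rpow_add (by norm_num)]
    push_cast
    rw [← Real.rpow_natCast, ← Real.rpow_mul (by norm_num)]
    congr 1
    rw [Nat.cast_sub (by omega)]
    push_cast
    ring
  rw [e1]
  calc C * ((2 : ℝ) ^ (5 / 24 : ℝ) * (2 : ℝ) ^ (-(5 / 24) * (K : ℝ))) =
      C * (2 : ℝ) ^ (5 / 24 : ℝ) / a * (a * (2 : ℝ) ^ (-(5 / 24) * (K : ℝ))) := by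
        field_simp
    _ ≤ _ := mul_le_mul_of_nonneg_left (hg K).1 (by positivity)

/-- **MomT** -/
theorem momT : MomYP := momT_of seY gSh

/-- **MomT for the weights of the levels** -/
theorem momL : MomYL := momL_of momT

end PWN

end HexObs
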