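import Pool.Agent.TPC.CylSum
import Pool.Agent.TPC.AnO
import Pool.Agent.NTS.EndLaw

/-!
# PW (winding central limit theorem), row D5, first part: box and length on the cylinder

The words of the cylinder with `2 k` rows and a given end, out of the box `2 ^ (K + J)` or with more than `C m K` letters,
have a small share of the weight `gK K` of the scale `K = log2 k`, at every end.
-/

set_option autoImplicit false

namespace HexObs

namespace PW.BL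

open Finset TS SDN NTW NTA TPC TPC.An

open scoped ENNReal

/-- the ends over y -/
def EndC (k : ℕ) (y x : Pt) : Prop := ∃ z : ℤ, x = y + (2 * (k : ℤ) * z, 2 * (k : ℤ) * z)

/-- the order of the weight of the scale K at a given end -/
noncomputable def gK (K : ℕ) : ℝ≥0∞ := ENNReal.ofReal (Ub K / 4 ^ K) * Xb K ^ 2

theorem four_pow (K : ℕ) : (4 : ℝ) ^ K = 2 ^ (2 * (K : ℝ)) := by
  rw [Real.rpow_mul (by norm_num), Real.rpow_natCast]
  norm_num

/-- the exact order of gK from above -/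
theorem gK_up (hU : XUp) : ∃ C : ℝ, 0 < C ∧ ∀ K : ℕ, gK K ≤ ENNReal.ofReal (C * 2 ^ (-(5 / 24) * (K : ℝ))) := by
  obtain ⟨_, A, _, hA, h2⟩ := Ub_two
  obtain ⟨X, hX, h3⟩ := hU
  refine ⟨A * X, by positivity, fun K => ?_⟩
  have h4 : (0 : ℝ) < 4 ^ K := by positivity
  calc gK K ≤ ENNReal.ofReal (A * 2 ^ (3 / 4 * (K : ℝ)) / 4 ^ K) * ENNReal.ofReal (X * (2 : ℝ) ^ (25 / 24 * (K : ℝ))) := by
        refine mul_le_mul' (ENNReal.ofReal_le_ofReal ?_) (h3 K)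
        exact div_le_div_of_nonneg_right (h2 K).2 h4.le
    _ = _ := by
        rw [← ENNReal.ofReal_mul (by positivity), four_pow]
        congr 1
        have e : (2 : ℝ) ^ (-(5 / 24) * (K : ℝ)) = 2 ^ (3 / 4 * (K : ℝ)) / 2 ^ (2 * (K : ℝ)) * 2 ^ (25 / 24 * (K : ℝ)) := by
          rw [← Real.rpow_sub (by norm_num), ← Real.rpow_add (by norm_num)]
          congr 1
          ring
        rw [e]
        ring

/-- the exact order of gK from below -/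
theorem gK_low (hL : XLow) : ∃ c : ℝ, 0 < c ∧ ∀ K : ℕ, ENNReal.ofReal (c * 2 ^ (-(5 / 24) * (K : ℝ))) ≤ gK K := by
  obtain ⟨a, _, ha, _, h2⟩ := Ub_two
  obtain ⟨X, hX, h3⟩ := hL
  refine ⟨a * X, by positivity, fun K => ?_⟩
  have h4 : (0 : ℝ) < 4 ^ K := by positivity
  calc ENNReal.ofReal (a * X * 2 ^ (-(5 / 24) * (K : ℝ)))
      = ENNReal.ofReal (a * 2 ^ (3 / 4 * (K : ℝ)) / 4 ^ K) * ENNReal.ofReal (X * (2 : ℝ) ^ (25 / 24 * (K : ℝ))) := by
        rw [← ENNReal.ofReal_mul (by positivity), four_pow]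
        congr 1
        have e : (2 : ℝ) ^ (-(5 / 24) * (K : ℝ)) = 2 ^ (3 / 4 * (K : ℝ)) / 2 ^ (2 * (K : ℝ)) * 2 ^ (25 / 24 * (K : ℝ)) := by
          rw [← Real.rpow_sub (by norm_num), ← Real.rpow_add (by norm_num)]
          congr 1
          ring
        rw [e]
        ring
    _ ≤ _ := by
        refine mul_le_mul' (ENNReal.ofReal_le_ofReal ?_) (h3 K)
        exact div_le_div_of_nonneg_right (h2 K).1 h4.le

/-- the number of the lifts in a box -/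
theorem tsum_lift (r : ℤ) {k : ℕ} (hk : 1 ≤ k) (i : ℕ) (f : ℤ → ℝ≥0∞) (b : ℝ≥0∞) (hf : ∀ z, f z ≤ b)
    (h0 : ∀ z, ¬|r + 2 * (k : ℤ) * z| ≤ 2 ^ i * k → f z = 0) : ∑' z : ℤ, f z ≤ 2 ^ (i + 2) * b := by
  classical
  by_cases hz : ∃ z, |r + 2 * (k : ℤ) * z| ≤ 2 ^ i * k
  · obtain ⟨z0, hz0⟩ := hz
    have hk0 : (0 : ℤ) < k := by exact_mod_cast hk
    have h1 : ∑' z : ℤ, f z = ∑ z ∈ Finset.Icc (z0 - (2 : ℤ) ^ i) (z0 + 2 ^ i), f z := by
      refine tsum_eq_sum fun z hz => h0 z fun h => hz ?_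
      have h3 : |2 * (k : ℤ) * (z - z0)| ≤ 2 * (2 ^ i * k) := by
        have e : 2 * (k : ℤ) * (z - z0) = (r + 2 * (k : ℤ) * z) - (r + 2 * (k : ℤ) * z0) := by ring
        rw [e]
        refine (abs_sub _ _).trans ?_
        linarith
      rw [abs_mul, abs_of_pos (by linarith : (0 : ℤ) < 2 * k)] at h3
      have h4 : |z - z0| ≤ 2 ^ i := by nlinarith
      rw [abs_le] at h4
      exact Finset.mem_Icc.2 ⟨by linarith [h4.1], by linarith [h4.2]⟩
    rw [h1]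
    refine (Finset.sum_le_card_nsmul _ _ b fun z _ => hf z).trans ?_
    rw [Int.card_Icc, nsmul_eq_mul]
    refine mul_le_mul_left ?_ b
    have h2 : (z0 + 2 ^ i + 1 - (z0 - 2 ^ i)).toNat = 2 ^ (i + 1) + 1 := by
      have h3 : (z0 + 2 ^ i + 1 - (z0 - 2 ^ i)) = ((2 ^ (i + 1) + 1 : ℕ) : ℤ) := by
        push_cast
        ring
      rw [h3, Int.toNat_natCast]
    rw [h2]
    have h5 : 2 ^ (i + 1) + 1 ≤ 2 ^ (i + 2) := by
      have := Nat.one_le_two_pow (n := i + 1)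
      rw [pow_succ 2 (i + 1)]
      omega
    exact_mod_cast h5
  · push Not at hz
    have h1 : ∀ z, f z = 0 := fun z => h0 z (not_le.2 (hz z))
    simp [h1]

/-- the tail of the number of letters at a given end -/
theorem len_tail {m : ℕ → ℝ} (hE : EndX m) (hlo : ∃ c : ℝ, 0 < c ∧ ∀ k : ℕ, c * 2 ^ (4 / 3 * (k : ℝ)) ≤ m k)
    (hup : ∃ C : ℝ, ∀ k : ℕ, m k ≤ C * 2 ^ (4 / 3 * (k : ℝ))) (hU : XUp) :
    ∃ (C : ℝ) (k0 : ℕ), 0 < C ∧ ∀ j : ℕ, k0 ≤ j → ∀ x : Pt,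
      gf {t | t ∈ SA ∧ vx oo up t t.length = x ∧ m j ≤ (t.length : ℝ)} ≤ ENNReal.ofReal (C * 2 ^ (-(5 / 24) * (j : ℝ))) := by
  obtain ⟨B, hB, hnu⟩ := nuX_up hlo hU
  obtain ⟨CE, k0, hCE, hend⟩ := hE
  obtain ⟨c, hc, hlo⟩ := hlo
  obtain ⟨M, hM⟩ := hup
  have hM0 : 0 < M := by
    have h1 := hM 0
    have h2 := hlo 0
    have h3 : (0 : ℝ) < 2 ^ (4 / 3 * ((0 : ℕ) : ℝ)) := by positivity
    by_contra h
    push Not at h
    nlinarith
  obtain ⟨q, hq⟩ : ∃ q : ℝ, q = 2 ^ (-(5 / 24) : ℝ) := ⟨_, rfl⟩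
  have hq0 : 0 < q := by rw [hq]; positivity
  have hq1 : q < 1 := by
    rw [hq]
    exact Real.rpow_lt_one_of_one_lt_of_neg (by norm_num) (by norm_num)
  obtain ⟨D, hD⟩ : ∃ D : ℝ, D = (M * 2 ^ (4 / 3 : ℝ) + 1) * (CE * B) := ⟨_, rfl⟩
  have hD0 : 0 < D := by rw [hD]; positivity
  -- one scale
  have hone : ∀ k : ℕ, k0 ≤ k → ∀ x : Pt, gf {t | t ∈ SA ∧ vx oo up t t.length = x ∧ m k ≤ (t.length : ℝ) ∧
      (t.length : ℝ) < m (k + 1)} ≤ ENNReal.ofReal (D * 2 ^ (-(5 / 24) * (k : ℝ))) := by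
    intro k hk x
    obtain ⟨N, hN⟩ : ∃ N : ℕ, N = ⌈m (k + 1)⌉₊ := ⟨_, rfl⟩
    have h1 : {t | t ∈ SA ∧ vx oo up t t.length = x ∧ m k ≤ (t.length : ℝ) ∧ (t.length : ℝ) < m (k + 1)} ⊆
        ⋃ n : Fin N, {t | (t ∈ SawN n ∧ vx oo up t n = x) ∧ m k ≤ ((n : ℕ) : ℝ) ∧ ((n : ℕ) : ℝ) < m (k + 1)} := by
      intro t ht
      obtain ⟨h1, h2, h3, h4⟩ := ht
      have h5 : t.length < N := by
        rw [hN]
        exact_mod_cast (lt_of_lt_of_le h4 (Nat.le_ceil _))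
      exact Set.mem_iUnion.2 ⟨⟨t.length, h5⟩, ⟨⟨rfl, h1⟩, h2⟩, h3, h4⟩
    have h2 : ∀ n : Fin N, gf {t | (t ∈ SawN n ∧ vx oo up t n = x) ∧ m k ≤ ((n : ℕ) : ℝ) ∧ ((n : ℕ) : ℝ) < m (k + 1)} ≤
        ENNReal.ofReal (CE / 4 ^ k * (B * 2 ^ (11 / 24 * (k : ℝ)))) := by
      intro n
      by_cases h : m k ≤ ((n : ℕ) : ℝ) ∧ ((n : ℕ) : ℝ) < m (k + 1)
      · refine (gf_mono fun t ht => ht.1).trans ((hend k n hk h.1 h.2 x).trans ?_)
        rw [ENNReal.ofReal_mul (by positivity)]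
        exact mul_le_mul_right (hnu k) _
      · have h3 : {t | (t ∈ SawN n ∧ vx oo up t n = x) ∧ m k ≤ ((n : ℕ) : ℝ) ∧ ((n : ℕ) : ℝ) < m (k + 1)} = ∅ :=
          Set.eq_empty_iff_forall_notMem.2 fun t ht => h ht.2
        rw [h3]
        unfold gf
        simp
    have h3 : (N : ℝ) ≤ (M * 2 ^ (4 / 3 : ℝ) + 1) * 2 ^ (4 / 3 * (k : ℝ)) := by
      have h4 : (0 : ℝ) ≤ m (k + 1) := le_trans (by positivity) (hlo (k + 1))
      have h5 := Nat.ceil_lt_add_one h4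
      rw [← hN] at h5
      have h6 := hM (k + 1)
      have h7 : (2 : ℝ) ^ (4 / 3 * (((k + 1 : ℕ)) : ℝ)) = 2 ^ (4 / 3 : ℝ) * 2 ^ (4 / 3 * (k : ℝ)) := by
        rw [← Real.rpow_add (by norm_num)]
        congr 1
        push_cast
        ring
      rw [h7] at h6
      have h8 : (1 : ℝ) ≤ 2 ^ (4 / 3 * (k : ℝ)) := Real.one_le_rpow (by norm_num) (by positivity)
      nlinarith
    refine (gf_mono h1).trans ((Pool.Agent.GLD.gf_iUnion_le _).trans ?_)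
    rw [tsum_fintype]
    refine (Finset.sum_le_card_nsmul _ _ _ fun n _ => h2 n).trans ?_
    rw [Finset.card_univ, Fintype.card_fin, nsmul_eq_mul]
    have h4 : ((N : ℕ) : ℝ≥0∞) = ENNReal.ofReal (N : ℝ) := (ENNReal.ofReal_natCast N).symm
    rw [h4, ← ENNReal.ofReal_mul (by positivity)]
    refine ENNReal.ofReal_le_ofReal ?_
    calc (N : ℝ) * (CE / 4 ^ k * (B * 2 ^ (11 / 24 * (k : ℝ))))
        ≤ ((M * 2 ^ (4 / 3 : ℝ) + 1) * 2 ^ (4 / 3 * (k : ℝ))) * (CE / 4 ^ k * (B * 2 ^ (11 / 24 * (k : ℝ)))) :=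
          mul_le_mul_of_nonneg_right h3 (by positivity)
      _ = _ := by
        rw [hD, four_pow]
        have e : (2 : ℝ) ^ (-(5 / 24) * (k : ℝ)) = 2 ^ (4 / 3 * (k : ℝ)) / 2 ^ (2 * (k : ℝ)) * 2 ^ (11 / 24 * (k : ℝ)) := by
          rw [← Real.rpow_sub (by norm_num), ← Real.rpow_add (by norm_num)]
          congr 1
          ring
        rw [e]
        ring
  refine ⟨D * (1 - q)⁻¹, k0, mul_pos hD0 (inv_pos.2 (by linarith)), fun j hj x => ?_⟩
  have h1 : {t | t ∈ SA ∧ vx oo up t t.length = x ∧ m j ≤ (t.length : ℝ)} ⊆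
      ⋃ i : ℕ, {t | t ∈ SA ∧ vx oo up t t.length = x ∧ m (j + i) ≤ (t.length : ℝ) ∧ (t.length : ℝ) < m (j + i + 1)} := by
    intro t ht
    obtain ⟨h1, h2, h3⟩ := ht
    obtain ⟨k, h4, h5, h6⟩ := scale hc hlo h3
    refine Set.mem_iUnion.2 ⟨k - j, h1, h2, ?_, ?_⟩
    · rw [show j + (k - j) = k by omega]
      exact h5
    · rw [show j + (k - j) = k by omega]
      exact h6
  refine (gf_mono h1).trans ((Pool.Agent.GLD.gf_iUnion_le _).trans ?_)
  have h2 : ∀ i : ℕ, gf {t | t ∈ SA ∧ vx oo up t t.length = x ∧ m (j + i) ≤ (t.length : ℝ) ∧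
      (t.length : ℝ) < m (j + i + 1)} ≤ ENNReal.ofReal (D * 2 ^ (-(5 / 24) * (j : ℝ)) * q ^ i) := by
    intro i
    refine (hone (j + i) (by omega) x).trans (le_of_eq ?_)
    congr 1
    rw [hq, ← Real.rpow_natCast ((2 : ℝ) ^ (-(5 / 24) : ℝ)) i, ← Real.rpow_mul (by norm_num), mul_assoc,
      ← Real.rpow_add (by norm_num)]
    congr 2
    push_cast
    ring
  refine (ENNReal.tsum_le_tsum h2).trans (le_of_eq ?_)
  rw [← ENNReal.ofReal_tsum_of_nonneg (fun i => by positivity)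
    ((summable_geometric_of_lt_one hq0.le hq1).mul_left _), tsum_mul_left, tsum_geometric_of_lt_one hq0.le hq1]
  congr 1
  ring

/-- the row of a lift -/
theorem row_lift (y : Pt) (a : ℤ) : row false (y + (a, a)) = row false y + a := by
  unfold row lvl
  have h7 : ip (y + (a, a) : Pt) (hd false) = ip y (hd false) + 3 * a := by
    simp only [ip, hd, up, Bool.false_eq_true, if_false, Prod.fst_add, Prod.snd_add]
    ring
  rw [h7, Int.add_mul_ediv_left _ _ (by norm_num)]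

/-- **out of the box** -/
theorem box_tail (hX : XDbl) (hS : SD) : ∀ ε : ℝ, 0 < ε → ∃ (J K0 : ℕ), ∀ (k : ℕ) (y : Pt), K0 ≤ Nat.log 2 k →
    gf {t | t ∈ SA ∧ Dsj k t ∧ EndC k y (vx oo up t t.length) ∧ t ∉ WL (Nat.log 2 k + J)} ≤
      ENNReal.ofReal ε * gK (Nat.log 2 k) := by
  intro ε hε
  obtain ⟨D, hD, hd⟩ := hX
  obtain ⟨C, c, k0, hC, hc, hS⟩ := hS
  have hXp : ∀ L i : ℕ, Xb (L + i) ≤ ENNReal.ofReal (D ^ i) * Xb L := by
    intro L i
    induction i with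
    | zero => simp
    | succ i ih =>
      calc Xb (L + (i + 1)) ≤ ENNReal.ofReal D * Xb (L + i) := hd (L + i)
        _ ≤ ENNReal.ofReal D * (ENNReal.ofReal (D ^ i) * Xb L) := by gcongr
        _ = _ := by
          rw [← mul_assoc, ← ENNReal.ofReal_mul (by linarith), pow_succ, mul_comm (D ^ i)]
  have hC0 : 0 < C := by linarith
  have hsum := ser_sum (B := C * D ^ 2) (by positivity) hc
  obtain ⟨f, hf⟩ : ∃ f : ℕ → ℝ, f = fun i => (C * D ^ 2) ^ i * (2 : ℝ) ^ (-(c * 2 ^ i)) := ⟨_, rfl⟩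
  have hsf : Summable f := by rw [hf]; exact hsum
  have hf0 : ∀ i, 0 ≤ f i := fun i => by rw [hf]; positivity
  obtain ⟨J, hJ⟩ : ∃ J : ℕ, ∑' i, f (i + J) < ε / (4 * C) :=
    ((tendsto_sum_nat_add f).eventually (gt_mem_nhds (by positivity))).exists
  refine ⟨J, max k0 1, fun k y hk => ?_⟩
  obtain ⟨L, hL⟩ : ∃ L, L = Nat.log 2 k := ⟨_, rfl⟩
  rw [← hL] at hk ⊢
  have hk1 : 1 ≤ L := (le_max_right _ _).trans hk
  have hkne : k ≠ 0 := by
    rintro rfl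
    simp at hL
    omega
  have hLk : 2 ^ L ≤ k := by
    rw [hL]
    exact Nat.pow_log_le_self 2 hkne
  have hk0 : k0 ≤ k := by
    have := Nat.lt_two_pow_self (n := L)
    have := (le_max_left k0 1).trans hk
    omega
  have hk1' : 1 ≤ k := Nat.one_le_iff_ne_zero.2 hkne
  have hU0 : 0 < Ub L := Num2Aux.UU_pos _
  obtain ⟨F, hF⟩ : ∃ F : ℕ → ℤ → Set (List Bool), F = fun i z =>
      {t | (t ∈ EndK (L + (i + J)) (y + (2 * (k : ℤ) * z, 2 * (k : ℤ) * z)) ∧ Dsj k t) ∧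
        |row false y + 2 * (k : ℤ) * z| ≤ 2 ^ (i + J) * k} := ⟨_, rfl⟩
  have hS' : ∀ (i : ℕ) (y : Pt), gf {t | t ∈ EndK (L + i) y ∧ Dsj k t} ≤
      ENNReal.ofReal (C ^ (i + 1) * (2 : ℝ) ^ (-(c * 2 ^ i)) * (Ub (L + i) / 4 ^ (L + i))) * Xb (L + i) ^ 2 := by
    intro i y
    rw [hL]
    exact hS k i y hk0
  have hsub : {t | t ∈ SA ∧ Dsj k t ∧ EndC k y (vx oo up t t.length) ∧ t ∉ WL (L + J)} ⊆ ⋃ i : ℕ, ⋃ z : ℤ, F i z := by
    intro t ht
    obtain ⟨h1, h2, ⟨z, hz⟩, h3⟩ := ht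
    classical
    have hex := BAR.WL_ex h1
    obtain ⟨K, hK⟩ : ∃ K, K = Nat.find hex := ⟨_, rfl⟩
    have hK1 : t ∈ WL K := by
      rw [hK]
      exact Nat.find_spec hex
    have hK2 : ∀ j, j < K → t ∉ WL j := by
      intro j hj
      rw [hK] at hj
      exact Nat.find_min hex hj
    have hKJ : L + J < K := by
      by_contra hcon
      exact h3 (BAR.WL_mono (not_lt.1 hcon) hK1)
    have h5 := hK1.2 t.length le_rfl false
    rw [hz, row_lift] at h5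
    refine Set.mem_iUnion.2 ⟨K - (L + J), Set.mem_iUnion.2 ⟨z, ?_⟩⟩
    have e : L + (K - (L + J) + J) = K := by omega
    rw [hF]
    refine ⟨⟨⟨?_, ?_, ?_⟩, h2⟩, ?_⟩
    · rw [e]
      exact hK1
    · rw [e]
      exact hK2 _ (by omega)
    · exact hz
    · refine h5.trans ?_
      have h6 : (2 : ℤ) ^ K = 2 ^ (K - (L + J) + J) * 2 ^ L := by rw [← pow_add, show K - (L + J) + J + L = K by omega]
      rw [h6]
      exact mul_le_mul_of_nonneg_left (by exact_mod_cast hLk) (by positivity)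
  have h1 : ∀ i : ℕ, ∑' z : ℤ, gf (F i z) ≤ ENNReal.ofReal (4 * C * f (i + J)) * gK L := by
    intro i
    have h2 := tsum_lift (row false y) hk1' (i + J) (fun z => gf (F i z)) (ENNReal.ofReal (C ^ (i + J + 1) *
      (2 : ℝ) ^ (-(c * 2 ^ (i + J))) * (Ub (L + (i + J)) / 4 ^ (L + (i + J)))) * Xb (L + (i + J)) ^ 2) (fun z => by
        refine (gf_mono fun t ht => ?_).trans (hS' (i + J) (y + (2 * (k : ℤ) * z, 2 * (k : ℤ) * z)))
        rw [hF] at ht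
        exact ht.1) (fun z hz => by
        have h3 : F i z = ∅ := by
          rw [hF]
          exact Set.eq_empty_iff_forall_notMem.2 fun t ht => hz ht.2
        show gf (F i z) = 0
        rw [h3]
        unfold gf
        simp)
    refine h2.trans ?_
    obtain ⟨a, ha⟩ : ∃ a, a = i + J := ⟨_, rfl⟩
    rw [← ha]
    have h4 : Ub (L + a) ≤ 2 ^ a * Ub L := T2.AN.UU_up L a
    have h5 : C ^ (a + 1) * (2 : ℝ) ^ (-(c * 2 ^ a)) * (Ub (L + a) / 4 ^ (L + a)) ≤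
        C ^ (a + 1) * (2 : ℝ) ^ (-(c * 2 ^ a)) * (2 ^ a * Ub L / (4 ^ L * 4 ^ a)) := by
      rw [show (4 : ℝ) ^ (L + a) = 4 ^ L * 4 ^ a from pow_add _ _ _]
      gcongr
    have h7 : 2 ^ (a + 2) * (C ^ (a + 1) * (2 : ℝ) ^ (-(c * 2 ^ a)) * (2 ^ a * Ub L / (4 ^ L * 4 ^ a))) *
          (D ^ a * D ^ a) = 4 * C * f a * (Ub L / 4 ^ L) := by
      have e4 : (4 : ℝ) ^ a = 2 ^ a * 2 ^ a := by rw [← mul_pow]; norm_num
      have e5 : (C * D ^ 2) ^ a = C ^ a * (D ^ a * D ^ a) := by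
        rw [mul_pow, ← pow_mul, ← pow_add]
        congr 2
        ring
      have h2i : (2 : ℝ) ^ a ≠ 0 := by positivity
      have h4L : (4 : ℝ) ^ L ≠ 0 := by positivity
      rw [hf]
      show _ = 4 * C * ((C * D ^ 2) ^ a * (2 : ℝ) ^ (-(c * 2 ^ a))) * (Ub L / 4 ^ L)
      rw [e4, e5, pow_succ C, pow_add 2 a 2]
      field_simp
      ring
    calc (2 : ℝ≥0∞) ^ (a + 2) * (ENNReal.ofReal (C ^ (a + 1) * (2 : ℝ) ^ (-(c * 2 ^ a)) * (Ub (L + a) / 4 ^ (L + a))) *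
          Xb (L + a) ^ 2) ≤ (2 : ℝ≥0∞) ^ (a + 2) * (ENNReal.ofReal (C ^ (a + 1) * (2 : ℝ) ^ (-(c * 2 ^ a)) *
          (2 ^ a * Ub L / (4 ^ L * 4 ^ a))) * (ENNReal.ofReal (D ^ a) * Xb L) ^ 2) := by
          gcongr
          exact hXp L a
      _ = ENNReal.ofReal (2 ^ (a + 2) * (C ^ (a + 1) * (2 : ℝ) ^ (-(c * 2 ^ a)) * (2 ^ a * Ub L / (4 ^ L * 4 ^ a))) *
          (D ^ a * D ^ a)) * Xb L ^ 2 := by
          have e2 : (2 : ℝ≥0∞) ^ (a + 2) = ENNReal.ofReal (2 ^ (a + 2)) := by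
            rw [ENNReal.ofReal_pow (by norm_num)]
            norm_num
          rw [e2]
          exact cmb _ _ _ (by positivity) (by positivity) (by positivity) _
      _ = _ := by
          have := hf0 a
          unfold gK
          rw [h7, ENNReal.ofReal_mul (by positivity), mul_assoc]
  calc gf {t | t ∈ SA ∧ Dsj k t ∧ EndC k y (vx oo up t t.length) ∧ t ∉ WL (L + J)}
      ≤ ∑' i : ℕ, ∑' z : ℤ, gf (F i z) := by
        refine (gf_mono hsub).trans ((Pool.Agent.GLD.gf_iUnion_le _).trans (ENNReal.tsum_le_tsum fun i => ?_))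
        exact Pool.Agent.GLD.gf_iUnion_le _
    _ ≤ ∑' i : ℕ, ENNReal.ofReal (4 * C * f (i + J)) * gK L := ENNReal.tsum_le_tsum h1
    _ = ENNReal.ofReal (4 * C * ∑' i, f (i + J)) * gK L := by
        have hs : Summable fun i => f (i + J) := (summable_nat_add_iff J).2 hsf
        rw [ENNReal.tsum_mul_right, ← ENNReal.ofReal_tsum_of_nonneg (fun i => by have := hf0 (i + J); positivity)
          (hs.mul_left _), tsum_mul_left]
    _ ≤ ENNReal.ofReal ε * gK L := by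
        refine mul_le_mul_left (ENNReal.ofReal_le_ofReal ?_) _
        have h3 := mul_le_mul_of_nonneg_left hJ.le (by positivity : (0 : ℝ) ≤ 4 * C)
        rw [mul_div_cancel₀ _ (by positivity : (4 * C : ℝ) ≠ 0)] at h3
        exact h3

/-- **box and length on the cylinder**, every end -/
theorem boxlen_of {m : ℕ → ℝ} (hE : EndX m) (hlo : ∃ c : ℝ, 0 < c ∧ ∀ k : ℕ, c * 2 ^ (4 / 3 * (k : ℝ)) ≤ m k)
    (hup : ∃ C : ℝ, ∀ k : ℕ, m k ≤ C * 2 ^ (4 / 3 * (k : ℝ))) (hU : XUp) (hL : XLow) (hX : XDbl) (hS : SD) :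
    ∀ ε : ℝ, 0 < ε → ∃ (J : ℕ) (Λ : ℝ) (K0 : ℕ), 0 < Λ ∧ ∀ (k : ℕ) (y : Pt), K0 ≤ Nat.log 2 k →
      gf {t | t ∈ SA ∧ Dsj k t ∧ EndC k y (vx oo up t t.length) ∧
        ¬(t ∈ WL (Nat.log 2 k + J) ∧ (t.length : ℝ) ≤ Λ * m (Nat.log 2 k))} ≤ ENNReal.ofReal ε * gK (Nat.log 2 k) := by
  intro ε hε
  obtain ⟨J, K1, h1⟩ := box_tail hX hS (ε / 2) (by positivity)
  obtain ⟨Cl, k0, hCl, hlen⟩ := len_tail hE hlo hup hU
  obtain ⟨cg, hcg, hgl⟩ := gK_low hL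
  obtain ⟨c, hc, hlo⟩ := hlo
  obtain ⟨M, hM⟩ := hup
  have hM0 : 0 < M := by
    have h1 := hM 0
    have h2 := hlo 0
    have h3 : (0 : ℝ) < 2 ^ (4 / 3 * ((0 : ℕ) : ℝ)) := by positivity
    by_contra h
    push Not at h
    nlinarith
  obtain ⟨q, hq⟩ : ∃ q : ℝ, q = 2 ^ (-(5 / 24) : ℝ) := ⟨_, rfl⟩
  have hq0 : 0 < q := by rw [hq]; positivity
  have hq1 : q < 1 := by
    rw [hq]
    exact Real.rpow_lt_one_of_one_lt_of_neg (by norm_num) (by norm_num)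
  obtain ⟨j, hj⟩ : ∃ j : ℕ, q ^ j < ε / 2 * cg / (2 ^ (J + 2) * Cl) := exists_pow_lt_of_lt_one (by positivity) hq1
  refine ⟨J, M / c * 2 ^ (4 / 3 * (j : ℝ)), max (max K1 k0) 1, by positivity, fun k y hk => ?_⟩
  obtain ⟨L, hLd⟩ : ∃ L, L = Nat.log 2 k := ⟨_, rfl⟩
  have hkK := (le_max_left _ _).trans hk
  have h1 := h1 k y ((le_max_left _ _).trans hkK)
  have hk0 := (le_max_right _ _).trans hkK
  have hk1 := (le_max_right _ _).trans hk
  rw [← hLd] at hk0 hk1 h1 ⊢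
  have hkne : k ≠ 0 := by
    rintro rfl
    simp at hLd
    omega
  have hLk : 2 ^ L ≤ k := by
    rw [hLd]
    exact Nat.pow_log_le_self 2 hkne
  have hk1' : 1 ≤ k := Nat.one_le_iff_ne_zero.2 hkne
  obtain ⟨F, hF⟩ : ∃ F : ℤ → Set (List Bool), F = fun z =>
      {t | (t ∈ SA ∧ vx oo up t t.length = y + (2 * (k : ℤ) * z, 2 * (k : ℤ) * z) ∧ m (L + j) ≤ (t.length : ℝ)) ∧
        |row false y + 2 * (k : ℤ) * z| ≤ 2 ^ J * k} := ⟨_, rfl⟩
  have hsub : {t | t ∈ SA ∧ Dsj k t ∧ EndC k y (vx oo up t t.length) ∧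
      ¬(t ∈ WL (L + J) ∧ (t.length : ℝ) ≤ M / c * 2 ^ (4 / 3 * (j : ℝ)) * m L)} ⊆
      {t | t ∈ SA ∧ Dsj k t ∧ EndC k y (vx oo up t t.length) ∧ t ∉ WL (L + J)} ∪ ⋃ z : ℤ, F z := by
    intro t ht
    obtain ⟨h2, h3, h4, h5⟩ := ht
    by_cases h6 : t ∈ WL (L + J)
    · right
      obtain ⟨z, hz⟩ := h4
      have h7 : M / c * 2 ^ (4 / 3 * (j : ℝ)) * m L < (t.length : ℝ) := by
        by_contra h
        exact h5 ⟨h6, not_lt.1 h⟩
      have h8 := h6.2 t.length le_rfl false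
      rw [hz, row_lift] at h8
      refine Set.mem_iUnion.2 ⟨z, ?_⟩
      rw [hF]
      refine ⟨⟨h2, hz, ?_⟩, ?_⟩
      · refine le_trans ?_ h7.le
        have h9 : (2 : ℝ) ^ (4 / 3 * ((L + j : ℕ) : ℝ)) = 2 ^ (4 / 3 * (j : ℝ)) * 2 ^ (4 / 3 * (L : ℝ)) := by
          rw [← Real.rpow_add (by norm_num)]
          congr 1
          push_cast
          ring
        calc m (L + j) ≤ M * 2 ^ (4 / 3 * ((L + j : ℕ) : ℝ)) := hM _
          _ = M / c * 2 ^ (4 / 3 * (j : ℝ)) * (c * 2 ^ (4 / 3 * (L : ℝ))) := by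
              rw [h9]
              field_simp
          _ ≤ _ := mul_le_mul_of_nonneg_left (hlo L) (by positivity)
      · refine h8.trans ?_
        have h6 : (2 : ℤ) ^ (L + J) = 2 ^ J * 2 ^ L := by rw [← pow_add, add_comm]
        rw [h6]
        exact mul_le_mul_of_nonneg_left (by exact_mod_cast hLk) (by positivity)
    · left
      exact ⟨h2, h3, h4, h6⟩
  have h2 : gf (⋃ z : ℤ, F z) ≤ ENNReal.ofReal (ε / 2) * gK L := by
    refine (Pool.Agent.GLD.gf_iUnion_le _).trans ?_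
    have h3 := tsum_lift (row false y) hk1' J (fun z => gf (F z)) (ENNReal.ofReal (Cl * 2 ^ (-(5 / 24) * ((L + j : ℕ) : ℝ))))
      (fun z => by
        refine (gf_mono fun t ht => ?_).trans (hlen (L + j) (by omega) (y + (2 * (k : ℤ) * z, 2 * (k : ℤ) * z)))
        rw [hF] at ht
        exact ht.1) (fun z hz => by
        have h3 : F z = ∅ := by
          rw [hF]
          exact Set.eq_empty_iff_forall_notMem.2 fun t ht => hz ht.2
        show gf (F z) = 0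
        rw [h3]
        unfold gf
        simp)
    refine h3.trans ?_
    have e2 : (2 : ℝ≥0∞) ^ (J + 2) = ENNReal.ofReal (2 ^ (J + 2)) := by
      rw [ENNReal.ofReal_pow (by norm_num)]
      norm_num
    have e3 : (2 : ℝ) ^ (-(5 / 24) * ((L + j : ℕ) : ℝ)) = q ^ j * 2 ^ (-(5 / 24) * (L : ℝ)) := by
      rw [hq, ← Real.rpow_natCast ((2 : ℝ) ^ (-(5 / 24) : ℝ)) j, ← Real.rpow_mul (by norm_num), ← Real.rpow_add (by norm_num)]
      congr 1
      push_cast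
      ring
    rw [e2, ← ENNReal.ofReal_mul (by positivity)]
    calc ENNReal.ofReal (2 ^ (J + 2) * (Cl * 2 ^ (-(5 / 24) * ((L + j : ℕ) : ℝ))))
        ≤ ENNReal.ofReal (ε / 2 * (cg * 2 ^ (-(5 / 24) * (L : ℝ)))) := by
          refine ENNReal.ofReal_le_ofReal ?_
          rw [e3]
          have h4 : 2 ^ (J + 2) * Cl * q ^ j ≤ ε / 2 * cg := by
            rw [lt_div_iff₀ (by positivity)] at hj
            linarith
          have h5 := mul_le_mul_of_nonneg_right h4 (by positivity : (0 : ℝ) ≤ 2 ^ (-(5 / 24) * (L : ℝ)))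
          linarith
      _ = ENNReal.ofReal (ε / 2) * ENNReal.ofReal (cg * 2 ^ (-(5 / 24) * (L : ℝ))) := ENNReal.ofReal_mul (by positivity)
      _ ≤ _ := mul_le_mul_right (hgl L) _
  calc _ ≤ gf ({t | t ∈ SA ∧ Dsj k t ∧ EndC k y (vx oo up t t.length) ∧ t ∉ WL (L + J)} ∪ ⋃ z : ℤ, F z) := gf_mono hsub
    _ ≤ ENNReal.ofReal (ε / 2) * gK L + ENNReal.ofReal (ε / 2) * gK L := (gf_union_le _ _).trans (add_le_add h1 h2)
    _ = ENNReal.ofReal ε * gK L := by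
        rw [← add_mul, ← ENNReal.ofReal_add (by positivity) (by positivity)]
        congr 2
        ring

end PW.BL

end HexObs
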