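import Pool.Agent.PW.RunB
import Pool.Agent.PW.TubeW
import Pool.Agent.NTA.StepA
import Pool.Agent.NTA.RunDir

/-!
PW: the event theorem for runs of interior leaves in the bridges of the box, both directions (the direction true by the tube
embedding, the interior folds being local).
-/

set_option autoImplicit false

namespace HexObs

namespace PW

open Finset TS SDN SDN.CN NTm NTW NTA

open scoped ENNReal

/-- an extremum of size R at τ, witnessed on [i0, i1] -/
structure Top (F : ℕ → ℤ) (R : ℤ) (k i0 τ i1 : ℕ) : Prop where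
  l : i0 < τ
  r : τ < i1
  hi : ∀ i, i0 ≤ i → i ≤ τ → Tight.sg k (F i) ≤ Tight.sg k (F τ)
  lt : ∀ i, τ < i → i ≤ i1 → Tight.sg k (F i) < Tight.sg k (F τ)
  a : R ≤ Tight.sg k (F τ) - Tight.sg k (F i0)
  b : R ≤ Tight.sg k (F τ) - Tight.sg k (F i1)

section

variable {F : ℕ → ℤ} {R : ℤ} {n m u : ℕ} {e : ℕ → ℕ}

/-- an extremum of size R is an interior fold -/
lemma top_fold (h : Hyst F n R m u e) {k i0 τ i1 : ℕ} (hi1 : i1 ≤ n) (ht : Top F R k i0 τ i1) :
    ∃ j, 1 ≤ j ∧ j < m ∧ e j = τ := by
  have l1 := ht.l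
  have r1 := ht.r
  have a1 := ht.a
  have b1 := ht.b
  have h0 : e 0 < τ := by
    by_contra hc
    have := h.start_sg k (x := i0) (y := τ) (by omega) (by omega)
    omega
  have hm : τ < e m := by
    by_contra hc
    have := h.fin_sg k (x := i1) (y := τ) (by omega) (by omega) (by omega) (by omega)
    omega
  obtain ⟨j, j1, j2, j3, j4⟩ := find_leaf (E := e) (a := 0) (x := τ) m h0 (by rw [zero_add]; exact hm.le)
  rw [zero_add] at j2
  by_cases hp : Even (u + j) ↔ Even k
  · have hs : ∀ x, Tight.sg (u + j) x = Tight.sg k x := fun x => NTm.sg_par hp x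
    rcases Nat.eq_or_lt_of_le j4 with h5 | h5
    · refine ⟨j + 1, by omega, ?_, h5.symm⟩
      by_contra hc
      have : j + 1 = m := by omega
      rw [this] at h5
      omega
    · exfalso
      rcases Nat.lt_or_ge (e (j + 1)) i1 with h6 | h6
      · have c1 := ht.lt (e (j + 1)) h5 h6.le
        have c2 := h.hi j j2 τ j3.le j4
        rw [hs, hs] at c2
        omega
      · have c1 := h.small j j2 τ i1 j3.le r1.le h6
        rw [hs, hs] at c1
        omega
  · exfalso
    have hs : ∀ x, Tight.sg (u + j) x = -Tight.sg k x := by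
      intro x
      rw [← Tight.sg_succ]
      exact NTm.sg_par (by rw [Nat.even_add_one (n := k)]; tauto) x
    rcases Nat.lt_or_ge i0 (e j) with h6 | h6
    · have c1 := ht.hi (e j) h6.le j3.le
      have c2 := h.lo j j2 τ j3 j4
      rw [hs, hs] at c2
      omega
    · have c1 := h.small j j2 i0 τ h6 l1.le j4
      rw [hs, hs] at c1
      omega

/-- an interior fold is an extremum of size R -/
lemma fold_top (h : Hyst F n R m u e) {j : ℕ} (h2 : j + 1 < m) :
    Top F R (u + j) (e j) (e (j + 1)) (e (j + 2)) := by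
  refine ⟨h.lt j (by omega), h.lt (j + 1) h2, fun i i1 i2 => h.hi j (by omega) i i1 i2, fun i i1 i2 => ?_, h.big j (by omega),
    ?_⟩
  · have := h.lo (j + 1) h2 i i1 i2
    rw [← add_assoc, Tight.sg_succ, Tight.sg_succ] at this
    omega
  · have := h.big (j + 1) h2
    rw [← add_assoc, Tight.sg_succ, Tight.sg_succ] at this
    show R ≤ Tight.sg (u + j) (F (e (j + 1))) - Tight.sg (u + j) (F (e (j + 1 + 1)))
    omega

/-- the interior folds are local -/
theorem hyst_window {N a M U : ℕ} {E : ℕ → ℕ} (H : Hyst F N R M U E) (h : Hyst (fun i => F (a + i)) n R m u e)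
    (han : a + n ≤ N) : ∃ c, ∀ j, 1 ≤ j → j < m → j + c < M ∧ E (j + c) = a + e j := by
  have hle : ∀ j, j ≤ m → e j ≤ n := fun j hj => (h.monoA hj le_rfl).trans h.le
  have hup : ∀ {k i0 τ i1 : ℕ}, Top (fun i => F (a + i)) R k i0 τ i1 → Top F R k (a + i0) (a + τ) (a + i1) := by
    intro k i0 τ i1 ht
    refine ⟨by have := ht.l; omega, by have := ht.r; omega, fun i i1' i2 => ?_, fun i i1' i2 => ?_, ht.a, ht.b⟩
    · have := ht.hi (i - a) (by omega) (by omega)
      rwa [show a + (i - a) = i by omega] at this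
    · have := ht.lt (i - a) (by omega) (by omega)
      rwa [show a + (i - a) = i by omega] at this
  rcases Nat.lt_or_ge 1 m with hm | hm
  swap
  · exact ⟨0, fun j j1 j2 => by omega⟩
  have glob : ∀ j, 1 ≤ j → j < m → ∃ k, 1 ≤ k ∧ k < M ∧ E k = a + e j := by
    intro j j1 j2
    obtain ⟨j', rfl⟩ : ∃ j', j = j' + 1 := ⟨j - 1, by omega⟩
    have h1 := hup (fold_top h (j := j') j2)
    exact top_fold H (by have := hle (j' + 2) (by omega); omega) h1
  obtain ⟨k1, k2, k3, k4⟩ := glob 1 le_rfl hm
  refine ⟨k1 - 1, ?_⟩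
  intro j
  induction j with
  | zero => intro h1; omega
  | succ j ih =>
    intro _ j2
    rcases Nat.eq_zero_or_pos j with h0 | h0
    · subst h0
      rw [zero_add, show 1 + (k1 - 1) = k1 by omega]
      exact ⟨k3, k4⟩
    obtain ⟨i1, i2⟩ := ih h0 (by omega)
    obtain ⟨k, g1, g2, g3⟩ := glob (j + 1) (by omega) j2
    have hej := h.lt j (by omega)
    obtain ⟨c, hc⟩ : ∃ c, c = k1 - 1 := ⟨_, rfl⟩
    rw [← hc] at i1 i2 ⊢
    -- k is behind j + c
    have hk1 : j + c < k := by
      by_contra hcon
      have := H.monoA (show k ≤ j + c by omega) (by omega)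
      omega
    rcases Nat.eq_or_lt_of_le (show j + c + 1 ≤ k by omega) with h5 | h5
    · rw [show j + 1 + c = k by omega]
      exact ⟨g2, g3⟩
    · exfalso
      have t1 := fold_top H (j := j + c) (by omega)
      have m1 := H.lt (j + c) (by omega)
      have m2 := H.monoA (show j + c + 2 ≤ k by omega) g2.le
      have m3 := H.lt (j + c + 1) (by omega)
      have m4 : E (j + c + 1) < E k := by
        have := H.monoA (show j + c + 2 ≤ k by omega) g2.le
        exact lt_of_lt_of_le m3 this
      have t2 : Top (fun i => F (a + i)) R (U + (j + c)) (e j) (E (j + c + 1) - a) (E (j + c + 2) - a) := by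
        have b0 : a + e j ≤ E (j + c + 1) := by omega
        have b4 : E (j + c + 1) < E (j + c + 2) := m3
        refine ⟨by omega, ?_, fun i i1' i2' => ?_, fun i i1' i2' => ?_, ?_, ?_⟩
        · have : E (j + c + 1) < E (j + c + 2) := m3
          omega
        · have := t1.hi (a + i) (by omega) (by omega)
          show _ ≤ Tight.sg _ (F (a + (E (j + c + 1) - a)))
          rwa [show a + (E (j + c + 1) - a) = E (j + c + 1) by omega]
        · have := t1.lt (a + i) (by omega) (by omega)
          show _ < Tight.sg _ (F (a + (E (j + c + 1) - a)))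
          rwa [show a + (E (j + c + 1) - a) = E (j + c + 1) by omega]
        · have := t1.a
          rw [i2] at this
          show R ≤ Tight.sg _ (F (a + (E (j + c + 1) - a))) - _
          rwa [show a + (E (j + c + 1) - a) = E (j + c + 1) by omega]
        · have := t1.b
          show R ≤ Tight.sg _ (F (a + (E (j + c + 1) - a))) - Tight.sg _ (F (a + (E (j + c + 2) - a)))
          rw [show a + (E (j + c + 1) - a) = E (j + c + 1) by omega,
            show a + (E (j + c + 2) - a) = E (j + c + 2) by omega]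
          exact this
      have hb : E (j + c + 2) - a ≤ n := by
        have b1 := hle (j + 1) j2.le
        have b2 : E (j + c + 2) ≤ a + e (j + 1) := g3 ▸ m2
        omega
      obtain ⟨j', p1, p2, p3⟩ := top_fold h hb t2
      have b3 : E (j + c + 1) < a + e (j + 1) := g3 ▸ m4
      -- between e j and e (j + 1)
      have q1 : e j < e j' := by omega
      have q2 : e j' < e (j + 1) := by omega
      have q3 : j < j' := by
        by_contra hcon
        have := h.monoA (show j' ≤ j by omega) (by omega)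
        omega
      have q4 : j' < j + 1 := by
        by_contra hcon
        have := h.monoA (show j + 1 ≤ j' by omega) p2.le
        omega
      omega

end

/-- the words of the leaves of an infix -/
lemma lw_infix {A t B : List Bool} {x y : ℕ} (hx : x < y) (hy : y ≤ t.length) :
    lw (A ++ (t ++ B)) (A.length + x) (A.length + y) = lw t x y := by
  unfold lw
  have h1 : (A ++ (t ++ B)).drop (A.length + x + 1) = (t ++ B).drop (x + 1) := by
    rw [add_assoc, ← List.drop_drop, List.drop_left]
  have h2 : ((t ++ B).drop (x + 1)).take (A.length + y - (A.length + x) - 2) = (t.drop (x + 1)).take (y - x - 2) := by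
    rw [show A.length + y - (A.length + x) - 2 = y - x - 2 by omega, List.drop_append_of_le_length (by omega),
      List.take_append_of_le_length (by rw [List.length_drop]; omega)]
  have h3 : tf (A ++ (t ++ B)) (A.length + y - 1) = tf t (y - 1) := by
    rw [show A.length + y - 1 = A.length + (y - 1) by omega, tf_append_right, tf_append_left (by omega)]
  rw [h1, h2, h3]

/-- the runs of the interior leaves, direction false -/
lemma run_erb {kc J : ℕ} {R : Set (List (List Bool))} {t : List Bool} (ht : t ∈ BL (kc + J)) {m u : ℕ} {e : ℕ → ℕ}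
    (h : Lf false (kc + 5) t m u e) {l d : ℕ} (hl : 1 ≤ l) (hd : 1 ≤ d) (hm : l + d + 1 ≤ m) (hR : lws t e l d ∈ R) :
    t ∈ ERB kc J R := by
  refine ⟨ht, m, u, e, h, l, d, hd, by omega, fun ms hms _ hmid _ _ => ?_⟩
  have h5 : ms = lws t e l d := by
    apply List.ext_getElem
    · rw [hms]
      simp [lws]
    · intro i hi hi'
      rw [hmid i hi (by omega) (by omega)]
      simp [lws]
  rw [h5]
  exact hR

/-- the lateral runs of t are vertical runs of the walk w around t -/
lemma run_embed {kc J : ℕ} {R : Set (List (List Bool))} {t A B : List Bool} {c : ℤ} (hw : A ++ (t ++ B) ∈ BL (kc + J))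
    (hrel : ∀ i, i ≤ t.length → lvl false (vx oo up (A ++ (t ++ B)) (A.length + i)) = c - lvl true (vx oo up t i))
    (h : HasRun true kc R t) : A ++ (t ++ B) ∈ ERB kc J R := by
  obtain ⟨m, u, e, hL, l, d, h1, h2, h3, h4⟩ := h
  obtain ⟨M, U, E, hE⟩ := SDN.lf_exists false (kc + 5) (A ++ (t ++ B))
  have hL' : Hyst (fun i => lvl true (vx oo up t i)) t.length (RR (kc + 5)) m u e := hL
  obtain ⟨u', hH⟩ := RD.hyst_sgn (F := fun i => lvl true (vx oo up t i))
    (f := fun i => lvl false (vx oo up (A ++ (t ++ B)) (A.length + i))) (c := c) (s := -1) (Or.inr rfl) (fun i hi => by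
      show lvl true (vx oo up t i) = c + -1 * lvl false (vx oo up (A ++ (t ++ B)) (A.length + i))
      rw [hrel i hi]
      ring) hL'
  have hle : ∀ j, j ≤ m → e j ≤ t.length := fun j hj => (hL'.monoA hj le_rfl).trans hL'.le
  obtain ⟨s, hs⟩ := hyst_window (F := fun i => lvl false (vx oo up (A ++ (t ++ B)) i)) (a := A.length) hE hH (by
    rw [List.length_append, List.length_append]
    omega)
  have hld := hs (l + d) (by omega) (by omega)
  refine run_erb hw hE (l := l + s) (d := d) (by omega) h2 (by omega) ?_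
  have h5 : lws (A ++ (t ++ B)) E (l + s) d = lws t e l d := by
    unfold lws
    apply List.map_congr_left
    intro i hi
    rw [List.mem_range] at hi
    have e1 := (hs (l + i) (by omega) (by omega)).2
    have e2 := (hs (l + i + 1) (by omega) (by omega)).2
    rw [show l + i + s = l + s + i by omega] at e1
    rw [show l + i + 1 + s = l + s + i + 1 by omega] at e2
    rw [e1, e2]
    exact lw_infix (hL'.lt (l + i) (by omega)) (hle _ (by omega))
  rw [h5]
  exact h4

/-- **the event theorem for runs of interior leaves of the bridges of the box, both directions** -/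
theorem runXB : ∃ (C : ℝ) (k0 : ℕ), 1 ≤ C ∧ ∀ (dir : Bool) (kc J : ℕ) (R : Set (List (List Bool))) (δ : ℝ), k0 ≤ kc →
    6 ≤ J → 0 ≤ δ → SmR DmJ kc R δ →
    gf {t | t ∈ BL (kc + J) ∧ HasRun dir kc R t} ≤ ENNReal.ofReal (C ^ J * δ * Ub (kc + J)) := by
  obtain ⟨C, k0, hC, hev⟩ := event_run
  obtain ⟨C0, E, hC0, hE, htube⟩ := tube_event
  have hCp : 0 < C := by linarith
  obtain ⟨D, hD⟩ : ∃ D : ℝ, D = C * (C ^ C0 * 2 ^ C0 * (E + 1)) := ⟨_, rfl⟩
  have hX1 : 1 ≤ C ^ C0 * 2 ^ C0 * (E + 1) := by
    have a1 : 1 ≤ C ^ C0 := one_le_pow₀ hC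
    have a2 : (1 : ℝ) ≤ 2 ^ C0 := one_le_pow₀ (by norm_num)
    have a3 : 1 ≤ C ^ C0 * 2 ^ C0 := one_le_mul_of_one_le_of_one_le a1 a2
    exact one_le_mul_of_one_le_of_one_le a3 (by linarith)
  refine ⟨D, k0 + C0, ?_, ?_⟩
  · rw [hD]
    exact one_le_mul_of_one_le_of_one_le hC hX1
  intro dir kc J R δ hkc hJ hδ hS
  have hU := Ub_pos (kc + J)
  have hDJ : C ^ J * (C ^ C0 * 2 ^ C0 * (E + 1)) ≤ D ^ J := by
    rw [hD, mul_pow]
    apply mul_le_mul_of_nonneg_left _ (by positivity)
    calc C ^ C0 * 2 ^ C0 * (E + 1) = (C ^ C0 * 2 ^ C0 * (E + 1)) ^ 1 := (pow_one _).symm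
      _ ≤ _ := pow_le_pow_right₀ hX1 (by omega)
  cases dir
  · have h1 : {t | t ∈ BL (kc + J) ∧ HasRun false kc R t} ⊆ ERB kc J R := by
      rintro t ⟨ht, m, u, e, hL, l, d, h1, h2, h3, h4⟩
      exact run_erb ht hL (by omega) h2 h3 h4
    refine (gf_mono h1).trans ((hev kc J R δ (by omega) hJ hδ hS).trans (ENNReal.ofReal_le_ofReal ?_))
    have h2 : C ^ J ≤ D ^ J := by
      refine le_trans ?_ hDJ
      exact le_mul_of_one_le_right (by positivity) hX1
    gcongr
  · have h1 := htube (kc + J) {t | t ∈ BL (kc + J) ∧ HasRun true kc R t} (by omega) (fun t ht => ht.1)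
    refine h1.trans ?_
    have h2 : {w | w ∈ BL (kc + J + C0) ∧ ∃ t ∈ {t | t ∈ BL (kc + J) ∧ HasRun true kc R t}, ∃ A B : List Bool,
        w = A ++ (t ++ B) ∧ ∃ p : Pt, ∀ i, i ≤ t.length →
        lvl false (vx oo up w (A.length + i)) = lvl false p - lvl true (vx oo up t i) ∧
        lvl true (vx oo up w (A.length + i)) = lvl true p + (lvl true (vx oo up t i) + lvl false (vx oo up t i))} ⊆
        ERB kc (J + C0) R := by
      rintro w ⟨hw, t, ⟨ht1, ht2⟩, A, B, rfl, p, hp⟩
      rw [add_assoc] at hw
      exact run_embed hw (fun i hi => (hp i hi).1) ht2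
    refine (mul_le_mul_right ((gf_mono h2).trans (hev kc (J + C0) R δ (by omega) (by omega) hδ hS)) _).trans ?_
    rw [← ENNReal.ofReal_mul hE.le]
    apply ENNReal.ofReal_le_ofReal
    have h3 : Ub (kc + (J + C0)) ≤ 2 ^ C0 * Ub (kc + J) := by
      have := UU_ratio_up (kc + J) C0
      rw [add_assoc] at this
      exact this
    have h4 := Ub_pos (kc + (J + C0))
    calc E * (C ^ (J + C0) * δ * Ub (kc + (J + C0))) ≤ (E + 1) * (C ^ (J + C0) * δ * (2 ^ C0 * Ub (kc + J))) := by
          gcongr
          linarith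
      _ = (C ^ J * (C ^ C0 * 2 ^ C0 * (E + 1))) * δ * Ub (kc + J) := by
          rw [pow_add]
          ring
      _ ≤ D ^ J * δ * Ub (kc + J) := by gcongr

end PW

end HexObs
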