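import Pool.Agent.PW.LowArc2
import Pool.Agent.PW.ZtM
import Pool.Agent.NTW.KernU

/-!
Pointwise laws of the bridges: the lower bound of the mean lengths of the arcs, averaged over a scale (input of C1).
-/

set_option autoImplicit false

namespace HexObs

namespace PW

open Finset TS SDN Rec8

open scoped ENNReal

/-- the mean lengths of arcs and bridges at one scale are at least `c * Ub k * mZ (2 ^ k)` -/
theorem lowAvg : ∃ c : ℝ, 0 < c ∧ ∀ k : ℕ, ENNReal.ofReal (c * Ub k * mZ (2 ^ k)) ≤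
    2 ^ (k + 5) * ∑ T ∈ Finset.Icc (2 ^ (k + 5)) (2 ^ (k + 8)), ArcS T +
      ∑ T ∈ Finset.Icc 1 (2 ^ (k + 8)), ∑' t : Brd T, (t.1.length : ℝ≥0∞) * wE t.1 := by
  obtain ⟨c, hc, hlow⟩ := lowArc2
  obtain ⟨K, hK, hU⟩ := NTW.upG
  have hU0 : 0 < Ub 0 := Ub_pos 0
  refine ⟨c / (K * Ub 0), by positivity, fun k => ?_⟩
  obtain ⟨H, hH⟩ : ∃ H : ℕ, H = 2 ^ (k + 5) := ⟨_, rfl⟩
  have hH1 : 1 ≤ H := by rw [hH]; exact Nat.one_le_two_pow
  have hH8 : 2 ^ (k + 8) = 8 * H := by rw [hH]; ring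
  rw [hH8, show (2 : ℝ≥0∞) ^ (k + 5) = (H : ℝ≥0∞) by rw [hH]; push_cast; rfl, ← hH]
  -- the left side
  have hZ : Zt (2 ^ k) ≤ Zt H := Zt_mono (by rw [hH]; exact Nat.pow_le_pow_right (by norm_num) (by omega))
  have e0 : c / (K * Ub 0) * Ub k * mZ (2 ^ k) ≤ ∑ h ∈ Finset.Ico H (2 * H), c * h * Zt h := by
    have h1 : ∀ h ∈ Finset.Ico H (2 * H), c * H * Zt H ≤ c * h * Zt h := by
      intro h hh
      obtain ⟨a1, a2⟩ := Finset.mem_Ico.1 hh
      have a3 : (H : ℝ) ≤ h := by exact_mod_cast a1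
      have a4 : Zt H ≤ Zt h := Zt_mono a1
      have a5 : 0 < Zt H := Zt_pos H
      gcongr
    have h2 := Finset.sum_le_sum h1
    rw [Finset.sum_const, Nat.card_Ico, nsmul_eq_mul] at h2
    refine le_trans ?_ h2
    have h3 : ((2 * H - H : ℕ) : ℝ) = H := by
      congr 1
      omega
    rw [h3]
    have h4 := hU 0 k (Nat.zero_le k)
    have h5 : (((2 ^ k : ℕ) : ℝ)) ^ (5 / 4 : ℝ) = (2 : ℝ) ^ (5 / 4 * (k : ℝ)) := by
      push_cast
      rw [← Real.rpow_natCast, ← Real.rpow_mul (by norm_num)]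
      congr 1
      ring
    have h6 : (2 : ℝ) ^ (3 / 4 * ((k : ℝ) - (0 : ℕ))) * (2 : ℝ) ^ (5 / 4 * (k : ℝ)) = (2 : ℝ) ^ k * 2 ^ k := by
      rw [← Real.rpow_add two_pos, ← Real.rpow_natCast, ← Real.rpow_add two_pos]
      congr 1
      push_cast
      ring
    have h7 : (2 : ℝ) ^ k ≤ H := by
      rw [hH]
      push_cast
      exact pow_le_pow_right₀ (by norm_num) (by omega)
    have hZ0 : 0 < Zt (2 ^ k) := Zt_pos _
    have hp : (0 : ℝ) < 2 ^ k := by positivity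
    unfold mZ
    rw [h5]
    calc c / (K * Ub 0) * Ub k * ((2 : ℝ) ^ (5 / 4 * (k : ℝ)) * Zt (2 ^ k))
        ≤ c / (K * Ub 0) * (K * (2 : ℝ) ^ (3 / 4 * ((k : ℝ) - (0 : ℕ))) * Ub 0) *
          ((2 : ℝ) ^ (5 / 4 * (k : ℝ)) * Zt (2 ^ k)) := by gcongr
      _ = c * ((2 : ℝ) ^ (3 / 4 * ((k : ℝ) - (0 : ℕ))) * (2 : ℝ) ^ (5 / 4 * (k : ℝ))) * Zt (2 ^ k) := by
          field_simp
      _ = c * (2 ^ k * 2 ^ k) * Zt (2 ^ k) := by rw [h6]
      _ ≤ c * (H * H) * Zt H := by gcongr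
      _ = H * (c * H * Zt H) := by ring
  refine (ENNReal.ofReal_le_ofReal e0).trans ?_
  rw [ENNReal.ofReal_sum_of_nonneg (fun h _ => by
    have := (Zt_pos h).le
    positivity)]
  have e1 : ∀ h ∈ Finset.Ico H (2 * H), ENNReal.ofReal (c * h * Zt h) ≤
      ∑ T ∈ Finset.Icc H (8 * H), ArcS T + ∑' t : Brd (3 * h), (t.1.length : ℝ≥0∞) * wE t.1 := by
    intro h hh
    obtain ⟨a1, a2⟩ := Finset.mem_Ico.1 hh
    refine (hlow h (by omega)).trans (add_le_add ?_ le_rfl)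
    refine Finset.sum_le_sum_of_subset fun T hT => ?_
    obtain ⟨b1, b2⟩ := Finset.mem_Ioc.1 hT
    exact Finset.mem_Icc.2 ⟨by omega, by omega⟩
  refine (Finset.sum_le_sum e1).trans ?_
  rw [Finset.sum_add_distrib, Finset.sum_const, Nat.card_Ico, nsmul_eq_mul,
    show 2 * H - H = H by omega]
  refine add_le_add le_rfl ?_
  have hinj : Set.InjOn (fun h : ℕ => 3 * h) (Finset.Ico H (2 * H) : Set ℕ) := by
    intro a _ b _ hab
    have : 3 * a = 3 * b := hab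
    omega
  have e2 : ∑ h ∈ Finset.Ico H (2 * H), ∑' t : Brd (3 * h), (t.1.length : ℝ≥0∞) * wE t.1 =
      ∑ T ∈ (Finset.Ico H (2 * H)).image (fun h => 3 * h), ∑' t : Brd T, (t.1.length : ℝ≥0∞) * wE t.1 :=
    (Finset.sum_image (f := fun T => ∑' t : Brd T, (t.1.length : ℝ≥0∞) * wE t.1) hinj).symm
  rw [e2]
  refine Finset.sum_le_sum_of_subset fun T hT => ?_
  obtain ⟨h, hh, rfl⟩ := Finset.mem_image.1 hT
  obtain ⟨a1, a2⟩ := Finset.mem_Ico.1 hh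
  exact Finset.mem_Icc.2 ⟨by omega, by omega⟩

end PW

end HexObs
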