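import Pool.Agent.PW.Index

/-!
PW, piece A12 of AS/TAIL10: from the tail of power 2 and the lower mean at the dyadic heights to the two inputs of
PWIdx.index_ub at every height (helper59).
-/

set_option autoImplicit false

namespace HexObs

namespace PWIdx

open Finset TS SDN T2 BrL

open scoped ENNReal

lemma len_le {x a b : ℝ} (hb : 0 < b) :
    ENNReal.ofReal x ≤ ENNReal.ofReal a + (if a ≤ x then ENNReal.ofReal b else 0) +
      ∑' j : ℕ, (if 2 ^ j * b ≤ x then ENNReal.ofReal (2 ^ (j + 1) * b) else 0) := by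
  rcases lt_or_ge x a with h | h
  · exact (ENNReal.ofReal_le_ofReal h.le).trans (by rw [add_assoc]; exact le_self_add)
  rcases lt_or_ge x b with h1 | h1
  · rw [if_pos h]
    refine (ENNReal.ofReal_le_ofReal h1.le).trans ?_
    rw [add_right_comm, add_comm]
    exact le_self_add
  · have h2 : 1 ≤ x / b := by rwa [one_le_div hb]
    obtain ⟨j, hj1, hj2⟩ := exists_nat_pow_near h2 (one_lt_two)
    have h3 : (2 : ℝ) ^ j * b ≤ x := by rwa [le_div_iff₀ hb] at hj1
    have h4 : x ≤ 2 ^ (j + 1) * b := by rw [div_lt_iff₀ hb] at hj2; exact hj2.le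
    refine le_trans ?_ le_add_self
    refine le_trans ?_ (ENNReal.le_tsum j)
    rw [if_pos h3]
    exact ENNReal.ofReal_le_ofReal h4

/-- the bridges of height h with at least a letters -/
def LB (h : ℕ) (a : ℝ) : Set (List Bool) := {Z | Z ∈ Brd h ∧ a ≤ (Z.length : ℝ)}

lemma gf_ind (S : Set (List Bool)) : gf S = ∑' t : List Bool, S.indicator wE t := by
  unfold gf
  exact tsum_subtype S wE

lemma mean_le (h : ℕ) {a b : ℝ} (hb : 0 < b) :
    ∑' t : Brd h, (t.1.length : ℝ≥0∞) * wE t.1 ≤ ENNReal.ofReal a * BT h + ENNReal.ofReal b * gf (LB h a) +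
      ∑' j : ℕ, ENNReal.ofReal (2 ^ (j + 1) * b) * gf (LB h (2 ^ j * b)) := by
  have e0 : ∑' t : Brd h, (t.1.length : ℝ≥0∞) * wE t.1 =
      ∑' t : List Bool, (Brd h).indicator (fun t => (t.length : ℝ≥0∞) * wE t) t :=
    tsum_subtype (Brd h) (fun t : List Bool => (t.length : ℝ≥0∞) * wE t)
  have e1 : BT h = ∑' t : List Bool, (Brd h).indicator wE t := by rw [← gf_Brd, gf_ind]
  have e2 : ∀ c : ℝ, gf (LB h c) = ∑' t : List Bool, (LB h c).indicator wE t := fun c => gf_ind _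
  rw [e0, e1]
  simp only [e2]
  simp only [← ENNReal.tsum_mul_left]
  rw [ENNReal.tsum_comm (f := fun (j : ℕ) (t : List Bool) =>
    ENNReal.ofReal (2 ^ (j + 1) * b) * (LB h (2 ^ j * b)).indicator wE t), ← ENNReal.tsum_add, ← ENNReal.tsum_add]
  refine ENNReal.tsum_le_tsum fun t => ?_
  by_cases ht : t ∈ Brd h
  · rw [Set.indicator_of_mem ht, Set.indicator_of_mem ht]
    have e3 : ∀ c : ℝ, (LB h c).indicator wE t = if c ≤ (t.length : ℝ) then wE t else 0 := by
      intro c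
      by_cases hc : c ≤ (t.length : ℝ)
      · rw [if_pos hc, Set.indicator_of_mem (show t ∈ LB h c from ⟨ht, hc⟩)]
      · rw [if_neg hc, Set.indicator_of_notMem (fun h' => hc h'.2)]
    simp only [e3]
    have h1 := mul_le_mul' (len_le (x := (t.length : ℝ)) (a := a) hb) (le_refl (wE t))
    rw [ENNReal.ofReal_natCast, add_mul, add_mul, ← ENNReal.tsum_mul_right] at h1
    simpa only [ite_mul, mul_ite, zero_mul, mul_zero] using h1
  · rw [Set.indicator_of_notMem ht]
    exact zero_le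

/-- the tail of power 2 and the lower mean at one height exclude that the bridges are short -/
lemma not_tail {N : ℕ} {M A c : ℝ} (hM : 0 < M) (hA : 0 < A) (hc : 0 < c)
    (hT : ∀ lam : ℝ, 1 ≤ lam → Tail N (lam * M) (A / lam ^ 2))
    (hL : ENNReal.ofReal (c * M * HexObs.UU N) ≤
      ∑ h ∈ range (N + 1), ∑' t : Brd h, (t.1.length : ℝ≥0∞) * wE t.1) :
    ¬ Tail N (c / 2 * M) (c / (8 * (1 + 16 * A / c))) := by
  intro hcon
  have hU := Num2Aux.UU_pos N
  obtain ⟨U, hUd⟩ : ∃ U : ℝ, U = HexObs.UU N := ⟨_, rfl⟩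
  rw [← hUd] at hU
  obtain ⟨G, hG⟩ : ∃ G : ℝ, G = 1 + 16 * A / c := ⟨_, rfl⟩
  have hG1 : 1 ≤ G := by rw [hG]; have : 0 < 16 * A / c := by positivity
                         linarith
  have hG2 : 16 * A ≤ c * G := by
    rw [hG]
    have : c * (1 + 16 * A / c) = c + 16 * A := by field_simp
    linarith
  have hG0 : 0 < G := by linarith
  rw [← hG] at hcon
  unfold Tail at hcon
  rw [← hUd] at hcon hL
  have h1 : ∑ h ∈ range (N + 1), ∑' t : Brd h, (t.1.length : ℝ≥0∞) * wE t.1 ≤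
      ENNReal.ofReal (c / 2 * M) * ENNReal.ofReal U + ENNReal.ofReal (G * M) * ENNReal.ofReal (c / (8 * G) * U) +
      ENNReal.ofReal (c / 4 * M * U) := by
    calc ∑ h ∈ range (N + 1), ∑' t : Brd h, (t.1.length : ℝ≥0∞) * wE t.1
        ≤ ∑ h ∈ range (N + 1), (ENNReal.ofReal (c / 2 * M) * BT h + ENNReal.ofReal (G * M) * gf (LB h (c / 2 * M)) +
            ∑' j : ℕ, ENNReal.ofReal (2 ^ (j + 1) * (G * M)) * gf (LB h (2 ^ j * (G * M)))) :=
          Finset.sum_le_sum fun h _ => mean_le h (by positivity)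
      _ = ENNReal.ofReal (c / 2 * M) * ∑ h ∈ range (N + 1), BT h +
            ENNReal.ofReal (G * M) * ∑ h ∈ range (N + 1), gf (LB h (c / 2 * M)) +
            ∑' j : ℕ, ENNReal.ofReal (2 ^ (j + 1) * (G * M)) * ∑ h ∈ range (N + 1), gf (LB h (2 ^ j * (G * M))) := by
          rw [Finset.sum_add_distrib, Finset.sum_add_distrib, ← Finset.mul_sum, ← Finset.mul_sum,
            ← Summable.tsum_finsetSum (fun _ _ => ENNReal.summable)]
          simp only [Finset.mul_sum]
      _ ≤ _ := by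
          refine add_le_add (add_le_add ?_ ?_) ?_
          · rw [hUd, Amp.ofReal_UU]
          · exact mul_le_mul' le_rfl hcon
          · have h2 : ∀ j : ℕ, ENNReal.ofReal (2 ^ (j + 1) * (G * M)) * ∑ h ∈ range (N + 1), gf (LB h (2 ^ j * (G * M))) ≤
                ENNReal.ofReal (c / 8 * M * U) * ENNReal.ofReal ((1 / 2) ^ j) := by
              intro j
              have h2j : (1 : ℝ) ≤ 2 ^ j := one_le_pow₀ (by norm_num)
              have h3 := hT (2 ^ j * G) (by nlinarith)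
              unfold Tail at h3
              rw [mul_assoc] at h3
              refine (mul_le_mul' le_rfl h3).trans ?_
              rw [← ENNReal.ofReal_mul (by positivity), ← ENNReal.ofReal_mul (by positivity), ← hUd]
              apply ENNReal.ofReal_le_ofReal
              have e : (2 : ℝ) ^ (j + 1) * (G * M) * (A / (2 ^ j * G) ^ 2 * U) = 2 * A / G * M * U * (1 / 2) ^ j := by
                rw [one_div, inv_pow, pow_succ]
                field_simp
              rw [e]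
              apply mul_le_mul_of_nonneg_right _ (by positivity)
              apply mul_le_mul_of_nonneg_right _ hU.le
              apply mul_le_mul_of_nonneg_right _ hM.le
              rw [div_le_div_iff₀ hG0 (by norm_num)]
              linarith
            refine (ENNReal.tsum_le_tsum h2).trans ?_
            rw [ENNReal.tsum_mul_left, ← ENNReal.ofReal_tsum_of_nonneg (fun j => by positivity)
              summable_geometric_two, tsum_geometric_two, ← ENNReal.ofReal_mul (by positivity)]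
            apply ENNReal.ofReal_le_ofReal
            linarith
  have h4 := hL.trans h1
  rw [← ENNReal.ofReal_mul (by positivity), ← ENNReal.ofReal_mul (by positivity), ← ENNReal.ofReal_add (by positivity)
    (by positivity), ← ENNReal.ofReal_add (by positivity) (by positivity), ENNReal.ofReal_le_ofReal_iff (by positivity)] at h4
  have e1 : G * M * (c / (8 * G) * U) = c / 8 * M * U := by field_simp
  rw [e1] at h4
  have h5 : 0 < c * M * U := by positivity
  nlinarith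

/-- the two inputs of index_ub from the dyadic heights -/
theorem inputs {m : ℕ → ℝ} {K A c : ℝ} (hm : Scale m K) (hA : 0 < A) (hc : 0 < c)
    (hT : ∀ (k : ℕ) (lam : ℝ), 1 ≤ lam → Tail (2 ^ k) (lam * m (2 ^ k)) (A / lam ^ 2))
    (hL : ∀ k : ℕ, ENNReal.ofReal (c * m (2 ^ k) * HexObs.UU (2 ^ k)) ≤
      ∑ h ∈ range (2 ^ k + 1), ∑' t : Brd h, (t.1.length : ℝ≥0∞) * wE t.1) :
    (∃ l0 : ℝ, 0 < l0 ∧ ∀ N : ℕ, 1 ≤ N → Tail N (l0 * m N) (1 / 2)) ∧
    ∃ c1 q : ℝ, 0 < c1 ∧ 0 < q ∧ ∀ N : ℕ, 1 ≤ N → ¬ Tail N (c1 * m N) q := by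
  obtain ⟨c0, C0, hc0, hC0, hW⟩ := BAR.UU_two
  have hK2 := hm.K_gt
  obtain ⟨R, hR⟩ : ∃ R : ℝ, R = C0 * 2 / c0 := ⟨_, rfl⟩
  have hR0 : 0 < R := by rw [hR]; positivity
  -- comparison of the masses
  have hUR : ∀ a b : ℕ, 1 ≤ a → 1 ≤ b → b ≤ 2 * a → HexObs.UU b ≤ R * HexObs.UU a := by
    intro a b ha hb hab
    have h1 := (hW a ha).1
    have h2 := (hW b hb).2
    have h3 : (b : ℝ) ^ (3 / 4 : ℝ) ≤ 2 * (a : ℝ) ^ (3 / 4 : ℝ) := by
      calc (b : ℝ) ^ (3 / 4 : ℝ) ≤ (2 * a : ℝ) ^ (3 / 4 : ℝ) := by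
            apply Real.rpow_le_rpow (by positivity) _ (by norm_num)
            exact_mod_cast hab
        _ = 2 ^ (3 / 4 : ℝ) * (a : ℝ) ^ (3 / 4 : ℝ) := Real.mul_rpow (by norm_num) (by positivity)
        _ ≤ _ := by
            apply mul_le_mul_of_nonneg_right _ (by positivity)
            nth_rewrite 2 [← Real.rpow_one (2 : ℝ)]
            exact Real.rpow_le_rpow_of_exponent_le (by norm_num) (by norm_num)
    calc HexObs.UU b ≤ C0 * (b : ℝ) ^ (3 / 4 : ℝ) := h2
      _ ≤ C0 * (2 * (a : ℝ) ^ (3 / 4 : ℝ)) := mul_le_mul_of_nonneg_left h3 hC0.le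
      _ = R * (c0 * (a : ℝ) ^ (3 / 4 : ℝ)) := by rw [hR]; field_simp
      _ ≤ _ := mul_le_mul_of_nonneg_left h1 hR0.le
  constructor
  · obtain ⟨lam, hlam⟩ : ∃ lam : ℝ, lam = 1 + 2 * A * R := ⟨_, rfl⟩
    have hAR : 0 < 2 * A * R := by positivity
    have hl1 : 1 ≤ lam := by rw [hlam]; linarith
    refine ⟨K * lam, by positivity, fun N hN => ?_⟩
    obtain ⟨k, hk⟩ : ∃ k : ℕ, k = Nat.log 2 N + 1 := ⟨_, rfl⟩
    have hk1 : N < 2 ^ k := by rw [hk]; exact Nat.lt_pow_succ_log_self (by norm_num) N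
    have hk2 : 2 ^ k ≤ 2 * N := by
      rw [hk, pow_succ, mul_comm]
      exact Nat.mul_le_mul_left 2 (Nat.pow_log_le_self 2 (by omega))
    have h1 := hT k lam hl1
    unfold Tail at h1 ⊢
    have h2 : m (2 ^ k) ≤ K * m N := (hm.mono _ _ Nat.one_le_two_pow hk2).trans (hm.dbl N hN)
    have h3 : lam * m (2 ^ k) ≤ K * lam * m N := by
      calc lam * m (2 ^ k) ≤ lam * (K * m N) := mul_le_mul_of_nonneg_left h2 (by linarith)
        _ = _ := by ring
    calc ∑ h ∈ range (N + 1), gf {Z | Z ∈ Brd h ∧ K * lam * m N ≤ (Z.length : ℝ)}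
        ≤ ∑ h ∈ range (N + 1), gf {Z | Z ∈ Brd h ∧ lam * m (2 ^ k) ≤ (Z.length : ℝ)} :=
          Finset.sum_le_sum fun h _ => gf_mono fun Z hZ => ⟨hZ.1, h3.trans hZ.2⟩
      _ ≤ ∑ h ∈ range (2 ^ k + 1), gf {Z | Z ∈ Brd h ∧ lam * m (2 ^ k) ≤ (Z.length : ℝ)} :=
          Finset.sum_le_sum_of_subset (Finset.range_mono (by omega))
      _ ≤ ENNReal.ofReal (A / lam ^ 2 * HexObs.UU (2 ^ k)) := h1
      _ ≤ _ := by
          apply ENNReal.ofReal_le_ofReal
          have h4 := hUR N (2 ^ k) hN Nat.one_le_two_pow hk2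
          have hU := Num2Aux.UU_pos N
          have h5 : A / lam ^ 2 * R ≤ 1 / 2 := by
            rw [div_mul_eq_mul_div, div_le_iff₀ (by positivity)]
            nlinarith
          calc A / lam ^ 2 * HexObs.UU (2 ^ k) ≤ A / lam ^ 2 * (R * HexObs.UU N) :=
                mul_le_mul_of_nonneg_left h4 (by positivity)
            _ = A / lam ^ 2 * R * HexObs.UU N := by ring
            _ ≤ _ := mul_le_mul_of_nonneg_right h5 hU.le
  · obtain ⟨q, hq⟩ : ∃ q : ℝ, q = c / (8 * (1 + 16 * A / c)) := ⟨_, rfl⟩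
    have hq0 : 0 < q := by rw [hq]; positivity
    refine ⟨c / 2 / K, q / R, by positivity, by positivity, fun N hN hcon => ?_⟩
    obtain ⟨k, hk⟩ : ∃ k : ℕ, k = Nat.log 2 N := ⟨_, rfl⟩
    have hk1 : 2 ^ k ≤ N := by rw [hk]; exact Nat.pow_log_le_self 2 (by omega)
    have hk2 : N ≤ 2 * 2 ^ k := by
      rw [hk]
      have := Nat.lt_pow_succ_log_self (b := 2) (by norm_num) N
      rw [pow_succ] at this
      omega
    have hp := hm.pos (2 ^ k) Nat.one_le_two_pow
    have h1 := not_tail hp hA hc (fun lam hlam => hT k lam hlam) (hL k)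
    rw [← hq] at h1
    apply h1
    unfold Tail at hcon ⊢
    have h2 : m N ≤ K * m (2 ^ k) := (hm.mono _ _ hN hk2).trans (hm.dbl _ Nat.one_le_two_pow)
    have h3 : c / 2 / K * m N ≤ c / 2 * m (2 ^ k) := by
      calc c / 2 / K * m N ≤ c / 2 / K * (K * m (2 ^ k)) := mul_le_mul_of_nonneg_left h2 (by positivity)
        _ = _ := by field_simp
    calc ∑ h ∈ range (2 ^ k + 1), gf {Z | Z ∈ Brd h ∧ c / 2 * m (2 ^ k) ≤ (Z.length : ℝ)}
        ≤ ∑ h ∈ range (2 ^ k + 1), gf {Z | Z ∈ Brd h ∧ c / 2 / K * m N ≤ (Z.length : ℝ)} :=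
          Finset.sum_le_sum fun h _ => gf_mono fun Z hZ => ⟨hZ.1, h3.trans hZ.2⟩
      _ ≤ ∑ h ∈ range (N + 1), gf {Z | Z ∈ Brd h ∧ c / 2 / K * m N ≤ (Z.length : ℝ)} :=
          Finset.sum_le_sum_of_subset (Finset.range_mono (by omega))
      _ ≤ ENNReal.ofReal (q / R * HexObs.UU N) := hcon
      _ ≤ _ := by
          apply ENNReal.ofReal_le_ofReal
          have h4 := hUR (2 ^ k) N Nat.one_le_two_pow hN hk2
          calc q / R * HexObs.UU N ≤ q / R * (R * HexObs.UU (2 ^ k)) := mul_le_mul_of_nonneg_left h4 (by positivity)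
            _ = _ := by field_simp

/-- both indices from the tail and the lower mean at the dyadic heights -/
theorem index_dyadic {m : ℕ → ℝ} {K A c : ℝ} (hm : Scale m K) (hA : 0 < A) (hc : 0 < c)
    (hT : ∀ (k : ℕ) (lam : ℝ), 1 ≤ lam → Tail (2 ^ k) (lam * m (2 ^ k)) (A / lam ^ 2))
    (hL : ∀ k : ℕ, ENNReal.ofReal (c * m (2 ^ k) * HexObs.UU (2 ^ k)) ≤
      ∑ h ∈ range (2 ^ k + 1), ∑' t : Brd h, (t.1.length : ℝ≥0∞) * wE t.1) :
    ∃ a1 c' C : ℝ, 0 < a1 ∧ a1 ≤ 3 / 5 ∧ 0 < c' ∧ 0 < C ∧ ∀ b x : ℕ, 1 ≤ b → 1 ≤ x →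
      c' * (b : ℝ) ^ a1 * ∑ j ∈ range x, ub j ≤ ∑ j ∈ range (b * x), ub j ∧
      ∑ j ∈ range (b * x), ub j ≤ C * (b : ℝ) ^ (3 / 5 : ℝ) * ∑ j ∈ range x, ub j := by
  obtain ⟨⟨l0, hl0, h1⟩, c1, q, hc1, hq, h2⟩ := inputs hm hA hc hT hL
  exact index_ub hm hl0 hc1 hq h1 h2

end PWIdx

end HexObs
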