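import Pool.Agent.PW.Index

/-!
PW: the index theorem with the explicit lower index 3 / (4 a), for a scale of lengths of growth at most a (helper62).
-/

set_option autoImplicit false

namespace HexObs

namespace PWIdx

open Finset

/-- a lower index at large arguments is a lower index -/
lemma lower_all {V : ℕ → ℝ} {e cc : ℝ} {x0 : ℕ} (he : 0 < e) (hV : Monotone V) (hV0 : 0 < V 1)
    (hx01 : 1 ≤ x0) (hcc : 0 < cc) (hcc1 : cc ≤ 1)
    (h : ∀ b x : ℕ, 1 ≤ b → x0 ≤ x → cc * (b : ℝ) ^ e * V x ≤ V (b * x)) :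
    ∃ c : ℝ, 0 < c ∧ ∀ b x : ℕ, 1 ≤ b → 1 ≤ x → c * (b : ℝ) ^ e * V x ≤ V (b * x) := by
  have hVpos : ∀ x : ℕ, 1 ≤ x → 0 < V x := fun x hx => hV0.trans_le (hV hx)
  have hx0R : (1 : ℝ) ≤ x0 := by exact_mod_cast hx01
  obtain ⟨s, hs⟩ : ∃ s : ℝ, s = (1 / (2 * (x0 : ℝ))) ^ e := ⟨_, rfl⟩
  have hs0 : 0 < s := by rw [hs]; positivity
  have hs1 : s ≤ 1 := by
    rw [hs]
    apply Real.rpow_le_one (by positivity) _ he.le
    rw [div_le_one (by positivity)]
    linarith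
  refine ⟨cc * s, by positivity, fun b x hb hx => ?_⟩
  have hbR : (1 : ℝ) ≤ b := by exact_mod_cast hb
  have hVx := hVpos x hx
  rcases Nat.lt_or_ge x x0 with hxx | hxx
  · rcases Nat.lt_or_ge b x0 with hbb | hbb
    · have h1 : cc * s * (b : ℝ) ^ e ≤ 1 := by
        have h2 : s * (b : ℝ) ^ e ≤ 1 := by
          rw [hs, ← Real.mul_rpow (by positivity) (by positivity)]
          apply Real.rpow_le_one (by positivity) _ he.le
          have : (b : ℝ) ≤ x0 := by exact_mod_cast hbb.le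
          rw [div_mul_eq_mul_div, one_mul, div_le_one (by positivity)]
          linarith
        calc cc * s * (b : ℝ) ^ e = cc * (s * (b : ℝ) ^ e) := by ring
          _ ≤ 1 * 1 := mul_le_mul hcc1 h2 (by positivity) (by norm_num)
          _ = 1 := by ring
      calc cc * s * (b : ℝ) ^ e * V x ≤ 1 * V x := mul_le_mul_of_nonneg_right h1 hVx.le
        _ = V x := one_mul _
        _ ≤ V (b * x) := hV (Nat.le_mul_of_pos_left x (by omega))
    · have hdiv1 : 1 ≤ b / x0 := (Nat.one_le_div_iff (by omega)).2 hbb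
      have h1 := h (b / x0) x0 hdiv1 le_rfl
      have h2 : b / x0 * x0 ≤ b * x := (Nat.div_mul_le_self b x0).trans (Nat.le_mul_of_pos_right b (by omega))
      have h3 := hV h2
      have h4 : s * (b : ℝ) ^ e ≤ (((b / x0 : ℕ) : ℝ)) ^ e := by
        rw [hs, ← Real.mul_rpow (by positivity) (by positivity)]
        apply Real.rpow_le_rpow (by positivity) _ he.le
        have h5 : b < (b / x0 + 1) * x0 := by
          have := Nat.lt_div_mul_add (a := b) (b := x0) (by omega)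
          nlinarith
        have h6 : (b : ℝ) < ((b / x0 : ℕ) + 1) * x0 := by exact_mod_cast h5
        have h7 : (1 : ℝ) ≤ ((b / x0 : ℕ) : ℝ) := by exact_mod_cast hdiv1
        rw [div_mul_eq_mul_div, one_mul, div_le_iff₀ (by positivity)]
        nlinarith
      calc cc * s * (b : ℝ) ^ e * V x = cc * (s * (b : ℝ) ^ e) * V x := by ring
        _ ≤ cc * (((b / x0 : ℕ) : ℝ)) ^ e * V x0 := by
            apply mul_le_mul _ (hV hxx.le) hVx.le (by positivity)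
            exact mul_le_mul_of_nonneg_left h4 hcc.le
        _ ≤ V (b / x0 * x0) := h1
        _ ≤ V (b * x) := h3
  · refine le_trans ?_ (h b x hb hxx)
    apply mul_le_mul_of_nonneg_right _ hVx.le
    apply mul_le_mul_of_nonneg_right _ (by positivity)
    calc cc * s ≤ cc * 1 := mul_le_mul_of_nonneg_left hs1 hcc.le
      _ = cc := mul_one _

variable {m W V : ℕ → ℝ} {K l0 c0 C0 c1 q a Cg : ℝ}

/-- both indices of the number of objects by the length; the lower index is 3 / (4 a) if the scale of lengths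
grows at most like the power a -/
theorem index_G (hm : Scale m K) (ha : 0 < a) (hCg : 1 ≤ Cg)
    (hg : ∀ h n : ℕ, 1 ≤ h → h ≤ n → m n ≤ Cg * ((n : ℝ) / h) ^ a * m h) (hl : 0 < l0) (hc0 : 0 < c0)
    (hW : ∀ n : ℕ, 1 ≤ n → c0 * (n : ℝ) ^ (3 / 4 : ℝ) ≤ W n ∧ W n ≤ C0 * (n : ℝ) ^ (3 / 4 : ℝ))
    (hV : Monotone V) (hV0 : 0 < V 1)
    (hlo : ∀ N x : ℕ, 1 ≤ N → l0 * m N ≤ 2 * (x : ℝ) → W N ≤ 2 * V x)
    (hc1 : 0 < c1) (hq : 0 < q)
    (hup : ∀ N x : ℕ, 1 ≤ N → 2 * (x : ℝ) < c1 * m N → V x ≤ W N / q) :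
    ∃ c C : ℝ, 0 < c ∧ 0 < C ∧ ∀ b x : ℕ, 1 ≤ b → 1 ≤ x →
      c * (b : ℝ) ^ (3 / (4 * a)) * V x ≤ V (b * x) ∧ V (b * x) ≤ C * (b : ℝ) ^ (3 / 5 : ℝ) * V x := by
  obtain ⟨_, _, C, _, _, _, hC, hU⟩ := index hm hl hc0 hW hV hV0 hlo hc1 hq hup
  obtain ⟨A, hA, hT⟩ := two_side hm hl hc0 hW hlo hc1 hq hup
  have hVpos : ∀ x : ℕ, 1 ≤ x → 0 < V x := fun x hx => hV0.trans_le (hV hx)
  have hCg0 : 0 < Cg := by linarith
  obtain ⟨e, he⟩ : ∃ e : ℝ, e = 3 / (4 * a) := ⟨_, rfl⟩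
  have he0 : 0 < e := by rw [he]; positivity
  obtain ⟨x1, hx1⟩ := exists_nat_gt (l0 * m 1)
  obtain ⟨x0, hx0⟩ : ∃ x0 : ℕ, x0 = x1 + 1 := ⟨_, rfl⟩
  have hx01 : 1 ≤ x0 := by omega
  have hbig : ∀ x : ℕ, x0 ≤ x → l0 * m 1 ≤ 2 * (x : ℝ) := by
    intro x hx
    have h1 : (x1 : ℝ) ≤ x := by exact_mod_cast (by omega : x1 ≤ x)
    have h2 : (0 : ℝ) ≤ x := Nat.cast_nonneg x
    linarith
  obtain ⟨cc, hcc⟩ : ∃ cc : ℝ, cc = min 1 (c0 / (4 * A)) / Cg ^ e := ⟨_, rfl⟩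
  have hCge : 1 ≤ Cg ^ e := Real.one_le_rpow hCg he0.le
  have hmin0 : 0 < min 1 (c0 / (4 * A)) := lt_min one_pos (by positivity)
  have hcc0 : 0 < cc := by rw [hcc]; positivity
  have hcc1 : cc ≤ 1 := by
    rw [hcc, div_le_one (by positivity)]
    exact (min_le_left _ _).trans hCge
  have key : ∀ b x : ℕ, 1 ≤ b → x0 ≤ x → cc * (b : ℝ) ^ e * V x ≤ V (b * x) := by
    intro b x hb hxx
    have hbR : (1 : ℝ) ≤ b := by exact_mod_cast hb
    have hx : 1 ≤ x := hx01.trans hxx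
    have hVx := hVpos x hx
    have hdiv : cc * (b : ℝ) ^ e = min 1 (c0 / (4 * A)) * ((b : ℝ) / Cg) ^ e := by
      rw [hcc, Real.div_rpow (by positivity) hCg0.le]
      ring
    rcases lt_or_ge (b : ℝ) Cg with hbC | hbC
    · have h1 : ((b : ℝ) / Cg) ^ e ≤ 1 :=
        Real.rpow_le_one (by positivity) (by rw [div_le_one hCg0]; exact hbC.le) he0.le
      calc cc * (b : ℝ) ^ e * V x ≤ 1 * V x := by
            apply mul_le_mul_of_nonneg_right _ hVx.le
            rw [hdiv]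
            calc _ ≤ (1 : ℝ) * 1 := mul_le_mul (min_le_left _ _) h1 (by positivity) (by norm_num)
              _ = 1 := by norm_num
        _ = V x := one_mul _
        _ ≤ V (b * x) := hV (Nat.le_mul_of_pos_left x (by omega))
    · obtain ⟨N, hN, h1, h2, h3, h4⟩ := hT x (hbig x hxx)
      have hNR : (1 : ℝ) ≤ N := by exact_mod_cast hN
      obtain ⟨t, ht⟩ : ∃ t : ℝ, t = ((b : ℝ) / Cg) ^ (1 / a) := ⟨_, rfl⟩
      have hbC1 : 1 ≤ (b : ℝ) / Cg := by rw [one_le_div hCg0]; exact hbC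
      have ht1 : 1 ≤ t := by rw [ht]; exact Real.one_le_rpow hbC1 (by positivity)
      have hta : t ^ a = (b : ℝ) / Cg := by
        rw [ht, ← Real.rpow_mul (by positivity), one_div, inv_mul_cancel₀ ha.ne', Real.rpow_one]
      have hte : t ^ (3 / 4 : ℝ) = ((b : ℝ) / Cg) ^ e := by
        rw [ht, ← Real.rpow_mul (by positivity), he]
        congr 1
        field_simp
      obtain ⟨n, hn⟩ : ∃ n : ℕ, n = ⌊(N : ℝ) * t⌋₊ := ⟨_, rfl⟩
      have hNt : (1 : ℝ) ≤ N * t := by nlinarith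
      have hn1 : (n : ℝ) ≤ N * t := by rw [hn]; exact Nat.floor_le (by linarith)
      have hn2 : (N : ℝ) * t < n + 1 := by rw [hn]; exact Nat.lt_floor_add_one _
      have hn3 : N ≤ n := by
        rw [hn]
        apply Nat.le_floor
        nlinarith
      have hn4 : 1 ≤ n := hN.trans hn3
      have hn4R : (1 : ℝ) ≤ n := by exact_mod_cast hn4
      have hn5 : (N : ℝ) * t ≤ 2 * n := by linarith
      have hmn : m n ≤ b * m N := by
        have g1 := hg N n hN hn3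
        have g2 : ((n : ℝ) / N) ^ a ≤ (b : ℝ) / Cg := by
          rw [← hta]
          apply Real.rpow_le_rpow (by positivity) _ ha.le
          rw [div_le_iff₀ (by linarith)]
          linarith
        calc m n ≤ Cg * ((n : ℝ) / N) ^ a * m N := g1
          _ ≤ Cg * ((b : ℝ) / Cg) * m N := by
              apply mul_le_mul_of_nonneg_right _ (hm.pos N hN).le
              exact mul_le_mul_of_nonneg_left g2 hCg0.le
          _ = _ := by rw [mul_div_cancel₀ _ hCg0.ne']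
      have h5 : l0 * m n ≤ 2 * ((b * x : ℕ) : ℝ) := by
        have g3 : l0 * m n ≤ l0 * (b * (2 * (x : ℝ) / l0)) := by
          apply mul_le_mul_of_nonneg_left _ hl.le
          exact hmn.trans (mul_le_mul_of_nonneg_left h1 (by linarith))
        have e1 : l0 * (b * (2 * (x : ℝ) / l0)) = 2 * ((b * x : ℕ) : ℝ) := by
          push_cast
          field_simp
        linarith
      have h6 := hlo n (b * x) hn4 h5
      have h7 := (hW n hn4).1
      have h8 : ((N : ℝ) ^ (3 / 4 : ℝ)) * t ^ (3 / 4 : ℝ) ≤ 2 * (n : ℝ) ^ (3 / 4 : ℝ) := by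
        calc ((N : ℝ) ^ (3 / 4 : ℝ)) * t ^ (3 / 4 : ℝ) = ((N : ℝ) * t) ^ (3 / 4 : ℝ) :=
              (Real.mul_rpow (by positivity) (by positivity)).symm
          _ ≤ (2 * (n : ℝ)) ^ (3 / 4 : ℝ) := Real.rpow_le_rpow (by positivity) hn5 (by norm_num)
          _ = 2 ^ (3 / 4 : ℝ) * (n : ℝ) ^ (3 / 4 : ℝ) := Real.mul_rpow (by norm_num) (by positivity)
          _ ≤ _ := by
              apply mul_le_mul_of_nonneg_right _ (by positivity)
              nth_rewrite 2 [← Real.rpow_one (2 : ℝ)]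
              exact Real.rpow_le_rpow_of_exponent_le (by norm_num) (by norm_num)
      have hNp : 0 < (N : ℝ) ^ (3 / 4 : ℝ) := by positivity
      calc cc * (b : ℝ) ^ e * V x = min 1 (c0 / (4 * A)) * ((b : ℝ) / Cg) ^ e * V x := by rw [hdiv]
        _ ≤ c0 / (4 * A) * t ^ (3 / 4 : ℝ) * (A * (N : ℝ) ^ (3 / 4 : ℝ)) := by
            rw [hte]
            apply mul_le_mul _ h4 hVx.le (by positivity)
            exact mul_le_mul_of_nonneg_right (min_le_right _ _) (by positivity)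
        _ = c0 / 4 * ((N : ℝ) ^ (3 / 4 : ℝ) * t ^ (3 / 4 : ℝ)) := by field_simp
        _ ≤ c0 / 4 * (2 * (n : ℝ) ^ (3 / 4 : ℝ)) := mul_le_mul_of_nonneg_left h8 (by positivity)
        _ = c0 * (n : ℝ) ^ (3 / 4 : ℝ) / 2 := by ring
        _ ≤ V (b * x) := by linarith
  obtain ⟨c, hc, hL⟩ := lower_all he0 hV hV0 hx01 hcc0 hcc1 key
  refine ⟨c, C, hc, hC, fun b x hb hx => ⟨?_, (hU b x hb hx).2⟩⟩
  rw [← he]
  exact hL b x hb hx

open TS SDN T2 BrL

open scoped ENNReal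

/-- both indices, explicit lower index, cumulative form with the end point -/
theorem index_UU_G (hm : Scale m K) (ha : 0 < a) (hCg : 1 ≤ Cg)
    (hg : ∀ h n : ℕ, 1 ≤ h → h ≤ n → m n ≤ Cg * ((n : ℝ) / h) ^ a * m h)
    (hl : 0 < l0) (hc1 : 0 < c1) (hq : 0 < q)
    (hT : ∀ N : ℕ, 1 ≤ N → Tail N (l0 * m N) (1 / 2)) (hN : ∀ N : ℕ, 1 ≤ N → ¬ Tail N (c1 * m N) q) :
    ∃ c C : ℝ, 0 < c ∧ 0 < C ∧ ∀ b x : ℕ, 1 ≤ b → 1 ≤ x →
      c * (b : ℝ) ^ (3 / (4 * a)) * NUX.UU ub x ≤ NUX.UU ub (b * x) ∧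
      NUX.UU ub (b * x) ≤ C * (b : ℝ) ^ (3 / 5 : ℝ) * NUX.UU ub x := by
  obtain ⟨c0, C0, hc0, _, hW⟩ := BAR.UU_two
  exact index_G (W := HexObs.UU) (V := NUX.UU ub) hm ha hCg hg hl hc0 hW UU_mono
    (one_pos.trans_le (NUX.UU_pos ren 1))
    (fun N x hN1 hx => lo_of_tail (hT N hN1) hx) hc1 hq (fun N x hN1 hx => up_of_not_tail hq (hN N hN1) hx)

/-- **both indices of U(n) = sum over j < n of u j, explicit lower index** -/
theorem index_ub_G (hm : Scale m K) (ha : 0 < a) (hCg : 1 ≤ Cg)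
    (hg : ∀ h n : ℕ, 1 ≤ h → h ≤ n → m n ≤ Cg * ((n : ℝ) / h) ^ a * m h)
    (hl : 0 < l0) (hc1 : 0 < c1) (hq : 0 < q)
    (hT : ∀ N : ℕ, 1 ≤ N → Tail N (l0 * m N) (1 / 2)) (hN : ∀ N : ℕ, 1 ≤ N → ¬ Tail N (c1 * m N) q) :
    ∃ c C : ℝ, 0 < c ∧ 0 < C ∧ ∀ b x : ℕ, 1 ≤ b → 1 ≤ x →
      c * (b : ℝ) ^ (3 / (4 * a)) * ∑ j ∈ range x, ub j ≤ ∑ j ∈ range (b * x), ub j ∧
      ∑ j ∈ range (b * x), ub j ≤ C * (b : ℝ) ^ (3 / 5 : ℝ) * ∑ j ∈ range x, ub j := by
  obtain ⟨c, C, h3, h4, h5⟩ := index_UU_G hm ha hCg hg hl hc1 hq hT hN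
  have hle : ∀ x : ℕ, ∑ j ∈ range x, ub j ≤ NUX.UU ub x := fun x =>
    Finset.sum_le_sum_of_subset_of_nonneg (Finset.range_mono (by omega)) fun i _ _ => ub_nonneg i
  have hge : ∃ B : ℝ, 0 < B ∧ ∀ x : ℕ, 1 ≤ x → NUX.UU ub x ≤ B * ∑ j ∈ range x, ub j := by
    have hU1 : 0 < NUX.UU ub 1 := one_pos.trans_le (NUX.UU_pos ren 1)
    refine ⟨max (NUX.UU ub 1) (C * (2 : ℝ) ^ (3 / 5 : ℝ)), lt_max_of_lt_left hU1, fun x hx => ?_⟩
    rcases Nat.eq_or_lt_of_le hx with h | h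
    · rw [← h]
      have e : ∑ j ∈ range 1, ub j = 1 := by rw [Finset.sum_range_one]; exact ren.u0
      rw [e, mul_one]
      exact le_max_left _ _
    · have h6 := (h5 2 (x - 1) (by norm_num) (by omega)).2
      have h7 : NUX.UU ub x ≤ NUX.UU ub (2 * (x - 1)) := UU_mono (by omega)
      have e : NUX.UU ub (x - 1) = ∑ j ∈ range x, ub j := by
        unfold NUX.UU
        rw [Nat.sub_add_cancel hx]
      rw [e] at h6
      push_cast at h6
      refine (h7.trans h6).trans (mul_le_mul_of_nonneg_right (le_max_right _ _) ?_)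
      exact Finset.sum_nonneg fun i _ => ub_nonneg i
  obtain ⟨B, hB, hge⟩ := hge
  refine ⟨c / B, C * B, by positivity, by positivity, fun b x hb hx => ?_⟩
  have hbx : 1 ≤ b * x := Nat.succ_le_of_lt (Nat.mul_pos (by omega) (by omega))
  obtain ⟨g1, g2⟩ := h5 b x hb hx
  constructor
  · have h6 := hge (b * x) hbx
    have h7 := hle x
    have h8 : c * (b : ℝ) ^ (3 / (4 * a)) * ∑ j ∈ range x, ub j ≤ B * ∑ j ∈ range (b * x), ub j :=
      ((mul_le_mul_of_nonneg_left h7 (by positivity)).trans g1).trans h6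
    calc c / B * (b : ℝ) ^ (3 / (4 * a)) * ∑ j ∈ range x, ub j =
          (c * (b : ℝ) ^ (3 / (4 * a)) * ∑ j ∈ range x, ub j) / B := by ring
      _ ≤ _ := by rw [div_le_iff₀ hB]; linarith
  · calc ∑ j ∈ range (b * x), ub j ≤ NUX.UU ub (b * x) := hle _
      _ ≤ C * (b : ℝ) ^ (3 / 5 : ℝ) * NUX.UU ub x := g2
      _ ≤ C * (b : ℝ) ^ (3 / 5 : ℝ) * (B * ∑ j ∈ range x, ub j) := mul_le_mul_of_nonneg_left (hge x hx) (by positivity)
      _ = _ := by ring

end PWIdx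

end HexObs
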