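import Pool.Agent.NTW.DomO
import Pool.Agent.NTW.Kern
import Pool.Agent.SDN.ZigZag

/-!
PW, arcs: pairs of leaves of the same height with a fold between them, both feet on the bottom line. Definitions. Text:
doc PW/ARC34.
-/

set_option autoImplicit false

namespace HexObs

namespace PW

open Finset TS SDN

open scoped ENNReal

/-- pairs of leaves of the same height T in [E, N] with a fold between them, the first one in G, the second one in S -/
noncomputable def arcs2 (E N : ℕ) (G S : Set (List Bool)) : ℝ≥0∞ :=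
  ∑' T : ℕ, if E ≤ T ∧ T ≤ N then
    Rec8.sw {g | g ∈ Brd T ∧ g ∈ G} (fun g => Rec8.sw {g' | g' ∈ Brd T ∧ g' ∈ S ∧ LFold g g'} (fun _ => 1)) else 0

/-- words with a giant (of height more than 2 ^ k) behind which there are less than 2 ^ (j + 1) rows -/
def GiF (k j : ℕ) : Set (List Bool) :=
  {t | ∃ (X P M : List Bool) (r m : ℕ), t = X ++ (P ++ M) ∧ X ∈ BU ∧ P ∈ Irr r ∧ 2 ^ k < r ∧ M ∈ Brd m ∧ m < 2 ^ (j + 1)}

/-- the decompositions of t into a bridge and a last irreducible piece -/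
abbrev LDec (t : List Bool) := {x : List Bool × List Bool × ℕ // x.1 ∈ BU ∧ x.2.1 ∈ Irr x.2.2 ∧ t = x.1 ++ x.2.1}

/-- the height of the last irreducible piece over 2 ^ k, at most one -/
noncomputable def lastP (k : ℕ) (t : List Bool) : ℝ≥0∞ := min 1 (⨅ x : LDec t, ((x.1.2.2 : ℕ) : ℝ≥0∞) / 2 ^ k)

theorem lastP_le_one (k : ℕ) (t : List Bool) : lastP k t ≤ 1 := min_le_left _ _

theorem lastP_le (k : ℕ) {Z P : List Bool} {r : ℕ} (hZ : Z ∈ BU) (hP : P ∈ Irr r) :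
    lastP k (Z ++ P) ≤ min 1 ((r : ℝ≥0∞) / 2 ^ k) :=
  min_le_min le_rfl (iInf_le _ (⟨(Z, P, r), hZ, hP, rfl⟩ : LDec (Z ++ P)))

/-- the last piece is unique -/
theorem last_unique {Z P Z' P' : List Bool} {r r' : ℕ} (hZ : Z ∈ BU) (hP : P ∈ Irr r) (hZ' : Z' ∈ BU) (hP' : P' ∈ Irr r')
    (h : Z ++ P = Z' ++ P') : Z = Z' ∧ P = P' ∧ r = r' := by
  obtain ⟨z, hz⟩ := hZ
  obtain ⟨z', hz'⟩ := hZ'
  have h1 : Z ++ P ∈ Brd (z + r) := Brd_append hz hP.1
  have h2 : Z ++ P ∈ Brd (z' + r') := by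
    rw [h]
    exact Brd_append hz' hP'.1
  have h3 : z + r = z' + r' := Brd_height h1 h2
  have hr := Irr_pos hP
  have hr' := Irr_pos hP'
  have h4 : Z ++ P ++ [] = Z' ++ P' ++ [] := by rw [h]
  obtain ⟨h5, h6, -⟩ := jump_unique (s := z + r - 1) (by omega) (by omega) (by omega) (by omega) hz hP nil_mem_Brd
    hz' hP' nil_mem_Brd h4
  subst h5
  have h7 : z = z' := Brd_height hz hz'
  exact ⟨rfl, h6, by omega⟩

theorem min_le_lastP (k : ℕ) {Z P : List Bool} {r : ℕ} (hZ : Z ∈ BU) (hP : P ∈ Irr r) :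
    min 1 ((r : ℝ≥0∞) / 2 ^ k) ≤ lastP k (Z ++ P) := by
  unfold lastP
  refine le_min (min_le_left _ _) (le_iInf fun x => ?_)
  obtain ⟨⟨Z', P', r'⟩, hZ', hP', h⟩ := x
  obtain ⟨-, -, h3⟩ := last_unique hZ hP hZ' hP' h
  subst h3
  exact min_le_right _ _

theorem lastP_hered (k : ℕ) : Hered (lastP k) := by
  intro s hs t
  unfold lastP
  refine min_le_min le_rfl (le_iInf fun x => ?_)
  obtain ⟨⟨Z, P, r⟩, hZ, hP, h⟩ := x
  have h1 : s ++ Z ∈ BU := by
    obtain ⟨a, ha⟩ := hs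
    obtain ⟨b, hb⟩ := hZ
    exact ⟨a + b, Brd_append ha hb⟩
  refine iInf_le_of_le ⟨(s ++ Z, P, r), h1, hP, ?_⟩ le_rfl
  show s ++ t = s ++ Z ++ P
  rw [h, List.append_assoc]

/-- the giant survives when the foot of the leaf is removed -/
theorem GiF_drop {k j n T : ℕ} {Y t : List Bool} (hjk : j ≤ k) (hY : Y ∈ Brd n) (hn : n < 2 ^ (k + 1)) (hT : 2 ^ (k + 3) ≤ T)
    (hYt : Y ++ t ∈ Brd T) (ht : t ∈ BU) (h : Y ++ t ∈ GiF k j) : t ∈ GiF k j := by
  obtain ⟨X, P, M, r, m, h1, ⟨x, hx⟩, hP, hr, hM, hm⟩ := h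
  obtain ⟨b, hb⟩ := ht
  have hp1 : 2 ^ (j + 1) ≤ 2 ^ (k + 1) := Nat.pow_le_pow_right (by norm_num) (by omega)
  have hp3 : 2 ^ (k + 3) = 4 * 2 ^ (k + 1) := by ring
  have h2 : Y ++ t ∈ Brd (x + (r + m)) := by
    rw [h1]
    exact Brd_append hx (Brd_append hP.1 hM)
  have h3 : x + (r + m) = T := Brd_height h2 hYt
  have hXP : X ++ P ∈ Brd (x + r) := Brd_append hx hP.1
  have h4 : Y ++ t = (X ++ P) ++ M := by rw [h1, List.append_assoc]
  obtain ⟨v, hv, h5, h6⟩ := cut_nested hY hXP hb hM (by omega) h4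
  by_cases hn2 : n ≤ x
  · obtain ⟨w, hw, h7, h8⟩ := cut_nested hY hx hv hP.1 hn2 h5.symm
    exact ⟨w, P, M, r, m, by rw [h6, h8, List.append_assoc], ⟨_, hw⟩, hP, hr, hM, hm⟩
  · obtain ⟨w, hw, h7, h8⟩ := cut_nested hx hY hP.1 hv (by omega) h5
    rcases hP.2.2 _ _ _ _ hw hv h8 with h9 | h9
    · subst h9
      have := Brd_height hw nil_mem_Brd
      omega
    · subst h9
      have := Brd_height hv nil_mem_Brd
      omega

end PW

end HexObs
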