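import Pool.Agent.PW.LowArc
import Pool.Agent.PW.ArcDefs
import Pool.Agent.PHW.Mirror
import Pool.Agent.PHW.PairsA
import Pool.Agent.PHW.HangA

/-!
PW, piece P2a, third part: the lower mean with the arcs of PW.arcs2 (both leaves of the height T).
-/

set_option autoImplicit false

namespace HexObs

namespace PW

open Finset TS SDN CMP LP

open scoped ENNReal

open Rec8 (sw)

private lemma la_map (a : List Bool) : (a.map not).map not = a := by
  rw [List.map_map]
  have : (not ∘ not : Bool → Bool) = id := by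
    funext b
    cases b <;> rfl
  rw [this, List.map_id]

/-- the return leaf may be extended below the foot. -/
lemma LFold_beyond {T n : ℕ} (hT : 1 ≤ T) {g g' u : List Bool} (hg : g ∈ Brd T) (hg' : g' ∈ Brd (T - 1)) (hu : u ∈ Brd n)
    (h : LFold g g') : LFold g (g' ++ u) := by
  unfold LFold Hang at h ⊢
  have e : T - 1 + 1 = T := by omega
  cases hb : lst g with
  | true =>
    rw [hb, if_pos rfl] at h
    rw [if_pos rfl]
    have h1 : false :: true :: g' ∈ Brd T := by
      have := Brd_step (b := true) hg'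
      rw [e] at this
      exact this
    have h2 := Dj_beyond (Brd_not (Brd_rev hg)) (Brd_not h1) (Brd_not hu) le_rfl (Dj_not h)
    rw [← List.map_append] at h2
    have h3 := Dj_not h2
    rw [la_map, la_map] at h3
    exact h3
  | false =>
    rw [hb, if_neg (by decide)] at h
    rw [if_neg (by decide)]
    have h1 : true :: false :: g' ∈ Brd T := by
      have := Brd_step (b := false) hg'
      rw [e] at this
      exact this
    exact Dj_beyond (Brd_rev hg) h1 hu le_rfl h

/-- the sum of the lengths of the arcs of height T, both leaves of the height T. -/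
noncomputable def ArcS (T : ℕ) : ℝ≥0∞ :=
  sw (Brd T) (fun g => sw {g' | g' ∈ Brd T ∧ LFold g g'} (fun g' => ((g.length + g'.length : ℕ) : ℝ≥0∞)))

theorem ArcM_le {T : ℕ} (hT : 1 ≤ T) : ArcM T ≤ ENNReal.ofReal (1 / xc ^ 2) * ArcS T := by
  have hx := xc_pos
  set F : List Bool × List Bool → ℝ≥0∞ := fun q => ((q.1.length + q.2.length : ℕ) : ℝ≥0∞) * (wE q.1 * wE q.2) with hF
  have e1 : ArcM T = ∑' q : List Bool × List Bool, (Ar T).indicator F q := tsum_subtype (Ar T) F
  have e2 : ArcS T = ∑' q : List Bool × List Bool,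
      {q : List Bool × List Bool | q.1 ∈ Brd T ∧ q.2 ∈ Brd T ∧ LFold q.1 q.2}.indicator F q := by
    unfold ArcS
    rw [ENNReal.tsum_prod']
    have e3 : ∀ (A : Set (List Bool)) (f : List Bool → ℝ≥0∞), sw A f = ∑' a : List Bool, A.indicator (fun a => wE a * f a) a := by
      intro A f
      exact tsum_subtype A (fun a => wE a * f a)
    rw [e3]
    refine tsum_congr fun g => ?_
    by_cases hg : g ∈ Brd T
    · rw [Set.indicator_of_mem hg, e3, ← ENNReal.tsum_mul_left]
      refine tsum_congr fun g' => ?_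
      by_cases hg' : g' ∈ Brd T ∧ LFold g g'
      · rw [Set.indicator_of_mem (show g' ∈ {g' | g' ∈ Brd T ∧ LFold g g'} from hg'),
          Set.indicator_of_mem (show (g, g') ∈ {q : List Bool × List Bool | q.1 ∈ Brd T ∧ q.2 ∈ Brd T ∧ LFold q.1 q.2} from
            ⟨hg, hg'.1, hg'.2⟩), hF]
        simp only
        ring
      · rw [Set.indicator_of_notMem (show g' ∉ {g' | g' ∈ Brd T ∧ LFold g g'} from hg'),
          Set.indicator_of_notMem (show (g, g') ∉ {q : List Bool × List Bool | q.1 ∈ Brd T ∧ q.2 ∈ Brd T ∧ LFold q.1 q.2} from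
            fun h => hg' h.2), mul_zero]
    · rw [Set.indicator_of_notMem hg]
      symm
      rw [ENNReal.tsum_eq_zero]
      intro g'
      rw [Set.indicator_of_notMem (show (g, g') ∉ {q : List Bool × List Bool | q.1 ∈ Brd T ∧ q.2 ∈ Brd T ∧ LFold q.1 q.2} from
            fun h => hg h.1)]
  rw [e1, e2, ← ENNReal.tsum_mul_left]
  obtain ⟨φ, hφ⟩ : ∃ φ : List Bool × List Bool → List Bool × List Bool, φ = fun q => (q.1, q.2 ++ [false, true]) := ⟨_, rfl⟩
  have hinj : Function.Injective φ := by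
    intro a b hab
    rw [hφ] at hab
    simp only [Prod.mk.injEq] at hab
    exact Prod.ext hab.1 (List.append_cancel_right hab.2)
  refine le_trans (ENNReal.tsum_le_tsum fun q => ?_) (ENNReal.tsum_comp_le_tsum_of_injective hinj _)
  by_cases hq : q ∈ Ar T
  · obtain ⟨a1, a2, a3⟩ := hq
    have hu : [false, true] ∈ Brd 1 := step_mem_Brd true
    have b1 : q.2 ++ [false, true] ∈ Brd T := by
      have h1 := Brd_append a2 hu
      have e : T - 1 + 1 = T := by omega
      rw [e] at h1
      exact h1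
    have b2 : LFold q.1 (q.2 ++ [false, true]) := LFold_beyond hT a1 a2 hu a3
    rw [Set.indicator_of_mem (show q ∈ Ar T from ⟨a1, a2, a3⟩), hφ]
    simp only
    rw [Set.indicator_of_mem (show (q.1, q.2 ++ [false, true]) ∈
      {q : List Bool × List Bool | q.1 ∈ Brd T ∧ q.2 ∈ Brd T ∧ LFold q.1 q.2} from ⟨a1, b1, b2⟩), hF]
    simp only
    have hw : wE (q.2 ++ [false, true]) = wE q.2 * ENNReal.ofReal (xc ^ 2) := by
      show ENNReal.ofReal (xc ^ (q.2 ++ [false, true]).length) = ENNReal.ofReal (xc ^ q.2.length) * ENNReal.ofReal (xc ^ 2)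
      rw [← ENNReal.ofReal_mul (by positivity), ← pow_add, List.length_append]
      rfl
    have hone : ENNReal.ofReal (1 / xc ^ 2) * ENNReal.ofReal (xc ^ 2) = 1 := by
      rw [← ENNReal.ofReal_mul (by positivity), one_div_mul_cancel (by positivity), ENNReal.ofReal_one]
    have hl : ((q.1.length + q.2.length : ℕ) : ℝ≥0∞) ≤ ((q.1.length + (q.2 ++ [false, true]).length : ℕ) : ℝ≥0∞) := by
      rw [List.length_append]
      exact_mod_cast (by omega : q.1.length + q.2.length ≤ q.1.length + (q.2.length + [false, true].length))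
    calc ((q.1.length + q.2.length : ℕ) : ℝ≥0∞) * (wE q.1 * wE q.2)
        ≤ ((q.1.length + (q.2 ++ [false, true]).length : ℕ) : ℝ≥0∞) * (wE q.1 * wE q.2) := mul_le_mul' hl le_rfl
      _ = (ENNReal.ofReal (1 / xc ^ 2) * ENNReal.ofReal (xc ^ 2)) *
          (((q.1.length + (q.2 ++ [false, true]).length : ℕ) : ℝ≥0∞) * (wE q.1 * wE q.2)) := by rw [hone, one_mul]
      _ = _ := by
        rw [hw]
        ring
  · rw [Set.indicator_of_notMem hq]
    exact zero_le

/-- P2a with the arcs of arcs2 (input of C1). -/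
theorem lowArc2 : ∃ c : ℝ, 0 < c ∧ ∀ h : ℕ, 1 ≤ h → ENNReal.ofReal (c * h * Zt h) ≤
    ∑ T ∈ Finset.Ioc h (3 * h), ArcS T + ∑' t : Brd (3 * h), (t.1.length : ℝ≥0∞) * wE t.1 := by
  obtain ⟨c, hc, hlow⟩ := lowArc
  have hx := xc_pos
  obtain ⟨K, hK⟩ : ∃ K : ℝ, K = 1 / xc ^ 2 := ⟨_, rfl⟩
  have hK1 : 1 ≤ K := by
    rw [hK, le_div_iff₀ (by positivity), one_mul]
    exact pow_le_one₀ hx.le TH.xc_le_one
  refine ⟨c / K, by positivity, fun h hh => ?_⟩
  have h1 := hlow h hh
  have h2 : ∑ T ∈ Finset.Ioc h (3 * h), ArcM T ≤ ENNReal.ofReal K * ∑ T ∈ Finset.Ioc h (3 * h), ArcS T := by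
    rw [Finset.mul_sum]
    refine Finset.sum_le_sum fun T hT => ?_
    rw [hK]
    exact ArcM_le (by have := (Finset.mem_Ioc.1 hT).1; omega)
  have h3 : ENNReal.ofReal (c * h * Zt h) = ENNReal.ofReal K * ENNReal.ofReal (c / K * h * Zt h) := by
    rw [← ENNReal.ofReal_mul (by positivity)]
    congr 1
    field_simp
  have h4 : ENNReal.ofReal K * ENNReal.ofReal (c / K * h * Zt h) ≤ ENNReal.ofReal K *
      (∑ T ∈ Finset.Ioc h (3 * h), ArcS T + ∑' t : Brd (3 * h), (t.1.length : ℝ≥0∞) * wE t.1) := by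
    rw [← h3, mul_add]
    refine h1.trans (add_le_add h2 ?_)
    have h5 : (1 : ℝ≥0∞) ≤ ENNReal.ofReal K := by
      rw [← ENNReal.ofReal_one]
      exact ENNReal.ofReal_le_ofReal hK1
    calc ∑' t : Brd (3 * h), (t.1.length : ℝ≥0∞) * wE t.1 = 1 * ∑' t : Brd (3 * h), (t.1.length : ℝ≥0∞) * wE t.1 :=
          (one_mul _).symm
      _ ≤ _ := mul_le_mul' h5 le_rfl
  have hK0 : ENNReal.ofReal K ≠ 0 := by
    rw [Ne, ENNReal.ofReal_eq_zero]
    linarith
  exact (ENNReal.mul_le_mul_iff_right hK0 ENNReal.ofReal_ne_top).1 h4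

end PW

end HexObs
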