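import Pool.Agent.TIW.Hpm
import Pool.Agent.NTS.ExDefs

/-!
# PW: the neighbourhood of a walk of `n` letters has few points (helper44)

* `saus r t`: the points at distance less than `r` from the word `t`;
* `saus_block`: the neighbourhood is covered by one ball for each block of letters;
* `saus_drop`: the neighbourhood of a suffix is not larger;
* **`coverX`**: from the Hoelder modulus at exactly `n` letters (exponent `2 / 3`): the neighbourhood of radius
  `2 ^ (k - c0)` has at most `e 4 ^ k` points, off a part `e` of the mass, for `c0` large.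
-/

set_option autoImplicit false

namespace HexObs

namespace PW

open Finset TS SDN NTW TIW

open scoped ENNReal

/-- the points at distance less than `r` from the word `t` -/
def saus (r : ℕ) (t : List Bool) : Set Pt := {p | ∃ i, i ≤ t.length ∧ hn (p - vx oo up t i) < r}

lemma abs_le_hn (p : Pt) {d : Pt} (hd : d ∈ dirs) : |ip p d| ≤ hn p :=
  abs_le.2 ⟨neg_hn_le_ip p hd, ip_le_hn p hd⟩

/-- the coordinates and the norm -/
lemma coord_lt {p : Pt} {r : ℤ} (h : hn p < r) : |p.1| < r ∧ |p.2| < r := by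
  have h1 := (abs_le_hn p (d := up) (by decide)).trans_lt h
  have h2 := (abs_le_hn p (d := rotL up) (by decide)).trans_lt h
  obtain ⟨a, b⟩ := p
  simp only [ip, up, rotL] at h1 h2
  rw [abs_lt] at h1 h2 ⊢
  rw [abs_lt]
  obtain ⟨h1, h1'⟩ := h1
  obtain ⟨h2, h2'⟩ := h2
  refine ⟨⟨?_, ?_⟩, ⟨?_, ?_⟩⟩ <;> simp only <;> omega

/-- the points of a ball -/
lemma ball_card (q : Pt) (r : ℕ) : {p : Pt | hn (p - q) < r}.Finite ∧ {p : Pt | hn (p - q) < r}.ncard ≤ (2 * r + 1) ^ 2 := by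
  have hsub : {p : Pt | hn (p - q) < r} ⊆
      ((Finset.Icc (q.1 - r) (q.1 + r) ×ˢ Finset.Icc (q.2 - r) (q.2 + r) : Finset (ℤ × ℤ)) : Set (ℤ × ℤ)) := by
    intro p hp
    obtain ⟨h1, h2⟩ := coord_lt (show hn (p - q) < (r : ℤ) from hp)
    rw [Prod.fst_sub, abs_lt] at h1
    rw [Prod.snd_sub, abs_lt] at h2
    rw [Finset.coe_product, Set.mem_prod, Finset.coe_Icc, Finset.coe_Icc, Set.mem_Icc, Set.mem_Icc]
    omega
  refine ⟨(Finset.finite_toSet _).subset hsub, ?_⟩
  refine (Set.ncard_le_ncard hsub (Finset.finite_toSet _)).trans (le_of_eq ?_)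
  rw [Set.ncard_coe_finset, Finset.card_product, Int.card_Icc, Int.card_Icc, pow_two]
  congr 1 <;> omega

lemma saus_sub (r : ℕ) (t : List Bool) : saus r t ⊆ ⋃ i ∈ Finset.range (t.length + 1), {p | hn (p - vx oo up t i) < r} := by
  rintro p ⟨i, hi, hp⟩
  exact Set.mem_iUnion₂.2 ⟨i, Finset.mem_range.2 (by omega), hp⟩

lemma saus_fin (r : ℕ) (t : List Bool) : (saus r t).Finite :=
  ((Finset.range (t.length + 1)).finite_toSet.biUnion fun i _ => (ball_card (vx oo up t i) r).1).subset (saus_sub r t)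

/-- **one ball for each block of letters** -/
theorem saus_block {t : List Bool} {r N l : ℕ} (hl : 1 ≤ l) (hN : t.length < N * l)
    (h : ∀ i j, i ≤ j → j ≤ t.length → j - i ≤ l → hn (vx oo up t j - vx oo up t i) < r) :
    (saus r t).ncard ≤ N * (4 * r + 1) ^ 2 := by
  have hsub : saus r t ⊆ ⋃ q ∈ Finset.range N, {p | hn (p - vx oo up t (q * l)) < (2 * r : ℕ)} := by
    rintro p ⟨i, hi, hp⟩
    have h1 : i / l < N := (Nat.div_lt_iff_lt_mul (by omega)).2 (by omega)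
    have h2 : i / l * l ≤ i := Nat.div_mul_le_self _ _
    have h3 : i < i / l * l + l := Nat.lt_div_mul_add (by omega)
    refine Set.mem_iUnion₂.2 ⟨i / l, Finset.mem_range.2 h1, ?_⟩
    have h4 := h (i / l * l) i h2 hi (by omega)
    have h5 := hn_tri p (vx oo up t i) (vx oo up t (i / l * l))
    show hn _ < ((2 * r : ℕ) : ℤ)
    push_cast
    linarith
  have hfin : (⋃ q ∈ Finset.range N, {p | hn (p - vx oo up t (q * l)) < (2 * r : ℕ)}).Finite :=
    (Finset.range N).finite_toSet.biUnion fun q _ => (ball_card (vx oo up t (q * l)) (2 * r)).1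
  refine (Set.ncard_le_ncard hsub hfin).trans ?_
  refine (Finset.set_ncard_biUnion_le _ _).trans ?_
  refine (Finset.sum_le_sum fun q _ => (ball_card (vx oo up t (q * l)) (2 * r)).2).trans (le_of_eq ?_)
  rw [Finset.sum_const, Finset.card_range, smul_eq_mul, show 2 * (2 * r) + 1 = 4 * r + 1 by ring]

/-- the neighbourhood of a suffix -/
theorem saus_drop (r : ℕ) (A B : List Bool) : (saus r B).ncard ≤ (saus r (A ++ B)).ncard := by
  have hrot : ∀ p : Pt, hn (mulE (rt A) p) = hn p := fun p => hn_mulE (nrm_rt A) p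
  have hinj : Function.Injective fun p : Pt => en A + mulE (rt A) p := by
    intro p q h
    have h1 : mulE (rt A) p = mulE (rt A) q := add_left_cancel h
    have h2 : hn (p - q) = 0 := by
      rw [← hrot, mulE_sub, h1, sub_self]
      rfl
    have h3 := coord_lt (r := 1) (show hn (p - q) < 1 by omega)
    rw [Prod.fst_sub, Prod.snd_sub, abs_lt, abs_lt] at h3
    ext <;> omega
  rw [← Set.ncard_image_of_injective (saus r B) hinj]
  refine Set.ncard_le_ncard ?_ (saus_fin r _)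
  rintro _ ⟨p, ⟨i, hi, hp⟩, rfl⟩
  refine ⟨A.length + i, by rw [List.length_append]; omega, ?_⟩
  have e : en A + mulE (rt A) p - vx oo up (A ++ B) (A.length + i) = mulE (rt A) (p - vx oo up B i) := by
    rw [vx_app A B i, mulE_sub]
    abel
  show hn (en A + mulE (rt A) p - vx oo up (A ++ B) (A.length + i)) < r
  rw [e, hrot]
  exact hp

/-! ### The modulus -/

/-- the numbers: blocks of letters against the ball -/
lemma num_block (M : ℝ) (e : ℝ) (he : 0 < e) : ∃ c1 : ℕ, ∀ c0 : ℕ, c1 ≤ c0 → ∃ N : ℕ, 1 ≤ N ∧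
    M * ((2 : ℝ) / N) ^ (2 / 3 : ℝ) ≤ 1 / (2 : ℝ) ^ (c0 + 2) ∧ (N : ℝ) * 25 ≤ e * 4 ^ c0 := by
  obtain ⟨μ, hμ⟩ := pow_unbounded_of_one_lt M (show (1 : ℝ) < 2 by norm_num)
  obtain ⟨w, hw⟩ := pow_unbounded_of_one_lt (25 / e) (show (1 : ℝ) < 2 by norm_num)
  refine ⟨3 * μ + 2 * w + 12, fun c0 hc => ?_⟩
  obtain ⟨b, hb⟩ : ∃ b, b = 3 * (μ + c0 + 2) / 2 + 2 := ⟨_, rfl⟩
  refine ⟨2 ^ b, Nat.one_le_two_pow, ?_, ?_⟩
  · have h1 : ((2 : ℝ) / ((2 ^ b : ℕ) : ℝ)) ^ (2 / 3 : ℝ) ≤ 1 / (2 : ℝ) ^ (μ + c0 + 2) := by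
      have e1 : (2 : ℝ) / ((2 ^ b : ℕ) : ℝ) = (2 : ℝ) ^ (1 - (b : ℝ)) := by
        rw [Real.rpow_sub two_pos, Real.rpow_one, Real.rpow_natCast]
        push_cast
        rfl
      rw [e1, ← Real.rpow_mul (by norm_num), one_div, ← Real.rpow_natCast 2 (μ + c0 + 2), ← Real.rpow_neg (by norm_num)]
      apply Real.rpow_le_rpow_of_exponent_le (by norm_num)
      have h2 : 3 * (μ + c0 + 2) ≤ 2 * b - 3 := by omega
      have h3 : 3 * (μ + c0 + 2) + 3 ≤ 2 * b := by omega
      have h4 : (3 : ℝ) * ((μ + c0 + 2 : ℕ) : ℝ) + 3 ≤ 2 * b := by exact_mod_cast h3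
      linarith
    have h5 : M * ((2 : ℝ) / ((2 ^ b : ℕ) : ℝ)) ^ (2 / 3 : ℝ) ≤ 2 ^ μ * (1 / (2 : ℝ) ^ (μ + c0 + 2)) :=
      mul_le_mul hμ.le h1 (by positivity) (by positivity)
    refine h5.trans (le_of_eq ?_)
    rw [show μ + c0 + 2 = μ + (c0 + 2) by ring, pow_add 2 μ]
    field_simp
  · have h1 : b + w ≤ 2 * c0 := by omega
    have h2 : (25 : ℝ) ≤ e * 2 ^ w := by
      rw [div_lt_iff₀ he] at hw
      linarith
    calc ((2 ^ b : ℕ) : ℝ) * 25 ≤ 2 ^ b * (e * 2 ^ w) := by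
          push_cast
          gcongr
      _ = e * 2 ^ (b + w) := by rw [pow_add]; ring
      _ ≤ e * 2 ^ (2 * c0) := by
          gcongr
          norm_num
      _ = e * 4 ^ c0 := by
          rw [pow_mul]
          norm_num

/-- **the neighbourhood of the walks with exactly `n` letters has few points** -/
theorem coverX {m : ℕ → ℝ} (hH : HoldX m (2 / 3)) (hm : ∀ N : ℕ, ∃ k0 : ℕ, ∀ k, k0 ≤ k → (N : ℝ) ≤ m k) :
    ∀ e : ℝ, 0 < e → ∃ c1 : ℕ, ∀ c0 : ℕ, c1 ≤ c0 → ∃ k1 : ℕ, ∀ k n : ℕ, k1 ≤ k → m k ≤ n → n < m (k + 1) →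
      gf {t | t ∈ SawN n ∧ e * 4 ^ k < ((saus (2 ^ (k - c0)) t).ncard : ℝ)} ≤ ENNReal.ofReal e * nuX m k := by
  intro e he
  obtain ⟨M, k0, hM, hmain⟩ := hH e he
  obtain ⟨c1, hc1⟩ := num_block M e he
  refine ⟨c1, fun c0 hc => ?_⟩
  obtain ⟨N, hN1, hN2, hN3⟩ := hc1 c0 hc
  obtain ⟨k1, hk1⟩ := hm N
  refine ⟨k0 + k1 + c0, fun k n hk hkn hnk => (gf_mono ?_).trans (hmain k n (by omega) hkn hnk)⟩
  rintro t ⟨ht, hbig⟩
  refine ⟨ht, ?_⟩
  by_contra hcon
  push Not at hcon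
  have htl : t.length = n := ht.1
  have hNn : N ≤ n := by
    have := (hk1 k (by omega)).trans hkn
    exact_mod_cast this
  have hn0 : 0 < n := by omega
  obtain ⟨l, hl⟩ : ∃ l, l = n / N + 1 := ⟨_, rfl⟩
  obtain ⟨r, hr⟩ : ∃ r : ℕ, r = 2 ^ (k - c0) := ⟨_, rfl⟩
  have hNl : n < N * l := by
    rw [hl]
    exact Nat.lt_mul_div_succ _ (by omega)
  have hl2 : (l : ℝ) / n ≤ 2 / N := by
    have h1 : N * (n / N) ≤ n := Nat.mul_div_le _ _
    have h2 : N * l ≤ 2 * n := by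
      rw [hl]
      nlinarith
    have h3 : (N : ℝ) * l ≤ 2 * n := by exact_mod_cast h2
    rw [div_le_div_iff₀ (by positivity) (by positivity)]
    linarith
  have hfast : ∀ i j, i ≤ j → j ≤ t.length → j - i ≤ l → hn (vx oo up t j - vx oo up t i) < r := by
    intro i j hij hj hjl
    rcases Nat.eq_or_lt_of_le hij with rfl | hlt
    · rw [sub_self]
      have h0 : hn (0 : Pt) = 0 := rfl
      rw [h0, hr]
      positivity
    have key : ∀ dir : Bool, (4 : ℝ) * |((lvl dir (vx oo up t j) - lvl dir (vx oo up t i) : ℤ) : ℝ)| < r := by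
      intro dir
      have h1 := hcon dir i j hlt (by omega)
      have h2 : ((j : ℝ) - i) / n ≤ 2 / N := by
        refine le_trans ?_ hl2
        have h3 : (j : ℝ) - i ≤ l := by
          have : j ≤ i + l := by omega
          have h4 : (j : ℝ) ≤ i + l := by exact_mod_cast this
          linarith
        gcongr
      have h5 : 0 ≤ ((j : ℝ) - i) / n := by
        have : (i : ℝ) ≤ j := by exact_mod_cast hij
        exact div_nonneg (by linarith) (by positivity)
      have h6 : (((j : ℝ) - i) / n) ^ (2 / 3 : ℝ) ≤ ((2 : ℝ) / N) ^ (2 / 3 : ℝ) := Real.rpow_le_rpow h5 h2 (by norm_num)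
      have h7 : M * (((j : ℝ) - i) / n) ^ (2 / 3 : ℝ) ≤ 1 / (2 : ℝ) ^ (c0 + 2) :=
        (mul_le_mul_of_nonneg_left h6 hM.le).trans hN2
      have h8 : (4 : ℝ) * (M * 2 ^ k * (((j : ℝ) - i) / n) ^ (2 / 3 : ℝ)) ≤ r := by
        have e1 : (2 : ℝ) ^ k = 2 ^ (k - c0) * 2 ^ c0 := by
          rw [← pow_add]
          congr 1
          omega
        have e2 : (r : ℝ) = 2 ^ (k - c0) := by
          rw [hr]
          push_cast
          rfl
        calc (4 : ℝ) * (M * 2 ^ k * (((j : ℝ) - i) / n) ^ (2 / 3 : ℝ))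
            = 4 * 2 ^ k * (M * (((j : ℝ) - i) / n) ^ (2 / 3 : ℝ)) := by ring
          _ ≤ 4 * 2 ^ k * (1 / (2 : ℝ) ^ (c0 + 2)) := by gcongr
          _ = r := by
              rw [e2, e1, pow_add 2 c0 2]
              field_simp
              norm_num
      linarith
    have k1 := key false
    have k2 := key true
    have k1' : 4 * |lvl false (vx oo up t j) - lvl false (vx oo up t i)| < (r : ℤ) := by exact_mod_cast k1
    have k2' : 4 * |lvl true (vx oo up t j) - lvl true (vx oo up t i)| < (r : ℤ) := by exact_mod_cast k2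
    have h3 : ∀ dir : Bool, lvl dir (vx oo up t j - vx oo up t i) = lvl dir (vx oo up t j) - lvl dir (vx oo up t i) :=
      fun dir => by unfold lvl; rw [ip_sub_left]
    have h4 := hn_of_lvl (p := vx oo up t j - vx oo up t i) (le_of_eq (congrArg abs (h3 false)))
      (le_of_eq (congrArg abs (h3 true)))
    linarith
  have hcard := saus_block (t := t) (r := r) (N := N) (l := l)
    (by rw [hl]; exact Nat.succ_le_succ (Nat.zero_le _)) (by rw [htl]; exact hNl) hfast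
  rw [← hr] at hbig
  have h1 : ((saus r t).ncard : ℝ) ≤ N * (4 * r + 1) ^ 2 := by exact_mod_cast hcard
  have hr1 : (1 : ℝ) ≤ r := by
    have : 1 ≤ r := by rw [hr]; exact Nat.one_le_two_pow
    exact_mod_cast this
  have h2 : (4 * (r : ℝ) + 1) ^ 2 ≤ 25 * r ^ 2 := by nlinarith
  have h3 : (r : ℝ) ^ 2 * 4 ^ c0 = 4 ^ k := by
    have e2 : (r : ℝ) = 2 ^ (k - c0) := by
      rw [hr]
      push_cast
      rfl
    rw [e2, ← pow_mul, mul_comm (k - c0) 2, pow_mul, show (2 : ℝ) ^ 2 = 4 by norm_num, ← pow_add]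
    congr 1
    omega
  have h4 : (N : ℝ) * (4 * r + 1) ^ 2 ≤ e * 4 ^ k := by
    calc (N : ℝ) * (4 * r + 1) ^ 2 ≤ N * (25 * (r : ℝ) ^ 2) := mul_le_mul_of_nonneg_left h2 (by positivity)
      _ = (N * 25) * (r : ℝ) ^ 2 := by ring
      _ ≤ (e * 4 ^ c0) * (r : ℝ) ^ 2 := mul_le_mul_of_nonneg_right hN3 (by positivity)
      _ = e * ((r : ℝ) ^ 2 * 4 ^ c0) := by ring
      _ = e * 4 ^ k := by rw [h3]
  linarith

end PW

end HexObs
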