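import Pool.Agent.PW.HumpD
import Pool.Agent.SIM.NearCut1

/-!
PW, row TrV (helper65): three nested bridges at a good leaf before a near touch with a translate, three nested bridges at a good
leaf between the two times.
-/

set_option autoImplicit false

namespace HexObs

namespace PW

open Finset TS SDN NTA NTW

open HexObs.SIM

open scoped ENNReal

/-- the rests behind the first cut -/
def WV (N d : ℕ) (v : Pt) (ρ R : ℕ → ℕ) (b K n M : ℕ) : Set (List Bool) :=
  {s | s ∈ WL K ∧ Cut3 (NearV N d v ρ R) (TwoF b K) (FirstF b K) n M s}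

/-- an interior leaf with cuts in the windows -/
lemma leaf_good {kc : ℕ} {t : List Bool} (ht : t ∈ SA) {m u : ℕ} {e : ℕ → ℕ} (hL : Lf false (kc + 5) t m u e) {l : ℕ}
    (h2 : 2 ≤ l) (hm : l + 2 ≤ m) : ∃ hh : ℕ, PosL t u e l (lw t (e l) (e (l + 1))) ∧ lw t (e l) (e (l + 1)) ∈ Brd hh ∧
      2 ^ (kc + 4) ≤ hh := by
  obtain ⟨hh, b1, b2, -⟩ := lw_brd ht (by omega) hL (j := l) (by omega) hm
  refine ⟨hh, posL_lw ht (by omega) hL (by omega) hm, b1, ?_⟩
  have h1 : 2 ^ (kc + 5) = 2 * 2 ^ (kc + 4) := by ring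
  have h3 : 1 ≤ 2 ^ (kc + 4) := Nat.one_le_two_pow
  omega

/-- the translate behind a cut -/
lemma near_drop {t : List Bool} {q k : ℕ} (h : dx up t q = dD false k) (v : Pt) : ∃ w : Pt, (w = v ∨ w = -v) ∧
    (∀ i j R, vx oo up (t.drop q) i ∈ Bl (vx oo up (t.drop q) j + w) R ↔
      vx oo up t (q + i) ∈ Bl (vx oo up t (q + j) + v) R) ∧
    ∀ i j, vx oo up (t.drop q) i = vx oo up (t.drop q) j + w ↔ vx oo up t (q + i) = vx oo up t (q + j) + v := by
  obtain ⟨σ, hσ, hv⟩ := drop_pm h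
  rcases hσ with rfl | rfl
  · refine ⟨v, Or.inl rfl, fun i j R => ?_, fun i j => ?_⟩
    · obtain ⟨a1, a2⟩ := hv i
      obtain ⟨b1, b2⟩ := hv j
      show |(vx oo up (t.drop q) i).1 - ((vx oo up (t.drop q) j).1 + v.1)| ≤ (R : ℤ) ∧
          |(vx oo up (t.drop q) i).2 - ((vx oo up (t.drop q) j).2 + v.2)| ≤ (R : ℤ) ↔
        |(vx oo up t (q + i)).1 - ((vx oo up t (q + j)).1 + v.1)| ≤ (R : ℤ) ∧
          |(vx oo up t (q + i)).2 - ((vx oo up t (q + j)).2 + v.2)| ≤ (R : ℤ)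
      rw [a1, a2, b1, b2]
      rw [show (1 : ℤ) * ((vx oo up t (q + i)).1 - (vx oo up t q).1) -
          (1 * ((vx oo up t (q + j)).1 - (vx oo up t q).1) + v.1) =
          (vx oo up t (q + i)).1 - ((vx oo up t (q + j)).1 + v.1) by ring,
        show (1 : ℤ) * ((vx oo up t (q + i)).2 - (vx oo up t q).2) -
          (1 * ((vx oo up t (q + j)).2 - (vx oo up t q).2) + v.2) =
          (vx oo up t (q + i)).2 - ((vx oo up t (q + j)).2 + v.2) by ring]
    · obtain ⟨a1, a2⟩ := hv i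
      obtain ⟨b1, b2⟩ := hv j
      rw [Prod.ext_iff, Prod.ext_iff, Prod.fst_add, Prod.snd_add, Prod.fst_add, Prod.snd_add, a1, a2, b1, b2]
      constructor <;> rintro ⟨h1, h2⟩ <;> constructor <;> linarith
  · refine ⟨-v, Or.inr rfl, fun i j R => ?_, fun i j => ?_⟩
    · obtain ⟨a1, a2⟩ := hv i
      obtain ⟨b1, b2⟩ := hv j
      show |(vx oo up (t.drop q) i).1 - ((vx oo up (t.drop q) j).1 + -v.1)| ≤ (R : ℤ) ∧
          |(vx oo up (t.drop q) i).2 - ((vx oo up (t.drop q) j).2 + -v.2)| ≤ (R : ℤ) ↔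
        |(vx oo up t (q + i)).1 - ((vx oo up t (q + j)).1 + v.1)| ≤ (R : ℤ) ∧
          |(vx oo up t (q + i)).2 - ((vx oo up t (q + j)).2 + v.2)| ≤ (R : ℤ)
      rw [a1, a2, b1, b2]
      rw [show (-1 : ℤ) * ((vx oo up t (q + i)).1 - (vx oo up t q).1) -
          (-1 * ((vx oo up t (q + j)).1 - (vx oo up t q).1) + -v.1) =
          -((vx oo up t (q + i)).1 - ((vx oo up t (q + j)).1 + v.1)) by ring,
        show (-1 : ℤ) * ((vx oo up t (q + i)).2 - (vx oo up t q).2) -
          (-1 * ((vx oo up t (q + j)).2 - (vx oo up t q).2) + -v.2) =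
          -((vx oo up t (q + i)).2 - ((vx oo up t (q + j)).2 + v.2)) by ring, abs_neg, abs_neg]
    · obtain ⟨a1, a2⟩ := hv i
      obtain ⟨b1, b2⟩ := hv j
      rw [Prod.ext_iff, Prod.ext_iff, Prod.fst_add, Prod.snd_add, Prod.fst_add, Prod.snd_add, Prod.fst_neg, Prod.snd_neg,
        a1, a2, b1, b2]
      constructor <;> rintro ⟨h1, h2⟩ <;> constructor <;> linarith

/-- **the two decompositions** -/
theorem hump_cut {kc K N d : ℕ} {v : Pt} {c r q n R : ℕ → ℕ} (hcr : ∀ i, i < 3 → c i + r i + 1 ≤ c (i + 1))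
    (hc3 : c 3 + r 3 ≤ kc + 3) (hc0 : 1 ≤ c 0) {S : Set (List Bool)} (hS : ∀ i, i < 4 → NoCut (c i) (r i) ⊆ S)
    {t : List Bool} (ht : t ∈ WL K) {m u : ℕ} {e : ℕ → ℕ} (hL : Lf false (kc + 5) t m u e)
    (hq : ∀ s, s < N → 6 ≤ q s ∧ 3 * n s * 2 ^ q s ≤ R s ∧ 8 * 2 ^ q s ≤ R s ∧ ¬ Irg 6 8 (q s) (n s) t)
    {l0 l i j : ℕ} (h02 : 2 ≤ l0) (h0m : l0 + 2 ≤ m) (h0S : lw t (e l0) (e (l0 + 1)) ∉ S) (h0i : e (l0 + 1) ≤ i)
    (hlm : l + 2 ≤ m) (hlS : lw t (e l) (e (l + 1)) ∉ S) (hil : i ≤ e l) (hlj : e (l + 1) ≤ j) (hj : j ≤ t.length)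
    (hnear : vx oo up t i ∈ Bl (vx oo up t j + v) d)
    (hdis : ∀ i' j', i' < j' → j' ≤ t.length → vx oo up t i' ≠ vx oo up t j' + v)
    (hfar : ∀ p, e l ≤ p → p ≤ e (l + 1) → ∀ s, s < N → vx oo up t p ∉ Bl (vx oo up t i) (R s) ∧
      vx oo up t p ∉ Bl (vx oo up t j) (R s)) :
    Cut3 (fun _ _ _ => True) {X | X ∈ WL K ∧ ∃ m u e, Fd (kc + 3) X m u e ∧ e m = X.length}
      (WV N d v (fun s => 2 ^ q s) R (c 0) (K + 1) (2 ^ (c 0 + r 0)) (2 ^ (c 3 + r 3)) ∪
        WV N d (-v) (fun s => 2 ^ q s) R (c 0) (K + 1) (2 ^ (c 0 + r 0)) (2 ^ (c 3 + r 3)))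
      (2 ^ (c 0 + r 0)) (2 ^ (c 3 + r 3)) t := by
  have hll : l0 < l := by
    by_contra hn
    have h1 := lf_mono hL (i := l + 1) (j := l0 + 1) (by omega) (by omega)
    have h2 : e l < e (l + 1) := by
      have hL' := hL
      unfold Lf at hL'
      exact hL'.lt l (by omega)
    omega
  have hle1 : e (l + 1) ≤ t.length := hlj.trans hj
  have hle2 : e (l0 + 1) ≤ e l := lf_mono hL (by omega) (by omega)
  have hle3 : e l < e (l + 1) := by
    have hL' := hL
    unfold Lf at hL'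
    exact hL'.lt l (by omega)
  have hp0 : (0 : ℤ) < 2 ^ (kc + 3) := by positivity
  -- the windows
  have w0 := hcr 0 (by norm_num)
  have w1 := hcr 1 (by norm_num)
  have w2 := hcr 2 (by norm_num)
  simp only [Nat.zero_add, Nat.reduceAdd] at w0 w1 w2
  have k1 : 2 * 2 ^ (c 0 + r 0) ≤ 2 ^ c 1 := by
    rw [← pow_succ']
    exact Nat.pow_le_pow_right (by norm_num) w0
  have k2 : 2 * 2 ^ (c 1 + r 1) ≤ 2 ^ c 2 := by
    rw [← pow_succ']
    exact Nat.pow_le_pow_right (by norm_num) w1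
  have k3 : 2 * 2 ^ (c 2 + r 2) ≤ 2 ^ c 3 := by
    rw [← pow_succ']
    exact Nat.pow_le_pow_right (by norm_num) w2
  have k6 : 2 ^ (c 0 + r 0) ≤ 2 ^ (c 1 + r 1) := Nat.pow_le_pow_right (by norm_num) (by omega)
  have k7 : 2 ^ (c 0 + r 0) ≤ 2 ^ (c 2 + r 2) := Nat.pow_le_pow_right (by norm_num) (by omega)
  have k8 : 2 ^ (c 3 + r 3) ≤ 2 ^ (kc + 3) := Nat.pow_le_pow_right (by norm_num) hc3
  have k9 : 2 ^ (c 1 + r 1) ≤ 2 ^ (c 3 + r 3) := Nat.pow_le_pow_right (by norm_num) (by omega)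
  have k10 : 0 < 2 ^ (c 0 + r 0) := by positivity
  have hRc : RR (c 0) = 3 * 2 ^ (c 0) - 2 := rfl
  have hRk : RR (kc + 3) = 3 * 2 ^ (kc + 3) - 2 := rfl
  -- the leaf l0
  obtain ⟨hh0, g02, g03, g04⟩ := leaf_good ht.1 hL h02 h0m
  obtain ⟨v0, z0, v01, v02, v03, v04, -, v06⟩ := leaf_cut g02 g03 g04
  obtain ⟨o1, O1, a1, a2, a3, a4, a5⟩ := v06 (c 0) (r 0) (by omega) (fun h => h0S (hS 0 (by norm_num) h))
  obtain ⟨o2, O2, b1, b2, b3, b4, b5⟩ := v06 (c 1) (r 1) (by omega) (fun h => h0S (hS 1 (by norm_num) h))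
  obtain ⟨o3, O3, c1, c2, c3, c4, c5⟩ := v06 (c 2) (r 2) (by omega) (fun h => h0S (hS 2 (by norm_num) h))
  obtain ⟨o4, O4, d1, d2, d3, d4, d5⟩ := v06 (c 3) (r 3) (by omega) (fun h => h0S (hS 3 (by norm_num) h))
  obtain ⟨D0, hD0⟩ : ∃ D0, D0 = dD false (u + l0) := ⟨_, rfl⟩
  rw [← hD0] at a1 a2 a5 b1 b2 b5 c1 c2 c5 d1 d2 d5
  have hz0 : z0 ≤ t.length := by omega
  have x12 : o2 < o1 := cut_lt b1 a1 (by omega)
  have x23 : o3 < o2 := cut_lt c1 b1 (by omega)
  have x34 : o4 < o3 := cut_lt d1 c1 (by omega)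
  have hoz : o1 < z0 := a1.2.1
  obtain ⟨N1, M1, M1'⟩ := cut_mid ht.1 hz0 d1 c1 x34.le
  obtain ⟨N2, M2, M2'⟩ := cut_mid ht.1 hz0 c1 b1 x23.le
  obtain ⟨N3, M3, M3'⟩ := cut_mid ht.1 hz0 b1 a1 x12.le
  -- the leaf l
  obtain ⟨hh1, g12, g13, g14⟩ := leaf_good ht.1 hL (l := l) (by omega) hlm
  obtain ⟨v1, z, v11, v12, v13, v14, v15, v16⟩ := leaf_cut g12 g13 g14
  obtain ⟨p1, G1, q1, q2, q3, q4, q5⟩ := v16 (c 0) (r 0) (by omega) (fun h => hlS (hS 0 (by norm_num) h))
  obtain ⟨p2, G2, r1, r2, r3, r4, r5⟩ := v16 (c 1) (r 1) (by omega) (fun h => hlS (hS 1 (by norm_num) h))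
  obtain ⟨p3, G3, s1, s2, s3, s4, s5⟩ := v16 (c 2) (r 2) (by omega) (fun h => hlS (hS 2 (by norm_num) h))
  obtain ⟨p4, G4, y1, y2, y3, y4, y5⟩ := v16 (c 3) (r 3) (by omega) (fun h => hlS (hS 3 (by norm_num) h))
  obtain ⟨D, hD⟩ : ∃ D, D = dD false (u + l) := ⟨_, rfl⟩
  rw [← hD] at v15 q1 q2 q5 r1 r2 r5 s1 s2 s5 y1 y2 y5
  have hzl : z ≤ t.length := by omega
  have q12 : p2 < p1 := cut_lt r1 q1 (by omega)
  have q23 : p3 < p2 := cut_lt s1 r1 (by omega)
  have q34 : p4 < p3 := cut_lt y1 s1 (by omega)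
  have hpz : p1 < z := q1.2.1
  obtain ⟨n1, m1, m1'⟩ := cut_mid ht.1 hzl y1 s1 q34.le
  obtain ⟨n2, m2, m2'⟩ := cut_mid ht.1 hzl s1 r1 q23.le
  obtain ⟨n3, m3, m3'⟩ := cut_mid ht.1 hzl r1 q1 q12.le
  have l1 : ((t.drop p4).take (p3 - p4)).length = p3 - p4 := by
    rw [List.length_take, List.length_drop]; omega
  have l2 : ((t.drop p3).take (p2 - p3)).length = p2 - p3 := by
    rw [List.length_take, List.length_drop]; omega
  have l3 : ((t.drop p2).take (p1 - p2)).length = p1 - p2 := by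
    rw [List.length_take, List.length_drop]; omega
  have hp4a : v1 + 1 ≤ p4 := y1.1
  have hp4 : e l ≤ p4 := by omega
  have hi4 : i ≤ p4 := hil.trans hp4
  have hpj : p1 ≤ j := by omega
  have hd1 : ∀ w, w < N → vx oo up t p4 ∉ Bl (vx oo up t i) (R w) := fun w hw => (hfar p4 hp4 (by omega) w hw).1
  have hd2 : ∀ w, w < N → vx oo up t p1 ∉ Bl (vx oo up t j) (R w) := fun w hw => (hfar p1 (by omega) (by omega) w hw).2
  have heq : t = t.take p4 ++ ((t.drop p4).take (p3 - p4) ++ ((t.drop p3).take (p2 - p3) ++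
      ((t.drop p2).take (p1 - p2) ++ t.drop p1))) := by
    have e3 : (t.drop p2).take (p1 - p2) ++ t.drop p1 = t.drop p2 := by
      have := List.take_append_drop (p1 - p2) (t.drop p2)
      rwa [List.drop_drop, Nat.add_sub_cancel' q12.le] at this
    have e2 : (t.drop p3).take (p2 - p3) ++ t.drop p2 = t.drop p3 := by
      have := List.take_append_drop (p2 - p3) (t.drop p3)
      rwa [List.drop_drop, Nat.add_sub_cancel' q23.le] at this
    have e1 : (t.drop p4).take (p3 - p4) ++ t.drop p3 = t.drop p4 := by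
      have := List.take_append_drop (p3 - p4) (t.drop p4)
      rwa [List.drop_drop, Nat.add_sub_cancel' q34.le] at this
    rw [e3, e2, e1, List.take_append_drop]
  -- behind a cut w of the leaf l0
  have hright : ∀ w, CutAt D0 t (v0 + 1) z0 w → w ≤ o1 → t.drop w ∈
      (WV N d v (fun s => 2 ^ q s) R (c 0) (K + 1) (2 ^ (c 0 + r 0)) (2 ^ (c 3 + r 3)) ∪
        WV N d (-v) (fun s => 2 ^ q s) R (c 0) (K + 1) (2 ^ (c 0 + r 0)) (2 ^ (c 3 + r 3))) := by
    intro w hw hwa
    have h1 := a1.2.2.2.1 w hw.1 hwa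
    have hwz : w < z0 := hw.2.1
    have hdx : dx up t w = dD false (u + l0) := by rw [← hD0]; exact hw.2.2.1
    have hwR : RR (c 0) ≤ xD (dD false (u + l0)) t z0 - xD (dD false (u + l0)) t w := by
      rw [← hD0, hRc]
      have h4 : ((2 ^ c 0 : ℕ) : ℤ) ≤ (O1 : ℤ) := by exact_mod_cast a3
      push_cast at h4
      omega
    have hw4 : w ≤ p4 := by omega
    have l0' : ((t.take p4).drop w).length = p4 - w := by
      rw [List.length_drop, List.length_take]; omega
    have l4 : (t.take p4).length = p4 := by rw [List.length_take]; omega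
    obtain ⟨v', hv', hB, hE⟩ := near_drop hdx v
    have hmem : t.drop w ∈ WV N d v' (fun s => 2 ^ q s) R (c 0) (K + 1) (2 ^ (c 0 + r 0)) (2 ^ (c 3 + r 3)) := by
      refine ⟨drop_WL ht (by omega) hdx, (t.take p4).drop w, (t.drop p4).take (p3 - p4), (t.drop p3).take (p2 - p3),
        (t.drop p2).take (p1 - p2), t.drop p1, n1, n2, n3, ?_, m1, m2, m3, by omega, by omega, by omega, by omega, by omega,
        by omega, ?_, ?_, ?_⟩
      · conv_lhs => rw [heq]
        rw [List.drop_append_of_le_length (by omega)]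
      · intro A B hA hB hAB
        obtain ⟨e1, e2, e3, e4, e5⟩ := cut_inner hzl y1 s1 q34.le hA hB hAB
        have e6 : (t.take p4).drop w ++ A = (t.take (p4 + A.length)).drop w := by
          rw [e4, List.drop_append_of_le_length (by omega)]
        rw [e6]
        have hv1w : w ≤ v1 + 1 := by omega
        have h5 : (t.take (p4 + A.length)).drop w ∈ TopE (kc + 3) (K + 1) := by
          rw [hD] at e1
          refine mid_top ht (by omega) hzl e1 ?_ hv1w hdx
          rw [← hD, hRk]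
          omega
        have h6 : (t.take (p4 + A.length)).drop w ∈ BotS (c 0) (K + 1) := by
          rw [hD0] at hw
          exact mid_bot ht hw hwR (by omega) (by omega)
        exact ⟨h5.1, topE_botS hc0 (topE_mono (by omega) le_rfl h5) h6⟩
      · intro A B hA hB hAB
        obtain ⟨e1, e2, e3, e4, e5⟩ := cut_inner hzl r1 q1 q12.le hA hB hAB
        rw [← e5]
        have h3 := q1.2.2.2.1 (p2 + A.length) e1.1 e2
        rw [hD] at e1
        refine botS_sub hc0 (bot_mem ht hzl e1 ?_)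
        rw [← hD, hRc]
        have h4 : ((2 ^ c 0 : ℕ) : ℤ) ≤ (G1 : ℤ) := by exact_mod_cast q3
        push_cast at h4
        omega
      · have hlen : (t.drop w).length = t.length - w := List.length_drop
        have ea : ∀ y, w ≤ y → w + (y - w) = y := fun y hy => by omega
        have hwi : w ≤ i := by omega
        refine ⟨⟨i - w, p4 - w, p1 - w, j - w, by omega, by omega, by omega, by omega, by omega, ?_, ?_, ?_, ?_⟩, ?_⟩
        · rw [hB, ea i hwi, ea j (by omega)]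
          exact hnear
        · intro w' hw'
          rw [ball_drop hdx, ea p4 (by omega), ea i hwi]
          exact hd1 w' hw'
        · intro w' hw'
          rw [ball_drop hdx, ea p1 (by omega), ea j (by omega)]
          exact hd2 w' hw'
        · intro w' hw'
          obtain ⟨c1, c2, c3, c5⟩ := hq w' hw'
          refine good_of_irg c1 c2 c3 (fun hI => c5 (irg_drop (by omega) hdx hI)) (z := p4 - w) (by omega) ?_ le_rfl
            (by omega)
          rw [ball_drop hdx, ea p4 (by omega), ea i hwi]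
          exact hd1 w' hw'
        · intro i' j' hij' hj' hcon
          exact hdis (w + i') (w + j') (by omega) (by omega) ((hE i' j').1 hcon)
    rcases hv' with rfl | rfl
    · exact Or.inl hmem
    · exact Or.inr hmem
  -- the outer decomposition
  have L0 : (t.take o4).length = o4 := by rw [List.length_take]; omega
  have L1 : ((t.drop o4).take (o3 - o4)).length = o3 - o4 := by
    rw [List.length_take, List.length_drop]; omega
  have L2 : ((t.drop o3).take (o2 - o3)).length = o2 - o3 := by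
    rw [List.length_take, List.length_drop]; omega
  have L3 : ((t.drop o2).take (o1 - o2)).length = o1 - o2 := by
    rw [List.length_take, List.length_drop]; omega
  refine ⟨t.take o4, (t.drop o4).take (o3 - o4), (t.drop o3).take (o2 - o3), (t.drop o2).take (o1 - o2), t.drop o1,
    N1, N2, N3, ?_, M1, M2, M3, by omega, by omega, by omega, by omega, by omega, by omega, ?_, ?_, trivial⟩
  · have e3 : (t.drop o2).take (o1 - o2) ++ t.drop o1 = t.drop o2 := by
      have := List.take_append_drop (o1 - o2) (t.drop o2)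
      rwa [List.drop_drop, Nat.add_sub_cancel' x12.le] at this
    have e2 : (t.drop o3).take (o2 - o3) ++ t.drop o2 = t.drop o3 := by
      have := List.take_append_drop (o2 - o3) (t.drop o3)
      rwa [List.drop_drop, Nat.add_sub_cancel' x23.le] at this
    have e1 : (t.drop o4).take (o3 - o4) ++ t.drop o3 = t.drop o4 := by
      have := List.take_append_drop (o3 - o4) (t.drop o4)
      rwa [List.drop_drop, Nat.add_sub_cancel' x34.le] at this
    rw [e3, e2, e1, List.take_append_drop]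
  · intro A B hA hB hH
    obtain ⟨w1, w2, w3, w4, w5⟩ := cut_inner hz0 d1 c1 x34.le hA hB hH
    rw [← w4]
    rw [hD0] at w1
    refine topE_sub (by omega) (top_mem ht (by omega) hz0 w1 ?_)
    rw [hRk, ← hD0]
    have := d5
    omega
  · intro A B hA hB hH
    obtain ⟨w1, w2, w3, w4, w5⟩ := cut_inner hz0 b1 a1 x12.le hA hB hH
    rw [← w5]
    exact hright _ w1 w2

end PW

end HexObs
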