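import Pool.Agent.PW.XBoundV
import Pool.Agent.SDN.DimLaw
import Pool.Agent.SIM.MidM
import Pool.Agent.SIM.FirstL

/-!
PW, row TrV, helper44 (after SIM/MassX, helper69): the mass of the words that start with a leaf and have a near touch with
their translate by v around three nested bridges.
-/

set_option autoImplicit false

namespace HexObs

namespace PW

open Finset TS SDN NTW NTA SIM

open scoped ENNReal

/-- **the rests with a near touch** -/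
theorem massW : MassW := by
  intro J D D' hJ hDD
  obtain ⟨C1, hC1, hx⟩ := xBoundV
  obtain ⟨C3, hC3, hcut⟩ := cut3_sum
  obtain ⟨C4, k4, hC4, hmid⟩ := mid_mass
  obtain ⟨C5, k5, hC5, hfirst⟩ := half_first
  obtain ⟨B, hB⟩ : ∃ B : ℝ, B = (C3 * 4 ^ D * 4 ^ (J + 2)) * C4 ^ (J + D' + 6) * C5 ^ (J + D' + 6) *
    (C1 * 4 ^ (J + D + 2)) := ⟨_, rfl⟩
  have hB0 : 0 < B := by rw [hB]; positivity
  refine ⟨max B 1, k4 + k5 + D' + 7, le_max_right _ _, fun k S d v ρ R hk hv hS hR hsum => ?_⟩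
  obtain ⟨Sg, hSg⟩ : ∃ Sg : ℝ, Sg = ∑ s ∈ range S, (ρ s : ℝ) / R s := ⟨_, rfl⟩
  rw [← hSg] at hsum ⊢
  obtain ⟨n, hn⟩ : ∃ n : ℕ, n = 2 ^ (k + 1 - D) := ⟨_, rfl⟩
  have hn1 : 1 ≤ n := by rw [hn]; exact Nat.one_le_two_pow
  have hn0 : (0 : ℝ) < n := by exact_mod_cast hn1
  have hU := TS.Ub_pos (k + J + 3)
  have hUc := TS.Ub_pos (k + 1)
  have hnr : (n : ℝ) = 2 ^ (k + 1 - D) := by rw [hn]; push_cast; rfl
  have hkk : k + 1 - D + D ≥ k + 1 := by omega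
  by_cases hDk : D ≤ k + 1
  swap
  · omega
  have hn2 : (2 : ℝ) ^ (k + 1) = n * 2 ^ D := by
    rw [hnr, ← pow_add]
    congr 1
    omega
  have hUr : Ub (k + J + 3) ≤ 2 ^ (J + 2) * Ub (k + 1) := by
    have := DL.Ub_add (k + 1) (J + 2)
    rwa [show k + 1 + (J + 2) = k + J + 3 by ring] at this
  have hratio : (2 ^ (k + 1) / (n * Ub (k + 1)) : ℝ) ≤ 2 ^ D * 2 ^ (J + 2) / Ub (k + J + 3) := by
    have h2 : (2 ^ (k + 1) / (n * Ub (k + 1)) : ℝ) = 2 ^ D / Ub (k + 1) := by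
      rw [hn2]
      field_simp
    rw [h2, div_le_div_iff₀ hUc hU]
    calc (2 : ℝ) ^ D * Ub (k + J + 3) ≤ 2 ^ D * (2 ^ (J + 2) * Ub (k + 1)) := mul_le_mul_of_nonneg_left hUr (by positivity)
      _ = _ := by ring
  have hratio0 : (0 : ℝ) ≤ 2 ^ (k + 1) / (n * Ub (k + 1)) := by positivity
  obtain ⟨W, hW⟩ : ∃ W : Set (List Bool), W = {s | s ∈ WL (k + J + 3) ∧
      Cut3 (NearV S d v ρ R) (TwoF (k + 2 - D') (k + J + 3)) (FirstF (k + 2 - D') (k + J + 3)) (2 ^ (k + 1 - D))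
        (2 ^ (k + 1)) s} := ⟨_, rfl⟩
  rw [← hW]
  have h1 := hcut (NearV S d v ρ R) (TwoF (k + 2 - D') (k + J + 3)) (FirstF (k + 2 - D') (k + J + 3)) W n (k + 1)
    (ENNReal.ofReal (C1 * 4 ^ (k + J + 3) * (UU n / n ^ 2) / Sg))
    (fun t n1 n2 n1' n2' a1 a2 a3 => NearV_mono t n1 n2 n1' n2' a1 a2 a3) hn1
    (by rw [hn, hW]; exact fun t ht => ht.2) ?_
  swap
  · intro P Q
    rw [hSg]
    refine (gf_mono ?_).trans (hx P Q n (k + J + 3) S d v ρ R hn1 hv hS hR (by rw [← hSg]; exact hsum))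
    rintro Z ⟨⟨z1, z2, -⟩, z3, z4⟩
    rw [hW] at z3
    exact ⟨z1, z2, z3.1, z4⟩
  have hT := hmid (k - D' - 3) (J + D' + 6) (by omega) (by omega)
  rw [show k - D' - 3 + 5 = k + 2 - D' by omega, show k - D' - 3 + (J + D' + 6) = k + J + 3 by omega] at hT
  have hF := hfirst (k - D' - 3) (J + D' + 6) (by omega) (by omega)
  rw [show k - D' - 3 + 5 = k + 2 - D' by omega, show k - D' - 3 + (J + D' + 6) = k + J + 3 by omega] at hF
  refine h1.trans ((mul_le_mul' le_rfl (mul_le_mul' (mul_le_mul' hT hF) le_rfl)).trans ?_)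
  have hUn : UU n ≤ Ub (k + J + 3) := by
    rw [hn]
    exact Num2Aux.UU_mono (Nat.pow_le_pow_right (by norm_num) (by omega))
  have hUn0 := Num2Aux.UU_pos n
  have key : ∀ (x y z w : ℝ) (X : ℝ≥0∞), 0 ≤ x → 0 ≤ y → 0 ≤ z → ENNReal.ofReal x * (ENNReal.ofReal y *
      (ENNReal.ofReal z * X) * ENNReal.ofReal w) = ENNReal.ofReal (x * y * z * w) * X := by
    intro x y z w X hx0 hy0 hz0
    rw [ENNReal.ofReal_mul (mul_nonneg (mul_nonneg hx0 hy0) hz0), ENNReal.ofReal_mul (mul_nonneg hx0 hy0),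
      ENNReal.ofReal_mul hx0]
    ring
  rw [key _ _ _ _ _ (by positivity) (by positivity) (by positivity)]
  refine mul_le_mul_left (ENNReal.ofReal_le_ofReal ?_) _
  have hn4 : (4 : ℝ) ^ (k + J + 3) = n ^ 2 * 4 ^ (J + D + 2) := by
    have h2 : (4 : ℝ) ^ (k + J + 3) = ((2 : ℝ) ^ (k + 1)) ^ 2 * 4 ^ (J + 2) := by
      rw [← pow_mul, mul_comm (k + 1) 2, pow_mul, show (2 : ℝ) ^ 2 = 4 by norm_num, ← pow_add]
      congr 1
      ring
    have h3 : ((2 : ℝ) ^ D) ^ 2 = 4 ^ D := by rw [← pow_mul, mul_comm D 2, pow_mul]; norm_num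
    rw [h2, hn2, mul_pow, h3, show J + D + 2 = D + (J + 2) by ring, pow_add 4 D]
    ring
  have f1 : C3 * (2 ^ (k + 1) / (n * Ub (k + 1))) ^ 2 ≤ C3 * 4 ^ D * 4 ^ (J + 2) / Ub (k + J + 3) ^ 2 := by
    have h2 := pow_le_pow_left₀ hratio0 hratio 2
    have h3 : ((2 : ℝ) ^ D * 2 ^ (J + 2) / Ub (k + J + 3)) ^ 2 = 4 ^ D * 4 ^ (J + 2) / Ub (k + J + 3) ^ 2 := by
      rw [div_pow, mul_pow, ← pow_mul, ← pow_mul, mul_comm D 2, mul_comm (J + 2) 2, pow_mul, pow_mul]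
      norm_num
    rw [h3] at h2
    calc C3 * (2 ^ (k + 1) / (n * Ub (k + 1))) ^ 2 ≤ C3 * (4 ^ D * 4 ^ (J + 2) / Ub (k + J + 3) ^ 2) :=
          mul_le_mul_of_nonneg_left h2 (by positivity)
      _ = _ := by ring
  have f2 : C1 * 4 ^ (k + J + 3) * (UU n / n ^ 2) / Sg ≤ C1 * 4 ^ (J + D + 2) * Ub (k + J + 3) / Sg := by
    rw [hn4]
    refine div_le_div_of_nonneg_right ?_ hsum.le
    calc C1 * (n ^ 2 * 4 ^ (J + D + 2)) * (UU n / n ^ 2) = C1 * 4 ^ (J + D + 2) * UU n := by field_simp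
      _ ≤ _ := mul_le_mul_of_nonneg_left hUn (by positivity)
  calc C3 * (2 ^ (k + 1) / (n * Ub (k + 1))) ^ 2 * (C4 ^ (J + D' + 6) * Ub (k + J + 3)) *
        (C5 ^ (J + D' + 6) * Ub (k + J + 3)) * (C1 * 4 ^ (k + J + 3) * (UU n / n ^ 2) / Sg)
      ≤ (C3 * 4 ^ D * 4 ^ (J + 2) / Ub (k + J + 3) ^ 2) * (C4 ^ (J + D' + 6) * Ub (k + J + 3)) *
        (C5 ^ (J + D' + 6) * Ub (k + J + 3)) * (C1 * 4 ^ (J + D + 2) * Ub (k + J + 3) / Sg) := by
        have g2 : 0 ≤ C4 ^ (J + D' + 6) * Ub (k + J + 3) := by positivity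
        have g3 : 0 ≤ C5 ^ (J + D' + 6) * Ub (k + J + 3) := by positivity
        have g4 : 0 ≤ C1 * 4 ^ (k + J + 3) * (UU n / n ^ 2) / Sg := by positivity
        exact mul_le_mul (mul_le_mul_of_nonneg_right (mul_le_mul_of_nonneg_right f1 g2) g3) f2 g4 (by positivity)
    _ = B / Sg * Ub (k + J + 3) := by
        rw [hB]
        field_simp
    _ ≤ max B 1 / Sg * Ub (k + J + 3) := by
        refine mul_le_mul_of_nonneg_right ?_ hU.le
        exact div_le_div_of_nonneg_right (le_max_left _ _) hsum.le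

end PW

end HexObs
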