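import Pool.Agent.PW.HumpN
import Pool.Agent.PW.HumpC
import Pool.Agent.PW.MassW
import Pool.Agent.SIM.Hump
import Pool.Agent.NTW.FoldCl

/-!
PW, row TrV (helper65): **near touches of a word with its translate, given end, have little mass**: the assembly.
-/

set_option autoImplicit false

namespace HexObs

namespace PW

open Finset TS SDN NTW NTA JNT TPF

open HexObs.SIM

open scoped ENNReal

/-- **the mass of the words with a given end and three nested bridges in front of a class of rests** -/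
theorem out_mass {J : ℕ} (hJ : 6 ≤ J) (D : ℕ) : ∃ (A : ℝ) (k1 : ℕ), 0 < A ∧ ∀ (kc : ℕ) (y : Pt)
    (E W : Set (List Bool)) (δ : ℝ), k1 ≤ kc → 0 ≤ δ →
    (∀ t ∈ E, vx oo up t t.length = y ∧ Cut3 (fun _ _ _ => True)
      {X | X ∈ WL (kc + J) ∧ ∃ m u e, Fd (kc + 3) X m u e ∧ e m = X.length} W (2 ^ (kc - D)) (2 ^ kc) t) →
    gf W ≤ ENNReal.ofReal (δ * Ub (kc + J)) * Xb (kc + J) →
    gf E ≤ ENNReal.ofReal (A * δ * (Ub (kc + J) / 4 ^ (kc + J))) * Xb (kc + J) ^ 2 := by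
  obtain ⟨C1, hC1, hcut⟩ := cut3_disp
  obtain ⟨C2, k2, hC2, hlast⟩ := half_last
  have hC10 : 0 < C1 := by linarith
  have hC20 : 0 < C2 := by linarith
  refine ⟨C1 * (2 ^ D) ^ 2 * 4 ^ D * C2 ^ (J + 2) * 8 ^ J, k2 + D + 6, by positivity, fun kc y E W δ hk hδ hE hW => ?_⟩
  have hUc := Ub_pos kc
  have hUK := Ub_pos (kc + J)
  obtain ⟨n, hn⟩ : ∃ n, n = 2 ^ (kc - D) := ⟨_, rfl⟩
  have hn1 : 1 ≤ n := by rw [hn]; exact Nat.one_le_two_pow
  have hnR : (0 : ℝ) < n := by exact_mod_cast hn1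
  have hL : gf {X | X ∈ WL (kc + J) ∧ ∃ m u e, Fd (kc + 3) X m u e ∧ e m = X.length} ≤
      ENNReal.ofReal (C2 ^ (J + 2) * Ub (kc + J)) * Xb (kc + J) := by
    have := hlast (kc - 2) (J + 2) (by omega) (by omega)
    rw [show kc - 2 + 5 = kc + 3 by omega, show kc - 2 + (J + 2) = kc + J by omega] at this
    exact this
  have hmain := hcut (fun _ _ _ => True) _ W E n kc 1 (fun _ _ _ _ _ _ _ _ => trivial) hn1 zero_le_one
    (fun t ht => by rw [hn]; exact (hE t ht).2)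
    (fun A B => ⟨{mulE (conjE (rotTo up (dx up A A.length))) (y - ev A) - ev B}, Set.finite_singleton _, by
      rw [Set.ncard_singleton]
      norm_num, fun Z hZ _ _ hZE _ => mid_disp hZ (hE _ hZE).1⟩)
  refine hmain.trans ((mul_le_mul' le_rfl (mul_le_mul' hL hW)).trans ?_)
  have e0 : ENNReal.ofReal (C2 ^ (J + 2) * Ub (kc + J)) * Xb (kc + J) *
      (ENNReal.ofReal (δ * Ub (kc + J)) * Xb (kc + J)) =
      ENNReal.ofReal (C2 ^ (J + 2) * Ub (kc + J) * (δ * Ub (kc + J))) * Xb (kc + J) ^ 2 := by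
    rw [ENNReal.ofReal_mul (p := C2 ^ (J + 2) * Ub (kc + J)) (by positivity)]
    ring
  rw [e0, ← mul_assoc, ← ENNReal.ofReal_mul (by
    have := uu_pos n
    positivity)]
  refine mul_le_mul' (ENNReal.ofReal_le_ofReal ?_) le_rfl
  have hkd : kc = kc - D + D := by omega
  have hnk : (2 : ℝ) ^ kc = n * 2 ^ D := by
    rw [hn]
    push_cast
    rw [← pow_add, ← hkd]
  have e1 : (2 : ℝ) ^ kc / (n * Ub kc) = 2 ^ D / Ub kc := by
    rw [hnk]
    field_simp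
  have e2 : uu n / n ≤ 4 ^ D * Ub kc / 4 ^ kc := by
    have h1 : (n : ℝ) * uu n ≤ UU n := Num2Aux.mul_le_UU n
    have h2 : UU n ≤ Ub kc := by
      rw [hn]
      exact UU_mono (Nat.pow_le_pow_right (by norm_num) (by omega))
    have h3 : (4 : ℝ) ^ kc = n ^ 2 * 4 ^ D := by
      have : (4 : ℝ) ^ kc = (2 ^ kc) ^ 2 := by
        rw [← pow_mul, mul_comm, pow_mul]
        norm_num
      rw [this, hnk, mul_pow]
      congr 1
      rw [← pow_mul, mul_comm, pow_mul]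
      norm_num
    rw [h3, div_le_div_iff₀ hnR (by positivity)]
    have h4 : (0 : ℝ) < 4 ^ D := by positivity
    nlinarith [mul_le_mul_of_nonneg_left (h1.trans h2) (by positivity : (0 : ℝ) ≤ n * 4 ^ D)]
  have e3 : Ub (kc + J) ≤ 2 ^ J * Ub kc := Ub_add kc J
  have e4 : (4 : ℝ) ^ (kc + J) = 4 ^ kc * 4 ^ J := pow_add _ _ _
  have hu := uu_pos n
  rw [e1, mul_one]
  calc C1 * (2 ^ D / Ub kc) ^ 2 * (uu n / n) * (C2 ^ (J + 2) * Ub (kc + J) * (δ * Ub (kc + J)))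
      ≤ C1 * (2 ^ D / Ub kc) ^ 2 * (4 ^ D * Ub kc / 4 ^ kc) *
        (C2 ^ (J + 2) * Ub (kc + J) * (δ * (2 ^ J * Ub kc))) := by
        gcongr
    _ = C1 * (2 ^ D) ^ 2 * 4 ^ D * C2 ^ (J + 2) * 8 ^ J * δ * (Ub (kc + J) / 4 ^ (kc + J)) := by
        rw [e4, show (8 : ℝ) = 2 * 4 by norm_num, mul_pow]
        field_simp

/-- the radii decrease -/
lemma radH {K : ℕ} {J n : ℕ → ℕ} (hJ : ∀ s, J s < J (s + 1)) (hn : ∀ s, 107 ≤ n s)
    (h : ∀ s, 240 * n (s + 1) ≤ 2 ^ (J (s + 1) - J s)) : ∀ s, J s ≤ K →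
    3 * n s * 2 ^ (K - J s) ≤ 3 * n 0 * 2 ^ (K - J 0) ∧ (1 ≤ s → 80 * (3 * n s * 2 ^ (K - J s)) ≤ 2 ^ (K - J (s - 1))) := by
  intro s
  induction s with
  | zero => exact fun _ => ⟨le_rfl, fun h => absurd h (by norm_num)⟩
  | succ s ih =>
    intro hs
    have h1 := hJ s
    obtain ⟨ih1, -⟩ := ih (by omega)
    have h2 : 80 * (3 * n (s + 1) * 2 ^ (K - J (s + 1))) ≤ 2 ^ (K - J s) := by
      calc 80 * (3 * n (s + 1) * 2 ^ (K - J (s + 1))) = (240 * n (s + 1)) * 2 ^ (K - J (s + 1)) := by ring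
        _ ≤ 2 ^ (J (s + 1) - J s) * 2 ^ (K - J (s + 1)) := Nat.mul_le_mul_right _ (h s)
        _ = 2 ^ (K - J s) := by rw [← pow_add]; congr 1; omega
    refine ⟨?_, fun _ => h2⟩
    have h3 : 2 ^ (K - J s) ≤ 3 * n s * 2 ^ (K - J s) := Nat.le_mul_of_pos_left _ (by have := hn s; omega)
    omega

lemma lev_step1 (t : List Bool) (p : ℕ) : |lev t (p + 1) - lev t p| ≤ 2 := by
  have h1 := FoldA.lev_up t p
  have h2 : lev t p ≤ lev t (p + 1) + 2 := by
    have hd := dx_mem up_dirs t p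
    have hv : vx oo up t (p + 1) = vx oo up t p + dx up t p := vx_succ _ _ _ _
    have h3 : ∀ q ∈ dirs, -2 ≤ ip q up := by decide
    have h4 := h3 _ hd
    have h5 : ip (vx oo up t p + dx up t p) up = ip (vx oo up t p) up + ip (dx up t p) up := by
      unfold ip
      rw [Prod.fst_add, Prod.snd_add]
      ring
    show ip (vx oo up t p) up ≤ ip (vx oo up t (p + 1)) up + 2
    rw [hv, h5]
    omega
  rw [abs_le]
  constructor <;> omega

/-- **near touches in the box** -/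
theorem hump0 (e : ℝ) (a : ℕ) (he : 0 < e) : ∃ c1 k0 : ℕ, ∀ (K : ℕ) (y v : Pt), k0 ≤ K → cl v = 0 →
    gf {t | vx oo up t t.length = y ∧ t ∈ WL K ∧ (∀ i j, i < j → j ≤ t.length → vx oo up t i ≠ vx oo up t j + v) ∧
      ∃ i l j, i ≤ l ∧ l ≤ j ∧ j ≤ t.length ∧ vx oo up t i ∈ Bl (vx oo up t j + v) (2 ^ (K - c1)) ∧
        (∃ dir : Bool, (2 : ℤ) ^ (K - a) ≤ |lvl dir (vx oo up t i)|) ∧
        ∃ dir : Bool, (2 : ℤ) ^ (K - a) ≤ |lvl dir (vx oo up t l - vx oo up t i)|} ≤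
      ENNReal.ofReal (e * (Ub K / 4 ^ K)) * Xb K ^ 2 := by
  obtain ⟨s, d, hd0, hd, hlv⟩ := leaf_ev
  have d0 := hd 0
  have d1 := hd 1
  have d2 := hd 2
  have d3 := hd 3
  simp only [Nat.zero_add, Nat.reduceAdd] at d0 d1 d2 d3
  obtain ⟨e', he'⟩ : ∃ e' : ℝ, e' = e / 5 := ⟨_, rfl⟩
  have he'0 : 0 < e' := by rw [he']; positivity
  -- the coarse scale
  obtain ⟨e1, he1⟩ : ∃ e1 : ℝ, e1 = min e' (1 / 2 ^ a) := ⟨_, rfl⟩
  have he1p : 0 < e1 := by rw [he1]; exact lt_min he'0 (by positivity)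
  have he1e : e1 ≤ e' := by rw [he1]; exact min_le_left _ _
  have he1a : e1 ≤ 1 / 2 ^ a := by rw [he1]; exact min_le_right _ _
  obtain ⟨S1, J1, n1, K1, hS1, hJ1a, hn1, hJ1, -, hr1, -, hK1, hoff1⟩ := regE_off (e := e1) (M := 0) he1p 1
  obtain ⟨a1, ha1⟩ : ∃ a1, a1 = J1 0 := ⟨_, rfl⟩
  obtain ⟨ν, hν⟩ : ∃ ν, ν = n1 0 := ⟨_, rfl⟩
  have hν1 : 107 ≤ ν := by rw [hν]; exact hn1 0
  rw [← ha1, ← hν] at hr1
  -- the leaves
  obtain ⟨V, b, K2, hb6, hK2, hVb, hev⟩ := hlv e' a1 he'0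
  -- the masses
  obtain ⟨AW, kW, hAW, hW⟩ := massW (a1 + b) (d 3) (d 4) (by omega) (by omega)
  obtain ⟨AO, kO, hAO, hO⟩ := out_mass (J := a1 + b) (by omega) (d 3 + 1)
  obtain ⟨Cx, hCx, hXp⟩ := Xb_pow
  have hCx0 : 0 < Cx := by linarith
  have hAW0 : 0 < AW := by linarith
  obtain ⟨M, hM⟩ : ∃ M : ℝ, M = AO * (4 * AW * Cx) / e' := ⟨_, rfl⟩
  have hM0 : 0 < M := by rw [hM]; positivity
  -- the fine scales
  obtain ⟨e2, he2⟩ : ∃ e2 : ℝ, e2 = min e' (1 / 2 ^ (a1 + 4)) := ⟨_, rfl⟩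
  have he2p : 0 < e2 := by rw [he2]; exact lt_min he'0 (by positivity)
  have he2e : e2 ≤ e' := by rw [he2]; exact min_le_left _ _
  have he2a : e2 ≤ 1 / 2 ^ (a1 + 4) := by rw [he2]; exact min_le_right _ _
  obtain ⟨S2, J2, n2, K3, hS2, hJ2a, hn2, hJ2, h240, hr2, hM2, hK3, hoff2⟩ := regE_off (e := e2) (M := M) he2p (a1 + 1)
  have hJmono : ∀ s, s ≤ S2 → J2 s ≤ J2 S2 := fun s hs => (strictMono_nat_of_lt_succ hJ2).monotone hs
  refine ⟨J2 S2, K1 + K2 + K3 + kW + kO + a + 10, fun K y v hK hv => ?_⟩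
  obtain ⟨kc, hkc⟩ : ∃ kc, kc = K - a1 - b := ⟨_, rfl⟩
  have hkcK : kc + (a1 + b) = K := by omega
  obtain ⟨hrun, htall⟩ := hev K y (by omega)
  rw [← hkc] at hrun htall
  have hU := Ub_pos K
  obtain ⟨r, hr⟩ : ∃ r, r = K - a1 := ⟨_, rfl⟩
  have hrb : r = kc + b := by omega
  have hr10 : 10 ≤ r := by omega
  obtain ⟨ρ, hρ⟩ : ∃ ρ : ℕ → ℕ, ρ = fun s => 2 ^ (K - J2 s) := ⟨_, rfl⟩
  obtain ⟨R, hR⟩ : ∃ R : ℕ → ℕ, R = fun s => 3 * n2 s * 2 ^ (K - J2 s) := ⟨_, rfl⟩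
  -- the events
  obtain ⟨P, hP⟩ : ∃ P : List Bool → Prop, P = fun t => (∀ i j, i < j → j ≤ t.length → vx oo up t i ≠ vx oo up t j + v) ∧
      ∃ i l j, i ≤ l ∧ l ≤ j ∧ j ≤ t.length ∧ vx oo up t i ∈ Bl (vx oo up t j + v) (2 ^ (K - J2 S2)) ∧
        (∃ dir : Bool, (2 : ℤ) ^ (K - a) ≤ |lvl dir (vx oo up t i)|) ∧
        ∃ dir : Bool, (2 : ℤ) ^ (K - a) ≤ |lvl dir (vx oo up t l - vx oo up t i)| := ⟨_, rfl⟩
  obtain ⟨B1, hB1⟩ : ∃ B1 : Set (List Bool), B1 = {t | vx oo up t t.length = y ∧ t ∈ OffR S1 J1 n1 K} := ⟨_, rfl⟩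
  obtain ⟨B2, hB2⟩ : ∃ B2 : Set (List Bool), B2 = {t | vx oo up t t.length = y ∧ t ∈ OffR S2 J2 n2 K} := ⟨_, rfl⟩
  obtain ⟨B3, hB3⟩ : ∃ B3 : Set (List Bool), B3 = {t | vx oo up t t.length = y ∧
      t ∈ ERL false kc K (RunB kc s (Nc4 d kc) V)} := ⟨_, rfl⟩
  obtain ⟨B4, hB4⟩ : ∃ B4 : Set (List Bool), B4 = {t | vx oo up t t.length = y ∧ t ∈ WL K ∧
      ∃ (dir : Bool) (m u : ℕ) (e : ℕ → ℕ), Lf dir (kc + 5) t m u e ∧
        ∃ j, j < m ∧ 3 * ((V : ℤ) * 2 ^ (kc + s)) ≤ |lp dir t (e (j + 1)) - lp dir t (e j)|} := ⟨_, rfl⟩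
  obtain ⟨E, hE⟩ : ∃ E : Set (List Bool), E = {t | (vx oo up t t.length = y ∧ t ∈ WL K) ∧ P t ∧ t ∉ B1 ∧ t ∉ B2 ∧
      t ∉ B3 ∧ t ∉ B4} := ⟨_, rfl⟩
  -- the radii
  have hJK : ∀ s, s ≤ S2 → J2 s + 6 ≤ K := fun s hs => by have := hJmono s hs; omega
  have hR0 : 3 * n2 0 * 2 ^ (K - J2 0) * 2 ^ (a1 + 4) ≤ 2 ^ K := by
    have h1 : 3 * (n2 0 : ℝ) ≤ 1 / 2 ^ (a1 + 4) * 2 ^ J2 0 := hr2.trans (mul_le_mul_of_nonneg_right he2a (by positivity))
    have h2 : 3 * n2 0 * 2 ^ (a1 + 4) ≤ 2 ^ J2 0 := by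
      have h3 : 3 * (n2 0 : ℝ) * 2 ^ (a1 + 4) ≤ 2 ^ J2 0 := by
        calc 3 * (n2 0 : ℝ) * 2 ^ (a1 + 4) ≤ (1 / 2 ^ (a1 + 4) * 2 ^ J2 0) * 2 ^ (a1 + 4) :=
              mul_le_mul_of_nonneg_right h1 (by positivity)
          _ = 2 ^ J2 0 := by field_simp
      exact_mod_cast h3
    calc 3 * n2 0 * 2 ^ (K - J2 0) * 2 ^ (a1 + 4) = (3 * n2 0 * 2 ^ (a1 + 4)) * 2 ^ (K - J2 0) := by ring
      _ ≤ 2 ^ J2 0 * 2 ^ (K - J2 0) := Nat.mul_le_mul_right _ h2
      _ = 2 ^ K := by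
        rw [← pow_add]
        congr 1
        have := hJK 0 (Nat.zero_le _)
        omega
  have hRr : ∀ s, s < S2 → R s * 16 ≤ 2 ^ r := by
    intro s hs
    have h1 := (radH (K := K) hJ2 hn2 h240 s (by have := hJK s hs.le; omega)).1
    have h2 : R s * 2 ^ (a1 + 4) ≤ 2 ^ K := by
      rw [hR]
      exact (Nat.mul_le_mul_right _ h1).trans hR0
    have h4 : (2 : ℕ) ^ K = 2 ^ r * 2 ^ a1 := by
      rw [← pow_add]
      congr 1
      omega
    rw [h4, show (2 : ℕ) ^ (a1 + 4) = 16 * 2 ^ a1 by rw [pow_add]; ring, ← mul_assoc] at h2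
    exact Nat.le_of_mul_le_mul_right h2 (by positivity)
  have hgE : gf E ≤ ENNReal.ofReal (e' * (Ub K / 4 ^ K)) * Xb K ^ 2 := by
    have hsumeq : ∑ s ∈ range S2, (ρ s : ℝ) / R s = ∑ s ∈ range S2, 1 / (3 * (n2 s : ℝ)) := by
      refine Finset.sum_congr rfl fun s _ => ?_
      have h1 : (0 : ℝ) < n2 s := by
        have := hn2 s
        exact_mod_cast (by omega : 0 < n2 s)
      rw [hρ, hR]
      push_cast
      field_simp
    obtain ⟨Sg, hSg⟩ : ∃ Sg : ℝ, Sg = ∑ s ∈ range S2, (ρ s : ℝ) / R s := ⟨_, rfl⟩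
    have hSgM : M ≤ Sg := by
      rw [hSg, hsumeq]
      exact hM2
    have hSg0 : 0 < Sg := lt_of_lt_of_le hM0 hSgM
    -- the rests
    have hWv : ∀ w : Pt, cl w = 0 → gf (WV S2 (2 ^ (K - J2 S2)) w ρ R (kc - d 4) (K + 1) (2 ^ (kc - (d 3 + 1)))
        (2 ^ (kc - 1))) ≤ ENNReal.ofReal (2 * AW * Cx / Sg * Ub K) * Xb K := by
      intro w hw
      have h1 := hW (kc - 2) S2 (2 ^ (K - J2 S2)) w ρ R (by omega) hw ?_ ?_ (by rw [← hSg]; exact hSg0)
      · rw [← hSg, show kc - 2 + (a1 + b) + 3 = K + 1 by omega, show kc - 2 + 2 - d 4 = kc - d 4 by omega,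
          show kc - 2 + 1 - d 3 = kc - (d 3 + 1) by omega, show kc - 2 + 1 = kc - 1 by omega] at h1
        refine h1.trans ?_
        have h2 : Ub (K + 1) ≤ 2 * Ub K := by
          have := Ub_add K 1
          simpa using this
        have h3 := hXp K 1
        rw [pow_one] at h3
        refine (mul_le_mul' (ENNReal.ofReal_le_ofReal (mul_le_mul_of_nonneg_left h2 (by positivity))) h3).trans
          (le_of_eq ?_)
        rw [← mul_assoc, ← ENNReal.ofReal_mul (by positivity)]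
        congr 2
        ring
      · intro s hs
        have h2 := hJK s hs.le
        have h3 := hJmono s hs.le
        have h4 := hRr s hs
        have h5 := hn2 s
        have h6 : 2 ^ 6 ≤ 2 ^ (K - J2 s) := Nat.pow_le_pow_right (by norm_num) (by omega)
        have h7 : 2 ^ (K - J2 S2) ≤ 2 ^ (K - J2 s) := Nat.pow_le_pow_right (by norm_num) (by omega)
        have h8 : R s = 3 * n2 s * 2 ^ (K - J2 s) := by rw [hR]
        have h9 : ρ s = 2 ^ (K - J2 s) := by rw [hρ]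
        have h10 : 321 * 2 ^ (K - J2 s) ≤ R s := by
          rw [h8]
          exact Nat.mul_le_mul_right _ (by omega)
        have h12 : 2 ^ r ≤ 2 ^ (kc - 2 + (a1 + b) + 3 + 4) := Nat.pow_le_pow_right (by norm_num) (by omega)
        rw [h9]
        refine ⟨by omega, by omega, by omega, by omega⟩
      · intro s hs
        have h2 := (radH (K := K) hJ2 hn2 h240 (s + 1) (by have := hJK (s + 1) hs.le; omega)).2 (by omega)
        rw [hR, hρ]
        exact h2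
    have hclv : cl (-v) = 0 := by rw [cl_neg, hv, neg_zero]
    obtain ⟨W, hWd⟩ : ∃ W : Set (List Bool), W =
        WV S2 (2 ^ (K - J2 S2)) v ρ R (kc - d 4) (K + 1) (2 ^ (kc - (d 3 + 1))) (2 ^ (kc - 1)) ∪
        WV S2 (2 ^ (K - J2 S2)) (-v) ρ R (kc - d 4) (K + 1) (2 ^ (kc - (d 3 + 1))) (2 ^ (kc - 1)) := ⟨_, rfl⟩
    have hgW : gf W ≤ ENNReal.ofReal (4 * AW * Cx / Sg * Ub K) * Xb K := by
      rw [hWd]
      refine (gf_union_le _ _).trans ((add_le_add (hWv v hv) (hWv (-v) hclv)).trans (le_of_eq ?_))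
      rw [← add_mul, ← ENNReal.ofReal_add (by positivity) (by positivity)]
      congr 2
      ring
    have h1 := hO kc y E W (4 * AW * Cx / Sg) (by omega) (by positivity) ?_ (by rw [hkcK]; exact hgW)
    · rw [hkcK] at h1
      refine h1.trans (mul_le_mul_left (ENNReal.ofReal_le_ofReal (mul_le_mul_of_nonneg_right ?_ (by positivity))) _)
      rw [← mul_div_assoc, div_le_iff₀ hSg0]
      have h2 : e' * M ≤ e' * Sg := mul_le_mul_of_nonneg_left hSgM he'0.le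
      refine le_trans (le_of_eq ?_) h2
      rw [hM]
      field_simp
    · intro t ht
      rw [hE] at ht
      obtain ⟨⟨hty, htW⟩, hPt, g1, g2, g3, g4⟩ := ht
      refine ⟨hty, ?_⟩
      rw [hP] at hPt
      obtain ⟨hdis, i, l, j, hil, hlj, hj, hnear, ⟨dir0, hst⟩, ⟨dir1, hmv⟩⟩ := hPt
      have hn1' : ¬ Irg 6 8 r ν t := fun hI => g1 (by
        rw [hB1]
        exact ⟨hty, htW, 0, hS1, by rw [← ha1, ← hν, ← hr]; exact hI⟩)
      have hoffb : t ∉ OffR S2 J2 n2 K := fun hcon => g2 (by rw [hB2]; exact ⟨hty, hcon⟩)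
      have hnorun : t ∉ ERL false kc K (RunB kc s (Nc4 d kc) V) := fun hcon => g3 (by rw [hB3]; exact ⟨hty, hcon⟩)
      -- the two displacements
      have hbig : 3 * ((ν : ℤ) * 2 ^ r) ≤ 2 ^ (K - a) := by
        have h1 : (3 * ((ν : ℝ) * 2 ^ r)) ≤ 2 ^ (K - a) := by
          have hKr : (2 : ℝ) ^ K = 2 ^ a1 * 2 ^ r := by rw [← pow_add]; congr 1; omega
          have hKa : (2 : ℝ) ^ K = 2 ^ a * 2 ^ (K - a) := by rw [← pow_add]; congr 1; omega
          calc 3 * ((ν : ℝ) * 2 ^ r) = (3 * (ν : ℝ)) * 2 ^ r := by ring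
            _ ≤ (e1 * 2 ^ a1) * 2 ^ r := mul_le_mul_of_nonneg_right hr1 (by positivity)
            _ = e1 * 2 ^ K := by rw [hKr]; ring
            _ ≤ 1 / 2 ^ a * 2 ^ K := mul_le_mul_of_nonneg_right he1a (by positivity)
            _ = 2 ^ (K - a) := by rw [hKa]; field_simp
        exact_mod_cast h1
      have hnr : (5 : ℤ) * 2 ^ r ≤ 3 * ((ν : ℤ) * 2 ^ r) := by
        have h1 : (107 : ℤ) ≤ ν := by exact_mod_cast hν1
        have h2 : (0 : ℤ) < 2 ^ r := by positivity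
        nlinarith
      have hi : i ≤ t.length := hil.trans (hlj.trans hj)
      have hlt : l ≤ t.length := hlj.trans hj
      obtain ⟨x0, hx0, hx0i, hx0l⟩ := hump_false hn1' (Nat.zero_le i) hi ⟨dir0, by
        have h1 : lp dir0 t 0 = 0 := by
          unfold SIM.lp lvl
          rw [show vx oo up t 0 = oo from rfl]
          unfold ip
          have e1 : (oo : Pt).1 = 0 := rfl
          have e2 : (oo : Pt).2 = 0 := rfl
          rw [e1, e2]
          ring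
        rw [h1, sub_zero]
        exact hbig.trans hst⟩ hnr
      obtain ⟨x1, hx1, hx1l, hx1v⟩ := hump_false hn1' hil hlt ⟨dir1, by
        have h1 : lp dir1 t l - lp dir1 t i = lvl dir1 (vx oo up t l - vx oo up t i) := by
          unfold SIM.lp lvl ip
          rw [Prod.fst_sub, Prod.snd_sub]
          ring
        rw [h1]
        exact hbig.trans hmv⟩ hnr
      -- the leaves
      obtain ⟨m, u, e0, hL⟩ := lf_exists false (kc + 5) t
      have htl : ∀ j, j < m → |lp false t (e0 (j + 1)) - lp false t (e0 j)| < 3 * ((V : ℤ) * 2 ^ (kc + s)) := by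
        intro j' hj'
        by_contra hcon
        exact g4 (by rw [hB4]; exact ⟨hty, htW, false, m, u, e0, hL, j', hj', by omega⟩)
      obtain ⟨L, hLd⟩ : ∃ L : ℤ, L = 96 * ((V + 1 : ℤ) * 2 ^ (kc + s + 5)) := ⟨_, rfl⟩
      have hL0 : 0 ≤ L := by rw [hLd]; positivity
      have hr1024 : (1024 : ℤ) ≤ 2 ^ r := by
        calc (1024 : ℤ) = 2 ^ 10 := by norm_num
          _ ≤ 2 ^ r := pow_le_pow_right₀ (by norm_num) hr10
      have hLr : 2 * L + 8 ≤ 2 * 2 ^ r := by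
        have h1 : 200 * ((V + 1) * 2 ^ (s + 5)) * 2 ^ kc ≤ 2 ^ b * 2 ^ kc := Nat.mul_le_mul_right _ hVb
        have h2 : 200 * ((V + 1 : ℤ) * 2 ^ (kc + s + 5)) ≤ 2 ^ r := by
          have h3 : (((200 * ((V + 1) * 2 ^ (s + 5)) * 2 ^ kc : ℕ)) : ℤ) ≤ ((2 ^ b * 2 ^ kc : ℕ) : ℤ) := by exact_mod_cast h1
          push_cast at h3
          have h4 : (2 : ℤ) ^ r = 2 ^ b * 2 ^ kc := by rw [hrb, pow_add]; ring
          have h5 : (2 : ℤ) ^ (kc + s + 5) = 2 ^ (s + 5) * 2 ^ kc := by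
            rw [← pow_add]
            congr 1
            omega
          rw [h4, h5]
          calc 200 * ((V + 1 : ℤ) * (2 ^ (s + 5) * 2 ^ kc)) = 200 * ((V + 1) * 2 ^ (s + 5)) * 2 ^ kc := by ring
            _ ≤ _ := h3
        omega
      obtain ⟨l0, p1, p2, p3, p4, p5⟩ := piece_leaf htW hL htl hnorun (x := 0) (y := x0) hx0 (by omega) (by
        rw [← hLd]
        show L ≤ |lev t x0 - lev t 0|
        omega)
      obtain ⟨xa, xb, y1, y2, y3, y4, y5⟩ := sub_piece (F := lev t) (lev_step1 t) hx1 hL0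
        (show (0 : ℤ) ≤ 2 ^ r by positivity) (lev t j) (by omega)
      obtain ⟨l1, z1, z2, z3, z4, z5⟩ := piece_leaf htW hL htl hnorun (x := xa) (y := xb) y2 (by omega) (by
        rw [← hLd]
        exact y4)
      have hc := hump_cut (kc := kc) (K := K) (N := S2) (d := 2 ^ (K - J2 S2)) (v := v)
        (c := fun k => kc - d (4 - k)) (r := fun k => d (4 - k) - d (3 - k) - 1)
        (q := fun s => K - J2 s) (n := n2) (R := R) (S := Nc4 d kc)
        (fun k hk => by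
          rcases (by omega : k = 0 ∨ k = 1 ∨ k = 2) with rfl | rfl | rfl
          · simp only [Nat.sub_zero, Nat.zero_add, Nat.reduceSub]
            omega
          · simp only [Nat.reduceAdd, Nat.reduceSub]
            omega
          · simp only [Nat.reduceAdd, Nat.reduceSub]
            omega)
        (by
          simp only [Nat.reduceSub]
          omega)
        (by
          simp only [Nat.sub_zero]
          omega)
        (fun k hk g hg => by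
          refine ⟨3 - k, by omega, ?_⟩
          rw [show 3 - k + 1 = 4 - k by omega]
          exact hg)
        htW hL
        (fun s' hs' => by
          have h1 := hJK s' hs'.le
          have h2 := hn2 s'
          have h3 : R s' = 3 * n2 s' * 2 ^ (K - J2 s') := by rw [hR]
          refine ⟨by omega, h3.ge, ?_, fun hI => hoffb ⟨htW, s', hs', hI⟩⟩
          rw [h3]
          exact Nat.mul_le_mul_right _ (by omega))
        (l0 := l0) (l := l1) (i := i) (j := j) p1 p2 p5 (by omega) z2 z5 (by omega) (by omega) hj hnear hdis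
        (fun p hp hp' s' hs' => by
          obtain ⟨f1, f2⟩ := y5 p (by omega) (by omega)
          have h4 := hRr s' hs'
          have h5 : ((R s' : ℕ) : ℤ) * 16 ≤ 2 ^ r := by exact_mod_cast h4
          constructor
          · intro hmem
            have h6 := lev_sub_ball hmem
            omega
          · intro hmem
            have h6 := lev_sub_ball hmem
            omega)
      simp only [Nat.sub_zero, Nat.reduceSub] at hc
      rw [show kc - d 4 + (d 4 - d 3 - 1) = kc - (d 3 + 1) by omega,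
        show kc - d 1 + (d 1 - d 0 - 1) = kc - 1 by omega] at hc
      rw [hkcK, hWd, hρ]
      have e6 : 2 ^ (kc - 1) ≤ 2 ^ kc := Nat.pow_le_pow_right (by norm_num) (by omega)
      obtain ⟨X0, H1, H2, H3, X1, h1, h2, h3, a1, a2, a3, a4, a5, a6, a7, a8, a9, a10, a11, a12, a13⟩ := hc
      exact ⟨X0, H1, H2, H3, X1, h1, h2, h3, a1, a2, a3, a4, a5, a6, a7, a8.trans e6, a9.trans e6, a10.trans e6,
        a11, a12, a13⟩
  have hsub : {t | vx oo up t t.length = y ∧ t ∈ WL K ∧ (∀ i j, i < j → j ≤ t.length → vx oo up t i ≠ vx oo up t j + v) ∧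
      ∃ i l j, i ≤ l ∧ l ≤ j ∧ j ≤ t.length ∧ vx oo up t i ∈ Bl (vx oo up t j + v) (2 ^ (K - J2 S2)) ∧
        (∃ dir : Bool, (2 : ℤ) ^ (K - a) ≤ |lvl dir (vx oo up t i)|) ∧
        ∃ dir : Bool, (2 : ℤ) ^ (K - a) ≤ |lvl dir (vx oo up t l - vx oo up t i)|} ⊆ ((E ∪ B1) ∪ (B3 ∪ B2)) ∪ B4 := by
    rintro t ⟨ht0, ht, hp⟩
    by_cases h1 : t ∈ B1
    · exact Or.inl (Or.inl (Or.inr h1))
    by_cases h2 : t ∈ B2
    · exact Or.inl (Or.inr (Or.inr h2))
    by_cases h3 : t ∈ B3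
    · exact Or.inl (Or.inr (Or.inl h3))
    by_cases h4 : t ∈ B4
    · exact Or.inr h4
    refine Or.inl (Or.inl (Or.inl ?_))
    rw [hE, hP]
    exact ⟨⟨ht0, ht⟩, hp, h1, h2, h3, h4⟩
  have hle : ∀ x, x ≤ e' → ENNReal.ofReal (x * (Ub K / 4 ^ K)) * Xb K ^ 2 ≤ ENNReal.ofReal (e' * (Ub K / 4 ^ K)) * Xb K ^ 2 :=
    fun x hx => mul_le_mul_left (ENNReal.ofReal_le_ofReal (mul_le_mul_of_nonneg_right hx (by positivity))) _
  have q1 : gf B1 ≤ ENNReal.ofReal (e' * (Ub K / 4 ^ K)) * Xb K ^ 2 := by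
    rw [hB1]
    exact (hoff1 K y (by omega)).trans (hle _ he1e)
  have q2 : gf B2 ≤ ENNReal.ofReal (e' * (Ub K / 4 ^ K)) * Xb K ^ 2 := by
    rw [hB2]
    exact (hoff2 K y (by omega)).trans (hle _ he2e)
  have q3 : gf B3 ≤ ENNReal.ofReal (e' * (Ub K / 4 ^ K)) * Xb K ^ 2 := by
    rw [hB3]
    exact hrun
  have q4 : gf B4 ≤ ENNReal.ofReal (e' * (Ub K / 4 ^ K)) * Xb K ^ 2 := by
    rw [hB4]
    exact htall
  refine (gf_mono hsub).trans ((gf_union_le _ _).trans ((add_le_add ((gf_union_le _ _).trans (add_le_add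
    ((gf_union_le _ _).trans (add_le_add hgE q1)) ((gf_union_le _ _).trans (add_le_add q3 q2)))) q4).trans (le_of_eq ?_)))
  obtain ⟨z, hz⟩ : ∃ z, z = e' * (Ub K / 4 ^ K) := ⟨_, rfl⟩
  have hz0 : 0 ≤ z := by rw [hz]; positivity
  have hz5 : e * (Ub K / 4 ^ K) = z + z + (z + z) + z := by
    rw [hz, he']
    ring
  rw [← hz, hz5, ENNReal.ofReal_add (by positivity) hz0, ENNReal.ofReal_add (by positivity) (by positivity),
    ENNReal.ofReal_add hz0 hz0]
  ring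

end PW

end HexObs
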