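import Pool.Agent.PW.LeafT
import Pool.Agent.JNT.EndZ
import Pool.Agent.VF.MeanZ
import Pool.Agent.VF.SharpZ
import Pool.Agent.TPC.XUp
import Pool.Agent.TPC.XLow
import Pool.Agent.TPC.SDZ
import Pool.Agent.TPF.URZ
import Pool.Agent.NTA.XDbl

/-!
# PW, rows E1 (helper68): `LeafTs`, `BoxTs` and the chain bound, no hypothesis
-/

set_option autoImplicit false

namespace HexObs

namespace PWd

open Finset TS SDN NTW NTA TPC TPC.An PW.BL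

open scoped ENNReal

theorem mlo_P : ∃ c : ℝ, 0 < c ∧ ∀ k : ℕ, c * (2 : ℝ) ^ (4 / 3 * (k : ℝ)) ≤ PW.mZ (2 ^ k) := VF.mLow VF.sharpZ

theorem mhi_P : ∃ C : ℝ, ∀ k : ℕ, PW.mZ (2 ^ k) ≤ C * (2 : ℝ) ^ (4 / 3 * (k : ℝ)) := by
  obtain ⟨C, _, h⟩ := VF.mUp VF.sharpZ
  exact ⟨C, h⟩

/-- **box and length on the cylinder, every end, no hypothesis** -/
theorem boxlen : ∀ ε : ℝ, 0 < ε → ∃ (J : ℕ) (Λ : ℝ) (K0 : ℕ), 0 < Λ ∧ ∀ (k : ℕ) (y : Pt), K0 ≤ Nat.log 2 k →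
    gf {t | t ∈ SA ∧ Dsj k t ∧ EndC k y (vx oo up t t.length) ∧
      ¬(t ∈ WL (Nat.log 2 k + J) ∧ (t.length : ℝ) ≤ Λ * PW.mZ (2 ^ Nat.log 2 k))} ≤
      ENNReal.ofReal ε * gK (Nat.log 2 k) :=
  boxlen_of (m := fun K => PW.mZ (2 ^ K)) JNT.endX_Z mlo_P mhi_P xUp xLow NTA.xDbl (sd_of_UR TPF.ur)

/-- **many leaves are rare, every end of the cylinder, no hypothesis** -/
theorem leafT : LeafTs := leafT_of JNT.endX_Z mlo_P mhi_P xUp xLow NTA.xDbl (sd_of_UR TPF.ur)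

theorem boxT : BoxTs := BoxTs_of NTA.xDbl (sd_of_UR TPF.ur)

/-- **long chains are rare, every end of the cylinder, no hypothesis** -/
theorem chainT (ε : ℝ) (C : ℕ) (hε : 0 < ε) : ∃ N0 k0 : ℕ, ∀ (k : ℕ) (y : Pt), k0 ≤ k →
    gf {t | t ∈ SA ∧ Dsj k t ∧ EndC k y (vx oo up t t.length) ∧ Chn0 (2 ^ (Nat.log 2 k - C)) N0 t} ≤
      ENNReal.ofReal ε * gK (Nat.log 2 k) := chainT_of boxT leafT ε C hε

end PWd

end HexObs
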