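import Pool.Agent.NTS.ResDefs

/-!
The left and the right turns of a walk on the hexagonal lattice: the definitions of the final statement.
-/

set_option autoImplicit false

namespace Pool.Agent.PW.Res

open Pool.Agent.NTS.Res

open scoped Classical in
/-- The number of the left turns of the walk with the directions `s`: the step number `k + 2` points to the left of the step
number `k + 1`. -/
noncomputable def lefts {n : ℕ} (s : Fin n → Fin 3) : ℕ :=
  ((Finset.range (n - 1)).filter fun k =>
    0 < ((pos s (k + 2) - pos s (k + 1)) / (pos s (k + 1) - pos s k)).im).card

open scoped Classical in
/-- The number of the right turns of the walk with the directions `s`. -/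
noncomputable def rights {n : ℕ} (s : Fin n → Fin 3) : ℕ :=
  ((Finset.range (n - 1)).filter fun k =>
    ((pos s (k + 2) - pos s (k + 1)) / (pos s (k + 1) - pos s k)).im < 0).card

end Pool.Agent.PW.Res
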