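import Pool.Agent.NTS.ResDefs

/-!
The winding angles of the self-avoiding walk around its two ends: the definitions of the final statement.
-/

set_option autoImplicit false

namespace Pool.Agent.PW.Res

open Pool.Agent.NTS.Res

/-- The winding angle, around the starting point, of the first `k` steps of the walk with the directions `s`: the sum of
the angles under which its steps number `2, ..., k` are seen from its starting point. -/
noncomputable def windS {n : ℕ} (s : Fin n → Fin 3) (k : ℕ) : ℝ :=
  ∑ i ∈ Finset.Ico 1 k, Complex.arg (pos s (i + 1) / pos s i)

/-- The winding angle, around the end point, of the last `k` steps of the walk with the directions `s`, seen from the end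
outwards. -/
noncomputable def windE {n : ℕ} (s : Fin n → Fin 3) (k : ℕ) : ℝ :=
  ∑ i ∈ Finset.Ico 1 k, Complex.arg ((pos s (n - (i + 1)) - pos s n) / (pos s (n - i) - pos s n))

/-- The number of steps at the logarithmic time `t`: the integer part of `n ^ t`. -/
noncomputable def tm (n : ℕ) (t : ℝ) : ℕ := ⌊(n : ℝ) ^ t⌋₊

end Pool.Agent.PW.Res
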