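import Pool.Agent.HexPF.Hopf
import Pool.Agent.NTS.Dict
import Pool.Agent.PW.ResW
import Pool.Agent.PW.ResT

/-!
# PW, row R5 (helper41): the turns of the walk and the windings around its two ends

* `hopfF` : Hopf's secant argument for the points `P 0, ..., P m` (unit steps, mutual distances at least one);
* **`turns`** : for a self-avoiding walk `(π / 3) (L - R) = windS - windE`, `L`, `R` the numbers of left and of right turns.
-/

set_option autoImplicit false

noncomputable section

namespace NTSF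

namespace Tn

open Finset

open HexPF (th Ac)

open Pool.Agent.NTS.Res Pool.Agent.PW.Res

open NTF (JJ)

/-! ### 1. Hopf -/

theorem hopfF (P : ℕ → ℂ) (m : ℕ) (hm : 1 ≤ m) (h1 : ∀ i, i < m → ‖P (i + 1) - P i‖ = 1)
    (h2 : ∀ i j, i < j → j ≤ m → 1 ≤ ‖P j - P i‖) :
    ∑ k ∈ range (m - 1), th (P (k + 1) - P k) (P (k + 2) - P (k + 1)) =
      ∑ j ∈ range (m - 1), th (P (j + 1) - P 0) (P (j + 2) - P 0) +
      ∑ i ∈ range (m - 1), th (P m - P i) (P m - P (i + 1)) := by
  induction m, hm using Nat.le_induction with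
  | base => simp
  | succ m hm ih =>
    obtain ⟨l, rfl⟩ : ∃ l, m = l + 1 := ⟨m - 1, by omega⟩
    have ih := ih (fun i hi => h1 i (by omega)) (fun i j hij hj => h2 i j hij (by omega))
    simp only [Nat.add_sub_cancel] at ih ⊢
    rw [sum_range_succ, sum_range_succ, sum_range_succ, ih]
    -- the difference of the sums seen from the end
    have h3 : ∀ i, i < l → th (P (l + 2) - P i) (P (l + 2) - P (i + 1)) - th (P (l + 1) - P i) (P (l + 1) - P (i + 1)) =
        th (P (l + 1) - P (i + 1)) (P (l + 2) - P (i + 1)) - th (P (l + 1) - P i) (P (l + 2) - P i) := by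
      intro i hi
      have h4 := HexPF.square (a := P i) (a' := P (i + 1)) (b := P (l + 1)) (b' := P (l + 2)) (h1 i (by omega))
        (h1 (l + 1) (by omega)) (h2 _ _ (by omega) (by omega)) (h2 _ _ (by omega) (by omega))
        (h2 _ _ (by omega) (by omega)) (h2 _ _ (by omega) (by omega))
      linarith
    have h5 : ∑ i ∈ range l, th (P (l + 2) - P i) (P (l + 2) - P (i + 1)) -
        ∑ i ∈ range l, th (P (l + 1) - P i) (P (l + 1) - P (i + 1)) =
        th (P (l + 1) - P l) (P (l + 2) - P l) - th (P (l + 1) - P 0) (P (l + 2) - P 0) := by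
      rw [← sum_sub_distrib, sum_congr rfl fun i hi => h3 i (mem_range.1 hi)]
      exact sum_range_sub (fun i => th (P (l + 1) - P i) (P (l + 2) - P i)) l
    have h6 := HexPF.triangle (a := P l) (b := P (l + 1)) (c := P (l + 2)) (h1 l (by omega)) (h1 (l + 1) (by omega))
      (h2 _ _ (by omega) (by omega))
    rw [h6]
    linarith

/-! ### 2. The positions -/

lemma one_le_JJ {p : HexObs.Pt} (h : p ≠ 0) : 1 ≤ ‖JJ p‖ := by
  have h1 : (1 : ℤ) ≤ HexObs.nrm p := by
    by_contra hcon
    have h2 : HexObs.nrm p ≤ 0 := by omega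
    unfold HexObs.nrm at h2
    have h3 : p.1 = 0 := by nlinarith [sq_nonneg (p.1 + 2 * p.2), sq_nonneg p.1, sq_nonneg (2 * p.1 + p.2)]
    have h4 : p.2 = 0 := by nlinarith [sq_nonneg (p.1 + 2 * p.2), sq_nonneg p.2, sq_nonneg (2 * p.1 + p.2)]
    exact h (Prod.ext h3 h4)
  have h2 : (1 : ℝ) ≤ ‖JJ p‖ ^ 2 := by
    rw [NTF.JJ_norm]
    exact_mod_cast h1
  nlinarith [norm_nonneg (JJ p)]

lemma pos_JJ {n : ℕ} (s : Fin n → Fin 3) : ∀ k : ℕ, k ≤ n → ∃ p : HexObs.Pt, pos s k = JJ p := by
  intro k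
  induction k with
  | zero =>
    intro _
    refine ⟨0, ?_⟩
    rw [pos_zero]
    have := NTF.JJ_sub (0 : HexObs.Pt) 0
    simpa using this.symm
  | succ k ih =>
    intro hk
    obtain ⟨p, hp⟩ := ih (by omega)
    refine ⟨p + NTF.de k (s ⟨k, by omega⟩), ?_⟩
    rw [pos_succ s k (by omega), hp, NTF.JJ_add, NTF.JJ_de, step_eq]

lemma dist_ge {n : ℕ} {s : Fin n → Fin 3} (hs : s ∈ saw n) {i j : ℕ} (hij : i < j) (hj : j ≤ n) :
    1 ≤ ‖pos s j - pos s i‖ := by
  obtain ⟨p, hp⟩ := pos_JJ s j hj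
  obtain ⟨q, hq⟩ := pos_JJ s i (by omega)
  rw [hp, hq, ← NTF.JJ_sub]
  refine one_le_JJ fun h => ?_
  have h1 : p = q := sub_eq_zero.1 h
  have h2 := mem_saw.1 hs j i hj (by omega) (by rw [hp, hq, h1])
  omega

lemma step_norm (i : ℕ) (a : Fin 3) : ‖step i a‖ = 1 := by
  unfold step
  rw [norm_mul, norm_pow, norm_neg, norm_one, one_pow, one_mul]
  rw [show 2 * (Real.pi : ℂ) * Complex.I * ((a : ℕ) : ℂ) / 3 = ((2 * Real.pi * (a : ℕ) / 3 : ℝ) : ℂ) * Complex.I by
    push_cast
    ring]
  exact Complex.norm_exp_ofReal_mul_I _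

lemma step_len {n : ℕ} (s : Fin n → Fin 3) {i : ℕ} (hi : i < n) : ‖pos s (i + 1) - pos s i‖ = 1 := by
  rw [pos_succ s i hi, add_sub_cancel_left]
  exact step_norm _ _

/-! ### 3. The turns -/

lemma step_succ (k : ℕ) (a : Fin 3) : step (k + 1) a = -step k a := by
  unfold step
  rw [pow_succ]
  ring

lemma step_ne (k : ℕ) (a : Fin 3) : step k a ≠ 0 := by
  intro h
  have := step_norm k a
  rw [h, norm_zero] at this
  exact zero_ne_one this

lemma neg_om : -om = Complex.exp (((-(Real.pi / 3) : ℝ) : ℂ) * Complex.I) := by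
  have h1 : (-1 : ℂ) = Complex.exp (-((Real.pi : ℂ) * Complex.I)) := by
    rw [Complex.exp_neg, Complex.exp_pi_mul_I]
    norm_num
  rw [← neg_one_mul, h1]
  unfold om
  rw [← Complex.exp_add]
  congr 1
  push_cast
  ring

lemma neg_om2 : -(om * om) = Complex.exp (((Real.pi / 3 : ℝ) : ℂ) * Complex.I) := by
  have h1 : (-1 : ℂ) = Complex.exp (-((Real.pi : ℂ) * Complex.I)) := by
    rw [Complex.exp_neg, Complex.exp_pi_mul_I]
    norm_num
  rw [← neg_one_mul, h1]
  unfold om
  rw [← Complex.exp_add, ← Complex.exp_add]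
  congr 1
  push_cast
  ring

lemma turn_cases (k : ℕ) {a a' : Fin 3} (h : a' ≠ a) :
    step (k + 1) a' / step k a = Complex.exp (((-(Real.pi / 3) : ℝ) : ℂ) * Complex.I) ∨
    step (k + 1) a' / step k a = Complex.exp (((Real.pi / 3 : ℝ) : ℂ) * Complex.I) := by
  have h1 : a' = a + 1 ∨ a' = a + 1 + 1 := by
    revert a a'
    decide
  have h0 := step_ne k a
  rcases h1 with rfl | rfl
  · left
    rw [step_succ, step_rot, ← neg_om]
    field_simp
  · right
    rw [step_succ, step_rot, step_rot, ← neg_om2]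
    field_simp

lemma turn_val (k : ℕ) {a a' : Fin 3} (h : a' ≠ a) :
    (0 < (step (k + 1) a' / step k a).im ∧ Complex.arg (step (k + 1) a' / step k a) = Real.pi / 3) ∨
    ((step (k + 1) a' / step k a).im < 0 ∧ Complex.arg (step (k + 1) a' / step k a) = -(Real.pi / 3)) := by
  have hpi := Real.pi_pos
  have hs : 0 < Real.sin (Real.pi / 3) := Real.sin_pos_of_pos_of_lt_pi (by positivity) (by linarith)
  rcases turn_cases k h with h1 | h1
  · right
    rw [h1]
    refine ⟨?_, ?_⟩
    · rw [Complex.exp_ofReal_mul_I_im, Real.sin_neg]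
      linarith
    · rw [Complex.arg_exp_mul_I]
      exact (toIocMod_eq_self _).2 ⟨by linarith, by linarith⟩
  · left
    rw [h1]
    refine ⟨?_, ?_⟩
    · rw [Complex.exp_ofReal_mul_I_im]
      exact hs
    · rw [Complex.arg_exp_mul_I]
      exact (toIocMod_eq_self _).2 ⟨by linarith, by linarith⟩

open scoped Classical in
lemma sum_turns {n : ℕ} {s : Fin n → Fin 3} (hs : s ∈ saw n) :
    ∑ k ∈ range (n - 1), th (pos s (k + 1) - pos s k) (pos s (k + 2) - pos s (k + 1)) =
      Real.pi / 3 * ((lefts s : ℝ) - rights s) := by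
  have h1 : ∀ k ∈ range (n - 1), th (pos s (k + 1) - pos s k) (pos s (k + 2) - pos s (k + 1)) = Real.pi / 3 *
      ((if 0 < ((pos s (k + 2) - pos s (k + 1)) / (pos s (k + 1) - pos s k)).im then (1 : ℝ) else 0) -
        if ((pos s (k + 2) - pos s (k + 1)) / (pos s (k + 1) - pos s k)).im < 0 then (1 : ℝ) else 0) := by
    intro k hk
    rw [mem_range] at hk
    have e1 : pos s (k + 1) - pos s k = step k (s ⟨k, by omega⟩) := by
      rw [pos_succ s k (by omega), add_sub_cancel_left]
    have e2 : pos s (k + 2) - pos s (k + 1) = step (k + 1) (s ⟨k + 1, by omega⟩) := by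
      rw [pos_succ s (k + 1) (by omega), add_sub_cancel_left]
    have hne : s ⟨k + 1, by omega⟩ ≠ s ⟨k, by omega⟩ := by
      intro h
      have h2 : pos s (k + 2) = pos s k := by
        have h3 := step_succ k (s ⟨k, by omega⟩)
        rw [h] at e2
        rw [h3, ← e1] at e2
        linear_combination e2
      have := mem_saw.1 hs (k + 2) k (by omega) (by omega) h2
      omega
    unfold HexPF.th
    rw [e1, e2]
    rcases turn_val k hne with ⟨h3, h4⟩ | ⟨h3, h4⟩
    · rw [h4, if_pos h3, if_neg (not_lt.2 h3.le)]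
      ring
    · rw [h4, if_neg (not_lt.2 h3.le), if_pos h3]
      ring
  rw [sum_congr rfl h1, ← mul_sum, sum_sub_distrib, sum_boole, sum_boole]
  rfl

/-- **left and right turns** -/
theorem turns {n : ℕ} {s : Fin n → Fin 3} (hs : s ∈ saw n) :
    Real.pi / 3 * ((lefts s : ℝ) - rights s) = windS s n - windE s n := by
  rw [← sum_turns hs]
  rcases Nat.eq_zero_or_pos n with h0 | hn
  · subst h0
    unfold windS windE
    simp
  have hH := hopfF (pos s) n hn (fun i hi => step_len s hi) (fun i j hij hj => dist_ge hs hij hj)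
  rw [hH]
  have e1 : windS s n = ∑ j ∈ range (n - 1), th (pos s (j + 1) - pos s 0) (pos s (j + 2) - pos s 0) := by
    unfold windS
    rw [sum_Ico_eq_sum_range]
    refine sum_congr rfl fun j _ => ?_
    unfold HexPF.th
    rw [pos_zero, sub_zero, sub_zero, add_comm 1 j]
  have e2 : windE s n = -∑ i ∈ range (n - 1), th (pos s n - pos s i) (pos s n - pos s (i + 1)) := by
    unfold windE
    rw [sum_Ico_eq_sum_range, ← sum_range_reflect, ← sum_neg_distrib]
    refine sum_congr rfl fun j hj => ?_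
    rw [mem_range] at hj
    have a1 : n - (1 + (n - 1 - 1 - j) + 1) = j := by omega
    have a2 : n - (1 + (n - 1 - 1 - j)) = j + 1 := by omega
    rw [a1, a2]
    unfold HexPF.th
    have hA : Ac (pos s n - pos s j) (pos s n - pos s (j + 1)) :=
      HexPF.ac_symm_view (step_len s (by omega)) (dist_ge hs (by omega) le_rfl) (dist_ge hs (by omega) le_rfl)
    have h3 : (pos s j - pos s n) / (pos s (j + 1) - pos s n) = ((pos s n - pos s (j + 1)) / (pos s n - pos s j))⁻¹ := by
      rw [inv_div, ← neg_sub (pos s n) (pos s j), ← neg_sub (pos s n) (pos s (j + 1)), neg_div_neg_eq]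
    rw [h3, Complex.arg_inv, if_neg]
    intro h4
    have h5 := hA.abs_lt
    unfold HexPF.th at h5
    rw [h4, abs_of_pos Real.pi_pos] at h5
    linarith [Real.pi_pos]
  rw [e1, e2]
  ring

end Tn

end NTSF
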