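import Pool.Agent.PW.TipJ

/-!
# PW (helper92): inner functionals

* `Inn b q` : the value of `q` at `A ++ E` is its value at `E` as soon as the base of `E` is outside the ball of radius `2 ^ b` about
  the tip: `q` depends only on the part behind the last vertex outside that ball;
* **`NW_inner`** : `q` may be taken out of the weight of a level `l ≥ b + 5`; **`innQ`** : the form of the cores.
-/

set_option autoImplicit false

namespace HexObs

namespace PWN

open Finset TS SDN TIW

/-- inner functionals of the scale `b` -/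
def Inn (b : ℕ) (q : List Bool → ℝ) : Prop := ∀ A E : List Bool, A ++ E ∈ SA → (2 : ℤ) ^ b ≤ hn (en E) → q (A ++ E) = q E

/-- the cutoff of the ends puts the tip outside a ball about the base -/
lemma chi_far {b l : ℕ} (hb : b + 5 ≤ l) {E : List Bool} (h : chi (2 ^ l) E ≠ 0) : (2 : ℤ) ^ b ≤ hn (en E) := by
  by_contra hlt
  push Not at hlt
  apply h
  have h1 : (ip (en E) up : ℤ) ≤ hn (en E) := ip_le_hn (en E) upd'
  have h2 : (2 : ℤ) ^ b * 32 ≤ 2 ^ l := by
    calc (2 : ℤ) ^ b * 32 = 2 ^ (b + 5) := by ring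
      _ ≤ 2 ^ l := pow_le_pow_right₀ (by norm_num) hb
  have h3 : 32 * ip (en E) up ≤ 2 ^ l := by linarith
  have h4 : (32 * (ip (en E) up : ℝ)) ≤ 2 ^ l := by exact_mod_cast h3
  have h5 : 32 * (ip (en E) up : ℝ) / ((2 ^ l : ℕ) : ℝ) - 1 ≤ 0 := by
    push_cast
    rw [sub_nonpos, div_le_one (by positivity)]
    exact h4
  have h6 : cl1 (32 * (ip (en E) up : ℝ) / ((2 ^ l : ℕ) : ℝ) - 1) = 0 := by
    unfold cl1
    rw [max_eq_left]
    exact (min_le_right _ _).trans h5
  refine le_antisymm ?_ (chi_nn _ _)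
  unfold chi
  rw [h6]
  exact min_le_left _ _

/-- **an inner functional may be taken out of the weight of a level** -/
theorem NW_inner {b l L : ℕ} {Ch : Set (List Bool)} {θ q : List Bool → ℝ} {t : List Bool} (hb : b + 5 ≤ l) (hq : Inn b q)
    (ht : t ∈ SA) : NW l L Ch θ q t = q t * NW l L Ch θ (fun _ => 1) t := by
  classical
  unfold NW
  rw [mul_sum]
  refine sum_congr rfl fun p hp => ?_
  rw [mem_filter] at hp
  rcases eq_or_ne (chi (2 ^ l) (t.drop p.2)) 0 with h | h
  · rw [h]
    ring
  · have h1 : q (t.take p.2 ++ t.drop p.2) = q (t.drop p.2) := by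
      refine hq _ _ ?_ (chi_far hb h)
      rw [List.take_append_drop]
      exact ht
    rw [List.take_append_drop] at h1
    rw [h1]
    ring

/-- the form of the cores -/
theorem innQ {b M s : ℕ} {lv : ℕ → ℕ} {Ch : ℕ → Set (List Bool)} {q : List Bool → ℝ} (hb : ∀ i, i < M → b + 5 ≤ lv i)
    (hq : Inn b q) : InnQ M lv s Ch q := fun i hi _ _ ht => NW_inner (hb i hi) hq ht

end PWN

end HexObs
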