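import Pool.Agent.PW.Wind
import Pool.Agent.SIM.FinAllS
import Pool.Agent.NTS.Dict
import Pool.Agent.NTA.FinXAll
import Pool.Agent.TOG.Lim

/-!
# PW, row E1b (helper90): the winding of the uniformly random walk outside a macroscopic ball is tight

* **`wind_start`** : for all `ρ, ε > 0` there is `L` with, for every `n ≥ 1`: outside probability `ε`, the turn of the walk
  around its START between any two times `i0 ≤ k`, with `|w i0| ≥ ρ n ^ (3/4)`, is at most `L`.
* **`wind_end`**, **`wind_tip`** : the same around the END, between any two times `j ≤ i0`, with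
  `|w i0 - w n| ≥ ρ n ^ (3/4)`; for walks and for words.

From the first clause of `SIM.simple_final` (no return) and the Hoelder modulus of `NTSF.finE`.
-/

set_option autoImplicit false

namespace NTSF

namespace Wd

open Finset MeasureTheory Filter Topology Complex

open HexObs hiding pos curve

open HexObs.SDN HexObs.TS HexObs.TOG HexObs.PWd

open Pool.Agent.NTS.Res

open NTF (JJ sw)

open scoped Classical Real

/-! ### 1. Deterministic -/

/-- the bound -/
noncomputable def Lc (κ : ℝ) : ℝ := (2 / κ + 1) * (π / 2) + 1 / κ * π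

lemma Lc_nonneg {κ : ℝ} (hκ : 0 < κ) : 0 ≤ Lc κ := by
  unfold Lc
  have := Real.pi_pos
  positivity

/-- a sequence with a modulus that stays away from the origin has a bounded turn -/
lemma turn_det {z : ℕ → ℂ} {n m m' : ℕ} {r κ : ℝ} (hκ : 0 < κ) (hm : m ≤ m') (hn : m' ≤ n)
    (hz : ∀ i, m ≤ i → i ≤ m' → r ≤ ‖z i‖)
    (hd : ∀ i j, i ≤ j → j ≤ n → (j : ℝ) - i ≤ κ * n → ‖z j - z i‖ < r) : |turn z m m'| ≤ Lc κ := by
  have hpi := Real.pi_pos
  have hsub : ((m' - m : ℕ) : ℝ) ≤ n := by exact_mod_cast (Nat.sub_le m' m).trans hn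
  rcases lt_or_ge (κ * n) 1 with h1 | h1
  · refine (abs_turn_le z m m').trans ?_
    have h2 : (n : ℝ) ≤ 1 / κ := by
      rw [le_div_iff₀ hκ]
      linarith
    have h3 : ((m' - m : ℕ) : ℝ) * π ≤ 1 / κ * π := mul_le_mul_of_nonneg_right (hsub.trans h2) hpi.le
    unfold Lc
    have : 0 ≤ (2 / κ + 1) * (π / 2) := by positivity
    linarith
  · obtain ⟨L, hL⟩ : ∃ L : ℕ, L = ⌊κ * n⌋₊ := ⟨_, rfl⟩
    have hL1 : 1 ≤ L := by
      rw [hL]
      exact Nat.one_le_floor_iff _ |>.2 h1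
    have hL2 : (L : ℝ) ≤ κ * n := hL ▸ Nat.floor_le (by positivity)
    have hL3 : κ * n < L + 1 := hL ▸ Nat.lt_floor_add_one _
    have hL4 : (1 : ℝ) ≤ L := by exact_mod_cast hL1
    have h2 := turn_modulus (z := z) (r := r) hL1 hm (fun i j _ hij hj hjL => hd i j hij (hj.trans hn) (by
      have : (j : ℝ) ≤ i + L := by exact_mod_cast hjL
      linarith)) hz
    refine h2.trans ?_
    have h3 : ((m' - m : ℕ) : ℝ) / L ≤ 2 / κ := by
      rw [div_le_div_iff₀ (by linarith) hκ]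
      nlinarith
    unfold Lc
    have h4 : (((m' - m : ℕ) : ℝ) / L + 1) * (π / 2) ≤ (2 / κ + 1) * (π / 2) :=
      mul_le_mul_of_nonneg_right (by linarith) (by positivity)
    have h5 : 0 ≤ 1 / κ * π := by positivity
    linarith

/-! ### 2. The curve at the times of the walk -/

/-- the time k / n -/
noncomputable def tm (n k : ℕ) : unitInterval := if h : k ≤ n then ⟨(k : ℝ) / n, by positivity, by
    rcases Nat.eq_zero_or_pos n with rfl | hn
    · simp
    · rw [div_le_one (by exact_mod_cast hn)]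
      exact_mod_cast h⟩ else 1

lemma tm_coe {n k : ℕ} (h : k ≤ n) : ((tm n k : unitInterval) : ℝ) = (k : ℝ) / n := by
  unfold tm
  rw [dif_pos h]

lemma tm_mono {n i j : ℕ} (hij : i ≤ j) (hj : j ≤ n) : tm n i ≤ tm n j := by
  rw [← Subtype.coe_le_coe, tm_coe (hij.trans hj), tm_coe hj]
  have : (i : ℝ) ≤ j := by exact_mod_cast hij
  gcongr

lemma curve_tm {n k : ℕ} (hn : 1 ≤ n) (h : k ≤ n) (s : Fin n → Fin 3) : curve s (tm n k) = pos s k / size n := by
  have hn0 : (n : ℝ) ≠ 0 := by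
    have : (1 : ℝ) ≤ n := by exact_mod_cast hn
    linarith
  have e : ((tm n k : unitInterval) : ℝ) * n = k := by
    rw [tm_coe h]
    field_simp
  rw [NTSF.curve_eq]
  rcases Nat.lt_or_ge k n with h1 | h1
  · rw [Tight.poly_apply h1 (by rw [e]) (by rw [e]; linarith), e]
    simp
  · have h2 : k = n := le_antisymm h h1
    subst h2
    rw [← NTSF.curve_eq]
    have h3 : tm k k = 1 := by
      apply Subtype.ext
      rw [tm_coe le_rfl, div_self hn0]
      rfl
    rw [h3, NTSF.curve_one]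

/-! ### 3. The good curves -/

/-- curves with a Hoelder modulus and without near double points -/
def Gd (M : NNReal) (η δ : ℝ) : Set C(unitInterval, ℂ) :=
  {γ | HolderWith M (1 / 2) γ ∧ ¬ ∃ p q r : unitInterval, p ≤ q ∧ q ≤ r ∧ η < dist (γ q) (γ p) ∧ dist (γ r) (γ p) < δ}

lemma card_of_law {n : ℕ} {E : Set C(unitInterval, ℂ)} {ε : ℝ} (hε : 0 ≤ ε) (h : law n E ≤ ENNReal.ofReal ε) :
    (((saw n).filter fun s => curve s ∈ E).card : ℝ) ≤ ε * ((saw n).card : ℝ) := by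
  rw [NTSF.law_apply] at h
  have h0 : ((saw n).card : ENNReal) ≠ 0 := by
    have := (NTSF.saw_nonempty n).card_pos
    exact_mod_cast this.ne'
  have ht : ((saw n).card : ENNReal) ≠ ⊤ := ENNReal.natCast_ne_top _
  have h1 : ((saw n).card : ENNReal) * (((saw n).card : ENNReal)⁻¹ * (((saw n).filter fun s => curve s ∈ E).card : ENNReal)) ≤
      ((saw n).card : ENNReal) * ENNReal.ofReal ε := mul_le_mul_right h _
  rw [← mul_assoc, ENNReal.mul_inv_cancel h0 ht, one_mul, ← ENNReal.ofReal_natCast, ← ENNReal.ofReal_natCast,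
    ← ENNReal.ofReal_mul (Nat.cast_nonneg _)] at h1
  have h2 := (ENNReal.ofReal_le_ofReal_iff (by positivity)).1 h1
  linarith

lemma card_le_law {n : ℕ} {P : (Fin n → Fin 3) → Prop} {E : Set C(unitInterval, ℂ)} {ε : ℝ} (hε : 0 ≤ ε)
    (h : law n E ≤ ENNReal.ofReal ε) (hP : ∀ s ∈ saw n, P s → curve s ∈ E) :
    (((saw n).filter P).card : ℝ) ≤ ε * ((saw n).card : ℝ) := by
  refine le_trans ?_ (card_of_law hε h)
  have h1 : (saw n).filter P ⊆ (saw n).filter fun s => curve s ∈ E := by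
    intro s hs
    rw [Finset.mem_filter] at hs ⊢
    exact ⟨hs.1, hP s hs.1 hs.2⟩
  exact_mod_cast card_le_card h1

/-- the walks whose curve is not good are few -/
theorem few_bad {η ε : ℝ} (hη : 0 < η) (hε : 0 < ε) : ∃ (M : NNReal) (δ : ℝ), 0 < δ ∧ ∀ n : ℕ, 1 ≤ n →
    law n (Gd M η δ)ᶜ ≤ ENNReal.ofReal ε := by
  obtain ⟨c, C, hc, -, -, h3, -⟩ := NTSF.finE
  obtain ⟨M, hM⟩ := h3 (1 / 2) (by norm_num) (by norm_num) (ε / 2) (by positivity)
  obtain ⟨δ, hδ, h4⟩ := HexObs.SIM.simple_final.1 η (ε / 2) hη (by positivity)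
  refine ⟨M, δ, hδ, fun n hn => ?_⟩
  obtain ⟨A, hA⟩ : ∃ A : Set C(unitInterval, ℂ), A = {γ : C(unitInterval, ℂ) | ¬ HolderWith M (1 / 2) γ} := ⟨_, rfl⟩
  obtain ⟨B, hB⟩ : ∃ B : Set C(unitInterval, ℂ), B = {γ : C(unitInterval, ℂ) | ∃ p q r : unitInterval, p ≤ q ∧ q ≤ r ∧
    η < dist (γ q) (γ p) ∧ dist (γ r) (γ p) < δ} := ⟨_, rfl⟩
  have b1 : law n A ≤ ENNReal.ofReal (ε / 2) := hA ▸ hM n hn
  have b2 : law n B ≤ ENNReal.ofReal (ε / 2) := hB ▸ h4 n hn
  have a3 : (Gd M η δ)ᶜ ⊆ A ∪ B := by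
    intro γ hγ
    by_cases h5 : HolderWith M (1 / 2) γ
    · right
      rw [hB]
      by_contra h6
      exact hγ ⟨h5, h6⟩
    · left
      rw [hA]
      exact h5
  calc law n (Gd M η δ)ᶜ ≤ law n (A ∪ B) := measure_mono a3
    _ ≤ law n A + law n B := measure_union_le _ _
    _ ≤ ENNReal.ofReal (ε / 2) + ENNReal.ofReal (ε / 2) := add_le_add b1 b2
    _ = ENNReal.ofReal ε := by rw [← ENNReal.ofReal_add (by positivity) (by positivity), add_halves]

/-- the modulus of the walk from the modulus of the curve -/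
lemma mod_walk {M : NNReal} {n : ℕ} (hn : 1 ≤ n) {s : Fin n → Fin 3} (h : HolderWith M (1 / 2) (curve s)) {δ : ℝ} (hδ : 0 < δ)
    {i j : ℕ} (hij : i ≤ j) (hj : j ≤ n) (hd : (j : ℝ) - i ≤ (δ / (M + 1)) ^ 2 * n) :
    ‖pos s j - pos s i‖ < δ * size n := by
  have hn0 : (0 : ℝ) < n := by exact_mod_cast hn
  have hs := NTSF.size_pos hn
  have h1 := h.dist_le (tm n j) (tm n i)
  rw [curve_tm hn hj, curve_tm hn (hij.trans hj), dist_eq_norm, ← sub_div, norm_div, Complex.norm_of_nonneg hs.le] at h1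
  have h2 : dist (tm n j) (tm n i) ≤ (δ / (M + 1)) ^ 2 := by
    rw [Subtype.dist_eq, tm_coe hj, tm_coe (hij.trans hj), Real.dist_eq, ← sub_div, abs_div, abs_of_pos hn0,
      div_le_iff₀ hn0, abs_of_nonneg]
    · exact hd
    · have : (i : ℝ) ≤ j := by exact_mod_cast hij
      linarith
  have hM : (0 : ℝ) ≤ M := M.2
  have h3 : dist (tm n j) (tm n i) ^ ((1 / 2 : NNReal) : ℝ) ≤ δ / (M + 1) := by
    have h4 := Real.rpow_le_rpow dist_nonneg h2 (by positivity : (0 : ℝ) ≤ ((1 / 2 : NNReal) : ℝ))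
    have h5 : ((δ / (M + 1)) ^ 2 : ℝ) ^ ((1 / 2 : NNReal) : ℝ) = δ / (M + 1) := by
      have e : ((1 / 2 : NNReal) : ℝ) = 1 / 2 := by norm_num
      rw [e, ← Real.sqrt_eq_rpow, Real.sqrt_sq (by positivity)]
    rw [h5] at h4
    exact h4
  have h6 : (M : ℝ) * dist (tm n j) (tm n i) ^ ((1 / 2 : NNReal) : ℝ) < δ := by
    have h7 : (M : ℝ) * (δ / (M + 1)) < δ := by
      rw [← mul_div_assoc, div_lt_iff₀ (by positivity)]
      nlinarith
    exact lt_of_le_of_lt (mul_le_mul_of_nonneg_left h3 hM) h7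
  have h8 := lt_of_le_of_lt h1 h6
  rwa [div_lt_iff₀ hs] at h8

/-! ### 4. The start -/

/-- the bad walks, start -/
def BS (n : ℕ) (ρ L : ℝ) (s : Fin n → Fin 3) : Prop :=
  ∃ i0 k : ℕ, i0 ≤ k ∧ k ≤ n ∧ ρ * (n : ℝ) ^ (3 / 4 : ℝ) ≤ ‖pos s i0‖ ∧ L < |turn (pos s) i0 k|

/-- **the turn around the start outside a macroscopic ball is tight** -/
theorem wind_start {ρ ε : ℝ} (hρ : 0 < ρ) (hε : 0 < ε) : ∃ L : ℝ, 0 < L ∧ ∀ n : ℕ, 1 ≤ n →
    (((saw n).filter fun s => BS n ρ L s).card : ℝ) ≤ ε * ((saw n).card : ℝ) := by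
  obtain ⟨c, C, hc, hsz, -⟩ := NTSF.finE
  have hC : 0 < C := by
    have := hsz 1 le_rfl
    rw [Nat.cast_one, Real.one_rpow, mul_one, mul_one] at this
    linarith [this.1, this.2]
  obtain ⟨M, δ, hδ, hbad⟩ := few_bad (η := ρ / C / 2) (by positivity) hε
  have hM : (0 : ℝ) ≤ M := M.2
  have hκ : 0 < (δ / ((M : ℝ) + 1)) ^ 2 := by positivity
  refine ⟨Lc ((δ / ((M : ℝ) + 1)) ^ 2) + 1, by have := Lc_nonneg hκ; linarith, fun n hn => ?_⟩
  have hsub : ∀ s ∈ saw n, BS n ρ (Lc ((δ / ((M : ℝ) + 1)) ^ 2) + 1) s → curve s ∈ (Gd M (ρ / C / 2) δ)ᶜ := by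
    intro s _ hs hg
    obtain ⟨i0, k, hik, hk, hi0, hL⟩ := hs
    obtain ⟨hH, hno⟩ := hg
    have hsn := NTSF.size_pos hn
    have hs2 := (hsz n hn).2
    have hz0 : pos s 0 = 0 := by
      have := NTSF.curve_zero s
      have h2 := curve_tm hn (Nat.zero_le n) s
      unfold pos
      simp
    have h1 : |turn (pos s) i0 k| ≤ Lc ((δ / ((M : ℝ) + 1)) ^ 2) := by
      refine turn_det (r := δ * size n) hκ hik hk (fun i hi hik' => ?_) (fun i j hij hj hd => mod_walk hn hH hδ hij hj hd)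
      by_contra hcon
      push Not at hcon
      refine hno ⟨tm n 0, tm n i0, tm n i, tm_mono (Nat.zero_le _) (hi.trans (hik'.trans hk)),
        tm_mono hi (hik'.trans hk), ?_, ?_⟩
      · rw [curve_tm hn (hik.trans hk), curve_tm hn (Nat.zero_le n), hz0, zero_div, dist_zero_right, norm_div,
          Complex.norm_of_nonneg hsn.le, lt_div_iff₀ hsn]
        have h2 : ρ / C / 2 * size n < ρ / C * size n := by
          have : 0 < ρ / C * size n := by positivity
          nlinarith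
        have h3 : ρ / C * size n ≤ ρ * (n : ℝ) ^ (3 / 4 : ℝ) := by
          calc ρ / C * size n ≤ ρ / C * (C * (n : ℝ) ^ (3 / 4 : ℝ)) := mul_le_mul_of_nonneg_left hs2 (by positivity)
            _ = _ := by field_simp
        linarith
      · rw [curve_tm hn (hik'.trans hk), curve_tm hn (Nat.zero_le n), hz0, zero_div, dist_zero_right, norm_div,
          Complex.norm_of_nonneg hsn.le, div_lt_iff₀ hsn]
        exact hcon
    linarith
  exact card_le_law hε.le (hbad n hn) hsub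

/-! ### 5. The end -/

/-- the bad walks, end -/
def BE (n : ℕ) (ρ L : ℝ) (s : Fin n → Fin 3) : Prop :=
  ∃ j i0 : ℕ, j ≤ i0 ∧ i0 ≤ n ∧ ρ * (n : ℝ) ^ (3 / 4 : ℝ) ≤ ‖pos s i0 - pos s n‖ ∧
    L < |turn (fun i => pos s i - pos s n) j i0|

/-- **the turn around the end outside a macroscopic ball is tight** -/
theorem wind_end {ρ ε : ℝ} (hρ : 0 < ρ) (hε : 0 < ε) : ∃ L : ℝ, 0 < L ∧ ∀ n : ℕ, 1 ≤ n →
    (((saw n).filter fun s => BE n ρ L s).card : ℝ) ≤ ε * ((saw n).card : ℝ) := by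
  obtain ⟨c, C, hc, hsz, -⟩ := NTSF.finE
  have hC : 0 < C := by
    have := hsz 1 le_rfl
    rw [Nat.cast_one, Real.one_rpow, mul_one, mul_one] at this
    linarith [this.1, this.2]
  obtain ⟨M, δ0, hδ0, hbad⟩ := few_bad (η := ρ / C / 2) (by positivity) hε
  obtain ⟨δ, hδd⟩ : ∃ δ : ℝ, δ = min δ0 (ρ / C / 4) := ⟨_, rfl⟩
  have hδ : 0 < δ := hδd ▸ lt_min hδ0 (by positivity)
  have hδ1 : δ ≤ δ0 := hδd ▸ min_le_left _ _
  have hδ2 : δ ≤ ρ / C / 4 := hδd ▸ min_le_right _ _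
  have hM : (0 : ℝ) ≤ M := M.2
  have hκ : 0 < (δ / ((M : ℝ) + 1)) ^ 2 := by positivity
  refine ⟨Lc ((δ / ((M : ℝ) + 1)) ^ 2) + 1, by have := Lc_nonneg hκ; linarith, fun n hn => ?_⟩
  have hsub : ∀ s ∈ saw n, BE n ρ (Lc ((δ / ((M : ℝ) + 1)) ^ 2) + 1) s → curve s ∈ (Gd M (ρ / C / 2) δ0)ᶜ := by
    intro s _ hs hg
    obtain ⟨j0, i0, hji, hi0n, hi0, hL⟩ := hs
    obtain ⟨hH, hno⟩ := hg
    have hsn := NTSF.size_pos hn
    have hs2 := (hsz n hn).2
    have h1 : |turn (fun i => pos s i - pos s n) j0 i0| ≤ Lc ((δ / ((M : ℝ) + 1)) ^ 2) := by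
      refine turn_det (r := δ * size n) hκ hji hi0n (fun i hi hii => ?_) (fun i j hij hj hd => ?_)
      · by_contra hcon
        push Not at hcon
        refine hno ⟨tm n i, tm n i0, tm n n, tm_mono hii hi0n, tm_mono hi0n le_rfl, ?_, ?_⟩
        · rw [curve_tm hn hi0n, curve_tm hn (hii.trans hi0n), dist_eq_norm, ← sub_div, norm_div,
            Complex.norm_of_nonneg hsn.le, lt_div_iff₀ hsn]
          have h3 : ρ / C * size n ≤ ρ * (n : ℝ) ^ (3 / 4 : ℝ) := by
            calc ρ / C * size n ≤ ρ / C * (C * (n : ℝ) ^ (3 / 4 : ℝ)) := mul_le_mul_of_nonneg_left hs2 (by positivity)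
              _ = _ := by field_simp
          have h4 : ‖pos s i0 - pos s n‖ ≤ ‖pos s i0 - pos s i‖ + ‖pos s i - pos s n‖ := by
            have e : pos s i0 - pos s n = (pos s i0 - pos s i) + (pos s i - pos s n) := by ring
            rw [e]
            exact norm_add_le _ _
          have h5 : δ * size n ≤ ρ / C / 4 * size n := mul_le_mul_of_nonneg_right hδ2 hsn.le
          have h6 : 0 < ρ / C * size n := by positivity
          nlinarith
        · rw [curve_tm hn le_rfl, curve_tm hn (hii.trans hi0n), dist_eq_norm, ← sub_div, norm_div,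
            Complex.norm_of_nonneg hsn.le, div_lt_iff₀ hsn, norm_sub_rev]
          exact lt_of_lt_of_le hcon (mul_le_mul_of_nonneg_right hδ1 hsn.le)
      · have e : (pos s j - pos s n) - (pos s i - pos s n) = pos s j - pos s i := by ring
        rw [e]
        exact mod_walk hn hH hδ hij hj hd
    linarith
  exact card_le_law hε.le (hbad n hn) hsub

/-! ### 6. Words -/

lemma om_ne' : NTSF.om ≠ 0 := NTSF.om_ne

lemma BE_rot {n : ℕ} {ρ L : ℝ} (s : Fin n → Fin 3) : BE n ρ L (NTSF.rot s) ↔ BE n ρ L s := by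
  have h1 : ∀ i k : ℕ, ‖pos (NTSF.rot s) i - pos (NTSF.rot s) k‖ = ‖pos s i - pos s k‖ := fun i k => NTSF.norm_rot s i k
  have h2 : ∀ j i0 : ℕ, turn (fun i => pos (NTSF.rot s) i - pos (NTSF.rot s) n) j i0 = turn (fun i => pos s i - pos s n) j i0 := by
    intro j i0
    have e : (fun i => pos (NTSF.rot s) i - pos (NTSF.rot s) n) = fun i => NTSF.om * (pos s i - pos s n) := by
      funext i
      rw [NTSF.pos_rot, NTSF.pos_rot, mul_sub]
    rw [e]
    exact turn_smul om_ne' j i0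
  unfold BE
  simp only [h1, h2]

/-- the positions of a word seen from its end -/
noncomputable def uW (t : List Bool) (i : ℕ) : ℂ := JJ (vx oo up t i) - JJ (vx oo up t t.length)

/-- **words** -/
theorem wind_tip {ρ ε : ℝ} (hρ : 0 < ρ) (hε : 0 < ε) : ∃ L : ℝ, 0 < L ∧ ∀ n : ℕ, 1 ≤ n →
    Pn n {t | ∃ j i0 : ℕ, j ≤ i0 ∧ i0 ≤ n ∧ ρ * (n : ℝ) ^ (3 / 4 : ℝ) ≤ ‖uW t i0‖ ∧ L < |turn (uW t) j i0|} ≤ ε := by
  obtain ⟨L, hL, h⟩ := wind_end hρ hε
  refine ⟨L, hL, fun n hn => ?_⟩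
  have hn' : 0 < n := hn
  have h1 := h n hn
  have h2 := NTSF.card_saw hn' (fun s => BE n ρ L s) BE_rot
  have h3 := NTSF.card_saw hn' (fun _ => True) (fun _ => Iff.rfl)
  rw [Finset.filter_true_of_mem (fun _ _ => trivial)] at h3
  have e3 : {t | t ∈ SawN n ∧ True} = SawN n := by
    ext t
    exact ⟨fun h => h.1, fun h => ⟨h, trivial⟩⟩
  rw [e3] at h3
  have e1 : {t | t ∈ SawN n ∧ t ∈ {t | ∃ j i0 : ℕ, j ≤ i0 ∧ i0 ≤ n ∧ ρ * (n : ℝ) ^ (3 / 4 : ℝ) ≤ ‖uW t i0‖ ∧
      L < |turn (uW t) j i0|}} = {t | t ∈ SawN n ∧ BE n ρ L (sw n t)} := by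
    ext t
    rw [Set.mem_ofPred_eq, Set.mem_ofPred_eq]
    refine and_congr_right fun ht => ?_
    have hl : t.length = n := ht.1
    have hu : ∀ i, i ≤ n → uW t i = pos (sw n t) i - pos (sw n t) n := by
      intro i hi
      unfold uW
      rw [hl, NTSF.pos_sw n t i hi, NTSF.pos_sw n t n le_rfl]
    unfold BE
    refine exists₂_congr fun j i0 => and_congr_right fun hji => and_congr_right fun hi0 => ?_
    rw [hu i0 hi0, turn_congr (m := j) (m' := i0) fun i _ hi => hu i (hi.trans hi0)]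
  have h4 : (0 : ℝ) < cS n := by
    have : 0 < cS n := cS_pos n
    exact_mod_cast this
  unfold Pn
  rw [e1, div_le_iff₀ h4]
  have h5 : (2 : ℝ) * (((saw n).filter fun s => BE n ρ L s).card : ℝ) = 3 * ({t | t ∈ SawN n ∧ BE n ρ L (sw n t)}.ncard : ℝ) := by
    exact_mod_cast h2
  have h6 : (2 : ℝ) * ((saw n).card : ℝ) = 3 * (cS n : ℝ) := by
    have : 2 * (saw n).card = 3 * cS n := h3
    exact_mod_cast this
  have h7 : ε * (2 * ((saw n).card : ℝ)) = ε * (3 * (cS n : ℝ)) := by rw [h6]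
  linarith

end Wd

end NTSF
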