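import Pool.Agent.PW.LowB0

/-!
# PW, row P5 (helper10): the mass of the ends of class 0

`cut2`: two cuts; `e_turn`: a turn in front; `eM0_low`: the mass of the ends of class 0 with the cutoff.
-/

set_option autoImplicit false

namespace HexObs

namespace PWN

namespace LB0

open Finset TS SDN TIW

open scoped ENNReal

/-! ### 1. Two cuts -/

/-- **two cuts** -/
lemma cut2 {V E F ZS : Set (List Bool)} (hV : V.Finite) (hE : E.Finite) {u : ℝ} (hu : 0 < u)
    (hZ : gf ZS ≤ ENNReal.ofReal u) (hF : ∀ v ∈ V, ∀ e ∈ E, v ++ e ∈ F)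
    (h2 : ∀ v z e, v ∈ V → v ++ z ∈ V → z ++ e ∈ E → e ∈ E → z ∈ ZS) :
    gf V * gf E ≤ ENNReal.ofReal (2 * u) * gf F := by
  classical
  obtain ⟨S, hS⟩ : ∃ S, S = gf V * gf E := ⟨_, rfl⟩
  have hST : S ≠ ⊤ := by
    rw [hS]
    exact ENNReal.mul_ne_top (SLW.gf_fin_ne_top hV) (SLW.gf_fin_ne_top hE)
  have one0 : ∀ t : List Bool, (0 : ℝ) ≤ (fun _ : List Bool => (1 : ℝ)) t := fun _ => zero_le_one
  have e1 : S = ∑' t : List Bool, wE t * ENNReal.ofReal ((KK V E t).card : ℝ) := by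
    rw [hS, gf_Sx V, gf_Sx E, Sx_cut V E one0 one0]
    refine tsum_congr fun t => ?_
    rw [mul_one, sum_const, nsmul_eq_mul, mul_one]
  have e2 : gf V * (gf ZS * gf E) = ∑' t : List Bool, wE t * ENNReal.ofReal ((D3 V ZS E t).card : ℝ) := by
    rw [gf_Sx V, gf_Sx E, Sx_three V ZS E one0 one0]
    refine tsum_congr fun t => ?_
    rw [mul_one, sum_const, nsmul_eq_mul, mul_one]
  have main : S ≤ ENNReal.ofReal u * gf F + ENNReal.ofReal (1 / (2 * u)) * (gf V * (gf ZS * gf E)) := by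
    rw [e1, e2, gf_Sx F]
    unfold Sx
    rw [← ENNReal.tsum_mul_left, ← ENNReal.tsum_mul_left, ← ENNReal.tsum_add]
    refine ENNReal.tsum_le_tsum fun t => ?_
    rcases (KK V E t).eq_empty_or_nonempty with h | ⟨k0, hk0⟩
    · rw [h, card_empty, Nat.cast_zero, ENNReal.ofReal_zero, mul_zero]
      exact zero_le
    have htF : t ∈ F := by
      rw [mem_KK] at hk0
      have := hF _ hk0.2.1 _ hk0.2.2
      rwa [List.take_append_drop] at this
    rw [if_pos htF, ENNReal.ofReal_one, mul_one]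
    obtain ⟨m, hm⟩ : ∃ m : ℝ, m = ((KK V E t).card : ℝ) := ⟨_, rfl⟩
    obtain ⟨j, hj⟩ : ∃ j : ℝ, j = ((D3 V ZS E t).card : ℝ) := ⟨_, rfl⟩
    have hj0 : 0 ≤ j := by rw [hj]; exact Nat.cast_nonneg _
    have hsq : m ^ 2 ≤ 2 * j := by
      rw [hm, hj]
      refine (sq_le_ord _).trans (mul_le_mul_of_nonneg_left ?_ (by norm_num))
      rw [← Nat.cast_sum, ← card_sigma]
      have h3 : ((KK V E t).sigma fun k => (KK V E t).filter fun k' => k ≤ k').card ≤ (D3 V ZS E t).card := by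
        refine card_le_card_of_injOn (fun x => (x.1, x.2)) ?_ ?_
        · rintro ⟨k, k'⟩ hx
          rw [mem_coe, mem_sigma, mem_filter] at hx
          obtain ⟨hk, hk', hkk⟩ := hx
          simp only at hk hk' hkk
          rw [mem_KK] at hk hk'
          show (k, k') ∈ (D3 V ZS E t : Set (ℕ × ℕ))
          rw [mem_coe, mem_D3]
          simp only
          refine ⟨hk'.1, hkk, hk.2.1, ?_, hk'.2.2⟩
          have g1 : t.take k' = t.take k ++ (t.take k').drop k := by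
            conv_lhs => rw [← List.take_append_drop k (t.take k')]
            rw [List.take_take, min_eq_left hkk]
          have g2 : t.drop k = (t.take k').drop k ++ t.drop k' := by
            have h3 : t.drop k = (t.drop k).take (k' - k) ++ (t.drop k).drop (k' - k) := (List.take_append_drop _ _).symm
            rw [List.drop_drop, show k + (k' - k) = k' by omega] at h3
            rw [List.drop_take]
            exact h3
          refine h2 (t.take k) _ (t.drop k') hk.2.1 ?_ ?_ hk'.2.2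
          · rw [← g1]
            exact hk'.2.1
          · rw [← g2]
            exact hk.2.2
        · rintro ⟨k, k'⟩ _ ⟨l, l'⟩ _ he
          simp only [Prod.mk.injEq] at he
          obtain ⟨rfl, rfl⟩ := he
          rfl
      exact_mod_cast h3
    have c4 : m ≤ u + 1 / (2 * u) * j := by
      have h9 : 1 / (4 * u) * (m - 2 * u) ^ 2 = 1 / (4 * u) * m ^ 2 - m + u := by
        field_simp
        ring
      have h10 : 0 ≤ 1 / (4 * u) * (m - 2 * u) ^ 2 := by positivity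
      have h11 : 1 / (4 * u) * m ^ 2 ≤ 1 / (4 * u) * (2 * j) := mul_le_mul_of_nonneg_left hsq (by positivity)
      have h12 : 1 / (4 * u) * (2 * j) = 1 / (2 * u) * j := by
        field_simp
        ring
      linarith
    rw [← hm, ← hj]
    calc wE t * ENNReal.ofReal m ≤ wE t * ENNReal.ofReal (u + 1 / (2 * u) * j) :=
          mul_le_mul' le_rfl (ENNReal.ofReal_le_ofReal c4)
      _ = _ := by
          rw [ENNReal.ofReal_add hu.le (by positivity), ENNReal.ofReal_mul (by positivity)]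
          ring
  rw [← hS]
  rcases eq_or_ne (gf F) ⊤ with h | hFT
  · rw [h, ENNReal.mul_top (by rw [Ne, ENNReal.ofReal_eq_zero, not_le]; positivity)]
    exact le_top
  have m2 : S ≤ ENNReal.ofReal u * gf F + ENNReal.ofReal (1 / 2) * S := by
    refine main.trans (add_le_add le_rfl ?_)
    calc ENNReal.ofReal (1 / (2 * u)) * (gf V * (gf ZS * gf E)) ≤
          ENNReal.ofReal (1 / (2 * u)) * (gf V * (ENNReal.ofReal u * gf E)) :=
          mul_le_mul' le_rfl (mul_le_mul' le_rfl (mul_le_mul' hZ le_rfl))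
      _ = (ENNReal.ofReal (1 / (2 * u)) * ENNReal.ofReal u) * S := by
          rw [hS]
          ring
      _ = _ := by
          rw [← ENNReal.ofReal_mul (by positivity)]
          congr 2
          field_simp
  obtain ⟨G, hG⟩ : ∃ G, G = gf F := ⟨_, rfl⟩
  rw [← hG] at m2 hFT ⊢
  lift S to NNReal using hST
  lift G to NNReal using hFT
  have m3 : (S : ℝ) ≤ u * G + 1 / 2 * S := by
    have hT1 : (ENNReal.ofReal u * (G : ℝ≥0∞)) ≠ ⊤ := ENNReal.mul_ne_top ENNReal.ofReal_ne_top ENNReal.coe_ne_top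
    have hT2 : (ENNReal.ofReal (1 / 2) * (S : ℝ≥0∞)) ≠ ⊤ := ENNReal.mul_ne_top ENNReal.ofReal_ne_top ENNReal.coe_ne_top
    have h1 := ENNReal.toReal_mono (ENNReal.add_ne_top.2 ⟨hT1, hT2⟩) m2
    rw [ENNReal.toReal_add hT1 hT2] at h1
    simp only [ENNReal.toReal_mul, ENNReal.coe_toReal, ENNReal.toReal_ofReal hu.le,
      ENNReal.toReal_ofReal (show (0 : ℝ) ≤ 1 / 2 by norm_num)] at h1
    exact h1
  calc (S : ℝ≥0∞) = ENNReal.ofReal (S : ℝ) := by rw [ENNReal.ofReal_coe_nnreal]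
    _ ≤ ENNReal.ofReal (2 * u * G) := ENNReal.ofReal_le_ofReal (by linarith)
    _ = _ := by
        rw [ENNReal.ofReal_mul (by positivity), ENNReal.ofReal_coe_nnreal]

/-! ### 2. A turn in front -/

lemma rt_rotR : ∀ d ∈ dirs, mulE (rotTo up (rotR up)) d = rotR d := by
  decide

lemma Hp_incl {r s : ℕ} (h : r ≤ s) : Hp r ⊆ Hp s := by
  intro E hE
  refine ⟨hE.1, fun i hi => ?_⟩
  have := hE.2 i hi
  have h' : (r : ℤ) ≤ s := by exact_mod_cast h
  omega

/-- the half plane words with a given last direction -/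
def Ed (r : ℕ) (d : Pt) : Set (List Bool) := {E | E ∈ Hp (2 ^ r) ∧ de E = d}

lemma Ed_fin (r : ℕ) (d : Pt) : (Ed r d).Finite := (Hp_fin (2 ^ r)).subset fun _ h => h.1

lemma gf_lowZ (r : ℕ) : gf {Z | Z ∈ BU ∧ 3 * (hgt Z : ℤ) < ((2 ^ r : ℕ) : ℤ)} ≤ ENNReal.ofReal (Ub r) := by
  refine (gf_mono fun Z hZ => ?_).trans (TIP.gf_low (2 ^ r))
  obtain ⟨h1, h2⟩ := hZ
  exact ⟨h1, by omega⟩

/-- a turn in front of an end -/
lemma turn_app {r : ℕ} {V : Set (List Bool)} (hV : Turn r V) {v E : List Bool} {d : Pt} (hv : v ∈ V) (hE : E ∈ Ed r d) :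
    v ++ E ∈ Ed (r + 10) (rotR d) := by
  obtain ⟨⟨⟨hE1, hE2⟩, hE3⟩, hE4⟩ := hE
  have hp : (1 : ℤ) ≤ 2 ^ r := one_le_pow₀ (by norm_num)
  have e9 : (2 : ℤ) ^ (r + 9) = 512 * 2 ^ r := by rw [pow_add]; ring
  have e10 : (2 : ℤ) ^ (r + 10) = 1024 * 2 ^ r := by rw [pow_add]; ring
  have e1 : (2 : ℤ) ^ (r + 1) = 2 * 2 ^ r := by rw [pow_add]; ring
  obtain ⟨⟨hv1, hv2⟩, hv3⟩ := hV.hp hv
  have hfr := hV.front v hv
  have hh := hV.hgt v hv
  rw [e1] at hh
  push_cast at hE3 hv3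
  rw [e9] at hv3
  have hposE : ∀ j, 1 ≤ j → j ≤ E.length → 0 < ip (mulE (rt v) (vx oo up E j)) (de v) := by
    intro j h1 h2
    rw [LowA.ip_rt]
    exact hE1 j h1 h2
  refine ⟨⟨⟨fun i hi1 hi2 => ?_, fun i k hik hk he => ?_⟩, fun i hi => ?_⟩, ?_⟩
  · rw [List.length_append] at hi2
    rcases Nat.le_or_ge i v.length with h3 | h3
    · rw [vx_append (by omega)]
      exact hv1 i hi1 h3
    · obtain ⟨j, rfl⟩ := Nat.exists_eq_add_of_le h3
      rw [vx_app]
      show 0 < ip (en v + mulE (rt v) (vx oo up E j)) up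
      rw [ip_add_left]
      have h4 := OscA.ip_abs (mulE (rt v) (vx oo up E j)) upd'
      rw [hn_mulE (nrm_rt v), abs_le] at h4
      have h5 := hE3 j (by omega)
      linarith [h4.1]
  · rw [List.length_append] at hk
    rcases Nat.le_or_ge k v.length with h3 | h3
    · rw [vx_append (by omega), vx_append (by omega)] at he
      exact hv2 i k hik h3 he
    · obtain ⟨k', rfl⟩ := Nat.exists_eq_add_of_le h3
      rcases Nat.le_or_ge i v.length with h4 | h4
      · rcases Nat.eq_zero_or_pos k' with h5 | h5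
        · subst h5
          rw [vx_append (by omega), vx_append (by omega)] at he
          exact hv2 i _ hik (by omega) he
        · rw [vx_append (by omega), vx_app] at he
          have h6 := hfr i h4
          rw [he, add_sub_cancel_left] at h6
          have h7 := hposE k' h5 (by omega)
          linarith
      · obtain ⟨i', rfl⟩ := Nat.exists_eq_add_of_le h4
        rw [vx_app, vx_app] at he
        exact hE2 i' k' (by omega) (by omega) (mulE_inj (nrm_rt v) (add_left_cancel he))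
  · rw [List.length_append] at hi
    push_cast
    rw [e10]
    rcases Nat.le_or_ge i v.length with h3 | h3
    · rw [vx_append (by omega)]
      have := hv3 i h3
      linarith
    · obtain ⟨j, rfl⟩ := Nat.exists_eq_add_of_le h3
      rw [vx_app]
      have h4 := hn_add (en v) (mulE (rt v) (vx oo up E j))
      rw [hn_mulE (nrm_rt v)] at h4
      have h5 := hE3 j (by omega)
      have h6 := hv3 v.length le_rfl
      have h7 : (vx oo up v v.length : Pt) = en v := rfl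
      rw [h7] at h6
      linarith
  · have h8 : rt v = rotTo up (rotR up) := by
      unfold rt
      rw [hV.dir v hv]
    rw [de_app, h8, rt_rotR _ (de_mem E), hE4]

/-- the mass behind a turn -/
lemma e_turn {c : ℝ} (hc : 0 < c) {r : ℕ} {V : Set (List Bool)} (hV : Turn r V)
    (hm : ENNReal.ofReal (c * Ub r) ≤ gf V) (d : Pt) : gf (Ed r d) ≤ ENNReal.ofReal (2 / c) * gf (Ed (r + 10) (rotR d)) := by
  have hU := DL.Ub_pos r
  have h1 : gf V * gf (Ed r d) ≤ ENNReal.ofReal (2 * Ub r) * gf (Ed (r + 10) (rotR d)) := by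
    refine cut2 ((Hp_fin _).subset hV.hp) (Ed_fin r d) hU (gf_lowZ r) (fun v hv e he => turn_app hV hv he) ?_
    intro v z e hv hvz hze he
    refine zbu (2 ^ r) v z e ?_ hze.1 ?_
    · intro i hi h0
      have := hV.front _ hvz i hi
      linarith
    · rw [hV.dir _ hvz, hV.dir _ hv]
  have hk : ENNReal.ofReal (c * Ub r) ≠ 0 := by
    rw [Ne, ENNReal.ofReal_eq_zero, not_le]
    positivity
  refine (ENNReal.mul_le_mul_iff_right hk ENNReal.ofReal_ne_top).1 ?_
  refine ((mul_le_mul' hm le_rfl).trans h1).trans (le_of_eq ?_)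
  rw [← mul_assoc, ← ENNReal.ofReal_mul (by positivity)]
  congr 2
  field_simp

/-- up to five turns in front -/
lemma e_turns {c : ℝ} {l0 : ℕ} (hc : 0 < c)
    (hT : ∀ l : ℕ, l0 ≤ l → ∃ V, Turn l V ∧ ENNReal.ofReal (c * Ub l) ≤ gf V) {r : ℕ} (hr : l0 ≤ r) (d : Pt) (i : ℕ) :
    gf (Ed r d) ≤ ENNReal.ofReal ((2 / c) ^ i) * gf (Ed (r + 10 * i) (rotR^[i] d)) := by
  induction i with
  | zero =>
    rw [pow_zero, ENNReal.ofReal_one, one_mul, Function.iterate_zero]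
    exact le_rfl
  | succ i ih =>
    obtain ⟨V, hV, hm⟩ := hT (r + 10 * i) (by omega)
    refine ih.trans ?_
    rw [Function.iterate_succ_apply', pow_succ, ENNReal.ofReal_mul (by positivity), mul_assoc,
      show r + 10 * (i + 1) = r + 10 * i + 10 by ring]
    exact mul_le_mul' le_rfl (e_turn hc hV hm _)

/-- the half plane words that end upwards -/
lemma eUp_low : ∃ (c : ℝ) (l0 : ℕ), 0 < c ∧ ∀ l : ℕ, l0 ≤ l →
    ENNReal.ofReal (c * Ub l) * NTA.Xb l ≤ gf (Ed (l + 50) up) := by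
  obtain ⟨cT, l1, hcT, hT⟩ := turnSt
  obtain ⟨cE, l2, hcE, hlow⟩ := hpLow
  obtain ⟨C, hC⟩ : ∃ C, C = 6 * (2 / cT + 1) ^ 5 := ⟨_, rfl⟩
  have hq : 0 < 2 / cT := by positivity
  have hC0 : 0 < C := by rw [hC]; positivity
  refine ⟨cE / C, l1 + l2, by positivity, fun l hl => ?_⟩
  have h1 := hlow l (by omega)
  have h2 : ∀ d ∈ dirs, gf (Ed l d) ≤ ENNReal.ofReal ((2 / cT + 1) ^ 5) * gf (Ed (l + 50) up) := by
    intro d hd
    obtain ⟨i, hi, hid⟩ := dir_reach up upd' d hd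
    have h3 := e_turns hcT hT (r := l) (by omega) d i
    rw [hid] at h3
    refine h3.trans (mul_le_mul' (ENNReal.ofReal_le_ofReal ?_) (gf_mono fun E hE => ?_))
    · exact (pow_le_pow_left₀ hq.le (by linarith) i).trans (pow_le_pow_right₀ (by linarith) (by omega))
    · exact ⟨Hp_incl (Nat.pow_le_pow_right (by norm_num) (by omega)) hE.1, hE.2⟩
  have h3 : gf {E | E ∈ Hp (2 ^ l) ∧ E.length % 2 = 0 ∧ (2 : ℤ) ^ l ≤ 16 * ip (en E) up ∧ 32 * hn (en E) ≤ 15 * 2 ^ l} ≤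
      ∑ d ∈ dirs, gf (Ed l d) := by
    simp only [gf_Sx]
    exact Sx_cover dirs _ _ fun E hE => ⟨de E, de_mem E, hE.1, rfl⟩
  have h4 : ENNReal.ofReal (cE * Ub l) * NTA.Xb l ≤ ENNReal.ofReal C * gf (Ed (l + 50) up) := by
    refine (h1.trans h3).trans ((sum_le_sum h2).trans (le_of_eq ?_))
    rw [sum_const, show dirs.card = 6 by decide, nsmul_eq_mul, ← mul_assoc, hC, ENNReal.ofReal_mul (by norm_num)]
    norm_num
  have hk : ENNReal.ofReal C ≠ 0 := by
    rw [Ne, ENNReal.ofReal_eq_zero, not_le]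
    exact hC0
  refine (ENNReal.mul_le_mul_iff_right hk ENNReal.ofReal_ne_top).1 (le_trans (le_of_eq ?_) h4)
  rw [← mul_assoc, ← ENNReal.ofReal_mul hC0.le]
  congr 2
  field_simp

/-! ### 3. A bridge in front: the cutoff -/

lemma chi_one {l : ℕ} {E : List Bool} (h2 : (2 : ℤ) ^ l ≤ 16 * ip (en E) up) (h3 : 32 * hn (en E) ≤ 15 * 2 ^ l) :
    chi (2 ^ l) E = 1 := by
  have hr : (0 : ℝ) < ((2 ^ l : ℕ) : ℝ) := by positivity
  have h4 : ((2 ^ l : ℕ) : ℝ) ≤ 16 * (ip (en E) up : ℝ) := by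
    push_cast
    exact_mod_cast h2
  have h5 : 32 * (hn (en E) : ℝ) ≤ 15 * ((2 ^ l : ℕ) : ℝ) := by
    push_cast
    exact_mod_cast h3
  have g1 : (1 : ℝ) ≤ 32 * (ip (en E) up : ℝ) / ((2 ^ l : ℕ) : ℝ) - 1 := by
    rw [le_sub_iff_add_le, le_div_iff₀ hr]
    linarith
  have g2 : (1 : ℝ) ≤ 16 - 32 * (hn (en E) : ℝ) / ((2 ^ l : ℕ) : ℝ) := by
    rw [le_sub_comm, div_le_iff₀ hr]
    linarith
  have g3 : ∀ x : ℝ, 1 ≤ x → cl1 x = 1 := fun x hx => by
    unfold cl1
    rw [min_eq_left hx, max_eq_right zero_le_one]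
  unfold chi
  rw [g3 _ g1, g3 _ g2, min_self]

/-- the ends of class 0 with cutoff one -/
def Fo (l : ℕ) : Set (List Bool) := {E | E ∈ Ed l up ∧ (2 : ℤ) ^ l ≤ 16 * ip (en E) up ∧ 32 * hn (en E) ≤ 15 * 2 ^ l}

/-- a tube in front of a half plane word -/
lemma tube_app {a : ℕ} {B E : List Bool} (hB : B ∈ HexObs.SIM.Tub 0 (1 / 12) (2 ^ (a + 4))) (hE : E ∈ Ed a up) :
    B ++ E ∈ Fo (a + 9) := by
  have hp : (1 : ℤ) ≤ 2 ^ a := one_le_pow₀ (by norm_num)
  have hρ : 2 ≤ 2 ^ (a + 4) := by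
    have h1 : 2 ^ 4 ≤ 2 ^ (a + 4) := Nat.pow_le_pow_right (by norm_num) (by omega)
    omega
  obtain ⟨t, ht1, ht2, hBt, hBe, hBn⟩ := tub_facts hρ hB
  have hρN : (((2 ^ (a + 4) : ℕ)) : ℤ) = 16 * 2 ^ a := by
    push_cast
    rw [pow_add]
    ring
  have hN : (2 : ℤ) ^ (a + 9) = 512 * 2 ^ a := by
    rw [pow_add]
    ring
  rw [hρN] at hBn
  have ht1' : 2 * (16 * 2 ^ a) ≤ (t : ℤ) := by
    rw [← hρN]
    exact_mod_cast ht1
  have hd := (mem_Brd.1 hBt).2.2.1
  have hdB : de B = up := hd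
  obtain ⟨hE1, hE2⟩ := hE
  have hS := BAR.SSt_cat hBt (Hp_SSt a hE1)
  have hE3 := hE1.2
  push_cast at hE3
  have hvx : ∀ i, i ≤ (B ++ E).length → hn (vx oo up (B ++ E) i) < 9 * (16 * 2 ^ a) + 2 ^ a := by
    intro i hi
    rcases Nat.le_or_ge i B.length with h | h
    · rw [vx_append (by omega)]
      have := hBn i h
      linarith
    · rw [List.length_append] at hi
      obtain ⟨j, rfl⟩ := Nat.exists_eq_add_of_le h
      rw [vx_cat hd]
      exact (hn_add _ _).trans_lt (add_lt_add_of_le_of_lt (hBn _ le_rfl) (hE3 j (by omega)))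
  have hen : en (B ++ E) = vx oo up B B.length + vx oo up E E.length := by
    unfold en
    rw [List.length_append, vx_cat hd]
  have hlev : 0 ≤ ip (vx oo up E E.length) up := by
    rcases Nat.eq_zero_or_pos E.length with hz | hq
    · rw [hz]
      exact le_rfl
    · exact (hE1.1.mem _ hq le_rfl).le
  refine ⟨⟨⟨(TPF.SSt_HpN hS).2, fun i hi => ?_⟩, ?_⟩, ?_, ?_⟩
  · have := hvx i hi
    push_cast
    rw [hN]
    linarith
  · rw [de_app, hE2, rt_up, hdB]
  · rw [hen, ip_add_left, hBe, hN]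
    linarith
  · have h1 := hvx (B ++ E).length le_rfl
    have e : (vx oo up (B ++ E) (B ++ E).length : Pt) = en (B ++ E) := rfl
    rw [e] at h1
    rw [hN]
    linarith

lemma tub_fin (a : ℕ) : (HexObs.SIM.Tub 0 (1 / 12) (2 ^ (a + 4)) : Set (List Bool)).Finite := by
  refine (Hp_fin (9 * 2 ^ (a + 4) + 1)).subset fun B hB => ?_
  have hρ : 2 ≤ 2 ^ (a + 4) := by
    have h1 : 2 ^ 4 ≤ 2 ^ (a + 4) := Nat.pow_le_pow_right (by norm_num) (by omega)
    omega
  obtain ⟨t, ht1, ht2, hBt, hBe, hBn⟩ := tub_facts hρ hB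
  obtain ⟨k1, k2, -, -⟩ := mem_Brd.1 hBt
  refine ⟨⟨fun i h1 h2 => (k1 i h1 h2).1, k2⟩, fun i hi => ?_⟩
  have := hBn i hi
  push_cast at this ⊢
  linarith

lemma fin_arith {c1 c2 P Q U1 U2 : ℝ} {X1 X2 W : ℝ≥0∞} (hc1 : 0 < c1) (hc2 : 0 < c2) (hP0 : 0 < P) (hQ0 : 0 < Q)
    (hU1 : 0 < U1) (k7 : U2 ≤ P * U1) (k8 : X2 ≤ ENNReal.ofReal Q * X1)
    (k6 : ENNReal.ofReal (c1 * U1) * X1 ≤ ENNReal.ofReal (2 / c2) * W) :
    ENNReal.ofReal (c1 * c2 / (2 * (P * Q)) * U2) * X2 ≤ W := by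
  have hk : ENNReal.ofReal (2 / c2) ≠ 0 := by
    rw [Ne, ENNReal.ofReal_eq_zero, not_le]
    positivity
  refine (ENNReal.mul_le_mul_iff_right hk ENNReal.ofReal_ne_top).1 (le_trans ?_ k6)
  have hC0 : 0 ≤ c1 * c2 / (2 * (P * Q)) := by positivity
  refine (mul_le_mul' le_rfl (mul_le_mul' (ENNReal.ofReal_le_ofReal (mul_le_mul_of_nonneg_left k7 hC0)) k8)).trans
    (le_of_eq ?_)
  have e1 : ENNReal.ofReal (2 / c2) * (ENNReal.ofReal (c1 * c2 / (2 * (P * Q)) * (P * U1)) * (ENNReal.ofReal Q * X1)) =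
      ENNReal.ofReal (2 / c2 * (c1 * c2 / (2 * (P * Q)) * (P * U1)) * Q) * X1 := by
    have g1 : ENNReal.ofReal (2 / c2 * (c1 * c2 / (2 * (P * Q)) * (P * U1)) * Q) =
        ENNReal.ofReal (2 / c2 * (c1 * c2 / (2 * (P * Q)) * (P * U1))) * ENNReal.ofReal Q :=
      ENNReal.ofReal_mul (by positivity)
    have g2 : ENNReal.ofReal (2 / c2 * (c1 * c2 / (2 * (P * Q)) * (P * U1))) =
        ENNReal.ofReal (2 / c2) * ENNReal.ofReal (c1 * c2 / (2 * (P * Q)) * (P * U1)) :=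
      ENNReal.ofReal_mul (by positivity)
    rw [g1, g2]
    ring
  rw [e1]
  congr 2
  field_simp

/-- **the mass of the ends of class 0** -/
theorem eM0_low : ∃ (c : ℝ) (l0 : ℕ), 0 < c ∧ ∀ l : ℕ, l0 ≤ l →
    ENNReal.ofReal (c * Ub l) * NTA.Xb l ≤ Sx (Hc l) (chi (2 ^ l)) := by
  obtain ⟨c1, l1, hc1, h1⟩ := eUp_low
  obtain ⟨c2, ρ0, hc2, h0, hT⟩ := TIP.FreeA.tub_UU 0 (show (0 : ℝ) < 1 / 12 by norm_num)
  obtain ⟨D, hD, hX⟩ := NTA.Xb_pow
  have hD0 : (0 : ℝ) < D := by linarith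
  refine ⟨c1 * c2 / (2 * (2 ^ 59 * D ^ 59)), l1 + ρ0 + 59, by positivity, fun l hl => ?_⟩
  obtain ⟨r, rfl⟩ : ∃ r, l = r + 59 := ⟨l - 59, by omega⟩
  obtain ⟨a, ha⟩ : ∃ a, a = r + 50 := ⟨_, rfl⟩
  have hUa := DL.Ub_pos a
  have hUr := DL.Ub_pos r
  have hρ : ρ0 ≤ 2 ^ (a + 4) := by
    have h2 : a + 4 < 2 ^ (a + 4) := Nat.lt_two_pow_self
    omega
  have k1 : gf (HexObs.SIM.Tub 0 (1 / 12) (2 ^ (a + 4))) * gf (Ed a up) ≤ ENNReal.ofReal (2 * Ub a) * gf (Fo (a + 9)) := by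
    refine cut2 (tub_fin a) (Ed_fin a up) hUa (gf_lowZ a) (fun v hv e he => tube_app hv he) ?_
    intro v z e hv hvz hze he
    have hρ' : 2 ≤ 2 ^ (a + 4) := by
      have h1 : 2 ^ 4 ≤ 2 ^ (a + 4) := Nat.pow_le_pow_right (by norm_num) (by omega)
      omega
    obtain ⟨t, -, -, hBt, -⟩ := tub_facts hρ' hv
    obtain ⟨t', -, -, hBt', hBe', -⟩ := tub_facts hρ' hvz
    have hd : de v = up := (mem_Brd.1 hBt).2.2.1
    have hd' : de (v ++ z) = up := (mem_Brd.1 hBt').2.2.1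
    refine zbu (2 ^ a) v z e ?_ hze.1 (by rw [hd, hd'])
    intro i hi h0
    exfalso
    rw [hd'] at h0
    have h3 : ip (en (v ++ z)) up = 3 * t' := hBe'
    have h4 : ip (vx oo up (v ++ z) i) up ≤ 3 * t' := by
      rcases Nat.eq_zero_or_pos i with h5 | h5
      · rw [h5]
        show (0 : ℤ) ≤ 3 * t'
        positivity
      · exact ((mem_Brd.1 hBt').1 i h5 hi).2
    rw [ip_sub_left, h3] at h0
    linarith
  have k2 : ENNReal.ofReal (c2 * Ub a) ≤ gf (HexObs.SIM.Tub 0 (1 / 12) (2 ^ (a + 4))) := by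
    refine le_trans (ENNReal.ofReal_le_ofReal ?_) (hT _ hρ)
    refine mul_le_mul_of_nonneg_left (Num2Aux.UU_mono ?_) hc2.le
    have : 2 ^ (a + 4) = 16 * 2 ^ a := by rw [pow_add]; ring
    omega
  have k3 : gf (Ed a up) ≤ ENNReal.ofReal (2 / c2) * gf (Fo (a + 9)) := by
    have hk : ENNReal.ofReal (c2 * Ub a) ≠ 0 := by
      rw [Ne, ENNReal.ofReal_eq_zero, not_le]
      positivity
    refine (ENNReal.mul_le_mul_iff_right hk ENNReal.ofReal_ne_top).1 ?_
    refine ((mul_le_mul' k2 le_rfl).trans k1).trans (le_of_eq ?_)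
    rw [← mul_assoc, ← ENNReal.ofReal_mul (by positivity)]
    congr 2
    field_simp
  have k4 : gf (Fo (a + 9)) ≤ Sx (Hc (a + 9)) (chi (2 ^ (a + 9))) := by
    rw [gf_Sx]
    classical
    unfold Sx
    refine ENNReal.tsum_le_tsum fun E => ?_
    by_cases hE : E ∈ Fo (a + 9)
    · have h2 : E ∈ Hc (a + 9) := hE.1
      rw [if_pos hE, if_pos h2, chi_one hE.2.1 hE.2.2]
    · rw [if_neg hE]
      exact zero_le
  have k5 := h1 r (by omega)
  rw [← ha] at k5
  have e9 : a + 9 = r + 59 := by omega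
  rw [e9] at k4 k3
  obtain ⟨W, hW⟩ : ∃ W, W = Sx (Hc (r + 59)) (chi (2 ^ (r + 59))) := ⟨_, rfl⟩
  rw [← hW] at k4 ⊢
  have k6 : ENNReal.ofReal (c1 * Ub r) * NTA.Xb r ≤ ENNReal.ofReal (2 / c2) * W :=
    k5.trans (k3.trans (mul_le_mul' le_rfl k4))
  exact fin_arith hc1 hc2 (pow_pos two_pos 59) (pow_pos hD0 59) hUr (TPC.Ub_pow r 59) (hX r 59) k6

end LB0

end PWN

end HexObs
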