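import Pool.Agent.PW.LowB0F
import Pool.Agent.PW.EndM10

/-!
# PW, row P5 (helper10): `lowB0`, no hypothesis
-/

set_option autoImplicit false

namespace HexObs

namespace PWN

/-- **P5** -/
theorem lowB0 : LowB0 := lowB0_mass LB0.eM0_low

end PWN

end HexObs
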