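import Pool.Agent.PW.SmallN
import Pool.Agent.PW.LowB0Z
import Pool.Agent.SLW.Small
import Pool.Agent.SLW.MomB

/-!
PW, row P6: `smallB0 : SmallB0` and `smallN : SmallN`, no hypothesis (helpers 5, 10, 34, 45, 58, 62, 83).
-/

set_option autoImplicit false

namespace HexObs

namespace PWN

theorem smallB0 : SmallB0 := smallB0_of SLW.niceB lowB0 SLW.momB

/-- **P6** -/
theorem smallN : SmallN := smallN_of smallB0

end PWN

end HexObs
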