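import Pool.Agent.PW.PsiW

/-!
# PW, row BM-T (helper16): inner events have the same probability for all long walks

* `rampP ρ` : the cut-off of the tip; `srob_ramp`, `srob_inn` : functionals seen from the start hardly see a small end;
* `TipFar` : the tip is far from the start;
* **`transfer`** : for an inner functional `0 ≤ Q ≤ 1` of the scale `2 ^ (k' - C)`, `E_n[Q] ≤ sup E_m[Q] + ε`, the supremum over
  the numbers of letters `m` of the scale `k'`.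
-/

set_option autoImplicit false

noncomputable section

namespace NTSF

open Finset Filter Topology

open HexObs hiding pos

open HexObs.TIW HexObs.SDN HexObs.PWd HexObs.PWN

open NTF (sw JJ JJ_norm JJ_sub JJ_add)

/-! ### 1. A word and a small end, seen from the start -/

theorem JJ_le_hn (p : Pt) : ‖JJ p‖ ≤ ((hn p : ℤ) : ℝ) := by
  have h1 : ‖JJ p‖ ^ 2 ≤ ((hn p : ℤ) : ℝ) ^ 2 := by
    rw [JJ_norm]
    exact_mod_cast nrm_le_hn p
  have h2 : (0 : ℝ) ≤ ((hn p : ℤ) : ℝ) := by exact_mod_cast hn_nonneg p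
  exact (sq_le_sq₀ (norm_nonneg _) h2).1 h1

theorem pS_app (A Y : List Bool) {i : ℕ} (hi : i ≤ A.length) : pS (A ++ Y) i = pS A i := by
  unfold pS
  rw [vx_append (by omega)]

theorem pS_end (A Y : List Bool) {j : ℕ} (hj : j ≤ Y.length) :
    ‖pS (A ++ Y) (A.length + j) - pS A A.length‖ = ‖JJ (vx oo up Y j)‖ := by
  obtain ⟨u, hu, h⟩ := vx_last (A := A) (E := Y)
  unfold pS
  rw [h j hj, JJ_add, add_sub_cancel_left, JJ_mulE, norm_mul, uE_norm hu, one_mul]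

theorem pS_small {A Y : List Bool} {R : ℕ} (hY : ∀ i, i ≤ Y.length → hn (vx oo up Y i) < 2 ^ R) {j : ℕ} (hj : j ≤ Y.length) :
    ‖pS (A ++ Y) (A.length + j) - pS A A.length‖ ≤ 2 ^ R := by
  rw [pS_end A Y hj]
  refine (JJ_le_hn _).trans ?_
  exact_mod_cast (hY j hj).le

/-! ### 2. The cut-off of the tip -/

/-- 0 up to 1, 1 from 2 on -/
def ramp (x : ℝ) : ℝ := max 0 (min 1 (x - 1))

theorem ramp_nn (x : ℝ) : 0 ≤ ramp x := le_max_left _ _

theorem ramp_le (x : ℝ) : ramp x ≤ 1 := max_le zero_le_one (min_le_left _ _)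

theorem ramp_zero {x : ℝ} (h : x ≤ 1) : ramp x = 0 := by
  unfold ramp
  rw [max_eq_left]
  exact (min_le_right _ _).trans (by linarith)

theorem ramp_one {x : ℝ} (h : 2 ≤ x) : ramp x = 1 := by
  unfold ramp
  rw [min_eq_left (by linarith), max_eq_right zero_le_one]

theorem ramp_lip (x y : ℝ) : |ramp x - ramp y| ≤ |x - y| := by
  unfold ramp
  have h1 : |max 0 (min 1 (x - 1)) - max 0 (min 1 (y - 1))| ≤ |min 1 (x - 1) - min 1 (y - 1)| := by
    rw [max_comm 0, max_comm 0]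
    exact abs_max_sub_max_le_abs _ _ 0
  have h2 : |min 1 (x - 1) - min 1 (y - 1)| ≤ |(x - 1) - (y - 1)| := by
    rw [min_comm 1, min_comm 1]
    exact abs_min_sub_min_le_max _ _ _ _ |>.trans (by simp)
  refine (h1.trans h2).trans (le_of_eq ?_)
  congr 1
  ring

/-- the cut-off of the tip -/
def rampP (ρ : ℝ) : ℕ → (ℕ → ℂ) → ℝ := fun m z => ramp (‖z m‖ / ρ)

theorem rampP_pf (ρ : ℝ) : PF (rampP ρ) where
  rot := fun m z => by
    unfold rampP
    rw [norm_mul, om_norm, one_mul]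
  neg := fun m z => by
    unfold rampP
    rw [norm_neg]
  loc := fun m z z' h => by
    unfold rampP
    rw [h m le_rfl]

theorem rampP_abs (ρ : ℝ) (m : ℕ) (z : ℕ → ℂ) : |rampP ρ m z| ≤ 1 := by
  unfold rampP
  rw [abs_of_nonneg (ramp_nn _)]
  exact ramp_le _

theorem qS_ramp (ρ : ℝ) (t : List Bool) : qS (rampP ρ) t = ramp (‖JJ (en t)‖ / ρ) := rfl

theorem qE_ramp (ρ : ℝ) (t : List Bool) : qE (rampP ρ) t = ramp (‖JJ (en t)‖ / ρ) := by
  unfold qE rampP pE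
  rw [Nat.sub_self]
  have e0 : vx oo up t 0 = 0 := rfl
  rw [e0, ← JJ_sub, zero_sub, NTF.JJ_neg, norm_neg]
  rfl

theorem ramp_end {ρ : ℝ} (hρ : 0 < ρ) {A Y : List Bool} {x : ℝ} (hY : ((hn (vx oo up Y Y.length) : ℤ) : ℝ) ≤ x) :
    |ramp (‖JJ (en (A ++ Y))‖ / ρ) - ramp (‖JJ (en A)‖ / ρ)| ≤ x / ρ := by
  refine (ramp_lip _ _).trans ?_
  rw [← sub_div, abs_div, abs_of_pos hρ]
  refine div_le_div_of_nonneg_right ?_ hρ.le
  refine (abs_norm_sub_norm_le _ _).trans ?_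
  have h1 := pS_end A Y (j := Y.length) le_rfl
  unfold pS at h1
  unfold en
  rw [List.length_append, h1]
  exact (JJ_le_hn _).trans hY

/-- **robust at the end**: an inner functional times a robust functional that vanishes if the tip is near -/
theorem srob_inn {R : ℕ} {τ r ρ : ℝ} {Q G : ℕ → (ℕ → ℂ) → ℝ} (hQ : InnP r Q) (hQ1 : ∀ m z, |Q m z| ≤ 1)
    (hG0 : ∀ m z, ‖z m‖ ≤ ρ → G m z = 0) (hr : r + 2 ^ R ≤ ρ) (hτ : 0 ≤ τ) (hG : SRob R τ (qS G)) :
    SRob R τ (qS fun m z => G m z * Q m z) := by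
  intro A Y hA hY
  show |qS G (A ++ Y) * qS Q (A ++ Y) - qS G A * qS Q A| ≤ τ
  by_cases h : ∃ e, e ≤ A.length ∧ r ≤ ‖pS A e‖
  · obtain ⟨e, he, hz⟩ := h
    have h1 : qS Q (A ++ Y) = qS Q A := by
      unfold qS
      refine hQ.inn _ _ _ _ e (by rw [List.length_append]; omega) he ?_ fun i hi => pS_app A Y (hi.trans he)
      rw [pS_app A Y he]
      exact hz
    rw [h1, ← sub_mul, abs_mul]
    calc _ ≤ τ * 1 := mul_le_mul (hG A Y hA hY) (hQ1 _ _) (abs_nonneg _) hτ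
      _ = τ := mul_one _
  · push Not at h
    have h1 := h A.length le_rfl
    have h2 : qS G A = 0 := by
      unfold qS
      refine hG0 _ _ ?_
      have : (0 : ℝ) ≤ 2 ^ R := by positivity
      linarith
    have h3 : qS G (A ++ Y) = 0 := by
      unfold qS
      refine hG0 _ _ ?_
      have h4 := pS_small hY (A := A) (j := Y.length) le_rfl
      rw [List.length_append]
      have h5 : pS (A ++ Y) (A.length + Y.length) =
          pS A A.length + (pS (A ++ Y) (A.length + Y.length) - pS A A.length) := by ring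
      rw [h5]
      refine (norm_add_le _ _).trans ?_
      linarith
    rw [h2, h3]
    simpa using hτ

theorem srob_ramp {R : ℕ} {τ ρ : ℝ} (hρ : 0 < ρ) (h : 2 ^ R ≤ τ * ρ) : SRob R τ (qS (rampP ρ)) := by
  intro A Y _ hY
  rw [qS_ramp, qS_ramp]
  refine (ramp_end hρ (x := 2 ^ R) ?_).trans ?_
  · exact_mod_cast (hY _ le_rfl).le
  · rw [div_le_iff₀ hρ]
    exact h

/-! ### 3. The transfer -/

/-- **the tip is far from the start** -/
def TipFar : Prop := ∀ ε : ℝ, 0 < ε → ∃ c k0 : ℕ, ∀ k n : ℕ, k0 ≤ k → TIP.Sc k n →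
  En n (fun t => if ‖JJ (en t)‖ < 2 ^ k / 2 ^ c then 1 else 0) ≤ ε

theorem En_mono {n : ℕ} {f g : List Bool → ℝ} (h : ∀ t ∈ sawF n, f t ≤ g t) : En n f ≤ En n g := by
  unfold En
  exact div_le_div_of_nonneg_right (sum_le_sum h) (Nat.cast_nonneg _)

theorem En_add (n : ℕ) (f g : List Bool → ℝ) : En n (fun t => f t + g t) = En n f + En n g := by
  unfold En
  rw [sum_add_distrib, add_div]

theorem En_one (n : ℕ) : En n (fun _ => 1) = 1 := by
  unfold En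
  rw [sum_const, nsmul_eq_mul, mul_one, SLW.card_sawF]
  exact div_self (by exact_mod_cast (TOG.cS_pos n).ne')

/-- **inner events**: from the walks with `n` letters to the walks with `m` letters, `m` of the scale `k'` -/
theorem transfer {g : ℝ → ℝ} {Lg : ℝ} (hg : Bump Lg g) (hN : TipN g) (hF : TipFar)
    (hM : ∃ k0 : ℕ, ∀ k n : ℕ, k0 ≤ k → TIP.Sc k n → 0 < MA g n) : ∀ ε : ℝ, 0 < ε → ∃ C1 : ℕ, ∀ C, C1 ≤ C →
    ∃ k0 : ℕ, ∀ k n k' n' : ℕ, k0 ≤ k' → k' ≤ k → TIP.Sc k n → TIP.Sc k' n' → ∀ (r x : ℝ) (Q : ℕ → (ℕ → ℂ) → ℝ),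
    InnP r Q → 2 * r ≤ 2 ^ (k' - C) → (∀ m z, 0 ≤ Q m z) → (∀ m z, Q m z ≤ 1) →
    (∀ m, n' ≤ m → m ≤ 2 * n' → En m (qS Q) ≤ x) → En n (qS Q) ≤ x + ε := by
  intro ε hε
  obtain ⟨τ, hτ, h1⟩ := hN (ε / 2) (by positivity)
  obtain ⟨c, k1, h2⟩ := hF (ε / 2) (by positivity)
  obtain ⟨kM, hM⟩ := hM
  -- ρ = 2 ^ k / 2 ^ (c + 1)
  obtain ⟨d, hd⟩ := pow_unbounded_of_one_lt (1 / τ) (one_lt_two : (1 : ℝ) < 2)
  obtain ⟨D, hD⟩ : ∃ D, D = c + 1 + (d + 2) := ⟨_, rfl⟩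
  obtain ⟨C1, h1⟩ := h1 D
  obtain ⟨C0, hC0⟩ : ∃ C0, C0 = C1 + D := ⟨_, rfl⟩
  refine ⟨C0 + C1 + D, fun C hC => ?_⟩
  obtain ⟨k2, h1⟩ := h1 C0 C (by omega) (by omega)
  refine ⟨k1 + k2 + kM + C + D, fun k n k' n' hk' hkk hS hS' r x Q hQ hr hQ0 hQ1 hx => ?_⟩
  obtain ⟨ρ, hρ⟩ : ∃ ρ : ℝ, ρ = 2 ^ k / 2 ^ (c + 1) := ⟨_, rfl⟩
  have hρ0 : 0 < ρ := hρ ▸ by positivity
  have hpow : ∀ a : ℕ, a ≤ k → (2 : ℝ) ^ (k - a) = 2 ^ k / 2 ^ a := fun a ha => by
    rw [eq_div_iff (by positivity), ← pow_add]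
    congr 1
    omega
  have hQa : ∀ m z, |Q m z| ≤ 1 := fun m z => by rw [abs_of_nonneg (hQ0 m z)]; exact hQ1 m z
  have hτd : 1 ≤ τ * 2 ^ d := by
    rw [div_lt_iff₀ hτ] at hd
    linarith
  -- the small ends
  have hD1 : (2 : ℝ) ^ (k - D) ≤ τ * ρ := by
    rw [hpow D (by omega), hρ, hD, pow_add (2 : ℝ) (c + 1), pow_add (2 : ℝ) d]
    have h3 : (0 : ℝ) < 2 ^ k / 2 ^ (c + 1) := by positivity
    calc (2 : ℝ) ^ k / (2 ^ (c + 1) * (2 ^ d * 2 ^ 2)) = 2 ^ k / 2 ^ (c + 1) * (1 / (2 ^ d * 2 ^ 2)) := by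
          field_simp
      _ ≤ 2 ^ k / 2 ^ (c + 1) * τ := by
          refine mul_le_mul_of_nonneg_left ?_ h3.le
          rw [div_le_iff₀ (by positivity)]
          nlinarith
      _ = _ := by ring
  have hD2 : (2 : ℝ) ^ (k - D) ≤ ρ / 4 := by
    rw [hpow D (by omega), hρ, hD, pow_add (2 : ℝ) (c + 1), pow_add (2 : ℝ) d]
    have h3 : (0 : ℝ) < 2 ^ k / 2 ^ (c + 1) := by positivity
    have h4 : (1 : ℝ) ≤ 2 ^ d := one_le_pow₀ (by norm_num)
    calc (2 : ℝ) ^ k / (2 ^ (c + 1) * (2 ^ d * 2 ^ 2)) = 2 ^ k / 2 ^ (c + 1) * (1 / (2 ^ d * 2 ^ 2)) := by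
          field_simp
      _ ≤ 2 ^ k / 2 ^ (c + 1) * (1 / 4) := by
          refine mul_le_mul_of_nonneg_left ?_ h3.le
          rw [div_le_div_iff₀ (by positivity) (by norm_num)]
          nlinarith
      _ = _ := by ring
  have hr2 : r + 2 ^ (k - D) ≤ ρ := by
    have h3 : (2 : ℝ) ^ (k' - C) ≤ 2 ^ (k - D) := pow_le_pow_right₀ (by norm_num) (by omega)
    linarith
  have key := h1 k n k' n' (by omega) hkk hS hS' (qE Q) (qE (rampP ρ)) (fun _ => τ)
    (qS fun m z => rampP ρ m z * Q m z) (qS (rampP ρ)) (fun t => hQa _ _) (fun t => rampP_abs ρ _ _)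
    (fun t => by
      show |rampP ρ _ _ * Q _ _| ≤ 1
      rw [abs_mul]
      calc _ ≤ 1 * 1 := mul_le_mul (rampP_abs ρ _ _) (hQa _ _) (abs_nonneg _) zero_le_one
        _ = 1 := one_mul 1) (fun t => rampP_abs ρ _ _) (hQ.inn_qE hr)
    (by
      intro A Y hA _ hY
      show |qE (rampP ρ) (A ++ Y) - qE (rampP ρ) A| ≤ τ
      rw [qE_ramp, qE_ramp]
      refine (ramp_end hρ0 (x := 2 ^ (k - D)) ?_).trans ?_
      · have h3 := (hY _ le_rfl).le
        push_cast at h3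
        have h4 : ((hn (vx oo up Y Y.length) : ℤ) : ℝ) ≤ 2 ^ (k' - C0) := by exact_mod_cast h3
        exact h4.trans (pow_le_pow_right₀ (by norm_num) (by omega))
      · rw [div_le_iff₀ hρ0]
        exact hD1) (fun _ => hτ.le)
    (fun m _ _ => by
      rw [sum_const, nsmul_eq_mul, SLW.card_sawF]
      exact le_of_eq (mul_comm _ _))
    (fun m => sum_PF ((rampP_pf ρ).mul hQ.pf) m) (fun m => sum_PF (rampP_pf ρ) m)
    (srob_inn hQ hQa (fun m z hz => ramp_zero (by rw [div_le_one hρ0]; exact hz)) hr2 hτ.le (srob_ramp hρ0 hD1))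
    (srob_ramp hρ0 hD1)
  -- the mean of the reference
  have hMA := hM k' n' (by omega) hS'
  have hEA : EA g n' (qE Q) ≤ x := by
    unfold EA
    rw [div_le_iff₀ hMA]
    refine AA_le' hg fun m hm1 hm2 => ?_
    have h3 := hx m hm1 hm2
    have h4 : (0 : ℝ) < cS m := by exact_mod_cast TOG.cS_pos m
    unfold En at h3
    rw [div_le_iff₀ h4] at h3
    rw [← sum_PF hQ.pf]
    exact h3
  have hEA0 : 0 ≤ EA g n' (qE Q) :=
    div_nonneg (sum_nonneg fun t _ => mul_nonneg (pA_nonneg hg n' t) (hQ0 _ _)) hMA.le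
  have hG1 : En n (qS (rampP ρ)) ≤ 1 := by
    rw [← En_one n]
    exact En_mono fun t _ => ramp_le _
  have h3 : En n (qS Q) ≤ En n (qS fun m z => rampP ρ m z * Q m z) +
      En n (fun t => if ‖JJ (en t)‖ < 2 ^ k / 2 ^ c then 1 else 0) := by
    rw [← En_add]
    refine En_mono fun t _ => ?_
    show qS Q t ≤ ramp (‖JJ (en t)‖ / ρ) * qS Q t + _
    have h4 : 0 ≤ qS Q t := hQ0 _ _
    have h5 : qS Q t ≤ 1 := hQ1 _ _
    split_ifs with h
    · have := mul_nonneg (ramp_nn (‖JJ (en t)‖ / ρ)) h4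
      linarith
    · rw [ramp_one, one_mul, add_zero]
      rw [le_div_iff₀ hρ0, hρ]
      push Not at h
      refine le_trans (le_of_eq ?_) h
      rw [pow_succ]
      field_simp
  have h4 := h2 k n (by omega) hS
  have h5 := (abs_le.1 key).2
  have h6 : EA g n' (qE Q) * En n (qS (rampP ρ)) ≤ x := by
    calc _ ≤ EA g n' (qE Q) * 1 := mul_le_mul_of_nonneg_left hG1 hEA0
      _ ≤ x := by rw [mul_one]; exact hEA
  linarith

end NTSF

end
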