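import Pool.Agent.PW.TipA

/-!
PW (winding of the walk), row P7 (helper45): **`TipN`**: for the walk with exactly `n` steps the inner functionals at the scale
`2 ^ (k' - C)` of one end are asymptotically independent of what is far (scale `2 ^ (k' - C0)` and above), with the mean of the
plane ensemble of the scale `2 ^ k'`, `k'` any scale up to the scale of the walk.
-/

set_option autoImplicit false

namespace HexObs

namespace PWN

open Finset TS SDN TIW SLW SLW.TW RM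

/-- the mean over the words with `n` letters -/
noncomputable def En (n : ℕ) (f : List Bool → ℝ) : ℝ := (∑ t ∈ sawF n, f t) / cS n

/-- the mean over the plane ensemble -/
noncomputable def EA (g : ℝ → ℝ) (n : ℕ) (f : List Bool → ℝ) : ℝ := (∑ t ∈ AAF n, pA g n t * f t) / MA g n

/-- robust at the end -/
def SRob (r : ℕ) (τ : ℝ) (F : List Bool → ℝ) : Prop := ∀ A Y : List Bool, A ++ Y ∈ SA →
  (∀ i, i ≤ Y.length → hn (vx oo up Y i) < 2 ^ r) → |F (A ++ Y) - F A| ≤ τ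

/-- **goal for the walk with `n` steps** -/
def TipN (g : ℝ → ℝ) : Prop := ∀ ε : ℝ, 0 < ε → ∃ τ : ℝ, 0 < τ ∧ ∀ c1 : ℕ, ∃ C1 : ℕ, ∀ C0 C : ℕ, C1 ≤ C0 → C0 + C1 ≤ C →
  ∃ k0 : ℕ, ∀ k n k' n' : ℕ, k0 ≤ k' → k' ≤ k → TIP.Sc k n → TIP.Sc k' n' → ∀ q Φ er F G : List Bool → ℝ,
  (∀ t, |q t| ≤ 1) → (∀ t, |Φ t| ≤ 1) → (∀ t, |F t| ≤ 1) → (∀ t, |G t| ≤ 1) → Inn (k' - C) q →
  Rob (2 ^ (k' - C0)) Φ er → (∀ t, 0 ≤ er t) →
  (∀ m, n ≤ m → m ≤ 2 * n → ∑ t ∈ sawF m, er t ^ 2 ≤ τ ^ 2 * cS m) →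
  (∀ m, ∑ t ∈ sawF m, F t = ∑ t ∈ sawF m, Φ t * q t) → (∀ m, ∑ t ∈ sawF m, G t = ∑ t ∈ sawF m, Φ t) →
  SRob (k - c1) τ F → SRob (k - c1) τ G → |En n F - EA g n' q * En n G| ≤ ε

/-- **row SmallN**: the sum of the weights of sparse levels is small with small probability only -/
def SmallN : Prop := ∀ ε : ℝ, 0 < ε → ∃ c : ℝ, 0 < c ∧ ∀ (w : ℝ) (s : ℕ), 0 < w → ∃ M0 : ℕ, ∀ M, M0 ≤ M → ∃ s0 : ℕ,
  ∀ s', s0 ≤ s' → ∃ c0 l0 : ℕ, ∀ (k n : ℕ) (lv : ℕ → ℕ) (Ch : ℕ → Set (List Bool)), TIP.Sc k n → LvS M lv s s' w Ch →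
  l0 ≤ lv 0 → (∀ i, i < M → lv i + s + c0 ≤ k) →
  ∑ t ∈ sawF n, smI c (fun i => N0 (lv i) (lv i + s) (Ch i) t / UT (lv i) (lv i + s) (Ch i) / M) M ≤ ε * cS n

/-- the tent on `[1, 1 + 1 / 2 ^ c]` -/
noncomputable def tent (c : ℕ) (u : ℝ) : ℝ := max 0 (1 - |u - 1 - 1 / 2 ^ (c + 1)| * 2 ^ (c + 1))

lemma tent_hi {c : ℕ} {u : ℝ} (h : 1 + 1 / 2 ^ c < u) : tent c u = 0 := by
  unfold tent
  have h2 : (0 : ℝ) < 2 ^ (c + 1) := by positivity
  have h3 : (1 : ℝ) / 2 ^ c = 2 * (1 / 2 ^ (c + 1)) := by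
    rw [pow_succ]
    field_simp
  have h4 : 1 / 2 ^ (c + 1) ≤ |u - 1 - 1 / 2 ^ (c + 1)| := (by linarith : 1 / 2 ^ (c + 1) ≤ u - 1 - 1 / 2 ^ (c + 1)).trans
    (le_abs_self _)
  have h5 := mul_le_mul_of_nonneg_right h4 h2.le
  rw [one_div, inv_mul_cancel₀ h2.ne'] at h5
  exact max_eq_left (by rw [one_div]; linarith)

lemma tent_lo {c : ℕ} {u : ℝ} (h : u < 1) : tent c u = 0 := by
  unfold tent
  have h2 : (0 : ℝ) < 2 ^ (c + 1) := by positivity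
  have h4 : 1 / 2 ^ (c + 1) ≤ |u - 1 - 1 / 2 ^ (c + 1)| := by
    rw [abs_sub_comm]
    exact (by linarith : 1 / 2 ^ (c + 1) ≤ 1 / 2 ^ (c + 1) - (u - 1)).trans (le_abs_self _)
  have h5 := mul_le_mul_of_nonneg_right h4 h2.le
  rw [one_div, inv_mul_cancel₀ h2.ne'] at h5
  exact max_eq_left (by rw [one_div]; linarith)

lemma tent_bump (c : ℕ) : Bump (2 ^ (c + 1)) (tent c) where
  nn := fun u => le_max_left _ _
  le := fun u => by
    unfold tent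
    refine max_le zero_le_one ?_
    have : 0 ≤ |u - 1 - 1 / 2 ^ (c + 1)| * 2 ^ (c + 1) := by positivity
    linarith
  lip := fun u v => by
    unfold tent
    have hmax : ∀ a b : ℝ, |max 0 a - max 0 b| ≤ |a - b| := fun a b => by
      rw [max_comm 0 a, max_comm 0 b]
      exact abs_max_sub_max_le_abs a b 0
    refine (hmax _ _).trans ?_
    have e1 : 1 - |u - 1 - 1 / 2 ^ (c + 1)| * 2 ^ (c + 1) - (1 - |v - 1 - 1 / 2 ^ (c + 1)| * 2 ^ (c + 1)) =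
        2 ^ (c + 1) * (|v - 1 - 1 / 2 ^ (c + 1)| - |u - 1 - 1 / 2 ^ (c + 1)|) := by ring
    rw [e1, abs_mul, abs_of_pos (by positivity : (0 : ℝ) < 2 ^ (c + 1))]
    refine mul_le_mul_of_nonneg_left ?_ (by positivity)
    refine (abs_abs_sub_abs_le_abs_sub _ _).trans (le_of_eq ?_)
    rw [abs_sub_comm]
    congr 1
    ring
  lo := fun u h => tent_lo h
  hi := fun u h => tent_hi (lt_of_le_of_lt (by
    have : (1 : ℝ) / 2 ^ c ≤ 1 := by
      rw [div_le_one (by positivity)]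
      exact one_le_pow₀ (by norm_num)
    linarith) h)

lemma tent_one (c : ℕ) : tent c (1 + 1 / 2 ^ (c + 1)) = 1 := by
  unfold tent
  have e1 : (1 : ℝ) + 1 / 2 ^ (c + 1) - 1 - 1 / 2 ^ (c + 1) = 0 := by ring
  rw [e1, abs_zero, zero_mul, sub_zero]
  exact max_eq_right zero_le_one

/-- the trivial chain -/
lemma chn_nil (l : ℕ) : Chn l {[]} where
  bu := fun V hV => by
    rw [Set.mem_singleton_iff.1 hV]
    exact ⟨0, nil_mem_Brd⟩
  size := fun V hV i hi => by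
    rw [Set.mem_singleton_iff.1 hV] at hi ⊢
    have h0 : i = 0 := by simpa using hi
    subst h0
    have e : vx oo up ([] : List Bool) 0 = 0 := rfl
    rw [e]
    have : hn (0 : Pt) = 0 := by decide
    rw [this]
    positivity
  uniq := fun V hV V' hV' _ _ _ _ _ => by rw [Set.mem_singleton_iff.1 hV, Set.mem_singleton_iff.1 hV']
  even := fun V hV => by
    rw [Set.mem_singleton_iff.1 hV]
    exact Even.zero

lemma wD_nil : wD {[]} = 1 := by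
  unfold wD gf
  rw [tsum_singleton ([] : List Bool) fun t => wE t]
  unfold wE
  simp

lemma mz_two (k : ℕ) : (2 : ℝ) ^ k * PW.mZ (2 ^ 0) ≤ PW.mZ (2 ^ k) := by
  have h := NTA.MLow.two NTA.mlow_M 0 k
  rwa [zero_add] at h

/-- every large number of letters has a scale -/
lemma sc_ex {k n : ℕ} (h : PW.mZ (2 ^ k) ≤ n) : ∃ k', k ≤ k' ∧ TIP.Sc k' n := by
  classical
  have h0 : 0 < PW.mZ (2 ^ 0) := NTA.mlow_M.pos 0
  have hex : ∃ j, (n : ℝ) < PW.mZ (2 ^ (k + j + 1)) := by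
    obtain ⟨j, hj⟩ := pow_unbounded_of_one_lt ((n : ℝ) / PW.mZ (2 ^ 0)) (one_lt_two : (1 : ℝ) < 2)
    refine ⟨j, lt_of_lt_of_le ?_ (mz_two _)⟩
    rw [div_lt_iff₀ h0] at hj
    refine hj.trans_le (mul_le_mul_of_nonneg_right ?_ h0.le)
    exact pow_le_pow_right₀ (by norm_num) (by omega)
  obtain ⟨j, hj1, hj2⟩ : ∃ j, (n : ℝ) < PW.mZ (2 ^ (k + j + 1)) ∧ ∀ i, i < j → PW.mZ (2 ^ (k + i + 1)) ≤ n :=
    ⟨Nat.find hex, Nat.find_spec hex, fun i hi => not_lt.1 (Nat.find_min hex hi)⟩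
  refine ⟨k + j, by omega, ?_, hj1⟩
  rcases Nat.eq_zero_or_pos j with h1 | h1
  · rw [h1]
    exact h
  · have h2 := hj2 (j - 1) (by omega)
    rwa [show k + (j - 1) + 1 = k + j by omega] at h2

/-- the mean over the plane ensemble of a functional with values in `[-1, 1]` -/
lemma EA_abs {Lg : ℝ} {g : ℝ → ℝ} (hg : Bump Lg g) {n : ℕ} (hMA : 0 < MA g n) {q : List Bool → ℝ} (hq : ∀ t, |q t| ≤ 1) :
    |EA g n q| ≤ 1 := by
  unfold EA
  rw [abs_div, abs_of_pos hMA, div_le_one hMA]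
  refine (abs_sum_le_sum_abs _ _).trans ?_
  unfold MA
  refine sum_le_sum fun t _ => ?_
  rw [abs_mul, abs_of_nonneg (pA_nonneg hg n t)]
  calc pA g n t * |q t| ≤ pA g n t * 1 := mul_le_mul_of_nonneg_left (hq t) (pA_nonneg hg n t)
    _ = pA g n t := mul_one _

/-- the mass of the plane ensemble is positive -/
lemma MA_pos (hA : AReg) {Lg : ℝ} {g : ℝ → ℝ} (hg : Bump Lg g) {u : ℝ} (hu : g u = 1) :
    ∃ k0 : ℕ, ∀ k n : ℕ, k0 ≤ k → PW.mZ (2 ^ k) ≤ n → 0 < MA g n := by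
  obtain ⟨c, n0, hc, h⟩ := LA.MA_low hA hg hu
  have h0 : 0 < PW.mZ (2 ^ 0) := NTA.mlow_M.pos 0
  obtain ⟨j, hj⟩ := pow_unbounded_of_one_lt (((n0 : ℝ) + 1) / PW.mZ (2 ^ 0)) (one_lt_two : (1 : ℝ) < 2)
  refine ⟨j, fun k n hk hn => ?_⟩
  have h1 : (n0 : ℝ) + 1 ≤ n := by
    rw [div_lt_iff₀ h0] at hj
    have h2 : (2 : ℝ) ^ j * PW.mZ (2 ^ 0) ≤ 2 ^ k * PW.mZ (2 ^ 0) :=
      mul_le_mul_of_nonneg_right (pow_le_pow_right₀ (by norm_num) hk) h0.le
    linarith [mz_two k]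
  have h2 : n0 + 1 ≤ n := by exact_mod_cast h1
  have h3 := h n (by omega)
  have h4 : (0 : ℝ) < cS n := by exact_mod_cast TOG.cS_pos n
  have h5 : (0 : ℝ) < n := by exact_mod_cast (by omega : 0 < n)
  have h6 : 0 < xc ^ n := pow_pos xc_pos _
  have : 0 < c * (n * (cS n * xc ^ n)) := by positivity
  linarith

/-- **the tip of the walk with `n` steps** -/
theorem tipN_of (hA : AReg) (hF : SlowF) (hS : SmallN) {Lg : ℝ} {g : ℝ → ℝ} (hg : Bump Lg g) {u : ℝ} (hu : g u = 1) :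
    TipN g := by
  intro ε hε
  obtain ⟨ε', hε'⟩ : ∃ ε' : ℝ, ε' = min ε 1 / 64 := ⟨_, rfl⟩
  have hm0 : 0 < min ε 1 := lt_min hε one_pos
  have hε0 : 0 < ε' := by rw [hε']; positivity
  have hε1 : ε' ≤ ε / 64 := by rw [hε']; exact div_le_div_of_nonneg_right (min_le_left _ _) (by norm_num)
  have hε2 : ε' ≤ 1 / 64 := by rw [hε']; exact div_le_div_of_nonneg_right (min_le_right _ _) (by norm_num)
  obtain ⟨Cm, hCm, hMom⟩ := momA (momU hA)
  obtain ⟨D, hD1, hD⟩ := UT_low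
  obtain ⟨c, hc, hS⟩ := hS (ε' / 4) (by positivity)
  obtain ⟨M0, hS⟩ := hS 1 0 one_pos
  obtain ⟨B, hB⟩ : ∃ B : ℝ, B = (Cm * (D ^ 0 / 1)) ^ 2 := ⟨_, rfl⟩
  have hB0 : 0 ≤ B := by rw [hB]; positivity
  obtain ⟨M1, hM1⟩ := exists_nat_gt (4 * B / (c ^ 2 * ε'))
  obtain ⟨M, hMdef⟩ : ∃ M : ℕ, M = M0 + M1 + 1 := ⟨_, rfl⟩
  have hM : 1 ≤ M := by omega
  have hMr : (0 : ℝ) < M := by exact_mod_cast (by omega : 0 < M)
  have hBM : B / (c ^ 2 * M) ≤ ε' / 4 := by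
    have h1 : 4 * B / (c ^ 2 * ε') ≤ M := hM1.le.trans (by exact_mod_cast (by omega : M1 ≤ M))
    rw [div_le_iff₀ (by positivity)] at h1
    rw [div_le_iff₀ (by positivity)]
    nlinarith
  obtain ⟨s0, hS⟩ := hS M (by omega)
  obtain ⟨s1, hs1⟩ := pow_unbounded_of_one_lt (512 * B / (c ^ 2 * ε')) (one_lt_two : (1 : ℝ) < 2)
  obtain ⟨s', hs'⟩ : ∃ s' : ℕ, s' = s0 + s1 + 8 := ⟨_, rfl⟩
  have hBs : 128 * B / (2 ^ s' * c ^ 2) ≤ ε' / 4 := by
    have h1 : 512 * B / (c ^ 2 * ε') ≤ 2 ^ s' := hs1.le.trans (pow_le_pow_right₀ (by norm_num) (by omega))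
    rw [div_le_iff₀ (by positivity)] at h1
    rw [div_le_iff₀ (by positivity)]
    nlinarith
  obtain ⟨c0, l0, hS⟩ := hS s' (by omega)
  obtain ⟨τ1, hτ1, hslow⟩ := slowA hF (ε / 4) (by positivity)
  obtain ⟨τ, hτdef⟩ : ∃ τ : ℝ, τ = min τ1 (ε' * c / (B + 1)) := ⟨_, rfl⟩
  have hτ0 : 0 < τ := by rw [hτdef]; exact lt_min hτ1 (by positivity)
  have hττ : τ ≤ τ1 := by rw [hτdef]; exact min_le_left _ _
  have hτB : τ * (B + 1) ≤ ε' * c := by
    have h1 : τ ≤ ε' * c / (B + 1) := by rw [hτdef]; exact min_le_right _ _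
    rwa [le_div_iff₀ (by positivity)] at h1
  refine ⟨τ, hτ0, fun c1 => ?_⟩
  obtain ⟨c2, k2, hslow⟩ := hslow c1
  obtain ⟨Ca, la, hCa, hLa⟩ := levAe hA hg hu
  obtain ⟨Cb, lb, hCb, hLb⟩ := levAe hA (tent_bump c2) (tent_one c2)
  obtain ⟨ka, hka⟩ := MA_pos hA hg hu
  obtain ⟨kb, hkb⟩ := MA_pos hA (tent_bump c2) (tent_one c2)
  obtain ⟨β, hβdef⟩ : ∃ β : ℝ, β = ε' * c / 4 := ⟨_, rfl⟩
  have hβ0 : 0 < β := by rw [hβdef]; positivity
  obtain ⟨j, hj⟩ := pow_unbounded_of_one_lt ((Ca + Cb) / β) (one_lt_two : (1 : ℝ) < 2)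
  rw [div_lt_iff₀ hβ0] at hj
  refine ⟨c0 + j + 9 + 3 * M * s', fun C0 C hC0 hC => ⟨C + l0 + la + lb + k2 + ka + kb, ?_⟩⟩
  intro k n k' n' hk0 hk' hSc hSc' q Φ er F G hq hΦ hF1 hG1 hInn hfar her0 her2 hFq hGΦ hFr hGr
  -- the levels
  obtain ⟨lv, hlv⟩ : ∃ lv : ℕ → ℕ, lv = fun i => k' - C + 8 + i * s' := ⟨_, rfl⟩
  have hlv' : ∀ i, lv i = k' - C + 8 + i * s' := fun i => by rw [hlv]
  have hlow : ∀ i, k' - C + 8 ≤ lv i := fun i => by rw [hlv']; exact Nat.le_add_right _ _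
  have htop : ∀ i, i < 3 * M → lv i + C0 + c0 + j + 1 ≤ k' := by
    intro i hi
    have h1 : i * s' + s' ≤ 3 * M * s' := by
      calc i * s' + s' = (i + 1) * s' := by ring
        _ ≤ 3 * M * s' := Nat.mul_le_mul_right _ hi
    rw [hlv']
    omega
  have hgap : ∀ i j, i < j → j < 3 * M → lv i + 0 + s' ≤ lv j := by
    intro i j' hij _
    have h1 : i * s' + s' ≤ j' * s' := by
      calc i * s' + s' = (i + 1) * s' := by ring
        _ ≤ j' * s' := Nat.mul_le_mul_right _ hij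
    rw [hlv', hlv']
    omega
  obtain ⟨Ch, hCh⟩ : ∃ Ch : ℕ → Set (List Bool), Ch = fun _ => {[]} := ⟨_, rfl⟩
  have hLv : LvS (3 * M) lv 0 s' 1 Ch := ⟨hgap, fun i _ => by rw [hCh]; exact chn_nil _,
    fun i _ => by rw [hCh]; exact wD_nil.ge⟩
  have hll : l0 + la + lb ≤ k' - C + 8 := by omega
  -- the small sums at every number of letters of the window
  have hsm : ∀ (k1 n1 : ℕ), k' ≤ k1 → TIP.Sc k1 n1 → ∀ m, n1 ≤ m → m ≤ 2 * n1 → ∀ e : ℕ → ℕ, (∀ j, j < M → e j < 3 * M) →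
      (∀ i j, i < j → j < M → e i < e j) → ∑ t ∈ sawF m, smI c (fun j => N0 (lv (e j)) (lv (e j) + 0) (Ch (e j)) t /
        UT (lv (e j)) (lv (e j) + 0) (Ch (e j)) / M) M ≤ ε' / 4 * cS m := by
    intro k1 n1 hk1 hSc1 m hm1 _ e he1 he2
    obtain ⟨k3, hk3, hSc3⟩ := sc_ex (k := k1) (n := m) (hSc1.1.trans (by exact_mod_cast hm1))
    refine hS k3 m (fun j => lv (e j)) (fun j => Ch (e j)) hSc3 (hLv.sub he1 he2) ?_ fun i hi => ?_
    · have := hlow (e 0)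
      show l0 ≤ lv (e 0)
      omega
    · have := htop (e i) (he1 i hi)
      show lv (e i) + 0 + c0 ≤ k3
      omega
  have hMA : 0 < MA g n' := hka k' n' (by omega) hSc'.1
  have hMB : 0 < MA (tent c2) n := hkb k n (by omega) hSc.1
  have hn1 : 1 ≤ n := by
    by_contra h
    have h1 : n = 0 := by omega
    have h2 := hSc.1
    rw [h1, Nat.cast_zero] at h2
    exact absurd h2 (not_le.2 (NTA.mlow_M.pos k))
  have hEA := ensA (c := c) (x := ε' / 4) (M := M) hMom hg hD hCm one_pos hLv hMA (hsm k' n' le_rfl hSc')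
  have hEB := ensA (c := c) (x := ε' / 4) (M := M) hMom (tent_bump c2) hD hCm one_pos hLv hMB (hsm k n hk' hSc)
  have hLA := levEA (β := β) hg hCa hLa hD1 hD hSc' one_pos hLv (fun i _ => by have := hlow i; omega)
    (fun i hi => by have := htop i hi; omega) (fun i hi => by
      have h1 := htop i hi
      have h2 : (2 : ℝ) ^ j ≤ 2 ^ (k' - lv i) := pow_le_pow_right₀ (by norm_num) (by omega)
      have h3 : Ca ≤ 2 ^ j * β := by linarith
      calc Ca * (D ^ 0 / 1) = Ca := by rw [pow_zero, div_one, mul_one]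
        _ ≤ 2 ^ j * β := h3
        _ ≤ 2 ^ (k' - lv i) * β := mul_le_mul_of_nonneg_right h2 hβ0.le
        _ = β * 2 ^ (k' - lv i) := by ring) hq
  have hLB := levEA (β := β) (tent_bump c2) hCb hLb hD1 hD hSc one_pos hLv (fun i _ => by have := hlow i; omega)
    (fun i hi => by have := htop i hi; omega) (fun i hi => by
      have h1 := htop i hi
      have h2 : (2 : ℝ) ^ j ≤ 2 ^ (k - lv i) := pow_le_pow_right₀ (by norm_num) (by omega)
      have h3 : Cb ≤ 2 ^ j * β := by linarith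
      calc Cb * (D ^ 0 / 1) = Cb := by rw [pow_zero, div_one, mul_one]
        _ ≤ 2 ^ j * β := h3
        _ ≤ 2 ^ (k - lv i) * β := mul_le_mul_of_nonneg_right h2 hβ0.le
        _ = β * 2 ^ (k - lv i) := by ring) hq
  have hIQ : InnQ (3 * M) lv 0 Ch q := innQ (fun i _ => by have := hlow i; omega) hInn
  have hAm : ∑ t ∈ AAF n', pA g n' t = MA g n' := rfl
  have e2 : (2 * (64 / 2 ^ s' * B / c) + β) / c = 128 * B / (2 ^ s' * c ^ 2) + β / c := by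
    field_simp
    ring
  have hβc : β / c = ε' / 4 := by
    rw [hβdef]
    field_simp
  have hτc : τ * (B + 1) / c ≤ ε' := by
    rw [div_le_iff₀ hc]
    exact hτB
  have hT := T_tip (r0 := 2 ^ (k' - C0)) (er := er) (τ := τ) (ε' := ε') (err := ε / 2) hgap (by omega : 8 ≤ s') hM
    (fun i hi => Nat.pow_le_pow_right (by norm_num) (by have := htop i hi; omega)) hEA hAm hLA hEB hLB hβ0.le hq hIQ
    hc hc hε0 (by
      rw [← hB, e2, hβc]
      linarith) (by linarith) hτ0.le hΦ hfar her0 (by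
      rw [mul_one]
      exact AA_le' (tent_bump c2) her2) (by
      rw [← hB]
      have e3 : (τ * (B + 1) + 2 * (64 / 2 ^ s' * B / c) + β) / c =
          τ * (B + 1) / c + (2 * (64 / 2 ^ s' * B / c) + β) / c := by ring
      rw [e3, e2, hβc]
      have h1 : ε' / 4 + B / (c ^ 2 * M) ≤ 1 := by linarith
      have h2 : 4 * ε' * (1 + (ε' / 4 + B / (c ^ 2 * M))) ≤ 4 * ε' * 2 :=
        mul_le_mul_of_nonneg_left (by linarith) (by positivity)
      linarith)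
  -- the exact number of letters
  have hsF := hslow k n (by omega) hn1 hSc _ (tent c2) (tent_bump c2) (fun v hv => tent_hi hv) F hF1
    (fun A Y hAY hY => (hFr A Y hAY hY).trans hττ)
  have hsG := hslow k n (by omega) hn1 hSc _ (tent c2) (tent_bump c2) (fun v hv => tent_hi hv) G hG1
    (fun A Y hAY hY => (hGr A Y hAY hY).trans hττ)
  rw [AA_congr (fun m => hFq m) n] at hsF
  rw [AA_congr (fun m => hGΦ m) n] at hsG
  have hq1 := EA_abs hg hMA hq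
  obtain ⟨x, hx⟩ : ∃ x, x = ∑ t ∈ AAF n, pA (tent c2) n t * (Φ t * q t) := ⟨_, rfl⟩
  obtain ⟨y, hy⟩ : ∃ y, y = ∑ t ∈ AAF n, pA (tent c2) n t * Φ t := ⟨_, rfl⟩
  obtain ⟨a, ha⟩ : ∃ a, a = EA g n' q := ⟨_, rfl⟩
  have ha' : (∑ t ∈ AAF n', pA g n' t * q t) / MA g n' = a := by rw [ha]; rfl
  obtain ⟨b1, hb1⟩ : ∃ b, b = En n F := ⟨_, rfl⟩
  obtain ⟨b2, hb2⟩ : ∃ b, b = En n G := ⟨_, rfl⟩
  have hb1' : (∑ t ∈ sawF n, F t) / cS n = b1 := by rw [hb1]; rfl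
  have hb2' : (∑ t ∈ sawF n, G t) / cS n = b2 := by rw [hb2]; rfl
  rw [ha', ← hx, ← hy] at hT
  rw [hb1', ← hx] at hsF
  rw [hb2', ← hy] at hsG
  rw [← ha] at hq1 ⊢
  rw [← hb1, ← hb2]
  obtain ⟨m, hm⟩ : ∃ m, m = MA (tent c2) n := ⟨_, rfl⟩
  rw [← hm] at hT hsF hsG hMB
  have h1 : |m * (b1 - a * b2)| ≤ ε * m := by
    have e4 : m * (b1 - a * b2) = -(x - m * b1) + (x - a * y) + a * (y - m * b2) := by ring
    rw [e4]
    have h2 : |a * (y - m * b2)| ≤ ε / 4 * m := by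
      rw [abs_mul]
      calc |a| * |y - m * b2| ≤ 1 * (ε / 4 * m) := mul_le_mul hq1 hsG (abs_nonneg _) zero_le_one
        _ = ε / 4 * m := one_mul _
    have h3 := abs_add_le (-(x - m * b1) + (x - a * y)) (a * (y - m * b2))
    have h4 := abs_add_le (-(x - m * b1)) (x - a * y)
    rw [abs_neg] at h4
    linarith
  rw [abs_mul, abs_of_pos hMB, mul_comm] at h1
  exact le_of_mul_le_mul_right h1 hMB

end PWN

end HexObs
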