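import Mathlib

/-!
# The turning angle of a sequence of complex numbers (Mathlib only) (helper41, row E1a of PW)

`turn z m m'` = the sum over `m ≤ i < m'` of `arg (z (i + 1) / z i)`.

* `turn_lift`: if `z i = ‖z i‖ exp (i φ i)` with `|φ (i + 1) - φ i| < π`, it is `φ m' - φ m`;
* `turn_half`, `turn_near`: a piece in a half plane seen from `0` turns by less than `π / 2`;
* `turn_mul_exp`: `z i = v i * exp (h i)`;
* `exists_chain`: the turn is at most `(N + 1) π / 2`, `N` = the length of a greedy chain;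
* `turn_modulus`: the same from a modulus of continuity;
* `turn_centre`: change of the centre when no step crosses the segment between the centres;
* `turn_rev`: the reversed sequence.
-/

set_option autoImplicit false

noncomputable section

namespace HexObs.PWd

open Complex Finset
open scoped Real

/-- the sum of the angles of the quotients of successive terms -/
def turn (z : ℕ → ℂ) (m m' : ℕ) : ℝ := ∑ i ∈ Ico m m', arg (z (i + 1) / z i)

theorem turn_self (z : ℕ → ℂ) (m : ℕ) : turn z m m = 0 := by simp [turn]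

theorem turn_add (z : ℕ → ℂ) {m m' m'' : ℕ} (h : m ≤ m') (h' : m' ≤ m'') :
    turn z m m'' = turn z m m' + turn z m' m'' := by
  unfold turn
  rw [sum_Ico_consecutive _ h h']

theorem turn_succ (z : ℕ → ℂ) {m m' : ℕ} (h : m ≤ m') :
    turn z m (m' + 1) = turn z m m' + arg (z (m' + 1) / z m') := by
  unfold turn
  rw [sum_Ico_succ_top h]

theorem turn_congr {z v : ℕ → ℂ} {m m' : ℕ} (h : ∀ i, m ≤ i → i ≤ m' → z i = v i) :
    turn z m m' = turn v m m' := by
  unfold turn
  refine sum_congr rfl fun i hi => ?_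
  rw [mem_Ico] at hi
  rw [h i hi.1 hi.2.le, h (i + 1) (by omega) hi.2]

theorem turn_shift (z : ℕ → ℂ) (s m m' : ℕ) :
    turn (fun i => z (s + i)) m m' = turn z (s + m) (s + m') := by
  have h := sum_Ico_add (fun i => arg (z (i + 1) / z i)) m m' s
  rw [add_comm m s, add_comm m' s] at h
  exact h

theorem turn_smul {z : ℕ → ℂ} {c : ℂ} (hc : c ≠ 0) (m m' : ℕ) :
    turn (fun i => c * z i) m m' = turn z m m' := by
  unfold turn
  refine sum_congr rfl fun i _ => ?_
  rw [mul_div_mul_left _ _ hc]

/-- every term is at most `π` -/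
theorem abs_turn_le (z : ℕ → ℂ) (m m' : ℕ) : |turn z m m'| ≤ ((m' - m : ℕ) : ℝ) * π := by
  unfold turn
  refine (abs_sum_le_sum_abs _ _).trans ?_
  refine (sum_le_sum fun i _ => abs_arg_le_pi _).trans ?_
  rw [sum_const, Nat.card_Ico, nsmul_eq_mul]

theorem arg_mul_exp {r θ : ℝ} (hr : 0 < r) (hθ : |θ| < π) : arg ((r : ℂ) * exp ((θ : ℝ) * I)) = θ := by
  rw [exp_mul_I]
  rw [abs_lt] at hθ
  exact arg_mul_cos_add_sin_mul_I hr ⟨hθ.1, hθ.2.le⟩

/-- the argument of a quotient from two lifts -/
theorem arg_div_lift {a b : ℂ} {φ ψ : ℝ} (ha : a ≠ 0) (hb : b ≠ 0) (ha' : a = ‖a‖ * exp (φ * I))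
    (hb' : b = ‖b‖ * exp (ψ * I)) (h : |ψ - φ| < π) : arg (b / a) = ψ - φ := by
  have h1 : b / a = ((‖b‖ / ‖a‖ : ℝ) : ℂ) * exp ((ψ - φ : ℝ) * I) := by
    conv_lhs => rw [ha', hb']
    rw [ofReal_sub, sub_mul, exp_sub, ofReal_div]
    field_simp
  rw [h1, arg_mul_exp (div_pos (norm_pos_iff.2 hb) (norm_pos_iff.2 ha)) h]

/-- **the turn is the increment of a lift of the argument** -/
theorem turn_lift {z : ℕ → ℂ} {φ : ℕ → ℝ} {m m' : ℕ} (hm : m ≤ m')
    (hz : ∀ i, m ≤ i → i ≤ m' → z i ≠ 0) (hφ : ∀ i, m ≤ i → i ≤ m' → z i = ‖z i‖ * exp (φ i * I))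
    (h : ∀ i, m ≤ i → i < m' → |φ (i + 1) - φ i| < π) : turn z m m' = φ m' - φ m := by
  induction m', hm using Nat.le_induction with
  | base => simp [turn_self]
  | succ n hn ih =>
    rw [turn_succ _ hn, ih (fun i h1 h2 => hz i h1 (by omega)) (fun i h1 h2 => hφ i h1 (by omega))
      (fun i h1 h2 => h i h1 (by omega)), arg_div_lift (hz n hn (by omega)) (hz (n + 1) (by omega) le_rfl)
      (hφ n hn (by omega)) (hφ (n + 1) (by omega) le_rfl) (h n hn (by omega))]
    ring

theorem norm_mul_exp_arg (z : ℂ) : z = ‖z‖ * exp (arg z * I) := (norm_mul_exp_arg_mul_I z).symm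

/-- a piece in the half plane `0 < Re (z / z m)` turns by less than `π / 2` -/
theorem turn_half {z : ℕ → ℂ} {m m' : ℕ} (hm : m ≤ m')
    (h : ∀ i, m ≤ i → i ≤ m' → 0 < (z i / z m).re) :
    turn z m m' = arg (z m' / z m) ∧ |turn z m m'| < π / 2 := by
  have h0 : ∀ i, m ≤ i → i ≤ m' → z i / z m ≠ 0 := fun i h1 h2 h3 => by
    have := h i h1 h2
    rw [h3] at this
    simp at this
  have hzm : z m ≠ 0 := fun h3 => h0 m le_rfl hm (by rw [h3]; simp)
  have h1 : turn z m m' = turn (fun i => z i / z m) m m' := by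
    have := turn_smul (z := z) (inv_ne_zero hzm) m m'
    rw [← this]
    refine turn_congr fun i _ _ => ?_
    rw [div_eq_inv_mul]
  have harg : ∀ i, m ≤ i → i ≤ m' → |arg (z i / z m)| < π / 2 := fun i h1 h2 => by
    rw [abs_arg_lt_pi_div_two_iff]
    exact Or.inl (h i h1 h2)
  have h2 : turn (fun i => z i / z m) m m' = arg (z m' / z m) - arg (z m / z m) := by
    refine turn_lift (φ := fun i => arg (z i / z m)) hm h0 (fun i _ _ => norm_mul_exp_arg _) ?_
    intro i h3 h4
    have h5 := harg i h3 h4.le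
    have h6 := harg (i + 1) (by omega) h4
    rw [abs_lt] at *
    constructor <;> linarith [h5.1, h5.2, h6.1, h6.2]
  rw [div_self hzm, arg_one, sub_zero] at h2
  rw [h1, h2]
  exact ⟨rfl, harg m' hm le_rfl⟩

theorem re_div_pos {a b : ℂ} (h : ‖b - a‖ < ‖a‖) : 0 < (b / a).re := by
  have ha : 0 < ‖a‖ := lt_of_le_of_lt (norm_nonneg _) h
  have ha0 : a ≠ 0 := norm_pos_iff.1 ha
  have h1 : b / a = 1 + (b - a) / a := by
    field_simp
    ring
  have h2 : ‖(b - a) / a‖ < 1 := by
    rw [norm_div, div_lt_one ha]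
    exact h
  have h3 := (abs_le.1 (abs_re_le_norm ((b - a) / a))).1
  rw [h1, add_re, one_re]
  linarith

/-- a piece that stays in the ball of centre `z m` through `0` turns by less than `π / 2` -/
theorem turn_near {z : ℕ → ℂ} {m m' : ℕ} (hm : m ≤ m')
    (h : ∀ i, m ≤ i → i ≤ m' → ‖z i - z m‖ < ‖z m‖) : |turn z m m'| < π / 2 :=
  (turn_half hm fun i h1 h2 => re_div_pos (h i h1 h2)).2

/-- **the greedy chain**: `s (j + 1)` = the first time after `s j` at a distance at least `r` from `z (s j)`; the turn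
is at most `(N + 1) π / 2`, `N` = the number of the steps of the chain. -/
theorem exists_chain {z : ℕ → ℂ} {r d : ℝ} {m m' : ℕ} (hr : 0 < r) (hd0 : 0 ≤ d) (hm : m ≤ m')
    (hd : ∀ i, m ≤ i → i < m' → ‖z (i + 1) - z i‖ ≤ d) (hz : ∀ i, m ≤ i → i ≤ m' → r + d ≤ ‖z i‖) :
    ∃ (N : ℕ) (s : ℕ → ℕ), s 0 = m ∧
      (∀ j, j < N → s j < s (j + 1) ∧ s (j + 1) ≤ m' ∧ r ≤ ‖z (s (j + 1)) - z (s j)‖ ∧
        ∀ i, s j ≤ i → i < s (j + 1) → ‖z i - z (s j)‖ < r) ∧
      |turn z m m'| ≤ (N + 1) * (π / 2) := by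
  classical
  obtain ⟨k, hk⟩ : ∃ k, m' - m = k := ⟨_, rfl⟩
  induction k using Nat.strong_induction_on generalizing m with
  | _ k ih =>
  by_cases hex : ∃ i, m ≤ i ∧ i ≤ m' ∧ r ≤ ‖z i - z m‖
  · set i0 := Nat.find hex with hi0
    obtain ⟨h1, h2, h3⟩ := Nat.find_spec hex
    rw [← hi0] at h1 h2 h3
    have hmin : ∀ i, m ≤ i → i < i0 → ‖z i - z m‖ < r := fun i h4 h5 => by
      by_contra h6
      exact Nat.find_min hex h5 ⟨h4, by omega, not_lt.1 h6⟩
    have hne : m ≠ i0 := by
      intro h4
      rw [← h4, sub_self, norm_zero] at h3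
      linarith
    have hlt : m < i0 := by omega
    obtain ⟨N, s, hs0, hs, ht⟩ := ih (m' - i0) (by omega) h2
      (fun i h4 h5 => hd i (by omega) h5) (fun i h4 h5 => hz i (by omega) h5) rfl
    refine ⟨N + 1, fun j => if j = 0 then m else s (j - 1), by simp, ?_, ?_⟩
    · intro j hj
      rcases Nat.eq_zero_or_pos j with h0 | h0
      · subst h0
        simp only [if_true, Nat.zero_add, one_ne_zero, if_false, Nat.sub_self, hs0]
        exact ⟨hlt, h2, h3, hmin⟩
      · have h5 := hs (j - 1) (by omega)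
        have h6 : j - 1 + 1 = j := by omega
        rw [h6] at h5
        simp only [if_neg (show j ≠ 0 by omega), if_neg (show j + 1 ≠ 0 by omega), Nat.add_sub_cancel]
        exact h5
    · rw [turn_add z hlt.le h2]
      refine (abs_add_le _ _).trans ?_
      have h7 : |turn z m i0| < π / 2 := by
        refine turn_near hlt.le fun i h8 h9 => ?_
        rcases h9.lt_or_eq with h10 | h10
        · have := hmin i h8 h10
          have := hz m le_rfl hm
          linarith
        · subst h10
          have h11 := hmin (i0 - 1) (by omega) (by omega)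
          have h12 := hd (i0 - 1) (by omega) (by omega)
          have h13 : i0 - 1 + 1 = i0 := by omega
          rw [h13] at h12
          have h14 : z i0 - z m = (z i0 - z (i0 - 1)) + (z (i0 - 1) - z m) := by ring
          have h15 := norm_add_le (z i0 - z (i0 - 1)) (z (i0 - 1) - z m)
          have := hz m le_rfl hm
          rw [h14]
          linarith
      push_cast
      linarith
  · push Not at hex
    refine ⟨0, fun _ => m, rfl, fun j hj => absurd hj (Nat.not_lt_zero _), ?_⟩
    have h7 : |turn z m m'| < π / 2 := by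
      refine turn_near hm fun i h8 h9 => ?_
      have := hex i h8 h9
      have := hz m le_rfl hm
      linarith
    push_cast
    linarith

/-- **the turn from a modulus**: times at a distance at most `L` have values at a distance less than `r`. -/
theorem turn_modulus {z : ℕ → ℂ} {r : ℝ} {L m m' : ℕ} (hL : 1 ≤ L) (hm : m ≤ m')
    (hd : ∀ i j, m ≤ i → i ≤ j → j ≤ m' → j ≤ i + L → ‖z j - z i‖ < r)
    (hz : ∀ i, m ≤ i → i ≤ m' → r ≤ ‖z i‖) :
    |turn z m m'| ≤ (((m' - m : ℕ) : ℝ) / L + 1) * (π / 2) := by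
  have hL' : (0 : ℝ) < L := by exact_mod_cast hL
  obtain ⟨k, hk⟩ : ∃ k, m' - m = k := ⟨_, rfl⟩
  induction k using Nat.strong_induction_on generalizing m with
  | _ k ih =>
  rw [hk]
  by_cases hkL : k ≤ L
  · have h7 : |turn z m m'| < π / 2 := by
      refine turn_near hm fun i h8 h9 => ?_
      have := hd m i le_rfl h8 h9 (by omega)
      have := hz m le_rfl hm
      linarith
    have h8 : 0 ≤ (k : ℝ) / L := by positivity
    nlinarith [Real.pi_pos]
  · have h1 : m + L ≤ m' := by omega
    have h2 := ih (m' - (m + L)) (by omega) h1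
      (fun i j h4 h5 h6 h7 => hd i j (by omega) h5 h6 h7) (fun i h4 h5 => hz i (by omega) h5) rfl
    rw [turn_add z (Nat.le_add_right m L) h1]
    refine (abs_add_le _ _).trans ?_
    have h7 : |turn z m (m + L)| < π / 2 := by
      refine turn_near (Nat.le_add_right m L) fun i h8 h9 => ?_
      have := hd m i le_rfl h8 (by omega) h9
      have := hz m le_rfl hm
      linarith
    have h8 : (((m' - (m + L) : ℕ) : ℝ)) / L + 1 = (k : ℝ) / L := by
      have h9 : ((m' - (m + L) : ℕ) : ℝ) = (k : ℝ) - L := by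
        have h10 : m' - (m + L) + L = k := by omega
        have h11 : ((m' - (m + L) : ℕ) : ℝ) + L = k := by exact_mod_cast h10
        linarith
      rw [h9]
      field_simp
      ring
    rw [h8] at h2
    linarith

/-- multiplication by `exp (h i)` -/
theorem turn_mul_exp {z v h : ℕ → ℂ} {m m' : ℕ} (hm : m ≤ m') (hv : ∀ i, m ≤ i → i ≤ m' → v i ≠ 0)
    (hz : ∀ i, m ≤ i → i ≤ m' → z i = v i * exp (h i))
    (hs : ∀ i, m ≤ i → i < m' → |arg (v (i + 1) / v i)| + |(h (i + 1)).im - (h i).im| < π) :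
    turn z m m' = turn v m m' + ((h m').im - (h m).im) := by
  induction m', hm using Nat.le_induction with
  | base => simp [turn_self]
  | succ n hn ih =>
    have h1 : arg (z (n + 1) / z n) = arg (v (n + 1) / v n) + ((h (n + 1)).im - (h n).im) := by
      have hvn := hv n hn (by omega)
      have hvn' := hv (n + 1) (by omega) le_rfl
      have h2 : z (n + 1) / z n = ((‖v (n + 1) / v n‖ * Real.exp ((h (n + 1)).re - (h n).re) : ℝ) : ℂ) *
          exp ((arg (v (n + 1) / v n) + ((h (n + 1)).im - (h n).im) : ℝ) * I) := by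
        rw [hz n hn (by omega), hz (n + 1) (by omega) le_rfl]
        have h3 : v (n + 1) * exp (h (n + 1)) / (v n * exp (h n)) =
            v (n + 1) / v n * exp (h (n + 1) - h n) := by
          rw [exp_sub]
          field_simp
        rw [h3]
        conv_lhs => rw [norm_mul_exp_arg (v (n + 1) / v n)]
        rw [ofReal_mul, mul_assoc, mul_assoc, ← exp_add, ofReal_exp, ← exp_add]
        congr 2
        rw [← re_add_im (h (n + 1) - h n)]
        simp only [sub_re, sub_im]
        push_cast
        ring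
      rw [h2, arg_mul_exp (mul_pos (norm_pos_iff.2 (div_ne_zero hvn' hvn)) (Real.exp_pos _))]
      exact (abs_add_le _ _).trans_lt (hs n hn (by omega))
    rw [turn_succ _ hn, turn_succ _ hn, ih (fun i h1 h2 => hv i h1 (by omega)) (fun i h1 h2 => hz i h1 (by omega))
      (fun i h1 h2 => hs i h1 (by omega)), h1]
    ring

/-- a step shorter than the hypotenuse turns by less than `π / 2` -/
theorem arg_step {a b : ℂ} (h : ‖b - a‖ ^ 2 < ‖a‖ ^ 2 + ‖b‖ ^ 2) (ha : a ≠ 0) : |arg (b / a)| < π / 2 := by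
  rw [abs_arg_lt_pi_div_two_iff]
  refine Or.inl ?_
  have h1 : (b / a).re = (b.re * a.re + b.im * a.im) / normSq a := by
    rw [div_re]
    field_simp
  rw [h1]
  refine div_pos ?_ (normSq_pos.2 ha)
  rw [← normSq_eq_norm_sq, ← normSq_eq_norm_sq, ← normSq_eq_norm_sq, normSq_apply, normSq_apply, normSq_apply,
    sub_re, sub_im] at h
  nlinarith

theorem abs_arg_le_quarter {x : ℂ} (h : |x.im| ≤ x.re) : |arg x| ≤ π / 4 := by
  rcases eq_or_ne x 0 with h0 | h0
  · rw [h0, arg_zero, abs_zero]
    positivity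
  have hre : 0 < x.re := by
    rcases (le_trans (abs_nonneg _) h).lt_or_eq with h1 | h1
    · exact h1
    · exfalso
      apply h0
      rw [← h1] at h
      have h2 : x.im = 0 := abs_eq_zero.1 (le_antisymm h (abs_nonneg _))
      exact Complex.ext (by simpa using h1.symm) (by simpa using h2)
  have h1 : arg x = Real.arctan (x.im / x.re) := by
    have h2 : |arg x| < π / 2 := by
      rw [abs_arg_lt_pi_div_two_iff]
      exact Or.inl hre
    rw [abs_lt] at h2
    rw [← tan_arg x, Real.arctan_tan h2.1 h2.2]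
  rw [h1, abs_le]
  rw [abs_le] at h
  constructor
  · rw [← Real.arctan_one, ← Real.arctan_neg]
    refine Real.arctan_strictMono.monotone ?_
    rw [le_div_iff₀ hre]
    linarith [h.1]
  · rw [← Real.arctan_one]
    refine Real.arctan_strictMono.monotone ?_
    rw [div_le_iff₀ hre]
    linarith [h.2]

/-- **change of the centre**: unit steps, all the vertices at a distance at least `1` from the centre `p`, the other
centre `q` at a distance at most `1 / 2` from `p`. -/
theorem turn_centre {z : ℕ → ℂ} {p q : ℂ} {m m' : ℕ} (hm : m ≤ m') (hpq : ‖q - p‖ ≤ 1 / 2)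
    (hz : ∀ i, m ≤ i → i ≤ m' → 1 ≤ ‖z i - p‖) (hs : ∀ i, m ≤ i → i < m' → ‖z (i + 1) - z i‖ ≤ 1) :
    |turn (fun i => z i - q) m m' - turn (fun i => z i - p) m m'| ≤ π / 2 := by
  have h0 : ∀ i, m ≤ i → i ≤ m' → z i - p ≠ 0 := fun i h1 h2 h3 => by
    have := hz i h1 h2
    rw [h3, norm_zero] at this
    linarith
  have hx : ∀ i, m ≤ i → i ≤ m' → ‖(q - p) / (z i - p)‖ ≤ 1 / 2 := fun i h1 h2 => by
    rw [norm_div, div_le_iff₀ (by linarith [hz i h1 h2])]
    nlinarith [hz i h1 h2]
  have hq : ∀ i, m ≤ i → i ≤ m' → |arg (1 - (q - p) / (z i - p))| ≤ π / 4 := fun i h1 h2 => by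
    refine abs_arg_le_quarter ?_
    have h3 := hx i h1 h2
    have h4 := (abs_le.1 ((abs_re_le_norm _).trans h3)).2
    have h5 := (abs_im_le_norm _).trans h3
    rw [sub_im, sub_re, one_im, one_re, zero_sub, abs_neg]
    linarith
  have hne : ∀ i, m ≤ i → i ≤ m' → 1 - (q - p) / (z i - p) ≠ 0 := fun i h1 h2 h3 => by
    have h4 := hx i h1 h2
    rw [sub_eq_zero] at h3
    rw [← h3, norm_one] at h4
    linarith
  have h1 : turn (fun i => z i - q) m m' = turn (fun i => z i - p) m m' +
      ((log (1 - (q - p) / (z m' - p))).im - (log (1 - (q - p) / (z m - p))).im) := by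
    refine turn_mul_exp (h := fun i => log (1 - (q - p) / (z i - p))) hm h0 ?_ ?_
    · intro i h2 h3
      rw [exp_log (hne i h2 h3)]
      have := h0 i h2 h3
      field_simp
      ring
    · intro i h2 h3
      simp only [log_im]
      have h4 : |arg ((z (i + 1) - p) / (z i - p))| < π / 2 := by
        refine arg_step ?_ (h0 i h2 h3.le)
        have h5 : z (i + 1) - p - (z i - p) = z (i + 1) - z i := by ring
        rw [h5]
        have h6 := hs i h2 h3
        have h7 := hz i h2 h3.le
        have h8 := hz (i + 1) (by omega) h3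
        nlinarith [norm_nonneg (z (i + 1) - z i)]
      have h5 := hq i h2 h3.le
      have h6 := hq (i + 1) (by omega) h3
      have h7 := abs_sub (arg (1 - (q - p) / (z (i + 1) - p))) (arg (1 - (q - p) / (z i - p)))
      linarith
  rw [h1, add_sub_cancel_left, log_im, log_im]
  refine (abs_sub _ _).trans ?_
  have := hq m le_rfl hm
  have := hq m' hm le_rfl
  linarith

/-- the reversed sequence -/
theorem turn_rev {z : ℕ → ℂ} {n m m' : ℕ} (hn : m' ≤ n) (hm : m ≤ m')
    (h : ∀ i, m ≤ i → i < m' → arg (z (i + 1) / z i) ≠ π) :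
    turn (fun i => z (n - i)) (n - m') (n - m) = - turn z m m' := by
  have h1 : turn (fun i => z (n - i)) (n - m') (n - m) =
      ∑ j ∈ Ico (n - m') (n - m), (fun l => arg (z (l - 1) / z l)) (n - j) := by
    unfold turn
    refine sum_congr rfl fun j _ => ?_
    simp only
    rw [show n - (j + 1) = n - j - 1 by omega]
  have h3 := sum_Ico_reflect (fun l => arg (z (l - 1) / z l)) (n - m') (by omega : n - m ≤ n + 1)
  rw [h1, h3, show n + 1 - (n - m) = m + 1 by omega, show n + 1 - (n - m') = m' + 1 by omega]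
  have h2 := sum_Ico_add' (fun l => arg (z (l - 1) / z l)) m m' 1
  rw [← h2]
  unfold turn
  rw [← sum_neg_distrib]
  refine sum_congr rfl fun j hj => ?_
  rw [mem_Ico] at hj
  rw [Nat.add_sub_cancel, ← inv_div, arg_inv, if_neg (h j hj.1 hj.2)]

end HexObs.PWd

end
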