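import Pool.Agent.PW.DictT
import Pool.Agent.PW.Wind
import Pool.Agent.NT.Dict

/-!
# PW: reversal of the words of the cylinder (helper41)

The words of `TT k` start in the direction `up`, behind the last letter they look in the direction `(1, -1)` of the cut
edge. The reversed walk starts in the direction `up` if the last letter is `true`; otherwise its mirror image does.

* `revT` : this involution of `TT k`; `vx_revT` : its vertices; `tsum_revT`, `sum_revT`;
* `turn_revT` : the turn of the reversed word around its start is (up to the sign, the last letter) the turn of the word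
  around its end.
-/

set_option autoImplicit false

noncomputable section

namespace HexObs

namespace PWT

open SDN LP TPC PWd

open NTF (JJ JJ_re JJ_im JJ_add JJ_sub JJ_neg JJ_norm)

variable {k : ℕ}

/-- the mirror that exchanges the ends -/
def mir (x : Bool) (p : Pt) : Pt := if x then p else (-p.2, -p.1)

theorem mir_mir (x : Bool) (p : Pt) : mir x (mir x p) = p := by
  cases x <;> simp [mir]

theorem mir_sub (x : Bool) (p q : Pt) : mir x (p - q) = mir x p - mir x q := by
  cases x
  · refine Prod.ext ?_ ?_ <;> simp only [mir, Bool.false_eq_true, if_false, Prod.fst_sub, Prod.snd_sub] <;> ring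
  · simp [mir]

theorem mir_add (x : Bool) (p q : Pt) : mir x (p + q) = mir x p + mir x q := by
  cases x
  · refine Prod.ext ?_ ?_ <;> simp only [mir, Bool.false_eq_true, if_false, Prod.fst_add, Prod.snd_add] <;> ring
  · simp [mir]

theorem mir_inj (x : Bool) {p q : Pt} (h : mir x p = mir x q) : p = q := by
  rw [← mir_mir x p, h, mir_mir]

theorem mir_cut (x : Bool) : mir x (1, -1) = (1, -1) := by cases x <;> rfl

theorem mir_diag (x : Bool) (a : ℤ) : mir x (a, a) = ((if x then 1 else -1) * a, (if x then 1 else -1) * a) := by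
  cases x <;> simp [mir]

/-- the reversed word -/
def revT (t : List Bool) : List Bool :=
  if t.getLast? = some true then rev t.dropLast ++ [true] else t.dropLast.reverse ++ [false]

theorem revT_app (r : List Bool) (x : Bool) : revT (r ++ [x]) = (if x then rev r else r.reverse) ++ [x] := by
  unfold revT
  cases x <;> simp

theorem revT_revT {t : List Bool} (ht : t ≠ []) : revT (revT t) = t := by
  obtain ⟨r, x, rfl⟩ : ∃ r x, t = r ++ [x] := ⟨t.dropLast, t.getLast ht, (List.dropLast_append_getLast ht).symm⟩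
  rw [revT_app, revT_app]
  cases x
  · simp
  · simp [rev_rev]

theorem revT_length {t : List Bool} (ht : t ≠ []) : (revT t).length = t.length := by
  obtain ⟨r, x, rfl⟩ : ∃ r x, t = r ++ [x] := ⟨t.dropLast, t.getLast ht, (List.dropLast_append_getLast ht).symm⟩
  rw [revT_app]
  cases x
  · simp
  · simp [rev_length]

theorem revT_ne {t : List Bool} : revT t ≠ [] := by
  unfold revT
  split_ifs <;> simp

/-- the frame with the half edge in front of the walk -/
theorem W_vx (t : List Bool) (i : ℕ) : vx (1, -1) (-1, 1) (false :: t) (i + 1) = vx oo up t i := by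
  rw [vx_co]
  rfl

theorem W_dx (t : List Bool) (i : ℕ) : dx (-1, 1) (false :: t) (i + 1) = dx up t i := by
  have h1 := W_vx t i
  have h2 := W_vx t (i + 1)
  have h3 : vx (1, -1) (-1, 1) (false :: t) (i + 1 + 1) =
    vx (1, -1) (-1, 1) (false :: t) (i + 1) + dx (-1, 1) (false :: t) (i + 1) := rfl
  have h4 : vx oo up t (i + 1) = vx oo up t i + dx up t i := rfl
  rw [h2, h1, h4] at h3
  exact (add_left_cancel h3).symm

/-- **the vertices of the reversed word** -/
theorem vx_revT {r : List Bool} {x : Bool} (hde : dx up (r ++ [x]) (r ++ [x]).length = (1, -1)) {i : ℕ}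
    (hi : i ≤ (r ++ [x]).length + 1) : mir x (vx oo up (revT (r ++ [x])) i) =
      vx (1, -1) (-1, 1) (false :: (r ++ [x])) ((r ++ [x]).length + 1 - i) - vx oo up (r ++ [x]) (r ++ [x]).length := by
  obtain ⟨t, ht⟩ : ∃ t, t = r ++ [x] := ⟨_, rfl⟩
  rw [← ht] at hde hi ⊢
  obtain ⟨y, hy⟩ : ∃ y, y = vx oo up t t.length := ⟨_, rfl⟩
  have htip : tip (1, -1) (-1, 1) (false :: t) = y + (1, -1) := by
    unfold tip
    rw [List.length_cons, W_vx]
    show vx oo up t t.length + dx up t t.length = _
    rw [hde, hy]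
  have hd : -(dx (-1, 1) (false :: t) (false :: t).length) = (-1, 1) := by
    rw [List.length_cons, W_dx, hde]
    rfl
  have key := vx_rev (1, -1) (-1, 1) (false :: t) (i + 1) (by rw [List.length_cons]; omega)
  rw [htip, hd] at key
  have e1 : (false :: t).length + 1 - (i + 1) = t.length + 1 - i := by rw [List.length_cons]; omega
  rw [e1] at key
  rw [← key, ← hy]
  cases x
  · have e2 : rev (false :: t) = true :: (revT t).map not := by
      rw [ht, revT_app]
      simp [rev, List.map_reverse]
    have e3 : turn true (-1, 1) = mulE (-1, 1) up := by decide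
    have e4 : y + (1, -1) + (-1, 1) = y := by
      rw [add_assoc]
      simp
    rw [e2, vx_co, e3, e4]
    have h := vx_mulE (-1, 1) oo y up ((revT t).map not) i
    have hl : (revT t).length = t.length := revT_length (by rw [ht]; simp)
    rw [h, vx_not _ (by rw [hl]; exact hi), add_sub_cancel_left]
    refine Prod.ext ?_ ?_ <;>
      simp only [mir, mulE, oo, Bool.false_eq_true, if_false, Prod.fst_sub, Prod.snd_sub] <;> ring
  · have e2 : rev (false :: t) = false :: revT t := by
      rw [ht, revT_app]
      simp [rev]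
    have e3 : turn false (-1, 1) = mulE (1, 0) up := by decide
    have e4 : y + (1, -1) + (-1, 1) = y := by
      rw [add_assoc]
      simp
    rw [e2, vx_co, e3, e4]
    have h := vx_mulE (1, 0) oo y up (revT t) i
    rw [h, add_sub_cancel_left]
    refine Prod.ext ?_ ?_ <;> simp only [mir, mulE, oo, if_true, Prod.fst_sub, Prod.snd_sub] <;> ring

/-- the vertices of the reversed word, without the half edge -/
theorem vx_revT' {r : List Bool} {x : Bool} (hde : dx up (r ++ [x]) (r ++ [x]).length = (1, -1)) {i : ℕ}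
    (hi : i ≤ (r ++ [x]).length) : mir x (vx oo up (revT (r ++ [x])) i) =
      vx oo up (r ++ [x]) ((r ++ [x]).length - i) - vx oo up (r ++ [x]) (r ++ [x]).length := by
  rw [vx_revT hde (by omega)]
  have e : (r ++ [x]).length + 1 - i = (r ++ [x]).length - i + 1 := by omega
  rw [e, W_vx]

/-- **reversal of the words of the cylinder** -/
theorem revT_mem {t : List Bool} (ht : t ∈ TT k) : revT t ∈ TT k := by
  have hne : t ≠ [] := ne_nil ht
  obtain ⟨r, x, rfl⟩ : ∃ r x, t = r ++ [x] := ⟨t.dropLast, t.getLast hne, (List.dropLast_append_getLast hne).symm⟩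
  obtain ⟨h1, h2, ⟨z, h3⟩, h4⟩ := ht
  have hl := revT_length hne
  have hv : ∀ i, i ≤ (r ++ [x]).length → mir x (vx oo up (revT (r ++ [x])) i) =
      vx oo up (r ++ [x]) ((r ++ [x]).length - i) - vx oo up (r ++ [x]) (r ++ [x]).length := fun i hi => vx_revT' h4 hi
  have hend : vx oo up (revT (r ++ [x])) (r ++ [x]).length =
      mir x (-(((2 * z + 1) * k, (2 * z + 1) * k) : Pt)) := by
    apply mir_inj x
    rw [hv _ le_rfl, mir_mir, Nat.sub_self, h3]
    have : vx oo up (r ++ [x]) 0 = 0 := rfl
    rw [this, zero_sub]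
  refine ⟨⟨fun i _ _ => Set.mem_univ _, fun i j hij hj e => ?_⟩, fun i j hi hj m hm e => ?_, ?_, ?_⟩
  · rw [hl] at hj
    have e1 := congrArg (mir x) e
    rw [hv i (by omega), hv j hj] at e1
    have e2 := sub_left_inj.1 e1
    exact h1.2 _ _ (by omega) (by omega) e2.symm
  · rw [hl] at hi hj
    have e1 := congrArg (mir x) e
    rw [mir_add, hv i hi, hv j hj, mir_diag] at e1
    refine h2 ((r ++ [x]).length - i) ((r ++ [x]).length - j) (by omega) (by omega) ((if x then 1 else -1) * m) ?_ ?_
    · cases x <;> simpa using hm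
    · have e3 := congrArg Prod.fst e1
      have e4 := congrArg Prod.snd e1
      simp only [Prod.fst_add, Prod.snd_add, Prod.fst_sub, Prod.snd_sub] at e3 e4
      refine Prod.ext ?_ ?_ <;> simp only [Prod.fst_add, Prod.snd_add] <;> linarith
  · rw [hl, hend]
    cases x
    · refine ⟨z, Prod.ext ?_ ?_⟩ <;> simp only [mir, Bool.false_eq_true, if_false, Prod.neg_mk, neg_neg]
    · refine ⟨-z - 1, Prod.ext ?_ ?_⟩ <;> simp only [mir, if_true, Prod.neg_mk] <;> ring
  · rw [hl]
    have e1 := vx_revT h4 (i := (r ++ [x]).length + 1) le_rfl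
    rw [Nat.sub_self] at e1
    have e2 : vx (1, -1) (-1, 1) (false :: (r ++ [x])) 0 = (1, -1) := rfl
    have e3 : vx oo up (revT (r ++ [x])) ((r ++ [x]).length + 1) =
      vx oo up (revT (r ++ [x])) (r ++ [x]).length + dx up (revT (r ++ [x])) (r ++ [x]).length := rfl
    have e4 := hv _ le_rfl
    rw [Nat.sub_self] at e4
    have e5 : vx oo up (r ++ [x]) 0 = 0 := rfl
    rw [e3, mir_add, e4, e2, e5, zero_sub] at e1
    apply mir_inj x
    rw [mir_cut]
    have e6 : -vx oo up (r ++ [x]) (r ++ [x]).length + mir x (dx up (revT (r ++ [x])) (r ++ [x]).length) +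
        vx oo up (r ++ [x]) (r ++ [x]).length = (1, -1) := by
      rw [e1, sub_add_cancel]
    rw [add_right_comm, neg_add_cancel, zero_add] at e6
    exact e6

/-- the involution -/
def revE (k : ℕ) : TT k ≃ TT k where
  toFun t := ⟨revT t.1, revT_mem t.2⟩
  invFun t := ⟨revT t.1, revT_mem t.2⟩
  left_inv t := Subtype.ext (revT_revT (ne_nil t.2))
  right_inv t := Subtype.ext (revT_revT (ne_nil t.2))

/-- a sum over the words of the cylinder -/
theorem tsum_revT (f : List Bool → ℝ) : ∑' t : TT k, xc ^ t.1.length * f (revT t.1) = ∑' t : TT k, xc ^ t.1.length * f t.1 := by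
  rw [← (revE k).tsum_eq (fun t : TT k => xc ^ t.1.length * f t.1)]
  refine tsum_congr fun t => ?_
  show _ = xc ^ (revT t.1).length * f (revT t.1)
  rw [revT_length (ne_nil t.2)]

/-! ### turns -/

theorem JJ_mir_false (p : Pt) : JJ (mir false p) = -(JJ (1, 0)) * (starRingEnd ℂ) (JJ p) := by
  have h : Real.sqrt 3 * Real.sqrt 3 = 3 := Real.mul_self_sqrt (by norm_num)
  apply Complex.ext
  · simp only [JJ_re, JJ_im, mir, Bool.false_eq_true, if_false, Complex.mul_re, Complex.neg_re, Complex.neg_im,
      Complex.conj_re, Complex.conj_im]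
    push_cast
    linear_combination ((p.1 : ℝ) / 4) * h
  · simp only [JJ_re, JJ_im, mir, Bool.false_eq_true, if_false, Complex.mul_im, Complex.neg_re, Complex.neg_im,
      Complex.conj_re, Complex.conj_im]
    push_cast
    ring

theorem one_le_norm {p : Pt} (h : p ≠ 0) : 1 ≤ ‖JJ p‖ := by
  have h1 : (1 : ℤ) ≤ nrm p := by
    by_contra hcon
    have h2 : nrm p ≤ 0 := by omega
    unfold nrm at h2
    have h3 : p.1 = 0 := by nlinarith [sq_nonneg (p.1 + 2 * p.2), sq_nonneg p.1, sq_nonneg (2 * p.1 + p.2)]
    have h4 : p.2 = 0 := by nlinarith [sq_nonneg (p.1 + 2 * p.2), sq_nonneg p.2, sq_nonneg (2 * p.1 + p.2)]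
    exact h (Prod.ext h3 h4)
  have h2 : (1 : ℝ) ≤ ‖JJ p‖ ^ 2 := by
    rw [JJ_norm]
    exact_mod_cast h1
  nlinarith [norm_nonneg (JJ p)]

theorem norm_step (t : List Bool) (i : ℕ) : ‖JJ (vx oo up t (i + 1)) - JJ (vx oo up t i)‖ = 1 := by
  have e : vx oo up t (i + 1) = vx oo up t i + dx up t i := rfl
  rw [← JJ_sub, e, add_sub_cancel_left]
  have h1 : nrm (dx up t i) = 1 := mem_dirs.1 (ds_mem (by decide) i)
  have h2 := JJ_norm (dx up t i)
  rw [h1, Int.cast_one] at h2
  nlinarith [norm_nonneg (JJ (dx up t i))]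

/-- the angle of a step seen from another vertex -/
theorem arg_step_lt {t : List Bool} {i : ℕ} {p : Pt} (h1 : vx oo up t i ≠ p) (h2 : vx oo up t (i + 1) ≠ p) :
    |((JJ (vx oo up t (i + 1)) - JJ p) / (JJ (vx oo up t i) - JJ p)).arg| < Real.pi / 2 := by
  have a1 := one_le_norm (sub_ne_zero.2 h1)
  have a2 := one_le_norm (sub_ne_zero.2 h2)
  rw [JJ_sub] at a1 a2
  refine arg_step ?_ ?_
  · rw [sub_sub_sub_cancel_right, norm_step]
    nlinarith
  · intro h
    rw [h, norm_zero] at a1
    linarith

theorem turn_conj {z : ℕ → ℂ} {m m' : ℕ} (h : ∀ i, m ≤ i → i < m' → (z (i + 1) / z i).arg ≠ Real.pi) :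
    PWd.turn (fun i => (starRingEnd ℂ) (z i)) m m' = -PWd.turn z m m' := by
  unfold PWd.turn
  rw [← Finset.sum_neg_distrib]
  refine Finset.sum_congr rfl fun i hi => ?_
  rw [Finset.mem_Ico] at hi
  rw [← map_div₀, Complex.arg_conj, if_neg (h i hi.1 hi.2)]

/-- **the turn of the reversed word around its start** -/
theorem turn_revT {r : List Bool} {x : Bool} (ht : r ++ [x] ∈ TT k) {a b : ℕ} (ha : 1 ≤ a) (hab : a ≤ b)
    (hb : b ≤ (r ++ [x]).length) : PWd.turn (fun i => JJ (vx oo up (revT (r ++ [x])) i)) a b =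
      (if x then -1 else 1) * PWd.turn (fun i => JJ (vx oo up (r ++ [x]) i) - JJ (vx oo up (r ++ [x]) (r ++ [x]).length))
        ((r ++ [x]).length - b) ((r ++ [x]).length - a) := by
  obtain ⟨t, het⟩ : ∃ t, t = r ++ [x] := ⟨_, rfl⟩
  have hSA : t ∈ SA := by
    rw [het]
    exact ht.1
  have hv : ∀ i, i ≤ t.length → mir x (vx oo up (revT t) i) = vx oo up t (t.length - i) - vx oo up t t.length := by
    intro i hi
    rw [het] at hi ⊢
    exact vx_revT' ht.2.2.2 hi
  rw [← het] at hb ⊢
  set u : ℕ → ℂ := fun i => JJ (vx oo up t i) - JJ (vx oo up t t.length) with hu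
  have harg : ∀ i, t.length - b ≤ i → i < t.length - a → (u (i + 1) / u i).arg ≠ Real.pi := by
    intro i h1 h2 h3
    have h4 := arg_step_lt (t := t) (i := i) (p := vx oo up t t.length) (hSA.2 _ _ (by omega) le_rfl)
      (hSA.2 _ _ (by omega) le_rfl)
    change |(u (i + 1) / u i).arg| < _ at h4
    rw [h3, abs_of_pos Real.pi_pos] at h4
    linarith [Real.pi_pos]
  have hrev := turn_rev (z := u) (n := t.length) (m := t.length - b) (m' := t.length - a) (by omega) (by omega) harg
  rw [show t.length - (t.length - a) = a by omega, show t.length - (t.length - b) = b by omega] at hrev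
  cases x
  · have e1 : PWd.turn (fun i => JJ (vx oo up (revT t) i)) a b =
        PWd.turn (fun i => -(JJ (1, 0)) * (starRingEnd ℂ) (u (t.length - i))) a b := by
      refine turn_congr fun i h1 h2 => ?_
      have h3 := hv i (by omega)
      have h4 : vx oo up (revT t) i = mir false (vx oo up t (t.length - i) - vx oo up t t.length) := by
        rw [← h3, mir_mir]
      rw [h4, JJ_mir_false, JJ_sub]
    have hne : -(JJ (1, 0)) ≠ 0 := by
      intro h
      have h1 := one_le_norm (p := (1, 0)) (by decide)
      rw [neg_eq_zero] at h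
      rw [h, norm_zero] at h1
      linarith
    rw [e1, turn_smul hne, turn_conj, hrev]
    · simp
    · intro i h1 h2 h3
      have h4 := arg_step_lt (t := t) (i := t.length - i - 1) (p := vx oo up t t.length) (hSA.2 _ _ (by omega) le_rfl)
        (hSA.2 _ _ (by omega) le_rfl)
      rw [show t.length - i - 1 + 1 = t.length - i by omega] at h4
      change |(u (t.length - i) / u (t.length - i - 1)).arg| < _ at h4
      rw [show t.length - (i + 1) = t.length - i - 1 by omega] at h3
      have h5 : |(u (t.length - i - 1) / u (t.length - i)).arg| = |(u (t.length - i) / u (t.length - i - 1)).arg| := by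
        rw [← inv_div, Complex.arg_inv]
        split_ifs with h6
        · rw [h6]
        · rw [abs_neg]
      rw [h3, abs_of_pos Real.pi_pos] at h5
      rw [← h5] at h4
      linarith [Real.pi_pos]
  · have e1 : PWd.turn (fun i => JJ (vx oo up (revT t) i)) a b = PWd.turn (fun i => u (t.length - i)) a b := by
      refine turn_congr fun i h1 h2 => ?_
      have h3 := hv i (by omega)
      simp only [mir, if_true] at h3
      rw [h3, JJ_sub]
    rw [e1, hrev]
    simp

/-! ### distances -/

theorem hn_mir (x : Bool) (p : Pt) : TIW.hn (mir x p) = TIW.hn p := by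
  cases x
  · have e1 : ip (mir false p) up = -ip p (rotR up) := by
      simp only [ip, mir, rotR, up, Bool.false_eq_true, if_false]
      ring
    have e2 : ip (mir false p) (rotL up) = ip p (rotL up) := by
      simp only [ip, mir, rotL, up, Bool.false_eq_true, if_false]
      ring
    have e3 : ip (mir false p) (rotR up) = -ip p up := by
      simp only [ip, mir, rotR, up, Bool.false_eq_true, if_false]
      ring
    unfold TIW.hn
    rw [e1, e2, e3, abs_neg, abs_neg]
    rw [max_left_comm, max_comm |ip p (rotR up)| |ip p up|, max_left_comm]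
  · rfl

theorem nrm_mir (x : Bool) (p : Pt) : nrm (mir x p) = nrm p := by
  cases x
  · simp only [nrm, mir, Bool.false_eq_true, if_false]
    ring
  · rfl

/-- the last letter of a nonempty word -/
theorem exists_app {t : List Bool} (ht : t ≠ []) : ∃ r x, t = r ++ [x] :=
  ⟨t.dropLast, t.getLast ht, (List.dropLast_append_getLast ht).symm⟩

/-- differences of the vertices of the reversed word, with a translate -/
theorem revT_diff {t : List Bool} (ht : t ∈ TT k) : ∃ (x : Bool) (s : ℤ), (s = 1 ∨ s = -1) ∧
    ∀ i j, i ≤ t.length → j ≤ t.length → ∀ m : ℤ,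
      vx oo up (revT t) i + (2 * (k : ℤ) * m, 2 * (k : ℤ) * m) - vx oo up (revT t) j =
        mir x (vx oo up t (t.length - i) + (2 * (k : ℤ) * (s * m), 2 * (k : ℤ) * (s * m)) - vx oo up t (t.length - j)) := by
  obtain ⟨r, x, het⟩ := exists_app (ne_nil ht)
  have h4 := ht.2.2.2
  refine ⟨x, if x then 1 else -1, by cases x <;> simp, fun i j hi hj m => ?_⟩
  rw [het] at hi hj h4 ⊢
  have h1 := vx_revT' h4 hi
  have h2 := vx_revT' h4 hj
  apply mir_inj x
  rw [mir_mir, mir_sub, mir_add, h1, h2, mir_diag]
  refine Prod.ext ?_ ?_ <;> simp only [Prod.fst_add, Prod.snd_add, Prod.fst_sub, Prod.snd_sub] <;> cases x <;>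
    simp <;> ring

/-- **distances in the reversed word**, with a translate -/
theorem hn_revT {t : List Bool} (ht : t ∈ TT k) : ∃ s : ℤ, (s = 1 ∨ s = -1) ∧ ∀ i j, i ≤ t.length → j ≤ t.length →
    ∀ m : ℤ, TIW.hn (vx oo up (revT t) i + (2 * (k : ℤ) * m, 2 * (k : ℤ) * m) - vx oo up (revT t) j) =
      TIW.hn (vx oo up t (t.length - i) + (2 * (k : ℤ) * (s * m), 2 * (k : ℤ) * (s * m)) - vx oo up t (t.length - j)) := by
  obtain ⟨x, s, hs, h⟩ := revT_diff ht
  exact ⟨s, hs, fun i j hi hj m => by rw [h i j hi hj m, hn_mir]⟩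

/-- the same with `nrm` -/
theorem nrm_revT {t : List Bool} (ht : t ∈ TT k) : ∃ s : ℤ, (s = 1 ∨ s = -1) ∧ ∀ i j, i ≤ t.length → j ≤ t.length →
    ∀ m : ℤ, nrm (vx oo up (revT t) i + (2 * (k : ℤ) * m, 2 * (k : ℤ) * m) - vx oo up (revT t) j) =
      nrm (vx oo up t (t.length - i) + (2 * (k : ℤ) * (s * m), 2 * (k : ℤ) * (s * m)) - vx oo up t (t.length - j)) := by
  obtain ⟨x, s, hs, h⟩ := revT_diff ht
  exact ⟨s, hs, fun i j hi hj m => by rw [h i j hi hj m, nrm_mir]⟩

theorem hn_revT' {t : List Bool} (ht : t ∈ TT k) {i j : ℕ} (hi : i ≤ t.length) (hj : j ≤ t.length) :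
    TIW.hn (vx oo up (revT t) i - vx oo up (revT t) j) =
      TIW.hn (vx oo up t (t.length - i) - vx oo up t (t.length - j)) := by
  obtain ⟨s, -, h⟩ := hn_revT ht
  have h1 := h i j hi hj 0
  have e : ((0, 0) : Pt) = 0 := rfl
  simpa only [mul_zero, e, add_zero] using h1

theorem revT_inj : Set.InjOn revT (TT k) := fun t ht t' ht' h => by
  rw [← revT_revT (ne_nil ht), h, revT_revT (ne_nil ht')]

/-- the mass of a set of words of the cylinder and of their reversals -/
theorem gf_revT (P : List Bool → Prop) : gf {t | t ∈ TT k ∧ P (revT t)} = gf {t | t ∈ TT k ∧ P t} := by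
  apply le_antisymm
  · have := gf_le_of_inj (P := {t | t ∈ TT k ∧ P (revT t)}) (Q := {t | t ∈ TT k ∧ P t}) revT
      (fun t ht => ⟨revT_mem ht.1, ht.2⟩) (fun t ht t' ht' h => revT_inj ht.1 ht'.1 h) 1 (by
        intro t ht
        rw [one_mul]
        unfold wE
        rw [revT_length (ne_nil ht.1)])
    rwa [one_mul] at this
  · have := gf_le_of_inj (Q := {t | t ∈ TT k ∧ P (revT t)}) (P := {t | t ∈ TT k ∧ P t}) revT
      (fun t ht => ⟨revT_mem ht.1, by
        show P (revT (revT t))
        rw [revT_revT (ne_nil ht.1)]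
        exact ht.2⟩) (fun t ht t' ht' h => revT_inj ht.1 ht'.1 h) 1 (by
        intro t ht
        rw [one_mul]
        unfold wE
        rw [revT_length (ne_nil ht.1)])
    rwa [one_mul] at this

/-- the winding angle of a word, without proof argument -/
def thW (k : ℕ) (t : List Bool) : ℝ := Pool.Agent.CylSaw.ang k t.length (Pool.Agent.CylSaw.wk k t.length (false :: t))

theorem thC_eq (hk : 1 ≤ k) (t : TT k) : thC hk t = thW k t.1 := rfl

end PWT

end HexObs

end
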