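import Pool.Agent.PW.RevM
import Pool.Agent.PW.Inner
import Pool.Agent.RSWP.Moments

/-!
# PW, row F (helper16): functionals of the path seen from one end

A path functional `Q m z`: `m` = number of steps, `z` = the path, `z 0 = 0`. `qS Q t` = its value for the word `t` seen from the
start, `qE Q t` = seen from the end.

* `PF Q` : depends only on `z i`, `i ≤ m`, does not change under the six rotations; `sum_PF` : the same sum for both ends;
* `InnP r Q` : depends only on the path up to the first exit from the disc of radius `r`, does not change under rotations;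
  `InnP.inn` : `Inn b (qE Q)` for `r = 2 ^ (b - 1)`;
* `ex r m z` : the first exit; `th r m z` : the winding up to the first exit; `thP` : `cos` and `sin` of it.
-/

set_option autoImplicit false

noncomputable section

namespace NTSF

open Finset

open HexObs hiding pos

open HexObs.TIW HexObs.SDN HexObs.PWd

open Pool.Agent.NTS.Res Pool.Agent.PW.Res

open NTF (sw JJ JJ_norm JJ_sub JJ_add)

/-! ### 1. Path functionals -/

/-- the functional at the path seen from the start -/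
def qS (Q : ℕ → (ℕ → ℂ) → ℝ) (t : List Bool) : ℝ := Q t.length (pS t)

/-- the functional at the path seen from the end -/
def qE (Q : ℕ → (ℕ → ℂ) → ℝ) (t : List Bool) : ℝ := Q t.length (pE t.length t)

/-- functionals of the path that do not change under the six rotations -/
structure PF (Q : ℕ → (ℕ → ℂ) → ℝ) : Prop where
  rot : ∀ m z, Q m (fun i => om * z i) = Q m z
  neg : ∀ m z, Q m (fun i => -z i) = Q m z
  loc : ∀ m z z', (∀ i, i ≤ m → z i = z' i) → Q m z = Q m z'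

/-- functionals of the path up to its first exit from the disc of radius r -/
structure InnP (r : ℝ) (Q : ℕ → (ℕ → ℂ) → ℝ) : Prop where
  rot : ∀ m z (c : ℂ), ‖c‖ = 1 → Q m (fun i => c * z i) = Q m z
  loc : ∀ m z z', (∀ i, i ≤ m → z i = z' i) → Q m z = Q m z'
  inn : ∀ m m' z z' e, e ≤ m → e ≤ m' → r ≤ ‖z e‖ → (∀ i, i ≤ e → z i = z' i) → Q m z = Q m' z'

theorem InnP.pf {r : ℝ} {Q : ℕ → (ℕ → ℂ) → ℝ} (h : InnP r Q) : PF Q where
  rot := fun m z => h.rot m z om om_norm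
  neg := fun m z => by
    have := h.rot m z (-1) (by simp)
    simpa using this
  loc := h.loc

theorem InnP.mono {r r' : ℝ} {Q : ℕ → (ℕ → ℂ) → ℝ} (h : InnP r Q) (hr : r ≤ r') : InnP r' Q where
  rot := h.rot
  loc := h.loc
  inn := fun m m' z z' e he he' hz hi => h.inn m m' z z' e he he' (hr.trans hz) hi

theorem PF.mul {Q Q' : ℕ → (ℕ → ℂ) → ℝ} (h : PF Q) (h' : PF Q') : PF (fun m z => Q m z * Q' m z) where
  rot := fun m z => by rw [h.rot, h'.rot]
  neg := fun m z => by rw [h.neg, h'.neg]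
  loc := fun m z z' hz => by rw [h.loc m z z' hz, h'.loc m z z' hz]

theorem qS_mul (Q Q' : ℕ → (ℕ → ℂ) → ℝ) (t : List Bool) : qS (fun m z => Q m z * Q' m z) t = qS Q t * qS Q' t := rfl

theorem qE_mul (Q Q' : ℕ → (ℕ → ℂ) → ℝ) (t : List Bool) : qE (fun m z => Q m z * Q' m z) t = qE Q t * qE Q' t := rfl

/-- **both ends** -/
theorem sum_PF {Q : ℕ → (ℕ → ℂ) → ℝ} (h : PF Q) (m : ℕ) : ∑ t ∈ sawF m, qS Q t = ∑ t ∈ sawF m, qE Q t := by
  have e1 : ∑ t ∈ sawF m, qS Q t = ∑ t ∈ sawF m, Q m (pS t) :=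
    sum_congr rfl fun t ht => by
      rw [mem_sawF] at ht
      unfold qS
      rw [ht.1]
  have e2 : ∑ t ∈ sawF m, qE Q t = ∑ t ∈ sawF m, Q m (pE m t) :=
    sum_congr rfl fun t ht => by
      rw [mem_sawF] at ht
      unfold qE
      rw [ht.1]
  rw [e1, e2]
  rcases Nat.eq_zero_or_pos m with rfl | hm
  · refine sum_congr rfl fun t _ => h.loc 0 _ _ fun i hi => ?_
    have : i = 0 := by omega
    subst this
    unfold pS pE
    rw [sub_self]
    have : vx oo up t 0 = 0 := rfl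
    rw [this]
    have := NTF.JJ_sub (0 : Pt) 0
    simpa using this
  · exact (sum_revR hm (fun t => mem_sawF) (Q m) (h.rot m) (h.neg m) (h.loc m)).symm

/-! ### 2. The last part of a word -/

/-- the complex number of a unit -/
def uE (u : Pt) : ℂ := ⟨(u.1 : ℝ) + u.2 / 2, √3 / 2 * u.2⟩

/-- a rotation of the lattice is a rotation of the plane -/
theorem JJ_mulE (u p : Pt) : JJ (mulE u p) = uE u * JJ p := by
  have h3 : (√3 : ℝ) * √3 = 3 := Real.mul_self_sqrt (by norm_num)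
  apply Complex.ext
  · rw [NTF.JJ_re, Complex.mul_re, NTF.JJ_re, NTF.JJ_im]
    simp only [mulE, uE]
    push_cast
    linear_combination (-(1 : ℝ) / 4 * (u.2 * p.1)) * h3
  · rw [NTF.JJ_im, Complex.mul_im, NTF.JJ_re, NTF.JJ_im]
    simp only [mulE, uE]
    push_cast
    ring

theorem uE_norm {u : Pt} (hu : nrm u = 1) : ‖uE u‖ = 1 := by
  have h3 : (√3 : ℝ) * √3 = 3 := Real.mul_self_sqrt (by norm_num)
  have h1 : ‖uE u‖ ^ 2 = 1 := by
    rw [Complex.sq_norm, Complex.normSq_apply]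
    have h2 : ((nrm u : ℤ) : ℝ) = 1 := by rw [hu]; norm_num
    unfold nrm at h2
    simp only [uE]
    push_cast at h2
    linear_combination h2 + (1 / 4 * (u.2 : ℝ) ^ 2) * h3
  have h2 : ‖uE u‖ = √(‖uE u‖ ^ 2) := (Real.sqrt_sq (norm_nonneg _)).symm
  rw [h2, h1, Real.sqrt_one]

theorem hn_le_JJ (p : Pt) : ((hn p : ℤ) : ℝ) ≤ 2 * ‖JJ p‖ := by
  have key : ∀ d ∈ dirs, ((ip p d : ℤ) : ℝ) ≤ 2 * ‖JJ p‖ := by
    intro d hd
    have h1 : (ip p d) ^ 2 ≤ 4 * nrm p := by
      have h2 := mem_dirs.1 hd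
      have h3 : 4 * (nrm p * nrm d) - ip p d ^ 2 = 3 * (p.1 * d.2 - p.2 * d.1) ^ 2 := by
        unfold nrm ip
        ring
      rw [h2, mul_one] at h3
      nlinarith [sq_nonneg (p.1 * d.2 - p.2 * d.1)]
    have h4 : ((ip p d : ℤ) : ℝ) ^ 2 ≤ (2 * ‖JJ p‖) ^ 2 := by
      rw [mul_pow, JJ_norm]
      have : ((ip p d ^ 2 : ℤ) : ℝ) ≤ ((4 * nrm p : ℤ) : ℝ) := by exact_mod_cast h1
      push_cast at this
      linarith
    exact (le_abs_self _).trans (abs_le_of_sq_le_sq h4 (by positivity))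
  have h5 : ∀ d ∈ dirs, ip p d ≤ ⌊2 * ‖JJ p‖⌋ := fun d hd => Int.le_floor.2 (key d hd)
  have h6 := hn_le h5
  exact (Int.cast_le.2 h6).trans (Int.floor_le _)

/-- the vertices of the last part -/
theorem vx_last {A E : List Bool} : ∃ u : Pt, nrm u = 1 ∧ ∀ i, i ≤ E.length →
    vx oo up (A ++ E) (A.length + i) = vx oo up A A.length + mulE u (vx oo up E i) := by
  have hd := dx_mem upd A A.length
  refine ⟨rotTo up (dx up A A.length), ?_, fun i _ => ?_⟩
  · have h1 := mem_dirs.1 hd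
    unfold rotTo
    rw [nrm_mulE, h1, one_mul]
    decide
  · exact RP.Moments.vx_cat2 (by rw [rotTo_apply _ upd]) i

/-- the path seen from the end: the last part, rotated -/
theorem pE_last (A E : List Bool) : ∃ c : ℂ, ‖c‖ = 1 ∧ ∀ i, i ≤ E.length →
    pE (A ++ E).length (A ++ E) i = c * pE E.length E i := by
  obtain ⟨u, hu, h⟩ := vx_last (A := A) (E := E)
  refine ⟨uE u, uE_norm hu, fun i hi => ?_⟩
  unfold pE
  have e1 : (A ++ E).length - i = A.length + (E.length - i) := by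
    rw [List.length_append]
    omega
  have e2 : (A ++ E).length = A.length + E.length := List.length_append
  rw [e1, e2, h (E.length - i) (by omega), h E.length le_rfl, JJ_add, JJ_add, JJ_mulE, JJ_mulE]
  ring

/-- **inner path functionals are inner functionals of words** -/
theorem InnP.inn_qE {b : ℕ} {r : ℝ} {Q : ℕ → (ℕ → ℂ) → ℝ} (h : InnP r Q) (hr : 2 * r ≤ 2 ^ b) : HexObs.PWN.Inn b (qE Q) := by
  intro A E _ hE
  obtain ⟨c, hc, hi⟩ := pE_last A E
  unfold qE
  rw [← h.rot E.length (pE E.length E) c hc]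
  refine h.inn _ _ _ _ E.length (by rw [List.length_append]; omega) le_rfl ?_ hi
  rw [hi _ le_rfl, norm_mul, hc, one_mul]
  unfold pE
  rw [Nat.sub_self]
  have e0 : vx oo up E 0 = 0 := rfl
  rw [e0, ← JJ_sub, zero_sub, NTF.JJ_neg, norm_neg]
  have h1 := hn_le_JJ (vx oo up E E.length)
  have h2 : ((2 : ℝ)) ^ b ≤ ((hn (en E) : ℤ) : ℝ) := by exact_mod_cast hE
  have h3 : ((hn (en E) : ℤ) : ℝ) ≤ 2 * ‖JJ (vx oo up E E.length)‖ := h1
  linarith

/-! ### 3. The first exit -/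

open Classical in
/-- the first exit from the disc of radius r, at most m -/
def ex (r : ℝ) (m : ℕ) (z : ℕ → ℂ) : ℕ := if h : ∃ i, i ≤ m ∧ r ≤ ‖z i‖ then Nat.find h else m

theorem ex_le (r : ℝ) (m : ℕ) (z : ℕ → ℂ) : ex r m z ≤ m := by
  classical
  unfold ex
  split_ifs with h
  · exact (Nat.find_spec h).1
  · exact le_rfl

theorem ex_spec {r : ℝ} {m : ℕ} {z : ℕ → ℂ} (h : ∃ i, i ≤ m ∧ r ≤ ‖z i‖) : r ≤ ‖z (ex r m z)‖ := by
  classical
  unfold ex
  rw [dif_pos h]
  exact (Nat.find_spec h).2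

theorem ex_min {r : ℝ} {m : ℕ} {z : ℕ → ℂ} {i : ℕ} (hi : i < ex r m z) : ‖z i‖ < r := by
  classical
  by_contra hcon
  push Not at hcon
  have him : i ≤ m := hi.le.trans (ex_le r m z)
  have h : ∃ i, i ≤ m ∧ r ≤ ‖z i‖ := ⟨i, him, hcon⟩
  have h1 : ex r m z ≤ i := by
    unfold ex
    rw [dif_pos h]
    exact Nat.find_min' h ⟨him, hcon⟩
  omega

theorem ex_le_of {r : ℝ} {m : ℕ} {z : ℕ → ℂ} {i : ℕ} (him : i ≤ m) (hi : r ≤ ‖z i‖) : ex r m z ≤ i := by
  by_contra hcon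
  push Not at hcon
  exact absurd hi (not_le.2 (ex_min hcon))

/-- the first exit depends on the path up to the first exit only -/
theorem ex_inn {r : ℝ} {m m' : ℕ} {z z' : ℕ → ℂ} {e : ℕ} (he : e ≤ m) (he' : e ≤ m') (hz : r ≤ ‖z e‖)
    (h : ∀ i, i ≤ e → ‖z i‖ = ‖z' i‖) : ex r m z = ex r m' z' ∧ ex r m z ≤ e := by
  have h1 : ex r m z ≤ e := ex_le_of he hz
  have h2 : ex r m' z' ≤ e := ex_le_of he' (by rw [← h e le_rfl]; exact hz)
  have h3 : r ≤ ‖z (ex r m z)‖ := ex_spec ⟨e, he, hz⟩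
  have h4 : r ≤ ‖z' (ex r m' z')‖ := ex_spec ⟨e, he', by rw [← h e le_rfl]; exact hz⟩
  refine ⟨le_antisymm ?_ ?_, h1⟩
  · exact ex_le_of (h2.trans he) (by rw [h _ h2]; exact h4)
  · exact ex_le_of (h1.trans he') (by rw [← h _ h1]; exact h3)

theorem ex_congr {r : ℝ} {m : ℕ} {z z' : ℕ → ℂ} (h : ∀ i, i ≤ m → ‖z i‖ = ‖z' i‖) : ex r m z = ex r m z' := by
  by_cases h1 : ∃ i, i ≤ m ∧ r ≤ ‖z i‖
  · obtain ⟨e, he, hz⟩ := h1
    exact (ex_inn he he hz fun i hi => h i (hi.trans he)).1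
  · have h2 : ¬ ∃ i, i ≤ m ∧ r ≤ ‖z' i‖ := by
      rintro ⟨i, hi, hz⟩
      exact h1 ⟨i, hi, by rw [h i hi]; exact hz⟩
    unfold ex
    rw [dif_neg h1, dif_neg h2]

/-- the winding up to the first exit -/
def th (r : ℝ) (m : ℕ) (z : ℕ → ℂ) : ℝ := turn z 1 (ex r m z)

theorem th_rot (r : ℝ) (m : ℕ) (z : ℕ → ℂ) {c : ℂ} (hc : ‖c‖ = 1) : th r m (fun i => c * z i) = th r m z := by
  unfold th
  rw [ex_congr (z' := z) fun i _ => by rw [norm_mul, hc, one_mul]]
  exact turn_smul (norm_ne_zero_iff.1 (by rw [hc]; norm_num)) _ _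

theorem th_loc (r : ℝ) (m : ℕ) {z z' : ℕ → ℂ} (h : ∀ i, i ≤ m → z i = z' i) : th r m z = th r m z' := by
  unfold th
  rw [ex_congr (z' := z') fun i hi => by rw [h i hi]]
  exact turn_congr fun i _ hi => h i (hi.trans (ex_le _ _ _))

theorem th_inn {r : ℝ} {m m' : ℕ} {z z' : ℕ → ℂ} {e : ℕ} (he : e ≤ m) (he' : e ≤ m') (hz : r ≤ ‖z e‖)
    (h : ∀ i, i ≤ e → z i = z' i) : th r m z = th r m' z' := by
  obtain ⟨h1, h2⟩ := ex_inn he he' hz fun i hi => by rw [h i hi]
  unfold th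
  rw [← h1]
  exact turn_congr fun i _ hi => h i (hi.trans h2)

/-- functions of the winding up to the first exit -/
theorem th_innP (r : ℝ) (f : ℝ → ℝ) : InnP r (fun m z => f (th r m z)) where
  rot := fun m z c hc => by rw [th_rot r m z hc]
  loc := fun m z z' h => by rw [th_loc r m h]
  inn := fun m m' z z' e he he' hz h => by rw [th_inn he he' hz h]

end NTSF

end
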