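import Pool.Agent.PW.WindL
import Pool.Agent.PB.CylPub
import Pool.Agent.NT.Dict

/-!
# PW, row E1c (helper87): the lift of the words of the cylinder, the split of the angle for the words

`w3 = e ^ (2 π i / 3)`. For a word `t` the vertex `i` of the walk of the cylinder with the word `false :: t` has the lift
`zT t i = 1 / 2 - w3 * JJ (vx oo up t i)`.

* `lft_ps`: `zP v` is a lift of the vertex `ps (2 k) v` of the cylinder, `v` a vertex of the plane lattice;
* `vx_false`, `lft_zT`; `zT_e1`, `zT_e2`: the distances from the lifts of the two ends;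
* **`ang_words`**: the angle of the walk is the turning of the word around its start, `1 ≤ i ≤ j1`, minus the turning
  around its end, `j2 ≤ i ≤ n - 1`, up to `(N + 13) π / 4`.
-/

set_option autoImplicit false

namespace HexObs.PWd

open Complex Finset
open Pool.Agent.CylSaw
open Pool.Agent.NUF.Cyl (ri pL ri_A ri_B)
open HexObs.LP (Vt)
open NTF (JJ JJ_add JJ_sub JJ_neg JJ_norm JJ_re JJ_im)

/-- `e ^ (2 π i / 3)` -/
noncomputable def w3 : ℂ := ⟨-(1 / 2), √3 / 2⟩

theorem w3_sq : ‖w3‖ ^ 2 = 1 := by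
  rw [Complex.sq_norm, Complex.normSq_apply]
  have h : (√3 : ℝ) * √3 = 3 := Real.mul_self_sqrt (by norm_num)
  show -(1 / 2) * -(1 / 2) + √3 / 2 * (√3 / 2) = 1
  linear_combination (1 / 4) * h

theorem w3_norm : ‖w3‖ = 1 := by
  have h1 := w3_sq
  have h2 := norm_nonneg w3
  nlinarith

theorem w3_ne : w3 ≠ 0 := by
  rw [← norm_pos_iff, w3_norm]
  norm_num

/-- the position of a point of the plane lattice in the coordinate of the cylinder -/
noncomputable def zP (v : Pt) : ℂ := ⟨((v.1 : ℝ) - v.2) / 2 + 1, √3 / 2 * ((v.1 : ℝ) + v.2 - 1)⟩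

theorem lft_ps {k : ℕ} (hk : 1 ≤ k) {v : Pt} (hv : Vt v) : Lft k (ps (2 * k) v) (zP v) := by
  have hN : NeZero (2 * k) := ⟨by omega⟩
  have hval : (((ri v : ℤ) : ZMod (2 * k)).val : ℝ) = (ri v : ℝ) - 2 * k * ((ri v / ((2 * k : ℕ) : ℤ) : ℤ) : ℝ) := by
    have h1 := ZMod.val_intCast (n := 2 * k) (ri v)
    have h2 := Int.emod_add_mul_ediv (ri v) ((2 * k : ℕ) : ℤ)
    rw [← h1] at h2
    have h3 : ((((ri v : ℤ) : ZMod (2 * k)).val : ℤ) : ℝ) + ((2 * k : ℕ) : ℝ) * ((ri v / ((2 * k : ℕ) : ℤ) : ℤ) : ℝ) =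
        ((ri v : ℤ) : ℝ) := by exact_mod_cast h2
    push_cast at h3 ⊢
    linarith
  refine ⟨ri v / ((2 * k : ℕ) : ℤ), ?_⟩
  rcases vt_cases hv with h | h
  · have hps : ps (2 * k) v = (co v, ((ri v : ℤ) : ZMod (2 * k)), false) := by
      conv_lhs => rw [h]
      rw [ps_A]
    have e1 : (v.1 : ℝ) = 2 * co v + ri v := by
      have := congrArg Prod.fst h
      simp only [_root_.EXL.A] at this
      exact_mod_cast this
    have e2 : (v.2 : ℝ) = -(co v) + 1 + ri v := by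
      have := congrArg Prod.snd h
      simp only [_root_.EXL.A] at this
      exact_mod_cast this
    rw [hps]
    unfold px py zP
    simp only [Bool.false_eq_true, if_false, add_zero]
    apply Complex.ext
    · simp only [add_re, ofReal_re, mul_re, I_re, mul_zero, ofReal_im, I_im, mul_one, sub_self, add_zero]
      rw [e1, e2]
      ring
    · simp only [add_im, ofReal_im, mul_im, ofReal_re, I_im, mul_one, I_re, mul_zero, add_zero, zero_add]
      rw [hval, e1, e2]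
      ring
  · have hps : ps (2 * k) v = (co v, ((ri v : ℤ) : ZMod (2 * k)), true) := by
      conv_lhs => rw [h]
      rw [ps_B]
    have e1 : (v.1 : ℝ) = 2 * co v + ri v + 1 := by
      have := congrArg Prod.fst h
      simp only [_root_.EXL.B] at this
      exact_mod_cast this
    have e2 : (v.2 : ℝ) = -(co v) + 1 + ri v := by
      have := congrArg Prod.snd h
      simp only [_root_.EXL.B] at this
      exact_mod_cast this
    rw [hps]
    unfold px py zP
    simp only [if_true]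
    apply Complex.ext
    · simp only [add_re, ofReal_re, mul_re, I_re, mul_zero, ofReal_im, I_im, mul_one, sub_self, add_zero]
      rw [e1, e2]
      ring
    · simp only [add_im, ofReal_im, mul_im, ofReal_re, I_im, mul_one, I_re, mul_zero, add_zero, zero_add]
      rw [hval, e1, e2]
      ring

/-- the position of the vertex `(0, 1) - v` -/
theorem zP_eq (v : Pt) : zP ((0, 1) - v) = 1 / 2 - w3 * JJ v := by
  have h : (√3 : ℝ) * √3 = 3 := Real.mul_self_sqrt (by norm_num)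
  unfold zP w3
  apply Complex.ext
  · simp only [Prod.fst_sub, Prod.snd_sub, sub_re, mul_re, JJ_re, JJ_im, one_div, inv_re, re_ofNat]
    push_cast
    norm_num
    linear_combination (v.1 / 4 : ℝ) * h
  · simp only [Prod.fst_sub, Prod.snd_sub, sub_im, mul_im, JJ_re, JJ_im, one_div, inv_im, im_ofNat]
    push_cast
    ring

/-- the lift of the vertex number `i` of a word -/
noncomputable def zT (t : List Bool) (i : ℕ) : ℂ := 1 / 2 - w3 * JJ (vx oo up t i)

/-- the word `false :: t` from the left end -/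
theorem vx_false (t : List Bool) (i : ℕ) : vx (pL 0).1 (pL 0).2 (false :: t) (i + 1) = (0, 1) - vx oo up t i ∧
    dx (pL 0).2 (false :: t) (i + 1) = -dx up t i := by
  induction i with
  | zero =>
    constructor
    · show (_root_.EXL.B (-1) 0 : Pt) + (1, -1) = (0, 1) - oo
      decide
    · show HexObs.turn false (1, -1) = -up
      decide
  | succ i ih =>
    obtain ⟨h1, h2⟩ := ih
    constructor
    · show vx (pL 0).1 (pL 0).2 (false :: t) (i + 1) + dx (pL 0).2 (false :: t) (i + 1) =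
        (0, 1) - (vx oo up t i + dx up t i)
      rw [h1, h2]
      abel
    · show HexObs.turn (tf (false :: t) (i + 1)) (dx (pL 0).2 (false :: t) (i + 1)) =
        -HexObs.turn (tf t i) (dx up t i)
      rw [h2]
      exact HexObs.turn_neg _ _

theorem lft_zT {k : ℕ} (hk : 1 ≤ k) (t : List Bool) (i : ℕ) : Lft k (wv k (false :: t) (i + 1)) (zT t i) := by
  have h := lft_ps hk (de_w (false :: t) (i + 1)).2.1
  have e : zP (vx (pL 0).1 (pL 0).2 (false :: t) (i + 1)) = zT t i := by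
    rw [(vx_false t i).1, zP_eq]
    rfl
  simp only at h
  rw [e] at h
  exact h

theorem zT_zero (t : List Bool) : zT t 0 = 1 / 2 := by
  unfold zT
  have e : JJ (vx oo up t 0) = 0 := by
    apply Complex.ext
    · show ((0 : ℤ) : ℝ) / 2 + ((0 : ℤ) : ℝ) = 0
      norm_num
    · show -(Real.sqrt 3 / 2 * ((0 : ℤ) : ℝ)) = 0
      norm_num
  rw [e, mul_zero, sub_zero]

theorem zT_sub (t : List Bool) (i j : ℕ) : zT t i - zT t j = -w3 * (JJ (vx oo up t i) - JJ (vx oo up t j)) := by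
  unfold zT
  ring

theorem norm_zT_sub (t : List Bool) (i j : ℕ) : ‖zT t i - zT t j‖ = ‖JJ (vx oo up t i) - JJ (vx oo up t j)‖ := by
  rw [zT_sub, norm_mul, norm_neg, w3_norm, one_mul]

theorem norm_JJ_sub_sq (v w : Pt) : ‖JJ v - JJ w‖ ^ 2 = ((nrm (v - w) : ℤ) : ℝ) := by
  rw [← JJ_sub, JJ_norm]

theorem one_le_JJ {v w : Pt} (h : v ≠ w) : 1 ≤ ‖JJ v - JJ w‖ := by
  have h1 : 0 < ‖JJ v - JJ w‖ ^ 2 := by
    have : JJ v - JJ w ≠ 0 := sub_ne_zero.2 fun e => h (NTF.JJ_inj e)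
    have := norm_pos_iff.2 this
    positivity
  rw [norm_JJ_sub_sq] at h1
  have h2 : (0 : ℤ) < nrm (v - w) := by exact_mod_cast h1
  have h3 : (1 : ℝ) ≤ ‖JJ v - JJ w‖ ^ 2 := by
    rw [norm_JJ_sub_sq]
    exact_mod_cast (by omega : (1 : ℤ) ≤ nrm (v - w))
  have h4 := norm_nonneg (JJ v - JJ w)
  nlinarith

theorem zT_step (t : List Bool) (i : ℕ) : ‖zT t (i + 1) - zT t i‖ = 1 := by
  rw [norm_zT_sub]
  have h1 : ‖JJ (vx oo up t (i + 1)) - JJ (vx oo up t i)‖ ^ 2 = 1 := by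
    rw [norm_JJ_sub_sq]
    have e : vx oo up t (i + 1) - vx oo up t i = dx up t i := by
      show vx oo up t i + dx up t i - vx oo up t i = dx up t i
      abel
    have h2 : dx up t i ∈ dirs := ds_mem (by decide) i
    rw [e, mem_dirs.1 h2, Int.cast_one]
  have h4 := norm_nonneg (JJ (vx oo up t (i + 1)) - JJ (vx oo up t i))
  nlinarith

theorem w3_diag (a : ℤ) : w3 * JJ (a, a) = ((√3 * a : ℝ) : ℂ) * I := by
  have h : (√3 : ℝ) * √3 = 3 := Real.mul_self_sqrt (by norm_num)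
  unfold w3
  apply Complex.ext
  · simp only [mul_re, JJ_re, JJ_im, ofReal_re, ofReal_im, I_re, I_im, mul_zero, zero_mul, sub_self]
    linear_combination (a / 4 : ℝ) * h
  · simp only [mul_im, JJ_re, JJ_im, ofReal_re, ofReal_im, I_re, I_im, mul_zero, mul_one, add_zero]
    ring

/-- the distance from the lifts of the first end -/
theorem zT_e1 {k : ℕ} (t : List Bool) (i : ℕ) (q : ℤ) :
    zT t i - e1 k q = 1 / 2 - w3 * JJ (vx oo up t i + (2 * (k : ℤ) * q, 2 * (k : ℤ) * q)) := by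
  rw [e1_eq, ← w3_diag, JJ_add]
  unfold zT
  ring

/-- the distance from the lifts of the second end -/
theorem zT_e2 {k : ℕ} {t : List Bool} {z : ℤ} (hz : vx oo up t t.length = ((2 * z + 1) * (k : ℤ), (2 * z + 1) * (k : ℤ)))
    (i : ℕ) (q : ℤ) : zT t i - e2 k q = 1 / 2 - w3 * JJ (vx oo up t i - vx oo up t t.length +
      (2 * (k : ℤ) * (q + z + 1), 2 * (k : ℤ) * (q + z + 1))) := by
  have e : vx oo up t i - vx oo up t t.length + (2 * (k : ℤ) * (q + z + 1), 2 * (k : ℤ) * (q + z + 1)) =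
      vx oo up t i + ((k : ℤ) * (2 * q + 1), (k : ℤ) * (2 * q + 1)) := by
    rw [hz]
    refine Prod.ext ?_ ?_
    · show (vx oo up t i).1 - (2 * z + 1) * (k : ℤ) + 2 * (k : ℤ) * (q + z + 1) = (vx oo up t i).1 + (k : ℤ) * (2 * q + 1)
      ring
    · show (vx oo up t i).2 - (2 * z + 1) * (k : ℤ) + 2 * (k : ℤ) * (q + z + 1) = (vx oo up t i).2 + (k : ℤ) * (2 * q + 1)
      ring
  rw [e, e2_eq, ← w3_diag, JJ_add]
  unfold zT
  ring

theorem half_sub_le (x : ℂ) : ‖x‖ - 1 / 2 ≤ ‖1 / 2 - w3 * x‖ ∧ ‖1 / 2 - w3 * x‖ ≤ ‖x‖ + 1 / 2 := by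
  have h1 : ‖w3 * x‖ = ‖x‖ := by rw [norm_mul, w3_norm, one_mul]
  have h2 : ‖(1 / 2 : ℂ)‖ = 1 / 2 := by norm_num
  have h3 := norm_sub_le (1 / 2 : ℂ) (w3 * x)
  have h4 := norm_sub_norm_le (w3 * x) (1 / 2 : ℂ)
  rw [norm_sub_rev] at h4
  rw [h1, h2] at h3 h4
  constructor <;> linarith

theorem zT_last {k : ℕ} {t : List Bool} {z : ℤ}
    (hz : vx oo up t t.length = ((2 * z + 1) * (k : ℤ), (2 * z + 1) * (k : ℤ))) :
    zT t t.length = e2 k (-z - 1) + 1 / 2 := by
  have h := zT_e2 hz t.length (-z - 1)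
  have e : vx oo up t t.length - vx oo up t t.length +
      (2 * (k : ℤ) * (-z - 1 + z + 1), 2 * (k : ℤ) * (-z - 1 + z + 1)) = ((0 : ℤ), (0 : ℤ)) := by
    refine Prod.ext ?_ ?_
    · show (vx oo up t t.length).1 - (vx oo up t t.length).1 + 2 * (k : ℤ) * (-z - 1 + z + 1) = 0
      ring
    · show (vx oo up t t.length).2 - (vx oo up t t.length).2 + 2 * (k : ℤ) * (-z - 1 + z + 1) = 0
      ring
  have e0 : JJ ((0 : ℤ), (0 : ℤ)) = 0 := by
    apply Complex.ext
    · rw [JJ_re]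
      norm_num
    · rw [JJ_im]
      norm_num
  rw [e, e0, mul_zero, sub_zero] at h
  rw [← h]
  ring

/-- the inequalities of the steps -/
theorem path_ineq {k : ℕ} (hk : 1 ≤ k) {n : ℕ} {w : Fin (n + 1) → V (2 * k)} {Z : ℕ → ℂ}
    (hZ : ∀ i : Fin (n + 1), Lft k (w i) (Z i))
    (hw : ∀ i : Fin n, ((cyl (2 * k)).deleteEdges {cut 0, cut (k : ZMod (2 * k))}).Adj (w i.castSucc) (w i.succ))
    (hs : ∀ i, i < n → ‖Z (i + 1) - Z i‖ = 1) (i : ℕ) (hi : i < n) (q : ℤ) :
    1 < ‖Z i - e1 k q‖ ^ 2 + ‖Z (i + 1) - e1 k q‖ ^ 2 ∧ 1 < ‖Z i - e2 k q‖ ^ 2 + ‖Z (i + 1) - e2 k q‖ ^ 2 := by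
  have ha := hw ⟨i, hi⟩
  rw [SimpleGraph.deleteEdges_adj] at ha
  have z1 : Lft k (w (Fin.castSucc ⟨i, hi⟩)) (Z i) := hZ (Fin.castSucc ⟨i, hi⟩)
  have z2 : Lft k (w (Fin.succ ⟨i, hi⟩)) (Z (i + 1)) := hZ (Fin.succ ⟨i, hi⟩)
  constructor
  · rw [e1_eq]
    refine z1.step hk z2 _ (hs i hi) fun e => ha.2 ?_
    rw [row_e1] at e
    exact Or.inl e
  · rw [e2_eq]
    refine z1.step hk z2 _ (hs i hi) fun e => ha.2 ?_
    rw [row_e2] at e
    exact Or.inr e

theorem vx_inj {k : ℕ} {t : List Bool} (ht : false :: t ∈ Wd k t.length) {i j : ℕ} (hij : i ≠ j) (hi : i ≤ t.length)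
    (hj : j ≤ t.length) : vx oo up t i ≠ vx oo up t j := by
  have key : ∀ a b : ℕ, a < b → b ≤ t.length → vx oo up t a ≠ vx oo up t b := by
    intro a b hab hb e
    refine ht.2.1 (a + 1) (b + 1) (by omega) (by omega) (by rw [List.length_cons]; omega) ?_
    unfold wv
    rw [(vx_false t a).1, (vx_false t b).1, e]
  rcases lt_or_gt_of_ne hij with h | h
  · exact key i j h hj
  · exact (key j i h hi).symm

/-- **the split of the angle for the words** -/
theorem ang_words {k : ℕ} (hk : 1 ≤ k) {t : List Bool} {z : ℤ} (ht : false :: t ∈ Wd k t.length)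
    (hz : vx oo up t t.length = ((2 * z + 1) * (k : ℤ), (2 * z + 1) * (k : ℤ))) {ρ r : ℝ} {j1 j2 : ℕ}
    (h1 : 1 ≤ j1) (h12 : j1 ≤ j2) (h2 : j2 + 1 ≤ t.length)
    (hb1 : ∀ i, i ≤ j1 → ‖JJ (vx oo up t i)‖ + 1 / 2 ≤ k / 2)
    (hb2 : ∀ i, j2 ≤ i → i ≤ t.length → ‖JJ (vx oo up t i) - JJ (vx oo up t t.length)‖ + 1 / 2 ≤ k / 2)
    (h0 : 0 < ρ) (hρ : ρ ≤ 1) (hr : 0 < r) (hrd : r + 1 ≤ ρ ^ 2 * k / 8)
    (hf1 : ∀ i, j1 ≤ i → i ≤ j2 → ∀ m : ℤ,
      ρ * k + 1 / 2 ≤ ‖JJ (vx oo up t i + (2 * (k : ℤ) * m, 2 * (k : ℤ) * m))‖)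
    (hf2 : ∀ i, j1 ≤ i → i ≤ j2 → ∀ m : ℤ,
      ρ * k + 1 / 2 ≤ ‖JJ (vx oo up t i - vx oo up t t.length + (2 * (k : ℤ) * m, 2 * (k : ℤ) * m))‖) :
    ∃ (N : ℕ) (s : ℕ → ℕ), s 0 = j1 ∧
      (∀ j, j < N → s j < s (j + 1) ∧ s (j + 1) ≤ j2 ∧
        r ≤ ‖JJ (vx oo up t (s (j + 1))) - JJ (vx oo up t (s j))‖ ∧
        ∀ i, s j ≤ i → i < s (j + 1) → ‖JJ (vx oo up t i) - JJ (vx oo up t (s j))‖ < r) ∧
      |Pool.Agent.CylSaw.ang k t.length (wk k t.length (false :: t)) - (turn (fun i => JJ (vx oo up t i)) 1 j1 -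
        turn (fun i => JJ (vx oo up t i) - JJ (vx oo up t t.length)) j2 (t.length - 1))| ≤
        (N + 13) * (Real.pi / 4) := by
  set n := t.length with hn
  have hw : wk k n (false :: t) ∈ saws k n := wk_mem hk ht
  have hZ : ∀ i : Fin (n + 1), Lft k (wk k n (false :: t) i) (zT t i) := fun i => lft_zT hk t i
  have hs : ∀ i, i < n → ‖zT t (i + 1) - zT t i‖ = 1 := fun i _ => zT_step t i
  have hq := path_ineq hk hZ hw.2.2.2 hs
  have hlast := zT_last hz
  have hzero := zT_zero t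
  obtain ⟨N, s, s0, s1, s2⟩ := ang_split (k := k) (n := n) hk (wk k n (false :: t)) (Z := zT t) (ρ := ρ) (r := r) (n1 := 0)
    (n2 := -z - 1) (j1 := j1) (j2 := j2) hZ h12 (by omega) hs (fun i hi => (hq i (by omega) 0).1)
    (fun i _ hi => (hq i hi (-z - 1)).2)
    (fun i hi => by
      rw [zT_e1]
      refine (half_sub_le _).2.trans ?_
      have e : vx oo up t i + (2 * (k : ℤ) * 0, 2 * (k : ℤ) * 0) = vx oo up t i := by
        rw [mul_zero]
        exact add_zero _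
      rw [e]
      exact hb1 i hi)
    (fun i hi hi' => by
      rw [zT_e2 hz]
      refine (half_sub_le _).2.trans ?_
      have e : vx oo up t i - vx oo up t n + (2 * (k : ℤ) * (-z - 1 + z + 1), 2 * (k : ℤ) * (-z - 1 + z + 1)) =
          vx oo up t i - vx oo up t n := by
        have : 2 * (k : ℤ) * (-z - 1 + z + 1) = 0 := by ring
        rw [this]
        exact add_zero _
      rw [e, JJ_sub]
      exact hb2 i hi hi')
    h0 hρ hr hrd
    (fun i hi hi' q => by
      rw [zT_e1]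
      have := (half_sub_le (JJ (vx oo up t i + (2 * (k : ℤ) * q, 2 * (k : ℤ) * q)))).1
      have := hf1 i hi hi' q
      linarith)
    (fun i hi hi' q => by
      rw [zT_e2 hz]
      have := (half_sub_le (JJ (vx oo up t i - vx oo up t n +
        (2 * (k : ℤ) * (q + z + 1), 2 * (k : ℤ) * (q + z + 1))))).1
      have := hf2 i hi hi' (q + z + 1)
      linarith)
  refine ⟨N, s, s0, fun j hj => ?_, ?_⟩
  · obtain ⟨a1, a2, a3, a4⟩ := s1 j hj
    refine ⟨a1, a2, by rw [← norm_zT_sub]; exact a3, fun i hi hi' => ?_⟩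
    rw [← norm_zT_sub]
    exact a4 i hi hi'
  -- the change of the centres
  have hdist : ∀ i j, i ≠ j → i ≤ n → j ≤ n → 1 ≤ ‖zT t i - zT t j‖ := fun i j hij hi hj => by
    rw [norm_zT_sub]
    exact one_le_JJ (vx_inj ht hij hi hj)
  have c1 : |turn (fun i => zT t i - e1 k 0) 1 j1 - turn (fun i => zT t i - zT t 0) 1 j1| ≤ Real.pi / 2 := by
    refine turn_centre h1 ?_ (fun i hi hi' => hdist i 0 (by omega) (by omega) (by omega)) fun i _ hi => (hs i (by omega)).le
    rw [hzero]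
    unfold e1
    norm_num
  have c2 : |turn (fun i => zT t i - e2 k (-z - 1)) j2 (n - 1) - turn (fun i => zT t i - zT t n) j2 (n - 1)| ≤
      Real.pi / 2 := by
    refine turn_centre (by omega) ?_ (fun i hi hi' => hdist i n (by omega) (by omega) le_rfl)
      fun i _ hi => (hs i (by omega)).le
    rw [hlast]
    have e : e2 k (-z - 1) - (e2 k (-z - 1) + 1 / 2) = -(1 / 2 : ℂ) := by ring
    rw [e]
    norm_num
  have d1 : |turn (fun i => zT t i - e1 k 0) 0 1| ≤ Real.pi / 2 := by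
    have e : turn (fun i => zT t i - e1 k 0) 0 1 = ((zT t 1 - e1 k 0) / (zT t 0 - e1 k 0)).arg := by
      rw [turn_succ _ le_rfl, turn_self, zero_add]
    rw [e]
    refine (arg_step ?_ (sub_ne_zero.2 ((hZ ⟨0, by omega⟩).ne_e1 0))).le
    rw [sub_sub_sub_cancel_right, hs 0 (by omega), one_pow]
    exact (hq 0 (by omega) 0).1
  have d2 : |turn (fun i => zT t i - e2 k (-z - 1)) (n - 1) n| ≤ Real.pi / 2 := by
    have hn1 : n - 1 + 1 = n := by omega
    have e : turn (fun i => zT t i - e2 k (-z - 1)) (n - 1) n =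
        ((zT t (n - 1 + 1) - e2 k (-z - 1)) / (zT t (n - 1) - e2 k (-z - 1))).arg := by
      conv_lhs => rw [← hn1]
      rw [show n - 1 + 1 - 1 = n - 1 by omega, turn_succ _ le_rfl, turn_self, zero_add]
    rw [e]
    refine (arg_step ?_ (sub_ne_zero.2 ((hZ ⟨n - 1, by omega⟩).ne_e2 _))).le
    rw [sub_sub_sub_cancel_right, hs (n - 1) (by omega), one_pow]
    exact (hq (n - 1) (by omega) _).2
  have t1 : turn (fun i => zT t i - zT t 0) 1 j1 = turn (fun i => JJ (vx oo up t i)) 1 j1 := by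
    rw [← turn_smul (z := fun i => JJ (vx oo up t i)) (neg_ne_zero.2 w3_ne)]
    refine turn_congr fun i _ _ => ?_
    rw [hzero]
    unfold zT
    ring
  have t2 : turn (fun i => zT t i - zT t n) j2 (n - 1) =
      turn (fun i => JJ (vx oo up t i) - JJ (vx oo up t n)) j2 (n - 1) := by
    rw [← turn_smul (z := fun i => JJ (vx oo up t i) - JJ (vx oo up t n)) (neg_ne_zero.2 w3_ne)]
    exact turn_congr fun i _ _ => zT_sub t i n
  rw [turn_add _ (Nat.zero_le 1) h1, turn_add (fun i => zT t i - e2 k (-z - 1)) (by omega : j2 ≤ n - 1) (Nat.sub_le n 1)]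
    at s2
  rw [t1] at c1
  rw [t2] at c2
  rw [abs_le] at s2 c1 c2 d1 d2 ⊢
  constructor <;> linarith [s2.1, s2.2, c1.1, c1.2, c2.1, c2.2, d1.1, d1.2, d2.1, d2.2]

end HexObs.PWd
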