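import Pool.Agent.PW.LiftU
import Pool.Agent.PW.WindT
import Pool.Agent.PW.RevT
import Pool.Agent.PW.ThDef

/-!
PW, row E1d (helper15): the winding angle of a word of the cylinder is the turn around the start up to the first exit of a
macroscopic ball minus the turn around the tip behind the last vertex outside of a macroscopic ball, up to a constant, off a
set of small mass.

* `mid_split` : deterministic;
* `e1d_of` : the mass statement, from `NoRetSt`, `TrTSt` (helper65), `BoxTs`, `LeafTs`.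
-/

set_option autoImplicit false

namespace HexObs

namespace PWd

open Finset TIW SDN NTW NTA TPC TPC.An PW.BL PWT

open NTF (JJ JJ_add JJ_sub JJ_neg JJ_norm)

open scoped ENNReal

/-! ### 1. Norms -/

lemma norm_le_hn (v : Pt) : ‖JJ v‖ ≤ hn v := by
  have h1 := JJ_norm v
  have h2 : ((nrm v : ℤ) : ℝ) ≤ (hn v : ℝ) ^ 2 := by exact_mod_cast nrm_le_hn v
  have h3 : (0 : ℝ) ≤ hn v := by exact_mod_cast hn_nonneg v
  nlinarith [norm_nonneg (JJ v)]

lemma hn_le_norm (v : Pt) : (hn v : ℝ) ≤ 2 * ‖JJ v‖ := by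
  have h1 := JJ_norm v
  have h2 : (hn v : ℝ) ^ 2 ≤ 4 * ((nrm v : ℤ) : ℝ) := by exact_mod_cast hn_sq_le v
  have h3 : (0 : ℝ) ≤ hn v := by exact_mod_cast hn_nonneg v
  nlinarith [norm_nonneg (JJ v)]

/-! ### 2. The deterministic half -/

variable {k rb rc rs N0 : ℕ} {t : List Bool} {j1 j2 : ℕ}

lemma en_eq (t : List Bool) : en t = vx oo up t t.length := rfl

lemma hn_zero' : hn (vx oo up t 0) = 0 := by
  show hn oo = 0
  decide

lemma first_pos (h1 : IsFirst rb t j1) (hb : 1 ≤ rb) : 1 ≤ j1 := by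
  by_contra hc
  have h0 : j1 = 0 := by omega
  have h2 := h1.2.1
  rw [h0, hn_zero'] at h2
  omega

lemma first_le (h1 : IsFirst rb t j1) (hb : 1 ≤ rb) {i : ℕ} (hi : i ≤ j1) : hn (vx oo up t i) ≤ rb + 2 := by
  rcases Nat.lt_or_ge i j1 with h | h
  · have := h1.2.2 i h
    omega
  · have e : i = j1 := le_antisymm hi h
    have hp := first_pos h1 hb
    obtain ⟨l, rfl⟩ : ∃ l, j1 = l + 1 := ⟨j1 - 1, by omega⟩
    have h5 := h1.2.2 l (by omega)
    have h6 := hn_step t l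
    have h7 := hn_add (vx oo up t (l + 1) - vx oo up t l) (vx oo up t l)
    rw [sub_add_cancel] at h7
    rw [e]
    linarith

lemma last_lt (h2 : IsLast rb t j2) (hb : 1 ≤ rb) : j2 < t.length := by
  by_contra hc
  have h0 : j2 = t.length := le_antisymm h2.1 (not_lt.1 hc)
  have h3 := h2.2.1
  rw [h0, en_eq, sub_self] at h3
  have h4 : hn (0 : Pt) = 0 := by decide
  omega

lemma last_le (h2 : IsLast rb t j2) (hb : 1 ≤ rb) {i : ℕ} (hi : j2 ≤ i) (hi' : i ≤ t.length) :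
    hn (vx oo up t i - en t) ≤ rb + 2 := by
  rcases Nat.lt_or_ge j2 i with h | h
  · have := h2.2.2 i h hi'
    omega
  · have e : i = j2 := le_antisymm h hi
    have hp := last_lt h2 hb
    have h5 := h2.2.2 (j2 + 1) (by omega) (by omega)
    have h6 := hn_step t j2
    have h7 := hn_sub (vx oo up t (j2 + 1) - en t) (vx oo up t (j2 + 1) - vx oo up t j2)
    rw [show vx oo up t (j2 + 1) - en t - (vx oo up t (j2 + 1) - vx oo up t j2) = vx oo up t j2 - en t by abel] at h7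
    rw [e]
    linarith

lemma hn_diag (a : ℤ) : hn ((a, a) : Pt) = 3 * |a| := by
  have e1 : ip ((a, a) : Pt) up = 3 * a := by
    simp only [ip, up]
    ring
  have e2 : ip ((a, a) : Pt) (rotL up) = 0 := by
    simp only [ip, rotL, up]
    ring
  have e3 : ip ((a, a) : Pt) (rotR up) = 3 * a := by
    simp only [ip, rotR, up]
    ring
  unfold hn
  rw [e1, e2, e3, abs_zero, abs_mul]
  have h : |(3 : ℤ)| = 3 := by norm_num
  rw [h, max_eq_right (by positivity : (0 : ℤ) ≤ 3 * |a|), max_self]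

lemma hn_end {z : ℤ} (hz : en t = ((2 * z + 1) * (k : ℤ), (2 * z + 1) * (k : ℤ))) : 3 * (k : ℤ) ≤ hn (en t) := by
  rw [hz, hn_diag, abs_mul]
  have h1 : 1 ≤ |2 * z + 1| := by
    rcases abs_cases (2 * z + 1) with ⟨h, _⟩ | ⟨h, _⟩ <;> omega
  have h2 : |(k : ℤ)| = k := abs_of_nonneg (by positivity)
  rw [h2]
  nlinarith

/-- **the angle of a good word**, general cut indices -/
theorem mid_gen (ht : t ∈ TT k) (hr1 : ¬ RetE rc rb t) (hr2 : ¬ RetE rc rb (revT t)) (ht1 : ¬ TrE k rc t)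
    (ht2 : ¬ TrE k rc (revT t)) (hC : ¬ Chn0 rs N0 t) (hp1 : 1 ≤ j1) (h12 : j1 ≤ j2) (hp2 : j2 < t.length)
    (ho1 : (rb : ℤ) ≤ hn (vx oo up t j1)) (ho2 : (rb : ℤ) ≤ hn (vx oo up t j2 - en t))
    (hb1 : ∀ i, i ≤ j1 → ‖JJ (vx oo up t i)‖ + 1 / 2 ≤ k / 2)
    (hb2 : ∀ i, j2 ≤ i → i ≤ t.length → ‖JJ (vx oo up t i) - JJ (vx oo up t t.length)‖ + 1 / 2 ≤ k / 2)
    (hk1 : 1 ≤ k) (hc : 2 ≤ rc) (hck : rc ≤ k) (hs : 1 ≤ rs) (hs2 : (rs + 1) * (128 * k) ≤ rc ^ 2) :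
    |thW k t - (turn (fun i => JJ (vx oo up t i)) 1 j1 -
      turn (fun i => JJ (vx oo up t i) - JJ (vx oo up t t.length)) j2 (t.length - 1))| ≤ (N0 + 13) * (Real.pi / 4) := by
  obtain ⟨z, hz⟩ := ht.2.2.1
  have hne := ne_nil ht
  have hlen := revT_length hne
  have hk0 : (0 : ℝ) < k := by exact_mod_cast hk1
  have hrc0 : (2 : ℝ) ≤ rc := by exact_mod_cast hc
  have hρk : (rc : ℝ) / (4 * k) * k = rc / 4 := by field_simp
  -- far from the tip
  have far2 : ∀ i, i ≤ j2 → (rc : ℤ) ≤ hn (vx oo up t i - en t) := by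
    intro i hi
    by_contra hcon
    exact hr1 ⟨i, j2, hi, hp2.le, not_le.1 hcon, ho2⟩
  have far2' : ∀ i, i ≤ j2 → ∀ m : ℤ, (rc : ℤ) ≤ hn (vx oo up t i - en t + (2 * (k : ℤ) * m, 2 * (k : ℤ) * m)) := by
    intro i hi m
    rcases eq_or_ne m 0 with h0 | h0
    · subst h0
      have e : ((2 * (k : ℤ) * 0, 2 * (k : ℤ) * 0) : Pt) = 0 := by simp
      rw [e, add_zero]
      exact far2 i hi
    · by_contra hcon
      refine ht1 ⟨m, i, h0, hi.trans hp2.le, ?_⟩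
      rw [show vx oo up t i + (2 * (k : ℤ) * m, 2 * (k : ℤ) * m) - en t =
        vx oo up t i - en t + (2 * (k : ℤ) * m, 2 * (k : ℤ) * m) by abel]
      exact not_le.1 hcon
  -- far from the start
  obtain ⟨s, hs1, hrv⟩ := hn_revT ht
  have hrv0 : ∀ i, i ≤ t.length → ∀ m : ℤ, hn (vx oo up (revT t) (t.length - i) + (2 * (k : ℤ) * (s * m), 2 * (k : ℤ) * (s * m))
      - en (revT t)) = hn (vx oo up t i + (2 * (k : ℤ) * m, 2 * (k : ℤ) * m)) := by
    intro i hi m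
    have h3 := hrv (t.length - i) t.length (Nat.sub_le _ _) le_rfl (s * m)
    have e1 : s * (s * m) = m := by rcases hs1 with h | h <;> subst h <;> ring
    rw [show t.length - (t.length - i) = i by omega, Nat.sub_self, e1] at h3
    have e2 : en (revT t) = vx oo up (revT t) t.length := by rw [en_eq, hlen]
    rw [e2, h3]
    have e3 : vx oo up t 0 = (0 : Pt) := rfl
    rw [e3, sub_zero]
  have far1 : ∀ i, j1 ≤ i → i ≤ t.length → (rc : ℤ) ≤ hn (vx oo up t i) := by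
    intro i hi hi'
    by_contra hcon
    have e : ((2 * (k : ℤ) * (s * 0), 2 * (k : ℤ) * (s * 0)) : Pt) = 0 := by simp
    have e' : ((2 * (k : ℤ) * 0, 2 * (k : ℤ) * 0) : Pt) = 0 := by simp
    have h3 := hrv0 i hi' 0
    have h4 := hrv0 j1 (hi.trans hi') 0
    rw [e, e', add_zero, add_zero] at h3 h4
    refine hr2 ⟨t.length - i, t.length - j1, by omega, by rw [hlen]; omega, ?_, ?_⟩
    · rw [h3]
      exact not_le.1 hcon
    · rw [h4]
      exact ho1
  have far1' : ∀ i, j1 ≤ i → i ≤ t.length → ∀ m : ℤ, (rc : ℤ) ≤ hn (vx oo up t i + (2 * (k : ℤ) * m, 2 * (k : ℤ) * m)) := by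
    intro i hi hi' m
    rcases eq_or_ne m 0 with h0 | h0
    · subst h0
      have e : ((2 * (k : ℤ) * 0, 2 * (k : ℤ) * 0) : Pt) = 0 := by simp
      rw [e, add_zero]
      exact far1 i hi hi'
    · by_contra hcon
      refine ht2 ⟨s * m, t.length - i, ?_, by rw [hlen]; omega, ?_⟩
      · rcases hs1 with h | h <;> subst h <;> simpa using h0
      · rw [hrv0 i hi' m]
        exact not_le.1 hcon
  have hnorm : ∀ v : Pt, (rc : ℤ) ≤ hn v → (rc : ℝ) / (4 * k) * k + 1 / 2 ≤ ‖JJ v‖ := by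
    intro v hv
    rw [hρk]
    have h3 := hn_le_norm v
    have h4 : (rc : ℝ) ≤ hn v := by exact_mod_cast hv
    linarith
  obtain ⟨N, σ, h3, h4, h5⟩ := ang_words hk1 ((TT_iff hk1).1 ht) hz (ρ := rc / (4 * k)) (r := rs) hp1 h12 (by omega)
    hb1 hb2 (by positivity)
    (by
      rw [div_le_one (by positivity)]
      have : (rc : ℝ) ≤ k := by exact_mod_cast hck
      linarith)
    (by exact_mod_cast hs)
    (by
      have h3 : ((rs : ℝ) + 1) * (128 * k) ≤ (rc : ℝ) ^ 2 := by exact_mod_cast hs2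
      have e : ((rc : ℝ) / (4 * k)) ^ 2 * k / 8 = rc ^ 2 / (128 * k) := by
        field_simp
        ring
      rw [e, le_div_iff₀ (by positivity)]
      exact h3)
    (fun i hi hi' m => hnorm _ (far1' i hi (hi'.trans hp2.le) m))
    (fun i hi hi' m => hnorm _ (far2' i hi' m))
  have hN : N < N0 := by
    by_contra hcon
    rw [not_lt] at hcon
    refine hC ⟨σ, fun j hj => (h4 j (by omega)).1.le, ?_, fun j hj => ?_⟩
    · rcases Nat.eq_zero_or_pos N0 with h0 | h0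
      · rw [h0, h3]
        exact h12.trans hp2.le
      · have := (h4 (N0 - 1) (by omega)).2.1
        rw [Nat.sub_add_cancel h0] at this
        exact this.trans hp2.le
    · have h6 := (h4 j (by omega)).2.2.1
      have h7 := norm_JJ_sub_sq (vx oo up t (σ (j + 1))) (vx oo up t (σ j))
      have h8 : ((rs : ℝ)) ^ 2 ≤ ((nrm (vx oo up t (σ (j + 1)) - vx oo up t (σ j)) : ℤ) : ℝ) := by
        rw [← h7]
        exact pow_le_pow_left₀ (by positivity) h6 2
      exact_mod_cast h8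
  have h6 : ((N : ℝ) + 13) * (Real.pi / 4) ≤ (N0 + 13) * (Real.pi / 4) := by
    have h7 : (N : ℝ) ≤ N0 := by exact_mod_cast hN.le
    have h8 : 0 < Real.pi / 4 := by positivity
    nlinarith
  exact h5.trans h6

/-- **the angle of a good word** -/
theorem mid_split (ht : t ∈ TT k) (hr1 : ¬ RetE rc rb t) (hr2 : ¬ RetE rc rb (revT t)) (ht1 : ¬ TrE k rc t)
    (ht2 : ¬ TrE k rc (revT t)) (hC : ¬ Chn0 rs N0 t) (h1 : IsFirst rb t j1) (h2 : IsLast rb t j2) (hb : 1 ≤ rb)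
    (hk : 2 * rb + 5 ≤ k) (hc : 2 ≤ rc) (hcb : rc ≤ rb) (hs : 1 ≤ rs) (hs2 : (rs + 1) * (128 * k) ≤ rc ^ 2) :
    |thW k t - (turn (fun i => JJ (vx oo up t i)) 1 j1 -
      turn (fun i => JJ (vx oo up t i) - JJ (vx oo up t t.length)) j2 (t.length - 1))| ≤ (N0 + 13) * (Real.pi / 4) := by
  obtain ⟨z, hz⟩ := ht.2.2.1
  have hz' : en t = ((2 * z + 1) * (k : ℤ), (2 * z + 1) * (k : ℤ)) := hz
  have hkR : 2 * (rb : ℝ) + 5 ≤ k := by exact_mod_cast hk
  exact mid_gen ht hr1 hr2 ht1 ht2 hC (first_pos h1 hb) (first_le_last h1 h2 (by have := hn_end hz'; omega) hb)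
    (last_lt h2 hb) h1.2.1 h2.2.1
    (fun i hi => by
      have h3 := norm_le_hn (vx oo up t i)
      have h4 : (hn (vx oo up t i) : ℝ) ≤ rb + 2 := by exact_mod_cast first_le h1 hb hi
      linarith)
    (fun i hi hi' => by
      rw [← JJ_sub]
      have h3 := norm_le_hn (vx oo up t i - vx oo up t t.length)
      have h4 : (hn (vx oo up t i - vx oo up t t.length) : ℝ) ≤ rb + 2 := by exact_mod_cast last_le h2 hb hi hi'
      linarith)
    (by omega) hc (by omega) hs hs2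

/-! ### 3. The mass -/

/-- row TrV, v = 0: the words of the cylinder with a given end over `(k, k)` which come back to their tip from afar -/
def NoRetSt : Prop := ∀ ε : ℝ, 0 < ε → ∀ C : ℕ, ∃ c1 k0 : ℕ, ∀ (k : ℕ) (z : ℤ), k0 ≤ k →
  gf {t | (t ∈ SA ∧ Dsj k t ∧ en t = ((2 * z + 1) * (k : ℤ), (2 * z + 1) * (k : ℤ))) ∧ ∃ i l, i ≤ l ∧ l ≤ t.length ∧
    hn (vx oo up t i - en t) < 2 ^ (Nat.log 2 k - c1) ∧ 2 ^ (Nat.log 2 k - C) ≤ hn (vx oo up t l - en t)} ≤
    ENNReal.ofReal ε * gK (Nat.log 2 k)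

/-- row TrV: translates -/
def TrTSt' : Prop := ∀ ε : ℝ, 0 < ε → ∃ c1 k0 : ℕ, ∀ (k : ℕ) (z : ℤ), k0 ≤ k →
  gf {t | (t ∈ SA ∧ Dsj k t ∧ en t = ((2 * z + 1) * (k : ℤ), (2 * z + 1) * (k : ℤ))) ∧ ∃ (m : ℤ) (i : ℕ), m ≠ 0 ∧
    i ≤ t.length ∧ hn (vx oo up t i + (2 * (k : ℤ) * m, 2 * (k : ℤ) * m) - en t) < 2 ^ (Nat.log 2 k - c1)} ≤
    ENNReal.ofReal ε * gK (Nat.log 2 k)

/-- the exceptional words -/
def BadT (k rb rc rs N0 : ℕ) (t : List Bool) : Prop :=
  RetE rc rb t ∨ TrE k rc t ∨ RetE rc rb (revT t) ∨ TrE k rc (revT t) ∨ Chn0 rs N0 t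

/-- **the exceptional words are rare** -/
theorem bad_of (hB : BoxTs) (hL : LeafTs) (hR : NoRetSt) (hT : TrTSt') (C : ℕ) (ε : ℝ) (hε : 0 < ε) :
    ∃ c N0 k0 : ℕ, C ≤ c ∧ 2 * c + 9 + C + 4 ≤ Nat.log 2 k0 ∧ ∀ k, k0 ≤ k →
      gf {t | t ∈ TT k ∧ BadT k (2 ^ (Nat.log 2 k - C)) (2 ^ (Nat.log 2 k - c)) (2 ^ (Nat.log 2 k - (2 * c + 9))) N0 t} ≤
        ENNReal.ofReal ε * gK (Nat.log 2 k) := by
  obtain ⟨δ, k1, hδ, hlift⟩ := lift_union hB (ε := ε / 5) (by positivity)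
  obtain ⟨c1, k2, hR⟩ := hR δ hδ C
  obtain ⟨c2, k3, hT⟩ := hT δ hδ
  obtain ⟨c, hc⟩ : ∃ c, c = max (max c1 c2) C := ⟨_, rfl⟩
  have hc1 : c1 ≤ c := by rw [hc]; exact (le_max_left _ _).trans (le_max_left _ _)
  have hc2 : c2 ≤ c := by rw [hc]; exact (le_max_right _ _).trans (le_max_left _ _)
  have hcC : C ≤ c := by rw [hc]; exact le_max_right _ _
  obtain ⟨N0, k4, hch⟩ := chainT_of hB hL (ε / 5) (2 * c + 9) (by positivity)
  refine ⟨c, N0, max (max (max k1 k2) (max k3 k4)) (2 ^ (2 * c + 9 + C + 4)), hcC,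
    Nat.le_log_of_pow_le (by norm_num) (le_max_right _ _), fun k hk => ?_⟩
  have hk1 : k1 ≤ k := (le_max_left _ _).trans ((le_max_left _ _).trans ((le_max_left _ _).trans hk))
  have hk2 : k2 ≤ k := (le_max_right _ _).trans ((le_max_left _ _).trans ((le_max_left _ _).trans hk))
  have hk3 : k3 ≤ k := (le_max_left _ _).trans ((le_max_right _ _).trans ((le_max_left _ _).trans hk))
  have hk4 : k4 ≤ k := (le_max_right _ _).trans ((le_max_right _ _).trans ((le_max_left _ _).trans hk))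
  have hch := hch k ((k : ℤ), (k : ℤ)) hk4
  have hlift := hlift k hk1
  obtain ⟨K, hK⟩ : ∃ K, K = Nat.log 2 k := ⟨_, rfl⟩
  -- the four events
  have m1 : gf {t | t ∈ TT k ∧ RetE (2 ^ (K - c)) (2 ^ (K - C)) t} ≤ ENNReal.ofReal (ε / 5) * gK K := by
    rw [hK]
    refine hlift _ fun z => (gf_mono ?_).trans (hR k z hk2)
    rintro t ⟨h1, i, l, h2, h3, h4, h5⟩
    refine ⟨h1, i, l, h2, h3, lt_of_lt_of_le h4 ?_, ?_⟩
    · push_cast
      exact pow_le_pow_right₀ (by norm_num) (by omega)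
    · push_cast at h5
      exact h5
  have m2 : gf {t | t ∈ TT k ∧ TrE k (2 ^ (K - c)) t} ≤ ENNReal.ofReal (ε / 5) * gK K := by
    rw [hK]
    refine hlift _ fun z => (gf_mono ?_).trans (hT k z hk3)
    rintro t ⟨h1, m, i, h2, h3, h4⟩
    refine ⟨h1, m, i, h2, h3, lt_of_lt_of_le h4 ?_⟩
    push_cast
    exact pow_le_pow_right₀ (by norm_num) (by omega)
  have m3 : gf {t | t ∈ TT k ∧ RetE (2 ^ (K - c)) (2 ^ (K - C)) (revT t)} ≤ ENNReal.ofReal (ε / 5) * gK K := by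
    rw [gf_revT (k := k) (fun t => RetE (2 ^ (K - c)) (2 ^ (K - C)) t)]
    exact m1
  have m4 : gf {t | t ∈ TT k ∧ TrE k (2 ^ (K - c)) (revT t)} ≤ ENNReal.ofReal (ε / 5) * gK K := by
    rw [gf_revT (k := k) (fun t => TrE k (2 ^ (K - c)) t)]
    exact m2
  have m5 : gf {t | t ∈ TT k ∧ Chn0 (2 ^ (K - (2 * c + 9))) N0 t} ≤ ENNReal.ofReal (ε / 5) * gK K := by
    rw [hK]
    refine (gf_mono ?_).trans hch
    rintro t ⟨⟨h1, h2, ⟨z, h3⟩, -⟩, h5⟩
    refine ⟨h1, h2, ⟨z, ?_⟩, h5⟩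
    rw [h3]
    refine Prod.ext ?_ ?_ <;> simp only [Prod.fst_add, Prod.snd_add] <;> ring
  rw [← hK]
  have hsub : {t | t ∈ TT k ∧ BadT k (2 ^ (K - C)) (2 ^ (K - c)) (2 ^ (K - (2 * c + 9))) N0 t} ⊆
      {t | t ∈ TT k ∧ RetE (2 ^ (K - c)) (2 ^ (K - C)) t} ∪ ({t | t ∈ TT k ∧ TrE k (2 ^ (K - c)) t} ∪
      ({t | t ∈ TT k ∧ RetE (2 ^ (K - c)) (2 ^ (K - C)) (revT t)} ∪ ({t | t ∈ TT k ∧ TrE k (2 ^ (K - c)) (revT t)} ∪
      {t | t ∈ TT k ∧ Chn0 (2 ^ (K - (2 * c + 9))) N0 t}))) := by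
    rintro t ⟨ht, h | h | h | h | h⟩
    · exact Or.inl ⟨ht, h⟩
    · exact Or.inr (Or.inl ⟨ht, h⟩)
    · exact Or.inr (Or.inr (Or.inl ⟨ht, h⟩))
    · exact Or.inr (Or.inr (Or.inr (Or.inl ⟨ht, h⟩)))
    · exact Or.inr (Or.inr (Or.inr (Or.inr ⟨ht, h⟩)))
  calc _ ≤ _ := gf_mono hsub
    _ ≤ ENNReal.ofReal (ε / 5) * gK K + (ENNReal.ofReal (ε / 5) * gK K + (ENNReal.ofReal (ε / 5) * gK K +
        (ENNReal.ofReal (ε / 5) * gK K + ENNReal.ofReal (ε / 5) * gK K))) := by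
      refine (gf_union_le _ _).trans (add_le_add m1 ?_)
      refine (gf_union_le _ _).trans (add_le_add m2 ?_)
      refine (gf_union_le _ _).trans (add_le_add m3 ?_)
      exact (gf_union_le _ _).trans (add_le_add m4 m5)
    _ = ENNReal.ofReal ε * gK K := by
      have e : ENNReal.ofReal ε = ENNReal.ofReal (ε / 5) + (ENNReal.ofReal (ε / 5) + (ENNReal.ofReal (ε / 5) +
          (ENNReal.ofReal (ε / 5) + ENNReal.ofReal (ε / 5)))) := by
        rw [← ENNReal.ofReal_add (by positivity) (by positivity), ← ENNReal.ofReal_add (by positivity) (by positivity),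
          ← ENNReal.ofReal_add (by positivity) (by positivity), ← ENNReal.ofReal_add (by positivity) (by positivity)]
        congr 1
        ring
      rw [e]
      ring

/-- the sizes -/
lemma sizes {k C c : ℕ} (hC : 2 ≤ C) (hcC : C ≤ c) (hk5 : 2 * c + 9 + C + 4 ≤ Nat.log 2 k) :
    1 ≤ k ∧ 2 * 2 ^ (Nat.log 2 k - C) + 5 ≤ k ∧ 2 ≤ 2 ^ (Nat.log 2 k - c) ∧ 2 ^ (Nat.log 2 k - c) ≤ 2 ^ (Nat.log 2 k - C) ∧
      (2 ^ (Nat.log 2 k - (2 * c + 9)) + 1) * (128 * k) ≤ (2 ^ (Nat.log 2 k - c)) ^ 2 := by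
  have hkne : k ≠ 0 := by
    rintro rfl
    simp at hk5
  have hlow : 2 ^ Nat.log 2 k ≤ k := Nat.pow_log_le_self 2 hkne
  have hupp : k < 2 ^ (Nat.log 2 k + 1) := Nat.lt_pow_succ_log_self (by norm_num) k
  obtain ⟨K, hK⟩ : ∃ K, K = Nat.log 2 k := ⟨_, rfl⟩
  rw [← hK] at hk5 hlow hupp ⊢
  refine ⟨by omega, ?_, ?_, ?_, ?_⟩
  · have e : K = (K - C - 3) + 3 + C := by omega
    have h3 : 2 ^ K = 2 ^ (K - C - 3) * 8 * 2 ^ C := by
      conv_lhs => rw [e, pow_add, pow_add]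
      norm_num
    have h4 : 2 ^ (K - C) = 2 ^ (K - C - 3) * 8 := by
      rw [show K - C = K - C - 3 + 3 by omega, pow_add]
      norm_num
    have h5 : 4 ≤ 2 ^ C := by
      calc 4 = 2 ^ 2 := by norm_num
        _ ≤ 2 ^ C := Nat.pow_le_pow_right (by norm_num) hC
    have h6 := Nat.one_le_two_pow (n := K - C - 3)
    rw [h4]
    nlinarith
  · calc 2 = 2 ^ 1 := by norm_num
      _ ≤ 2 ^ (K - c) := Nat.pow_le_pow_right (by norm_num) (by omega)
  · exact Nat.pow_le_pow_right (by norm_num) (by omega)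
  · have h3 : (2 ^ (K - c)) ^ 2 = 2 ^ (K - (2 * c + 9)) * 2 ^ 9 * 2 ^ K := by
      rw [← pow_mul, ← pow_add, ← pow_add]
      congr 1
      omega
    have h4 : 2 ^ (K + 1) = 2 * 2 ^ K := by rw [pow_succ]; ring
    have h5 := Nat.one_le_two_pow (n := K - (2 * c + 9))
    rw [h3]
    rw [h4] at hupp
    have h6 : (2 ^ (K - (2 * c + 9)) + 1) ≤ 2 * 2 ^ (K - (2 * c + 9)) := by omega
    calc (2 ^ (K - (2 * c + 9)) + 1) * (128 * k) ≤ (2 * 2 ^ (K - (2 * c + 9))) * (128 * (2 * 2 ^ K)) :=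
          Nat.mul_le_mul h6 (by omega)
      _ = _ := by ring

/-- the angle of the word is given by the turns around its two ends -/
def AngE (k C : ℕ) (L : ℝ) (t : List Bool) : Prop :=
  ∀ j1 j2, IsFirst (2 ^ (Nat.log 2 k - C)) t j1 → IsLast (2 ^ (Nat.log 2 k - C)) t j2 →
    |thW k t - (turn (fun i => JJ (vx oo up t i)) 1 j1 -
      turn (fun i => JJ (vx oo up t i) - JJ (vx oo up t t.length)) j2 (t.length - 1))| ≤ L

/-- **row E1d** -/
theorem e1d_of (hB : BoxTs) (hL : LeafTs) (hR : NoRetSt) (hT : TrTSt') (C : ℕ) (hC : 2 ≤ C) (ε : ℝ) (hε : 0 < ε) :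
    ∃ (L : ℝ) (k0 : ℕ), ∀ k, k0 ≤ k →
      gf {t | t ∈ TT k ∧ ¬ AngE k C L t} ≤ ENNReal.ofReal ε * gK (Nat.log 2 k) := by
  obtain ⟨c, N0, k0, hcC, hk0, h⟩ := bad_of hB hL hR hT C ε hε
  refine ⟨(N0 + 13) * (Real.pi / 4), k0, fun k hk => (gf_mono ?_).trans (h k hk)⟩
  rintro t ⟨ht, hA⟩
  refine ⟨ht, ?_⟩
  by_contra hcon
  unfold BadT at hcon
  rw [not_or, not_or, not_or, not_or] at hcon
  obtain ⟨a1, a2, a3, a4, a5⟩ := hcon
  obtain ⟨s0, s1, s2, s3, s4⟩ := sizes hC hcC (hk0.trans (Nat.log_mono_right hk))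
  exact hA fun j1 j2 h1 h2 => mid_split ht a1 a3 a2 a4 a5 h1 h2 Nat.one_le_two_pow s1 s2 s3 Nat.one_le_two_pow s4

/-! ### 4. Euclidean first exits -/

open NTSF (pS pE ex_spec ex_min ex_le ex_le_of)

/-- row E1 in the language of ThDef -/
def E1S : Prop := ∀ ε : ℝ, 0 < ε → ∃ C0 : ℕ, ∀ C, C0 ≤ C → ∃ (L : ℝ) (k0 : ℕ), ∀ k, k0 ≤ k →
  gf {t | t ∈ TT k ∧ L < |thW k t - (NTSF.th ((2 : ℝ) ^ (Nat.log 2 k - C - 1)) t.length (pS t) +
    NTSF.th ((2 : ℝ) ^ (Nat.log 2 k - C - 1)) t.length (pE t.length t))|} ≤ ENNReal.ofReal ε * gK (Nat.log 2 k)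

/-- first exit in the euclidean norm -/
lemma ex_bound {r : ℝ} {m : ℕ} {z : ℕ → ℂ} (h0 : z 0 = 0) (hr : 0 < r) (hst : ∀ i, ‖z (i + 1)‖ ≤ ‖z i‖ + 1)
    (hex : ∃ i, i ≤ m ∧ r ≤ ‖z i‖) : 1 ≤ NTSF.ex r m z ∧ ∀ i, i ≤ NTSF.ex r m z → ‖z i‖ ≤ r + 1 := by
  have h1 := ex_spec hex
  have h2 : 1 ≤ NTSF.ex r m z := by
    by_contra hc
    have h3 : NTSF.ex r m z = 0 := by omega
    rw [h3, h0, norm_zero] at h1
    linarith
  refine ⟨h2, fun i hi => ?_⟩
  rcases Nat.lt_or_ge i (NTSF.ex r m z) with h | h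
  · have := ex_min h
    linarith
  · have e : i = NTSF.ex r m z := le_antisymm hi h
    have h3 := hst (NTSF.ex r m z - 1)
    rw [Nat.sub_add_cancel h2] at h3
    have h4 := ex_min (r := r) (m := m) (z := z) (i := NTSF.ex r m z - 1) (by omega)
    rw [e]
    linarith

/-- **row E1, euclidean first exits** -/
theorem e1S_of (hB : BoxTs) (hL : LeafTs) (hR : NoRetSt) (hT : TrTSt') : E1S := by
  intro ε hε
  refine ⟨1, fun C hC => ?_⟩
  obtain ⟨c, N0, k0, hcC, hk0, h⟩ := bad_of hB hL hR hT (C + 1) ε hε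
  refine ⟨(N0 + 13) * (Real.pi / 4), k0, fun k hk => (gf_mono ?_).trans (h k hk)⟩
  rintro t ⟨ht, hA⟩
  refine ⟨ht, ?_⟩
  by_contra hcon
  unfold BadT at hcon
  rw [not_or, not_or, not_or, not_or] at hcon
  obtain ⟨a1, a2, a3, a4, a5⟩ := hcon
  obtain ⟨s0, s1, s2, s3, s4⟩ := sizes (by omega : 2 ≤ C + 1) hcC (hk0.trans (Nat.log_mono_right hk))
  refine absurd hA (not_lt.2 ?_)
  obtain ⟨rb, hrb⟩ : ∃ rb, rb = 2 ^ (Nat.log 2 k - (C + 1)) := ⟨_, rfl⟩
  have hrr : (2 : ℝ) ^ (Nat.log 2 k - C - 1) = rb := by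
    rw [hrb, Nat.sub_sub]
    push_cast
    rfl
  rw [hrr]
  rw [← hrb] at a1 a3 s1 s3
  have hb : 1 ≤ rb := by
    rw [hrb]
    exact Nat.one_le_two_pow
  have hbR : (1 : ℝ) ≤ rb := by exact_mod_cast hb
  have hkR : 2 * (rb : ℝ) + 5 ≤ k := by exact_mod_cast s1
  obtain ⟨z, hz⟩ := ht.2.2.1
  obtain ⟨n, hn'⟩ : ∃ n, n = t.length := ⟨_, rfl⟩
  have h0 : vx oo up t 0 = (0 : Pt) := rfl
  have hJ0 : JJ (0 : Pt) = 0 := by
    have := JJ_sub (0 : Pt) 0
    rw [sub_self, sub_self] at this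
    exact this
  -- the distance of the ends
  have hend : (rb : ℝ) * 2 + 2 ≤ ‖JJ (vx oo up t t.length)‖ := by
    have h3 := hn_end (t := t) (k := k) (z := z) hz
    have h4 := norm_le_hn (vx oo up t t.length)
    have h5 := hn_le_norm (vx oo up t t.length)
    have h6 : 3 * (k : ℝ) ≤ (hn (vx oo up t t.length) : ℝ) := by exact_mod_cast h3
    linarith
  have hstep : ∀ i, ‖JJ (vx oo up t (i + 1)) - JJ (vx oo up t i)‖ = 1 := fun i => norm_step t i
  -- the start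
  have hS0 : pS t 0 = 0 := by
    unfold pS
    rw [h0, hJ0]
  have hS1 : ∀ i, ‖pS t (i + 1)‖ ≤ ‖pS t i‖ + 1 := by
    intro i
    have h3 := norm_sub_norm_le (JJ (vx oo up t (i + 1))) (JJ (vx oo up t i))
    rw [hstep] at h3
    show ‖JJ (vx oo up t (i + 1))‖ ≤ ‖JJ (vx oo up t i)‖ + 1
    linarith
  have hS2 : ∃ i, i ≤ t.length ∧ (rb : ℝ) ≤ ‖pS t i‖ := ⟨t.length, le_rfl, by
    show (rb : ℝ) ≤ ‖JJ (vx oo up t t.length)‖
    linarith⟩
  obtain ⟨p1, p2⟩ := ex_bound hS0 (by linarith) hS1 hS2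
  have p3 := ex_spec hS2
  -- the end
  have hE0 : pE t.length t 0 = 0 := by
    unfold pE
    rw [Nat.sub_zero, sub_self]
  have hE1 : ∀ i, ‖pE t.length t (i + 1)‖ ≤ ‖pE t.length t i‖ + 1 := by
    intro i
    show ‖JJ (vx oo up t (t.length - (i + 1))) - JJ (vx oo up t t.length)‖ ≤
      ‖JJ (vx oo up t (t.length - i)) - JJ (vx oo up t t.length)‖ + 1
    rcases Nat.lt_or_ge i t.length with h | h
    · have h3 := hstep (t.length - (i + 1))
      rw [show t.length - (i + 1) + 1 = t.length - i by omega] at h3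
      have h4 := norm_sub_norm_le (JJ (vx oo up t (t.length - (i + 1))) - JJ (vx oo up t t.length))
        (JJ (vx oo up t (t.length - i)) - JJ (vx oo up t t.length))
      rw [show JJ (vx oo up t (t.length - (i + 1))) - JJ (vx oo up t t.length) -
        (JJ (vx oo up t (t.length - i)) - JJ (vx oo up t t.length)) =
        -(JJ (vx oo up t (t.length - i)) - JJ (vx oo up t (t.length - (i + 1)))) by ring, norm_neg, h3] at h4
      linarith
    · rw [show t.length - (i + 1) = t.length - i by omega]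
      linarith
  have hE2 : ∃ i, i ≤ t.length ∧ (rb : ℝ) ≤ ‖pE t.length t i‖ := ⟨t.length, le_rfl, by
    show (rb : ℝ) ≤ ‖JJ (vx oo up t (t.length - t.length)) - JJ (vx oo up t t.length)‖
    rw [Nat.sub_self, h0, hJ0, zero_sub, norm_neg]
    linarith⟩
  obtain ⟨q1, q2⟩ := ex_bound hE0 (by linarith) hE1 hE2
  have q3 := ex_spec hE2
  obtain ⟨j1, hj1⟩ : ∃ j1, j1 = NTSF.ex rb t.length (pS t) := ⟨_, rfl⟩
  obtain ⟨e2, he2⟩ : ∃ e2, e2 = NTSF.ex rb t.length (pE t.length t) := ⟨_, rfl⟩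
  have hj1l : j1 ≤ t.length := by rw [hj1]; exact ex_le _ _ _
  have he2l : e2 ≤ t.length := by rw [he2]; exact ex_le _ _ _
  have p4 : ∀ i, i ≤ j1 → ‖JJ (vx oo up t i)‖ ≤ rb + 1 := by
    intro i hi
    rw [hj1] at hi
    exact p2 i hi
  have q4 : ∀ i, t.length - e2 ≤ i → i ≤ t.length → ‖JJ (vx oo up t i) - JJ (vx oo up t t.length)‖ ≤ rb + 1 := by
    intro i hi hi'
    have h3 := q2 (t.length - i) (by rw [← he2]; omega)
    have h4 : pE t.length t (t.length - i) = JJ (vx oo up t i) - JJ (vx oo up t t.length) := by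
      unfold pE
      rw [show t.length - (t.length - i) = i by omega]
    rw [h4] at h3
    exact h3
  rw [← hj1] at p1 p3
  rw [← he2] at q1 q3
  have h12 : j1 ≤ t.length - e2 := by
    by_contra hc
    have h3 := p4 j1 le_rfl
    have h4 := q4 j1 (by omega) hj1l
    have h5 := norm_sub_norm_le (JJ (vx oo up t t.length)) (JJ (vx oo up t j1))
    rw [norm_sub_rev] at h5
    have h6 : ‖JJ (vx oo up t j1) - JJ (vx oo up t t.length)‖ < rb := by
      have h7 := ex_min (r := rb) (m := t.length) (z := pE t.length t) (i := t.length - j1) (by rw [← he2]; omega)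
      have h8 : pE t.length t (t.length - j1) = JJ (vx oo up t j1) - JJ (vx oo up t t.length) := by
        unfold pE
        rw [show t.length - (t.length - j1) = j1 by omega]
      rw [h8] at h7
      exact h7
    linarith
  have hlen : 1 ≤ t.length := by omega
  have key := mid_gen (t := t) (k := k) (rb := rb) (rc := 2 ^ (Nat.log 2 k - c)) (j1 := j1) (j2 := t.length - e2) ht a1 a3 a2
    a4 a5 p1 h12 (by omega)
    (by
      have h3 := norm_le_hn (vx oo up t j1)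
      have h4 : (rb : ℝ) ≤ ‖JJ (vx oo up t j1)‖ := p3
      have h5 : ((rb : ℕ) : ℝ) ≤ ((hn (vx oo up t j1) : ℤ) : ℝ) := h4.trans h3
      exact_mod_cast h5)
    (by
      have h3 := norm_le_hn (vx oo up t (t.length - e2) - en t)
      rw [JJ_sub] at h3
      have h4 : (rb : ℝ) ≤ ‖JJ (vx oo up t (t.length - e2)) - JJ (en t)‖ := q3
      have h5 : ((rb : ℕ) : ℝ) ≤ ((hn (vx oo up t (t.length - e2) - en t) : ℤ) : ℝ) := h4.trans h3
      exact_mod_cast h5)
    (fun i hi => by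
      have := p4 i hi
      linarith)
    (fun i hi hi' => by
      have := q4 i hi hi'
      linarith)
    s0 s2 (by omega) Nat.one_le_two_pow s4
  have hth : NTSF.th (rb : ℝ) t.length (pE t.length t) =
      -turn (fun i => JJ (vx oo up t i) - JJ (vx oo up t t.length)) (t.length - e2) (t.length - 1) := by
    unfold NTSF.th
    rw [← he2]
    have harg : ∀ i, t.length - e2 ≤ i → i < t.length - 1 →
        (((fun i => JJ (vx oo up t i) - JJ (vx oo up t t.length)) (i + 1) /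
          (fun i => JJ (vx oo up t i) - JJ (vx oo up t t.length)) i)).arg ≠ Real.pi := by
      intro i h1 h2 h3
      have h4 := arg_step_lt (t := t) (i := i) (p := vx oo up t t.length) (ht.1.2 _ _ (by omega) le_rfl)
        (ht.1.2 _ _ (by omega) le_rfl)
      simp only at h3
      rw [h3, abs_of_pos Real.pi_pos] at h4
      linarith [Real.pi_pos]
    have h3 := turn_rev (z := fun i => JJ (vx oo up t i) - JJ (vx oo up t t.length)) (n := t.length)
      (m := t.length - e2) (m' := t.length - 1) (by omega) (by omega) harg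
    rw [show t.length - (t.length - e2) = e2 by omega, show t.length - (t.length - 1) = 1 by omega] at h3
    exact h3
  have hthS : NTSF.th (rb : ℝ) t.length (pS t) = turn (fun i => JJ (vx oo up t i)) 1 j1 := by
    unfold NTSF.th
    rw [← hj1]
    rfl
  rw [hth, hthS, ← sub_eq_add_neg]
  exact key

end PWd

end HexObs
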