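import Pool.Agent.PW.HumpF
import Pool.Agent.PW.E1d

/-!
PW, row TrV (helper65): the rows in the literal form of E1d.
-/

set_option autoImplicit false

namespace HexObs

namespace PW

/-- **no return to the tip** -/
theorem noRetT (hS : TPC.SD) : PWd.NoRetSt := fun ε hε C => by
  obtain ⟨c1, k0, -, h⟩ := noret_cyl hS ε C hε
  exact ⟨c1, k0, h⟩

/-- translates of the tip -/
theorem trT' (hS : TPC.SD) : PWd.TrTSt' := fun ε hε => by
  obtain ⟨c1, k0, -, h⟩ := tr_cyl hS ε hε
  exact ⟨c1, k0, h⟩

end PW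

end HexObs
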