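import Pool.Agent.PW.E1d
import Pool.Agent.PW.LeafTZ
import Pool.Agent.PW.NoRetT
import Pool.Agent.TPC.SDZ
import Pool.Agent.TPF.URZ

/-!
PW (winding of the walk), row E1d (helper15): `E1S` without hypothesis.
-/

set_option autoImplicit false

namespace HexObs

namespace PWd

/-- **row E1d** -/
theorem e1S : E1S := e1S_of boxT leafT (PW.noRetT (TPC.sd_of_UR TPF.ur)) (PW.trT' (TPC.sd_of_UR TPF.ur))

end PWd

end HexObs
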