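import Pool.Agent.PW.Geo5
import Pool.Agent.TIP.ClsB

/-!
# PW, row DomT: the words of the cylinder with a given end, compared with words that start with a bridge (helper29, helper73)

`domT`: off a set of mass at most `ε gg K` every word of the cylinder with the end `y` is `X ++ R`, `X` near the start, `R` in
`BotS`; `domSt` is the form for sets.
-/

set_option autoImplicit false

namespace HexObs

namespace PW

open Finset TS SDN NTW NTA SIM JNT TIP TPC TIP.RevM TPF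

open scoped ENNReal

namespace DT

lemma rot_le {c : Pt} (hc : c ∈ dirs) {v : Pt} {B : ℤ} (h1 : |v.1| ≤ B) (h2 : |v.2| ≤ B) :
    |(mulE c v).1| ≤ 2 * B ∧ |(mulE c v).2| ≤ 2 * B := by
  obtain ⟨x, y⟩ := v
  simp only [dirs, mem_insert, mem_singleton] at hc
  rw [abs_le] at *
  rw [abs_le]
  rcases hc with rfl | rfl | rfl | rfl | rfl | rfl <;> simp only [mulE] at * <;> constructor <;> constructor <;> omega

/-- a word of a ball followed by a local word -/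
lemma In_cat {D E : ℕ} {L V : List Bool} (h1 : In D L) (h2 : In E V) : In (D + 2 * E) (L ++ V) := by
  intro i hi
  rcases Nat.lt_or_ge i L.length with h | h
  · rw [vx_append (by omega)]
    exact Bl_mono _ (by omega) (h1 i h.le)
  · obtain ⟨c, hc, -, hf⟩ := drop_frame' (L ++ V) L.length
    obtain ⟨j, rfl⟩ := Nat.exists_eq_add_of_le h
    rw [List.length_append] at hi
    have e1 := hf j
    have e0 : vx oo up (L ++ V) L.length = vx oo up L L.length := vx_append (by omega)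
    rw [List.drop_left, e0] at e1
    obtain ⟨a1, a2⟩ := In_coord h1 (i := L.length) le_rfl
    obtain ⟨b1, b2⟩ := In_coord h2 (i := j) (by omega)
    obtain ⟨d1, d2⟩ := rot_le hc b1 b2
    have e2 : (oo : Pt).1 = 0 := rfl
    have e3 : (oo : Pt).2 = 0 := rfl
    have e4 : (vx oo up (L ++ V) (L.length + j)).1 = (vx oo up L L.length).1 + (mulE c (vx oo up V j)).1 := by
      rw [e1]
      rfl
    have e5 : (vx oo up (L ++ V) (L.length + j)).2 = (vx oo up L L.length).2 + (mulE c (vx oo up V j)).2 := by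
      rw [e1]
      rfl
    rw [abs_le] at a1 a2 d1 d2
    refine ⟨?_, ?_⟩
    · rw [e4, e2, sub_zero, abs_le]
      push_cast
      constructor <;> omega
    · rw [e5, e3, sub_zero, abs_le]
      push_cast
      constructor <;> omega

lemma In_mono {D E : ℕ} (h : D ≤ E) {V : List Bool} (h2 : In D V) : In E V := fun i hi => Bl_mono _ h (h2 i hi)

lemma BotS_mono {b b' K : ℕ} (h : b ≤ b') : BotS b' K ⊆ BotS b K := by
  rintro R ⟨h1, a, h2, h3, h4⟩
  refine ⟨h1, a, h2, le_trans ?_ h3, h4⟩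
  unfold RR
  have : (2 : ℤ) ^ b ≤ 2 ^ b' := pow_le_pow_right₀ (by norm_num) h
  omega

/-- the numbers of the middle part -/
lemma num5 {C : ℝ} (hC : 0 ≤ C) (b : ℕ) :
    C * (2 ^ (b + 3) / (((2 ^ (b + 1) : ℕ) : ℝ) * Ub (b + 3))) ^ 2 * (uu (2 ^ (b + 1)) / ((2 ^ (b + 1) : ℕ) : ℝ)) ≤
      8 * C / (Ub b * 4 ^ b) := by
  have hU := Ub_pos b
  have hU3 := Ub_pos (b + 3)
  have hu := uu_pos (2 ^ (b + 1))
  have h1 : (((2 ^ (b + 1) : ℕ) : ℝ)) * uu (2 ^ (b + 1)) ≤ UU (2 ^ (b + 1)) := Num2Aux.mul_le_UU _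
  have h2 : UU (2 ^ (b + 1)) ≤ 2 * Ub b := by
    have := Ub_add b 1
    rw [pow_one] at this
    exact this
  have h3 : Ub b ≤ Ub (b + 3) := UU_mono (Nat.pow_le_pow_right (by norm_num) (by omega))
  have e1 : (2 : ℝ) ^ (b + 3) / (((2 ^ (b + 1) : ℕ) : ℝ) * Ub (b + 3)) = 4 / Ub (b + 3) := by
    push_cast
    rw [pow_add, pow_add]
    field_simp
    norm_num
  have e2 : uu (2 ^ (b + 1)) / ((2 ^ (b + 1) : ℕ) : ℝ) ≤ Ub b / (2 * 4 ^ b) := by
    have hp : (0 : ℝ) < ((2 ^ (b + 1) : ℕ) : ℝ) := by positivity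
    have e4 : (4 : ℝ) ^ b = (2 ^ b) ^ 2 := by
      rw [← pow_mul, mul_comm, pow_mul]
      norm_num
    rw [div_le_div_iff₀ hp (by positivity), e4]
    have h5 := mul_le_mul_of_nonneg_left (h1.trans h2) (by positivity : (0 : ℝ) ≤ 2 ^ b)
    generalize uu (2 ^ (b + 1)) = u at *
    have e5 : (((2 ^ (b + 1) : ℕ) : ℝ)) = 2 * 2 ^ b := by
      push_cast
      rw [pow_succ]
      ring
    rw [e5] at h5 ⊢
    nlinarith
  have e3 : (4 / Ub (b + 3)) ^ 2 ≤ 16 / (Ub b) ^ 2 := by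
    rw [div_pow]
    norm_num
    gcongr
  rw [e1]
  calc C * (4 / Ub (b + 3)) ^ 2 * (uu (2 ^ (b + 1)) / ((2 ^ (b + 1) : ℕ) : ℝ)) ≤
        C * (16 / (Ub b) ^ 2) * (Ub b / (2 * 4 ^ b)) := by gcongr
    _ = 8 * C / (Ub b * 4 ^ b) := by
        field_simp
        ring

end DT

open DT

open Classical in
/-- **DomT**: functions -/
theorem domT (ε : ℝ) (c1 J : ℕ) (hε : 0 < ε) : ∃ (c k0 : ℕ) (A : ℝ), 0 < A ∧ c1 ≤ c ∧ c ≤ Nat.log 2 k0 ∧
    ∀ (k : ℕ) (y : Pt) (E : Set (List Bool)) (F f : List Bool → ℝ≥0∞), k0 ≤ k →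
    (∀ t ∈ E, t ∈ SA ∧ Dsj k t ∧ labE t = y ∧ t ∈ WL (Nat.log 2 k + J)) → y ∉ Bl oo (2 ^ (Nat.log 2 k - c1)) →
    (∀ t ∈ E, F t ≤ 1) →
    (∀ X R : List Bool, X ++ R ∈ E → In (2 ^ (Nat.log 2 k - c1)) X → R ∈ BotS (Nat.log 2 k - c) (Nat.log 2 k + J + 4) →
      F (X ++ R) ≤ f R) →
    ∑' t : E, wE t.1 * F t.1 ≤ ENNReal.ofReal ε * gg (Nat.log 2 k) + ENNReal.ofReal (A / 4 ^ Nat.log 2 k) *
      Xb (Nat.log 2 k) * ∑' R : BotS (Nat.log 2 k - c) (Nat.log 2 k + J + 4), wE R.1 * f R.1 := by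
  obtain ⟨Cc, hCc, hcut⟩ := cut3G_end
  obtain ⟨C1, k1, hC1, htot⟩ := tot_BotS
  obtain ⟨D, hD, hX⟩ := Xb_pow
  obtain ⟨c, k0, hc, hck, hst⟩ := start5 ε (c1 + 10) hε
  have hCc0 : 0 < Cc := by linarith
  have hC10 : 0 < C1 := by linarith
  have hD0 : 0 < D := by linarith
  obtain ⟨A, hA⟩ : ∃ A : ℝ, A = 8 * Cc * C1 ^ (J + c + 8) * 2 ^ (c + J + 1) * D ^ (J + 1) * 4 ^ c := ⟨_, rfl⟩
  refine ⟨c, max k0 (2 ^ (c + k1 + 2)), A, by rw [hA]; positivity, by omega,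
    hck.trans (Nat.log_mono_right (le_max_left _ _)), fun k y E F f hk hE hy hF1 hF => ?_⟩
  have hk0 : k0 ≤ k := (le_max_left _ _).trans hk
  have hk2 : 2 ^ (c + k1 + 2) ≤ k := (le_max_right _ _).trans hk
  have hkne : k ≠ 0 := by
    have : 0 < 2 ^ (c + k1 + 2) := by positivity
    omega
  have hKk : c + k1 + 2 ≤ Nat.log 2 k := Nat.le_log_of_pow_le (by norm_num) hk2
  have hstk := hst k y hk0
  generalize Nat.log 2 k = K at *
  obtain ⟨b, hb⟩ : ∃ b, K = b + c := ⟨K - c, by omega⟩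
  have hb' : K - c = b := by omega
  rw [hb'] at hF hstk ⊢
  have hy' : y ∉ Bl oo (2 ^ (K - (c1 + 10))) := fun h => hy (Bl_mono _ (Nat.pow_le_pow_right (by norm_num) (by omega)) h)
  -- the bad set
  obtain ⟨E2, hE2⟩ : ∃ E2 : Set (List Bool), E2 = E ∩ {t | t ∉ StZ (Z5 40) b (2 ^ (K - (c1 + 10)))} := ⟨_, rfl⟩
  obtain ⟨E1, hE1⟩ : ∃ E1 : Set (List Bool), E1 = E ∩ {t | t ∈ StZ (Z5 40) b (2 ^ (K - (c1 + 10)))} := ⟨_, rfl⟩
  have hsplit : ∑' t : E, wE t.1 * F t.1 ≤ ∑' t : E2, wE t.1 * F t.1 + ∑' t : E1, wE t.1 * F t.1 := by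
    have h1 : E ⊆ E2 ∪ E1 := by
      intro t ht
      by_cases h : t ∈ StZ (Z5 40) b (2 ^ (K - (c1 + 10)))
      · right
        rw [hE1]
        exact ⟨ht, h⟩
      · left
        rw [hE2]
        exact ⟨ht, h⟩
    exact (ENNReal.tsum_mono_subtype (fun t => wE t * F t) h1).trans (ENNReal.tsum_union_le (fun t => wE t * F t) E2 E1)
  refine hsplit.trans (add_le_add ?_ ?_)
  · refine le_trans ?_ hstk
    refine le_trans (ENNReal.tsum_le_tsum fun t : E2 => ?_) (gf_mono (?_ : E2 ⊆ _))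
    · have h1 : t.1 ∈ E := by
        have h0 : ∀ s ∈ E2, s ∈ E := by
          intro s hs
          rw [hE2] at hs
          exact hs.1
        exact h0 t.1 t.2
      calc wE t.1 * F t.1 ≤ wE t.1 * 1 := mul_le_mul' le_rfl (hF1 _ h1)
        _ = wE t.1 := mul_one _
    · intro t ht
      rw [hE2] at ht
      obtain ⟨h1, h2, h3, h4⟩ := hE t ht.1
      refine ⟨h1, h2, h3, ⟨t.length, le_rfl, ?_⟩, ht.2⟩
      have : vx oo up t t.length = y := h3
      rw [this]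
      exact hy'
  · -- the three nested bridges
    have hpow : 2 ^ (K - (c1 + 10)) ≤ 2 ^ (K + J) := Nat.pow_le_pow_right (by norm_num) (by omega)
    have h1 := hcut {L | rev L ∈ BotS (b + 1) (K + J + 4) ∧ In (2 ^ (K - (c1 + 10))) L} (BotS (b + 1) (K + J + 4))
      {V | In (4 * 40 * 2 ^ b) V} E1 (2 ^ (b + 1)) (b + 3) y F f Nat.one_le_two_pow
      (fun t ht => by
        rw [hE1] at ht
        exact (hE t ht.1).2.2.1)
      (fun t ht => by
        rw [hE1] at ht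
        exact geo5 (by omega) hpow (hE t ht.1).2.2.2 ht.2)
      (fun L V R ht hL _ hV hR => by
        rw [hE1] at ht
        have h2 := hF (L ++ V) R (by rw [List.append_assoc]; exact ht.1) (In_mono (by
          have e1 : 2 ^ (K - c1) = 1024 * 2 ^ (K - (c1 + 10)) := by
            rw [show K - c1 = K - (c1 + 10) + 10 by omega, pow_add]
            norm_num
            ring
          have e2 : 2 ^ b ≤ 2 ^ (K - (c1 + 10)) := Nat.pow_le_pow_right (by norm_num) (by omega)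
          rw [e1]
          omega) (In_cat hL.2 hV)) (BotS_mono (by omega) hR)
        rwa [List.append_assoc] at h2)
    refine h1.trans ?_
    have h2 : gf {L | rev L ∈ BotS (b + 1) (K + J + 4) ∧ In (2 ^ (K - (c1 + 10))) L} ≤
        ENNReal.ofReal (C1 ^ (J + c + 8) * Ub (K + J + 1)) * Xb (K + J + 1) := by
      refine (gf_mono (?_ : _ ⊆ {L | rev L ∈ BotS (b + 1) (K + J + 4)})).trans ?_
      · intro L hL
        exact hL.1
      · have h3 := htot (b + 1) (K + J + 1) (by omega) (by omega)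
        rw [show K + J + 1 + 3 = K + J + 4 by omega, show K + J + 1 - (b + 1) + 8 = J + c + 8 by omega] at h3
        exact (le_of_eq (TD.gf_rev_eq _)).trans h3
    have h3 : ∑' R : BotS (b + 1) (K + J + 4), wE R.1 * f R.1 ≤ ∑' R : BotS b (K + J + 4), wE R.1 * f R.1 :=
      ENNReal.tsum_mono_subtype (fun t => wE t * f t) (BotS_mono (by omega))
    have h4 : Xb (K + J + 1) ≤ ENNReal.ofReal (D ^ (J + 1)) * Xb K := by
      rw [show K + J + 1 = K + (J + 1) by omega]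
      exact hX K (J + 1)
    have h5 : Ub (K + J + 1) ≤ 2 ^ (c + J + 1) * Ub b := by
      rw [show K + J + 1 = b + (c + J + 1) by omega]
      exact Ub_add b (c + J + 1)
    have hUb := Ub_pos b
    have h6 := num5 hCc0.le b
    have h7 : 8 * Cc / (Ub b * 4 ^ b) * (C1 ^ (J + c + 8) * (2 ^ (c + J + 1) * Ub b) * D ^ (J + 1)) = A / 4 ^ K := by
      rw [hA, hb, pow_add (4 : ℝ)]
      field_simp
    calc ENNReal.ofReal (Cc * (2 ^ (b + 3) / (((2 ^ (b + 1) : ℕ) : ℝ) * Ub (b + 3))) ^ 2 *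
          (uu (2 ^ (b + 1)) / ((2 ^ (b + 1) : ℕ) : ℝ))) *
          (gf {L | rev L ∈ BotS (b + 1) (K + J + 4) ∧ In (2 ^ (K - (c1 + 10))) L} *
            ∑' R : BotS (b + 1) (K + J + 4), wE R.1 * f R.1)
        ≤ ENNReal.ofReal (8 * Cc / (Ub b * 4 ^ b)) *
          (ENNReal.ofReal (C1 ^ (J + c + 8) * (2 ^ (c + J + 1) * Ub b)) * (ENNReal.ofReal (D ^ (J + 1)) * Xb K) *
            ∑' R : BotS b (K + J + 4), wE R.1 * f R.1) := by
          refine mul_le_mul' (ENNReal.ofReal_le_ofReal h6) (mul_le_mul' (h2.trans (mul_le_mul'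
            (ENNReal.ofReal_le_ofReal ?_) h4)) h3)
          exact mul_le_mul_of_nonneg_left h5 (by positivity)
      _ = ENNReal.ofReal (8 * Cc / (Ub b * 4 ^ b) * (C1 ^ (J + c + 8) * (2 ^ (c + J + 1) * Ub b) * D ^ (J + 1))) * Xb K *
            ∑' R : BotS b (K + J + 4), wE R.1 * f R.1 := by
          rw [ENNReal.ofReal_mul (p := 8 * Cc / (Ub b * 4 ^ b)) (by positivity),
            ENNReal.ofReal_mul (p := C1 ^ (J + c + 8) * (2 ^ (c + J + 1) * Ub b)) (by positivity)]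
          ring
      _ = _ := by rw [h7]

open Classical in
/-- **DomT**: sets -/
theorem domSt (ε : ℝ) (c1 J : ℕ) (hε : 0 < ε) : ∃ (c k0 : ℕ) (A : ℝ), 0 < A ∧ c1 ≤ c ∧ c ≤ Nat.log 2 k0 ∧
    ∀ (k : ℕ) (y : Pt) (E Q : Set (List Bool)), k0 ≤ k →
    (∀ t ∈ E, t ∈ SA ∧ Dsj k t ∧ labE t = y ∧ t ∈ WL (Nat.log 2 k + J)) → y ∉ Bl oo (2 ^ (Nat.log 2 k - c1)) →
    (∀ X R : List Bool, X ++ R ∈ E → In (2 ^ (Nat.log 2 k - c1)) X → R ∈ BotS (Nat.log 2 k - c) (Nat.log 2 k + J + 4) →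
      R ∈ Q) →
    gf E ≤ ENNReal.ofReal ε * gg (Nat.log 2 k) + ENNReal.ofReal (A / 4 ^ Nat.log 2 k) *
      Xb (Nat.log 2 k) * gf {R | R ∈ BotS (Nat.log 2 k - c) (Nat.log 2 k + J + 4) ∧ R ∈ Q} := by
  obtain ⟨c, k0, A, hA, hc, hck, h⟩ := domT ε c1 J hε
  refine ⟨c, k0, A, hA, hc, hck, fun k y E Q hk hE hy hQ => ?_⟩
  have h1 := h k y E (fun _ => 1) (fun R => if R ∈ Q then 1 else 0) hk hE hy (fun _ _ => le_rfl) (fun X R hX hI hR => by
    rw [if_pos (hQ X R hX hI hR)])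
  have h2 : gf E = ∑' t : E, wE t.1 * (1 : ℝ≥0∞) := by
    unfold gf
    exact tsum_congr fun t => (mul_one _).symm
  have h3 : ∑' R : BotS (Nat.log 2 k - c) (Nat.log 2 k + J + 4), wE R.1 * (if R.1 ∈ Q then (1 : ℝ≥0∞) else 0) =
      gf {R | R ∈ BotS (Nat.log 2 k - c) (Nat.log 2 k + J + 4) ∧ R ∈ Q} := by
    unfold gf
    rw [_root_.tsum_subtype (BotS (Nat.log 2 k - c) (Nat.log 2 k + J + 4)) (fun t => wE t * (if t ∈ Q then (1 : ℝ≥0∞) else 0)),
      _root_.tsum_subtype {R | R ∈ BotS (Nat.log 2 k - c) (Nat.log 2 k + J + 4) ∧ R ∈ Q} (fun t => wE t)]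
    refine tsum_congr fun t => ?_
    rw [Set.indicator_apply, Set.indicator_apply]
    by_cases h4 : t ∈ BotS (Nat.log 2 k - c) (Nat.log 2 k + J + 4)
    · by_cases h5 : t ∈ Q
      · rw [if_pos h4, if_pos h5, if_pos ⟨h4, h5⟩, mul_one]
      · rw [if_pos h4, if_neg h5, if_neg (fun h6 => h5 h6.2), mul_zero]
    · rw [if_neg h4, if_neg (fun h6 => h4 h6.1)]
  rw [h2, ← h3]
  exact h1

end PW

end HexObs
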