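import Pool.Agent.PW.OscV
import Pool.Agent.SLW.MomV

/-!
# PW, row P4 (helper86): the plane ensemble AA; moments of the weights of the levels

* `AAF n` : words with less than `3 n` letters; `pA g n t = x ^ |t| g (|t| / n) 1[|t| = n mod 2]`; `MA g n` : the mass;
* `sum_AA` : a sum over `AAF n` as a sum over the number of the letters;
* `NQ0_le` : the decompositions of a level are at most as many as the cuts of the scale `2 ^ (L + 1)`;
* `momA` : second moments, `momA1` : first moments.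
-/

set_option autoImplicit false

namespace HexObs

namespace PWN

open Finset TS SDN TIW

/-- words with less than 3 n letters -/
noncomputable def AAF (n : ℕ) : Finset (List Bool) := by
  classical
  exact (range (3 * n)).biUnion sawF

/-- the weight of the number of the letters -/
noncomputable def wA (g : ℝ → ℝ) (n m : ℕ) : ℝ := if m % 2 = n % 2 then g ((m : ℝ) / n) else 0

/-- the weight of a word -/
noncomputable def pA (g : ℝ → ℝ) (n : ℕ) (t : List Bool) : ℝ := xc ^ t.length * wA g n t.length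

/-- the mass -/
noncomputable def MA (g : ℝ → ℝ) (n : ℕ) : ℝ := ∑ t ∈ AAF n, pA g n t

/-- the cut-off of the length: Lipschitz bump on [1, 2] -/
structure Bump (Lg : ℝ) (g : ℝ → ℝ) : Prop where
  nn : ∀ u, 0 ≤ g u
  le : ∀ u, g u ≤ 1
  lip : ∀ u v, |g u - g v| ≤ Lg * |u - v|
  lo : ∀ u, u < 1 → g u = 0
  hi : ∀ u, 2 < u → g u = 0

lemma mem_AAF {n : ℕ} {t : List Bool} : t ∈ AAF n ↔ t ∈ SA ∧ t.length < 3 * n := by
  unfold AAF
  rw [mem_biUnion]
  constructor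
  · rintro ⟨m, hm, ht⟩
    rw [mem_sawF] at ht
    rw [mem_range] at hm
    exact ⟨ht.2, by rw [ht.1]; exact hm⟩
  · rintro ⟨h1, h2⟩
    exact ⟨t.length, mem_range.2 h2, mem_sawF.2 ⟨rfl, h1⟩⟩

/-- a sum over the words as a sum over the number of the letters -/
lemma sum_AAF (n : ℕ) (f : List Bool → ℝ) : ∑ t ∈ AAF n, f t = ∑ m ∈ range (3 * n), ∑ t ∈ sawF m, f t := by
  unfold AAF
  rw [sum_biUnion]
  intro m _ m' _ hne
  rw [Function.onFun, disjoint_left]
  intro t h1 h2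
  rw [mem_sawF] at h1 h2
  exact hne (h1.1.symm.trans h2.1)

lemma sum_AA (g : ℝ → ℝ) (n : ℕ) (f : List Bool → ℝ) :
    ∑ t ∈ AAF n, pA g n t * f t = ∑ m ∈ range (3 * n), wA g n m * ∑ t ∈ sawF m, xc ^ m * f t := by
  rw [sum_AAF]
  refine sum_congr rfl fun m _ => ?_
  rw [mul_sum]
  refine sum_congr rfl fun t ht => ?_
  rw [mem_sawF] at ht
  unfold pA
  rw [ht.1]
  ring

lemma wA_nonneg {Lg : ℝ} {g : ℝ → ℝ} (hg : Bump Lg g) (n m : ℕ) : 0 ≤ wA g n m := by
  unfold wA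
  split_ifs
  · exact hg.nn _
  · exact le_rfl

lemma wA_le {Lg : ℝ} {g : ℝ → ℝ} (hg : Bump Lg g) (n m : ℕ) : wA g n m ≤ 1 := by
  unfold wA
  split_ifs
  · exact hg.le _
  · exact zero_le_one

lemma pA_nonneg {Lg : ℝ} {g : ℝ → ℝ} (hg : Bump Lg g) (n : ℕ) (t : List Bool) : 0 ≤ pA g n t :=
  mul_nonneg (pow_nonneg xc_pos.le _) (wA_nonneg hg n _)

lemma MA_eq (g : ℝ → ℝ) (n : ℕ) : MA g n = ∑ m ∈ range (3 * n), wA g n m * (cS m * xc ^ m) := by
  unfold MA
  have h := sum_AA g n (fun _ => 1)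
  simp only [mul_one] at h
  rw [h]
  exact sum_congr rfl fun m _ => by rw [SLW.sum_one]

lemma MA_nonneg {Lg : ℝ} {g : ℝ → ℝ} (hg : Bump Lg g) (n : ℕ) : 0 ≤ MA g n := sum_nonneg fun t _ => pA_nonneg hg n t

/-- a bound that holds for every number of the letters -/
lemma AA_le {Lg : ℝ} {g : ℝ → ℝ} (hg : Bump Lg g) {f : List Bool → ℝ} {K : ℝ}
    (h : ∀ m, ∑ t ∈ sawF m, xc ^ m * f t ≤ K * (cS m * xc ^ m)) (n : ℕ) :
    ∑ t ∈ AAF n, pA g n t * f t ≤ K * MA g n := by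
  rw [sum_AA, MA_eq, mul_sum]
  refine sum_le_sum fun m _ => ?_
  calc wA g n m * ∑ t ∈ sawF m, xc ^ m * f t ≤ wA g n m * (K * (cS m * xc ^ m)) :=
        mul_le_mul_of_nonneg_left (h m) (wA_nonneg hg n m)
    _ = K * (wA g n m * (cS m * xc ^ m)) := by ring

open Classical in
/-- the number of the decompositions is at most the number of the cuts of the next scale -/
lemma NQ0_le {l L : ℕ} (hl : l ≤ L) {Ch : Set (List Bool)} (hC : SLW.Chn L Ch) (t : List Bool) :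
    NQ0 l L Ch t ≤ NP (2 ^ (L + 1)) t := by
  unfold NQ0 NP
  have h : (((range (t.length + 1)) ×ˢ (range (t.length + 1))).filter (fun p => Dl l L Ch t p.1 p.2)).card ≤
      (cu (2 ^ (L + 1)) t).card := by
    refine card_le_card_of_injOn (fun p => p.1) ?_ ?_
    · rintro ⟨i, j⟩ hp
      rw [Finset.mem_coe, mem_filter, mem_product] at hp
      obtain ⟨⟨hi, hj⟩, h1, h2, h3, h4⟩ := hp
      rw [Finset.mem_coe]
      unfold cu
      rw [mem_filter]
      refine ⟨hi, ?_, ?_⟩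
      · have e : 2 * 2 ^ (L + 1) = 4 * 2 ^ L := by ring
        rw [e]
        exact h2
      · have e : 2 ^ (L + 1) = 2 * 2 ^ L := by ring
        rw [e]
        show t.drop i ∈ Hp (2 * 2 ^ L)
        rw [SLW.drop_eq h1]
        refine SLW.bu_hp (hC.bu h3) (by
          intro k hk
          have := hC.size _ h3 k hk
          push_cast
          exact this) ⟨h4.1.1, fun k hk => (h4.1.2 k hk).trans_le ?_⟩
        exact_mod_cast Nat.pow_le_pow_right (by norm_num) hl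
    · rintro ⟨i, j⟩ hp ⟨i', j'⟩ hp' he
      simp only at he
      subst he
      rw [Finset.mem_coe, mem_filter, mem_product] at hp hp'
      obtain ⟨⟨hi, hj⟩, h1, h2, h3, h4⟩ := hp
      obtain ⟨⟨hi', hj'⟩, h1', h2', h3', h4'⟩ := hp'
      simp only [mem_range] at hi hj hj' h1 h1' h3 h3' h4 h4'
      have e := hC.uniq _ h3 _ h3' _ _ h4.1.1 h4'.1.1 (by rw [← SLW.drop_eq h1, ← SLW.drop_eq h1'])
      have e2 := congrArg List.length e
      rw [List.length_drop, List.length_drop, List.length_take, List.length_take] at e2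
      have e3 : j = j' := by omega
      rw [e3]
  exact_mod_cast h

/-- the constants of the moments -/
def MomAS (C : ℝ) : Prop := ∀ (Lg : ℝ) (g : ℝ → ℝ), Bump Lg g → ∀ (n l L : ℕ) (Ch : Set (List Bool)), l ≤ L → SLW.Chn L Ch →
  ∑ t ∈ AAF n, pA g n t * NQ0 l L Ch t ^ 2 ≤ (C * Ub L) ^ 2 * MA g n ∧
  ∑ t ∈ AAF n, pA g n t * N0 l L Ch t ^ 2 ≤ (C * Ub L) ^ 2 * MA g n ∧
  ∑ t ∈ AAF n, pA g n t * NQ0 l L Ch t ≤ C * Ub L * MA g n ∧
  ∑ t ∈ AAF n, pA g n t * N0 l L Ch t ≤ C * Ub L * MA g n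

/-- **P4b: the moments** -/
theorem momA (hM : SLW.MomU) : ∃ C : ℝ, 0 < C ∧ MomAS C := by
  obtain ⟨C, hC, hM⟩ := hM
  refine ⟨2 * C, by positivity, fun Lg g hg n l L Ch hl hCh => ?_⟩
  have hU := Ub_pos L
  have hU2 : Ub (L + 1) ≤ 2 * Ub L := Ub_succ L
  have hq0 : ∀ t, 0 ≤ NQ0 l L Ch t := fun t => OV.NQ0_nonneg l L Ch t
  have hn0 : ∀ t, 0 ≤ N0 l L Ch t := fun t => OV.N0_nonneg l L Ch t
  have hp : ∀ t, 0 ≤ pA g n t := fun t => pA_nonneg hg n t
  have h1 : ∑ t ∈ AAF n, pA g n t * NQ0 l L Ch t ^ 2 ≤ (2 * C * Ub L) ^ 2 * MA g n := by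
    have h2 : ∑ t ∈ AAF n, pA g n t * NP (2 ^ (L + 1)) t ^ 2 ≤ (C * Ub (L + 1)) ^ 2 * MA g n :=
      AA_le hg (fun m => hM (L + 1) m) n
    refine (sum_le_sum fun t _ => ?_).trans (h2.trans ?_)
    · exact mul_le_mul_of_nonneg_left (pow_le_pow_left₀ (hq0 t) (NQ0_le hl hCh t) 2) (hp t)
    · refine mul_le_mul_of_nonneg_right ?_ (MA_nonneg hg n)
      refine pow_le_pow_left₀ (mul_nonneg hC.le (Ub_pos (L + 1)).le) ?_ 2
      calc C * Ub (L + 1) ≤ C * (2 * Ub L) := mul_le_mul_of_nonneg_left hU2 hC.le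
        _ = 2 * C * Ub L := by ring
  have h3 : ∑ t ∈ AAF n, pA g n t * NQ0 l L Ch t ≤ 2 * C * Ub L * MA g n := by
    have h2 : ∑ t ∈ AAF n, pA g n t * NP (2 ^ (L + 1)) t ≤ C * Ub (L + 1) * MA g n :=
      AA_le hg (fun m => SLW.np_one hC hM (L + 1) m) n
    refine (sum_le_sum fun t _ => ?_).trans (h2.trans ?_)
    · exact mul_le_mul_of_nonneg_left (NQ0_le hl hCh t) (hp t)
    · refine mul_le_mul_of_nonneg_right ?_ (MA_nonneg hg n)
      calc C * Ub (L + 1) ≤ C * (2 * Ub L) := mul_le_mul_of_nonneg_left hU2 hC.le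
        _ = 2 * C * Ub L := by ring
  refine ⟨h1, (sum_le_sum fun t _ => ?_).trans h1, h3, (sum_le_sum fun t _ => ?_).trans h3⟩
  · exact mul_le_mul_of_nonneg_left (pow_le_pow_left₀ (hn0 t) (OV.N0_le_NQ0 l L Ch t) 2) (hp t)
  · exact mul_le_mul_of_nonneg_left (OV.N0_le_NQ0 l L Ch t) (hp t)

end PWN

end HexObs
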