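import Pool.Agent.PW.TipJ
import Pool.Agent.NTA.RunX

/-!
PW (winding of the walk), row P7 (helper45): the true mean `UT` of the weight of a level; sparse levels `LvS`.
-/

set_option autoImplicit false

namespace HexObs

namespace PWN

open Finset TS SDN TIW SLW

/-- the true mean of the weight of a level: ends of the scale l, chains of the scale L -/
noncomputable def UT (l L : ℕ) (Ch : Set (List Bool)) : ℝ := wD Ch * Ub l * (NTA.Xb l).toReal / (NTA.Xb L).toReal

/-- sparse levels: ends of the scale `lv i`, chains of the scale `lv i + s`, gaps `s'` -/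
structure LvS (M : ℕ) (lv : ℕ → ℕ) (s s' : ℕ) (w : ℝ) (Ch : ℕ → Set (List Bool)) : Prop where
  gap : ∀ i j, i < j → j < M → lv i + s + s' ≤ lv j
  chn : ∀ i, i < M → Chn (lv i + s) (Ch i)
  mass : ∀ i, i < M → w ≤ wD (Ch i)

lemma LvS.sub {M N s s' : ℕ} {lv : ℕ → ℕ} {w : ℝ} {Ch : ℕ → Set (List Bool)} (h : LvS N lv s s' w Ch) {e : ℕ → ℕ}
    (he1 : ∀ j, j < M → e j < N) (he2 : ∀ i j, i < j → j < M → e i < e j) :
    LvS M (fun j => lv (e j)) s s' w (fun j => Ch (e j)) :=
  ⟨fun i j hij hj => h.gap _ _ (he2 i j hij hj) (he1 j hj), fun i hi => h.chn _ (he1 i hi), fun i hi => h.mass _ (he1 i hi)⟩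

lemma xr_pos (l : ℕ) : 0 < (NTA.Xb l).toReal := ENNReal.toReal_pos (NTA.Xb_ne_zero l) (NTA.Xb_ne_top l)

lemma wD_nonneg (Ch : Set (List Bool)) : 0 ≤ wD Ch := ENNReal.toReal_nonneg

lemma UT_nonneg (l L : ℕ) (Ch : Set (List Bool)) : 0 ≤ UT l L Ch := by
  unfold UT
  have h1 := wD_nonneg Ch
  have h2 := OG.Ub_pos l
  have h3 := xr_pos l
  have h4 := xr_pos L
  positivity

lemma UT_pos {l L : ℕ} {Ch : Set (List Bool)} (h : 0 < wD Ch) : 0 < UT l L Ch := by
  unfold UT
  have h2 := OG.Ub_pos l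
  have h3 := xr_pos l
  have h4 := xr_pos L
  positivity

/-- the true mean against `Ub` -/
theorem UT_low : ∃ D : ℝ, 1 ≤ D ∧ ∀ (l s : ℕ) (w : ℝ) (Ch : Set (List Bool)), 0 < w → w ≤ wD Ch →
    Ub (l + s) ≤ D ^ s / w * UT l (l + s) Ch := by
  obtain ⟨C, hC, h⟩ := NTA.Xb_pow
  refine ⟨2 * C, by linarith, fun l s w Ch hw hCh => ?_⟩
  have hU := OG.Ub_pos l
  have h1 := xr_pos l
  have h2 := xr_pos (l + s)
  have h3 : (NTA.Xb (l + s)).toReal ≤ C ^ s * (NTA.Xb l).toReal := by
    have h4 := ENNReal.toReal_mono (ENNReal.mul_ne_top ENNReal.ofReal_ne_top (NTA.Xb_ne_top l)) (h l s)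
    rwa [ENNReal.toReal_mul, ENNReal.toReal_ofReal (by positivity)] at h4
  have h4 : Ub (l + s) ≤ 2 ^ s * Ub l := by
    induction s with
    | zero => simp
    | succ s ih =>
      have h5 := ih (xr_pos _) (by
        have h4 := ENNReal.toReal_mono (ENNReal.mul_ne_top ENNReal.ofReal_ne_top (NTA.Xb_ne_top l)) (h l s)
        rwa [ENNReal.toReal_mul, ENNReal.toReal_ofReal (by positivity)] at h4)
      have h6 := Ub_succ (l + s)
      rw [← add_assoc, pow_succ]
      linarith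
  have h5 : w * Ub l / C ^ s ≤ UT l (l + s) Ch := by
    unfold UT
    rw [div_le_div_iff₀ (by positivity) h2]
    calc w * Ub l * (NTA.Xb (l + s)).toReal ≤ wD Ch * Ub l * (C ^ s * (NTA.Xb l).toReal) := by
          refine mul_le_mul (mul_le_mul_of_nonneg_right hCh hU.le) h3 h2.le ?_
          have := hw.le.trans hCh
          positivity
      _ = wD Ch * Ub l * (NTA.Xb l).toReal * C ^ s := by ring
  have hCs : 0 < C ^ s := by positivity
  calc Ub (l + s) ≤ 2 ^ s * Ub l := h4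
    _ = (2 * C) ^ s / w * (w * Ub l / C ^ s) := by
      rw [mul_pow]
      field_simp
    _ ≤ (2 * C) ^ s / w * UT l (l + s) Ch := mul_le_mul_of_nonneg_left h5 (by positivity)

end PWN

end HexObs
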