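import Pool.Agent.PW.LowB0F
import Pool.Agent.PW.DefU
import Pool.Agent.PW.DefA
import Pool.Agent.SLW.Small

/-!
# PW, row P6 (helper58): the total weight of the levels (ends of class 0) is rarely small, right parts

* **`smallB0_of`** : the lower tail of the total weight in `BotS`, for an arbitrary increasing list of levels; the constant
  `c` does not depend on the mass of the chains nor on the gap `s` inside a level.
-/

set_option autoImplicit false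

namespace HexObs

namespace PWN

open Finset TS SDN TIW SLW SLW.Sm HexObs.SIM NTA

open scoped ENNReal

/-- **P6**: the total weight is rarely small, right parts; `c` does not depend on `w`, `s` -/
def SmallB0 : Prop := ∀ (ε : ℝ) (J : ℕ), 0 < ε → ∃ c : ℝ, 0 < c ∧ ∀ (w : ℝ) (s : ℕ), 0 < w → ∃ M0 : ℕ, ∀ M : ℕ, M0 ≤ M →
  ∃ s0 : ℕ, ∀ s' : ℕ, s0 ≤ s' → ∃ c0 l0 : ℕ, ∀ (c1 K : ℕ) (lv : ℕ → ℕ) (Ch : ℕ → Set (List Bool)), LvS M lv s s' w Ch →
    (∀ i, i < M → l0 ≤ lv i) → (∀ i, i < M → lv i + s + c0 ≤ c1) → c1 ≤ K → K ≤ c1 + J →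
      gf {t | t ∈ BotS c1 K ∧
          TW.Ta (fun i => N0 (lv i) (lv i + s) (Ch i) t / UT (lv i) (lv i + s) (Ch i) / M) M 0 < 2 * c} ≤
        ENNReal.ofReal (ε * Ub K) * NTA.Xb K

namespace SBz

/-! ### 1. The true mean -/

lemma Xr_pos (l : ℕ) : 0 < (NTA.Xb l).toReal := ENNReal.toReal_pos (NTA.Xb_ne_zero l) (NTA.Xb_ne_top l)

lemma Xr_eq (l : ℕ) : NTA.Xb l = ENNReal.ofReal (NTA.Xb l).toReal := (ENNReal.ofReal_toReal (NTA.Xb_ne_top l)).symm

/-- the number of the cuts against the true mean -/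
lemma Ub_le_UT {D w : ℝ} (hD : 1 ≤ D) (hX : ∀ k j : ℕ, NTA.Xb (k + j) ≤ ENNReal.ofReal (D ^ j) * NTA.Xb k) (hw : 0 < w)
    {l s : ℕ} {Ch : Set (List Bool)} (h : w ≤ wD Ch) : Ub (l + s) ≤ 2 ^ s * D ^ s / w * UT l (l + s) Ch := by
  have hX1 := Xr_pos l
  have hX2 := Xr_pos (l + s)
  have hU := TS.Ub_pos l
  have h1 : (NTA.Xb (l + s)).toReal ≤ D ^ s * (NTA.Xb l).toReal := by
    have h2 := hX l s
    rw [Xr_eq l, Xr_eq (l + s), ← ENNReal.ofReal_mul (by positivity), ENNReal.ofReal_le_ofReal_iff (by positivity)] at h2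
    exact h2
  have h2 : Ub (l + s) ≤ 2 ^ s * Ub l := Ub_add l s
  have h3 : w * Ub l * (NTA.Xb l).toReal / (NTA.Xb (l + s)).toReal ≤ UT l (l + s) Ch := by
    unfold UT
    gcongr
  have h4 : 1 ≤ D ^ s * (NTA.Xb l).toReal / (NTA.Xb (l + s)).toReal := by
    rw [le_div_iff₀ hX2]
    linarith
  calc Ub (l + s) ≤ 2 ^ s * Ub l * 1 := by linarith
    _ ≤ 2 ^ s * Ub l * (D ^ s * (NTA.Xb l).toReal / (NTA.Xb (l + s)).toReal) :=
        mul_le_mul_of_nonneg_left h4 (by positivity)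
    _ = 2 ^ s * D ^ s / w * (w * Ub l * (NTA.Xb l).toReal / (NTA.Xb (l + s)).toReal) := by
        field_simp
    _ ≤ _ := mul_le_mul_of_nonneg_left h3 (by positivity)

/-! ### 2. Directions -/

lemma TF_dirs (S : Set (List Bool)) {f : List Bool → ℝ} (hf : ∀ t ∈ S, 0 ≤ f t) :
    TF S f = ∑ d ∈ dirs, TF {t | t ∈ S ∧ de t = d} f := by
  classical
  have e1 : TF S f = TF S (fun t => ∑ d ∈ dirs, if t ∈ {t : List Bool | de t = d} then f t else 0) := by
    congr 1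
    funext t
    rw [sum_eq_single (de t)]
    · rw [if_pos (show t ∈ {t' : List Bool | de t' = de t} from rfl)]
    · intro d _ hd
      rw [if_neg]
      intro h
      exact hd h.symm
    · intro h
      exact absurd (de_mem t) h
  rw [e1, TF_sum dirs (fun d _ t ht => by
    split_ifs
    · exact hf t ht
    · exact le_rfl)]
  refine sum_congr rfl fun d _ => ?_
  refine Eq.trans ?_ (TF_inter S {t | de t = d} f)
  congr 1
  funext t
  by_cases h : de t = d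
  · rw [if_pos (show t ∈ {t : List Bool | de t = d} from h), if_pos (show t ∈ {t : List Bool | de t = d} from h)]
  · rw [if_neg (show ¬ t ∈ {t : List Bool | de t = d} from h), if_neg (show ¬ t ∈ {t : List Bool | de t = d} from h)]

lemma TF_if {S : Set (List Bool)} {P : List Bool → Prop} [DecidablePred P] (h : ∀ t, t ∈ S ↔ P t) (f : List Bool → ℝ) :
    (∑' t, (if P t then wE t * ENNReal.ofReal (f t) else 0)) = TF S f := by
  classical
  unfold TF
  refine tsum_congr fun t => ?_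
  by_cases ht : P t
  · rw [if_pos ht, if_pos ((h t).2 ht)]
  · rw [if_neg ht, if_neg (fun h' => ht ((h t).1 h'))]

/-! ### 3. Second moments -/

open Classical in
/-- the second moments of the number of the cuts, in the larger class -/
lemma np_mass (hMB : MomB) (J : ℕ) : ∃ (Q0 : ℝ) (c0 : ℕ), 0 < Q0 ∧ ∀ L c K : ℕ, L + c0 ≤ c → c ≤ K → K ≤ c + J →
    TF (BotS (c - 1) (K + 6)) (fun t => NP (2 ^ (L + 1)) t ^ 2) ≤
      ENNReal.ofReal (Q0 * Ub L ^ 2) * (ENNReal.ofReal (Ub K) * Xb K) := by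
  obtain ⟨A, c0, hA, h⟩ := hMB (J + 7)
  obtain ⟨D, hD, hX⟩ := Xb_pow
  refine ⟨A * 4 * 2 ^ 6 * D ^ 6, c0 + 3, by positivity, fun L c K hc hK hJ => ?_⟩
  have hU := TS.Ub_pos L
  have hUK := TS.Ub_pos K
  have h1 := h (L + 1) (c - 1) (K + 6) (by omega) (by omega) (by omega)
  have h2 : TF (BotS (c - 1) (K + 6)) (fun t => NP (2 ^ (L + 1)) t ^ 2) ≤
      ENNReal.ofReal (A * Ub (L + 1) ^ 2 * Ub (K + 6)) * Xb (K + 6) := h1
  have h3 : Ub (L + 1) ≤ 2 * Ub L := by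
    have := Ub_add L 1
    simpa using this
  have h4 : Ub (K + 6) ≤ 2 ^ 6 * Ub K := Ub_add K 6
  have h5 : Xb (K + 6) ≤ ENNReal.ofReal (D ^ 6) * Xb K := hX K 6
  refine h2.trans ?_
  calc ENNReal.ofReal (A * Ub (L + 1) ^ 2 * Ub (K + 6)) * Xb (K + 6)
      ≤ ENNReal.ofReal (A * (2 * Ub L) ^ 2 * (2 ^ 6 * Ub K)) * (ENNReal.ofReal (D ^ 6) * Xb K) := by
        refine mul_le_mul' (ENNReal.ofReal_le_ofReal ?_) h5
        have h6 : Ub (L + 1) ^ 2 ≤ (2 * Ub L) ^ 2 := pow_le_pow_left₀ (TS.Ub_pos _).le h3 2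
        exact mul_le_mul (mul_le_mul_of_nonneg_left h6 hA.le) h4 (TS.Ub_pos _).le (by positivity)
    _ = ENNReal.ofReal (A * 4 * 2 ^ 6 * D ^ 6 * Ub L ^ 2) * (ENNReal.ofReal (Ub K) * Xb K) := by
        rw [← mul_assoc (ENNReal.ofReal _) (ENNReal.ofReal (D ^ 6)) (Xb K), ← ENNReal.ofReal_mul (by positivity),
          ← mul_assoc (ENNReal.ofReal _) (ENNReal.ofReal (Ub K)) (Xb K), ← ENNReal.ofReal_mul (by positivity)]
        congr 2
        ring

/-- the product of two levels -/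
lemma np_cross {S : Set (List Bool)} {L L' : ℕ} {Q0 : ℝ} {U : ℝ≥0∞} (hQ : 0 ≤ Q0)
    (h1 : TF S (fun t => NP (2 ^ (L + 1)) t ^ 2) ≤ ENNReal.ofReal (Q0 * Ub L ^ 2) * U)
    (h2 : TF S (fun t => NP (2 ^ (L' + 1)) t ^ 2) ≤ ENNReal.ofReal (Q0 * Ub L' ^ 2) * U) :
    TF S (fun t => NP (2 ^ (L + 1)) t * NP (2 ^ (L' + 1)) t) ≤ ENNReal.ofReal (Q0 * Ub L * Ub L') * U := by
  have hU := TS.Ub_pos L
  have hU' := TS.Ub_pos L'
  obtain ⟨a, ha⟩ : ∃ a, a = Ub L' / (2 * Ub L) := ⟨_, rfl⟩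
  obtain ⟨b, hb⟩ : ∃ b, b = Ub L / (2 * Ub L') := ⟨_, rfl⟩
  have ha0 : 0 ≤ a := by rw [ha]; positivity
  have hb0 : 0 ≤ b := by rw [hb]; positivity
  have hab : 4 * a * b = 1 := by rw [ha, hb]; field_simp; norm_num
  have e1 : TF S (fun t => NP (2 ^ (L + 1)) t * NP (2 ^ (L' + 1)) t) ≤
      TF S (fun t => a * NP (2 ^ (L + 1)) t ^ 2 + b * NP (2 ^ (L' + 1)) t ^ 2) := by
    refine TF_mono fun t _ => ?_
    have ha1 : 0 < a := by rw [ha]; positivity
    have h3 : 0 ≤ (2 * a * NP (2 ^ (L + 1)) t - NP (2 ^ (L' + 1)) t) ^ 2 / (4 * a) := by positivity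
    have h4 : (2 * a * NP (2 ^ (L + 1)) t - NP (2 ^ (L' + 1)) t) ^ 2 / (4 * a) =
        a * NP (2 ^ (L + 1)) t ^ 2 - NP (2 ^ (L + 1)) t * NP (2 ^ (L' + 1)) t + 1 / (4 * a) * NP (2 ^ (L' + 1)) t ^ 2 := by
      field_simp
      ring
    have h5 : 1 / (4 * a) = b := by
      rw [div_eq_iff (by positivity)]
      linarith
    rw [h4, h5] at h3
    linarith
  refine e1.trans ?_
  rw [TF_add (fun t _ => mul_nonneg ha0 (sq_nonneg _)) (fun t _ => mul_nonneg hb0 (sq_nonneg _)), TF_smul ha0, TF_smul hb0]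
  calc ENNReal.ofReal a * TF S (fun t => NP (2 ^ (L + 1)) t ^ 2) + ENNReal.ofReal b * TF S (fun t => NP (2 ^ (L' + 1)) t ^ 2)
      ≤ ENNReal.ofReal a * (ENNReal.ofReal (Q0 * Ub L ^ 2) * U) + ENNReal.ofReal b * (ENNReal.ofReal (Q0 * Ub L' ^ 2) * U) :=
        add_le_add (mul_le_mul' le_rfl h1) (mul_le_mul' le_rfl h2)
    _ = ENNReal.ofReal (a * (Q0 * Ub L ^ 2) + b * (Q0 * Ub L' ^ 2)) * U := by
        rw [ENNReal.ofReal_add (by positivity) (by positivity), ENNReal.ofReal_mul ha0, ENNReal.ofReal_mul hb0]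
        ring
    _ = _ := by
        congr 2
        rw [ha, hb]
        field_simp
        ring

/-- the mass of the larger class -/
lemma S_mass0 (J : ℕ) : ∃ (m0 : ℝ) (k0 : ℕ), 0 < m0 ∧ ∀ c K : ℕ, k0 ≤ c → c ≤ K → K ≤ c + J →
    gf (BotS (c - 1) (K + 6)) ≤ ENNReal.ofReal m0 * (ENNReal.ofReal (Ub K) * Xb K) := by
  obtain ⟨m0, k0, hm0, h⟩ := S_mass (J + 5)
  obtain ⟨D, hD, hX⟩ := Xb_pow
  refine ⟨m0 * (2 ^ 5 * D ^ 5), k0, by positivity, fun c K hc hK hJ => ?_⟩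
  have h1 := h c (K + 5) hc (by omega) (by omega)
  have h4 : Ub (K + 5) ≤ 2 ^ 5 * Ub K := Ub_add K 5
  have h5 : Xb (K + 5) ≤ ENNReal.ofReal (D ^ 5) * Xb K := hX K 5
  refine h1.trans ?_
  calc ENNReal.ofReal m0 * (ENNReal.ofReal (Ub (K + 5)) * Xb (K + 5))
      ≤ ENNReal.ofReal m0 * (ENNReal.ofReal (2 ^ 5 * Ub K) * (ENNReal.ofReal (D ^ 5) * Xb K)) :=
        mul_le_mul' le_rfl (mul_le_mul' (ENNReal.ofReal_le_ofReal h4) h5)
    _ = _ := by
        rw [ENNReal.ofReal_mul (p := (2 : ℝ) ^ 5) (by positivity), ENNReal.ofReal_mul (p := m0) hm0.le,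
          ENNReal.ofReal_mul (p := (2 : ℝ) ^ 5) (by positivity)]
        ring

/-! ### 4. One level -/

lemma div_ofReal {a b : ℝ} (ha : 0 < a) {x y : ℝ≥0∞} (h : ENNReal.ofReal a * x ≤ ENNReal.ofReal b * y) :
    x ≤ ENNReal.ofReal (b / a) * y := by
  have ha' : ENNReal.ofReal a ≠ 0 := by
    rw [Ne, ENNReal.ofReal_eq_zero, not_le]
    exact ha
  refine (ENNReal.mul_le_mul_iff_right ha' ENNReal.ofReal_ne_top).1 ?_
  rw [← mul_assoc, ← ENNReal.ofReal_mul ha.le]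
  have : a * (b / a) = b := by field_simp
  rw [this]
  exact h

variable {s M : ℕ} {lv : ℕ → ℕ} {Ch : ℕ → Set (List Bool)}

/-- the normalised weight of the level i -/
noncomputable def a0 (s M : ℕ) (lv : ℕ → ℕ) (Ch : ℕ → Set (List Bool)) (i : ℕ) (t : List Bool) : ℝ :=
  N0 (lv i) (lv i + s) (Ch i) t / (M * UT (lv i) (lv i + s) (Ch i))

open Classical in
/-- the same with the absolute direction d -/
noncomputable def ad (s M : ℕ) (lv : ℕ → ℕ) (Ch : ℕ → Set (List Bool)) (d : Pt) (i : ℕ) (t : List Bool) : ℝ :=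
  NA (lv i) (lv i + s) (Ch i) (fun A => if de A = d then 1 else 0) t / (M * UT (lv i) (lv i + s) (Ch i))

open Classical in
/-- the error of the cutoff -/
noncomputable def th (s M : ℕ) (lv : ℕ → ℕ) (Ch : ℕ → Set (List Bool)) (d : Pt) (x : ℝ) (i : ℕ) (t : List Bool) : ℝ :=
  x * ∑ j ∈ Ico (i + 1) M,
    NIA (lv j) (lv j + s) (Ch j) (fun A => if de A = d then 1 else 0) t / (M * UT (lv j) (lv j + s) (Ch j))

lemma a0_nonneg (i : ℕ) (t : List Bool) : 0 ≤ a0 s M lv Ch i t :=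
  div_nonneg (OV.N0_nonneg _ _ _ _) (mul_nonneg (Nat.cast_nonneg _) (UT_nonneg _ _ _))

lemma ind_nonneg (d : Pt) : ∀ A : List Bool, (0 : ℝ) ≤ (by classical exact if de A = d then 1 else 0) := by
  intro A
  split_ifs <;> norm_num

lemma ad_nonneg (d : Pt) (i : ℕ) (t : List Bool) : 0 ≤ ad s M lv Ch d i t :=
  div_nonneg (AD.NA_nonneg _ _ _ (ind_nonneg d) _) (mul_nonneg (Nat.cast_nonneg _) (UT_nonneg _ _ _))

lemma th_nonneg (d : Pt) {x : ℝ} (hx : 0 ≤ x) (i : ℕ) (t : List Bool) : 0 ≤ th s M lv Ch d x i t :=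
  mul_nonneg hx (sum_nonneg fun _ _ => div_nonneg (AD.NIA_nonneg _ _ _ (ind_nonneg d) _)
    (mul_nonneg (Nat.cast_nonneg _) (UT_nonneg _ _ _)))

/-- on the words with the direction d the two weights agree -/
lemma Ta_ad (hC : ∀ i, i < M → SLW.Chn (lv i + s) (Ch i)) {d : Pt} {t : List Bool} (hd : de t = d) (i : ℕ) :
    TW.Ta (fun j => ad s M lv Ch d j t) M i = TW.Ta (fun j => a0 s M lv Ch j t) M i := by
  unfold TW.Ta
  refine sum_congr rfl fun j hj => ?_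
  rw [mem_Ico] at hj
  show ad s M lv Ch d j t = a0 s M lv Ch j t
  unfold ad a0
  rw [NA_dir _ _ (hC j hj.2) hd]

open TW OG in
/-- the oscillation of the cutoff -/
lemma osc0 {s' q0 : ℕ} {c : ℝ} (hc : 0 < c) {i : ℕ} (hgap : ∀ j, i < j → j < M → lv i + s + s' ≤ lv j) (hs : q0 + 7 ≤ s')
    (d : Pt) {A Y : List Bool} (hA : A ++ Y ∈ SA) (hY : ∀ k, k ≤ Y.length → hn (vx oo up Y k) < 2 ^ (lv i + s + q0)) :
    |gc (2 * c) (Ta (fun j => ad s M lv Ch d j (A ++ Y)) M (i + 1)) - gc (2 * c) (Ta (fun j => ad s M lv Ch d j A) M (i + 1))| ≤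
      th s M lv Ch d (32 * 2 ^ q0 / (2 * c * 2 ^ s')) i A := by
  classical
  refine (gc_dist (by linarith) _ _).trans ?_
  unfold Ta th
  rw [← sum_sub_distrib]
  have e0 : ∀ x : ℝ, 32 * 2 ^ q0 / (2 * c * 2 ^ s') * x = 32 * 2 ^ q0 / 2 ^ s' * x / (2 * c) := fun x => by field_simp
  rw [e0]
  refine div_le_div_of_nonneg_right ?_ (by linarith)
  rw [mul_sum]
  refine (abs_sum_le_sum_abs _ _).trans (sum_le_sum fun j hj => ?_)
  rw [mem_Ico] at hj
  have hg := hgap j (by omega) hj.2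
  have hD : 0 ≤ (M : ℝ) * UT (lv j) (lv j + s) (Ch j) := mul_nonneg (Nat.cast_nonneg _) (UT_nonneg _ _ _)
  unfold ad
  rw [← sub_div, abs_div, abs_of_nonneg hD, ← mul_div_assoc]
  refine div_le_div_of_nonneg_right ?_ hD
  have h1 := (oscA_lv (l := lv j) (L := lv j + s) (q := lv i + s + q0) (Ch j) (ind_nonneg d) (by omega) hA hY).1
  refine h1.trans (mul_le_mul_of_nonneg_right ?_ (AD.NIA_nonneg _ _ _ (ind_nonneg d) _))
  rw [div_le_div_iff₀ (by positivity) (by positivity)]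
  have h2 : (2 : ℝ) ^ (lv i + s + s') ≤ 2 ^ lv j := pow_le_pow_right₀ (by norm_num) hg
  calc 32 * (2 : ℝ) ^ (lv i + s + q0) * 2 ^ s' = 32 * 2 ^ q0 * 2 ^ (lv i + s + s') := by
        rw [pow_add, pow_add _ (lv i + s) s']
        ring
    _ ≤ 32 * 2 ^ q0 * 2 ^ lv j := mul_le_mul_of_nonneg_left h2 (by positivity)

/-- the mass of the error -/
lemma th_mass {S : Set (List Bool)} {U : ℝ≥0∞} {Q0 R0 x : ℝ} (hS : ∀ t ∈ S, t ∈ SA) (hM : 1 ≤ M) (hQ : 0 ≤ Q0) (hR : 0 ≤ R0)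
    (hx : 0 ≤ x) (hC : ∀ i, i < M → SLW.Chn (lv i + s) (Ch i)) (hp : ∀ i, i < M → 0 < wD (Ch i)) {i s' : ℕ} (hi : i < M)
    (hgap : ∀ j, i < j → j < M → lv i + s + s' ≤ lv j) (hs : 8 ≤ s')
    (hU : ∀ i, i < M → Ub (lv i + s) ≤ R0 * UT (lv i) (lv i + s) (Ch i))
    (h2 : ∀ i, i < M → TF S (fun t => NP (2 ^ (lv i + s + 1)) t ^ 2) ≤ ENNReal.ofReal (Q0 * Ub (lv i + s) ^ 2) * U) (d : Pt) :
    TF S (fun t => NA (lv i) (lv i + s) (Ch i) (th s M lv Ch d x i) t) ≤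
      ENNReal.ofReal (x * Q0 * R0 ^ 2 * UT (lv i) (lv i + s) (Ch i)) * U := by
  classical
  have hM0 : (0 : ℝ) < M := by exact_mod_cast (by omega : 0 < M)
  have hUi := TS.Ub_pos (lv i + s)
  have e1 : TF S (fun t => NA (lv i) (lv i + s) (Ch i) (th s M lv Ch d x i) t) ≤
      TF S (fun t => ∑ j ∈ Ico (i + 1) M, x / (M * UT (lv j) (lv j + s) (Ch j)) *
        (NP (2 ^ (lv i + s + 1)) t * NP (2 ^ (lv j + s + 1)) t)) := by
    refine TF_mono fun t ht => ?_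
    have e2 : NA (lv i) (lv i + s) (Ch i) (th s M lv Ch d x i) t =
        ∑ j ∈ Ico (i + 1) M, x / (M * UT (lv j) (lv j + s) (Ch j)) *
          NA (lv i) (lv i + s) (Ch i) (NIA (lv j) (lv j + s) (Ch j) (fun A => if de A = d then 1 else 0)) t := by
      unfold th NA
      rw [sum_congr rfl fun j _ => mul_sum _ _ _, sum_comm]
      refine sum_congr rfl fun p _ => ?_
      beta_reduce
      rw [mul_sum, mul_sum]
      refine sum_congr rfl fun j _ => ?_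
      ring
    rw [e2]
    refine sum_le_sum fun j hj => ?_
    rw [mem_Ico] at hj
    have hUj := UT_pos (l := lv j) (L := lv j + s) (hp j hj.2)
    refine mul_le_mul_of_nonneg_left ?_ (by positivity)
    have hg := hgap j (by omega) hj.2
    refine (NA_above (l := lv i) (L := lv i + s) (l' := lv j) (L' := lv j + s) (by omega) (hC i hi) (by omega)
      (ind_nonneg d) (hS t ht)).trans ?_
    have h3 : NA (lv i) (lv i + s) (Ch i) (fun _ => 1) t ≤ NP (2 ^ (lv i + s + 1)) t :=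
      (AD.NA_le_NQA _ _ _ (fun _ => zero_le_one) t).trans (AD.NQA_one_le_NP (by omega) (hC i hi) t)
    have h4 : NQA (lv j) (lv j + s) (Ch j) (fun A => if de A = d then 1 else 0) t ≤ NP (2 ^ (lv j + s + 1)) t :=
      NQA_le_NP (by omega) (hC j hj.2) (fun A => by
        show (if de A = d then (1 : ℝ) else 0) ≤ 1
        split_ifs <;> norm_num) t
    exact mul_le_mul h3 h4 (AD.NQA_nonneg _ _ _ (ind_nonneg d) _) ((AD.NA_nonneg _ _ _ (fun _ => zero_le_one) t).trans h3)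
  refine e1.trans ?_
  have hNP : ∀ (r : ℕ) (t : List Bool), 0 ≤ NP r t := fun r t => Nat.cast_nonneg _
  rw [TF_sum (Ico (i + 1) M) (fun j hj t _ => mul_nonneg (div_nonneg hx (mul_nonneg hM0.le (UT_nonneg _ _ _)))
    (mul_nonneg (hNP _ _) (hNP _ _)))]
  have e3 : ∀ j ∈ Ico (i + 1) M, TF S (fun t => x / (M * UT (lv j) (lv j + s) (Ch j)) *
      (NP (2 ^ (lv i + s + 1)) t * NP (2 ^ (lv j + s + 1)) t)) ≤
      ENNReal.ofReal (x * Q0 * R0 ^ 2 * UT (lv i) (lv i + s) (Ch i) / M) * U := by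
    intro j hj
    rw [mem_Ico] at hj
    have hUj := UT_pos (l := lv j) (L := lv j + s) (hp j hj.2)
    have hUi' := UT_pos (l := lv i) (L := lv i + s) (hp i hi)
    rw [TF_smul (by positivity)]
    have h3 := np_cross (S := S) hQ (h2 i hi) (h2 j hj.2)
    refine (mul_le_mul' le_rfl h3).trans ?_
    rw [← mul_assoc, ← ENNReal.ofReal_mul (by positivity)]
    refine mul_le_mul' (ENNReal.ofReal_le_ofReal ?_) le_rfl
    have h4 := hU i hi
    have h5 := hU j hj.2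
    have h6 := TS.Ub_pos (lv j + s)
    calc x / (M * UT (lv j) (lv j + s) (Ch j)) * (Q0 * Ub (lv i + s) * Ub (lv j + s))
        ≤ x / (M * UT (lv j) (lv j + s) (Ch j)) * (Q0 * (R0 * UT (lv i) (lv i + s) (Ch i)) *
            (R0 * UT (lv j) (lv j + s) (Ch j))) := by
          refine mul_le_mul_of_nonneg_left ?_ (by positivity)
          exact mul_le_mul (mul_le_mul_of_nonneg_left h4 hQ) h5 h6.le (by positivity)
      _ = _ := by
          field_simp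
  refine (sum_le_sum e3).trans ?_
  rw [sum_const, nsmul_eq_mul]
  have hcard : ((Ico (i + 1) M).card : ℝ≥0∞) ≤ ENNReal.ofReal M := by
    rw [ENNReal.ofReal_natCast, Nat.card_Ico]
    exact_mod_cast (by omega : M - (i + 1) ≤ M)
  have hUi' := UT_pos (l := lv i) (L := lv i + s) (hp i hi)
  calc ((Ico (i + 1) M).card : ℝ≥0∞) * (ENNReal.ofReal (x * Q0 * R0 ^ 2 * UT (lv i) (lv i + s) (Ch i) / M) * U)
      ≤ ENNReal.ofReal M * (ENNReal.ofReal (x * Q0 * R0 ^ 2 * UT (lv i) (lv i + s) (Ch i) / M) * U) :=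
        mul_le_mul' hcard le_rfl
    _ = _ := by
        rw [← mul_assoc, ← ENNReal.ofReal_mul hM0.le]
        congr 2
        field_simp

/-- **the domination in the normalised form**, one level, one direction -/
lemma dom_dir {c A Q0 R0 x κ : ℝ} {c1 K i q0 m' s' : ℕ} {U : ℝ≥0∞} {YY : Set (List Bool)} (hc : 0 < c) (hA : 0 < A) (hM : 1 ≤ M)
    (hQ : 0 ≤ Q0) (hR : 0 ≤ R0) (hx : x = 32 * 2 ^ q0 / (2 * c * 2 ^ s')) (hi : i < M)
    (hgap : ∀ i j, i < j → j < M → lv i + s + s' ≤ lv j) (hs : q0 + 8 ≤ s') (hq0 : m' + 1 ≤ q0) (hm' : 50 ≤ m')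
    (hC : ∀ i, i < M → SLW.Chn (lv i + s) (Ch i)) (hp : ∀ i, i < M → 0 < wD (Ch i)) {d : Pt}
    (hU : ∀ i, i < M → Ub (lv i + s) ≤ R0 * UT (lv i) (lv i + s) (Ch i))
    (h2 : ∀ i, i < M → TF (BotS (c1 - 1) (K + 6)) (fun t => NP (2 ^ (lv i + s + 1)) t ^ 2) ≤
      ENNReal.ofReal (Q0 * Ub (lv i + s) ^ 2) * U)
    (hlow : ∀ Φ θ : List Bool → ℝ, (∀ t, 0 ≤ Φ t) → (∀ t, 0 ≤ θ t) →
      (∀ A1 Y, A1 ++ Y ∈ SA → (∀ k, k ≤ Y.length → hn (vx oo up Y k) < 2 ^ (lv i + s + m') + 2 ^ (lv i + s + 50)) →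
        |Φ (A1 ++ Y) - Φ A1| ≤ θ A1) →
      ENNReal.ofReal (Ub (lv i)) * NTA.Xb (lv i) * gf (Ch i) *
          TF {t | t ∈ {t | t ∈ BotS c1 K ∧ t ∈ NcS (lv i + s + 48) YY κ} ∧ de t = d} Φ ≤
        ENNReal.ofReal A * NTA.Xb (lv i + s) *
          (TF {t | t ∈ BotS (c1 - 1) (K + 6) ∧ de t = d} (fun t => N0 (lv i) (lv i + s) (Ch i) t * Φ t) +
          TF (BotS (c1 - 1) (K + 6)) (fun t => NA (lv i) (lv i + s) (Ch i) θ t))) :
    TF {t | t ∈ {t | t ∈ BotS c1 K ∧ t ∈ NcS (lv i + s + 48) YY κ} ∧ de t = d}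
        (fun t => TW.gc (2 * c) (TW.Ta (fun j => a0 s M lv Ch j t) M (i + 1))) ≤
      ENNReal.ofReal (A * M) * TF {t | t ∈ BotS (c1 - 1) (K + 6) ∧ de t = d}
        (fun t => a0 s M lv Ch i t * TW.gc (2 * c) (TW.Ta (fun j => a0 s M lv Ch j t) M (i + 1))) +
        ENNReal.ofReal (A * x * Q0 * R0 ^ 2) * U := by
  have hM0 : (0 : ℝ) < M := by exact_mod_cast (by omega : 0 < M)
  have hx0 : 0 ≤ x := by rw [hx]; positivity
  obtain ⟨u, hu⟩ : ∃ u, u = UT (lv i) (lv i + s) (Ch i) := ⟨_, rfl⟩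
  have hup : 0 < u := by rw [hu]; exact UT_pos (hp i hi)
  obtain ⟨Φ, hΦ⟩ : ∃ Φ : List Bool → ℝ, Φ = fun t => TW.gc (2 * c) (TW.Ta (fun j => ad s M lv Ch d j t) M (i + 1)) := ⟨_, rfl⟩
  obtain ⟨Ψ, hΨ⟩ : ∃ Ψ : List Bool → ℝ, Ψ = fun t => TW.gc (2 * c) (TW.Ta (fun j => a0 s M lv Ch j t) M (i + 1)) := ⟨_, rfl⟩
  have hΦΨ : ∀ t, de t = d → Φ t = Ψ t := by
    intro t ht
    rw [hΦ, hΨ]
    show TW.gc (2 * c) _ = TW.gc (2 * c) _
    rw [Ta_ad hC ht]
  suffices hgoal : TF {t | t ∈ {t | t ∈ BotS c1 K ∧ t ∈ NcS (lv i + s + 48) YY κ} ∧ de t = d} Ψ ≤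
      ENNReal.ofReal (A * M) * TF {t | t ∈ BotS (c1 - 1) (K + 6) ∧ de t = d} (fun t => a0 s M lv Ch i t * Ψ t) +
        ENNReal.ofReal (A * x * Q0 * R0 ^ 2) * U by
    rw [hΨ] at hgoal
    exact hgoal
  have h1 := hlow Φ (th s M lv Ch d x i) (fun t => by rw [hΦ]; exact TW.gc_nonneg _ _) (th_nonneg d hx0 i) ?_
  · have e1 : gf (Ch i) = ENNReal.ofReal (wD (Ch i)) := by
      unfold wD
      rw [ENNReal.ofReal_toReal]
      intro h
      have := hp i hi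
      unfold wD at this
      rw [h, ENNReal.toReal_top] at this
      exact absurd this (lt_irrefl 0)
    have hw := hp i hi
    have hUl := TS.Ub_pos (lv i)
    have hXl := Xr_pos (lv i)
    have hXL := Xr_pos (lv i + s)
    rw [Xr_eq (lv i), Xr_eq (lv i + s), e1, ← ENNReal.ofReal_mul hUl.le, ← ENNReal.ofReal_mul (by positivity),
      ← ENNReal.ofReal_mul hA.le] at h1
    have h3 := div_ofReal (by positivity) h1
    have e2 : A * (NTA.Xb (lv i + s)).toReal / (Ub (lv i) * (NTA.Xb (lv i)).toReal * wD (Ch i)) = A / u := by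
      rw [hu]
      unfold UT
      field_simp
    rw [e2] at h3
    have h4 : TF {t | t ∈ {t | t ∈ BotS c1 K ∧ t ∈ NcS (lv i + s + 48) YY κ} ∧ de t = d} Ψ ≤
        TF {t | t ∈ {t | t ∈ BotS c1 K ∧ t ∈ NcS (lv i + s + 48) YY κ} ∧ de t = d} Φ :=
      TF_mono fun t ht => (hΦΨ t ht.2).ge
    have h5 : TF {t | t ∈ BotS (c1 - 1) (K + 6) ∧ de t = d} (fun t => N0 (lv i) (lv i + s) (Ch i) t * Φ t) ≤
        ENNReal.ofReal (M * u) * TF {t | t ∈ BotS (c1 - 1) (K + 6) ∧ de t = d} (fun t => a0 s M lv Ch i t * Ψ t) := by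
      rw [← TF_smul (by positivity)]
      refine TF_mono fun t ht => le_of_eq ?_
      rw [hΦΨ t ht.2]
      unfold a0
      rw [← hu]
      field_simp
    have h6 := th_mass (S := BotS (c1 - 1) (K + 6)) (U := U) (Q0 := Q0) (R0 := R0) (x := x) (fun t ht => botS_SA ht) hM hQ hR hx0
      hC hp hi (hgap i) (by omega) hU h2 d
    rw [← hu] at h6
    refine h4.trans (h3.trans ?_)
    refine (mul_le_mul' le_rfl (add_le_add h5 h6)).trans (le_of_eq ?_)
    rw [mul_add, ← mul_assoc, ← mul_assoc, ← ENNReal.ofReal_mul (by positivity), ← ENNReal.ofReal_mul (by positivity)]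
    have g1 : A / u * (M * u) = A * M := by field_simp
    have g2 : A / u * (x * Q0 * R0 ^ 2 * u) = A * x * Q0 * R0 ^ 2 := by field_simp
    rw [g1, g2]
  · intro A1 Y hS hY
    rw [hΦ, hx]
    refine osc0 hc (hgap i) (by omega) d hS (fun k hk => (hY k hk).trans_le ?_)
    have g1 : (2 : ℤ) ^ (lv i + s + 50) ≤ 2 ^ (lv i + s + m') := pow_le_pow_right₀ (by norm_num) (by omega)
    have g2 : (2 : ℤ) ^ (lv i + s + m' + 1) ≤ 2 ^ (lv i + s + q0) := pow_le_pow_right₀ (by norm_num) (by omega)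
    have g3 : (2 : ℤ) ^ (lv i + s + m' + 1) = 2 ^ (lv i + s + m') + 2 ^ (lv i + s + m') := by ring
    linarith

end SBz

open SBz Classical in
/-- **P6: the total weight is rarely small, right parts** -/
theorem smallB0_of (hN : NiceB) (hL : LowB0) (hMB : MomB) : SmallB0 := by
  intro ε J hε
  obtain ⟨κ, η, j, m, cn, ln, hκ, hη, hnice⟩ := hN (ε / 4) J (by linarith)
  obtain ⟨CY, hCY, hYm⟩ := YN_mass (48 + j) m hη
  obtain ⟨m', hm'⟩ : ∃ m' : ℕ, m' = 48 + j + m + 2 := ⟨_, rfl⟩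
  obtain ⟨A, lL, hA, hlow⟩ := hL m' CY κ hCY hκ
  obtain ⟨m0, km, hm0, hmass⟩ := S_mass0 J
  obtain ⟨Q0, cq, hQ0, hq⟩ := np_mass hMB J
  obtain ⟨D, hD, hX⟩ := NTA.Xb_pow
  obtain ⟨c, hc⟩ : ∃ c, c = ε / (16 * A * m0) := ⟨_, rfl⟩
  have hc0 : 0 < c := by rw [hc]; positivity
  refine ⟨c, hc0, fun w s hw => ?_⟩
  obtain ⟨R0, hR0⟩ : ∃ R0, R0 = 2 ^ s * D ^ s / w := ⟨_, rfl⟩
  have hRp : 0 < R0 := by
    have : 0 < D := by linarith
    rw [hR0]
    positivity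
  obtain ⟨M0, hM0⟩ := exists_nat_ge (2 * A * (Q0 * R0 ^ 2) / (c * ε))
  refine ⟨M0 + 1, fun M hM => ?_⟩
  have hMp : (0 : ℝ) < M := by exact_mod_cast (by omega : 0 < M)
  obtain ⟨q0, hq0⟩ : ∃ q0 : ℕ, q0 = m' + 1 := ⟨_, rfl⟩
  obtain ⟨s1, hs1⟩ : ∃ s1 : ℕ, 24 * A * Q0 * R0 ^ 2 * (32 * 2 ^ q0) / (2 * c * ε) < 2 ^ s1 :=
    pow_unbounded_of_one_lt _ (by norm_num)
  refine ⟨s1 + q0 + 8, fun s' hs' => ⟨cn + cq + km + m' + 108, ln + lL,
    fun c1 K lv Ch hLv hlv hc1 hK hJ => ?_⟩⟩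
  obtain ⟨x, hx⟩ : ∃ x : ℝ, x = 32 * 2 ^ q0 / (2 * c * 2 ^ s') := ⟨_, rfl⟩
  have hx0 : 0 ≤ x := by rw [hx]; positivity
  obtain ⟨hgap, hC, hwC⟩ := hLv
  have hp : ∀ i, i < M → 0 < wD (Ch i) := fun i hi => hw.trans_le (hwC i hi)
  have hU : ∀ i, i < M → Ub (lv i + s) ≤ R0 * UT (lv i) (lv i + s) (Ch i) := by
    intro i hi
    rw [hR0]
    exact Ub_le_UT hD hX hw (hwC i hi)
  have hUK := TS.Ub_pos K
  have hc10 := hc1 0 (by omega)
  have h2 : ∀ i, i < M → TF (BotS (c1 - 1) (K + 6)) (fun t => NP (2 ^ (lv i + s + 1)) t ^ 2) ≤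
      ENNReal.ofReal (Q0 * Ub (lv i + s) ^ 2) * (ENNReal.ofReal (Ub K) * Xb K) := by
    intro i hi
    have := hc1 i hi
    exact hq (lv i + s) c1 K (by omega) hK hJ
  have ha2 : ∀ i, i < M → TF (BotS (c1 - 1) (K + 6)) (fun t => a0 s M lv Ch i t ^ 2) ≤
      ENNReal.ofReal (Q0 * R0 ^ 2 / M ^ 2) * (ENNReal.ofReal (Ub K) * Xb K) := by
    intro i hi
    have hUi := UT_pos (l := lv i) (L := lv i + s) (hp i hi)
    have hb := TS.Ub_pos (lv i + s)
    have e1 : TF (BotS (c1 - 1) (K + 6)) (fun t => a0 s M lv Ch i t ^ 2) ≤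
        TF (BotS (c1 - 1) (K + 6)) (fun t => 1 / (M * UT (lv i) (lv i + s) (Ch i)) ^ 2 * NP (2 ^ (lv i + s + 1)) t ^ 2) := by
      refine TF_mono fun t _ => ?_
      have g1 : a0 s M lv Ch i t ≤ NP (2 ^ (lv i + s + 1)) t / (M * UT (lv i) (lv i + s) (Ch i)) := by
        unfold a0
        refine div_le_div_of_nonneg_right ?_ (by positivity)
        exact (OV.N0_le_NQ0 _ _ _ _).trans (NQ0_le (by omega) (hC i hi) t)
      calc a0 s M lv Ch i t ^ 2 ≤ (NP (2 ^ (lv i + s + 1)) t / (M * UT (lv i) (lv i + s) (Ch i))) ^ 2 :=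
            pow_le_pow_left₀ (a0_nonneg i t) g1 2
        _ = _ := by rw [div_pow]; ring
    refine e1.trans ?_
    rw [TF_smul (by positivity)]
    refine (mul_le_mul' le_rfl (h2 i hi)).trans ?_
    rw [← mul_assoc, ← ENNReal.ofReal_mul (by positivity)]
    refine mul_le_mul' (ENNReal.ofReal_le_ofReal ?_) le_rfl
    have g2 : Ub (lv i + s) ^ 2 ≤ (R0 * UT (lv i) (lv i + s) (Ch i)) ^ 2 := pow_le_pow_left₀ hb.le (hU i hi) 2
    calc 1 / (M * UT (lv i) (lv i + s) (Ch i)) ^ 2 * (Q0 * Ub (lv i + s) ^ 2)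
        ≤ 1 / (M * UT (lv i) (lv i + s) (Ch i)) ^ 2 * (Q0 * (R0 * UT (lv i) (lv i + s) (Ch i)) ^ 2) :=
          mul_le_mul_of_nonneg_left (mul_le_mul_of_nonneg_left g2 hQ0.le) (by positivity)
      _ = _ := by field_simp
  have key := small_core (S := BotS c1 K) (S' := BotS (c1 - 1) (K + 6)) (α := a0 s M lv Ch)
    (N := fun i => NcS (lv i + s + 48) (YN (lv i + s + (48 + j)) m η) κ) (c := c) (m0 := m0) (Q := Q0 * R0 ^ 2) (A := A)
    (e := ε / 4) (τ := 6 * (A * x * Q0 * R0 ^ 2)) (M := M) (U := ENNReal.ofReal (Ub K) * Xb K)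
    (fun i t => a0_nonneg i t) hc0 (by omega) hA.le hm0.le (by positivity) (by positivity) (by positivity) ha2
    (hmass c1 K (by omega) hK hJ) (fun i hi => ?_) (fun i hi => ?_)
  · have e1 : {t | t ∈ BotS c1 K ∧
        TW.Ta (fun i => N0 (lv i) (lv i + s) (Ch i) t / UT (lv i) (lv i + s) (Ch i) / M) M 0 < 2 * c} =
        {t | t ∈ BotS c1 K ∧ TW.Ta (fun j => a0 s M lv Ch j t) M 0 < 2 * c} := by
      ext t
      show _ ∧ _ ↔ _ ∧ _
      have e2 : (fun i => N0 (lv i) (lv i + s) (Ch i) t / UT (lv i) (lv i + s) (Ch i) / M) = fun j => a0 s M lv Ch j t := by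
        funext i
        unfold a0
        rw [div_div, mul_comm (UT _ _ _)]
      rw [e2]
    rw [e1]
    refine key.trans ?_
    rw [ENNReal.ofReal_mul hε.le, mul_assoc (ENNReal.ofReal ε)]
    refine mul_le_mul' (ENNReal.ofReal_le_ofReal ?_) le_rfl
    have g1 : 6 * (A * x * Q0 * R0 ^ 2) ≤ ε / 4 := by
      have h1 : (2 : ℝ) ^ s1 ≤ 2 ^ s' := pow_le_pow_right₀ (by norm_num) (by omega)
      have h3 : 24 * A * Q0 * R0 ^ 2 * (32 * 2 ^ q0) / (2 * c * ε) ≤ 2 ^ s' := hs1.le.trans h1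
      rw [div_le_iff₀ (by positivity)] at h3
      have h4 : 6 * (A * x * Q0 * R0 ^ 2) = (24 * A * Q0 * R0 ^ 2 * (32 * 2 ^ q0)) / (2 * c * 2 ^ s') / 4 := by
        rw [hx]
        field_simp
        ring
      rw [h4]
      refine div_le_div_of_nonneg_right ?_ (by norm_num)
      rw [div_le_iff₀ (by positivity)]
      linarith
    have g2 : A * (4 * c * m0) = ε / 4 := by
      rw [hc]
      field_simp
      ring
    have g3 : A * (Q0 * R0 ^ 2 / (2 * c * M)) ≤ ε / 4 := by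
      have h1 : (M0 : ℝ) ≤ M := by exact_mod_cast (by omega : M0 ≤ M)
      have h3 := hM0.trans h1
      rw [div_le_iff₀ (by positivity)] at h3
      have h4 : A * (Q0 * R0 ^ 2 / (2 * c * M)) = (2 * A * (Q0 * R0 ^ 2)) / (c * M) / 4 := by
        field_simp
        ring
      rw [h4]
      refine div_le_div_of_nonneg_right ?_ (by norm_num)
      rw [div_le_iff₀ (by positivity)]
      linarith
    rw [mul_add]
    linarith
  · have h1 := hc1 i hi
    have h3 := hlv i hi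
    have h4 := hnice c1 K (lv i + s + 48) (by omega) (by omega) hK hJ
    rw [show lv i + s + 48 + j = lv i + s + (48 + j) by omega] at h4
    refine h4.trans (le_of_eq ?_)
    rw [ENNReal.ofReal_mul (by positivity), mul_assoc]
  · have h1 := hc1 i hi
    have h3 := hlv i hi
    rw [TF_dirs {t | t ∈ BotS c1 K ∧ t ∈ NcS (lv i + s + 48) (YN (lv i + s + (48 + j)) m η) κ} (fun t _ => TW.gc_nonneg _ _),
      TF_dirs (BotS (c1 - 1) (K + 6)) (fun t _ => mul_nonneg (a0_nonneg i t) (TW.gc_nonneg _ _))]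
    have hd : ∀ d ∈ dirs, _ := fun d (hd : d ∈ dirs) =>
      dom_dir (s := s) (M := M) (lv := lv) (Ch := Ch) (c := c) (A := A) (Q0 := Q0) (R0 := R0) (x := x) (κ := κ) (c1 := c1) (K := K)
        (i := i) (q0 := q0) (m' := m') (s' := s') (U := ENNReal.ofReal (Ub K) * Xb K) (YY := YN (lv i + s + (48 + j)) m η) (d := d)
        hc0 hA (by omega) hQ0.le hRp.le hx hi hgap (by omega) (by omega) (by omega) hC hp hU h2
        (fun Φ θ hΦ hθ hosc => by
          have h5 := hlow (lv i) (lv i + s) c1 K d (Ch i) (YN (lv i + s + (48 + j)) m η) Φ θ (by omega) (by omega) (by omega) hK hd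
            (hC i hi) (fun Y hY k hk => by
              have := YN_size Y hY k hk
              rw [hm']
              exact this) (hYm _) hΦ hθ hosc
          rw [TF_if (P := fun t => t ∈ BotS c1 K ∧ t ∈ NcS (lv i + s + 48) (YN (lv i + s + (48 + j)) m η) κ ∧ de t = d)
              (S := {t | t ∈ {t | t ∈ BotS c1 K ∧ t ∈ NcS (lv i + s + 48) (YN (lv i + s + (48 + j)) m η) κ} ∧ de t = d})
              (fun t => and_assoc),
            TF_if (P := fun t => t ∈ BotS (c1 - 1) (K + 6) ∧ de t = d)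
              (S := {t | t ∈ BotS (c1 - 1) (K + 6) ∧ de t = d}) (fun t => Iff.rfl),
            TF_if (P := fun t => t ∈ BotS (c1 - 1) (K + 6)) (S := BotS (c1 - 1) (K + 6)) (fun t => Iff.rfl)] at h5
          exact h5)
    refine (sum_le_sum hd).trans ?_
    rw [sum_add_distrib, ← mul_sum, sum_const, show dirs.card = 6 by decide, nsmul_eq_mul]
    refine add_le_add le_rfl (le_of_eq ?_)
    rw [← mul_assoc, ENNReal.ofReal_mul (by norm_num : (0 : ℝ) ≤ 6)]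
    congr 2
    norm_num

end PWN

end HexObs
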