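import Pool.Agent.PW.SmallTy
import Pool.Agent.PW.SmallB0

/-!
# PW, row SmallT (helper47), the form used by the assembly: the total weight of the levels is rarely small on the cylinder
-/

set_option autoImplicit false

namespace HexObs

namespace PWN

open Finset TS SDN TIW SLW HexObs.SIM SLW.TW

open scoped ENNReal

/-- **SmallT**: `c` does not depend on the mass `w` of the chains nor on `s` -/
def SmallTS : Prop := ∀ ε : ℝ, 0 < ε → ∃ c : ℝ, 0 < c ∧ ∀ (w : ℝ) (s : ℕ), 0 < w → ∃ M0 : ℕ, ∀ M : ℕ, M0 ≤ M →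
  ∃ s0 : ℕ, ∀ s' : ℕ, s0 ≤ s' → ∃ c0 l0 k0 : ℕ, ∀ (k : ℕ) (z : ℤ) (R : ℕ) (e : Pt) (lv : ℕ → ℕ) (Ch : ℕ → Set (List Bool)),
    k0 ≤ k → LvS M lv s s' w Ch → (∀ i, i < M → l0 ≤ lv i) → (∀ i, i < M → lv i + s + c0 ≤ Nat.log 2 k) →
      ∑ t ∈ Ty k R e ((2 * z + 1) * (k : ℤ), (2 * z + 1) * (k : ℤ)), xc ^ t.length *
        smI c (fun i => NW (lv i) (lv i + s) (Ch i) (trI k (lv i + s)) (fun _ => 1) t /
          UT (lv i) (lv i + s) (Ch i) / M) M ≤ ε * gK (Nat.log 2 k)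

theorem smallT_of (hD : DomSt) (hT : TrTSt) (hX : NTA.XDbl) (hS : TPC.SD) (hB : SmallB0) : SmallTS := by
  intro ε hε
  obtain ⟨c1, J, a, k1, e, he, hck, h⟩ := small_Ty hD hT hX hS ε hε
  obtain ⟨c, hc, hB⟩ := hB e (c1 + J) he
  refine ⟨c, hc, fun w s hw => ?_⟩
  obtain ⟨M0, hB⟩ := hB w s hw
  refine ⟨max M0 1, fun M hM => ?_⟩
  obtain ⟨s0, hB⟩ := hB M ((le_max_left _ _).trans hM)
  refine ⟨s0, fun s' hs' => ?_⟩
  obtain ⟨c0, l0, hB⟩ := hB s' hs'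
  refine ⟨max a (c0 + c1), l0, k1, fun k z R e' lv Ch hk hLv hl hlk => ?_⟩
  have hcK : c1 ≤ Nat.log 2 k := hck.trans (Nat.log_mono_right hk)
  have ha := le_max_left a (c0 + c1)
  have hc01 := le_max_right a (c0 + c1)
  refine h k z hk M lv s Ch (fun i => UT (lv i) (lv i + s) (Ch i)) c ((le_max_right _ _).trans hM) hLv.chn
    (fun i hi => ?_) (fun i => UT_nonneg _ _ _) ?_ R e'
  · have := hlk i hi
    omega
  · refine hB (Nat.log 2 k - c1) (Nat.log 2 k + J) lv Ch hLv hl (fun i hi => ?_) (by omega) (by omega)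
    have := hlk i hi
    omega

end PWN

end HexObs
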