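import Pool.Agent.PW.SmallNZ
import Pool.Agent.PW.TipN
import Pool.Agent.SLW.SlowFin

/-!
PW (winding of the walk), row P7 (helper45): **`tipN`**, no hypothesis left (`smallN` = helper83, PW/SmallNZ).
-/

set_option autoImplicit false

namespace HexObs

namespace PWN

open SLW

/-- **the tip of the walk with `n` steps** -/
theorem tipN {Lg : ℝ} {g : ℝ → ℝ} (hg : Bump Lg g) {u : ℝ} (hu : g u = 1) : TipN g := tipN_of aReg slowF smallN hg hu

theorem tipN0 : TipN (tent 0) := tipN (tent_bump 0) (tent_one 0)

end PWN

end HexObs
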