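import Pool.Agent.PW.TipT
import Pool.Agent.PW.TipNF
import Pool.Agent.PW.SmallTF
import Pool.Agent.PW.DomT
import Pool.Agent.TPC.SDZ
import Pool.Agent.TPF.URZ
import Pool.Agent.NTA.XDbl

/-!
# PW, row SmallT (helper47): the literal of the assembly from the rows TrV and SmallB0
-/

set_option autoImplicit false

namespace HexObs

namespace PWN

open Finset TS SDN TIW SLW HexObs.SIM

open scoped ENNReal

theorem domSt : DomSt := fun ε c1 J hε => PW.domSt ε c1 J hε

/-- **the total weight of the levels is rarely small, words of the cylinder** -/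
theorem smallT_TS (h : SmallTS) : SmallT := by
  intro ε hε
  obtain ⟨c, hc, h⟩ := h ε hε
  refine ⟨c, hc, fun w s hw => ?_⟩
  obtain ⟨M0, h⟩ := h w s hw
  refine ⟨M0, fun M hM => ?_⟩
  obtain ⟨s0, h⟩ := h M hM
  refine ⟨s0, fun s' hs' => ?_⟩
  obtain ⟨c0, l0, k0, h⟩ := h s' hs'
  refine ⟨c0, l0, k0, fun k R z e lv Ch hk hLv hl hlk => ?_⟩
  refine h k z R e lv Ch hk hLv (fun i hi => ?_) hlk
  rcases Nat.eq_zero_or_pos i with h0 | h0
  · rw [h0]
    exact hl
  · have := hLv.gap 0 i h0 hi
    omega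

theorem smallT_rows (hT : TrTSt) (hB : SmallB0) : SmallT :=
  smallT_TS (smallT_of domSt hT NTA.xDbl (TPC.sd_of_UR TPF.ur) hB)

/-- only the row TrV is left -/
theorem smallT_tr (hT : TrTSt) : SmallT := smallT_rows hT smallB0

end PWN

end HexObs
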