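import Pool.Agent.PW.SmallTG
import Pool.Agent.PW.BoxLen
import Pool.Agent.SLW.DefsB

/-!
# PW, row SmallT (helper47): functionals of the words of the cylinder are small only if the same functional of the part behind
the start is small, in the ensemble of the right parts

* `DomSt`, `TrTSt` : the hypotheses (rows DomT, TrV);
* **`smallT_core`** : the transfer.
-/

set_option autoImplicit false

namespace HexObs

namespace PWN

open Finset TS SDN TIW SLW HexObs.SIM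

open scoped ENNReal

/-- row DomT: up to a small mass the words of the cylinder with a given end are `X ++ R`, `X` near the start, `R` a right part -/
def DomSt : Prop := ∀ (ε : ℝ) (c1 J : ℕ), 0 < ε → ∃ (c k0 : ℕ) (A : ℝ), 0 < A ∧ c1 ≤ c ∧ c ≤ Nat.log 2 k0 ∧
  ∀ (k : ℕ) (y : Pt) (E Q : Set (List Bool)), k0 ≤ k →
    (∀ t ∈ E, t ∈ SA ∧ TPC.Dsj k t ∧ en t = y ∧ t ∈ WL (Nat.log 2 k + J)) → y ∉ Bl oo (2 ^ (Nat.log 2 k - c1)) →
    (∀ X R, X ++ R ∈ E → TIP.In (2 ^ (Nat.log 2 k - c1)) X → R ∈ BotS (Nat.log 2 k - c) (Nat.log 2 k + J + 4) → R ∈ Q) →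
    gf E ≤ ENNReal.ofReal ε * PW.BL.gK (Nat.log 2 k) + ENNReal.ofReal (A / 4 ^ Nat.log 2 k) * NTA.Xb (Nat.log 2 k) *
      gf {R | R ∈ BotS (Nat.log 2 k - c) (Nat.log 2 k + J + 4) ∧ R ∈ Q}

/-- row TrV: the words of the cylinder with a given end over `(k, k)` which come near a translate of their tip -/
def TrTSt : Prop := ∀ ε : ℝ, 0 < ε → ∃ c1 k0 : ℕ, c1 ≤ Nat.log 2 k0 ∧ ∀ (k : ℕ) (z : ℤ), k0 ≤ k →
  gf {t | (t ∈ SA ∧ TPC.Dsj k t ∧ en t = ((2 * z + 1) * (k : ℤ), (2 * z + 1) * (k : ℤ))) ∧ ∃ (m : ℤ) (i : ℕ), m ≠ 0 ∧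
    i ≤ t.length ∧ hn (vx oo up t i + (2 * (k : ℤ) * m, 2 * (k : ℤ) * m) - en t) < 2 ^ (Nat.log 2 k - c1)} ≤
    ENNReal.ofReal ε * PW.BL.gK (Nat.log 2 k)

/-- **the transfer** -/
theorem smallT_core (hD : DomSt) (hT : TrTSt) (hX : NTA.XDbl) (hS : TPC.SD) : ∀ ε : ℝ, 0 < ε →
    ∃ (c J a k0 : ℕ) (A : ℝ), 0 < A ∧ c ≤ Nat.log 2 k0 ∧ ∀ (k L : ℕ) (z : ℤ), k0 ≤ k → L + a ≤ Nat.log 2 k →
      ∀ (F G : List Bool → ℝ) (τ : ℝ), (∀ X R, FarX k L X R → G R ≤ F (X ++ R)) →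
        gf {t | (t ∈ SA ∧ TPC.Dsj k t ∧ en t = ((2 * z + 1) * (k : ℤ), (2 * z + 1) * (k : ℤ))) ∧ F t < τ} ≤
          ENNReal.ofReal (A / 4 ^ Nat.log 2 k) * NTA.Xb (Nat.log 2 k) *
            gf {R | R ∈ BotS (Nat.log 2 k - c) (Nat.log 2 k + J) ∧ G R < τ} +
          ENNReal.ofReal ε * PW.BL.gK (Nat.log 2 k) := by
  intro ε hε
  obtain ⟨J, K1, hbox⟩ := PW.BL.box_tail hX hS (ε / 3) (by positivity)
  obtain ⟨c, k0, A, hA, hc1, hck, hdom⟩ := hD (ε / 3) 2 J (by positivity)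
  obtain ⟨c2, k2, hc2, htr⟩ := hT (ε / 3) (by positivity)
  refine ⟨c, J + 4, c2 + 4, max (max k0 k2) (2 ^ (K1 + 2)), A, hA, ?_, fun k L z hk hL F G τ hFG => ?_⟩
  · exact hck.trans (Nat.log_mono_right ((le_max_left _ _).trans (le_max_left _ _)))
  have hk0 : k0 ≤ k := ((le_max_left _ _).trans (le_max_left _ _)).trans hk
  have hk2 : k2 ≤ k := ((le_max_right _ _).trans (le_max_left _ _)).trans hk
  have hk3 : 2 ^ (K1 + 2) ≤ k := (le_max_right _ _).trans hk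
  obtain ⟨K, hK⟩ : ∃ K, K = Nat.log 2 k := ⟨_, rfl⟩
  have hkne : k ≠ 0 := by
    have := Nat.one_le_two_pow (n := K1 + 2)
    omega
  have hK2 : c2 ≤ K := by
    rw [hK]
    exact hc2.trans (Nat.log_mono_right hk2)
  have hK3 : K1 + 2 ≤ K := by
    rw [hK]
    exact (Nat.le_log_iff_pow_le (by norm_num) hkne).2 hk3
  have hKk : 2 ^ K ≤ k := by
    rw [hK]
    exact Nat.pow_log_le_self 2 hkne
  obtain ⟨y, hy⟩ : ∃ y : Pt, y = ((2 * z + 1) * (k : ℤ), (2 * z + 1) * (k : ℤ)) := ⟨_, rfl⟩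
  have hbox := hbox k y (by rw [← hK]; omega)
  have htr := htr k z hk2
  obtain ⟨Tr, hTr⟩ : ∃ Tr : Set (List Bool), Tr = {t | (t ∈ SA ∧ TPC.Dsj k t ∧
      en t = ((2 * z + 1) * (k : ℤ), (2 * z + 1) * (k : ℤ))) ∧ ∃ (m : ℤ) (i : ℕ), m ≠ 0 ∧
      i ≤ t.length ∧ hn (vx oo up t i + (2 * (k : ℤ) * m, 2 * (k : ℤ) * m) - en t) < 2 ^ (Nat.log 2 k - c2)} := ⟨_, rfl⟩
  rw [← hTr] at htr
  obtain ⟨E, hE⟩ : ∃ E : Set (List Bool), E = {t | ((t ∈ SA ∧ TPC.Dsj k t ∧ en t = y ∧ t ∈ WL (Nat.log 2 k + J)) ∧ F t < τ) ∧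
      t ∉ Tr} := ⟨_, rfl⟩
  have hkz : (2 : ℤ) ^ K ≤ k := by exact_mod_cast hKk
  have hyB : y ∉ Bl oo (2 ^ (Nat.log 2 k - 2)) := by
    rw [← hK, hy]
    intro h
    have h1 : |((2 * z + 1) * (k : ℤ)) - 0| ≤ ((2 ^ (K - 2) : ℕ) : ℤ) := h.1
    rw [sub_zero, abs_mul, Nat.abs_cast] at h1
    have h2 : (1 : ℤ) ≤ |2 * z + 1| := Int.one_le_abs (by omega)
    have h3 : (2 : ℤ) ^ K = 4 * 2 ^ (K - 2) := by
      rw [show (4 : ℤ) = 2 ^ 2 by norm_num, ← pow_add, show 2 + (K - 2) = K by omega]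
    have h4 : (0 : ℤ) < 2 ^ (K - 2) := by positivity
    push_cast at h1
    nlinarith
  have hdm := hdom k y E {R | G R < τ} hk0 (fun t ht => by rw [hE] at ht; exact ht.1.1) hyB (fun X R hXR hIn _ => by
    rw [hE] at hXR
    obtain ⟨⟨⟨h1, h2, h3, h4⟩, h5⟩, h6⟩ := hXR
    refine lt_of_le_of_lt (hFG X R ?_) h5
    rw [← hK] at hIn
    rw [hy] at h3
    refine ⟨far_first hKk ?_ ?_ h3 hIn, fun i hi m hm => ?_⟩
    · rw [Nat.le_div_iff_mul_le (by norm_num), mul_comm]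
      have : 4 * 2 ^ (K - 2) = 2 ^ K := by
        rw [show 4 = 2 ^ 2 by norm_num, ← pow_add, show 2 + (K - 2) = K by omega]
      omega
    · rw [← hK] at hL
      omega
    · by_contra hcon
      rw [not_le] at hcon
      refine h6 ?_
      rw [hTr]
      refine ⟨⟨h1, h2, h3⟩, m, i, hm, hi, hcon.trans_le ?_⟩
      rw [← hK] at hL ⊢
      calc (8 * 2 ^ L : ℤ) ≤ 2 ^ (L + 4) := by
            rw [pow_add]
            have : (0 : ℤ) < 2 ^ L := by positivity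
            linarith
        _ ≤ 2 ^ (K - c2) := pow_le_pow_right₀ (by norm_num) (by omega))
  rw [← hK] at hdm hbox htr ⊢
  -- the sum
  have hsplit : {t | (t ∈ SA ∧ TPC.Dsj k t ∧ en t = ((2 * z + 1) * (k : ℤ), (2 * z + 1) * (k : ℤ))) ∧ F t < τ} ⊆
      {t | t ∈ SA ∧ TPC.Dsj k t ∧ PW.BL.EndC k y (vx oo up t t.length) ∧ t ∉ WL (K + J)} ∪ (Tr ∪ E) := by
    rintro t ⟨⟨h1, h2, h3⟩, h4⟩
    rw [← hy] at h3
    by_cases h5 : t ∈ WL (K + J)
    · right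
      by_cases h6 : t ∈ Tr
      · exact Or.inl h6
      · right
        rw [hE, ← hK]
        exact ⟨⟨⟨h1, h2, h3, h5⟩, h4⟩, h6⟩
    · left
      refine ⟨h1, h2, ⟨0, ?_⟩, h5⟩
      have h6 : vx oo up t t.length = y := h3
      rw [h6]
      ext1
      · show y.1 = y.1 + 2 * (k : ℤ) * 0
        ring
      · show y.2 = y.2 + 2 * (k : ℤ) * 0
        ring
  calc _ ≤ gf {t | t ∈ SA ∧ TPC.Dsj k t ∧ PW.BL.EndC k y (vx oo up t t.length) ∧ t ∉ WL (K + J)} + (gf Tr + gf E) :=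
        (gf_mono hsplit).trans ((gf_union_le _ _).trans (add_le_add le_rfl (gf_union_le _ _)))
    _ ≤ ENNReal.ofReal (ε / 3) * PW.BL.gK K + (ENNReal.ofReal (ε / 3) * PW.BL.gK K + (ENNReal.ofReal (ε / 3) * PW.BL.gK K +
        ENNReal.ofReal (A / 4 ^ K) * NTA.Xb K * gf {R | R ∈ BotS (K - c) (K + J + 4) ∧ G R < τ})) :=
        add_le_add hbox (add_le_add htr hdm)
    _ = ENNReal.ofReal (A / 4 ^ K) * NTA.Xb K * gf {R | R ∈ BotS (K - c) (K + (J + 4)) ∧ G R < τ} +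
        ENNReal.ofReal ε * PW.BL.gK K := by
        have h3 : ENNReal.ofReal ε = ENNReal.ofReal (ε / 3) + ENNReal.ofReal (ε / 3) + ENNReal.ofReal (ε / 3) := by
          rw [← ENNReal.ofReal_add (by positivity) (by positivity), ← ENNReal.ofReal_add (by positivity) (by positivity)]
          congr 1
          ring
        rw [h3, show K + (J + 4) = K + J + 4 by omega]
        ring

end PWN

end HexObs
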