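import Pool.Agent.PW.HumpF
import Pool.Agent.PW.SmallT

/-!
PW, row TrV (helper65): the row in the literal form of SmallT.
-/

set_option autoImplicit false

namespace HexObs

namespace PW

/-- **row TrV**: the words of the cylinder with a given end over `(k, k)` which come near a translate of their tip -/
theorem trT (hS : TPC.SD) : PWN.TrTSt := fun ε hε => tr_cyl hS ε hε

end PW

end HexObs
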