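import Pool.Agent.PW.TipTF
import Pool.Agent.PW.SmallZ
import Pool.Agent.PW.TrT

/-!
PW, row TipT (helper45): closed.
-/

set_option autoImplicit false

namespace HexObs

namespace PWN

/-- **row SmallT** -/
theorem smallTZ : SmallT := smallT_tr (PW.trT (TPC.sd_of_UR TPF.ur))

/-- **row TipT**: the inner functionals of the tip of the words of the cylinder are asymptotically independent of the far
functionals, with the mean of the plane ensemble of the scale -/
theorem tipT {Lg : ℝ} {g : ℝ → ℝ} (hg : Bump Lg g) {u : ℝ} (hu : g u = 1) : TipT g := tipT_ofS smallTZ hg hu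

end PWN

end HexObs
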