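import Pool.Agent.PW.CylJ
import Pool.Agent.PW.TipTZ
import Pool.Agent.PW.E1Z

/-!
# PW, row CylJ (helper41): the winding angle on the cylinder is the sum of two independent tips, no hypothesis
-/

set_option autoImplicit false

noncomputable section

namespace PWJ

open HexObs HexObs.TIW HexObs.SDN HexObs.PWd HexObs.PWN HexObs.PWT NTSF

/-- **two independent tips** : the characteristic function of the winding angle of the critical walk across the cylinder is
the square of the characteristic function of the winding angle of the tip of a plane walk, up to `e + M |u|` -/
theorem tipCyl : PW.TipCyl (fun k u => Pool.Agent.CylSaw.angChar k u) psiW :=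
  tipCyl_of (tipT (tent_bump 0) (tent_one 0)) boxT e1S (MA_pos SLW.aReg (tent_bump 0) (tent_one 0)) (tent_bump 0)

end PWJ

end
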