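import Pool.Agent.WND.Law

/-!
# The square root of a characteristic function

`Φ k` = the characteristic function of the winding angle of the critical walk on the cylinder with `2 k` rows (around its
two ends), `ψ C b` = the characteristic function of the winding around the tip of the scale `2 ^ b` in a reference ensemble of the
scale `2 ^ (b + C)`, `P n` = the characteristic function of the winding around the start of the walk with `n` steps. If
`Φ (2 ^ (b + C)) ≈ ψ C b ^ 2` and `P n ≈ ψ C (K n - C)`, then the Gaussian limit of `Φ` gives the one of `P`, with half the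
variance.
-/

set_option autoImplicit false

noncomputable section

open MeasureTheory ProbabilityTheory Filter Topology

namespace PW

/-- **no change of sign**: a continuous function whose square is close to a square which is at least `g ^ 2`. -/
theorem close_of_sq {ψ : ℝ → ℂ} {G : ℝ → ℝ} {s e g : ℝ} (hψ : Continuous ψ) (h0 : 0 < (ψ 0).re) (hg : 0 < g)
    (he : e < g ^ 2) (hG : ∀ t ∈ Set.uIcc 0 s, g ≤ G t)
    (h : ∀ t ∈ Set.uIcc 0 s, ‖ψ t ^ 2 - ((G t : ℝ) : ℂ) ^ 2‖ ≤ e) :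
    ‖ψ s - ((G s : ℝ) : ℂ)‖ ≤ e / g := by
  have hne : ∀ t ∈ Set.uIcc 0 s, (ψ t).re ≠ 0 := by
    intro t ht h1
    have h2 := (Complex.abs_re_le_norm _).trans (h t ht)
    have h3 := hG t ht
    have h4 : (ψ t ^ 2 - ((G t : ℝ) : ℂ) ^ 2).re = -(ψ t).im ^ 2 - G t ^ 2 := by
      rw [Complex.sub_re, pow_two, Complex.mul_re, h1, ← Complex.ofReal_pow, Complex.ofReal_re]
      ring
    rw [h4] at h2
    have h5 : g ^ 2 ≤ G t ^ 2 := by nlinarith
    have h6 := (abs_le.1 h2).1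
    nlinarith [sq_nonneg (ψ t).im]
  have hs : s ∈ Set.uIcc 0 s := Set.right_mem_uIcc
  have hpos : 0 < (ψ s).re := by
    by_contra hc
    push Not at hc
    have h1 := intermediate_value_uIcc (a := 0) (b := s) (f := fun t => (ψ t).re)
      (Complex.continuous_re.comp hψ).continuousOn
    have h2 : (0 : ℝ) ∈ Set.uIcc (ψ 0).re (ψ s).re := by
      rw [Set.mem_uIcc]
      exact Or.inr ⟨hc, h0.le⟩
    obtain ⟨t, ht, h3⟩ := h1 h2
    exact hne t ht h3
  have h1 := h s hs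
  have h2 := hG s hs
  have h3 : ψ s ^ 2 - ((G s : ℝ) : ℂ) ^ 2 = (ψ s - ((G s : ℝ) : ℂ)) * (ψ s + ((G s : ℝ) : ℂ)) := by ring
  rw [h3, norm_mul] at h1
  have h4 : g ≤ ‖ψ s + ((G s : ℝ) : ℂ)‖ := by
    refine le_trans ?_ (Complex.re_le_norm _)
    rw [Complex.add_re, Complex.ofReal_re]
    linarith
  rw [le_div_iff₀ hg]
  exact (mul_le_mul_of_nonneg_left h4 (norm_nonneg _)).trans h1

/-- the Gaussian limit on the cylinder, uniform on compact sets -/
def CylLim (Φ : ℕ → ℝ → ℂ) (a : ℝ) : Prop :=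
  ∀ s0 e : ℝ, 0 < e → ∀ᶠ k : ℕ in atTop, ∀ s : ℝ, |s| ≤ s0 →
    ‖Φ k (s / √(Real.log k)) - ((Real.exp (-(a * s ^ 2)) : ℝ) : ℂ)‖ ≤ e

/-- the two ends of the walk on the cylinder with `2 ^ (b + C + 1)` rows: two independent tips of the scale `2 ^ b` -/
def TipCyl (Φ : ℕ → ℝ → ℂ) (ψ : ℕ → ℕ → ℝ → ℂ) : Prop :=
  ∀ e : ℝ, 0 < e → ∃ C0 : ℕ, ∀ C, C0 ≤ C → ∃ M : ℝ, ∀ᶠ b : ℕ in atTop, ∀ u : ℝ,
    ‖Φ (2 ^ (b + C)) u - ψ C b u ^ 2‖ ≤ e + M * |u|

/-- the start of the walk with `n` steps: a tip of the scale `2 ^ (K n - C)` -/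
def TipN (P : ℕ → ℝ → ℂ) (ψ : ℕ → ℕ → ℝ → ℂ) (K : ℕ → ℕ) : Prop :=
  ∀ e : ℝ, 0 < e → ∃ C0 : ℕ, ∀ C, C0 ≤ C → ∃ M : ℝ, ∀ᶠ n : ℕ in atTop, ∀ u : ℝ,
    ‖P n u - ψ C (K n - C) u‖ ≤ e + M * |u|

/-- both ends of the walk with `n` steps: two independent tips of the scale `2 ^ (K n - C)` -/
def TipNN (P : ℕ → ℝ → ℝ → ℂ) (ψ : ℕ → ℕ → ℝ → ℂ) (K : ℕ → ℕ) : Prop :=
  ∀ e : ℝ, 0 < e → ∃ C0 : ℕ, ∀ C, C0 ≤ C → ∃ M : ℝ, ∀ᶠ n : ℕ in atTop, ∀ u v : ℝ,
    ‖P n u v - ψ C (K n - C) u * ψ C (K n - C) v‖ ≤ e + M * (|u| + |v|)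

/-- `n ^ (-1/2)`-type factors vanish -/
theorem div_sqrt_log (M s e : ℝ) (he : 0 < e) : ∀ᶠ n : ℕ in atTop, ∀ t : ℝ, |t| ≤ |s| →
    M * |t / √(Real.log n)| ≤ e := by
  have h1 : Tendsto (fun n : ℕ => |M| * (|s| / √(Real.log n))) atTop (𝓝 (|M| * 0)) :=
    (Tendsto.const_div_atTop WND.sqrt_log_tendsto |s|).const_mul _
  rw [mul_zero] at h1
  filter_upwards [h1.eventually (gt_mem_nhds he), eventually_ge_atTop 2] with n hn h2 t ht
  have h3 : 0 < √(Real.log n) := Real.sqrt_pos.2 (Real.log_pos (by exact_mod_cast h2))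
  refine le_trans ?_ hn.le
  rw [abs_div, abs_of_pos h3]
  refine mul_le_mul (le_abs_self M) ?_ (by positivity) (abs_nonneg _)
  exact div_le_div_of_nonneg_right ht h3.le

section

variable {Φ : ℕ → ℝ → ℂ} {ψ : ℕ → ℕ → ℝ → ℂ} {K : ℕ → ℕ} {a r : ℝ}

/-- **the tip**: the characteristic function of the tip of the scale `2 ^ (K n - C)`, up to `e`. -/
theorem tip_lim (ha : 0 < a) (hr0 : 0 < r) (h1 : CylLim Φ a) (h2 : TipCyl Φ ψ)
    (hψ : ∀ C b, Continuous (ψ C b)) (hψ0 : ∀ C b, ψ C b 0 = 1) (hK : Tendsto K atTop atTop)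
    (hr : Tendsto (fun n : ℕ => Real.log ((2 ^ K n : ℕ) : ℝ) / Real.log n) atTop (𝓝 r)) (s e : ℝ) (he : 0 < e) :
    ∃ C0 : ℕ, ∀ C, C0 ≤ C → ∀ᶠ n : ℕ in atTop,
      ‖ψ C (K n - C) (s / √(Real.log n)) - ((Real.exp (-(a * r / 2 * s ^ 2)) : ℝ) : ℂ)‖ ≤ e := by
  set g : ℝ := Real.exp (-(a * r / 2 * s ^ 2)) with hg
  have hg0 : 0 < g := Real.exp_pos _
  set d : ℝ := min (g ^ 2 / 2) (e * g) with hd
  have hd0 : 0 < d := lt_min (by positivity) (by positivity)
  obtain ⟨C0, hC0⟩ := h2 (d / 4) (by positivity)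
  refine ⟨C0, fun C hC => ?_⟩
  obtain ⟨M, hM⟩ := hC0 C hC
  have hKC : Tendsto (fun n => K n - C) atTop atTop := (tendsto_sub_atTop_nat C).comp hK
  have k1 : Tendsto (fun n => 2 ^ K n) atTop atTop :=
    (tendsto_pow_atTop_atTop_of_one_lt (by norm_num)).comp hK
  have e1 := hKC.eventually hM
  have e2 := k1.eventually (h1 (|s| * √(r + 1)) (d / 4) (by positivity))
  have e3 := div_sqrt_log M s (d / 4) (by positivity)
  have e4 := hr.eventually (Metric.ball_mem_nhds r (show 0 < min 1 (d / 4 / (a * s ^ 2 + 1)) from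
    lt_min one_pos (by positivity)))
  filter_upwards [e1, e2, e3, e4, hK.eventually_ge_atTop C, hK.eventually_ge_atTop 1, eventually_ge_atTop 2]
    with n g1 g2 g3 g4 g5 g6 g7
  have hn1 : (1 : ℝ) < n := by exact_mod_cast g7
  have hl : 0 < Real.log n := Real.log_pos hn1
  have hsl : 0 < √(Real.log n) := Real.sqrt_pos.2 hl
  have hk1 : (1 : ℝ) < ((2 ^ K n : ℕ) : ℝ) := by
    have : 1 < 2 ^ K n := Nat.one_lt_two_pow (by omega)
    exact_mod_cast this
  have hlk : 0 < Real.log ((2 ^ K n : ℕ) : ℝ) := Real.log_pos hk1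
  set ρ : ℝ := Real.log ((2 ^ K n : ℕ) : ℝ) / Real.log n with hρ
  have hρ0 : 0 < ρ := div_pos hlk hl
  rw [Real.dist_eq, lt_min_iff] at g4
  have hρ1 : ρ ≤ r + 1 := by
    have := (abs_lt.1 g4.1).2
    linarith
  have hKn : K n - C + C = K n := Nat.sub_add_cancel g5
  have key : ∀ t : ℝ, |t| ≤ |s| → ‖ψ C (K n - C) (t / √(Real.log n)) ^ 2 -
      ((Real.exp (-(a * r / 2 * t ^ 2)) : ℝ) : ℂ) ^ 2‖ ≤ d := by
    intro t ht
    have f1 := g1 (t / √(Real.log n))
    rw [hKn] at f1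
    have f2 : ‖Φ (2 ^ K n) (t / √(Real.log n)) - ((Real.exp (-(a * (t * √ρ) ^ 2)) : ℝ) : ℂ)‖ ≤ d / 4 := by
      have : t / √(Real.log n) = t * √ρ / √(Real.log ((2 ^ K n : ℕ) : ℝ)) := by
        rw [hρ, Real.sqrt_div hlk.le]
        field_simp
      rw [this]
      refine g2 (t * √ρ) ?_
      rw [abs_mul, abs_of_nonneg (Real.sqrt_nonneg ρ)]
      exact mul_le_mul ht (Real.sqrt_le_sqrt hρ1) (Real.sqrt_nonneg _) (abs_nonneg _)
    have f3 := g3 t ht
    have f4 : |Real.exp (-(a * (t * √ρ) ^ 2)) - Real.exp (-(a * r / 2 * t ^ 2)) ^ 2| ≤ d / 4 := by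
      have q1 : (t * √ρ) ^ 2 = t ^ 2 * ρ := by
        rw [mul_pow, Real.sq_sqrt hρ0.le]
      have q2 : Real.exp (-(a * r / 2 * t ^ 2)) ^ 2 = Real.exp (-(a * t ^ 2 * r)) := by
        rw [← Real.exp_nat_mul]
        congr 1
        push_cast
        ring
      rw [q1, q2]
      have q3 : ∀ x y : ℝ, 0 ≤ x → 0 ≤ y → |Real.exp (-x) - Real.exp (-y)| ≤ |x - y| := by
        intro x y hx hy
        have w : ∀ x y : ℝ, 0 ≤ x → x ≤ y → |Real.exp (-x) - Real.exp (-y)| ≤ |x - y| := by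
          intro x y hx hxy
          have w1 : Real.exp (-y) ≤ Real.exp (-x) := Real.exp_le_exp.2 (by linarith)
          rw [abs_of_nonneg (by linarith), abs_of_nonpos (by linarith)]
          have w2 : Real.exp (-y) = Real.exp (-x) * Real.exp (-(y - x)) := by
            rw [← Real.exp_add]
            congr 1
            ring
          have w3 : 1 - (y - x) ≤ Real.exp (-(y - x)) := by
            have := Real.add_one_le_exp (-(y - x))
            linarith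
          have w4 : Real.exp (-x) ≤ 1 := Real.exp_le_one_iff.2 (by linarith)
          have w5 : 0 < Real.exp (-x) := Real.exp_pos _
          rw [w2]
          nlinarith
        rcases le_total x y with hxy | hxy
        · exact w x y hx hxy
        · rw [abs_sub_comm, abs_sub_comm x y]
          exact w y x hy hxy
      have q4 := q3 (a * (t ^ 2 * ρ)) (a * t ^ 2 * r) (by positivity) (by positivity)
      refine q4.trans ?_
      have q5 : a * (t ^ 2 * ρ) - a * t ^ 2 * r = a * t ^ 2 * (ρ - r) := by ring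
      rw [q5, abs_mul, abs_of_nonneg (by positivity : (0 : ℝ) ≤ a * t ^ 2)]
      have q6 : t ^ 2 ≤ s ^ 2 := sq_le_sq.2 ht
      have q7 : a * t ^ 2 ≤ a * s ^ 2 + 1 := by nlinarith
      calc a * t ^ 2 * |ρ - r| ≤ (a * s ^ 2 + 1) * (d / 4 / (a * s ^ 2 + 1)) :=
            mul_le_mul q7 g4.2.le (abs_nonneg _) (by positivity)
        _ = d / 4 := by field_simp
    have : ψ C (K n - C) (t / √(Real.log n)) ^ 2 - ((Real.exp (-(a * r / 2 * t ^ 2)) : ℝ) : ℂ) ^ 2 =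
        -(Φ (2 ^ K n) (t / √(Real.log n)) - ψ C (K n - C) (t / √(Real.log n)) ^ 2) +
        ((Φ (2 ^ K n) (t / √(Real.log n)) - ((Real.exp (-(a * (t * √ρ) ^ 2)) : ℝ) : ℂ)) +
        ((Real.exp (-(a * (t * √ρ) ^ 2)) - Real.exp (-(a * r / 2 * t ^ 2)) ^ 2 : ℝ) : ℂ)) := by
      push_cast
      ring
    rw [this]
    refine (norm_add_le _ _).trans ?_
    refine (add_le_add le_rfl (norm_add_le _ _)).trans ?_
    rw [norm_neg, Complex.norm_real (Real.exp (-(a * (t * √ρ) ^ 2)) - Real.exp (-(a * r / 2 * t ^ 2)) ^ 2),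
      Real.norm_eq_abs]
    linarith
  have hfin := close_of_sq (ψ := fun t => ψ C (K n - C) (t / √(Real.log n)))
    (G := fun t => Real.exp (-(a * r / 2 * t ^ 2))) (s := s) (e := d) (g := g)
    ((hψ _ _).comp (continuous_id.div_const _)) (by simp [hψ0]) hg0
    (lt_of_le_of_lt (min_le_left _ _) (by have := pow_pos hg0 2; linarith))
    (fun t ht => by
      rw [hg]
      refine Real.exp_le_exp.2 ?_
      have : t ^ 2 ≤ s ^ 2 := sq_le_sq.2 (by
        have := Set.abs_sub_left_of_mem_uIcc ht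
        simpa using this)
      have h3 : 0 < a * r / 2 := by positivity
      nlinarith)
    (fun t ht => key t (by
      have := Set.abs_sub_left_of_mem_uIcc ht
      simpa using this))
  refine hfin.trans ?_
  rw [div_le_iff₀ hg0]
  exact min_le_right _ _

/-- **the walk with `n` steps**: the characteristic function. -/
theorem char_lim {P : ℕ → ℝ → ℂ} (ha : 0 < a) (hr0 : 0 < r) (h1 : CylLim Φ a) (h2 : TipCyl Φ ψ) (h3 : TipN P ψ K)
    (hψ : ∀ C b, Continuous (ψ C b)) (hψ0 : ∀ C b, ψ C b 0 = 1) (hK : Tendsto K atTop atTop)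
    (hr : Tendsto (fun n : ℕ => Real.log ((2 ^ K n : ℕ) : ℝ) / Real.log n) atTop (𝓝 r)) (s : ℝ) :
    Tendsto (fun n : ℕ => P n (s / √(Real.log n))) atTop (𝓝 ((Real.exp (-(a * r / 2 * s ^ 2)) : ℝ) : ℂ)) := by
  rw [Metric.tendsto_nhds]
  intro e he
  obtain ⟨C0, hC0⟩ := tip_lim ha hr0 h1 h2 hψ hψ0 hK hr s (e / 4) (by positivity)
  obtain ⟨C1, hC1⟩ := h3 (e / 4) (by positivity)
  obtain ⟨M, hM⟩ := hC1 (max C0 C1) (le_max_right _ _)
  filter_upwards [hC0 (max C0 C1) (le_max_left _ _), hM, div_sqrt_log M s (e / 4) (by positivity)] with n g1 g2 g3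
  have g4 := g2 (s / √(Real.log n))
  have g5 := g3 s le_rfl
  rw [dist_eq_norm]
  have : P n (s / √(Real.log n)) - ((Real.exp (-(a * r / 2 * s ^ 2)) : ℝ) : ℂ) =
      (P n (s / √(Real.log n)) - ψ (max C0 C1) (K n - max C0 C1) (s / √(Real.log n))) +
      (ψ (max C0 C1) (K n - max C0 C1) (s / √(Real.log n)) - ((Real.exp (-(a * r / 2 * s ^ 2)) : ℝ) : ℂ)) := by
    ring
  rw [this]
  refine (norm_add_le _ _).trans_lt ?_
  linarith

/-- **both ends of the walk with `n` steps**: the characteristic function. -/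
theorem char_lim2 {P : ℕ → ℝ → ℝ → ℂ} (ha : 0 < a) (hr0 : 0 < r) (h1 : CylLim Φ a) (h2 : TipCyl Φ ψ)
    (h3 : TipNN P ψ K) (hψ : ∀ C b, Continuous (ψ C b)) (hψ0 : ∀ C b, ψ C b 0 = 1) (hψ1 : ∀ C b u, ‖ψ C b u‖ ≤ 1)
    (hK : Tendsto K atTop atTop)
    (hr : Tendsto (fun n : ℕ => Real.log ((2 ^ K n : ℕ) : ℝ) / Real.log n) atTop (𝓝 r)) (s t : ℝ) :
    Tendsto (fun n : ℕ => P n (s / √(Real.log n)) (t / √(Real.log n))) atTop
      (𝓝 ((Real.exp (-(a * r / 2 * (s ^ 2 + t ^ 2))) : ℝ) : ℂ)) := by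
  rw [Metric.tendsto_nhds]
  intro e he
  obtain ⟨C0, hC0⟩ := tip_lim ha hr0 h1 h2 hψ hψ0 hK hr s (e / 6) (by positivity)
  obtain ⟨C2, hC2⟩ := tip_lim ha hr0 h1 h2 hψ hψ0 hK hr t (e / 6) (by positivity)
  obtain ⟨C1, hC1⟩ := h3 (e / 6) (by positivity)
  set C := max C0 (max C1 C2) with hC
  obtain ⟨M, hM⟩ := hC1 C (by omega)
  filter_upwards [hC0 C (by omega), hC2 C (by omega), hM, div_sqrt_log M s (e / 6) (by positivity),
    div_sqrt_log M t (e / 6) (by positivity)] with n g1 g1' g2 g3 g3'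
  have g4 := g2 (s / √(Real.log n)) (t / √(Real.log n))
  have g5 := g3 s le_rfl
  have g5' := g3' t le_rfl
  rw [dist_eq_norm]
  set x := ψ C (K n - C) (s / √(Real.log n))
  set y := ψ C (K n - C) (t / √(Real.log n))
  have hE : Real.exp (-(a * r / 2 * (s ^ 2 + t ^ 2))) =
      Real.exp (-(a * r / 2 * s ^ 2)) * Real.exp (-(a * r / 2 * t ^ 2)) := by
    rw [← Real.exp_add]
    congr 1
    ring
  rw [hE]
  have h9 : ‖((Real.exp (-(a * r / 2 * s ^ 2)) : ℝ) : ℂ)‖ ≤ 1 := by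
    rw [Complex.norm_real, Real.norm_of_nonneg (Real.exp_pos _).le]
    exact Real.exp_le_one_iff.2 (by
      have : 0 ≤ a * r / 2 * s ^ 2 := by positivity
      linarith)
  set G := ((Real.exp (-(a * r / 2 * s ^ 2)) : ℝ) : ℂ) with hG
  set H := ((Real.exp (-(a * r / 2 * t ^ 2)) : ℝ) : ℂ) with hH
  have : P n (s / √(Real.log n)) (t / √(Real.log n)) -
      ((Real.exp (-(a * r / 2 * s ^ 2)) * Real.exp (-(a * r / 2 * t ^ 2)) : ℝ) : ℂ) =
      (P n (s / √(Real.log n)) (t / √(Real.log n)) - x * y) + ((x - G) * y + G * (y - H)) := by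
    rw [Complex.ofReal_mul, ← hG, ← hH]
    ring
  rw [this]
  refine (norm_add_le _ _).trans_lt ?_
  have g6 : ‖(x - G) * y + G * (y - H)‖ ≤ e / 6 + e / 6 := by
    refine (norm_add_le _ _).trans (add_le_add ?_ ?_)
    · rw [norm_mul]
      calc _ ≤ e / 6 * 1 := mul_le_mul g1 (hψ1 _ _ _) (norm_nonneg _) (by positivity)
        _ = e / 6 := mul_one _
    · rw [norm_mul]
      calc _ ≤ 1 * (e / 6) := mul_le_mul h9 g1' (norm_nonneg _) zero_le_one
        _ = e / 6 := one_mul _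
  have g7 : M * (|s / √(Real.log n)| + |t / √(Real.log n)|) =
      M * |s / √(Real.log n)| + M * |t / √(Real.log n)| := by ring
  rw [g7] at g4
  linarith

end

end PW

end
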