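import Pool.Agent.WND.Final
import Pool.Agent.PW.CharS

/-!
# PW (helper66): the winding angle of the critical walk on the cylinder, in the form of `CylLim`

`cylLim : PW.CylLim (fun k u => CylSaw.angChar k u) (8 / 3)`, from the mod-Gaussian convergence `CylSaw.windW`.
-/

set_option autoImplicit false

noncomputable section

open Filter Topology Metric

namespace PW

open Pool.Agent.CylSaw

theorem cylLim : CylLim (fun k u => angChar k u) (8 / 3) := by
  obtain ⟨-, ⟨t0, c, C, M, ht0, hc, hM, hM0, hmod⟩, -⟩ := windW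
  intro s0 e he
  have hMc : ContinuousAt M 0 := (hM.continuousOn).continuousAt (ball_mem_nhds 0 ht0)
  obtain ⟨δ, hδ, hMδ⟩ := Metric.continuousAt_iff.1 hMc (e / 2) (by positivity)
  have hlog : Tendsto (fun k : ℕ => √(Real.log k)) atTop atTop :=
    Real.tendsto_sqrt_atTop.comp (Real.tendsto_log_atTop.comp tendsto_natCast_atTop_atTop)
  have hk0 : Tendsto (fun k : ℕ => C * (k : ℝ) ^ (-c)) atTop (𝓝 0) := by
    have h3 := (tendsto_rpow_neg_atTop hc).comp tendsto_natCast_atTop_atTop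
    simpa using h3.const_mul C
  filter_upwards [hk0.eventually (gt_mem_nhds (show (0 : ℝ) < e / 2 by positivity)), eventually_ge_atTop 1,
    hlog.eventually_gt_atTop (|s0| / min t0 δ), hlog.eventually_gt_atTop 0] with k h1 hk h2 h3 s hs
  have hm : 0 < min t0 δ := lt_min ht0 hδ
  have hs' : |s| ≤ |s0| := hs.trans (le_abs_self _)
  set u : ℝ := s / √(Real.log k) with hu
  have hu1 : |u| < min t0 δ := by
    rw [hu, abs_div, abs_of_pos h3, div_lt_iff₀ h3]
    rw [div_lt_iff₀ hm] at h2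
    linarith
  have hl : 0 < Real.log k := by
    by_contra hcon
    push Not at hcon
    rw [Real.sqrt_eq_zero_of_nonpos hcon] at h3
    exact lt_irrefl _ h3
  have hn : ‖(u : ℂ) * Complex.I‖ = |u| := by
    rw [norm_mul, Complex.norm_I, mul_one, Complex.norm_real, Real.norm_eq_abs]
  have h4 := hmod k hk ((u : ℂ) * Complex.I) (by rw [hn]; exact hu1.trans_le (min_le_left _ _))
  rw [angMgf_I] at h4
  have h5 : -((8 / 3 * Real.log k : ℝ) : ℂ) * ((u : ℂ) * Complex.I) ^ 2 = ((8 / 3 * s ^ 2 : ℝ) : ℂ) := by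
    rw [mul_pow, Complex.I_sq]
    have h6 : Real.log k * u ^ 2 = s ^ 2 := by
      rw [hu, div_pow, Real.sq_sqrt hl.le]
      field_simp
    have h7 : ((Real.log k : ℝ) : ℂ) * (u : ℂ) ^ 2 = (s : ℂ) ^ 2 := by exact_mod_cast h6
    push_cast
    push_cast at h7
    linear_combination (8 / 3 : ℂ) * h7
  rw [h5, ← Complex.ofReal_exp] at h4
  have h8 : ‖M ((u : ℂ) * Complex.I) - 1‖ < e / 2 := by
    have := hMδ (x := (u : ℂ) * Complex.I) (by rw [dist_zero_right, hn]; exact hu1.trans_le (min_le_right _ _))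
    rwa [hM0, dist_eq_norm] at this
  set g : ℝ := Real.exp (-(8 / 3 * s ^ 2)) with hg
  have hg0 : 0 < g := Real.exp_pos _
  have hg1 : g ≤ 1 := Real.exp_le_one_iff.2 (by nlinarith [sq_nonneg s])
  have hgg : (Real.exp (8 / 3 * s ^ 2) : ℝ) * g = 1 := by
    rw [hg, ← Real.exp_add, add_neg_cancel, Real.exp_zero]
  have hgg' : ((Real.exp (8 / 3 * s ^ 2) : ℝ) : ℂ) * (g : ℂ) = 1 := by exact_mod_cast hgg
  have key : angChar k u - (g : ℂ) =
      (g : ℂ) * ((angChar k u * ((Real.exp (8 / 3 * s ^ 2) : ℝ) : ℂ) - M ((u : ℂ) * Complex.I)) +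
        (M ((u : ℂ) * Complex.I) - 1)) := by
    linear_combination -(angChar k u) * hgg'
  show ‖angChar k u - (g : ℂ)‖ ≤ e
  rw [key, norm_mul, Complex.norm_real, Real.norm_eq_abs, abs_of_pos hg0]
  have h9 := norm_add_le (angChar k u * ((Real.exp (8 / 3 * s ^ 2) : ℝ) : ℂ) - M ((u : ℂ) * Complex.I))
    (M ((u : ℂ) * Complex.I) - 1)
  have h10 := norm_nonneg ((angChar k u * ((Real.exp (8 / 3 * s ^ 2) : ℝ) : ℂ) - M ((u : ℂ) * Complex.I)) +
        (M ((u : ℂ) * Complex.I) - 1))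
  nlinarith

end PW

end
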