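import Pool.Agent.PW.RegZL
import Pool.Agent.TPC.CylSum
import Pool.Agent.TPC.StSum
import Pool.Agent.TPC.SDZ
import Pool.Agent.TPF.URZ
import Pool.Agent.TIP.GeoZ

/-!
PW, row D1 on the cylinder: the lifts of the words of the cylinder with a given end (all translates of the end), the sum over
the translates and the scales, and the words with a long factor without a factor in Zc.
-/

set_option autoImplicit false

namespace HexObs

namespace PW

open Finset TS SDN NTW NTA SIM JNT TIP TPC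

open scoped ENNReal

/-- the order of the two-point function at the scale K -/
noncomputable def gg (K : ℕ) : ℝ≥0∞ := ENNReal.ofReal (Ub K / 4 ^ K) * Xb K ^ 2

/-- the lifts of the words of the cylinder with 2 k rows with the end y, the translate number m of the end -/
def Tym (k : ℕ) (y : Pt) (m : ℤ) : Set (List Bool) :=
  {t | t ∈ SA ∧ Dsj k t ∧ labE t = y + (2 * (k : ℤ) * m, 2 * (k : ℤ) * m)}

/-- one scale up -/
lemma gg_up : ∃ D : ℝ, 1 ≤ D ∧ ∀ L i : ℕ, gg (L + i) ≤ ENNReal.ofReal (D ^ i) * gg L := by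
  obtain ⟨D, hD, h⟩ := Xb_pow
  refine ⟨2 * D ^ 2, by nlinarith [one_le_pow₀ (n := 2) hD], fun L i => ?_⟩
  have h1 := T2.AN.UU_up L i
  have hU : 0 ≤ Ub L := (Ub_pos L).le
  have hD0 : 0 ≤ D := by linarith
  unfold gg
  calc ENNReal.ofReal (Ub (L + i) / 4 ^ (L + i)) * Xb (L + i) ^ 2
      ≤ ENNReal.ofReal (2 ^ i * (Ub L / 4 ^ L)) * (ENNReal.ofReal (D ^ i) * Xb L) ^ 2 := by
        refine mul_le_mul' (ENNReal.ofReal_le_ofReal ?_) (pow_le_pow_left' (h L i) 2)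
        rw [← mul_div_assoc]
        exact div_le_div₀ (by positivity) h1 (by positivity) (pow_le_pow_right₀ (by norm_num) (by omega))
    _ = _ := by
        rw [mul_pow, ← ENNReal.ofReal_pow (by positivity), ← mul_assoc, ← mul_assoc,
          ← ENNReal.ofReal_mul (by positivity), ← ENNReal.ofReal_mul (by positivity)]
        congr 2
        rw [mul_pow]
        ring

/-- one scale down -/
lemma gg_down (L i : ℕ) : gg L ≤ ENNReal.ofReal (4 ^ i) * gg (L + i) := by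
  have h1 : Ub L ≤ Ub (L + i) := Num2Aux.UU_mono (Nat.pow_le_pow_right (by norm_num) (by omega))
  have hU : 0 ≤ Ub L := (Ub_pos L).le
  unfold gg
  rw [← mul_assoc, ← ENNReal.ofReal_mul (by positivity)]
  refine mul_le_mul' (ENNReal.ofReal_le_ofReal ?_) (pow_le_pow_left' (Xb_mono (by omega)) 2)
  rw [pow_add, ← mul_div_assoc, mul_comm ((4 : ℝ) ^ L), mul_div_mul_left _ _ (by positivity)]
  gcongr

/-- the number of the translates of the end in the box -/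
lemma tsum_tr {k L i : ℕ} (hk1 : 1 ≤ k) (hk : 2 ^ L ≤ k) (r : ℤ) (f : ℤ → ℝ≥0∞) (b : ℝ≥0∞) (hf : ∀ m, f m ≤ b)
    (h0 : ∀ m : ℤ, ¬ |r + 2 * k * m| ≤ 2 ^ (L + i) → f m = 0) : ∑' m : ℤ, f m ≤ 2 ^ (i + 1) * b := by
  classical
  obtain ⟨q, hq⟩ : ∃ q : ℤ, q = (2 ^ (L + i) - r) / (2 * k) := ⟨_, rfl⟩
  have hk0 : (0 : ℤ) < 2 * k := by
    have : (1 : ℤ) ≤ k := by exact_mod_cast hk1
    omega
  have hkz : (2 : ℤ) ^ L ≤ k := by exact_mod_cast hk
  have hpi : (1 : ℤ) ≤ 2 ^ i := one_le_pow₀ (by norm_num)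
  have hsub : ∀ m : ℤ, |r + 2 * k * m| ≤ 2 ^ (L + i) → m ∈ Finset.Icc (q - 2 ^ i) q := by
    intro m hm
    rw [abs_le] at hm
    have h1 : m ≤ q := by
      rw [hq, Int.le_ediv_iff_mul_le hk0]
      linarith [hm.2]
    have h2 : 2 * (k : ℤ) * q ≤ 2 ^ (L + i) - r := by
      rw [hq]
      exact Int.mul_ediv_self_le hk0.ne'
    have h3 : (2 : ℤ) ^ (L + i) ≤ k * 2 ^ i := by
      rw [pow_add]
      exact mul_le_mul_of_nonneg_right hkz (by positivity)
    have h4 : 2 * (k : ℤ) * (q - 2 ^ i) ≤ 2 * k * m := by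
      nlinarith [hm.1]
    exact Finset.mem_Icc.2 ⟨le_of_mul_le_mul_left h4 hk0, h1⟩
  have h1 : ∑' m : ℤ, f m = ∑ m ∈ Finset.Icc (q - 2 ^ i) q, f m :=
    tsum_eq_sum fun m hm => h0 m fun h => hm (hsub m h)
  rw [h1]
  refine (Finset.sum_le_card_nsmul _ _ b fun z _ => hf z).trans ?_
  rw [Int.card_Icc, nsmul_eq_mul]
  refine mul_le_mul' ?_ le_rfl
  have h2 : (q + 1 - (q - 2 ^ i)).toNat ≤ 2 ^ (i + 1) := by
    have h3 : (q + 1 - (q - 2 ^ i)) = ((2 ^ i + 1 : ℕ) : ℤ) := by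
      push_cast
      ring
    rw [h3, Int.toNat_natCast]
    have : 1 ≤ 2 ^ i := Nat.one_le_two_pow
    rw [pow_succ]
    omega
  calc (((q + 1 - (q - 2 ^ i)).toNat : ℕ) : ℝ≥0∞) ≤ ((2 ^ (i + 1) : ℕ) : ℝ≥0∞) := by exact_mod_cast h2
    _ = _ := by
      push_cast
      rfl

lemma row_tr (k : ℕ) (y : Pt) (m : ℤ) :
    row false (y + (2 * (k : ℤ) * m, 2 * (k : ℤ) * m)) = row false y + 2 * k * m := by
  have h1 : lvl false (y + (2 * (k : ℤ) * m, 2 * (k : ℤ) * m)) = lvl false y + (2 * k * m) * 3 := by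
    unfold lvl
    obtain ⟨y1, y2⟩ := y
    simp only [ip, hd, up, Bool.false_eq_true, if_false, Prod.mk_add_mk]
    ring
  unfold row
  rw [h1]
  exact Int.add_mul_ediv_right _ _ (by norm_num)

/-- the end of a word of the box -/
lemma row_end {k L i : ℕ} {y : Pt} {m : ℤ} {t : List Bool} (ht : t ∈ WL (L + i))
    (h : labE t = y + (2 * (k : ℤ) * m, 2 * (k : ℤ) * m)) : |row false y + 2 * k * m| ≤ 2 ^ (L + i) := by
  have h1 := ht.2 t.length le_rfl false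
  have h2 : vx oo up t t.length = y + (2 * (k : ℤ) * m, 2 * (k : ℤ) * m) := h
  rw [h2, row_tr] at h1
  exact h1

/-- **the sum over the translates and the scales** -/
theorem cyl_sum : ∀ ε : ℝ, 0 < ε → ∃ i0 k0 : ℕ, ∀ k : ℕ, k0 ≤ k → ∀ (E : Set (List Bool)) (y : Pt) (δ : ℝ≥0∞),
    (∀ y' : Pt, gf {t | labE t = y' ∧ t ∈ WL (Nat.log 2 k + i0) ∧ t ∈ E} ≤ δ) →
    ∑' m : ℤ, gf {t | t ∈ Tym k y m ∧ t ∈ E} ≤ 2 ^ (i0 + 1) * δ + ENNReal.ofReal ε * gg (Nat.log 2 k) := by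
  intro ε hε
  obtain ⟨C, c, k0, hC, hc, hSD⟩ := sd_of_UR TPF.ur
  obtain ⟨D, hD, hgD⟩ := gg_up
  have hD0 : 0 ≤ D := by linarith
  have hser := ser_sum (B := 2 * C * D) (c := c) (by positivity) hc
  have htail := tendsto_sum_nat_add (fun i : ℕ => (2 * C * D) ^ i * (2 : ℝ) ^ (-(c * 2 ^ i)))
  obtain ⟨i0, hi0⟩ := Filter.eventually_atTop.1 (htail.eventually (gt_mem_nhds (show 0 < ε / (2 * C) by positivity)))
  have hi0' := hi0 (i0 + 1) (by omega)
  refine ⟨i0, max k0 2, fun k hk E y δ hδ => ?_⟩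
  have hk0 : k0 ≤ k := (le_max_left _ _).trans hk
  have hk2 : 2 ≤ k := (le_max_right _ _).trans hk
  obtain ⟨L, hL⟩ : ∃ L, L = Nat.log 2 k := ⟨_, rfl⟩
  have hLk : 2 ^ L ≤ k := by
    rw [hL]
    exact Nat.pow_log_le_self 2 (by omega)
  rw [← hL] at hδ ⊢
  have hS' : ∀ (i : ℕ) (y : Pt), gf {t | t ∈ EndK (L + i) y ∧ Dsj k t} ≤
      ENNReal.ofReal (C ^ (i + 1) * (2 : ℝ) ^ (-(c * 2 ^ i)) * (Ub (L + i) / 4 ^ (L + i))) * Xb (L + i) ^ 2 := by
    intro i y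
    rw [hL]
    exact hSD k i y hk0
  -- the words of one scale
  obtain ⟨F, hF⟩ : ∃ F : ℤ → ℕ → Set (List Bool), F = fun m i =>
      {t | t ∈ EndK (L + i) (y + (2 * (k : ℤ) * m, 2 * (k : ℤ) * m)) ∧ Dsj k t} := ⟨_, rfl⟩
  have h1 : ∀ i : ℕ, ∑' m : ℤ, gf (F m i) ≤
      ENNReal.ofReal ((2 * C * D) ^ i * (2 : ℝ) ^ (-(c * 2 ^ i)) * (2 * C)) * gg L := by
    intro i
    have h2 := tsum_tr (L := L) (i := i) (show 1 ≤ k by omega) hLk (row false y) (fun m => gf (F m i))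
      (ENNReal.ofReal (C ^ (i + 1) * (2 : ℝ) ^ (-(c * 2 ^ i))) * gg (L + i)) (fun m => by
        refine (le_of_eq (by rw [hF])).trans ((hS' i (y + (2 * (k : ℤ) * m, 2 * (k : ℤ) * m))).trans (le_of_eq ?_))
        unfold gg
        rw [← mul_assoc, ← ENNReal.ofReal_mul (by positivity)]) (fun m hm => by
        have h3 : F m i = ∅ := by
          rw [hF]
          refine Set.eq_empty_iff_forall_notMem.2 fun t ht => hm (row_end ht.1.1 ?_)
          exact ht.1.2.2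
        show gf (F m i) = 0
        rw [h3]
        unfold gf
        simp)
    refine h2.trans ?_
    have e2 : (2 : ℝ≥0∞) ^ (i + 1) = ENNReal.ofReal (2 ^ (i + 1)) := by
      rw [ENNReal.ofReal_pow (by norm_num)]
      norm_num
    rw [e2]
    calc ENNReal.ofReal (2 ^ (i + 1)) * (ENNReal.ofReal (C ^ (i + 1) * (2 : ℝ) ^ (-(c * 2 ^ i))) * gg (L + i))
        ≤ ENNReal.ofReal (2 ^ (i + 1)) * (ENNReal.ofReal (C ^ (i + 1) * (2 : ℝ) ^ (-(c * 2 ^ i))) *
          (ENNReal.ofReal (D ^ i) * gg L)) := by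
          gcongr
          exact hgD L i
      _ = _ := by
          rw [← mul_assoc, ← mul_assoc, ← ENNReal.ofReal_mul (by positivity), ← ENNReal.ofReal_mul (by positivity)]
          congr 2
          rw [mul_pow, mul_pow, pow_succ, pow_succ]
          ring
  -- the far words
  obtain ⟨G, hG⟩ : ∃ G : ℤ → Set (List Bool), G = fun m => {t | t ∈ Tym k y m ∧ t ∉ WL (L + i0)} := ⟨_, rfl⟩
  have hGs : ∀ m : ℤ, G m ⊆ ⋃ i : ℕ, F m (i + (i0 + 1)) := by
    intro m t ht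
    rw [hG] at ht
    obtain ⟨⟨h3, h4, h5⟩, h6⟩ := ht
    classical
    have hex := BAR.WL_ex h3
    have h7 := Nat.find_spec hex
    have h8 : ∀ K, K < Nat.find hex → t ∉ WL K := fun K hK => Nat.find_min hex hK
    generalize Nat.find hex = K at *
    have h9 : L + i0 < K := by
      by_contra hcon
      exact h6 (WL_mn (by omega) h7)
    rw [Set.mem_iUnion]
    refine ⟨K - (L + i0 + 1), ?_⟩
    rw [hF]
    refine ⟨⟨?_, ?_, h5⟩, h4⟩
    · rw [show L + (K - (L + i0 + 1) + (i0 + 1)) = K by omega]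
      exact h7
    · rw [show L + (K - (L + i0 + 1) + (i0 + 1)) - 1 = K - 1 by omega]
      exact h8 _ (by omega)
  have hfar : ∑' m : ℤ, gf (G m) ≤ ENNReal.ofReal ε * gg L := by
    calc ∑' m : ℤ, gf (G m) ≤ ∑' (m : ℤ) (i : ℕ), gf (F m (i + (i0 + 1))) :=
          ENNReal.tsum_le_tsum fun m => (gf_mono (hGs m)).trans (TPC.gf_iUnion_le _)
      _ = ∑' (i : ℕ) (m : ℤ), gf (F m (i + (i0 + 1))) := ENNReal.tsum_comm
      _ ≤ ∑' i : ℕ, ENNReal.ofReal ((2 * C * D) ^ (i + (i0 + 1)) * (2 : ℝ) ^ (-(c * 2 ^ (i + (i0 + 1)))) * (2 * C)) *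
          gg L := ENNReal.tsum_le_tsum fun i => h1 (i + (i0 + 1))
      _ = (∑' i : ℕ, ENNReal.ofReal ((2 * C * D) ^ (i + (i0 + 1)) * (2 : ℝ) ^ (-(c * 2 ^ (i + (i0 + 1)))) * (2 * C))) *
          gg L := ENNReal.tsum_mul_right
      _ ≤ _ := by
          refine mul_le_mul' ?_ le_rfl
          have hs2 : Summable fun i : ℕ => (2 * C * D) ^ (i + (i0 + 1)) * (2 : ℝ) ^ (-(c * 2 ^ (i + (i0 + 1)))) * (2 * C) :=
            ((summable_nat_add_iff (i0 + 1)).2 hser).mul_right _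
          rw [← ENNReal.ofReal_tsum_of_nonneg (fun i => by positivity) hs2, tsum_mul_right]
          refine ENNReal.ofReal_le_ofReal ?_
          rw [lt_div_iff₀ (by positivity)] at hi0'
          exact hi0'.le
  -- the near words
  obtain ⟨H, hH⟩ : ∃ H : ℤ → Set (List Bool), H = fun m => {t | labE t = y + (2 * (k : ℤ) * m, 2 * (k : ℤ) * m) ∧
      t ∈ WL (L + i0) ∧ t ∈ E} := ⟨_, rfl⟩
  have hnear : ∑' m : ℤ, gf (H m) ≤ 2 ^ (i0 + 1) * δ := by
    refine tsum_tr (L := L) (i := i0) (show 1 ≤ k by omega) hLk (row false y) (fun m => gf (H m)) δ (fun m => ?_)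
      fun m hm => ?_
    · rw [hH]
      exact hδ _
    · have h3 : H m = ∅ := by
        rw [hH]
        exact Set.eq_empty_iff_forall_notMem.2 fun t ht => hm (row_end ht.2.1 ht.1)
      show gf (H m) = 0
      rw [h3]
      unfold gf
      simp
  have hcov : ∀ m : ℤ, {t | t ∈ Tym k y m ∧ t ∈ E} ⊆ H m ∪ G m := by
    intro m t ht
    rw [hH, hG]
    by_cases h3 : t ∈ WL (L + i0)
    · exact Or.inl ⟨ht.1.2.2, h3, ht.2⟩
    · exact Or.inr ⟨ht.1, h3⟩
  calc ∑' m : ℤ, gf {t | t ∈ Tym k y m ∧ t ∈ E} ≤ ∑' m : ℤ, (gf (H m) + gf (G m)) :=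
        ENNReal.tsum_le_tsum fun m => (gf_mono (hcov m)).trans (gf_union_le _ _)
    _ = ∑' m : ℤ, gf (H m) + ∑' m : ℤ, gf (G m) := ENNReal.tsum_add
    _ ≤ _ := add_le_add hnear hfar

/-- D1 on the cylinder: the lifts with a long factor in Nz -/
def CylZ (κ : ℝ) (C : ℕ) : Prop := ∀ (ε : ℝ) (c0 : ℕ), 0 < ε → ∃ c k0 : ℕ, c0 ≤ c ∧ c ≤ Nat.log 2 k0 ∧
  ∀ (k : ℕ) (y : Pt), k0 ≤ k → ∑' m : ℤ, gf {t | t ∈ Tym k y m ∧ t ∈ Lz κ C (Nat.log 2 k - c) (2 ^ (c - c0))} ≤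
    ENNReal.ofReal ε * gg (Nat.log 2 k)

/-- **D1, the cylinder** -/
theorem cylZ_of {κ : ℝ} {C : ℕ} (hR : RegZL κ C) : CylZ κ C := by
  intro ε c0 hε
  obtain ⟨C1, c', b0, J0, n0, hC1, hc', hreg⟩ := hR
  obtain ⟨i0, k0, hsum⟩ := cyl_sum (ε / 2) (by positivity)
  obtain ⟨D, hD, hgD⟩ := gg_up
  have hC10 : 0 ≤ C1 := by linarith
  have hD0 : 0 ≤ D := by linarith
  have hser := (ser_sum (B := C1) (c := c') hC10 hc').tendsto_atTop_zero
  have hpos : 0 < ε / (2 * 2 ^ (i0 + 1) * (C1 ^ (i0 + c0) * D ^ i0)) := by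
    have : 0 < C1 := by linarith
    have : 0 < D := by linarith
    positivity
  obtain ⟨n1, hn1⟩ := Filter.eventually_atTop.1 (hser.eventually (gt_mem_nhds hpos))
  obtain ⟨n, hn⟩ : ∃ n, n = n1 + J0 + n0 := ⟨_, rfl⟩
  have hnn : n < 2 ^ n := Nat.lt_two_pow_self
  refine ⟨c0 + n, 2 ^ (b0 + (c0 + n)) + k0, by omega, ?_, fun k y hk => ?_⟩
  · refine (Nat.le_log_iff_pow_le (by norm_num) ?_).2 ?_
    · have : 0 < 2 ^ (b0 + (c0 + n)) := by positivity
      omega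
    · have : 2 ^ (c0 + n) ≤ 2 ^ (b0 + (c0 + n)) := Nat.pow_le_pow_right (by norm_num) (by omega)
      omega
  · obtain ⟨L, hL⟩ : ∃ L, L = Nat.log 2 k := ⟨_, rfl⟩
    have hbL : b0 + (c0 + n) ≤ L := by
      rw [hL]
      refine (Nat.le_log_iff_pow_le (by norm_num) ?_).2 (by omega)
      have : 0 < 2 ^ (b0 + (c0 + n)) := by positivity
      omega
    have h1 := hsum k ((Nat.le_add_left _ _).trans hk) (Lz κ C (Nat.log 2 k - (c0 + n)) (2 ^ (c0 + n - c0))) y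
      (ENNReal.ofReal (C1 ^ (c0 + n + i0) * (2 : ℝ) ^ (-(c' * 2 ^ n)) * D ^ i0) * gg L) (fun y' => ?_)
    · refine h1.trans ?_
      rw [← hL]
      have e2 : (2 : ℝ≥0∞) ^ (i0 + 1) = ENNReal.ofReal (2 ^ (i0 + 1)) := by
        rw [ENNReal.ofReal_pow (by norm_num)]
        norm_num
      rw [e2, ← mul_assoc, ← ENNReal.ofReal_mul (by positivity), ← add_mul, ← ENNReal.ofReal_add (by positivity)
        (by positivity)]
      refine mul_le_mul' (ENNReal.ofReal_le_ofReal ?_) le_rfl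
      have h3 := hn1 n (by omega)
      rw [lt_div_iff₀ (by
        have : 0 < C1 := by linarith
        have : 0 < D := by linarith
        positivity)] at h3
      have h4 : C1 ^ (c0 + n + i0) = C1 ^ n * C1 ^ (i0 + c0) := by
        rw [← pow_add]
        congr 1
        omega
      rw [h4]
      nlinarith [h3]
    · rw [← hL]
      have h2 := hreg (L - (c0 + n)) (c0 + n + i0) (2 ^ n) y' (by omega) (by omega) (by omega)
      rw [show L - (c0 + n) + (c0 + n + i0) = L + i0 by omega] at h2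
      rw [show c0 + n - c0 = n by omega]
      refine h2.trans ?_
      have e1 : ENNReal.ofReal (C1 ^ (c0 + n + i0) * (2 : ℝ) ^ (-(c' * ((2 ^ n : ℕ) : ℝ))) *
          (Ub (L + i0) / 4 ^ (L + i0))) * Xb (L + i0) ^ 2 =
          ENNReal.ofReal (C1 ^ (c0 + n + i0) * (2 : ℝ) ^ (-(c' * 2 ^ n))) * gg (L + i0) := by
        unfold gg
        rw [← mul_assoc, ← ENNReal.ofReal_mul (by positivity)]
        push_cast
        rfl
      rw [e1]
      refine (mul_le_mul' le_rfl (hgD L i0)).trans (le_of_eq ?_)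
      rw [← mul_assoc, ← ENNReal.ofReal_mul (by positivity)]

theorem regZL {κ : ℝ} {C : ℕ} (hF : FreeZ κ C) : RegZL κ C := regZL_of (geoZ κ C) hF

/-- **D1** -/
theorem cylZ {κ : ℝ} {C : ℕ} (hF : FreeZ κ C) : CylZ κ C := cylZ_of (regZL hF)

end PW

end HexObs
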