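import Pool.Agent.PW.RegG
import Pool.Agent.PW.CylZ

/-!
PW, row D1, generic in the class ZZ: plane with the end point (`RegGL`) and cylinder (`CylG`).
-/

set_option autoImplicit false

namespace HexObs

namespace PW

open Finset TS SDN NTW NTA SIM JNT TIP TPC

open scoped ENNReal

/-- D1: walks of the box with the end y and a long factor in Nz -/
def RegGL (ZZ : ℕ → Set (List Bool)) : Prop := ∃ (C' c : ℝ) (b0 J0 n0 : ℕ), 1 ≤ C' ∧ 0 < c ∧
  ∀ (b J n : ℕ) (y : Pt), b0 ≤ b → J0 ≤ J → n0 ≤ n →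
  gf {t | labE t = y ∧ t ∈ WL (b + J) ∧ t ∈ LzG ZZ b n} ≤
    ENNReal.ofReal (C' ^ J * (2 : ℝ) ^ (-(c * n)) * (Ub (b + J) / 4 ^ (b + J))) * Xb (b + J) ^ 2

/-- **D1, the plane** -/
theorem regGL_of {ZZ : ℕ → Set (List Bool)} (hG : GeoG ZZ) (hF : FreeG ZZ) : RegGL ZZ := by
  classical
  obtain ⟨s1, J1, V0, k1, e0, C1, he0, hC1, hRB, hRT⟩ := TPC.runRL
  obtain ⟨s2, k2, CT, hCT, htall⟩ := TPC.tall_L labR_E eventRL_E (w := fun k => 4 ^ k) (fun k => by positivity) hC1 hRT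
  obtain ⟨CR, k3, hCR, hrun⟩ := runLn_of labR_E eventRL_E
  obtain ⟨c, kB, hckB, hbad⟩ := badNormG hF J1 e0 he0
  obtain ⟨s, hs⟩ : ∃ s, s = s1 + s2 := ⟨_, rfl⟩
  obtain ⟨M, hM, hgeo⟩ := hG s c
  have hMr : (1 : ℝ) ≤ M := by exact_mod_cast hM
  have hCR0 : 0 < CR := by linarith
  have hC10 : 0 < C1 := by linarith
  have hCT0 : 0 < CT := by linarith
  refine ⟨16 * (CR * C1 + CT), 1 / M, k1 + k2 + k3 + kB, c + 6, M * (V0 + 3), by nlinarith, by positivity,
    fun r J n y hr hJ hn => ?_⟩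
  obtain ⟨k, hk⟩ : ∃ k, k = r + c := ⟨_, rfl⟩
  obtain ⟨J', hJ'⟩ : ∃ J', J' = J - c := ⟨_, rfl⟩
  obtain ⟨V, hV⟩ : ∃ V, V = n / M - 1 := ⟨_, rfl⟩
  have hkr : k - c = r := by omega
  have hkJ : k + J' = r + J := by omega
  have hnM : V0 + 3 ≤ n / M := (Nat.le_div_iff_mul_le (by omega)).2 (by rw [mul_comm]; exact hn)
  have hV1 : M * (V + 1) ≤ n := by
    rw [hV, show n / M - 1 + 1 = n / M by omega]
    exact Nat.mul_div_le n M
  have hVr : (n : ℝ) / M ≤ V + 2 := by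
    have h1 : n < M * (n / M + 1) := by
      have := Nat.lt_mul_div_succ n (show 0 < M by omega)
      simpa using this
    have h2 : n / M + 1 = V + 2 := by omega
    rw [h2] at h1
    have h3 : (n : ℝ) < M * (V + 2) := by exact_mod_cast h1
    rw [div_le_iff₀ (by linarith)]
    linarith
  have hU := Ub_pos (r + J)
  -- the norm
  have hS : SmRL labE DmJ k (RunB k s1 (NzG ZZ r) V) (C1 / (4 ^ k * 2 ^ V)) := by
    refine hRB k (NzG ZZ r) (by omega) (SIM.SmD_mono ?_ (hbad k (by omega))) V (by omega)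
    rintro g ⟨h1, h2⟩
    rw [hkr]
    exact ⟨h1, h2⟩
  obtain ⟨TE, hTE⟩ : ∃ TE : Set (List Bool), TE = {t | labE t = y ∧ t ∈ WL (k + J') ∧
      ∃ (dir : Bool) (m u : ℕ) (e : ℕ → ℕ), Lf dir (k + 5) t m u e ∧ ∃ j, j < m ∧
      3 * ((V : ℤ) * 2 ^ (k + s2)) ≤ |lp dir t (e (j + 1)) - lp dir t (e j)|} := ⟨_, rfl⟩
  obtain ⟨RE, hRE⟩ : ∃ RE : Bool → Set (List Bool), RE = fun dir => {t | labE t = y ∧
      t ∈ ERL dir k (k + J') (RunB k s1 (NzG ZZ r) V)} := ⟨_, rfl⟩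
  -- the cover
  have hcov : {t | labE t = y ∧ t ∈ WL (r + J) ∧ t ∈ LzG ZZ r n} ⊆ ((RE false ∪ RE true) ∪ TE) := by
    rintro t ⟨h0, h1, h2⟩
    have h3 := hgeo k (k + J') V t (by omega) (by omega) (by rw [hkJ]; exact h1) (by
      rw [hkr]
      exact LzG_mono hV1 h2)
    rw [hkr] at h3
    rcases h3 with ⟨dir, h4⟩ | h4
    · left
      rw [hRE]
      have h5 := TPC.erl_mono (RunB_mono (show s1 ≤ s by omega)) h4
      cases dir
      · exact Or.inl ⟨h0, h5⟩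
      · exact Or.inr ⟨h0, h5⟩
    · right
      rw [hTE]
      refine ⟨h0, by rw [hkJ]; exact h1, ?_⟩
      obtain ⟨dir, m, u, e, h5, j, h6, h7⟩ := h4
      refine ⟨dir, m, u, e, h5, j, h6, le_trans ?_ h7⟩
      have e1 : (2 : ℤ) ^ (k + s2) ≤ 2 ^ (k + s) := pow_le_pow_right₀ (by norm_num) (by omega)
      have e2 : (0 : ℤ) ≤ V := by positivity
      nlinarith
  obtain ⟨W, hW⟩ : ∃ W, W = ENNReal.ofReal (CR ^ J' * (C1 / (4 ^ k * 2 ^ V)) * Ub (r + J)) * Xb (r + J) ^ 2 := ⟨_, rfl⟩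
  have hrunX : ∀ dir : Bool, gf (RE dir) ≤ W := by
    intro dir
    rw [hW, hRE, ← hkJ]
    exact hrun dir k J' y _ _ (by omega) (by omega) (by positivity) hS
  have hTE' : gf TE ≤ ENNReal.ofReal (CT ^ J' / (4 ^ k * 2 ^ V) * Ub (r + J)) * Xb (r + J) ^ 2 := by
    rw [hTE, ← hkJ]
    exact htall k J' V y (by omega) (by omega) (by omega)
  have hun : ∀ S T : Set (List Bool), gf (S ∪ T) ≤ gf S + gf T := fun S T => gf_union_le S T
  calc gf {t | labE t = y ∧ t ∈ WL (r + J) ∧ t ∈ LzG ZZ r n} ≤ _ := gf_mono hcov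
    _ ≤ (W + W) + ENNReal.ofReal (CT ^ J' / (4 ^ k * 2 ^ V) * Ub (r + J)) * Xb (r + J) ^ 2 :=
        (hun _ _).trans (add_le_add ((hun _ _).trans (add_le_add (hrunX _) (hrunX _))) hTE')
    _ = ENNReal.ofReal ((2 * (CR ^ J' * C1) + CT ^ J') * (4 ^ J' * (1 / 2 ^ V)) * (Ub (r + J) / 4 ^ (r + J))) *
        Xb (r + J) ^ 2 := by
        rw [hW, ← add_mul, ← add_mul, ← ENNReal.ofReal_add (by positivity) (by positivity),
          ← ENNReal.ofReal_add (by positivity) (by positivity)]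
        have e4 : (4 : ℝ) ^ (r + J) = 4 ^ k * 4 ^ J' := by rw [← hkJ, pow_add]
        congr 2
        rw [e4]
        field_simp
        ring
    _ ≤ _ := by
        refine mul_le_mul_left (ENNReal.ofReal_le_ofReal (mul_le_mul_of_nonneg_right ?_ (by positivity))) _
        have hCC : 1 ≤ CR * C1 := one_le_mul_of_one_le_of_one_le hCR hC1
        have h1 : CR ^ J' * C1 ≤ (CR * C1 + CT) ^ J := by
          calc CR ^ J' * C1 ≤ CR ^ J' * C1 ^ J' := by
                refine mul_le_mul_of_nonneg_left ?_ (by positivity)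
                calc C1 = C1 ^ 1 := (pow_one C1).symm
                  _ ≤ _ := pow_le_pow_right₀ hC1 (by omega)
            _ = (CR * C1) ^ J' := (mul_pow _ _ _).symm
            _ ≤ (CR * C1 + CT) ^ J' := pow_le_pow_left₀ (by positivity) (by linarith) _
            _ ≤ _ := pow_le_pow_right₀ (by linarith) (by omega)
        have h2 : CT ^ J' ≤ (CR * C1 + CT) ^ J := by
          calc CT ^ J' ≤ (CR * C1 + CT) ^ J' := pow_le_pow_left₀ (by linarith) (by linarith) _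
            _ ≤ _ := pow_le_pow_right₀ (by linarith) (by omega)
        have h3 : (1 : ℝ) / 2 ^ V ≤ 4 * (2 : ℝ) ^ (-(1 / M * n) : ℝ) := by
          have e1 : (4 : ℝ) * (2 : ℝ) ^ (-(1 / M * n) : ℝ) = (2 : ℝ) ^ (2 - 1 / M * n : ℝ) := by
            rw [sub_eq_add_neg, Real.rpow_add two_pos]
            norm_num
          rw [e1, one_div, ← Real.rpow_natCast, ← Real.rpow_neg (by norm_num)]
          refine Real.rpow_le_rpow_of_exponent_le (by norm_num) ?_
          have e2 : (1 : ℝ) / M * n = n / M := by ring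
          rw [e2]
          linarith
        have h4 : (12 * 4 ^ J' : ℝ) ≤ 16 ^ J := by
          have a1 : (4 : ℝ) ^ J' ≤ 4 ^ J := pow_le_pow_right₀ (by norm_num) (by omega)
          have a2 : (12 : ℝ) ≤ 4 ^ J := by
            calc (12 : ℝ) ≤ 4 ^ 2 := by norm_num
              _ ≤ _ := pow_le_pow_right₀ (by norm_num) (by omega)
          calc (12 * 4 ^ J' : ℝ) ≤ 4 ^ J * 4 ^ J := by gcongr
            _ = 16 ^ J := by
                rw [← mul_pow]
                norm_num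
        have h5 : 0 < (CR * C1 + CT) ^ J := by positivity
        have h6 : 0 < (2 : ℝ) ^ (-(1 / M * n) : ℝ) := Real.rpow_pos_of_pos two_pos _
        calc (2 * (CR ^ J' * C1) + CT ^ J') * (4 ^ J' * (1 / 2 ^ V))
            ≤ (3 * (CR * C1 + CT) ^ J) * (4 ^ J' * (4 * (2 : ℝ) ^ (-(1 / M * n) : ℝ))) := by
              gcongr
              linarith
          _ = (12 * 4 ^ J') * ((CR * C1 + CT) ^ J * (2 : ℝ) ^ (-(1 / M * n) : ℝ)) := by ring
          _ ≤ (16 ^ J) * ((CR * C1 + CT) ^ J * (2 : ℝ) ^ (-(1 / M * n) : ℝ)) := by gcongr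
          _ = _ := by
              rw [mul_pow]
              ring

/-- D1 on the cylinder: the lifts with a long factor in Nz -/
def CylG (ZZ : ℕ → Set (List Bool)) : Prop := ∀ (ε : ℝ) (c0 : ℕ), 0 < ε → ∃ c k0 : ℕ, c0 ≤ c ∧ c ≤ Nat.log 2 k0 ∧
  ∀ (k : ℕ) (y : Pt), k0 ≤ k → ∑' m : ℤ, gf {t | t ∈ Tym k y m ∧ t ∈ LzG ZZ (Nat.log 2 k - c) (2 ^ (c - c0))} ≤
    ENNReal.ofReal ε * gg (Nat.log 2 k)

/-- **D1, the cylinder** -/
theorem cylG_of {ZZ : ℕ → Set (List Bool)} (hR : RegGL ZZ) : CylG ZZ := by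
  intro ε c0 hε
  obtain ⟨C1, c', b0, J0, n0, hC1, hc', hreg⟩ := hR
  obtain ⟨i0, k0, hsum⟩ := cyl_sum (ε / 2) (by positivity)
  obtain ⟨D, hD, hgD⟩ := gg_up
  have hC10 : 0 ≤ C1 := by linarith
  have hD0 : 0 ≤ D := by linarith
  have hser := (ser_sum (B := C1) (c := c') hC10 hc').tendsto_atTop_zero
  have hpos : 0 < ε / (2 * 2 ^ (i0 + 1) * (C1 ^ (i0 + c0) * D ^ i0)) := by
    have : 0 < C1 := by linarith
    have : 0 < D := by linarith
    positivity
  obtain ⟨n1, hn1⟩ := Filter.eventually_atTop.1 (hser.eventually (gt_mem_nhds hpos))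
  obtain ⟨n, hn⟩ : ∃ n, n = n1 + J0 + n0 := ⟨_, rfl⟩
  have hnn : n < 2 ^ n := Nat.lt_two_pow_self
  refine ⟨c0 + n, 2 ^ (b0 + (c0 + n)) + k0, by omega, ?_, fun k y hk => ?_⟩
  · refine (Nat.le_log_iff_pow_le (by norm_num) ?_).2 ?_
    · have : 0 < 2 ^ (b0 + (c0 + n)) := by positivity
      omega
    · have : 2 ^ (c0 + n) ≤ 2 ^ (b0 + (c0 + n)) := Nat.pow_le_pow_right (by norm_num) (by omega)
      omega
  · obtain ⟨L, hL⟩ : ∃ L, L = Nat.log 2 k := ⟨_, rfl⟩
    have hbL : b0 + (c0 + n) ≤ L := by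
      rw [hL]
      refine (Nat.le_log_iff_pow_le (by norm_num) ?_).2 (by omega)
      have : 0 < 2 ^ (b0 + (c0 + n)) := by positivity
      omega
    have h1 := hsum k ((Nat.le_add_left _ _).trans hk) (LzG ZZ (Nat.log 2 k - (c0 + n)) (2 ^ (c0 + n - c0))) y
      (ENNReal.ofReal (C1 ^ (c0 + n + i0) * (2 : ℝ) ^ (-(c' * 2 ^ n)) * D ^ i0) * gg L) (fun y' => ?_)
    · refine h1.trans ?_
      rw [← hL]
      have e2 : (2 : ℝ≥0∞) ^ (i0 + 1) = ENNReal.ofReal (2 ^ (i0 + 1)) := by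
        rw [ENNReal.ofReal_pow (by norm_num)]
        norm_num
      rw [e2, ← mul_assoc, ← ENNReal.ofReal_mul (by positivity), ← add_mul, ← ENNReal.ofReal_add (by positivity)
        (by positivity)]
      refine mul_le_mul' (ENNReal.ofReal_le_ofReal ?_) le_rfl
      have h3 := hn1 n (by omega)
      rw [lt_div_iff₀ (by
        have : 0 < C1 := by linarith
        have : 0 < D := by linarith
        positivity)] at h3
      have h4 : C1 ^ (c0 + n + i0) = C1 ^ n * C1 ^ (i0 + c0) := by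
        rw [← pow_add]
        congr 1
        omega
      rw [h4]
      nlinarith [h3]
    · rw [← hL]
      have h2 := hreg (L - (c0 + n)) (c0 + n + i0) (2 ^ n) y' (by omega) (by omega) (by omega)
      rw [show L - (c0 + n) + (c0 + n + i0) = L + i0 by omega] at h2
      rw [show c0 + n - c0 = n by omega]
      refine h2.trans ?_
      have e1 : ENNReal.ofReal (C1 ^ (c0 + n + i0) * (2 : ℝ) ^ (-(c' * ((2 ^ n : ℕ) : ℝ))) *
          (Ub (L + i0) / 4 ^ (L + i0))) * Xb (L + i0) ^ 2 =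
          ENNReal.ofReal (C1 ^ (c0 + n + i0) * (2 : ℝ) ^ (-(c' * 2 ^ n))) * gg (L + i0) := by
        unfold gg
        rw [← mul_assoc, ← ENNReal.ofReal_mul (by positivity)]
        push_cast
        rfl
      rw [e1]
      refine (mul_le_mul' le_rfl (hgD L i0)).trans (le_of_eq ?_)
      rw [← mul_assoc, ← ENNReal.ofReal_mul (by positivity)]

/-- **D1, the plane, generic** -/
theorem regGL {ZZ : ℕ → Set (List Bool)} (hF : FreeG ZZ) : RegGL ZZ := regGL_of (geoG ZZ) hF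

/-- **D1, the cylinder, generic** -/
theorem cylG {ZZ : ℕ → Set (List Bool)} (hF : FreeG ZZ) : CylG ZZ := cylG_of (regGL hF)

end PW

end HexObs
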