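import Mathlib

/-!
# From characteristic functions to laws: functions on finite sets, values in `ι → ℝ`

`∑ w ∈ S n, f (X n w) / #S n → ∫ f dμ` for every bounded continuous `f`, if it is true for the functions
`x ↦ exp (i ∑ t j * x j)`.
-/

set_option autoImplicit false

noncomputable section

open MeasureTheory ProbabilityTheory Filter Topology
open scoped ENNReal NNReal BoundedContinuousFunction

namespace PW

/-- the law of `X` under the uniform law of the finite set `S` -/
def ulaw {α E : Type*} [MeasurableSpace E] (S : Finset α) (X : α → E) : Measure E :=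
  ∑ w ∈ S, (S.card : ℝ≥0∞)⁻¹ • Measure.dirac (X w)

section

variable {α E : Type*} [MeasurableSpace E] {S : Finset α} {X : α → E}

theorem ulaw_prob (hS : S.Nonempty) : IsProbabilityMeasure (ulaw S X) := by
  constructor
  have h0 : (S.card : ℝ≥0∞) ≠ 0 := by
    rw [Nat.cast_ne_zero]
    exact hS.card_pos.ne'
  unfold ulaw
  rw [Measure.finsetSum_apply]
  simp only [Measure.smul_apply, measure_univ, smul_eq_mul, mul_one, Finset.sum_const, nsmul_eq_mul]
  exact ENNReal.mul_inv_cancel h0 (ENNReal.natCast_ne_top _)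

theorem ulaw_int {F : Type*} [NormedAddCommGroup F] [NormedSpace ℝ F] [CompleteSpace F] {f : E → F}
    (hf : StronglyMeasurable f) : ∫ x, f x ∂(ulaw S X) = (S.card : ℝ)⁻¹ • ∑ w ∈ S, f (X w) := by
  unfold ulaw
  rw [integral_finsetSum_measure]
  · rw [Finset.smul_sum]
    refine Finset.sum_congr rfl fun w hw => ?_
    rw [integral_smul_measure, integral_dirac' _ _ hf, ENNReal.toReal_inv, ENNReal.toReal_natCast]
  · intro w hw
    refine Integrable.smul_measure ?_ ?_
    · exact integrable_dirac' hf (by simp)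
    · rw [ENNReal.inv_ne_top, Nat.cast_ne_zero]
      exact (Finset.card_pos.2 ⟨w, hw⟩).ne'

theorem ulaw_real {A : Set E} (hA : MeasurableSet A) [DecidablePred (· ∈ A)] :
    (ulaw S X).real A = ((S.filter fun w => X w ∈ A).card : ℝ) / S.card := by
  classical
  have h : ∫ x, A.indicator (fun _ => (1 : ℝ)) x ∂(ulaw S X) = (ulaw S X).real A := by
    rw [integral_indicator_const _ hA, smul_eq_mul, mul_one]
  rw [← h, ulaw_int ((stronglyMeasurable_const).indicator hA), smul_eq_mul, div_eq_inv_mul]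
  congr 1
  rw [Finset.card_filter, Nat.cast_sum]
  refine Finset.sum_congr rfl fun w _ => ?_
  by_cases hw : X w ∈ A <;> simp [hw]

end

section

variable {ι : Type*} [Fintype ι] {α : ℕ → Type*} {S : ∀ n, Finset (α n)} {X : ∀ n, α n → ι → ℝ}
  {μ : Measure (ι → ℝ)} [IsProbabilityMeasure μ]

/-- **weak convergence** -/
theorem lim_bdd (hS : ∀ᶠ n in atTop, (S n).Nonempty)
    (h : ∀ t : ι → ℝ, Tendsto (fun n => (∑ w ∈ S n, Complex.exp ((∑ j, t j * X n w j : ℝ) * Complex.I)) / (S n).card)
      atTop (𝓝 (∫ x, Complex.exp ((∑ j, t j * x j : ℝ) * Complex.I) ∂μ)))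
    (f : (ι → ℝ) →ᵇ ℝ) :
    Tendsto (fun n => (∑ w ∈ S n, f (X n w)) / (S n).card) atTop (𝓝 (∫ x, f x ∂μ)) := by
  classical
  let e := MeasurableEquiv.toLp 2 (ι → ℝ)
  have he : ∀ x : ι → ℝ, e x = WithLp.toLp 2 x := fun _ => rfl
  have hμ : IsProbabilityMeasure (μ.map e) := Measure.isProbabilityMeasure_map e.measurable.aemeasurable
  let Q : ℕ → ProbabilityMeasure (EuclideanSpace ℝ ι) := fun n =>
    if hn : (S n).Nonempty then ⟨ulaw (S n) (fun w => e (X n w)), ulaw_prob hn⟩ else ⟨μ.map e, hμ⟩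
  let Q0 : ProbabilityMeasure (EuclideanSpace ℝ ι) := ⟨μ.map e, hμ⟩
  have key : Tendsto Q atTop (𝓝 Q0) := by
    refine ProbabilityMeasure.tendsto_of_tendsto_charFun fun t => ?_
    have e1 : charFun (Q0 : Measure (EuclideanSpace ℝ ι)) t =
        ∫ x, Complex.exp ((∑ j, t j * x j : ℝ) * Complex.I) ∂μ := by
      rw [charFun_apply]
      show ∫ x, _ ∂(μ.map e) = _
      rw [integral_map_equiv]
      refine integral_congr_ae (Eventually.of_forall fun x => ?_)
      simp only [he]
      congr 3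
    rw [e1]
    refine (h t).congr' ?_
    filter_upwards [hS] with n hn
    have e2 : (Q n : Measure (EuclideanSpace ℝ ι)) = ulaw (S n) (fun w => e (X n w)) := by
      simp only [Q, dif_pos hn]
      rfl
    rw [e2, charFun_apply, ulaw_int]
    · rw [Complex.real_smul, div_eq_inv_mul]
      push_cast
      congr 1
      refine Finset.sum_congr rfl fun w _ => ?_
      congr 2
      rw [he, PiLp.inner_apply]
      push_cast
      refine Finset.sum_congr rfl fun j _ => ?_
      simp
    · exact (by fun_prop : Continuous fun x : EuclideanSpace ℝ ι =>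
        Complex.exp ((inner ℝ x t : ℝ) * Complex.I)).stronglyMeasurable
  have e3 := (ProbabilityMeasure.tendsto_iff_forall_integral_tendsto.1 key)
    (f.compContinuous ⟨fun x : EuclideanSpace ℝ ι => WithLp.ofLp x, by fun_prop⟩)
  have e4 : ∫ x, (f.compContinuous ⟨fun x : EuclideanSpace ℝ ι => WithLp.ofLp x, by fun_prop⟩) x
      ∂(Q0 : Measure (EuclideanSpace ℝ ι)) = ∫ x, f x ∂μ := by
    show ∫ x, _ ∂(μ.map e) = _
    rw [integral_map_equiv]
    rfl
  rw [e4] at e3
  refine e3.congr' ?_
  filter_upwards [hS] with n hn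
  have e2 : (Q n : Measure (EuclideanSpace ℝ ι)) = ulaw (S n) (fun w => e (X n w)) := by
    simp only [Q, dif_pos hn]
    rfl
  rw [e2, ulaw_int]
  · rw [smul_eq_mul, div_eq_inv_mul]
    rfl
  · exact (BoundedContinuousFunction.continuous _).stronglyMeasurable

/-- **the law of two families** -/
theorem lim_bdd_prod {κ : Type*} [Fintype κ] {Y : ∀ n, α n → κ → ℝ} {ν : Measure (κ → ℝ)} [IsProbabilityMeasure ν]
    (hS : ∀ᶠ n in atTop, (S n).Nonempty)
    (h : ∀ (t : ι → ℝ) (u : κ → ℝ), Tendsto (fun n => (∑ w ∈ S n,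
        Complex.exp ((∑ j, t j * X n w j + ∑ j, u j * Y n w j : ℝ) * Complex.I)) / (S n).card) atTop
      (𝓝 ((∫ x, Complex.exp ((∑ j, t j * x j : ℝ) * Complex.I) ∂μ) *
        ∫ y, Complex.exp ((∑ j, u j * y j : ℝ) * Complex.I) ∂ν)))
    (f : (ι → ℝ) × (κ → ℝ) →ᵇ ℝ) :
    Tendsto (fun n => (∑ w ∈ S n, f (X n w, Y n w)) / (S n).card) atTop (𝓝 (∫ x, f x ∂(μ.prod ν))) := by
  let e := (MeasurableEquiv.sumPiEquivProdPi (fun _ : ι ⊕ κ => ℝ)).symm
  have he : ∀ (x : ι → ℝ) (y : κ → ℝ), e (x, y) = Sum.elim x y := by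
    intro x y
    funext j
    cases j <;> rfl
  have : IsProbabilityMeasure ((μ.prod ν).map e) :=
    Measure.isProbabilityMeasure_map e.measurable.aemeasurable
  have key := lim_bdd (ι := ι ⊕ κ) (S := S) (X := fun n w => Sum.elim (X n w) (Y n w)) (μ := (μ.prod ν).map e) hS
    (fun t => by
      rw [integral_map_equiv]
      have e1 : ∫ x, Complex.exp ((∑ j, t j * e x j : ℝ) * Complex.I) ∂(μ.prod ν) =
          (∫ x, Complex.exp ((∑ j, t (Sum.inl j) * x j : ℝ) * Complex.I) ∂μ) *
          ∫ y, Complex.exp ((∑ j, t (Sum.inr j) * y j : ℝ) * Complex.I) ∂ν := by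
        rw [← integral_prod_mul]
        refine integral_congr_ae (Eventually.of_forall fun x => ?_)
        obtain ⟨x, y⟩ := x
        simp only [he, Fintype.sum_sum_type, Sum.elim_inl, Sum.elim_inr]
        rw [← Complex.exp_add]
        congr 1
        push_cast
        ring
      rw [e1]
      refine (h (fun j => t (Sum.inl j)) (fun j => t (Sum.inr j))).congr fun n => ?_
      simp only [Fintype.sum_sum_type, Sum.elim_inl, Sum.elim_inr])
    (f.compContinuous ⟨fun x : ι ⊕ κ → ℝ => (fun j => x (Sum.inl j), fun j => x (Sum.inr j)), by fun_prop⟩)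
  rw [integral_map_equiv] at key
  exact key

end

/-! ### Brownian motion -/

/-- the characteristic function of the finite dimensional laws of the Brownian motion -/
theorem char_brown (I : Finset ℝ≥0) (t : I → ℝ) :
    ∫ x, Complex.exp ((∑ j, t j * x j : ℝ) * Complex.I) ∂(BrownianReal.projectiveFamily I) =
      ((Real.exp (-((∑ j : I, ∑ k : I, min (j : ℝ) (k : ℝ) * t j * t k) / 2)) : ℝ) : ℂ) := by
  classical
  rw [BrownianReal.integral_projectiveFamily]
  have h := charFun_multivariateGaussian (μ := 0) (BrownianReal.posSemidef_covMatrix I) (WithLp.toLp 2 t)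
  rw [charFun_apply] at h
  have e1 : ∀ x : EuclideanSpace ℝ I, ((∑ j, t j * WithLp.ofLp x j : ℝ) : ℂ) = ((inner ℝ x (WithLp.toLp 2 t) : ℝ) : ℂ) := by
    intro x
    rw [PiLp.inner_apply]
    rfl
  simp_rw [e1]
  rw [h, Complex.ofReal_exp]
  congr 1
  rw [inner_zero_right]
  simp only [Complex.ofReal_zero, zero_mul, zero_sub]
  rw [← Complex.ofReal_ofNat, ← Complex.ofReal_div, ← Complex.ofReal_neg]
  congr 2
  congr 1
  unfold dotProduct Matrix.mulVec dotProduct
  refine Finset.sum_congr rfl fun j _ => ?_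
  rw [Finset.mul_sum]
  refine Finset.sum_congr rfl fun k _ => ?_
  have e2 : BrownianReal.covMatrix I j k = min (j : ℝ) (k : ℝ) := by
    rw [BrownianReal.covMatrix_apply, NNReal.coe_min]
  show t j * (BrownianReal.covMatrix I j k * t k) = _
  rw [e2]
  ring

end PW

end
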