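import Pool.Agent.PW.ResW

/-!
The reversed walk.
-/

set_option autoImplicit false

noncomputable section

open scoped Classical

namespace Pool.Agent.PW.Res

open Pool.Agent.NTS.Res

variable {n : ℕ}

/-- the reversed walk -/
def rv (s : Fin n → Fin 3) : Fin n → Fin 3 := fun i => s i.rev

theorem rv_rv (s : Fin n → Fin 3) : rv (rv s) = s := by
  funext i
  simp [rv]

theorem pos_succ (s : Fin n → Fin 3) {k : ℕ} (hk : k < n) : pos s (k + 1) = pos s k + step k (s ⟨k, hk⟩) := by
  unfold pos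
  have h : Finset.univ.filter (fun i : Fin n => (i : ℕ) < k + 1) =
      insert ⟨k, hk⟩ (Finset.univ.filter (fun i : Fin n => (i : ℕ) < k)) := by
    ext i
    simp only [Finset.mem_filter, Finset.mem_univ, true_and, Finset.mem_insert, Fin.ext_iff]
    omega
  rw [h, Finset.sum_insert (by simp)]
  ring

theorem pos_zero (s : Fin n → Fin 3) : pos s 0 = 0 := by
  simp [pos]

theorem step_rev {i j : ℕ} (h : i + j + 1 = n) (a : Fin 3) : step i a = -(-1) ^ n * step j a := by
  unfold step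
  have h1 : ((-1 : ℂ)) ^ n = (-1) ^ i * (-1) ^ j * (-1) := by
    rw [← h, pow_succ, pow_add]
  have h2 : ((-1 : ℂ)) ^ j * (-1) ^ j = 1 := by
    rw [← mul_pow]
    simp
  rw [h1]
  calc (-1 : ℂ) ^ i * Complex.exp (2 * (Real.pi : ℂ) * Complex.I * ((a : ℕ) : ℂ) / 3)
      = (-1 : ℂ) ^ i * ((-1 : ℂ) ^ j * (-1) ^ j) * Complex.exp (2 * (Real.pi : ℂ) * Complex.I * ((a : ℕ) : ℂ) / 3) := by
        rw [h2, mul_one]
    _ = _ := by ring

/-- the positions of the reversed walk -/
theorem pos_rv (s : Fin n → Fin 3) {k : ℕ} (hk : k ≤ n) :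
    pos (rv s) k = (-1) ^ n * (pos s (n - k) - pos s n) := by
  induction k with
  | zero => simp [pos_zero]
  | succ k ih =>
    have hk' : k < n := hk
    rw [pos_succ _ hk', ih hk'.le]
    have h1 : n - k = n - (k + 1) + 1 := by omega
    have h2 : n - (k + 1) < n := by omega
    have h3 : pos s (n - k) = pos s (n - (k + 1)) + step (n - (k + 1)) (s ⟨n - (k + 1), h2⟩) := by
      rw [h1, pos_succ s h2]
    have h4 : rv s ⟨k, hk'⟩ = s ⟨n - (k + 1), h2⟩ := by
      unfold rv
      congr 1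
    rw [h3, h4, step_rev (n := n) (i := k) (j := n - (k + 1)) (by omega)]
    ring

theorem mem_saw (s : Fin n → Fin 3) :
    s ∈ saw n ↔ ∀ j k : ℕ, j ≤ n → k ≤ n → pos s j = pos s k → j = k := by
  simp [saw]

theorem rv_saw {s : Fin n → Fin 3} (h : s ∈ saw n) : rv s ∈ saw n := by
  rw [mem_saw] at h ⊢
  intro j k hj hk he
  rw [pos_rv s hj, pos_rv s hk] at he
  have h0 : ((-1 : ℂ)) ^ n ≠ 0 := by simp
  have h1 := mul_left_cancel₀ h0 he
  have h2 := h (n - j) (n - k) (by omega) (by omega) (sub_left_injective h1)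
  omega

theorem sum_rv {M : Type*} [AddCommMonoid M] (g : (Fin n → Fin 3) → M) :
    ∑ s ∈ saw n, g (rv s) = ∑ s ∈ saw n, g s :=
  Finset.sum_nbij' rv rv (fun _ h => rv_saw h) (fun _ h => rv_saw h) (fun _ _ => rv_rv _) (fun _ _ => rv_rv _)
    (fun _ _ => rfl)

theorem windS_rv (s : Fin n → Fin 3) {k : ℕ} (hk : k ≤ n) : windS (rv s) k = windE s k := by
  unfold windS windE
  refine Finset.sum_congr rfl fun i hi => ?_
  rw [Finset.mem_Ico] at hi
  rw [pos_rv s (by omega), pos_rv s (by omega), mul_div_mul_left _ _ (by simp)]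

theorem windE_rv (s : Fin n → Fin 3) {k : ℕ} (hk : k ≤ n) : windE (rv s) k = windS s k := by
  rw [← windS_rv _ hk, rv_rv]

end Pool.Agent.PW.Res

end
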