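import Pool.Agent.PW.CharK
import Pool.Agent.PW.LawK
import Pool.Agent.PW.CylG
import Pool.Agent.PW.RevW
import Pool.Agent.NTS.Base

/-!
# The winding of the walk with `n` steps: from the characteristic functions to the final theorem
-/

set_option autoImplicit false

noncomputable section

open MeasureTheory ProbabilityTheory Filter Topology
open scoped ENNReal NNReal BoundedContinuousFunction

namespace PW

open Pool.Agent.NTS.Res Pool.Agent.PW.Res

/-! ### the times -/

theorem tm_le {n : ℕ} (hn : 1 ≤ n) {t : ℝ} (ht : t ≤ 1) : tm n t ≤ n := by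
  unfold tm
  have h1 : (1 : ℝ) ≤ n := by exact_mod_cast hn
  refine Nat.floor_le_of_le ?_
  calc (n : ℝ) ^ t ≤ (n : ℝ) ^ (1 : ℝ) := Real.rpow_le_rpow_of_exponent_le h1 ht
    _ = n := Real.rpow_one _

theorem tm_zero (n : ℕ) : tm n 0 = 1 := by
  unfold tm
  rw [Real.rpow_zero]
  simp

theorem tm_tendsto {t : ℝ} (ht : 0 < t) : Tendsto (fun n => tm n t) atTop atTop :=
  tendsto_nat_floor_atTop.comp ((tendsto_rpow_atTop ht).comp tendsto_natCast_atTop_atTop)

theorem log_tm {t : ℝ} (ht : 0 < t) :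
    Tendsto (fun n : ℕ => Real.log (tm n t : ℕ) / Real.log n) atTop (𝓝 t) := by
  have h0 : Tendsto (fun n : ℕ => Real.log n) atTop atTop :=
    Real.tendsto_log_atTop.comp tendsto_natCast_atTop_atTop
  have h1 : Tendsto (fun n : ℕ => t - Real.log 2 / Real.log n) atTop (𝓝 (t - 0)) :=
    tendsto_const_nhds.sub (Tendsto.const_div_atTop h0 _)
  rw [sub_zero] at h1
  refine tendsto_of_tendsto_of_tendsto_of_le_of_le' h1 tendsto_const_nhds ?_ ?_
  · filter_upwards [(tm_tendsto ht).eventually_ge_atTop 1, eventually_ge_atTop 2] with n h2 h3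
    have hn : (1 : ℝ) < n := by exact_mod_cast h3
    have hl : 0 < Real.log n := Real.log_pos hn
    have h4 : (n : ℝ) ^ t / 2 ≤ (tm n t : ℕ) := by
      have h5 : (n : ℝ) ^ t < (tm n t : ℕ) + 1 := Nat.lt_floor_add_one _
      have h6 : (1 : ℝ) ≤ (tm n t : ℕ) := by exact_mod_cast h2
      linarith
    have h7 : 0 < (n : ℝ) ^ t / 2 := by positivity
    have h8 := Real.log_le_log h7 h4
    rw [Real.log_div (by positivity) (by norm_num), Real.log_rpow (by positivity)] at h8
    rw [le_div_iff₀ hl, sub_mul, div_mul_cancel₀ _ hl.ne']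
    exact h8
  · filter_upwards [(tm_tendsto ht).eventually_ge_atTop 1, eventually_ge_atTop 2] with n h2 h3
    have hn : (1 : ℝ) < n := by exact_mod_cast h3
    have hl : 0 < Real.log n := Real.log_pos hn
    have h4 : ((tm n t : ℕ) : ℝ) ≤ (n : ℝ) ^ t := Nat.floor_le (by positivity)
    have h6 : (0 : ℝ) < (tm n t : ℕ) := by exact_mod_cast h2
    have h8 := Real.log_le_log h6 h4
    rw [Real.log_rpow (by positivity)] at h8
    rw [div_le_iff₀ hl]
    exact h8

/-! ### the characteristic function -/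

/-- the joint characteristic function of the windings of the first `n ^ (s j)` steps around the starting point and of the
last `n ^ (s' j)` steps around the end point -/
def JJ {m m' : ℕ} (s : Fin m → ℝ) (s' : Fin m' → ℝ) (n : ℕ) (u : Fin m → ℝ) (w : Fin m' → ℝ) : ℂ :=
  (∑ x ∈ saw n, Complex.exp ((∑ j, u j * windS x (tm n (s j)) + ∑ j, w j * windE x (tm n (s' j)) : ℝ) *
    Complex.I)) / (saw n).card

/-- **what is needed**: `K n` = the scale of the walk with `n` steps -/
def TipW (ψ : ℕ → ℕ → ℝ → ℂ) (K : ℕ → ℕ) : Prop :=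
  ∀ (m m' : ℕ) (s : Fin m → ℝ) (s' : Fin m' → ℝ), StrictMono s → StrictMono s' → (∀ j, 0 < s j ∧ s j ≤ 1) →
    (∀ j, 0 < s' j ∧ s' j ≤ 1) → TipK (JJ s s') ψ (fun j n => K (tm n (s j)))

theorem bq_smul {m : ℕ} (r u : Fin m → ℝ) {c : ℝ} (hc : 0 ≤ c) : bq (fun j => c * r j) u = c * bq r u := by
  unfold bq
  rw [Finset.mul_sum]
  refine Finset.sum_congr rfl fun i _ => ?_
  rw [Finset.mul_sum]
  refine Finset.sum_congr rfl fun l _ => ?_
  rw [← mul_min_of_nonneg _ _ hc]
  ring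

section

variable {Φ : ℕ → ℝ → ℂ} {ψ : ℕ → ℕ → ℝ → ℂ} {K : ℕ → ℕ}
  (h1 : CylLim Φ (8 / 3)) (h2 : TipCyl Φ ψ) (hψ : ∀ C b, Continuous (ψ C b)) (hψ0 : ∀ C b, ψ C b 0 = 1)
  (hK : Tendsto (fun n : ℕ => Real.log ((2 ^ K n : ℕ) : ℝ) / Real.log n) atTop (𝓝 (3 / 4)))
  (hT : TipW ψ K)

include hK in
theorem K_tendsto : Tendsto K atTop atTop := by
  have h0 : Tendsto (fun n : ℕ => Real.log n) atTop atTop :=
    Real.tendsto_log_atTop.comp tendsto_natCast_atTop_atTop
  have h1 : Tendsto (fun n : ℕ => (Real.log ((2 ^ K n : ℕ) : ℝ) / Real.log n) * Real.log n) atTop atTop :=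
    hK.pos_mul_atTop (by norm_num) h0
  have h2 : Tendsto (fun n : ℕ => (K n : ℝ)) atTop atTop := by
    have h3 : Tendsto (fun n : ℕ => (Real.log ((2 ^ K n : ℕ) : ℝ) / Real.log n) * Real.log n / Real.log 2)
        atTop atTop := h1.atTop_div_const (Real.log_pos (by norm_num))
    refine h3.congr' ?_
    filter_upwards [eventually_ge_atTop 2] with n hn
    have hl : 0 < Real.log n := Real.log_pos (by exact_mod_cast hn)
    have hl2 : 0 < Real.log 2 := Real.log_pos (by norm_num)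
    rw [div_mul_cancel₀ _ hl.ne']
    push_cast
    rw [Real.log_pow]
    field_simp
  exact tendsto_natCast_atTop_iff.1 h2

include hK in
theorem scale_tm {t : ℝ} (ht : 0 < t) :
    Tendsto (fun n : ℕ => Real.log ((2 ^ K (tm n t) : ℕ) : ℝ) / Real.log n) atTop (𝓝 (3 / 4 * t)) := by
  have h3 := (hK.comp (tm_tendsto ht)).mul (log_tm ht)
  refine h3.congr' ?_
  filter_upwards [(tm_tendsto ht).eventually_ge_atTop 2] with n h4
  have h5 : Real.log (tm n t : ℕ) ≠ 0 := (Real.log_pos (by exact_mod_cast h4)).ne'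
  simp only [Function.comp]
  field_simp

include h1 h2 hψ hψ0 hK hT in
/-- **the joint characteristic function** -/
theorem char_two {m m' : ℕ} {s : Fin m → ℝ} {s' : Fin m' → ℝ} (hs : StrictMono s) (hs' : StrictMono s')
    (hs1 : ∀ j, 0 < s j ∧ s j ≤ 1) (hs1' : ∀ j, 0 < s' j ∧ s' j ≤ 1) (u : Fin m → ℝ) (w : Fin m' → ℝ) :
    Tendsto (fun n : ℕ => JJ s s' n (fun j => u j / √(Real.log n)) (fun j => w j / √(Real.log n))) atTop
      (𝓝 ((Real.exp (-(bq s u + bq s' w)) : ℝ) : ℂ)) := by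
  have one : ∀ {m m' : ℕ} {s : Fin m → ℝ} {s' : Fin m' → ℝ}, StrictMono s → StrictMono s' →
      (∀ j, 0 < s j ∧ s j ≤ 1) → (∀ j, 0 < s' j ∧ s' j ≤ 1) → ∀ (w : Fin m' → ℝ) {β : ℂ},
      Tendsto (fun n : ℕ => JJ s s' n 0 (fun k => w k / √(Real.log n))) atTop (𝓝 β) → ∀ u : Fin m → ℝ,
      Tendsto (fun n : ℕ => JJ s s' n (fun j => u j / √(Real.log n)) (fun j => w j / √(Real.log n))) atTop
        (𝓝 (β * ((Real.exp (-(bq s u)) : ℝ) : ℂ))) := by
    intro m m' s s' hs hs' hs1 hs1' w β h0 u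
    have h := char_limK (a := 8 / 3) (r := fun j => 3 / 4 * s j) (by norm_num)
      (fun j => by have := (hs1 j).1; positivity)
      (fun i j hij => mul_le_mul_of_nonneg_left (hs.monotone hij) (by norm_num)) h1 h2
      (hT m m' s s' hs hs' hs1 hs1') hψ hψ0 (fun j => (K_tendsto hK).comp (tm_tendsto (hs1 j).1))
      (fun j => scale_tm hK (hs1 j).1) w h0 u
    have e : (8 / 3 : ℝ) / 2 * bq (fun j => 3 / 4 * s j) u = bq s u := by
      rw [bq_smul s u (by norm_num)]
      ring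
    rw [e] at h
    exact h
  -- nothing at the starting point: reversal
  have h3 : Tendsto (fun n : ℕ => JJ s s' n 0 (fun k => w k / √(Real.log n))) atTop
      (𝓝 (1 * ((Real.exp (-(bq s' w)) : ℝ) : ℂ))) := by
    have h4 := one (s := s') (s' := (Fin.elim0 : Fin 0 → ℝ)) hs' (fun i => i.elim0) hs1' (fun i => i.elim0)
      (w := Fin.elim0) (β := 1) (by
        refine tendsto_const_nhds.congr fun n => ?_
        have hc : ((saw n).card : ℂ) ≠ 0 := by
          exact_mod_cast (NTSF.saw_nonempty n).card_pos.ne'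
        unfold JJ
        simp [div_self hc]) w
    refine h4.congr' ?_
    filter_upwards [eventually_ge_atTop 1] with n hn
    unfold JJ
    congr 1
    rw [← sum_rv]
    refine Finset.sum_congr rfl fun x _ => ?_
    congr 2
    simp only [Finset.univ_eq_empty, Finset.sum_empty, add_zero, Pi.zero_apply, zero_mul, Finset.sum_const_zero, zero_add]
    congr 1
    refine Finset.sum_congr rfl fun j _ => ?_
    rw [windS_rv x (tm_le hn (hs1' j).2)]
  have h5 := one hs hs' hs1 hs1' w h3 u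
  have e : (1 : ℂ) * ((Real.exp (-(bq s' w)) : ℝ) : ℂ) * ((Real.exp (-(bq s u)) : ℝ) : ℂ) =
      ((Real.exp (-(bq s u + bq s' w)) : ℝ) : ℂ) := by
    rw [one_mul, ← Complex.ofReal_mul, ← Real.exp_add]
    congr 2
    ring
  rw [e] at h5
  exact h5

end

/-! ### one end only -/

/-- the joint characteristic function of the windings of the first `n ^ (s j)` steps around the starting point -/
def J1 {m : ℕ} (s : Fin m → ℝ) (n : ℕ) (u : Fin m → ℝ) : ℂ :=
  (∑ x ∈ saw n, Complex.exp ((∑ j, u j * windS x (tm n (s j)) : ℝ) * Complex.I)) / (saw n).card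

/-- **what is needed for one end**: `K n` = the scale of the walk with `n` steps -/
def TipW1 (ψ : ℕ → ℕ → ℝ → ℂ) (K : ℕ → ℕ) : Prop :=
  ∀ (m : ℕ) (s : Fin m → ℝ), StrictMono s → (∀ j, 0 < s j ∧ s j ≤ 1) → ∀ j : Fin m, ∀ e : ℝ, 0 < e →
    ∃ C0 : ℕ, ∀ C, C0 ≤ C → ∃ M : ℝ, ∀ᶠ n : ℕ in atTop, ∀ u : Fin m → ℝ, (∀ i, i < j → u i = 0) →
      ∃ X : ℂ, ∀ v : ℝ, ‖J1 s n (Function.update u j (v - ∑ i ∈ Finset.Ioi j, u i)) - ψ C (K (tm n (s j)) - C) v * X‖ ≤
        e + M * (|v| + ∑ i ∈ Finset.Ioi j, |u i|)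

section

variable {Φ : ℕ → ℝ → ℂ} {ψ : ℕ → ℕ → ℝ → ℂ} {K : ℕ → ℕ}
  (h1 : CylLim Φ (8 / 3)) (h2 : TipCyl Φ ψ) (hψ : ∀ C b, Continuous (ψ C b)) (hψ0 : ∀ C b, ψ C b 0 = 1)
  (hK : Tendsto (fun n : ℕ => Real.log ((2 ^ K n : ℕ) : ℝ) / Real.log n) atTop (𝓝 (3 / 4)))
  (hT : TipW1 ψ K)

include h1 h2 hψ hψ0 hK hT in
/-- **the joint characteristic function, one end** -/
theorem char_one {m : ℕ} {s : Fin m → ℝ} (hs : StrictMono s) (hs1 : ∀ j, 0 < s j ∧ s j ≤ 1) (u : Fin m → ℝ) :
    Tendsto (fun n : ℕ => J1 s n (fun j => u j / √(Real.log n))) atTop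
      (𝓝 ((Real.exp (-(bq s u)) : ℝ) : ℂ)) := by
  have h := char_limK (κ := Fin 0) (J := fun n u _ => J1 s n u) (a := 8 / 3) (r := fun j => 3 / 4 * s j)
    (K := fun j n => K (tm n (s j))) (by norm_num)
    (fun j => by have := (hs1 j).1; positivity)
    (fun i j hij => mul_le_mul_of_nonneg_left (hs.monotone hij) (by norm_num)) h1 h2
    (fun j e he => by
      obtain ⟨C0, hC0⟩ := hT m s hs hs1 j e he
      refine ⟨C0, fun C hC => ?_⟩
      obtain ⟨M, hM⟩ := hC0 C hC
      refine ⟨M, ?_⟩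
      filter_upwards [hM] with n hn u w hu
      obtain ⟨X, hX⟩ := hn u hu
      refine ⟨X, fun v => ?_⟩
      have := hX v
      simpa using this) hψ hψ0 (fun j => (K_tendsto hK).comp (tm_tendsto (hs1 j).1))
    (fun j => scale_tm hK (hs1 j).1) (w := Fin.elim0) (β := 1) (by
      refine tendsto_const_nhds.congr fun n => ?_
      have hc : ((saw n).card : ℂ) ≠ 0 := by
        exact_mod_cast (NTSF.saw_nonempty n).card_pos.ne'
      unfold J1
      simp [div_self hc]) u
  have e : (8 / 3 : ℝ) / 2 * bq (fun j => 3 / 4 * s j) u = bq s u := by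
    rw [bq_smul s u (by norm_num)]
    ring
  rw [e, one_mul] at h
  exact h

end

/-! ### finite sets of times -/

section

variable (I : Finset ℝ≥0)

/-- the positive times -/
def pt : Finset ℝ≥0 := I.filter (0 < ·)

/-- the positive times, in their order -/
def tt (j : Fin (pt I).card) : ℝ := (((pt I).orderIsoOfFin rfl j : ℝ≥0) : ℝ)

theorem tt_mono : StrictMono (tt I) := by
  intro i j hij
  unfold tt
  have := ((pt I).orderIsoOfFin rfl).strictMono hij
  exact_mod_cast this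

theorem tt_pos (j : Fin (pt I).card) : 0 < tt I j := by
  have := ((pt I).orderIsoOfFin rfl j).2
  unfold pt at this
  rw [Finset.mem_filter] at this
  exact_mod_cast this.2

theorem tt_le (hI : ∀ s ∈ I, s ≤ 1) (j : Fin (pt I).card) : tt I j ≤ 1 := by
  have := ((pt I).orderIsoOfFin rfl j).2
  unfold pt at this
  rw [Finset.mem_filter] at this
  exact_mod_cast hI _ this.1

/-- the coefficients -/
def ext (t : I → ℝ) (x : ℝ≥0) : ℝ := if h : x ∈ I then t ⟨x, h⟩ else 0

/-- the coefficients, in the order of the times -/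
def tc (t : I → ℝ) (j : Fin (pt I).card) : ℝ := ext I t ((pt I).orderIsoOfFin rfl j : ℝ≥0)

theorem sum_tt (G : ℝ≥0 → ℝ) (h0 : G 0 = 0) :
    ∑ j : I, G j = ∑ j, G ((pt I).orderIsoOfFin rfl j : ℝ≥0) := by
  have h1 : ∑ j : I, G j = ∑ x ∈ I, G x := Finset.sum_coe_sort I G
  have h2 : ∑ x ∈ I, G x = ∑ x ∈ pt I, G x := by
    symm
    refine Finset.sum_subset (Finset.filter_subset _ _) fun x hx hx' => ?_
    have : x = 0 := by
      by_contra h
      exact hx' (Finset.mem_filter.2 ⟨hx, pos_iff_ne_zero.2 h⟩)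
    rw [this, h0]
  have h3 : ∑ x ∈ pt I, G x = ∑ x : pt I, G x := (Finset.sum_coe_sort (pt I) G).symm
  rw [h1, h2, h3]
  exact (Equiv.sum_comp ((pt I).orderIsoOfFin rfl).toEquiv (fun x : pt I => G x)).symm

theorem sum_tc (t : I → ℝ) (X : ℝ → ℝ) (h0 : X 0 = 0) :
    ∑ j : I, t j * X j = ∑ j, tc I t j * X (tt I j) := by
  have h := sum_tt I (fun x => ext I t x * X x) (by simp [h0])
  unfold tc tt
  rw [← h]
  refine Finset.sum_congr rfl fun j _ => ?_
  unfold ext
  rw [dif_pos j.2]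

theorem bq_tc (t : I → ℝ) :
    ∑ j : I, ∑ k : I, min (j : ℝ) (k : ℝ) * t j * t k = bq (tt I) (tc I t) := by
  have h1 : ∀ x : ℝ, ∀ c : ℝ, 0 ≤ x → ∑ k : I, min x (k : ℝ) * c * t k = ∑ k, min x (tt I k) * c * tc I t k := by
    intro x c hx
    have := sum_tc I t (fun y => min x y * c) (by rw [min_eq_right hx, zero_mul])
    calc ∑ k : I, min x (k : ℝ) * c * t k = ∑ k : I, t k * (min x (k : ℝ) * c) :=
          Finset.sum_congr rfl fun k _ => by ring
      _ = _ := this
      _ = _ := Finset.sum_congr rfl fun k _ => by ring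
  have h2 : ∀ j : I, ∑ k : I, min (j : ℝ) (k : ℝ) * t j * t k =
      t j * (fun y : ℝ => ∑ k, min y (tt I k) * tc I t k) j := by
    intro j
    rw [h1 (j : ℝ) (t j) (NNReal.coe_nonneg _), Finset.mul_sum]
    refine Finset.sum_congr rfl fun k _ => ?_
    ring
  rw [Finset.sum_congr rfl fun j _ => h2 j]
  rw [sum_tc I t (fun y : ℝ => ∑ k, min y (tt I k) * tc I t k) (Finset.sum_eq_zero fun k _ => by
    rw [min_eq_left (tt_pos I k).le, zero_mul])]
  unfold bq
  refine Finset.sum_congr rfl fun j _ => ?_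
  rw [Finset.mul_sum]
  refine Finset.sum_congr rfl fun k _ => ?_
  ring

end

theorem bq_sqrt {m : ℕ} (r v : Fin m → ℝ) : bq r (fun j => v j / √2) = bq r v / 2 := by
  unfold bq
  rw [Finset.sum_div]
  refine Finset.sum_congr rfl fun i _ => ?_
  rw [Finset.sum_div]
  refine Finset.sum_congr rfl fun l _ => ?_
  have h : (√2 : ℝ) ^ 2 = 2 := Real.sq_sqrt (by norm_num)
  show min (r i) (r l) * (v i / √2) * (v l / √2) = min (r i) (r l) * v i * v l / 2
  calc min (r i) (r l) * (v i / √2) * (v l / √2) = min (r i) (r l) * v i * v l / √2 ^ 2 := by ring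
    _ = _ := by rw [h]

/-! ### the final theorem -/

section

variable {Φ : ℕ → ℝ → ℂ} {ψ : ℕ → ℕ → ℝ → ℂ} {K : ℕ → ℕ}

/-- **the winding of the walk with `n` steps around its two ends**: two independent Brownian motions -/
theorem result_of (h1 : CylLim Φ (8 / 3)) (h2 : TipCyl Φ ψ) (hψ : ∀ C b, Continuous (ψ C b)) (hψ0 : ∀ C b, ψ C b 0 = 1)
    (hK : Tendsto (fun n : ℕ => Real.log ((2 ^ K n : ℕ) : ℝ) / Real.log n) atTop (𝓝 (3 / 4)))
    (hT : TipW ψ K) (I J : Finset ℝ≥0) (hI : ∀ s ∈ I, s ≤ 1) (hJ : ∀ s ∈ J, s ≤ 1)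
    (f : BoundedContinuousFunction ((I → ℝ) × (J → ℝ)) ℝ) :
    Tendsto (fun n : ℕ => (∑ w ∈ saw n, f (fun s : I => windS w (tm n s) / √(2 * Real.log n),
      fun s : J => windE w (tm n s) / √(2 * Real.log n))) / ((saw n).card : ℝ)) atTop
      (𝓝 (∫ x, f x ∂((BrownianReal.projectiveFamily I).prod (BrownianReal.projectiveFamily J)))) := by
  refine lim_bdd_prod (S := saw) (X := fun n w (s : I) => windS w (tm n s) / √(2 * Real.log n))
    (Y := fun n w (s : J) => windE w (tm n s) / √(2 * Real.log n)) (Eventually.of_forall NTSF.saw_nonempty) ?_ f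
  intro t u
  rw [char_brown, char_brown]
  have key := char_two h1 h2 hψ hψ0 hK hT (tt_mono I) (tt_mono J) (fun j => ⟨tt_pos I j, tt_le I hI j⟩)
    (fun j => ⟨tt_pos J j, tt_le J hJ j⟩) (fun j => tc I t j / √2) (fun j => tc J u j / √2)
  rw [bq_sqrt, bq_sqrt] at key
  rw [bq_tc, bq_tc, ← Complex.ofReal_mul, ← Real.exp_add]
  have e2 : -(bq (tt I) (tc I t) / 2) + -(bq (tt J) (tc J u) / 2) =
      -(bq (tt I) (tc I t) / 2 + bq (tt J) (tc J u) / 2) := by ring
  rw [e2]
  refine key.congr fun n => ?_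
  unfold JJ
  congr 1
  refine Finset.sum_congr rfl fun x _ => ?_
  congr 2
  have z1 : windS x (tm n 0) = 0 := by
    rw [tm_zero]
    unfold windS
    simp
  have z2 : windE x (tm n 0) = 0 := by
    rw [tm_zero]
    unfold windE
    simp
  rw [sum_tc I t (fun s => windS x (tm n s) / √(2 * Real.log n)) (by rw [z1, zero_div]),
    sum_tc J u (fun s => windE x (tm n s) / √(2 * Real.log n)) (by rw [z2, zero_div])]
  have e3 : √(2 * Real.log n) = √2 * √(Real.log n) := Real.sqrt_mul (by norm_num) _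
  rw [e3]
  congr 2
  · refine Finset.sum_congr rfl fun j _ => ?_
    show tc I t j / √2 / √(Real.log n) * windS x (tm n (tt I j)) =
      tc I t j * (windS x (tm n (tt I j)) / (√2 * √(Real.log n)))
    rw [div_div, div_mul_eq_mul_div, mul_div_assoc]
  · refine Finset.sum_congr rfl fun j _ => ?_
    show tc J u j / √2 / √(Real.log n) * windE x (tm n (tt J j)) =
      tc J u j * (windE x (tm n (tt J j)) / (√2 * √(Real.log n)))
    rw [div_div, div_mul_eq_mul_div, mul_div_assoc]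

/-- **the winding of the walk with `n` steps around its starting point**: a Brownian motion -/
theorem result_of1 (h1 : CylLim Φ (8 / 3)) (h2 : TipCyl Φ ψ) (hψ : ∀ C b, Continuous (ψ C b)) (hψ0 : ∀ C b, ψ C b 0 = 1)
    (hK : Tendsto (fun n : ℕ => Real.log ((2 ^ K n : ℕ) : ℝ) / Real.log n) atTop (𝓝 (3 / 4)))
    (hT : TipW1 ψ K) (I : Finset ℝ≥0) (hI : ∀ s ∈ I, s ≤ 1) (f : BoundedContinuousFunction (I → ℝ) ℝ) :
    Tendsto (fun n : ℕ => (∑ w ∈ saw n, f (fun s : I => windS w (tm n s) / √(2 * Real.log n))) / ((saw n).card : ℝ))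
      atTop (𝓝 (∫ x, f x ∂(BrownianReal.projectiveFamily I))) := by
  refine lim_bdd (S := saw) (X := fun n w (s : I) => windS w (tm n s) / √(2 * Real.log n))
    (Eventually.of_forall NTSF.saw_nonempty) ?_ f
  intro t
  rw [char_brown]
  have key := char_one h1 h2 hψ hψ0 hK hT (tt_mono I) (fun j => ⟨tt_pos I j, tt_le I hI j⟩) (fun j => tc I t j / √2)
  rw [bq_sqrt] at key
  rw [bq_tc]
  refine key.congr fun n => ?_
  unfold J1
  congr 1
  refine Finset.sum_congr rfl fun x _ => ?_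
  congr 2
  have z1 : windS x (tm n 0) = 0 := by
    rw [tm_zero]
    unfold windS
    simp
  rw [sum_tc I t (fun s => windS x (tm n s) / √(2 * Real.log n)) (by rw [z1, zero_div])]
  have e3 : √(2 * Real.log n) = √2 * √(Real.log n) := Real.sqrt_mul (by norm_num) _
  rw [e3]
  congr 1
  refine Finset.sum_congr rfl fun j _ => ?_
  show tc I t j / √2 / √(Real.log n) * windS x (tm n (tt I j)) =
    tc I t j * (windS x (tm n (tt I j)) / (√2 * √(Real.log n)))
  rw [div_div, div_mul_eq_mul_div, mul_div_assoc]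

end

end PW

end
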