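import Pool.Agent.PW.CharX
import Pool.Agent.PW.FinW

/-!
# The winding of the walk with `n` steps and a functional of the rescaled curve (PW, row F, helper16)

`char_X` : the mean of `F * exp (i ∑ u_s Θ_n(s))` is asymptotically the mean of `F` times the characteristic function of the
Brownian motion (`F n` = any functional of the walks with `n` steps with `|F| ≤ 1` for which `TipWX` is true).
-/

set_option autoImplicit false

noncomputable section

open MeasureTheory ProbabilityTheory Filter Topology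
open scoped ENNReal NNReal BoundedContinuousFunction

namespace PW

open Pool.Agent.NTS.Res Pool.Agent.PW.Res

/-- the joint characteristic function of the windings of the first `n ^ (s j)` steps around the starting point, with the
factor `F` -/
def JF (F : (n : ℕ) → (Fin n → Fin 3) → ℝ) {m : ℕ} (s : Fin m → ℝ) (n : ℕ) (u : Fin m → ℝ) : ℂ :=
  (∑ x ∈ saw n, (F n x : ℂ) * Complex.exp ((∑ j, u j * windS x (tm n (s j)) : ℝ) * Complex.I)) / (saw n).card

/-- **what is needed**: `K n` = the scale of the walk with `n` steps -/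
def TipWX (F : (n : ℕ) → (Fin n → Fin 3) → ℝ) (ψ : ℕ → ℕ → ℝ → ℂ) (K : ℕ → ℕ) : Prop :=
  ∀ (m : ℕ) (s : Fin m → ℝ), StrictMono s → (∀ j, 0 < s j ∧ s j ≤ 1) → TipX (JF F s) ψ (fun j n => K (tm n (s j)))

variable {Φ : ℕ → ℝ → ℂ} {ψ : ℕ → ℕ → ℝ → ℂ} {K : ℕ → ℕ} {F : (n : ℕ) → (Fin n → Fin 3) → ℝ}

theorem JF_le (hF : ∀ n w, |F n w| ≤ 1) {m : ℕ} (s : Fin m → ℝ) (n : ℕ) (u : Fin m → ℝ) : ‖JF F s n u‖ ≤ 1 := by
  have hc : 0 < ((saw n).card : ℝ) := by exact_mod_cast (NTSF.saw_nonempty n).card_pos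
  unfold JF
  rw [norm_div, Complex.norm_natCast, div_le_one hc]
  refine (norm_sum_le _ _).trans ?_
  calc ∑ x ∈ saw n, ‖(F n x : ℂ) * Complex.exp ((∑ j, u j * windS x (tm n (s j)) : ℝ) * Complex.I)‖
      ≤ ∑ _x ∈ saw n, (1 : ℝ) := by
        refine Finset.sum_le_sum fun x _ => ?_
        rw [norm_mul, Complex.norm_exp_ofReal_mul_I, mul_one, Complex.norm_real]
        exact hF n x
    _ = (saw n).card := by simp

/-- **the winding and a functional of the curve** -/
theorem char_X (h1 : CylLim Φ (8 / 3)) (h2 : TipCyl Φ ψ) (hψ : ∀ C b, Continuous (ψ C b)) (hψ0 : ∀ C b, ψ C b 0 = 1)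
    (hK : Tendsto (fun n : ℕ => Real.log ((2 ^ K n : ℕ) : ℝ) / Real.log n) atTop (𝓝 (3 / 4)))
    (hF : ∀ n w, |F n w| ≤ 1) (hT : TipWX F ψ K) (I : Finset ℝ≥0) (hI : ∀ s ∈ I, s ≤ 1) (t : I → ℝ) :
    Tendsto (fun n : ℕ => (∑ w ∈ saw n, (F n w : ℂ) *
        Complex.exp ((∑ s : I, t s * (windS w (tm n s) / √(2 * Real.log n)) : ℝ) * Complex.I)) / ((saw n).card : ℂ) -
      (∑ w ∈ saw n, (F n w : ℂ)) / ((saw n).card : ℂ) *
        ((Real.exp (-((∑ j : I, ∑ k : I, min (j : ℝ) (k : ℝ) * t j * t k) / 2)) : ℝ) : ℂ)) atTop (𝓝 0) := by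
  have key := char_limX (J := JF F (tt I)) (a := 8 / 3) (r := fun j => 3 / 4 * tt I j)
    (K := fun j n => K (tm n (tt I j))) (by norm_num)
    (fun j => by have := tt_pos I j; positivity)
    (fun i j hij => mul_le_mul_of_nonneg_left ((tt_mono I).monotone hij) (by norm_num)) h1 h2
    (hT _ (tt I) (tt_mono I) (fun j => ⟨tt_pos I j, tt_le I hI j⟩)) hψ hψ0
    (fun j => (K_tendsto hK).comp (tm_tendsto (tt_pos I j)))
    (fun j => scale_tm hK (tt_pos I j)) (fun n => JF_le hF _ n 0) (fun j => tc I t j / √2)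
  have e : (8 / 3 : ℝ) / 2 * bq (fun j => 3 / 4 * tt I j) (fun j => tc I t j / √2) = bq (tt I) (tc I t) / 2 := by
    rw [bq_smul (tt I) _ (by norm_num), bq_sqrt]
    ring
  rw [e, ← bq_tc] at key
  refine key.congr fun n => ?_
  congr 1
  · unfold JF
    congr 1
    refine Finset.sum_congr rfl fun x _ => ?_
    congr 3
    have z1 : windS x (tm n 0) = 0 := by
      rw [tm_zero]
      unfold windS
      simp
    rw [sum_tc I t (fun s => windS x (tm n s) / √(2 * Real.log n)) (by rw [z1, zero_div])]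
    have e3 : √(2 * Real.log n) = √2 * √(Real.log n) := Real.sqrt_mul (by norm_num) _
    rw [e3]
    congr 1
    refine Finset.sum_congr rfl fun j _ => ?_
    show tc I t j / √2 / √(Real.log n) * windS x (tm n (tt I j)) =
      tc I t j * (windS x (tm n (tt I j)) / (√2 * √(Real.log n)))
    rw [div_div, div_mul_eq_mul_div, mul_div_assoc]
  · congr 1
    unfold JF
    congr 1
    refine Finset.sum_congr rfl fun x _ => ?_
    simp

end PW

end
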