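import Mathlib

/-!
# PW, joint laws (helper90): abstract weak convergence

`X n w` in a Polish space `E`, `Y n w` in `ι → ℝ`, `w` uniform in the finite set `S n`. If the law of `X` converges weakly and
the mean of `F X * exp (i t Y)` is asymptotically the mean of `F X` times a fixed characteristic function, for every Lipschitz
function `F` with values in `[0, 1]`, then the law of the pair converges weakly to the product (**`joint_weak`**).
-/

set_option autoImplicit false

noncomputable section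

open MeasureTheory ProbabilityTheory Filter Topology
open scoped ENNReal NNReal BoundedContinuousFunction

namespace PW

/-! ### 1. Weak convergence of pairs from products of test functions -/

section Pair

variable {E T : Type*} [MetricSpace E] [CompleteSpace E] [SecondCountableTopology E] [MeasurableSpace E] [BorelSpace E]
  [MetricSpace T] [CompleteSpace T] [SecondCountableTopology T] [MeasurableSpace T] [BorelSpace T]

/-- a convergent sequence of laws is tight -/
theorem tight_of_tendsto {Q : ℕ → ProbabilityMeasure E} {μ : ProbabilityMeasure E} (h : Tendsto Q atTop (𝓝 μ)) :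
    IsTightMeasureSet {x | ∃ ρ ∈ Set.range Q, ((ρ : ProbabilityMeasure E) : Measure E) = x} := by
  refine isTightMeasureSet_of_isCompact_closure ?_
  refine h.isCompact_insert_range.of_isClosed_subset isClosed_closure ?_
  exact closure_minimal (Set.subset_insert _ _) h.isCompact_insert_range.isClosed

/-- **weak convergence of pairs** -/
theorem tendsto_pair {Q : ℕ → ProbabilityMeasure (E × T)} {μ : ProbabilityMeasure E} {ν : ProbabilityMeasure T}
    (h : ∀ (F : E →ᵇ ℝ) (g : T →ᵇ ℝ), Tendsto (fun n => ∫ p, F p.1 * g p.2 ∂(Q n : Measure (E × T))) atTop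
      (𝓝 ((∫ x, F x ∂(μ : Measure E)) * ∫ y, g y ∂(ν : Measure T)))) :
    Tendsto Q atTop (𝓝 (μ.prod ν)) := by
  have h1 : Tendsto (fun n => (Q n).map measurable_fst.aemeasurable) atTop (𝓝 μ) := by
    rw [ProbabilityMeasure.tendsto_iff_forall_integral_tendsto]
    intro F
    have := h F (BoundedContinuousFunction.const T 1)
    simp only [BoundedContinuousFunction.const_apply, mul_one, integral_const, probReal_univ, smul_eq_mul] at this
    refine this.congr fun n => ?_
    rw [ProbabilityMeasure.toMeasure_map, integral_map measurable_fst.aemeasurable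
      F.continuous.stronglyMeasurable.aestronglyMeasurable]
  have h2 : Tendsto (fun n => (Q n).map measurable_snd.aemeasurable) atTop (𝓝 ν) := by
    rw [ProbabilityMeasure.tendsto_iff_forall_integral_tendsto]
    intro g
    have := h (BoundedContinuousFunction.const E 1) g
    simp only [BoundedContinuousFunction.const_apply, one_mul, integral_const, probReal_univ, smul_eq_mul, mul_one] at this
    refine this.congr fun n => ?_
    rw [ProbabilityMeasure.toMeasure_map, integral_map measurable_snd.aemeasurable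
      g.continuous.stronglyMeasurable.aestronglyMeasurable]
  have h3 : IsTightMeasureSet {x | ∃ ρ ∈ Set.range Q, ((ρ : ProbabilityMeasure (E × T)) : Measure (E × T)) = x} := by
    refine IsTightMeasureSet.prodMk ?_ ?_
    · refine (tight_of_tendsto h1).subset ?_
      rintro _ ⟨_, ⟨_, ⟨n, rfl⟩, rfl⟩, rfl⟩
      exact ⟨_, ⟨n, rfl⟩, rfl⟩
    · refine (tight_of_tendsto h2).subset ?_
      rintro _ ⟨_, ⟨_, ⟨n, rfl⟩, rfl⟩, rfl⟩
      exact ⟨_, ⟨n, rfl⟩, rfl⟩
  refine (isCompact_closure_of_isTightMeasureSet h3).tendsto_nhds_of_unique_mapClusterPt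
    (Eventually.of_forall fun n => subset_closure ⟨n, rfl⟩) fun ξ _ hξ => ?_
  apply ProbabilityMeasure.toMeasure_injective
  rw [ProbabilityMeasure.toMeasure_prod]
  refine Measure.ext_of_integral_mul_boundedContinuousFunction fun F g => ?_
  rw [integral_prod_mul (f := fun x => F x) (g := fun y => g y)]
  -- the integral is continuous
  obtain ⟨H, hH⟩ : ∃ H : (E × T) →ᵇ ℝ, ∀ p, H p = F p.1 * g p.2 := by
    refine ⟨(F.compContinuous ⟨Prod.fst, continuous_fst⟩) * (g.compContinuous ⟨Prod.snd, continuous_snd⟩), fun p => rfl⟩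
  have hc : Tendsto (fun ρ : ProbabilityMeasure (E × T) => ∫ p, H p ∂(ρ : Measure (E × T))) (𝓝 ξ)
      (𝓝 (∫ p, H p ∂(ξ : Measure (E × T)))) :=
    (ProbabilityMeasure.tendsto_iff_forall_integral_tendsto.1 tendsto_id) H
  have h4 : MapClusterPt (∫ p, H p ∂(ξ : Measure (E × T))) atTop
      (fun n => ∫ p, H p ∂(Q n : Measure (E × T))) := hξ.continuousAt_comp (f := fun ρ : ProbabilityMeasure (E × T) =>
        ∫ p, H p ∂(ρ : Measure (E × T))) hc
  have h5 := h F g
  simp only [← hH] at h5 ⊢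
  have h6 : ClusterPt (∫ p, H p ∂(ξ : Measure (E × T))) (𝓝 ((∫ x, F x ∂(μ : Measure E)) * ∫ y, g y ∂(ν : Measure T))) :=
    ClusterPt.mono h4 h5
  exact eq_of_nhds_neBot h6

end Pair

/-! ### 2. Laws with weights on finite sets -/

/-- the law of `X` when `a` in the finite set `S` has the probability `w a / ∑ w` -/
def wlaw {α E : Type*} [MeasurableSpace E] (S : Finset α) (w : α → ℝ) (X : α → E) : Measure E :=
  ∑ a ∈ S, ENNReal.ofReal (w a / ∑ b ∈ S, w b) • Measure.dirac (X a)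

section

variable {α E : Type*} [MeasurableSpace E] {S : Finset α} {w : α → ℝ} {X : α → E}

theorem wlaw_prob (hw : ∀ a ∈ S, 0 ≤ w a) (hs : 0 < ∑ b ∈ S, w b) : IsProbabilityMeasure (wlaw S w X) := by
  constructor
  unfold wlaw
  rw [Measure.finsetSum_apply]
  simp only [Measure.smul_apply, measure_univ, smul_eq_mul, mul_one]
  rw [← ENNReal.ofReal_sum_of_nonneg fun a ha => div_nonneg (hw a ha) hs.le, ← Finset.sum_div, div_self hs.ne',
    ENNReal.ofReal_one]

theorem wlaw_int {F : Type*} [NormedAddCommGroup F] [NormedSpace ℝ F] [CompleteSpace F] {f : E → F}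
    (hf : StronglyMeasurable f) (hw : ∀ a ∈ S, 0 ≤ w a) (hs : 0 < ∑ b ∈ S, w b) :
    ∫ x, f x ∂(wlaw S w X) = (∑ b ∈ S, w b)⁻¹ • ∑ a ∈ S, w a • f (X a) := by
  unfold wlaw
  rw [integral_finsetSum_measure]
  · rw [Finset.smul_sum]
    refine Finset.sum_congr rfl fun a ha => ?_
    rw [integral_smul_measure, integral_dirac' _ _ hf, ENNReal.toReal_ofReal (div_nonneg (hw a ha) hs.le), smul_smul,
      div_eq_inv_mul]
  · intro a _
    exact Integrable.smul_measure (integrable_dirac' hf (by simp)) ENNReal.ofReal_ne_top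

end

section

variable {ι : Type*} [Fintype ι] {α : ℕ → Type*} {S : ∀ n, Finset (α n)} {W : ∀ n, α n → ℝ} {Y : ∀ n, α n → ι → ℝ}
  {μ : Measure (ι → ℝ)} [IsProbabilityMeasure μ]

/-- **weak convergence, with weights** -/
theorem lim_w (hW : ∀ n, ∀ a ∈ S n, 0 ≤ W n a) (hs : ∀ n, 0 < ∑ a ∈ S n, W n a)
    (h : ∀ t : ι → ℝ, Tendsto (fun n => (∑ a ∈ S n, (W n a : ℂ) * Complex.exp ((∑ j, t j * Y n a j : ℝ) * Complex.I)) /
      ((∑ a ∈ S n, W n a : ℝ) : ℂ)) atTop (𝓝 (∫ x, Complex.exp ((∑ j, t j * x j : ℝ) * Complex.I) ∂μ)))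
    (f : (ι → ℝ) →ᵇ ℝ) :
    Tendsto (fun n => (∑ a ∈ S n, W n a * f (Y n a)) / ∑ a ∈ S n, W n a) atTop (𝓝 (∫ x, f x ∂μ)) := by
  classical
  let e := MeasurableEquiv.toLp 2 (ι → ℝ)
  have he : ∀ x : ι → ℝ, e x = WithLp.toLp 2 x := fun _ => rfl
  have hμ : IsProbabilityMeasure (μ.map e) := Measure.isProbabilityMeasure_map e.measurable.aemeasurable
  let Q : ℕ → ProbabilityMeasure (EuclideanSpace ℝ ι) := fun n =>
    ⟨wlaw (S n) (W n) (fun w => e (Y n w)), wlaw_prob (hW n) (hs n)⟩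
  let Q0 : ProbabilityMeasure (EuclideanSpace ℝ ι) := ⟨μ.map e, hμ⟩
  have key : Tendsto Q atTop (𝓝 Q0) := by
    refine ProbabilityMeasure.tendsto_of_tendsto_charFun fun t => ?_
    have e1 : charFun (Q0 : Measure (EuclideanSpace ℝ ι)) t =
        ∫ x, Complex.exp ((∑ j, t j * x j : ℝ) * Complex.I) ∂μ := by
      rw [charFun_apply]
      show ∫ x, _ ∂(μ.map e) = _
      rw [integral_map_equiv]
      refine integral_congr_ae (Eventually.of_forall fun x => ?_)
      simp only [he]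
      congr 3
    rw [e1]
    refine (h t).congr fun n => ?_
    have e2 : (Q n : Measure (EuclideanSpace ℝ ι)) = wlaw (S n) (W n) (fun w => e (Y n w)) := rfl
    rw [e2, charFun_apply, wlaw_int _ (hW n) (hs n)]
    · rw [Complex.real_smul, div_eq_inv_mul]
      push_cast
      congr 1
      refine Finset.sum_congr rfl fun w _ => ?_
      rw [Complex.real_smul]
      congr 3
      rw [he, PiLp.inner_apply]
      push_cast
      refine Finset.sum_congr rfl fun j _ => ?_
      simp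
    · exact (by fun_prop : Continuous fun x : EuclideanSpace ℝ ι =>
        Complex.exp ((inner ℝ x t : ℝ) * Complex.I)).stronglyMeasurable
  have e3 := (ProbabilityMeasure.tendsto_iff_forall_integral_tendsto.1 key)
    (f.compContinuous ⟨fun x : EuclideanSpace ℝ ι => WithLp.ofLp x, by fun_prop⟩)
  have e4 : ∫ x, (f.compContinuous ⟨fun x : EuclideanSpace ℝ ι => WithLp.ofLp x, by fun_prop⟩) x
      ∂(Q0 : Measure (EuclideanSpace ℝ ι)) = ∫ x, f x ∂μ := by
    show ∫ x, _ ∂(μ.map e) = _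
    rw [integral_map_equiv]
    rfl
  rw [e4] at e3
  refine e3.congr fun n => ?_
  have e2 : (Q n : Measure (EuclideanSpace ℝ ι)) = wlaw (S n) (W n) (fun w => e (Y n w)) := rfl
  rw [e2, wlaw_int _ (hW n) (hs n)]
  · rw [smul_eq_mul, div_eq_inv_mul]
    rfl
  · exact (BoundedContinuousFunction.continuous _).stronglyMeasurable

end

/-- a measure as a probability measure -/
def toPM {E : Type*} [MeasurableSpace E] (ρ : Measure E) (h : IsProbabilityMeasure ρ) : ProbabilityMeasure E := ⟨ρ, h⟩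

/-! ### 3. The mean over a finite set -/

/-- the mean -/
def av {α : Type*} (S : Finset α) (f : α → ℝ) : ℝ := (∑ a ∈ S, f a) / S.card

section

variable {α : Type*} {S : Finset α}

lemma av_add (f g : α → ℝ) : av S (fun a => f a + g a) = av S f + av S g := by
  unfold av
  rw [Finset.sum_add_distrib, add_div]

lemma av_mul (c : ℝ) (f : α → ℝ) : av S (fun a => c * f a) = c * av S f := by
  unfold av
  rw [← Finset.mul_sum, mul_div_assoc]

lemma av_const (hS : S.Nonempty) (c : ℝ) : av S (fun _ => c) = c := by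
  unfold av
  have h0 : (S.card : ℝ) ≠ 0 := by exact_mod_cast hS.card_pos.ne'
  rw [Finset.sum_const, nsmul_eq_mul]
  field_simp

lemma av_mono {f g : α → ℝ} (h : ∀ a ∈ S, f a ≤ g a) : av S f ≤ av S g := by
  unfold av
  exact div_le_div_of_nonneg_right (Finset.sum_le_sum h) (Nat.cast_nonneg _)

end

section

variable {ι : Type*} [Fintype ι] {α : ℕ → Type*} {S : ∀ n, Finset (α n)} {E : Type*} [MetricSpace E]
  {X : ∀ n, α n → E} {Y : ∀ n, α n → ι → ℝ} {μ : Measure (ι → ℝ)} [IsProbabilityMeasure μ]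

/-- **hypothesis**: the characteristic function of `Y`, with Lipschitz functions of `X` -/
def CharL (S : ∀ n, Finset (α n)) (X : ∀ n, α n → E) (Y : ∀ n, α n → ι → ℝ) (μ : Measure (ι → ℝ)) : Prop :=
  ∀ F : E → ℝ, (∃ K, LipschitzWith K F) → (∀ x, 0 ≤ F x ∧ F x ≤ 1) → ∀ t : ι → ℝ,
    Tendsto (fun n => (∑ a ∈ S n, (F (X n a) : ℂ) * Complex.exp ((∑ j, t j * Y n a j : ℝ) * Complex.I)) / ((S n).card : ℂ) -
      (∑ a ∈ S n, (F (X n a) : ℂ)) / ((S n).card : ℂ) * ∫ x, Complex.exp ((∑ j, t j * x j : ℝ) * Complex.I) ∂μ) atTop (𝓝 0)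

/-- functions with values in `[1/2, 1]` -/
theorem av_half (hS : ∀ n, (S n).Nonempty) (h : CharL S X Y μ) {F : E → ℝ} (hF : ∃ K, LipschitzWith K F)
    (hF1 : ∀ x, 1 / 2 ≤ F x ∧ F x ≤ 1) (g : (ι → ℝ) →ᵇ ℝ) :
    Tendsto (fun n => av (S n) (fun a => F (X n a) * g (Y n a)) - av (S n) (fun a => F (X n a)) * ∫ x, g x ∂μ) atTop (𝓝 0) := by
  have hc : ∀ n, (0 : ℝ) < (S n).card := fun n => by exact_mod_cast (hS n).card_pos
  have hlow : ∀ n, (S n).card * (1 / 2 : ℝ) ≤ ∑ a ∈ S n, F (X n a) := by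
    intro n
    rw [← nsmul_eq_mul, ← Finset.sum_const]
    exact Finset.sum_le_sum fun a _ => (hF1 _).1
  have hup : ∀ n, ∑ a ∈ S n, F (X n a) ≤ (S n).card := by
    intro n
    calc ∑ a ∈ S n, F (X n a) ≤ ∑ _a ∈ S n, (1 : ℝ) := Finset.sum_le_sum fun a _ => (hF1 _).2
      _ = (S n).card := by simp
  have hs : ∀ n, 0 < ∑ a ∈ S n, F (X n a) := fun n => lt_of_lt_of_le (by have := hc n; positivity) (hlow n)
  have h1 := h F hF fun x => ⟨by linarith [(hF1 x).1], (hF1 x).2⟩
  have h2 := lim_w (S := S) (W := fun n a => F (X n a)) (Y := Y) (μ := μ) (fun n a _ => by linarith [(hF1 (X n a)).1]) hs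
    (fun t => by
      have h3 := h1 t
      rw [Metric.tendsto_atTop] at h3 ⊢
      intro ε hε
      obtain ⟨N, hN⟩ := h3 (ε / 2) (by positivity)
      refine ⟨N, fun n hn => ?_⟩
      have h4 := hN n hn
      rw [dist_eq_norm, sub_zero] at h4
      rw [dist_eq_norm]
      obtain ⟨s, hs'⟩ : ∃ s : ℝ, s = ∑ a ∈ S n, F (X n a) := ⟨_, rfl⟩
      have hs0 : 0 < s := hs' ▸ hs n
      have hlow' : (S n).card * (1 / 2 : ℝ) ≤ s := hs' ▸ hlow n
      obtain ⟨c, hcd⟩ : ∃ c : ℝ, c = ((S n).card : ℝ) := ⟨_, rfl⟩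
      have hc0 : 0 < c := hcd ▸ hc n
      have e0 : (((S n).card : ℕ) : ℂ) = (c : ℂ) := by
        rw [hcd]
        push_cast
        rfl
      have e1 : (∑ a ∈ S n, (F (X n a) : ℂ)) = (s : ℂ) := by
        rw [hs']
        push_cast
        rfl
      rw [e0, e1] at h4
      rw [← hs']
      rw [← hcd] at hlow'
      obtain ⟨z, hz⟩ : ∃ z : ℂ, z = ∑ a ∈ S n, (F (X n a) : ℂ) * Complex.exp ((∑ j, t j * Y n a j : ℝ) * Complex.I) := ⟨_, rfl⟩
      obtain ⟨I, hI⟩ : ∃ I : ℂ, I = ∫ x, Complex.exp ((∑ j, t j * x j : ℝ) * Complex.I) ∂μ := ⟨_, rfl⟩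
      rw [← hz, ← hI] at h4
      rw [← hz, ← hI]
      have hsc : (s : ℂ) ≠ 0 := by exact_mod_cast hs0.ne'
      have hcc : (c : ℂ) ≠ 0 := by exact_mod_cast hc0.ne'
      have e2 : z / (s : ℂ) - I = ((c / s : ℝ) : ℂ) * (z / (c : ℂ) - (s : ℂ) / (c : ℂ) * I) := by
        push_cast
        field_simp
      rw [e2, norm_mul, Complex.norm_of_nonneg (by positivity)]
      have h5 : c / s ≤ 2 := by
        rw [div_le_iff₀ hs0]
        linarith
      calc c / s * ‖z / (c : ℂ) - (s : ℂ) / (c : ℂ) * I‖ ≤ 2 * ‖z / (c : ℂ) - (s : ℂ) / (c : ℂ) * I‖ :=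
            mul_le_mul_of_nonneg_right h5 (norm_nonneg _)
        _ < 2 * (ε / 2) := by linarith
        _ = ε := by ring) g
  rw [Metric.tendsto_atTop] at h2 ⊢
  intro ε hε
  obtain ⟨N, hN⟩ := h2 ε hε
  refine ⟨N, fun n hn => ?_⟩
  have h3 := hN n hn
  rw [Real.dist_eq] at h3
  rw [Real.dist_eq, sub_zero]
  have hs0 := hs n
  have hc0 := hc n
  have e3 : av (S n) (fun a => F (X n a) * g (Y n a)) - av (S n) (fun a => F (X n a)) * ∫ x, g x ∂μ =
      (∑ a ∈ S n, F (X n a)) / (S n).card * ((∑ a ∈ S n, F (X n a) * g (Y n a)) / (∑ a ∈ S n, F (X n a)) - ∫ x, g x ∂μ) := by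
    unfold av
    field_simp
  rw [e3, abs_mul, abs_of_pos (by positivity)]
  have h4 : (∑ a ∈ S n, F (X n a)) / (S n).card ≤ 1 := by
    rw [div_le_one hc0]
    exact hup n
  calc _ ≤ 1 * |(∑ a ∈ S n, F (X n a) * g (Y n a)) / (∑ a ∈ S n, F (X n a)) - ∫ x, g x ∂μ| :=
        mul_le_mul_of_nonneg_right h4 (abs_nonneg _)
    _ < ε := by rwa [one_mul]

end

section

variable {ι : Type*} [Fintype ι] {α : ℕ → Type*} {S : ∀ n, Finset (α n)} {E : Type*} [MetricSpace E]
  {X : ∀ n, α n → E} {Y : ∀ n, α n → ι → ℝ} {μ : Measure (ι → ℝ)} [IsProbabilityMeasure μ]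

/-- the mean of `g Y` -/
theorem av_one (hS : ∀ n, (S n).Nonempty) (h : CharL S X Y μ) (g : (ι → ℝ) →ᵇ ℝ) :
    Tendsto (fun n => av (S n) (fun a => g (Y n a))) atTop (𝓝 (∫ x, g x ∂μ)) := by
  have h1 := av_half hS h (F := fun _ => 1) ⟨0, LipschitzWith.const 1⟩ (fun _ => by norm_num) g
  simp only [one_mul] at h1
  have h2 := h1.add_const (∫ x, g x ∂μ)
  rw [zero_add] at h2
  refine h2.congr fun n => ?_
  rw [av_const (hS n), one_mul, sub_add_cancel]

/-- **bounded Lipschitz functions of `X`** -/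
theorem av_lip (hS : ∀ n, (S n).Nonempty) (h : CharL S X Y μ) {F : E → ℝ} (hF : ∃ K, LipschitzWith K F) {C : ℝ}
    (hC : ∀ x, |F x| ≤ C) (g : (ι → ℝ) →ᵇ ℝ) :
    Tendsto (fun n => av (S n) (fun a => F (X n a) * g (Y n a)) - av (S n) (fun a => F (X n a)) * ∫ x, g x ∂μ) atTop (𝓝 0) := by
  obtain ⟨K, hK⟩ := hF
  obtain ⟨D, hD⟩ : ∃ D : ℝ, D = max C 0 + 1 := ⟨_, rfl⟩
  have hD0 : 0 < D := by
    rw [hD]
    linarith [le_max_right C 0]
  have hFD : ∀ x, |F x| ≤ D := fun x => (hC x).trans (by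
    rw [hD]
    linarith [le_max_left C 0])
  have hF1 : ∃ K', LipschitzWith K' fun x => (3 + F x / D) / 4 := by
    refine ⟨⟨K / D / 4, by positivity⟩, LipschitzWith.of_dist_le_mul fun x y => ?_⟩
    have h1 := hK.dist_le_mul x y
    rw [Real.dist_eq] at h1 ⊢
    have e : (3 + F x / D) / 4 - (3 + F y / D) / 4 = (F x - F y) / (D * 4) := by
      field_simp
      ring
    rw [e, abs_div, abs_of_pos (by positivity : 0 < D * 4), div_le_iff₀ (by positivity)]
    calc |F x - F y| ≤ K * dist x y := h1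
      _ = (K / D / 4 : ℝ) * dist x y * (D * 4) := by field_simp
  have h2 := av_half hS h hF1 (fun x => by
    have h3 := abs_le.1 (hFD x)
    have h4 : -1 ≤ F x / D := by
      rw [le_div_iff₀ hD0]
      linarith [h3.1]
    have h5 : F x / D ≤ 1 := by
      rw [div_le_one hD0]
      exact h3.2
    constructor <;> linarith) g
  have h3 := (av_one hS h g).sub_const (∫ x, g x ∂μ)
  rw [sub_self] at h3
  have h4 := ((h2.const_mul 4).sub (h3.const_mul 3)).const_mul D
  rw [mul_zero, mul_zero, sub_zero, mul_zero] at h4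
  refine h4.congr fun n => ?_
  have e1 : av (S n) (fun a => (3 + F (X n a) / D) / 4 * g (Y n a)) =
      3 / 4 * av (S n) (fun a => g (Y n a)) + 1 / (4 * D) * av (S n) (fun a => F (X n a) * g (Y n a)) := by
    rw [← av_mul, ← av_mul, ← av_add]
    congr 1
    funext a
    field_simp
  have e2 : av (S n) (fun a => (3 + F (X n a) / D) / 4) = 3 / 4 + 1 / (4 * D) * av (S n) (fun a => F (X n a)) := by
    have e : (fun a => (3 + F (X n a) / D) / 4) = fun a => 3 / 4 + 1 / (4 * D) * F (X n a) := by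
      funext a
      field_simp
    rw [e, av_add, av_const (hS n), av_mul]
  rw [e1, e2]
  field_simp
  ring

variable [MeasurableSpace E] [BorelSpace E] {ν : Measure E} [IsProbabilityMeasure ν]

/-- bounded continuous functions of `X`, `g` with values in `[1/2, 1]` -/
theorem av_bdd_half (hS : ∀ n, (S n).Nonempty)
    (hX : ∀ F : E →ᵇ ℝ, Tendsto (fun n => av (S n) (fun a => F (X n a))) atTop (𝓝 (∫ x, F x ∂ν)))
    (h : CharL S X Y μ) (F : E →ᵇ ℝ) (g : (ι → ℝ) →ᵇ ℝ) (hg : ∀ y, 1 / 2 ≤ g y ∧ g y ≤ 1) :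
    Tendsto (fun n => av (S n) (fun a => F (X n a) * g (Y n a))) atTop (𝓝 ((∫ x, F x ∂ν) * ∫ y, g y ∂μ)) := by
  have hc : ∀ n, (0 : ℝ) < (S n).card := fun n => by exact_mod_cast (hS n).card_pos
  have hlow : ∀ n, (S n).card * (1 / 2 : ℝ) ≤ ∑ a ∈ S n, g (Y n a) := by
    intro n
    rw [← nsmul_eq_mul, ← Finset.sum_const]
    exact Finset.sum_le_sum fun a _ => (hg _).1
  have hs : ∀ n, 0 < ∑ a ∈ S n, g (Y n a) := fun n => lt_of_lt_of_le (by have := hc n; positivity) (hlow n)
  have hw : ∀ n, ∀ a ∈ S n, 0 ≤ g (Y n a) := fun n a _ => by linarith [(hg (Y n a)).1]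
  have hI : 1 / 2 ≤ ∫ y, g y ∂μ := by
    have h1 : ∫ _y : ι → ℝ, (1 / 2 : ℝ) ∂μ ≤ ∫ y, g y ∂μ :=
      integral_mono (integrable_const _) (g.integrable μ) fun y => (hg y).1
    simpa using h1
  have key : Tendsto (fun n => toPM (wlaw (S n) (fun a => g (Y n a)) (X n)) (wlaw_prob (hw n) (hs n)))
      atTop (𝓝 (toPM ν inferInstance)) := by
    rw [tendsto_iff_forall_lipschitz_integral_tendsto]
    rintro f ⟨C, hC⟩ ⟨L, hL⟩
    have hne : Nonempty E := ⟨X 0 (hS 0).choose⟩
    obtain ⟨x0⟩ := hne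
    have hb : ∀ x, |f x| ≤ C + |f x0| := by
      intro x
      have h1 := hC x x0
      rw [Real.dist_eq] at h1
      have h2 : |f x| ≤ |f x - f x0| + |f x0| := by
        have := abs_add_le (f x - f x0) (f x0)
        rwa [sub_add_cancel] at this
      linarith
    have h1 := av_lip hS h ⟨L, hL⟩ hb g
    obtain ⟨fb, hfb⟩ : ∃ fb : E →ᵇ ℝ, ∀ x, fb x = f x := ⟨⟨⟨f, hL.continuous⟩, C, hC⟩, fun _ => rfl⟩
    have h2 := hX fb
    simp only [hfb] at h2
    have h3 := av_one hS h g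
    have h4 : Tendsto (fun n => av (S n) (fun a => f (X n a) * g (Y n a))) atTop (𝓝 ((∫ x, f x ∂ν) * ∫ y, g y ∂μ)) := by
      have h5 := h1.add (h2.mul_const (∫ y, g y ∂μ))
      rw [zero_add] at h5
      exact h5.congr fun n => by ring
    have h5 := h4.div h3 (by linarith)
    rw [mul_div_cancel_right₀ _ (by linarith)] at h5
    refine h5.congr fun n => ?_
    show _ = ∫ x, f x ∂(wlaw (S n) (fun a => g (Y n a)) (X n))
    rw [wlaw_int hL.continuous.stronglyMeasurable (hw n) (hs n)]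
    have e : (∑ a ∈ S n, g (Y n a) • f (X n a)) = ∑ a ∈ S n, f (X n a) * g (Y n a) :=
      Finset.sum_congr rfl fun a _ => by rw [smul_eq_mul, mul_comm]
    rw [e, smul_eq_mul, inv_mul_eq_div]
    show (∑ a ∈ S n, f (X n a) * g (Y n a)) / ((S n).card : ℝ) / ((∑ a ∈ S n, g (Y n a)) / ((S n).card : ℝ)) = _
    rw [div_div_div_cancel_right₀ (hc n).ne']
  have h1 := (ProbabilityMeasure.tendsto_iff_forall_integral_tendsto.1 key) F
  have h2 := h1.mul (av_one hS h g)
  refine h2.congr fun n => ?_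
  show (∫ x, F x ∂(wlaw (S n) (fun a => g (Y n a)) (X n))) * _ = _
  rw [wlaw_int F.continuous.stronglyMeasurable (hw n) (hs n)]
  unfold av
  have h3 := hs n
  rw [smul_eq_mul, ← mul_div_assoc]
  congr 1
  rw [mul_comm, ← mul_assoc, mul_inv_cancel₀ h3.ne', one_mul]
  refine Finset.sum_congr rfl fun a _ => ?_
  rw [smul_eq_mul, mul_comm]

/-- **bounded continuous functions of `X`** -/
theorem av_bdd (hS : ∀ n, (S n).Nonempty)
    (hX : ∀ F : E →ᵇ ℝ, Tendsto (fun n => av (S n) (fun a => F (X n a))) atTop (𝓝 (∫ x, F x ∂ν)))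
    (h : CharL S X Y μ) (F : E →ᵇ ℝ) (g : (ι → ℝ) →ᵇ ℝ) :
    Tendsto (fun n => av (S n) (fun a => F (X n a) * g (Y n a))) atTop (𝓝 ((∫ x, F x ∂ν) * ∫ y, g y ∂μ)) := by
  obtain ⟨D, hD⟩ : ∃ D : ℝ, D = ‖g‖ + 1 := ⟨_, rfl⟩
  have hD0 : 0 < D := by
    rw [hD]
    have := norm_nonneg g
    linarith
  obtain ⟨g1, hg1⟩ : ∃ g1 : (ι → ℝ) →ᵇ ℝ, ∀ y, g1 y = (3 + g y / D) / 4 := by
    refine ⟨(BoundedContinuousFunction.const _ (3 / 4 : ℝ)) + (1 / (4 * D)) • g, fun y => ?_⟩
    show 3 / 4 + 1 / (4 * D) * g y = _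
    field_simp
  have h2 := av_bdd_half hS hX h F g1 (fun y => by
    have h3 := abs_le.1 ((g.norm_coe_le_norm y).trans (by rw [hD]; linarith : ‖g‖ ≤ D))
    have h4 : -1 ≤ g y / D := by
      rw [le_div_iff₀ hD0]
      linarith [h3.1]
    have h5 : g y / D ≤ 1 := by
      rw [div_le_one hD0]
      exact h3.2
    rw [hg1]
    constructor <;> linarith)
  have h3 := ((h2.const_mul 4).sub ((hX F).const_mul 3)).const_mul D
  have e0 : ∫ y, g1 y ∂μ = 3 / 4 + 1 / (4 * D) * ∫ y, g y ∂μ := by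
    simp only [hg1]
    have e : (fun y => (3 + g y / D) / 4) = fun y => 3 / 4 + 1 / (4 * D) * g y := by
      funext y
      field_simp
    rw [e, integral_add (integrable_const _) ((g.integrable μ).const_mul _), integral_const, integral_const_mul,
      probReal_univ, one_smul]
  have e1 : D * (4 * ((∫ x, F x ∂ν) * ∫ y, g1 y ∂μ) - 3 * ∫ x, F x ∂ν) = (∫ x, F x ∂ν) * ∫ y, g y ∂μ := by
    rw [e0]
    field_simp
    ring
  rw [e1] at h3
  refine h3.congr fun n => ?_
  have e2 : av (S n) (fun a => F (X n a) * g1 (Y n a)) =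
      3 / 4 * av (S n) (fun a => F (X n a)) + 1 / (4 * D) * av (S n) (fun a => F (X n a) * g (Y n a)) := by
    rw [← av_mul, ← av_mul, ← av_add]
    congr 1
    funext a
    rw [hg1]
    field_simp
  rw [e2]
  field_simp
  ring

end

/-- **joint weak convergence**: the law of the pair converges to the product -/
theorem joint_weak {ι : Type*} [Fintype ι] {α : ℕ → Type*} {S : ∀ n, Finset (α n)} {E : Type*} [MetricSpace E]
    [CompleteSpace E] [SecondCountableTopology E] [MeasurableSpace E] [BorelSpace E] {X : ∀ n, α n → E}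
    {Y : ∀ n, α n → ι → ℝ} {μ : Measure (ι → ℝ)} [IsProbabilityMeasure μ] {ν : Measure E} [IsProbabilityMeasure ν]
    (hS : ∀ n, (S n).Nonempty)
    (hX : ∀ F : E →ᵇ ℝ, Tendsto (fun n => av (S n) (fun a => F (X n a))) atTop (𝓝 (∫ x, F x ∂ν)))
    (h : CharL S X Y μ) (f : (E × (ι → ℝ)) →ᵇ ℝ) :
    Tendsto (fun n => av (S n) (fun a => f (X n a, Y n a))) atTop (𝓝 (∫ p, f p ∂(ν.prod μ))) := by
  have hc : ∀ n, (0 : ℝ) < (S n).card := fun n => by exact_mod_cast (hS n).card_pos
  have hw : ∀ n, ∀ a ∈ S n, (0 : ℝ) ≤ (fun _ => 1) a := fun n a _ => zero_le_one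
  have hs : ∀ n, 0 < ∑ _a ∈ S n, (1 : ℝ) := fun n => by simpa using hc n
  have e1 : ∀ (n : ℕ) (f : E × (ι → ℝ) → ℝ), Continuous f →
      ∫ p, f p ∂(wlaw (S n) (fun _ => 1) (fun a => (X n a, Y n a))) = av (S n) (fun a => f (X n a, Y n a)) := by
    intro n f hf
    rw [wlaw_int hf.stronglyMeasurable (hw n) (hs n)]
    unfold av
    simp only [Finset.sum_const, nsmul_eq_mul, mul_one, smul_eq_mul, one_mul]
    rw [inv_mul_eq_div]
  have key : Tendsto (fun n => toPM (wlaw (S n) (fun _ => 1) (fun a => (X n a, Y n a))) (wlaw_prob (hw n) (hs n))) atTop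
      (𝓝 ((toPM ν inferInstance).prod (toPM μ inferInstance))) := by
    refine tendsto_pair fun F g => ?_
    refine (av_bdd hS hX h F g).congr fun n => ?_
    exact (e1 n (fun p => F p.1 * g p.2) (by fun_prop)).symm
  have h1 := (ProbabilityMeasure.tendsto_iff_forall_integral_tendsto.1 key) f
  refine h1.congr fun n => ?_
  exact e1 n f f.continuous

end PW

end
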