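import Pool.Agent.PW.CurveP
import Pool.Agent.PW.FinX
import Pool.Agent.PW.JointA

/-!
# PW, the joint law of the winding and the curve (helper90)

* **`JF_words`** : the joint characteristic function with a function of the curve, in words;
* **`joint_of`** : from the characteristic functions to the public statement.
-/

set_option autoImplicit false

noncomputable section

open MeasureTheory ProbabilityTheory Filter Topology
open scoped ENNReal NNReal BoundedContinuousFunction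

namespace NTSF

namespace Cg

open Finset

open HexObs hiding pos curve

open HexObs.SDN HexObs.TS HexObs.TIW HexObs.PWd

open Pool.Agent.NTS.Res Pool.Agent.PW.Res

open NTF (JJ)

open Mg

/-! ### 1. The rotations -/

lemma rot3 {n : ℕ} (s : Fin n → Fin 3) : rot (rot (rot s)) = s := by
  funext i
  show s i + 1 + 1 + 1 = s i
  have : ∀ a : Fin 3, a + 1 + 1 + 1 = a := by decide
  exact this _

/-- the rotation does not change the sums over the walks -/
lemma sum_rot1 {n : ℕ} {M : Type*} [AddCommMonoid M] (g : (Fin n → Fin 3) → M) :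
    ∑ s ∈ saw n, g (rot s) = ∑ s ∈ saw n, g s := by
  refine sum_bij (fun s _ => rot s) (fun s hs => rot_mem.2 hs) ?_ ?_ (fun s _ => rfl)
  · intro s _ s' _ h
    have h2 := congrArg (fun x => rot (rot x)) h
    simp only [rot3] at h2
    exact h2
  · intro s hs
    exact ⟨rot (rot s), rot_mem.2 (rot_mem.2 hs), rot3 s⟩

/-! ### 2. The scaling -/

/-- a function of the curves in the scaling by `n ^ (3/4)` -/
def fsc (f : C(unitInterval, ℂ) → ℝ) (n : ℕ) (γ : C(unitInterval, ℂ)) : ℝ := f ((sg n)⁻¹ • γ)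

lemma fsc_abs {f : C(unitInterval, ℂ) → ℝ} {C : ℝ} (hf : ∀ x, |f x| ≤ C) (n : ℕ) (x : C(unitInterval, ℂ)) :
    |fsc f n x| ≤ C := hf _

/-- uniformly Lipschitz -/
lemma fsc_lip : ∃ C : ℝ≥0, ∀ (f : C(unitInterval, ℂ) → ℝ) (K : ℝ≥0), LipschitzWith K f → ∀ n, LipschitzWith (K * C) (fsc f n) := by
  obtain ⟨c, C, hc, hsz, -⟩ := NTSF.finE
  refine ⟨Real.toNNReal (1 / c), fun f K hf n => LipschitzWith.of_dist_le_mul fun x y => ?_⟩
  have h1 := hf.dist_le_mul ((sg n)⁻¹ • x) ((sg n)⁻¹ • y)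
  refine h1.trans ?_
  have h2 : ‖(sg n)⁻¹‖ ≤ 1 / c := by
    rcases Nat.eq_zero_or_pos n with rfl | hn
    · have e : sg 0 = 0 := by
        unfold sg nr
        rw [Nat.cast_zero, Real.zero_rpow (by norm_num), div_zero]
      rw [e, inv_zero, norm_zero]
      positivity
    · have h3 := (hsz n hn).1
      have hp := nr_pos hn
      have h4 : c ≤ sg n := by
        unfold sg
        rw [le_div_iff₀ hp]
        exact h3
      rw [norm_inv, Real.norm_of_nonneg (hc.le.trans h4), ← one_div]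
      exact one_div_le_one_div_of_le hc h4
  have e : dist ((sg n)⁻¹ • x) ((sg n)⁻¹ • y) ≤ ‖(sg n)⁻¹‖ * dist x y := by
    rw [ContinuousMap.dist_le (by positivity)]
    intro u
    rw [dist_eq_norm]
    show ‖((sg n)⁻¹ : ℝ) • x u - ((sg n)⁻¹ : ℝ) • y u‖ ≤ _
    rw [← smul_sub, norm_smul, ← dist_eq_norm]
    exact mul_le_mul_of_nonneg_left (ContinuousMap.dist_apply_le_dist u) (norm_nonneg _)
  rw [NNReal.coe_mul, Real.coe_toNNReal _ (by positivity), mul_assoc]
  refine mul_le_mul_of_nonneg_left (e.trans ?_) K.2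
  exact mul_le_mul_of_nonneg_right h2 dist_nonneg

/-! ### 3. The dictionary -/

/-- the three curves of a word -/
lemma curve_three {n : ℕ} (hn : 1 ≤ n) (t : List Bool) :
    sg n • curve (NTF.sw n t) = pn (cz 1 t) n ∧ sg n • curve (rot (NTF.sw n t)) = pn (cz om t) n ∧
      sg n • curve (rot (rot (NTF.sw n t))) = pn (cz (om * om) t) n := by
  have hp : ∀ k, k ≤ n → pos (NTF.sw n t) k = JJ (vx oo up t k) := fun k hk => pos_sw n t k hk
  refine ⟨curve_word hn fun k hk => ?_, curve_word hn fun k hk => ?_, curve_word hn fun k hk => ?_⟩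
  · rw [hp k hk]
    unfold cz
    rw [one_mul]
  · rw [pos_rot, hp k hk]
    rfl
  · rw [pos_rot, pos_rot, hp k hk, ← mul_assoc]
    rfl

lemma fsc_sg {n : ℕ} (hn : 1 ≤ n) (f : C(unitInterval, ℂ) → ℝ) (γ : C(unitInterval, ℂ)) : fsc f n (sg n • γ) = f γ := by
  have h1 : sg n ≠ 0 := by
    unfold sg
    exact (div_pos (size_pos hn) (nr_pos hn)).ne'
  unfold fsc
  rw [smul_smul, inv_mul_cancel₀ h1, one_smul]

lemma gS_word {n : ℕ} (hn : 1 ≤ n) (f : C(unitInterval, ℂ) → ℝ) {t : List Bool} (ht : t ∈ SawN n) :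
    gS (fsc f n) n t = (f (curve (NTF.sw n t)) + f (curve (rot (NTF.sw n t))) + f (curve (rot (rot (NTF.sw n t))))) / 3 := by
  have hl : n ≤ t.length := ht.1.ge
  obtain ⟨c1, c2, c3⟩ := curve_three hn t
  rw [gS_FT]
  unfold FT
  rw [pT_of_le hl, pT_of_le hl, pT_of_le hl, ← c1, ← c2, ← c3, fsc_sg hn, fsc_sg hn, fsc_sg hn]

/-- the mean over the walks of a function of the curve times a functional that does not change under the rotation -/
theorem mean_gS {n : ℕ} (hn : 1 ≤ n) (f : C(unitInterval, ℂ) → ℝ) (W : (Fin n → Fin 3) → ℂ) (hW : ∀ s, W (rot s) = W s) :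
    (∑ s ∈ saw n, (f (curve s) : ℂ) * W s) / ((saw n).card : ℂ) =
      (∑ t ∈ sawF n, ((gS (fsc f n) n t : ℝ) : ℂ) * W (NTF.sw n t)) / (cS n : ℂ) := by
  have hn' : 0 < n := hn
  have h1 := mean_words hn' (S := sawF n) (fun t => mem_sawF)
    (fun s => ((((f (curve s) + f (curve (rot s)) + f (curve (rot (rot s)))) / 3 : ℝ)) : ℂ) * W s) (fun s => by
      rw [rot3, hW]
      congr 2
      ring)
  have h2 : ∑ s ∈ saw n, ((((f (curve s) + f (curve (rot s)) + f (curve (rot (rot s)))) / 3 : ℝ)) : ℂ) * W s =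
      ∑ s ∈ saw n, (f (curve s) : ℂ) * W s := by
    have a1 := sum_rot1 (n := n) fun s => (f (curve s) : ℂ) * W s
    have a2 := sum_rot1 (n := n) fun s => (f (curve (rot s)) : ℂ) * W (rot s)
    rw [a1] at a2
    simp only [hW] at a1 a2
    calc ∑ s ∈ saw n, ((((f (curve s) + f (curve (rot s)) + f (curve (rot (rot s)))) / 3 : ℝ)) : ℂ) * W s =
        ∑ s ∈ saw n, ((1 / 3 : ℂ) * ((f (curve s) : ℂ) * W s) + (1 / 3 : ℂ) * ((f (curve (rot s)) : ℂ) * W s) +
          (1 / 3 : ℂ) * ((f (curve (rot (rot s))) : ℂ) * W s)) := by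
          refine sum_congr rfl fun s _ => ?_
          push_cast
          ring
      _ = _ := by
          rw [sum_add_distrib, sum_add_distrib, ← mul_sum, ← mul_sum, ← mul_sum, a1, a2]
          ring
  have h3 : ((sawF n).card : ℂ) = (cS n : ℂ) := by
    have := card_sF n
    exact_mod_cast this
  rw [← h2, h1, h3]
  congr 1
  refine sum_congr rfl fun t ht => ?_
  rw [gS_word hn f (mem_sawF.1 ht)]

/-- **the joint characteristic function in words** -/
theorem JF_words {n : ℕ} (hn : 1 ≤ n) (f : C(unitInterval, ℂ) → ℝ) {m : ℕ} (s : Fin m → ℝ) (hs : ∀ j, s j ≤ 1) (u : Fin m → ℝ) :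
    PW.JF (fun _ w => f (curve w)) s n u = (∑ t ∈ sawF n, ((gS (fsc f n) n t : ℝ) : ℂ) *
      Complex.exp ((∑ j, u j * turn (pS t) 1 (tm n (s j)) : ℝ) * Complex.I)) / (cS n : ℂ) := by
  unfold PW.JF
  rw [mean_gS hn f (fun x => Complex.exp ((∑ j, u j * windS x (tm n (s j)) : ℝ) * Complex.I)) fun x => by
    simp only [windS_rot]]
  congr 1
  refine sum_congr rfl fun t _ => ?_
  congr 3
  push_cast
  refine sum_congr rfl fun j _ => ?_
  rw [windS_sw t (PW.tm_le hn (hs j))]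
  rfl

/-! ### 4. The public statement -/

/-- the windings of the first `n ^ s` steps around the starting point, `s ∈ I`, divided by `√(2 log n)` -/
def Thn (I : Finset ℝ≥0) (n : ℕ) (w : Fin n → Fin 3) (s : I) : ℝ := windS w (tm n s) / √(2 * Real.log n)

/-- **what is needed**: the characteristic functions -/
def CharW : Prop := ∀ f : C(unitInterval, ℂ) → ℝ, (∃ K, LipschitzWith K f) → (∀ x, 0 ≤ f x ∧ f x ≤ 1) →
  ∀ (I : Finset ℝ≥0), (∀ s ∈ I, s ≤ 1) → ∀ t : I → ℝ,
    Tendsto (fun n : ℕ => (∑ w ∈ saw n, (f (curve w) : ℂ) *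
        Complex.exp ((∑ s : I, t s * (windS w (tm n s) / √(2 * Real.log n)) : ℝ) * Complex.I)) / ((saw n).card : ℂ) -
      (∑ w ∈ saw n, (f (curve w) : ℂ)) / ((saw n).card : ℂ) *
        ((Real.exp (-((∑ j : I, ∑ k : I, min (j : ℝ) (k : ℝ) * t j * t k) / 2)) : ℝ) : ℂ)) atTop (𝓝 0)

/-- from 16's `char_X` -/
theorem charW_of {Φ : ℕ → ℝ → ℂ} {ψ : ℕ → ℕ → ℝ → ℂ} {K : ℕ → ℕ} (h1 : PW.CylLim Φ (8 / 3)) (h2 : PW.TipCyl Φ ψ)
    (hψ : ∀ C b, Continuous (ψ C b)) (hψ0 : ∀ C b, ψ C b 0 = 1)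
    (hK : Tendsto (fun n : ℕ => Real.log ((2 ^ K n : ℕ) : ℝ) / Real.log n) atTop (𝓝 (3 / 4)))
    (hT : ∀ f : C(unitInterval, ℂ) → ℝ, (∃ K, LipschitzWith K f) → (∀ x, 0 ≤ f x ∧ f x ≤ 1) →
      PW.TipWX (fun _ w => f (curve w)) ψ K) : CharW := fun f hf hf1 I hI t =>
  PW.char_X h1 h2 hψ hψ0 hK (fun _ w => by
    have h3 := hf1 (curve w)
    rw [abs_le]
    constructor <;> linarith [h3.1, h3.2]) (hT f hf hf1) I hI t

lemma av_law (n : ℕ) (f : C(unitInterval, ℂ) → ℝ) : PW.av (saw n) (fun w => f (curve w)) = ∫ γ, f γ ∂(law n) := by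
  rw [integral_law]
  rfl

/-- **along a sequence with a limit law** -/
theorem joint_seq (hT : CharW) {φ : ℕ → ℕ} (hφ : Tendsto φ atTop atTop) {ν : Measure C(unitInterval, ℂ)}
    [IsProbabilityMeasure ν] (hν : LawTo φ ν) (I : Finset ℝ≥0) (hI : ∀ s ∈ I, s ≤ 1)
    (F : (C(unitInterval, ℂ) × (I → ℝ)) →ᵇ ℝ) :
    Tendsto (fun k => (∑ w ∈ saw (φ k), F (curve w, Thn I (φ k) w)) / ((saw (φ k)).card : ℝ)) atTop
      (𝓝 (∫ p, F p ∂(ν.prod (BrownianReal.projectiveFamily I)))) := by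
  refine PW.joint_weak (S := fun k => saw (φ k)) (X := fun k w => curve w) (Y := fun k w => Thn I (φ k) w)
    (μ := BrownianReal.projectiveFamily I) (ν := ν) (fun k => saw_nonempty _) (fun G => ?_) ?_ F
  · refine (hν G).congr fun k => ?_
    exact (av_law (φ k) G).symm
  · intro f hf hf1 t
    rw [PW.char_brown]
    exact (hT f hf hf1 I hI t).comp hφ

/-- the mean over the second variable -/
lemma mean_bcf {I : Finset ℝ≥0} (F : (C(unitInterval, ℂ) × (I → ℝ)) →ᵇ ℝ) :
    ∃ G : C(unitInterval, ℂ) →ᵇ ℝ, ∀ x, G x = ∫ y, F (x, y) ∂(BrownianReal.projectiveFamily I) := by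
  have hb : ∀ x y, ‖F (x, y)‖ ≤ ‖F‖ := fun x y => F.norm_coe_le_norm _
  have hc : Continuous fun x : C(unitInterval, ℂ) => ∫ y, F (x, y) ∂(BrownianReal.projectiveFamily I) := by
    refine continuous_of_dominated (bound := fun _ => ‖F‖) (fun x => ?_) (fun x => Eventually.of_forall fun y => hb x y)
      (integrable_const _) (Eventually.of_forall fun y => ?_)
    · exact (by fun_prop : Continuous fun y => F (x, y)).stronglyMeasurable.aestronglyMeasurable
    · exact (by fun_prop : Continuous fun x => F (x, y))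
  refine ⟨BoundedContinuousFunction.ofNormedAddCommGroup _ hc ‖F‖ fun x => ?_, fun x => rfl⟩
  refine (norm_integral_le_integral_norm _).trans ?_
  calc ∫ y, ‖F (x, y)‖ ∂(BrownianReal.projectiveFamily I) ≤ ∫ _y, ‖F‖ ∂(BrownianReal.projectiveFamily I) := by
        refine integral_mono_of_nonneg (Eventually.of_forall fun y => norm_nonneg _) (integrable_const _)
          (Eventually.of_forall fun y => hb x y)
    _ = ‖F‖ := by simp

/-- **the public statement, without subsequences**: `(X_n, Θ_n)` is asymptotically `(X_n, B)` with `B` independent of `X_n` -/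
theorem joint_all (hT : CharW) (I : Finset ℝ≥0) (hI : ∀ s ∈ I, s ≤ 1) (F : (C(unitInterval, ℂ) × (I → ℝ)) →ᵇ ℝ) :
    Tendsto (fun n => (∑ w ∈ saw n, F (curve w, Thn I n w)) / ((saw n).card : ℝ) -
      ∫ γ, (∫ y, F (γ, y) ∂(BrownianReal.projectiveFamily I)) ∂(law n)) atTop (𝓝 0) := by
  obtain ⟨c, C, -, -, -, -, -, hsub, -⟩ := NTSF.finE
  obtain ⟨G, hG⟩ := mean_bcf F
  refine tendsto_of_subseq_tendsto fun ns hns => ?_
  obtain ⟨φ, hφ, hφ2⟩ := strictMono_subseq_of_tendsto_atTop hns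
  obtain ⟨ψ, hψ, ν, hν, hlaw⟩ := hsub (ns ∘ φ) hφ2
  refine ⟨fun k => φ (ψ k), ?_⟩
  have h1 := joint_seq hT (φ := fun k => ns (φ (ψ k))) (hφ2.tendsto_atTop.comp hψ.tendsto_atTop) hlaw I hI F
  have h2 := hlaw G
  have e : ∫ p, F p ∂(ν.prod (BrownianReal.projectiveFamily I)) = ∫ x, G x ∂ν := by
    rw [integral_prod _ (F.integrable _)]
    simp only [hG]
  rw [e] at h1
  have h3 := h1.sub h2
  rw [sub_self] at h3
  refine h3.congr fun k => ?_
  simp only [hG]
  rfl

end Cg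

end NTSF

end
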