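import Pool.Agent.PW.TipU
import Pool.Agent.PW.JointW

/-!
# PW, row F (helper16): the walk with `n` steps, from the words to the public statement

* `KW n` : the scale of the walk with `n` steps; `hKW` : `log 2 ^ KW n / log n → 3 / 4`;
* `tipWX_f` : `TipWX` for the functions of the curve;
* **`charW_of_cyl`** : what remains is the winding on the cylinder.
-/

set_option autoImplicit false

noncomputable section

namespace NTSF

open Finset Filter Topology

open HexObs hiding pos curve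

open HexObs.TIW HexObs.SDN HexObs.PWd HexObs.PWN HexObs.PWN.RM HexObs.TOG

open Pool.Agent.NTS.Res Pool.Agent.PW.Res

open NTF (sw JJ JJ_norm JJ_sub JJ_add)

open Cg

open scoped Classical

/-- the scale of the walk with `n` steps -/
def KW (n : ℕ) : ℕ := if h : ∃ k, TIP.Sc k n then Classical.choose h else 0

theorem KW_sc : ∃ n0 : ℕ, ∀ n, n0 ≤ n → TIP.Sc (KW n) n := by
  refine ⟨nref 0, fun n hn => ?_⟩
  have h1 : PW.mZ (2 ^ 0) ≤ n := (Nat.le_ceil _).trans (by exact_mod_cast hn)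
  obtain ⟨k, -, hk⟩ := sc_ex h1
  have h2 : ∃ k, TIP.Sc k n := ⟨k, hk⟩
  unfold KW
  rw [dif_pos h2]
  exact Classical.choose_spec h2

theorem hKW : Tendsto (fun n : ℕ => Real.log ((2 ^ KW n : ℕ) : ℝ) / Real.log n) atTop (𝓝 (3 / 4)) := by
  obtain ⟨a, A, ha, hA, hpow⟩ := HexObs.TIP.NQ.scale_pow
  obtain ⟨n0, hn0⟩ := KW_sc
  have h0 : Tendsto (fun n : ℕ => Real.log n) atTop atTop := Real.tendsto_log_atTop.comp tendsto_natCast_atTop_atTop
  have h1 : Tendsto (fun n : ℕ => 3 / 4 - Real.log A / Real.log n) atTop (𝓝 (3 / 4 - 0)) :=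
    tendsto_const_nhds.sub (Tendsto.const_div_atTop h0 _)
  have h2 : Tendsto (fun n : ℕ => 3 / 4 - Real.log a / Real.log n) atTop (𝓝 (3 / 4 - 0)) :=
    tendsto_const_nhds.sub (Tendsto.const_div_atTop h0 _)
  rw [sub_zero] at h1 h2
  refine tendsto_of_tendsto_of_tendsto_of_le_of_le' h1 h2 ?_ ?_
  · filter_upwards [eventually_ge_atTop n0, eventually_ge_atTop 2] with n g1 g2
    have hn : (1 : ℝ) < n := by exact_mod_cast g2
    have hl : 0 < Real.log n := Real.log_pos hn
    obtain ⟨-, h3⟩ := hpow (KW n) n (hn0 n g1).1 (hn0 n g1).2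
    have h4 := Real.log_le_log (Real.rpow_pos_of_pos (by linarith) _) h3
    rw [Real.log_rpow (by linarith), Real.log_mul hA.ne' (by positivity)] at h4
    rw [le_div_iff₀ hl, sub_mul, div_mul_cancel₀ _ hl.ne']
    push_cast
    linarith
  · filter_upwards [eventually_ge_atTop n0, eventually_ge_atTop 2] with n g1 g2
    have hn : (1 : ℝ) < n := by exact_mod_cast g2
    have hl : 0 < Real.log n := Real.log_pos hn
    obtain ⟨h3, -⟩ := hpow (KW n) n (hn0 n g1).1 (hn0 n g1).2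
    have h4 := Real.log_le_log (by positivity) h3
    rw [Real.log_rpow (by linarith), Real.log_mul ha.ne' (by positivity)] at h4
    rw [div_le_iff₀ hl, sub_mul, div_mul_cancel₀ _ hl.ne']
    push_cast
    linarith

theorem tm_mono {n : ℕ} (hn : 1 ≤ n) {s t : ℝ} (h : s ≤ t) : tm n s ≤ tm n t :=
  Nat.floor_le_floor (Real.rpow_le_rpow_of_exponent_le (by exact_mod_cast hn) h)

/-- **the functions of the curve** -/
theorem tipWX_f {f : C(unitInterval, ℂ) → ℝ} (hf : ∃ K, LipschitzWith K f) (hf1 : ∀ x, |f x| ≤ 1) :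
    PW.TipWX (fun _ w => f (curve w)) psiW KW := by
  obtain ⟨K, hK⟩ := hf
  obtain ⟨C', hC'⟩ := fsc_lip
  obtain ⟨n0, hn0⟩ := KW_sc
  intro m s hs h01 j e he
  obtain ⟨C0, h1⟩ := tipU (K * C') j he
  refine ⟨C0, fun C hC => ?_⟩
  obtain ⟨D, κ0, h1⟩ := h1 C hC
  refine ⟨D, ?_⟩
  filter_upwards [eventually_ge_atTop 1, (PW.tm_tendsto (h01 j).1).eventually_ge_atTop (n0 + κ0)] with n g1 g2 u hu
  obtain ⟨X, hX⟩ := h1 n (KW (tm n (s j))) (fun i => tm n (s i)) (fun i _ => PW.tm_le g1 (h01 i).2)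
    (fun i hi => tm_mono g1 (hs.monotone hi)) (by omega) (hn0 _ (by omega)) (fsc f n) (hC' f K hK n)
    (fsc_abs hf1 n) u hu
  refine ⟨X, fun v => ?_⟩
  rw [JF_words g1 f s (fun j => (h01 j).2)]
  exact hX v

/-- **all but the cylinder** -/
theorem charW_of_cyl {Φ : ℕ → ℝ → ℂ} (h1 : PW.CylLim Φ (8 / 3)) (h2 : PW.TipCyl Φ psiW) : CharW :=
  charW_of h1 h2 psiW_cont psiW_zero hKW fun f hf hf1 => tipWX_f hf fun x => by
    have h3 := hf1 x
    rw [abs_le]
    constructor <;> linarith [h3.1, h3.2]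

end NTSF

end
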