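import Pool.Agent.PW.InfJ
import Pool.Agent.PW.FinU
import Pool.Agent.PW.CylLim
import Pool.Agent.PW.CylJZ
import Pool.Agent.MC.CoreZ
import Pool.Agent.IW.Expo
import Pool.Agent.IW.Hold

/-!
# PW: the winding of the infinite self-avoiding walk, no hypothesis (helper90)

`P` = the infinite walk: the law with `begins n m η → P (w 0 = η 0, …, w (m - 1) = η (m - 1))`.

* **`inf_brown`** : the finite dimensional laws of `windI w (n ^ s) / √(2 log n)`, `s ≥ 0`, converge to those of the Brownian
  motion;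
* **`inf_curve`** : for `s ≤ 1` jointly with the curve of the first `n` steps, which is asymptotically independent.
-/

set_option autoImplicit false

noncomputable section

open MeasureTheory ProbabilityTheory Filter Topology
open scoped ENNReal NNReal BoundedContinuousFunction

namespace Pool.Agent.PW.Inf

open Pool.Agent.IW Pool.Agent.IW.Res

open Pool.Agent.PW.Res (windS tm)

theorem kw_sc : ∀ᶠ n in atTop, HexObs.TIP.Sc (NTSF.KW n) n := by
  obtain ⟨n0, h⟩ := NTSF.KW_sc
  filter_upwards [eventually_ge_atTop n0] with n hn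
  exact h n hn

theorem charN : CharN :=
  charN_of _root_.PW.cylLim PWJ.tipCyl NTSF.psiW_cont NTSF.psiW_zero kw_sc NTSF.hKW

theorem charNJ : CharNJ :=
  charNJ_of _root_.PW.cylLim PWJ.tipCyl NTSF.psiW_cont NTSF.psiW_zero kw_sc NTSF.hKW

variable {P : Measure (ℕ → Fin 3)} [IsProbabilityMeasure P]

theorem coup (hP : ∀ (η : ℕ → Fin 3) (m : ℕ), Tendsto (fun n => begins n m η) atTop
    (𝓝 (P.real {w | ∀ i, i < m → w i = η i}))) : Coup P := fun _ hε => MC.coupling_of HexObs.MCP.mixN hP hε

/-- **the winding of the infinite walk is asymptotically a Brownian motion** -/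
theorem inf_brown (hP : ∀ (η : ℕ → Fin 3) (m : ℕ), Tendsto (fun n => begins n m η) atTop
    (𝓝 (P.real {w | ∀ i, i < m → w i = η i}))) (I : Finset ℝ≥0) (f : (I → ℝ) →ᵇ ℝ) :
    Tendsto (fun n : ℕ => ∫ w, f (fun s : I => windI w (tm n s) / √(2 * Real.log n)) ∂P) atTop
      (𝓝 (∫ x, f x ∂(BrownianReal.projectiveFamily I))) := inf_result charN (coup hP) I f

/-- **jointly with the curve of the first `n` steps** -/
theorem inf_curve (hP : ∀ (η : ℕ → Fin 3) (m : ℕ), Tendsto (fun n => begins n m η) atTop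
    (𝓝 (P.real {w | ∀ i, i < m → w i = η i}))) (I : Finset ℝ≥0) (hI : ∀ s ∈ I, s ≤ 1)
    (F : (C(unitInterval, ℂ) × (I → ℝ)) →ᵇ ℝ) :
    Tendsto (fun n : ℕ => ∫ w, F (icurve n w, fun s : I => windI w (tm n s) / √(2 * Real.log n)) ∂P -
      ∫ w, (∫ y, F (icurve n w, y) ∂(BrownianReal.projectiveFamily I)) ∂P) atTop (𝓝 0) :=
  inf_joint charNJ (coup hP) (hold_P transW hP) I hI F

end Pool.Agent.PW.Inf

end
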