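import Pool.Agent.PW.LevA
import Pool.Agent.EN.FactsM
import Pool.Agent.TIW.Hpm
import Pool.Agent.TIP.DefsS

/-!
# PW, row P4a (helper91): the numbers; `levAe`

* `mean_tail`, `EL_le` : mean length of the ends of the scale l;
* `FA_le` : mass of the far parts with a free half ball;
* `wD_le` : mass of the chains;
* `MA_low` : mass of the ensemble;
* **`levAe`** : the level identity of AA (namespace PWN; the rest is in PWN.LA).
-/

set_option autoImplicit false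

namespace HexObs

namespace PWN

namespace LA

open Finset TS SDN TIW

/-- the number Xb as a real number -/
noncomputable def xb (l : ℕ) : ℝ := (NTA.Xb l).toReal

lemma xb_pos (l : ℕ) : 0 < xb l := ENNReal.toReal_pos (NTA.Xb_ne_zero l) (NTA.Xb_ne_top l)

lemma real_le {x : ENNReal} {a : ℝ} {l : ℕ} (ha : 0 ≤ a) (h : x ≤ ENNReal.ofReal a * NTA.Xb l) : x.toReal ≤ a * xb l := by
  have h1 := ENNReal.toReal_mono (ENNReal.mul_ne_top ENNReal.ofReal_ne_top (NTA.Xb_ne_top l)) h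
  rwa [ENNReal.toReal_mul, ENNReal.toReal_ofReal ha] at h1

lemma real_ge {x : ENNReal} {a : ℝ} {l : ℕ} (ha : 0 ≤ a) (hx : x ≠ ⊤) (h : ENNReal.ofReal a * NTA.Xb l ≤ x) :
    a * xb l ≤ x.toReal := by
  have h1 := ENNReal.toReal_mono hx h
  rwa [ENNReal.toReal_mul, ENNReal.toReal_ofReal ha] at h1

lemma sum_toReal (S : Finset (List Bool)) : ∑ t ∈ S, xc ^ t.length = (gf (S : Set (List Bool))).toReal := by
  rw [gf_finset, ENNReal.toReal_ofReal (sum_nonneg fun V _ => pow_nonneg xc_pos.le _)]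

/-- a finite sum from the mass of a set -/
lemma sum_le_gf {S : Finset (List Bool)} {T : Set (List Bool)} {a : ℝ} {l : ℕ} (hS : ∀ t ∈ S, t ∈ T) (ha : 0 ≤ a)
    (h : gf T ≤ ENNReal.ofReal a * NTA.Xb l) : ∑ t ∈ S, xc ^ t.length ≤ a * xb l := by
  rw [sum_toReal]
  exact real_le ha ((gf_mono fun t ht => hS t (Finset.mem_coe.1 ht)).trans h)

/-! ### 1. Mean length of the ends -/

lemma dyad {m : ℝ} (hm : 0 < m) (J : ℕ) : ∀ x : ℝ, 0 ≤ x → x < 2 ^ J * m →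
    x ≤ m * (1 + ∑ j ∈ range J, 2 ^ (j + 1) * (if (2 : ℝ) ^ j * m ≤ x then 1 else 0)) := by
  induction J with
  | zero =>
    intro x _ hx
    rw [pow_zero, one_mul] at hx
    rw [range_zero, sum_empty, add_zero, mul_one]
    exact hx.le
  | succ J ih =>
    intro x hx0 hx
    rw [sum_range_succ]
    have hs : 0 ≤ ∑ j ∈ range J, (2 : ℝ) ^ (j + 1) * (if (2 : ℝ) ^ j * m ≤ x then 1 else 0) :=
      sum_nonneg fun j _ => by split_ifs <;> positivity
    rcases lt_or_ge x (2 ^ J * m) with h | h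
    · refine (ih x hx0 h).trans (mul_le_mul_of_nonneg_left ?_ hm.le)
      have : (0 : ℝ) ≤ 2 ^ (J + 1) * (if (2 : ℝ) ^ J * m ≤ x then 1 else 0) := by split_ifs <;> positivity
      linarith
    · rw [if_pos h, mul_one]
      have h1 : m * 2 ^ (J + 1) ≤ m * (1 + (∑ j ∈ range J, (2 : ℝ) ^ (j + 1) * (if (2 : ℝ) ^ j * m ≤ x then 1 else 0) +
          2 ^ (J + 1))) := mul_le_mul_of_nonneg_left (by linarith) hm.le
      linarith

open Classical in
/-- mean from a quadratic tail -/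
lemma mean_tail {S : Finset (List Bool)} {p : List Bool → ℝ} (hp : ∀ E, 0 ≤ p E) {m M1 K : ℝ} (hm : 0 < m) (hK : 0 ≤ K)
    (h1 : ∑ E ∈ S, p E ≤ M1) (hT : ∀ j : ℕ, ∑ E ∈ S.filter (fun E => (2 : ℝ) ^ j * m ≤ E.length), p E ≤ K / 4 ^ j) :
    ∑ E ∈ S, p E * (E.length : ℝ) ≤ m * (M1 + 4 * K) := by
  obtain ⟨J, hJ⟩ : ∃ J : ℕ, ∀ E ∈ S, (E.length : ℝ) < 2 ^ J * m := by
    obtain ⟨J, hJ⟩ := pow_unbounded_of_one_lt ((∑ E ∈ S, (E.length : ℝ)) / m) (one_lt_two : (1 : ℝ) < 2)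
    refine ⟨J, fun E hE => ?_⟩
    rw [div_lt_iff₀ hm] at hJ
    exact lt_of_le_of_lt (single_le_sum (f := fun E : List Bool => (E.length : ℝ)) (fun E _ => Nat.cast_nonneg _) hE) hJ
  have h2 : ∀ E ∈ S, p E * (E.length : ℝ) ≤
      m * (p E + ∑ j ∈ range J, 2 ^ (j + 1) * (if (2 : ℝ) ^ j * m ≤ E.length then p E else 0)) := by
    intro E hE
    have h3 := mul_le_mul_of_nonneg_left (dyad hm J E.length (Nat.cast_nonneg _) (hJ E hE)) (hp E)
    refine h3.trans (le_of_eq ?_)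
    have e : p E * ∑ j ∈ range J, (2 : ℝ) ^ (j + 1) * (if (2 : ℝ) ^ j * m ≤ E.length then 1 else 0) =
        ∑ j ∈ range J, 2 ^ (j + 1) * (if (2 : ℝ) ^ j * m ≤ E.length then p E else 0) := by
      rw [mul_sum]
      refine sum_congr rfl fun j _ => ?_
      split_ifs <;> ring
    rw [← e]
    ring
  refine (sum_le_sum h2).trans ?_
  rw [← mul_sum, sum_add_distrib, sum_comm]
  refine mul_le_mul_of_nonneg_left (add_le_add h1 ?_) hm.le
  have h4 : ∀ j ∈ range J, ∑ E ∈ S, (2 : ℝ) ^ (j + 1) * (if (2 : ℝ) ^ j * m ≤ E.length then p E else 0) ≤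
      2 * K * (1 / 2) ^ j := by
    intro j _
    rw [← mul_sum, ← sum_filter]
    refine (mul_le_mul_of_nonneg_left (hT j) (by positivity)).trans (le_of_eq ?_)
    have e : (4 : ℝ) ^ j = 2 ^ j * 2 ^ j := by rw [← mul_pow]; norm_num
    rw [e, one_div, inv_pow, pow_succ]
    field_simp
  refine (sum_le_sum h4).trans ?_
  rw [← mul_sum]
  have h5 : ∑ j ∈ range J, (1 / 2 : ℝ) ^ j ≤ 2 := by
    rw [geom_sum_eq (by norm_num)]
    have : (0 : ℝ) ≤ (1 / 2) ^ J := by positivity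
    rw [div_le_iff_of_neg (by norm_num)]
    linarith
  calc 2 * K * ∑ j ∈ range J, (1 / 2 : ℝ) ^ j ≤ 2 * K * 2 := mul_le_mul_of_nonneg_left h5 (by linarith)
    _ = 4 * K := by ring

/-- **mean length of the ends** -/
theorem EL_le : ∃ C : ℝ, 0 < C ∧ ∀ l : ℕ, EL l ≤ C * PW.mZ (2 ^ l) * (Ub l * xb l) := by
  classical
  obtain ⟨C1, hC1, hup⟩ := hpUp
  obtain ⟨A, hA, hT⟩ := EN.ht_M 2
  refine ⟨C1 + 4 * A, by positivity, fun l => ?_⟩
  have hm : 0 < PW.mZ (2 ^ l) := NTA.mlow_M.pos l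
  have hU := Ub_pos l
  have hx := xb_pos l
  have h := mean_tail (S := HcF l) (p := fun E => xc ^ E.length) (fun E => pow_nonneg xc_pos.le _) hm
    (M1 := C1 * Ub l * xb l) (K := A * Ub l * xb l) (by positivity)
    (sum_le_gf (T := Hp (2 ^ l)) (fun E hE => (mem_HcF.1 hE).1) (by positivity) (hup l)) (fun j => ?_)
  · refine h.trans (le_of_eq ?_)
    ring
  · have h1 : (1 : ℝ) ≤ 2 ^ j := one_le_pow₀ (by norm_num)
    have h2 := hT l (2 ^ j) h1
    have h3 := sum_le_gf (S := (HcF l).filter (fun E => (2 : ℝ) ^ j * PW.mZ (2 ^ l) ≤ E.length)) (fun E hE => by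
      rw [mem_filter, mem_HcF] at hE
      exact ⟨Hp_SSt l hE.1.1, hE.2⟩) (by positivity) h2
    refine h3.trans (le_of_eq ?_)
    have e : (4 : ℝ) ^ j = 2 ^ j * 2 ^ j := by rw [← mul_pow]; norm_num
    rw [e]
    field_simp

/-! ### 2. Mass of the chains -/

/-- **mass of the chains** -/
theorem wD_le : ∃ (C : ℝ) (l0 : ℕ), 0 < C ∧ ∀ (l L : ℕ) (Ch : Set (List Bool)), l0 ≤ l → l ≤ L → SLW.Chn L Ch →
    wD Ch * (Ub l * xb l) ≤ C * (Ub L * xb L) := by
  obtain ⟨C1, hC1, hup⟩ := hpUp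
  obtain ⟨c, l0, hc, hlow⟩ := hpLow
  obtain ⟨D, hD, hX⟩ := NTA.xDbl
  refine ⟨2 * C1 * D / c, l0, by positivity, fun l L Ch hl hlL hCh => ?_⟩
  have hU := Ub_pos L
  have hUl := Ub_pos l
  have h1 : gf Ch * gf (Hp (2 ^ l)) ≤ gf (Hp (2 * 2 ^ L)) :=
    mul_le_gf (fun V hV E hE => VE_Hp hCh hlL hV hE) fun V hV E hE V' hV' E' hE' he =>
      hCh.uniq V hV V' hV' E E' hE.1 hE'.1 he
  have h2 : gf (Hp (2 * 2 ^ L)) ≤ ENNReal.ofReal (2 * C1 * D * Ub L) * NTA.Xb L := by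
    have e : (2 * 2 ^ L : ℕ) = 2 ^ (L + 1) := by ring
    rw [e]
    refine (hup (L + 1)).trans ?_
    calc ENNReal.ofReal (C1 * Ub (L + 1)) * NTA.Xb (L + 1)
        ≤ ENNReal.ofReal (C1 * (2 * Ub L)) * (ENNReal.ofReal D * NTA.Xb L) := by
          refine mul_le_mul' (ENNReal.ofReal_le_ofReal (mul_le_mul_of_nonneg_left (Ub_succ L) hC1.le)) (hX L)
      _ = ENNReal.ofReal (2 * C1 * D * Ub L) * NTA.Xb L := by
          rw [← mul_assoc, ← ENNReal.ofReal_mul (by positivity)]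
          congr 2
          ring
  have h3 : ENNReal.ofReal (c * Ub l) * NTA.Xb l ≤ gf (Hp (2 ^ l)) := (hlow l hl).trans (gf_mono fun E hE => hE.1)
  have h4 : (gf Ch * gf (Hp (2 ^ l))).toReal ≤ 2 * C1 * D * Ub L * xb L := real_le (by positivity) (h1.trans h2)
  have hfin : gf (Hp (2 ^ l)) ≠ ⊤ := by
    have : gf (Hp (2 ^ l)) ≤ _ := hup l
    exact ne_top_of_le_ne_top (ENNReal.mul_ne_top ENNReal.ofReal_ne_top (NTA.Xb_ne_top l)) this
  have h5 := real_ge (by positivity) hfin h3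
  rw [ENNReal.toReal_mul] at h4
  have h6 : wD Ch * (c * Ub l * xb l) ≤ 2 * C1 * D * Ub L * xb L :=
    (mul_le_mul_of_nonneg_left h5 ENNReal.toReal_nonneg).trans h4
  have e1 : wD Ch * (Ub l * xb l) = wD Ch * (c * Ub l * xb l) / c := by
    field_simp
  have e2 : 2 * C1 * D / c * (Ub L * xb L) = 2 * C1 * D * Ub L * xb L / c := by ring
  rw [e1, e2]
  exact div_le_div_of_nonneg_right h6 hc.le

/-! ### 3. Mass of the far parts -/

/-- the numbers c_n mu^(-n) over a bounded range -/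
lemma areg_pow (h : SLW.AReg) : ∃ C : ℝ, 1 ≤ C ∧ (∀ n' n : ℕ, n' ≤ n → cS n' * xc ^ n' ≤ C * (cS n * xc ^ n)) ∧
    ∀ j n' n : ℕ, 1 ≤ n → n' ≤ 4 ^ j * n → cS n' * xc ^ n' ≤ C ^ (j + 1) * (cS n * xc ^ n) := by
  obtain ⟨C0, hC0, h1, h2⟩ := h
  obtain ⟨C, hC⟩ : ∃ C, C = max 1 C0 := ⟨_, rfl⟩
  have hC1 : 1 ≤ C := by rw [hC]; exact le_max_left _ _
  have hC2 : C0 ≤ C := by rw [hC]; exact le_max_right _ _
  have ha : ∀ n : ℕ, 0 ≤ (cS n : ℝ) * xc ^ n := fun n => mul_nonneg (Nat.cast_nonneg _) (pow_nonneg xc_pos.le _)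
  have k1 : ∀ n' n : ℕ, n' ≤ n → cS n' * xc ^ n' ≤ C * (cS n * xc ^ n) := fun n' n hn =>
    (h1 n' n hn).trans (mul_le_mul_of_nonneg_right hC2 (ha n))
  refine ⟨C, hC1, k1, fun j => ?_⟩
  induction j with
  | zero =>
    intro n' n _ hn'
    rw [pow_zero, one_mul] at hn'
    rw [zero_add, pow_one]
    exact k1 n' n hn'
  | succ j ih =>
    intro n' n hn hn'
    rcases Nat.lt_or_ge n' (4 ^ j * n) with h | h
    · refine (ih n' n hn h.le).trans (mul_le_mul_of_nonneg_right ?_ (ha n))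
      exact pow_le_pow_right₀ hC1 (by omega)
    · have hp : 1 ≤ 4 ^ j * n := Nat.mul_pos (by positivity) hn
      have h3 := h2 n' (4 ^ j * n) h (by rw [pow_succ] at hn'; linarith) hp
      refine h3.trans ?_
      have h4 := ih (4 ^ j * n) n hn le_rfl
      calc C0 * (cS (4 ^ j * n) * xc ^ (4 ^ j * n)) ≤ C * (C ^ (j + 1) * (cS n * xc ^ n)) :=
            mul_le_mul hC2 h4 (ha _) (by linarith)
        _ = C ^ (j + 1 + 1) * (cS n * xc ^ n) := by ring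

open Classical in
/-- short ends -/
noncomputable def YF (lam L : ℕ) : Finset (List Bool) := (HpF (2 ^ L)).filter fun Y => (Y.length : ℝ) < lam * PW.mZ (2 ^ L)

theorem YF_low : ∃ (c : ℝ) (lam l0 : ℕ), 0 < c ∧ ∀ L : ℕ, l0 ≤ L → c * (Ub L * xb L) ≤ ∑ Y ∈ YF lam L, xc ^ Y.length := by
  classical
  obtain ⟨c, l0, hc, hlow⟩ := hpLow
  obtain ⟨A, hA, hT⟩ := EN.ht_M 1
  obtain ⟨lam, hlam⟩ := exists_nat_ge (max 1 (2 * A / c))
  have hl1 : (1 : ℝ) ≤ lam := (le_max_left _ _).trans hlam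
  have hl2 : 2 * A / c ≤ lam := (le_max_right _ _).trans hlam
  refine ⟨c / 2, lam, l0, by positivity, fun L hL => ?_⟩
  have hU := Ub_pos L
  have hx := xb_pos L
  have h1 : c * Ub L * xb L ≤ ∑ Y ∈ HpF (2 ^ L), xc ^ Y.length := by
    rw [sum_toReal]
    refine real_ge (by positivity) ?_ ?_
    · rw [gf_finset]
      exact ENNReal.ofReal_ne_top
    · refine (hlow L hL).trans (gf_mono fun E hE => ?_)
      rw [Finset.mem_coe, mem_HpF]
      exact hE.1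
  have h2 : ∑ Y ∈ (HpF (2 ^ L)).filter (fun Y => ¬ ((Y.length : ℝ) < lam * PW.mZ (2 ^ L))), xc ^ Y.length ≤
      A / lam ^ 1 * Ub L * xb L := by
    refine sum_le_gf (fun Y hY => ?_) (by positivity) (hT L lam hl1)
    rw [mem_filter, mem_HpF, not_lt] at hY
    exact ⟨Hp_SSt L hY.1, hY.2⟩
  have h3 : ∑ Y ∈ YF lam L, xc ^ Y.length +
      ∑ Y ∈ (HpF (2 ^ L)).filter (fun Y => ¬ ((Y.length : ℝ) < lam * PW.mZ (2 ^ L))), xc ^ Y.length =
      ∑ Y ∈ HpF (2 ^ L), xc ^ Y.length := by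
    unfold YF
    exact sum_filter_add_sum_filter_not _ _ _
  have h4 : A / lam ^ 1 ≤ c / 2 := by
    rw [pow_one, div_le_iff₀ (by linarith)]
    rw [div_le_iff₀ hc] at hl2
    linarith
  have h5 : A / lam ^ 1 * Ub L * xb L ≤ c / 2 * Ub L * xb L := by gcongr
  have e : c / 2 * (Ub L * xb L) = c * Ub L * xb L - c / 2 * Ub L * xb L := by ring
  linarith

/-- far parts and short ends -/
lemma FA_YF {n L lam : ℕ} (hm : PW.mZ (2 ^ L) ≤ n) : (∑ A ∈ FA n L, xc ^ A.length) * ∑ Y ∈ YF lam L, xc ^ Y.length ≤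
    ∑ m ∈ range ((3 + lam) * n), ∑ t ∈ sawF m, xc ^ m * NP (2 ^ L) t := by
  classical
  obtain ⟨T, hT⟩ : ∃ T : Finset (List Bool), T = (range ((3 + lam) * n)).biUnion sawF := ⟨_, rfl⟩
  have mT : ∀ t, t ∈ T ↔ t ∈ SA ∧ t.length < (3 + lam) * n := by
    intro t
    rw [hT, mem_biUnion]
    constructor
    · rintro ⟨m, hm, ht⟩
      rw [mem_range] at hm
      rw [mem_sawF] at ht
      exact ⟨ht.2, by rw [ht.1]; exact hm⟩
    · rintro ⟨h1, h2⟩
      exact ⟨t.length, mem_range.2 h2, mem_sawF.2 ⟨rfl, h1⟩⟩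
  have e0 : ∑ m ∈ range ((3 + lam) * n), ∑ t ∈ sawF m, xc ^ m * NP (2 ^ L) t =
      ∑ t ∈ T, xc ^ t.length * NP (2 ^ L) t := by
    rw [hT, sum_biUnion]
    · refine sum_congr rfl fun m _ => sum_congr rfl fun t ht => ?_
      rw [(mem_sawF.1 ht).1]
    · intro m _ m' _ hne
      rw [Function.onFun, disjoint_left]
      intro t h1 h2
      rw [mem_sawF] at h1 h2
      exact hne (h1.1.symm.trans h2.1)
  have key := dec_sum T (FA n L) {[]} (YF lam L) (fun A V E => xc ^ (A.length + E.length))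
  have e1 : ∑ A ∈ FA n L, ∑ V ∈ ({[]} : Finset (List Bool)), ∑ E ∈ YF lam L,
      (if A ++ (V ++ E) ∈ T then xc ^ (A.length + E.length) else 0) =
      (∑ A ∈ FA n L, xc ^ A.length) * ∑ Y ∈ YF lam L, xc ^ Y.length := by
    rw [sum_mul_sum]
    refine sum_congr rfl fun A hA => ?_
    rw [sum_singleton]
    refine sum_congr rfl fun E hE => ?_
    rw [mem_FA] at hA
    have hE2 : E ∈ Hp (2 ^ L) ∧ (E.length : ℝ) < lam * PW.mZ (2 ^ L) := by
      unfold YF at hE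
      rw [mem_filter, mem_HpF] at hE
      exact hE
    rw [List.nil_append, if_pos, pow_add]
    rw [mT]
    refine ⟨glue_SA (by omega : 2 ^ L ≤ 4 * 2 ^ L) hA.1.1 hA.2 hE2.1, ?_⟩
    have h1 : (E.length : ℝ) < lam * n := hE2.2.trans_le (mul_le_mul_of_nonneg_left hm (Nat.cast_nonneg _))
    have h2 : E.length < lam * n := by exact_mod_cast h1
    rw [List.length_append]
    have := hA.1.2
    rw [add_mul]
    omega
  rw [← e1, ← key, e0]
  refine sum_le_sum fun t ht => ?_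
  have e2 : ∀ p ∈ ((range (t.length + 1)) ×ˢ (range (t.length + 1))).filter (fun p => p.1 ≤ p.2 ∧ t.take p.1 ∈ FA n L ∧
      (t.take p.2).drop p.1 ∈ ({[]} : Finset (List Bool)) ∧ t.drop p.2 ∈ YF lam L),
      xc ^ ((t.take p.1).length + (t.drop p.2).length) = xc ^ t.length ∧ p.1 = p.2 := by
    intro p hp
    rw [mem_filter, mem_product, mem_range, mem_range] at hp
    obtain ⟨⟨h1, h2⟩, h3, h4, h5, h6⟩ := hp
    rw [mem_singleton] at h5
    have h7 := congrArg List.length h5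
    rw [List.length_drop, List.length_take, List.length_nil] at h7
    have h8 : p.1 = p.2 := by omega
    refine ⟨?_, h8⟩
    rw [List.length_take, List.length_drop]
    congr 1
    omega
  rw [sum_congr rfl fun p hp => (e2 p hp).1, sum_const, nsmul_eq_mul, mul_comm]
  refine mul_le_mul_of_nonneg_left ?_ (pow_nonneg xc_pos.le _)
  unfold NP
  have h : (((range (t.length + 1)) ×ˢ (range (t.length + 1))).filter (fun p => p.1 ≤ p.2 ∧ t.take p.1 ∈ FA n L ∧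
      (t.take p.2).drop p.1 ∈ ({[]} : Finset (List Bool)) ∧ t.drop p.2 ∈ YF lam L)).card ≤ (cu (2 ^ L) t).card := by
    refine card_le_card_of_injOn (fun p => p.1) ?_ ?_
    · intro p hp
      rw [Finset.mem_coe] at hp
      have h8 := (e2 p hp).2
      rw [mem_filter, mem_product] at hp
      obtain ⟨⟨h1, h2⟩, h3, h4, h5, h6⟩ := hp
      rw [Finset.mem_coe]
      unfold cu
      rw [mem_filter]
      refine ⟨h1, SLW.Fe_anti (by omega : 2 * 2 ^ L ≤ 4 * 2 ^ L) (mem_FA.1 h4).2, ?_⟩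
      show t.drop p.1 ∈ Hp (2 ^ L)
      rw [h8]
      unfold YF at h6
      rw [mem_filter, mem_HpF] at h6
      exact h6.1
    · intro p hp p' hp' he
      rw [Finset.mem_coe] at hp hp'
      have h8 := (e2 p hp).2
      have h8' := (e2 p' hp').2
      have he' : p.1 = p'.1 := he
      exact Prod.ext he' (by rw [← h8, ← h8', he'])
  exact_mod_cast h

/-- **mass of the far parts with a free half ball** -/
theorem FA_le (hA : SLW.AReg) : ∃ (C : ℝ) (l0 : ℕ), 0 < C ∧ ∀ n L : ℕ, l0 ≤ L → PW.mZ (2 ^ L) ≤ n →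
    (∑ A ∈ FA n L, xc ^ A.length) * xb L ≤ C * (n * (cS n * xc ^ n)) := by
  obtain ⟨c, lam, l0, hc, hY⟩ := YF_low
  obtain ⟨C1, hC1, h1, h2⟩ := areg_pow hA
  obtain ⟨C2, hC2, h3⟩ := SLW.momU hA
  refine ⟨(3 + lam) * C2 * C1 ^ (3 + lam + 1) / c, l0, by positivity, fun n L hL hm => ?_⟩
  have hU := Ub_pos L
  have hx := xb_pos L
  have hn : 1 ≤ n := by
    have h4 : 0 < PW.mZ (2 ^ L) := NTA.mlow_M.pos L
    have : (0 : ℝ) < n := h4.trans_le hm
    exact_mod_cast this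
  have h4 := FA_YF (lam := lam) hm
  have h5 : ∑ m ∈ range ((3 + lam) * n), ∑ t ∈ sawF m, xc ^ m * NP (2 ^ L) t ≤
      ∑ _m ∈ range ((3 + lam) * n), C2 * Ub L * (C1 ^ (3 + lam + 1) * (cS n * xc ^ n)) := by
    refine sum_le_sum fun m hm => (SLW.np_one hC2 h3 L m).trans (mul_le_mul_of_nonneg_left (h2 (3 + lam) m n hn ?_)
      (by positivity))
    rw [mem_range] at hm
    have h6 : 3 + lam < 4 ^ (3 + lam) := Nat.lt_pow_self (by norm_num)
    exact hm.le.trans (Nat.mul_le_mul_right n h6.le)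
  rw [sum_const, card_range, nsmul_eq_mul] at h5
  have h0 : 0 ≤ ∑ A ∈ FA n L, xc ^ A.length := sum_nonneg fun A _ => pow_nonneg xc_pos.le _
  have h6 : (∑ A ∈ FA n L, xc ^ A.length) * (c * (Ub L * xb L)) ≤
      (((3 + lam) * n : ℕ) : ℝ) * (C2 * Ub L * (C1 ^ (3 + lam + 1) * (cS n * xc ^ n))) :=
    (mul_le_mul_of_nonneg_left (hY L hL) h0).trans (h4.trans h5)
  have e1 : (∑ A ∈ FA n L, xc ^ A.length) * xb L = (∑ A ∈ FA n L, xc ^ A.length) * (c * (Ub L * xb L)) / (c * Ub L) := by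
    field_simp
  rw [e1, div_le_iff₀ (by positivity)]
  refine h6.trans (le_of_eq ?_)
  push_cast
  field_simp

/-! ### 4. Mass of the ensemble -/

/-- **mass of the ensemble** -/
theorem MA_low (hA : SLW.AReg) {Lg : ℝ} {g : ℝ → ℝ} (hg : Bump Lg g) {u : ℝ} (hu : g u = 1) :
    ∃ (c : ℝ) (n0 : ℕ), 0 < c ∧ ∀ n : ℕ, n0 ≤ n → c * (n * (cS n * xc ^ n)) ≤ MA g n := by
  classical
  obtain ⟨C1, hC1, h1, -⟩ := areg_pow hA
  have hu1 : 1 ≤ u := by
    by_contra h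
    rw [hg.lo u (not_le.1 h)] at hu
    exact zero_ne_one hu
  have hu2 : u ≤ 2 := by
    by_contra h
    rw [hg.hi u (not_le.1 h)] at hu
    exact zero_ne_one hu
  have hLg : 0 < Lg := by
    have h2 := hg.lip u 3
    rw [hu, hg.hi 3 (by norm_num), sub_zero, abs_one, abs_sub_comm] at h2
    by_contra h
    have h3 : Lg * |3 - u| ≤ 0 := mul_nonpos_of_nonpos_of_nonneg (not_lt.1 h) (abs_nonneg _)
    linarith
  obtain ⟨d, hd⟩ : ∃ d, d = min 1 (1 / (2 * Lg)) := ⟨_, rfl⟩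
  have hd0 : 0 < d := by
    rw [hd]
    exact lt_min one_pos (by positivity)
  have hd2 : Lg * d ≤ 1 / 2 := by
    have h2 : d ≤ 1 / (2 * Lg) := by rw [hd]; exact min_le_right _ _
    calc Lg * d ≤ Lg * (1 / (2 * Lg)) := mul_le_mul_of_nonneg_left h2 hLg.le
      _ = 1 / 2 := by field_simp
  obtain ⟨n0, hn0⟩ := exists_nat_ge (8 / d)
  refine ⟨d / (16 * C1), n0 + 1, by positivity, fun n hn => ?_⟩
  have hnr : 8 / d ≤ n := hn0.trans (by exact_mod_cast (by omega : n0 ≤ n))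
  have hn1 : (0 : ℝ) < n := lt_of_lt_of_le (by positivity) hnr
  rw [div_le_iff₀ hd0] at hnr
  have ha : ∀ m : ℕ, 0 ≤ (cS m : ℝ) * xc ^ m := fun m => mul_nonneg (Nat.cast_nonneg _) (pow_nonneg xc_pos.le _)
  -- the numbers of letters: n + 2 i
  obtain ⟨i0, hi0⟩ : ∃ i0 : ℕ, i0 = ⌈(u - 1) * n / 2⌉₊ := ⟨_, rfl⟩
  obtain ⟨I, hI⟩ : ∃ I : ℕ, I = ⌊n * d / 4⌋₊ := ⟨_, rfl⟩
  have hI1 : (n : ℝ) * d / 8 ≤ I := by
    have h2 := Nat.lt_floor_add_one ((n : ℝ) * d / 4)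
    rw [← hI] at h2
    linarith
  have hI2 : (I : ℝ) ≤ n * d / 4 := by
    rw [hI]
    exact Nat.floor_le (by positivity)
  have hu0 : 0 ≤ (u - 1) * n / 2 := by
    have : 0 ≤ u - 1 := by linarith
    positivity
  have hi1 : (u - 1) * n / 2 ≤ i0 := by
    rw [hi0]
    exact Nat.le_ceil _
  have hi2 : (i0 : ℝ) < (u - 1) * n / 2 + 1 := by
    rw [hi0]
    exact Nat.ceil_lt_add_one hu0
  have hval : ∀ i ∈ range I, 1 / 2 ≤ wA g n (n + 2 * (i0 + i)) := by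
    intro i hi
    rw [mem_range] at hi
    have hi' : (i : ℝ) ≤ n * d / 4 := by
      have : (i : ℝ) ≤ I := by exact_mod_cast hi.le
      linarith
    unfold wA
    rw [if_pos (by omega)]
    have h2 := hg.lip u (((n + 2 * (i0 + i) : ℕ) : ℝ) / n)
    rw [hu] at h2
    have h3 : |u - ((n + 2 * (i0 + i) : ℕ) : ℝ) / n| ≤ d := by
      have e : u - ((n + 2 * (i0 + i) : ℕ) : ℝ) / n = ((u - 1) * n - 2 * (i0 + i)) / n := by
        push_cast
        field_simp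
        ring
      rw [e, abs_div, abs_of_pos hn1, div_le_iff₀ hn1, abs_le]
      have hi0' : (0 : ℝ) ≤ i := Nat.cast_nonneg _
      constructor <;> nlinarith
    have h4 := mul_le_mul_of_nonneg_left h3 hLg.le
    have h5 := (abs_le.1 (h2.trans h4)).2
    linarith
  have hlt : ∀ i ∈ range I, n + 2 * (i0 + i) ∈ range (3 * n) := by
    intro i hi
    have h2 := hval i hi
    rw [mem_range]
    by_contra h3
    rw [not_lt] at h3
    unfold wA at h2
    rw [hg.hi, ite_self] at h2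
    · norm_num at h2
    · rw [lt_div_iff₀ hn1]
      have : ((3 * n : ℕ) : ℝ) ≤ ((n + 2 * (i0 + i) : ℕ) : ℝ) := by exact_mod_cast h3
      push_cast at this ⊢
      linarith
  have hinj : Set.InjOn (fun i => n + 2 * (i0 + i)) (range I : Set ℕ) := by
    intro i _ j _ h
    simp only at h
    omega
  rw [MA_eq]
  calc d / (16 * C1) * (n * (cS n * xc ^ n)) = (n * d / 8) * (1 / 2 * (1 / C1 * (cS n * xc ^ n))) := by
        field_simp
        ring
    _ ≤ I * (1 / 2 * (1 / C1 * (cS n * xc ^ n))) := mul_le_mul_of_nonneg_right hI1 (by have := ha n; positivity)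
    _ = ∑ _i ∈ range I, 1 / 2 * (1 / C1 * (cS n * xc ^ n)) := by rw [sum_const, card_range, nsmul_eq_mul]
    _ ≤ ∑ i ∈ range I, wA g n (n + 2 * (i0 + i)) * (cS (n + 2 * (i0 + i)) * xc ^ (n + 2 * (i0 + i))) := by
        refine sum_le_sum fun i hi => mul_le_mul (hval i hi) ?_ (by have := ha n; positivity) (wA_nonneg hg n _)
        have h2 := h1 n (n + 2 * (i0 + i)) (by omega)
        rw [one_div, inv_mul_le_iff₀ (by linarith)]
        exact h2
    _ = ∑ m ∈ (range I).image (fun i => n + 2 * (i0 + i)), wA g n m * (cS m * xc ^ m) := by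
        rw [sum_image hinj]
    _ ≤ ∑ m ∈ range (3 * n), wA g n m * (cS m * xc ^ m) := by
        refine sum_le_sum_of_subset_of_nonneg ?_ fun m _ _ => mul_nonneg (wA_nonneg hg n m) (ha m)
        intro m hm
        rw [mem_image] at hm
        obtain ⟨i, hi, rfl⟩ := hm
        exact hlt i hi

end LA

/-! ### 5. The level identity -/

open Finset TS SDN TIW LA

/-- **P4a** -/
theorem levAe (hA : SLW.AReg) {Lg : ℝ} {g : ℝ → ℝ} (hg : Bump Lg g) {u : ℝ} (hu : g u = 1) :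
    ∃ (C : ℝ) (l0 : ℕ), 0 < C ∧ ∀ (n k l L : ℕ) (Ch : Set (List Bool)) (q Ψ er : List Bool → ℝ), TIP.Sc k n → l0 ≤ l →
      l ≤ L → L ≤ k → SLW.Chn L Ch → (∀ E ∈ Hc l, |q E| ≤ 1) → (∀ t, |Ψ t| ≤ 1) → RM.Rob (2 ^ (L + 1)) Ψ er →
      |∑ t ∈ AAF n, pA g n t * (Ψ t * (NW l L Ch (fun _ => 1) q t - nu l q * N0 l L Ch t))| ≤
        2 * ∑ t ∈ AAF n, pA g n t * (N0 l L Ch t * er t) + C * (PW.mZ (2 ^ l) / n) * Ub L * MA g n := by
  obtain ⟨C1, hC1, h1⟩ := EL_le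
  obtain ⟨C2, l2, hC2, h2⟩ := wD_le
  obtain ⟨C3, l3, hC3, h3⟩ := FA_le hA
  obtain ⟨c4, n4, hc4, h4⟩ := MA_low hA hg hu
  have hLg : 0 ≤ Lg := by
    have := hg.lip 1 0
    have h2 := abs_nonneg (g 1 - g 0)
    norm_num at this
    linarith
  obtain ⟨k4, hk4⟩ : ∃ k4 : ℕ, ∀ k ≥ k4, (n4 : ℝ) ≤ PW.mZ (2 ^ k) := by
    obtain ⟨j, hj⟩ := pow_unbounded_of_one_lt ((n4 : ℝ) / PW.mZ (2 ^ 0)) (one_lt_two : (1 : ℝ) < 2)
    refine ⟨j, fun k hk => ?_⟩
    have h5 := NTA.MLow.two NTA.mlow_M 0 k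
    rw [zero_add] at h5
    have h6 : 0 < PW.mZ (2 ^ 0) := NTA.mlow_M.pos 0
    rw [div_lt_iff₀ h6] at hj
    have h7 : (2 : ℝ) ^ j ≤ 2 ^ k := pow_le_pow_right₀ (by norm_num) hk
    nlinarith
  refine ⟨(2 * Lg + 1) * C1 * C2 * C3 / c4, l2 + l3 + k4, by positivity,
    fun n k l L Ch q Ψ er hSc hl hlL hLk hCh hq hΨ he => ?_⟩
  have hm0 : 0 < PW.mZ (2 ^ l) := NTA.mlow_M.pos l
  have hmk : PW.mZ (2 ^ k) ≤ n := hSc.1
  have hmL : PW.mZ (2 ^ L) ≤ n := (NTA.MLow.mono NTA.mlow_M hLk).trans hmk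
  have hnr : (0 : ℝ) < n := lt_of_lt_of_le (NTA.mlow_M.pos L) hmL
  have hn : 0 < n := by exact_mod_cast hnr
  have hn4 : n4 ≤ n := by
    have h5 := (hk4 k (by omega)).trans hmk
    exact_mod_cast h5
  have hU := Ub_pos L
  have hUl := Ub_pos l
  have hx := xb_pos L
  have hxl := xb_pos l
  refine (lev_core hg hCh hlL hn hq hΨ he).trans (add_le_add le_rfl ?_)
  have hF0 : 0 ≤ ∑ A ∈ FA n L, xc ^ A.length := sum_nonneg fun A _ => pow_nonneg xc_pos.le _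
  have hw0 : 0 ≤ wD Ch := ENNReal.toReal_nonneg
  have ha : 0 ≤ (n : ℝ) * (cS n * xc ^ n) := mul_nonneg hnr.le (mul_nonneg (Nat.cast_nonneg _) (pow_nonneg xc_pos.le _))
  have g1 := h1 l
  have g2 := h2 l L Ch (by omega) hlL hCh
  have g3 := h3 n L (by omega) hmL
  have g4 := h4 n hn4
  calc (∑ A ∈ FA n L, xc ^ A.length) * wD Ch * (2 * (Lg / n) * EL l)
      ≤ (∑ A ∈ FA n L, xc ^ A.length) * wD Ch * (2 * (Lg / n) * (C1 * PW.mZ (2 ^ l) * (Ub l * xb l))) := by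
        have : 0 ≤ 2 * (Lg / n) := by positivity
        exact mul_le_mul_of_nonneg_left (mul_le_mul_of_nonneg_left g1 this) (mul_nonneg hF0 hw0)
    _ = (∑ A ∈ FA n L, xc ^ A.length) * (wD Ch * (Ub l * xb l)) * (2 * Lg * C1 * (PW.mZ (2 ^ l) / n)) := by ring
    _ ≤ (∑ A ∈ FA n L, xc ^ A.length) * (C2 * (Ub L * xb L)) * (2 * Lg * C1 * (PW.mZ (2 ^ l) / n)) := by
        refine mul_le_mul_of_nonneg_right (mul_le_mul_of_nonneg_left g2 hF0) (by positivity)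
    _ = ((∑ A ∈ FA n L, xc ^ A.length) * xb L) * (2 * Lg * C1 * C2 * (PW.mZ (2 ^ l) / n) * Ub L) := by ring
    _ ≤ (C3 * (n * (cS n * xc ^ n))) * (2 * Lg * C1 * C2 * (PW.mZ (2 ^ l) / n) * Ub L) :=
        mul_le_mul_of_nonneg_right g3 (by positivity)
    _ = (2 * Lg) * C1 * C2 * C3 / c4 * (PW.mZ (2 ^ l) / n) * Ub L * (c4 * (n * (cS n * xc ^ n))) := by
        field_simp
    _ ≤ (2 * Lg + 1) * C1 * C2 * C3 / c4 * (PW.mZ (2 ^ l) / n) * Ub L * (c4 * (n * (cS n * xc ^ n))) := by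
        have : (2 * Lg) * C1 * C2 * C3 / c4 ≤ (2 * Lg + 1) * C1 * C2 * C3 / c4 := by gcongr; linarith
        gcongr
    _ ≤ (2 * Lg + 1) * C1 * C2 * C3 / c4 * (PW.mZ (2 ^ l) / n) * Ub L * MA g n :=
        mul_le_mul_of_nonneg_left g4 (by positivity)

end PWN

end HexObs
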