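import Pool.Agent.PW.DefA

/-!
# PW (helper86): the uniform walk and the plane ensemble

`slowA` : for functionals that hardly see a small end, the mean over the words with `n` letters is the mean over the plane
ensemble `AA` with a narrow bump (consequence of `SlowF`).
-/

set_option autoImplicit false

namespace HexObs

namespace PWN

open Finset TS SDN TIW

/-- the sum of the weights of the numbers of letters -/
noncomputable def WA (g : ℝ → ℝ) (n : ℕ) : ℝ := ∑ m ∈ range (3 * n), wA g n m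

lemma WA_nonneg {Lg : ℝ} {g : ℝ → ℝ} (hg : Bump Lg g) (n : ℕ) : 0 ≤ WA g n := sum_nonneg fun m _ => wA_nonneg hg n m

/-- the numbers of letters with a positive weight -/
lemma wA_ne {Lg : ℝ} {g : ℝ → ℝ} (hg : Bump Lg g) {c2 : ℕ} (hs : ∀ u, 1 + 1 / 2 ^ c2 < u → g u = 0) {n m : ℕ} (hn : 1 ≤ n)
    (h : wA g n m ≠ 0) : ∃ h : ℕ, Even h ∧ h * 2 ^ c2 ≤ n ∧ m = n + h := by
  have hnr : (0 : ℝ) < n := by exact_mod_cast hn
  unfold wA at h
  split_ifs at h with h1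
  · have h2 : 1 ≤ (m : ℝ) / n := by
      by_contra h3
      exact h (hg.lo _ (not_le.1 h3))
    have h3 : (m : ℝ) / n ≤ 1 + 1 / 2 ^ c2 := by
      by_contra h4
      exact h (hs _ (not_le.1 h4))
    rw [one_le_div hnr] at h2
    have h4 : n ≤ m := by exact_mod_cast h2
    refine ⟨m - n, ?_, ?_, by omega⟩
    · rw [Nat.even_iff]
      omega
    · rw [div_le_iff₀ hnr] at h3
      have h5 : ((m - n : ℕ) : ℝ) = m - n := by rw [Nat.cast_sub h4]
      have h6 : ((m - n : ℕ) : ℝ) * 2 ^ c2 ≤ n := by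
        rw [h5]
        have h7 : (0 : ℝ) < 2 ^ c2 := by positivity
        have h8 : ((m : ℝ) - n) ≤ 1 / 2 ^ c2 * n := by linarith
        calc ((m : ℝ) - n) * 2 ^ c2 ≤ 1 / 2 ^ c2 * n * 2 ^ c2 := mul_le_mul_of_nonneg_right h8 h7.le
          _ = n := by field_simp
      exact_mod_cast h6
  · exact absurd rfl h

/-- the passage from the words with n letters to the plane ensemble, one function -/
lemma AA_near {Lg : ℝ} {g : ℝ → ℝ} (hg : Bump Lg g) {c2 n : ℕ} (hs : ∀ u, 1 + 1 / 2 ^ c2 < u → g u = 0) (hn : 1 ≤ n)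
    {F : List Bool → ℝ} {e : ℝ} (h : ∀ h : ℕ, Even h → h * 2 ^ c2 ≤ n →
      |xc ^ (n + h) * ∑ t ∈ sawF (n + h), F t - xc ^ n * ∑ t ∈ sawF n, F t| ≤ e) :
    |∑ t ∈ AAF n, pA g n t * F t - WA g n * (xc ^ n * ∑ t ∈ sawF n, F t)| ≤ WA g n * e := by
  rw [sum_AA]
  unfold WA
  rw [sum_mul, sum_mul, ← sum_sub_distrib]
  refine (abs_sum_le_sum_abs _ _).trans (sum_le_sum fun m _ => ?_)
  rw [← mul_sub, abs_mul, abs_of_nonneg (wA_nonneg hg n m)]
  by_cases h0 : wA g n m = 0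
  · rw [h0, zero_mul, zero_mul]
  · obtain ⟨j, hj1, hj2, rfl⟩ := wA_ne hg hs hn h0
    refine mul_le_mul_of_nonneg_left ?_ (wA_nonneg hg n _)
    rw [← mul_sum]
    exact h j hj1 hj2

/-- **the mean over the words with n letters is the mean over the plane ensemble** -/
theorem slowA (hF : SLW.SlowF) : ∀ ε : ℝ, 0 < ε → ∃ τ : ℝ, 0 < τ ∧ ∀ c1 : ℕ, ∃ c2 k0 : ℕ, ∀ k n : ℕ, k0 ≤ k → 1 ≤ n →
    TIP.Sc k n → ∀ (Lg : ℝ) (g : ℝ → ℝ), Bump Lg g → (∀ u, 1 + 1 / 2 ^ c2 < u → g u = 0) →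
    ∀ F : List Bool → ℝ, (∀ t, |F t| ≤ 1) →
    (∀ A Y, A ++ Y ∈ SA → (∀ i, i ≤ Y.length → hn (vx oo up Y i) < 2 ^ (k - c1)) → |F (A ++ Y) - F A| ≤ τ) →
    |∑ t ∈ AAF n, pA g n t * F t - MA g n * ((∑ t ∈ sawF n, F t) / cS n)| ≤ ε * MA g n := by
  intro ε hε
  obtain ⟨δ, hδ⟩ : ∃ δ : ℝ, δ = min (ε / 4) (1 / 2) := ⟨_, rfl⟩
  have hδ0 : 0 < δ := by rw [hδ]; exact lt_min (by positivity) (by norm_num)
  have hδ1 : δ ≤ ε / 4 := by rw [hδ]; exact min_le_left _ _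
  have hδ2 : δ ≤ 1 / 2 := by rw [hδ]; exact min_le_right _ _
  obtain ⟨τ, hτ, h⟩ := hF δ hδ0
  refine ⟨τ, hτ, fun c1 => ?_⟩
  obtain ⟨c2, k0, h⟩ := h c1
  refine ⟨c2, k0, fun k n hk hn hSc Lg g hg hs F hF1 hF2 => ?_⟩
  have ha : 0 < (cS n * xc ^ n : ℝ) := by
    have h1 : (0 : ℝ) < cS n := by exact_mod_cast TOG.cS_pos n
    exact mul_pos h1 (pow_pos xc_pos _)
  have hc : (0 : ℝ) < cS n := by exact_mod_cast TOG.cS_pos n
  have hW := WA_nonneg hg n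
  have h1 := AA_near hg hs hn (F := F) (fun j hj1 hj2 => h k n j hk hSc hj1 hj2 F hF1 hF2)
  have h2 := AA_near hg hs hn (F := fun _ => 1) (fun j hj1 hj2 => h k n j hk hSc hj1 hj2 (fun _ => 1) (fun _ => by
    rw [abs_one]) (fun _ _ _ _ => by rw [sub_self, abs_zero]; exact hτ.le))
  have e1 : ∑ t ∈ AAF n, pA g n t * 1 = MA g n := by
    unfold MA
    exact sum_congr rfl fun t _ => mul_one _
  have e2 : xc ^ n * ∑ _t ∈ sawF n, (1 : ℝ) = cS n * xc ^ n := by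
    rw [sum_const, nsmul_eq_mul, SLW.card_sawF]
    ring
  rw [e1, e2] at h2
  obtain ⟨m, hm⟩ : ∃ m : ℝ, m = (∑ t ∈ sawF n, F t) / cS n := ⟨_, rfl⟩
  have hm1 : |m| ≤ 1 := by
    rw [hm, abs_div, abs_of_pos hc, div_le_one hc]
    refine (abs_sum_le_sum_abs _ _).trans ?_
    calc ∑ t ∈ sawF n, |F t| ≤ ∑ _t ∈ sawF n, (1 : ℝ) := sum_le_sum fun t _ => hF1 t
      _ = cS n := by rw [sum_const, nsmul_eq_mul, SLW.card_sawF, mul_one]
  have e3 : xc ^ n * ∑ t ∈ sawF n, F t = m * (cS n * xc ^ n) := by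
    rw [hm]
    field_simp
  rw [e3] at h1
  rw [← hm]
  have h3 := abs_le.1 h1
  have h4 := abs_le.1 h2
  have h5 := abs_le.1 hm1
  -- the mass
  have h6 : WA g n * (cS n * xc ^ n) ≤ 2 * MA g n := by nlinarith [mul_nonneg hW ha.le]
  have h7 : |∑ t ∈ AAF n, pA g n t * F t - MA g n * m| ≤ 2 * (δ * (WA g n * (cS n * xc ^ n))) := by
    have h8 : |(WA g n * (cS n * xc ^ n) - MA g n) * m| ≤ WA g n * (δ * (cS n * xc ^ n)) := by
      rw [abs_mul, abs_sub_comm]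
      exact (mul_le_mul h2 hm1 (abs_nonneg _) ((abs_nonneg _).trans h2)).trans (le_of_eq (mul_one _))
    have e4 : ∑ t ∈ AAF n, pA g n t * F t - MA g n * m =
        (∑ t ∈ AAF n, pA g n t * F t - WA g n * (m * (cS n * xc ^ n))) + (WA g n * (cS n * xc ^ n) - MA g n) * m := by ring
    rw [e4]
    refine (abs_add_le _ _).trans ((add_le_add h1 h8).trans (le_of_eq ?_))
    ring
  refine h7.trans ?_
  have h9 : 0 ≤ MA g n := MA_nonneg hg n
  calc 2 * (δ * (WA g n * (cS n * xc ^ n))) ≤ 2 * (δ * (2 * MA g n)) := by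
        refine mul_le_mul_of_nonneg_left (mul_le_mul_of_nonneg_left h6 hδ0.le) (by norm_num)
    _ = 4 * δ * MA g n := by ring
    _ ≤ ε * MA g n := mul_le_mul_of_nonneg_right (by linarith) h9

end PWN

end HexObs
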