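import Pool.Agent.PW.DictW

/-!
# PW, row F (helper16): reversal of the words with `n` letters

A functional of the path that does not change under the rotations has the same sum over the words with `n` letters for the
path seen from the start and for the path seen from the end (`sum_rev`), and the same for pairs (start, end) (`sum_rev2`).
-/

set_option autoImplicit false

noncomputable section

namespace NTSF

open Finset

open HexObs hiding pos

open Pool.Agent.NTS.Res Pool.Agent.PW.Res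

open NTF (sw aa de Ed JJ de_aa gf_card xcn_pos)

variable {n : ℕ}

/-- sums of functions that do not change under the rotation -/
theorem sum_words (hn : 0 < n) {S : Finset (List Bool)} (hS : ∀ t, t ∈ S ↔ t ∈ SawN n) (g : (Fin n → Fin 3) → ℂ)
    (hg : ∀ s, g (rot s) = g s) : 3 * ∑ t ∈ S, g (sw n t) = 2 * ∑ s ∈ saw n, g s := by
  rw [sum_rot hn g hg, sum_sw hn hS g]
  ring

/-- the path seen from the start -/
def pS (t : List Bool) (i : ℕ) : ℂ := JJ (vx oo up t i)

/-- the path seen from the end -/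
def pE (n : ℕ) (t : List Bool) (i : ℕ) : ℂ := JJ (vx oo up t (n - i)) - JJ (vx oo up t n)

theorem pS_sw (t : List Bool) {i : ℕ} (hi : i ≤ n) : pS t i = pos (sw n t) i := (pos_sw n t i hi).symm

theorem pE_sw (t : List Bool) (i : ℕ) : pE n t i = pos (sw n t) (n - i) - pos (sw n t) n := by
  unfold pE
  rw [pos_sw n t _ (Nat.sub_le n i), pos_sw n t n le_rfl]

/-- **reversal**, for pairs -/
theorem sum_rev2 (hn : 0 < n) {S : Finset (List Bool)} (hS : ∀ t, t ∈ S ↔ t ∈ SawN n) (Q : (ℕ → ℂ) → (ℕ → ℂ) → ℂ)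
    (hrot : ∀ z z', Q (fun i => om * z i) (fun i => om * z' i) = Q z z')
    (hneg : ∀ z z', Q (fun i => -z i) (fun i => -z' i) = Q z z')
    (hloc : ∀ z z' w w', (∀ i, i ≤ n → z i = z' i) → (∀ i, i ≤ n → w i = w' i) → Q z w = Q z' w') :
    ∑ t ∈ S, Q (pS t) (pE n t) = ∑ t ∈ S, Q (pE n t) (pS t) := by
  have hn1 : ∀ (z z' : ℕ → ℂ) (k : ℕ), Q (fun i => (-1) ^ k * z i) (fun i => (-1) ^ k * z' i) = Q z z' := by
    intro z z' k
    rcases Nat.even_or_odd k with h | h
    · simp [h.neg_one_pow]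
    · simpa [h.neg_one_pow] using hneg z z'
  have a1 := sum_words hn hS (fun s => Q (fun i => pos s i) (fun i => pos s (n - i) - pos s n)) (fun s => by
    simp only [pos_rot, ← mul_sub]
    exact hrot _ _)
  have a2 := sum_words hn hS (fun s => Q (fun i => pos s (n - i) - pos s n) (fun i => pos s i)) (fun s => by
    simp only [pos_rot, ← mul_sub]
    exact hrot _ _)
  have a3 : ∑ s ∈ saw n, Q (fun i => pos s i) (fun i => pos s (n - i) - pos s n) =
      ∑ s ∈ saw n, Q (fun i => pos s (n - i) - pos s n) (fun i => pos s i) := by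
    rw [← sum_rv]
    refine sum_congr rfl fun s _ => ?_
    have h1 : ∀ i, i ≤ n → pos (rv s) i = (-1) ^ n * (pos s (n - i) - pos s n) := fun i hi => pos_rv s hi
    have h2 : ∀ i, i ≤ n → pos (rv s) (n - i) - pos (rv s) n = (-1) ^ n * pos s i := by
      intro i hi
      rw [pos_rv s (Nat.sub_le n i), pos_rv s le_rfl, Nat.sub_sub_self hi, Nat.sub_self]
      have : pos s 0 = 0 := pos_zero s
      rw [this]
      ring
    exact (hloc _ _ _ _ h1 h2).trans (hn1 (fun i => pos s (n - i) - pos s n) (fun i => pos s i) n)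
  have a4 : ∑ t ∈ S, Q (pS t) (pE n t) =
      ∑ t ∈ S, Q (fun i => pos (sw n t) i) (fun i => pos (sw n t) (n - i) - pos (sw n t) n) :=
    sum_congr rfl fun t _ => hloc _ _ _ _ (fun i hi => pS_sw t hi) (fun i _ => pE_sw t i)
  have a5 : ∑ t ∈ S, Q (pE n t) (pS t) =
      ∑ t ∈ S, Q (fun i => pos (sw n t) (n - i) - pos (sw n t) n) (fun i => pos (sw n t) i) :=
    sum_congr rfl fun t _ => hloc _ _ _ _ (fun i _ => pE_sw t i) (fun i hi => pS_sw t hi)
  rw [a4, a5]
  have a6 : (3 : ℂ) * ∑ t ∈ S, Q (fun i => pos (sw n t) i) (fun i => pos (sw n t) (n - i) - pos (sw n t) n) =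
      3 * ∑ t ∈ S, Q (fun i => pos (sw n t) (n - i) - pos (sw n t) n) (fun i => pos (sw n t) i) := by
    rw [a1, a2, a3]
  exact mul_left_cancel₀ (by norm_num) a6

/-- **reversal** -/
theorem sum_rev (hn : 0 < n) {S : Finset (List Bool)} (hS : ∀ t, t ∈ S ↔ t ∈ SawN n) (Q : (ℕ → ℂ) → ℂ)
    (hrot : ∀ z, Q (fun i => om * z i) = Q z) (hneg : ∀ z, Q (fun i => -z i) = Q z)
    (hloc : ∀ z z', (∀ i, i ≤ n → z i = z' i) → Q z = Q z') :
    ∑ t ∈ S, Q (pE n t) = ∑ t ∈ S, Q (pS t) :=
  (sum_rev2 hn hS (fun z _ => Q z) (fun z _ => hrot z) (fun z _ => hneg z) (fun z z' _ _ h _ => hloc z z' h)).symm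

/-- **reversal**, real functionals -/
theorem sum_revR (hn : 0 < n) {S : Finset (List Bool)} (hS : ∀ t, t ∈ S ↔ t ∈ SawN n) (Q : (ℕ → ℂ) → ℝ)
    (hrot : ∀ z, Q (fun i => om * z i) = Q z) (hneg : ∀ z, Q (fun i => -z i) = Q z)
    (hloc : ∀ z z', (∀ i, i ≤ n → z i = z' i) → Q z = Q z') :
    ∑ t ∈ S, Q (pE n t) = ∑ t ∈ S, Q (pS t) := by
  have h := sum_rev hn hS (fun z => ((Q z : ℝ) : ℂ)) (fun z => by rw [hrot]) (fun z => by rw [hneg])
    (fun z z' h => by rw [hloc z z' h])
  exact_mod_cast h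

end NTSF

end
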