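import Pool.Agent.PW.WindC
import Pool.Agent.PW.RevM
import Pool.Agent.TIW.Base

/-!
# PW, row BM-R (helper69): the far winding hardly changes when a short piece is removed at the tip

`z` = the path seen from the end. If `z` stays in the ball of radius `2 r` up to the time `y`, is at a distance at least
`4 r` after the time `k / 2` and turns by at most `L` between `k` and `2 k` (and between `l` and `2 l`), then the winding
between the times `k` and `l` around the vertex number `y` (the end of the path without the last `y` steps) differs from the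
winding around the end by at most `2 L + π / 2`.

* `far_turn` : sequences;
* `far_word` : words `A ++ Y`.
-/

set_option autoImplicit false

namespace NTSF

open Finset

open HexObs hiding pos

open HexObs.PWd HexObs.TIW

/-- **the far winding around the new end**, sequences -/
theorem far_turn {z : ℕ → ℂ} {r L : ℝ} {y n k l : ℕ} (hr : 0 < r) (hkl : k ≤ l) (hL : 0 ≤ L)
    (hd : ∀ i, i < n → ‖z (i + 1) - z i‖ ≤ r) (hyn : y ≤ n) (hy : ‖z y‖ ≤ 2 * r)
    (hfar : ∀ i, k / 2 ≤ i → i ≤ n → 4 * r ≤ ‖z i‖)
    (hk : ∀ i, k ≤ i → i ≤ 2 * k → i ≤ n → |turn z k i| ≤ L)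
    (hl : ∀ i, l ≤ i → i ≤ 2 * l → i ≤ n → |turn z l i| ≤ L) :
    |turn (fun i => z (y + i) - z y) (min k (n - y)) (min l (n - y)) - turn z (min k n) (min l n)| ≤
      2 * L + Real.pi / 2 := by
  have hpi := Real.pi_pos
  have hyk : y < k / 2 ∨ n < k / 2 := by
    by_contra hc
    push Not at hc
    have := hfar y hc.1 hyn
    linarith
  rcases hyk with hyk | hnk
  swap
  · rw [min_eq_right (by omega), min_eq_right (by omega), min_eq_right (by omega), min_eq_right (by omega), turn_self,
      turn_self, sub_zero, abs_zero]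
    positivity
  obtain ⟨a, ha⟩ : ∃ a, a = min (k + y) n := ⟨_, rfl⟩
  obtain ⟨b, hb⟩ : ∃ b, b = min (l + y) n := ⟨_, rfl⟩
  have hab : a ≤ b := by
    rw [ha, hb]
    exact min_le_min (by omega) le_rfl
  have e1 : turn (fun i => z (y + i) - z y) (min k (n - y)) (min l (n - y)) = turn (fun i => z i - z y) a b := by
    have h := turn_shift (fun i => z i - z y) y (min k (n - y)) (min l (n - y))
    have h1 : y + min k (n - y) = a := by omega
    have h2 : y + min l (n - y) = b := by omega
    rw [h1, h2] at h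
    exact h
  -- the two pieces
  have p1 : |turn z (min k n) a| ≤ L := by
    rcases Nat.lt_or_ge n k with h | h
    · rw [show min k n = a by omega, turn_self, abs_zero]
      exact hL
    · rw [min_eq_left h]
      exact hk a (by omega) (by omega) (by omega)
  have p2 : |turn z (min l n) b| ≤ L := by
    rcases Nat.lt_or_ge n l with h | h
    · rw [show min l n = b by omega, turn_self, abs_zero]
      exact hL
    · rw [min_eq_left h]
      exact hl b (by omega) (by omega) (by omega)
  have e2 : turn z a b = turn z (min k n) (min l n) + turn z (min l n) b - turn z (min k n) a := by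
    have h1 := turn_add z (show min k n ≤ a by omega) hab
    have h2 := turn_add z (show min k n ≤ min l n by omega) (show min l n ≤ b by omega)
    linarith
  -- the change of the centre
  have p3 : |turn (fun i => z i - z y) a b - turn z a b| ≤ Real.pi / 2 := by
    rcases Nat.lt_or_ge a (k / 2) with h | h
    · have h1 : a = b := by omega
      rw [h1, turn_self, turn_self, sub_zero, abs_zero]
      positivity
    have h0 : ∀ i, a ≤ i → i ≤ b → 4 * r ≤ ‖z i‖ := fun i h1 h2 => hfar i (by omega) (by omega)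
    have h00 : ∀ i, a ≤ i → i ≤ b → z i ≠ 0 := fun i h1 h2 h3 => by
      have := h0 i h1 h2
      rw [h3, norm_zero] at this
      linarith
    refine turn_near_f (v := z) (f := fun i => 1 - z y / z i) hab ?_ h00 ?_ ?_
    · intro i h1 h2
      have := h00 i h1 h2
      field_simp
    · intro i h1 h2
      have h3 := h0 i h1 h2
      have h4 : (1 - z y / z i) - 1 = -(z y / z i) := by ring
      rw [h4, norm_neg, norm_div, div_le_iff₀ (by linarith)]
      linarith
    · intro i h1 h2
      have h3 := h0 i h1 h2.le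
      refine arg_step ?_ (h00 i h1 h2.le)
      have h4 := hd i (by omega)
      have h5 := norm_nonneg (z (i + 1) - z i)
      have h6 : ‖z (i + 1) - z i‖ ^ 2 ≤ r ^ 2 := pow_le_pow_left₀ h5 h4 2
      have h7 : (4 * r) ^ 2 ≤ ‖z i‖ ^ 2 := pow_le_pow_left₀ (by linarith) h3 2
      have h8 : 0 ≤ ‖z (i + 1)‖ ^ 2 := by positivity
      nlinarith
  rw [e1]
  rw [abs_le] at p1 p2 p3 ⊢
  rw [e2] at p3
  constructor <;> linarith [p1.1, p1.2, p2.1, p2.2, p3.1, p3.2]

/-- the path seen from the end of A, in the path seen from the end of A ++ Y -/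
theorem pE_app (A Y : List Bool) {i : ℕ} (hi : i ≤ A.length) : pE A.length A i =
    pE (A ++ Y).length (A ++ Y) (Y.length + i) - pE (A ++ Y).length (A ++ Y) Y.length := by
  unfold pE
  have h1 : (A ++ Y).length - (Y.length + i) = A.length - i := by
    rw [List.length_append]
    omega
  have h2 : (A ++ Y).length - Y.length = A.length := by
    rw [List.length_append]
    omega
  rw [h1, h2, vx_append (show A.length - i ≤ A.length + 1 by omega), vx_append (show A.length ≤ A.length + 1 by omega)]
  ring

lemma JJ_hn (p : Pt) : ‖NTF.JJ p‖ ≤ hn p := by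
  have h1 := NTF.JJ_norm p
  have h2 := nrm_le_hn p
  have h3 := hn_nonneg p
  have h4 : ((nrm p : ℤ) : ℝ) ≤ (hn p : ℝ) ^ 2 := by exact_mod_cast h2
  have h5 : ‖NTF.JJ p‖ ^ 2 ≤ (hn p : ℝ) ^ 2 := by
    rw [h1]
    exact h4
  exact (sq_le_sq₀ (norm_nonneg _) (by exact_mod_cast h3)).1 h5

/-- the short piece stays near the end -/
theorem pE_short {A Y : List Bool} {r : ℕ} (hY : ∀ i, i ≤ Y.length → hn (vx oo up Y i) < r) {i : ℕ} (hi : i ≤ Y.length) :
    ‖pE (A ++ Y).length (A ++ Y) i‖ ≤ 2 * r := by
  have h : ∀ j, j ≤ Y.length → ‖NTF.JJ (vx oo up (A ++ Y) (A.length + j)) - NTF.JJ (en A)‖ ≤ r := by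
    intro j hj
    rw [← NTF.JJ_sub, vx_app, add_sub_cancel_left]
    refine (JJ_hn _).trans ?_
    rw [hn_mulE (nrm_rt A)]
    exact_mod_cast (hY j hj).le
  unfold pE
  have h1 := h (Y.length - i) (by omega)
  have h2 := h Y.length le_rfl
  have e1 : (A ++ Y).length - i = A.length + (Y.length - i) := by
    rw [List.length_append]
    omega
  have e2 : (A ++ Y).length = A.length + Y.length := List.length_append
  rw [e1, e2]
  have e3 : NTF.JJ (vx oo up (A ++ Y) (A.length + (Y.length - i))) - NTF.JJ (vx oo up (A ++ Y) (A.length + Y.length)) =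
      (NTF.JJ (vx oo up (A ++ Y) (A.length + (Y.length - i))) - NTF.JJ (en A)) -
      (NTF.JJ (vx oo up (A ++ Y) (A.length + Y.length)) - NTF.JJ (en A)) := by ring
  rw [e3]
  refine (norm_sub_le _ _).trans ?_
  linarith

/-- steps -/
theorem pE_step (t : List Bool) {i : ℕ} (hi : i < t.length) : ‖pE t.length t (i + 1) - pE t.length t i‖ ≤ 1 := by
  unfold pE
  obtain ⟨j, hj1, hj2⟩ : ∃ j, t.length - (i + 1) = j ∧ t.length - i = j + 1 := ⟨t.length - (i + 1), rfl, by omega⟩
  rw [hj1, hj2]
  have e1 : NTF.JJ (vx oo up t j) - NTF.JJ (vx oo up t t.length) - (NTF.JJ (vx oo up t (j + 1)) - NTF.JJ (vx oo up t t.length)) =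
      -(NTF.JJ (vx oo up t (j + 1)) - NTF.JJ (vx oo up t j)) := by ring
  have e2 : vx oo up t (j + 1) - vx oo up t j = dx up t j := by
    show vx oo up t j + dx up t j - vx oo up t j = _
    rw [add_sub_cancel_left]
  rw [e1, norm_neg, ← NTF.JJ_sub, e2]
  have h1 := NTF.JJ_norm (dx up t j)
  have h2 : nrm (dx up t j) = 1 := mem_dirs.1 (dx_mem upd' t j)
  rw [h2, Int.cast_one] at h1
  have h3 := norm_nonneg (NTF.JJ (dx up t j))
  nlinarith

/-- **the far winding around the new end**, words -/
theorem far_word {A Y : List Bool} {r : ℕ} {L : ℝ} {k l : ℕ} (hr : 1 ≤ r)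
    (hY : ∀ i, i ≤ Y.length → hn (vx oo up Y i) < r) (hkl : k ≤ l) (hL : 0 ≤ L)
    (hfar : ∀ i, k / 2 ≤ i → i ≤ (A ++ Y).length → 4 * (r : ℝ) ≤ ‖pE (A ++ Y).length (A ++ Y) i‖)
    (hk : ∀ i, k ≤ i → i ≤ 2 * k → i ≤ (A ++ Y).length → |turn (pE (A ++ Y).length (A ++ Y)) k i| ≤ L)
    (hl : ∀ i, l ≤ i → i ≤ 2 * l → i ≤ (A ++ Y).length → |turn (pE (A ++ Y).length (A ++ Y)) l i| ≤ L) :
    |turn (pE A.length A) (min k A.length) (min l A.length) -
      turn (pE (A ++ Y).length (A ++ Y)) (min k (A ++ Y).length) (min l (A ++ Y).length)| ≤ 2 * L + Real.pi / 2 := by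
  have hr' : (1 : ℝ) ≤ r := by exact_mod_cast hr
  have h1 := far_turn (z := pE (A ++ Y).length (A ++ Y)) (r := r) (y := Y.length) (n := (A ++ Y).length) (by linarith) hkl hL
    (fun i hi => (pE_step (A ++ Y) hi).trans hr') (by
      rw [List.length_append]
      omega) (pE_short hY le_rfl) hfar hk hl
  have h2 : (A ++ Y).length - Y.length = A.length := by
    rw [List.length_append]
    omega
  rw [h2] at h1
  have h3 : turn (pE A.length A) (min k A.length) (min l A.length) =
      turn (fun i => pE (A ++ Y).length (A ++ Y) (Y.length + i) - pE (A ++ Y).length (A ++ Y) Y.length)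
        (min k A.length) (min l A.length) :=
    turn_congr fun i _ hi => pE_app A Y (hi.trans (min_le_right _ _))
  rw [h3]
  exact h1

end NTSF
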