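import Pool.Agent.SLW.PubC
import Pool.Agent.PW.RevM
import Pool.Agent.PW.BmR
import Pool.Agent.PW.TipN

/-!
# PW, the joint law of the winding and the curve (helper90), deterministic part

`gam f n m z` : the function `f` of the curves, for the path `z` with `m` steps in the scaling of `n` steps (the curve of a
longer path is cut after `n` steps, that of a shorter path is constant after its end), mean over the three rotations.
`gS f n t`, `gE f n t` : the same for the path of the word `t` seen from its start / from its end (with the sign of the reversal).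

* **`sum_rev2n`** : the reversal for functionals without any symmetry under the rotation by `π` (16's `sum_rev2` with the sign);
* **`gS_end`** : a small end is hardly seen from the start (`= FT_end`);
* **`gE_det`** : the same from the end, up to an error function (the path is shifted in time).
-/

set_option autoImplicit false

noncomputable section

namespace NTSF

namespace Cg

open Finset MeasureTheory Filter Topology

open HexObs hiding pos

open HexObs.SDN HexObs.TS HexObs.TIW HexObs.PWN HexObs.PWN.RM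

open Pool.Agent.NTS.Res Pool.Agent.PW.Res

open NTF (JJ)

open Mg

open scoped Classical

/-! ### 1. The functional -/

/-- the path, constant after its end -/
def cut (m : ℕ) (z : ℕ → ℂ) (k : ℕ) : ℂ := z (min k m)

/-- the function of the curve, in the scaling of n, mean over the three rotations -/
def gam (f : C(unitInterval, ℂ) → ℝ) (n m : ℕ) (z : ℕ → ℂ) : ℝ :=
  (f (pn (cut m z) n) + f (pn (fun k => om * cut m z k) n) + f (pn (fun k => om * om * cut m z k) n)) / 3

lemma gam_om (f : C(unitInterval, ℂ) → ℝ) (n m : ℕ) (z : ℕ → ℂ) : gam f n m (fun i => om * z i) = gam f n m z := by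
  unfold gam
  have e1 : cut m (fun i => om * z i) = fun k => om * cut m z k := rfl
  have e2 : (fun k => om * cut m (fun i => om * z i) k) = fun k => om * om * cut m z k := by
    funext k
    rw [e1]
    ring
  have e3 : (fun k => om * om * cut m (fun i => om * z i) k) = cut m z := by
    funext k
    rw [e1]
    have := om_cube
    calc om * om * (om * cut m z k) = om * (om * om) * cut m z k := by ring
      _ = cut m z k := by rw [this, one_mul]
  rw [e1] at *
  rw [e2, e3]
  ring

lemma cut_congr {m : ℕ} {z z' : ℕ → ℂ} (h : ∀ i, i ≤ m → z i = z' i) : cut m z = cut m z' := by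
  funext k
  exact h _ (min_le_right _ _)

lemma gam_loc (f : C(unitInterval, ℂ) → ℝ) (n m : ℕ) {z z' : ℕ → ℂ} (h : ∀ i, i ≤ m → z i = z' i) :
    gam f n m z = gam f n m z' := by
  unfold gam
  rw [cut_congr h]

lemma gam_abs {f : C(unitInterval, ℂ) → ℝ} (hf : ∀ x, |f x| ≤ 1) (n m : ℕ) (z : ℕ → ℂ) : |gam f n m z| ≤ 1 := by
  have h1 := abs_le.1 (hf (pn (cut m z) n))
  have h2 := abs_le.1 (hf (pn (fun k => om * cut m z k) n))
  have h3 := abs_le.1 (hf (pn (fun k => om * om * cut m z k) n))
  unfold gam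
  rw [abs_le]
  constructor <;> linarith [h1.1, h1.2, h2.1, h2.2, h3.1, h3.2]

lemma gam_01 {f : C(unitInterval, ℂ) → ℝ} (hf : ∀ x, 0 ≤ f x ∧ f x ≤ 1) (n m : ℕ) (z : ℕ → ℂ) :
    0 ≤ gam f n m z ∧ gam f n m z ≤ 1 := by
  have h1 := hf (pn (cut m z) n)
  have h2 := hf (pn (fun k => om * cut m z k) n)
  have h3 := hf (pn (fun k => om * om * cut m z k) n)
  unfold gam
  constructor <;> linarith [h1.1, h1.2, h2.1, h2.2, h3.1, h3.2]

lemma pn_dist {z z' : ℕ → ℂ} {n : ℕ} (hn : 1 ≤ n) {R : ℝ} (hR : 0 ≤ R) (h : ∀ k, k ≤ n → ‖z k - z' k‖ ≤ R) :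
    dist (pn z n) (pn z' n) ≤ R / nr n := by
  have p1 := nr_pos hn
  rw [ContinuousMap.dist_le (by positivity)]
  intro u
  rw [dist_eq_norm]
  show ‖((nr n)⁻¹ : ℝ) • Tight.poly z n u - ((nr n)⁻¹ : ℝ) • Tight.poly z' n u‖ ≤ _
  rw [← smul_sub, norm_smul, Real.norm_eq_abs, abs_of_pos (inv_pos.2 p1), div_eq_inv_mul]
  exact mul_le_mul_of_nonneg_left (Mg.poly_dist h u) (inv_pos.2 p1).le

/-- close paths, close values -/
lemma gam_lip {f : C(unitInterval, ℂ) → ℝ} {K : NNReal} (hK : LipschitzWith K f) {n m m' : ℕ} (hn : 1 ≤ n) {z z' : ℕ → ℂ}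
    {R : ℝ} (hR : 0 ≤ R) (h : ∀ k, k ≤ n → ‖cut m z k - cut m' z' k‖ ≤ R) :
    |gam f n m z - gam f n m' z'| ≤ K * (R / nr n) := by
  have key : ∀ w w' : ℕ → ℂ, (∀ k, k ≤ n → ‖w k - w' k‖ ≤ R) → |f (pn w n) - f (pn w' n)| ≤ K * (R / nr n) := by
    intro w w' hw
    rw [← Real.dist_eq]
    exact (hK.dist_le_mul _ _).trans (mul_le_mul_of_nonneg_left (pn_dist hn hR hw) K.2)
  have k1 := abs_le.1 (key _ _ h)
  have k2 := abs_le.1 (key (fun k => om * cut m z k) (fun k => om * cut m' z' k) fun k hk => by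
    rw [← mul_sub, norm_mul, om_norm, one_mul]
    exact h k hk)
  have k3 := abs_le.1 (key (fun k => om * om * cut m z k) (fun k => om * om * cut m' z' k) fun k hk => by
    rw [← mul_sub, norm_mul, om2_n, one_mul]
    exact h k hk)
  unfold gam
  rw [abs_le]
  constructor <;> linarith [k1.1, k1.2, k2.1, k2.2, k3.1, k3.2]

/-! ### 2. The reversal with the sign -/

/-- **reversal**, for pairs, with the sign -/
theorem sum_rev2n {n : ℕ} (hn : 0 < n) {S : Finset (List Bool)} (hS : ∀ t, t ∈ S ↔ t ∈ SawN n)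
    (Q : (ℕ → ℂ) → (ℕ → ℂ) → ℂ) (hrot : ∀ z z', Q (fun i => om * z i) (fun i => om * z' i) = Q z z')
    (hloc : ∀ z z' w w', (∀ i, i ≤ n → z i = z' i) → (∀ i, i ≤ n → w i = w' i) → Q z w = Q z' w') :
    ∑ t ∈ S, Q (pS t) (pE n t) = ∑ t ∈ S, Q (fun i => (-1) ^ n * pE n t i) (fun i => (-1) ^ n * pS t i) := by
  have a1 := sum_words hn hS (fun s => Q (fun i => pos s i) (fun i => pos s (n - i) - pos s n)) (fun s => by
    simp only [pos_rot, ← mul_sub]
    exact hrot _ _)
  have a2 := sum_words hn hS (fun s => Q (fun i => (-1) ^ n * (pos s (n - i) - pos s n)) (fun i => (-1) ^ n * pos s i))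
    (fun s => by
      simp only [pos_rot, ← mul_sub]
      have e1 : (fun i => (-1 : ℂ) ^ n * (om * (pos s (n - i) - pos s n))) =
          fun i => om * ((-1) ^ n * (pos s (n - i) - pos s n)) := by
        funext i
        ring
      have e2 : (fun i => (-1 : ℂ) ^ n * (om * pos s i)) = fun i => om * ((-1) ^ n * pos s i) := by
        funext i
        ring
      rw [e1, e2]
      exact hrot _ _)
  have a3 : ∑ s ∈ saw n, Q (fun i => pos s i) (fun i => pos s (n - i) - pos s n) =
      ∑ s ∈ saw n, Q (fun i => (-1) ^ n * (pos s (n - i) - pos s n)) (fun i => (-1) ^ n * pos s i) := by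
    rw [← sum_rv]
    refine sum_congr rfl fun s _ => ?_
    have h1 : ∀ i, i ≤ n → pos (rv s) i = (-1) ^ n * (pos s (n - i) - pos s n) := fun i hi => pos_rv s hi
    have h2 : ∀ i, i ≤ n → pos (rv s) (n - i) - pos (rv s) n = (-1) ^ n * pos s i := by
      intro i hi
      rw [pos_rv s (Nat.sub_le n i), pos_rv s le_rfl, Nat.sub_sub_self hi, Nat.sub_self]
      have : pos s 0 = 0 := pos_zero s
      rw [this]
      ring
    exact hloc _ _ _ _ h1 h2
  have a4 : ∑ t ∈ S, Q (pS t) (pE n t) =
      ∑ t ∈ S, Q (fun i => pos (NTF.sw n t) i) (fun i => pos (NTF.sw n t) (n - i) - pos (NTF.sw n t) n) :=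
    sum_congr rfl fun t _ => hloc _ _ _ _ (fun i hi => pS_sw t hi) (fun i _ => pE_sw t i)
  have a5 : ∑ t ∈ S, Q (fun i => (-1) ^ n * pE n t i) (fun i => (-1) ^ n * pS t i) =
      ∑ t ∈ S, Q (fun i => (-1) ^ n * (pos (NTF.sw n t) (n - i) - pos (NTF.sw n t) n)) (fun i => (-1) ^ n * pos (NTF.sw n t) i) :=
    sum_congr rfl fun t _ => hloc _ _ _ _ (fun i _ => by rw [pE_sw t i]) (fun i hi => by rw [pS_sw t hi])
  rw [a4, a5]
  have a6 : (3 : ℂ) * ∑ t ∈ S, Q (fun i => pos (NTF.sw n t) i) (fun i => pos (NTF.sw n t) (n - i) - pos (NTF.sw n t) n) =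
      3 * ∑ t ∈ S, Q (fun i => (-1) ^ n * (pos (NTF.sw n t) (n - i) - pos (NTF.sw n t) n)) (fun i => (-1) ^ n * pos (NTF.sw n t) i) := by
    rw [a1, a2, a3]
  exact mul_left_cancel₀ (by norm_num) a6

/-! ### 3. Words -/

/-- the path of the word seen from its start -/
def gS (f : C(unitInterval, ℂ) → ℝ) (n : ℕ) (t : List Bool) : ℝ := gam f n t.length (pS t)

/-- the path of the word seen from its end, with the sign of the reversal -/
def gE (f : C(unitInterval, ℂ) → ℝ) (n : ℕ) (t : List Bool) : ℝ :=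
  gam f n t.length (fun i => (-1) ^ t.length * pE t.length t i)

lemma gS_abs {f : C(unitInterval, ℂ) → ℝ} (hf : ∀ x, |f x| ≤ 1) (n : ℕ) (t : List Bool) : |gS f n t| ≤ 1 := gam_abs hf _ _ _

lemma gE_abs {f : C(unitInterval, ℂ) → ℝ} (hf : ∀ x, |f x| ≤ 1) (n : ℕ) (t : List Bool) : |gE f n t| ≤ 1 := gam_abs hf _ _ _

lemma gS_FT (f : C(unitInterval, ℂ) → ℝ) (n : ℕ) (t : List Bool) : gS f n t = FT f n t := by
  unfold gS gam FT pT
  have e1 : cut t.length (pS t) = czT 1 t := by
    funext k
    show JJ (vx oo up t (min k t.length)) = 1 * JJ (vx oo up t (min k t.length))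
    rw [one_mul]
  have e2 : (fun k => om * cut t.length (pS t) k) = czT om t := rfl
  have e3 : (fun k => om * om * cut t.length (pS t) k) = czT (om * om) t := rfl
  rw [e2, e3, e1]

/-- **a small end, seen from the start** -/
theorem gS_end {f : C(unitInterval, ℂ) → ℝ} {K : NNReal} (hK : LipschitzWith K f) {A Y : List Bool} {R : ℕ}
    (hY : ∀ i, i ≤ Y.length → hn (vx oo up Y i) < R) {n : ℕ} (hn1 : 1 ≤ n) :
    |gS f n (A ++ Y) - gS f n A| ≤ K * (R / nr n) := by
  rw [gS_FT, gS_FT]
  exact FT_end hK hY hn1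

/-- **the reversal**, a function of the curve and a functional without the sign -/
theorem sum_gE {n m : ℕ} (hm : 0 < m) {S : Finset (List Bool)} (hS : ∀ t, t ∈ S ↔ t ∈ SawN m)
    (f : C(unitInterval, ℂ) → ℝ) (W : (ℕ → ℂ) → (ℕ → ℂ) → ℂ)
    (hrot : ∀ z z', W (fun i => om * z i) (fun i => om * z' i) = W z z')
    (hneg : ∀ z z', W (fun i => -z i) (fun i => -z' i) = W z z')
    (hloc : ∀ z z' w w', (∀ i, i ≤ m → z i = z' i) → (∀ i, i ≤ m → w i = w' i) → W z w = W z' w') :
    ∑ t ∈ S, ((gS f n t : ℝ) : ℂ) * W (pS t) (pE m t) = ∑ t ∈ S, ((gE f n t : ℝ) : ℂ) * W (pE m t) (pS t) := by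
  have hn1 : ∀ (z z' : ℕ → ℂ) (k : ℕ), W (fun i => (-1) ^ k * z i) (fun i => (-1) ^ k * z' i) = W z z' := by
    intro z z' k
    rcases Nat.even_or_odd k with h | h
    · simp [h.neg_one_pow]
    · simpa [h.neg_one_pow] using hneg z z'
  have h := sum_rev2n hm hS (fun z z' => ((gam f n m z : ℝ) : ℂ) * W z z') (fun z z' => by
    rw [gam_om, hrot]) (fun z z' w w' h1 h2 => by rw [gam_loc f n m h1, hloc z z' w w' h1 h2])
  have e1 : ∀ t ∈ S, ((gS f n t : ℝ) : ℂ) * W (pS t) (pE m t) = ((gam f n m (pS t) : ℝ) : ℂ) * W (pS t) (pE m t) := by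
    intro t ht
    have hl : t.length = m := ((hS t).1 ht).1
    unfold gS
    rw [hl]
  have e2 : ∀ t ∈ S, ((gE f n t : ℝ) : ℂ) * W (pE m t) (pS t) =
      ((gam f n m (fun i => (-1) ^ m * pE m t i) : ℝ) : ℂ) * W (fun i => (-1) ^ m * pE m t i) (fun i => (-1) ^ m * pS t i) := by
    intro t ht
    have hl : t.length = m := ((hS t).1 ht).1
    unfold gE
    rw [hl, hn1]
  rw [sum_congr rfl e1, sum_congr rfl e2]
  exact h

/-- the bad words: the path was near its tip before the last L steps, or it makes a large step in L steps -/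
def BadC (r L : ℕ) (η : ℝ) (t : List Bool) : Prop :=
  (∃ i, i + L < t.length ∧ hn (vx oo up t i - en t) < (r : ℤ)) ∨
    ∃ i j, i ≤ j ∧ j ≤ i + L ∧ j ≤ t.length ∧ η < ‖JJ (vx oo up t j) - JJ (vx oo up t i)‖

lemma BadC_mono {r r' L : ℕ} (h : r ≤ r') {η : ℝ} {t : List Bool} (hb : BadC r L η t) : BadC r' L η t := by
  rcases hb with ⟨i, h1, h2⟩ | h1
  · left
    refine ⟨i, h1, lt_of_lt_of_le h2 ?_⟩
    exact_mod_cast h
  · right
    exact h1

/-- the error function -/
def erC (K : NNReal) (n r L : ℕ) (η : ℝ) (t : List Bool) : ℝ := (if BadC r L η t then 2 else 0) + K * ((r + η) / nr n)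

lemma erC_nonneg {K : NNReal} {n r L : ℕ} {η : ℝ} (hη : 0 ≤ η) (hn : 1 ≤ n) (t : List Bool) : 0 ≤ erC K n r L η t := by
  have h1 := nr_pos hn
  have h2 : (0 : ℝ) ≤ K := K.2
  unfold erC
  have h3 : 0 ≤ (K : ℝ) * ((r + η) / nr n) := by positivity
  split_ifs <;> linarith

/-- **a small end, seen from the end: the paths**; the path of `A ++ Y` and that of `A`, both seen from their ends and constant after
their other ends, are close at every time -/
theorem cutE_dist {A Y : List Bool} {r r' L : ℕ} (hr : r ≤ r') {η : ℝ}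
    (hY : ∀ i, i ≤ Y.length → hn (vx oo up Y i) < (r : ℤ)) (hb : ¬ BadC r' L η (A ++ Y)) (k : ℕ) :
    ‖cut (A ++ Y).length (pE (A ++ Y).length (A ++ Y)) k - cut A.length (pE A.length A) k‖ ≤ r' + η := by
  have hl : (A ++ Y).length = A.length + Y.length := List.length_append
  unfold BadC at hb
  push Not at hb
  obtain ⟨hb1, hb2⟩ := hb
  have hen : en (A ++ Y) = en A + mulE (rt A) (vx oo up Y Y.length) := by
    show vx oo up (A ++ Y) (A ++ Y).length = _
    rw [hl]
    exact vx_app A Y Y.length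
  have hyL : Y.length ≤ L := by
    by_contra hcon
    push Not at hcon
    have h1 := hb1 A.length (by rw [hl]; omega)
    have e : vx oo up (A ++ Y) A.length - en (A ++ Y) = -mulE (rt A) (vx oo up Y Y.length) := by
      rw [hen, vx_append (show A.length ≤ A.length + 1 by omega)]
      show en A - (en A + _) = _
      abel
    rw [e, hn_neg, hn_mulE (nrm_rt A)] at h1
    have h2 := hY Y.length le_rfl
    have h3 : (r : ℤ) ≤ r' := by exact_mod_cast hr
    omega
  -- the shifted path
  have hzY : ‖pE (A ++ Y).length (A ++ Y) Y.length‖ ≤ r' := by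
    have e : pE (A ++ Y).length (A ++ Y) Y.length = -JJ (mulE (rt A) (vx oo up Y Y.length)) := by
      unfold pE
      have e0 : (A ++ Y).length - Y.length = A.length := by omega
      rw [e0, ← NTF.JJ_sub]
      have e1 : vx oo up (A ++ Y) A.length - vx oo up (A ++ Y) (A ++ Y).length =
          -mulE (rt A) (vx oo up Y Y.length) := by
        have e2 : vx oo up (A ++ Y) (A ++ Y).length = en (A ++ Y) := rfl
        rw [e2, hen, vx_append (show A.length ≤ A.length + 1 by omega)]
        show en A - (en A + _) = _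
        abel
      rw [e1, NTF.JJ_neg]
    rw [e, norm_neg]
    refine (JJ_le_hn _).trans ?_
    rw [hn_mulE (nrm_rt A)]
    have h1 := hY Y.length le_rfl
    have h2 : (r : ℤ) ≤ r' := by exact_mod_cast hr
    exact_mod_cast (h1.trans_le h2).le
  unfold cut
  rw [pE_app A Y (min_le_right k A.length)]
  have e : pE (A ++ Y).length (A ++ Y) (min k (A ++ Y).length) -
      (pE (A ++ Y).length (A ++ Y) (Y.length + min k A.length) - pE (A ++ Y).length (A ++ Y) Y.length) =
      pE (A ++ Y).length (A ++ Y) Y.length + (pE (A ++ Y).length (A ++ Y) (min k (A ++ Y).length) -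
        pE (A ++ Y).length (A ++ Y) (Y.length + min k A.length)) := by ring
  rw [e]
  refine (norm_add_le _ _).trans (add_le_add hzY ?_)
  have e2 : pE (A ++ Y).length (A ++ Y) (min k (A ++ Y).length) -
      pE (A ++ Y).length (A ++ Y) (Y.length + min k A.length) =
      JJ (vx oo up (A ++ Y) ((A ++ Y).length - min k (A ++ Y).length)) -
        JJ (vx oo up (A ++ Y) ((A ++ Y).length - (Y.length + min k A.length))) := by
    unfold pE
    ring
  rw [e2]
  exact hb2 _ _ (by omega) (by omega) (by omega)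

/-- **the same for the curves**, in the scaling of n and turned by any `a` with `|a| = 1` -/
theorem crvE_dist {A Y : List Bool} {r r' L : ℕ} (hr : r ≤ r') {η : ℝ} (hη : 0 ≤ η)
    (hY : ∀ i, i ≤ Y.length → hn (vx oo up Y i) < (r : ℤ)) (hb : ¬ BadC r' L η (A ++ Y)) {n : ℕ} (hn1 : 1 ≤ n) {a : ℂ}
    (ha : ‖a‖ = 1) : dist (pn (fun k => a * cut (A ++ Y).length (pE (A ++ Y).length (A ++ Y)) k) n)
      (pn (fun k => a * cut A.length (pE A.length A) k) n) ≤ (r' + η) / nr n := by
  refine pn_dist hn1 (by positivity) fun k _ => ?_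
  rw [← mul_sub, norm_mul, ha, one_mul]
  exact cutE_dist hr hY hb k

/-- **a small end, seen from the end** -/
theorem gE_det {f : C(unitInterval, ℂ) → ℝ} {K : NNReal} (hK : LipschitzWith K f) (hf : ∀ x, |f x| ≤ 1) {n : ℕ} (hn1 : 1 ≤ n)
    {r r' L : ℕ} (hr : r ≤ r') {η : ℝ} (hη : 0 ≤ η) : Rob r (gE f n) (erC K n r' L η) := by
  intro A Y hAY hde hY
  have hnr := nr_pos hn1
  have hev : Even Y.length := even_of_de hde
  have hl : (A ++ Y).length = A.length + Y.length := List.length_append
  have hsg : (-1 : ℂ) ^ (A ++ Y).length = (-1) ^ A.length := by rw [hl, pow_add, hev.neg_one_pow, mul_one]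
  have hns : ‖(-1 : ℂ) ^ A.length‖ = 1 := by rw [norm_pow, norm_neg, norm_one, one_pow]
  unfold erC
  by_cases hb : BadC r' L η (A ++ Y)
  · rw [if_pos hb]
    have h1 := abs_le.1 (gE_abs hf n (A ++ Y))
    have h2 := abs_le.1 (gE_abs hf n A)
    have h3 : (0 : ℝ) ≤ K := K.2
    have h4 : 0 ≤ (K : ℝ) * ((r' + η) / nr n) := by positivity
    rw [abs_le]
    constructor <;> linarith [h1.1, h1.2, h2.1, h2.2]
  · rw [if_neg hb, zero_add]
    refine gam_lip hK hn1 (by positivity) fun k _ => ?_
    have e1 : cut (A ++ Y).length (fun i => (-1) ^ (A ++ Y).length * pE (A ++ Y).length (A ++ Y) i) k -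
        cut A.length (fun i => (-1) ^ A.length * pE A.length A i) k =
        (-1) ^ A.length * (cut (A ++ Y).length (pE (A ++ Y).length (A ++ Y)) k - cut A.length (pE A.length A) k) := by
      unfold cut
      rw [hsg]
      ring
    rw [e1, norm_mul, hns, one_mul]
    exact cutE_dist hr hY hb k

end Cg

end NTSF

end
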