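import Pool.Agent.PW.CurveG
import Pool.Agent.PW.WindN
import Pool.Agent.IW.LowP

/-!
# PW, the joint law of the winding and the curve (helper90): the bad words are few

* `pm_mod`, `pm_ret` : the walks with `m` steps have a modulus, and they are not near their tip before the last `δ m` steps;
* **`badC_few`** : the bad words of `CurveG` are few;
* **`gS_rob`**, **`gE_rob`** : what the assembly needs about the curve factor.
-/

set_option autoImplicit false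

noncomputable section

namespace NTSF

namespace Cg

open Finset MeasureTheory Filter Topology

open HexObs hiding pos curve

open HexObs.SDN HexObs.TS HexObs.TIW HexObs.PWN HexObs.PWN.RM HexObs.TOG

open Pool.Agent.NTS.Res

open NTF (JJ)

open Mg

open scoped Classical

/-! ### 1. From the walks to the words -/

lemma Pn_of_card {n : ℕ} (hn : 1 ≤ n) {B : (Fin n → Fin 3) → Prop} (hrot : ∀ s, B (rot s) ↔ B s) {ε : ℝ}
    (h : (((saw n).filter B).card : ℝ) ≤ ε * ((saw n).card : ℝ)) {A : Set (List Bool)}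
    (hA : ∀ t, t ∈ SawN n → t ∈ A → B (NTF.sw n t)) : Pn n A ≤ ε := by
  have hn' : 0 < n := hn
  have h2 := NTSF.card_saw hn' B hrot
  have h3 := NTSF.card_saw hn' (fun _ => True) (fun _ => Iff.rfl)
  rw [Finset.filter_true_of_mem (fun _ _ => trivial)] at h3
  have e3 : {t | t ∈ SawN n ∧ True} = SawN n := by
    ext t
    exact ⟨fun h => h.1, fun h => ⟨h, trivial⟩⟩
  rw [e3] at h3
  have h4 : (0 : ℝ) < cS n := by
    have : 0 < cS n := cS_pos n
    exact_mod_cast this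
  have hf : {t | t ∈ SawN n ∧ B (NTF.sw n t)}.Finite :=
    (List.finite_length_eq Bool n).subset fun t ht => ht.1.1
  have h1 : {t | t ∈ SawN n ∧ t ∈ A}.ncard ≤ {t | t ∈ SawN n ∧ B (NTF.sw n t)}.ncard :=
    Set.ncard_le_ncard (fun t ht => ⟨ht.1, hA t ht.1 ht.2⟩) hf
  have h1' : ({t | t ∈ SawN n ∧ t ∈ A}.ncard : ℝ) ≤ ({t | t ∈ SawN n ∧ B (NTF.sw n t)}.ncard : ℝ) := by exact_mod_cast h1
  unfold Pn
  rw [div_le_iff₀ h4]
  have h5 : (2 : ℝ) * (((saw n).filter B).card : ℝ) = 3 * ({t | t ∈ SawN n ∧ B (NTF.sw n t)}.ncard : ℝ) := by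
    exact_mod_cast h2
  have h6 : (2 : ℝ) * ((saw n).card : ℝ) = 3 * (cS n : ℝ) := by
    have : 2 * (saw n).card = 3 * cS n := h3
    exact_mod_cast this
  have h7 : ε * (2 * ((saw n).card : ℝ)) = ε * (3 * (cS n : ℝ)) := by rw [h6]
  linarith

lemma curve_rot' {n : ℕ} (s : Fin n → Fin 3) (u : unitInterval) : curve (rot s) u = om * curve s u := by
  show ∑ k ∈ Finset.range n, _ = om * ∑ k ∈ Finset.range n, _
  rw [Finset.mul_sum]
  refine Finset.sum_congr rfl fun k _ => ?_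
  rw [pos_rot, pos_rot]
  ring

lemma sw_diff {n : ℕ} (t : List Bool) {i j : ℕ} (hi : i ≤ n) (hj : j ≤ n) :
    pos (NTF.sw n t) j - pos (NTF.sw n t) i = JJ (vx oo up t j) - JJ (vx oo up t i) := by
  rw [NTSF.pos_sw n t i hi, NTSF.pos_sw n t j hj]

/-! ### 2. Two facts about the walks with m steps -/

/-- **modulus** -/
lemma pm_mod {ε η : ℝ} (hε : 0 < ε) (hη : 0 < η) : ∃ δ : ℝ, 0 < δ ∧ ∀ m : ℕ, 1 ≤ m →
    Pn m {t | ∃ i j : ℕ, i ≤ j ∧ j ≤ m ∧ (j : ℝ) - i ≤ δ * m ∧ η * nr m < ‖JJ (vx oo up t j) - JJ (vx oo up t i)‖} ≤ ε := by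
  obtain ⟨c, C, hc, hsz, -⟩ := NTSF.finE
  have hC : 0 < C := by
    have := hsz 1 le_rfl
    rw [Nat.cast_one, Real.one_rpow, mul_one, mul_one] at this
    linarith [this.1, this.2]
  obtain ⟨M, δ0, -, hbad⟩ := Wd.few_bad (η := 1) one_pos hε
  have hM : (0 : ℝ) ≤ M := M.2
  refine ⟨(η / C / ((M : ℝ) + 1)) ^ 2, by positivity, fun m hm => ?_⟩
  refine Pn_of_card hm (B := fun s => ∃ i j : ℕ, i ≤ j ∧ j ≤ m ∧ (j : ℝ) - i ≤ (η / C / ((M : ℝ) + 1)) ^ 2 * m ∧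
    η * nr m < ‖pos s j - pos s i‖) (fun s => by simp only [NTSF.norm_rot]) (Wd.card_le_law hε.le (hbad m hm) ?_) ?_
  · rintro s - ⟨i, j, hij, hj, hd, hl⟩ hg
    have h1 := Wd.mod_walk hm hg.1 (by positivity : 0 < η / C) hij hj hd
    have h2 : η / C * size m ≤ η * nr m := by
      have h3 := (hsz m hm).2
      calc η / C * size m ≤ η / C * (C * (m : ℝ) ^ (3 / 4 : ℝ)) := mul_le_mul_of_nonneg_left h3 (by positivity)
        _ = η * nr m := by
          unfold nr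
          field_simp
    linarith
  · rintro t - ⟨i, j, hij, hj, hd, hl⟩
    refine ⟨i, j, hij, hj, hd, ?_⟩
    rw [sw_diff t (hij.trans hj) hj]
    exact hl

/-- **the walk is not near its tip before the last steps** -/
lemma pm_ret {ε δ : ℝ} (hε : 0 < ε) (hδ : 0 < δ) : ∃ ρ : ℝ, 0 < ρ ∧ ∃ m0 : ℕ, ∀ m : ℕ, m0 ≤ m →
    Pn m {t | ∃ i : ℕ, i ≤ m ∧ δ * m ≤ (m : ℝ) - i ∧ ‖JJ (vx oo up t i) - JJ (vx oo up t m)‖ < ρ * nr m} ≤ ε := by
  obtain ⟨c, C, hc, hsz, -⟩ := NTSF.finE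
  have hC : 0 < C := by
    have := hsz 1 le_rfl
    rw [Nat.cast_one, Real.one_rpow, mul_one, mul_one] at this
    linarith [this.1, this.2]
  obtain ⟨η, hη, m0, hlow⟩ := HexObs.TIP.NQ.low_Pn (h := δ) (ε := ε / 2) (M := 1) hδ (by positivity) le_rfl
  obtain ⟨M, δ0, hδ0, hbad⟩ := Wd.few_bad (η := η / C) (by positivity) (by positivity : 0 < ε / 2)
  refine ⟨δ0 * c, by positivity, max m0 1, fun m hm => ?_⟩
  have hm0 : m0 ≤ m := (le_max_left _ _).trans hm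
  have hm1 : 1 ≤ m := (le_max_right _ _).trans hm
  have hsm := NTSF.size_pos hm1
  obtain ⟨hs1, hs2⟩ := hsz m hm1
  have h1 := hlow m hm0 m le_rfl (by rw [one_mul])
  have h2 : Pn m {t | curve (NTF.sw m t) ∈ {γ : C(unitInterval, ℂ) | ∃ p q r : unitInterval, p ≤ q ∧ q ≤ r ∧
      η / C < dist (γ q) (γ p) ∧ dist (γ r) (γ p) < δ0}} ≤ ε / 2 := by
    refine Pn_of_card hm1 (B := fun s => curve s ∈ {γ : C(unitInterval, ℂ) | ∃ p q r : unitInterval, p ≤ q ∧ q ≤ r ∧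
      η / C < dist (γ q) (γ p) ∧ dist (γ r) (γ p) < δ0}) (fun s => ?_) (Wd.card_le_law (by positivity) (hbad m hm1) ?_)
      (fun t _ ht => ht)
    · have e : ∀ p q : unitInterval, dist (curve (rot s) q) (curve (rot s) p) = dist (curve s q) (curve s p) := by
        intro p q
        rw [curve_rot', curve_rot', dist_eq_norm, dist_eq_norm, ← mul_sub, norm_mul, om_norm, one_mul]
      simp only [Set.mem_ofPred_eq, e]
    · rintro s - hs hg
      exact hg.2 hs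
  refine (HexObs.TIP.NQ.pn_monoL ?_).trans ((HexObs.TIP.Nf.Pn_union m _ _).trans ((add_le_add h1 h2).trans
    (by rw [add_halves])))
  rintro t ⟨i, him, hdi, hlt⟩
  by_contra hcon
  rw [Set.mem_union, not_or] at hcon
  obtain ⟨hn1, hn2⟩ := hcon
  refine hn1 ⟨i, m, le_rfl, hdi, fun x hix hxm => ?_⟩
  by_contra hbig
  push Not at hbig
  refine hn2 ⟨Wd.tm m i, Wd.tm m x, Wd.tm m m, Wd.tm_mono hix hxm, Wd.tm_mono hxm le_rfl, ?_, ?_⟩
  · rw [Wd.curve_tm hm1 hxm, Wd.curve_tm hm1 him, dist_eq_norm, ← sub_div, norm_div, Complex.norm_of_nonneg hsm.le,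
      lt_div_iff₀ hsm, sw_diff t him hxm, ← NTF.JJ_sub]
    calc η / C * size m ≤ η / C * (C * (m : ℝ) ^ (3 / 4 : ℝ)) := mul_le_mul_of_nonneg_left hs2 (by positivity)
      _ = η * (m : ℝ) ^ (3 / 4 : ℝ) := by field_simp
      _ < _ := hbig
  · rw [Wd.curve_tm hm1 le_rfl, Wd.curve_tm hm1 him, dist_eq_norm, ← sub_div, norm_div, Complex.norm_of_nonneg hsm.le,
      div_lt_iff₀ hsm, sw_diff t him le_rfl, norm_sub_rev]
    calc _ < δ0 * c * nr m := hlt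
      _ = δ0 * (c * (m : ℝ) ^ (3 / 4 : ℝ)) := by
        unfold nr
        ring
      _ ≤ δ0 * size m := mul_le_mul_of_nonneg_left hs1 hδ0.le

/-! ### 3. The bad words are few -/

lemma nr_mono {m n : ℕ} (h : n ≤ m) : nr n ≤ nr m := by
  unfold nr
  exact Real.rpow_le_rpow (Nat.cast_nonneg _) (by exact_mod_cast h) (by norm_num)

lemma nr_two {m n : ℕ} (h : m ≤ 2 * n) : nr m ≤ 2 * nr n := by
  unfold nr
  have h1 : (m : ℝ) ≤ 2 * n := by exact_mod_cast h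
  have h2 : (m : ℝ) ^ (3 / 4 : ℝ) ≤ (2 * n : ℝ) ^ (3 / 4 : ℝ) := Real.rpow_le_rpow (Nat.cast_nonneg _) h1 (by norm_num)
  rw [Real.mul_rpow (by norm_num) (Nat.cast_nonneg _)] at h2
  have h3 : (2 : ℝ) ^ (3 / 4 : ℝ) ≤ 2 ^ (1 : ℝ) := Real.rpow_le_rpow_of_exponent_le (by norm_num) (by norm_num)
  rw [Real.rpow_one] at h3
  exact h2.trans (mul_le_mul_of_nonneg_right h3 (Real.rpow_nonneg (Nat.cast_nonneg _) _))

/-- large scales have large numbers of letters -/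
lemma big_of_sc (m0 : ℕ) : ∃ k0 : ℕ, ∀ k n : ℕ, k0 ≤ k → PW.mZ (2 ^ k) ≤ n → m0 ≤ n := by
  have h0 : 0 < PW.mZ (2 ^ 0) := NTA.mlow_M.pos 0
  obtain ⟨j, hj⟩ := pow_unbounded_of_one_lt ((m0 : ℝ) / PW.mZ (2 ^ 0)) (one_lt_two : (1 : ℝ) < 2)
  refine ⟨j, fun k n hk hn => ?_⟩
  rw [div_lt_iff₀ h0] at hj
  have h1 : (m0 : ℝ) ≤ n := by
    have h2 : (2 : ℝ) ^ j * PW.mZ (2 ^ 0) ≤ 2 ^ k * PW.mZ (2 ^ 0) :=
      mul_le_mul_of_nonneg_right (pow_le_pow_right₀ (by norm_num) hk) h0.le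
    linarith [mz_two k]
  exact_mod_cast h1

/-- the radius `2 ^ (k - C0)` is small in the scaling of n -/
lemma rad_small {κ : ℝ} (hκ : 0 < κ) : ∃ C0 : ℕ, ∀ c k n : ℕ, C0 ≤ c → c ≤ k → TIP.Sc k n → (2 : ℝ) ^ (k - c) ≤ κ * nr n := by
  obtain ⟨a, A, ha, hA, hpow⟩ := HexObs.TIP.NQ.scale_pow
  obtain ⟨C0, hC0⟩ := pow_unbounded_of_one_lt (1 / (a * κ)) (one_lt_two : (1 : ℝ) < 2)
  refine ⟨C0, fun c k n hc hck hsc => ?_⟩
  have h1 := (hpow k n hsc.1 hsc.2).1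
  rw [div_lt_iff₀ (by positivity)] at hC0
  have h2 : (2 : ℝ) ^ C0 ≤ 2 ^ c := pow_le_pow_right₀ (by norm_num) hc
  have h3 : (2 : ℝ) ^ k = 2 ^ (k - c) * 2 ^ c := by
    rw [← pow_add, Nat.sub_add_cancel hck]
  have h4 : 0 < (2 : ℝ) ^ (k - c) := by positivity
  have h5 : 1 ≤ 2 ^ c * (a * κ) := hC0.le.trans (mul_le_mul_of_nonneg_right h2 (by positivity))
  show (2 : ℝ) ^ (k - c) ≤ κ * (n : ℝ) ^ (3 / 4 : ℝ)
  calc (2 : ℝ) ^ (k - c) = 2 ^ (k - c) * 1 := (mul_one _).symm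
    _ ≤ 2 ^ (k - c) * (2 ^ c * (a * κ)) := mul_le_mul_of_nonneg_left h5 h4.le
    _ = κ * (a * 2 ^ k) := by
      rw [h3]
      ring
    _ ≤ κ * (n : ℝ) ^ (3 / 4 : ℝ) := mul_le_mul_of_nonneg_left h1 hκ.le

/-- **the bad words are few** -/
theorem badC_few {ε κ : ℝ} (hε : 0 < ε) (hκ : 0 < κ) : ∃ C0 k0 : ℕ, ∀ c k n : ℕ, C0 ≤ c → c ≤ k → k0 ≤ k → TIP.Sc k n →
    (2 : ℝ) ^ (k - c) ≤ κ * nr n ∧ ∃ L : ℕ, ∀ m, n ≤ m → m ≤ 2 * n → Pn m {t | BadC (2 ^ (k - c)) L (κ * nr n) t} ≤ ε := by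
  obtain ⟨δ, hδ, hmod⟩ := pm_mod (by positivity : 0 < ε / 2) (by positivity : 0 < κ / 2)
  obtain ⟨ρ, hρ, m0, hret⟩ := pm_ret (by positivity : 0 < ε / 2) (by positivity : 0 < δ / 2)
  obtain ⟨C0, hrad⟩ := rad_small (lt_min hκ hρ)
  obtain ⟨k0, hk0⟩ := big_of_sc (max m0 1)
  refine ⟨C0, k0, fun c k n hc hck hk hsc => ?_⟩
  have hnk := hk0 k n hk hsc.1
  have hn0 : m0 ≤ n := (le_max_left _ _).trans hnk
  have hn1 : 1 ≤ n := (le_max_right _ _).trans hnk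
  have hnr := nr_pos hn1
  have hr := hrad c k n hc hck hsc
  have hnr' : (0 : ℝ) < n := by exact_mod_cast hn1
  refine ⟨hr.trans (mul_le_mul_of_nonneg_right (min_le_left _ _) hnr.le), ⌊δ * n⌋₊, fun m h1 h2 => ?_⟩
  have hL1 : ((⌊δ * n⌋₊ : ℕ) : ℝ) ≤ δ * n := Nat.floor_le (by positivity)
  have hL2 : δ * n < (⌊δ * n⌋₊ : ℕ) + 1 := Nat.lt_floor_add_one _
  have hm1 : 1 ≤ m := hn1.trans h1
  have h1r : (n : ℝ) ≤ m := by exact_mod_cast h1
  have h2r : (m : ℝ) ≤ 2 * n := by exact_mod_cast h2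
  refine (HexObs.TIP.Nf.Pn_mono (B := {t | ∃ i : ℕ, i ≤ m ∧ δ / 2 * m ≤ (m : ℝ) - i ∧
      ‖JJ (vx oo up t i) - JJ (vx oo up t m)‖ < ρ * nr m} ∪ {t | ∃ i j : ℕ, i ≤ j ∧ j ≤ m ∧ (j : ℝ) - i ≤ δ * m ∧
      κ / 2 * nr m < ‖JJ (vx oo up t j) - JJ (vx oo up t i)‖}) ?_).trans ((HexObs.TIP.Nf.Pn_union m _ _).trans
      ((add_le_add (hret m (hn0.trans h1)) (hmod m hm1)).trans (by rw [add_halves])))
  intro t ht hb
  have hl : t.length = m := ht.1
  rcases hb with ⟨i, i1, i2⟩ | ⟨i, j, hij, hjL, hj, hlt⟩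
  · left
    rw [hl] at i1
    refine ⟨i, by omega, ?_, ?_⟩
    · have h3 : (i : ℝ) + (⌊δ * n⌋₊ : ℕ) + 1 ≤ m := by exact_mod_cast i1
      nlinarith
    · have e : en t = vx oo up t m := by
        show vx oo up t t.length = _
        rw [hl]
      rw [e] at i2
      rw [← NTF.JJ_sub]
      have h3 := JJ_le_hn (vx oo up t i - vx oo up t m)
      have h4 : ((hn (vx oo up t i - vx oo up t m) : ℤ) : ℝ) < (2 : ℝ) ^ (k - c) := by exact_mod_cast i2
      have h5 : min κ ρ * nr n ≤ ρ * nr m := mul_le_mul (min_le_right _ _) (nr_mono h1) hnr.le hρ.le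
      linarith
  · right
    rw [hl] at hj
    refine ⟨i, j, hij, hj, ?_, ?_⟩
    · have h3 : (j : ℝ) ≤ i + (⌊δ * n⌋₊ : ℕ) := by exact_mod_cast hjL
      have h4 : δ * n ≤ δ * m := mul_le_mul_of_nonneg_left h1r hδ.le
      linarith
    · have h3 := nr_two h2
      have h4 : κ / 2 * nr m ≤ κ * nr n := by nlinarith
      linarith

/-! ### 4. The curve factor in the assembly -/

/-- **seen from the start** -/
theorem gS_rob (K : NNReal) {τ : ℝ} (hτ : 0 < τ) : ∃ c1 : ℕ, ∀ c k n : ℕ, c1 ≤ c → c ≤ k → 1 ≤ n → TIP.Sc k n →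
    ∀ f : C(unitInterval, ℂ) → ℝ, LipschitzWith K f → SRob (k - c) τ (gS f n) := by
  have hK : (0 : ℝ) ≤ K := K.2
  obtain ⟨C0, hrad⟩ := rad_small (κ := τ / (K + 1)) (by positivity)
  refine ⟨C0, fun c k n hc hck hn1 hsc f hf A Y _ hY => ?_⟩
  have hnr := nr_pos hn1
  have h1 := gS_end hf (A := A) (Y := Y) (R := 2 ^ (k - c)) (fun i hi => by
    have := hY i hi
    push_cast
    exact this) hn1
  refine h1.trans ?_
  have h2 := hrad c k n hc hck hsc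
  have h3 : ((2 ^ (k - c) : ℕ) : ℝ) / nr n ≤ τ / (K + 1) := by
    rw [div_le_iff₀ hnr]
    push_cast
    exact h2
  calc (K : ℝ) * (((2 ^ (k - c) : ℕ) : ℝ) / nr n) ≤ K * (τ / (K + 1)) := mul_le_mul_of_nonneg_left h3 hK
    _ = τ * (K / (K + 1)) := by ring
    _ ≤ τ * 1 := by
      refine mul_le_mul_of_nonneg_left ?_ hτ.le
      rw [div_le_one (by positivity)]
      linarith
    _ = τ := mul_one _

lemma card_sF (m : ℕ) : ((sawF m).card : ℝ) = cS m := by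
  have e : ((sawF m : Finset (List Bool)) : Set (List Bool)) = SawN m := by
    ext t
    rw [Finset.mem_coe, mem_sawF]
  have : (sawF m).card = cS m := by
    unfold cS
    rw [← e, Set.ncard_coe_finset]
  exact_mod_cast this

lemma card_Pn (m : ℕ) (P : List Bool → Prop) : (((sawF m).filter P).card : ℝ) = cS m * Pn m {t | P t} := by
  have hc : (0 : ℝ) < cS m := by
    have : 0 < cS m := cS_pos m
    exact_mod_cast this
  have e : {t | t ∈ SawN m ∧ t ∈ {t | P t}} = ↑((sawF m).filter P) := by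
    ext t
    rw [coe_filter]
    constructor
    · rintro ⟨h1, h2⟩
      exact ⟨mem_sawF.2 h1, h2⟩
    · rintro ⟨h1, h2⟩
      exact ⟨mem_sawF.1 h1, h2⟩
  unfold Pn
  rw [e, Set.ncard_coe_finset]
  field_simp

/-- the sum of a two-valued error over the words with m letters -/
lemma sum_er {m : ℕ} {P : List Bool → Prop} {x y ε : ℝ} (hx : 0 ≤ x) (hy : 0 ≤ y) (hP : Pn m {t | P t} ≤ ε) :
    ∑ t ∈ sawF m, (if P t then x else y) ≤ (x * ε + y) * cS m := by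
  have hc : (0 : ℝ) < cS m := by
    have : 0 < cS m := cS_pos m
    exact_mod_cast this
  calc ∑ t ∈ sawF m, (if P t then x else y) ≤ ∑ t ∈ sawF m, ((if P t then x else 0) + y) := by
        refine sum_le_sum fun t _ => ?_
        split_ifs
        · linarith
        · linarith
    _ = x * (cS m * Pn m {t | P t}) + y * cS m := by
        rw [sum_add_distrib, ← sum_filter, sum_const, sum_const, nsmul_eq_mul, nsmul_eq_mul, card_sF, card_Pn]
        ring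
    _ ≤ x * (cS m * ε) + y * cS m := by
        have := mul_le_mul_of_nonneg_left (mul_le_mul_of_nonneg_left hP hc.le) hx
        linarith
    _ = _ := by ring

/-- **seen from the end** -/
theorem gE_rob (K : NNReal) {τ : ℝ} (hτ : 0 < τ) : ∃ C0 k0 : ℕ, ∀ c k n : ℕ, C0 ≤ c → c ≤ k → k0 ≤ k → TIP.Sc k n →
    ∃ er : List Bool → ℝ, (∀ t, 0 ≤ er t) ∧ (∀ t, er t ≤ 2 + τ) ∧
      (∀ f : C(unitInterval, ℂ) → ℝ, LipschitzWith K f → (∀ x, |f x| ≤ 1) → ∀ r ≤ 2 ^ (k - c), Rob r (gE f n) er) ∧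
      ∀ m, n ≤ m → m ≤ 2 * n → ∑ t ∈ sawF m, er t ^ 2 ≤ τ ^ 2 * cS m := by
  have hK : (0 : ℝ) ≤ K := K.2
  obtain ⟨C0, k0, hfew⟩ := badC_few (ε := τ ^ 2 / (2 * (2 + τ) ^ 2)) (κ := τ / (4 * (K + 1))) (by positivity) (by positivity)
  obtain ⟨k1, hk1⟩ := big_of_sc 1
  refine ⟨C0, max k0 k1, fun c k n hc hck hk hsc => ?_⟩
  have hn1 : 1 ≤ n := hk1 k n ((le_max_right _ _).trans hk) hsc.1
  have hnr := nr_pos hn1
  obtain ⟨hr, L, hP⟩ := hfew c k n hc hck ((le_max_left _ _).trans hk) hsc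
  have hη : 0 ≤ τ / (4 * ((K : ℝ) + 1)) * nr n := by positivity
  have hx0 : 0 ≤ (K : ℝ) * ((((2 ^ (k - c) : ℕ) : ℝ) + τ / (4 * (K + 1)) * nr n) / nr n) := by positivity
  have hx1 : (K : ℝ) * ((((2 ^ (k - c) : ℕ) : ℝ) + τ / (4 * (K + 1)) * nr n) / nr n) ≤ τ / 2 := by
    have h1 : (((2 ^ (k - c) : ℕ) : ℝ) + τ / (4 * (K + 1)) * nr n) / nr n ≤ τ / (2 * (K + 1)) := by
      rw [div_le_iff₀ hnr]
      push_cast
      have e : τ / (2 * ((K : ℝ) + 1)) * nr n = τ / (4 * (K + 1)) * nr n + τ / (4 * (K + 1)) * nr n := by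
        field_simp
        ring
      rw [e]
      linarith
    calc _ ≤ (K : ℝ) * (τ / (2 * (K + 1))) := mul_le_mul_of_nonneg_left h1 hK
      _ = τ / 2 * (K / (K + 1)) := by
        field_simp
      _ ≤ τ / 2 * 1 := by
        refine mul_le_mul_of_nonneg_left ?_ (by positivity)
        rw [div_le_one (by positivity)]
        linarith
      _ = τ / 2 := mul_one _
  refine ⟨erC K n (2 ^ (k - c)) L (τ / (4 * (K + 1)) * nr n), erC_nonneg hη hn1, fun t => ?_,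
    fun f hf hf1 r hr' => gE_det hf hf1 hn1 hr' hη, fun m h1 h2 => ?_⟩
  · unfold erC
    split_ifs <;> linarith
  · have h3 := sum_er (m := m) (P := BadC (2 ^ (k - c)) L (τ / (4 * (K + 1)) * nr n)) (x := (2 + τ) ^ 2) (y := (τ / 2) ^ 2)
      (by positivity) (by positivity) (hP m h1 h2)
    have h4 : ∑ t ∈ sawF m, erC K n (2 ^ (k - c)) L (τ / (4 * (K + 1)) * nr n) t ^ 2 ≤
        ∑ t ∈ sawF m, (if BadC (2 ^ (k - c)) L (τ / (4 * (K + 1)) * nr n) t then (2 + τ) ^ 2 else (τ / 2) ^ 2) := by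
      refine sum_le_sum fun t _ => ?_
      unfold erC
      split_ifs with h
      · exact pow_le_pow_left₀ (by linarith) (by linarith) 2
      · rw [zero_add]
        exact pow_le_pow_left₀ hx0 hx1 2
    refine h4.trans (h3.trans ?_)
    have hc : (0 : ℝ) ≤ cS m := Nat.cast_nonneg _
    refine mul_le_mul_of_nonneg_right ?_ hc
    have e : (2 + τ) ^ 2 * (τ ^ 2 / (2 * (2 + τ) ^ 2)) = τ ^ 2 / 2 := by
      have : (0 : ℝ) < 2 + τ := by linarith
      field_simp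
    rw [e]
    nlinarith [sq_nonneg τ]

end Cg

end NTSF

end
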