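import Pool.Agent.PW.StartZ
import Pool.Agent.PW.DomT
import Pool.Agent.PW.LeafTZ
import Pool.Agent.TPF.Main

/-!
PW, plane forms: the words of the plane with a given end (no cylinder). The sum over the scales, the box, the regular parts,
the start, domination by the words of a half plane. The scale K is free.
-/

set_option autoImplicit false

namespace HexObs

namespace PW

open Finset TS SDN NTW NTA SIM JNT TIP TPC

open scoped ENNReal

/-- the words of the plane with the end y -/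
def Py (y : Pt) : Set (List Bool) := {t | t ∈ SA ∧ labE t = y}

/-- **the tail over the scales** -/
theorem plane_tail : ∀ ε : ℝ, 0 < ε → ∃ J K0 : ℕ, ∀ (K : ℕ) (y : Pt), K0 ≤ K →
    gf {t | t ∈ Py y ∧ t ∉ WL (K + J)} ≤ ENNReal.ofReal ε * gg K := by
  classical
  intro ε hε
  obtain ⟨C, K0, hC, hUR⟩ := TPF.ur
  obtain ⟨Cu, hCu, hup⟩ := BL.gK_up TPC.xUp
  obtain ⟨cl, hcl, hlow⟩ := BL.gK_low TPC.xLow
  obtain ⟨q, hq⟩ : ∃ q : ℝ, q = 2 ^ (-(5 / 24) : ℝ) := ⟨_, rfl⟩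
  have hq0 : 0 < q := by rw [hq]; positivity
  have hq1 : q < 1 := by
    rw [hq]
    exact Real.rpow_lt_one_of_one_lt_of_neg (by norm_num) (by norm_num)
  have hq2 : 0 < 1 - q := by linarith
  have h0 := tendsto_pow_atTop_nhds_zero_of_lt_one hq0.le hq1
  obtain ⟨J, hJ⟩ := Filter.eventually_atTop.1 (h0.eventually (gt_mem_nhds (show 0 < ε * cl * (1 - q) / (C * Cu) by positivity)))
  have hJ' := hJ J le_rfl
  refine ⟨J, K0, fun K y hK => ?_⟩
  have hsub : {t | t ∈ Py y ∧ t ∉ WL (K + J)} ⊆ ⋃ i : ℕ, EndK (K + J + i) y := by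
    rintro t ⟨⟨h1, h2⟩, h3⟩
    have hex := BAR.WL_ex h1
    have h4 := Nat.find_spec hex
    have h5 : ∀ j, j < Nat.find hex → t ∉ WL j := fun j hj => Nat.find_min hex hj
    generalize Nat.find hex = M at *
    have h6 : K + J < M := by
      by_contra hcon
      exact h3 (WL_mn (by omega) h4)
    refine Set.mem_iUnion.2 ⟨M - (K + J), ?_, ?_, h2⟩
    · rw [show K + J + (M - (K + J)) = M by omega]
      exact h4
    · exact h5 _ (by omega)
  refine (gf_mono hsub).trans ((Pool.Agent.GLD.gf_iUnion_le _).trans ?_)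
  have h1 : ∀ i : ℕ, gf (EndK (K + J + i) y) ≤ ENNReal.ofReal (C * Cu * q ^ J * 2 ^ (-(5 / 24) * (K : ℝ)) * q ^ i) := by
    intro i
    have h2 := hUR (K + J + i) y (by omega)
    have h3 := hup (K + J + i)
    unfold BL.gK at h3
    refine h2.trans ?_
    rw [ENNReal.ofReal_mul hC.le, mul_assoc]
    refine (mul_le_mul' le_rfl h3).trans (le_of_eq ?_)
    rw [← ENNReal.ofReal_mul hC.le]
    congr 1
    have e : (2 : ℝ) ^ (-(5 / 24) * ((K + J + i : ℕ) : ℝ)) = 2 ^ (-(5 / 24) * (K : ℝ)) * q ^ J * q ^ i := by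
      rw [hq, ← Real.rpow_natCast _ J, ← Real.rpow_natCast _ i, ← Real.rpow_mul (by norm_num), ← Real.rpow_mul (by norm_num),
        ← Real.rpow_add (by norm_num), ← Real.rpow_add (by norm_num)]
      congr 1
      push_cast
      ring
    rw [e]
    ring
  refine (ENNReal.tsum_le_tsum h1).trans ?_
  rw [← ENNReal.ofReal_tsum_of_nonneg (fun i => by positivity)
    ((summable_geometric_of_lt_one hq0.le hq1).mul_left _), tsum_mul_left, tsum_geometric_of_lt_one hq0.le hq1]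
  refine le_trans (ENNReal.ofReal_le_ofReal (?_ : _ ≤ ε * (cl * 2 ^ (-(5 / 24) * (K : ℝ))))) ?_
  · rw [lt_div_iff₀ (by positivity)] at hJ'
    have h2 : (0 : ℝ) < 2 ^ (-(5 / 24) * (K : ℝ)) := by positivity
    rw [← div_eq_mul_inv, div_le_iff₀ hq2]
    nlinarith
  · rw [ENNReal.ofReal_mul hε.le]
    exact mul_le_mul' le_rfl (hlow K)

/-- **the sum over the scales** -/
theorem plane_sum : ∀ ε : ℝ, 0 < ε → ∃ J K0 : ℕ, ∀ (K : ℕ) (E : Set (List Bool)) (y : Pt) (δ : ℝ≥0∞), K0 ≤ K →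
    gf {t | t ∈ Py y ∧ t ∈ WL (K + J) ∧ t ∈ E} ≤ δ → gf {t | t ∈ Py y ∧ t ∈ E} ≤ δ + ENNReal.ofReal ε * gg K := by
  intro ε hε
  obtain ⟨J, K0, h⟩ := plane_tail ε hε
  refine ⟨J, K0, fun K E y δ hK hδ => ?_⟩
  refine (gf_mono (?_ : _ ⊆ {t | t ∈ Py y ∧ t ∈ WL (K + J) ∧ t ∈ E} ∪ {t | t ∈ Py y ∧ t ∉ WL (K + J)})).trans
    ((gf_union_le _ _).trans (add_le_add hδ (h K y hK)))
  rintro t ⟨h1, h2⟩
  by_cases h3 : t ∈ WL (K + J)
  · exact Or.inl ⟨h1, h3, h2⟩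
  · exact Or.inr ⟨h1, h3⟩

/-- **the regular parts** -/
theorem planeG {ZZ : ℕ → Set (List Bool)} (hF : FreeG ZZ) : ∀ (ε : ℝ) (c0 : ℕ), 0 < ε → ∃ c K0 : ℕ, c0 ≤ c ∧ c ≤ K0 ∧
    ∀ (K : ℕ) (y : Pt), K0 ≤ K → gf {t | t ∈ Py y ∧ t ∈ LzG ZZ (K - c) (2 ^ (c - c0))} ≤ ENNReal.ofReal ε * gg K := by
  intro ε c0 hε
  obtain ⟨C1, c', b0, J0, n0, hC1, hc', hreg⟩ := regGL hF
  obtain ⟨i0, k0, hsum⟩ := plane_sum (ε / 2) (by positivity)
  obtain ⟨D, hD, hgD⟩ := gg_up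
  have hC10 : 0 < C1 := by linarith
  have hD0 : 0 < D := by linarith
  have hser := (ser_sum (B := C1) (c := c') hC10.le hc').tendsto_atTop_zero
  have hpos : 0 < ε / (2 * (C1 ^ (i0 + c0) * D ^ i0)) := by positivity
  obtain ⟨n1, hn1⟩ := Filter.eventually_atTop.1 (hser.eventually (gt_mem_nhds hpos))
  obtain ⟨n, hn⟩ : ∃ n, n = n1 + J0 + n0 := ⟨_, rfl⟩
  have hnn : n < 2 ^ n := Nat.lt_two_pow_self
  refine ⟨c0 + n, b0 + (c0 + n) + k0, by omega, by omega, fun K y hK => ?_⟩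
  have h1 := hsum K (LzG ZZ (K - (c0 + n)) (2 ^ (c0 + n - c0))) y
    (ENNReal.ofReal (C1 ^ (c0 + n + i0) * (2 : ℝ) ^ (-(c' * 2 ^ n)) * D ^ i0) * gg K) (by omega) ?_
  · refine h1.trans ?_
    rw [← add_mul, ← ENNReal.ofReal_add (by positivity) (by positivity)]
    refine mul_le_mul' (ENNReal.ofReal_le_ofReal ?_) le_rfl
    have h3 := hn1 n (by omega)
    rw [lt_div_iff₀ (by positivity)] at h3
    have h4 : C1 ^ (c0 + n + i0) = C1 ^ n * C1 ^ (i0 + c0) := by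
      rw [← pow_add]
      congr 1
      omega
    rw [h4]
    nlinarith [h3]
  · have h2 := hreg (K - (c0 + n)) (c0 + n + i0) (2 ^ n) y (by omega) (by omega) (by omega)
    rw [show K - (c0 + n) + (c0 + n + i0) = K + i0 by omega] at h2
    rw [show c0 + n - c0 = n by omega]
    refine (gf_mono ?_).trans (h2.trans ?_)
    · rintro t ⟨h3, h4, h5⟩
      exact ⟨h3.2, h4, h5⟩
    · have e1 : ENNReal.ofReal (C1 ^ (c0 + n + i0) * (2 : ℝ) ^ (-(c' * ((2 ^ n : ℕ) : ℝ))) *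
          (Ub (K + i0) / 4 ^ (K + i0))) * Xb (K + i0) ^ 2 =
          ENNReal.ofReal (C1 ^ (c0 + n + i0) * (2 : ℝ) ^ (-(c' * 2 ^ n))) * gg (K + i0) := by
        unfold gg
        rw [← mul_assoc, ← ENNReal.ofReal_mul (by positivity)]
        push_cast
        rfl
      rw [e1]
      refine (mul_le_mul' le_rfl (hgD K i0)).trans (le_of_eq ?_)
      rw [← mul_assoc, ← ENNReal.ofReal_mul (by positivity)]

/-- **near the start there is a factor of the class** -/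
theorem startP {ZZ : ℕ → Set (List Bool)} (hF : FreeG ZZ) : ∀ (ε : ℝ) (c1 : ℕ), 0 < ε → ∃ c K0 : ℕ, c1 ≤ c ∧ c ≤ K0 ∧
    ∀ (K : ℕ) (y : Pt), K0 ≤ K →
    gf {t | t ∈ Py y ∧ (∃ i, i ≤ t.length ∧ vx oo up t i ∉ Bl oo (2 ^ (K - c1))) ∧ t ∉ StZ ZZ (K - c) (2 ^ (K - c1))} ≤
      ENNReal.ofReal ε * gg K := by
  intro ε c1 hε
  obtain ⟨c, K0, hc, hc2, h⟩ := planeG hF ε c1 hε
  refine ⟨c, K0, hc, hc2, fun K y hK => ?_⟩
  refine le_trans (gf_mono ?_) (h K y hK)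
  rintro t ⟨h1, h2, h3⟩
  refine ⟨h1, (start_or ?_ h2).resolve_left h3⟩
  rw [← pow_add]
  congr 1
  omega

open DT

open Classical in
/-- **DomT in the plane**: functions -/
theorem domTP (ε : ℝ) (c1 J : ℕ) (hε : 0 < ε) : ∃ (c K0 : ℕ) (A : ℝ), 0 < A ∧ c1 ≤ c ∧ c ≤ K0 ∧
    ∀ (K : ℕ) (y : Pt) (E : Set (List Bool)) (F f : List Bool → ℝ≥0∞), K0 ≤ K →
    (∀ t ∈ E, t ∈ SA ∧ labE t = y ∧ t ∈ WL (K + J)) → y ∉ Bl oo (2 ^ (K - c1)) →
    (∀ t ∈ E, F t ≤ 1) →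
    (∀ X R : List Bool, X ++ R ∈ E → In (2 ^ (K - c1)) X → R ∈ BotS (K - c) (K + J + 4) → F (X ++ R) ≤ f R) →
    ∑' t : E, wE t.1 * F t.1 ≤ ENNReal.ofReal ε * gg K + ENNReal.ofReal (A / 4 ^ K) *
      Xb K * ∑' R : BotS (K - c) (K + J + 4), wE R.1 * f R.1 := by
  obtain ⟨Cc, hCc, hcut⟩ := cut3G_end
  obtain ⟨C1, k1, hC1, htot⟩ := tot_BotS
  obtain ⟨D, hD, hX⟩ := Xb_pow
  obtain ⟨c, k0, hc, hck, hst⟩ := startP free5 ε (c1 + 10) hε
  have hCc0 : 0 < Cc := by linarith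
  have hC10 : 0 < C1 := by linarith
  have hD0 : 0 < D := by linarith
  obtain ⟨A, hA⟩ : ∃ A : ℝ, A = 8 * Cc * C1 ^ (J + c + 8) * 2 ^ (c + J + 1) * D ^ (J + 1) * 4 ^ c := ⟨_, rfl⟩
  refine ⟨c, k0 + c + k1 + 2, A, by rw [hA]; positivity, by omega, by omega, fun K y E F f hK hE hy hF1 hF => ?_⟩
  have hstk := hst K y (by omega)
  obtain ⟨b, hb⟩ : ∃ b, K = b + c := ⟨K - c, by omega⟩
  have hb' : K - c = b := by omega
  rw [hb'] at hF hstk ⊢
  have hy' : y ∉ Bl oo (2 ^ (K - (c1 + 10))) := fun h => hy (Bl_mono _ (Nat.pow_le_pow_right (by norm_num) (by omega)) h)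
  -- the bad set
  obtain ⟨E2, hE2⟩ : ∃ E2 : Set (List Bool), E2 = E ∩ {t | t ∉ StZ (Z5 40) b (2 ^ (K - (c1 + 10)))} := ⟨_, rfl⟩
  obtain ⟨E1, hE1⟩ : ∃ E1 : Set (List Bool), E1 = E ∩ {t | t ∈ StZ (Z5 40) b (2 ^ (K - (c1 + 10)))} := ⟨_, rfl⟩
  have hsplit : ∑' t : E, wE t.1 * F t.1 ≤ ∑' t : E2, wE t.1 * F t.1 + ∑' t : E1, wE t.1 * F t.1 := by
    have h1 : E ⊆ E2 ∪ E1 := by
      intro t ht
      by_cases h : t ∈ StZ (Z5 40) b (2 ^ (K - (c1 + 10)))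
      · right
        rw [hE1]
        exact ⟨ht, h⟩
      · left
        rw [hE2]
        exact ⟨ht, h⟩
    exact (ENNReal.tsum_mono_subtype (fun t => wE t * F t) h1).trans (ENNReal.tsum_union_le (fun t => wE t * F t) E2 E1)
  refine hsplit.trans (add_le_add ?_ ?_)
  · refine le_trans ?_ hstk
    refine le_trans (ENNReal.tsum_le_tsum fun t : E2 => ?_) (gf_mono (?_ : E2 ⊆ _))
    · have h1 : t.1 ∈ E := by
        have h0 : ∀ s ∈ E2, s ∈ E := by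
          intro s hs
          rw [hE2] at hs
          exact hs.1
        exact h0 t.1 t.2
      calc wE t.1 * F t.1 ≤ wE t.1 * 1 := mul_le_mul' le_rfl (hF1 _ h1)
        _ = wE t.1 := mul_one _
    · intro t ht
      rw [hE2] at ht
      obtain ⟨h1, h3, h4⟩ := hE t ht.1
      refine ⟨⟨h1, h3⟩, ⟨t.length, le_rfl, ?_⟩, ht.2⟩
      have : vx oo up t t.length = y := h3
      rw [this]
      exact hy'
  · -- the three nested bridges
    have hpow : 2 ^ (K - (c1 + 10)) ≤ 2 ^ (K + J) := Nat.pow_le_pow_right (by norm_num) (by omega)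
    have h1 := hcut {L | rev L ∈ BotS (b + 1) (K + J + 4) ∧ In (2 ^ (K - (c1 + 10))) L} (BotS (b + 1) (K + J + 4))
      {V | In (4 * 40 * 2 ^ b) V} E1 (2 ^ (b + 1)) (b + 3) y F f Nat.one_le_two_pow
      (fun t ht => by
        rw [hE1] at ht
        exact (hE t ht.1).2.1)
      (fun t ht => by
        rw [hE1] at ht
        exact geo5 (by omega) hpow (hE t ht.1).2.2 ht.2)
      (fun L V R ht hL _ hV hR => by
        rw [hE1] at ht
        have h2 := hF (L ++ V) R (by rw [List.append_assoc]; exact ht.1) (In_mono (by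
          have e1 : 2 ^ (K - c1) = 1024 * 2 ^ (K - (c1 + 10)) := by
            rw [show K - c1 = K - (c1 + 10) + 10 by omega, pow_add]
            norm_num
            ring
          have e2 : 2 ^ b ≤ 2 ^ (K - (c1 + 10)) := Nat.pow_le_pow_right (by norm_num) (by omega)
          rw [e1]
          omega) (In_cat hL.2 hV)) (BotS_mono (by omega) hR)
        rwa [List.append_assoc] at h2)
    refine h1.trans ?_
    have h2 : gf {L | rev L ∈ BotS (b + 1) (K + J + 4) ∧ In (2 ^ (K - (c1 + 10))) L} ≤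
        ENNReal.ofReal (C1 ^ (J + c + 8) * Ub (K + J + 1)) * Xb (K + J + 1) := by
      refine (gf_mono (?_ : _ ⊆ {L | rev L ∈ BotS (b + 1) (K + J + 4)})).trans ?_
      · intro L hL
        exact hL.1
      · have h3 := htot (b + 1) (K + J + 1) (by omega) (by omega)
        rw [show K + J + 1 + 3 = K + J + 4 by omega, show K + J + 1 - (b + 1) + 8 = J + c + 8 by omega] at h3
        exact (le_of_eq (TD.gf_rev_eq _)).trans h3
    have h3 : ∑' R : BotS (b + 1) (K + J + 4), wE R.1 * f R.1 ≤ ∑' R : BotS b (K + J + 4), wE R.1 * f R.1 :=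
      ENNReal.tsum_mono_subtype (fun t => wE t * f t) (BotS_mono (by omega))
    have h4 : Xb (K + J + 1) ≤ ENNReal.ofReal (D ^ (J + 1)) * Xb K := by
      rw [show K + J + 1 = K + (J + 1) by omega]
      exact hX K (J + 1)
    have h5 : Ub (K + J + 1) ≤ 2 ^ (c + J + 1) * Ub b := by
      rw [show K + J + 1 = b + (c + J + 1) by omega]
      exact Ub_add b (c + J + 1)
    have hUb := Ub_pos b
    have h6 := num5 hCc0.le b
    have h7 : 8 * Cc / (Ub b * 4 ^ b) * (C1 ^ (J + c + 8) * (2 ^ (c + J + 1) * Ub b) * D ^ (J + 1)) = A / 4 ^ K := by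
      rw [hA, hb, pow_add (4 : ℝ)]
      field_simp
    calc ENNReal.ofReal (Cc * (2 ^ (b + 3) / (((2 ^ (b + 1) : ℕ) : ℝ) * Ub (b + 3))) ^ 2 *
          (uu (2 ^ (b + 1)) / ((2 ^ (b + 1) : ℕ) : ℝ))) *
          (gf {L | rev L ∈ BotS (b + 1) (K + J + 4) ∧ In (2 ^ (K - (c1 + 10))) L} *
            ∑' R : BotS (b + 1) (K + J + 4), wE R.1 * f R.1)
        ≤ ENNReal.ofReal (8 * Cc / (Ub b * 4 ^ b)) *
          (ENNReal.ofReal (C1 ^ (J + c + 8) * (2 ^ (c + J + 1) * Ub b)) * (ENNReal.ofReal (D ^ (J + 1)) * Xb K) *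
            ∑' R : BotS b (K + J + 4), wE R.1 * f R.1) := by
          refine mul_le_mul' (ENNReal.ofReal_le_ofReal h6) (mul_le_mul' (h2.trans (mul_le_mul'
            (ENNReal.ofReal_le_ofReal ?_) h4)) h3)
          exact mul_le_mul_of_nonneg_left h5 (by positivity)
      _ = ENNReal.ofReal (8 * Cc / (Ub b * 4 ^ b) * (C1 ^ (J + c + 8) * (2 ^ (c + J + 1) * Ub b) * D ^ (J + 1))) * Xb K *
            ∑' R : BotS b (K + J + 4), wE R.1 * f R.1 := by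
          rw [ENNReal.ofReal_mul (p := 8 * Cc / (Ub b * 4 ^ b)) (by positivity),
            ENNReal.ofReal_mul (p := C1 ^ (J + c + 8) * (2 ^ (c + J + 1) * Ub b)) (by positivity)]
          ring
      _ = _ := by rw [h7]

open Classical in
/-- **DomT in the plane**: sets -/
theorem domStP (ε : ℝ) (c1 J : ℕ) (hε : 0 < ε) : ∃ (c K0 : ℕ) (A : ℝ), 0 < A ∧ c1 ≤ c ∧ c ≤ K0 ∧
    ∀ (K : ℕ) (y : Pt) (E Q : Set (List Bool)), K0 ≤ K →
    (∀ t ∈ E, t ∈ SA ∧ labE t = y ∧ t ∈ WL (K + J)) → y ∉ Bl oo (2 ^ (K - c1)) →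
    (∀ X R : List Bool, X ++ R ∈ E → In (2 ^ (K - c1)) X → R ∈ BotS (K - c) (K + J + 4) → R ∈ Q) →
    gf E ≤ ENNReal.ofReal ε * gg K + ENNReal.ofReal (A / 4 ^ K) * Xb K * gf {R | R ∈ BotS (K - c) (K + J + 4) ∧ R ∈ Q} := by
  obtain ⟨c, k0, A, hA, hc, hck, h⟩ := domTP ε c1 J hε
  refine ⟨c, k0, A, hA, hc, hck, fun K y E Q hk hE hy hQ => ?_⟩
  have h1 := h K y E (fun _ => 1) (fun R => if R ∈ Q then 1 else 0) hk hE hy (fun _ _ => le_rfl) (fun X R hX hI hR => by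
    rw [if_pos (hQ X R hX hI hR)])
  have h2 : gf E = ∑' t : E, wE t.1 * (1 : ℝ≥0∞) := by
    unfold gf
    exact tsum_congr fun t => (mul_one _).symm
  have h3 : ∑' R : BotS (K - c) (K + J + 4), wE R.1 * (if R.1 ∈ Q then (1 : ℝ≥0∞) else 0) =
      gf {R | R ∈ BotS (K - c) (K + J + 4) ∧ R ∈ Q} := by
    unfold gf
    rw [_root_.tsum_subtype (BotS (K - c) (K + J + 4)) (fun t => wE t * (if t ∈ Q then (1 : ℝ≥0∞) else 0)),
      _root_.tsum_subtype {R | R ∈ BotS (K - c) (K + J + 4) ∧ R ∈ Q} (fun t => wE t)]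
    refine tsum_congr fun t => ?_
    rw [Set.indicator_apply, Set.indicator_apply]
    by_cases h4 : t ∈ BotS (K - c) (K + J + 4)
    · by_cases h5 : t ∈ Q
      · rw [if_pos h4, if_pos h5, if_pos ⟨h4, h5⟩, mul_one]
      · rw [if_pos h4, if_neg h5, if_neg (fun h6 => h5 h6.2), mul_zero]
    · rw [if_neg h4, if_neg (fun h6 => h4 h6.1)]
  rw [h2, ← h3]
  exact h1

/-- long words -/
theorem len_plane : ∀ ε : ℝ, 0 < ε → ∃ i K0 : ℕ, ∀ (K : ℕ) (y : Pt), K0 ≤ K →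
    gf {t | t ∈ Py y ∧ mZ (2 ^ (K + i)) ≤ (t.length : ℝ)} ≤ ENNReal.ofReal ε * gg K := by
  intro ε hε
  obtain ⟨C, k0, hC, h⟩ := BL.len_tail (m := fun K => PW.mZ (2 ^ K)) JNT.endX_Z PWd.mlo_P PWd.mhi_P TPC.xUp
  obtain ⟨cl, hcl, hlow⟩ := BL.gK_low TPC.xLow
  obtain ⟨q, hq⟩ : ∃ q : ℝ, q = 2 ^ (-(5 / 24) : ℝ) := ⟨_, rfl⟩
  have hq0 : 0 < q := by rw [hq]; positivity
  have hq1 : q < 1 := by
    rw [hq]
    exact Real.rpow_lt_one_of_one_lt_of_neg (by norm_num) (by norm_num)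
  have h0 := tendsto_pow_atTop_nhds_zero_of_lt_one hq0.le hq1
  obtain ⟨i, hi⟩ := Filter.eventually_atTop.1 (h0.eventually (gt_mem_nhds (show 0 < ε * cl / C by positivity)))
  have hi' := hi i le_rfl
  refine ⟨i, k0, fun K y hK => ?_⟩
  refine (gf_mono (?_ : _ ⊆ {t | t ∈ SA ∧ vx oo up t t.length = y ∧ mZ (2 ^ (K + i)) ≤ (t.length : ℝ)})).trans
    ((h (K + i) (by omega) y).trans ?_)
  · rintro t ⟨⟨h1, h2⟩, h3⟩
    exact ⟨h1, h2, h3⟩
  refine le_trans (ENNReal.ofReal_le_ofReal (?_ : _ ≤ ε * (cl * 2 ^ (-(5 / 24) * (K : ℝ))))) ?_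
  · have e : (2 : ℝ) ^ (-(5 / 24) * ((K + i : ℕ) : ℝ)) = 2 ^ (-(5 / 24) * (K : ℝ)) * q ^ i := by
      rw [hq, ← Real.rpow_natCast _ i, ← Real.rpow_mul (by norm_num), ← Real.rpow_add (by norm_num)]
      congr 1
      push_cast
      ring
    rw [lt_div_iff₀ hC] at hi'
    have h2 : (0 : ℝ) < 2 ^ (-(5 / 24) * (K : ℝ)) := by positivity
    rw [e]
    nlinarith
  · rw [ENNReal.ofReal_mul hε.le]
    exact mul_le_mul' le_rfl (hlow K)

/-- **the lower bound**: the walks to the three rotations of a vertex at the scale K -/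
theorem low_plane (J : ℕ) : ∃ (c : ℝ) (K0 : ℕ), 0 < c ∧ ∀ (K : ℕ) (q : Pt) (b : Bool), K0 ≤ K → (4 : ℤ) ^ (K - J) ≤ nrm q →
    nrm q ≤ 4 ^ (K + J) → (3 : ℤ) ∣ ip q up - (if b then 2 else 0) →
    ENNReal.ofReal c * gg K ≤ ∑ g ∈ TPF.Rot3, gf (Py (mulE g q)) := by
  obtain ⟨c, D0, hc, h⟩ := TPF.low_gfC TPC.xUp TPC.xLow
  obtain ⟨Cu, hCu, hup⟩ := BL.gK_up TPC.xUp
  refine ⟨c * 2 ^ (-(5 / 24) * ((J + 1 : ℕ) : ℝ)) / Cu, D0 + J, by positivity, fun K q b hK hq1 hq2 hb => ?_⟩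
  obtain ⟨g, hg, h1, h2, h3⟩ := TPF.sector q hb
  obtain ⟨D, hD⟩ : ∃ D : ℕ, ip (mulE g q) up = D := ⟨(ip (mulE g q) up).toNat, (Int.toNat_of_nonneg h1).symm⟩
  rw [hD] at h2
  have h5 : (nrm (mulE g q) : ℤ) ≤ (D : ℤ) ^ 2 ∧ (D : ℤ) ^ 2 ≤ 4 * nrm (mulE g q) := by
    rw [← hD] at h2 ⊢
    generalize mulE g q = p at h2
    obtain ⟨x, y⟩ := p
    unfold ip up at h2
    unfold nrm ip up
    simp only [abs_le] at h2 ⊢
    constructor
    · nlinarith [h2.1, h2.2, mul_nonneg (show (0:ℤ) ≤ y by linarith [h2.2]) (show (0:ℤ) ≤ x + y by linarith [h2.1])]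
    · nlinarith [sq_nonneg x]
  rw [TPF.nrm_mulE_rot hg] at h5
  have h6 : 2 ^ (K - J) ≤ D := by
    have h7 : ((2 ^ (K - J) : ℕ) : ℤ) ^ 2 ≤ (D : ℤ) ^ 2 := by
      refine le_trans (le_of_eq ?_) (hq1.trans h5.1)
      push_cast
      rw [← pow_mul, mul_comm, pow_mul]
      norm_num
    have h8 := abs_le_of_sq_le_sq' h7 (by positivity)
    exact_mod_cast h8.2
  have h7 : D ≤ 2 ^ (K + J + 1) := by
    have h7 : (D : ℤ) ^ 2 ≤ ((2 ^ (K + J + 1) : ℕ) : ℤ) ^ 2 := by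
      refine (h5.2.trans (by linarith : (4 : ℤ) * nrm q ≤ 4 * 4 ^ (K + J))).trans (le_of_eq ?_)
      push_cast
      rw [← pow_mul, mul_comm (K + J + 1) 2, pow_mul]
      norm_num
      ring
    have h8 := abs_le_of_sq_le_sq' h7 (by positivity)
    exact_mod_cast h8.2
  have hD0 : D0 ≤ D := by
    have h8 : K - J < 2 ^ (K - J) := Nat.lt_two_pow_self
    omega
  have hDp : (0 : ℝ) < D := by
    have : 0 < 2 ^ (K - J) := by positivity
    exact_mod_cast (show 0 < D by omega)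
  have h10 := h (mulE g q) D b hD0 hD h2 h3
  rw [TPF.sum_rot (fun p => gf (TPF.SE p)) hg q] at h10
  refine le_trans ?_ h10
  have h11 : (2 : ℝ) ^ (-(5 / 24) * ((K + J + 1 : ℕ) : ℝ)) ≤ (D : ℝ) ^ (-(5 / 24) : ℝ) := by
    have h12 : (2 : ℝ) ^ (-(5 / 24) * ((K + J + 1 : ℕ) : ℝ)) = ((2 ^ (K + J + 1) : ℕ) : ℝ) ^ (-(5 / 24) : ℝ) := by
      rw [mul_comm, Real.rpow_mul (by norm_num), Real.rpow_natCast]
      push_cast
      rfl
    rw [h12]
    exact Real.rpow_le_rpow_of_nonpos hDp (by exact_mod_cast h7) (by norm_num)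
  calc ENNReal.ofReal (c * 2 ^ (-(5 / 24) * ((J + 1 : ℕ) : ℝ)) / Cu) * gg K
      ≤ ENNReal.ofReal (c * 2 ^ (-(5 / 24) * ((J + 1 : ℕ) : ℝ)) / Cu) * ENNReal.ofReal (Cu * 2 ^ (-(5 / 24) * (K : ℝ))) :=
        mul_le_mul' le_rfl (hup K)
    _ = ENNReal.ofReal (c * 2 ^ (-(5 / 24) * ((K + J + 1 : ℕ) : ℝ))) := by
        rw [← ENNReal.ofReal_mul (by positivity)]
        congr 1
        have e : (2 : ℝ) ^ (-(5 / 24) * ((K + J + 1 : ℕ) : ℝ)) =
            2 ^ (-(5 / 24) * ((J + 1 : ℕ) : ℝ)) * 2 ^ (-(5 / 24) * (K : ℝ)) := by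
          rw [← Real.rpow_add (by norm_num)]
          congr 1
          push_cast
          ring
        rw [e]
        field_simp
    _ ≤ _ := ENNReal.ofReal_le_ofReal (mul_le_mul_of_nonneg_left h11 hc.le)

end PW

end HexObs
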