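import Pool.Agent.PW.LevP

/-!
# PW, row P2 (helper92), the form with the weight of the far part inside (doc nu34/PW_66c): the level identity on the cylinder

* `trI k L` : indicator of the far parts whose translates avoid the ball about the tip; `NC k l L Ch` : the weight of the level
  on the cylinder;
* **`levTh`** : any weight `θ ≥ 0` of the far part with support in `TrF`; **`levC`** : `θ = trI k L`.
-/

set_option autoImplicit false

namespace HexObs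

namespace PWN

open Finset TS SDN TIW

open Classical in
/-- indicator of the far parts whose translates avoid the ball about the tip -/
noncomputable def trI (k L : ℕ) (A : List Bool) : ℝ := if TrF k (2 ^ (L + 2)) A then 1 else 0

lemma trI_nonneg (k L : ℕ) (A : List Bool) : 0 ≤ trI k L A := by
  unfold trI
  split_ifs <;> norm_num

lemma trI_le (k L : ℕ) (A : List Bool) : trI k L A ≤ 1 := by
  unfold trI
  split_ifs <;> norm_num

lemma trI_ne {k L : ℕ} {A : List Bool} (h : trI k L A ≠ 0) : TrF k (2 ^ (L + 2)) A := by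
  unfold trI at h
  by_contra h1
  rw [if_neg h1] at h
  exact h rfl

lemma trI_one {k L : ℕ} {A : List Bool} (h : TrF k (2 ^ (L + 2)) A) : trI k L A = 1 := if_pos h

/-- the weight of the level on the cylinder -/
noncomputable def NC (k l L : ℕ) (Ch : Set (List Bool)) (t : List Bool) : ℝ := NW l L Ch (trI k L) (fun _ => 1) t

lemma NC_nonneg {k l L : ℕ} {Ch : Set (List Bool)} {t : List Bool} : 0 ≤ NC k l L Ch t :=
  NW_nonneg (trI_nonneg k L) fun _ _ => zero_le_one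

lemma NC_le_N0 {k l L : ℕ} {Ch : Set (List Bool)} {t : List Bool} : NC k l L Ch t ≤ N0 l L Ch t :=
  NW_mono (fun _ _ _ => trI_le _ _ _) fun _ _ => zero_le_one

/-- a functional at the whole word against the same functional at the far part, weight θ of the far part -/
lemma NW_errT {l L : ℕ} {Ch : Set (List Bool)} {θ Ψ ψ : List Bool → ℝ} {t : List Bool} {c ε : ℝ} (hθ : ∀ A, 0 ≤ θ A)
    (h : ∀ i j, Dl l L Ch t i j → |c - Ψ (t.take i)| ≤ ε) (hψ : ∀ E ∈ Hc l, |ψ E| ≤ 1) :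
    |c * NW l L Ch θ ψ t - NW l L Ch (fun A => θ A * Ψ A) ψ t| ≤ NW l L Ch θ (fun _ => 1) t * ε := by
  classical
  unfold NW
  rw [mul_sum, sum_mul, ← sum_sub_distrib]
  refine (abs_sum_le_sum_abs _ _).trans (sum_le_sum fun p hp => ?_)
  rw [mem_filter] at hp
  have h1 := h _ _ hp.2
  have h2 := hψ _ hp.2.2.2.2
  have h3 := chi_nn (2 ^ l) (t.drop p.2)
  have h4 := hθ (t.take p.1)
  have e1 : c * (chi (2 ^ l) (t.drop p.2) * ψ (t.drop p.2) * θ (t.take p.1)) -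
      chi (2 ^ l) (t.drop p.2) * ψ (t.drop p.2) * (θ (t.take p.1) * Ψ (t.take p.1)) =
      (chi (2 ^ l) (t.drop p.2) * θ (t.take p.1)) * (ψ (t.drop p.2) * (c - Ψ (t.take p.1))) := by ring
  rw [e1, abs_mul, abs_of_nonneg (mul_nonneg h3 h4), abs_mul, mul_one]
  refine mul_le_mul_of_nonneg_left ?_ (mul_nonneg h3 h4)
  calc |ψ (t.drop p.2)| * |c - Ψ (t.take p.1)| ≤ 1 * ε := mul_le_mul h2 h1 (abs_nonneg _) zero_le_one
    _ = ε := one_mul _

/-- **the level identity**, weight `θ` of the far part with support in `TrF` -/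
theorem levTh {k R l L : ℕ} {e y : Pt} {Ch : Set (List Bool)} {δ : ℝ} {q θ Ψ er : List Bool → ℝ} (he : e ∈ dirs)
    (hC : SLW.Chn L Ch) (hl : l ≤ L) (hk : 2 ^ (L + 3) ≤ k) (hR : hn y + 2 ^ (L + 5) ≤ R) (hw : 0 < wD Ch)
    (hS : SM l Ch δ) (hq : ∀ E ∈ Hc l, |q E| ≤ 1) (hθ : ∀ A, 0 ≤ θ A) (hθT : ∀ A, θ A ≠ 0 → TrF k (2 ^ (L + 2)) A)
    (hΨ : ∀ A, |Ψ A| ≤ 1)
    (hrob : ∀ A Y, A ++ Y ∈ SA → de Y = up → (∀ i, i ≤ Y.length → hn (vx oo up Y i) < 2 ^ (L + 1)) →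
      |Ψ (A ++ Y) - Ψ A| ≤ er (A ++ Y)) :
    |∑ t ∈ Ty k R e y, xc ^ t.length * (Ψ t * (NW l L Ch θ q t - nu l q * NW l L Ch θ (fun _ => 1) t))| ≤
      2 * ∑ t ∈ Ty k R e y, xc ^ t.length * (NW l L Ch θ (fun _ => 1) t * er t) +
      2 * (δ / wD Ch) * ∑ y' ∈ Bs y (2 ^ (L + 2)), ∑ t ∈ Ty k R e y', xc ^ t.length * NW l L Ch θ (fun _ => 1) t := by
  have hΨ2 : ∀ A, |θ A * Ψ A| ≤ θ A := by
    intro A
    rw [abs_mul, abs_of_nonneg (hθ A)]
    calc θ A * |Ψ A| ≤ θ A * 1 := mul_le_mul_of_nonneg_left (hΨ A) (hθ A)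
      _ = θ A := mul_one _
  have hT : ∀ A, θ A * Ψ A ≠ 0 → TrF k (2 ^ (L + 2)) A := fun A h => hθT A fun h0 => h (by rw [h0, zero_mul])
  have hco := coreP (Ψ := fun A => θ A * Ψ A) (Ψ' := θ) he hC hl hk hR hw hS hq hΨ2 hT
  have hnu := nu_abs hq
  have key : ∀ t ∈ Ty k R e y, |Ψ t * (NW l L Ch θ q t - nu l q * NW l L Ch θ (fun _ => 1) t) -
      (NW l L Ch (fun A => θ A * Ψ A) q t - nu l q * NW l L Ch (fun A => θ A * Ψ A) (fun _ => 1) t)| ≤
      2 * (NW l L Ch θ (fun _ => 1) t * er t) := by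
    intro t ht
    have hh : ∀ i j, Dl l L Ch t i j → |Ψ t - Ψ (t.take i)| ≤ er t := by
      intro i j hD
      obtain ⟨Y, h1, h2, h3, h4⟩ := Dl_back hC hl ht hD
      have h5 := hrob _ Y h2 h3 h4
      rw [h1] at h5
      exact h5
    have h6 := NW_errT (ψ := q) hθ hh hq
    have h7 := NW_errT (ψ := fun _ => 1) hθ hh fun _ _ => by rw [abs_one]
    have e1 : Ψ t * (NW l L Ch θ q t - nu l q * NW l L Ch θ (fun _ => 1) t) -
        (NW l L Ch (fun A => θ A * Ψ A) q t - nu l q * NW l L Ch (fun A => θ A * Ψ A) (fun _ => 1) t) =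
        (Ψ t * NW l L Ch θ q t - NW l L Ch (fun A => θ A * Ψ A) q t) -
        nu l q * (Ψ t * NW l L Ch θ (fun _ => 1) t - NW l L Ch (fun A => θ A * Ψ A) (fun _ => 1) t) := by ring
    rw [e1]
    have h8 := abs_sub (Ψ t * NW l L Ch θ q t - NW l L Ch (fun A => θ A * Ψ A) q t)
      (nu l q * (Ψ t * NW l L Ch θ (fun _ => 1) t - NW l L Ch (fun A => θ A * Ψ A) (fun _ => 1) t))
    rw [abs_mul] at h8
    have h9 : |nu l q| * |Ψ t * NW l L Ch θ (fun _ => 1) t - NW l L Ch (fun A => θ A * Ψ A) (fun _ => 1) t| ≤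
        1 * (NW l L Ch θ (fun _ => 1) t * er t) := mul_le_mul hnu h7 (abs_nonneg _) zero_le_one
    linarith
  have e2 : ∑ t ∈ Ty k R e y, xc ^ t.length * (Ψ t * (NW l L Ch θ q t - nu l q * NW l L Ch θ (fun _ => 1) t)) =
      ∑ t ∈ Ty k R e y, xc ^ t.length * (NW l L Ch (fun A => θ A * Ψ A) q t -
        nu l q * NW l L Ch (fun A => θ A * Ψ A) (fun _ => 1) t) +
      ∑ t ∈ Ty k R e y, xc ^ t.length * (Ψ t * (NW l L Ch θ q t - nu l q * NW l L Ch θ (fun _ => 1) t) -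
        (NW l L Ch (fun A => θ A * Ψ A) q t - nu l q * NW l L Ch (fun A => θ A * Ψ A) (fun _ => 1) t)) := by
    rw [← sum_add_distrib]
    exact sum_congr rfl fun t _ => by ring
  have h11 : |∑ t ∈ Ty k R e y, xc ^ t.length * (Ψ t * (NW l L Ch θ q t - nu l q * NW l L Ch θ (fun _ => 1) t) -
      (NW l L Ch (fun A => θ A * Ψ A) q t - nu l q * NW l L Ch (fun A => θ A * Ψ A) (fun _ => 1) t))| ≤
      2 * ∑ t ∈ Ty k R e y, xc ^ t.length * (NW l L Ch θ (fun _ => 1) t * er t) := by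
    rw [mul_sum]
    refine (abs_sum_le_sum_abs _ _).trans (sum_le_sum fun t ht => ?_)
    rw [abs_mul, abs_of_nonneg (xp_nn _)]
    calc xc ^ t.length * _ ≤ xc ^ t.length * (2 * (NW l L Ch θ (fun _ => 1) t * er t)) :=
          mul_le_mul_of_nonneg_left (key t ht) (xp_nn _)
      _ = _ := by ring
  rw [e2]
  exact (abs_add_le _ _).trans (by linarith)

/-- **the level identity on the cylinder**, `θ = trI k L` -/
theorem levC {k R l L : ℕ} {e y : Pt} {Ch : Set (List Bool)} {δ : ℝ} {q Ψ er : List Bool → ℝ} (he : e ∈ dirs)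
    (hC : SLW.Chn L Ch) (hl : l ≤ L) (hk : 2 ^ (L + 3) ≤ k) (hR : hn y + 2 ^ (L + 5) ≤ R) (hw : 0 < wD Ch)
    (hS : SM l Ch δ) (hq : ∀ E ∈ Hc l, |q E| ≤ 1) (hΨ : ∀ A, |Ψ A| ≤ 1)
    (hrob : ∀ A Y, A ++ Y ∈ SA → de Y = up → (∀ i, i ≤ Y.length → hn (vx oo up Y i) < 2 ^ (L + 1)) →
      |Ψ (A ++ Y) - Ψ A| ≤ er (A ++ Y)) :
    |∑ t ∈ Ty k R e y, xc ^ t.length * (Ψ t * (NW l L Ch (trI k L) q t - nu l q * NC k l L Ch t))| ≤
      2 * ∑ t ∈ Ty k R e y, xc ^ t.length * (NC k l L Ch t * er t) +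
      2 * (δ / wD Ch) * ∑ y' ∈ Bs y (2 ^ (L + 2)), ∑ t ∈ Ty k R e y', xc ^ t.length * NC k l L Ch t :=
  levTh he hC hl hk hR hw hS hq (trI_nonneg k L) (fun _ h => trI_ne h) hΨ hrob

end PWN

end HexObs
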