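import Pool.Agent.PW.OscV

/-!
# PW, row P3 (helper5), with a weight of the far part: for `NW l L Ch θ 1`, `0 ≤ θ` (the cylinder: θ = 1 if the translates
avoid a ball about the tip)

* `NQW l L Ch θ t` : the number of the decompositions, weighted with θ of the far part; `NIW` : tip well inside;
* `oscSW` : one level, ends of class 0 of size less than rho, 128 rho ≤ 2 ^ l;
* **`oscVW`** : the level (l, L), ends of size less than 2 ^ (L' + 1), L' + s ≤ l;
* **`oscGW`** : the cutoff of the levels above, arbitrary denominators.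
-/

set_option autoImplicit false
set_option linter.unusedVariables false

namespace HexObs

namespace PWN

open Finset TS SDN TIW TIW.OscA SLW

open Classical in
/-- the number of the decompositions, with a weight of the far part -/
noncomputable def NQW (l L : ℕ) (Ch : Set (List Bool)) (θ : List Bool → ℝ) (t : List Bool) : ℝ :=
  ∑ p ∈ ((range (t.length + 1)) ×ˢ (range (t.length + 1))).filter (fun p => Dl l L Ch t p.1 p.2), θ (t.take p.1)

open Classical in
/-- the number of the decompositions with the tip well inside, with a weight of the far part -/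
noncomputable def NIW (l L : ℕ) (Ch : Set (List Bool)) (θ : List Bool → ℝ) (t : List Bool) : ℝ :=
  ∑ p ∈ ((range (t.length + 1)) ×ˢ (range (t.length + 1))).filter (fun p => Dl l L Ch t p.1 p.2),
    (if (2 : ℤ) ^ l ≤ 64 * ip (en (t.drop p.2)) up ∧ 4 * hn (en (t.drop p.2)) ≤ 3 * 2 ^ l then 1 else 0) * θ (t.take p.1)

namespace OW

open Classical in
/-- the weighted number of the pairs (far part, chain) that end at the index `j` -/
noncomputable def cjW (L : ℕ) (Ch : Set (List Bool)) (θ : List Bool → ℝ) (t : List Bool) (j : ℕ) : ℝ :=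
  ∑ i ∈ range (j + 1), if t.take i ∈ Fe (4 * 2 ^ L) ∧ (t.take j).drop i ∈ Ch then θ (t.take i) else 0

lemma cjW_nonneg (L : ℕ) (Ch : Set (List Bool)) {θ : List Bool → ℝ} (h0 : ∀ A, 0 ≤ θ A) (t : List Bool) (j : ℕ) :
    0 ≤ cjW L Ch θ t j := by
  unfold cjW
  refine sum_nonneg fun i _ => ?_
  split_ifs
  · exact h0 _
  · exact le_rfl

open Classical in
/-- sums over the decompositions -/
lemma pairW_sum (l L : ℕ) (Ch : Set (List Bool)) (θ : List Bool → ℝ) (t : List Bool) (w : ℕ → ℝ) :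
    ∑ p ∈ ((range (t.length + 1)) ×ˢ (range (t.length + 1))).filter (fun p => Dl l L Ch t p.1 p.2),
      w p.2 * θ (t.take p.1) =
      ∑ j ∈ range (t.length + 1), cjW L Ch θ t j * (if t.drop j ∈ Hp (2 ^ l) ∧ de (t.drop j) = up then w j else 0) := by
  rw [sum_filter, sum_product_right]
  refine sum_congr rfl fun j hj => ?_
  rw [mem_range] at hj
  unfold cjW
  rw [sum_mul]
  symm
  have hsub : range (j + 1) ⊆ range (t.length + 1) := fun i hi => by
    rw [mem_range] at hi ⊢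
    omega
  have e2 : ∀ i ∈ range (j + 1), (if t.take i ∈ Fe (4 * 2 ^ L) ∧ (t.take j).drop i ∈ Ch then θ (t.take i) else 0) *
      (if t.drop j ∈ Hp (2 ^ l) ∧ de (t.drop j) = up then w j else 0) =
        if Dl l L Ch t i j then w j * θ (t.take i) else 0 := by
    intro i hi
    rw [mem_range] at hi
    unfold Dl Hc
    by_cases h1 : t.take i ∈ Fe (4 * 2 ^ L) ∧ (t.take j).drop i ∈ Ch
    · by_cases h2 : t.drop j ∈ Hp (2 ^ l) ∧ de (t.drop j) = up
      · rw [if_pos h1, if_pos h2, if_pos ⟨by omega, h1.1, h1.2, h2⟩, mul_comm]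
      · rw [if_neg h2, mul_zero]
        exact (if_neg fun h => h2 h.2.2.2).symm
    · rw [if_neg h1, zero_mul]
      exact (if_neg fun h => h1 ⟨h.2.1, h.2.2.1⟩).symm
  rw [sum_congr rfl e2]
  refine sum_subset hsub fun i hi hi' => ?_
  rw [mem_range] at hi'
  exact if_neg fun h => hi' (by have := h.1; omega)

open Classical in
lemma NW_sum (l L : ℕ) (Ch : Set (List Bool)) (θ : List Bool → ℝ) (t : List Bool) : NW l L Ch θ (fun _ => 1) t =
    ∑ j ∈ range (t.length + 1), cjW L Ch θ t j *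
      (if t.drop j ∈ Hp (2 ^ l) ∧ de (t.drop j) = up then chi (2 ^ l) (t.drop j) else 0) := by
  rw [← pairW_sum l L Ch θ t fun j => chi (2 ^ l) (t.drop j)]
  unfold NW
  exact sum_congr rfl fun p _ => by rw [mul_one]

lemma cjW_app (L : ℕ) (Ch : Set (List Bool)) (θ : List Bool → ℝ) (A Y : List Bool) {j : ℕ} (hj : j ≤ A.length) :
    cjW L Ch θ (A ++ Y) j = cjW L Ch θ A j := by
  classical
  unfold cjW
  refine sum_congr rfl fun i hi => ?_
  rw [mem_range] at hi
  rw [List.take_append_of_le_length (by omega), List.take_append_of_le_length hj]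

open Classical in
lemma NQW_sum (l L : ℕ) (Ch : Set (List Bool)) (θ : List Bool → ℝ) (t : List Bool) : NQW l L Ch θ t =
    ∑ j ∈ range (t.length + 1), cjW L Ch θ t j * (if t.drop j ∈ Hp (2 ^ l) ∧ de (t.drop j) = up then 1 else 0) := by
  rw [← pairW_sum l L Ch θ t fun _ => 1]
  unfold NQW
  exact sum_congr rfl fun p _ => by rw [one_mul]

open Classical in
lemma NIW_sum (l L : ℕ) (Ch : Set (List Bool)) (θ : List Bool → ℝ) (t : List Bool) : NIW l L Ch θ t =
    ∑ j ∈ range (t.length + 1), cjW L Ch θ t j * (if t.drop j ∈ Hp (2 ^ l) ∧ de (t.drop j) = up then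
      (if (2 : ℤ) ^ l ≤ 64 * ip (en (t.drop j)) up ∧ 4 * hn (en (t.drop j)) ≤ 3 * 2 ^ l then 1 else 0) else 0) := by
  rw [← pairW_sum l L Ch θ t fun j =>
    if (2 : ℤ) ^ l ≤ 64 * ip (en (t.drop j)) up ∧ 4 * hn (en (t.drop j)) ≤ 3 * 2 ^ l then 1 else 0]
  rfl

lemma NQW_nonneg (l L : ℕ) (Ch : Set (List Bool)) {θ : List Bool → ℝ} (h0 : ∀ A, 0 ≤ θ A) (t : List Bool) :
    0 ≤ NQW l L Ch θ t := sum_nonneg fun _ _ => h0 _

lemma NQW_le (l L : ℕ) (Ch : Set (List Bool)) {θ : List Bool → ℝ} (h1 : ∀ A, θ A ≤ 1) (t : List Bool) :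
    NQW l L Ch θ t ≤ NQ0 l L Ch t := by
  classical
  unfold NQW NQ0
  rw [card_eq_sum_ones]
  push_cast
  exact sum_le_sum fun p _ => h1 _

lemma NW_le_NQW (l L : ℕ) (Ch : Set (List Bool)) {θ : List Bool → ℝ} (h0 : ∀ A, 0 ≤ θ A) (t : List Bool) :
    NW l L Ch θ (fun _ => 1) t ≤ NQW l L Ch θ t := by
  classical
  unfold NW NQW
  refine sum_le_sum fun p _ => ?_
  have h1 := chi_le (2 ^ l) (t.drop p.2)
  rw [mul_one]
  nlinarith [h0 (t.take p.1)]

end OW

open OW

open Classical in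
/-- **one level, weight of the far part** -/
theorem oscSW {l L rho : ℕ} (Ch : Set (List Bool)) {θ : List Bool → ℝ} (hθ0 : ∀ A, 0 ≤ θ A)
    {A Y : List Bool} (hR : 128 * rho ≤ 2 ^ l) (hrho : 1 ≤ rho) (hS : A ++ Y ∈ SA) (hcl : de Y = up)
    (hY : ∀ i, i ≤ Y.length → hn (vx oo up Y i) < rho) :
    |NW l L Ch θ (fun _ => 1) (A ++ Y) - NW l L Ch θ (fun _ => 1) A| ≤ 32 * rho / 2 ^ l * NIW l L Ch θ A ∧
      NIW l L Ch θ A ≤ NQW l L Ch θ (A ++ Y) := by
  obtain ⟨R, hRe⟩ : ∃ R : ℕ, R = 2 ^ l := ⟨_, rfl⟩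
  have hRz' : (2 : ℤ) ^ l = (R : ℤ) := by rw [hRe]; push_cast; rfl
  have hRr' : (2 : ℝ) ^ l = (R : ℝ) := by rw [hRe]; push_cast; rfl
  rw [NW_sum, NW_sum, NIW_sum, NQW_sum, ← hRe, hRz', hRr']
  rw [← hRe] at hR
  have hR0 : 0 < R := by omega
  have hRz : (128 : ℤ) * rho ≤ R := by exact_mod_cast hR
  have hrz : (1 : ℤ) ≤ rho := by exact_mod_cast hrho
  have hRr : (0 : ℝ) < R := by exact_mod_cast hR0
  have hY0 : hn (en Y) < rho := hY Y.length le_rfl
  have hcls : ∀ Z : List Bool, de (Z ++ Y) = de Z := fun Z => by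
    have e2 : de (Z ++ Y) = mulE (rt Z) (de Y) := by
      unfold de
      rw [List.length_append, dx_app]
    rw [e2, hcl, rt_up]
  obtain ⟨Mc, hMc⟩ : ∃ Mc : ℕ → Prop, Mc = fun k => (A.drop k ∈ Hp R ∧ de (A.drop k) = up) ∧
    ((R : ℤ) ≤ 64 * ip (en (A.drop k)) up ∧ 4 * hn (en (A.drop k)) ≤ 3 * R) := ⟨_, rfl⟩
  have hdk : ∀ k, k ≤ A.length → (A ++ Y).drop k = A.drop k ++ Y := fun k hk => List.drop_append_of_le_length hk
  have hsplit : ∀ k, A.take k ++ (A.drop k ++ Y) ∈ SA := by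
    intro k
    rw [← List.append_assoc, List.take_append_drop]
    exact hS
  have hend : ∀ Z : List Bool, |ip (en (Z ++ Y)) up - ip (en Z) up| ≤ rho ∧ |hn (en (Z ++ Y)) - hn (en Z)| ≤ rho := by
    intro Z
    rw [OscA.en_app]
    have h1 := hn_rot Z (en Y)
    have h2 := ip_abs (mulE (rt Z) (en Y)) upd'
    rw [h1] at h2
    refine ⟨?_, ?_⟩
    · rw [ip_add_left, add_sub_cancel_left]
      linarith
    · have h3 := hn_add (en Z) (mulE (rt Z) (en Y))
      have h4 := hn_sub (en Z + mulE (rt Z) (en Y)) (mulE (rt Z) (en Y))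
      rw [add_sub_cancel_right] at h4
      rw [h1] at h3 h4
      rw [abs_le]
      constructor <;> linarith
  have hzero : ∀ k, ¬ Mc k → A.drop k ∈ Hp R ∧ de (A.drop k) = up →
      chi R (A.drop k) = 0 ∧ chi R (A.drop k ++ Y) = 0 := by
    intro k hm m2
    rw [hMc] at hm
    have hm' : ¬ ((R : ℤ) ≤ 64 * ip (en (A.drop k)) up ∧ 4 * hn (en (A.drop k)) ≤ 3 * R) := fun h => hm ⟨m2, h⟩
    rw [not_and_or, not_le, not_le] at hm'
    obtain ⟨e1, e2⟩ := hend (A.drop k)
    rw [abs_le] at e1 e2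
    rcases hm' with h | h
    · exact ⟨chi_low hR0 (by omega), chi_low hR0 (by omega)⟩
    · exact ⟨chi_far hR0 (by omega), chi_far hR0 (by omega)⟩
  have hext : ∀ k, Mc k → A.drop k ++ Y ∈ Hp R ∧ de (A.drop k ++ Y) = up := by
    intro k hm
    rw [hMc] at hm
    exact ⟨Hp_ext hR hrho (hsplit k) hY hm.1.1 hm.2.1 hm.2.2, by rw [hcls, hm.1.2]⟩
  obtain ⟨f, hf⟩ : ∃ f : ℕ → ℝ, f = fun k => cjW L Ch θ (A ++ Y) k *
    (if (A ++ Y).drop k ∈ Hp R ∧ de ((A ++ Y).drop k) = up then chi R ((A ++ Y).drop k) else 0) := ⟨_, rfl⟩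
  obtain ⟨g, hg⟩ : ∃ g : ℕ → ℝ, g = fun k => cjW L Ch θ A k *
    (if A.drop k ∈ Hp R ∧ de (A.drop k) = up then chi R (A.drop k) else 0) := ⟨_, rfl⟩
  have hbig : ∀ k, A.length < k → k ≤ (A ++ Y).length → f k = 0 := by
    intro k hk hk2
    rw [hf]
    simp only
    split_ifs with hc
    · have hz : chi R ((A ++ Y).drop k) = 0 := by
        refine chi_low hR0 ?_
        rw [List.length_append] at hk2
        obtain ⟨j, rfl⟩ : ∃ j, k = A.length + j := ⟨k - A.length, by omega⟩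
        have e : (A ++ Y).drop (A.length + j) = Y.drop j := by
          rw [List.drop_append]
          simp
        rw [e]
        have h1 : en Y = en (Y.take j) + mulE (rt (Y.take j)) (en (Y.drop j)) := by
          rw [← OscA.en_app, List.take_append_drop]
        have hj : j ≤ Y.length := by omega
        have h2 : en (Y.take j) = vx oo up Y j := by
          unfold en
          rw [List.length_take, min_eq_left hj]
          have := vx_append (v0 := oo) (d0 := up) (t := Y.take j) (s := Y.drop j) (i := j)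
            (by rw [List.length_take, min_eq_left hj]; omega)
          rw [List.take_append_drop] at this
          exact this.symm
        have h3 : mulE (rt (Y.take j)) (en (Y.drop j)) = en Y - vx oo up Y j := by
          rw [h1, h2]
          abel
        have h4 := hn_rot (Y.take j) (en (Y.drop j))
        rw [h3] at h4
        have h5 := hn_sub (en Y) (vx oo up Y j)
        have h6 := hY j hj
        have h7 := ip_le_hn (en (Y.drop j)) upd'
        omega
      rw [hz, mul_zero]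
    · rw [mul_zero]
  have hsum : ∑ k ∈ range ((A ++ Y).length + 1), f k = ∑ k ∈ range (A.length + 1), f k := by
    symm
    refine sum_subset (fun k hk => ?_) fun k hk hk' => ?_
    · rw [mem_range] at hk ⊢
      rw [List.length_append]
      omega
    · rw [mem_range] at hk hk'
      exact hbig k (by omega) (by omega)
  have hterm : ∀ k ∈ range (A.length + 1), |f k - g k| ≤ 32 * rho / R * (cjW L Ch θ A k * (if Mc k then (1 : ℝ) else 0)) := by
    intro k hk
    rw [mem_range] at hk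
    have hk' : k ≤ A.length := by omega
    rw [hf, hg]
    simp only
    rw [cjW_app L Ch θ A Y hk', ← mul_sub, abs_mul, abs_of_nonneg (cjW_nonneg L Ch hθ0 A k), mul_left_comm]
    refine mul_le_mul_of_nonneg_left ?_ (cjW_nonneg L Ch hθ0 A k)
    rw [hdk k hk']
    by_cases hm : Mc k
    · have h1 := hext k hm
      have h2 : A.drop k ∈ Hp R ∧ de (A.drop k) = up := by
        rw [hMc] at hm
        exact hm.1
      rw [if_pos hm, mul_one, if_pos h1, if_pos h2]
      obtain ⟨e1, e2⟩ := hend (A.drop k)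
      exact chi_lip hR0 e1 e2
    · rw [if_neg hm, mul_zero]
      have h1 : (if A.drop k ∈ Hp R ∧ de (A.drop k) = up then chi R (A.drop k) else 0) = 0 := by
        split_ifs with hc
        · exact (hzero k hm hc).1
        · rfl
      have h2 : (if A.drop k ++ Y ∈ Hp R ∧ de (A.drop k ++ Y) = up then chi R (A.drop k ++ Y) else 0) = 0 := by
        split_ifs with hc
        · exact (hzero k hm ⟨OscA.Hp_pre hc.1, by rw [← hcls (A.drop k)]; exact hc.2⟩).2
        · rfl
      rw [h1, h2, sub_zero, abs_zero]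
  have hNI : ∀ k, (if A.drop k ∈ Hp R ∧ de (A.drop k) = up then
      (if (R : ℤ) ≤ 64 * ip (en (A.drop k)) up ∧ 4 * hn (en (A.drop k)) ≤ 3 * R then (1 : ℝ) else 0) else 0) =
      if Mc k then (1 : ℝ) else 0 := by
    intro k
    rw [hMc]
    by_cases h1 : A.drop k ∈ Hp R ∧ de (A.drop k) = up
    · rw [if_pos h1]
      by_cases h2 : (R : ℤ) ≤ 64 * ip (en (A.drop k)) up ∧ 4 * hn (en (A.drop k)) ≤ 3 * R
      · rw [if_pos h2, if_pos ⟨h1, h2⟩]
      · rw [if_neg h2, if_neg fun h => h2 h.2]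
    · rw [if_neg h1, if_neg fun h => h1 h.1]
  refine ⟨?_, ?_⟩
  · have hN1 : ∑ j ∈ range ((A ++ Y).length + 1), cjW L Ch θ (A ++ Y) j *
        (if (A ++ Y).drop j ∈ Hp R ∧ de ((A ++ Y).drop j) = up then chi R ((A ++ Y).drop j) else 0) =
        ∑ k ∈ range (A.length + 1), f k := by
      rw [← hsum, hf]
    have hN2 : ∑ j ∈ range (A.length + 1), cjW L Ch θ A j *
        (if A.drop j ∈ Hp R ∧ de (A.drop j) = up then chi R (A.drop j) else 0) = ∑ k ∈ range (A.length + 1), g k := by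
      rw [hg]
    rw [hN1, hN2, ← sum_sub_distrib, mul_sum]
    refine (abs_sum_le_sum_abs _ _).trans (sum_le_sum fun k hk => ?_)
    rw [hNI k]
    exact hterm k hk
  · have h1 : ∀ k ∈ range (A.length + 1), cjW L Ch θ A k * (if A.drop k ∈ Hp R ∧ de (A.drop k) = up then
        (if (R : ℤ) ≤ 64 * ip (en (A.drop k)) up ∧ 4 * hn (en (A.drop k)) ≤ 3 * R then (1 : ℝ) else 0) else 0) ≤
        cjW L Ch θ (A ++ Y) k * (if (A ++ Y).drop k ∈ Hp R ∧ de ((A ++ Y).drop k) = up then 1 else 0) := by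
      intro k hk
      rw [mem_range] at hk
      have hk' : k ≤ A.length := by omega
      rw [hNI k, cjW_app L Ch θ A Y hk', hdk k hk']
      refine mul_le_mul_of_nonneg_left ?_ (cjW_nonneg L Ch hθ0 A k)
      by_cases hm : Mc k
      · rw [if_pos hm, if_pos (hext k hm)]
      · rw [if_neg hm]
        split_ifs <;> norm_num
    refine (sum_le_sum h1).trans (sum_le_sum_of_subset_of_nonneg (fun k hk => ?_) fun k _ _ => ?_)
    · rw [mem_range] at hk ⊢
      rw [List.length_append]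
      omega
    · refine mul_nonneg (cjW_nonneg L Ch hθ0 _ k) ?_
      split_ifs <;> norm_num

/-- **P3, one level above, weight of the far part**: ends of class 0 of size less than 2 ^ (L' + 1), L' + s ≤ l -/
theorem oscVW {l L L' s : ℕ} (Ch : Set (List Bool)) {θ : List Bool → ℝ} (hθ0 : ∀ A, 0 ≤ θ A)
    (hs : 8 ≤ s) (hl : L' + s ≤ l) {A Y : List Bool} (hA : A ++ Y ∈ SA) (hcl : de Y = up)
    (hY : ∀ i, i ≤ Y.length → hn (vx oo up Y i) < 2 ^ (L' + 1)) :
    |NW l L Ch θ (fun _ => 1) (A ++ Y) - NW l L Ch θ (fun _ => 1) A| ≤ 64 / 2 ^ s * NQW l L Ch θ (A ++ Y) := by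
  have hY' : ∀ i, i ≤ Y.length → hn (vx oo up Y i) < ((2 * 2 ^ L' : ℕ) : ℤ) := by
    intro i hi
    have h3 := hY i hi
    rw [pow_succ, mul_comm] at h3
    push_cast
    exact h3
  have hr1 : 1 ≤ 2 * 2 ^ L' := by
    have := Nat.one_le_two_pow (n := L')
    omega
  obtain ⟨h3, h2⟩ := oscSW (l := l) (L := L) Ch hθ0 (OV.scale hs hl) hr1 hA hcl hY'
  refine h3.trans ?_
  refine (mul_le_mul_of_nonneg_left h2 (by positivity)).trans
    (mul_le_mul_of_nonneg_right ?_ (NQW_nonneg _ _ _ hθ0 _))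
  have h1 : (2 : ℝ) ^ (L' + s) ≤ 2 ^ l := pow_le_pow_right₀ (by norm_num) hl
  rw [div_le_div_iff₀ (by positivity) (by positivity)]
  push_cast
  calc 32 * (2 * (2 : ℝ) ^ L') * 2 ^ s = 64 * 2 ^ (L' + s) := by
        rw [pow_add]
        ring
    _ ≤ 64 * 2 ^ l := mul_le_mul_of_nonneg_left h1 (by norm_num)

open OW TW OG

/-- **the cutoff of the levels above hardly sees a small end of the class 0, weights of the far parts** -/
theorem oscGW {lv Lv : ℕ → ℕ} {s M : ℕ} {c : ℝ} {Ch : ℕ → Set (List Bool)} {θ : ℕ → List Bool → ℝ} {Dn : ℕ → ℝ} {i : ℕ}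
    (hθ0 : ∀ j A, 0 ≤ θ j A) (hL : ∀ j, i < j → j < M → Lv i + s ≤ lv j) (hc : 0 < c) (hs : 8 ≤ s) (hD : ∀ j, 0 ≤ Dn j)
    {A Y : List Bool} (hA : A ++ Y ∈ SA) (hcl : de Y = up)
    (hY : ∀ i', i' ≤ Y.length → hn (vx oo up Y i') < 2 ^ (Lv i + 1)) :
    |gc c (Ta (fun j => NW (lv j) (Lv j) (Ch j) (θ j) (fun _ => 1) (A ++ Y) / Dn j) M (i + 1)) -
        gc c (Ta (fun j => NW (lv j) (Lv j) (Ch j) (θ j) (fun _ => 1) A / Dn j) M (i + 1))| ≤
      64 / (c * 2 ^ s) * ∑ j ∈ Ico (i + 1) M, NQW (lv j) (Lv j) (Ch j) (θ j) (A ++ Y) / Dn j := by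
  refine (gc_dist hc _ _).trans ?_
  unfold Ta
  rw [← sum_sub_distrib]
  have e0 : ∀ x : ℝ, 64 / (c * 2 ^ s) * x = 64 / 2 ^ s * x / c := fun x => by field_simp
  rw [e0]
  refine div_le_div_of_nonneg_right ?_ hc.le
  rw [mul_sum]
  refine (abs_sum_le_sum_abs _ _).trans (sum_le_sum fun j hj => ?_)
  rw [mem_Ico] at hj
  rw [← sub_div, abs_div, abs_of_nonneg (hD j), ← mul_div_assoc]
  exact div_le_div_of_nonneg_right (oscVW (Ch j) (hθ0 j) hs (hL j (by omega) hj.2) hA hcl hY) (hD j)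

end PWN

end HexObs
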