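import Pool.Agent.PW.MomY
import Pool.Agent.PW.LevQ
import Pool.Agent.PW.OscW
import Pool.Agent.SLW.MomV

/-!
# PW, row MomT (helper70): moments of the weights of the words with a given far end

* `gK K` : the size of the two-point function at the distance 2 ^ K;
* `nq0_le` : the decompositions of the level (l, L) are at most the cuts of the scale 2 ^ (L + 1);
* `SeY`, `GSh` : the two-point bound, the regularity of `gK` (literals, helper76);
* **`momT_of`** : first and second moment of `NP (2 ^ i)` over any finite set of words with the end `y`;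
* **`momT_Ty`** : the second moments of NQ0, NQW, N0, NC over `Ty k R e y`.
-/

set_option autoImplicit false

namespace HexObs

namespace PWN

open Finset TS SDN TIW HexObs.SIM

open scoped ENNReal

/-- the size of the two-point function at the distance 2 ^ K -/
noncomputable def gK (K : ℕ) : ℝ := Ub K / 4 ^ K * (NTA.Xb K).toReal ^ 2

lemma gK_nonneg (K : ℕ) : 0 ≤ gK K := by
  unfold gK
  have := Ub_pos K
  positivity

/-- the two-point bound -/
def SeY : Prop := ∃ (C : ℝ) (K0 : ℕ), 0 < C ∧ ∀ (K : ℕ) (y : Pt), K0 ≤ K → (2 : ℤ) ^ K ≤ hn y →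
  gf {t | t ∈ SA ∧ en t = y} ≤ ENNReal.ofReal (C * gK K)

/-- the regularity of gK -/
def GSh : Prop := ∀ J : ℕ, ∃ C : ℝ, 0 < C ∧ ∀ K : ℕ, gK K ≤ C * gK (K + J) ∧ gK (K + J) ≤ C * gK K

/-- moments of the number of the cuts, words with a given far end -/
def MomYP : Prop := ∃ (C : ℝ) (K0 : ℕ), 0 < C ∧ ∀ (K i : ℕ) (y : Pt), K0 ≤ K → i + 6 ≤ K → (2 : ℤ) ^ (K - 3) ≤ hn y →
  ∀ T : Finset (List Bool), (∀ t ∈ T, t ∈ SA ∧ en t = y) →
  ∑ t ∈ T, xc ^ t.length * NP (2 ^ i) t ≤ C * Ub i * gK K ∧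
  ∑ t ∈ T, xc ^ t.length * NP (2 ^ i) t ^ 2 ≤ (C * Ub i) ^ 2 * gK K

/-- **MomT, plane** -/
theorem momT_of (hS : SeY) (hg : GSh) : MomYP := by
  obtain ⟨C, K0, hC, h⟩ := hS
  obtain ⟨C', hC', hg⟩ := hg 5
  refine ⟨72 * (1 + C * C'), K0 + 5, by positivity, fun K i y hK hi hy T hT => ?_⟩
  have hgK := gK_nonneg K
  have hU := Ub_pos i
  have e2 : (2 : ℤ) ^ K = 2 ^ (K - 6) * 64 := by
    rw [show (64 : ℤ) = 2 ^ 6 by norm_num, ← pow_add]
    congr 1
    omega
  have e3 : (2 : ℤ) ^ (K - 3) = 2 ^ (K - 6) * 8 := by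
    rw [show (8 : ℤ) = 2 ^ 3 by norm_num, ← pow_add]
    congr 1
    omega
  have e4 : (2 : ℤ) ^ (K - 4) = 2 ^ (K - 6) * 4 := by
    rw [show (4 : ℤ) = 2 ^ 2 by norm_num, ← pow_add]
    congr 1
    omega
  have e5 : (2 : ℤ) ^ (K - 5) = 2 ^ (K - 6) * 2 := by
    rw [← pow_succ]
    congr 1
    omega
  have hi' : (2 : ℤ) ^ i ≤ 2 ^ (K - 6) := pow_le_pow_right₀ (by norm_num) (by omega)
  have hp : (0 : ℤ) < 2 ^ (K - 6) := by positivity
  have hG : ∀ y' : Pt, ((2 ^ (K - 4) : ℕ) : ℤ) - (2 ^ i : ℕ) ≤ hn y' →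
      gf {t | t ∈ SA ∧ en t = y'} ≤ ENNReal.ofReal (C * C' * gK K) := by
    intro y' hy'
    push_cast at hy'
    refine (h (K - 5) y' (by omega) (by linarith)).trans (ENNReal.ofReal_le_ofReal ?_)
    have h1 := (hg (K - 5)).1
    rw [show K - 5 + 5 = K by omega] at h1
    calc C * gK (K - 5) ≤ C * (C' * gK K) := mul_le_mul_of_nonneg_left h1 hC.le
      _ = _ := by ring
  obtain ⟨h1, h2⟩ := MT.mom_far (r := 2 ^ i) (ρ := 2 ^ (K - 4)) (by positivity) hG (y := y) (by push_cast; linarith) T hT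
  have hUb : UU (2 ^ i) = Ub i := rfl
  rw [hUb] at h1 h2
  have hc : C * C' ≤ 1 + C * C' := by linarith
  have hc1 : (1 : ℝ) ≤ 1 + C * C' := by
    have : 0 < C * C' := by positivity
    linarith
  constructor
  · refine h1.trans ?_
    calc 72 * Ub i * (C * C' * gK K) ≤ 72 * Ub i * ((1 + C * C') * gK K) := by gcongr
      _ = _ := by ring
  · refine h2.trans ?_
    calc (72 * Ub i) ^ 2 * (C * C' * gK K) ≤ (72 * Ub i) ^ 2 * ((1 + C * C') ^ 2 * gK K) := by
          refine mul_le_mul_of_nonneg_left (mul_le_mul_of_nonneg_right ?_ hgK) (by positivity)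
          nlinarith
      _ = _ := by ring

/-! ### The decompositions of a level -/

lemma Hp_le {r s : ℕ} (h : r ≤ s) : Hp r ⊆ Hp s := fun _ hE => ⟨hE.1, fun i hi => (hE.2 i hi).trans_le (by exact_mod_cast h)⟩

/-- the decompositions of the level (l, L) are at most the cuts of the scale 2 ^ (L + 1) -/
lemma nq0_le {l L : ℕ} {Ch : Set (List Bool)} (hC : SLW.Chn L Ch) (hl : l ≤ L) (t : List Bool) :
    NQ0 l L Ch t ≤ NP (2 ^ (L + 1)) t := by
  classical
  unfold NQ0 NP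
  have h : (((range (t.length + 1)) ×ˢ (range (t.length + 1))).filter (fun p => Dl l L Ch t p.1 p.2)).card ≤
      (cu (2 ^ (L + 1)) t).card := by
    refine card_le_card_of_injOn (fun p => p.1) ?_ ?_
    · rintro ⟨i, j⟩ hp
      rw [Finset.mem_coe, mem_filter, mem_product] at hp
      obtain ⟨⟨hi, hj⟩, h1, h2, h3, h4, h5⟩ := hp
      rw [Finset.mem_coe]
      unfold cu
      rw [mem_filter]
      refine ⟨hi, ?_, ?_⟩
      · have e : 2 * 2 ^ (L + 1) = 4 * 2 ^ L := by ring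
        rw [e]
        exact h2
      · have e : 2 ^ (L + 1) = 2 * 2 ^ L := by ring
        rw [e]
        show t.drop i ∈ Hp (2 * 2 ^ L)
        rw [SLW.drop_eq h1]
        exact SLW.bu_hp (hC.bu h3) (by
          intro k hk
          have := hC.size _ h3 k hk
          push_cast
          exact this) (Hp_le (Nat.pow_le_pow_right (by norm_num) hl) h4)
    · rintro ⟨i, j⟩ hp ⟨i', j'⟩ hp' he
      simp only at he
      subst he
      rw [Finset.mem_coe, mem_filter, mem_product] at hp hp'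
      obtain ⟨⟨hi, hj⟩, h1, h2, h3, h4, h5⟩ := hp
      obtain ⟨⟨hi', hj'⟩, h1', h2', h3', h4', h5'⟩ := hp'
      simp only [mem_range] at hi hj hj' h1 h1' h3 h3' h4 h4'
      have e := hC.uniq _ h3 _ h3' _ _ h4.1 h4'.1 (by rw [← SLW.drop_eq h1, ← SLW.drop_eq h1'])
      have e2 := congrArg List.length e
      rw [List.length_drop, List.length_drop, List.length_take, List.length_take] at e2
      have e3 : j = j' := by omega
      rw [e3]
  exact_mod_cast h

/-- **moments of the weights of the level (l, L)**, far weight θ in [0, 1], words with a given far end -/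
def MomYL : Prop := ∃ (C : ℝ) (K0 : ℕ), 0 < C ∧ ∀ (K l L : ℕ) (y : Pt) (Ch : Set (List Bool)) (θ : List Bool → ℝ),
  K0 ≤ K → L + 7 ≤ K → l ≤ L → (2 : ℤ) ^ (K - 3) ≤ hn y → SLW.Chn L Ch → (∀ A, 0 ≤ θ A) → (∀ A, θ A ≤ 1) →
  ∀ T : Finset (List Bool), (∀ t ∈ T, t ∈ SA ∧ en t = y) →
  ∑ t ∈ T, xc ^ t.length * NQW l L Ch θ t ≤ C * Ub L * gK K ∧
  ∑ t ∈ T, xc ^ t.length * NQW l L Ch θ t ^ 2 ≤ (C * Ub L) ^ 2 * gK K

/-- the weights of the levels -/
theorem momL_of (h : MomYP) : MomYL := by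
  obtain ⟨C, K0, hC, h⟩ := h
  refine ⟨2 * C, K0, by positivity, fun K l L y Ch θ hK hL hl hy hCh h0 h1 T hT => ?_⟩
  obtain ⟨k1, k2⟩ := h K (L + 1) y hK (by omega) hy T hT
  have hx := xc_pos
  have hgK := gK_nonneg K
  have hU := Ub_pos L
  have hU1 := Ub_pos (L + 1)
  have hU2 := Ub_succ L
  have hle : ∀ t, NQW l L Ch θ t ≤ NP (2 ^ (L + 1)) t := fun t => (OW.NQW_le l L Ch h1 t).trans (nq0_le hCh hl t)
  have hnn : ∀ t, 0 ≤ NQW l L Ch θ t := fun t => OW.NQW_nonneg l L Ch h0 t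
  constructor
  · refine (sum_le_sum fun t _ => mul_le_mul_of_nonneg_left (hle t) (pow_nonneg hx.le _)).trans (k1.trans ?_)
    calc C * Ub (L + 1) * gK K ≤ C * (2 * Ub L) * gK K := by gcongr
      _ = _ := by ring
  · refine (sum_le_sum fun t _ => mul_le_mul_of_nonneg_left (pow_le_pow_left₀ (hnn t) (hle t) 2)
      (pow_nonneg hx.le _)).trans (k2.trans ?_)
    refine mul_le_mul_of_nonneg_right (pow_le_pow_left₀ (by positivity) ?_ 2) hgK
    calc C * Ub (L + 1) ≤ C * (2 * Ub L) := by gcongr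
      _ = _ := by ring

end PWN

end HexObs
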