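import Pool.Agent.PW.RMc
import Pool.Agent.PW.LevQ
import Pool.Agent.PW.OscW

/-!
PW (winding of the walk), row P7 (helper45), scheme of doc nu34/PW_66c: one core for every ensemble (`TF_core`), the plane
ensemble and the words of the cylinder together (`T_tip`).
-/

set_option autoImplicit false

namespace HexObs

namespace PWN

open Finset TS SDN TIW SLW SLW.TW RM

namespace RM

lemma Rob_mul {r : ℕ} {Φ E g G : List Bool → ℝ} (hΦ1 : ∀ t, |Φ t| ≤ 1) (hΦ : Rob r Φ E)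
    (hg0 : ∀ t, 0 ≤ g t) (hg1 : ∀ t, g t ≤ 1) (hG : Rob r g G) : Rob r (fun t => Φ t * g t) (fun t => E t + G t) := by
  intro A Y hA hd hY
  show |Φ (A ++ Y) * g (A ++ Y) - Φ A * g A| ≤ E (A ++ Y) + G (A ++ Y)
  have h5 := hΦ A Y hA hd hY
  have h6 := hG A Y hA hd hY
  have e1 : Φ (A ++ Y) * g (A ++ Y) - Φ A * g A =
      g (A ++ Y) * (Φ (A ++ Y) - Φ A) + Φ A * (g (A ++ Y) - g A) := by ring
  rw [e1]
  refine (abs_add_le _ _).trans (add_le_add ?_ ?_)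
  · rw [abs_mul, abs_of_nonneg (hg0 _)]
    calc g (A ++ Y) * |Φ (A ++ Y) - Φ A| ≤ 1 * |Φ (A ++ Y) - Φ A| :=
          mul_le_mul_of_nonneg_right (hg1 _) (abs_nonneg _)
      _ ≤ E (A ++ Y) := by rw [one_mul]; exact h5
  · rw [abs_mul]
    calc |Φ A| * |g (A ++ Y) - g A| ≤ 1 * |g (A ++ Y) - g A| := mul_le_mul_of_nonneg_right (hΦ1 _) (abs_nonneg _)
      _ ≤ G (A ++ Y) := by rw [one_mul]; exact h6

lemma Rob_mono {r r' : ℕ} (h : r ≤ r') {Ψ er : List Bool → ℝ} (hR : Rob r' Ψ er) : Rob r Ψ er := fun A Y hA hd hY =>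
  hR A Y hA hd fun i hi => lt_of_lt_of_le (hY i hi) (by exact_mod_cast h)

/-- Cauchy-Schwarz -/
lemma Ex_cs2 {S : Finset (List Bool)} {p f er : List Bool → ℝ} {B τ m0 : ℝ} (hp : ∀ t, 0 ≤ p t)
    (hτ : 0 ≤ τ) (hf : TW.Ex S p (fun t => f t ^ 2) ≤ B)
    (he : TW.Ex S p (fun t => er t ^ 2) ≤ τ ^ 2 * m0) : 2 * TW.Ex S p (fun t => f t * er t) ≤ τ * (B + m0) := by
  rcases hτ.eq_or_lt with h | h
  · -- τ = 0: er vanishes on S
    rw [← h] at he ⊢
    rw [zero_pow two_ne_zero, zero_mul] at he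
    have h1 : ∀ t ∈ S, p t * er t ^ 2 = 0 := by
      have h2 : TW.Ex S p (fun t => er t ^ 2) = 0 := le_antisymm he (Ex_nonneg hp fun t _ => sq_nonneg _)
      unfold TW.Ex at h2
      exact (sum_eq_zero_iff_of_nonneg fun t _ => mul_nonneg (hp t) (sq_nonneg _)).1 h2
    have h3 : TW.Ex S p (fun t => f t * er t) = 0 := by
      unfold TW.Ex
      refine sum_eq_zero fun t ht => ?_
      show p t * (f t * er t) = 0
      rcases mul_eq_zero.1 (h1 t ht) with h4 | h4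
      · rw [h4, zero_mul]
      · rw [pow_eq_zero_iff two_ne_zero] at h4
        rw [h4]
        ring
    rw [h3]
    simp
  · have h1 : TW.Ex S p (fun t => f t * er t) ≤ TW.Ex S p (fun t => τ / 2 * f t ^ 2 + 1 / (2 * τ) * er t ^ 2) := by
      refine TW.Ex_mono hp fun t _ => ?_
      have h2 : 0 ≤ (τ * f t - er t) ^ 2 / (2 * τ) := by positivity
      have h3 : (τ * f t - er t) ^ 2 / (2 * τ) = τ / 2 * f t ^ 2 + 1 / (2 * τ) * er t ^ 2 - f t * er t := by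
        field_simp
        ring
      show f t * er t ≤ τ / 2 * f t ^ 2 + 1 / (2 * τ) * er t ^ 2
      linarith
    have h2 : TW.Ex S p (fun t => τ / 2 * f t ^ 2 + 1 / (2 * τ) * er t ^ 2) =
        τ / 2 * TW.Ex S p (fun t => f t ^ 2) + 1 / (2 * τ) * TW.Ex S p (fun t => er t ^ 2) := by
      rw [TW.Ex_add, TW.Ex_smul, TW.Ex_smul]
    rw [h2] at h1
    have h3 : 1 / (2 * τ) * TW.Ex S p (fun t => er t ^ 2) ≤ 1 / (2 * τ) * (τ ^ 2 * m0) :=
      mul_le_mul_of_nonneg_left he (by positivity)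
    have h4 : 1 / (2 * τ) * (τ ^ 2 * m0) = τ / 2 * m0 := by field_simp
    have h5 : τ / 2 * TW.Ex S p (fun t => f t ^ 2) ≤ τ / 2 * B := mul_le_mul_of_nonneg_left hf (by positivity)
    linarith

/-- **one ensemble, given levels with all values near `E`**: `q` is asymptotically independent of the far functional `Φ`,
with the mean `E` -/
theorem TF_core {S : Finset (List Bool)} {p : List Bool → ℝ} {M N : ℕ} {r : ℕ → ℕ} {r0 : ℕ} {e : ℕ → ℕ}
    {n nb : ℕ → List Bool → ℝ} {q Φ er : List Bool → ℝ} {ν : ℕ → ℝ} {B ω β τ c x E η m0 : ℝ}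
    (hp : ∀ t, 0 ≤ p t) (hm : ∑ t ∈ S, p t ≤ m0) (h0 : ∀ i t, 0 ≤ n i t) (hnb : ∀ i t, n i t ≤ nb i t)
    (hB : ∀ i, i < N → TW.Ex S p (fun t => nb i t ^ 2) ≤ B) (hq : ∀ t, |q t| ≤ 1) (hω : 0 ≤ ω) (hc : 0 < c)
    (hM : 1 ≤ M) (hτ : 0 ≤ τ) (hE : |E| ≤ 1) (he1 : ∀ j, j < M → e j < N) (he2 : ∀ i j, i < j → j < M → e i < e j)
    (hr : ∀ i, i < N → r i ≤ r0) (hosc : ∀ i j, i < j → j < N → Rob (r i) (n j) (fun t => ω * nb j t))
    (hΦ1 : ∀ t, |Φ t| ≤ 1) (hfar : Rob r0 Φ er) (her0 : ∀ t, 0 ≤ er t) (her2 : TW.Ex S p (fun t => er t ^ 2) ≤ τ ^ 2 * m0)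
    (hlev : ∀ i, i < N → ∀ Ψ er : List Bool → ℝ, (∀ t, |Ψ t| ≤ 1) → (∀ t, 0 ≤ er t) → Rob (r i) Ψ er →
      |TW.Ex S p (fun t => Ψ t * (q t * n i t)) - ν i * TW.Ex S p (fun t => Ψ t * n i t)| ≤
        2 * TW.Ex S p (fun t => n i t * er t) + β)
    (hS : TW.Ex S p (fun t => by classical exact if Ta (fun j => n (e j) t / M) M 0 < 2 * c then 1 else 0) ≤ x)
    (hη : 0 ≤ η) (hν : ∀ j, j < M → |ν (e j) - E| ≤ η) :
    |TW.Ex S p (fun t => Φ t * q t) - E * TW.Ex S p Φ| ≤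
      2 * (x + B / (c ^ 2 * M)) + (τ * (B + m0) + 2 * (ω * B / c) + β) / c + η * (m0 + (x + B / (c ^ 2 * M))) := by
  classical
  have hM0 : (0 : ℝ) < M := by exact_mod_cast (by omega : 0 < M)
  obtain ⟨a, ha⟩ : ∃ a : ℕ → List Bool → ℝ, a = fun j t => n (e j) t / M := ⟨_, rfl⟩
  have ha' : ∀ j t, a j t = n (e j) t / M := fun j t => by rw [ha]
  have ha0 : ∀ j t, 0 ≤ a j t := fun j t => by
    rw [ha']
    exact div_nonneg (h0 _ _) hM0.le
  have hn2 : ∀ i, i < N → TW.Ex S p (fun t => n i t ^ 2) ≤ B := fun i hi =>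
    (TW.Ex_mono hp fun t _ => pow_le_pow_left₀ (h0 _ _) (hnb _ _) 2).trans (hB i hi)
  have hn1 : ∀ i, i < N → 2 * TW.Ex S p (fun t => n i t * er t) ≤ τ * (B + m0) := fun i hi =>
    Ex_cs2 hp hτ (hn2 i hi) her2
  have h2 : ∀ l, l < M → TW.Ex S p (fun t => a l t ^ 2) ≤ B / M ^ 2 := by
    intro l hl
    have e1 : TW.Ex S p (fun t => a l t ^ 2) = (1 / (M : ℝ) ^ 2) * TW.Ex S p (fun t => n (e l) t ^ 2) := by
      rw [← TW.Ex_smul]
      unfold TW.Ex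
      refine sum_congr rfl fun t _ => ?_
      simp only [ha', div_pow]
      ring
    have h3 : TW.Ex S p (fun t => n (e l) t ^ 2) ≤ B := by
      refine (TW.Ex_mono hp fun t _ => ?_).trans (hB (e l) (he1 l hl))
      exact pow_le_pow_left₀ (h0 _ _) (hnb _ _) 2
    rw [e1, div_eq_mul_one_div B, mul_comm B]
    exact mul_le_mul_of_nonneg_left h3 (by positivity)
  have hl : ∀ l, l < M → |TW.Ex S p (fun t => Φ t * q t * al c a M l t) -
      ν (e l) * TW.Ex S p (fun t => Φ t * al c a M l t)| ≤ (τ * (B + m0) + 2 * (ω * B / c) + β) / M := by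
    intro l hl
    obtain ⟨g, hg⟩ : ∃ g : List Bool → ℝ, g = fun t => gc c (Ta (fun j => a j t) M (l + 1)) := ⟨_, rfl⟩
    have hg' : ∀ t, g t = gc c (Ta (fun j => a j t) M (l + 1)) := fun t => by rw [hg]
    have hg0 : ∀ t, 0 ≤ g t := fun t => by rw [hg']; exact gc_nonneg _ _
    have hg1 : ∀ t, g t ≤ 1 := fun t => by rw [hg']; exact gc_le_one _ _
    obtain ⟨G, hG⟩ : ∃ G : List Bool → ℝ, G = fun t => ω / M / c * ∑ j ∈ Ico (l + 1) M, nb (e j) t := ⟨_, rfl⟩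
    have hG0 : ∀ t, 0 ≤ G t := fun t => by
      rw [hG]
      exact mul_nonneg (div_nonneg (div_nonneg hω hM0.le) hc.le) (sum_nonneg fun j _ => (h0 _ _).trans (hnb _ _))
    have hgR : Rob (r (e l)) g G := by
      rw [hg, hG]
      refine Rob_gc hc fun j hj1 hj2 A Y hA hd hY => ?_
      have h3 := hosc (e l) (e j) (he2 l j hj1 hj2) (he1 j hj2) A Y hA hd hY
      show |a j (A ++ Y) - a j A| ≤ ω / M * nb (e j) (A ++ Y)
      rw [ha', ha', ← sub_div, abs_div, abs_of_pos hM0, div_mul_eq_mul_div]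
      exact div_le_div_of_nonneg_right h3 hM0.le
    have hR1 := Rob_mul hΦ1 (Rob_mono (hr _ (he1 l hl)) hfar) hg0 hg1 hgR
    have h3 := hlev (e l) (he1 l hl) (fun t => Φ t * g t) (fun t => er t + G t)
      (fun t => by
        rw [abs_mul, abs_of_nonneg (hg0 t)]
        exact mul_le_one₀ (hΦ1 t) (hg0 t) (hg1 t)) (fun t => add_nonneg (her0 t) (hG0 t)) hR1
    have h4 : TW.Ex S p (fun t => n (e l) t * (er t + G t)) =
        TW.Ex S p (fun t => n (e l) t * er t) + TW.Ex S p (fun t => n (e l) t * G t) := by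
      rw [← TW.Ex_add]
      unfold TW.Ex
      exact sum_congr rfl fun t _ => by ring
    have h5 : TW.Ex S p (fun t => n (e l) t * G t) ≤ ω * B / c := by
      rw [hG]
      exact er_sum (l := l) hp h0 hnb hB hω hc hM he1 hl
    have h6 := hn1 _ (he1 l hl)
    have e4 : TW.Ex S p (fun t => Φ t * q t * al c a M l t) =
        (1 / (M : ℝ)) * TW.Ex S p (fun t => Φ t * g t * (q t * n (e l) t)) := by
      rw [← TW.Ex_smul]
      unfold TW.Ex al
      refine sum_congr rfl fun t _ => ?_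
      show p t * (Φ t * q t * (a l t * gc c (Ta (fun j => a j t) M (l + 1)))) =
        p t * (1 / M * (Φ t * g t * (q t * n (e l) t)))
      rw [← hg', ha']
      ring
    have e5 : TW.Ex S p (fun t => Φ t * al c a M l t) = (1 / (M : ℝ)) * TW.Ex S p (fun t => Φ t * g t * n (e l) t) := by
      rw [← TW.Ex_smul]
      unfold TW.Ex al
      refine sum_congr rfl fun t _ => ?_
      show p t * (Φ t * (a l t * gc c (Ta (fun j => a j t) M (l + 1)))) = p t * (1 / M * (Φ t * g t * n (e l) t))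
      rw [← hg', ha']
      ring
    rw [e4, e5, mul_left_comm, ← mul_sub, abs_mul, abs_of_pos (by positivity : (0 : ℝ) < 1 / M), one_div,
      ← div_eq_inv_mul]
    exact div_le_div_of_nonneg_right (by linarith) hM0.le
  have hj := join (S := S) (p := p) (F := Φ) (q := q) (a := a) (ν := fun l => ν (e l))
    (κ := fun _ => (τ * (B + m0) + 2 * (ω * B / c) + β) / M) (c := c) (B := B) (x := x) (E := E) (η := η) (m0 := m0)
    hp ha0 hc hM hΦ1 hq hE hη hν hm h2 (by simp only [ha']; exact hS) hl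
  have e8 : (∑ _l ∈ range M, (τ * (B + m0) + 2 * (ω * B / c) + β) / M) = τ * (B + m0) + 2 * (ω * B / c) + β := by
    rw [sum_const, card_range, nsmul_eq_mul]
    field_simp
  rw [e8] at hj
  exact hj

end RM

/-- the levels: ends of the scale `lv i`, chains of the scale `lv i + s`, gaps `s'` -/
structure LvF (M : ℕ) (lv : ℕ → ℕ) (s s' : ℕ) (η : ℝ) (Ch : ℕ → Set (List Bool)) : Prop where
  gap : ∀ i j, i < j → j < M → lv i + s + s' ≤ lv j
  chn : ∀ i, i < M → Chn (lv i + s) (Ch i)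
  mass : ∀ i, i < M → 0 < wD (Ch i)
  sm : ∀ i, i < M → SM (lv i) (Ch i) (η * wD (Ch i) / 4 ^ (lv i + s))

/-- the normalised weight of the level i, far weight `θ i` -/
noncomputable def aW (lv : ℕ → ℕ) (s : ℕ) (Ch : ℕ → Set (List Bool)) (θ : ℕ → List Bool → ℝ) (U : ℕ → ℝ) (i : ℕ)
    (t : List Bool) : ℝ := NW (lv i) (lv i + s) (Ch i) (θ i) (fun _ => 1) t / U i

/-- the normalised number of the decompositions of the level i, far weight `θ i` -/
noncomputable def aQ (lv : ℕ → ℕ) (s : ℕ) (Ch : ℕ → Set (List Bool)) (θ : ℕ → List Bool → ℝ) (U : ℕ → ℝ) (i : ℕ)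
    (t : List Bool) : ℝ := NQW (lv i) (lv i + s) (Ch i) (θ i) t / U i

/-- inner functionals at the scale of the levels -/
def InnQ (M : ℕ) (lv : ℕ → ℕ) (s : ℕ) (Ch : ℕ → Set (List Bool)) (q : List Bool → ℝ) : Prop := ∀ i, i < M →
  ∀ θ : List Bool → ℝ, ∀ t, t ∈ SA → NW (lv i) (lv i + s) (Ch i) θ q t = q t * NW (lv i) (lv i + s) (Ch i) θ (fun _ => 1) t

/-- the level identity of an ensemble of words, in the form of the cores -/
def LevE (S : Finset (List Bool)) (p : List Bool → ℝ) (M : ℕ) (lv : ℕ → ℕ) (s : ℕ) (Ch : ℕ → Set (List Bool))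
    (θ : ℕ → List Bool → ℝ) (U : ℕ → ℝ) (β : ℝ) (q : List Bool → ℝ) : Prop :=
  ∀ i, i < M → ∀ Ψ er : List Bool → ℝ, (∀ t, |Ψ t| ≤ 1) → (∀ t, 0 ≤ er t) → Rob (2 ^ (lv i + s + 1)) Ψ er →
    |∑ t ∈ S, p t * (Ψ t * (NW (lv i) (lv i + s) (Ch i) (θ i) q t -
      nu (lv i) q * NW (lv i) (lv i + s) (Ch i) (θ i) (fun _ => 1) t))| ≤
      2 * ∑ t ∈ S, p t * (NW (lv i) (lv i + s) (Ch i) (θ i) (fun _ => 1) t * er t) + β * U i

section Ens

variable {M s s' : ℕ} {lv : ℕ → ℕ} {Ch : ℕ → Set (List Bool)} {θ : ℕ → List Bool → ℝ} {U : ℕ → ℝ}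

lemma aW_nonneg (hθ : ∀ i A, 0 ≤ θ i A) (hU : ∀ i, 0 ≤ U i) (i : ℕ) (t : List Bool) : 0 ≤ aW lv s Ch θ U i t :=
  div_nonneg (NW_nonneg (hθ i) fun _ _ => zero_le_one) (hU i)

lemma aW_le_aQ (hθ : ∀ i A, 0 ≤ θ i A) (hU : ∀ i, 0 ≤ U i) (i : ℕ) (t : List Bool) :
    aW lv s Ch θ U i t ≤ aQ lv s Ch θ U i t :=
  div_le_div_of_nonneg_right (OW.NW_le_NQW _ _ _ (hθ i) t) (hU i)

lemma aW_osc (h : ∀ i j, i < j → j < M → lv i + s + s' ≤ lv j) (hs : 8 ≤ s') (hθ : ∀ i A, 0 ≤ θ i A) (hU : ∀ i, 0 ≤ U i) {i j : ℕ}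
    (hij : i < j) (hj : j < M) :
    Rob (2 ^ (lv i + s + 1)) (aW lv s Ch θ U j) (fun t => 64 / 2 ^ s' * aQ lv s Ch θ U j t) := by
  intro A Y hA hd hY
  have h1 := oscVW (l := lv j) (L := lv j + s) (L' := lv i + s) (s := s') (Ch j) (hθ j) hs (h i j hij hj) hA hd
    (fun i' hi' => by
      have := hY i' hi'
      push_cast at this ⊢
      exact this)
  show |NW (lv j) (lv j + s) (Ch j) (θ j) (fun _ => 1) (A ++ Y) / U j - NW (lv j) (lv j + s) (Ch j) (θ j) (fun _ => 1) A / U j| ≤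
    64 / 2 ^ s' * (NQW (lv j) (lv j + s) (Ch j) (θ j) (A ++ Y) / U j)
  rw [← sub_div, abs_div, abs_of_nonneg (hU j), ← mul_div_assoc]
  exact div_le_div_of_nonneg_right h1 (hU j)

lemma levE_core {S : Finset (List Bool)} {p q : List Bool → ℝ} {β g : ℝ} (hg : 0 < g) (hSA : ∀ t ∈ S, t ∈ SA)
    (hU : ∀ i, i < M → 0 < U i) (hq : InnQ M lv s Ch q) (hL : LevE S p M lv s Ch θ U (β * g) q) :
    ∀ i, i < M → ∀ Ψ er : List Bool → ℝ, (∀ t, |Ψ t| ≤ 1) → (∀ t, 0 ≤ er t) → Rob (2 ^ (lv i + s + 1)) Ψ er →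
      |TW.Ex S (fun t => p t / g) (fun t => Ψ t * (q t * aW lv s Ch θ U i t)) -
        nu (lv i) q * TW.Ex S (fun t => p t / g) (fun t => Ψ t * aW lv s Ch θ U i t)| ≤
        2 * TW.Ex S (fun t => p t / g) (fun t => aW lv s Ch θ U i t * er t) + β := by
  intro i hi Ψ er hΨ her hR
  have h1 := hL i hi Ψ er hΨ her hR
  have h2 := hU i hi
  have e1 : TW.Ex S (fun t => p t / g) (fun t => Ψ t * (q t * aW lv s Ch θ U i t)) -
      nu (lv i) q * TW.Ex S (fun t => p t / g) (fun t => Ψ t * aW lv s Ch θ U i t) =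
      (∑ t ∈ S, p t * (Ψ t * (NW (lv i) (lv i + s) (Ch i) (θ i) q t -
        nu (lv i) q * NW (lv i) (lv i + s) (Ch i) (θ i) (fun _ => 1) t))) / (g * U i) := by
    unfold TW.Ex aW
    rw [mul_sum, ← sum_sub_distrib, sum_div]
    refine sum_congr rfl fun t ht => ?_
    rw [hq i hi (θ i) t (hSA t ht)]
    field_simp
  have e2 : 2 * TW.Ex S (fun t => p t / g) (fun t => aW lv s Ch θ U i t * er t) + β =
      (2 * ∑ t ∈ S, p t * (NW (lv i) (lv i + s) (Ch i) (θ i) (fun _ => 1) t * er t) + β * g * U i) / (g * U i) := by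
    have e3 : TW.Ex S (fun t => p t / g) (fun t => aW lv s Ch θ U i t * er t) =
        (∑ t ∈ S, p t * (NW (lv i) (lv i + s) (Ch i) (θ i) (fun _ => 1) t * er t)) / (g * U i) := by
      unfold TW.Ex aW
      rw [sum_div]
      refine sum_congr rfl fun t _ => ?_
      field_simp
    rw [e3]
    field_simp
  rw [e1, e2, abs_div, abs_of_pos (mul_pos hg h2)]
  exact div_le_div_of_nonneg_right h1 (mul_pos hg h2).le

end Ens

open Classical in
/-- indicator: the sum of the weights is small -/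
noncomputable def smI (c : ℝ) (a : ℕ → ℝ) (M : ℕ) : ℝ := if Ta a M 0 < 2 * c then 1 else 0

/-- the data of one ensemble of words: mass `g`, levels with the far weights `θ`, second moments `B`, small sums -/
structure EnsD (S : Finset (List Bool)) (p : List Bool → ℝ) (M N : ℕ) (lv : ℕ → ℕ) (s : ℕ) (Ch : ℕ → Set (List Bool))
    (θ : ℕ → List Bool → ℝ) (U : ℕ → ℝ) (g m0 B c x : ℝ) : Prop where
  g0 : 0 < g
  p0 : ∀ t, 0 ≤ p t
  sa : ∀ t ∈ S, t ∈ SA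
  mass : ∑ t ∈ S, p t ≤ m0 * g
  th : ∀ i A, 0 ≤ θ i A
  u0 : ∀ i, 0 ≤ U i
  u1 : ∀ i, i < N → 0 < U i
  mom : ∀ i, i < N → ∑ t ∈ S, p t * NQW (lv i) (lv i + s) (Ch i) (θ i) t ^ 2 ≤ B * U i ^ 2 * g
  small : ∀ e : ℕ → ℕ, (∀ j, j < M → e j < N) → (∀ i j, i < j → j < M → e i < e j) →
    ∑ t ∈ S, p t * smI c (fun j => NW (lv (e j)) (lv (e j) + s) (Ch (e j)) (θ (e j)) (fun _ => 1) t / U (e j) / M) M ≤
      x * g

section Ens2

variable {S : Finset (List Bool)} {p : List Bool → ℝ} {M N : ℕ} {lv : ℕ → ℕ} {s : ℕ} {Ch : ℕ → Set (List Bool)}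
  {θ : ℕ → List Bool → ℝ} {U : ℕ → ℝ} {g m0 B c x : ℝ}

lemma Ex_div (f : List Bool → ℝ) : TW.Ex S (fun t => p t / g) f = (∑ t ∈ S, p t * f t) / g := by
  unfold TW.Ex
  rw [sum_div]
  exact sum_congr rfl fun t _ => by ring

lemma EnsD.p0' (h : EnsD S p M N lv s Ch θ U g m0 B c x) (t : List Bool) : 0 ≤ p t / g := div_nonneg (h.p0 t) h.g0.le

lemma EnsD.mass' (h : EnsD S p M N lv s Ch θ U g m0 B c x) : ∑ t ∈ S, p t / g ≤ m0 := by
  rw [← sum_div, div_le_iff₀ h.g0]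
  exact h.mass

lemma EnsD.mom' (h : EnsD S p M N lv s Ch θ U g m0 B c x) (i : ℕ) (hi : i < N) :
    TW.Ex S (fun t => p t / g) (fun t => aQ lv s Ch θ U i t ^ 2) ≤ B := by
  rw [Ex_div, div_le_iff₀ h.g0]
  have h1 := h.mom i hi
  have h2 := h.u1 i hi
  have e1 : ∑ t ∈ S, p t * aQ lv s Ch θ U i t ^ 2 =
      (∑ t ∈ S, p t * NQW (lv i) (lv i + s) (Ch i) (θ i) t ^ 2) / U i ^ 2 := by
    rw [sum_div]
    refine sum_congr rfl fun t _ => ?_
    unfold aQ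
    rw [div_pow]
    ring
  rw [e1, div_le_iff₀ (pow_pos h2 2)]
  linarith

lemma EnsD.small' (h : EnsD S p M N lv s Ch θ U g m0 B c x) (e : ℕ → ℕ) (he1 : ∀ j, j < M → e j < N)
    (he2 : ∀ i j, i < j → j < M → e i < e j) :
    TW.Ex S (fun t => p t / g) (fun t => by classical exact if Ta (fun j => aW lv s Ch θ U (e j) t / M) M 0 < 2 * c then 1
      else 0) ≤ x := by
  rw [Ex_div, div_le_iff₀ h.g0]
  exact h.small e he1 he2

end Ens2

/-- **the plane ensemble and the words of the cylinder together** -/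
theorem T_tip {M s s' : ℕ} {lv : ℕ → ℕ} {c c' x x' ε' τ g g' m0 B B' β β' err : ℝ} {r0 : ℕ}
    {Ch : ℕ → Set (List Bool)} {S S' : Finset (List Bool)} {p p' : List Bool → ℝ} {q Φ er : List Bool → ℝ}
    {θ θ' : ℕ → List Bool → ℝ} {U U' : ℕ → ℝ} (hgap : ∀ i j, i < j → j < 3 * M → lv i + s + s' ≤ lv j) (hs' : 8 ≤ s')
    (hM : 1 ≤ M)
    (hr0 : ∀ i, i < 3 * M → 2 ^ (lv i + s + 1) ≤ r0)
    (hA : EnsD S p M (3 * M) lv s Ch θ U g 1 B c x) (hAm : ∑ t ∈ S, p t = g) (hAL : LevE S p (3 * M) lv s Ch θ U (β * g) q)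
    (hT : EnsD S' p' M (3 * M) lv s Ch θ' U' g' m0 B' c' x') (hTL : LevE S' p' (3 * M) lv s Ch θ' U' (β' * g') q)
    (hβ : 0 ≤ β) (hq : ∀ t, |q t| ≤ 1) (hqI : InnQ (3 * M) lv s Ch q) (hc : 0 < c) (hc' : 0 < c')
    (hε0 : 0 < ε') (hε : x + B / (c ^ 2 * M) + (2 * (64 / 2 ^ s' * B / c) + β) / c ≤ ε') (hε2 : ε' ≤ 1 / 4)
    (hτ : 0 ≤ τ) (hΦ1 : ∀ t, |Φ t| ≤ 1) (hfar : Rob r0 Φ er) (her0 : ∀ t, 0 ≤ er t)
    (her2 : ∑ t ∈ S', p' t * er t ^ 2 ≤ τ ^ 2 * m0 * g')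
    (herr : 2 * (x' + B' / (c' ^ 2 * M)) + (τ * (B' + m0) + 2 * (64 / 2 ^ s' * B' / c') + β') / c' +
      4 * ε' * (m0 + (x' + B' / (c' ^ 2 * M))) ≤ err) :
    |∑ t ∈ S', p' t * (Φ t * q t) - (∑ t ∈ S, p t * q t) / g * ∑ t ∈ S', p' t * Φ t| ≤ err * g' := by
  classical
  have hω : (0 : ℝ) ≤ 64 / 2 ^ s' := by positivity
  have hcard : (2 * Fintype.card Unit + 1) * M ≤ 3 * M := by
    rw [Fintype.card_unit]
  have hp1 : ∑ t ∈ S, p t / g = 1 := by
    rw [← sum_div, hAm, div_self hA.g0.ne']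
  -- the plane
  obtain ⟨e, he1, he2, he3⟩ := TA_core (κ := Unit) (S := S) (p := fun t => p t / g) (M := M) (N := 3 * M)
    (r := fun i => 2 ^ (lv i + s + 1)) (n := aW lv s Ch θ U) (nb := aQ lv s Ch θ U) (f := fun _ => q)
    (ν := fun _ i => nu (lv i) q) (B := B) (ω := 64 / 2 ^ s') (β := β) (c := c) (x := x) (ε := ε')
    hA.p0' hp1 (aW_nonneg hA.th hA.u0) (aW_le_aQ hA.th hA.u0) hA.mom' (fun _ => hq) hω hβ hc hM hcard
    (fun i j hij hj => aW_osc hgap hs' hA.th hA.u0 hij hj)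
    (fun i hi _ Ψ er hΨ her hR => levE_core hA.g0 hA.sa hA.u1 hqI hAL i hi Ψ er hΨ her hR)
    hA.small' hε0 hε hε2
  have hEq : |TW.Ex S (fun t => p t / g) q| ≤ 1 := by
    refine (TW.Ex_abs hA.p0').trans ?_
    have h1 : TW.Ex S (fun t => p t / g) (fun t => |q t|) ≤ TW.Ex S (fun t => p t / g) (fun _ => 1) :=
      TW.Ex_mono hA.p0' fun t _ => hq t
    refine h1.trans (le_of_eq ?_)
    unfold TW.Ex
    exact (sum_congr rfl fun t _ => mul_one _).trans hp1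
  -- the cylinder
  have hj := TF_core (S := S') (p := fun t => p' t / g') (M := M) (N := 3 * M) (r := fun i => 2 ^ (lv i + s + 1))
    (r0 := r0) (e := e) (n := aW lv s Ch θ' U') (nb := aQ lv s Ch θ' U') (q := q) (Φ := Φ) (ν := fun i => nu (lv i) q)
    (B := B') (ω := 64 / 2 ^ s') (β := β') (τ := τ) (c := c') (x := x') (E := TW.Ex S (fun t => p t / g) q)
    (η := 4 * ε') (m0 := m0)
    hT.p0' hT.mass' (aW_nonneg hT.th hT.u0) (aW_le_aQ hT.th hT.u0) hT.mom' hq hω hc' hM hτ hEq he1 he2 hr0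
    (fun i j hij hj => aW_osc hgap hs' hT.th hT.u0 hij hj) hΦ1 hfar her0 (by rw [Ex_div, div_le_iff₀ hT.g0]; exact her2)
    (fun i hi Ψ er hΨ her hR => levE_core hT.g0 hT.sa hT.u1 hqI hTL i hi Ψ er hΨ her hR)
    (hT.small' e he1 he2) (by positivity) (fun j hj => he3 j hj ())
  rw [Ex_div, Ex_div, Ex_div, ← mul_div_assoc, ← sub_div, abs_div, abs_of_pos hT.g0, div_le_iff₀ hT.g0] at hj
  refine hj.trans (mul_le_mul_of_nonneg_right herr hT.g0.le)

end PWN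

end HexObs
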