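import Pool.Agent.PW.SmallT
import Pool.Agent.PW.TipJ
import Pool.Agent.PW.MomT

/-!
# PW, row SmallT (helper47): the total weight of the levels on the words of the cylinder is rarely small

* `gf_Ty` : sums of indicators over `Ty` against `gf`;
* **`small_Ty`** : from the small sums in the ensemble of the right parts to the small sums over `Ty`.
-/

set_option autoImplicit false

namespace HexObs

namespace PWN

open Finset TS SDN TIW SLW HexObs.SIM SLW.TW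

open scoped ENNReal

lemma gK_eq (K : ℕ) : PW.BL.gK K = ENNReal.ofReal (gK K) := by
  unfold PW.BL.gK gK
  have hU := Ub_pos K
  rw [ENNReal.ofReal_mul (by positivity), ENNReal.ofReal_pow ENNReal.toReal_nonneg, ENNReal.ofReal_toReal (NTA.Xb_ne_top K)]

open Classical in
/-- sums of indicators -/
lemma sum_ind {T : Finset (List Bool)} {P : List Bool → Prop} {Q : Set (List Bool)} {c : ℝ} (hc : 0 ≤ c)
    (hTQ : ∀ t ∈ T, P t → t ∈ Q) (h : gf Q ≤ ENNReal.ofReal c) :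
    ∑ t ∈ T, xc ^ t.length * (if P t then (1 : ℝ) else 0) ≤ c := by
  have h1 : ∑ t ∈ T, xc ^ t.length * (if P t then (1 : ℝ) else 0) = ∑ t ∈ T.filter P, xc ^ t.length := by
    rw [sum_filter]
    refine sum_congr rfl fun t _ => ?_
    split_ifs
    · rw [mul_one]
    · rw [mul_zero]
  rw [h1]
  have h2 : ENNReal.ofReal (∑ t ∈ T.filter P, xc ^ t.length) ≤ ENNReal.ofReal c := by
    rw [← gf_finset]
    refine (gf_mono fun t ht => ?_).trans h
    rw [mem_coe, mem_filter] at ht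
    exact hTQ t ht.1 ht.2
  exact (ENNReal.ofReal_le_ofReal_iff hc).1 h2

lemma mul3 {a b d : ℝ} (ha : 0 ≤ a) (hb : 0 ≤ b) (hd : 0 ≤ d) (x : ℝ≥0∞) :
    ENNReal.ofReal a * x * (ENNReal.ofReal b * (ENNReal.ofReal d * x)) = ENNReal.ofReal (a * b * d) * x ^ 2 := by
  rw [ENNReal.ofReal_mul (mul_nonneg ha hb), ENNReal.ofReal_mul ha]
  ring

/-- **small sums over the words of the cylinder** -/
theorem small_Ty (hD : DomSt) (hT : TrTSt) (hX : NTA.XDbl) (hS : TPC.SD) : ∀ ε : ℝ, 0 < ε →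
    ∃ (c J a k0 : ℕ) (e : ℝ), 0 < e ∧ c ≤ Nat.log 2 k0 ∧ ∀ (k : ℕ) (z : ℤ), k0 ≤ k →
      ∀ (M : ℕ) (lv : ℕ → ℕ) (s : ℕ) (Ch : ℕ → Set (List Bool)) (U : ℕ → ℝ) (cc : ℝ), 1 ≤ M →
        (∀ j, j < M → Chn (lv j + s) (Ch j)) → (∀ j, j < M → lv j + s + a ≤ Nat.log 2 k) → (∀ j, 0 ≤ U j) →
        gf {R | R ∈ BotS (Nat.log 2 k - c) (Nat.log 2 k + J) ∧
          Ta (fun j => N0 (lv j) (lv j + s) (Ch j) R / U j / M) M 0 < 2 * cc} ≤
            ENNReal.ofReal (e * Ub (Nat.log 2 k + J)) * NTA.Xb (Nat.log 2 k + J) →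
        ∀ (R' : ℕ) (e' : Pt), ∑ t ∈ Ty k R' e' ((2 * z + 1) * (k : ℤ), (2 * z + 1) * (k : ℤ)), xc ^ t.length *
          smI cc (fun j => NW (lv j) (lv j + s) (Ch j) (trI k (lv j + s)) (fun _ => 1) t / U j / M) M ≤
            ε * gK (Nat.log 2 k) := by
  classical
  intro ε hε
  obtain ⟨c, J, a, k0, A, hA, hck, h⟩ := smallT_core hD hT hX hS (ε / 2) (by positivity)
  obtain ⟨D, hD1, hXp⟩ := NTA.Xb_pow
  have hD0 : 0 < D := by linarith
  obtain ⟨e, he⟩ : ∃ e : ℝ, e = ε / 2 / (A * (2 ^ J * D ^ J)) := ⟨_, rfl⟩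
  have he0 : 0 < e := by rw [he]; positivity
  refine ⟨c, J, a, k0, e, he0, hck, fun k z hk M lv s Ch U cc hM1 hCh hlv hU hB R' e' => ?_⟩
  obtain ⟨K, hK⟩ : ∃ K, K = Nat.log 2 k := ⟨_, rfl⟩
  have hU0 : 0 < Ub K := Num2Aux.UU_pos _
  obtain ⟨F, hF⟩ : ∃ F : List Bool → ℝ, F = fun t =>
      Ta (fun j => NW (lv j) (lv j + s) (Ch j) (trI k (lv j + s)) (fun _ => 1) t / U j / M) M 0 := ⟨_, rfl⟩
  obtain ⟨G, hG⟩ : ∃ G : List Bool → ℝ, G = fun R =>
      Ta (fun j => N0 (lv j) (lv j + s) (Ch j) R / U j / M) M 0 := ⟨_, rfl⟩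
  have hM0 : (0 : ℝ) ≤ M := Nat.cast_nonneg M
  -- the level above all levels
  obtain ⟨L, hL⟩ : ∃ L, L = K - a := ⟨_, rfl⟩
  have haK : a ≤ K := by
    have := hlv 0 (by omega)
    rw [← hK] at this
    omega
  have hFG : ∀ X R, FarX k L X R → G R ≤ F (X ++ R) := by
    intro X R hXR
    rw [hF, hG]
    show Ta _ M 0 ≤ Ta _ M 0
    unfold Ta
    refine sum_le_sum fun j hj => ?_
    rw [mem_Ico] at hj
    have h1 := hlv j hj.2
    rw [← hK] at h1
    have h2 := NC_farX (l := lv j) (hCh j hj.2) (by omega) (by omega : lv j + s ≤ L) hXR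
    exact div_le_div_of_nonneg_right (div_le_div_of_nonneg_right h2 (hU j)) hM0
  have h1 := h k L z hk (by rw [← hK]; omega) F G (2 * cc) hFG
  rw [← hK] at h1 hB ⊢
  have h2 : gf {R | R ∈ BotS (K - c) (K + J) ∧ G R < 2 * cc} ≤ ENNReal.ofReal (e * Ub (K + J)) * NTA.Xb (K + J) := by
    rw [hG]
    exact hB
  have h3 : ENNReal.ofReal (A / 4 ^ K) * NTA.Xb K * (ENNReal.ofReal (e * Ub (K + J)) * NTA.Xb (K + J)) ≤
      ENNReal.ofReal (ε / 2) * PW.BL.gK K := by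
    calc ENNReal.ofReal (A / 4 ^ K) * NTA.Xb K * (ENNReal.ofReal (e * Ub (K + J)) * NTA.Xb (K + J))
        ≤ ENNReal.ofReal (A / 4 ^ K) * NTA.Xb K * (ENNReal.ofReal (e * (2 ^ J * Ub K)) *
          (ENNReal.ofReal (D ^ J) * NTA.Xb K)) := by
          gcongr
          · exact T2.AN.UU_up K J
          · exact hXp K J
      _ = ENNReal.ofReal (A / 4 ^ K * (e * (2 ^ J * Ub K)) * D ^ J) * NTA.Xb K ^ 2 :=
          mul3 (by positivity) (by positivity) (by positivity) _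
      _ = ENNReal.ofReal (ε / 2) * PW.BL.gK K := by
          unfold PW.BL.gK
          rw [← mul_assoc (ENNReal.ofReal (ε / 2)), ← ENNReal.ofReal_mul (by positivity)]
          congr 2
          rw [he]
          field_simp
  have h4 : gf {t | (t ∈ SA ∧ TPC.Dsj k t ∧ en t = ((2 * z + 1) * (k : ℤ), (2 * z + 1) * (k : ℤ))) ∧ F t < 2 * cc} ≤
      ENNReal.ofReal (ε * gK K) := by
    refine h1.trans ?_
    refine (add_le_add ((mul_le_mul' le_rfl h2).trans h3) le_rfl).trans (le_of_eq ?_)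
    rw [gK_eq, ← add_mul, ← ENNReal.ofReal_add (by positivity) (by positivity), ← ENNReal.ofReal_mul (by positivity)]
    congr 1
    ring
  have h5 := sum_ind (T := Ty k R' e' ((2 * z + 1) * (k : ℤ), (2 * z + 1) * (k : ℤ))) (P := fun t => F t < 2 * cc)
    (mul_nonneg hε.le (gK_nonneg K)) (fun t ht hP => ?_) h4
  · refine le_trans (le_of_eq (sum_congr rfl fun t _ => ?_)) h5
    unfold smI
    rw [hF]
  · rw [mem_Ty] at ht
    exact ⟨⟨ht.1.1, ht.2.1, ht.2.2.1⟩, hP⟩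

end PWN

end HexObs
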