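import Pool.Agent.PW.OscV
import Pool.Agent.SLW.SmallW

/-!
# PW (helper5): the weights of the levels are local at the tip

A piece `X` in front that stays at the distance `8 * 2 ^ L` from the tip changes none of the decompositions of the level
`(l, L)`.

* `Dl_far` : the decompositions of `X ++ W` are those of `W`, shifted;
* **`N0_far`**, **`NQ0_far`**, **`NWq_far`** : `N0 l L Ch (X ++ W) = N0 l L Ch W`, the same for the number of the decompositions
  and for the weight with an arbitrary end weight;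
* `Vw r t t'` : `t` and `t'` have the same last part and everything before it stays at the distance `r` from the tip;
  **`N0_vw`**, **`NQ0_vw`**, **`NWq_vw`**.
-/

set_option autoImplicit false

namespace HexObs

namespace PWN

open Finset TS SDN TIW SLW

/-- the piece in front stays far from the tip -/
def FarP (r : ℕ) (X W : List Bool) : Prop := ∀ i, i ≤ X.length → (r : ℤ) ≤ hn (vx oo up (X ++ W) i - en (X ++ W))

lemma FarP.mono {r r' : ℕ} (h : r ≤ r') {X W : List Bool} (hX : FarP r' X W) : FarP r X W := fun i hi =>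
  le_trans (by exact_mod_cast h) (hX i hi)

/-- the half ball is free as well without the piece in front -/
lemma Fe_drop {s : ℕ} {X A : List Bool} (hA : X ++ A ∈ Fe s) : A ∈ Fe s := by
  intro i hi h0
  have e1 : vx oo up (X ++ A) (X.length + i) - en (X ++ A) = mulE (rt X) (vx oo up A i - en A) := by
    rw [vx_app, OscA.en_app, mulE_sub]
    abel
  have e2 : de (X ++ A) = mulE (rt X) (de A) := by
    unfold de
    rw [List.length_append, dx_app]
  have h1 := hA (X.length + i) (by rw [List.length_append]; omega)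
  rw [e1, e2, ip_mulE, nrm_rt, one_mul, hn_mulE (nrm_rt X)] at h1
  exact h1 h0

lemma drop_pre (X W : List Bool) (j : ℕ) : (X ++ W).drop (X.length + j) = W.drop j := by
  rw [List.drop_append]
  simp

lemma take_pre (X W : List Bool) (j : ℕ) : (X ++ W).take (X.length + j) = X ++ W.take j := by
  rw [List.take_append]
  simp

lemma mid_pre (X W : List Bool) (i j : ℕ) :
    ((X ++ W).take (X.length + j)).drop (X.length + i) = (W.take j).drop i := by
  rw [take_pre, drop_pre]

lemma dist_tip {l L : ℕ} {Ch : Set (List Bool)} (hl : l ≤ L) (hC : Chn L Ch) {t : List Bool} {a b : ℕ} (hab : a ≤ b)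
    (hb : b ≤ t.length) (hV : (t.take b).drop a ∈ Ch) (hE : t.drop b ∈ Hc l) :
    hn (en t - en (t.take a)) < 2 * 2 ^ L := by
  have h0 : (0 : ℤ) < 2 ^ L := by positivity
  have h2l : (2 : ℤ) ^ l ≤ 2 ^ L := pow_le_pow_right₀ (by norm_num) hl
  have e : t = t.take a ++ ((t.take b).drop a ++ t.drop b) := by
    rw [← List.drop_append_of_le_length (by rw [List.length_take]; omega), List.take_append_drop,
      List.take_append_drop]
  have h1 : en t = en (t.take a) + mulE (rt (t.take a)) (en ((t.take b).drop a ++ t.drop b)) := by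
    conv_lhs => rw [e]
    rw [OscA.en_app]
  rw [h1, add_sub_cancel_left, hn_mulE (nrm_rt _), OscA.en_app]
  have h2 := hC.size _ hV _ le_rfl
  have h3 : hn (en (t.drop b)) < ((2 ^ l : ℕ) : ℤ) := hE.1.2 _ le_rfl
  have h4 := hn_add (en ((t.take b).drop a)) (mulE (rt ((t.take b).drop a)) (en (t.drop b)))
  rw [hn_mulE (nrm_rt _)] at h4
  have h5 : hn (en ((t.take b).drop a)) = hn (vx oo up ((t.take b).drop a) ((t.take b).drop a).length) := rfl
  push_cast at h3
  linarith

/-- the decompositions of `X ++ W` start after `X` -/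
lemma Dl_lo {l L : ℕ} {Ch : Set (List Bool)} (hl : l ≤ L) (hC : Chn L Ch) {X W : List Bool}
    (hX : FarP (8 * 2 ^ L) X W) {i j : ℕ} (hj : j ≤ (X ++ W).length) (h : Dl l L Ch (X ++ W) i j) : X.length < i := by
  obtain ⟨h1, h2, h3, h4⟩ := h
  by_contra hi
  rw [not_lt] at hi
  have h5 := hX i hi
  have h6 := dist_tip hl hC h1 hj h3 h4
  have h0 : (0 : ℤ) < 2 ^ L := by positivity
  have e3 : vx oo up (X ++ W) i = en ((X ++ W).take i) := by
    unfold en
    rw [List.length_take, min_eq_left (by omega)]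
    have := vx_append (v0 := oo) (d0 := up) (t := (X ++ W).take i) (s := (X ++ W).drop i) (i := i)
      (by rw [List.length_take, min_eq_left (by omega)]; omega)
    rw [List.take_append_drop] at this
    exact this
  rw [e3, hn_sub_comm] at h5
  push_cast at h5
  linarith

/-- the decompositions of `X ++ W` are those of `W`, shifted -/
lemma Dl_far {l L : ℕ} {Ch : Set (List Bool)} (hl : l ≤ L) (hC : Chn L Ch) {X W : List Bool}
    (hX : FarP (8 * 2 ^ L) X W) {i j : ℕ} (hj : j ≤ W.length) :
    Dl l L Ch (X ++ W) (X.length + i) (X.length + j) ↔ Dl l L Ch W i j := by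
  have h0 : (0 : ℤ) < 2 ^ L := by positivity
  unfold Dl
  rw [mid_pre, drop_pre, take_pre]
  refine ⟨fun h => ⟨by omega, Fe_drop h.2.1, h.2.2.1, h.2.2.2⟩, fun h => ⟨by omega, ?_, h.2.2.1, h.2.2.2⟩⟩
  obtain ⟨h1, h2, h3, h4⟩ := h
  refine Sm.Fe_far h2 fun m hm => ?_
  have h9 := dist_tip hl hC h1 hj h3 h4
  have h10 := hX m hm
  have e3 : vx oo up (X ++ W) m = vx oo up (X ++ W.take i) m := by
    rw [vx_append (by omega), vx_append (by omega)]
  have e4 : en (X ++ W) - en (X ++ W.take i) = mulE (rt X) (en W - en (W.take i)) := by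
    rw [OscA.en_app, OscA.en_app, mulE_sub]
    abel
  have h12 : hn (en (X ++ W) - en (X ++ W.take i)) < 2 * 2 ^ L := by
    rw [e4, hn_mulE (nrm_rt X)]
    exact h9
  rw [e3] at h10
  have h11 := hn_tri (vx oo up (X ++ W.take i) m) (en (X ++ W.take i)) (en (X ++ W))
  rw [hn_sub_comm (en (X ++ W.take i)) (en (X ++ W))] at h11
  push_cast at h10 ⊢
  linarith

open Classical in
/-- sums over the decompositions of `X ++ W` -/
lemma dec_far {l L : ℕ} {Ch : Set (List Bool)} (hl : l ≤ L) (hC : Chn L Ch) {X W : List Bool}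
    (hX : FarP (8 * 2 ^ L) X W) (f : ℕ × ℕ → ℝ) :
    ∑ p ∈ ((range ((X ++ W).length + 1)) ×ˢ (range ((X ++ W).length + 1))).filter (fun p => Dl l L Ch (X ++ W) p.1 p.2),
      f p = ∑ p ∈ ((range (W.length + 1)) ×ˢ (range (W.length + 1))).filter (fun p => Dl l L Ch W p.1 p.2),
      f (X.length + p.1, X.length + p.2) := by
  symm
  refine sum_nbij' (fun p => (X.length + p.1, X.length + p.2)) (fun p => (p.1 - X.length, p.2 - X.length)) ?_ ?_ ?_ ?_ ?_
  · rintro ⟨i, j⟩ hp
    rw [mem_filter, mem_product, mem_range, mem_range] at hp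
    obtain ⟨⟨h1, h2⟩, h3⟩ := hp
    simp only at h1 h2 h3
    rw [mem_filter, mem_product, mem_range, mem_range, List.length_append]
    refine ⟨⟨by simp only; omega, by simp only; omega⟩, ?_⟩
    exact (Dl_far hl hC hX (by omega)).2 h3
  · rintro ⟨i, j⟩ hp
    rw [mem_filter, mem_product, mem_range, mem_range] at hp
    obtain ⟨⟨h1, h2⟩, h3⟩ := hp
    simp only at h1 h2 h3
    have h4 := Dl_lo hl hC hX (by omega) h3
    have h5 := h3.1
    rw [List.length_append] at h1 h2
    rw [mem_filter, mem_product, mem_range, mem_range]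
    refine ⟨⟨by simp only; omega, by simp only; omega⟩, ?_⟩
    show Dl l L Ch W (i - X.length) (j - X.length)
    rw [← Dl_far hl hC hX (by omega), Nat.add_sub_cancel' (by omega), Nat.add_sub_cancel' (by omega)]
    exact h3
  · rintro ⟨i, j⟩ _
    simp
  · rintro ⟨i, j⟩ hp
    rw [mem_filter, mem_product, mem_range, mem_range] at hp
    obtain ⟨⟨h1, h2⟩, h3⟩ := hp
    simp only at h1 h2 h3
    have h4 := Dl_lo hl hC hX (by omega) h3
    have h5 := h3.1
    simp only
    rw [Nat.add_sub_cancel' (by omega), Nat.add_sub_cancel' (by omega)]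
  · rintro ⟨i, j⟩ _
    rfl

/-- **the weight of a level is local at the tip**, any end weight -/
theorem NWq_far {l L : ℕ} {Ch : Set (List Bool)} (hl : l ≤ L) (hC : Chn L Ch) (q : List Bool → ℝ) {X W : List Bool}
    (hX : FarP (8 * 2 ^ L) X W) : NW l L Ch (fun _ => 1) q (X ++ W) = NW l L Ch (fun _ => 1) q W := by
  unfold NW
  rw [dec_far hl hC hX]
  refine sum_congr rfl fun p _ => ?_
  show chi (2 ^ l) ((X ++ W).drop (X.length + p.2)) * q ((X ++ W).drop (X.length + p.2)) * 1 = _
  rw [drop_pre]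

/-- **the weight of a level is local at the tip** -/
theorem N0_far {l L : ℕ} {Ch : Set (List Bool)} (hl : l ≤ L) (hC : Chn L Ch) {X W : List Bool}
    (hX : FarP (8 * 2 ^ L) X W) : N0 l L Ch (X ++ W) = N0 l L Ch W := NWq_far hl hC _ hX

/-- **the number of the decompositions of a level is local at the tip** -/
theorem NQ0_far {l L : ℕ} {Ch : Set (List Bool)} (hl : l ≤ L) (hC : Chn L Ch) {X W : List Bool}
    (hX : FarP (8 * 2 ^ L) X W) : NQ0 l L Ch (X ++ W) = NQ0 l L Ch W := by
  classical
  unfold NQ0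
  rw [card_eq_sum_ones, card_eq_sum_ones]
  push_cast
  exact dec_far hl hC hX fun _ => 1

/-- `t` and `t'` have the same last part, and everything before it stays at the distance `r` from the tip -/
def Vw (r : ℕ) (t t' : List Bool) : Prop := ∃ X X' W : List Bool, t = X ++ W ∧ t' = X' ++ W ∧ FarP r X W ∧ FarP r X' W

lemma Vw.symm {r : ℕ} {t t' : List Bool} (h : Vw r t t') : Vw r t' t := by
  obtain ⟨X, X', W, h1, h2, h3, h4⟩ := h
  exact ⟨X', X, W, h2, h1, h4, h3⟩

lemma Vw.mono {r r' : ℕ} (hr : r ≤ r') {t t' : List Bool} (h : Vw r' t t') : Vw r t t' := by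
  obtain ⟨X, X', W, h1, h2, h3, h4⟩ := h
  exact ⟨X, X', W, h1, h2, h3.mono hr, h4.mono hr⟩

theorem NWq_vw {l L r : ℕ} {Ch : Set (List Bool)} (hl : l ≤ L) (hC : Chn L Ch) (hr : 8 * 2 ^ L ≤ r) (q : List Bool → ℝ)
    {t t' : List Bool} (h : Vw r t t') : NW l L Ch (fun _ => 1) q t = NW l L Ch (fun _ => 1) q t' := by
  obtain ⟨X, X', W, rfl, rfl, h3, h4⟩ := h
  rw [NWq_far hl hC q (h3.mono hr), NWq_far hl hC q (h4.mono hr)]

theorem N0_vw {l L r : ℕ} {Ch : Set (List Bool)} (hl : l ≤ L) (hC : Chn L Ch) (hr : 8 * 2 ^ L ≤ r) {t t' : List Bool}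
    (h : Vw r t t') : N0 l L Ch t = N0 l L Ch t' := NWq_vw hl hC hr _ h

theorem NQ0_vw {l L r : ℕ} {Ch : Set (List Bool)} (hl : l ≤ L) (hC : Chn L Ch) (hr : 8 * 2 ^ L ≤ r) {t t' : List Bool}
    (h : Vw r t t') : NQ0 l L Ch t = NQ0 l L Ch t' := by
  obtain ⟨X, X', W, rfl, rfl, h3, h4⟩ := h
  rw [NQ0_far hl hC (h3.mono hr), NQ0_far hl hC (h4.mono hr)]

end PWN

end HexObs
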