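import Pool.Agent.SLW.ConvId
import Pool.Agent.TPC.Defs

/-!
# PW (winding of the uniform walk, captain helper66, doc nu34/PW_66b), row P2 (helper42): definitions

The identity of a level `(l, L)` for the lifted words of the cylinder with a given end (doc nu34/PW_P2).

* `TrF k r A` : the translates of `A` avoid the ball of radius `r` about its tip;
* `Hc l` : ends of class 0 (last direction up) of the scale `l`; `Dl`, `NW`, `N0` : the decompositions `t = A ++ (V ++ E)`,
  their weight with a far weight and an end weight, their plain weight;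
* `Wb R` : self-avoiding words in the box `R`; `Ty k R e y` : those with the end `y`, the last direction `e`, that do not
  meet their translates;
* `vD Ch z`, `wD Ch` : mass of the chains with the displacement `z`, of all chains; `eM l ψ`, `nu l q` : mass of the ends, mean
  value of `q`; `SM l Ch δ` : smoothness of `vD`;
* `LevTe` : the goal.
-/

set_option autoImplicit false

namespace HexObs

namespace PWN

open Finset TS SDN TIW

/-- the translates of A avoid the ball of radius r about its tip -/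
def TrF (k r : ℕ) (A : List Bool) : Prop := ∀ i, i ≤ A.length → ∀ m : ℤ, m ≠ 0 →
  (r : ℤ) ≤ hn (vx oo up A i + (2 * (k : ℤ) * m, 2 * (k : ℤ) * m) - en A)

/-- ends of class 0 of the scale l -/
def Hc (l : ℕ) : Set (List Bool) := {E | E ∈ Hp (2 ^ l) ∧ de E = up}

lemma Hc_finite (l : ℕ) : (Hc l).Finite := (Hp_finite (2 ^ l)).subset fun _ h => h.1

/-- the same as a finite set -/
noncomputable def HcF (l : ℕ) : Finset (List Bool) := (Hc_finite l).toFinset

lemma mem_HcF {l : ℕ} {E : List Bool} : E ∈ HcF l ↔ E ∈ Hc l := by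
  unfold HcF
  rw [Set.Finite.mem_toFinset]

/-- decompositions t = A ++ (V ++ E) of the level (l, L) -/
def Dl (l L : ℕ) (Ch : Set (List Bool)) (t : List Bool) (i j : ℕ) : Prop :=
  i ≤ j ∧ t.take i ∈ Fe (4 * 2 ^ L) ∧ (t.take j).drop i ∈ Ch ∧ t.drop j ∈ Hc l

open Classical in
/-- weight of the level: far weight θ, end weight ψ -/
noncomputable def NW (l L : ℕ) (Ch : Set (List Bool)) (θ ψ : List Bool → ℝ) (t : List Bool) : ℝ :=
  ∑ p ∈ ((range (t.length + 1)) ×ˢ (range (t.length + 1))).filter (fun p => Dl l L Ch t p.1 p.2),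
    chi (2 ^ l) (t.drop p.2) * ψ (t.drop p.2) * θ (t.take p.1)

/-- plain weight of the level -/
noncomputable def N0 (l L : ℕ) (Ch : Set (List Bool)) (t : List Bool) : ℝ := NW l L Ch (fun _ => 1) (fun _ => 1) t

/-- self-avoiding words in the box R: finitely many -/
lemma Wb_finite (R : ℕ) : {t : List Bool | t ∈ SA ∧ ∀ i, i ≤ t.length → hn (vx oo up t i) < R}.Finite := by
  have key : ∀ (p : Pt), hn p < R → |p.1| ≤ 2 * R ∧ |p.2| ≤ 2 * R := by
    intro p hp
    have h0 := hn_nonneg p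
    have h1 := nrm_le_hn p
    have h2 : nrm p ≤ (R : ℤ) ^ 2 := by nlinarith
    unfold nrm at h2
    constructor
    · refine abs_le_of_sq_le_sq ?_ (by positivity)
      nlinarith [sq_nonneg (p.1 + 2 * p.2)]
    · refine abs_le_of_sq_le_sq ?_ (by positivity)
      nlinarith [sq_nonneg (2 * p.1 + p.2)]
  refine (arr_finite (Icc (-(2 * R : ℤ)) (2 * R) ×ˢ Icc (-(2 * R : ℤ)) (2 * R)) oo up).subset fun t ht =>
    ⟨fun i _ hi => ?_, ht.1.inj⟩
  obtain ⟨h1, h2⟩ := key _ (ht.2 i hi)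
  rw [mem_product, mem_Icc, mem_Icc]
  exact ⟨abs_le.1 h1, abs_le.1 h2⟩

/-- self-avoiding words in the box R -/
noncomputable def Wb (R : ℕ) : Finset (List Bool) := (Wb_finite R).toFinset

lemma mem_Wb {R : ℕ} {t : List Bool} : t ∈ Wb R ↔ t ∈ SA ∧ ∀ i, i ≤ t.length → hn (vx oo up t i) < R := by
  unfold Wb
  rw [Set.Finite.mem_toFinset]
  exact Iff.rfl

open Classical in
/-- lifted words of the cylinder in the box R with the end y and the last direction e -/
noncomputable def Ty (k R : ℕ) (e y : Pt) : Finset (List Bool) :=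
  (Wb R).filter fun t => TPC.Dsj k t ∧ en t = y ∧ de t = e

lemma mem_Ty {k R : ℕ} {e y : Pt} {t : List Bool} : t ∈ Ty k R e y ↔
    (t ∈ SA ∧ ∀ i, i ≤ t.length → hn (vx oo up t i) < R) ∧ TPC.Dsj k t ∧ en t = y ∧ de t = e := by
  classical
  unfold Ty
  rw [mem_filter, mem_Wb]

/-- mass of the chains with the displacement z -/
noncomputable def vD (Ch : Set (List Bool)) (z : Pt) : ℝ := (gf {V | V ∈ Ch ∧ en V = z}).toReal

/-- mass of the chains -/
noncomputable def wD (Ch : Set (List Bool)) : ℝ := (gf Ch).toReal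

/-- mass of the ends of class 0 -/
noncomputable def eM (l : ℕ) (ψ : List Bool → ℝ) : ℝ := ∑ E ∈ HcF l, xc ^ E.length * (chi (2 ^ l) E * ψ E)

/-- mean value over the ends of class 0 -/
noncomputable def nu (l : ℕ) (q : List Bool → ℝ) : ℝ := eM l q / eM l (fun _ => 1)

/-- smoothness of the displacement of the chains, at the scale of the ends -/
def SM (l : ℕ) (Ch : Set (List Bool)) (δ : ℝ) : Prop := ∀ (z : Pt) (E : List Bool), E ∈ Hc l →
  |vD Ch (z - en E) - vD Ch z| ≤ δ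

/-- points y' with hn (y' - y) < r, as a finite set -/
noncomputable def Bs (y : Pt) (r : ℕ) : Finset Pt :=
  ((Icc (y.1 - 2 * r) (y.1 + 2 * r)) ×ˢ (Icc (y.2 - 2 * r) (y.2 + 2 * r))).filter fun y' => hn (y' - y) < r

lemma mem_Bs {y y' : Pt} {r : ℕ} : y' ∈ Bs y r ↔ hn (y' - y) < r := by
  unfold Bs
  rw [mem_filter, mem_product, mem_Icc, mem_Icc]
  refine ⟨fun h => h.2, fun h => ⟨?_, h⟩⟩
  have h0 := hn_nonneg (y' - y)
  have h1 := nrm_le_hn (y' - y)
  have h2 : nrm (y' - y) ≤ (r : ℤ) ^ 2 := by nlinarith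
  unfold nrm at h2
  have e1 : (y' - y).1 = y'.1 - y.1 := rfl
  have e2 : (y' - y).2 = y'.2 - y.2 := rfl
  rw [e1, e2] at h2
  have h3 : |y'.1 - y.1| ≤ 2 * r := by
    refine abs_le_of_sq_le_sq ?_ (by positivity)
    nlinarith [sq_nonneg (y'.1 - y.1 + 2 * (y'.2 - y.2))]
  have h4 : |y'.2 - y.2| ≤ 2 * r := by
    refine abs_le_of_sq_le_sq ?_ (by positivity)
    nlinarith [sq_nonneg (2 * (y'.1 - y.1) + (y'.2 - y.2))]
  rw [abs_le] at h3 h4
  exact ⟨⟨by linarith, by linarith⟩, by linarith, by linarith⟩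

/-- **P2**: the identity of the level for the words with a given end, errors as functions of the word -/
def LevTe : Prop := ∀ (k R l L : ℕ) (e y : Pt) (Ch : Set (List Bool)) (δ : ℝ) (q Ψ Ψ' er : List Bool → ℝ), e ∈ dirs →
  SLW.Chn L Ch → l ≤ L → 2 ^ (L + 3) ≤ k → hn y + 2 ^ (L + 5) ≤ R → 0 < wD Ch → SM l Ch δ → (∀ E ∈ Hc l, |q E| ≤ 1) →
  (∀ t, 0 ≤ er t) → (∀ t, |Ψ t| ≤ Ψ' t) → (∀ A, Ψ A ≠ 0 → TrF k (2 ^ (L + 2)) A) →
  (∀ A Y, A ++ Y ∈ SA → de Y = up → (∀ i, i ≤ Y.length → hn (vx oo up Y i) < 2 ^ (L + 1)) →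
    |Ψ (A ++ Y) - Ψ A| ≤ er (A ++ Y) ∧ Ψ' A ≤ Ψ' (A ++ Y) + er (A ++ Y)) →
  |∑ t ∈ Ty k R e y, xc ^ t.length * (Ψ t * (NW l L Ch (fun _ => 1) q t - nu l q * N0 l L Ch t))| ≤
    2 * ∑ t ∈ Ty k R e y, xc ^ t.length * (N0 l L Ch t * er t) +
    2 * (δ / wD Ch) * ∑ y' ∈ Bs y (2 ^ (L + 2)), ∑ t ∈ Ty k R e y', xc ^ t.length * (N0 l L Ch t * (Ψ' t + er t))

end PWN

end HexObs
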