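import Pool.Agent.PW.LevAF
import Pool.Agent.PW.LocN
import Pool.Agent.PW.TipT

/-!
PW (winding of the walk), row Mom1T (helper45): the mass of the words of the cylinder with the end in a window, weighted with the
level, is at most `C 4 ^ L UT gK`.

* `FY_mass` : mass of the far parts with a free half ball and the tip in a window;
* `NC_mass` : far parts, chains, ends;
* **`mom1_of`** : `MomYP → Mom1T`.
-/

set_option autoImplicit false

namespace HexObs

namespace PWN

open Finset TS SDN TIW SLW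

namespace M1

open LA

lemma Bs_card (y : Pt) (r : ℕ) (hr : 1 ≤ r) : ((Bs y r).card : ℝ) ≤ 25 * (r : ℝ) ^ 2 := by
  classical
  have h1 : (Bs y r).card ≤ (4 * r + 1) * (4 * r + 1) := by
    unfold Bs
    refine (card_filter_le _ _).trans ?_
    rw [card_product, Int.card_Icc, Int.card_Icc]
    refine le_of_eq ?_
    congr 1
    · have : y.1 + 2 * (r : ℤ) + 1 - (y.1 - 2 * r) = ((4 * r + 1 : ℕ) : ℤ) := by
        push_cast
        ring
      rw [this, Int.toNat_natCast]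
    · have : y.2 + 2 * (r : ℤ) + 1 - (y.2 - 2 * r) = ((4 * r + 1 : ℕ) : ℤ) := by
        push_cast
        ring
      rw [this, Int.toNat_natCast]
  have h2 : (4 * r + 1) * (4 * r + 1) ≤ 25 * r ^ 2 := by nlinarith
  calc ((Bs y r).card : ℝ) ≤ ((25 * r ^ 2 : ℕ) : ℝ) := by exact_mod_cast h1.trans h2
    _ = _ := by push_cast; ring

/-- far parts with the tip in a window -/
noncomputable def AY (R L : ℕ) (y : Pt) : Finset (List Bool) := by
  classical
  exact (Wb R).filter fun A => A ∈ Fe (4 * 2 ^ L) ∧ hn (en A - y) < 2 ^ (L + 3)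

lemma mem_AY {R L : ℕ} {y : Pt} {A : List Bool} : A ∈ AY R L y ↔
    (A ∈ SA ∧ ∀ i, i ≤ A.length → hn (vx oo up A i) < R) ∧ A ∈ Fe (4 * 2 ^ L) ∧ hn (en A - y) < 2 ^ (L + 3) := by
  classical
  unfold AY
  rw [mem_filter, mem_Wb]

lemma en_hn (A E : List Bool) : hn (en (A ++ E) - en A) = hn (en E) := by
  rw [OscA.en_app, add_sub_cancel_left, hn_mulE (nrm_rt _)]

/-- **mass of the far parts** -/
theorem FY_mass {C : ℝ} {K0 : ℕ} (hC : 0 < C)
    (hM : ∀ (K i : ℕ) (y : Pt), K0 ≤ K → i + 6 ≤ K → (2 : ℤ) ^ (K - 3) ≤ hn y → ∀ T : Finset (List Bool),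
      (∀ t ∈ T, t ∈ SA ∧ en t = y) → ∑ t ∈ T, xc ^ t.length * NP (2 ^ i) t ≤ C * Ub i * gK K ∧
      ∑ t ∈ T, xc ^ t.length * NP (2 ^ i) t ^ 2 ≤ (C * Ub i) ^ 2 * gK K)
    {K R L : ℕ} {y : Pt} (hK : K0 ≤ K) (hL : L + 8 ≤ K) (hy : (2 : ℤ) ^ K ≤ hn y) :
    (∑ A ∈ AY R L y, xc ^ A.length) * ∑ Y ∈ HpF (2 ^ L), xc ^ Y.length ≤ 6400 * C * 4 ^ L * Ub L * gK K := by
  classical
  obtain ⟨T, hT⟩ : ∃ T : Finset (List Bool), T = ((AY R L y) ×ˢ (HpF (2 ^ L))).image fun x => x.1 ++ x.2 := ⟨_, rfl⟩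
  have mT : ∀ t, t ∈ T → t ∈ SA ∧ hn (en t - y) < 2 ^ (L + 4) := by
    intro t ht
    rw [hT, mem_image] at ht
    obtain ⟨⟨A, E⟩, h1, rfl⟩ := ht
    rw [mem_product, mem_AY, mem_HpF] at h1
    obtain ⟨⟨⟨h2, -⟩, h3, h4⟩, h5⟩ := h1
    refine ⟨glue_SA (by omega : 2 ^ L ≤ 4 * 2 ^ L) h2 h3 h5, ?_⟩
    have h6 := hn_add (en (A ++ E) - en A) (en A - y)
    rw [sub_add_sub_cancel, en_hn] at h6
    have h7 : hn (en E) < ((2 ^ L : ℕ) : ℤ) := h5.2 _ le_rfl
    push_cast at h7
    have h8 : (2 : ℤ) ^ (L + 4) = 16 * 2 ^ L := by ring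
    have h9 : (2 : ℤ) ^ (L + 3) = 8 * 2 ^ L := by ring
    have h10 : (0 : ℤ) < 2 ^ L := by positivity
    have h11 : hn (en A - y) < 2 ^ (L + 3) := h4
    show hn (en (A ++ E) - y) < 2 ^ (L + 4)
    linarith
  have key := dec_sum T (AY R L y) {[]} (HpF (2 ^ L)) (fun A V E => xc ^ (A.length + E.length))
  have e1 : ∑ A ∈ AY R L y, ∑ V ∈ ({[]} : Finset (List Bool)), ∑ E ∈ HpF (2 ^ L),
      (if A ++ (V ++ E) ∈ T then xc ^ (A.length + E.length) else 0) =
      (∑ A ∈ AY R L y, xc ^ A.length) * ∑ Y ∈ HpF (2 ^ L), xc ^ Y.length := by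
    rw [sum_mul_sum]
    refine sum_congr rfl fun A hA => ?_
    rw [sum_singleton]
    refine sum_congr rfl fun E hE => ?_
    rw [List.nil_append, if_pos, pow_add]
    rw [hT, mem_image]
    exact ⟨(A, E), mem_product.2 ⟨hA, hE⟩, rfl⟩
  -- the sum over the decompositions against the number of the cuts
  have h1 : (∑ A ∈ AY R L y, xc ^ A.length) * ∑ Y ∈ HpF (2 ^ L), xc ^ Y.length ≤ ∑ t ∈ T, xc ^ t.length * NP (2 ^ L) t := by
    rw [← e1, ← key]
    refine sum_le_sum fun t ht => ?_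
    have e2 : ∀ p ∈ ((range (t.length + 1)) ×ˢ (range (t.length + 1))).filter (fun p => p.1 ≤ p.2 ∧ t.take p.1 ∈ AY R L y ∧
        (t.take p.2).drop p.1 ∈ ({[]} : Finset (List Bool)) ∧ t.drop p.2 ∈ HpF (2 ^ L)),
        xc ^ ((t.take p.1).length + (t.drop p.2).length) = xc ^ t.length ∧ p.1 = p.2 := by
      intro p hp
      rw [mem_filter, mem_product, mem_range, mem_range] at hp
      obtain ⟨⟨h1, h2⟩, h3, h4, h5, h6⟩ := hp
      rw [mem_singleton] at h5
      have h7 := congrArg List.length h5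
      rw [List.length_drop, List.length_take, List.length_nil] at h7
      have h8 : p.1 = p.2 := by omega
      refine ⟨?_, h8⟩
      rw [List.length_take, List.length_drop]
      congr 1
      omega
    rw [sum_congr rfl fun p hp => (e2 p hp).1, sum_const, nsmul_eq_mul, mul_comm]
    refine mul_le_mul_of_nonneg_left ?_ (pow_nonneg xc_pos.le _)
    unfold NP
    have h : (((range (t.length + 1)) ×ˢ (range (t.length + 1))).filter (fun p => p.1 ≤ p.2 ∧ t.take p.1 ∈ AY R L y ∧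
        (t.take p.2).drop p.1 ∈ ({[]} : Finset (List Bool)) ∧ t.drop p.2 ∈ HpF (2 ^ L))).card ≤ (cu (2 ^ L) t).card := by
      refine card_le_card_of_injOn (fun p => p.1) ?_ ?_
      · intro p hp
        rw [Finset.mem_coe] at hp
        have h8 := (e2 p hp).2
        rw [mem_filter, mem_product] at hp
        obtain ⟨⟨h1, h2⟩, h3, h4, h5, h6⟩ := hp
        rw [Finset.mem_coe]
        unfold cu
        rw [mem_filter]
        refine ⟨h1, SLW.Fe_anti (by omega : 2 * 2 ^ L ≤ 4 * 2 ^ L) (mem_AY.1 h4).2.1, ?_⟩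
        show t.drop p.1 ∈ Hp (2 ^ L)
        rw [h8]
        exact mem_HpF.1 h6
      · intro p hp p' hp' he
        rw [Finset.mem_coe] at hp hp'
        have h8 := (e2 p hp).2
        have h8' := (e2 p' hp').2
        have he' : p.1 = p'.1 := he
        exact Prod.ext he' (by rw [← h8, ← h8', he'])
    exact_mod_cast h
  -- the ends
  have h2 : ∑ t ∈ T, xc ^ t.length * NP (2 ^ L) t =
      ∑ y'' ∈ Bs y (2 ^ (L + 4)), ∑ t ∈ T.filter (fun t => en t = y''), xc ^ t.length * NP (2 ^ L) t := by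
    symm
    refine sum_fiberwise_of_maps_to (fun t ht => ?_) _
    rw [mem_Bs]
    have := (mT t ht).2
    push_cast
    exact this
  have h3 : ∀ y'' ∈ Bs y (2 ^ (L + 4)), ∑ t ∈ T.filter (fun t => en t = y''), xc ^ t.length * NP (2 ^ L) t ≤
      C * Ub L * gK K := by
    intro y'' hy''
    rw [mem_Bs] at hy''
    push_cast at hy''
    refine (hM K L y'' hK (by omega) ?_ _ fun t ht => ?_).1
    · have h4 := hn_sub y'' (y'' - y)
      rw [sub_sub_cancel] at h4
      have h5 : (2 : ℤ) ^ (L + 4) ≤ 2 ^ (K - 1) := pow_le_pow_right₀ (by norm_num) (by omega)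
      have h6 : (2 : ℤ) ^ K = 2 * 2 ^ (K - 1) := by
        rw [← pow_succ']
        congr 1
        omega
      have h7 : (2 : ℤ) ^ (K - 3) ≤ 2 ^ (K - 1) := pow_le_pow_right₀ (by norm_num) (by omega)
      linarith
    · rw [mem_filter] at ht
      exact ⟨(mT t ht.1).1, ht.2⟩
  have h4 := sum_le_sum h3
  rw [sum_const, nsmul_eq_mul, ← h2] at h4
  have h5 := Bs_card y (2 ^ (L + 4)) Nat.one_le_two_pow
  have hg := (gK_pos K).le
  have hU := (OG.Ub_pos L).le
  have h6 : ((Bs y (2 ^ (L + 4))).card : ℝ) * (C * Ub L * gK K) ≤ 25 * ((2 ^ (L + 4) : ℕ) : ℝ) ^ 2 * (C * Ub L * gK K) :=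
    mul_le_mul_of_nonneg_right h5 (by positivity)
  have e5 : 25 * ((2 ^ (L + 4) : ℕ) : ℝ) ^ 2 * (C * Ub L * gK K) = 6400 * C * 4 ^ L * Ub L * gK K := by
    push_cast
    rw [show ((2 : ℝ) ^ (L + 4)) ^ 2 = 256 * 4 ^ L by
      rw [← pow_mul, mul_comm, pow_mul, pow_add]
      norm_num
      ring]
    ring
  linarith

/-- the words of the cylinder with the end in a window: far parts, chains, ends -/
theorem NC_mass {k R l L : ℕ} {e y : Pt} {Ch : Set (List Bool)} (hC : Chn L Ch) (hl : l ≤ L) :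
    ∑ y' ∈ Bs y (2 ^ (L + 2)), ∑ t ∈ Ty k R e y', xc ^ t.length * NC k l L Ch t ≤
      (∑ A ∈ AY R L y, xc ^ A.length) * (wD Ch * ∑ E ∈ HcF l, xc ^ E.length) := by
  classical
  obtain ⟨T, hT⟩ : ∃ T : Finset (List Bool), T = (Bs y (2 ^ (L + 2))).biUnion fun y' => Ty k R e y' := ⟨_, rfl⟩
  have e0 : ∑ y' ∈ Bs y (2 ^ (L + 2)), ∑ t ∈ Ty k R e y', xc ^ t.length * NC k l L Ch t =
      ∑ t ∈ T, xc ^ t.length * NC k l L Ch t := by
    rw [hT, sum_biUnion]
    intro y1 _ y2 _ hne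
    rw [Function.onFun, disjoint_left]
    intro t h1 h2
    exact hne ((mem_Ty.1 h1).2.2.1.symm.trans (mem_Ty.1 h2).2.2.1)
  have key := dec_sum T (AY R L y) (ChF L Ch) (HcF l) (fun A V E => xc ^ (A.length + (V.length + E.length)))
  have h1 : ∑ t ∈ T, xc ^ t.length * NC k l L Ch t ≤ ∑ t ∈ T, ∑ p ∈ ((range (t.length + 1)) ×ˢ (range (t.length + 1))).filter
      (fun p => p.1 ≤ p.2 ∧ t.take p.1 ∈ AY R L y ∧ (t.take p.2).drop p.1 ∈ ChF L Ch ∧ t.drop p.2 ∈ HcF l),
      xc ^ ((t.take p.1).length + (((t.take p.2).drop p.1).length + (t.drop p.2).length)) := by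
    refine sum_le_sum fun t ht => ?_
    rw [hT, mem_biUnion] at ht
    obtain ⟨y', hy', ht⟩ := ht
    rw [mem_Bs] at hy'
    push_cast at hy'
    have ht2 := mem_Ty.1 ht
    unfold NC NW
    rw [mul_sum]
    have hsub : ((range (t.length + 1)) ×ˢ (range (t.length + 1))).filter (fun p => Dl l L Ch t p.1 p.2) ⊆
        ((range (t.length + 1)) ×ˢ (range (t.length + 1))).filter (fun p => p.1 ≤ p.2 ∧ t.take p.1 ∈ AY R L y ∧
          (t.take p.2).drop p.1 ∈ ChF L Ch ∧ t.drop p.2 ∈ HcF l) := by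
      intro p hp
      rw [mem_filter, mem_product, mem_range, mem_range] at hp ⊢
      obtain ⟨⟨hp1, hp2⟩, h1, h2, h3, h4⟩ := hp
      refine ⟨⟨hp1, hp2⟩, h1, ?_, (mem_ChF hC).2 h3, mem_HcF.2 h4⟩
      rw [mem_AY]
      refine ⟨⟨?_, fun i hi => ?_⟩, h2, ?_⟩
      · refine SLW.SA_take (Y := t.drop p.1) ?_
        rw [List.take_append_drop]
        exact ht2.1.1
      · rw [List.length_take] at hi
        have h5 := ht2.1.2 i (by omega)
        have h6 := vx_append (v0 := oo) (d0 := up) (t := t.take p.1) (s := t.drop p.1) (i := i)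
          (by rw [List.length_take]; omega)
        rw [List.take_append_drop] at h6
        rw [← h6]
        exact h5
      · have h5 := dist_tip hl hC h1 (by omega : p.2 ≤ t.length) h3 h4
        rw [ht2.2.2.1] at h5
        have h6 := hn_sub (y' - y) (y' - en (t.take p.1))
        rw [sub_sub_sub_cancel_left] at h6
        have h8 : (2 : ℤ) ^ (L + 3) = 8 * 2 ^ L := by ring
        have h9 : (2 : ℤ) ^ (L + 2) = 4 * 2 ^ L := by ring
        have h10 : (0 : ℤ) < 2 ^ L := by positivity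
        linarith
    refine (sum_le_sum fun p hp => ?_).trans (sum_le_sum_of_subset_of_nonneg hsub fun p _ _ => pow_nonneg xc_pos.le _)
    rw [mem_filter] at hp
    have e3 : t.length = (t.take p.1).length + (((t.take p.2).drop p.1).length + (t.drop p.2).length) := by
      conv_lhs => rw [← take_take_drop t hp.2.1]
      rw [List.length_append, List.length_append]
    rw [← e3]
    have h5 := chi_nonneg (2 ^ l) (t.drop p.2)
    have h6 := chi_le (2 ^ l) (t.drop p.2)
    have h7 := trI_nonneg k L (t.take p.1)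
    have h8 := trI_le k L (t.take p.1)
    calc xc ^ t.length * (chi (2 ^ l) (t.drop p.2) * 1 * trI k L (t.take p.1)) ≤ xc ^ t.length * 1 := by
          refine mul_le_mul_of_nonneg_left ?_ (pow_nonneg xc_pos.le _)
          rw [mul_one]
          exact mul_le_one₀ h6 h7 h8
      _ = xc ^ t.length := mul_one _
  rw [e0]
  refine h1.trans ?_
  rw [key, wD_eq hC]
  have e4 : (∑ A ∈ AY R L y, xc ^ A.length) * ((∑ V ∈ ChF L Ch, xc ^ V.length) * ∑ E ∈ HcF l, xc ^ E.length) =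
      ∑ A ∈ AY R L y, ∑ V ∈ ChF L Ch, ∑ E ∈ HcF l, xc ^ (A.length + (V.length + E.length)) := by
    rw [sum_mul]
    refine sum_congr rfl fun A _ => ?_
    rw [sum_mul, mul_sum]
    refine sum_congr rfl fun V _ => ?_
    rw [mul_sum, mul_sum]
    refine sum_congr rfl fun E _ => ?_
    rw [pow_add, pow_add]
  rw [e4]
  refine sum_le_sum fun A _ => sum_le_sum fun V _ => sum_le_sum fun E _ => ?_
  split_ifs
  · exact le_rfl
  · exact pow_nonneg xc_pos.le _

end M1

open M1 LA in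
/-- **row Mom1T** -/
theorem mom1_of (h : MomYP) : Mom1T := by
  classical
  obtain ⟨C, K0, hC, hM⟩ := h
  obtain ⟨C1, hC1, hup⟩ := hpUp
  obtain ⟨c, l0, hc, hlow⟩ := hpLow
  refine ⟨6400 * C * C1 / c, 8, K0, l0, by positivity, fun K k R l L e y Ch hK hl0 hl hL hy hCh => ?_⟩
  have hU := OG.Ub_pos L
  have hUl := OG.Ub_pos l
  have hx := xb_pos L
  have hxl := xb_pos l
  have hg := gK_pos K
  have hw := wD_nonneg Ch
  have h1 := NC_mass (k := k) (R := R) (e := e) (y := y) hCh hl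
  have h2 := FY_mass (R := R) hC hM hK hL hy
  have h3 : c * Ub L * xb L ≤ ∑ Y ∈ HpF (2 ^ L), xc ^ Y.length := by
    rw [sum_toReal]
    refine real_ge (by positivity) ?_ ?_
    · rw [gf_finset]
      exact ENNReal.ofReal_ne_top
    · refine (hlow L (by omega)).trans (gf_mono fun E hE => ?_)
      rw [Finset.mem_coe, mem_HpF]
      exact hE.1
  have h4 : ∑ E ∈ HcF l, xc ^ E.length ≤ C1 * Ub l * xb l :=
    sum_le_gf (T := Hp (2 ^ l)) (fun E hE => (mem_HcF.1 hE).1) (by positivity) (hup l)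
  obtain ⟨m, hm⟩ : ∃ m, m = ∑ A ∈ AY R L y, xc ^ A.length := ⟨_, rfl⟩
  have hm0 : 0 ≤ m := by
    rw [hm]
    exact sum_nonneg fun A _ => pow_nonneg xc_pos.le _
  rw [← hm] at h1 h2
  have h5 : m * (c * Ub L * xb L) ≤ 6400 * C * 4 ^ L * Ub L * gK K := (mul_le_mul_of_nonneg_left h3 hm0).trans h2
  have h6 : m ≤ 6400 * C * 4 ^ L * gK K / (c * xb L) := by
    rw [le_div_iff₀ (by positivity)]
    have h7 : m * (c * xb L) * Ub L ≤ 6400 * C * 4 ^ L * gK K * Ub L := by
      calc m * (c * xb L) * Ub L = m * (c * Ub L * xb L) := by ring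
        _ ≤ 6400 * C * 4 ^ L * Ub L * gK K := h5
        _ = 6400 * C * 4 ^ L * gK K * Ub L := by ring
    exact le_of_mul_le_mul_right h7 hU
  refine h1.trans ?_
  calc m * (wD Ch * ∑ E ∈ HcF l, xc ^ E.length) ≤ 6400 * C * 4 ^ L * gK K / (c * xb L) * (wD Ch * (C1 * Ub l * xb l)) :=
        mul_le_mul h6 (mul_le_mul_of_nonneg_left h4 hw) (mul_nonneg hw (sum_nonneg fun E _ => pow_nonneg xc_pos.le _))
          (by positivity)
    _ = 6400 * C * C1 / c * 4 ^ L * UT l L Ch * gK K := by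
      unfold UT
      have e1 : (NTA.Xb l).toReal = xb l := rfl
      have e2 : (NTA.Xb L).toReal = xb L := rfl
      rw [e1, e2]
      field_simp

end PWN

end HexObs
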