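import Pool.Agent.PW.TipNF
import Pool.Agent.PW.SeYZ
import Pool.Agent.PW.Mom1
import Pool.Agent.PW.SmallTF

/-!
PW (winding of the walk), row P7 (helper45): `TipT` from row SmallT alone.
-/

set_option autoImplicit false

namespace HexObs

namespace PWN

open SLW

theorem mom1T : Mom1T := mom1_of momT

/-- the two forms of the row SmallT -/
lemma smallT_conv (h : SmallTS) : SmallT := by
  intro ε hε
  obtain ⟨c, hc, h⟩ := h ε hε
  refine ⟨c, hc, fun w s hw => ?_⟩
  obtain ⟨M0, h⟩ := h w s hw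
  refine ⟨M0, fun M hM => ?_⟩
  obtain ⟨s0, h⟩ := h M hM
  refine ⟨s0, fun s' hs' => ?_⟩
  obtain ⟨c0, l0, k0, h⟩ := h s' hs'
  refine ⟨c0, l0, k0, fun k R z e lv Ch hk hLv hl hL => ?_⟩
  refine h k z R e lv Ch hk hLv (fun i hi => ?_) hL
  rcases Nat.eq_zero_or_pos i with h0 | h0
  · rw [h0]
    exact hl
  · have := hLv.gap 0 i h0 hi
    omega

/-- **the tip of the words of the cylinder**, from the row SmallT -/
theorem tipT_ofS (hST : SmallT) {Lg : ℝ} {g : ℝ → ℝ} (hg : Bump Lg g) {u : ℝ} (hu : g u = 1) : TipT g :=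
  tipT_of aReg smallN hST seY momL mom1T hg hu

end PWN

end HexObs
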