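import Pool.Agent.PW.HumpE
import Pool.Agent.PW.BoxLen
import Pool.Agent.TIW.Hpm
import Pool.Agent.NTA.XDbl

/-!
PW, row TrV (helper65): **near touches of a word with its translate, given end**, final forms.

* **`humpE`** : the goal of `HumpD`;
* `near_end` : the word comes near the translate of its end and leaves it again, in the box;
* **`tr_cyl`** : the words of the cylinder with a given end over (k, k) which come near a translate of their tip;
* **`noret_cyl`** : those which come near their tip, leave it, and come back.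
-/

set_option autoImplicit false

namespace HexObs

namespace PW

open Finset TS SDN NTW NTA

open HexObs.SIM

open scoped ENNReal

/-- **near touches with a translate, given end** -/
theorem humpE : HumpE := by
  intro e J a he
  obtain ⟨C, hC, hCp⟩ := Xb_pow
  have hC0 : 0 < C := by linarith
  obtain ⟨c1, k0, h⟩ := hump0 (e / (C ^ J) ^ 2) (a + J) (by positivity)
  refine ⟨c1, k0, fun K y v hk hv => ?_⟩
  refine (gf_mono ?_).trans ((h (K + J) y v (by omega) hv).trans ?_)
  · rintro t ⟨h1, h2, h3, i, l, j, h4, h5, h6, h7, h8, h9⟩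
    refine ⟨h1, h2, h3, i, l, j, h4, h5, h6, Bl_mono _ (Nat.pow_le_pow_right (by norm_num) (by omega)) h7, ?_, ?_⟩
    · rw [Nat.add_sub_add_right]
      exact h8
    · rw [Nat.add_sub_add_right]
      exact h9
  · have hUK := Ub_pos K
    have hUKJ := Ub_pos (K + J)
    have hU : Ub (K + J) / 4 ^ (K + J) ≤ Ub K / 4 ^ K := by
      have h1 : Ub (K + J) ≤ 2 ^ J * Ub K := T2.AN.UU_up K J
      have h2 : (2 : ℝ) ^ J ≤ 4 ^ J := pow_le_pow_left₀ (by norm_num) (by norm_num) J
      have h3 : (0 : ℝ) < 4 ^ K := by positivity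
      have h4 : (0 : ℝ) < 4 ^ J := by positivity
      rw [div_le_div_iff₀ (by positivity) h3, pow_add]
      nlinarith [mul_le_mul_of_nonneg_right h2 hUK.le, mul_pos h3 hUK]
    calc ENNReal.ofReal (e / (C ^ J) ^ 2 * (Ub (K + J) / 4 ^ (K + J))) * Xb (K + J) ^ 2
        ≤ ENNReal.ofReal (e / (C ^ J) ^ 2 * (Ub K / 4 ^ K)) * (ENNReal.ofReal (C ^ J) * Xb K) ^ 2 := by
          refine mul_le_mul' (ENNReal.ofReal_le_ofReal (mul_le_mul_of_nonneg_left hU (by positivity)))
            (pow_le_pow_left' (hCp K J) 2)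
      _ = ENNReal.ofReal (e * (Ub K / 4 ^ K)) * Xb K ^ 2 := by
          rw [mul_pow, ← ENNReal.ofReal_pow (by positivity), ← mul_assoc, ← ENNReal.ofReal_mul (by positivity)]
          congr 2
          field_simp

lemma lvl_le_hn (dir : Bool) (p : Pt) : |lvl dir p| ≤ TIW.hn p := by
  cases dir
  · exact le_max_left _ _
  · refine le_trans (le_of_eq ?_) ((le_max_right |ip p (rotL up)| |ip p (rotR up)|).trans (le_max_right _ _))
    have e1 : lvl true p = -ip p (rotR up) := by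
      show ip p (-1, 0) = _
      simp only [ip, rotR, up]
      ring
    rw [e1, abs_neg]

/-- **near the translate of the end, and away again, in the box** -/
theorem near_end (e : ℝ) (J C : ℕ) (he : 0 < e) : ∃ c1 k0 : ℕ, ∀ (c K : ℕ) (y v : Pt), k0 ≤ K → c1 ≤ c → cl v = 0 →
    2 * 2 ^ K ≤ |lvl false (y + v)| →
    gf {t | vx oo up t t.length = y ∧ t ∈ WL (K + J) ∧ (∀ i j, i < j → j ≤ t.length → vx oo up t i ≠ vx oo up t j + v) ∧
      ∃ i l, i ≤ l ∧ l ≤ t.length ∧ TIW.hn (vx oo up t i - (y + v)) < 2 ^ (K - c) ∧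
        2 ^ (K - C) ≤ TIW.hn (vx oo up t l - (y + v))} ≤
      ENNReal.ofReal (e * (Ub K / 4 ^ K)) * Xb K ^ 2 := by
  obtain ⟨c1, k0, h⟩ := humpE e J (C + 2) he
  refine ⟨max c1 (C + 1), max k0 (C + 3), fun c K y v hk hc hv hy => ?_⟩
  have hk0 := (le_max_left k0 (C + 3)).trans hk
  have hkC := (le_max_right k0 (C + 3)).trans hk
  have hc1 := (le_max_left c1 (C + 1)).trans hc
  have hcC := (le_max_right c1 (C + 1)).trans hc
  refine (gf_mono ?_).trans (h K y v hk0 hv)
  rintro t ⟨h1, h2, h3, i, l, h4, h5, h6, h7⟩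
  have p1 : (2 : ℤ) ^ (K - c) ≤ 2 ^ (K - c1) := pow_le_pow_right₀ (by norm_num) (by omega)
  have p2 : (2 : ℤ) ^ (K - c) ≤ 2 ^ (K - (C + 2) + 1) := pow_le_pow_right₀ (by norm_num) (by omega)
  have p3 : (2 : ℤ) ^ (K - C) = 2 * (2 ^ (K - (C + 2) + 1)) := by
    rw [← pow_succ']
    congr 1
    omega
  have p4 : (2 : ℤ) ^ (K - (C + 2) + 1) = 2 * 2 ^ (K - (C + 2)) := by
    rw [← pow_succ']
  have p5 : (2 : ℤ) ^ (K - (C + 2) + 1) ≤ 2 ^ K := pow_le_pow_right₀ (by norm_num) (by omega)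
  have p6 : (0 : ℤ) < 2 ^ (K - (C + 2)) := by positivity
  refine ⟨h1, h2, h3, i, l, t.length, h4, h5, le_rfl, ?_, ⟨false, ?_⟩, ?_⟩
  · rw [h1]
    refine mem_Bl_of_lvl fun dir => ?_
    have e1 : lvl dir (y + v) - lvl dir (vx oo up t i) = -lvl dir (vx oo up t i - (y + v)) := by
      have : lvl dir (vx oo up t i - (y + v)) = lvl dir (vx oo up t i) - lvl dir (y + v) := by
        unfold lvl ip
        simp only [Prod.fst_sub, Prod.snd_sub, Prod.fst_add, Prod.snd_add]
        ring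
      rw [this]
      ring
    rw [e1, abs_neg]
    have h8 := lvl_le_hn dir (vx oo up t i - (y + v))
    push_cast
    linarith
  · have e1 : lvl false (vx oo up t i) = lvl false (y + v) + lvl false (vx oo up t i - (y + v)) := by
      unfold lvl ip
      simp only [Prod.fst_sub, Prod.snd_sub, Prod.fst_add, Prod.snd_add]
      ring
    have h8 := lvl_le_hn false (vx oo up t i - (y + v))
    have h9 := abs_add_le (lvl false (vx oo up t i)) (-lvl false (vx oo up t i - (y + v)))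
    rw [abs_neg] at h9
    have e2 : lvl false (vx oo up t i) + -lvl false (vx oo up t i - (y + v)) = lvl false (y + v) := by
      rw [e1]
      ring
    rw [e2] at h9
    linarith
  · by_contra hcon
    push Not at hcon
    have h8 := hcon false
    have h9 := hcon true
    have h10 : TIW.hn (vx oo up t l - vx oo up t i) ≤ (2 ^ (K - (C + 2)) - 1) + (2 ^ (K - (C + 2)) - 1) :=
      TIW.hn_of_lvl (by linarith [Int.le_sub_one_of_lt h8]) (by linarith [Int.le_sub_one_of_lt h9])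
    have h11 := TIW.hn_tri (vx oo up t l) (vx oo up t i) (y + v)
    linarith

lemma gf_biU {ι : Type*} [DecidableEq ι] (S : Finset ι) (F : ι → Set (List Bool)) :
    gf (⋃ i ∈ S, F i) ≤ ∑ i ∈ S, gf (F i) := by
  induction S using Finset.induction_on with
  | empty =>
    have : gf (∅ : Set (List Bool)) = 0 := by
      unfold gf
      simp
    simp [this]
  | insert a S ha ih =>
    rw [Finset.sum_insert ha, Finset.set_biUnion_insert]
    exact (gf_union_le _ _).trans (add_le_add le_rfl ih)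

lemma lvl_diag (a : ℤ) : lvl false ((a, a) : Pt) = 3 * a := by
  show ip (a, a) up = _
  simp only [ip, up]
  ring

/-- the ends of the two rows are far from the start, in all translates -/
lemma far_diag {k K : ℕ} (hK : 2 ^ K ≤ k) (z m : ℤ) :
    2 * 2 ^ K ≤ |lvl false ((((2 * z + 1) * (k : ℤ), (2 * z + 1) * (k : ℤ)) : Pt) +
      (-(2 * (k : ℤ) * m), -(2 * (k : ℤ) * m)))| := by
  have hkz : (2 : ℤ) ^ K ≤ k := by exact_mod_cast hK
  have e : (((2 * z + 1) * (k : ℤ), (2 * z + 1) * (k : ℤ)) : Pt) + (-(2 * (k : ℤ) * m), -(2 * (k : ℤ) * m)) =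
      ((2 * (z - m) + 1) * (k : ℤ), (2 * (z - m) + 1) * (k : ℤ)) := by
    ext1
    · show (2 * z + 1) * (k : ℤ) + -(2 * (k : ℤ) * m) = _
      ring
    · show (2 * z + 1) * (k : ℤ) + -(2 * (k : ℤ) * m) = _
      ring
  rw [e, lvl_diag, abs_mul, abs_mul, Nat.abs_cast]
  have h1 : (1 : ℤ) ≤ |2 * (z - m) + 1| := Int.one_le_abs (by omega)
  have h2 : |(3 : ℤ)| = 3 := by norm_num
  have h3 : (0 : ℤ) < 2 ^ K := by positivity
  rw [h2]
  nlinarith

/-- **the words of the cylinder with a given end over `(k, k)` which come near a translate of their tip** -/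
theorem tr_cyl (hS : TPC.SD) (ε : ℝ) (hε : 0 < ε) : ∃ c1 k0 : ℕ, c1 ≤ Nat.log 2 k0 ∧ ∀ (k : ℕ) (z : ℤ), k0 ≤ k →
    gf {t | (t ∈ SA ∧ TPC.Dsj k t ∧ TIW.en t = ((2 * z + 1) * (k : ℤ), (2 * z + 1) * (k : ℤ))) ∧ ∃ (m : ℤ) (i : ℕ),
      m ≠ 0 ∧ i ≤ t.length ∧
      TIW.hn (vx oo up t i + (2 * (k : ℤ) * m, 2 * (k : ℤ) * m) - TIW.en t) < 2 ^ (Nat.log 2 k - c1)} ≤
      ENNReal.ofReal ε * BL.gK (Nat.log 2 k) := by
  obtain ⟨J, K0, hbox⟩ := BL.box_tail xDbl hS (ε / 2) (by positivity)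
  obtain ⟨M, hM⟩ : ∃ M : ℕ, M = 2 ^ J + 2 := ⟨_, rfl⟩
  obtain ⟨c1, k1, h⟩ := near_end (ε / 2 / (2 * M + 1)) J 0 (by positivity)
  refine ⟨c1, 2 ^ max (max c1 k1) (K0 + 1), ?_, fun k z hk => ?_⟩
  · rw [Nat.log_pow (by norm_num)]
    exact (le_max_left _ _).trans (le_max_left _ _)
  have hkne : k ≠ 0 := by
    have := Nat.one_le_two_pow (n := max (max c1 k1) (K0 + 1))
    omega
  obtain ⟨K, hK⟩ : ∃ K, K = Nat.log 2 k := ⟨_, rfl⟩
  have hKm : max (max c1 k1) (K0 + 1) ≤ K := by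
    rw [hK]
    exact (Nat.le_log_iff_pow_le (by norm_num) hkne).2 hk
  have hKc : c1 ≤ K := ((le_max_left _ _).trans (le_max_left _ _)).trans hKm
  have hKk1 : k1 ≤ K := ((le_max_right _ _).trans (le_max_left _ _)).trans hKm
  have hKK0 : K0 + 1 ≤ K := (le_max_right _ _).trans hKm
  have hKk : 2 ^ K ≤ k := by
    rw [hK]
    exact Nat.pow_log_le_self 2 hkne
  have hkz : (2 : ℤ) ^ K ≤ k := by exact_mod_cast hKk
  have hp0 : (1 : ℤ) ≤ 2 ^ K := one_le_pow₀ (by norm_num)
  obtain ⟨y, hy⟩ : ∃ y : Pt, y = ((2 * z + 1) * (k : ℤ), (2 * z + 1) * (k : ℤ)) := ⟨_, rfl⟩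
  have hbox := hbox k y (by rw [← hK]; omega)
  rw [← hK] at hbox ⊢
  rw [← hy]
  obtain ⟨v, hv⟩ : ∃ v : ℤ → Pt, v = fun m => (-(2 * (k : ℤ) * m), -(2 * (k : ℤ) * m)) := ⟨_, rfl⟩
  have hcl : ∀ m, cl (v m) = 0 := by
    intro m
    rw [hv]
    unfold cl
    simp
  obtain ⟨B, hB⟩ : ∃ B : ℤ → Set (List Bool), B = fun m => {t | vx oo up t t.length = y ∧ t ∈ WL (K + J) ∧
      (∀ i j, i < j → j ≤ t.length → vx oo up t i ≠ vx oo up t j + v m) ∧
      ∃ i l, i ≤ l ∧ l ≤ t.length ∧ TIW.hn (vx oo up t i - (y + v m)) < 2 ^ (K - c1) ∧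
        2 ^ (K - 0) ≤ TIW.hn (vx oo up t l - (y + v m))} := ⟨_, rfl⟩
  have hBm : ∀ m, gf (B m) ≤ ENNReal.ofReal (ε / 2 / (2 * M + 1) * (Ub K / 4 ^ K)) * Xb K ^ 2 := by
    intro m
    rw [hB]
    refine h c1 K y (v m) hKk1 le_rfl (hcl m) ?_
    rw [hy, hv]
    exact far_diag hKk z m
  have hsub : {t | (t ∈ SA ∧ TPC.Dsj k t ∧ TIW.en t = y) ∧ ∃ (m : ℤ) (i : ℕ),
      m ≠ 0 ∧ i ≤ t.length ∧
      TIW.hn (vx oo up t i + (2 * (k : ℤ) * m, 2 * (k : ℤ) * m) - TIW.en t) < 2 ^ (K - c1)} ⊆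
      {t | t ∈ SA ∧ TPC.Dsj k t ∧ BL.EndC k y (vx oo up t t.length) ∧ t ∉ WL (K + J)} ∪
        ⋃ m ∈ Finset.Icc (-(M : ℤ)) M, B m := by
    rintro t ⟨⟨h1, h2, h3⟩, m, i, hm, hi, h4⟩
    have h3' : vx oo up t t.length = y := h3
    by_cases h5 : t ∈ WL (K + J)
    · right
      rw [h3] at h4
      have e1 : vx oo up t i + (2 * (k : ℤ) * m, 2 * (k : ℤ) * m) - y = vx oo up t i - (y + v m) := by
        rw [hv]
        ext1
        · simp only [Prod.fst_sub, Prod.fst_add]
          ring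
        · simp only [Prod.snd_sub, Prod.snd_add]
          ring
      have hmk : (1 : ℤ) ≤ |m| := Int.one_le_abs hm
      refine Set.mem_biUnion (x := m) ?_ ?_
      · -- the bound for m
        have h6 := (h5.2 i hi false)
        have h7 := (h5.2 t.length le_rfl false)
        rw [h3'] at h7
        have h8 := lvl_le_hn false (vx oo up t i + (2 * (k : ℤ) * m, 2 * (k : ℤ) * m) - y)
        have e2 : lvl false (vx oo up t i + (2 * (k : ℤ) * m, 2 * (k : ℤ) * m) - y) =
            lvl false (vx oo up t i) + 6 * k * m - lvl false y := by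
          unfold lvl ip hd up
          simp only [Prod.fst_sub, Prod.snd_sub, Prod.fst_add, Prod.snd_add, Bool.false_eq_true, if_false]
          ring
        rw [e2] at h8
        have h9 : (2 : ℤ) ^ (K - c1) ≤ 2 ^ K := pow_le_pow_right₀ (by norm_num) (by omega)
        have h10 := abs_le.1 (h8.trans (h4.le.trans h9))
        have h11 := abs_le.1 h6
        have h12 := abs_le.1 h7
        unfold row at h11 h12
        have h13 : (2 : ℤ) ^ (K + J) = 2 ^ K * 2 ^ J := pow_add _ _ _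
        have hJ0 : (1 : ℤ) ≤ 2 ^ J := one_le_pow₀ (by norm_num)
        have hML : (M : ℤ) = 2 ^ J + 2 := by
          rw [hM]
          push_cast
          ring
        have h14 : |6 * (k : ℤ) * m| ≤ 6 * 2 ^ (K + J) + 4 + 2 ^ K := by
          rw [abs_le]
          constructor <;> omega
        rw [abs_mul, abs_mul, Nat.abs_cast, h13] at h14
        have h15 : |(6 : ℤ)| = 6 := by norm_num
        rw [h15] at h14
        have h16 : |m| ≤ M := by
          rw [hML]
          by_contra hcon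
          push Not at hcon
          have h17 : (2 : ℤ) ^ J + 3 ≤ |m| := by omega
          have h18 : (2 : ℤ) ^ K * (2 ^ J + 3) ≤ k * |m| :=
            mul_le_mul hkz h17 (by positivity) (by positivity)
          nlinarith
        rw [abs_le] at h16
        exact Finset.mem_coe.2 (Finset.mem_Icc.2 h16)
      · rw [hB]
        refine ⟨h3', h5, fun a b hab hb => ?_, i, t.length, hi, le_rfl, ?_, ?_⟩
        · have h6 := h2 a b (hab.le.trans hb) hb (-m) (neg_ne_zero.2 hm)
          have e2 : ((2 * (k : ℤ) * -m, 2 * (k : ℤ) * -m) : Pt) = v m := by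
            rw [hv]
            ext1 <;> simp
          rwa [e2] at h6
        · rw [← e1]
          exact h4
        · have e2 : vx oo up t t.length - (y + v m) = (2 * (k : ℤ) * m, 2 * (k : ℤ) * m) := by
            rw [h3', hv]
            ext1
            · simp only [Prod.fst_sub, Prod.fst_add]
              ring
            · simp only [Prod.snd_sub, Prod.snd_add]
              ring
          rw [e2]
          refine le_trans ?_ (lvl_le_hn false _)
          rw [lvl_diag, Nat.sub_zero, abs_mul, abs_mul, abs_mul, Nat.abs_cast]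
          have h15 : |(3 : ℤ)| = 3 := by norm_num
          have h16 : |(2 : ℤ)| = 2 := by norm_num
          rw [h15, h16]
          nlinarith
    · left
      refine ⟨h1, h2, ⟨0, ?_⟩, h5⟩
      rw [h3']
      ext1
      · show y.1 = y.1 + 2 * (k : ℤ) * 0
        ring
      · show y.2 = y.2 + 2 * (k : ℤ) * 0
        ring
  have hM0 : (0 : ℝ) < 2 * M + 1 := by positivity
  have hUK := Ub_pos K
  calc _ ≤ gf {t | t ∈ SA ∧ TPC.Dsj k t ∧ BL.EndC k y (vx oo up t t.length) ∧ t ∉ WL (K + J)} +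
        gf (⋃ m ∈ Finset.Icc (-(M : ℤ)) M, B m) := (gf_mono hsub).trans (gf_union_le _ _)
    _ ≤ ENNReal.ofReal (ε / 2) * BL.gK K + ∑ m ∈ Finset.Icc (-(M : ℤ)) M, gf (B m) :=
        add_le_add hbox (gf_biU _ _)
    _ ≤ ENNReal.ofReal (ε / 2) * BL.gK K + (2 * M + 1 : ℕ) * (ENNReal.ofReal (ε / 2 / (2 * M + 1) * (Ub K / 4 ^ K)) *
          Xb K ^ 2) := by
        refine add_le_add le_rfl ((Finset.sum_le_card_nsmul _ _ _ fun m _ => hBm m).trans (le_of_eq ?_))
        rw [Int.card_Icc, nsmul_eq_mul]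
        congr 2
        omega
    _ = ENNReal.ofReal ε * BL.gK K := by
        have e3 : ((2 * M + 1 : ℕ) : ℝ≥0∞) = ENNReal.ofReal (2 * M + 1) := by
          rw [← ENNReal.ofReal_natCast]
          congr 1
          push_cast
          ring
        have e4 : ε = ε / 2 + ε / 2 := by ring
        unfold BL.gK
        rw [e3]
        conv_rhs => rw [e4, ENNReal.ofReal_add (by positivity) (by positivity)]
        rw [add_mul, ← mul_assoc (ENNReal.ofReal (2 * (M : ℝ) + 1)), ← ENNReal.ofReal_mul (by positivity)]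
        congr 1
        rw [← mul_assoc (ENNReal.ofReal (ε / 2)), ← ENNReal.ofReal_mul (by positivity)]
        congr 2
        field_simp

/-- **the words of the cylinder with a given end over `(k, k)` which come near their tip, leave it and come back** -/
theorem noret_cyl (hS : TPC.SD) (ε : ℝ) (C : ℕ) (hε : 0 < ε) : ∃ c1 k0 : ℕ, c1 ≤ Nat.log 2 k0 ∧
    ∀ (k : ℕ) (z : ℤ), k0 ≤ k →
    gf {t | (t ∈ SA ∧ TPC.Dsj k t ∧ TIW.en t = ((2 * z + 1) * (k : ℤ), (2 * z + 1) * (k : ℤ))) ∧ ∃ i l : ℕ,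
      i ≤ l ∧ l ≤ t.length ∧ TIW.hn (vx oo up t i - TIW.en t) < 2 ^ (Nat.log 2 k - c1) ∧
        2 ^ (Nat.log 2 k - C) ≤ TIW.hn (vx oo up t l - TIW.en t)} ≤
      ENNReal.ofReal ε * BL.gK (Nat.log 2 k) := by
  obtain ⟨J, K0, hbox⟩ := BL.box_tail xDbl hS (ε / 2) (by positivity)
  obtain ⟨c1, k1, h⟩ := near_end (ε / 2) J C (by positivity)
  refine ⟨c1, 2 ^ max (max c1 k1) (K0 + 1), ?_, fun k z hk => ?_⟩
  · rw [Nat.log_pow (by norm_num)]
    exact (le_max_left _ _).trans (le_max_left _ _)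
  have hkne : k ≠ 0 := by
    have := Nat.one_le_two_pow (n := max (max c1 k1) (K0 + 1))
    omega
  obtain ⟨K, hK⟩ : ∃ K, K = Nat.log 2 k := ⟨_, rfl⟩
  have hKm : max (max c1 k1) (K0 + 1) ≤ K := by
    rw [hK]
    exact (Nat.le_log_iff_pow_le (by norm_num) hkne).2 hk
  have hKk1 : k1 ≤ K := ((le_max_right _ _).trans (le_max_left _ _)).trans hKm
  have hKK0 : K0 + 1 ≤ K := (le_max_right _ _).trans hKm
  have hKk : 2 ^ K ≤ k := by
    rw [hK]
    exact Nat.pow_log_le_self 2 hkne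
  obtain ⟨y, hy⟩ : ∃ y : Pt, y = ((2 * z + 1) * (k : ℤ), (2 * z + 1) * (k : ℤ)) := ⟨_, rfl⟩
  have hbox := hbox k y (by rw [← hK]; omega)
  rw [← hK] at hbox ⊢
  rw [← hy]
  have hcl : cl ((0, 0) : Pt) = 0 := by
    unfold cl
    simp
  have hfar : 2 * 2 ^ K ≤ |lvl false (y + (0, 0))| := by
    have := far_diag hKk z 0
    rw [← hy] at this
    simpa using this
  have hm := h c1 K y (0, 0) hKk1 le_rfl hcl hfar
  have hy0 : y + ((0, 0) : Pt) = y := by
    ext1
    · exact add_zero _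
    · exact add_zero _
  rw [hy0] at hm
  have hsub : {t | (t ∈ SA ∧ TPC.Dsj k t ∧ TIW.en t = y) ∧ ∃ i l : ℕ,
      i ≤ l ∧ l ≤ t.length ∧ TIW.hn (vx oo up t i - TIW.en t) < 2 ^ (K - c1) ∧
        2 ^ (K - C) ≤ TIW.hn (vx oo up t l - TIW.en t)} ⊆
      {t | t ∈ SA ∧ TPC.Dsj k t ∧ BL.EndC k y (vx oo up t t.length) ∧ t ∉ WL (K + J)} ∪
        {t | vx oo up t t.length = y ∧ t ∈ WL (K + J) ∧
          (∀ i j, i < j → j ≤ t.length → vx oo up t i ≠ vx oo up t j + (0, 0)) ∧
          ∃ i l, i ≤ l ∧ l ≤ t.length ∧ TIW.hn (vx oo up t i - y) < 2 ^ (K - c1) ∧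
            2 ^ (K - C) ≤ TIW.hn (vx oo up t l - y)} := by
    rintro t ⟨⟨h1, h2, h3⟩, i, l, hil, hl, h4, h5⟩
    have h3' : vx oo up t t.length = y := h3
    rw [h3] at h4 h5
    by_cases h6 : t ∈ WL (K + J)
    · right
      refine ⟨h3', h6, fun a b hab hb h7 => ?_, i, l, hil, hl, h4, h5⟩
      have e2 : vx oo up t b + ((0, 0) : Pt) = vx oo up t b := by
        ext1
        · exact add_zero _
        · exact add_zero _
      rw [e2] at h7
      exact h1.inj a b hab hb h7
    · left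
      refine ⟨h1, h2, ⟨0, ?_⟩, h6⟩
      rw [h3']
      ext1
      · show y.1 = y.1 + 2 * (k : ℤ) * 0
        ring
      · show y.2 = y.2 + 2 * (k : ℤ) * 0
        ring
  refine ((gf_mono hsub).trans (gf_union_le _ _)).trans ((add_le_add hbox hm).trans (le_of_eq ?_))
  have hUK := Ub_pos K
  have e4 : ε = ε / 2 + ε / 2 := by ring
  unfold BL.gK
  conv_rhs => rw [e4, ENNReal.ofReal_add (by positivity) (by positivity)]
  rw [add_mul]
  congr 1
  rw [← mul_assoc (ENNReal.ofReal (ε / 2)), ← ENNReal.ofReal_mul (by positivity)]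

end PW

end HexObs
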