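import Pool.Agent.PW.PlaneS
import Pool.Agent.PW.HumpF

/-!
PW, plane forms, second part: many leaves, long chains, returns to the tip are rare for the words of the plane with a given end.
-/

set_option autoImplicit false

namespace HexObs

namespace PW

open Finset TS SDN NTW NTA TPC PWd

open HexObs.SIM

open scoped ENNReal

/-- **many leaves are rare** -/
theorem leafP (ε : ℝ) (C : ℕ) (hε : 0 < ε) : ∃ n0 K0 : ℕ, ∀ (K : ℕ) (y : Pt), K0 ≤ K →
    gf {t | t ∈ Py y ∧ ∃ (dir : Bool) (m u : ℕ) (e : ℕ → ℕ), Lf dir (K - C + 5) t m u e ∧ n0 ≤ m} ≤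
      ENNReal.ofReal ε * gg K := by
  obtain ⟨J, K1, hbox⟩ := plane_tail (ε / 3) (by positivity)
  obtain ⟨i, K2, hlen⟩ := len_plane (ε / 3) (by positivity)
  obtain ⟨B, hB, hmB⟩ := PWd.mZ_up
  have hB0 : 0 < B := by linarith
  obtain ⟨n0, K3, hlf⟩ := PWd.leafY (ε / 3) (B ^ i) C J (by positivity) (by positivity)
  refine ⟨n0, K1 + K2 + K3, fun K y hK => ?_⟩
  have h1 := hbox K y (by omega)
  have h2 := hlen K y (by omega)
  have h3 := hlf K y (by omega)
  have hU := Ub_pos K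
  have hsub : {t | t ∈ Py y ∧ ∃ (dir : Bool) (m u : ℕ) (e : ℕ → ℕ), Lf dir (K - C + 5) t m u e ∧ n0 ≤ m} ⊆
      {t | t ∈ Py y ∧ t ∉ WL (K + J)} ∪ ({t | t ∈ Py y ∧ mZ (2 ^ (K + i)) ≤ (t.length : ℝ)} ∪
        {t | t ∈ WL (K + J) ∧ vx oo up t t.length = y ∧ (t.length : ℝ) ≤ B ^ i * PW.mZ (2 ^ K) ∧
          ∃ (dir : Bool) (m u : ℕ) (e : ℕ → ℕ), Lf dir (K - C + 5) t m u e ∧ n0 ≤ m}) := by
    rintro t ⟨h4, h5⟩
    by_cases h6 : t ∈ WL (K + J)
    · right
      rcases le_or_gt (mZ (2 ^ (K + i))) (t.length : ℝ) with h7 | h7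
      · exact Or.inl ⟨h4, h7⟩
      · exact Or.inr ⟨h6, h4.2, h7.le.trans (hmB K i), h5⟩
    · exact Or.inl ⟨h4, h6⟩
  have e3 : ENNReal.ofReal (ε / 3 * (Ub K / 4 ^ K)) * Xb K ^ 2 = ENNReal.ofReal (ε / 3) * gg K := by
    unfold gg
    rw [ENNReal.ofReal_mul (by positivity), mul_assoc]
  rw [e3] at h3
  calc _ ≤ ENNReal.ofReal (ε / 3) * gg K + (ENNReal.ofReal (ε / 3) * gg K + ENNReal.ofReal (ε / 3) * gg K) :=
        (gf_mono hsub).trans ((gf_union_le _ _).trans (add_le_add h1 ((gf_union_le _ _).trans (add_le_add h2 h3))))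
    _ = ENNReal.ofReal ε * gg K := by
        rw [← add_mul, ← add_mul, ← ENNReal.ofReal_add (by positivity) (by positivity),
          ← ENNReal.ofReal_add (by positivity) (by positivity)]
        congr 2
        ring

/-- **long chains are rare** -/
theorem chainP (ε : ℝ) (C : ℕ) (hε : 0 < ε) : ∃ N0 K0 : ℕ, ∀ (K : ℕ) (y : Pt), K0 ≤ K →
    gf {t | t ∈ Py y ∧ Chn0 (2 ^ (K - C)) N0 t} ≤ ENNReal.ofReal ε * gg K := by
  obtain ⟨J, k1, h1⟩ := plane_tail (ε / 2) (by positivity)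
  obtain ⟨n0, k2, h2⟩ := leafP (ε / 2) (C + 8) (by positivity)
  refine ⟨44 * 2 ^ (J + C) * (n0 + 2), k1 + k2 + (C + 8), fun K y hk => ?_⟩
  have h1 := h1 K y (by omega)
  have h2 := h2 K y (by omega)
  refine (gf_mono (Q := {t | t ∈ Py y ∧ t ∉ WL (K + J)} ∪ {t | t ∈ Py y ∧
      ∃ (dir : Bool) (m u : ℕ) (e : ℕ → ℕ), Lf dir (K - (C + 8) + 5) t m u e ∧ n0 ≤ m}) ?_).trans ?_
  · rintro t ⟨a1, i, a4, a5, a6⟩
    by_cases hW : t ∈ WL (K + J)
    · right
      refine ⟨a1, ?_⟩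
      have hD : 2 * RR (K - (C + 8) + 5) ≤ ((2 ^ (K - C) : ℕ) : ℤ) := by
        unfold RR
        have e1 : K - C = K - (C + 8) + 5 + 3 := by omega
        rw [e1]
        push_cast
        rw [pow_add _ (K - (C + 8) + 5) 3]
        have := pow_pos (show (0 : ℤ) < 2 by norm_num) (K - (C + 8) + 5)
        linarith
      obtain ⟨dir, m, u, e, h3, h4⟩ := leaf_many hW hD a4 a5 a6
      refine ⟨dir, m, u, e, h3, ?_⟩
      by_contra hcon
      rw [not_le] at hcon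
      obtain ⟨D, hDd⟩ : ∃ D : ℤ, D = ((2 ^ (K - C) : ℕ) : ℤ) := ⟨_, rfl⟩
      have hD0 : 1 ≤ D := by
        rw [hDd]
        exact_mod_cast Nat.one_le_two_pow
      have e2 : (2 : ℤ) ^ (K + J) = 2 ^ (J + C) * D := by
        rw [hDd]
        push_cast
        rw [← pow_add]
        congr 1
        omega
      rw [← hDd, e2] at h4
      have h5 : (1 : ℤ) ≤ 2 ^ (J + C) := one_le_pow₀ (by norm_num)
      obtain ⟨P, hP⟩ : ∃ P : ℤ, P = 2 ^ (J + C) := ⟨_, rfl⟩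
      have e3 : ((44 * 2 ^ (J + C) * (n0 + 2) : ℕ) : ℤ) = 44 * P * (n0 + 2) := by
        rw [hP]
        push_cast
        ring
      rw [e3, ← hP] at h4
      rw [← hP] at h5
      have h6 : 4 * (3 * (P * D) + 2) + 2 * D ≤ 22 * (P * D) := by nlinarith
      have h7 : (m : ℤ) + 1 ≤ n0 := by exact_mod_cast hcon
      have h8 : 2 * (((m : ℤ) + 2) * (4 * (3 * (P * D) + 2) + 2 * D)) ≤ 2 * ((n0 + 1) * (22 * (P * D))) := by
        have h9 : ((m : ℤ) + 2) * (4 * (3 * (P * D) + 2) + 2 * D) ≤ (n0 + 1) * (22 * (P * D)) :=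
          mul_le_mul (by linarith) h6 (by positivity) (by positivity)
        linarith
      have h10 : 0 < P * D := by positivity
      nlinarith
    · left
      exact ⟨a1, hW⟩
  · calc _ ≤ ENNReal.ofReal (ε / 2) * gg K + ENNReal.ofReal (ε / 2) * gg K :=
          (gf_union_le _ _).trans (add_le_add h1 h2)
      _ = ENNReal.ofReal ε * gg K := by
        rw [← add_mul, ← ENNReal.ofReal_add (by positivity) (by positivity)]
        congr 2
        ring

/-- one of the two levels is large -/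
lemma lvl_big {p : Pt} {r : ℤ} (h : 2 * r ≤ TIW.hn p) : ∃ dir : Bool, r ≤ |lvl dir p| := by
  by_contra hcon
  push Not at hcon
  have h1 := TIW.hn_of_lvl (p := p) (Int.le_sub_one_of_lt (hcon false)) (Int.le_sub_one_of_lt (hcon true))
  linarith

/-- **returns to the tip from afar are rare** -/
theorem noRetP (ε : ℝ) (C : ℕ) (hε : 0 < ε) : ∃ c1 K0 : ℕ, c1 ≤ K0 ∧ ∀ (K : ℕ) (y : Pt), K0 ≤ K → (2 : ℤ) ^ K ≤ TIW.hn y →
    gf {t | t ∈ Py y ∧ ∃ i l : ℕ, i ≤ l ∧ l ≤ t.length ∧ TIW.hn (vx oo up t i - y) < 2 ^ (K - c1) ∧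
      2 ^ (K - C) ≤ TIW.hn (vx oo up t l - y)} ≤ ENNReal.ofReal ε * gg K := by
  obtain ⟨J, K1, hbox⟩ := plane_tail (ε / 2) (by positivity)
  obtain ⟨c1, k1, h⟩ := humpE (ε / 2) J (C + 2) (by positivity)
  refine ⟨c1 + C + 3, K1 + k1 + (c1 + C + 3), by omega, fun K y hK hy => ?_⟩
  have hb := hbox K y (by omega)
  have hcl : cl ((0, 0) : Pt) = 0 := by
    unfold cl
    simp
  have hm := h K y (0, 0) (by omega) hcl
  have p1 : (2 : ℤ) ^ (K - (c1 + C + 3)) ≤ 2 ^ (K - c1) := pow_le_pow_right₀ (by norm_num) (by omega)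
  have p2 : (2 : ℤ) ^ (K - (c1 + C + 3)) ≤ 2 ^ (K - (C + 2)) := pow_le_pow_right₀ (by norm_num) (by omega)
  have p3 : (2 : ℤ) ^ (K - C) = 4 * 2 ^ (K - (C + 2)) := by
    rw [show K - C = K - (C + 2) + 2 by omega, pow_add]
    ring
  have p4 : (2 : ℤ) ^ (K - C) ≤ 2 ^ K := pow_le_pow_right₀ (by norm_num) (by omega)
  have p6 : (0 : ℤ) < 2 ^ (K - (C + 2)) := by positivity
  have hsub : {t | t ∈ Py y ∧ ∃ i l : ℕ, i ≤ l ∧ l ≤ t.length ∧ TIW.hn (vx oo up t i - y) < 2 ^ (K - (c1 + C + 3)) ∧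
      2 ^ (K - C) ≤ TIW.hn (vx oo up t l - y)} ⊆ {t | t ∈ Py y ∧ t ∉ WL (K + J)} ∪
      {t | vx oo up t t.length = y ∧ t ∈ WL (K + J) ∧ (∀ i j, i < j → j ≤ t.length → vx oo up t i ≠ vx oo up t j + (0, 0)) ∧
        ∃ i l j, i ≤ l ∧ l ≤ j ∧ j ≤ t.length ∧ vx oo up t i ∈ Bl (vx oo up t j + (0, 0)) (2 ^ (K - c1)) ∧
          (∃ dir : Bool, (2 : ℤ) ^ (K - (C + 2)) ≤ |lvl dir (vx oo up t i)|) ∧
          ∃ dir : Bool, (2 : ℤ) ^ (K - (C + 2)) ≤ |lvl dir (vx oo up t l - vx oo up t i)|} := by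
    rintro t ⟨h1, i, l, hil, hl, h4, h5⟩
    by_cases h6 : t ∈ WL (K + J)
    · right
      have h3 : vx oo up t t.length = y := h1.2
      have e2 : ∀ p : Pt, p + ((0, 0) : Pt) = p := fun p => by
        ext1
        · exact add_zero _
        · exact add_zero _
      refine ⟨h3, h6, fun a b hab hb h7 => ?_, i, l, t.length, hil, hl, le_rfl, ?_, ?_, ?_⟩
      · rw [e2] at h7
        exact h1.1.inj a b hab hb h7
      · rw [h3, e2]
        refine mem_Bl_of_lvl fun dir => ?_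
        have e1 : lvl dir y - lvl dir (vx oo up t i) = -lvl dir (vx oo up t i - y) := by
          have : lvl dir (vx oo up t i - y) = lvl dir (vx oo up t i) - lvl dir y := by
            unfold lvl ip
            simp only [Prod.fst_sub, Prod.snd_sub]
            ring
          rw [this]
          ring
        rw [e1, abs_neg]
        have h8 := lvl_le_hn dir (vx oo up t i - y)
        push_cast
        linarith
      · refine lvl_big ?_
        have h8 := TIW.hn_tri y (vx oo up t i) 0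
        rw [sub_zero, sub_zero, TIW.hn_sub_comm y] at h8
        linarith
      · refine lvl_big ?_
        have h8 := TIW.hn_tri (vx oo up t l) (vx oo up t i) y
        linarith
    · exact Or.inl ⟨h1, h6⟩
  have hU := Ub_pos K
  have e3 : ENNReal.ofReal (ε / 2 * (Ub K / 4 ^ K)) * Xb K ^ 2 = ENNReal.ofReal (ε / 2) * gg K := by
    unfold gg
    rw [ENNReal.ofReal_mul (by positivity), mul_assoc]
  rw [e3] at hm
  calc _ ≤ ENNReal.ofReal (ε / 2) * gg K + ENNReal.ofReal (ε / 2) * gg K :=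
        (gf_mono hsub).trans ((gf_union_le _ _).trans (add_le_add hb hm))
    _ = ENNReal.ofReal ε * gg K := by
        rw [← add_mul, ← ENNReal.ofReal_add (by positivity) (by positivity)]
        congr 2
        ring

/-- the same, every smaller radius -/
theorem noRetPc (ε : ℝ) (C : ℕ) (hε : 0 < ε) : ∃ c1 K0 : ℕ, c1 ≤ K0 ∧ ∀ (c K : ℕ) (y : Pt), c1 ≤ c → K0 ≤ K →
    (2 : ℤ) ^ K ≤ TIW.hn y →
    gf {t | t ∈ Py y ∧ ∃ i l : ℕ, i ≤ l ∧ l ≤ t.length ∧ TIW.hn (vx oo up t i - y) < 2 ^ (K - c) ∧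
      2 ^ (K - C) ≤ TIW.hn (vx oo up t l - y)} ≤ ENNReal.ofReal ε * gg K := by
  obtain ⟨c1, K0, h1, h⟩ := noRetP ε C hε
  refine ⟨c1, K0, h1, fun c K y hc hK hy => (gf_mono ?_).trans (h K y hK hy)⟩
  rintro t ⟨h2, i, l, h3, h4, h5, h6⟩
  exact ⟨h2, i, l, h3, h4, h5.trans_le (pow_le_pow_right₀ (by norm_num) (by omega)), h6⟩

end PW

end HexObs
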