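import Pool.Agent.PW.OscW
import Pool.Agent.SLW.MomV

/-!
# PW, row P6 (helper58): decompositions with an end of any class

* `DA l L Ch t i j` : `t = A ++ (V ++ E)`, `A = t.take i` in `Fe (4 * 2 ^ L)`, `V` in `Ch`, `E` in `Hp (2 ^ l)`;
* `NA l L Ch θ t` : their weight `chi E * θ A`; `NQA` : with the weight `θ A` only; `NIA` : tip well inside;
* **`oscA`** : the weights hardly see a small end (no condition on its class), `128 * rho ≤ 2 ^ l`; `oscA_lv` : in powers of two;
* **`NA_dir`** : the decompositions with a far part of the absolute direction `d` are those of class 0 if `de t = d`;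
* **`NQA_le_NP`** : at most as many as the cuts of the next scale;
* **`NA_above`** : a far weight that is a number of decompositions of a higher level.
-/

set_option autoImplicit false
set_option linter.unusedVariables false

namespace HexObs

namespace PWN

open Finset TS SDN TIW TIW.OscA SLW

/-- decompositions t = A ++ (V ++ E) of the level (l, L), an end of any class -/
def DA (l L : ℕ) (Ch : Set (List Bool)) (t : List Bool) (i j : ℕ) : Prop :=
  i ≤ j ∧ t.take i ∈ Fe (4 * 2 ^ L) ∧ (t.take j).drop i ∈ Ch ∧ t.drop j ∈ Hp (2 ^ l)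

open Classical in
/-- the weight of the level, ends of any class -/
noncomputable def NA (l L : ℕ) (Ch : Set (List Bool)) (θ : List Bool → ℝ) (t : List Bool) : ℝ :=
  ∑ p ∈ ((range (t.length + 1)) ×ˢ (range (t.length + 1))).filter (fun p => DA l L Ch t p.1 p.2),
    chi (2 ^ l) (t.drop p.2) * θ (t.take p.1)

open Classical in
/-- the number of the decompositions, with a weight of the far part -/
noncomputable def NQA (l L : ℕ) (Ch : Set (List Bool)) (θ : List Bool → ℝ) (t : List Bool) : ℝ :=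
  ∑ p ∈ ((range (t.length + 1)) ×ˢ (range (t.length + 1))).filter (fun p => DA l L Ch t p.1 p.2), θ (t.take p.1)

open Classical in
/-- the number of the decompositions with the tip well inside, with a weight of the far part -/
noncomputable def NIA (l L : ℕ) (Ch : Set (List Bool)) (θ : List Bool → ℝ) (t : List Bool) : ℝ :=
  ∑ p ∈ ((range (t.length + 1)) ×ˢ (range (t.length + 1))).filter (fun p => DA l L Ch t p.1 p.2),
    (if (2 : ℤ) ^ l ≤ 64 * ip (en (t.drop p.2)) up ∧ 4 * hn (en (t.drop p.2)) ≤ 3 * 2 ^ l then 1 else 0) * θ (t.take p.1)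

namespace AD

open OW

open Classical in
/-- sums over the decompositions -/
lemma pairA_sum (l L : ℕ) (Ch : Set (List Bool)) (θ : List Bool → ℝ) (t : List Bool) (w : ℕ → ℝ) :
    ∑ p ∈ ((range (t.length + 1)) ×ˢ (range (t.length + 1))).filter (fun p => DA l L Ch t p.1 p.2),
      w p.2 * θ (t.take p.1) =
      ∑ j ∈ range (t.length + 1), cjW L Ch θ t j * (if t.drop j ∈ Hp (2 ^ l) then w j else 0) := by
  rw [sum_filter, sum_product_right]
  refine sum_congr rfl fun j hj => ?_
  rw [mem_range] at hj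
  unfold cjW
  rw [sum_mul]
  symm
  have hsub : range (j + 1) ⊆ range (t.length + 1) := fun i hi => by
    rw [mem_range] at hi ⊢
    omega
  have e2 : ∀ i ∈ range (j + 1), (if t.take i ∈ Fe (4 * 2 ^ L) ∧ (t.take j).drop i ∈ Ch then θ (t.take i) else 0) *
      (if t.drop j ∈ Hp (2 ^ l) then w j else 0) =
        if DA l L Ch t i j then w j * θ (t.take i) else 0 := by
    intro i hi
    rw [mem_range] at hi
    unfold DA
    by_cases h1 : t.take i ∈ Fe (4 * 2 ^ L) ∧ (t.take j).drop i ∈ Ch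
    · by_cases h2 : t.drop j ∈ Hp (2 ^ l)
      · rw [if_pos h1, if_pos h2, if_pos ⟨by omega, h1.1, h1.2, h2⟩, mul_comm]
      · rw [if_neg h2, mul_zero]
        exact (if_neg fun h => h2 h.2.2.2).symm
    · rw [if_neg h1, zero_mul]
      exact (if_neg fun h => h1 ⟨h.2.1, h.2.2.1⟩).symm
  rw [sum_congr rfl e2]
  refine sum_subset hsub fun i hi hi' => ?_
  rw [mem_range] at hi'
  exact if_neg fun h => hi' (by have := h.1; omega)

open Classical in
lemma NA_sum (l L : ℕ) (Ch : Set (List Bool)) (θ : List Bool → ℝ) (t : List Bool) : NA l L Ch θ t =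
    ∑ j ∈ range (t.length + 1), cjW L Ch θ t j * (if t.drop j ∈ Hp (2 ^ l) then chi (2 ^ l) (t.drop j) else 0) := by
  rw [← pairA_sum l L Ch θ t fun j => chi (2 ^ l) (t.drop j)]
  rfl

open Classical in
lemma NQA_sum (l L : ℕ) (Ch : Set (List Bool)) (θ : List Bool → ℝ) (t : List Bool) : NQA l L Ch θ t =
    ∑ j ∈ range (t.length + 1), cjW L Ch θ t j * (if t.drop j ∈ Hp (2 ^ l) then 1 else 0) := by
  rw [← pairA_sum l L Ch θ t fun _ => 1]
  unfold NQA
  exact sum_congr rfl fun p _ => by rw [one_mul]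

open Classical in
lemma NIA_sum (l L : ℕ) (Ch : Set (List Bool)) (θ : List Bool → ℝ) (t : List Bool) : NIA l L Ch θ t =
    ∑ j ∈ range (t.length + 1), cjW L Ch θ t j * (if t.drop j ∈ Hp (2 ^ l) then
      (if (2 : ℤ) ^ l ≤ 64 * ip (en (t.drop j)) up ∧ 4 * hn (en (t.drop j)) ≤ 3 * 2 ^ l then 1 else 0) else 0) := by
  rw [← pairA_sum l L Ch θ t fun j =>
    if (2 : ℤ) ^ l ≤ 64 * ip (en (t.drop j)) up ∧ 4 * hn (en (t.drop j)) ≤ 3 * 2 ^ l then 1 else 0]
  rfl

lemma NA_nonneg (l L : ℕ) (Ch : Set (List Bool)) {θ : List Bool → ℝ} (h0 : ∀ A, 0 ≤ θ A) (t : List Bool) :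
    0 ≤ NA l L Ch θ t := sum_nonneg fun _ _ => mul_nonneg (chi_nonneg _ _) (h0 _)

lemma NQA_nonneg (l L : ℕ) (Ch : Set (List Bool)) {θ : List Bool → ℝ} (h0 : ∀ A, 0 ≤ θ A) (t : List Bool) :
    0 ≤ NQA l L Ch θ t := sum_nonneg fun _ _ => h0 _

lemma NIA_nonneg (l L : ℕ) (Ch : Set (List Bool)) {θ : List Bool → ℝ} (h0 : ∀ A, 0 ≤ θ A) (t : List Bool) :
    0 ≤ NIA l L Ch θ t := by
  refine sum_nonneg fun _ _ => mul_nonneg ?_ (h0 _)
  split_ifs <;> norm_num

lemma NQA_mono (l L : ℕ) (Ch : Set (List Bool)) {θ θ' : List Bool → ℝ} (h : ∀ A, θ A ≤ θ' A) (t : List Bool) :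
    NQA l L Ch θ t ≤ NQA l L Ch θ' t := sum_le_sum fun _ _ => h _

lemma NA_mono (l L : ℕ) (Ch : Set (List Bool)) {θ θ' : List Bool → ℝ} (h : ∀ A, θ A ≤ θ' A) (t : List Bool) :
    NA l L Ch θ t ≤ NA l L Ch θ' t := sum_le_sum fun _ _ => mul_le_mul_of_nonneg_left (h _) (chi_nonneg _ _)

lemma NA_smul (l L : ℕ) (Ch : Set (List Bool)) (x : ℝ) (θ : List Bool → ℝ) (t : List Bool) :
    NA l L Ch (fun A => x * θ A) t = x * NA l L Ch θ t := by
  unfold NA
  rw [mul_sum]
  exact sum_congr rfl fun p _ => by ring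

lemma NA_le_NQA (l L : ℕ) (Ch : Set (List Bool)) {θ : List Bool → ℝ} (h0 : ∀ A, 0 ≤ θ A) (t : List Bool) :
    NA l L Ch θ t ≤ NQA l L Ch θ t := by
  classical
  unfold NA NQA
  refine sum_le_sum fun p _ => ?_
  have h1 := chi_le (2 ^ l) (t.drop p.2)
  nlinarith [h0 (t.take p.1)]

end AD

open OW AD

open Classical in
/-- **one level, ends of any class** -/
theorem oscA {l L rho : ℕ} (Ch : Set (List Bool)) {θ : List Bool → ℝ} (hθ0 : ∀ A, 0 ≤ θ A)
    {A Y : List Bool} (hR : 128 * rho ≤ 2 ^ l) (hrho : 1 ≤ rho) (hS : A ++ Y ∈ SA)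
    (hY : ∀ i, i ≤ Y.length → hn (vx oo up Y i) < rho) :
    |NA l L Ch θ (A ++ Y) - NA l L Ch θ A| ≤ 32 * rho / 2 ^ l * NIA l L Ch θ A ∧
      NIA l L Ch θ A ≤ NQA l L Ch θ (A ++ Y) := by
  obtain ⟨R, hRe⟩ : ∃ R : ℕ, R = 2 ^ l := ⟨_, rfl⟩
  have hRz' : (2 : ℤ) ^ l = (R : ℤ) := by rw [hRe]; push_cast; rfl
  have hRr' : (2 : ℝ) ^ l = (R : ℝ) := by rw [hRe]; push_cast; rfl
  rw [NA_sum, NA_sum, NIA_sum, NQA_sum, ← hRe, hRz', hRr']
  rw [← hRe] at hR
  have hR0 : 0 < R := by omega
  have hRz : (128 : ℤ) * rho ≤ R := by exact_mod_cast hR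
  have hrz : (1 : ℤ) ≤ rho := by exact_mod_cast hrho
  have hRr : (0 : ℝ) < R := by exact_mod_cast hR0
  have hY0 : hn (en Y) < rho := hY Y.length le_rfl
  obtain ⟨Mc, hMc⟩ : ∃ Mc : ℕ → Prop, Mc = fun k => (A.drop k ∈ Hp R) ∧
    ((R : ℤ) ≤ 64 * ip (en (A.drop k)) up ∧ 4 * hn (en (A.drop k)) ≤ 3 * R) := ⟨_, rfl⟩
  have hdk : ∀ k, k ≤ A.length → (A ++ Y).drop k = A.drop k ++ Y := fun k hk => List.drop_append_of_le_length hk
  have hsplit : ∀ k, A.take k ++ (A.drop k ++ Y) ∈ SA := by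
    intro k
    rw [← List.append_assoc, List.take_append_drop]
    exact hS
  have hend : ∀ Z : List Bool, |ip (en (Z ++ Y)) up - ip (en Z) up| ≤ rho ∧ |hn (en (Z ++ Y)) - hn (en Z)| ≤ rho := by
    intro Z
    rw [OscA.en_app]
    have h1 := hn_rot Z (en Y)
    have h2 := ip_abs (mulE (rt Z) (en Y)) upd'
    rw [h1] at h2
    refine ⟨?_, ?_⟩
    · rw [ip_add_left, add_sub_cancel_left]
      linarith
    · have h3 := hn_add (en Z) (mulE (rt Z) (en Y))
      have h4 := hn_sub (en Z + mulE (rt Z) (en Y)) (mulE (rt Z) (en Y))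
      rw [add_sub_cancel_right] at h4
      rw [h1] at h3 h4
      rw [abs_le]
      constructor <;> linarith
  have hzero : ∀ k, ¬ Mc k → A.drop k ∈ Hp R →
      chi R (A.drop k) = 0 ∧ chi R (A.drop k ++ Y) = 0 := by
    intro k hm m2
    rw [hMc] at hm
    have hm' : ¬ ((R : ℤ) ≤ 64 * ip (en (A.drop k)) up ∧ 4 * hn (en (A.drop k)) ≤ 3 * R) := fun h => hm ⟨m2, h⟩
    rw [not_and_or, not_le, not_le] at hm'
    obtain ⟨e1, e2⟩ := hend (A.drop k)
    rw [abs_le] at e1 e2
    rcases hm' with h | h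
    · exact ⟨chi_low hR0 (by omega), chi_low hR0 (by omega)⟩
    · exact ⟨chi_far hR0 (by omega), chi_far hR0 (by omega)⟩
  have hext : ∀ k, Mc k → A.drop k ++ Y ∈ Hp R := by
    intro k hm
    rw [hMc] at hm
    exact Hp_ext hR hrho (hsplit k) hY hm.1 hm.2.1 hm.2.2
  obtain ⟨f, hf⟩ : ∃ f : ℕ → ℝ, f = fun k => cjW L Ch θ (A ++ Y) k *
    (if (A ++ Y).drop k ∈ Hp R then chi R ((A ++ Y).drop k) else 0) := ⟨_, rfl⟩
  obtain ⟨g, hg⟩ : ∃ g : ℕ → ℝ, g = fun k => cjW L Ch θ A k *
    (if A.drop k ∈ Hp R then chi R (A.drop k) else 0) := ⟨_, rfl⟩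
  have hbig : ∀ k, A.length < k → k ≤ (A ++ Y).length → f k = 0 := by
    intro k hk hk2
    rw [hf]
    simp only
    split_ifs with hc
    · have hz : chi R ((A ++ Y).drop k) = 0 := by
        refine chi_low hR0 ?_
        rw [List.length_append] at hk2
        obtain ⟨j, rfl⟩ : ∃ j, k = A.length + j := ⟨k - A.length, by omega⟩
        have e : (A ++ Y).drop (A.length + j) = Y.drop j := by
          rw [List.drop_append]
          simp
        rw [e]
        have h1 : en Y = en (Y.take j) + mulE (rt (Y.take j)) (en (Y.drop j)) := by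
          rw [← OscA.en_app, List.take_append_drop]
        have hj : j ≤ Y.length := by omega
        have h2 : en (Y.take j) = vx oo up Y j := by
          unfold en
          rw [List.length_take, min_eq_left hj]
          have := vx_append (v0 := oo) (d0 := up) (t := Y.take j) (s := Y.drop j) (i := j)
            (by rw [List.length_take, min_eq_left hj]; omega)
          rw [List.take_append_drop] at this
          exact this.symm
        have h3 : mulE (rt (Y.take j)) (en (Y.drop j)) = en Y - vx oo up Y j := by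
          rw [h1, h2]
          abel
        have h4 := hn_rot (Y.take j) (en (Y.drop j))
        rw [h3] at h4
        have h5 := hn_sub (en Y) (vx oo up Y j)
        have h6 := hY j hj
        have h7 := ip_le_hn (en (Y.drop j)) upd'
        omega
      rw [hz, mul_zero]
    · rw [mul_zero]
  have hsum : ∑ k ∈ range ((A ++ Y).length + 1), f k = ∑ k ∈ range (A.length + 1), f k := by
    symm
    refine sum_subset (fun k hk => ?_) fun k hk hk' => ?_
    · rw [mem_range] at hk ⊢
      rw [List.length_append]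
      omega
    · rw [mem_range] at hk hk'
      exact hbig k (by omega) (by omega)
  have hterm : ∀ k ∈ range (A.length + 1), |f k - g k| ≤ 32 * rho / R * (cjW L Ch θ A k * (if Mc k then (1 : ℝ) else 0)) := by
    intro k hk
    rw [mem_range] at hk
    have hk' : k ≤ A.length := by omega
    rw [hf, hg]
    simp only
    rw [cjW_app L Ch θ A Y hk', ← mul_sub, abs_mul, abs_of_nonneg (cjW_nonneg L Ch hθ0 A k), mul_left_comm]
    refine mul_le_mul_of_nonneg_left ?_ (cjW_nonneg L Ch hθ0 A k)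
    rw [hdk k hk']
    by_cases hm : Mc k
    · have h1 := hext k hm
      have h2 : A.drop k ∈ Hp R := by
        rw [hMc] at hm
        exact hm.1
      rw [if_pos hm, mul_one, if_pos h1, if_pos h2]
      obtain ⟨e1, e2⟩ := hend (A.drop k)
      exact chi_lip hR0 e1 e2
    · rw [if_neg hm, mul_zero]
      have h1 : (if A.drop k ∈ Hp R then chi R (A.drop k) else 0) = 0 := by
        split_ifs with hc
        · exact (hzero k hm hc).1
        · rfl
      have h2 : (if A.drop k ++ Y ∈ Hp R then chi R (A.drop k ++ Y) else 0) = 0 := by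
        split_ifs with hc
        · exact (hzero k hm (OscA.Hp_pre hc)).2
        · rfl
      rw [h1, h2, sub_zero, abs_zero]
  have hNI : ∀ k, (if A.drop k ∈ Hp R then
      (if (R : ℤ) ≤ 64 * ip (en (A.drop k)) up ∧ 4 * hn (en (A.drop k)) ≤ 3 * R then (1 : ℝ) else 0) else 0) =
      if Mc k then (1 : ℝ) else 0 := by
    intro k
    rw [hMc]
    by_cases h1 : A.drop k ∈ Hp R
    · rw [if_pos h1]
      by_cases h2 : (R : ℤ) ≤ 64 * ip (en (A.drop k)) up ∧ 4 * hn (en (A.drop k)) ≤ 3 * R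
      · rw [if_pos h2, if_pos ⟨h1, h2⟩]
      · rw [if_neg h2, if_neg fun h => h2 h.2]
    · rw [if_neg h1, if_neg fun h => h1 h.1]
  refine ⟨?_, ?_⟩
  · have hN1 : ∑ j ∈ range ((A ++ Y).length + 1), cjW L Ch θ (A ++ Y) j *
        (if (A ++ Y).drop j ∈ Hp R then chi R ((A ++ Y).drop j) else 0) =
        ∑ k ∈ range (A.length + 1), f k := by
      rw [← hsum, hf]
    have hN2 : ∑ j ∈ range (A.length + 1), cjW L Ch θ A j *
        (if A.drop j ∈ Hp R then chi R (A.drop j) else 0) = ∑ k ∈ range (A.length + 1), g k := by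
      rw [hg]
    rw [hN1, hN2, ← sum_sub_distrib, mul_sum]
    refine (abs_sum_le_sum_abs _ _).trans (sum_le_sum fun k hk => ?_)
    rw [hNI k]
    exact hterm k hk
  · have h1 : ∀ k ∈ range (A.length + 1), cjW L Ch θ A k * (if A.drop k ∈ Hp R then
        (if (R : ℤ) ≤ 64 * ip (en (A.drop k)) up ∧ 4 * hn (en (A.drop k)) ≤ 3 * R then (1 : ℝ) else 0) else 0) ≤
        cjW L Ch θ (A ++ Y) k * (if (A ++ Y).drop k ∈ Hp R then 1 else 0) := by
      intro k hk
      rw [mem_range] at hk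
      have hk' : k ≤ A.length := by omega
      rw [hNI k, cjW_app L Ch θ A Y hk', hdk k hk']
      refine mul_le_mul_of_nonneg_left ?_ (cjW_nonneg L Ch hθ0 A k)
      by_cases hm : Mc k
      · rw [if_pos hm, if_pos (hext k hm)]
      · rw [if_neg hm]
        split_ifs <;> norm_num
    refine (sum_le_sum h1).trans (sum_le_sum_of_subset_of_nonneg (fun k hk => ?_) fun k _ _ => ?_)
    · rw [mem_range] at hk ⊢
      rw [List.length_append]
      omega
    · refine mul_nonneg (cjW_nonneg L Ch hθ0 _ k) ?_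
      split_ifs <;> norm_num


/-- **in powers of two** : ends of size less than 2 ^ q, q + 7 ≤ l -/
theorem oscA_lv {l L q : ℕ} (Ch : Set (List Bool)) {θ : List Bool → ℝ} (hθ0 : ∀ A, 0 ≤ θ A) (hq : q + 7 ≤ l)
    {A Y : List Bool} (hS : A ++ Y ∈ SA) (hY : ∀ i, i ≤ Y.length → hn (vx oo up Y i) < 2 ^ q) :
    |NA l L Ch θ (A ++ Y) - NA l L Ch θ A| ≤ 32 * 2 ^ q / 2 ^ l * NIA l L Ch θ A ∧ NIA l L Ch θ A ≤ NQA l L Ch θ (A ++ Y) := by
  have h := oscA (l := l) (L := L) (rho := 2 ^ q) Ch hθ0 (A := A) (Y := Y) ?_ Nat.one_le_two_pow hS (fun i hi => ?_)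
  · push_cast at h
    exact h
  · calc 128 * 2 ^ q = 2 ^ (q + 7) := by ring
      _ ≤ 2 ^ l := Nat.pow_le_pow_right (by norm_num) hq
  · push_cast
    exact hY i hi

/-! ### the absolute direction -/

namespace AD

lemma rt_BU {V : List Bool} (hV : V ∈ BU) (p : Pt) : mulE (rt V) p = p := by
  obtain ⟨T, hT⟩ := hV
  have h : de V = up := (mem_Brd.1 hT).2.2.1
  have e1 : rt V = rotTo up up := by
    unfold rt
    rw [h]
  have e2 : rotTo up up = (1, 0) := by decide
  rw [e1, e2]
  exact Prod.ext (by simp [mulE]) (by simp [mulE])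

/-- the pieces of a decomposition -/
lemma dec_eq {l L : ℕ} {Ch : Set (List Bool)} {t : List Bool} {i j : ℕ} (h : DA l L Ch t i j) :
    t = t.take i ++ ((t.take j).drop i ++ t.drop j) := by
  rw [← SLW.drop_eq h.1, List.take_append_drop]

lemma de_dec {l L : ℕ} {Ch : Set (List Bool)} (hC : SLW.Chn L Ch) {t : List Bool} {i j : ℕ} (h : DA l L Ch t i j) :
    de t = mulE (rt (t.take i)) (de (t.drop j)) := by
  have e := congrArg de (dec_eq h)
  rw [de_app, de_app, rt_BU (hC.bu h.2.2.1)] at e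
  exact e

end AD

open Classical in
/-- **the far parts of the absolute direction `de t`** -/
theorem NA_dir (l L : ℕ) {Ch : Set (List Bool)} (hC : SLW.Chn L Ch) {d : Pt} {t : List Bool} (hd : de t = d) :
    NA l L Ch (fun A => if de A = d then 1 else 0) t = N0 l L Ch t := by
  unfold NA N0 NW
  rw [sum_filter, sum_filter]
  refine sum_congr rfl fun p _ => ?_
  beta_reduce
  by_cases h : DA l L Ch t p.1 p.2
  · rw [if_pos h]
    have e1 := de_dec hC h
    by_cases h2 : de (t.drop p.2) = up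
    · have h3 : de (t.take p.1) = d := by
        rw [← hd, e1, h2, rt_up]
      rw [if_pos h3, if_pos (show Dl l L Ch t p.1 p.2 from ⟨h.1, h.2.1, h.2.2.1, h.2.2.2, h2⟩), mul_one, mul_one]
    · have h3 : ¬ de (t.take p.1) = d := by
        intro h3
        apply h2
        have h4 : mulE (rt (t.take p.1)) (de (t.drop p.2)) = mulE (rt (t.take p.1)) up := by
          rw [← e1, rt_up, hd, h3]
        exact mulE_inj (nrm_rt _) h4
      rw [if_neg h3, if_neg (fun h' : Dl l L Ch t p.1 p.2 => h2 h'.2.2.2.2), mul_zero]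
  · rw [if_neg h, if_neg (fun h' : Dl l L Ch t p.1 p.2 => h ⟨h'.1, h'.2.1, h'.2.2.1, h'.2.2.2.1⟩)]

namespace AD

open Classical in
/-- the number of the decompositions is at most the number of the cuts of the next scale -/
lemma NQA_one_le_NP {l L : ℕ} (hl : l ≤ L) {Ch : Set (List Bool)} (hC : SLW.Chn L Ch) (t : List Bool) :
    NQA l L Ch (fun _ => 1) t ≤ NP (2 ^ (L + 1)) t := by
  unfold NQA NP
  rw [sum_const, nsmul_eq_mul, mul_one, Nat.cast_le]
  refine card_le_card_of_injOn (fun p => p.1) ?_ ?_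
  · rintro ⟨i, j⟩ hp
    rw [Finset.mem_coe, mem_filter, mem_product] at hp
    obtain ⟨⟨hi, hj⟩, h1, h2, h3, h4⟩ := hp
    rw [Finset.mem_coe]
    unfold cu
    rw [mem_filter]
    refine ⟨hi, ?_, ?_⟩
    · have e : 2 * 2 ^ (L + 1) = 4 * 2 ^ L := by ring
      rw [e]
      exact h2
    · have e : 2 ^ (L + 1) = 2 * 2 ^ L := by ring
      rw [e]
      show t.drop i ∈ Hp (2 * 2 ^ L)
      rw [SLW.drop_eq h1]
      refine SLW.bu_hp (hC.bu h3) (by
        intro k hk
        have := hC.size _ h3 k hk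
        push_cast
        exact this) ⟨h4.1, fun k hk => (h4.2 k hk).trans_le ?_⟩
      exact_mod_cast Nat.pow_le_pow_right (by norm_num) hl
  · rintro ⟨i, j⟩ hp ⟨i', j'⟩ hp' he
    simp only at he
    subst he
    rw [Finset.mem_coe, mem_filter, mem_product] at hp hp'
    obtain ⟨⟨hi, hj⟩, h1, h2, h3, h4⟩ := hp
    obtain ⟨⟨hi', hj'⟩, h1', h2', h3', h4'⟩ := hp'
    simp only [mem_range] at hi hj hj' h1 h1' h3 h3' h4 h4'
    have e := hC.uniq _ h3 _ h3' _ _ h4.1 h4'.1 (by rw [← SLW.drop_eq h1, ← SLW.drop_eq h1'])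
    have e2 := congrArg List.length e
    rw [List.length_drop, List.length_drop, List.length_take, List.length_take] at e2
    have e3 : j = j' := by omega
    rw [e3]

end AD

/-- **second moments: at most as many as the cuts** -/
theorem NQA_le_NP {l L : ℕ} (hl : l ≤ L) {Ch : Set (List Bool)} (hC : SLW.Chn L Ch) {θ : List Bool → ℝ}
    (h1 : ∀ A, θ A ≤ 1) (t : List Bool) : NQA l L Ch θ t ≤ NP (2 ^ (L + 1)) t :=
  (NQA_mono l L Ch h1 t).trans (NQA_one_le_NP hl hC t)

open Classical in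
/-- **a far weight that is a number of decompositions of a higher level** -/
theorem NA_above {l L l' L' : ℕ} (hl : l ≤ L) {Ch Ch' : Set (List Bool)} (hC : SLW.Chn L Ch) (hL : L + 8 ≤ l')
    {θ' : List Bool → ℝ} (h0 : ∀ A, 0 ≤ θ' A) {t : List Bool} (ht : t ∈ SA) :
    NA l L Ch (NIA l' L' Ch' θ') t ≤ NA l L Ch (fun _ => 1) t * NQA l' L' Ch' θ' t := by
  unfold NA
  rw [sum_mul]
  refine sum_le_sum fun p hp => ?_
  rw [mem_filter] at hp
  have hp2 := hp.2
  have e := dec_eq hp2
  rw [mul_one]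
  refine mul_le_mul_of_nonneg_left ?_ (chi_nonneg _ _)
  obtain ⟨A, hA⟩ : ∃ A, A = t.take p.1 := ⟨_, rfl⟩
  obtain ⟨Y, hY⟩ : ∃ Y, Y = (t.take p.2).drop p.1 ++ t.drop p.2 := ⟨_, rfl⟩
  rw [← hA, ← hY] at e
  have hYs : Y ∈ Hp (2 * 2 ^ L) := by
    rw [hY]
    refine SLW.bu_hp (hC.bu hp2.2.2.1) (by
      intro k hk
      have := hC.size _ hp2.2.2.1 k hk
      push_cast
      exact this) ⟨hp2.2.2.2.1, fun k hk => (hp2.2.2.2.2 k hk).trans_le ?_⟩
    exact_mod_cast Nat.pow_le_pow_right (by norm_num) hl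
  have h := oscA_lv (l := l') (L := L') (q := L + 1) Ch' h0 (A := A) (Y := Y) (by omega) (by rw [← e]; exact ht)
    (fun i hi => ?_)
  · rw [← hA]
    refine h.2.trans (le_of_eq ?_)
    rw [← e]
  · have := hYs.2 i hi
    push_cast at this
    rw [pow_succ, mul_comm]
    exact this

end PWN

end HexObs
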