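import Pool.Agent.PW.ArcTrim
import Pool.Agent.NTW.KernU
import Pool.Agent.BAR.Power
import Pool.Agent.SDN.CleanNorm

/-!
PW, arcs: assembly. The pairs of leaves of the same height, both feet on the bottom line, the second leaf in a class S of
small norm. Text: doc PW/ARC34.
-/

set_option autoImplicit false

namespace HexObs

namespace PW

open Finset TS SDN NTW

open scoped ENNReal

/-- (A) no giant next to the fold on the first strand -/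
def ArcMain : Prop := ∃ C : ℝ, 1 ≤ C ∧ ∀ (k j E N : ℕ) (S : Set (List Bool)) (δ : ℝ), j ≤ k → 2 ^ (k + 5) ≤ E → 0 ≤ δ →
  xT (2 ^ (k + 4)) k (vA (2 ^ (k + 4)) (BrR E N ∩ S) (fun _ => 1)) ≤ ENNReal.ofReal δ →
    arcs2 E N (GiF k j)ᶜ S ≤ ENNReal.ofReal (C * (Ub k / 2 ^ k) * 2 ^ (k - j) * δ)

/-- (B2) the last piece as a dominated functional -/
def DomLast : Prop := ∃ K : ℝ, 1 ≤ K ∧ ∀ k : ℕ, Dom k (ENNReal.ofReal (K / Ub k)) (lastP k)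

/-- (B4) the rest of the leaf with a giant near the end -/
def TailG : Prop := ∃ K c : ℝ, 1 ≤ K ∧ 0 < c ∧ ∀ (D E N k j : ℕ) (Φ : List Bool → ℝ≥0∞), Hered Φ → 2 ^ (k + 4) ≤ D →
  j ≤ k → 2 ^ (k + 2) ≤ E → E ≤ N →
    ∑' r : ℕ, min 1 ((r : ℝ≥0∞) / 2 ^ k) * Rec8.sw (Irr r) (fun P =>
      Rec8.sw {Z | Z ∈ BU ∧ P ++ Z ∈ BrR E N ∧ P ++ Z ∈ GiF k j} (fun Z => Φ (P ++ Z))) ≤
      ENNReal.ofReal (K * (UU N / Ub k) * (2 : ℝ) ^ (-(c * ((k : ℝ) - j)))) * xT D k Φ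

/-- two classes of the first leaf -/
lemma arcs2_split (E N : ℕ) (G S : Set (List Bool)) : arcs2 E N Set.univ S ≤ arcs2 E N Gᶜ S + arcs2 E N G Set.univ := by
  unfold arcs2
  rw [← ENNReal.tsum_add]
  refine ENNReal.tsum_le_tsum fun T => ?_
  by_cases hT : E ≤ T ∧ T ≤ N
  · rw [if_pos hT, if_pos hT, if_pos hT]
    refine (TN5b_sw_union (B := {g | g ∈ Brd T ∧ g ∈ Gᶜ}) (C := {g | g ∈ Brd T ∧ g ∈ G}) ?_ _).trans (add_le_add le_rfl ?_)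
    · rintro g ⟨h1, -⟩
      by_cases h2 : g ∈ G
      · exact Or.inr ⟨h1, h2⟩
      · exact Or.inl ⟨h1, h2⟩
    · exact Rec8.sw_mono' fun g _ => Rec8.sw_mono (fun t ht => ⟨ht.1, trivial, ht.2.2⟩) fun _ _ => le_rfl
  · rw [if_neg hT, if_neg hT, if_neg hT, add_zero]

/-- lower bound of the renewal function -/
lemma Ub_low : ∃ c : ℝ, 0 < c ∧ ∀ k : ℕ, c * (2 : ℝ) ^ (3 / 4 * (k : ℝ)) ≤ Ub k := by
  obtain ⟨c, C, hc, hC, h⟩ := BAR.UU_two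
  refine ⟨c, hc, fun k => ?_⟩
  have h1 := (h (2 ^ k) Nat.one_le_two_pow).1
  have h2 : (((2 ^ k : ℕ) : ℝ)) ^ (3 / 4 : ℝ) = (2 : ℝ) ^ (3 / 4 * (k : ℝ)) := by
    push_cast
    rw [← Real.rpow_natCast, ← Real.rpow_mul (by norm_num)]
    congr 1
    ring
  rw [h2] at h1
  exact h1

lemma fin_num {C1 X r u t q : ℝ} (h1 : 0 ≤ C1) (hX : 0 ≤ X) (hr : 1 ≤ r) (hu : 0 ≤ u) (ht : 0 ≤ t) (hq : 0 ≤ q) :
    C1 * u * t + X * r * u * q ≤ (C1 + X) * r * u * (t + q) := by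
  have a1 : C1 * u * t ≤ C1 * r * u * t := by
    have : 0 ≤ C1 * u * t := by positivity
    nlinarith
  have a2 : 0 ≤ C1 * r * u * q := by positivity
  have a3 : 0 ≤ X * r * u * t := by positivity
  nlinarith

/-- **arcs, the second leaf in a class of small norm** -/
theorem arc_of (hM : ArcMain) (hD : DomLast) (hG : TailG) : ∃ C c : ℝ, 1 ≤ C ∧ 0 < c ∧ ∀ (k i N : ℕ) (S : Set (List Bool)) (δ : ℝ),
    i ≤ k → 2 ^ (k + 5) ≤ N → 0 ≤ δ →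
    xT (2 ^ (k + 4)) k (vA (2 ^ (k + 4)) (BrR (2 ^ (k + 5)) N ∩ S) (fun _ => 1)) ≤ ENNReal.ofReal δ →
      arcs2 (2 ^ (k + 5)) N Set.univ S ≤
        ENNReal.ofReal (C * (UU N / Ub k) ^ 2 * (Ub k / 2 ^ k) * (2 ^ i * δ + (2 : ℝ) ^ (-(c * (i : ℝ))))) := by
  obtain ⟨C1, hC1, hM⟩ := hM
  obtain ⟨K2, hK2, hD⟩ := hD
  obtain ⟨K3, c, hK3, hc, hG⟩ := hG
  obtain ⟨C4, hC4, hB⟩ := trim_both
  obtain ⟨C0, δ0, hI⟩ := inp_exists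
  obtain ⟨K5, hK5, hN⟩ := nextD_of hI (ssA hI) (ssThree hI)
  obtain ⟨c6, hc6, hlow⟩ := Ub_low
  refine ⟨C1 + C4 * K3 * K5 * K2 / c6 ^ 2, c, ?_, hc, fun k i N S δ hi hN5 hδ hS => ?_⟩
  · have : 0 ≤ C4 * K3 * K5 * K2 / c6 ^ 2 := by positivity
    linarith
  have hp5 : 2 ^ (k + 5) = 2 * 2 ^ (k + 4) := by ring
  have hp4 : 2 ^ (k + 4) = 8 * 2 ^ (k + 1) := by ring
  have hp2 : 2 ^ (k + 2) = 2 * 2 ^ (k + 1) := by ring
  have hU := Ub_pos k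
  have hUN : 0 < UU N := Num2Aux.UU_pos N
  have hUkN : Ub k ≤ UU N := Num2Aux.UU_mono (by
    have : 2 ^ k ≤ 2 ^ (k + 5) := Nat.pow_le_pow_right (by norm_num) (by omega)
    omega)
  have hrat : 1 ≤ UU N / Ub k := (one_le_div hU).2 hUkN
  obtain ⟨ρ, hρ⟩ : ∃ ρ, ρ = UU N / Ub k := ⟨_, rfl⟩
  rw [← hρ] at hrat ⊢
  obtain ⟨q, hq⟩ : ∃ q : ℝ, q = (2 : ℝ) ^ (-(c * (i : ℝ))) := ⟨_, rfl⟩
  have hq0 : 0 < q := by
    rw [hq]
    exact Real.rpow_pos_of_pos two_pos _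
  have hji : ((k : ℝ) - ((k - i : ℕ) : ℝ)) = i := by
    rw [Nat.cast_sub hi]
    ring
  -- (A)
  have t1 := hM k (k - i) (2 ^ (k + 5)) N S δ (Nat.sub_le _ _) le_rfl hδ hS
  have e1 : k - (k - i) = i := by omega
  rw [e1] at t1
  -- (B)
  have t2 := hB k (k - i) (2 ^ (k + 5)) N (Nat.sub_le _ _) le_rfl
  have t3 := hG (2 ^ (k + 4)) (2 ^ (k + 5) - 2 ^ (k + 1)) N k (k - i)
    (vA (2 ^ (k + 4)) (BrR (2 ^ (k + 5) - 2 ^ (k + 1)) N) (lastP k)) (CN.hered_vA _ _ _) le_rfl (Nat.sub_le _ _)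
    (by omega) (by omega)
  have t4 := hN (2 ^ (k + 4)) k k (2 ^ (k + 5) - 2 ^ (k + 1)) N _ _ (hD k) le_rfl (by omega) (by omega) (by omega)
  rw [hji, ← hq, ← hρ] at t3
  rw [← hρ] at t4
  have hnum : C4 * (2 : ℝ) ^ ((k : ℝ) / 2) * (K3 * ρ * q * (K5 * ρ * (K2 / Ub k))) ≤
      C4 * K3 * K5 * K2 / c6 ^ 2 * ρ ^ 2 * (Ub k / 2 ^ k) * q := by
    have h1 : (2 : ℝ) ^ ((k : ℝ) / 2) / Ub k ≤ 1 / c6 ^ 2 * (Ub k / 2 ^ k) := by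
      have h2 : c6 ^ 2 * ((2 : ℝ) ^ ((k : ℝ) / 2) * 2 ^ k) ≤ Ub k ^ 2 := by
        have h3 : c6 ^ 2 * ((2 : ℝ) ^ ((k : ℝ) / 2) * 2 ^ k) = (c6 * (2 : ℝ) ^ (3 / 4 * (k : ℝ))) ^ 2 := by
          rw [mul_pow, ← Real.rpow_natCast ((2 : ℝ) ^ (3 / 4 * (k : ℝ))) 2, ← Real.rpow_mul (by norm_num),
            ← Real.rpow_natCast 2 k, ← Real.rpow_add two_pos]
          congr 2
          push_cast
          ring
        rw [h3]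
        exact pow_le_pow_left₀ (by positivity) (hlow k) 2
      have h2k : (0 : ℝ) < 2 ^ k := by positivity
      rw [div_le_iff₀ hU]
      have h4 : 1 / c6 ^ 2 * (Ub k / 2 ^ k) * Ub k = Ub k ^ 2 / (c6 ^ 2 * 2 ^ k) := by
        field_simp
      rw [h4, le_div_iff₀ (by positivity)]
      calc (2 : ℝ) ^ ((k : ℝ) / 2) * (c6 ^ 2 * 2 ^ k) = c6 ^ 2 * ((2 : ℝ) ^ ((k : ℝ) / 2) * 2 ^ k) := by ring
        _ ≤ Ub k ^ 2 := h2
    calc C4 * (2 : ℝ) ^ ((k : ℝ) / 2) * (K3 * ρ * q * (K5 * ρ * (K2 / Ub k)))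
        = C4 * K3 * K5 * K2 * ρ ^ 2 * q * ((2 : ℝ) ^ ((k : ℝ) / 2) / Ub k) := by ring
      _ ≤ C4 * K3 * K5 * K2 * ρ ^ 2 * q * (1 / c6 ^ 2 * (Ub k / 2 ^ k)) :=
          mul_le_mul_of_nonneg_left h1 (by positivity)
      _ = _ := by ring
  have t5 : arcs2 (2 ^ (k + 5)) N (GiF k (k - i)) Set.univ ≤
      ENNReal.ofReal (C4 * K3 * K5 * K2 / c6 ^ 2 * ρ ^ 2 * (Ub k / 2 ^ k) * q) := by
    refine (t2.trans (mul_le_mul_right (t3.trans (mul_le_mul_right t4 _)) _)).trans ?_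
    rw [← ENNReal.ofReal_mul (by positivity), ← ENNReal.ofReal_mul (by positivity), ← ENNReal.ofReal_mul (by positivity)]
    exact ENNReal.ofReal_le_ofReal hnum
  refine (arcs2_split _ _ (GiF k (k - i)) S).trans ((add_le_add t1 t5).trans ?_)
  rw [← ENNReal.ofReal_add (by positivity) (by positivity)]
  refine ENNReal.ofReal_le_ofReal ?_
  have h2k : (0 : ℝ) < 2 ^ k := by positivity
  have hr2 : 1 ≤ ρ ^ 2 := one_le_pow₀ hrat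
  have hx : 0 ≤ Ub k / 2 ^ k := by positivity
  have hA0 : 0 ≤ C4 * K3 * K5 * K2 / c6 ^ 2 := by positivity
  have h2i : 0 ≤ (2 : ℝ) ^ i * δ := by positivity
  have e2 : C1 * (Ub k / 2 ^ k) * 2 ^ i * δ = C1 * (Ub k / 2 ^ k) * (2 ^ i * δ) := by ring
  rw [e2, ← hq]
  exact fin_num (by linarith) hA0 hr2 hx h2i hq0.le

end PW

end HexObs
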