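
import Pool.Agent.PW.ArcDefs
import Pool.Agent.NTW.DomJ

/-!
PW, words pinned at both ends, kernel half (doc PW/ARC34, B2 - B4): the size of the last irreducible piece as a functional
of the end of a leaf, and the strands with a giant next to the fold.
-/

set_option autoImplicit false

namespace HexObs

namespace PW

open Finset TS SDN NTW

open scoped ENNReal

open Rec8 (mb)

variable {C δ : ℝ}

namespace AK

/-- nonempty bridges: the last irreducible piece -/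
lemma last_ex {m : ℕ} {M : List Bool} (hM : M ∈ Brd m) (hne : M ≠ []) :
    ∃ (r : ℕ) (P M' : List Bool), 1 ≤ r ∧ r ≤ m ∧ P ∈ Irr r ∧ M' ∈ Brd (m - r) ∧ M = M' ++ P := by
  have h1 : 1 ≤ m := by
    rcases Nat.eq_zero_or_pos m with h0 | h0
    · subst h0
      rw [Brd_zero] at hM
      exact absurd hM hne
    · exact h0
  obtain ⟨r, s, u, hr1, hr2, hs, hu, he⟩ := Brd_first (Brd_rev hM) h1
  refine ⟨r, rev s, rev u, hr1, hr2, Irr_rev hs, Brd_rev hu, ?_⟩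
  rw [← rev_append, ← he, rev_rev]

lemma wE_nil : wE [] = 1 := by
  unfold wE
  simp

lemma sw_nil (F : List Bool → ℝ≥0∞) : Rec8.sw {([] : List Bool)} F = F [] := by
  rw [Rec8.sw_ind, tsum_eq_single []]
  · rw [if_pos (Set.mem_singleton _), wE_nil, one_mul]
  · intro t ht
    rw [if_neg (by simpa using ht)]

/-- the sum over the bridges lower than n: empty word or last piece -/
lemma sw_last (n : ℕ) (F : List Bool → ℝ≥0∞) :
    Rec8.sw {M | ∃ m, m < n ∧ M ∈ Brd m} F ≤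
      F [] + ∑' r : ℕ, Rec8.sw (Irr r) (fun P => Rec8.sw {M | ∃ m, m < n ∧ M ∈ Brd m} (fun M => F (M ++ P))) := by
  classical
  have hsub : {M : List Bool | ∃ m, m < n ∧ M ∈ Brd m} ⊆ {[]} ∪ {M | (∃ m, m < n ∧ M ∈ Brd m) ∧ M ≠ []} := by
    intro M hM
    by_cases h : M = []
    · exact Or.inl (Set.mem_singleton_iff.2 h)
    · exact Or.inr ⟨hM, h⟩
  refine (TN5b_sw_union hsub F).trans (add_le_add (sw_nil F).le ?_)
  have hR : (∑' r : ℕ, Rec8.sw (Irr r) (fun P => Rec8.sw {M | ∃ m, m < n ∧ M ∈ Brd m} (fun M => F (M ++ P)))) =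
      ∑' x : ℕ × (List Bool × List Bool),
        (if x.2.1 ∈ Irr x.1 ∧ (∃ m, m < n ∧ x.2.2 ∈ Brd m) then wE x.2.1 * (wE x.2.2 * F (x.2.2 ++ x.2.1)) else 0) := by
    rw [ENNReal.tsum_prod']
    refine tsum_congr fun r => ?_
    rw [ENNReal.tsum_prod', Rec8.sw_ind]
    refine tsum_congr fun P => ?_
    by_cases hP : P ∈ Irr r
    · rw [if_pos hP, Rec8.sw_ind, ← ENNReal.tsum_mul_left]
      refine tsum_congr fun M => ?_
      by_cases hM : ∃ m, m < n ∧ M ∈ Brd m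
      · rw [if_pos (show M ∈ {M | ∃ m, m < n ∧ M ∈ Brd m} from hM)]
        exact (if_pos ⟨hP, hM⟩).symm
      · rw [if_neg (show M ∉ {M | ∃ m, m < n ∧ M ∈ Brd m} from hM), mul_zero]
        exact (if_neg (fun h : P ∈ Irr r ∧ (∃ m, m < n ∧ M ∈ Brd m) => hM h.2)).symm
    · rw [if_neg hP]
      refine (ENNReal.tsum_eq_zero.2 fun M => ?_).symm
      exact if_neg (fun h : P ∈ Irr r ∧ (∃ m, m < n ∧ M ∈ Brd m) => hP h.1)
  rw [hR]
  refine Rec8.sw_cover _ F _ (fun x => x.2.2 ++ x.2.1) ?_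
  rintro M ⟨⟨m, hm, hM⟩, hne⟩
  obtain ⟨r, P, M', -, h2, hP, hM', rfl⟩ := last_ex hM hne
  refine ⟨(r, (P, M')), rfl, ?_⟩
  rw [if_pos ⟨hP, m - r, by omega, hM'⟩, wE_append]
  exact le_of_eq (by ring)

end AK

open AK NTW.DE in
/-- **(B2)** the size of the last piece: number 1 / Ub k at the window k -/
theorem dom_lastP : ∃ K : ℝ, 1 ≤ K ∧ ∀ k : ℕ, Dom k (ENNReal.ofReal (K / Ub k)) (lastP k) := by
  obtain ⟨K3, hK3, h3⟩ := avg_mass
  refine ⟨1 + 2 * K3, by linarith, fun k => ⟨lastP_hered k, fun r P hP => ?_⟩⟩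
  have hU := Ub_pos k
  have h1 : Rec8.sw {M | ∃ m, m < 2 ^ (k + 1) ∧ M ∈ Brd m} (fun M => lastP k (P ++ M)) ≤
      ENNReal.ofReal (1 + 2 * K3) := by
    refine (sw_last _ _).trans ?_
    rw [ENNReal.ofReal_add (by norm_num) (by positivity), ENNReal.ofReal_one]
    refine add_le_add (lastP_le_one _ _) ?_
    have h4 : ∀ r' : ℕ, Rec8.sw (Irr r') (fun P' => Rec8.sw {M | ∃ m, m < 2 ^ (k + 1) ∧ M ∈ Brd m}
        (fun M => lastP k (P ++ (M ++ P')))) ≤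
        ENNReal.ofReal (UU (2 ^ (k + 1))) * (min 1 ((r' : ℝ≥0∞) / 2 ^ k) * kap' r') := by
      intro r'
      calc _ ≤ Rec8.sw (Irr r') (fun _ => Rec8.sw {Z | ∃ h, h ≤ 2 ^ (k + 1) ∧ Z ∈ Brd h}
            (fun _ => min 1 ((r' : ℝ≥0∞) / 2 ^ k))) := by
            refine Rec8.sw_mono' fun P' hP' => Rec8.sw_mono ?_ ?_
            · rintro M ⟨m, hm, hM⟩
              exact ⟨m, hm.le, hM⟩
            · rintro M ⟨m, -, hM⟩
              rw [← List.append_assoc]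
              exact lastP_le k ⟨r + m, Brd_append hP.1 hM⟩ hP'
        _ = gf (Irr r') * (gf {Z | ∃ h, h ≤ 2 ^ (k + 1) ∧ Z ∈ Brd h} * min 1 ((r' : ℝ≥0∞) / 2 ^ k)) := by
            rw [NX_const, NX_const]
        _ ≤ kap' r' * (ENNReal.ofReal (UU (2 ^ (k + 1))) * min 1 ((r' : ℝ≥0∞) / 2 ^ k)) :=
            mul_le_mul' le_rfl (mul_le_mul' (gf_BU_le _) le_rfl)
        _ = _ := by ring
    refine (ENNReal.tsum_le_tsum h4).trans ?_
    rw [ENNReal.tsum_mul_left]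
    refine (mul_le_mul' le_rfl (h3 k)).trans ?_
    rw [← ENNReal.ofReal_mul (Num2Aux.UU_pos _).le]
    refine ENNReal.ofReal_le_ofReal ?_
    have h5 := UU_two k
    have h6 : UU (2 ^ (k + 1)) * (K3 / Ub k) ≤ (2 * Ub k) * (K3 / Ub k) :=
      mul_le_mul_of_nonneg_right h5 (by positivity)
    have h7 : (2 * Ub k) * (K3 / Ub k) = 2 * K3 := by
      field_simp
    linarith
  refine h1.trans ?_
  calc ENNReal.ofReal (1 + 2 * K3) = ENNReal.ofReal ((1 + 2 * K3) / Ub k) * ENNReal.ofReal (Ub k) := by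
        rw [← ENNReal.ofReal_mul (by positivity), div_mul_cancel₀ _ hU.ne']
    _ ≤ _ := mul_le_mul' le_rfl (Ub_le_SS k P)

/-- **(B3)** the near norm of the leaves, weighted by the size of the last piece -/
theorem nearP (h : Inp C δ) (hA : SsA) (h3 : Ss3) : ∃ K : ℝ, 1 ≤ K ∧ ∀ E N k : ℕ, 2 ^ (k + 4) ≤ E → E ≤ N →
    xT (2 ^ (k + 4)) k (vA (2 ^ (k + 4)) (BrR E N) (lastP k)) ≤ ENNReal.ofReal (K * (UU N / Ub k) * (1 / Ub k)) := by
  obtain ⟨K1, hK1, h1⟩ := dom_lastP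
  obtain ⟨K2, hK2, h2⟩ := nextD_of h hA h3
  refine ⟨K2 * K1, by nlinarith, fun E N k hE hEN => ?_⟩
  have hU := Ub_pos k
  have hN := Num2Aux.UU_pos N
  refine (h2 (2 ^ (k + 4)) k k E N _ _ (h1 k) le_rfl hE hE hEN).trans ?_
  rw [← ENNReal.ofReal_mul (by positivity)]
  exact ENNReal.ofReal_le_ofReal (le_of_eq (by ring))

namespace AK

/-- sum over a giant and the part next to the fold -/
noncomputable def FF (k j : ℕ) (Φ : List Bool → ℝ≥0∞) : ℝ≥0∞ :=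
  ∑' r : ℕ, (if 2 ^ k < r then
    Rec8.sw (Irr r) (fun P => Rec8.sw {M | ∃ m, m < 2 ^ (j + 1) ∧ M ∈ Brd m} (fun M => Φ (P ++ M))) else 0)

open NTW.KJ NTW.DJ NTW.DE in
lemma FF_le (h : Inp C δ) : ∃ K c : ℝ, 1 ≤ K ∧ 0 < c ∧ ∀ (D k j : ℕ) (Φ : List Bool → ℝ≥0∞), 2 ^ (k + 4) ≤ D →
    j ≤ k → FF k j Φ ≤ ENNReal.ofReal (K * (2 : ℝ) ^ (-(c * ((k : ℝ) - j)))) * xT D k Φ := by
  obtain ⟨K, c, hK, hc, h1⟩ := ssJ1 h
  refine ⟨K, c, hK, hc, fun D k j Φ hD hj => ?_⟩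
  have hU := Ub_pos k
  have hp : (0 : ℝ) < (2 : ℝ) ^ (-(c * ((k : ℝ) - j))) := Real.rpow_pos_of_pos two_pos _
  obtain ⟨G, hG⟩ : ∃ G : List Bool → ℝ≥0∞, G = fun P => ∑ b ∈ range (j + 1), Sw (2 ^ (k + 4)) k b P := ⟨_, rfl⟩
  -- the sum over the part next to the fold
  have s1 : FF k j Φ ≤ xT D k Φ * Lg k G := by
    rw [← Lg_mul]
    unfold FF Lg
    refine ENNReal.tsum_le_tsum fun r => ?_
    split_ifs
    · refine Rec8.sw_mono' fun P hP => ?_
      refine (LW.low_blocks j _).trans ?_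
      rw [hG, Finset.mul_sum]
      refine Finset.sum_le_sum fun b hb => ?_
      rw [Finset.mem_range] at hb
      exact (xT_use (by omega) ⟨r, hP⟩ Φ).trans (mul_le_mul' le_rfl (Sw_anti hD _ _ _))
    · exact le_rfl
  -- the sum over the giant
  have s2 : Lg k G * ENNReal.ofReal (Ub k) ≤ ENNReal.ofReal (K * (2 : ℝ) ^ (-(c * ((k : ℝ) - j))) * Ub k) := by
    refine le_trans ?_ (h1 k j hj)
    rw [← Lg_rev, mul_comm, ← Lg_mul]
    refine Lg_mono fun P => ?_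
    rw [mul_comm]
    refine mul_le_mul' ?_ (Ub_le_SS k P)
    rw [hG]
    refine le_trans (le_of_eq ?_) (Sw_le_SJ (i := k) (j := j) le_rfl (rev P))
    rw [min_eq_right hj]
  have s3 : Lg k G ≤ ENNReal.ofReal (K * (2 : ℝ) ^ (-(c * ((k : ℝ) - j)))) := by
    rw [ENNReal.ofReal_mul (by positivity)] at s2
    have h0 : ENNReal.ofReal (Ub k) ≠ 0 := by
      rw [Ne, ENNReal.ofReal_eq_zero, not_le]
      exact hU
    exact (ENNReal.mul_le_mul_iff_left h0 ENNReal.ofReal_ne_top).1 s2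
  calc FF k j Φ ≤ xT D k Φ * Lg k G := s1
    _ ≤ xT D k Φ * ENNReal.ofReal (K * (2 : ℝ) ^ (-(c * ((k : ℝ) - j)))) := mul_le_mul' le_rfl s3
    _ = _ := mul_comm _ _

/-- a strand with a giant next to the fold, first piece P -/
lemma rest_G {E N k j r : ℕ} {P : List Bool} (hP : P ∈ Irr r) {Φ : List Bool → ℝ≥0∞} (hΦ : Hered Φ) :
    Rec8.sw {Z | Z ∈ BU ∧ P ++ Z ∈ BrR E N ∧ P ++ Z ∈ GiF k j} (fun Z => Φ (P ++ Z)) ≤
      (if 2 ^ k < r then Rec8.sw {M | ∃ m, m < 2 ^ (j + 1) ∧ M ∈ Brd m} (fun M => Φ (P ++ M)) else 0) +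
        ENNReal.ofReal (UU N) * FF k j Φ := by
  classical
  obtain ⟨B1, hB1⟩ : ∃ B1 : Set (List Bool), B1 = {Z | 2 ^ k < r ∧ ∃ m, m < 2 ^ (j + 1) ∧ Z ∈ Brd m} := ⟨_, rfl⟩
  obtain ⟨B2, hB2⟩ : ∃ B2 : Set (List Bool), B2 = {Z | ∃ (r' : ℕ) (Y P' M : List Bool), 2 ^ k < r' ∧
    (∃ y, y ≤ N ∧ Y ∈ Brd y) ∧ P' ∈ Irr r' ∧ (∃ m, m < 2 ^ (j + 1) ∧ M ∈ Brd m) ∧ Z = Y ++ (P' ++ M)} := ⟨_, rfl⟩
  have hsub : {Z : List Bool | Z ∈ BU ∧ P ++ Z ∈ BrR E N ∧ P ++ Z ∈ GiF k j} ⊆ B1 ∪ B2 := by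
    rintro Z ⟨⟨z, hz⟩, hE, X, P', M, r', m, he, ⟨a, hX⟩, hP', hr', hM, hm⟩
    by_cases hX0 : X = []
    · left
      rw [hX0, List.nil_append] at he
      obtain ⟨h1, h2⟩ := Irr_unique hP hP' hz hM he
      rw [hB1]
      refine ⟨?_, m, hm, h2 ▸ hM⟩
      have h3 : r = r' := Brd_height hP.1 (h1 ▸ hP'.1)
      omega
    · right
      have ha : 1 ≤ a := by
        rcases Nat.eq_zero_or_pos a with h0 | h0
        · subst h0
          rw [Brd_zero] at hX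
          exact absurd hX hX0
        · exact h0
      obtain ⟨q, s, u, -, -, hs, hu, hXe⟩ := Brd_first hX ha
      have hu2 : u ++ (P' ++ M) ∈ Brd (a - q + (r' + m)) := Brd_append hu (Brd_append hP'.1 hM)
      have he2 : P ++ Z = s ++ (u ++ (P' ++ M)) := by rw [he, hXe, List.append_assoc]
      obtain ⟨h1, h2⟩ := Irr_unique hP hs hz hu2 he2
      rw [hB2]
      refine ⟨r', u, P', M, hr', ⟨a - q, ?_, hu⟩, hP', ⟨m, hm, hM⟩, h2⟩
      obtain ⟨H, -, hH, hHt⟩ := hE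
      have h3 := Brd_height hHt (Brd_append hP.1 hz)
      have h4 := Brd_height hz (h2 ▸ hu2)
      omega
  refine (TN5b_sw_union hsub _).trans (add_le_add ?_ ?_)
  · rw [hB1]
    split_ifs with hr
    · exact Rec8.sw_mono (fun Z hZ => hZ.2) fun _ _ => le_rfl
    · have : {Z : List Bool | 2 ^ k < r ∧ ∃ m, m < 2 ^ (j + 1) ∧ Z ∈ Brd m} = ∅ := by
        ext Z
        constructor
        · exact fun h => absurd h.1 hr
        · exact fun h => absurd h (Set.notMem_empty Z)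
      rw [this]
      unfold Rec8.sw
      simp
  · -- cover by three words
    have hR : (∑' r' : ℕ, (if 2 ^ k < r' then Rec8.sw {Y | ∃ y, y ≤ N ∧ Y ∈ Brd y} (fun _ =>
        Rec8.sw (Irr r') (fun P' => Rec8.sw {M | ∃ m, m < 2 ^ (j + 1) ∧ M ∈ Brd m} (fun M => Φ (P' ++ M)))) else 0)) =
        ∑' x : ℕ × (List Bool × (List Bool × List Bool)),
          (if 2 ^ k < x.1 ∧ (∃ y, y ≤ N ∧ x.2.1 ∈ Brd y) ∧ x.2.2.1 ∈ Irr x.1 ∧
            (∃ m, m < 2 ^ (j + 1) ∧ x.2.2.2 ∈ Brd m) then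
            wE x.2.1 * (wE x.2.2.1 * (wE x.2.2.2 * Φ (x.2.2.1 ++ x.2.2.2))) else 0) := by
      rw [ENNReal.tsum_prod']
      refine tsum_congr fun r' => ?_
      rw [ENNReal.tsum_prod']
      by_cases hr : 2 ^ k < r'
      · rw [if_pos hr, Rec8.sw_ind]
        refine tsum_congr fun Y => ?_
        rw [ENNReal.tsum_prod']
        by_cases hY : ∃ y, y ≤ N ∧ Y ∈ Brd y
        · rw [if_pos (show Y ∈ {Y | ∃ y, y ≤ N ∧ Y ∈ Brd y} from hY), Rec8.sw_ind, ← ENNReal.tsum_mul_left]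
          refine tsum_congr fun P' => ?_
          by_cases hP' : P' ∈ Irr r'
          · rw [if_pos hP', Rec8.sw_ind, ← ENNReal.tsum_mul_left, ← ENNReal.tsum_mul_left]
            refine tsum_congr fun M => ?_
            by_cases hM : ∃ m, m < 2 ^ (j + 1) ∧ M ∈ Brd m
            · rw [if_pos (show M ∈ {M | ∃ m, m < 2 ^ (j + 1) ∧ M ∈ Brd m} from hM)]
              exact (if_pos ⟨hr, hY, hP', hM⟩).symm
            · rw [if_neg (show M ∉ {M | ∃ m, m < 2 ^ (j + 1) ∧ M ∈ Brd m} from hM), mul_zero, mul_zero]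
              exact (if_neg (fun h => hM h.2.2.2)).symm
          · rw [if_neg hP', mul_zero]
            exact (ENNReal.tsum_eq_zero.2 fun M => if_neg (fun h => hP' h.2.2.1)).symm
        · rw [if_neg (show Y ∉ {Y | ∃ y, y ≤ N ∧ Y ∈ Brd y} from hY)]
          refine (ENNReal.tsum_eq_zero.2 fun P' => ENNReal.tsum_eq_zero.2 fun M => ?_).symm
          refine if_neg ?_
          rintro ⟨-, h, -⟩
          exact hY h
      · rw [if_neg hr]
        refine (ENNReal.tsum_eq_zero.2 fun Y => ENNReal.tsum_eq_zero.2 fun x => ?_).symm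
        refine if_neg ?_
        rintro ⟨h, -⟩
        exact hr h
    calc Rec8.sw B2 (fun Z => Φ (P ++ Z))
        ≤ ∑' r' : ℕ, (if 2 ^ k < r' then Rec8.sw {Y | ∃ y, y ≤ N ∧ Y ∈ Brd y} (fun _ =>
          Rec8.sw (Irr r') (fun P' => Rec8.sw {M | ∃ m, m < 2 ^ (j + 1) ∧ M ∈ Brd m} (fun M => Φ (P' ++ M)))) else 0) := by
          rw [hR]
          refine Rec8.sw_cover _ _ _ (fun x => x.2.1 ++ (x.2.2.1 ++ x.2.2.2)) ?_
          rw [hB2]
          rintro Z ⟨r', Y, P', M, hr', hY, hP', hM, rfl⟩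
          refine ⟨(r', (Y, (P', M))), rfl, ?_⟩
          rw [if_pos ⟨hr', hY, hP', hM⟩, wE_append, wE_append, mul_assoc, mul_assoc]
          obtain ⟨y, -, hY'⟩ := hY
          refine mul_le_mul' le_rfl (mul_le_mul' le_rfl (mul_le_mul' le_rfl ?_))
          rw [← List.append_assoc P Y]
          exact hΦ (P ++ Y) ⟨r + y, Brd_append hP.1 hY'⟩ _
      _ = gf {Y | ∃ y, y ≤ N ∧ Y ∈ Brd y} * FF k j Φ := by
          unfold FF
          rw [← ENNReal.tsum_mul_left]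
          refine tsum_congr fun r' => ?_
          split_ifs
          · exact NX_const _ _
          · rw [mul_zero]
      _ ≤ ENNReal.ofReal (UU N) * FF k j Φ := mul_le_mul' (gf_BU_le N) le_rfl

end AK

open AK in
/-- **(B4)** the strands with a giant next to the fold, first piece over a level of the window k -/
theorem tailG (h : Inp C δ) : ∃ K c : ℝ, 1 ≤ K ∧ 0 < c ∧ ∀ (D E N k j : ℕ) (Φ : List Bool → ℝ≥0∞), Hered Φ →
    2 ^ (k + 4) ≤ D → j ≤ k → 2 ^ (k + 2) ≤ E → E ≤ N →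
    ∑' r : ℕ, min 1 ((r : ℝ≥0∞) / 2 ^ k) * Rec8.sw (Irr r) (fun P =>
      Rec8.sw {Z | Z ∈ BU ∧ P ++ Z ∈ BrR E N ∧ P ++ Z ∈ GiF k j} (fun Z => Φ (P ++ Z))) ≤
      ENNReal.ofReal (K * (UU N / Ub k) * (2 : ℝ) ^ (-(c * ((k : ℝ) - j)))) * xT D k Φ := by
  obtain ⟨K1, c, hK1, hc, h1⟩ := FF_le h
  obtain ⟨K3, hK3, h3⟩ := avg_mass
  refine ⟨(1 + K3) * K1, c, by nlinarith, hc, fun D E N k j Φ hΦ hD hj hE hEN => ?_⟩
  have hU := Ub_pos k
  have hUN := Num2Aux.UU_pos N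
  have hp : (0 : ℝ) < (2 : ℝ) ^ (-(c * ((k : ℝ) - j))) := Real.rpow_pos_of_pos two_pos _
  have hUkN : Ub k ≤ UU N := by
    refine Num2Aux.UU_mono (le_trans ?_ (hE.trans hEN))
    exact Nat.pow_le_pow_right (by norm_num) (by omega)
  have h4 : ∀ r : ℕ, min 1 ((r : ℝ≥0∞) / 2 ^ k) * Rec8.sw (Irr r) (fun P =>
      Rec8.sw {Z | Z ∈ BU ∧ P ++ Z ∈ BrR E N ∧ P ++ Z ∈ GiF k j} (fun Z => Φ (P ++ Z))) ≤
      (if 2 ^ k < r then Rec8.sw (Irr r) (fun P => Rec8.sw {M | ∃ m, m < 2 ^ (j + 1) ∧ M ∈ Brd m}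
        (fun M => Φ (P ++ M))) else 0) +
        (ENNReal.ofReal (UU N) * FF k j Φ) * (min 1 ((r : ℝ≥0∞) / 2 ^ k) * kap' r) := by
    intro r
    calc _ ≤ min 1 ((r : ℝ≥0∞) / 2 ^ k) * Rec8.sw (Irr r) (fun P =>
          (if 2 ^ k < r then Rec8.sw {M | ∃ m, m < 2 ^ (j + 1) ∧ M ∈ Brd m} (fun M => Φ (P ++ M)) else 0) +
            ENNReal.ofReal (UU N) * FF k j Φ) :=
          mul_le_mul' le_rfl (Rec8.sw_mono' fun P hP => rest_G hP hΦ)
      _ = min 1 ((r : ℝ≥0∞) / 2 ^ k) * (Rec8.sw (Irr r) (fun P =>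
          (if 2 ^ k < r then Rec8.sw {M | ∃ m, m < 2 ^ (j + 1) ∧ M ∈ Brd m} (fun M => Φ (P ++ M)) else 0))) +
            (ENNReal.ofReal (UU N) * FF k j Φ) * (min 1 ((r : ℝ≥0∞) / 2 ^ k) * kap' r) := by
          rw [Rec8.sw_add, NX_const, mul_add]
          congr 1
          have e1 : gf (Irr r) = kap' r := rfl
          rw [e1]
          ring
      _ ≤ _ := by
          refine add_le_add ?_ le_rfl
          split_ifs with hr
          · calc _ ≤ 1 * Rec8.sw (Irr r) (fun P => Rec8.sw {M | ∃ m, m < 2 ^ (j + 1) ∧ M ∈ Brd m}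
                  (fun M => Φ (P ++ M))) := mul_le_mul' (min_le_left _ _) le_rfl
              _ = _ := one_mul _
          · rw [Rec8.sw_zero, mul_zero]
  refine (ENNReal.tsum_le_tsum h4).trans ?_
  rw [ENNReal.tsum_add, ENNReal.tsum_mul_left]
  have e2 : (∑' r : ℕ, (if 2 ^ k < r then Rec8.sw (Irr r) (fun P => Rec8.sw {M | ∃ m, m < 2 ^ (j + 1) ∧ M ∈ Brd m}
        (fun M => Φ (P ++ M))) else 0)) = FF k j Φ := rfl
  rw [e2]
  calc FF k j Φ + ENNReal.ofReal (UU N) * FF k j Φ * ∑' r : ℕ, min 1 ((r : ℝ≥0∞) / 2 ^ k) * kap' r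
      ≤ FF k j Φ + ENNReal.ofReal (UU N) * FF k j Φ * ENNReal.ofReal (K3 / Ub k) :=
        add_le_add le_rfl (mul_le_mul' le_rfl (h3 k))
    _ = ENNReal.ofReal (1 + UU N * (K3 / Ub k)) * FF k j Φ := by
        rw [ENNReal.ofReal_add (by norm_num) (by positivity), ENNReal.ofReal_one,
          ENNReal.ofReal_mul hUN.le]
        ring
    _ ≤ ENNReal.ofReal ((1 + K3) * (UU N / Ub k)) * (ENNReal.ofReal (K1 * (2 : ℝ) ^ (-(c * ((k : ℝ) - j)))) *
        xT D k Φ) := by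
        refine mul_le_mul' (ENNReal.ofReal_le_ofReal ?_) (h1 D k j Φ hD hj)
        have e3 : 1 ≤ UU N / Ub k := (one_le_div hU).2 hUkN
        have e4 : UU N * (K3 / Ub k) = K3 * (UU N / Ub k) := by ring
        rw [e4]
        linarith
    _ = _ := by
        rw [← mul_assoc, ← ENNReal.ofReal_mul (by positivity)]
        congr 2
        ring

end PW

end HexObs
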