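import Pool.Agent.PW.ArcTrim
import Pool.Agent.TightN.SK1

/-!
PW, part ARC (doc PW/ARC34), module (A): pairs of strands of the same height without a giant next to the fold. The foot of
the first strand is cut off behind the piece over a level of the window j next to the fold; what is left below is a free
bridge of height at least 2^k, so the common height costs only u(2^k).
-/

set_option autoImplicit false

namespace HexObs

namespace PW

open Finset TS SDN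

open scoped ENNReal

variable {C δ : ℝ}

namespace AM

theorem pm_add (j a : ℕ) (Φ Ψ : List Bool → ℝ≥0∞) :
    pm j a (fun P => Φ P + Ψ P) = pm j a Φ + pm j a Ψ := by
  unfold pm
  rw [← ENNReal.tsum_add]
  refine tsum_congr fun r => ?_
  rw [Rec8.sw_add, mul_add]

theorem pm_mul (j a : ℕ) (c : ℝ≥0∞) (Φ : List Bool → ℝ≥0∞) :
    pm j a (fun P => c * Φ P) = c * pm j a Φ := by
  unfold pm
  rw [← ENNReal.tsum_mul_left]
  refine tsum_congr fun r => ?_
  rw [Rec8.sw_mul_left]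
  ring

theorem pm_sum (j a : ℕ) (S : Finset ℕ) (Φ : ℕ → List Bool → ℝ≥0∞) :
    pm j a (fun P => ∑ i ∈ S, Φ i P) = ∑ i ∈ S, pm j a (Φ i) := by
  classical
  induction S using Finset.induction_on with
  | empty =>
    simp only [Finset.sum_empty]
    unfold pm
    simp [Rec8.sw_zero]
  | insert x s hx ih =>
    simp only [Finset.sum_insert hx]
    rw [pm_add, ih]

theorem two_pos' (x : ℝ) : 0 < (2 : ℝ) ^ x := Real.rpow_pos_of_pos (by norm_num) x

theorem Ub_ratio {e k : ℕ} (h : e ≤ k) : Ub k ≤ (2 : ℝ) ^ (k - e) * Ub e := by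
  obtain ⟨n, rfl⟩ := Nat.exists_eq_add_of_le h
  rw [Nat.add_sub_cancel_left]
  clear h
  induction n with
  | zero => simp
  | succ n ih =>
    have h1 := Ub_succ (e + n)
    calc Ub (e + (n + 1)) ≤ 2 * Ub (e + n) := h1
      _ ≤ 2 * ((2 : ℝ) ^ n * Ub e) := by linarith
      _ = (2 : ℝ) ^ (n + 1) * Ub e := by ring

/-- the weight S(b; I) of the window k against the one of the lower window j -/
theorem Sw_split {D k j b : ℕ} (I : List Bool) :
    Sw D k b I ≤ ENNReal.ofReal ((2 : ℝ) ^ (kap0 / 4 * ((k : ℝ) - j))) * Sw D j b I +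
      ∑ a ∈ Icc (j + 1) (k + 1), ENNReal.ofReal ((2 : ℝ) ^ (kap0 / 4 * ((k : ℝ) + 1 - a))) * EE D b a (rev I) := by
  unfold Sw
  rw [mul_add, add_assoc]
  refine add_le_add ?_ ?_
  · rw [← ENNReal.ofReal_mul (two_pos' _).le, ← mul_assoc, ← Real.rpow_add (by norm_num)]
    refine ENNReal.ofReal_le_ofReal (mul_le_mul_of_nonneg_right (le_of_eq ?_) (Ub_pos b).le)
    congr 1
    ring
  · have h1 : Icc b (k + 1) ⊆ Icc b (j + 1) ∪ Icc (j + 1) (k + 1) := by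
      intro a ha
      rw [mem_Icc] at ha
      rw [mem_union, mem_Icc, mem_Icc]
      omega
    have h2 : ∀ F : ℕ → ℝ≥0∞, ∑ a ∈ Icc b (k + 1), F a ≤ ∑ a ∈ Icc b (j + 1), F a + ∑ a ∈ Icc (j + 1) (k + 1), F a := by
      intro F
      refine (Finset.sum_le_sum_of_subset h1).trans ?_
      rw [← Finset.sum_union_inter]
      exact le_self_add
    refine (h2 _).trans (add_le_add ?_ le_rfl)
    rw [Finset.mul_sum]
    refine Finset.sum_le_sum fun a _ => ?_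
    rw [← mul_assoc, ← ENNReal.ofReal_mul (two_pos' _).le, ← Real.rpow_add (by norm_num)]
    refine mul_le_mul_left (ENNReal.ofReal_le_ofReal (le_of_eq ?_)) _
    congr 1
    ring

/-- geometric sum over the blocks below j -/
theorem geo_low (hδ : 0 < δ) : ∃ K : ℝ, 1 ≤ K ∧ ∀ j : ℕ, ∑ b ∈ range (j + 1), (2 : ℝ) ^ (-(δ * ((j - b : ℕ) : ℝ))) ≤ K := by
  obtain ⟨K, hK, h⟩ := geo hδ
  refine ⟨K, hK, fun j => ?_⟩
  have := Finset.sum_range_reflect (fun i : ℕ => (2 : ℝ) ^ (-(δ * (i : ℝ)))) (j + 1)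
  simp only [Nat.add_sub_cancel] at this
  rw [this]
  exact h (j + 1)

/-- one block a over j -/
theorem EE_high (h : Inp C δ) : ∃ K : ℝ, 1 ≤ K ∧ ∀ D a j : ℕ, j ≤ a → 2 ^ (a + 3) ≤ D →
    ∑ b ∈ range (j + 1), pm j b (fun P => EE D b a (rev P)) ≤ ENNReal.ofReal (K * (2 : ℝ) ^ (a - j)) := by
  obtain ⟨K2, hK2, h2⟩ := pm_EE h
  obtain ⟨K3, hK3, h3⟩ := geo_low h.pos
  refine ⟨K2 * (K3 + 2), by nlinarith, fun D a j hja hD => ?_⟩
  have hU := Ub_pos j
  have h4 : Ub a / Ub j ≤ (2 : ℝ) ^ (a - j) := by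
    rw [div_le_iff₀ hU]
    exact Ub_ratio hja
  have h5 : 0 ≤ Ub a / Ub j := div_nonneg (Ub_pos a).le hU.le
  have h6 : ∀ b ∈ range (j + 1), pm j b (fun P => EE D b a (rev P)) ≤
      ENNReal.ofReal (K2 * (Ub a / Ub j * ((2 : ℝ) ^ (-(δ * ((j - b : ℕ) : ℝ))) + if j ≤ b + 1 then 1 else 0))) := by
    intro b hb
    rw [mem_range] at hb
    rw [pm_rev j b (fun I => EE D b a I)]
    refine (h2 D a b j b (by omega) hD).trans (ENNReal.ofReal_le_ofReal
      (mul_le_mul_of_nonneg_left (le_of_eq ?_) (by linarith)))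
    unfold TT
    have e1 : j - a = 0 := by omega
    have e2 : min a j - b = j - b := by omega
    rw [e1, e2]
    split_ifs
    · simp
      ring
    · simp
  refine (Finset.sum_le_sum h6).trans ?_
  have h7 : ∀ b ∈ range (j + 1), 0 ≤ K2 * (Ub a / Ub j * ((2 : ℝ) ^ (-(δ * ((j - b : ℕ) : ℝ))) +
      if j ≤ b + 1 then 1 else 0)) := by
    intro b _
    have := two_pos' (-(δ * ((j - b : ℕ) : ℝ)))
    have : (0 : ℝ) ≤ if j ≤ b + 1 then 1 else 0 := by split_ifs <;> norm_num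
    have : 0 ≤ K2 := by linarith
    positivity
  rw [← ENNReal.ofReal_sum_of_nonneg h7]
  refine ENNReal.ofReal_le_ofReal ?_
  rw [← Finset.mul_sum, ← Finset.mul_sum, Finset.sum_add_distrib, mul_assoc]
  refine mul_le_mul_of_nonneg_left ?_ (by linarith)
  have h8 : (∑ b ∈ range (j + 1), if j ≤ b + 1 then (1 : ℝ) else 0) ≤ 2 := by
    have h9 : ∀ b ∈ range (j + 1), (if j ≤ b + 1 then (1 : ℝ) else 0) ≤ if b ∈ ({j - 1, j} : Finset ℕ) then 1 else 0 := by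
      intro b hb
      rw [mem_range] at hb
      split_ifs with h10 h11 h11
      · exact le_rfl
      · exact absurd (by rw [mem_insert, mem_singleton]; omega) h11
      · norm_num
      · exact le_rfl
    refine (Finset.sum_le_sum h9).trans ?_
    rw [Finset.sum_ite_mem, Finset.sum_const, nsmul_eq_mul, mul_one]
    have h12 : (range (j + 1) ∩ {j - 1, j}).card ≤ 2 :=
      (Finset.card_le_card Finset.inter_subset_right).trans Finset.card_le_two
    exact_mod_cast h12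
  have h13 := add_le_add (h3 j) h8
  have h14 : (0 : ℝ) ≤ ∑ b ∈ range (j + 1), (2 : ℝ) ^ (-(δ * ((j - b : ℕ) : ℝ))) +
      ∑ b ∈ range (j + 1), (if j ≤ b + 1 then (1 : ℝ) else 0) := by
    refine add_nonneg (Finset.sum_nonneg fun b _ => (two_pos' _).le) (Finset.sum_nonneg fun b _ => ?_)
    split_ifs <;> norm_num
  rw [mul_comm (K3 + 2)]
  exact mul_le_mul h4 h13 h14 (by positivity)

/-- the sum over the heights next to the fold, window j ≤ k -/
theorem ends_low (h : Inp C δ) : ∃ K : ℝ, 1 ≤ K ∧ ∀ D k j : ℕ, 2 ^ (k + 4) ≤ D → j ≤ k →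
    ∑ b ∈ range (j + 1), pm j b (fun P => Sw D k b P) ≤ ENNReal.ofReal (K * (2 : ℝ) ^ (k - j)) := by
  obtain ⟨K1, hK1, h1⟩ := n2 h
  obtain ⟨K2, hK2, h2⟩ := EE_high h
  have hκ := kap0_pos
  have hκ1 : kap0 ≤ 1 := le_trans kap0_lt.le (by norm_num)
  obtain ⟨K3, hK3, h3⟩ := geo (c := 1 - kap0 / 4) (by linarith)
  refine ⟨K1 + 2 * K2 * K3, by nlinarith, fun D k j hD hj => ?_⟩
  have e0 : ((k - j : ℕ) : ℝ) = (k : ℝ) - j := by push_cast [hj]; ring
  have hpow : (2 : ℝ) ^ (k - j) = (2 : ℝ) ^ ((k : ℝ) - j) := by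
    rw [← Real.rpow_natCast, e0]
  have hkj : (0 : ℝ) ≤ (k : ℝ) - j := by
    have : (j : ℝ) ≤ k := by exact_mod_cast hj
    linarith
  have s1 : ∑ b ∈ range (j + 1), pm j b (fun P => Sw D k b P) ≤
      ENNReal.ofReal ((2 : ℝ) ^ (kap0 / 4 * ((k : ℝ) - j))) * ∑ b ∈ range (j + 1), pm j b (fun P => Sw D j b P) +
      ∑ a ∈ Icc (j + 1) (k + 1), ENNReal.ofReal ((2 : ℝ) ^ (kap0 / 4 * ((k : ℝ) + 1 - a))) *
        ∑ b ∈ range (j + 1), pm j b (fun P => EE D b a (rev P)) := by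
    have e1 : ∑ a ∈ Icc (j + 1) (k + 1), ENNReal.ofReal ((2 : ℝ) ^ (kap0 / 4 * ((k : ℝ) + 1 - a))) *
        ∑ b ∈ range (j + 1), pm j b (fun P => EE D b a (rev P)) =
        ∑ b ∈ range (j + 1), ∑ a ∈ Icc (j + 1) (k + 1), ENNReal.ofReal ((2 : ℝ) ^ (kap0 / 4 * ((k : ℝ) + 1 - a))) *
          pm j b (fun P => EE D b a (rev P)) := by
      rw [Finset.sum_comm]
      exact Finset.sum_congr rfl fun a _ => Finset.mul_sum _ _ _
    rw [e1, Finset.mul_sum, ← Finset.sum_add_distrib]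
    refine Finset.sum_le_sum fun b hb => ?_
    rw [mem_range] at hb
    refine (pm_mono fun I => Sw_split (D := D) (k := k) (b := b) (j := j) I).trans (le_of_eq ?_)
    rw [pm_add, pm_mul, pm_sum]
    congr 1
    exact Finset.sum_congr rfl fun a _ => pm_mul _ _ _ _
  refine s1.trans ?_
  rw [add_mul, ENNReal.ofReal_add (by positivity) (by positivity)]
  refine add_le_add ?_ ?_
  · refine (mul_le_mul_right (h1 D j ((Nat.pow_le_pow_right (by norm_num) (by omega)).trans hD)) _).trans ?_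
    rw [← ENNReal.ofReal_mul (two_pos' _).le, mul_comm K1, hpow]
    refine ENNReal.ofReal_le_ofReal (mul_le_mul_of_nonneg_right ?_ (by linarith))
    refine Real.rpow_le_rpow_of_exponent_le (by norm_num) ?_
    nlinarith
  · have s2 : ∀ a ∈ Icc (j + 1) (k + 1), ENNReal.ofReal ((2 : ℝ) ^ (kap0 / 4 * ((k : ℝ) + 1 - a))) *
        ∑ b ∈ range (j + 1), pm j b (fun P => EE D b a (rev P)) ≤
        ENNReal.ofReal (2 * K2 * (2 : ℝ) ^ (k - j) * (2 : ℝ) ^ (-((1 - kap0 / 4) * ((k + 1 - a : ℕ) : ℝ)))) := by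
      intro a ha
      rw [mem_Icc] at ha
      refine (mul_le_mul_right (h2 D a j (by omega) ((Nat.pow_le_pow_right (by norm_num) (by omega)).trans hD)) _).trans ?_
      rw [← ENNReal.ofReal_mul (two_pos' _).le]
      refine ENNReal.ofReal_le_ofReal (le_of_eq ?_)
      have e2 : ((a - j : ℕ) : ℝ) = (a : ℝ) - j := by
        have : j ≤ a := by omega
        push_cast [this]
        ring
      have e3 : ((k + 1 - a : ℕ) : ℝ) = (k : ℝ) + 1 - a := by
        push_cast [ha.2]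
        ring
      have e4 : (2 : ℝ) ^ (a - j) = (2 : ℝ) ^ ((a : ℝ) - j) := by
        rw [← Real.rpow_natCast, e2]
      rw [hpow, e3, e4]
      have e5 : (2 : ℝ) * K2 * (2 : ℝ) ^ ((k : ℝ) - j) * (2 : ℝ) ^ (-((1 - kap0 / 4) * ((k : ℝ) + 1 - a))) =
          K2 * ((2 : ℝ) ^ (1 : ℝ) * (2 : ℝ) ^ ((k : ℝ) - j) * (2 : ℝ) ^ (-((1 - kap0 / 4) * ((k : ℝ) + 1 - a)))) := by
        rw [Real.rpow_one]
        ring
      have e6 : (2 : ℝ) ^ (kap0 / 4 * ((k : ℝ) + 1 - a)) * (K2 * (2 : ℝ) ^ ((a : ℝ) - j)) =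
          K2 * ((2 : ℝ) ^ (kap0 / 4 * ((k : ℝ) + 1 - a)) * (2 : ℝ) ^ ((a : ℝ) - j)) := by ring
      rw [e5, e6, ← Real.rpow_add (by norm_num), ← Real.rpow_add (by norm_num), ← Real.rpow_add (by norm_num)]
      congr 2
      ring
    refine (Finset.sum_le_sum s2).trans ?_
    rw [← ENNReal.ofReal_sum_of_nonneg (fun a _ => by
      have := two_pos' (-((1 - kap0 / 4) * ((k + 1 - a : ℕ) : ℝ)))
      positivity), ← Finset.mul_sum]
    refine ENNReal.ofReal_le_ofReal ?_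
    have s3 : ∑ a ∈ Icc (j + 1) (k + 1), (2 : ℝ) ^ (-((1 - kap0 / 4) * ((k + 1 - a : ℕ) : ℝ))) ≤ K3 := by
      refine le_trans ?_ (h3 (k + 2))
      have s4 := Finset.sum_range_reflect (fun i : ℕ => (2 : ℝ) ^ (-((1 - kap0 / 4) * (i : ℝ)))) (k + 2)
      have s5 : ∀ a, k + 2 - 1 - a = k + 1 - a := fun a => by omega
      simp only [s5] at s4
      rw [← s4]
      refine Finset.sum_le_sum_of_subset_of_nonneg ?_ fun a _ _ => (two_pos' _).le
      intro a ha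
      rw [mem_Icc] at ha
      rw [mem_range]
      omega
    have s6 : (0 : ℝ) < (2 : ℝ) ^ (k - j) := by positivity
    calc 2 * K2 * (2 : ℝ) ^ (k - j) * ∑ a ∈ Icc (j + 1) (k + 1), (2 : ℝ) ^ (-((1 - kap0 / 4) * ((k + 1 - a : ℕ) : ℝ)))
        ≤ 2 * K2 * (2 : ℝ) ^ (k - j) * K3 := mul_le_mul_of_nonneg_left s3 (by positivity)
      _ = 2 * K2 * K3 * (2 : ℝ) ^ (k - j) := by ring

/-- the value at 2^k -/
theorem BT_le (k n : ℕ) (hn : 2 ^ k ≤ n) : BT n ≤ ENNReal.ofReal (Ub k / 2 ^ k) := by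
  rw [AT.BT_uu']
  refine ENNReal.ofReal_le_ofReal ((uu_anti hn).trans ?_)
  rw [le_div_iff₀ (by positivity)]
  unfold Ub UU
  have h1 : ∀ t ∈ range (2 ^ k), uu (2 ^ k) ≤ uu t := by
    intro t ht
    rw [mem_range] at ht
    exact uu_anti ht.le
  have h2 := Finset.sum_le_sum h1
  rw [Finset.sum_const, card_range, nsmul_eq_mul] at h2
  push_cast at h2
  have h3 : ∑ t ∈ range (2 ^ k), uu t ≤ ∑ t ∈ range (2 ^ k + 1), uu t := by
    rw [Finset.sum_range_succ]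
    have := (uu_pos (2 ^ k)).le
    linarith
  linarith

/-- one height T -/
theorem one_T {D T k j : ℕ} (hjk : j ≤ k) (hk : 2 ^ (k + 3) ≤ T) (hD : D ≤ T) (S : Set (List Bool)) :
    Rec8.sw {g | g ∈ Brd T ∧ g ∈ (GiF k j)ᶜ}
        (fun g => Rec8.sw {g' | g' ∈ Brd T ∧ g' ∈ S ∧ LFold g g'} (fun _ => 1)) ≤
      ∑' m : ℕ, ∑' r : ℕ, mu j m r * (ENNReal.ofReal (Ub k / 2 ^ k) * Rec8.sw (Irr r) (fun P =>
        Rec8.sw (Brd m) (fun M => Rec8.sw {g' | g' ∈ Brd T ∧ g' ∈ S ∧ RT D LFold (P ++ M) g'} (fun _ => 1)))) := by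
  classical
  have hBr : Brd T = BrR T T := by
    ext t
    constructor
    · intro h
      exact ⟨T, le_rfl, le_rfl, h⟩
    · rintro ⟨h, h1, h2, h3⟩
      rw [show T = h by omega]
      exact h3
  have hp1 : 2 ^ (j + 1) ≤ 2 ^ (k + 1) := Nat.pow_le_pow_right (by norm_num) (by omega)
  have hp2 : 2 ^ (k + 1) = 2 * 2 ^ k := by ring
  have hp3 : 2 ^ (k + 3) = 8 * 2 ^ k := by ring
  obtain ⟨F, hF⟩ : ∃ F : List Bool → ℝ≥0∞, F = fun g => Rec8.sw {g' | g' ∈ Brd T ∧ g' ∈ S ∧ LFold g g'} (fun _ => 1) :=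
    ⟨_, rfl⟩
  obtain ⟨G, hG⟩ : ∃ G : Set (List Bool), G = (GiF k j)ᶜ := ⟨_, rfl⟩
  have h0 : Rec8.sw {g | g ∈ Brd T ∧ g ∈ G} F = Rec8.sw (BrR T T) (fun g => if g ∈ G then F g else 0) := by
    rw [← hBr]
    exact Rec8.sw_and (Brd T) (fun g => g ∈ G) F
  rw [← hF, ← hG, h0]
  refine (endR (D := T) (N := T) (j := j) (by omega) _).trans
    (ENNReal.tsum_le_tsum fun m => ENNReal.tsum_le_tsum fun r => ?_)
  by_cases hm : 2 ^ (j + 1) ≤ m
  · rw [mu_eq_zero hm, zero_mul]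
    exact zero_le
  rw [not_le] at hm
  refine mul_le_mul_right ?_ _
  by_cases hr : 2 ^ k < r
  · refine le_trans (le_of_eq ?_) zero_le
    refine (Rec8.sw_congr ?_).trans (Rec8.sw_zero {Z | ∃ h, h ≤ T ∧ Z ∈ Brd h})
    rintro Z ⟨z, -, hZ⟩
    refine (Rec8.sw_congr fun P hP => ?_).trans (Rec8.sw_zero (Irr r))
    refine (Rec8.sw_congr ?_).trans (Rec8.sw_zero {M | M ∈ Brd m ∧ Z ++ (P ++ M) ∈ BrR T T})
    rintro M ⟨hM, -⟩
    refine if_neg fun h => ?_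
    rw [hG] at h
    exact h ⟨Z, P, M, r, m, rfl, ⟨z, hZ⟩, hP, hr, hM, hm⟩
  · rw [not_lt] at hr
    obtain ⟨c, hc⟩ : ∃ c : ℝ≥0∞, c = Rec8.sw (Irr r) (fun P =>
        Rec8.sw (Brd m) (fun M => Rec8.sw {g' | g' ∈ Brd T ∧ g' ∈ S ∧ RT D LFold (P ++ M) g'} (fun _ => 1))) := ⟨_, rfl⟩
    rw [← hc]
    calc Rec8.sw {Z | ∃ h, h ≤ T ∧ Z ∈ Brd h} (fun Z => Rec8.sw (Irr r) (fun P =>
          Rec8.sw {M | M ∈ Brd m ∧ Z ++ (P ++ M) ∈ BrR T T} (fun M =>
            if Z ++ (P ++ M) ∈ G then F (Z ++ (P ++ M)) else 0)))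
        ≤ Rec8.sw {Z | ∃ h, h ≤ T ∧ Z ∈ Brd h} (fun Z => if Z ∈ Brd (T - m - r) then c else 0) := by
          refine Rec8.sw_mono' ?_
          rintro Z ⟨z, -, hZ⟩
          by_cases hZ2 : Z ∈ Brd (T - m - r)
          · rw [if_pos hZ2, hc]
            refine Rec8.sw_mono' fun P hP => Rec8.sw_mono (fun M hM => hM.1) ?_
            rintro M ⟨hM, h, h2, h3, h4⟩
            split_ifs
            · rw [hF]
              refine Rec8.sw_mono ?_ fun _ _ => le_rfl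
              rintro g' ⟨h5, h6, h7⟩
              exact ⟨h5, h6, Z, ⟨z, hZ⟩, ⟨h, by omega, h4⟩, h7⟩
            · exact zero_le
          · rw [if_neg hZ2]
            refine le_of_eq ?_
            refine (Rec8.sw_congr fun P hP => ?_).trans (Rec8.sw_zero (Irr r))
            refine (Rec8.sw_congr ?_).trans (Rec8.sw_zero {M | M ∈ Brd m ∧ Z ++ (P ++ M) ∈ BrR T T})
            rintro M ⟨hM, h, h2, h3, h4⟩
            have h5 := Brd_height h4 (Brd_append hZ (Brd_append hP.1 hM))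
            exact absurd (by rw [show T - m - r = z by omega]; exact hZ) hZ2
      _ ≤ Rec8.sw (Brd (T - m - r)) (fun _ => c) := by
          rw [← Rec8.sw_and {Z | ∃ h, h ≤ T ∧ Z ∈ Brd h} (fun Z => Z ∈ Brd (T - m - r)) (fun _ => c)]
          exact Rec8.sw_mono (fun Z hZ => hZ.2) fun _ _ => le_rfl
      _ = BT (T - m - r) * c := by
          rw [NX_const, gf_Brd]
      _ ≤ ENNReal.ofReal (Ub k / 2 ^ k) * c := mul_le_mul_left (BT_le k _ (by omega)) _

/-- (A), the general form -/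
theorem main (h : Inp C δ) : ∃ K : ℝ, 1 ≤ K ∧ ∀ (D k j E N : ℕ) (S : Set (List Bool)), j ≤ k → 2 ^ (k + 4) ≤ D → D ≤ E →
    arcs2 E N (GiF k j)ᶜ S ≤ ENNReal.ofReal (K * (Ub k / 2 ^ k) * (2 : ℝ) ^ (k - j)) *
      xT D k (vA D (BrR E N ∩ S) (fun _ => 1)) := by
  classical
  obtain ⟨K, hK, hlow⟩ := ends_low h
  refine ⟨K, hK, fun D k j E N S hjk hD hDE => ?_⟩
  have hp : 2 ^ (k + 3) ≤ 2 ^ (k + 4) := Nat.pow_le_pow_right (by norm_num) (by omega)
  obtain ⟨c, hc⟩ : ∃ c : ℝ≥0∞, c = ENNReal.ofReal (Ub k / 2 ^ k) := ⟨_, rfl⟩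
  obtain ⟨Φ, hΦ⟩ : ∃ Φ : List Bool → ℝ≥0∞, Φ = vA D (BrR E N ∩ S) (fun _ => 1) := ⟨_, rfl⟩
  have h1 : arcs2 E N (GiF k j)ᶜ S = ∑ T ∈ Icc E N, Rec8.sw {g | g ∈ Brd T ∧ g ∈ (GiF k j)ᶜ}
      (fun g => Rec8.sw {g' | g' ∈ Brd T ∧ g' ∈ S ∧ LFold g g'} (fun _ => 1)) := by
    unfold arcs2
    rw [tsum_eq_sum (s := Icc E N)]
    · exact Finset.sum_congr rfl fun T hT => if_pos (mem_Icc.1 hT)
    · intro T hT
      rw [mem_Icc] at hT
      exact if_neg hT
  rw [h1]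
  calc (∑ T ∈ Icc E N, Rec8.sw {g | g ∈ Brd T ∧ g ∈ (GiF k j)ᶜ}
      (fun g => Rec8.sw {g' | g' ∈ Brd T ∧ g' ∈ S ∧ LFold g g'} (fun _ => 1)))
      ≤ ∑ T ∈ Icc E N, ∑' m : ℕ, ∑' r : ℕ, mu j m r * (c * Rec8.sw (Irr r) (fun P =>
        Rec8.sw (Brd m) (fun M => Rec8.sw {g' | g' ∈ Brd T ∧ g' ∈ S ∧ RT D LFold (P ++ M) g'} (fun _ => 1)))) := by
        refine Finset.sum_le_sum fun T hT => ?_
        rw [mem_Icc] at hT
        rw [hc]
        exact one_T hjk (by omega) (by omega) S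
    _ = ∑' m : ℕ, ∑' r : ℕ, mu j m r * (c * Rec8.sw (Irr r) (fun P => Rec8.sw (Brd m) (fun M =>
        ∑ T ∈ Icc E N, Rec8.sw {g' | g' ∈ Brd T ∧ g' ∈ S ∧ RT D LFold (P ++ M) g'} (fun _ => 1)))) := by
        rw [← Summable.tsum_finsetSum (fun _ _ => ENNReal.summable)]
        refine tsum_congr fun m => ?_
        rw [← Summable.tsum_finsetSum (fun _ _ => ENNReal.summable)]
        refine tsum_congr fun r => ?_
        simp only [Rec8.sw_sum]
        rw [Finset.mul_sum, Finset.mul_sum]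
    _ ≤ ∑' m : ℕ, ∑' r : ℕ, mu j m r * (c * Rec8.sw (Irr r) (fun P => Rec8.sw (Brd m) (fun M => Φ (P ++ M)))) := by
        refine ENNReal.tsum_le_tsum fun m => ENNReal.tsum_le_tsum fun r => mul_le_mul_right (mul_le_mul_right
          (Rec8.sw_mono' fun P _ => Rec8.sw_mono' fun M _ => ?_) _) _
        rw [hΦ]
        unfold vA
        refine AT.sum_sw_le ?_ ?_ _
        · rintro T hT g' ⟨h2, h3, h4⟩
          rw [mem_Icc] at hT
          exact ⟨⟨⟨T, hT.1, hT.2, h2⟩, h3⟩, h4⟩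
        · rintro T T' t ⟨h2, -⟩ ⟨h3, -⟩
          exact Brd_height h2 h3
    _ = c * ∑' m : ℕ, ∑' r : ℕ, mu j m r * Rec8.sw (Irr r) (fun P => Rec8.sw (Brd m) (fun M => Φ (P ++ M))) := by
        rw [← ENNReal.tsum_mul_left]
        refine tsum_congr fun m => ?_
        rw [← ENNReal.tsum_mul_left]
        exact tsum_congr fun r => by ring
    _ ≤ c * (xT D k Φ * ENNReal.ofReal (K * (2 : ℝ) ^ (k - j))) :=
        mul_le_mul_right ((endsH_gen (D := D) hjk Φ).trans (mul_le_mul_right (hlow D k j hD hjk) _)) _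
    _ = ENNReal.ofReal (K * (Ub k / 2 ^ k) * (2 : ℝ) ^ (k - j)) * xT D k (vA D (BrR E N ∩ S) (fun _ => 1)) := by
        have hU := Ub_pos k
        have e : ENNReal.ofReal (K * (Ub k / 2 ^ k) * (2 : ℝ) ^ (k - j)) =
            ENNReal.ofReal (Ub k / 2 ^ k) * ENNReal.ofReal (K * (2 : ℝ) ^ (k - j)) := by
          rw [← ENNReal.ofReal_mul (by positivity)]
          congr 1
          ring
        rw [hc, e, ← hΦ, mul_comm (xT D k Φ), mul_assoc]

end AM

/-- **(A)** strands without a giant next to the fold -/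
theorem arcs_main (h : Inp C δ) : ∃ K : ℝ, 1 ≤ K ∧ ∀ (k j E N : ℕ) (S : Set (List Bool)) (ε : ℝ), j ≤ k →
    2 ^ (k + 5) ≤ E → 0 ≤ ε → xT (2 ^ (k + 4)) k (vA (2 ^ (k + 4)) (BrR E N ∩ S) (fun _ => 1)) ≤ ENNReal.ofReal ε →
    arcs2 E N (GiF k j)ᶜ S ≤ ENNReal.ofReal (K * Ub k / 2 ^ k * (2 : ℝ) ^ (k - j) * ε) := by
  obtain ⟨K, hK, hm⟩ := AM.main h
  refine ⟨K, hK, fun k j E N S ε hjk hE hε hx => ?_⟩
  have hU := Ub_pos k
  refine (hm (2 ^ (k + 4)) k j E N S hjk le_rfl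
    ((Nat.pow_le_pow_right (by norm_num) (by omega)).trans hE)).trans ?_
  refine (mul_le_mul_right hx _).trans ?_
  rw [← ENNReal.ofReal_mul (by positivity)]
  exact ENNReal.ofReal_le_ofReal (le_of_eq (by ring))

end PW

end HexObs
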