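import Pool.Agent.PW.Arc
import Pool.Agent.PW.ArcK
import Pool.Agent.PW.ArcMain

/-!
PW, part ARC (doc PW/ARC34): the theorem, unconditional.
-/

set_option autoImplicit false

namespace HexObs

namespace PW

open Finset TS SDN NTW

open scoped ENNReal

theorem arcMain_true : ArcMain := by
  obtain ⟨C0, δ0, hI⟩ := inp_exists
  obtain ⟨K, hK, h⟩ := arcs_main hI
  refine ⟨K, hK, fun k j E N S δ hj hE hδ hS => (h k j E N S δ hj hE hδ hS).trans ?_⟩
  exact ENNReal.ofReal_le_ofReal (le_of_eq (by ring))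

theorem tailG_true : TailG := by
  obtain ⟨C0, δ0, hI⟩ := inp_exists
  exact tailG hI

/-- **Theorem ARC**: pairs of leaves of the same height with a fold between them, both feet on the bottom line, the
second leaf in a class S of small near norm -/
theorem arc : ∃ C c : ℝ, 1 ≤ C ∧ 0 < c ∧ ∀ (k i N : ℕ) (S : Set (List Bool)) (δ : ℝ),
    i ≤ k → 2 ^ (k + 5) ≤ N → 0 ≤ δ →
    xT (2 ^ (k + 4)) k (vA (2 ^ (k + 4)) (BrR (2 ^ (k + 5)) N ∩ S) (fun _ => 1)) ≤ ENNReal.ofReal δ →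
      arcs2 (2 ^ (k + 5)) N Set.univ S ≤
        ENNReal.ofReal (C * (UU N / Ub k) ^ 2 * (Ub k / 2 ^ k) * (2 ^ i * δ + (2 : ℝ) ^ (-(c * (i : ℝ))))) :=
  arc_of arcMain_true dom_lastP tailG_true

end PW

end HexObs
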