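import Pool.Agent.PW.ArcTrim
import Pool.Agent.PW.ArcK
import Pool.Agent.NTW.DmJ
import Pool.Agent.NTW.EventDefs
import Pool.Agent.NTW.KernU
import Pool.Agent.BAR1.KLow

/-!
PW, arcs: pairs of leaves of the same height T with a fold between them, one of them in a class of small norm δ. The weight
is at most K U ^ 2 2 ^ (-k/4) (2 ^ (i/4) δ + 2 ^ (-i/4)) for every i ≤ k (helper59).
-/

set_option autoImplicit false

namespace HexObs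

namespace PW

open Finset TS SDN NTW

open scoped ENNReal

variable {C δ : ℝ}

namespace AFS

/-- the mean inequality with a weight -/
lemma amgm {s s' : ℝ≥0∞} (hs : s * s' = 1) (x y : ℝ≥0∞) : x * y ≤ s * x ^ 2 + s' * y ^ 2 := by
  rcases le_total y (s * x) with h | h
  · refine le_trans ?_ le_self_add
    calc x * y ≤ x * (s * x) := mul_le_mul' le_rfl h
      _ = s * x ^ 2 := by ring
  · refine le_trans ?_ le_add_self
    have h1 : x ≤ s' * y := by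
      calc x = s' * (s * x) := by rw [← mul_assoc, mul_comm s' s, hs, one_mul]
        _ ≤ s' * y := mul_le_mul' le_rfl h
    calc x * y ≤ s' * y * y := mul_le_mul' h1 le_rfl
      _ = s' * y ^ 2 := by ring

lemma key1 {E N W : ℕ} (hW : W ≤ E) {J : Finset ℕ} (hJ : J ⊆ range W) (M : ℕ → ℕ → ℝ≥0∞) {n : ℕ} (hn : n < W) :
    ∑ T ∈ Icc E N, ∑ m ∈ J, M (T - n) (T - m) ≤ ∑ a ∈ Icc (E - W) N, ∑ b ∈ Icc (E - W) N, M a b := by
  classical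
  have e1 : ∑ T ∈ Icc E N, ∑ m ∈ J, M (T - n) (T - m) = ∑ p ∈ Icc E N ×ˢ J, M (p.1 - n) (p.1 - p.2) := by
    rw [Finset.sum_product]
  have e2 : ∑ a ∈ Icc (E - W) N, ∑ b ∈ Icc (E - W) N, M a b =
      ∑ q ∈ Icc (E - W) N ×ˢ Icc (E - W) N, M q.1 q.2 := by rw [Finset.sum_product]
  rw [e1, e2]
  have hinj : Set.InjOn (fun p : ℕ × ℕ => (p.1 - n, p.1 - p.2)) (Icc E N ×ˢ J : Finset (ℕ × ℕ)) := by
    intro p hp q hq hpq
    rw [Finset.mem_coe, mem_product, mem_Icc] at hp hq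
    have h1 := mem_range.1 (hJ hp.2)
    have h2 := mem_range.1 (hJ hq.2)
    simp only [Prod.mk.injEq] at hpq
    exact Prod.ext (by omega) (by omega)
  rw [← Finset.sum_image (f := fun q : ℕ × ℕ => M q.1 q.2) (g := fun p : ℕ × ℕ => (p.1 - n, p.1 - p.2)) hinj]
  refine Finset.sum_le_sum_of_subset ?_
  intro q hq
  rw [mem_image] at hq
  obtain ⟨p, hp, rfl⟩ := hq
  rw [mem_product, mem_Icc] at hp
  have h1 := mem_range.1 (hJ hp.2)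
  rw [mem_product, mem_Icc, mem_Icc]
  simp only
  exact ⟨by omega, by omega⟩

lemma key2 {E N W : ℕ} (hW : W ≤ E) {I : Finset ℕ} (hI : I ⊆ range W) (M : ℕ → ℕ → ℝ≥0∞) {m : ℕ} (hm : m < W) :
    ∑ T ∈ Icc E N, ∑ n ∈ I, M (T - n) (T - m) ≤ ∑ a ∈ Icc (E - W) N, ∑ b ∈ Icc (E - W) N, M a b := by
  have h1 := key1 (N := N) hW hI (fun a b => M b a) hm
  refine h1.trans (le_of_eq ?_)
  exact Finset.sum_comm

/-- the sum over the common height, with a weight -/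
theorem sum_T2 {E N W : ℕ} (hW : W ≤ E) {I J : Finset ℕ} (hI : I ⊆ range W) (hJ : J ⊆ range W) (x : ℕ → ℝ≥0∞)
    (M : ℕ → ℕ → ℝ≥0∞) {s s' : ℝ≥0∞} (hs : s * s' = 1) :
    ∑ T ∈ Icc E N, ∑ n ∈ I, ∑ m ∈ J, x n * x m * M (T - n) (T - m) ≤
      (s * ∑ n ∈ I, x n ^ 2 + s' * ∑ m ∈ J, x m ^ 2) * ∑ a ∈ Icc (E - W) N, ∑ b ∈ Icc (E - W) N, M a b := by
  obtain ⟨R, hR⟩ : ∃ R, R = ∑ a ∈ Icc (E - W) N, ∑ b ∈ Icc (E - W) N, M a b := ⟨_, rfl⟩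
  calc ∑ T ∈ Icc E N, ∑ n ∈ I, ∑ m ∈ J, x n * x m * M (T - n) (T - m)
      ≤ ∑ T ∈ Icc E N, ∑ n ∈ I, ∑ m ∈ J, (s * x n ^ 2 * M (T - n) (T - m) + s' * x m ^ 2 * M (T - n) (T - m)) := by
        refine Finset.sum_le_sum fun T _ => Finset.sum_le_sum fun n _ => Finset.sum_le_sum fun m _ => ?_
        rw [← add_mul]
        exact mul_le_mul' (amgm hs _ _) le_rfl
    _ = (∑ n ∈ I, s * x n ^ 2 * ∑ T ∈ Icc E N, ∑ m ∈ J, M (T - n) (T - m)) +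
        ∑ m ∈ J, s' * x m ^ 2 * ∑ T ∈ Icc E N, ∑ n ∈ I, M (T - n) (T - m) := by
        simp only [Finset.sum_add_distrib]
        congr 1
        · rw [Finset.sum_comm]
          refine Finset.sum_congr rfl fun n _ => ?_
          simp only [Finset.mul_sum]
        · have h3 : ∀ T ∈ Icc E N, ∑ n ∈ I, ∑ m ∈ J, s' * x m ^ 2 * M (T - n) (T - m) =
              ∑ m ∈ J, ∑ n ∈ I, s' * x m ^ 2 * M (T - n) (T - m) := fun T _ => Finset.sum_comm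
          rw [Finset.sum_congr rfl h3, Finset.sum_comm]
          refine Finset.sum_congr rfl fun m _ => ?_
          simp only [Finset.mul_sum]
    _ ≤ (∑ n ∈ I, s * x n ^ 2 * R) + ∑ m ∈ J, s' * x m ^ 2 * R := by
        refine add_le_add (Finset.sum_le_sum fun n hn => mul_le_mul' le_rfl ?_)
          (Finset.sum_le_sum fun m hm => mul_le_mul' le_rfl ?_)
        · rw [hR]
          exact key1 hW hJ M (mem_range.1 (hI hn))
        · rw [hR]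
          exact key2 hW hI M (mem_range.1 (hJ hm))
    _ = _ := by
        rw [← Finset.sum_mul, ← Finset.sum_mul, ← Finset.mul_sum, ← Finset.mul_sum, ← add_mul, hR]

/-- first strand of the height a beginning with its piece P over a level of the window, next strand in B b -/
noncomputable def MG (D k : ℕ) (B : ℕ → Set (List Bool)) (Φ : List Bool → ℝ≥0∞) (a b : ℕ) : ℝ≥0∞ :=
  ∑' r : ℕ, min 1 ((r : ℝ≥0∞) / 2 ^ k) * Rec8.sw (Irr r) (fun P =>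
    Rec8.sw {Z | Z ∈ BU ∧ P ++ Z ∈ Brd a} (fun Z => vA D (B b) Φ (P ++ Z)))

/-- the sum over both heights -/
theorem sum_MG (D k E N : ℕ) {B : ℕ → Set (List Bool)} {B' : Set (List Bool)} (Φ : List Bool → ℝ≥0∞)
    (h1 : ∀ b, E ≤ b → b ≤ N → B b ⊆ B') (h2 : ∀ b, B b ⊆ Brd b) :
    ∑ a ∈ Icc E N, ∑ b ∈ Icc E N, MG D k B Φ a b ≤
      ∑' r : ℕ, min 1 ((r : ℝ≥0∞) / 2 ^ k) * Rec8.sw (Irr r) (fun P =>
        Rec8.sw {Z | Z ∈ BU ∧ P ++ Z ∈ BrR E N} (fun Z => vA D B' Φ (P ++ Z))) := by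
  have h3 : ∀ a, ∑ b ∈ Icc E N, MG D k B Φ a b ≤ ∑' r : ℕ, min 1 ((r : ℝ≥0∞) / 2 ^ k) * Rec8.sw (Irr r) (fun P =>
      Rec8.sw {Z | Z ∈ BU ∧ P ++ Z ∈ Brd a} (fun Z => vA D B' Φ (P ++ Z))) := by
    intro a
    unfold MG
    rw [← Summable.tsum_finsetSum (fun _ _ => ENNReal.summable)]
    refine ENNReal.tsum_le_tsum fun r => ?_
    rw [← Finset.mul_sum, ← Rec8.sw_sum]
    refine mul_le_mul_right (Rec8.sw_mono' fun P _ => ?_) _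
    rw [← Rec8.sw_sum]
    refine Rec8.sw_mono' fun Z _ => ?_
    unfold vA
    refine AT.sum_sw_le ?_ ?_ _
    · rintro b hb g' ⟨h4, h5⟩
      rw [mem_Icc] at hb
      exact ⟨h1 b hb.1 hb.2 h4, h5⟩
    · rintro b b' t ⟨h4, -⟩ ⟨h5, -⟩
      exact Brd_height (h2 b h4) (h2 b' h5)
  refine (Finset.sum_le_sum fun a _ => h3 a).trans ?_
  rw [← Summable.tsum_finsetSum (fun _ _ => ENNReal.summable)]
  refine ENNReal.tsum_le_tsum fun r => ?_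
  rw [← Finset.mul_sum, ← Rec8.sw_sum]
  refine mul_le_mul_right (Rec8.sw_mono' fun P _ => ?_) _
  refine AT.sum_sw_le ?_ ?_ _
  · rintro a ha Z ⟨h4, h5⟩
    rw [mem_Icc] at ha
    exact ⟨h4, ⟨a, ha.1, ha.2, h5⟩⟩
  · rintro a a' Z ⟨-, h4⟩ ⟨-, h5⟩
    exact Brd_height h4 h5

/-- high feet -/
lemma BT_high : ∃ C : ℝ, 1 ≤ C ∧ ∀ j m : ℕ, 2 ^ j ≤ m → BT m ≤ ENNReal.ofReal (C * (2 : ℝ) ^ (-((j : ℝ) / 4))) := by
  obtain ⟨C, hC, hu⟩ := T2.uu_le_quarter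
  refine ⟨C + 1, by linarith, fun j m hm => ?_⟩
  rw [AT.BT_uu']
  refine ENNReal.ofReal_le_ofReal ?_
  have h1 : 1 ≤ m := Nat.one_le_two_pow.trans hm
  have h2 := hu m h1
  have h3 : (m : ℝ) ^ (-(1 / 4 : ℝ)) ≤ (2 : ℝ) ^ (-((j : ℝ) / 4)) := by
    have h4 : ((2 : ℝ) ^ (j : ℝ)) ≤ m := by
      rw [Real.rpow_natCast]
      exact_mod_cast hm
    calc (m : ℝ) ^ (-(1 / 4 : ℝ)) ≤ ((2 : ℝ) ^ (j : ℝ)) ^ (-(1 / 4 : ℝ)) :=
          Real.rpow_le_rpow_of_nonpos (Real.rpow_pos_of_pos two_pos _) h4 (by norm_num)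
      _ = (2 : ℝ) ^ (-((j : ℝ) / 4)) := by
          rw [← Real.rpow_mul (by norm_num)]
          congr 1
          ring
  have h5 : (0 : ℝ) < (2 : ℝ) ^ (-((j : ℝ) / 4)) := Real.rpow_pos_of_pos two_pos _
  calc uu m ≤ C * (m : ℝ) ^ (-(1 / 4 : ℝ)) := h2
    _ ≤ C * (2 : ℝ) ^ (-((j : ℝ) / 4)) := mul_le_mul_of_nonneg_left h3 hC.le
    _ ≤ _ := mul_le_mul_of_nonneg_right (by linarith) h5.le

/-- the number of the window -/
lemma Ub_inv : ∃ C : ℝ, 1 ≤ C ∧ ∀ k : ℕ, 1 / Ub k ≤ C * (2 : ℝ) ^ (-(3 / 4 * (k : ℝ))) := by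
  obtain ⟨C, hC, h⟩ := BAR.UU_low
  refine ⟨C, hC, fun k => ?_⟩
  have h1 := h (2 ^ k)
  have hU := Ub_pos k
  have h2 : (2 : ℝ) ^ (3 / 4 * (k : ℝ)) ≤ C * Ub k := by
    refine le_trans ?_ h1
    have h3 : (2 : ℝ) ^ (3 / 4 * (k : ℝ)) = ((2 : ℝ) ^ (k : ℝ)) ^ (3 / 4 : ℝ) := by
      rw [← Real.rpow_mul (by norm_num)]
      congr 1
      ring
    rw [h3]
    refine Real.rpow_le_rpow (by positivity) ?_ (by norm_num)
    rw [Real.rpow_natCast]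
    push_cast
    linarith
  have h4 : (0 : ℝ) < (2 : ℝ) ^ (3 / 4 * (k : ℝ)) := Real.rpow_pos_of_pos two_pos _
  rw [Real.rpow_neg (by norm_num), div_le_iff₀ hU, mul_assoc, mul_comm _ (Ub k), ← mul_assoc, ← div_eq_mul_inv,
    le_div_iff₀ h4, one_mul]
  exact h2

lemma two_pow_facts (k : ℕ) : 2 ^ (k + 5) = 16 * 2 ^ (k + 1) ∧ 2 ^ (k + 4) = 8 * 2 ^ (k + 1) ∧
    2 ^ (k + 2) = 2 * 2 ^ (k + 1) ∧ 1 ≤ 2 ^ (k + 1) := by
  refine ⟨by ring, by ring, by ring, Nat.one_le_two_pow⟩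

/-- two trimmed feet, one of them low -/
lemma feet (h : Inp C δ) (hA : SsA) (h3 : Ss3) : ∃ K : ℝ, 1 ≤ K ∧ ∀ (k i N : ℕ) (I J : Finset ℕ), i ≤ k →
    2 ^ (k + 5) ≤ N → I ⊆ range (2 ^ (k + 1)) → J ⊆ range (2 ^ (k + 1)) →
    (I = range (2 ^ (k - i)) ∨ J = range (2 ^ (k - i))) →
    ∑ T ∈ Icc (2 ^ (k + 5)) N, ∑ n ∈ I, ∑ m ∈ J, BT n * BT m * MG (2 ^ (k + 4)) k Brd (lastP k) (T - n) (T - m) ≤
      ENNReal.ofReal (K * (UU N / Ub k) ^ 2 * (2 : ℝ) ^ (-((k : ℝ) / 4)) * (2 : ℝ) ^ (-((i : ℝ) / 4))) := by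
  obtain ⟨C1, hC1, hsq⟩ := AT.sum_sq
  obtain ⟨K1, hK1, h1⟩ := nearP h hA h3
  obtain ⟨K2, hK2, h2⟩ := tailW h
  obtain ⟨C3, hC3, hUi⟩ := Ub_inv
  refine ⟨2 * C1 * (K2 * K1) * C3, ?_, fun k i N I J hik hN hI hJ hIJ => ?_⟩
  · have a1 : 1 ≤ K2 * K1 := one_le_mul_of_one_le_of_one_le hK2 hK1
    have a2 : 1 ≤ C1 * (K2 * K1) := one_le_mul_of_one_le_of_one_le hC1 a1
    have a3 : 1 ≤ C1 * (K2 * K1) * C3 := one_le_mul_of_one_le_of_one_le a2 hC3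
    linarith
  obtain ⟨p5, p4, p2, p1⟩ := two_pow_facts k
  have hU := Ub_pos k
  have hUN := Num2Aux.UU_pos N
  have hUi' := hUi k
  -- the squares
  have q1 : ∀ I0 : Finset ℕ, I0 ⊆ range (2 ^ (k + 1)) → ∑ n ∈ I0, BT n ^ 2 ≤ ENNReal.ofReal (C1 * (2 : ℝ) ^ ((k : ℝ) / 2)) :=
    fun I0 h0 => (Finset.sum_le_sum_of_subset h0).trans (hsq k)
  have q2 : ∑ n ∈ range (2 ^ (k - i)), BT n ^ 2 ≤ ENNReal.ofReal (C1 * (2 : ℝ) ^ (((k : ℝ) - i) / 2)) := by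
    have h0 := hsq (k - i)
    rw [Nat.cast_sub hik] at h0
    refine le_trans (Finset.sum_le_sum_of_subset ?_) h0
    intro n hn
    rw [mem_range] at hn ⊢
    exact hn.trans_le (Nat.pow_le_pow_right (by norm_num) (by omega))
  obtain ⟨s, hs⟩ : ∃ s, s = ENNReal.ofReal ((2 : ℝ) ^ (-((i : ℝ) / 4))) := ⟨_, rfl⟩
  obtain ⟨s', hs'⟩ : ∃ s', s' = ENNReal.ofReal ((2 : ℝ) ^ ((i : ℝ) / 4)) := ⟨_, rfl⟩
  have hss : s * s' = 1 := by
    rw [hs, hs', ← ENNReal.ofReal_mul (by positivity), ← Real.rpow_add (by norm_num)]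
    simp
  have r1 : s * ENNReal.ofReal (C1 * (2 : ℝ) ^ ((k : ℝ) / 2)) =
      ENNReal.ofReal (C1 * (2 : ℝ) ^ ((k : ℝ) / 2 - (i : ℝ) / 4)) := by
    rw [hs, ← ENNReal.ofReal_mul (by positivity)]
    congr 1
    rw [mul_comm, mul_assoc, ← Real.rpow_add (by norm_num)]
    rfl
  have r2 : s' * ENNReal.ofReal (C1 * (2 : ℝ) ^ (((k : ℝ) - i) / 2)) =
      ENNReal.ofReal (C1 * (2 : ℝ) ^ ((k : ℝ) / 2 - (i : ℝ) / 4)) := by
    rw [hs', ← ENNReal.ofReal_mul (by positivity)]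
    congr 1
    rw [mul_comm, mul_assoc, ← Real.rpow_add (by norm_num)]
    congr 2
    ring
  have q3 : ∑ T ∈ Icc (2 ^ (k + 5)) N, ∑ n ∈ I, ∑ m ∈ J, BT n * BT m *
      MG (2 ^ (k + 4)) k Brd (lastP k) (T - n) (T - m) ≤
      ENNReal.ofReal (2 * C1 * (2 : ℝ) ^ ((k : ℝ) / 2 - (i : ℝ) / 4)) *
        ∑ a ∈ Icc (2 ^ (k + 5) - 2 ^ (k + 1)) N, ∑ b ∈ Icc (2 ^ (k + 5) - 2 ^ (k + 1)) N,
          MG (2 ^ (k + 4)) k Brd (lastP k) a b := by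
    have e0 : ENNReal.ofReal (2 * C1 * (2 : ℝ) ^ ((k : ℝ) / 2 - (i : ℝ) / 4)) =
        ENNReal.ofReal (C1 * (2 : ℝ) ^ ((k : ℝ) / 2 - (i : ℝ) / 4)) +
          ENNReal.ofReal (C1 * (2 : ℝ) ^ ((k : ℝ) / 2 - (i : ℝ) / 4)) := by
      rw [← ENNReal.ofReal_add (by positivity) (by positivity)]
      congr 1
      ring
    rw [e0]
    rcases hIJ with hI' | hJ'
    · refine (sum_T2 (by omega) hI hJ BT _ (s := s') (s' := s) (by rw [mul_comm]; exact hss)).trans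
        (mul_le_mul' (add_le_add ?_ ?_) le_rfl)
      · rw [← r2, hI']
        exact mul_le_mul' le_rfl q2
      · rw [← r1]
        exact mul_le_mul' le_rfl (q1 J hJ)
    · refine (sum_T2 (by omega) hI hJ BT _ hss).trans (mul_le_mul' (add_le_add ?_ ?_) le_rfl)
      · rw [← r1]
        exact mul_le_mul' le_rfl (q1 I hI)
      · rw [← r2, hJ']
        exact mul_le_mul' le_rfl q2
  refine q3.trans ?_
  have q4 := sum_MG (2 ^ (k + 4)) k (2 ^ (k + 5) - 2 ^ (k + 1)) N (B := Brd)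
    (B' := BrR (2 ^ (k + 5) - 2 ^ (k + 1)) N) (lastP k) (fun b hb hb' t ht => ⟨b, hb, hb', ht⟩) (fun b => le_rfl)
  have q5 := h2 (2 ^ (k + 4)) (2 ^ (k + 5) - 2 ^ (k + 1)) N k k
    (vA (2 ^ (k + 4)) (BrR (2 ^ (k + 5) - 2 ^ (k + 1)) N) (lastP k)) (CN.hered_vA _ _ _) le_rfl le_rfl (by omega) (by omega)
  have q6 := h1 (2 ^ (k + 5) - 2 ^ (k + 1)) N k (by omega) (by omega)
  refine (mul_le_mul' le_rfl (q4.trans (q5.trans (mul_le_mul' le_rfl q6)))).trans ?_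
  rw [← ENNReal.ofReal_mul (by positivity), ← ENNReal.ofReal_mul (by positivity)]
  refine ENNReal.ofReal_le_ofReal ?_
  have e2 : (2 : ℝ) ^ ((k : ℝ) / 2 - (i : ℝ) / 4) * (2 : ℝ) ^ (-(3 / 4 * (k : ℝ))) =
      (2 : ℝ) ^ (-((k : ℝ) / 4)) * (2 : ℝ) ^ (-((i : ℝ) / 4)) := by
    rw [← Real.rpow_add (by norm_num), ← Real.rpow_add (by norm_num)]
    congr 1
    ring
  have e3 : (0 : ℝ) < (2 : ℝ) ^ ((k : ℝ) / 2 - (i : ℝ) / 4) := Real.rpow_pos_of_pos two_pos _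
  calc 2 * C1 * (2 : ℝ) ^ ((k : ℝ) / 2 - (i : ℝ) / 4) * (K2 * (UU N / Ub k) * (K1 * (UU N / Ub k) * (1 / Ub k)))
      = (2 * C1 * (K2 * K1) * (UU N / Ub k) ^ 2 * (2 : ℝ) ^ ((k : ℝ) / 2 - (i : ℝ) / 4)) * (1 / Ub k) := by ring
    _ ≤ (2 * C1 * (K2 * K1) * (UU N / Ub k) ^ 2 * (2 : ℝ) ^ ((k : ℝ) / 2 - (i : ℝ) / 4)) *
        (C3 * (2 : ℝ) ^ (-(3 / 4 * (k : ℝ)))) := mul_le_mul_of_nonneg_left hUi' (by positivity)
    _ = 2 * C1 * (K2 * K1) * C3 * (UU N / Ub k) ^ 2 *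
        ((2 : ℝ) ^ ((k : ℝ) / 2 - (i : ℝ) / 4) * (2 : ℝ) ^ (-(3 / 4 * (k : ℝ)))) := by ring
    _ = _ := by
        rw [e2]
        ring

lemma RT_of {D T : ℕ} (hD : D ≤ T) {g g' : List Bool} (hg : g ∈ Brd T) (h : LFold g g') : RT D LFold g g' :=
  ⟨[], ⟨0, nil_mem_Brd⟩, ⟨T, hD, hg⟩, h⟩

lemma RT_pref (D : ℕ) (t : List Bool) : ∀ a b, RT D LFold t (a ++ b) → RT D LFold t a := by
  rintro a b ⟨Z, h1, h2, h3⟩
  exact ⟨Z, h1, h2, PrefC_Hang _ _ a b h3⟩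

/-- the end of the next strand is trimmed -/
lemma vA_trim (D k T : ℕ) (hk : 2 ^ (k + 1) ≤ T) (t : List Bool) : vA D (Brd T) (fun _ => 1) t ≤
    ∑ m ∈ range (2 ^ (k + 1)), BT m * vA D (Brd (T - m)) (lastP k) t := by
  unfold vA
  refine (AT.end_trim hk (RT_pref D t)).trans (Finset.sum_le_sum fun m _ => mul_le_mul' le_rfl
    (Rec8.sw_mono ?_ fun _ _ => le_rfl))
  rintro g' ⟨-, h2, h3⟩
  exact ⟨h2, h3⟩

lemma vA_mono {D : ℕ} {B B' : Set (List Bool)} (hB : B ⊆ B') (Φ : List Bool → ℝ≥0∞) (t : List Bool) :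
    vA D B Φ t ≤ vA D B' Φ t :=
  Rec8.sw_mono (fun _ hg => ⟨hB hg.1, hg.2⟩) fun _ _ => le_rfl

lemma dm_one (k : ℕ) : DmJ k 2 (fun _ => 1) :=
  (DmJ_dm k (fun _ => 1) ⟨fun _ _ _ => le_rfl, fun _ _ _ _ => le_rfl⟩).mono (Ch.xT_one _ _)

end AFS

open AFS in
/-- **arcs, the first strand in a class of small norm** -/
theorem arc_first (h : Inp C δ) (hA : SsA) (h3 : Ss3) : ∃ K : ℝ, 1 ≤ K ∧ ∀ (k i N : ℕ) (S : Set (List Bool)) (e : ℝ),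
    i ≤ k → 2 ^ (k + 5) ≤ N → 0 ≤ e → SmD DmJ k S e →
    ∑ T ∈ Icc (2 ^ (k + 5)) N, Rec8.sw {g | g ∈ Brd T ∧ g ∈ S} (fun g => Rec8.sw {g' | g' ∈ Brd T ∧ LFold g g'} (fun _ => 1)) ≤
      ENNReal.ofReal (K * (UU N / Ub k) ^ 2 * (2 : ℝ) ^ (-((k : ℝ) / 4)) *
        ((2 : ℝ) ^ ((i : ℝ) / 4) * e + (2 : ℝ) ^ (-((i : ℝ) / 4)))) := by
  classical
  obtain ⟨K1, hK1, h1⟩ := nearP h hA h3
  obtain ⟨K4, hK4, h4⟩ := feet h hA h3
  obtain ⟨C5, hC5, h5⟩ := BT_high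
  refine ⟨C5 * (2 * K1) + K4, by nlinarith, fun k i N S e hik hN he hS => ?_⟩
  obtain ⟨p5, p4, p2, p1⟩ := two_pow_facts k
  have hU := Ub_pos k
  have hUN := Num2Aux.UU_pos N
  have hUkN : Ub k ≤ UU N := by
    refine Num2Aux.UU_mono (le_trans ?_ hN)
    exact Nat.pow_le_pow_right (by norm_num) (by omega)
  have hratio : 1 ≤ UU N / Ub k := (one_le_div hU).2 hUkN
  have hji : 2 ^ (k - i) ≤ 2 ^ (k + 1) := Nat.pow_le_pow_right (by norm_num) (by omega)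
  obtain ⟨D, hD⟩ : ∃ D, D = 2 ^ (k + 4) := ⟨_, rfl⟩
  obtain ⟨W, hW⟩ : ∃ W, W = 2 ^ (k + 1) := ⟨_, rfl⟩
  obtain ⟨E, hE⟩ : ∃ E, E = 2 ^ (k + 5) := ⟨_, rfl⟩
  obtain ⟨j, hj⟩ : ∃ j, j = k - i := ⟨_, rfl⟩
  -- one height
  have s1 : ∀ T ∈ Icc E N, Rec8.sw {g | g ∈ Brd T ∧ g ∈ S} (fun g => Rec8.sw {g' | g' ∈ Brd T ∧ LFold g g'} (fun _ => 1)) ≤
      Rec8.sw {g | g ∈ Brd T ∧ g ∈ S} (fun g => ∑ m ∈ range (2 ^ j), BT m * vA D (Brd (T - m)) (lastP k) g) +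
        ENNReal.ofReal (C5 * (2 : ℝ) ^ (-((j : ℝ) / 4))) *
          Rec8.sw {g | g ∈ Brd T ∧ g ∈ S} (vA D (BrR (E - W) N) (lastP k)) := by
    intro T hT
    rw [mem_Icc] at hT
    rw [← Rec8.sw_mul_left, ← Rec8.sw_add]
    refine Rec8.sw_mono' fun g hg => ?_
    have a1 : Rec8.sw {g' | g' ∈ Brd T ∧ LFold g g'} (fun _ => 1) ≤ vA D (Brd T) (fun _ => 1) g :=
      Rec8.sw_mono (fun g' hg' => ⟨hg'.1, RT_of (by omega) hg.1 hg'.2⟩) fun _ _ => le_rfl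
    refine a1.trans ((vA_trim D k T (by omega) g).trans ?_)
    rw [← Finset.sum_range_add_sum_Ico _ (show 2 ^ j ≤ 2 ^ (k + 1) by rw [hj]; exact hji)]
    refine add_le_add le_rfl ?_
    calc ∑ m ∈ Ico (2 ^ j) (2 ^ (k + 1)), BT m * vA D (Brd (T - m)) (lastP k) g
        ≤ ∑ m ∈ Ico (2 ^ j) (2 ^ (k + 1)), ENNReal.ofReal (C5 * (2 : ℝ) ^ (-((j : ℝ) / 4))) *
            vA D (Brd (T - m)) (lastP k) g :=
          Finset.sum_le_sum fun m hm => mul_le_mul' (h5 j m (mem_Ico.1 hm).1) le_rfl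
      _ = ENNReal.ofReal (C5 * (2 : ℝ) ^ (-((j : ℝ) / 4))) *
            ∑ m ∈ Ico (2 ^ j) (2 ^ (k + 1)), vA D (Brd (T - m)) (lastP k) g := by rw [Finset.mul_sum]
      _ ≤ _ := by
          refine mul_le_mul' le_rfl ?_
          unfold vA
          calc ∑ m ∈ Ico (2 ^ j) (2 ^ (k + 1)), Rec8.sw {g' | g' ∈ Brd (T - m) ∧ RT D LFold g g'} (lastP k)
              ≤ ∑ m ∈ Ico (2 ^ j) (2 ^ (k + 1)), Rec8.sw {g' | m ≤ T ∧ g' ∈ Brd (T - m) ∧ RT D LFold g g'} (lastP k) := by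
                refine Finset.sum_le_sum fun m hm => Rec8.sw_mono (fun g' hg' => ⟨?_, hg'⟩) fun _ _ => le_rfl
                rw [mem_Ico] at hm
                omega
            _ ≤ _ := by
                refine AT.sum_sw_le ?_ ?_ _
                · rintro m hm g' ⟨b0, b1, b2⟩
                  rw [mem_Ico] at hm
                  exact ⟨⟨T - m, by omega, by omega, b1⟩, b2⟩
                · rintro m m' g' ⟨b0, b1, -⟩ ⟨b0', b2, -⟩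
                  have := Brd_height b1 b2
                  omega
  -- the part with the class
  have s2 : ∑ T ∈ Icc E N, Rec8.sw {g | g ∈ Brd T ∧ g ∈ S} (vA D (BrR (E - W) N) (lastP k)) ≤
      ENNReal.ofReal (2 * K1 * (UU N / Ub k) * e) := by
    have a1 : ∑ T ∈ Icc E N, Rec8.sw {g | g ∈ Brd T ∧ g ∈ S} (vA D (BrR (E - W) N) (lastP k)) ≤
        Rec8.sw S (vA D (BrR (E - W) N) (lastP k)) := by
      refine AT.sum_sw_le (fun T _ g hg => hg.2) ?_ _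
      rintro T T' g ⟨b1, -⟩ ⟨b2, -⟩
      exact Brd_height b1 b2
    have a2 : DmJ k (xT (2 ^ (k + 4)) k (vA D (BrR (E - W) N) (lastP k))) (vA D (BrR (E - W) N) (lastP k)) :=
      DmJ_dm k _ (by rw [hD]; exact NTm.herD_vA Nat.one_le_two_pow _ _)
    have a3 := hS.free 2 _ (fun _ => 1) _ (dm_one k) (fun _ _ _ _ _ => le_rfl) a2
    simp only [one_mul] at a3
    have a4 := h1 (E - W) N k (by omega) (by omega)
    rw [← hD] at a4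
    rw [← hD] at a3
    refine a1.trans (a3.trans ((mul_le_mul' le_rfl (mul_le_mul' le_rfl a4)).trans (le_of_eq ?_)))
    have e2 : (2 : ℝ≥0∞) = ENNReal.ofReal 2 := by norm_num
    rw [e2, ← ENNReal.ofReal_mul (by norm_num), ← ENNReal.ofReal_mul (by positivity)]
    congr 1
    field_simp
  -- the part without the class
  have s3 : ∑ T ∈ Icc E N, Rec8.sw {g | g ∈ Brd T ∧ g ∈ S} (fun g => ∑ m ∈ range (2 ^ j), BT m *
      vA D (Brd (T - m)) (lastP k) g) ≤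
      ∑ T ∈ Icc E N, ∑ n ∈ range (2 ^ (k + 1)), ∑ m ∈ range (2 ^ j), BT n * BT m *
        MG D k Brd (lastP k) (T - n) (T - m) := by
    refine Finset.sum_le_sum fun T hT => ?_
    rw [mem_Icc] at hT
    have a1 : Rec8.sw {g | g ∈ Brd T ∧ g ∈ S} (fun g => ∑ m ∈ range (2 ^ j), BT m *
        vA D (Brd (T - m)) (lastP k) g) ≤ Rec8.sw {g | g ∈ Brd T ∧ g ∈ Set.univ} (fun g => ∑ m ∈ range (2 ^ j), BT m *
        vA D (Brd (T - m)) (lastP k) g) :=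
      Rec8.sw_mono (fun g hg => ⟨hg.1, Set.mem_univ _⟩) fun _ _ => le_rfl
    refine a1.trans ((AT.start_trim (k := k) (G' := Set.univ)
      (F' := fun t => ∑ m ∈ range (2 ^ j), BT m * vA D (Brd (T - m)) (lastP k) t) (by omega)
      (fun _ _ _ _ _ _ _ => Set.mem_univ _) ?_).trans (Finset.sum_le_sum fun n _ => ?_))
    · intro n X g _ hX _
      exact Finset.sum_le_sum fun m _ => mul_le_mul' le_rfl (CN.hered_vA _ _ _ X ⟨n, hX⟩ g)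
    · rw [AT.dist_sum, Finset.mul_sum]
      refine Finset.sum_le_sum fun m _ => ?_
      rw [mul_assoc]
      refine mul_le_mul' le_rfl (mul_le_mul' le_rfl ?_)
      unfold MG
      exact ENNReal.tsum_le_tsum fun r => mul_le_mul' le_rfl (Rec8.sw_mono' fun P _ =>
        Rec8.sw_mono (fun Z hZ => ⟨hZ.1, hZ.2.1⟩) fun _ _ => le_rfl)
  have s4 := h4 k i N (range (2 ^ (k + 1))) (range (2 ^ j)) hik hN le_rfl
    (by rw [hj]; exact Finset.range_mono hji) (Or.inr (by rw [hj]))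
  rw [← hD, ← hE] at s4
  rw [← hE]
  refine (Finset.sum_le_sum s1).trans ?_
  rw [Finset.sum_add_distrib, ← Finset.mul_sum]
  refine (add_le_add (s3.trans s4) (mul_le_mul' le_rfl s2)).trans ?_
  rw [← ENNReal.ofReal_mul (by positivity), ← ENNReal.ofReal_add (by positivity) (by positivity)]
  refine ENNReal.ofReal_le_ofReal ?_
  have e3 : (2 : ℝ) ^ (-((j : ℝ) / 4)) = (2 : ℝ) ^ (-((k : ℝ) / 4)) * (2 : ℝ) ^ ((i : ℝ) / 4) := by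
    rw [hj, Nat.cast_sub hik, ← Real.rpow_add (by norm_num)]
    congr 1
    ring
  rw [e3]
  obtain ⟨u, hu⟩ : ∃ u, u = UU N / Ub k := ⟨_, rfl⟩
  obtain ⟨a, ha⟩ : ∃ a, a = (2 : ℝ) ^ (-((k : ℝ) / 4)) := ⟨_, rfl⟩
  obtain ⟨b, hb⟩ : ∃ b, b = (2 : ℝ) ^ ((i : ℝ) / 4) := ⟨_, rfl⟩
  obtain ⟨c, hc⟩ : ∃ c, c = (2 : ℝ) ^ (-((i : ℝ) / 4)) := ⟨_, rfl⟩
  have ha0 : 0 < a := by rw [ha]; positivity
  have hb0 : 0 < b := by rw [hb]; positivity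
  have hc0 : 0 < c := by rw [hc]; positivity
  rw [← hu, ← ha, ← hb, ← hc]
  rw [← hu] at hratio
  have e4 : u ≤ u ^ 2 := by nlinarith
  calc K4 * u ^ 2 * a * c + C5 * (a * b) * (2 * K1 * u * e)
      = K4 * u ^ 2 * a * c + (C5 * (2 * K1) * a * b * e) * u := by ring
    _ ≤ K4 * u ^ 2 * a * c + (C5 * (2 * K1) * a * b * e) * u ^ 2 :=
        add_le_add le_rfl (mul_le_mul_of_nonneg_left e4 (by positivity))
    _ ≤ K4 * u ^ 2 * a * c + (C5 * (2 * K1) * a * b * e) * u ^ 2 +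
        (K4 * u ^ 2 * a * (b * e) + C5 * (2 * K1) * u ^ 2 * a * c) := le_add_of_nonneg_right (by positivity)
    _ = _ := by ring

open AFS in
/-- **arcs, the second strand in a class of small norm** -/
theorem arc_second (h : Inp C δ) (hA : SsA) (h3 : Ss3) : ∃ K : ℝ, 1 ≤ K ∧ ∀ (k i N : ℕ) (S : Set (List Bool)) (e : ℝ),
    i ≤ k → 2 ^ (k + 5) ≤ N → 0 ≤ e → SmD DmJ k S e →
    ∑ T ∈ Icc (2 ^ (k + 5)) N, Rec8.sw (Brd T) (fun g => Rec8.sw {g' | g' ∈ Brd T ∧ g' ∈ S ∧ LFold g g'} (fun _ => 1)) ≤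
      ENNReal.ofReal (K * (UU N / Ub k) ^ 2 * (2 : ℝ) ^ (-((k : ℝ) / 4)) *
        ((2 : ℝ) ^ ((i : ℝ) / 4) * e + (2 : ℝ) ^ (-((i : ℝ) / 4)))) := by
  classical
  obtain ⟨K2, hK2, h2⟩ := tailW h
  obtain ⟨K4, hK4, h4⟩ := feet h hA h3
  obtain ⟨C5, hC5, h5⟩ := BT_high
  refine ⟨C5 * (2 * K2) + K4, by nlinarith, fun k i N S e hik hN he hS => ?_⟩
  obtain ⟨p5, p4, p2, p1⟩ := two_pow_facts k
  have hU := Ub_pos k
  have hUN := Num2Aux.UU_pos N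
  have hUkN : Ub k ≤ UU N := by
    refine Num2Aux.UU_mono (le_trans ?_ hN)
    exact Nat.pow_le_pow_right (by norm_num) (by omega)
  have hratio : 1 ≤ UU N / Ub k := (one_le_div hU).2 hUkN
  have hji : 2 ^ (k - i) ≤ 2 ^ (k + 1) := Nat.pow_le_pow_right (by norm_num) (by omega)
  obtain ⟨D, hD⟩ : ∃ D, D = 2 ^ (k + 4) := ⟨_, rfl⟩
  obtain ⟨W, hW⟩ : ∃ W, W = 2 ^ (k + 1) := ⟨_, rfl⟩
  obtain ⟨E, hE⟩ : ∃ E, E = 2 ^ (k + 5) := ⟨_, rfl⟩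
  obtain ⟨j, hj⟩ : ∃ j, j = k - i := ⟨_, rfl⟩
  obtain ⟨B, hB⟩ : ∃ B : ℕ → Set (List Bool), B = fun T => {g | g ∈ Brd T ∧ g ∈ S} := ⟨_, rfl⟩
  have hW' : W ≤ E := by omega
  -- one height
  have s1 : ∀ T ∈ Icc E N, Rec8.sw (Brd T) (fun g => Rec8.sw {g' | g' ∈ Brd T ∧ g' ∈ S ∧ LFold g g'} (fun _ => 1)) ≤
      (∑ n ∈ range (2 ^ j), ∑ m ∈ range (2 ^ (k + 1)), BT n * BT m * MG D k Brd (lastP k) (T - n) (T - m)) +
        ENNReal.ofReal (C5 * (2 : ℝ) ^ (-((j : ℝ) / 4))) *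
          ∑ n ∈ Ico (2 ^ j) (2 ^ (k + 1)), MG D k B (fun _ => 1) (T - n) (T - 0) := by
    intro T hT
    rw [mem_Icc] at hT
    have a1 : Rec8.sw (Brd T) (fun g => Rec8.sw {g' | g' ∈ Brd T ∧ g' ∈ S ∧ LFold g g'} (fun _ => 1)) ≤
        Rec8.sw {g | g ∈ Brd T ∧ g ∈ Set.univ} (vA D (B T) (fun _ => 1)) := by
      refine Rec8.sw_mono (fun g hg => ⟨hg, Set.mem_univ _⟩) fun g hg => ?_
      rw [hB]
      exact Rec8.sw_mono (fun g' hg' => ⟨⟨hg'.1, hg'.2.1⟩, RT_of (by omega) hg hg'.2.2⟩) fun _ _ => le_rfl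
    have a2 := AT.start_trim (k := k) (T := T) (G := Set.univ) (G' := Set.univ) (F := vA D (B T) (fun _ => 1))
      (F' := vA D (B T) (fun _ => 1)) (by omega) (fun _ _ _ _ _ _ _ => Set.mem_univ _)
      (fun n X g _ hX _ => CN.hered_vA _ _ _ X ⟨n, hX⟩ g)
    refine a1.trans (a2.trans ?_)
    have a3 : ∀ n, (∑' r : ℕ, min 1 ((r : ℝ≥0∞) / 2 ^ k) * Rec8.sw (Irr r) (fun P =>
        Rec8.sw {Z | Z ∈ BU ∧ P ++ Z ∈ Brd (T - n) ∧ P ++ Z ∈ Set.univ} (fun Z => vA D (B T) (fun _ => 1) (P ++ Z)))) =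
        MG D k B (fun _ => 1) (T - n) T := by
      intro n
      unfold MG
      refine tsum_congr fun r => ?_
      congr 1
      refine Rec8.sw_congr fun P _ => ?_
      congr 1
      ext Z
      exact ⟨fun h => ⟨h.1, h.2.1⟩, fun h => ⟨h.1, h.2, Set.mem_univ _⟩⟩
    simp only [a3]
    rw [← Finset.sum_range_add_sum_Ico _ (show 2 ^ j ≤ 2 ^ (k + 1) by rw [hj]; exact hji)]
    refine add_le_add (Finset.sum_le_sum fun n _ => ?_) ?_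
    · -- low foot: the class is dropped
      have b1 : MG D k B (fun _ => 1) (T - n) T ≤ ∑' r : ℕ, min 1 ((r : ℝ≥0∞) / 2 ^ k) * Rec8.sw (Irr r) (fun P =>
          Rec8.sw {Z | Z ∈ BU ∧ P ++ Z ∈ Brd (T - n)} (fun Z => ∑ m ∈ range (2 ^ (k + 1)), BT m *
            vA D (Brd (T - m)) (lastP k) (P ++ Z))) := by
        unfold MG
        refine ENNReal.tsum_le_tsum fun r => mul_le_mul' le_rfl (Rec8.sw_mono' fun P _ => Rec8.sw_mono' fun Z _ => ?_)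
        refine (vA_mono ?_ _ _).trans (vA_trim D k T (by omega) _)
        rw [hB]
        exact fun g hg => hg.1
      refine (mul_le_mul' le_rfl b1).trans ?_
      rw [AT.dist_sum, Finset.mul_sum]
      refine Finset.sum_le_sum fun m _ => ?_
      rw [mul_assoc]
      exact le_rfl
    · rw [Finset.mul_sum]
      exact Finset.sum_le_sum fun n hn => mul_le_mul' (h5 j n (mem_Ico.1 hn).1) le_rfl
  -- the part with the class
  have s2 : ∑ T ∈ Icc E N, ∑ n ∈ Ico (2 ^ j) (2 ^ (k + 1)), MG D k B (fun _ => 1) (T - n) (T - 0) ≤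
      ENNReal.ofReal (2 * K2 * (UU N / Ub k) * e) := by
    have a1 := key2 (N := N) hW' (I := Ico (2 ^ j) (2 ^ (k + 1))) (by
      intro n hn
      rw [mem_Ico] at hn
      rw [mem_range]
      omega) (MG D k B (fun _ => 1)) (m := 0) (by omega)
    have a2 := sum_MG D k (E - W) N (B := B) (B' := {g | g ∈ S}) (fun _ => 1)
      (fun b _ _ t ht => by rw [hB] at ht; exact ht.2) (fun b t ht => by rw [hB] at ht; exact ht.1)
    have a3 := h2 D (E - W) N k k (vA D {g | g ∈ S} (fun _ => 1)) (CN.hered_vA _ _ _) (by omega) le_rfl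
      (by omega) (by omega)
    have a4 := hS.near 2 (fun _ => 1) (dm_one k)
    rw [← hD] at a4
    refine a1.trans (a2.trans (a3.trans ((mul_le_mul' le_rfl a4).trans (le_of_eq ?_))))
    have e2 : (2 : ℝ≥0∞) = ENNReal.ofReal 2 := by norm_num
    rw [e2, ← ENNReal.ofReal_mul he, ← ENNReal.ofReal_mul (by positivity)]
    congr 1
    ring
  have s4 := h4 k i N (range (2 ^ j)) (range (2 ^ (k + 1))) hik hN
    (by rw [hj]; exact Finset.range_mono hji) le_rfl (Or.inl (by rw [hj]))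
  rw [← hD, ← hE] at s4
  rw [← hE]
  refine (Finset.sum_le_sum s1).trans ?_
  rw [Finset.sum_add_distrib, ← Finset.mul_sum]
  refine (add_le_add s4 (mul_le_mul' le_rfl s2)).trans ?_
  rw [← ENNReal.ofReal_mul (by positivity), ← ENNReal.ofReal_add (by positivity) (by positivity)]
  refine ENNReal.ofReal_le_ofReal ?_
  have e3 : (2 : ℝ) ^ (-((j : ℝ) / 4)) = (2 : ℝ) ^ (-((k : ℝ) / 4)) * (2 : ℝ) ^ ((i : ℝ) / 4) := by
    rw [hj, Nat.cast_sub hik, ← Real.rpow_add (by norm_num)]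
    congr 1
    ring
  rw [e3]
  obtain ⟨u, hu⟩ : ∃ u, u = UU N / Ub k := ⟨_, rfl⟩
  obtain ⟨a, ha⟩ : ∃ a, a = (2 : ℝ) ^ (-((k : ℝ) / 4)) := ⟨_, rfl⟩
  obtain ⟨b, hb⟩ : ∃ b, b = (2 : ℝ) ^ ((i : ℝ) / 4) := ⟨_, rfl⟩
  obtain ⟨c, hc⟩ : ∃ c, c = (2 : ℝ) ^ (-((i : ℝ) / 4)) := ⟨_, rfl⟩
  have ha0 : 0 < a := by rw [ha]; positivity
  have hb0 : 0 < b := by rw [hb]; positivity
  have hc0 : 0 < c := by rw [hc]; positivity
  rw [← hu, ← ha, ← hb, ← hc]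
  rw [← hu] at hratio
  have e4 : u ≤ u ^ 2 := by nlinarith
  calc K4 * u ^ 2 * a * c + C5 * (a * b) * (2 * K2 * u * e)
      = K4 * u ^ 2 * a * c + (C5 * (2 * K2) * a * b * e) * u := by ring
    _ ≤ K4 * u ^ 2 * a * c + (C5 * (2 * K2) * a * b * e) * u ^ 2 :=
        add_le_add le_rfl (mul_le_mul_of_nonneg_left e4 (by positivity))
    _ ≤ K4 * u ^ 2 * a * c + (C5 * (2 * K2) * a * b * e) * u ^ 2 +
        (K4 * u ^ 2 * a * (b * e) + C5 * (2 * K2) * u ^ 2 * a * c) := le_add_of_nonneg_right (by positivity)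
    _ = _ := by ring

open AFS in
/-- all arcs -/
theorem arc_all (h : Inp C δ) (hA : SsA) (h3 : Ss3) : ∃ K : ℝ, 1 ≤ K ∧ ∀ k N : ℕ, 2 ^ (k + 5) ≤ N →
    ∑ T ∈ Icc (2 ^ (k + 5)) N, Rec8.sw (Brd T) (fun g => Rec8.sw {g' | g' ∈ Brd T ∧ LFold g g'} (fun _ => 1)) ≤
      ENNReal.ofReal (K * (UU N / Ub k) ^ 2 * (2 : ℝ) ^ (-((k : ℝ) / 4))) := by
  obtain ⟨C1, hC1, h1⟩ := AT.arc_trim
  obtain ⟨K1, hK1, h2⟩ := nearP h hA h3
  obtain ⟨K2, hK2, h4⟩ := tailW h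
  obtain ⟨C3, hC3, hUi⟩ := Ub_inv
  refine ⟨C1 * (K2 * K1) * C3, ?_, fun k N hN => ?_⟩
  · have a1 : 1 ≤ K2 * K1 := one_le_mul_of_one_le_of_one_le hK2 hK1
    have a2 : 1 ≤ C1 * (K2 * K1) := one_le_mul_of_one_le_of_one_le hC1 a1
    exact one_le_mul_of_one_le_of_one_le a2 hC3
  obtain ⟨p5, p4, p2, p1⟩ := two_pow_facts k
  have hU := Ub_pos k
  have hUN := Num2Aux.UU_pos N
  have hUi' := hUi k
  have q1 := h1 (2 ^ (k + 4)) k (2 ^ (k + 5)) N Set.univ Set.univ (by omega) (by omega)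
    (fun _ _ _ _ _ _ _ _ _ _ => Set.mem_univ _)
  have q0 : ∑ T ∈ Icc (2 ^ (k + 5)) N, Rec8.sw (Brd T) (fun g => Rec8.sw {g' | g' ∈ Brd T ∧ LFold g g'} (fun _ => 1)) ≤
      ∑ T ∈ Icc (2 ^ (k + 5)) N, Rec8.sw {g | g ∈ Brd T ∧ g ∈ Set.univ}
        (fun g => Rec8.sw {g' | g' ∈ Brd T ∧ LFold g g'} (fun _ => 1)) :=
    Finset.sum_le_sum fun T _ => Rec8.sw_mono (fun g hg => ⟨hg, Set.mem_univ _⟩) fun _ _ => le_rfl
  have q2 : (∑' r : ℕ, min 1 ((r : ℝ≥0∞) / 2 ^ k) * Rec8.sw (Irr r) (fun P =>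
        Rec8.sw {Z | Z ∈ BU ∧ P ++ Z ∈ BrR (2 ^ (k + 5) - 2 ^ (k + 1)) N ∧ P ++ Z ∈ Set.univ}
          (fun Z => vA (2 ^ (k + 4)) (BrR (2 ^ (k + 5) - 2 ^ (k + 1)) N) (lastP k) (P ++ Z)))) ≤
      ∑' r : ℕ, min 1 ((r : ℝ≥0∞) / 2 ^ k) * Rec8.sw (Irr r) (fun P =>
        Rec8.sw {Z | Z ∈ BU ∧ P ++ Z ∈ BrR (2 ^ (k + 5) - 2 ^ (k + 1)) N}
          (fun Z => vA (2 ^ (k + 4)) (BrR (2 ^ (k + 5) - 2 ^ (k + 1)) N) (lastP k) (P ++ Z))) :=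
    ENNReal.tsum_le_tsum fun r => mul_le_mul' le_rfl (Rec8.sw_mono' fun P _ =>
      Rec8.sw_mono (fun Z hZ => ⟨hZ.1, hZ.2.1⟩) fun _ _ => le_rfl)
  have q5 := h4 (2 ^ (k + 4)) (2 ^ (k + 5) - 2 ^ (k + 1)) N k k
    (vA (2 ^ (k + 4)) (BrR (2 ^ (k + 5) - 2 ^ (k + 1)) N) (lastP k)) (CN.hered_vA _ _ _) le_rfl le_rfl (by omega) (by omega)
  have q6 := h2 (2 ^ (k + 5) - 2 ^ (k + 1)) N k (by omega) (by omega)
  refine q0.trans (q1.trans ((mul_le_mul' le_rfl (q2.trans (q5.trans (mul_le_mul' le_rfl q6)))).trans ?_))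
  rw [← ENNReal.ofReal_mul (by positivity), ← ENNReal.ofReal_mul (by positivity)]
  refine ENNReal.ofReal_le_ofReal ?_
  have e2 : (2 : ℝ) ^ ((k : ℝ) / 2) * (2 : ℝ) ^ (-(3 / 4 * (k : ℝ))) = (2 : ℝ) ^ (-((k : ℝ) / 4)) := by
    rw [← Real.rpow_add (by norm_num)]
    congr 1
    ring
  calc C1 * (2 : ℝ) ^ ((k : ℝ) / 2) * (K2 * (UU N / Ub k) * (K1 * (UU N / Ub k) * (1 / Ub k)))
      = (C1 * (K2 * K1) * (UU N / Ub k) ^ 2 * (2 : ℝ) ^ ((k : ℝ) / 2)) * (1 / Ub k) := by ring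
    _ ≤ (C1 * (K2 * K1) * (UU N / Ub k) ^ 2 * (2 : ℝ) ^ ((k : ℝ) / 2)) * (C3 * (2 : ℝ) ^ (-(3 / 4 * (k : ℝ)))) :=
        mul_le_mul_of_nonneg_left hUi' (by positivity)
    _ = C1 * (K2 * K1) * C3 * (UU N / Ub k) ^ 2 * ((2 : ℝ) ^ ((k : ℝ) / 2) * (2 : ℝ) ^ (-(3 / 4 * (k : ℝ)))) := by ring
    _ = _ := by rw [e2]

end PW

end HexObs
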