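import Pool.Agent.PW.ArcDefs
import Pool.Agent.TightN.SDec
import Pool.Agent.PHW.HangA
import Pool.Agent.T2.LongQ

/-!
PW, part ARC (doc PW/ARC34), module (B1): trimming of both feet. A pair of strands g, g' of the same height T that meet
at the fold at the row T; their lower ends are cut off at two independent levels of the window [2^k, 2^(k+1)) and
summed; the cost of the condition of equal heights is the sum of the squares of the bridge weights below 2^(k+1).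
-/

set_option autoImplicit false

namespace HexObs

namespace PW

open Finset TS SDN

open scoped ENNReal

namespace AT

theorem lastP_eq {k r : ℕ} {Z P : List Bool} (hZ : Z ∈ BU) (hP : P ∈ Irr r) :
    lastP k (Z ++ P) = min 1 ((r : ℝ≥0∞) / 2 ^ k) := le_antisymm (lastP_le k hZ hP) (min_le_lastP k hZ hP)

/-- words with their last piece -/
theorem cat_le (k : ℕ) (S : Set (List Bool)) [∀ t, Decidable (t ∈ S)] :
    (∑' r : ℕ, min 1 ((r : ℝ≥0∞) / 2 ^ k) * Rec8.sw BU (fun Z => Rec8.sw (Irr r) (fun P => if Z ++ P ∈ S then 1 else 0))) ≤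
      Rec8.sw S (lastP k) := by
  classical
  let V : Set (ℕ × (List Bool × List Bool)) := {x | x.2.1 ∈ BU ∧ x.2.2 ∈ Irr x.1 ∧ x.2.1 ++ x.2.2 ∈ S}
  have h1 : (∑' r : ℕ, min 1 ((r : ℝ≥0∞) / 2 ^ k) * Rec8.sw BU (fun Z => Rec8.sw (Irr r) (fun P =>
      if Z ++ P ∈ S then 1 else 0))) = ∑' x : V, wE (x.1.2.1 ++ x.1.2.2) * lastP k (x.1.2.1 ++ x.1.2.2) := by
    have h2 : ∑' x : V, wE (x.1.2.1 ++ x.1.2.2) * lastP k (x.1.2.1 ++ x.1.2.2) =
        ∑' x : ℕ × (List Bool × List Bool), V.indicator (fun x => wE (x.2.1 ++ x.2.2) * lastP k (x.2.1 ++ x.2.2)) x :=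
      tsum_subtype V (fun x => wE (x.2.1 ++ x.2.2) * lastP k (x.2.1 ++ x.2.2))
    rw [h2, ENNReal.tsum_prod']
    refine tsum_congr fun r => ?_
    rw [ENNReal.tsum_prod', Rec8.sw_ind, ← ENNReal.tsum_mul_left]
    refine tsum_congr fun Z => ?_
    by_cases hZ : Z ∈ BU
    · rw [if_pos hZ, Rec8.sw_ind, ← ENNReal.tsum_mul_left, ← ENNReal.tsum_mul_left]
      refine tsum_congr fun P => ?_
      by_cases hP : P ∈ Irr r
      · by_cases hS : Z ++ P ∈ S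
        · rw [if_pos hP, if_pos hS, Set.indicator_of_mem (show (r, (Z, P)) ∈ V from ⟨hZ, hP, hS⟩), wE_append,
            lastP_eq hZ hP]
          ring
        · rw [if_pos hP, if_neg hS, Set.indicator_of_notMem (show (r, (Z, P)) ∉ V from fun h => hS h.2.2)]
          simp
      · rw [if_neg hP, Set.indicator_of_notMem (show (r, (Z, P)) ∉ V from fun h => hP h.2.1)]
        simp
    · rw [if_neg hZ, mul_zero]
      refine (ENNReal.tsum_eq_zero.2 fun P => ?_).symm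
      exact Set.indicator_of_notMem (show (r, (Z, P)) ∉ V from fun h => hZ h.1) _
  rw [h1]
  have hinj : Function.Injective (fun x : V => (⟨x.1.2.1 ++ x.1.2.2, x.2.2.2⟩ : {t : List Bool // t ∈ S})) := by
    rintro ⟨⟨r, Z, P⟩, hZ, hP, hS⟩ ⟨⟨r', Z', P'⟩, hZ', hP', hS'⟩ h
    obtain ⟨h1, h2, h3⟩ := last_unique hZ hP hZ' hP' (congrArg Subtype.val h)
    simp only at h1 h2 h3
    subst h1 h2 h3
    rfl
  exact ENNReal.tsum_comp_le_tsum_of_injective hinj (fun t : {t : List Bool // t ∈ S} => wE t.1 * lastP k t.1)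

/-- disjoint sets -/
theorem sum_sw_le {S : Finset ℕ} {A : ℕ → Set (List Bool)} {B : Set (List Bool)} (hs : ∀ a ∈ S, A a ⊆ B)
    (hd : ∀ a b t, t ∈ A a → t ∈ A b → a = b) (F : List Bool → ℝ≥0∞) :
    ∑ a ∈ S, Rec8.sw (A a) F ≤ Rec8.sw B F := by
  classical
  simp only [Rec8.sw_ind]
  rw [← Summable.tsum_finsetSum (fun _ _ => ENNReal.summable)]
  refine ENNReal.tsum_le_tsum fun t => ?_
  by_cases h : ∃ a ∈ S, t ∈ A a
  · obtain ⟨a, ha, hta⟩ := h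
    rw [Finset.sum_eq_single a, if_pos hta, if_pos (hs a ha hta)]
    · intro b _ hb
      exact if_neg fun h' => hb (hd b a t h' hta)
    · intro h'
      exact absurd ha h'
  · rw [Finset.sum_eq_zero fun a ha => if_neg fun h' => h ⟨a, ha, h'⟩]
    exact zero_le

theorem mu_sum {k : ℕ} (K : ℕ → ℕ → ℝ≥0∞) :
    (∑' n : ℕ, ∑' r : ℕ, mu k n r * K n r) ≤
      ∑ n ∈ range (2 ^ (k + 1)), ∑' r : ℕ, min 1 ((r : ℝ≥0∞) / 2 ^ k) * K n r := by
  rw [tsum_eq_sum (s := range (2 ^ (k + 1)))]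
  · exact Finset.sum_le_sum fun n _ => ENNReal.tsum_le_tsum fun r => mul_le_mul_left (mu_le_min k n r) _
  · intro n hn
    rw [mem_range, not_lt] at hn
    refine ENNReal.tsum_eq_zero.2 fun r => ?_
    rw [mu_eq_zero hn, zero_mul]

/-- trimming of the end -/
theorem end_trim {T k : ℕ} (hk : 2 ^ (k + 1) ≤ T) {ρ : List Bool → Prop} (hρ : ∀ a b, ρ (a ++ b) → ρ a) :
    Rec8.sw {g | g ∈ Brd T ∧ ρ g} (fun _ => 1) ≤
      ∑ m ∈ range (2 ^ (k + 1)), BT m * Rec8.sw {g | m ≤ T ∧ g ∈ Brd (T - m) ∧ ρ g} (lastP k) := by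
  classical
  have hBr : Brd T = BrR T T := by
    ext t
    constructor
    · intro h
      exact ⟨T, le_rfl, le_rfl, h⟩
    · rintro ⟨h, h1, h2, h3⟩
      rw [show T = h by omega]
      exact h3
  rw [Rec8.sw_and (Brd T) ρ, hBr]
  refine (endR (D := T) (N := T) (j := k) hk _).trans ((mu_sum _).trans (Finset.sum_le_sum fun m _ => ?_))
  let S : Set (List Bool) := {g | m ≤ T ∧ g ∈ Brd (T - m) ∧ ρ g}
  refine le_trans (ENNReal.tsum_le_tsum fun r => mul_le_mul_right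
    (c := BT m * Rec8.sw BU (fun Z => Rec8.sw (Irr r) (fun P => if Z ++ P ∈ S then 1 else 0))) ?_ _) ?_
  · rw [← Rec8.sw_mul_left]
    refine Rec8.sw_mono (fun Z hZ => ⟨_, hZ.choose_spec.2⟩) ?_
    rintro Z ⟨h, hT, hZ⟩
    rw [← Rec8.sw_mul_left]
    refine Rec8.sw_mono' fun P hP => ?_
    rw [← Rec8.sw_const]
    refine Rec8.sw_mono (fun M hM => hM.1) ?_
    rintro M ⟨hM, hM2⟩
    by_cases h1 : ρ (Z ++ (P ++ M))
    · rw [if_pos h1]
      obtain ⟨h', h2, h3, h4⟩ := hM2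
      have h5 := Brd_height h4 (Brd_append hZ (Brd_append hP.1 hM))
      rw [if_pos]
      refine ⟨by omega, ?_, hρ (Z ++ P) M (by rw [List.append_assoc]; exact h1)⟩
      have h6 := Brd_append hZ hP.1
      rw [show T - m = h + r by omega]
      exact h6
    · rw [if_neg h1]
      exact zero_le
  · have e : ∀ r : ℕ, min 1 ((r : ℝ≥0∞) / 2 ^ k) * (BT m * Rec8.sw BU (fun Z => Rec8.sw (Irr r) (fun P =>
        if Z ++ P ∈ S then 1 else 0))) = BT m * (min 1 ((r : ℝ≥0∞) / 2 ^ k) * Rec8.sw BU (fun Z => Rec8.sw (Irr r) (fun P =>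
        if Z ++ P ∈ S then 1 else 0))) := fun r => by ring
    simp only [e]
    rw [ENNReal.tsum_mul_left]
    exact mul_le_mul_right (cat_le k S) _

/-- trimming of the start -/
theorem start_trim {T k : ℕ} (hk : 2 ^ (k + 1) ≤ T) {G G' : Set (List Bool)} {F F' : List Bool → ℝ≥0∞}
    (hG : ∀ n X g, n < 2 ^ (k + 1) → X ∈ Brd n → g ∈ Brd (T - n) → X ++ g ∈ G → g ∈ G')
    (hF : ∀ n X g, n < 2 ^ (k + 1) → X ∈ Brd n → g ∈ Brd (T - n) → F (X ++ g) ≤ F' g) :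
    Rec8.sw {g | g ∈ Brd T ∧ g ∈ G} F ≤
      ∑ n ∈ range (2 ^ (k + 1)), BT n * ∑' r : ℕ, min 1 ((r : ℝ≥0∞) / 2 ^ k) * Rec8.sw (Irr r) (fun P =>
        Rec8.sw {Z | Z ∈ BU ∧ P ++ Z ∈ Brd (T - n) ∧ P ++ Z ∈ G'} (fun Z => F' (P ++ Z))) := by
  classical
  have hBr : Brd T = BrR T T := by
    ext t
    constructor
    · intro h
      exact ⟨T, le_rfl, le_rfl, h⟩
    · rintro ⟨h, h1, h2, h3⟩
      rw [show T = h by omega]
      exact h3
  have h0 : Rec8.sw {g | g ∈ Brd T ∧ g ∈ G} F = Rec8.sw (BrR T T) (fun g => if g ∈ G then F g else 0) := by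
    rw [← hBr]
    exact Rec8.sw_and (Brd T) (fun g => g ∈ G) F
  rw [h0]
  refine (inR (D := T) (N := T) (j := k) hk _).trans ((mu_sum _).trans (Finset.sum_le_sum fun n hn => ?_))
  rw [mem_range] at hn
  rw [← ENNReal.tsum_mul_left]
  refine ENNReal.tsum_le_tsum fun r => ?_
  have e : BT n * (min 1 ((r : ℝ≥0∞) / 2 ^ k) * Rec8.sw (Irr r) (fun P =>
        Rec8.sw {Z | Z ∈ BU ∧ P ++ Z ∈ Brd (T - n) ∧ P ++ Z ∈ G'} (fun Z => F' (P ++ Z)))) =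
      min 1 ((r : ℝ≥0∞) / 2 ^ k) * (BT n * Rec8.sw (Irr r) (fun P =>
        Rec8.sw {Z | Z ∈ BU ∧ P ++ Z ∈ Brd (T - n) ∧ P ++ Z ∈ G'} (fun Z => F' (P ++ Z)))) := by ring
  rw [e]
  refine mul_le_mul_right ?_ _
  rw [← Rec8.sw_const]
  refine Rec8.sw_mono' fun X hX => Rec8.sw_mono' fun P hP => ?_
  have h1 : {Z | Z ∈ BU ∧ X ++ (P ++ Z) ∈ BrR T T} ⊆ {Z | Z ∈ BU ∧ P ++ Z ∈ Brd (T - n)} := by
    rintro Z ⟨⟨z, hZ⟩, h, h2, h3, h4⟩
    have h5 := Brd_height h4 (Brd_append hX (Brd_append hP.1 hZ))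
    refine ⟨⟨z, hZ⟩, ?_⟩
    rw [show T - n = r + z by omega]
    exact Brd_append hP.1 hZ
  have h2 : Rec8.sw {Z | Z ∈ BU ∧ P ++ Z ∈ Brd (T - n) ∧ P ++ Z ∈ G'} (fun Z => F' (P ++ Z)) =
      Rec8.sw {Z | Z ∈ BU ∧ P ++ Z ∈ Brd (T - n)} (fun Z => if P ++ Z ∈ G' then F' (P ++ Z) else 0) := by
    rw [← Rec8.sw_and {Z | Z ∈ BU ∧ P ++ Z ∈ Brd (T - n)} (fun Z => P ++ Z ∈ G') (fun Z => F' (P ++ Z))]
    congr 1
    ext Z
    exact and_assoc.symm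
  rw [h2]
  refine Rec8.sw_mono h1 fun Z hZ => ?_
  have h3 := (h1 hZ).2
  by_cases h4 : X ++ (P ++ Z) ∈ G
  · rw [if_pos h4, if_pos (hG n X (P ++ Z) hn hX h3 h4)]
    exact hF n X (P ++ Z) hn hX h3
  · rw [if_neg h4]
    exact zero_le

/-- first strand of the height a in the class G', beginning with its piece P over a level of the window, next strand of
the height b with the weight of its last piece -/
noncomputable def MM (D k : ℕ) (G' : Set (List Bool)) (a b : ℕ) : ℝ≥0∞ :=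
  ∑' r : ℕ, min 1 ((r : ℝ≥0∞) / 2 ^ k) * Rec8.sw (Irr r) (fun P =>
    Rec8.sw {Z | Z ∈ BU ∧ P ++ Z ∈ Brd a ∧ P ++ Z ∈ G'} (fun Z => vA D (Brd b) (lastP k) (P ++ Z)))

theorem dist_sum (S : Finset ℕ) (c x : ℕ → ℝ≥0∞) (A : List Bool → Set (List Bool)) (f : ℕ → List Bool → ℝ≥0∞) :
    (∑' r : ℕ, c r * Rec8.sw (Irr r) (fun P => Rec8.sw (A P) (fun Z => ∑ m ∈ S, x m * f m (P ++ Z)))) =
      ∑ m ∈ S, x m * ∑' r : ℕ, c r * Rec8.sw (Irr r) (fun P => Rec8.sw (A P) (fun Z => f m (P ++ Z))) := by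
  simp only [Rec8.sw_sum, Rec8.sw_mul_left, Finset.mul_sum]
  rw [Summable.tsum_finsetSum (fun _ _ => ENNReal.summable)]
  refine Finset.sum_congr rfl fun m _ => ?_
  rw [← ENNReal.tsum_mul_left]
  exact tsum_congr fun r => by ring

/-- both trimmings, at one height T -/
theorem one_T {D T k : ℕ} (hk : 2 ^ (k + 1) ≤ T) (hD : D ≤ T) {G G' : Set (List Bool)}
    (hG : ∀ n X g, n < 2 ^ (k + 1) → X ∈ Brd n → g ∈ Brd (T - n) → X ++ g ∈ G → g ∈ G') :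
    Rec8.sw {g | g ∈ Brd T ∧ g ∈ G} (fun g => Rec8.sw {g' | g' ∈ Brd T ∧ LFold g g'} (fun _ => 1)) ≤
      ∑ n ∈ range (2 ^ (k + 1)), ∑ m ∈ range (2 ^ (k + 1)), BT n * BT m * MM D k G' (T - n) (T - m) := by
  refine (start_trim (F' := fun t => ∑ m ∈ range (2 ^ (k + 1)), BT m * vA D (Brd (T - m)) (lastP k) t) hk hG ?_).trans
    (Finset.sum_le_sum fun n _ => ?_)
  · intro n X g hn hX hg
    have h1 : ∀ a b, RT D LFold g (a ++ b) → RT D LFold g a := by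
      rintro a b ⟨Z, h1, h2, h3⟩
      exact ⟨Z, h1, h2, PrefC_Hang _ _ a b h3⟩
    refine le_trans (Rec8.sw_mono (B := {g' | g' ∈ Brd T ∧ RT D LFold g g'}) ?_ fun _ _ => le_rfl)
      ((end_trim hk h1).trans (Finset.sum_le_sum fun m _ => mul_le_mul_right (Rec8.sw_mono ?_ fun _ _ => le_rfl) _))
    · rintro g' ⟨h2, h3⟩
      refine ⟨h2, X, ⟨n, hX⟩, ⟨T, hD, ?_⟩, h3⟩
      have h4 := Brd_append hX hg
      rwa [show n + (T - n) = T by omega] at h4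
    · rintro g' ⟨-, h2, h3⟩
      exact ⟨h2, h3⟩
  · rw [dist_sum, Finset.mul_sum]
    refine le_of_eq (Finset.sum_congr rfl fun m _ => ?_)
    unfold MM
    ring

theorem mul_le_sq (x y : ℝ≥0∞) : x * y ≤ x ^ 2 + y ^ 2 := by
  rcases le_total x y with h | h
  · refine le_trans ?_ le_add_self
    rw [pow_two]
    exact mul_le_mul_left h _
  · refine le_trans ?_ le_self_add
    rw [pow_two]
    exact mul_le_mul_right h _

/-- the sum over the common height -/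
theorem sum_T {E N W : ℕ} (hW : W ≤ E) (x : ℕ → ℝ≥0∞) (M : ℕ → ℕ → ℝ≥0∞) :
    ∑ T ∈ Icc E N, ∑ n ∈ range W, ∑ m ∈ range W, x n * x m * M (T - n) (T - m) ≤
      2 * (∑ n ∈ range W, x n ^ 2) * ∑ a ∈ Icc (E - W) N, ∑ b ∈ Icc (E - W) N, M a b := by
  classical
  have hR : ∑ a ∈ Icc (E - W) N, ∑ b ∈ Icc (E - W) N, M a b =
      ∑ q ∈ Icc (E - W) N ×ˢ Icc (E - W) N, M q.1 q.2 := by rw [Finset.sum_product]
  have key : ∀ n ∈ range W, ∀ f : ℕ × ℕ → ℕ × ℕ, (f = fun p => (p.1 - n, p.1 - p.2)) ∨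
      (f = fun p => (p.1 - p.2, p.1 - n)) → ∑ p ∈ Icc E N ×ˢ range W, M (f p).1 (f p).2 ≤
      ∑ a ∈ Icc (E - W) N, ∑ b ∈ Icc (E - W) N, M a b := by
    intro n hn f hf
    rw [mem_range] at hn
    rw [hR]
    have hinj : Set.InjOn f (Icc E N ×ˢ range W : Finset (ℕ × ℕ)) := by
      intro p hp q hq hpq
      rw [Finset.mem_coe, mem_product, mem_Icc, mem_range] at hp hq
      rcases hf with rfl | rfl
      · simp only [Prod.mk.injEq] at hpq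
        exact Prod.ext (by omega) (by omega)
      · simp only [Prod.mk.injEq] at hpq
        exact Prod.ext (by omega) (by omega)
    rw [← Finset.sum_image (f := fun q : ℕ × ℕ => M q.1 q.2) (g := f) hinj]
    refine Finset.sum_le_sum_of_subset ?_
    intro q hq
    rw [mem_image] at hq
    obtain ⟨p, hp, rfl⟩ := hq
    rw [mem_product, mem_Icc, mem_range] at hp
    rw [mem_product, mem_Icc, mem_Icc]
    rcases hf with rfl | rfl
    · simp only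
      exact ⟨by omega, by omega⟩
    · simp only
      exact ⟨by omega, by omega⟩
  have h1 : ∑ T ∈ Icc E N, ∑ n ∈ range W, ∑ m ∈ range W, x n * x m * M (T - n) (T - m) ≤
      (∑ n ∈ range W, x n ^ 2 * ∑ p ∈ Icc E N ×ˢ range W, M (p.1 - n) (p.1 - p.2)) +
      ∑ m ∈ range W, x m ^ 2 * ∑ p ∈ Icc E N ×ˢ range W, M (p.1 - p.2) (p.1 - m) := by
    have h2 : ∑ T ∈ Icc E N, ∑ n ∈ range W, ∑ m ∈ range W, x n * x m * M (T - n) (T - m) ≤
        ∑ T ∈ Icc E N, ∑ n ∈ range W, ∑ m ∈ range W, (x n ^ 2 * M (T - n) (T - m) + x m ^ 2 * M (T - n) (T - m)) :=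
      Finset.sum_le_sum fun T _ => Finset.sum_le_sum fun n _ => Finset.sum_le_sum fun m _ => by
        rw [← add_mul]
        exact mul_le_mul_left (mul_le_sq _ _) _
    refine h2.trans (le_of_eq ?_)
    simp only [Finset.sum_add_distrib]
    congr 1
    · rw [Finset.sum_comm]
      refine Finset.sum_congr rfl fun n _ => ?_
      rw [Finset.sum_product, Finset.mul_sum]
      exact Finset.sum_congr rfl fun T _ => by rw [Finset.mul_sum]
    · have h3 : ∀ T ∈ Icc E N, ∑ n ∈ range W, ∑ m ∈ range W, x m ^ 2 * M (T - n) (T - m) =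
          ∑ m ∈ range W, ∑ n ∈ range W, x m ^ 2 * M (T - n) (T - m) := fun T _ => Finset.sum_comm
      rw [Finset.sum_congr rfl h3, Finset.sum_comm]
      refine Finset.sum_congr rfl fun m _ => ?_
      rw [Finset.sum_product, Finset.mul_sum]
      exact Finset.sum_congr rfl fun T _ => by rw [Finset.mul_sum]
  refine h1.trans ?_
  have h4 : ∑ n ∈ range W, x n ^ 2 * ∑ p ∈ Icc E N ×ˢ range W, M (p.1 - n) (p.1 - p.2) ≤
      (∑ n ∈ range W, x n ^ 2) * ∑ a ∈ Icc (E - W) N, ∑ b ∈ Icc (E - W) N, M a b := by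
    rw [Finset.sum_mul]
    exact Finset.sum_le_sum fun n hn => mul_le_mul_right (key n hn (fun p => (p.1 - n, p.1 - p.2)) (Or.inl rfl)) _
  have h5 : ∑ m ∈ range W, x m ^ 2 * ∑ p ∈ Icc E N ×ˢ range W, M (p.1 - p.2) (p.1 - m) ≤
      (∑ n ∈ range W, x n ^ 2) * ∑ a ∈ Icc (E - W) N, ∑ b ∈ Icc (E - W) N, M a b := by
    rw [Finset.sum_mul]
    exact Finset.sum_le_sum fun n hn => mul_le_mul_right (key n hn (fun p => (p.1 - p.2, p.1 - n)) (Or.inr rfl)) _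
  refine (add_le_add h4 h5).trans (le_of_eq ?_)
  ring

/-- the sum over both heights -/
theorem sum_MM (D k E N : ℕ) (G' : Set (List Bool)) :
    ∑ a ∈ Icc E N, ∑ b ∈ Icc E N, MM D k G' a b ≤
      ∑' r : ℕ, min 1 ((r : ℝ≥0∞) / 2 ^ k) * Rec8.sw (Irr r) (fun P =>
        Rec8.sw {Z | Z ∈ BU ∧ P ++ Z ∈ BrR E N ∧ P ++ Z ∈ G'} (fun Z => vA D (BrR E N) (lastP k) (P ++ Z))) := by
  have h1 : ∀ a, ∑ b ∈ Icc E N, MM D k G' a b ≤ ∑' r : ℕ, min 1 ((r : ℝ≥0∞) / 2 ^ k) * Rec8.sw (Irr r) (fun P =>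
      Rec8.sw {Z | Z ∈ BU ∧ P ++ Z ∈ Brd a ∧ P ++ Z ∈ G'} (fun Z => vA D (BrR E N) (lastP k) (P ++ Z))) := by
    intro a
    unfold MM
    rw [← Summable.tsum_finsetSum (fun _ _ => ENNReal.summable)]
    refine ENNReal.tsum_le_tsum fun r => ?_
    rw [← Finset.mul_sum, ← Rec8.sw_sum]
    refine mul_le_mul_right (Rec8.sw_mono' fun P _ => ?_) _
    rw [← Rec8.sw_sum]
    refine Rec8.sw_mono' fun Z _ => ?_
    unfold vA
    refine sum_sw_le ?_ ?_ _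
    · rintro b hb g' ⟨h2, h3⟩
      rw [mem_Icc] at hb
      exact ⟨⟨b, hb.1, hb.2, h2⟩, h3⟩
    · rintro b b' t ⟨h2, -⟩ ⟨h3, -⟩
      exact Brd_height h2 h3
  refine (Finset.sum_le_sum fun a _ => h1 a).trans ?_
  rw [← Summable.tsum_finsetSum (fun _ _ => ENNReal.summable)]
  refine ENNReal.tsum_le_tsum fun r => ?_
  rw [← Finset.mul_sum, ← Rec8.sw_sum]
  refine mul_le_mul_right (Rec8.sw_mono' fun P _ => ?_) _
  refine sum_sw_le ?_ ?_ _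
  · rintro a ha Z ⟨h2, h3, h4⟩
    rw [mem_Icc] at ha
    exact ⟨h2, ⟨a, ha.1, ha.2, h3⟩, h4⟩
  · rintro a a' Z ⟨-, h2, -⟩ ⟨-, h3, -⟩
    exact Brd_height h2 h3

/-- trimming of both feet, the cost is the sum of the squares of the weights -/
theorem arc_trim_sq {D k E N : ℕ} (hk : 2 ^ (k + 1) ≤ E) (hD : D ≤ E) {G G' : Set (List Bool)}
    (hG : ∀ T, E ≤ T → T ≤ N → ∀ n X g, n < 2 ^ (k + 1) → X ∈ Brd n → g ∈ Brd (T - n) → X ++ g ∈ G → g ∈ G') :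
    ∑ T ∈ Icc E N, Rec8.sw {g | g ∈ Brd T ∧ g ∈ G} (fun g => Rec8.sw {g' | g' ∈ Brd T ∧ LFold g g'} (fun _ => 1)) ≤
      2 * (∑ n ∈ range (2 ^ (k + 1)), BT n ^ 2) * ∑' r : ℕ, min 1 ((r : ℝ≥0∞) / 2 ^ k) * Rec8.sw (Irr r) (fun P =>
        Rec8.sw {Z | Z ∈ BU ∧ P ++ Z ∈ BrR (E - 2 ^ (k + 1)) N ∧ P ++ Z ∈ G'}
          (fun Z => vA D (BrR (E - 2 ^ (k + 1)) N) (lastP k) (P ++ Z))) := by
  refine le_trans (Finset.sum_le_sum fun T hT => ?_) ((sum_T hk BT (MM D k G')).trans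
    (mul_le_mul_right (sum_MM D k (E - 2 ^ (k + 1)) N G') _))
  rw [mem_Icc] at hT
  exact one_T (hk.trans hT.1) (hD.trans hT.1) (hG T hT.1 hT.2)

theorem BT_uu' (n : ℕ) : BT n = ENNReal.ofReal (uu n) := by
  unfold uu
  rw [ENNReal.ofReal_toReal]
  rcases Nat.eq_zero_or_pos n with rfl | h
  · rw [← gf_Brd, Brd_zero]
    unfold gf
    rw [tsum_singleton (f := wE)]
    unfold wE
    simp
  · exact ne_top_of_le_ne_top ENNReal.one_ne_top (BT_le_one h)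

theorem sum_inv_sqrt (W : ℕ) : ∑ n ∈ range W, ((n : ℝ) + 1) ^ (-(1 / 2) : ℝ) ≤ 2 * (W : ℝ) ^ (1 / 2 : ℝ) := by
  induction W with
  | zero => simp
  | succ W ih =>
    rw [Finset.sum_range_succ]
    have h1 : (0 : ℝ) < (W : ℝ) + 1 := by positivity
    have h0 : (0 : ℝ) ≤ (W : ℝ) := Nat.cast_nonneg W
    have e : ((W + 1 : ℕ) : ℝ) = (W : ℝ) + 1 := by push_cast; ring
    rw [e]
    have h2 : ((W : ℝ) + 1) ^ (-(1 / 2) : ℝ) = 1 / Real.sqrt ((W : ℝ) + 1) := by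
      rw [Real.rpow_neg h1.le, ← Real.sqrt_eq_rpow, one_div]
    have h3 : (W : ℝ) ^ (1 / 2 : ℝ) = Real.sqrt W := (Real.sqrt_eq_rpow _).symm
    have h4 : ((W : ℝ) + 1) ^ (1 / 2 : ℝ) = Real.sqrt ((W : ℝ) + 1) := (Real.sqrt_eq_rpow _).symm
    rw [h2, h4]
    rw [h3] at ih
    have h5 : 0 < Real.sqrt ((W : ℝ) + 1) := Real.sqrt_pos.2 h1
    have h6 : Real.sqrt ((W : ℝ) + 1) * Real.sqrt ((W : ℝ) + 1) = (W : ℝ) + 1 := Real.mul_self_sqrt h1.le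
    have h7 : Real.sqrt W * Real.sqrt W = (W : ℝ) := Real.mul_self_sqrt h0
    have h8 : 0 ≤ Real.sqrt W := Real.sqrt_nonneg _
    have h9 : Real.sqrt W ≤ Real.sqrt ((W : ℝ) + 1) := Real.sqrt_le_sqrt (by linarith)
    have h10 : 1 / Real.sqrt ((W : ℝ) + 1) ≤ 2 * (Real.sqrt ((W : ℝ) + 1) - Real.sqrt W) := by
      rw [div_le_iff₀ h5]
      nlinarith
    linarith

/-- the sum of the squares -/
theorem sum_sq : ∃ C : ℝ, 1 ≤ C ∧ ∀ k : ℕ,
    ∑ n ∈ range (2 ^ (k + 1)), BT n ^ 2 ≤ ENNReal.ofReal (C * (2 : ℝ) ^ ((k : ℝ) / 2)) := by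
  obtain ⟨C, hC, hu⟩ := T2.uu_le_quarter
  refine ⟨1 + C ^ 2 * 4, by nlinarith [sq_nonneg C], fun k => ?_⟩
  have h1 : ∑ n ∈ range (2 ^ (k + 1)), BT n ^ 2 = ENNReal.ofReal (∑ n ∈ range (2 ^ (k + 1)), uu n ^ 2) := by
    rw [ENNReal.ofReal_sum_of_nonneg fun n _ => sq_nonneg _]
    exact Finset.sum_congr rfl fun n _ => by rw [BT_uu', ENNReal.ofReal_pow (uu_pos n).le]
  rw [h1]
  refine ENNReal.ofReal_le_ofReal ?_
  have h2 : (2 : ℕ) ^ (k + 1) = (2 ^ (k + 1) - 1) + 1 := by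
    have := Nat.one_le_two_pow (n := k + 1)
    omega
  rw [h2, Finset.sum_range_succ']
  rw [uu_zero]
  have h3 : ∀ n ∈ range (2 ^ (k + 1) - 1), uu (n + 1) ^ 2 ≤ C ^ 2 * ((n : ℝ) + 1) ^ (-(1 / 2) : ℝ) := by
    intro n _
    have h4 := hu (n + 1) (by omega)
    have h5 : (0 : ℝ) < (n : ℝ) + 1 := by positivity
    have e : ((n + 1 : ℕ) : ℝ) = (n : ℝ) + 1 := by push_cast; ring
    rw [e] at h4
    have h6 : (C * ((n : ℝ) + 1) ^ (-(1 / 4) : ℝ)) ^ 2 = C ^ 2 * ((n : ℝ) + 1) ^ (-(1 / 2) : ℝ) := by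
      rw [mul_pow, ← Real.rpow_natCast (((n : ℝ) + 1) ^ (-(1 / 4) : ℝ)) 2, ← Real.rpow_mul h5.le]
      norm_num
    rw [← h6]
    exact pow_le_pow_left₀ (uu_pos _).le h4 2
  have h7 := Finset.sum_le_sum h3
  rw [← Finset.mul_sum] at h7
  have h8 := sum_inv_sqrt (2 ^ (k + 1) - 1)
  have h9 : ((2 ^ (k + 1) - 1 : ℕ) : ℝ) ^ (1 / 2 : ℝ) ≤ 2 * (2 : ℝ) ^ ((k : ℝ) / 2) := by
    have h10 : ((2 ^ (k + 1) - 1 : ℕ) : ℝ) ≤ (2 : ℝ) ^ (k + 1) := by
      rw [Nat.cast_sub Nat.one_le_two_pow]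
      push_cast
      linarith
    refine (Real.rpow_le_rpow (Nat.cast_nonneg _) h10 (by norm_num)).trans ?_
    rw [← Real.rpow_natCast 2 (k + 1), ← Real.rpow_mul (by norm_num : (0 : ℝ) ≤ 2)]
    have h11 : (2 : ℝ) * (2 : ℝ) ^ ((k : ℝ) / 2) = (2 : ℝ) ^ (1 + (k : ℝ) / 2) := by
      rw [Real.rpow_add (by norm_num : (0 : ℝ) < 2), Real.rpow_one]
    rw [h11]
    refine Real.rpow_le_rpow_of_exponent_le (by norm_num) ?_
    push_cast
    linarith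
  have h12 : (1 : ℝ) ≤ (2 : ℝ) ^ ((k : ℝ) / 2) := Real.one_le_rpow (by norm_num) (by positivity)
  have h13 : C ^ 2 * ∑ n ∈ range (2 ^ (k + 1) - 1), ((n : ℝ) + 1) ^ (-(1 / 2) : ℝ) ≤
      C ^ 2 * (4 * (2 : ℝ) ^ ((k : ℝ) / 2)) := mul_le_mul_of_nonneg_left (by linarith) (sq_nonneg C)
  have h14 : (0 : ℝ) < (2 : ℝ) ^ ((k : ℝ) / 2) := by positivity
  nlinarith

/-- **(B1)**: trimming of both feet -/
theorem arc_trim : ∃ C : ℝ, 1 ≤ C ∧ ∀ (D k E N : ℕ) (G G' : Set (List Bool)), 2 ^ (k + 1) ≤ E → D ≤ E →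
    (∀ T, E ≤ T → T ≤ N → ∀ n X g, n < 2 ^ (k + 1) → X ∈ Brd n → g ∈ Brd (T - n) → X ++ g ∈ G → g ∈ G') →
    ∑ T ∈ Icc E N, Rec8.sw {g | g ∈ Brd T ∧ g ∈ G} (fun g => Rec8.sw {g' | g' ∈ Brd T ∧ LFold g g'} (fun _ => 1)) ≤
      ENNReal.ofReal (C * (2 : ℝ) ^ ((k : ℝ) / 2)) * ∑' r : ℕ, min 1 ((r : ℝ≥0∞) / 2 ^ k) * Rec8.sw (Irr r) (fun P =>
        Rec8.sw {Z | Z ∈ BU ∧ P ++ Z ∈ BrR (E - 2 ^ (k + 1)) N ∧ P ++ Z ∈ G'}
          (fun Z => vA D (BrR (E - 2 ^ (k + 1)) N) (lastP k) (P ++ Z))) := by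
  obtain ⟨C, hC, h⟩ := sum_sq
  refine ⟨2 * C, by linarith, fun D k E N G G' hk hD hG => (arc_trim_sq hk hD hG).trans (mul_le_mul_left ?_ _)⟩
  have e : ENNReal.ofReal (2 * C * (2 : ℝ) ^ ((k : ℝ) / 2)) = 2 * ENNReal.ofReal (C * (2 : ℝ) ^ ((k : ℝ) / 2)) := by
    rw [mul_assoc, ENNReal.ofReal_mul (by norm_num), ENNReal.ofReal_ofNat]
  rw [e]
  exact mul_le_mul_right (h k) _

end AT

/-- **(B1)** for the class of the strands with a giant next to the fold -/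
theorem trim_both : ∃ C : ℝ, 0 < C ∧ ∀ k j E N : ℕ, j ≤ k → 2 ^ (k + 5) ≤ E →
    arcs2 E N (GiF k j) Set.univ ≤ ENNReal.ofReal (C * (2 : ℝ) ^ ((k : ℝ) / 2)) *
      ∑' r : ℕ, min 1 ((r : ℝ≥0∞) / 2 ^ k) * Rec8.sw (Irr r) (fun P =>
        Rec8.sw {Z | Z ∈ BU ∧ P ++ Z ∈ BrR (E - 2 ^ (k + 1)) N ∧ P ++ Z ∈ GiF k j}
          (fun Z => vA (2 ^ (k + 4)) (BrR (E - 2 ^ (k + 1)) N) (lastP k) (P ++ Z))) := by
  obtain ⟨C, hC, h⟩ := AT.arc_trim
  refine ⟨C, by linarith, fun k j E N hjk hE => ?_⟩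
  have h1 : 2 ^ (k + 5) = 16 * 2 ^ (k + 1) := by ring
  have h2 : 2 ^ (k + 4) = 8 * 2 ^ (k + 1) := by ring
  have h3 : 2 ^ (k + 3) = 4 * 2 ^ (k + 1) := by ring
  refine le_trans (le_of_eq ?_) (h (2 ^ (k + 4)) k E N (GiF k j) (GiF k j) (by omega) (by omega)
    fun T hT1 hT2 n X g hn hX hg hXg => ?_)
  · show (∑' T : ℕ, if E ≤ T ∧ T ≤ N then Rec8.sw {g | g ∈ Brd T ∧ g ∈ GiF k j}
      (fun g => Rec8.sw {g' | g' ∈ Brd T ∧ g' ∈ Set.univ ∧ LFold g g'} (fun _ => 1)) else 0) = _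
    rw [tsum_eq_sum (s := Icc E N)]
    · refine Finset.sum_congr rfl fun T hT => ?_
      rw [mem_Icc] at hT
      rw [if_pos hT]
      refine Rec8.sw_congr fun g _ => ?_
      congr 1
      ext g'
      exact ⟨fun h => ⟨h.1, h.2.2⟩, fun h => ⟨h.1, Set.mem_univ _, h.2⟩⟩
    · intro T hT
      rw [mem_Icc] at hT
      exact if_neg hT
  · refine GiF_drop (T := T) hjk hX hn (by omega) ?_ ⟨_, hg⟩ hXg
    have h4 := Brd_append hX hg
    rwa [show n + (T - n) = T by omega] at h4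

end PW

end HexObs
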