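import Pool.Agent.PW.WindN

/-!
# PW, rows M1, M1', M4 (helper69): the size of the walk at a given time, no return of the walk

For the uniformly random `m`-step walk (`saw m`, `pos`), all in counting form:

* **`bmM1`** : for all `Λ, ε > 0` there are `δ > 0` and `k0` with: for `k0 ≤ k ≤ m ≤ Λ k`, `|pos s k| < δ k ^ (3/4)` holds
  for at most a fraction `ε` of the walks; **`bmM1'`** : the same for `max over i ≤ k of |pos s i|`;
* **`bmM4`** : for all `ρ, ε > 0` there is `δ > 0` with: for every `m ≥ 1`, a point at distance at least `ρ m ^ (3/4)`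
  followed by a point at distance less than `δ m ^ (3/4)` from the start occurs for at most a fraction `ε` of the walks.

From `SIM.simple_final` (no return, the limits are injective) and `NTSF.finE` (the order of the size).
-/

set_option autoImplicit false

namespace NTSF

namespace Wd

open Finset MeasureTheory Filter Topology

open HexObs hiding pos curve

open Pool.Agent.NTS.Res

open NTF (open_le cont_eval)

open scoped Classical Real ENNReal

/-- the curves that stay in the ball of radius `r` up to the time `1 / Λ` -/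
def Smp (Λ r : ℝ) : Set C(unitInterval, ℂ) := {γ | ∀ t : unitInterval, (t : ℝ) ≤ 1 / Λ → ‖γ t‖ ≤ r}

lemma smp_closed (Λ r : ℝ) : IsClosed (Smp Λ r) := by
  have e : Smp Λ r = ⋂ t : unitInterval, ⋂ (_ : (t : ℝ) ≤ 1 / Λ), {γ : C(unitInterval, ℂ) | ‖γ t‖ ≤ r} := by
    ext γ
    rw [Set.mem_iInter]
    refine forall_congr' fun t => ?_
    rw [Set.mem_iInter]
    exact Iff.rfl
  rw [e]
  exact isClosed_iInter fun t => isClosed_iInter fun _ => isClosed_le (cont_eval t).norm continuous_const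

/-- a weak limit does not stay at the origin up to the time `1 / Λ` -/
lemma smp_lim {Λ : ℝ} (hΛ : 0 < Λ) {φ : ℕ → ℕ} (hφ : Tendsto φ atTop atTop) {ν : Measure C(unitInterval, ℂ)}
    (hν : IsProbabilityMeasure ν) (hlim : LawTo φ ν) {ε : ℝ} (hε : 0 < ε)
    (h : ∀ r : ℝ, 0 < r → ∀ᶠ k in atTop, ENNReal.ofReal ε ≤ law (φ k) (Smp Λ r)) : False := by
  have hlim2 := (lawTo_iff ⟨ν, hν⟩).1 hlim
  have key : ∀ r : ℝ, 0 < r → ENNReal.ofReal ε ≤ ν (Smp Λ r) := by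
    intro r hr
    have h1 := ProbabilityMeasure.limsup_measure_closed_le_of_tendsto hlim2 (smp_closed Λ r)
    refine le_trans ?_ h1
    exact le_limsup_of_frequently_le' (h r hr).frequently
  obtain ⟨F, hF⟩ : ∃ F : ℕ → Set C(unitInterval, ℂ), F = fun j : ℕ => Smp Λ (1 / ((j : ℝ) + 1)) := ⟨_, rfl⟩
  have hanti : Antitone F := by
    intro i j hij γ hγ
    rw [hF] at hγ ⊢
    intro t ht
    refine (hγ t ht).trans ?_
    have : (i : ℝ) ≤ j := by exact_mod_cast hij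
    exact one_div_le_one_div_of_le (by positivity) (by linarith)
  have hm : Tendsto (ν ∘ F) atTop (𝓝 (ν (⋂ n, F n))) := by
    refine tendsto_measure_iInter_atTop (fun j => ?_) hanti ⟨0, measure_ne_top _ _⟩
    rw [hF]
    exact (smp_closed Λ _).measurableSet.nullMeasurableSet
  have h0 : ν (⋂ n, F n) = 0 := by
    have h2 := HexObs.SIM.simple_final.2.2 φ ν hφ hν hlim
    rw [ae_iff] at h2
    refine measure_mono_null ?_ h2
    intro γ hγ
    rw [Set.mem_iInter] at hγ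
    intro hinj
    have h3 : ∀ t : unitInterval, (t : ℝ) ≤ 1 / Λ → γ t = 0 := by
      intro t ht
      rw [← norm_le_zero_iff]
      refine le_of_forall_pos_le_add fun r hr => ?_
      obtain ⟨j, hj⟩ := exists_nat_one_div_lt hr
      have h4 : γ ∈ Smp Λ (1 / ((j : ℝ) + 1)) := by
        have h5 := hγ j
        rw [hF] at h5
        exact h5
      have h5 := h4 t ht
      linarith
    obtain ⟨u, hu⟩ : ∃ u : unitInterval, (u : ℝ) = min (1 / Λ) 1 :=
      ⟨⟨min (1 / Λ) 1, le_min (by positivity) zero_le_one, min_le_right _ _⟩, rfl⟩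
    have h6 : γ u = γ 0 := by
      rw [h3 u (hu ▸ min_le_left _ _), h3 0 (by
        show (0 : ℝ) ≤ 1 / Λ
        positivity)]
    have h7 : u = 0 := hinj h6
    have h8 : (0 : ℝ) < u := by
      rw [hu]
      exact lt_min (by positivity) zero_lt_one
    rw [h7] at h8
    exact lt_irrefl _ h8
  rw [h0] at hm
  have h9 : ENNReal.ofReal ε ≤ 0 := by
    refine ge_of_tendsto' hm fun j => ?_
    show ENNReal.ofReal ε ≤ ν (F j)
    rw [hF]
    exact key _ (by positivity)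
  have h10 : (0 : ℝ≥0∞) < ENNReal.ofReal ε := ENNReal.ofReal_pos.2 hε
  exact absurd h9 (not_le.2 h10)

/-- **the start of the curve is not small** -/
theorem small_start {Λ ε : ℝ} (hΛ : 0 < Λ) (hε : 0 < ε) : ∃ (η : ℝ) (m0 : ℕ), 0 < η ∧ ∀ m : ℕ, m0 ≤ m →
    law m (Smp Λ η) ≤ ENNReal.ofReal ε := by
  by_contra hcon
  push Not at hcon
  have h1 : ∀ j : ℕ, ∃ m : ℕ, j ≤ m ∧ ENNReal.ofReal ε < law m (Smp Λ (1 / ((j : ℝ) + 1))) := fun j => by
    obtain ⟨m, hm, h⟩ := hcon (1 / ((j : ℝ) + 1)) j (by positivity)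
    exact ⟨m, hm, h⟩
  choose μ hμ1 hμ2 using h1
  have hμ : Tendsto μ atTop atTop := tendsto_atTop_mono hμ1 tendsto_id
  obtain ⟨φ, hφ, hφ2⟩ := strictMono_subseq_of_tendsto_atTop hμ
  obtain ⟨ψ, hψ, ν, hν, hlim⟩ := HexObs.SIM.simple_final.2.1 (fun k => μ (φ k)) hφ2
  have hc : StrictMono fun k => φ (ψ k) := hφ.comp hψ
  refine smp_lim hΛ (φ := fun k => μ (φ (ψ k))) (hμ.comp hc.tendsto_atTop) hν hlim hε fun r hr => ?_
  obtain ⟨j, hj⟩ := exists_nat_one_div_lt hr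
  filter_upwards [hc.tendsto_atTop.eventually_ge_atTop j] with k hk
  refine (hμ2 (φ (ψ k))).le.trans (measure_mono ?_)
  intro γ hγ t ht
  refine (hγ t ht).trans (le_trans ?_ hj.le)
  have : (j : ℝ) ≤ (φ (ψ k) : ℕ) := by exact_mod_cast hk
  exact one_div_le_one_div_of_le (by positivity) (by linarith)

/-- the size, both sides -/
lemma size_bounds : ∃ c C : ℝ, 0 < c ∧ 0 < C ∧ ∀ n : ℕ, 1 ≤ n →
    c * (n : ℝ) ^ (3 / 4 : ℝ) ≤ size n ∧ size n ≤ C * (n : ℝ) ^ (3 / 4 : ℝ) := by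
  obtain ⟨c, C, hc, h, -⟩ := NTSF.finE
  refine ⟨c, C, hc, ?_, h⟩
  have h1 := h 1 le_rfl
  rw [Nat.cast_one, Real.one_rpow] at h1
  linarith [h1.1, h1.2]

/-- **row M4: no return** -/
theorem bmM4 {ρ ε : ℝ} (hρ : 0 < ρ) (hε : 0 < ε) : ∃ δ : ℝ, 0 < δ ∧ ∀ m : ℕ, 1 ≤ m →
    (((saw m).filter fun s => ∃ i i' : ℕ, i ≤ i' ∧ i' ≤ m ∧ ρ * (m : ℝ) ^ (3 / 4 : ℝ) ≤ ‖pos s i‖ ∧
      ‖pos s i'‖ < δ * (m : ℝ) ^ (3 / 4 : ℝ)).card : ℝ) ≤ ε * ((saw m).card : ℝ) := by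
  obtain ⟨c, C, hc, hC, hsz⟩ := size_bounds
  obtain ⟨δ, hδ, h⟩ := HexObs.SIM.simple_final.1 (ρ / (2 * C)) ε (by positivity) hε
  refine ⟨c * δ, by positivity, fun m hm => ?_⟩
  refine card_le_law hε.le (h m hm) ?_
  rintro s - ⟨i, i', hii, hi', h1, h2⟩
  have hs := NTSF.size_pos hm
  have hm0 : (0 : ℝ) < (m : ℝ) ^ (3 / 4 : ℝ) := Real.rpow_pos_of_pos (by exact_mod_cast hm) _
  refine ⟨0, tm m i, tm m i', unitInterval.nonneg', tm_mono hii hi', ?_, ?_⟩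
  · rw [curve_tm hm (hii.trans hi'), NTSF.curve_zero, dist_zero_right, norm_div, Complex.norm_of_nonneg hs.le,
      lt_div_iff₀ hs]
    have h3 : ρ / (2 * C) * size m ≤ ρ / (2 * C) * (C * (m : ℝ) ^ (3 / 4 : ℝ)) :=
      mul_le_mul_of_nonneg_left (hsz m hm).2 (by positivity)
    have h4 : ρ / (2 * C) * (C * (m : ℝ) ^ (3 / 4 : ℝ)) = ρ * (m : ℝ) ^ (3 / 4 : ℝ) / 2 := by
      field_simp
    have h5 : 0 < ρ * (m : ℝ) ^ (3 / 4 : ℝ) := by positivity
    linarith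
  · rw [curve_tm hm hi', NTSF.curve_zero, dist_zero_right, norm_div, Complex.norm_of_nonneg hs.le, div_lt_iff₀ hs]
    have h3 : δ * (c * (m : ℝ) ^ (3 / 4 : ℝ)) ≤ δ * size m := mul_le_mul_of_nonneg_left (hsz m hm).1 hδ.le
    linarith

/-- **row M1: the walk at the time k is at the distance of the order of k^(3/4)** -/
theorem bmM1 {Λ ε : ℝ} (hΛ : 0 < Λ) (hε : 0 < ε) : ∃ (δ : ℝ) (k0 : ℕ), 0 < δ ∧ ∀ m k : ℕ, k0 ≤ k → k ≤ m →
    (m : ℝ) ≤ Λ * k →
    (((saw m).filter fun s => ‖pos s k‖ < δ * (k : ℝ) ^ (3 / 4 : ℝ)).card : ℝ) ≤ ε * ((saw m).card : ℝ) := by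
  obtain ⟨c, C, hc, hC, hsz⟩ := size_bounds
  obtain ⟨η, m0, hη, h0⟩ := small_start hΛ (half_pos hε)
  obtain ⟨δ, hδ, h⟩ := HexObs.SIM.simple_final.1 η (ε / 2) hη (half_pos hε)
  refine ⟨c * δ, max m0 1, by positivity, fun m k hk hkm hm => ?_⟩
  have hk1 : 1 ≤ k := (le_max_right _ _).trans hk
  have hm1 : 1 ≤ m := hk1.trans hkm
  obtain ⟨A, hA⟩ : ∃ A : Set C(unitInterval, ℂ), A = {γ : C(unitInterval, ℂ) | ∃ p q r : unitInterval, p ≤ q ∧ q ≤ r ∧
    η < dist (γ q) (γ p) ∧ dist (γ r) (γ p) < δ} := ⟨_, rfl⟩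
  have b1 : law m A ≤ ENNReal.ofReal (ε / 2) := hA ▸ h m hm1
  have b2 : law m (Smp Λ η) ≤ ENNReal.ofReal (ε / 2) := h0 m (((le_max_left _ _).trans hk).trans hkm)
  have b3 : law m (A ∪ Smp Λ η) ≤ ENNReal.ofReal ε :=
    calc law m (A ∪ Smp Λ η) ≤ law m A + law m (Smp Λ η) := measure_union_le _ _
      _ ≤ ENNReal.ofReal (ε / 2) + ENNReal.ofReal (ε / 2) := add_le_add b1 b2
      _ = ENNReal.ofReal ε := by rw [← ENNReal.ofReal_add (by positivity) (by positivity), add_halves]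
  refine card_le_law hε.le b3 ?_
  intro s _ hsk
  by_cases h1 : curve s ∈ Smp Λ η
  · exact Or.inr h1
  · left
    rw [hA]
    have h2 : ∃ t : unitInterval, (t : ℝ) ≤ 1 / Λ ∧ η < ‖curve s t‖ := by
      by_contra hcon
      push Not at hcon
      exact h1 hcon
    obtain ⟨t, ht, h3⟩ := h2
    have hs := NTSF.size_pos hm1
    have hk0 : (0 : ℝ) < k := by exact_mod_cast hk1
    have hm0 : (0 : ℝ) < m := by exact_mod_cast hm1
    refine ⟨0, t, tm m k, unitInterval.nonneg', ?_, ?_, ?_⟩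
    · rw [← Subtype.coe_le_coe, tm_coe hkm]
      refine ht.trans ?_
      rw [div_le_div_iff₀ hΛ hm0]
      linarith
    · rw [NTSF.curve_zero, dist_zero_right]
      exact h3
    · rw [curve_tm hm1 hkm, NTSF.curve_zero, dist_zero_right, norm_div, Complex.norm_of_nonneg hs.le, div_lt_iff₀ hs]
      have h4 : δ * (c * (m : ℝ) ^ (3 / 4 : ℝ)) ≤ δ * size m := mul_le_mul_of_nonneg_left (hsz m hm1).1 hδ.le
      have h5 : (k : ℝ) ^ (3 / 4 : ℝ) ≤ (m : ℝ) ^ (3 / 4 : ℝ) :=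
        Real.rpow_le_rpow hk0.le (by exact_mod_cast hkm) (by norm_num)
      have h6 : c * δ * (k : ℝ) ^ (3 / 4 : ℝ) ≤ c * δ * (m : ℝ) ^ (3 / 4 : ℝ) :=
        mul_le_mul_of_nonneg_left h5 (by positivity)
      linarith

/-- **row M1'**: the same for the largest distance up to the time k -/
theorem bmM1' {Λ ε : ℝ} (hΛ : 0 < Λ) (hε : 0 < ε) : ∃ (δ : ℝ) (k0 : ℕ), 0 < δ ∧ ∀ m k : ℕ, k0 ≤ k → k ≤ m →
    (m : ℝ) ≤ Λ * k →
    (((saw m).filter fun s => ∀ i : ℕ, i ≤ k → ‖pos s i‖ < δ * (k : ℝ) ^ (3 / 4 : ℝ)).card : ℝ) ≤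
      ε * ((saw m).card : ℝ) := by
  obtain ⟨δ, k0, hδ, h⟩ := bmM1 hΛ hε
  refine ⟨δ, k0, hδ, fun m k hk hkm hm => le_trans ?_ (h m k hk hkm hm)⟩
  have h1 : ((saw m).filter fun s => ∀ i : ℕ, i ≤ k → ‖pos s i‖ < δ * (k : ℝ) ^ (3 / 4 : ℝ)) ⊆
      (saw m).filter fun s => ‖pos s k‖ < δ * (k : ℝ) ^ (3 / 4 : ℝ) := by
    intro s hs
    rw [Finset.mem_filter] at hs ⊢
    exact ⟨hs.1, hs.2 k le_rfl⟩
  exact_mod_cast card_le_card h1

end Wd

end NTSF
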