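import Pool.Agent.PW.BmM
import Pool.Agent.PW.CurveP
import Pool.Agent.PW.RevM

/-!
# PW, rows M1', M2', WS in words (helper69)

For the uniformly random word of `m` letters (`Pn m`, `pS t i` the position after `i` letters):

* **`m1_word`** : the largest distance up to the time `κ / 2` is rarely less than `δ κ ^ (3/4)`, for `κ ≤ m ≤ Λ κ`;
* **`m2_word`** : the largest distance up to the time `2 κ` is rarely at least `H (m / κ) ^ (1/4) κ ^ (3/4)`, for `κ ≤ m`;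
* **`ws_word`** : after a time `i0` with `ρ m ^ (3/4) ≤ ‖pS t i0‖` the turn around the start is tight.
-/

set_option autoImplicit false

namespace NTSF

namespace Wd

open Finset MeasureTheory Filter Topology

open HexObs hiding pos curve

open HexObs.SDN HexObs.TS HexObs.TOG HexObs.PWd

open Pool.Agent.NTS.Res

open NTF (JJ sw)

open scoped Classical Real ENNReal

lemma rot_norm {n : ℕ} (s : Fin n → Fin 3) (i : ℕ) : ‖pos (NTSF.rot s) i‖ = ‖pos s i‖ := by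
  have h := NTSF.norm_rot s i 0
  rw [pos_zero, pos_zero, sub_zero, sub_zero] at h
  exact h

/-- **row M1' in words** -/
theorem m1_word {Λ ε : ℝ} (hΛ : 0 < Λ) (hε : 0 < ε) : ∃ (δ : ℝ) (κ0 : ℕ), 0 < δ ∧ ∀ κ m : ℕ, κ0 ≤ κ → κ ≤ m →
    (m : ℝ) ≤ Λ * κ → Pn m {t | ∀ i : ℕ, 2 * i ≤ κ → ‖pS t i‖ < δ * (κ : ℝ) ^ (3 / 4 : ℝ)} ≤ ε := by
  obtain ⟨δ, k0, hδ, h⟩ := bmM1 (Λ := 3 * Λ) (by positivity) hε
  refine ⟨δ / 3, max (2 * k0 + 1) 2, by positivity, fun κ m hκ hκm hm => ?_⟩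
  have hκ1 : 2 * k0 + 1 ≤ κ := (le_max_left _ _).trans hκ
  have hκ2 : 2 ≤ κ := (le_max_right _ _).trans hκ
  obtain ⟨k, hk⟩ : ∃ k : ℕ, k = κ / 2 := ⟨_, rfl⟩
  have hk1 : k0 ≤ k := by omega
  have hk2 : k ≤ m := by omega
  have hk3 : κ ≤ 3 * k := by omega
  have hk3' : (κ : ℝ) ≤ 3 * k := by exact_mod_cast hk3
  have h1 := h m k hk1 hk2 (by nlinarith)
  refine Cg.Pn_of_card (by omega) (B := fun s => ‖pos s k‖ < δ * (k : ℝ) ^ (3 / 4 : ℝ)) (fun s => ?_) h1 fun t _ hA => ?_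
  · show ‖pos (NTSF.rot s) k‖ < _ ↔ ‖pos s k‖ < _
    rw [rot_norm]
  · have h2 : ‖pS t k‖ < δ / 3 * (κ : ℝ) ^ (3 / 4 : ℝ) := hA k (by omega)
    show ‖pos (sw m t) k‖ < _
    rw [NTSF.pos_sw m t k hk2]
    refine lt_of_lt_of_le h2 ?_
    have h3 : (κ : ℝ) ^ (3 / 4 : ℝ) ≤ (3 : ℝ) ^ (3 / 4 : ℝ) * (k : ℝ) ^ (3 / 4 : ℝ) := by
      rw [← Real.mul_rpow (by norm_num) (Nat.cast_nonneg _)]
      exact Real.rpow_le_rpow (Nat.cast_nonneg _) hk3' (by norm_num)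
    have h4 : (3 : ℝ) ^ (3 / 4 : ℝ) ≤ 3 := by
      have := Real.rpow_le_rpow_of_exponent_le (x := (3 : ℝ)) (by norm_num) (by norm_num : (3 / 4 : ℝ) ≤ 1)
      rwa [Real.rpow_one] at this
    have h5 : (0 : ℝ) ≤ (k : ℝ) ^ (3 / 4 : ℝ) := by positivity
    calc δ / 3 * (κ : ℝ) ^ (3 / 4 : ℝ) ≤ δ / 3 * ((3 : ℝ) ^ (3 / 4 : ℝ) * (k : ℝ) ^ (3 / 4 : ℝ)) :=
          mul_le_mul_of_nonneg_left h3 (by positivity)
      _ ≤ δ / 3 * (3 * (k : ℝ) ^ (3 / 4 : ℝ)) :=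
          mul_le_mul_of_nonneg_left (mul_le_mul_of_nonneg_right h4 h5) (by positivity)
      _ = δ * (k : ℝ) ^ (3 / 4 : ℝ) := by ring

/-- the two powers -/
lemma pow_id {κ m : ℝ} (hκ : 0 < κ) (hm : 0 < m) :
    (κ / m) ^ (1 / 2 : ℝ) * m ^ (3 / 4 : ℝ) = (m / κ) ^ (1 / 4 : ℝ) * κ ^ (3 / 4 : ℝ) := by
  have ha : 0 < κ ^ (1 / 4 : ℝ) := Real.rpow_pos_of_pos hκ _
  have hb : 0 < m ^ (1 / 4 : ℝ) := Real.rpow_pos_of_pos hm _
  have e2 : ∀ x : ℝ, 0 < x → x ^ (1 / 2 : ℝ) = (x ^ (1 / 4 : ℝ)) ^ 2 := fun x hx => by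
    rw [← Real.rpow_natCast, ← Real.rpow_mul hx.le]
    norm_num
  have e3 : ∀ x : ℝ, 0 < x → x ^ (3 / 4 : ℝ) = (x ^ (1 / 4 : ℝ)) ^ 3 := fun x hx => by
    rw [← Real.rpow_natCast, ← Real.rpow_mul hx.le]
    norm_num
  rw [Real.div_rpow hκ.le hm.le, Real.div_rpow hm.le hκ.le, e2 κ hκ, e2 m hm, e3 κ hκ, e3 m hm]
  field_simp

/-- **row M2' in words** -/
theorem m2_word {ε : ℝ} (hε : 0 < ε) : ∃ H : ℝ, 0 < H ∧ ∀ κ m : ℕ, 1 ≤ κ → κ ≤ m →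
    Pn m {t | ∃ i : ℕ, i ≤ 2 * κ ∧ i ≤ m ∧ H * ((m : ℝ) / κ) ^ (1 / 4 : ℝ) * (κ : ℝ) ^ (3 / 4 : ℝ) ≤ ‖pS t i‖} ≤ ε := by
  obtain ⟨c, C, hc, hC, hsz⟩ := size_bounds
  obtain ⟨M, δ, hδ, hbad⟩ := few_bad (η := 1) one_pos hε
  have hM : (0 : ℝ) ≤ M := M.2
  refine ⟨2 * M * C + 1, by positivity, fun κ m hκ hκm => ?_⟩
  have hm : 1 ≤ m := hκ.trans hκm
  obtain ⟨B, hB⟩ : ∃ B : (Fin m → Fin 3) → Prop, B = fun s => ∃ i : ℕ, i ≤ 2 * κ ∧ i ≤ m ∧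
    (2 * M * C + 1) * ((m : ℝ) / κ) ^ (1 / 4 : ℝ) * (κ : ℝ) ^ (3 / 4 : ℝ) ≤ ‖pos s i‖ := ⟨_, rfl⟩
  have h1 : (((saw m).filter B).card : ℝ) ≤ ε * ((saw m).card : ℝ) := by
    refine card_le_law hε.le (hbad m hm) ?_
    intro s _ hs hg
    rw [hB] at hs
    obtain ⟨i, hi, him, h2⟩ := hs
    obtain ⟨hH, -⟩ := hg
    have hsn := NTSF.size_pos hm
    have hk0 : (0 : ℝ) < κ := by exact_mod_cast hκ
    have hm0 : (0 : ℝ) < m := by exact_mod_cast hm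
    have h3 := hH.dist_le (tm m i) 0
    rw [curve_tm hm him, NTSF.curve_zero, dist_zero_right, norm_div, Complex.norm_of_nonneg hsn.le, div_le_iff₀ hsn] at h3
    have h4 : dist (tm m i) 0 = (i : ℝ) / m := by
      rw [Subtype.dist_eq, tm_coe him, Real.dist_eq]
      show |(i : ℝ) / m - 0| = _
      rw [sub_zero, abs_of_nonneg (by positivity)]
    have e : ((1 / 2 : NNReal) : ℝ) = 1 / 2 := by norm_num
    rw [h4, e] at h3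
    have hi' : (i : ℝ) ≤ 2 * κ := by exact_mod_cast hi
    have h5 : ((i : ℝ) / m) ^ (1 / 2 : ℝ) ≤ 2 * ((κ : ℝ) / m) ^ (1 / 2 : ℝ) := by
      calc ((i : ℝ) / m) ^ (1 / 2 : ℝ) ≤ (2 * ((κ : ℝ) / m)) ^ (1 / 2 : ℝ) := by
            refine Real.rpow_le_rpow (by positivity) ?_ (by norm_num)
            rw [← mul_div_assoc]
            gcongr
        _ = (2 : ℝ) ^ (1 / 2 : ℝ) * ((κ : ℝ) / m) ^ (1 / 2 : ℝ) := Real.mul_rpow (by norm_num) (by positivity)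
        _ ≤ 2 * ((κ : ℝ) / m) ^ (1 / 2 : ℝ) := by
            refine mul_le_mul_of_nonneg_right ?_ (by positivity)
            have := Real.rpow_le_rpow_of_exponent_le (x := (2 : ℝ)) (by norm_num) (by norm_num : (1 / 2 : ℝ) ≤ 1)
            rwa [Real.rpow_one] at this
    have h6 : (M : ℝ) * ((i : ℝ) / m) ^ (1 / 2 : ℝ) * size m ≤
        M * (2 * ((κ : ℝ) / m) ^ (1 / 2 : ℝ)) * (C * (m : ℝ) ^ (3 / 4 : ℝ)) :=
      mul_le_mul (mul_le_mul_of_nonneg_left h5 hM) (hsz m hm).2 hsn.le (by positivity)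
    have h7 : (M : ℝ) * (2 * ((κ : ℝ) / m) ^ (1 / 2 : ℝ)) * (C * (m : ℝ) ^ (3 / 4 : ℝ)) =
        2 * M * C * (((m : ℝ) / κ) ^ (1 / 4 : ℝ) * (κ : ℝ) ^ (3 / 4 : ℝ)) := by
      rw [← pow_id hk0 hm0]
      ring
    have h8 : 0 < ((m : ℝ) / κ) ^ (1 / 4 : ℝ) * (κ : ℝ) ^ (3 / 4 : ℝ) := by positivity
    rw [mul_assoc] at h2
    linarith
  refine Cg.Pn_of_card hm (B := B) (fun s => ?_) h1 fun t _ hA => ?_
  · rw [hB]
    simp only [rot_norm]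
  · obtain ⟨i, hi, him, h2⟩ := hA
    rw [hB]
    refine ⟨i, hi, him, ?_⟩
    rw [NTSF.pos_sw m t i him]
    exact h2

lemma BS_rot {n : ℕ} {ρ L : ℝ} (s : Fin n → Fin 3) : BS n ρ L (NTSF.rot s) ↔ BS n ρ L s := by
  have h2 : ∀ i0 k : ℕ, turn (pos (NTSF.rot s)) i0 k = turn (pos s) i0 k := by
    intro i0 k
    have e : pos (NTSF.rot s) = fun i => NTSF.om * pos s i := by
      funext i
      rw [NTSF.pos_rot]
    rw [e]
    exact turn_smul om_ne' i0 k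
  unfold BS
  simp only [rot_norm, h2]

/-- **row WS: the turn around the start outside a macroscopic ball, in words** -/
theorem ws_word {ρ ε : ℝ} (hρ : 0 < ρ) (hε : 0 < ε) : ∃ L : ℝ, 0 < L ∧ ∀ m : ℕ, 1 ≤ m →
    Pn m {t | ∃ i0 k : ℕ, i0 ≤ k ∧ k ≤ m ∧ ρ * (m : ℝ) ^ (3 / 4 : ℝ) ≤ ‖pS t i0‖ ∧ L < |turn (pS t) i0 k|} ≤ ε := by
  obtain ⟨L, hL, h⟩ := wind_start hρ hε
  refine ⟨L, hL, fun m hm => ?_⟩
  refine Cg.Pn_of_card hm (B := fun s => BS m ρ L s) (fun s => BS_rot s) (h m hm) fun t _ hA => ?_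
  obtain ⟨i0, k, hik, hk, h1, h2⟩ := hA
  have hu : ∀ i, i ≤ m → pS t i = pos (sw m t) i := fun i hi => (NTSF.pos_sw m t i hi).symm
  refine ⟨i0, k, hik, hk, ?_, ?_⟩
  · rw [← hu i0 (hik.trans hk)]
    exact h1
  · rw [turn_congr (m := i0) (m' := k) fun i _ hi => hu i (hi.trans hk)] at h2
    exact h2

end Wd

end NTSF
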