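import Pool.Agent.PW.JointW
import Pool.Agent.PW.RevW

/-!
# PW, row F (helper16): the walk seen from its end

* `curve_rv` : the curve of the reversed walk;
* **`joint_end`** : the joint law of the curve and the windings around the end point, from the one for the starting point.
-/

set_option autoImplicit false

noncomputable section

open MeasureTheory ProbabilityTheory Filter Topology
open scoped ENNReal NNReal BoundedContinuousFunction

namespace NTSF

namespace Cg

open Finset

open Pool.Agent.NTS.Res Pool.Agent.PW.Res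

theorem clamp_symm (x : ℝ) : max 0 (min 1 (1 - x)) = 1 - max 0 (min 1 x) := by
  rcases le_total x 0 with h | h
  · rw [min_eq_left (by linarith : (1 : ℝ) ≤ 1 - x), max_eq_right zero_le_one, min_eq_right (by linarith), max_eq_left h]
    ring
  · rcases le_total x 1 with h1 | h1
    · rw [min_eq_right (by linarith), max_eq_right (by linarith), min_eq_right h1, max_eq_right h]
    · rw [min_eq_right (by linarith), max_eq_left (by linarith), min_eq_left h1, max_eq_right zero_le_one]
      ring

/-- the curve of the reversed walk -/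
theorem curve_rv {n : ℕ} (s : Fin n → Fin 3) (u : unitInterval) :
    curve (rv s) u = (-1) ^ n * (curve s (unitInterval.symm u) - curve s 1) := by
  have h1 : curve s 1 = pos s n / size n := NTSF.curve_one s
  rw [h1]
  show ∑ k ∈ Finset.range n, ((max 0 (min 1 ((u : ℝ) * n - k)) : ℝ) : ℂ) * ((pos (rv s) (k + 1) - pos (rv s) k) / size n) =
    (-1) ^ n * ((∑ k ∈ Finset.range n, ((max 0 (min 1 (((unitInterval.symm u : unitInterval) : ℝ) * n - k)) : ℝ) : ℂ) *
      ((pos s (k + 1) - pos s k) / size n)) - pos s n / size n)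
  have h2 : (pos s n / size n : ℂ) = ∑ k ∈ Finset.range n, (pos s (k + 1) - pos s k) / size n := by
    rw [← sum_div, sum_range_sub, NTSF.pos_zero, sub_zero]
  rw [h2, ← sum_sub_distrib, mul_sum, ← sum_range_reflect]
  refine sum_congr rfl fun k hk => ?_
  rw [mem_range] at hk
  have e1 : n - 1 - k + 1 = n - k := by omega
  rw [e1, pos_rv s (by omega), pos_rv s (by omega)]
  have e2 : n - (n - k) = k := by omega
  have e3 : n - (n - 1 - k) = k + 1 := by omega
  rw [e2, e3]
  have e4 : (u : ℝ) * n - ((n - 1 - k : ℕ) : ℝ) = 1 - (((unitInterval.symm u : unitInterval) : ℝ) * n - k) := by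
    have : ((n - 1 - k : ℕ) : ℝ) = n - 1 - k := by
      rw [Nat.sub_sub, Nat.cast_sub (by omega)]
      push_cast
      ring
    rw [this, unitInterval.coe_symm_eq]
    ring
  rw [e4, clamp_symm]
  push_cast
  ring

/-- the reversed curve -/
def revC (γ : C(unitInterval, ℂ)) : C(unitInterval, ℂ) :=
  (γ.comp ⟨unitInterval.symm, unitInterval.continuous_symm⟩) - ContinuousMap.const _ (γ 1)

theorem revC_cont : Continuous revC := by
  unfold revC
  refine Continuous.sub (ContinuousMap.continuous_precomp _) ?_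
  exact ContinuousMap.continuous_const'.comp (continuous_eval_const (1 : unitInterval))

theorem curve_rv' {n : ℕ} (s : Fin n → Fin 3) : curve (rv s) = ((-1 : ℂ) ^ n) • revC (curve s) := by
  ext u
  rw [curve_rv]
  rfl

/-- the windings of the last `n ^ s` steps around the end point, `s ∈ I`, divided by `√(2 log n)` -/
def ThnE (I : Finset ℝ≥0) (n : ℕ) (w : Fin n → Fin 3) (s : I) : ℝ := windE w (tm n s) / √(2 * Real.log n)

/-- **the end point**, from the starting point -/
theorem joint_end (h : ∀ (I : Finset ℝ≥0), (∀ s ∈ I, s ≤ 1) → ∀ F : (C(unitInterval, ℂ) × (I → ℝ)) →ᵇ ℝ,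
    Tendsto (fun n => (∑ w ∈ saw n, F (curve w, Thn I n w)) / ((saw n).card : ℝ) -
      ∫ γ, (∫ y, F (γ, y) ∂(BrownianReal.projectiveFamily I)) ∂(law n)) atTop (𝓝 0))
    (I : Finset ℝ≥0) (hI : ∀ s ∈ I, s ≤ 1) (F : (C(unitInterval, ℂ) × (I → ℝ)) →ᵇ ℝ) :
    Tendsto (fun n => (∑ w ∈ saw n, F (curve w, ThnE I n w)) / ((saw n).card : ℝ) -
      ∫ γ, (∫ y, F (γ, y) ∂(BrownianReal.projectiveFamily I)) ∂(law n)) atTop (𝓝 0) := by
  -- the two reflected functions
  have hc : ∀ a : ℂ, Continuous fun p : C(unitInterval, ℂ) × (I → ℝ) => (a • revC p.1, p.2) := fun a =>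
    ((revC_cont.comp continuous_fst).const_smul a).prodMk continuous_snd
  obtain ⟨G, hG⟩ : ∃ G : ℂ → ((C(unitInterval, ℂ) × (I → ℝ)) →ᵇ ℝ), ∀ a p, G a p = F (a • revC p.1, p.2) :=
    ⟨fun a => F.compContinuous ⟨_, hc a⟩, fun a p => rfl⟩
  obtain ⟨D, hD⟩ : ∃ D : ((C(unitInterval, ℂ) × (I → ℝ)) →ᵇ ℝ) → ℕ → ℝ, D = fun F n =>
      (∑ w ∈ saw n, F (curve w, Thn I n w)) / ((saw n).card : ℝ) -
        ∫ γ, (∫ y, F (γ, y) ∂(BrownianReal.projectiveFamily I)) ∂(law n) := ⟨_, rfl⟩
  have h1 : ∀ F, Tendsto (D F) atTop (𝓝 0) := fun F => by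
    rw [hD]
    exact h I hI F
  have h2 : Tendsto (fun n => |D (G 1) n| + |D (G (-1)) n|) atTop (𝓝 0) := by
    have := (h1 (G 1)).abs.add (h1 (G (-1))).abs
    simpa using this
  refine squeeze_zero_norm' ?_ h2
  filter_upwards [eventually_ge_atTop 1] with n hn
  have key : (∑ w ∈ saw n, F (curve w, ThnE I n w)) / ((saw n).card : ℝ) -
      ∫ γ, (∫ y, F (γ, y) ∂(BrownianReal.projectiveFamily I)) ∂(law n) = D (G ((-1) ^ n)) n := by
    rw [hD]
    show _ = (∑ w ∈ saw n, G ((-1) ^ n) (curve w, Thn I n w)) / ((saw n).card : ℝ) -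
        ∫ γ, (∫ y, G ((-1) ^ n) (γ, y) ∂(BrownianReal.projectiveFamily I)) ∂(law n)
    congr 1
    · congr 1
      rw [← sum_rv]
      refine sum_congr rfl fun w _ => ?_
      rw [hG, ← curve_rv']
      congr 2
      funext s
      have h5 : ((s : ℝ≥0) : ℝ) ≤ 1 := by exact_mod_cast hI s.1 s.2
      show windE (rv w) (tm n s) / √(2 * Real.log n) = windS w (tm n s) / √(2 * Real.log n)
      rw [windE_rv w (PW.tm_le hn h5)]
    · rw [integral_law, integral_law]
      congr 1
      rw [← sum_rv]
      refine sum_congr rfl fun w _ => ?_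
      simp only [hG, ← curve_rv']
  rw [key, Real.norm_eq_abs]
  rcases Nat.even_or_odd n with hp | hp
  · rw [hp.neg_one_pow]
    linarith [abs_nonneg (D (G (-1)) n)]
  · rw [hp.neg_one_pow]
    linarith [abs_nonneg (D (G 1) n)]

end Cg

end NTSF

end
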