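import Pool.Agent.PW.FinU
import Pool.Agent.PW.JointE

/-!
# PW, both ends: the public statement (helper90), row B4

From the literal of row B3 (`BothSt`, helper15) : **`both_all`** : the curve `X_n`, the windings around the starting point at the
times `n ^ s` and the windings around the end point are asymptotically `X_n` and two Brownian motions, all independent.
-/

set_option autoImplicit false

noncomputable section

open MeasureTheory ProbabilityTheory Filter Topology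
open scoped ENNReal NNReal BoundedContinuousFunction

namespace NTSF

namespace Cg

open Finset

open HexObs hiding pos curve

open HexObs.SDN HexObs.TS HexObs.TIW HexObs.PWd

open Pool.Agent.NTS.Res Pool.Agent.PW.Res

open NTF (JJ)

/-- **row B3** -/
def BothSt : Prop := ∀ (K : NNReal) (M M' : ℕ) (e : ℝ), 0 < e → ∃ (D : ℝ) (n0 : ℕ), ∀ n, n0 ≤ n →
  ∀ f : C(unitInterval, ℂ) → ℝ, LipschitzWith K f → (∀ x, |f x| ≤ 1) → ∀ (κ : Fin M → ℕ) (l : Fin M' → ℕ),
    (∀ j, κ j ≤ n) → (∀ j, l j ≤ n) → ∀ (u : Fin M → ℝ) (w : Fin M' → ℝ),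
    ‖EXc f n (fun t => ∑ j, u j * turn (pS t) 1 (κ j) + ∑ j, w j * turn (pE n t) 1 (l j)) -
      EXc f n (fun t => ∑ j, u j * turn (pS t) 1 (κ j)) * EXc (fun _ => 1) n (fun t => ∑ j, w j * turn (pE n t) 1 (l j))‖ ≤
      e + D * (∑ j, |u j| + ∑ j, |w j|)

/-- the windings at the two ends, in words -/
theorem walks_both {n : ℕ} (hn : 1 ≤ n) {M M' : ℕ} {κ : Fin M → ℕ} {l : Fin M' → ℕ} (hκ : ∀ j, κ j ≤ n) (hl : ∀ j, l j ≤ n)
    (f : C(unitInterval, ℂ) → ℝ) (u : Fin M → ℝ) (w : Fin M' → ℝ) :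
    (∑ x ∈ saw n, (f (curve x) : ℂ) * Complex.exp ((∑ j, u j * windS x (κ j) + ∑ j, w j * windE x (l j) : ℝ) *
      Complex.I)) / ((saw n).card : ℂ) =
      EXc (fsc f n) n (fun t => ∑ j, u j * turn (pS t) 1 (κ j) + ∑ j, w j * turn (pE n t) 1 (l j)) := by
  rw [mean_gS hn f (fun x => Complex.exp ((∑ j, u j * windS x (κ j) + ∑ j, w j * windE x (l j) : ℝ) * Complex.I)) fun x => by
    simp only [windS_rot, windE_rot]]
  unfold EXc
  congr 1
  refine sum_congr rfl fun t _ => ?_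
  have e1 : ∑ j, u j * windS (NTF.sw n t) (κ j) = ∑ j, u j * turn (pS t) 1 (κ j) :=
    sum_congr rfl fun j _ => by rw [windS_sw t (hκ j)]; rfl
  have e2 : ∑ j, w j * windE (NTF.sw n t) (l j) = ∑ j, w j * turn (pE n t) 1 (l j) :=
    sum_congr rfl fun j _ => by rw [windE_sw t (hl j)]; rfl
  rw [e1, e2]

/-- the mean of `f` and `exp (i a)` over the walks -/
def Wn (f : C(unitInterval, ℂ) → ℝ) (n : ℕ) (a : (Fin n → Fin 3) → ℝ) : ℂ :=
  (∑ w ∈ saw n, (f (curve w) : ℂ) * Complex.exp ((a w : ℂ) * Complex.I)) / ((saw n).card : ℂ)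

lemma Wn_le {f : C(unitInterval, ℂ) → ℝ} (hf : ∀ x, |f x| ≤ 1) (n : ℕ) (a : (Fin n → Fin 3) → ℝ) : ‖Wn f n a‖ ≤ 1 := by
  have hc : 0 < ((saw n).card : ℝ) := by exact_mod_cast (saw_nonempty n).card_pos
  unfold Wn
  rw [norm_div, Complex.norm_natCast, div_le_one hc]
  refine (norm_sum_le _ _).trans ?_
  calc ∑ x ∈ saw n, ‖(f (curve x) : ℂ) * Complex.exp ((a x : ℂ) * Complex.I)‖ ≤ ∑ _x ∈ saw n, (1 : ℝ) := by
        refine sum_le_sum fun x _ => ?_
        rw [norm_mul, Complex.norm_exp_ofReal_mul_I, mul_one, Complex.norm_real]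
        exact hf _
    _ = (saw n).card := by simp

lemma fsc_one (n : ℕ) : fsc (fun _ => 1) n = fun _ => 1 := rfl

/-- **the product formula over the walks**, any finite sets of times -/
theorem both_prod (hB : BothSt) {f : C(unitInterval, ℂ) → ℝ} (hf : ∃ K, LipschitzWith K f) (hf1 : ∀ x, |f x| ≤ 1)
    {ι ι' : Type*} [Fintype ι] [Fintype ι'] (κ : ι → ℕ → ℕ) (l : ι' → ℕ → ℕ) (hκ : ∀ᶠ n in atTop, ∀ j, κ j n ≤ n)
    (hl : ∀ᶠ n in atTop, ∀ j, l j n ≤ n) (u : ι → ℝ) (w : ι' → ℝ) :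
    Tendsto (fun n : ℕ => Wn f n (fun x => ∑ j, u j * (windS x (κ j n) / √(2 * Real.log n)) +
        ∑ j, w j * (windE x (l j n) / √(2 * Real.log n))) -
      Wn f n (fun x => ∑ j, u j * (windS x (κ j n) / √(2 * Real.log n))) *
        Wn (fun _ => 1) n (fun x => ∑ j, w j * (windE x (l j n) / √(2 * Real.log n)))) atTop (𝓝 0) := by
  obtain ⟨K, hK⟩ := hf
  obtain ⟨C', hC'⟩ := fsc_lip
  obtain ⟨ei⟩ : Nonempty (ι ≃ Fin (Fintype.card ι)) := ⟨Fintype.equivFin ι⟩
  obtain ⟨ei'⟩ : Nonempty (ι' ≃ Fin (Fintype.card ι')) := ⟨Fintype.equivFin ι'⟩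
  obtain ⟨U, hU⟩ : ∃ U : ℝ, U = ∑ j, |u j| + ∑ j, |w j| := ⟨_, rfl⟩
  have hU0 : 0 ≤ U := by
    rw [hU]
    exact add_nonneg (sum_nonneg fun _ _ => abs_nonneg _) (sum_nonneg fun _ _ => abs_nonneg _)
  have hlog : Tendsto (fun n : ℕ => √(2 * Real.log n)) atTop atTop :=
    Real.tendsto_sqrt_atTop.comp (Tendsto.const_mul_atTop (by norm_num)
      (Real.tendsto_log_atTop.comp tendsto_natCast_atTop_atTop))
  rw [Metric.tendsto_atTop]
  intro ε hε
  obtain ⟨D, n0, h⟩ := hB (K * C') (Fintype.card ι) (Fintype.card ι') (ε / 4) (by positivity)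
  have hev : ∀ᶠ n : ℕ in atTop, |D| * U / √(2 * Real.log n) < ε / 4 :=
    (Tendsto.const_div_atTop hlog (|D| * U)).eventually_lt_const (by positivity)
  have hev2 : ∀ᶠ n : ℕ in atTop, 0 < √(2 * Real.log n) := hlog.eventually_gt_atTop 0
  obtain ⟨n1, h1⟩ := (((hev.and hev2).and (hκ.and hl)).and (eventually_ge_atTop 1)).exists_forall_of_atTop
  refine ⟨max n0 n1, fun n hn => ?_⟩
  obtain ⟨⟨⟨g1, g2⟩, g3, g4⟩, g5⟩ := h1 n ((le_max_right _ _).trans hn)
  rw [dist_eq_norm, sub_zero]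
  obtain ⟨q, hq⟩ : ∃ q : ℝ, q = √(2 * Real.log n) := ⟨_, rfl⟩
  rw [← hq] at g1 g2 ⊢
  have key := h n ((le_max_left _ _).trans hn) (fsc f n) (hC' f K hK n) (fsc_abs hf1 n)
    (fun j => κ (ei.symm j) n) (fun j => l (ei'.symm j) n) (fun j => g3 _) (fun j => g4 _)
    (fun j => u (ei.symm j) / q) (fun j => w (ei'.symm j) / q)
  have e1 : ∀ x : Fin n → Fin 3, ∑ j, u j * (windS x (κ j n) / q) =
      ∑ j, u (ei.symm j) / q * windS x (κ (ei.symm j) n) := fun x => by
    rw [← Equiv.sum_comp ei.symm fun j => u j * (windS x (κ j n) / q)]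
    exact sum_congr rfl fun j _ => by ring
  have e2 : ∀ x : Fin n → Fin 3, ∑ j, w j * (windE x (l j n) / q) =
      ∑ j, w (ei'.symm j) / q * windE x (l (ei'.symm j) n) := fun x => by
    rw [← Equiv.sum_comp ei'.symm fun j => w j * (windE x (l j n) / q)]
    exact sum_congr rfl fun j _ => by ring
  have a1 : Wn f n (fun x => ∑ j, u j * (windS x (κ j n) / q) + ∑ j, w j * (windE x (l j n) / q)) =
      EXc (fsc f n) n (fun t => ∑ j, u (ei.symm j) / q * turn (pS t) 1 (κ (ei.symm j) n) +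
        ∑ j, w (ei'.symm j) / q * turn (pE n t) 1 (l (ei'.symm j) n)) := by
    rw [← walks_both g5 (fun j => g3 _) (fun j => g4 _)]
    unfold Wn
    simp only [e1, e2]
  have a2 : Wn f n (fun x => ∑ j, u j * (windS x (κ j n) / q)) =
      EXc (fsc f n) n (fun t => ∑ j, u (ei.symm j) / q * turn (pS t) 1 (κ (ei.symm j) n)) := by
    have h2 := walks_both (M' := 0) g5 (κ := fun j => κ (ei.symm j) n) (l := fun j => j.elim0) (fun j => g3 _)
      (fun j => j.elim0) f (fun j => u (ei.symm j) / q) (fun j => j.elim0)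
    simp only [univ_eq_empty, sum_empty, add_zero] at h2
    rw [← h2]
    unfold Wn
    simp only [e1]
  have a3 : Wn (fun _ => 1) n (fun x => ∑ j, w j * (windE x (l j n) / q)) =
      EXc (fun _ => 1) n (fun t => ∑ j, w (ei'.symm j) / q * turn (pE n t) 1 (l (ei'.symm j) n)) := by
    have h2 := walks_both (M := 0) g5 (κ := fun j => j.elim0) (l := fun j => l (ei'.symm j) n) (fun j => j.elim0)
      (fun j => g4 _) (fun _ => 1) (fun j => j.elim0) (fun j => w (ei'.symm j) / q)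
    simp only [univ_eq_empty, sum_empty, zero_add, fsc_one] at h2
    rw [← h2]
    unfold Wn
    simp only [e2]
  rw [a1, a2, a3]
  refine key.trans_lt ?_
  have e3 : ∑ j, |u (ei.symm j) / q| + ∑ j, |w (ei'.symm j) / q| = U / q := by
    rw [Equiv.sum_comp ei.symm fun j => |u j / q|, Equiv.sum_comp ei'.symm fun j => |w j / q|, hU, add_div, sum_div, sum_div]
    congr 1 <;> exact sum_congr rfl fun j _ => by rw [abs_div, abs_of_pos g2]
  rw [e3]
  have h3 : D * (U / q) ≤ |D| * U / q := by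
    rw [← mul_div_assoc]
    exact div_le_div_of_nonneg_right (mul_le_mul_of_nonneg_right (le_abs_self D) hU0) g2.le
  linarith

/-- the mean over the reversed walks -/
lemma Wn_rv (n : ℕ) (a : (Fin n → Fin 3) → ℝ) : Wn (fun _ => 1) n (fun w => a (rv w)) = Wn (fun _ => 1) n a := by
  unfold Wn
  rw [sum_rv fun w => (((fun _ => 1 : C(unitInterval, ℂ) → ℝ) (curve w) : ℝ) : ℂ) * Complex.exp ((a w : ℂ) * Complex.I)]

/-- **both ends, characteristic functions** -/
theorem char_both (hB : BothSt) (hT : CharW) {f : C(unitInterval, ℂ) → ℝ} (hf : ∃ K, LipschitzWith K f)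
    (hf1 : ∀ x, 0 ≤ f x ∧ f x ≤ 1) (I J : Finset ℝ≥0) (hI : ∀ s ∈ I, s ≤ 1) (hJ : ∀ s ∈ J, s ≤ 1) (t : I → ℝ) (u : J → ℝ) :
    Tendsto (fun n : ℕ => Wn f n (fun w => ∑ s : I, t s * (windS w (tm n s) / √(2 * Real.log n)) +
        ∑ s : J, u s * (windE w (tm n s) / √(2 * Real.log n))) -
      (∑ w ∈ saw n, (f (curve w) : ℂ)) / ((saw n).card : ℂ) *
        (((Real.exp (-((∑ j : I, ∑ k : I, min (j : ℝ) (k : ℝ) * t j * t k) / 2)) : ℝ) : ℂ) *
        ((Real.exp (-((∑ j : J, ∑ k : J, min (j : ℝ) (k : ℝ) * u j * u k) / 2)) : ℝ) : ℂ))) atTop (𝓝 0) := by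
  have hf1' : ∀ x, |f x| ≤ 1 := fun x => by
    have := hf1 x
    rw [abs_le]
    constructor <;> linarith [this.1, this.2]
  have hI1 : ∀ s : I, ((s : ℝ≥0) : ℝ) ≤ 1 := fun s => by exact_mod_cast hI s.1 s.2
  have hJ1 : ∀ s : J, ((s : ℝ≥0) : ℝ) ≤ 1 := fun s => by exact_mod_cast hJ s.1 s.2
  have h1 := both_prod hB hf hf1' (fun (s : I) n => tm n s) (fun (s : J) n => tm n s) (by
      filter_upwards [eventually_ge_atTop 1] with n hn
      exact fun s => PW.tm_le hn (hI1 s)) (by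
      filter_upwards [eventually_ge_atTop 1] with n hn
      exact fun s => PW.tm_le hn (hJ1 s)) t u
  have h2 := hT f hf hf1 I hI t
  have h3 := hT (fun _ => 1) ⟨0, LipschitzWith.const 1⟩ (fun _ => by norm_num) J hJ u
  obtain ⟨b, hb⟩ : ∃ b : ℂ, b = ((Real.exp (-((∑ j : I, ∑ k : I, min (j : ℝ) (k : ℝ) * t j * t k) / 2)) : ℝ) : ℂ) := ⟨_, rfl⟩
  obtain ⟨c, hc⟩ : ∃ c : ℂ, c = ((Real.exp (-((∑ j : J, ∑ k : J, min (j : ℝ) (k : ℝ) * u j * u k) / 2)) : ℝ) : ℂ) := ⟨_, rfl⟩
  rw [← hb] at h2 ⊢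
  rw [← hc] at h3 ⊢
  obtain ⟨A, hA⟩ : ∃ A : ℕ → ℂ, A = fun n => Wn f n (fun w => ∑ s : I, t s * (windS w (tm n s) / √(2 * Real.log n)) +
        ∑ s : J, u s * (windE w (tm n s) / √(2 * Real.log n))) := ⟨_, rfl⟩
  obtain ⟨B, hBd⟩ : ∃ B : ℕ → ℂ, B = fun n => Wn f n (fun w => ∑ s : I, t s * (windS w (tm n s) / √(2 * Real.log n))) :=
    ⟨_, rfl⟩
  obtain ⟨G, hG⟩ : ∃ G : ℕ → ℂ, G = fun n => Wn (fun _ => 1) n (fun w => ∑ s : J, u s * (windE w (tm n s) / √(2 * Real.log n))) :=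
    ⟨_, rfl⟩
  obtain ⟨E, hE⟩ : ∃ E : ℕ → ℂ, E = fun n : ℕ => (∑ w ∈ saw n, (f (curve w) : ℂ)) / ((saw n).card : ℂ) := ⟨_, rfl⟩
  have hEe : ∀ n : ℕ, E n = Wn f n (fun _ => 0) := fun n => by
    rw [hE]
    unfold Wn
    simp
  have hE1 : ∀ n, ‖E n‖ ≤ 1 := fun n => by
    rw [hEe]
    exact Wn_le hf1' n _
  have hG1 : ∀ n, ‖G n‖ ≤ 1 := fun n => by
    rw [hG]
    exact Wn_le (fun _ => by norm_num) n _
  have k1 : Tendsto (fun n => A n - B n * G n) atTop (𝓝 0) := by
    rw [hA, hBd, hG]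
    exact h1
  have k2 : Tendsto (fun n => B n - E n * b) atTop (𝓝 0) := by
    rw [hBd, hE]
    exact h2
  have k3 : Tendsto (fun n => G n - c) atTop (𝓝 0) := by
    refine h3.congr' ?_
    filter_upwards [eventually_ge_atTop 1] with n hn
    have e1 : (∑ _w ∈ saw n, (((1 : ℝ)) : ℂ)) / ((saw n).card : ℂ) = 1 := by
      have hc : ((saw n).card : ℂ) ≠ 0 := by exact_mod_cast (saw_nonempty n).card_pos.ne'
      rw [sum_const, nsmul_eq_mul, Complex.ofReal_one, mul_one, div_self hc]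
    show (∑ w ∈ saw n, (((1 : ℝ)) : ℂ) * Complex.exp ((∑ s : J, u s * (windS w (tm n s) / √(2 * Real.log n)) : ℝ) *
      Complex.I)) / ((saw n).card : ℂ) - (∑ _w ∈ saw n, (((1 : ℝ)) : ℂ)) / ((saw n).card : ℂ) * c = G n - c
    rw [e1, one_mul]
    congr 1
    rw [hG]
    show Wn (fun _ => 1) n (fun w => ∑ s : J, u s * (windS w (tm n s) / √(2 * Real.log n))) =
      Wn (fun _ => 1) n (fun w => ∑ s : J, u s * (windE w (tm n s) / √(2 * Real.log n)))
    rw [← Wn_rv]
    congr 1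
    funext w
    refine sum_congr rfl fun s _ => ?_
    rw [windS_rv w (PW.tm_le hn (hJ1 s))]
  have key : ∀ n, A n - E n * (b * c) = (A n - B n * G n) + (B n - E n * b) * G n + E n * b * (G n - c) := fun n => by ring
  have z2 : Tendsto (fun n => (B n - E n * b) * G n) atTop (𝓝 0) := by
    refine squeeze_zero_norm (a := fun n => ‖B n - E n * b‖) (fun n => ?_) (by simpa using k2.norm)
    rw [norm_mul]
    calc ‖B n - E n * b‖ * ‖G n‖ ≤ ‖B n - E n * b‖ * 1 := mul_le_mul_of_nonneg_left (hG1 n) (norm_nonneg _)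
      _ = _ := mul_one _
  have z3 : Tendsto (fun n => E n * b * (G n - c)) atTop (𝓝 0) := by
    refine squeeze_zero_norm (a := fun n => ‖b‖ * ‖G n - c‖) (fun n => ?_) (by
      have := k3.norm.const_mul ‖b‖
      simpa using this)
    rw [norm_mul, norm_mul]
    refine mul_le_mul_of_nonneg_right ?_ (norm_nonneg _)
    calc ‖E n‖ * ‖b‖ ≤ 1 * ‖b‖ := mul_le_mul_of_nonneg_right (hE1 n) (norm_nonneg _)
      _ = _ := one_mul _
  have z4 := (k1.add z2).add z3
  rw [add_zero, add_zero] at z4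
  have z5 : Tendsto (fun n => A n - E n * (b * c)) atTop (𝓝 0) := z4.congr fun n => (key n).symm
  rw [hA, hE] at z5
  exact z5

/-- the measurable equivalence -/
def eIJ (I J : Finset ℝ≥0) : (I → ℝ) × (J → ℝ) ≃ᵐ (I ⊕ J → ℝ) :=
  (MeasurableEquiv.sumPiEquivProdPi (fun _ : I ⊕ J => ℝ)).symm

lemma eIJ_apply {I J : Finset ℝ≥0} (x : I → ℝ) (y : J → ℝ) : eIJ I J (x, y) = Sum.elim x y := by
  funext j
  cases j <;> rfl

/-- **both ends, along a sequence with a limit law** -/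
theorem both_seq (hB : BothSt) (hT : CharW) {φ : ℕ → ℕ} (hφ : Tendsto φ atTop atTop) {ν : Measure C(unitInterval, ℂ)}
    [IsProbabilityMeasure ν] (hν : LawTo φ ν) (I J : Finset ℝ≥0) (hI : ∀ s ∈ I, s ≤ 1) (hJ : ∀ s ∈ J, s ≤ 1)
    (F : (C(unitInterval, ℂ) × ((I → ℝ) × (J → ℝ))) →ᵇ ℝ) :
    Tendsto (fun k => (∑ w ∈ saw (φ k), F (curve w, Thn I (φ k) w, ThnE J (φ k) w)) / ((saw (φ k)).card : ℝ)) atTop
      (𝓝 (∫ p, F p ∂(ν.prod ((BrownianReal.projectiveFamily I).prod (BrownianReal.projectiveFamily J))))) := by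
  have : IsProbabilityMeasure (((BrownianReal.projectiveFamily I).prod (BrownianReal.projectiveFamily J)).map (eIJ I J)) :=
    Measure.isProbabilityMeasure_map (eIJ I J).measurable.aemeasurable
  have hc : Continuous fun p : C(unitInterval, ℂ) × (I ⊕ J → ℝ) => (p.1, (fun j => p.2 (Sum.inl j), fun j => p.2 (Sum.inr j))) := by
    fun_prop
  have key := PW.joint_weak (S := fun k => saw (φ k)) (X := fun k w => curve w)
    (Y := fun k w => Sum.elim (Thn I (φ k) w) (ThnE J (φ k) w))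
    (μ := ((BrownianReal.projectiveFamily I).prod (BrownianReal.projectiveFamily J)).map (eIJ I J)) (ν := ν)
    (fun k => saw_nonempty _) (fun G => by
      refine (hν G).congr fun k => ?_
      exact (av_law (φ k) G).symm) (fun f hf hf1 t => by
      rw [integral_map_equiv]
      have e1 : ∫ x, Complex.exp ((∑ j, t j * eIJ I J x j : ℝ) * Complex.I)
          ∂((BrownianReal.projectiveFamily I).prod (BrownianReal.projectiveFamily J)) =
          (∫ x, Complex.exp ((∑ j, t (Sum.inl j) * x j : ℝ) * Complex.I) ∂(BrownianReal.projectiveFamily I)) *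
          ∫ y, Complex.exp ((∑ j, t (Sum.inr j) * y j : ℝ) * Complex.I) ∂(BrownianReal.projectiveFamily J) := by
        rw [← integral_prod_mul]
        refine integral_congr_ae (Eventually.of_forall fun x => ?_)
        obtain ⟨x, y⟩ := x
        simp only [eIJ_apply, Fintype.sum_sum_type, Sum.elim_inl, Sum.elim_inr]
        rw [← Complex.exp_add]
        congr 1
        push_cast
        ring
      rw [e1, PW.char_brown, PW.char_brown]
      refine ((char_both hB hT hf hf1 I J hI hJ (fun j => t (Sum.inl j)) (fun j => t (Sum.inr j))).comp hφ).congr fun k => ?_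
      simp only [Fintype.sum_sum_type, Sum.elim_inl, Sum.elim_inr]
      rfl)
    (F.compContinuous ⟨_, hc⟩)
  have e2 : ∫ p, (F.compContinuous ⟨_, hc⟩) p
      ∂(ν.prod (((BrownianReal.projectiveFamily I).prod (BrownianReal.projectiveFamily J)).map (eIJ I J))) =
      ∫ p, F p ∂(ν.prod ((BrownianReal.projectiveFamily I).prod (BrownianReal.projectiveFamily J))) := by
    rw [integral_prod _ ((F.compContinuous ⟨_, hc⟩).integrable _), integral_prod _ (F.integrable _)]
    refine integral_congr_ae (Eventually.of_forall fun x => ?_)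
    simp only
    rw [integral_map_equiv]
    refine integral_congr_ae (Eventually.of_forall fun y => ?_)
    obtain ⟨y, z⟩ := y
    show F (x, (fun j => eIJ I J (y, z) (Sum.inl j), fun j => eIJ I J (y, z) (Sum.inr j))) = F (x, (y, z))
    rw [eIJ_apply]
    rfl
  rw [e2] at key
  exact key

/-- **both ends and the curve, without subsequences** -/
theorem both_all (hB : BothSt) (hT : CharW) (I J : Finset ℝ≥0) (hI : ∀ s ∈ I, s ≤ 1) (hJ : ∀ s ∈ J, s ≤ 1)
    (F : (C(unitInterval, ℂ) × ((I → ℝ) × (J → ℝ))) →ᵇ ℝ) :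
    Tendsto (fun n => (∑ w ∈ saw n, F (curve w, Thn I n w, ThnE J n w)) / ((saw n).card : ℝ) -
      ∫ γ, (∫ y, F (γ, y) ∂((BrownianReal.projectiveFamily I).prod (BrownianReal.projectiveFamily J))) ∂(law n)) atTop
      (𝓝 0) := by
  obtain ⟨c, C, -, -, -, -, -, hsub, -⟩ := NTSF.finE
  obtain ⟨G, hG⟩ : ∃ G : C(unitInterval, ℂ) →ᵇ ℝ, ∀ x, G x =
      ∫ y, F (x, y) ∂((BrownianReal.projectiveFamily I).prod (BrownianReal.projectiveFamily J)) := by
    have hb : ∀ x y, ‖F (x, y)‖ ≤ ‖F‖ := fun x y => F.norm_coe_le_norm _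
    have hc : Continuous fun x : C(unitInterval, ℂ) =>
        ∫ y, F (x, y) ∂((BrownianReal.projectiveFamily I).prod (BrownianReal.projectiveFamily J)) := by
      refine continuous_of_dominated (bound := fun _ => ‖F‖) (fun x => ?_) (fun x => Eventually.of_forall fun y => hb x y)
        (integrable_const _) (Eventually.of_forall fun y => ?_)
      · exact (by fun_prop : Continuous fun y => F (x, y)).stronglyMeasurable.aestronglyMeasurable
      · exact (by fun_prop : Continuous fun x => F (x, y))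
    refine ⟨BoundedContinuousFunction.ofNormedAddCommGroup _ hc ‖F‖ fun x => ?_, fun x => rfl⟩
    refine (norm_integral_le_integral_norm _).trans ?_
    calc _ ≤ ∫ _y, ‖F‖ ∂((BrownianReal.projectiveFamily I).prod (BrownianReal.projectiveFamily J)) := by
          refine integral_mono_of_nonneg (Eventually.of_forall fun y => norm_nonneg _) (integrable_const _)
            (Eventually.of_forall fun y => hb x y)
      _ = ‖F‖ := by simp
  refine tendsto_of_subseq_tendsto fun ns hns => ?_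
  obtain ⟨φ, hφ, hφ2⟩ := strictMono_subseq_of_tendsto_atTop hns
  obtain ⟨ψ, hψ, ν, hν, hlaw⟩ := hsub (ns ∘ φ) hφ2
  refine ⟨fun k => φ (ψ k), ?_⟩
  have h1 := both_seq hB hT (φ := fun k => ns (φ (ψ k))) (hφ2.tendsto_atTop.comp hψ.tendsto_atTop) hlaw I J hI hJ F
  have h2 := hlaw G
  have e : ∫ p, F p ∂(ν.prod ((BrownianReal.projectiveFamily I).prod (BrownianReal.projectiveFamily J))) = ∫ x, G x ∂ν := by
    rw [integral_prod _ (F.integrable _)]
    simp only [hG]
  rw [e] at h1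
  have h3 := h1.sub h2
  rw [sub_self] at h3
  refine h3.congr fun k => ?_
  simp only [hG]
  rfl

end Cg

end NTSF

end
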