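import Pool.Agent.PW.RedW
import Pool.Agent.PW.BmW

/-!
# PW, row BM-J (helper16): the tip and the windings at larger times

* `farH_of` : the windings between the times `κ j` and `κ i`, `i > j`, are a far phase;
* **`tipU`** : the mean of `f (curve) * exp (i ∑ u_i Θ(κ_i))` as a product, uniformly in the times.
-/

set_option autoImplicit false

noncomputable section

namespace NTSF

open Finset Filter Topology

open HexObs hiding pos

open HexObs.TIW HexObs.SDN HexObs.PWd HexObs.PWN HexObs.PWN.RM HexObs.TOG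

open Pool.Agent.NTS.Res Pool.Agent.PW.Res

open NTF (sw JJ JJ_norm JJ_sub JJ_add)

open Cg

open scoped Classical

theorem m1W : M1W := fun _ _ h1 h2 => Wd.m1_word h1 h2

theorem m2W : M2W := fun _ h => Wd.m2_word h

theorem wSW : WSW := fun _ _ h1 h2 => Wd.ws_word h1 h2

/-! ### 1. The far phase -/

variable {M : ℕ}

/-- the windings between the time `κ j` and the later times -/
def HU (j : Fin M) (κ : Fin M → ℕ) (u : Fin M → ℝ) (m : ℕ) (z : ℕ → ℂ) : ℝ :=
  ∑ i ∈ Ioi j, u i * turn z (min (κ j) m) (min (κ i) m)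

theorem turn_end {A Y : List Bool} {R : ℕ} (hY : ∀ i, i ≤ Y.length → hn (vx oo up Y i) < 2 ^ R)
    (hA : 4 * (2 : ℝ) ^ R ≤ ‖pS A A.length‖) (κ : ℕ) :
    |turn (pS (A ++ Y)) (min κ A.length) (min κ (A ++ Y).length)| ≤ Real.pi / 2 := by
  have hpi := Real.pi_pos
  have hl : (A ++ Y).length = A.length + Y.length := List.length_append
  rcases Nat.lt_or_ge A.length κ with h | h
  swap
  · rw [min_eq_left h, min_eq_left (by omega), turn_self, abs_zero]
    positivity
  · rw [min_eq_right h.le]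
    have e : pS (A ++ Y) A.length = pS A A.length := pS_app A Y le_rfl
    refine (turn_near (by omega) fun i h1 h2 => ?_).le
    obtain ⟨l, rfl⟩ : ∃ l, i = A.length + l := ⟨i - A.length, by omega⟩
    have h3 := pS_small hY (A := A) (j := l) (by omega)
    rw [e]
    have h4 : (0 : ℝ) < 2 ^ R := by positivity
    linarith

theorem HU_srob {j : Fin M} {κ : Fin M → ℕ} {u : Fin M → ℝ} (hκ : ∀ i, j ≤ i → κ j ≤ κ i) {A Y : List Bool} {R : ℕ}
    (hY : ∀ i, i ≤ Y.length → hn (vx oo up Y i) < 2 ^ R) (hA : 4 * (2 : ℝ) ^ R ≤ ‖pS A A.length‖) :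
    |qS (HU j κ u) (A ++ Y) - qS (HU j κ u) A| ≤ (∑ i ∈ Ioi j, |u i|) * Real.pi := by
  unfold qS HU
  rw [← sum_sub_distrib, sum_mul]
  refine (abs_sum_le_sum_abs _ _).trans (sum_le_sum fun i hi => ?_)
  rw [mem_Ioi] at hi
  rw [← mul_sub, abs_mul]
  refine mul_le_mul_of_nonneg_left ?_ (abs_nonneg _)
  have hl : (A ++ Y).length = A.length + Y.length := List.length_append
  have hji := hκ i hi.le
  have e1 : turn (pS A) (min (κ j) A.length) (min (κ i) A.length) =
      turn (pS (A ++ Y)) (min (κ j) A.length) (min (κ i) A.length) :=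
    turn_congr fun l _ hl => (pS_app A Y (hl.trans (min_le_right _ _))).symm
  have e2 := turn_add (pS (A ++ Y)) (show min (κ j) A.length ≤ min (κ i) A.length by omega)
    (show min (κ i) A.length ≤ min (κ i) (A ++ Y).length by omega)
  have e3 := turn_add (pS (A ++ Y)) (show min (κ j) A.length ≤ min (κ j) (A ++ Y).length by omega)
    (show min (κ j) (A ++ Y).length ≤ min (κ i) (A ++ Y).length by omega)
  have h1 := abs_le.1 (turn_end hY hA (κ i))
  have h2 := abs_le.1 (turn_end hY hA (κ j))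
  rw [e1, abs_le]
  constructor <;> linarith [h1.1, h1.2, h2.1, h2.2]

/-- **the windings at larger times are a far phase** -/
theorem farH_of {j : Fin M} {κ kk : Fin M → ℕ} {u : Fin M → ℝ} {N C0 R : ℕ} {τ L : ℝ} {r0 : Fin M → ℝ} (hτ : 0 ≤ τ)
    (hκ : ∀ i, j ≤ i → κ j ≤ κ i) (hL : 0 ≤ L) (hU : (∑ i ∈ Ioi j, |u i|) * (2 * L + Real.pi) ≤ τ / 2)
    (hfew : ∀ i, j ≤ i → ∀ m, N ≤ m → m ≤ 2 * N →
      En m (qS (BdQ (2 ^ (kk i - C0)) (r0 i) L (κ i))) ≤ τ ^ 2 / (16 * (M + 1))) :
    FarH N (kk j) C0 R τ (HU j κ u) where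
  rot := fun m z => by
    unfold HU
    simp only [turn_smul om_ne]
  neg := fun m z => by
    unfold HU
    have e : (fun i => -z i) = fun i => (-1 : ℂ) * z i := by
      funext i
      ring
    simp only [e, turn_smul (show (-1 : ℂ) ≠ 0 by norm_num)]
  loc := fun m z z' h => by
    unfold HU
    exact sum_congr rfl fun i _ => by rw [turn_congr fun l _ hl => h l (hl.trans (min_le_right _ _))]
  srob := fun A Y _ hY hA => by
    refine (HU_srob hκ hY hA).trans ?_
    have h1 : 0 ≤ ∑ i ∈ Ioi j, |u i| := sum_nonneg fun i _ => abs_nonneg _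
    have h2 : (∑ i ∈ Ioi j, |u i|) * Real.pi ≤ (∑ i ∈ Ioi j, |u i|) * (2 * L + Real.pi) :=
      mul_le_mul_of_nonneg_left (by linarith) h1
    linarith
  rob := by
    have hU0 : 0 ≤ ∑ i ∈ Ioi j, |u i| := sum_nonneg fun i _ => abs_nonneg _
    have hpi := Real.pi_pos
    obtain ⟨w, hw⟩ : ∃ w : ℝ, w = (∑ i ∈ Ioi j, |u i|) * (2 * L + Real.pi / 2) := ⟨_, rfl⟩
    have hw0 : 0 ≤ w := by rw [hw]; positivity
    have hw1 : w ≤ τ / 2 := by
      rw [hw]
      refine (mul_le_mul_of_nonneg_left ?_ hU0).trans hU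
      linarith
    obtain ⟨G, hG⟩ : ∃ G : List Bool → Prop, G = fun t => ∀ i, j ≤ i →
      GdP (2 ^ (kk i - C0)) (r0 i) L (κ i) t.length (pE t.length t) := ⟨_, rfl⟩
    refine ⟨fun t => (if G t then 0 else 2) + w, fun t => by
      show 0 ≤ (if G t then (0 : ℝ) else 2) + w
      split_ifs <;> linarith, fun m hm1 hm2 => ?_, ?_⟩
    · -- the sum of the squares
      have h1 : ∀ t ∈ sawF m, ((if G t then (0 : ℝ) else 2) + w) ^ 2 ≤
          8 * ∑ i ∈ Ici j, qE (BdQ (2 ^ (kk i - C0)) (r0 i) L (κ i)) t + 2 * w ^ 2 := by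
        intro t _
        have h0 : ∀ i ∈ Ici j, 0 ≤ qE (BdQ (2 ^ (kk i - C0)) (r0 i) L (κ i)) t := fun i _ => BdQ_nn _ _ _ _ _ _
        by_cases h : G t
        · rw [if_pos h, zero_add]
          have := sum_nonneg h0
          nlinarith [sq_nonneg w]
        · rw [if_neg h]
          have h2 : 1 ≤ ∑ i ∈ Ici j, qE (BdQ (2 ^ (kk i - C0)) (r0 i) L (κ i)) t := by
            rw [hG] at h
            push Not at h
            obtain ⟨i, hi, h3⟩ := h
            have h4 : qE (BdQ (2 ^ (kk i - C0)) (r0 i) L (κ i)) t = 1 := if_neg h3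
            rw [← h4]
            exact single_le_sum h0 (mem_Ici.2 hi)
          nlinarith [sq_nonneg (2 - w)]
      have h2 : ∀ i ∈ Ici j, ∑ t ∈ sawF m, qE (BdQ (2 ^ (kk i - C0)) (r0 i) L (κ i)) t ≤
          τ ^ 2 / (16 * (M + 1)) * cS m := by
        intro i hi
        have h3 := hfew i (mem_Ici.1 hi) m hm1 hm2
        have h4 : (0 : ℝ) < cS m := by exact_mod_cast TOG.cS_pos m
        unfold En at h3
        rw [div_le_iff₀ h4] at h3
        rw [← sum_PF (BdQ_pf _ _ _ _)]
        exact h3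
      have h4 : (0 : ℝ) ≤ cS m := Nat.cast_nonneg _
      have h5 : ((Ici j).card : ℝ) * (τ ^ 2 / (16 * (M + 1)) * cS m) ≤ τ ^ 2 / 16 * cS m := by
        have h6 : ((Ici j).card : ℝ) ≤ M + 1 := by
          have h7 : (Ici j).card ≤ M := by
            have := card_le_univ (Ici j)
            rwa [Fintype.card_fin] at this
          have : ((Ici j).card : ℝ) ≤ M := by exact_mod_cast h7
          linarith
        calc ((Ici j).card : ℝ) * (τ ^ 2 / (16 * (M + 1)) * cS m) ≤ (M + 1) * (τ ^ 2 / (16 * (M + 1)) * cS m) :=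
              mul_le_mul_of_nonneg_right h6 (by positivity)
          _ = τ ^ 2 / 16 * cS m := by
              field_simp
      calc ∑ t ∈ sawF m, ((if G t then (0 : ℝ) else 2) + w) ^ 2
          ≤ ∑ t ∈ sawF m, (8 * ∑ i ∈ Ici j, qE (BdQ (2 ^ (kk i - C0)) (r0 i) L (κ i)) t + 2 * w ^ 2) := sum_le_sum h1
        _ = 8 * ∑ i ∈ Ici j, ∑ t ∈ sawF m, qE (BdQ (2 ^ (kk i - C0)) (r0 i) L (κ i)) t + 2 * w ^ 2 * cS m := by
            rw [sum_add_distrib, ← mul_sum, sum_comm, sum_const, nsmul_eq_mul, SLW.card_sawF]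
            ring
        _ ≤ 8 * (((Ici j).card : ℝ) * (τ ^ 2 / (16 * (M + 1)) * cS m)) + 2 * w ^ 2 * cS m := by
            have h6 := sum_le_sum h2
            rw [sum_const, nsmul_eq_mul] at h6
            linarith
        _ ≤ 8 * (τ ^ 2 / 16 * cS m) + 2 * (τ / 2) ^ 2 * cS m := by
            have h7 : w ^ 2 ≤ (τ / 2) ^ 2 := pow_le_pow_left₀ hw0 hw1 2
            have h8 : 2 * w ^ 2 * (cS m : ℝ) ≤ 2 * (τ / 2) ^ 2 * cS m :=
              mul_le_mul_of_nonneg_right (by linarith) h4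
            linarith
        _ = τ ^ 2 * cS m := by ring
    · intro g hg hg1 A Y hA hde hY
      show |g (qE (HU j κ u) (A ++ Y)) - g (qE (HU j κ u) A)| ≤ (if G (A ++ Y) then 0 else 2) + w
      by_cases h : G (A ++ Y)
      · rw [if_pos h, zero_add]
        refine (hg _ _).trans ?_
        rw [hG] at h
        unfold qE HU
        rw [← sum_sub_distrib, hw, sum_mul]
        refine (abs_sum_le_sum_abs _ _).trans (sum_le_sum fun i hi => ?_)
        rw [mem_Ioi] at hi
        rw [← mul_sub, abs_mul]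
        refine mul_le_mul_of_nonneg_left ?_ (abs_nonneg _)
        have hj := h j le_rfl
        have hi' := h i hi.le
        rw [abs_sub_comm]
        refine far_word (r := 2 ^ (kk j - C0)) Nat.one_le_two_pow (fun l hl => ?_) (hκ i hi.le) hL (fun l h1 h2 => ?_)
          (fun l h1 h2 h3 => hj.tur l h1 h2 h3) (fun l h1 h2 h3 => hi'.tur l h1 h2 h3)
        · have := hY l hl
          exact_mod_cast this
        · have := hj.far l h1 h2
          push_cast
          exact this
      · rw [if_neg h]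
        have h1 := abs_le.1 (hg1 (qE (HU j κ u) (A ++ Y)))
        have h2 := abs_le.1 (hg1 (qE (HU j κ u) A))
        rw [abs_le]
        constructor <;> linarith [h1.1, h1.2, h2.1, h2.2]

/-! ### 2. Scales -/

theorem mz_mono' {a b : ℕ} (h : a ≤ b) : PW.mZ (2 ^ a) ≤ PW.mZ (2 ^ b) := by
  have h5 := NTA.MLow.two NTA.mlow_M a (b - a)
  rw [show a + (b - a) = b by omega] at h5
  have h6 : 0 < PW.mZ (2 ^ a) := NTA.mlow_M.pos _
  have h7 : (1 : ℝ) ≤ 2 ^ (b - a) := one_le_pow₀ (by norm_num)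
  have h8 : PW.mZ (2 ^ a) ≤ 2 ^ (b - a) * PW.mZ (2 ^ a) := by nlinarith
  exact h8.trans h5

/-- large numbers of letters have large scales -/
theorem sc_large (k0 : ℕ) : ∃ κ0 : ℕ, ∀ κ k' : ℕ, κ0 ≤ κ → TIP.Sc k' κ → k0 ≤ k' := by
  refine ⟨nref k0, fun κ k' h hS => ?_⟩
  by_contra hcon
  push Not at hcon
  have h1 : PW.mZ (2 ^ (k' + 1)) ≤ PW.mZ (2 ^ k0) := mz_mono' (by omega)
  have h2 : PW.mZ (2 ^ k0) ≤ nref k0 := Nat.le_ceil _
  have h3 : ((nref k0 : ℕ) : ℝ) ≤ κ := by exact_mod_cast h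
  have h4 : (κ : ℝ) < PW.mZ (2 ^ (k' + 1)) := hS.2
  linarith

/-! ### 3. The theorem -/

/-- the first exit of the small disc is before `κ` -/
theorem GdP.ex_le {r r0 L : ℝ} {κ m : ℕ} {z : ℕ → ℂ} (h : GdP r r0 L κ m z) (hr : r0 ≤ 4 * r) (hκ : κ ≤ m) :
    ex r0 m z ≤ κ :=
  (ex_le_of (show κ / 2 ≤ m by omega) (hr.trans (h.far (κ / 2) le_rfl (by omega)))).trans (Nat.div_le_self _ _)

/-- the phase -/
theorem phase_eq {j : Fin M} {κ : Fin M → ℕ} {u : Fin M → ℝ} (hκ : ∀ i, j ≤ i → κ j ≤ κ i) (hκ1 : 1 ≤ κ j)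
    (hu : ∀ i, i < j → u i = 0) (v : ℝ) (z : ℕ → ℂ) {N : ℕ} (hN : ∀ i, j ≤ i → κ i ≤ N) :
    ∑ i, Function.update u j (v - ∑ i ∈ Ioi j, u i) i * turn z 1 (κ i) =
      v * turn z 1 (κ j) + HU j κ u N z := by
  have h1 : ∑ i, Function.update u j (v - ∑ i ∈ Ioi j, u i) i * turn z 1 (κ i) =
      ∑ i ∈ Ici j, Function.update u j (v - ∑ i ∈ Ioi j, u i) i * turn z 1 (κ i) := by
    symm
    refine sum_subset (subset_univ _) fun i _ hi => ?_
    rw [mem_Ici, not_le] at hi
    rw [Function.update_of_ne hi.ne, hu i hi, zero_mul]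
  have h2 : Ici j = insert j (Ioi j) := by
    ext i
    rw [mem_insert, mem_Ici, mem_Ioi]
    constructor
    · intro h
      rcases h.eq_or_lt with h | h
      · exact Or.inl h.symm
      · exact Or.inr h
    · rintro (h | h)
      · exact h.symm.le
      · exact h.le
  rw [h1, h2, sum_insert (by simp), Function.update_self]
  have h3 : ∑ i ∈ Ioi j, Function.update u j (v - ∑ i ∈ Ioi j, u i) i * turn z 1 (κ i) =
      ∑ i ∈ Ioi j, (u i * turn z 1 (κ j) + u i * turn z (min (κ j) N) (min (κ i) N)) := by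
    refine sum_congr rfl fun i hi => ?_
    rw [mem_Ioi] at hi
    rw [Function.update_of_ne hi.ne', min_eq_left (hN j le_rfl), min_eq_left (hN i hi.le),
      turn_add z hκ1 (hκ i hi.le)]
    ring
  rw [h3, sum_add_distrib, ← sum_mul]
  unfold HU
  ring

/-- **the tip and the windings at larger times, uniformly in the times** -/
theorem tipU (K : NNReal) (j : Fin M) {e : ℝ} (he : 0 < e) : ∃ C0 : ℕ, ∀ C, C0 ≤ C → ∃ (D : ℝ) (κ0 : ℕ),
    ∀ (N k' : ℕ) (κ : Fin M → ℕ), (∀ i, j ≤ i → κ i ≤ N) → (∀ i, j ≤ i → κ j ≤ κ i) → κ0 ≤ κ j → TIP.Sc k' (κ j) →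
    ∀ f : C(unitInterval, ℂ) → ℝ, LipschitzWith K f → (∀ x, |f x| ≤ 1) → ∀ u : Fin M → ℝ, (∀ i, i < j → u i = 0) →
    ∃ X : ℂ, ∀ v : ℝ,
    ‖EXc f N (fun t => ∑ i, Function.update u j (v - ∑ i ∈ Ioi j, u i) i * turn (pS t) 1 (κ i)) -
      psiW C (k' - C) v * X‖ ≤ e + D * (|v| + ∑ i ∈ Ioi j, |u i|) := by
  obtain ⟨τ, hτ, c1, C1, hcore⟩ := core K (e := e / 4) (by positivity)
  obtain ⟨ε, hεd⟩ : ∃ ε : ℝ, ε = min (τ ^ 2 / (16 * (M + 1))) (e / 8) := ⟨_, rfl⟩
  have hε : 0 < ε := hεd ▸ lt_min (by positivity) (by positivity)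
  have hε1 : ε ≤ τ ^ 2 / (16 * (M + 1)) := hεd ▸ min_le_left _ _
  have hε2 : ε ≤ e / 8 := hεd ▸ min_le_right _ _
  obtain ⟨c2, hgood⟩ := good_few m1W m2W wSW hε
  obtain ⟨C0, hC0⟩ : ∃ C0, C0 = max C1 c2 := ⟨_, rfl⟩
  refine ⟨C0 + C1, fun C hC => ?_⟩
  obtain ⟨k0, hcore⟩ := hcore C0 C (by omega) (by omega)
  obtain ⟨L, k1, hL, hgood⟩ := hgood C0 C (by omega) (by omega)
  obtain ⟨κ0, hκ0⟩ := sc_large (k0 + k1 + C + 1)
  have hpi := Real.pi_pos
  refine ⟨L + 2 * (2 * L + Real.pi) / τ, κ0 + 1, fun N k' κ hN hκ hκj hS f hf hf1 u hu => ?_⟩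
  obtain ⟨U, hU⟩ : ∃ U : ℝ, U = ∑ i ∈ Ioi j, |u i| := ⟨_, rfl⟩
  have hU0 : 0 ≤ U := by
    rw [hU]
    exact sum_nonneg fun i _ => abs_nonneg _
  rw [← hU]
  have hk' := hκ0 (κ j) k' (by omega) hS
  have hD0 : 0 ≤ 2 * (2 * L + Real.pi) / τ := by positivity
  by_cases hsm : U * (2 * L + Real.pi) ≤ τ / 2
  swap
  · refine ⟨0, fun v => ?_⟩
    rw [mul_zero, sub_zero]
    push Not at hsm
    refine (EXc_le hf1 _ _).trans ?_
    have h1 : 1 ≤ 2 * (2 * L + Real.pi) / τ * U := by
      rw [div_mul_eq_mul_div, le_div_iff₀ hτ]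
      linarith
    have h2 : 2 * (2 * L + Real.pi) / τ * U ≤ (L + 2 * (2 * L + Real.pi) / τ) * (|v| + U) := by
      have := abs_nonneg v
      have h3 : 0 ≤ L * (|v| + U) := by positivity
      have h4 : 0 ≤ 2 * (2 * L + Real.pi) / τ * |v| := by positivity
      nlinarith
    linarith
  · -- the scales of the times
    have hex : ∀ i, ∃ k, j ≤ i → TIP.Sc k (κ i) ∧ k' ≤ k := by
      intro i
      by_cases hi : j ≤ i
      · have h1 : PW.mZ (2 ^ k') ≤ κ i := hS.1.trans (by exact_mod_cast hκ i hi)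
        obtain ⟨k, hk1, hk2⟩ := sc_ex h1
        exact ⟨k, fun _ => ⟨hk2, hk1⟩⟩
      · exact ⟨0, fun h => absurd h hi⟩
    choose kk hkk using hex
    obtain ⟨kk', hkk'⟩ : ∃ kk' : Fin M → ℕ, kk' = Function.update kk j k' := ⟨_, rfl⟩
    have hkj : kk' j = k' := by rw [hkk', Function.update_self]
    have hks : ∀ i, j ≤ i → TIP.Sc (kk' i) (κ i) ∧ k' ≤ kk' i := by
      intro i hi
      by_cases h : i = j
      · rw [h, hkj]
        exact ⟨hS, le_rfl⟩
      · rw [hkk', Function.update_of_ne h]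
        exact hkk i hi
    have hN0 : PW.mZ (2 ^ k') ≤ N := hS.1.trans (by exact_mod_cast hN j le_rfl)
    obtain ⟨k, hk1, hSk⟩ := sc_ex hN0
    have hfar : FarH N (kk' j) C0 (k - c1) τ (HU j κ u) := by
      refine farH_of (r0 := fun i => 2 ^ (kk' i - C) / 2) (L := L) hτ.le hκ hL (by rw [← hU]; exact hsm) fun i hi m hm _ => ?_
      obtain ⟨h1, h2⟩ := hks i hi
      exact (hgood (kk' i) (κ i) (by omega) h1 m ((hN i hi).trans hm)).trans hε1
    rw [hkj] at hfar
    obtain ⟨X, hX⟩ := hcore k N k' (by omega) hk1 hSk f hf hf1 (HU j κ u) hfar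
    refine ⟨X, fun v => ?_⟩
    have hX := hX v
    obtain ⟨r0, hr0⟩ : ∃ r0 : ℝ, r0 = 2 ^ (k' - C) / 2 := ⟨_, rfl⟩
    rw [← hr0] at hX
    have hr00 : 0 < r0 := by rw [hr0]; positivity
    have hgj := hgood k' (κ j) (by omega) hS N (hN j le_rfl)
    rw [← hr0] at hgj
    obtain ⟨Q, hQ⟩ : ∃ Q : ℕ → (ℕ → ℂ) → ℝ, Q = BdQ (2 ^ (k' - C0)) r0 L (κ j) := ⟨_, rfl⟩
    rw [← hQ] at hgj
    have hr1 : r0 ≤ 4 * 2 ^ (k' - C0) := by
      rw [hr0]
      have h1 : (2 : ℝ) ^ (k' - C) ≤ 2 ^ (k' - C0) := pow_le_pow_right₀ (by norm_num) (by omega)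
      have h2 : (0 : ℝ) < 2 ^ (k' - C) := by positivity
      linarith
    have hdiff : ‖EXc f N (fun t => ∑ i, Function.update u j (v - ∑ i ∈ Ioi j, u i) i * turn (pS t) 1 (κ i)) -
        EXc f N (fun t => v * qS (th r0) t + qS (HU j κ u) t)‖ ≤ |v| * L + 2 * ε := by
      unfold EXc
      rw [← sub_div, ← sum_sub_distrib, sum_div]
      refine (norm_mean_le (F := fun t => |v| * L + 2 * qS Q t) fun t ht => ?_).trans ?_
      · rw [mem_sawF] at ht
        have hl : t.length = N := ht.1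
        rw [← mul_sub, norm_mul, Complex.norm_real, Real.norm_eq_abs]
        have hg1 := gS_abs hf1 N t
        have hv : 0 ≤ |v| * L := by positivity
        have hq0 : 0 ≤ qS Q t := by rw [hQ]; exact BdQ_nn _ _ _ _ _ _
        have key : ‖Complex.exp (((∑ i, Function.update u j (v - ∑ i ∈ Ioi j, u i) i * turn (pS t) 1 (κ i) : ℝ) : ℂ) *
            Complex.I) - Complex.exp (((v * qS (th r0) t + qS (HU j κ u) t : ℝ) : ℂ) * Complex.I)‖ ≤
            |v| * L + 2 * qS Q t := by
          by_cases h : GdP (2 ^ (k' - C0)) r0 L (κ j) N (pS t)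
          · refine (PW.exp_dist _ _).trans ?_
            rw [phase_eq hκ (by omega) hu v (pS t) hN]
            have e1 : qS (HU j κ u) t = HU j κ u N (pS t) := by
              unfold qS
              rw [hl]
            have e2 : qS (th r0) t = turn (pS t) 1 (ex r0 N (pS t)) := by
              unfold qS th
              rw [hl]
            have h1 := h.ex_le hr1 (hN j le_rfl)
            have h2 : 1 ≤ ex r0 N (pS t) := by
              by_contra hcon
              have h3 : ex r0 N (pS t) = 0 := by omega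
              have h4 : r0 ≤ ‖pS t (ex r0 N (pS t))‖ := by
                refine ex_spec ⟨κ j / 2, by have := hN j le_rfl; omega, hr1.trans (h.far _ le_rfl (by have := hN j le_rfl; omega))⟩
              rw [h3] at h4
              have h5 : pS t 0 = 0 := by
                have := NTF.JJ_sub (0 : Pt) 0
                unfold pS
                have e : vx oo up t 0 = 0 := rfl
                rw [e]
                simpa using this
              rw [h5, norm_zero] at h4
              linarith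
            have h3 := h.inn
            rw [min_eq_left (hN j le_rfl)] at h3
            rw [e1, e2, turn_add (pS t) h2 h1]
            have e3 : v * (turn (pS t) 1 (ex r0 N (pS t)) + turn (pS t) (ex r0 N (pS t)) (κ j)) + HU j κ u N (pS t) -
                (v * turn (pS t) 1 (ex r0 N (pS t)) + HU j κ u N (pS t)) = v * turn (pS t) (ex r0 N (pS t)) (κ j) := by
              ring
            rw [e3, abs_mul]
            have := mul_le_mul_of_nonneg_left h3 (abs_nonneg v)
            linarith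
          · have h1 : qS Q t = 1 := by
              rw [hQ]
              unfold qS
              rw [hl]
              exact if_neg h
            refine (PW.exp_dist2 _ _).trans ?_
            rw [h1]
            linarith
        calc _ ≤ 1 * (|v| * L + 2 * qS Q t) := mul_le_mul hg1 key (norm_nonneg _) zero_le_one
          _ = _ := one_mul _
      · have h1 : En N (fun t => |v| * L + 2 * qS Q t) = |v| * L + 2 * En N (qS Q) := by
          have h2 : En N (fun _ => |v| * L) = |v| * L := by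
            have h3 := En_one N
            unfold En at h3 ⊢
            rw [sum_const, nsmul_eq_mul] at h3 ⊢
            rw [mul_one] at h3
            rw [mul_comm, mul_div_assoc, h3, mul_one]
          have h4 : En N (fun t => 2 * qS Q t) = 2 * En N (qS Q) := by
            unfold En
            rw [← mul_sum, mul_div_assoc]
          rw [En_add N (fun _ => |v| * L) (fun t => 2 * qS Q t), h2, h4]
        rw [h1]
        linarith
    have e5 : EXc f N (fun t => ∑ i, Function.update u j (v - ∑ i ∈ Ioi j, u i) i * turn (pS t) 1 (κ i)) -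
        psiW C (k' - C) v * X =
        (EXc f N (fun t => ∑ i, Function.update u j (v - ∑ i ∈ Ioi j, u i) i * turn (pS t) 1 (κ i)) -
        EXc f N (fun t => v * qS (th r0) t + qS (HU j κ u) t)) +
        (EXc f N (fun t => v * qS (th r0) t + qS (HU j κ u) t) - psiW C (k' - C) v * X) := by ring
    rw [e5]
    refine (norm_add_le _ _).trans ((add_le_add hdiff hX).trans ?_)
    have h1 : |v| * L ≤ (L + 2 * (2 * L + Real.pi) / τ) * (|v| + U) := by
      have := abs_nonneg v
      have h3 : 0 ≤ L * U := by positivity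
      have h4 : 0 ≤ 2 * (2 * L + Real.pi) / τ * (|v| + U) := by positivity
      nlinarith
    linarith

end NTSF

end
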