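import Pool.Agent.PW.TipBD
import Pool.Agent.PW.TipU

/-!
# PW, both ends, row B3 (helper15): the windings around the two ends of the walk with `n` steps

* `cap r l w` : the windings up to the times `l j`, stopped at the first exit from the disc of radius `r`; an inner functional;
* `Us κ u` : the windings up to the times `κ j`; robust at the other end;
* **`bothW`** : from `TipB`, the mean of `f (curve) * exp (i ∑ u_j Θ_S(κ_j) + i ∑ w_j Θ_E(l_j))` is, up to `e + D (∑ |u_j| + ∑ |w_j|)`,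
  the mean of `f (curve) * exp (i ∑ u_j Θ_S(κ_j))` times the mean of `exp (i ∑ w_j Θ_E(l_j))`; uniform in the times and in `f`.
-/

set_option autoImplicit false

noncomputable section

namespace NTSF

open Finset Filter Topology

open HexObs hiding pos

open HexObs.TIW HexObs.SDN HexObs.PWd HexObs.PWN HexObs.PWN.RM HexObs.TOG

open Pool.Agent.NTS.Res Pool.Agent.PW.Res

open NTF (sw JJ JJ_norm JJ_sub JJ_add)

open Cg

open scoped Classical

variable {M : ℕ}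

/-! ### 1. The capped windings -/

/-- the windings up to the times `l j`, stopped at the first exit -/
def cap (r : ℝ) (l : Fin M → ℕ) (w : Fin M → ℝ) (m : ℕ) (z : ℕ → ℂ) : ℝ := ∑ j, w j * turn z 1 (min (l j) (ex r m z))

theorem cap_innP (r : ℝ) (l : Fin M → ℕ) (w : Fin M → ℝ) (g : ℝ → ℝ) : InnP r (fun m z => g (cap r l w m z)) where
  rot := fun m z c hc => by
    have hc0 : c ≠ 0 := norm_ne_zero_iff.1 (by rw [hc]; norm_num)
    unfold cap
    rw [ex_congr (z' := z) fun i _ => by rw [norm_mul, hc, one_mul]]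
    simp only [turn_smul hc0]
  loc := fun m z z' h => by
    unfold cap
    rw [ex_congr (z' := z') fun i hi => by rw [h i hi]]
    exact congrArg g (sum_congr rfl fun j _ => by
      rw [turn_congr fun i _ hi => h i (hi.trans ((min_le_right _ _).trans (ex_le _ _ _)))])
  inn := fun m m' z z' e he he' hz h => by
    obtain ⟨h1, h2⟩ := ex_inn he he' hz fun i hi => by rw [h i hi]
    unfold cap
    rw [← h1]
    exact congrArg g (sum_congr rfl fun j _ => by
      rw [turn_congr fun i _ hi => h i (hi.trans ((min_le_right _ _).trans h2))])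

/-- large winding outside of the disc -/
def wsQ (r L : ℝ) (m : ℕ) (z : ℕ → ℂ) : ℝ := if ∃ i0 i, i0 ≤ i ∧ i ≤ m ∧ r ≤ ‖z i0‖ ∧ L < |turn z i0 i| then 1 else 0

theorem wsQ_nn (r L : ℝ) (m : ℕ) (z : ℕ → ℂ) : 0 ≤ wsQ r L m z := by
  unfold wsQ
  split_ifs <;> norm_num

theorem wsQ_pf (r L : ℝ) : PF (wsQ r L) where
  rot := fun m z => by
    unfold wsQ
    simp only [norm_mul, om_norm, one_mul, turn_smul om_ne]
  neg := fun m z => by
    unfold wsQ
    have e : (fun i => -z i) = fun i => (-1 : ℂ) * z i := by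
      funext i
      ring
    have e1 : ∀ i0 i, turn (fun i => -z i) i0 i = turn z i0 i := fun i0 i => by
      rw [e, turn_smul (show (-1 : ℂ) ≠ 0 by norm_num)]
    simp only [norm_neg, e1]
  loc := fun m z z' h => by
    have key : ∀ (z z' : ℕ → ℂ), (∀ i, i ≤ m → z i = z' i) →
        (∃ i0 i, i0 ≤ i ∧ i ≤ m ∧ r ≤ ‖z i0‖ ∧ L < |turn z i0 i|) →
        ∃ i0 i, i0 ≤ i ∧ i ≤ m ∧ r ≤ ‖z' i0‖ ∧ L < |turn z' i0 i| := by
      rintro z z' h ⟨i0, i, h1, h2, h3, h4⟩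
      exact ⟨i0, i, h1, h2, by rw [← h i0 (h1.trans h2)]; exact h3, by
        rw [← turn_congr fun j _ hj => h j (hj.trans h2)]
        exact h4⟩
    unfold wsQ
    exact if_congr ⟨key z z' h, key z' z fun i hi => (h i hi).symm⟩ rfl rfl

/-- the error of the cap -/
theorem cap_err {r L : ℝ} {n : ℕ} {z : ℕ → ℂ} {l : Fin M → ℕ} {w : Fin M → ℝ} (hr : 0 < r) (hz : z 0 = 0) (hL : 0 ≤ L)
    (hl : ∀ j, l j ≤ n) (h : ¬ ∃ i0 i, i0 ≤ i ∧ i ≤ n ∧ r ≤ ‖z i0‖ ∧ L < |turn z i0 i|) :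
    |∑ j, w j * turn z 1 (l j) - cap r l w n z| ≤ (∑ j, |w j|) * L := by
  unfold cap
  rw [← sum_sub_distrib, sum_mul]
  refine (abs_sum_le_sum_abs _ _).trans (sum_le_sum fun j _ => ?_)
  rw [← mul_sub, abs_mul]
  refine mul_le_mul_of_nonneg_left ?_ (abs_nonneg _)
  rcases Nat.lt_or_ge (ex r n z) (l j) with h1 | h1
  · have h2 : ex r n z < n := lt_of_lt_of_le h1 (hl j)
    have h3 : r ≤ ‖z (ex r n z)‖ := by
      refine ex_spec ?_
      by_contra hcon
      unfold ex at h2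
      rw [dif_neg hcon] at h2
      exact lt_irrefl _ h2
    have h4 : 1 ≤ ex r n z := by
      by_contra hcon
      have h5 : ex r n z = 0 := by omega
      rw [h5, hz, norm_zero] at h3
      linarith
    rw [min_eq_right h1.le, turn_add z h4 h1.le, add_sub_cancel_left]
    by_contra hcon
    push Not at hcon
    exact h ⟨_, _, h1.le, hl j, h3, hcon⟩
  · rw [min_eq_left h1, sub_self, abs_zero]
    exact hL

theorem pE_zero (n : ℕ) (t : List Bool) : pE n t 0 = 0 := by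
  unfold pE
  rw [Nat.sub_zero, sub_self]

/-- large windings outside of a macroscopic disc are rare, both ends -/
theorem ws_few {ε : ℝ} (hε : 0 < ε) (C : ℕ) : ∃ (L : ℝ) (k0 : ℕ), 0 ≤ L ∧ ∀ k n : ℕ, k0 ≤ k → TIP.Sc k n →
    En n (qE (wsQ (2 ^ (k - C) / 2) L)) ≤ ε := by
  obtain ⟨a, A, ha, hA, hpow⟩ := HexObs.TIP.NQ.scale_pow
  obtain ⟨kb, hkb⟩ := big_of_sc 1
  obtain ⟨L, hL, hWS⟩ := wSW (1 / (2 * 2 ^ C * A)) ε (by positivity) hε
  refine ⟨L, kb + C, hL.le, fun k n hk hS => ?_⟩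
  have hn1 : 1 ≤ n := hkb k n (by omega) hS.1
  rw [← En_PF (wsQ_pf _ _)]
  have hh := En_le_Pn (n := n) (fun t => ∃ i0 i, i0 ≤ i ∧ i ≤ t.length ∧ 2 ^ (k - C) / 2 ≤ ‖pS t i0‖ ∧ L < |turn (pS t) i0 i|)
    (S := {t | ∃ i0 k : ℕ, i0 ≤ k ∧ k ≤ n ∧ 1 / (2 * 2 ^ C * A) * (n : ℝ) ^ (3 / 4 : ℝ) ≤ ‖pS t i0‖ ∧
      L < |turn (pS t) i0 k|}) ?_
  · exact hh.trans (hWS n hn1)
  · rintro t ht ⟨i0, i, h1, h2, h3, h4⟩
    have hl : t.length = n := ht.1
    refine ⟨i0, i, h1, by rw [← hl]; exact h2, le_trans ?_ h3, h4⟩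
    have h5 := (hpow k n hS.1 hS.2).2
    have h6 : (2 : ℝ) ^ (k - C) = 2 ^ k / 2 ^ C := by
      rw [eq_div_iff (by positivity), ← pow_add]
      congr 1
      omega
    calc 1 / (2 * 2 ^ C * A) * (n : ℝ) ^ (3 / 4 : ℝ) ≤ 1 / (2 * 2 ^ C * A) * (A * 2 ^ k) :=
          mul_le_mul_of_nonneg_left h5 (by positivity)
      _ = 2 ^ (k - C) / 2 := by
          rw [h6]
          field_simp

/-! ### 2. The windings around the start -/

/-- the windings up to the times `κ j` -/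
def Us (κ : Fin M → ℕ) (u : Fin M → ℝ) (m : ℕ) (z : ℕ → ℂ) : ℝ := ∑ j, u j * turn z 1 (min (κ j) m)

theorem Us_srob {κ : Fin M → ℕ} {u : Fin M → ℝ} {A Y : List Bool} {R : ℕ}
    (hY : ∀ i, i ≤ Y.length → hn (vx oo up Y i) < 2 ^ R) (hA : 4 * (2 : ℝ) ^ R ≤ ‖pS A A.length‖) :
    |qS (Us κ u) (A ++ Y) - qS (Us κ u) A| ≤ (∑ j, |u j|) * (Real.pi / 2) := by
  have hpi := Real.pi_pos
  have h0 : 1 ≤ A.length := by
    by_contra hcon
    have h1 : A.length = 0 := by omega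
    have h2 : pS A A.length = 0 := by
      rw [h1]
      have := NTF.JJ_sub (0 : Pt) 0
      unfold pS
      have e : vx oo up A 0 = 0 := rfl
      rw [e]
      simpa using this
    rw [h2, norm_zero] at hA
    have : (0 : ℝ) < 2 ^ R := by positivity
    linarith
  unfold qS Us
  rw [← sum_sub_distrib, sum_mul]
  refine (abs_sum_le_sum_abs _ _).trans (sum_le_sum fun j _ => ?_)
  rw [← mul_sub, abs_mul]
  refine mul_le_mul_of_nonneg_left ?_ (abs_nonneg _)
  have hl : (A ++ Y).length = A.length + Y.length := List.length_append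
  have e1 : turn (pS A) 1 (min (κ j) A.length) = turn (pS (A ++ Y)) 1 (min (κ j) A.length) :=
    turn_congr fun i _ hi => (pS_app A Y (hi.trans (min_le_right _ _))).symm
  rcases Nat.eq_zero_or_pos (κ j) with h1 | h1
  · rw [e1, h1, Nat.zero_min, Nat.zero_min, sub_self, abs_zero]
    positivity
  · have e2 := turn_add (pS (A ++ Y)) (show 1 ≤ min (κ j) A.length by omega)
      (show min (κ j) A.length ≤ min (κ j) (A ++ Y).length by omega)
    rw [e1, e2, add_sub_cancel_left]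
    exact turn_end hY hA (κ j)

/-! ### 3. Two estimates -/

/-- the mean does not change much when the phase does not change much -/
theorem EXc_dist {f : C(unitInterval, ℂ) → ℝ} (hf1 : ∀ x, |f x| ≤ 1) {n : ℕ} {a a' B : List Bool → ℝ} {x ε : ℝ}
    (hx : 0 ≤ x) (hB0 : ∀ t, 0 ≤ B t) (h : ∀ t ∈ sawF n, |a t - a' t| ≤ x ∨ B t = 1) (hB : En n B ≤ ε) :
    ‖EXc f n a - EXc f n a'‖ ≤ x + 2 * ε := by
  unfold EXc
  rw [← sub_div, ← sum_sub_distrib, sum_div]
  refine (norm_mean_le (F := fun t => x + 2 * B t) fun t ht => ?_).trans ?_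
  · rw [← mul_sub, norm_mul, Complex.norm_real, Real.norm_eq_abs]
    have hg1 := gS_abs hf1 n t
    have key : ‖Complex.exp ((a t : ℂ) * Complex.I) - Complex.exp ((a' t : ℂ) * Complex.I)‖ ≤ x + 2 * B t := by
      rcases h t ht with h1 | h1
      · refine (PW.exp_dist _ _).trans (h1.trans ?_)
        have := hB0 t
        linarith
      · refine (PW.exp_dist2 _ _).trans ?_
        rw [h1]
        linarith
    calc _ ≤ 1 * (x + 2 * B t) := mul_le_mul hg1 key (norm_nonneg _) zero_le_one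
      _ = _ := one_mul _
  · have h1 : En n (fun t => x + 2 * B t) = x + 2 * En n B := by
      have h2 : En n (fun _ => x) = x := by
        have h3 := En_one n
        unfold En at h3 ⊢
        rw [sum_const, nsmul_eq_mul] at h3 ⊢
        rw [mul_one] at h3
        rw [mul_comm, mul_div_assoc, h3, mul_one]
      have h4 : En n (fun t => 2 * B t) = 2 * En n B := by
        unfold En
        rw [← mul_sum, mul_div_assoc]
      rw [En_add n (fun _ => x) (fun t => 2 * B t), h2, h4]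
    rw [h1]
    linarith

/-- the cut-off at the tip -/
theorem EXc_ramp {f : C(unitInterval, ℂ) → ℝ} (hf1 : ∀ x, |f x| ≤ 1) {k n c : ℕ} {ε : ℝ}
    (hfar : En n (fun t => if ‖JJ (en t)‖ < 2 ^ k / 2 ^ c then 1 else 0) ≤ ε) (a : List Bool → ℝ) :
    ‖EXc f n a - ∑ t ∈ sawF n, ((gS f n t * rampP (2 ^ k / 2 ^ (c + 1)) t.length (pS t) / cS n : ℝ) : ℂ) *
      Complex.exp ((a t : ℂ) * Complex.I)‖ ≤ ε := by
  obtain ⟨ρ, hρ⟩ : ∃ ρ : ℝ, ρ = 2 ^ k / 2 ^ (c + 1) := ⟨_, rfl⟩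
  rw [← hρ]
  have hρ0 : 0 < ρ := hρ ▸ by positivity
  rw [EXc_sum, ← sum_sub_distrib]
  have e5 : ∀ t, ((gS f n t / cS n : ℝ) : ℂ) * Complex.exp ((a t : ℂ) * Complex.I) -
      ((gS f n t * rampP ρ t.length (pS t) / cS n : ℝ) : ℂ) * Complex.exp ((a t : ℂ) * Complex.I) =
      (((gS f n t * (1 - rampP ρ t.length (pS t)) : ℝ) : ℂ) * Complex.exp ((a t : ℂ) * Complex.I)) / (cS n : ℂ) := by
    intro t
    push_cast
    ring
  simp only [e5]
  refine (norm_mean_le fun t _ => ?_).trans hfar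
  rw [norm_mul, Complex.norm_exp_ofReal_mul_I, mul_one, Complex.norm_real, Real.norm_eq_abs, abs_mul]
  have h2 : rampP ρ t.length (pS t) = ramp (‖JJ (en t)‖ / ρ) := rfl
  have h3 := ramp_le (‖JJ (en t)‖ / ρ)
  have h4 := ramp_nn (‖JJ (en t)‖ / ρ)
  rw [h2, abs_of_nonneg (by linarith : 0 ≤ 1 - ramp (‖JJ (en t)‖ / ρ))]
  have h5 := gS_abs hf1 n t
  split_ifs with h
  · calc |gS f n t| * (1 - ramp (‖JJ (en t)‖ / ρ)) ≤ 1 * 1 := mul_le_mul h5 (by linarith) (by linarith) zero_le_one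
      _ = 1 := one_mul 1
  · rw [ramp_one, sub_self, mul_zero]
    rw [le_div_iff₀ hρ0, hρ]
    push Not at h
    refine le_trans (le_of_eq ?_) h
    rw [pow_succ]
    field_simp

/-- the windings around the start with the cut-off are robust -/
theorem Us_rob {κ : Fin M → ℕ} {u : Fin M → ℝ} {R : ℕ} {τ ρ : ℝ} (hτ : 0 ≤ τ) (hρ : 0 < ρ) (h1 : (2 : ℝ) ^ R ≤ τ * ρ)
    (h2 : (2 : ℝ) ^ R ≤ ρ / 16) (hu : (∑ j, |u j|) * (Real.pi / 2) ≤ τ) {g : ℝ → ℝ} (hg : ∀ x y, |g x - g y| ≤ |x - y|)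
    (hg1 : ∀ x, |g x| ≤ 1) : SRob R (2 * τ) (fun t => qS (rampP ρ) t * g (qS (Us κ u) t)) := by
  intro A Y hA hY
  show |qS (rampP ρ) (A ++ Y) * g (qS (Us κ u) (A ++ Y)) - qS (rampP ρ) A * g (qS (Us κ u) A)| ≤ 2 * τ
  have r1 := srob_ramp hρ h1 A Y hA hY
  by_cases hfar : 4 * (2 : ℝ) ^ R ≤ ‖pS A A.length‖
  · have h3 := mul_dist (a := qS (rampP ρ) (A ++ Y)) (c := qS (rampP ρ) A) (hg1 (qS (Us κ u) (A ++ Y)))
      (rampP_abs ρ A.length (pS A)) (d := g (qS (Us κ u) A))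
    have h4 := (hg (qS (Us κ u) (A ++ Y)) (qS (Us κ u) A)).trans ((Us_srob hY hfar).trans hu)
    linarith
  · push Not at hfar
    have h3 : qS (rampP ρ) A = 0 := by
      show ramp (‖pS A A.length‖ / ρ) = 0
      exact ramp_zero (by rw [div_le_one hρ]; linarith)
    have h4 : qS (rampP ρ) (A ++ Y) = 0 := by
      show ramp (‖pS (A ++ Y) (A ++ Y).length‖ / ρ) = 0
      refine ramp_zero ?_
      rw [div_le_one hρ]
      have h4 := pS_small hY (A := A) (j := Y.length) le_rfl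
      rw [List.length_append]
      have h5 : pS (A ++ Y) (A.length + Y.length) =
          pS A A.length + (pS (A ++ Y) (A.length + Y.length) - pS A A.length) := by ring
      rw [h5]
      refine (norm_add_le _ _).trans ?_
      linarith
    rw [h3, h4]
    simp only [zero_mul, sub_self, abs_zero]
    positivity

/-! ### 4. The theorem -/

theorem gS_const (n : ℕ) (t : List Bool) : gS (fun _ => 1) n t = 1 := by
  unfold gS gam
  norm_num

/-- **both ends** -/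
theorem bothW (hT : TipB (tent 0)) (K : NNReal) (M M' : ℕ) {e : ℝ} (he : 0 < e) : ∃ (D : ℝ) (n0 : ℕ), ∀ n, n0 ≤ n →
    ∀ f : C(unitInterval, ℂ) → ℝ, LipschitzWith K f → (∀ x, |f x| ≤ 1) →
    ∀ (κ : Fin M → ℕ) (l : Fin M' → ℕ), (∀ j, κ j ≤ n) → (∀ j, l j ≤ n) → ∀ (u : Fin M → ℝ) (w : Fin M' → ℝ),
    ‖EXc f n (fun t => ∑ j, u j * turn (pS t) 1 (κ j) + ∑ j, w j * turn (pE n t) 1 (l j)) -
      EXc f n (fun t => ∑ j, u j * turn (pS t) 1 (κ j)) *
        EXc (fun _ => 1) n (fun t => ∑ j, w j * turn (pE n t) 1 (l j))‖ ≤ e + D * (∑ j, |u j| + ∑ j, |w j|) := by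
  obtain ⟨ε, hεd⟩ : ∃ ε : ℝ, ε = e / 12 := ⟨_, rfl⟩
  have hε : 0 < ε := hεd ▸ by positivity
  obtain ⟨τ0, hτ0, hT⟩ := hT ε hε
  obtain ⟨τ, hτd⟩ : ∃ τ : ℝ, τ = τ0 / 3 := ⟨_, rfl⟩
  have hτ : 0 < τ := hτd ▸ by positivity
  have hτ3 : τ0 = 3 * τ := by rw [hτd]; ring
  obtain ⟨c, k1, hF⟩ := tipFar ε hε
  obtain ⟨cg, hcg⟩ := gS_rob K hτ
  obtain ⟨d, hd⟩ := pow_unbounded_of_one_lt (1 / τ) (one_lt_two : (1 : ℝ) < 2)
  obtain ⟨c1, hc1⟩ : ∃ c1, c1 = max cg (c + 1 + (d + 4)) := ⟨_, rfl⟩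
  obtain ⟨C, hT⟩ := hT c1
  obtain ⟨k0, hT⟩ := hT C le_rfl
  obtain ⟨L, k2, hL, hws⟩ := ws_few hε C
  obtain ⟨kb, hkb⟩ := big_of_sc 1
  obtain ⟨κ0, hκ0⟩ := sc_large (k0 + k1 + k2 + kb + C + c1)
  obtain ⟨κ1, hκ1⟩ : ∃ κ1 : ℕ, κ1 = nref 0 := ⟨_, rfl⟩
  have hpi := Real.pi_pos
  have hD0 : 0 ≤ Real.pi / τ := by positivity
  refine ⟨2 * L + Real.pi / τ, κ0 + κ1, fun n hn f hf hf1 κ l hκ hl u w => ?_⟩
  obtain ⟨U, hU⟩ : ∃ U : ℝ, U = ∑ j, |u j| := ⟨_, rfl⟩
  obtain ⟨W, hW⟩ : ∃ W : ℝ, W = ∑ j, |w j| := ⟨_, rfl⟩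
  have hU0 : 0 ≤ U := hU ▸ sum_nonneg fun i _ => abs_nonneg _
  have hW0 : 0 ≤ W := hW ▸ sum_nonneg fun i _ => abs_nonneg _
  rw [← hU, ← hW]
  have h1f : ∀ x : C(unitInterval, ℂ), |(fun _ => (1 : ℝ)) x| ≤ 1 := fun _ => by simp
  by_cases hsm : U * (Real.pi / 2) ≤ τ
  swap
  · push Not at hsm
    have h1 : ‖EXc f n (fun t => ∑ j, u j * turn (pS t) 1 (κ j) + ∑ j, w j * turn (pE n t) 1 (l j)) -
        EXc f n (fun t => ∑ j, u j * turn (pS t) 1 (κ j)) *
          EXc (fun _ => 1) n (fun t => ∑ j, w j * turn (pE n t) 1 (l j))‖ ≤ 2 := by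
      refine (norm_sub_le _ _).trans ?_
      rw [norm_mul]
      have a1 := EXc_le hf1 n (fun t => ∑ j, u j * turn (pS t) 1 (κ j) + ∑ j, w j * turn (pE n t) 1 (l j))
      have a2 := EXc_le hf1 n (fun t => ∑ j, u j * turn (pS t) 1 (κ j))
      have a3 := EXc_le h1f n (fun t => ∑ j, w j * turn (pE n t) 1 (l j))
      have a4 := mul_le_mul a2 a3 (norm_nonneg _) zero_le_one
      linarith
    have h2 : 2 ≤ Real.pi / τ * U := by
      rw [div_mul_eq_mul_div, le_div_iff₀ hτ]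
      linarith
    have h3 : 0 ≤ 2 * L * (U + W) := by positivity
    have h4 : 0 ≤ Real.pi / τ * W := by positivity
    nlinarith
  · -- the scale
    have hn0 : PW.mZ (2 ^ 0) ≤ n := (Nat.le_ceil _).trans (by
      have : nref 0 ≤ n := by omega
      exact_mod_cast this)
    obtain ⟨k, -, hS⟩ := sc_ex hn0
    have hk := hκ0 n k (by omega) hS
    have hn1 : 1 ≤ n := hkb k n (by omega) hS.1
    have hfar := hF k n (by omega) hS
    have hwsn := hws k n (by omega) hS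
    obtain ⟨r, hr⟩ : ∃ r : ℝ, r = 2 ^ (k - C) / 2 := ⟨_, rfl⟩
    rw [← hr] at hwsn
    have hr0 : 0 < r := hr ▸ by positivity
    have hr2 : 2 * r ≤ 2 ^ (k - C) := by rw [hr]; linarith
    obtain ⟨ρ, hρ⟩ : ∃ ρ : ℝ, ρ = 2 ^ k / 2 ^ (c + 1) := ⟨_, rfl⟩
    have hρ0 : 0 < ρ := hρ ▸ by positivity
    have hpow : ∀ a : ℕ, a ≤ k → (2 : ℝ) ^ (k - a) = 2 ^ k / 2 ^ a := fun a ha => by
      rw [eq_div_iff (by positivity), ← pow_add]
      congr 1
      omega
    have hτd1 : 1 ≤ τ * 2 ^ d := by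
      rw [div_lt_iff₀ hτ] at hd
      linarith
    have hD0' : (2 : ℝ) ^ (k - c1) ≤ 2 ^ k / 2 ^ (c + 1) * (1 / (2 ^ d * 2 ^ 4)) := by
      have h1 : (2 : ℝ) ^ (k - c1) ≤ 2 ^ (k - (c + 1 + (d + 4))) := pow_le_pow_right₀ (by norm_num) (by omega)
      refine h1.trans (le_of_eq ?_)
      rw [hpow _ (by omega), pow_add (2 : ℝ) (c + 1), pow_add (2 : ℝ) d]
      field_simp
    rw [← hρ] at hD0'
    have hD1 : (2 : ℝ) ^ (k - c1) ≤ τ * ρ := by
      refine hD0'.trans ?_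
      rw [mul_comm τ]
      refine mul_le_mul_of_nonneg_left ?_ hρ0.le
      rw [div_le_iff₀ (by positivity)]
      nlinarith
    have hD2 : (2 : ℝ) ^ (k - c1) ≤ ρ / 16 := by
      refine hD0'.trans ?_
      rw [div_eq_mul_one_div ρ 16]
      refine mul_le_mul_of_nonneg_left ?_ hρ0.le
      have h4 : (1 : ℝ) ≤ 2 ^ d := one_le_pow₀ (by norm_num)
      rw [div_le_div_iff₀ (by positivity) (by norm_num)]
      nlinarith
    have hgS := hcg c1 k n (by omega) (by omega) hn1 hS f hf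
    -- the functionals
    obtain ⟨aE, haE⟩ : ∃ aE : List Bool → ℝ, aE = qE (cap r l w) := ⟨_, rfl⟩
    obtain ⟨bS, hbS⟩ : ∃ bS : List Bool → ℝ, bS = qS (Us κ u) := ⟨_, rfl⟩
    obtain ⟨p, hp⟩ : ∃ p : List Bool → ℝ, p = fun t => gS f n t * rampP ρ t.length (pS t) / cS n := ⟨_, rfl⟩
    have hΦ : ∀ g : ℝ → ℝ, (∀ x y, |g x - g y| ≤ |x - y|) → (∀ x, |g x| ≤ 1) → ∀ g' : ℝ → ℝ, (∀ x, |g' x| ≤ 1) →
        |∑ t ∈ sawF n, p t * (g' (aE t) * g (bS t)) -
          EA (tent 0) n (fun t => g' (aE t)) * ∑ t ∈ sawF n, p t * g (bS t)| ≤ ε := by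
      intro g hg hg1 g' hg1'
      have h1 := hT k n (by omega) hS (fun t => g' (aE t)) (fun t => gS f n t * (qS (rampP ρ) t * g (qS (Us κ u) t)))
        (fun t => hg1' _) (fun t => abs_mul_le (gS_abs hf1 n t) (abs_mul_le (rampP_abs ρ _ _) (hg1 _)))
        (by rw [haE]; exact (cap_innP r l w g').inn_qE hr2) (by
          intro A Y hA hY
          have h1 := Us_rob hτ.le hρ0 hD1 hD2 (by rw [← hU]; exact hsm) hg hg1 A Y hA hY (κ := κ) (u := u)
          have h2 := hgS A Y hA hY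
          have h3 := mul_dist (a := gS f n (A ++ Y)) (b := qS (rampP ρ) (A ++ Y) * g (qS (Us κ u) (A ++ Y))) (c := gS f n A)
            (d := qS (rampP ρ) A * g (qS (Us κ u) A)) (abs_mul_le (rampP_abs ρ _ _) (hg1 _)) (gS_abs hf1 n A)
          show |gS f n (A ++ Y) * (qS (rampP ρ) (A ++ Y) * g (qS (Us κ u) (A ++ Y))) -
            gS f n A * (qS (rampP ρ) A * g (qS (Us κ u) A))| ≤ τ0
          linarith)
      have e1 : En n (fun t => gS f n t * (qS (rampP ρ) t * g (qS (Us κ u) t)) * g' (aE t)) =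
          ∑ t ∈ sawF n, p t * (g' (aE t) * g (bS t)) := by
        unfold En
        rw [sum_div, hp, hbS]
        refine sum_congr rfl fun t _ => ?_
        show gS f n t * (rampP ρ t.length (pS t) * g (qS (Us κ u) t)) * g' (aE t) / cS n = _
        ring
      have e2 : En n (fun t => gS f n t * (qS (rampP ρ) t * g (qS (Us κ u) t))) = ∑ t ∈ sawF n, p t * g (bS t) := by
        unfold En
        rw [sum_div, hp, hbS]
        refine sum_congr rfl fun t _ => ?_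
        show gS f n t * (rampP ρ t.length (pS t) * g (qS (Us κ u) t)) / cS n = _
        ring
      rw [← e1, ← e2]
      exact h1
    have hΨ : ∀ g' : ℝ → ℝ, (∀ x, |g' x| ≤ 1) → |En n (fun t => g' (aE t)) - EA (tent 0) n (fun t => g' (aE t))| ≤ ε := by
      intro g' hg1'
      have h1 := hT k n (by omega) hS (fun t => g' (aE t)) (fun _ => 1) (fun t => hg1' _) (fun t => by simp)
        (by rw [haE]; exact (cap_innP r l w g').inn_qE hr2) (fun A Y _ _ => by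
          rw [sub_self, abs_zero]
          exact hτ0.le)
      rw [En_one, mul_one] at h1
      have e1 : En n (fun t => 1 * g' (aE t)) = En n (fun t => g' (aE t)) := by simp only [one_mul]
      rw [e1] at h1
      exact h1
    have hcos := Real.abs_cos_sub_cos_le
    have hsin := Real.abs_sin_sub_sin_le
    have hc1' := Real.abs_cos_le_one
    have hs1' := Real.abs_sin_le_one
    obtain ⟨ψ, hψ⟩ : ∃ ψ : ℂ, ψ = ((EA (tent 0) n (fun t => Real.cos (aE t)) : ℝ) : ℂ) +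
      ((EA (tent 0) n (fun t => Real.sin (aE t)) : ℝ) : ℂ) * Complex.I := ⟨_, rfl⟩
    obtain ⟨G, hG⟩ : ∃ G : ℂ, G = ((∑ t ∈ sawF n, p t * Real.cos (bS t) : ℝ) : ℂ) +
      ((∑ t ∈ sawF n, p t * Real.sin (bS t) : ℝ) : ℂ) * Complex.I := ⟨_, rfl⟩
    have hG' : G = ∑ t ∈ sawF n, (p t : ℂ) * Complex.exp ((bS t : ℂ) * Complex.I) := by
      rw [hG]
      push_cast
      rw [sum_mul, ← sum_add_distrib]
      refine sum_congr rfl fun t _ => ?_
      rw [Complex.exp_mul_I]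
      ring
    -- the product
    have k1 : ‖∑ t ∈ sawF n, (p t : ℂ) * Complex.exp (((aE t + bS t : ℝ) : ℂ) * Complex.I) - ψ * G‖ ≤ 4 * ε := by
      rw [hψ, hG]
      exact PW.prod4 (S := sawF n) (p := p) aE bS (hΦ Real.cos hcos hc1' Real.cos hc1') (hΦ Real.sin hsin hs1' Real.cos hc1')
        (hΦ Real.cos hcos hc1' Real.sin hs1') (hΦ Real.sin hsin hs1' Real.sin hs1')
    have k2 : ‖EXc f n (fun t => aE t + bS t) -
        ∑ t ∈ sawF n, (p t : ℂ) * Complex.exp (((aE t + bS t : ℝ) : ℂ) * Complex.I)‖ ≤ ε := by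
      rw [hp, hρ]
      exact EXc_ramp hf1 hfar _
    have k3 : ‖EXc f n bS - G‖ ≤ ε := by
      rw [hG', hp, hρ]
      exact EXc_ramp hf1 hfar _
    have k4 : ‖EXc (fun _ => 1) n aE - ψ‖ ≤ 2 * ε := by
      have e1 : EXc (fun _ => 1) n aE = ((En n (fun t => Real.cos (aE t)) : ℝ) : ℂ) +
          ((En n (fun t => Real.sin (aE t)) : ℝ) : ℂ) * Complex.I := by
        unfold EXc En
        push_cast
        rw [div_mul_eq_mul_div, ← add_div, sum_mul, ← sum_add_distrib]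
        congr 1
        refine sum_congr rfl fun t _ => ?_
        rw [gS_const, Complex.exp_mul_I]
        push_cast
        ring
      have e2 : EXc (fun _ => 1) n aE - ψ =
          ((En n (fun t => Real.cos (aE t)) - EA (tent 0) n (fun t => Real.cos (aE t)) : ℝ) : ℂ) +
          ((En n (fun t => Real.sin (aE t)) - EA (tent 0) n (fun t => Real.sin (aE t)) : ℝ) : ℂ) * Complex.I := by
        rw [e1, hψ]
        push_cast
        ring
      rw [e2]
      refine (norm_add_le _ _).trans ?_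
      rw [norm_mul, Complex.norm_I, mul_one, Complex.norm_real, Complex.norm_real, Real.norm_eq_abs, Real.norm_eq_abs]
      have h1 := hΨ Real.cos hc1'
      have h2 := hΨ Real.sin hs1'
      linarith
    have hG1 : ‖G‖ ≤ 1 := by
      rw [hG', hp]
      have e : ∀ t, ((gS f n t * rampP ρ t.length (pS t) / cS n : ℝ) : ℂ) * Complex.exp ((bS t : ℂ) * Complex.I) =
          (((gS f n t * rampP ρ t.length (pS t) : ℝ) : ℂ) * Complex.exp ((bS t : ℂ) * Complex.I)) / (cS n : ℂ) := by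
        intro t
        push_cast
        ring
      simp only [e]
      refine (norm_mean_le (F := fun _ => 1) fun t _ => ?_).trans (En_one n).le
      rw [norm_mul, Complex.norm_exp_ofReal_mul_I, mul_one, Complex.norm_real]
      exact abs_mul_le (gS_abs hf1 n t) (rampP_abs ρ _ _)
    have hE1 := EXc_le h1f n aE
    -- the caps
    have hcap : ∀ t ∈ sawF n, |∑ j, w j * turn (pE n t) 1 (l j) - aE t| ≤ W * L ∨ qE (wsQ r L) t = 1 := by
      intro t ht
      rw [mem_sawF] at ht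
      have hl' : t.length = n := ht.1
      by_cases h : ∃ i0 i, i0 ≤ i ∧ i ≤ n ∧ r ≤ ‖pE n t i0‖ ∧ L < |turn (pE n t) i0 i|
      · right
        unfold qE wsQ
        rw [hl']
        exact if_pos h
      · left
        rw [haE, hW]
        unfold qE
        rw [hl']
        exact cap_err hr0 (pE_zero n t) hL hl h
    have hbS' : ∀ t ∈ sawF n, bS t = ∑ j, u j * turn (pS t) 1 (κ j) := by
      intro t ht
      rw [mem_sawF] at ht
      have hl' : t.length = n := ht.1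
      rw [hbS]
      unfold qS Us
      rw [hl']
      exact sum_congr rfl fun j _ => by rw [min_eq_left (hκ j)]
    have hB0 : ∀ t, 0 ≤ qE (wsQ r L) t := fun t => wsQ_nn _ _ _ _
    have k5 : ‖EXc f n (fun t => ∑ j, u j * turn (pS t) 1 (κ j) + ∑ j, w j * turn (pE n t) 1 (l j)) -
        EXc f n (fun t => aE t + bS t)‖ ≤ W * L + 2 * ε := by
      refine EXc_dist hf1 (by positivity) hB0 (fun t ht => ?_) hwsn
      rcases hcap t ht with h1 | h1
      · left
        rw [hbS' t ht]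
        have e : ∑ j, u j * turn (pS t) 1 (κ j) + ∑ j, w j * turn (pE n t) 1 (l j) -
            (aE t + ∑ j, u j * turn (pS t) 1 (κ j)) = ∑ j, w j * turn (pE n t) 1 (l j) - aE t := by ring
        rw [e]
        exact h1
      · exact Or.inr h1
    have k6 : ‖EXc (fun _ => 1) n (fun t => ∑ j, w j * turn (pE n t) 1 (l j)) - EXc (fun _ => 1) n aE‖ ≤ W * L + 2 * ε :=
      EXc_dist h1f (by positivity) hB0 hcap hwsn
    have k7 : EXc f n (fun t => ∑ j, u j * turn (pS t) 1 (κ j)) = EXc f n bS := by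
      unfold EXc
      congr 1
      exact sum_congr rfl fun t ht => by rw [hbS' t ht]
    rw [k7]
    obtain ⟨X, hX⟩ : ∃ X, X = EXc f n (fun t => ∑ j, u j * turn (pS t) 1 (κ j) + ∑ j, w j * turn (pE n t) 1 (l j)) := ⟨_, rfl⟩
    obtain ⟨X1, hX1⟩ : ∃ X1, X1 = EXc f n (fun t => aE t + bS t) := ⟨_, rfl⟩
    obtain ⟨X2, hX2⟩ : ∃ X2 : ℂ, X2 = ∑ t ∈ sawF n, (p t : ℂ) * Complex.exp (((aE t + bS t : ℝ) : ℂ) * Complex.I) := ⟨_, rfl⟩
    obtain ⟨Y, hY⟩ : ∃ Y, Y = EXc (fun _ => 1) n (fun t => ∑ j, w j * turn (pE n t) 1 (l j)) := ⟨_, rfl⟩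
    obtain ⟨Y1, hY1⟩ : ∃ Y1, Y1 = EXc (fun _ => 1) n aE := ⟨_, rfl⟩
    obtain ⟨Z, hZ⟩ : ∃ Z, Z = EXc f n bS := ⟨_, rfl⟩
    have hZ1 : ‖Z‖ ≤ 1 := hZ ▸ EXc_le hf1 n bS
    rw [← hX1, ← hX] at k5
    rw [← hX1, ← hX2] at k2
    rw [← hX2] at k1
    rw [← hY, ← hY1] at k6
    rw [← hY1] at k4 hE1
    rw [← hZ] at k3
    rw [← hX, ← hY, ← hZ]
    have e1 : X - Z * Y = (X - X1) + (X1 - X2) + (X2 - ψ * G) + (ψ - Y1) * G + Y1 * (G - Z) + Z * (Y1 - Y) := by ring
    rw [e1]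
    have a1 : ‖(ψ - Y1) * G‖ ≤ 2 * ε := by
      rw [norm_mul, norm_sub_rev]
      calc ‖Y1 - ψ‖ * ‖G‖ ≤ (2 * ε) * 1 := mul_le_mul k4 hG1 (norm_nonneg _) (by positivity)
        _ = 2 * ε := mul_one _
    have a2 : ‖Y1 * (G - Z)‖ ≤ ε := by
      rw [norm_mul, norm_sub_rev]
      calc ‖Y1‖ * ‖Z - G‖ ≤ 1 * ε := mul_le_mul hE1 k3 (norm_nonneg _) zero_le_one
        _ = ε := one_mul _
    have a3 : ‖Z * (Y1 - Y)‖ ≤ W * L + 2 * ε := by
      rw [norm_mul, norm_sub_rev]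
      calc ‖Z‖ * ‖Y - Y1‖ ≤ 1 * (W * L + 2 * ε) := mul_le_mul hZ1 k6 (norm_nonneg _) zero_le_one
        _ = _ := one_mul _
    have b1 := norm_add_le ((X - X1) + (X1 - X2) + (X2 - ψ * G) + (ψ - Y1) * G + Y1 * (G - Z)) (Z * (Y1 - Y))
    have b2 := norm_add_le ((X - X1) + (X1 - X2) + (X2 - ψ * G) + (ψ - Y1) * G) (Y1 * (G - Z))
    have b3 := norm_add_le ((X - X1) + (X1 - X2) + (X2 - ψ * G)) ((ψ - Y1) * G)
    have b4 := norm_add_le ((X - X1) + (X1 - X2)) (X2 - ψ * G)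
    have b5 := norm_add_le (X - X1) (X1 - X2)
    have h3 : 0 ≤ L * U := by positivity
    have h4 : 0 ≤ Real.pi / τ * (U + W) := by positivity
    have h5 : (2 * L + Real.pi / τ) * (U + W) = 2 * (W * L) + 2 * (L * U) + Real.pi / τ * (U + W) := by ring
    rw [h5]
    linarith

end NTSF

end
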