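import Pool.Agent.PW.SlowI
import Pool.Agent.SLW.SlowFin

/-!
PW (helper66): slow change with an inner functional, no hypothesis.
-/

set_option autoImplicit false

namespace HexObs

namespace SLW

/-- **slow change with an inner functional** -/
theorem slowI : PWN.SlowI := slowI_of oscGSt elSt (momV_of aReg) chainSt aReg smallS

end SLW

end HexObs
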