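import Pool.Agent.PW.Inner
import Pool.Agent.PW.TipN
import Pool.Agent.SLW.Fin

/-!
# PW (helper66): slow change with an inner functional

`slowI` : the mass of the words with `n` letters, weighted by `Φ t * q t`, hardly changes with `n`: `Φ` hardly sees an end of
size less than `2 ^ (k - c1)`, `q` is a functional of the tip (`Inn (k - c')`). The text is the one of `slowF` (helper45,
helper92) with the ends `E` weighted by `q E`.
-/

set_option autoImplicit false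

namespace HexObs

open Finset TS SDN TIW

/-- **slow change with an inner functional** -/
def PWN.SlowI : Prop := ∀ ε : ℝ, 0 < ε → ∃ τ : ℝ, 0 < τ ∧ ∀ c1 : ℕ, ∃ c' c2 k0 : ℕ, ∀ k n h : ℕ, k0 ≤ k → TIP.Sc k n →
  Even h → h * 2 ^ c2 ≤ n → ∀ Φ q : List Bool → ℝ, (∀ t, |Φ t| ≤ 1) → (∀ t, |q t| ≤ 1) → PWN.Inn (k - c') q →
    PWN.SRob (k - c1) τ Φ →
    |xc ^ (n + h) * ∑ t ∈ sawF (n + h), Φ t * q t - xc ^ n * ∑ t ∈ sawF n, Φ t * q t| ≤ ε * (cS n * xc ^ n)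

namespace SLW

/-! ### 1. The identity -/

open Classical in
/-- the weight of a level, with a weight of the far part and a weight of the end -/
noncomputable def NTq (l : ℕ) (Ch : Set (List Bool)) (θ q : List Bool → ℝ) (t : List Bool) : ℝ :=
  ∑ p ∈ ((range (t.length + 1)) ×ˢ (range (t.length + 1))).filter (fun p => Dc l Ch t p.1 p.2),
    chi (2 ^ l) (t.drop p.2) * q (t.drop p.2) * θ (t.take p.1)

/-- the ends, weighted -/
noncomputable def eLq (l : ℕ) (q : List Bool → ℝ) : ℕ → ℝ :=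
  mW (fun E => TIP.ind (E ∈ Hp (2 ^ l)) * (chi (2 ^ l) E * q E))

lemma NTq_eq (l : ℕ) (Ch : Set (List Bool)) (θ q : List Bool → ℝ) (t : List Bool) :
    NTq l Ch θ q t = ∑ k ∈ range (t.length + 1), (TIP.ind (t.take k ∈ Fe (4 * 2 ^ l)) * θ (t.take k)) *
      ∑ j ∈ range ((t.drop k).length + 1), TIP.ind ((t.drop k).take j ∈ Ch) *
        (TIP.ind ((t.drop k).drop j ∈ Hp (2 ^ l)) * (chi (2 ^ l) ((t.drop k).drop j) * q ((t.drop k).drop j))) := by
  classical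
  unfold NTq
  rw [sum_filter, sum_product]
  refine sum_congr rfl fun i hi => ?_
  rw [mem_range] at hi
  obtain ⟨f, hf⟩ : ∃ f : ℕ → ℝ, f = fun j => if Dc l Ch t i j then chi (2 ^ l) (t.drop j) * q (t.drop j) * θ (t.take i) else 0 :=
    ⟨_, rfl⟩
  have e0 : ∑ y ∈ range (t.length + 1), (if Dc l Ch t (i, y).1 (i, y).2 then
      chi (2 ^ l) (t.drop (i, y).2) * q (t.drop (i, y).2) * θ (t.take (i, y).1) else 0) =
      ∑ y ∈ range (i + ((t.drop i).length + 1)), f y := by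
    rw [hf, List.length_drop]
    have : i + (t.length - i + 1) = t.length + 1 := by omega
    rw [this]
  rw [e0, sum_range_add]
  have e1 : ∑ y ∈ range i, f y = 0 := by
    refine sum_eq_zero fun y hy => ?_
    rw [mem_range] at hy
    rw [hf]
    exact if_neg fun h => absurd h.1 (by omega)
  rw [e1, zero_add, mul_sum]
  refine sum_congr rfl fun j hj => ?_
  rw [mem_range, List.length_drop] at hj
  have e2 : (t.take (i + j)).drop i = (t.drop i).take j := by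
    rw [List.drop_take]
    congr 1
    omega
  have e3 : t.drop (i + j) = (t.drop i).drop j := by
    rw [List.drop_drop]
  rw [hf]
  show (if Dc l Ch t i (i + j) then chi (2 ^ l) (t.drop (i + j)) * q (t.drop (i + j)) * θ (t.take i) else 0) = _
  unfold Dc
  rw [e2, e3]
  by_cases h1 : t.take i ∈ Fe (4 * 2 ^ l)
  · by_cases h2 : (t.drop i).take j ∈ Ch
    · by_cases h3 : (t.drop i).drop j ∈ Hp (2 ^ l)
      · rw [if_pos ⟨by omega, h1, h2, h3⟩, TIP.ind_pos h1, TIP.ind_pos h2, TIP.ind_pos h3]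
        ring
      · rw [if_neg fun h => h3 h.2.2.2, TIP.ind_neg h3]
        ring
    · rw [if_neg fun h => h2 h.2.2.1, TIP.ind_neg h2]
      ring
  · rw [if_neg fun h => h1 h.2.1, TIP.ind_neg h1]
    ring

/-- **the identity** -/
theorem convIdq (l : ℕ) (Ch : Set (List Bool)) (θ q : List Bool → ℝ) (n : ℕ) (hC : Chn l Ch) :
    ∑ t ∈ sawF n, xc ^ n * NTq l Ch θ q t = cv (cv (kF l θ) (eLq l q)) (vL Ch) n := by
  have key := congrFun (triple (fun A => TIP.ind (A ∈ Fe (4 * 2 ^ l)) * θ A) (fun V => TIP.ind (V ∈ Ch))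
    (fun E => TIP.ind (E ∈ Hp (2 ^ l)) * (chi (2 ^ l) E * q E)) (by
      intro A V E h1 h2 h3 h4
      have i1 : A ∈ Fe (4 * 2 ^ l) := by
        by_contra h
        exact h1 (by rw [TIP.ind_neg h, zero_mul])
      have i2 : V ∈ Ch := by
        by_contra h
        exact h2 (TIP.ind_neg h)
      have i3 : E ∈ Hp (2 ^ l) := by
        by_contra h
        exact h3 (by rw [TIP.ind_neg h, zero_mul])
      exact glue3 hC h4 i1 i2 i3)) n
  rw [kF_mS, vL_mW] at key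
  unfold eLq
  rw [← key]
  unfold mS
  rw [mul_sum]
  exact sum_congr rfl fun t _ => by rw [NTq_eq]

lemma eLq_abs {q : List Bool → ℝ} (hq : ∀ t, |q t| ≤ 1) (l b : ℕ) : |eLq l q b| ≤ eL l b := by
  rw [← eL_mW]
  unfold eLq mW
  rw [abs_mul, abs_of_nonneg (pow_nonneg xc_pos.le _)]
  refine mul_le_mul_of_nonneg_left ((abs_sum_le_sum_abs _ _).trans (sum_le_sum fun E _ => ?_)) (pow_nonneg xc_pos.le _)
  have h0 : 0 ≤ TIP.ind (E ∈ Hp (2 ^ l)) := by
    by_cases h : E ∈ Hp (2 ^ l)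
    · rw [TIP.ind_pos h]; exact zero_le_one
    · rw [TIP.ind_neg h]
  rw [abs_mul, abs_of_nonneg h0, abs_mul, abs_of_nonneg (chi_nonneg _ _)]
  refine mul_le_mul_of_nonneg_left ?_ h0
  calc chi (2 ^ l) E * |q E| ≤ chi (2 ^ l) E * 1 := mul_le_mul_of_nonneg_left (hq E) (chi_nonneg _ _)
    _ = _ := mul_one _

/-! ### 2. One level -/

lemma NTq_osc {b l : ℕ} {Ch : Set (List Bool)} (hC : Chn l Ch) {Φ θ q : List Bool → ℝ} (hΦ : OscF l Φ θ)
    (hq : ∀ t, |q t| ≤ 1) (hb : b + 5 ≤ l) (hqi : PWN.Inn b q) {t : List Bool} (ht : t ∈ SA) :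
    |N1 l Ch t * (Φ t * q t) - NTq l Ch Φ q t| ≤ NT l Ch θ t := by
  classical
  unfold N1 NT NTq
  rw [sum_mul, ← sum_sub_distrib]
  refine (abs_sum_le_sum_abs _ _).trans (sum_le_sum fun p hp => ?_)
  rw [mem_filter, mem_product, mem_range, mem_range] at hp
  obtain ⟨⟨hp1, hp2⟩, h1, h2, h3, h4⟩ := hp
  show |chi (2 ^ l) (t.drop p.2) * 1 * (Φ t * q t) - chi (2 ^ l) (t.drop p.2) * q (t.drop p.2) * Φ (t.take p.1)| ≤
    chi (2 ^ l) (t.drop p.2) * θ (t.take p.1)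
  have e2 : t.drop p.1 = (t.take p.2).drop p.1 ++ t.drop p.2 := by
    nth_rw 1 [← List.take_append_drop p.2 t]
    rw [List.drop_append_of_le_length (by rw [List.length_take]; omega)]
  have h5 : t.drop p.1 ∈ Hp (2 * 2 ^ l) := by
    rw [e2]
    refine bu_hp (hC.bu h3) (fun i hi => ?_) h4
    have := hC.size _ h3 i hi
    push_cast
    exact this
  have h6 := hΦ (t.take p.1) (t.drop p.1) (by rw [List.take_append_drop]; exact ht) (fun i hi => by
    have := h5.2 i hi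
    push_cast at this
    exact this)
  rw [List.take_append_drop] at h6
  rcases eq_or_ne (chi (2 ^ l) (t.drop p.2)) 0 with h | h
  · rw [h]
    simp
  · have h7 : q (t.take p.2 ++ t.drop p.2) = q (t.drop p.2) := by
      refine hqi _ _ ?_ (PWN.chi_far hb h)
      rw [List.take_append_drop]
      exact ht
    rw [List.take_append_drop] at h7
    rw [h7]
    have e1 : chi (2 ^ l) (t.drop p.2) * 1 * (Φ t * q (t.drop p.2)) -
        chi (2 ^ l) (t.drop p.2) * q (t.drop p.2) * Φ (t.take p.1) =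
        chi (2 ^ l) (t.drop p.2) * (q (t.drop p.2) * (Φ t - Φ (t.take p.1))) := by ring
    rw [e1, abs_mul, abs_of_nonneg (chi_nonneg _ _), abs_mul]
    refine mul_le_mul_of_nonneg_left ?_ (chi_nonneg _ _)
    calc |q (t.drop p.2)| * |Φ t - Φ (t.take p.1)| ≤ 1 * |Φ t - Φ (t.take p.1)| :=
          mul_le_mul_of_nonneg_right (hq _) (abs_nonneg _)
      _ = |Φ t - Φ (t.take p.1)| := one_mul _
      _ ≤ _ := h6

lemma XLq_cv {b l : ℕ} {Ch : Set (List Bool)} (hC : Chn l Ch) {Φ θ q : List Bool → ℝ} (hΦ : OscF l Φ θ)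
    (hq : ∀ t, |q t| ≤ 1) (hb : b + 5 ≤ l) (hqi : PWN.Inn b q) (n : ℕ) :
    |XL l Ch (fun t => Φ t * q t) n - cv (cv (kF l Φ) (eLq l q)) (vL Ch) n| ≤ EL l Ch θ n := by
  unfold XL EL
  rw [← convIdq l Ch Φ q n hC, ← sum_sub_distrib]
  refine (abs_sum_le_sum_abs _ _).trans (sum_le_sum fun t ht => ?_)
  rw [← mul_sub, abs_mul, abs_of_nonneg (pow_nonneg xc_pos.le _)]
  exact mul_le_mul_of_nonneg_left (NTq_osc hC hΦ hq hb hqi (mem_sawF.1 ht).2) (pow_nonneg xc_pos.le _)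

/-- **one level**: the change of the length by `h` -/
theorem levelD_q {l B h : ℕ} {Ch : Set (List Bool)} (hC : Chn l Ch) (hB : ∀ V ∈ Ch, V.length ≤ B) (hB1 : 1 ≤ B) {δ η : ℝ}
    (hη : 0 ≤ η) (hδ : ∀ b, |vL Ch (b + h) - vL Ch b| ≤ δ) (hδ' : ∀ b, b < h → |vL Ch b| ≤ δ)
    (hδB : δ * B ≤ η * ∑ b ∈ range (B + 1), vL Ch b) {Φ Ψ θ q : List Bool → ℝ} (hΦΨ : ∀ t, |Φ t| ≤ Ψ t)
    (hΦ : OscF l Φ θ) (hΨ : OscF l Ψ θ) (hq : ∀ t, |q t| ≤ 1) {b : ℕ} (hb : b + 5 ≤ l) (hqi : PWN.Inn b q) (n : ℕ) :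
    |XL l Ch (fun t => Φ t * q t) (n + h) - XL l Ch (fun t => Φ t * q t) n| ≤
      η / B * ∑ j ∈ Icc (n - B) (n + h + B), (XL l Ch Ψ j + EL l Ch θ j) + EL l Ch θ (n + h) + EL l Ch θ n := by
  refine window_err (κ := cv (kF l Φ) (eLq l q)) (κ' := cv (kF l Ψ) (eL l)) (v := vL Ch) (e := EL l Ch θ)
    (W := ∑ b ∈ range (B + 1), vL Ch b) (δ := δ) (B := B) (N := B) (fun s => ?_) (fun b => vL_nonneg Ch b)
    (fun b hb => vL_zero hB hb) hδ hδ' le_rfl (by exact_mod_cast hB1) hη hδB n (XLq_cv hC hΦ hq hb hqi _)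
    (XLq_cv hC hΦ hq hb hqi _) ?_
  · rw [cv_comm (kF l Φ), cv_comm (kF l Ψ)]
    unfold cv
    refine (abs_sum_le_sum_abs _ _).trans (sum_le_sum fun b _ => ?_)
    rw [abs_mul]
    exact mul_le_mul (kF_abs hΦΨ b) (eLq_abs hq _ _) (abs_nonneg _) ((abs_nonneg _).trans (kF_abs hΦΨ b))
  · intro j _
    have h1 := abs_le.1 (XL_cv hC hΨ j)
    linarith [h1.1]

namespace FI

variable {lb s M : ℕ} {a w c : ℝ} {Ch : ℕ → Set (List Bool)} {B : ℕ → ℕ}

/-- **one level, normalised** -/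
lemma levelI (hG : OscGSt) (hE : ELSt) {C1 CA τ η δ : ℝ} {n h i : ℕ} {b : ℕ} {F q : List Bool → ℝ} (hq : ∀ t, |q t| ≤ 1) (hb : b + 5 ≤ lb) (hqi : PWN.Inn b q) (hF : ChF lb s M a w Ch B)
    (hw : 0 < w) (hc : 0 < c) (hs : 8 ≤ s) (hM : 1 ≤ M) (hV : MomC C1) (hi : i < M) (hτ : 0 ≤ τ) (hη : 0 ≤ η) (hη4 : η ≤ 1 / 4)
    (hB1 : 1 ≤ B i) (hδ : ∀ b, |vL (Ch i) (b + h) - vL (Ch i) b| ≤ δ) (hδ' : ∀ b, b < h → |vL (Ch i) b| ≤ δ)
    (hδB : δ * B i ≤ η * WL' (Ch i) (B i)) (hFb : ∀ t, |F t| ≤ 1) (hFo : OscF (lb + i * s) F fun _ => τ)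
    (hZ : ∀ j ∈ Icc (n - B i) (n + h + B i), Zm j ≤ CA * Zm n) :
    |TW.Ex (sawF n) (pw n n) (fun t => F t * q t * TW.al c (aL lb s M Ch B) M i t) -
      TW.Ex (sawF (n + h)) (pw n (n + h)) (fun t => F t * q t * TW.al c (aL lb s M Ch B) M i t)| ≤
      (4 * η * (C1 * CA + (τ * (CA + C1 ^ 2 * CA / w ^ 2) + 64 / (c * 2 ^ s) * (C1 ^ 2 * CA / w ^ 2))) +
        2 * (τ * (CA + C1 ^ 2 * CA / w ^ 2) + 64 / (c * 2 ^ s) * (C1 ^ 2 * CA / w ^ 2))) / M := by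
  have hM0 : (0 : ℝ) < M := by exact_mod_cast (by omega : 0 < M)
  have hZn := Zm_pos n
  have hU := Ub_pos (lb + i * s)
  have hW0 : 0 < WL' (Ch i) (B i) := hw.trans_le (hF.mass i hi)
  have hBr : (1 : ℝ) ≤ B i := by exact_mod_cast hB1
  obtain ⟨e0, he0⟩ : ∃ e0, e0 = τ * (CA + C1 ^ 2 * CA / w ^ 2) + 64 / (c * 2 ^ s) * (C1 ^ 2 * CA / w ^ 2) := ⟨_, rfl⟩
  rw [← he0]
  -- h is smaller than B
  have hhB : h ≤ B i := by
    by_contra hcon
    rw [not_le] at hcon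
    have h1 : WL' (Ch i) (B i) ≤ (B i + 1) * δ := by
      unfold WL'
      calc ∑ b ∈ range (B i + 1), vL (Ch i) b ≤ ∑ _b ∈ range (B i + 1), δ := by
            refine sum_le_sum fun b hb => ?_
            rw [mem_range] at hb
            exact (le_abs_self _).trans (hδ' b (by omega))
        _ = _ := by
            rw [sum_const, card_range, nsmul_eq_mul]
            push_cast
            ring
    have hδ0 : 0 ≤ δ := (abs_nonneg _).trans (hδ 0)
    nlinarith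
  obtain ⟨θ, hθ⟩ : ∃ θ : List Bool → ℝ, θ = fun A => τ + thG lb s M c Ch B i A := ⟨_, rfl⟩
  have hth : ∀ A, 0 ≤ thG lb s M c Ch B i A := by
    intro A
    unfold thG
    refine mul_nonneg (by positivity) (sum_nonneg fun j _ => ?_)
    refine div_nonneg ?_ (mul_nonneg hM0.le (mul_nonneg (WL_nonneg _ _) (Ub_pos _).le))
    unfold NI
    exact Nat.cast_nonneg _
  obtain ⟨g, hg⟩ : ∃ g : List Bool → ℝ, g = fun t => TW.gc c (TW.Ta (fun j => aL lb s M Ch B j t) M (i + 1)) := ⟨_, rfl⟩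
  have hg0 : ∀ t, 0 ≤ g t ∧ g t ≤ 1 := by
    intro t
    rw [hg]
    exact ⟨TW.gc_nonneg _ _, TW.gc_le_one _ _⟩
  have hgo : OscF (lb + i * s) g (thG lb s M c Ch B i) := by
    rw [hg]
    exact hG hF hw hc hs hi
  have hΦo : OscF (lb + i * s) (fun t => F t * g t) θ := by
    intro A Y hAY hY
    have h1 := hFo A Y hAY hY
    have h2 := hgo A Y hAY hY
    rw [hθ]
    show |F (A ++ Y) * g (A ++ Y) - F A * g A| ≤ τ + thG lb s M c Ch B i A
    have e : F (A ++ Y) * g (A ++ Y) - F A * g A = (F (A ++ Y) - F A) * g (A ++ Y) + F A * (g (A ++ Y) - g A) := by ring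
    rw [e]
    refine (abs_add_le _ _).trans (add_le_add ?_ ?_)
    · rw [abs_mul, abs_of_nonneg (hg0 _).1]
      calc |F (A ++ Y) - F A| * g (A ++ Y) ≤ |F (A ++ Y) - F A| * 1 := mul_le_mul_of_nonneg_left (hg0 _).2 (abs_nonneg _)
        _ = |F (A ++ Y) - F A| := mul_one _
        _ ≤ τ := h1
    · rw [abs_mul]
      calc |F A| * |g (A ++ Y) - g A| ≤ 1 * |g (A ++ Y) - g A| := mul_le_mul_of_nonneg_right (hFb A) (abs_nonneg _)
        _ = |g (A ++ Y) - g A| := one_mul _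
        _ ≤ _ := h2
  have hΨo : OscF (lb + i * s) (fun _ => 1) θ := by
    intro A Y _ _
    rw [sub_self, abs_zero, hθ]
    exact add_nonneg hτ (hth A)
  have hΦΨ : ∀ t, |F t * g t| ≤ (fun _ : List Bool => (1 : ℝ)) t := by
    intro t
    rw [abs_mul, abs_of_nonneg (hg0 t).1]
    calc |F t| * g t ≤ 1 * 1 := mul_le_mul (hFb t) (hg0 t).2 (hg0 t).1 zero_le_one
      _ = 1 := one_mul _
  have hL := levelD_q (hF.chn i hi) (hF.len i hi) hB1 hη hδ hδ' hδB hΦΨ hΦo hΨo hq (b := b) (by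
    have := Nat.le_add_right lb (i * s)
    omega) hqi n
  -- the masses
  obtain ⟨Q, hQ⟩ : ∃ Q, Q = WL' (Ch i) (B i) * Ub (lb + i * s) * Zm n := ⟨_, rfl⟩
  have hQ0 : 0 < Q := by rw [hQ]; positivity
  have hX : ∀ j ∈ Icc (n - B i) (n + h + B i), XL (lb + i * s) (Ch i) (fun _ => 1) j ≤ C1 * CA * Q := by
    intro j hj
    have h1 := (hV (lb + i * s) j (Ch i) (B i) (hF.chn i hi) (hF.len i hi)).1
    have e1 : XL (lb + i * s) (Ch i) (fun _ => 1) j = ∑ t ∈ sawF j, xc ^ j * N1 (lb + i * s) (Ch i) t := by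
      unfold XL
      exact sum_congr rfl fun t _ => by rw [mul_one]
    rw [e1]
    refine h1.trans ?_
    have h2 := hZ j hj
    have hC1 : 0 ≤ C1 * (∑ b ∈ range (B i + 1), vL (Ch i) b) * Ub (lb + i * s) := by
      have h3 : 0 ≤ ∑ t ∈ sawF j, xc ^ j * N1 (lb + i * s) (Ch i) t :=
        sum_nonneg fun t _ => mul_nonneg (pow_nonneg xc_pos.le _) (N1_nonneg _ _ _)
      have h4 := h3.trans h1
      have h5 : (0 : ℝ) < cS j * xc ^ j := Zm_pos j
      by_contra h6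
      rw [not_le] at h6
      nlinarith
    calc C1 * (∑ b ∈ range (B i + 1), vL (Ch i) b) * Ub (lb + i * s) * (cS j * xc ^ j)
        ≤ C1 * (∑ b ∈ range (B i + 1), vL (Ch i) b) * Ub (lb + i * s) * (CA * Zm n) := mul_le_mul_of_nonneg_left h2 hC1
      _ = _ := by
          rw [hQ]
          unfold WL'
          ring
  have hEL : ∀ j, Zm j ≤ CA * Zm n → EL (lb + i * s) (Ch i) θ j ≤ e0 * Q := by
    intro j hj
    have h1 := hE hF hw hc hs hi hτ j
    rw [← hθ] at h1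
    refine h1.trans ?_
    have h2 := Ex_osc (c := c) hF hw hc hM hV hi hτ hj
    rw [← he0, Ex_pw, div_le_iff₀ hZn] at h2
    have e1 : ∑ t ∈ sawF j, xc ^ j * (N1 (lb + i * s) (Ch i) t * (τ + 64 / (c * 2 ^ s) *
        ∑ k ∈ Ico (i + 1) M, qL lb s M Ch B k t)) = (M * (WL' (Ch i) (B i) * Ub (lb + i * s))) *
        ∑ t ∈ sawF j, xc ^ j * (aL lb s M Ch B i t * (τ + 64 / (c * 2 ^ s) * ∑ k ∈ Ico (i + 1) M, qL lb s M Ch B k t)) := by
      rw [mul_sum]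
      refine sum_congr rfl fun t _ => ?_
      unfold aL
      field_simp
    rw [e1]
    calc (M * (WL' (Ch i) (B i) * Ub (lb + i * s))) *
          ∑ t ∈ sawF j, xc ^ j * (aL lb s M Ch B i t * (τ + 64 / (c * 2 ^ s) * ∑ k ∈ Ico (i + 1) M, qL lb s M Ch B k t))
        ≤ (M * (WL' (Ch i) (B i) * Ub (lb + i * s))) * (e0 / M * Zm n) := mul_le_mul_of_nonneg_left h2 (by positivity)
      _ = e0 * Q := by
          rw [hQ]
          field_simp
  have hmem : ∀ j, n ≤ j → j ≤ n + h → j ∈ Icc (n - B i) (n + h + B i) := by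
    intro j h1 h2
    rw [mem_Icc]
    omega
  have hCQ : 0 ≤ C1 * CA * Q + e0 * Q := by
    have h1 := hX n (hmem n le_rfl (by omega))
    have h2 := hEL n (hZ n (hmem n le_rfl (by omega)))
    have h3 : 0 ≤ XL (lb + i * s) (Ch i) (fun _ => 1) n := by
      unfold XL
      exact sum_nonneg fun t _ => mul_nonneg (pow_nonneg xc_pos.le _) (mul_nonneg (N1_nonneg _ _ _) zero_le_one)
    have h4 : 0 ≤ EL (lb + i * s) (Ch i) θ n := by
      unfold EL
      refine sum_nonneg fun t _ => mul_nonneg (pow_nonneg xc_pos.le _) (NT_nonneg _ _ (fun A => ?_) _)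
      rw [hθ]
      exact add_nonneg hτ (hth A)
    linarith
  have hsum : ∑ j ∈ Icc (n - B i) (n + h + B i), (XL (lb + i * s) (Ch i) (fun _ => 1) j + EL (lb + i * s) (Ch i) θ j) ≤
      4 * B i * (C1 * CA * Q + e0 * Q) := by
    calc _ ≤ ∑ _j ∈ Icc (n - B i) (n + h + B i), (C1 * CA * Q + e0 * Q) :=
          sum_le_sum fun j hj => add_le_add (hX j hj) (hEL j (hZ j hj))
      _ = ((n + h + B i + 1 - (n - B i) : ℕ) : ℝ) * (C1 * CA * Q + e0 * Q) := by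
          rw [sum_const, Nat.card_Icc, nsmul_eq_mul]
      _ ≤ _ := by
          refine mul_le_mul_of_nonneg_right ?_ hCQ
          have h1 : n + h + B i + 1 - (n - B i) ≤ 4 * B i := by omega
          exact_mod_cast h1
  have h1 : |XL (lb + i * s) (Ch i) (fun t => F t * g t * q t) (n + h) - XL (lb + i * s) (Ch i) (fun t => F t * g t * q t) n| ≤
      (4 * η * (C1 * CA + e0) + 2 * e0) * Q := by
    refine hL.trans ?_
    have h2 : η / B i * ∑ j ∈ Icc (n - B i) (n + h + B i), (XL (lb + i * s) (Ch i) (fun _ => 1) j +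
        EL (lb + i * s) (Ch i) θ j) ≤ 4 * η * (C1 * CA * Q + e0 * Q) := by
      calc _ ≤ η / B i * (4 * B i * (C1 * CA * Q + e0 * Q)) := mul_le_mul_of_nonneg_left hsum (by positivity)
        _ = _ := by field_simp
    have h3 := hEL (n + h) (hZ _ (hmem _ (by omega) le_rfl))
    have h4 := hEL n (hZ _ (hmem _ le_rfl (by omega)))
    calc _ ≤ 4 * η * (C1 * CA * Q + e0 * Q) + e0 * Q + e0 * Q := add_le_add (add_le_add h2 h3) h4
      _ = _ := by ring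
  have e2 : ∀ j, TW.Ex (sawF j) (pw n j) (fun t => F t * q t * TW.al c (aL lb s M Ch B) M i t) =
      XL (lb + i * s) (Ch i) (fun t => F t * g t * q t) j / (M * Q) := by
    intro j
    rw [Ex_pw]
    unfold XL
    rw [sum_div, sum_div]
    refine sum_congr rfl fun t _ => ?_
    have e4 : aL lb s M Ch B i t = N1 (lb + i * s) (Ch i) t / (M * (WL' (Ch i) (B i) * Ub (lb + i * s))) := rfl
    have e5 : TW.al c (aL lb s M Ch B) M i t = aL lb s M Ch B i t * g t := by rw [hg]; rfl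
    rw [e5, e4, hQ]
    field_simp
  rw [e2, e2, ← sub_div, abs_div, abs_of_pos (show (0 : ℝ) < M * Q by positivity), div_le_div_iff₀ (by positivity) hM0,
    abs_sub_comm]
  calc |XL (lb + i * s) (Ch i) (fun t => F t * g t * q t) (n + h) - XL (lb + i * s) (Ch i) (fun t => F t * g t * q t) n| * M
      ≤ (4 * η * (C1 * CA + e0) + 2 * e0) * Q * M := mul_le_mul_of_nonneg_right h1 hM0.le
    _ = _ := by ring

open Classical in
/-- **all levels** -/
theorem levelsI (hG : OscGSt) (hE : ELSt) {C1 CA τ η x : ℝ} {n h : ℕ} {b : ℕ} {F q : List Bool → ℝ} (hq : ∀ t, |q t| ≤ 1) (hb : b + 5 ≤ lb) (hqi : PWN.Inn b q) (hF : ChF lb s M a w Ch B)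
    (hw : 0 < w) (hc : 0 < c) (hs : 8 ≤ s) (hM : 1 ≤ M) (hV : MomC C1) (hτ : 0 ≤ τ) (hη : 0 ≤ η) (hη4 : η ≤ 1 / 4)
    (hB1 : ∀ i, i < M → 1 ≤ B i) (hδ : ∀ i, i < M → ∃ δ : ℝ, (∀ b, |vL (Ch i) (b + h) - vL (Ch i) b| ≤ δ) ∧
      (∀ b, b < h → |vL (Ch i) b| ≤ δ) ∧ δ * B i ≤ η * WL' (Ch i) (B i)) (hFb : ∀ t, |F t| ≤ 1)
    (hFo : ∀ i, i < M → OscF (lb + i * s) F fun _ => τ)
    (hZ : ∀ i, i < M → ∀ j ∈ Icc (n - B i) (n + h + B i), Zm j ≤ CA * Zm n) (hCA : 1 ≤ CA) (hx : 0 ≤ x)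
    (hS : TOG.Pn n {t | ∑ i ∈ range M, aL lb s M Ch B i t < 2 * c} ≤ x)
    (hS' : TOG.Pn (n + h) {t | ∑ i ∈ range M, aL lb s M Ch B i t < 2 * c} ≤ x) :
    |xc ^ (n + h) * ∑ t ∈ sawF (n + h), F t * q t - xc ^ n * ∑ t ∈ sawF n, F t * q t| ≤
      (2 * (CA * x + C1 ^ 2 * CA / w ^ 2 / (c ^ 2 * M)) +
        (4 * η * (C1 * CA + (τ * (CA + C1 ^ 2 * CA / w ^ 2) + 64 / (c * 2 ^ s) * (C1 ^ 2 * CA / w ^ 2))) +
        2 * (τ * (CA + C1 ^ 2 * CA / w ^ 2) + 64 / (c * 2 ^ s) * (C1 ^ 2 * CA / w ^ 2))) / c) * Zm n := by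
  have hFq : ∀ t, |F t * q t| ≤ 1 := fun t => by
    rw [abs_mul]
    calc |F t| * |q t| ≤ 1 * 1 := mul_le_mul (hFb t) (hq t) (abs_nonneg _) zero_le_one
      _ = 1 := one_mul 1
  have hM0 : (0 : ℝ) < M := by exact_mod_cast (by omega : 0 < M)
  have hZn := Zm_pos n
  have hZh : Zm (n + h) ≤ CA * Zm n := hZ 0 (by omega) (n + h) (by rw [mem_Icc]; omega)
  have hZ1 : Zm n ≤ CA * Zm n := by nlinarith
  obtain ⟨κ, hκ⟩ : ∃ κ, κ = 4 * η * (C1 * CA + (τ * (CA + C1 ^ 2 * CA / w ^ 2) + 64 / (c * 2 ^ s) * (C1 ^ 2 * CA / w ^ 2))) +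
        2 * (τ * (CA + C1 ^ 2 * CA / w ^ 2) + 64 / (c * 2 ^ s) * (C1 ^ 2 * CA / w ^ 2)) := ⟨_, rfl⟩
  have e0 : ∀ t : List Bool, (TW.Ta (fun j => aL lb s M Ch B j t) M 0 < 2 * c) =
      (∑ i ∈ range M, aL lb s M Ch B i t < 2 * c) := by
    intro t
    unfold TW.Ta
    rw [← range_eq_Ico]
  have k1 : TW.Ex (sawF n) (pw n n) (fun t => if TW.Ta (fun j => aL lb s M Ch B j t) M 0 < 2 * c then 1 else 0) ≤ CA * x := by
    simp only [e0]
    rw [Ex_ind, div_self hZn.ne', one_mul]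
    nlinarith
  have k2 : TW.Ex (sawF (n + h)) (pw n (n + h)) (fun t => if TW.Ta (fun j => aL lb s M Ch B j t) M 0 < 2 * c then 1 else 0) ≤
      CA * x := by
    simp only [e0]
    rw [Ex_ind]
    have h1 : Zm (n + h) / Zm n ≤ CA := by rwa [div_le_iff₀ hZn]
    have h2 : 0 ≤ TOG.Pn (n + h) {t | ∑ i ∈ range M, aL lb s M Ch B i t < 2 * c} := by
      unfold TOG.Pn
      positivity
    calc _ ≤ CA * TOG.Pn (n + h) {t | ∑ i ∈ range M, aL lb s M Ch B i t < 2 * c} := mul_le_mul_of_nonneg_right h1 h2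
      _ ≤ _ := mul_le_mul_of_nonneg_left hS' (by linarith)
  have hD : ∀ l, l < M → |TW.Ex (sawF n) (pw n n) (fun t => F t * q t * TW.al c (aL lb s M Ch B) M l t) -
      TW.Ex (sawF (n + h)) (pw n (n + h)) (fun t => F t * q t * TW.al c (aL lb s M Ch B) M l t)| ≤ κ / M := by
    intro i hi
    obtain ⟨δ, d1, d2, d3⟩ := hδ i hi
    rw [hκ]
    exact levelI hG hE hq hb hqi hF hw hc hs hM hV hi hτ hη hη4 (hB1 i hi) d1 d2 d3 hFb (hFo i hi) (hZ i hi)
  have key := TW.tele_x (S := sawF n) (S' := sawF (n + h)) (p := pw n n) (p' := pw n (n + h)) (F := fun t => F t * q t)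
    (a := aL lb s M Ch B) (c := c) (B := C1 ^ 2 * CA / w ^ 2) (x := CA * x) (κ := fun _ => κ / M) (M := M)
    (pw_nonneg _ _) (pw_nonneg _ _) (fun l t => aL_nonneg l t) hc hM hFq
    (fun l hl => Ex_a2 hF hw hM hV hl hZ1) (fun l hl => Ex_a2 hF hw hM hV hl hZh) k1 k2 hD
  rw [sum_const, card_range, nsmul_eq_mul, mul_div_cancel₀ κ hM0.ne'] at key
  rw [← hκ]
  have e3 : ∀ j, TW.Ex (sawF j) (pw n j) (fun t => F t * q t) = (xc ^ j * ∑ t ∈ sawF j, F t * q t) / Zm n := by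
    intro j
    rw [Ex_pw, mul_sum]
  rw [e3, e3, ← sub_div, abs_div, abs_of_pos hZn, div_le_iff₀ hZn, abs_sub_comm] at key
  exact key

end FI

open FI

/-- **the assembly** -/
theorem slowI_of (hG : OscGSt) (hE : ELSt) (hV : MomV) (hCh : ChainSt) (hA : AReg) (hSm : SmallS) : PWN.SlowI := by
  intro ε hε
  obtain ⟨C1, hC1, hV⟩ := hV
  have hV' : MomC C1 := fun l n Ch B h1 h2 => hV l n Ch B h1 h2
  obtain ⟨CA0, hCA0, hA1, hA2⟩ := hA
  obtain ⟨CA, hCA⟩ : ∃ CA, CA = max CA0 1 := ⟨_, rfl⟩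
  have hCA1 : 1 ≤ CA := by rw [hCA]; exact le_max_right _ _
  have hCA2 : CA0 ≤ CA := by rw [hCA]; exact le_max_left _ _
  obtain ⟨a, c, ha, hc, hSm⟩ := hSm (ε / (16 * CA)) (by positivity)
  obtain ⟨η, hη⟩ : ∃ η, η = min (1 / 4) (ε * c / (64 * (C1 * CA))) := ⟨_, rfl⟩
  have hη0 : 0 < η := by
    rw [hη]
    exact lt_min (by norm_num) (by positivity)
  have hη4 : η ≤ 1 / 4 := by rw [hη]; exact min_le_left _ _
  have hη5 : η ≤ ε * c / (64 * (C1 * CA)) := by rw [hη]; exact min_le_right _ _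
  obtain ⟨w, q, l1, hw, hCh⟩ := hCh η (min a 1) hη0 (lt_min ha one_pos)
  obtain ⟨B0, hB0⟩ : ∃ B0, B0 = C1 ^ 2 * CA / w ^ 2 := ⟨_, rfl⟩
  have hB00 : 0 < B0 := by rw [hB0]; positivity
  obtain ⟨M0, hM0⟩ := hSm w hw
  obtain ⟨τ, hτ⟩ : ∃ τ, τ = ε * c / (64 * (CA + B0)) := ⟨_, rfl⟩
  have hτ0 : 0 < τ := by rw [hτ]; positivity
  refine ⟨τ, hτ0, fun c1 => ?_⟩
  obtain ⟨M, hM⟩ : ∃ M, M = max M0 1 + ⌈16 * B0 / (c ^ 2 * ε)⌉₊ := ⟨_, rfl⟩
  have hMM : M0 ≤ M := by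
    rw [hM]
    exact (le_max_left _ _).trans (Nat.le_add_right _ _)
  have hM1 : 1 ≤ M := by
    rw [hM]
    exact (le_max_right _ _).trans (Nat.le_add_right _ _)
  have hMr : 16 * B0 / (c ^ 2 * ε) ≤ M := by
    refine (Nat.le_ceil _).trans ?_
    rw [hM]
    push_cast
    have : (0 : ℝ) ≤ max (M0 : ℝ) 1 := le_max_of_le_right zero_le_one
    linarith
  have hMp : (0 : ℝ) < M := by exact_mod_cast (by omega : 0 < M)
  obtain ⟨s0, hs0⟩ := hM0 M hMM
  obtain ⟨s1, hs1⟩ := pow_unbounded_of_one_lt (4096 * B0 / (c ^ 2 * ε)) (one_lt_two (α := ℝ))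
  obtain ⟨s, hs⟩ : ∃ s, s = s0 + 8 + s1 := ⟨_, rfl⟩
  have hs2 : 4096 * B0 / (c ^ 2 * ε) ≤ 2 ^ s := by
    refine hs1.le.trans (pow_le_pow_right₀ (by norm_num) ?_)
    omega
  obtain ⟨c0, l0, k0, h⟩ := hs0 s (by omega)
  obtain ⟨Cm, hCm, hmup⟩ := NTA.mup_M
  have hml := NTA.mlow_M
  obtain ⟨D0, hD0⟩ : ∃ D0, D0 = M * s + c0 + c1 + 1 := ⟨_, rfl⟩
  obtain ⟨c2, hc2⟩ := pow_unbounded_of_one_lt (2 ^ q * Cm ^ (D0 + 1)) (one_lt_two (α := ℝ))
  refine ⟨D0 + 5, c2, k0 + D0 + l0 + l1 + c1 + 5, fun k n hh hk hSc hev hhn F qq hF hqq hqi hFo => ?_⟩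
  obtain ⟨m, hmm⟩ : ∃ m : ℕ → ℝ, m = fun k => PW.mZ (2 ^ k) := ⟨_, rfl⟩
  rw [← hmm] at hmup hml
  have hSc1 : m k ≤ n := by rw [hmm]; exact hSc.1
  have hSc2 : (n : ℝ) < m (k + 1) := by rw [hmm]; exact hSc.2
  obtain ⟨lb, hlb⟩ : ∃ lb, lb + D0 = k := ⟨k - D0, by omega⟩
  have hlb0 : l0 ≤ lb := by omega
  have hlb1 : l1 ≤ lb := by omega
  have hn1 : 1 ≤ n := by
    have h1 := hml.pos k
    have h2 : (0 : ℝ) < n := h1.trans_le hSc1
    exact_mod_cast h2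
  have hnr : (1 : ℝ) ≤ n := by exact_mod_cast hn1
  have hh1 : hh ≤ n := by
    have h1 : 1 ≤ 2 ^ c2 := Nat.one_le_two_pow
    nlinarith
  -- the chains
  have hall : ∀ i : ℕ, ∃ (Ch : Set (List Bool)) (B : ℕ), Chn (lb + i * s) Ch ∧ (∀ V ∈ Ch, V.length ≤ B) ∧ 1 ≤ B ∧
      (B : ℝ) ≤ min a 1 / 2 * PW.mZ (2 ^ (lb + i * s)) ∧ w ≤ ∑ b ∈ range (B + 1), vL Ch b ∧
      ∀ h : ℕ, Even h → (h : ℝ) * 2 ^ q ≤ PW.mZ (2 ^ (lb + i * s)) → ∃ δ : ℝ,
      (∀ b, |vL Ch (b + h) - vL Ch b| ≤ δ) ∧ (∀ b, b < h → |vL Ch b| ≤ δ) ∧ δ * B ≤ η * ∑ b ∈ range (B + 1), vL Ch b :=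
    fun i => hCh (lb + i * s) (hlb1.trans (Nat.le_add_right _ _))
  choose Ch B h1 h2 h3 h4 h5 h6 using hall
  have hlev : ∀ i, i < M → lb + i * s + s + c0 + c1 + 1 ≤ k := by
    intro i hi
    have e1 : (i + 1) * s ≤ M * s := Nat.mul_le_mul_right _ hi
    have e2 : (i + 1) * s = i * s + s := by ring
    omega
  have hmk : ∀ i, i < M → PW.mZ (2 ^ (lb + i * s)) ≤ n := by
    intro i hi
    have e1 : m (lb + i * s) ≤ m k := mZ_add hml (by have := hlev i hi; omega)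
    rw [hmm] at e1
    exact e1.trans (by rw [hmm] at hSc1; exact hSc1)
  have hmp : ∀ i, 0 < PW.mZ (2 ^ (lb + i * s)) := by
    intro i
    have := hml.pos (lb + i * s)
    rw [hmm] at this
    exact this
  have hBn : ∀ i, i < M → B i ≤ n := by
    intro i hi
    have e1 := h4 i
    have e2 : min a 1 / 2 * PW.mZ (2 ^ (lb + i * s)) ≤ 1 * n := by
      refine mul_le_mul ?_ (hmk i hi) (hmp i).le zero_le_one
      have := min_le_right a 1
      linarith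
    have e3 : (B i : ℝ) ≤ n := by linarith
    exact_mod_cast e3
  have hF' : ChF lb s M a w Ch B := by
    refine ⟨fun i _ => h1 i, fun i _ => h2 i, fun i _ => (h4 i).trans ?_, fun i _ => h5 i⟩
    refine mul_le_mul_of_nonneg_right ?_ (hmp i).le
    have := min_le_left a 1
    linarith
  -- the shift
  have hsh : ∀ i, (hh : ℝ) * 2 ^ q ≤ PW.mZ (2 ^ (lb + i * s)) := by
    intro i
    have e1 : m lb ≤ m (lb + i * s) := mZ_add hml (Nat.le_add_right _ _)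
    have e2 : m (k + 1) ≤ Cm ^ (D0 + 1) * m lb := by
      have := mZ_pow hCm (fun k => hmup k) lb (D0 + 1)
      rwa [show lb + (D0 + 1) = k + 1 by omega] at this
    have e3 : (hh : ℝ) * 2 ^ c2 ≤ n := by exact_mod_cast hhn
    have e4 : (hh : ℝ) * (2 ^ q * Cm ^ (D0 + 1)) ≤ Cm ^ (D0 + 1) * m lb := by
      calc (hh : ℝ) * (2 ^ q * Cm ^ (D0 + 1)) ≤ hh * 2 ^ c2 := mul_le_mul_of_nonneg_left hc2.le (Nat.cast_nonneg _)
        _ ≤ n := e3
        _ ≤ m (k + 1) := hSc2.le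
        _ ≤ _ := e2
    have e5 : 0 < Cm ^ (D0 + 1) := by positivity
    have e6 : (hh : ℝ) * 2 ^ q ≤ m lb := by
      have e7 : Cm ^ (D0 + 1) * ((hh : ℝ) * 2 ^ q) ≤ Cm ^ (D0 + 1) * m lb := by linarith
      exact le_of_mul_le_mul_left e7 e5
    rw [hmm] at e1 e6
    exact e6.trans e1
  -- the windows
  have hZ : ∀ i, i < M → ∀ j ∈ Icc (n - B i) (n + hh + B i), Zm j ≤ CA * Zm n := by
    intro i hi j hj
    rw [mem_Icc] at hj
    have e1 := hBn i hi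
    have e2 : CA0 * Zm n ≤ CA * Zm n := mul_le_mul_of_nonneg_right hCA2 (Zm_pos n).le
    refine le_trans ?_ e2
    rcases Nat.le_total j n with h7 | h7
    · exact hA1 j n h7
    · exact hA2 j n h7 (by omega) hn1
  -- the scale of n + h
  have hx' : TOG.Pn (n + hh) {t | ∑ i ∈ range M, aL lb s M Ch B i t < 2 * c} ≤ ε / (16 * CA) := by
    rcases lt_or_ge ((n + hh : ℕ) : ℝ) (m (k + 1)) with h7 | h7
    · refine h k (n + hh) lb (by omega) ⟨?_, ?_⟩ hlb0 (by omega) Ch B hF'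
      · rw [hmm] at hSc1
        refine hSc1.trans ?_
        push_cast
        linarith [(Nat.cast_nonneg hh : (0 : ℝ) ≤ hh)]
      · rw [hmm] at h7
        exact h7
    · refine h (k + 1) (n + hh) lb (by omega) ⟨?_, ?_⟩ hlb0 (by omega) Ch B hF'
      · rw [hmm] at h7
        exact h7
      · have e1 := mZ_two' hml (k + 1)
        have e2 : (hh : ℝ) ≤ n := by exact_mod_cast hh1
        have e3 : ((n + hh : ℕ) : ℝ) < m (k + 1 + 1) := by
          push_cast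
          linarith
        rw [hmm] at e3
        exact e3
  have key := levelsI hG hE (b := k - (D0 + 5)) (q := qq) hqq (by omega) hqi (C1 := C1) (CA := CA) (τ := τ) (η := η) (x := ε / (16 * CA)) (n := n) (h := hh) (F := F) hF' hw hc
    (by omega) hM1 hV' hτ0.le hη0.le hη4 (fun i _ => h3 i) (fun i _ => h6 i hh hev (hsh i)) hF ?_ hZ hCA1 (by positivity)
    (h k n lb (by omega) hSc hlb0 (by omega) Ch B hF') hx'
  · refine key.trans ?_
    have e9 : Zm n = cS n * xc ^ n := rfl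
    rw [e9]
    have hZn : (0 : ℝ) < cS n * xc ^ n := Zm_pos n
    refine mul_le_mul_of_nonneg_right ?_ hZn.le
    rw [← hB0]
    have g1 : 2 * (CA * (ε / (16 * CA))) = ε / 8 := by
      field_simp
      norm_num
    have g2 : 2 * (B0 / (c ^ 2 * M)) ≤ ε / 8 := by
      have e1 : B0 / (c ^ 2 * M) ≤ ε / 16 := by
        rw [div_le_iff₀ (by positivity)]
        rw [div_le_iff₀ (by positivity)] at hMr
        nlinarith
      linarith
    have g3 : τ * (CA + B0) = ε * c / 64 := by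
      rw [hτ]
      field_simp
    have g4 : 64 / (c * 2 ^ s) * B0 ≤ ε * c / 64 := by
      rw [div_le_iff₀ (by positivity)] at hs2
      rw [div_mul_eq_mul_div, div_le_iff₀ (by positivity)]
      nlinarith
    have g4' : 0 ≤ 64 / (c * 2 ^ s) * B0 := by positivity
    have g5 : 4 * η * (C1 * CA) ≤ ε * c / 16 := by
      rw [le_div_iff₀ (by positivity)] at hη5
      linarith
    obtain ⟨e0, he0⟩ : ∃ e0, e0 = τ * (CA + B0) + 64 / (c * 2 ^ s) * B0 := ⟨_, rfl⟩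
    rw [← he0]
    have g6 : e0 ≤ ε * c / 32 := by rw [he0]; linarith
    have g6' : 0 ≤ e0 := by rw [he0]; positivity
    have g7 : (4 * η * (C1 * CA + e0) + 2 * e0) / c ≤ ε * 5 / 32 := by
      rw [div_le_iff₀ hc]
      have g8 : 4 * η * e0 ≤ e0 := by nlinarith
      nlinarith
    calc 2 * (CA * (ε / (16 * CA)) + B0 / (c ^ 2 * M)) + (4 * η * (C1 * CA + e0) + 2 * e0) / c
        = 2 * (CA * (ε / (16 * CA))) + 2 * (B0 / (c ^ 2 * M)) + (4 * η * (C1 * CA + e0) + 2 * e0) / c := by ring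
      _ ≤ ε / 8 + ε / 8 + ε * 5 / 32 := by
          rw [g1]
          linarith
      _ ≤ ε := by linarith
  · intro i hi A Y hAY hY
    refine hFo A Y hAY fun j hj => (hY j hj).trans_le ?_
    have e1 := hlev i hi
    have e2 : (2 : ℤ) * 2 ^ (lb + i * s) = 2 ^ (lb + i * s + 1) := by
      rw [pow_succ]
      ring
    rw [e2]
    exact pow_le_pow_right₀ (by norm_num) (by omega)

end SLW

end HexObs
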