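import Pool.Agent.PW.SmallNZ
import Pool.Agent.PW.SlowIZ
import Pool.Agent.PW.TipB

/-!
PW (winding of the walk), both ends, row B2 (helper45): **`tipB`**, no hypothesis left.
-/

set_option autoImplicit false

namespace HexObs

namespace PWN

open SLW

/-- **the tip and the rest of the walk with `n` steps** -/
theorem tipB {Lg : ℝ} {g : ℝ → ℝ} (hg : Bump Lg g) {u : ℝ} (hu : g u = 1) : TipB g := tipB_of aReg slowI smallN hg hu

theorem tipB0 : TipB (tent 0) := tipB (tent_bump 0) (tent_one 0)

end PWN

end HexObs
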