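import Pool.Agent.PW.BothW
import Pool.Agent.PW.TipBZ

/-!
# PW, both ends, row B3 (helper15), final form: no hypothesis
-/

set_option autoImplicit false

noncomputable section

namespace NTSF

open Finset Filter Topology

open HexObs hiding pos

open HexObs.TIW HexObs.SDN HexObs.PWd HexObs.PWN HexObs.TOG

open Pool.Agent.NTS.Res Pool.Agent.PW.Res

open Cg

/-- **both ends** -/
theorem bothW0 (K : NNReal) (M M' : ℕ) {e : ℝ} (he : 0 < e) : ∃ (D : ℝ) (n0 : ℕ), ∀ n, n0 ≤ n →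
    ∀ f : C(unitInterval, ℂ) → ℝ, LipschitzWith K f → (∀ x, |f x| ≤ 1) →
    ∀ (κ : Fin M → ℕ) (l : Fin M' → ℕ), (∀ j, κ j ≤ n) → (∀ j, l j ≤ n) → ∀ (u : Fin M → ℝ) (w : Fin M' → ℝ),
    ‖EXc f n (fun t => ∑ j, u j * turn (pS t) 1 (κ j) + ∑ j, w j * turn (pE n t) 1 (l j)) -
      EXc f n (fun t => ∑ j, u j * turn (pS t) 1 (κ j)) *
        EXc (fun _ => 1) n (fun t => ∑ j, w j * turn (pE n t) 1 (l j))‖ ≤ e + D * (∑ j, |u j| + ∑ j, |w j|) :=
  bothW tipB0 K M M' he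

end NTSF

end
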