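import Pool.Agent.PW.BothP
import Pool.Agent.PW.Turns
import Pool.Agent.WND.Law

/-!
# PW, row R6 (helper90): the central limit theorem for the turns of the walk

* **`turn_joint`** : the curve and `(L - R) / √(log n)`, `L`, `R` = the numbers of the left and of the right turns, are
  asymptotically independent, and the second one is a centred Gaussian variable with the variance `36 / π ^ 2`;
* **`turn_cdf`** : the distribution functions.
-/

set_option autoImplicit false

noncomputable section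

open MeasureTheory ProbabilityTheory Filter Topology
open scoped ENNReal NNReal BoundedContinuousFunction

namespace NTSF

namespace Cg

open Finset

open Pool.Agent.NTS.Res Pool.Agent.PW.Res

/-- the difference of the numbers of the left and the right turns, divided by `√(log n)` -/
def Tr (n : ℕ) (w : Fin n → Fin 3) : ℝ := ((lefts w : ℝ) - rights w) / √(Real.log n)

/-- the factor -/
def aT : ℝ := 3 * √2 / Real.pi

lemma aT_sq : aT ^ 2 = 18 / Real.pi ^ 2 := by
  have h2 : (√2 : ℝ) ^ 2 = 2 := Real.sq_sqrt (by norm_num)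
  unfold aT
  rw [div_pow, mul_pow, h2]
  norm_num

/-- the single time `1` -/
abbrev I1 : Finset ℝ≥0 := {1}

/-- the time `1` as an element -/
def o1 : I1 := ⟨1, Finset.mem_singleton_self _⟩

lemma I1_le : ∀ s ∈ I1, s ≤ 1 := fun s hs => by
  rw [Finset.mem_singleton] at hs
  exact hs.le

lemma tm_one' (n : ℕ) : tm n 1 = n := by
  unfold tm
  rw [Real.rpow_one, Nat.floor_natCast]

lemma Thn_o1 (n : ℕ) (w : Fin n → Fin 3) : Thn I1 n w o1 = windS w n / √(2 * Real.log n) := by
  show windS w (tm n ((1 : ℝ≥0) : ℝ)) / √(2 * Real.log n) = _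
  rw [NNReal.coe_one, tm_one']

lemma ThnE_o1 (n : ℕ) (w : Fin n → Fin 3) : ThnE I1 n w o1 = windE w n / √(2 * Real.log n) := by
  show windE w (tm n ((1 : ℝ≥0) : ℝ)) / √(2 * Real.log n) = _
  rw [NNReal.coe_one, tm_one']

/-- the turns from the windings -/
lemma Tr_eq {n : ℕ} {w : Fin n → Fin 3} (hw : w ∈ saw n) : Tr n w = aT * (Thn I1 n w o1 - ThnE I1 n w o1) := by
  rw [Thn_o1, ThnE_o1]
  have h := Tn.turns hw
  have h3 : √(2 * Real.log n) = √2 * √(Real.log n) := Real.sqrt_mul (by norm_num) _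
  have h4 : (√2 : ℝ) ≠ 0 := by positivity
  have hp := Real.pi_ne_zero
  unfold Tr aT
  rw [h3]
  have h5 : ((lefts w : ℝ) - rights w) = 3 / Real.pi * (windS w n - windE w n) := by
    rw [← h]
    field_simp
  rw [h5, ← sub_div, ← div_div]
  field_simp

/-- the law of `aT (B_1 - B'_1)` -/
theorem gau_diff : ((BrownianReal.projectiveFamily I1).prod (BrownianReal.projectiveFamily I1)).map
    (fun p : (I1 → ℝ) × (I1 → ℝ) => aT * (p.1 o1 - p.2 o1)) = gaussianReal 0 (36 / Real.pi ^ 2 : ℝ).toNNReal := by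
  have hm : Measurable fun p : (I1 → ℝ) × (I1 → ℝ) => aT * (p.1 o1 - p.2 o1) :=
    (by fun_prop : Continuous fun p : (I1 → ℝ) × (I1 → ℝ) => aT * (p.1 o1 - p.2 o1)).measurable
  have : IsProbabilityMeasure (((BrownianReal.projectiveFamily I1).prod (BrownianReal.projectiveFamily I1)).map
    (fun p : (I1 → ℝ) × (I1 → ℝ) => aT * (p.1 o1 - p.2 o1))) := Measure.isProbabilityMeasure_map hm.aemeasurable
  refine Measure.ext_of_charFun ?_
  funext t
  have hv : (0 : ℝ) ≤ 36 / Real.pi ^ 2 := by positivity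
  have e0 : charFun (gaussianReal 0 (36 / Real.pi ^ 2 : ℝ).toNNReal) t =
      ((Real.exp (-((36 / Real.pi ^ 2) * t ^ 2 / 2)) : ℝ) : ℂ) := WND.charFun_gau hv t
  rw [e0, charFun_apply_real, integral_map hm.aemeasurable (by
    exact (by fun_prop : Continuous fun x : ℝ => Complex.exp ((t : ℂ) * x * Complex.I)).aestronglyMeasurable)]
  have e1 : ∀ (c : ℝ) (x : I1 → ℝ), ∑ j : I1, (fun _ => c) j * x j = c * x o1 := fun c x => by
    rw [Fintype.sum_unique]
    rfl
  have e2 : ∀ c : ℝ, ∫ x, Complex.exp ((c * x o1 : ℝ) * Complex.I) ∂(BrownianReal.projectiveFamily I1) =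
      ((Real.exp (-(c ^ 2 / 2)) : ℝ) : ℂ) := fun c => by
    have h := PW.char_brown I1 (fun _ => c)
    simp only [e1] at h
    rw [h, Fintype.sum_unique, Fintype.sum_unique]
    have e4 : (((default : I1) : ℝ≥0) : ℝ) = 1 := rfl
    have e5 : 1 * c * c / 2 = c ^ 2 / 2 := by ring
    rw [e4, min_self, e5]
  have e3 : ∀ p : (I1 → ℝ) × (I1 → ℝ), Complex.exp ((t : ℂ) * (aT * (p.1 o1 - p.2 o1) : ℝ) * Complex.I) =
      Complex.exp ((t * aT * p.1 o1 : ℝ) * Complex.I) * Complex.exp ((-(t * aT) * p.2 o1 : ℝ) * Complex.I) := fun p => by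
    rw [← Complex.exp_add]
    congr 1
    push_cast
    ring
  simp_rw [e3]
  rw [integral_prod_mul (fun x : I1 → ℝ => Complex.exp ((t * aT * x o1 : ℝ) * Complex.I))
    (fun x : I1 → ℝ => Complex.exp ((-(t * aT) * x o1 : ℝ) * Complex.I)), e2, e2, ← Complex.ofReal_mul, ← Real.exp_add]
  congr 2
  have h5 := aT_sq
  have : (t * aT) ^ 2 = t ^ 2 * (18 / Real.pi ^ 2) := by rw [mul_pow, h5]
  rw [neg_sq, this]
  ring

/-- **the turns and the curve** -/
theorem turn_joint (hB : BothSt) (hT : CharW) (F : (C(unitInterval, ℂ) × ℝ) →ᵇ ℝ) :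
    Tendsto (fun n : ℕ => (∑ w ∈ saw n, F (curve w, ((lefts w : ℝ) - rights w) / √(Real.log n))) / ((saw n).card : ℝ) -
      ∫ γ, (∫ y, F (γ, y) ∂(gaussianReal 0 (36 / Real.pi ^ 2 : ℝ).toNNReal)) ∂(law n)) atTop (𝓝 0) := by
  have hc : Continuous fun p : C(unitInterval, ℂ) × ((I1 → ℝ) × (I1 → ℝ)) => (p.1, aT * (p.2.1 o1 - p.2.2 o1)) := by
    fun_prop
  have h := both_all hB hT I1 I1 I1_le I1_le (F.compContinuous ⟨_, hc⟩)
  refine h.congr fun n => ?_
  congr 1
  · congr 1
    refine sum_congr rfl fun w hw => ?_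
    show F (curve w, aT * (Thn I1 n w o1 - ThnE I1 n w o1)) = F (curve w, Tr n w)
    rw [Tr_eq hw]
  · refine integral_congr_ae (Eventually.of_forall fun γ => ?_)
    show ∫ y, F (γ, aT * (y.1 o1 - y.2 o1)) ∂((BrownianReal.projectiveFamily I1).prod (BrownianReal.projectiveFamily I1)) =
      ∫ y, F (γ, y) ∂(gaussianReal 0 (36 / Real.pi ^ 2 : ℝ).toNNReal)
    rw [← gau_diff, integral_map]
    · exact (by fun_prop : Continuous fun p : (I1 → ℝ) × (I1 → ℝ) => aT * (p.1 o1 - p.2 o1)).measurable.aemeasurable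
    · exact (by fun_prop : Continuous fun y : ℝ => F (γ, y)).aestronglyMeasurable

/-- the characteristic function of the turns -/
theorem char_turn (hB : BothSt) (hT : CharW) (t : ℝ) :
    Tendsto (fun n : ℕ => (∑ w ∈ saw n, Complex.exp ((t * Tr n w : ℝ) * Complex.I)) / ((saw n).card : ℂ)) atTop
      (𝓝 ((Real.exp (-((36 / Real.pi ^ 2) * t ^ 2 / 2)) : ℝ) : ℂ)) := by
  have h := char_both hB hT (f := fun _ => 1) ⟨0, LipschitzWith.const _⟩ (fun _ => ⟨zero_le_one, le_rfl⟩) I1 I1 I1_le I1_le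
    (fun _ => t * aT) (fun _ => -(t * aT))
  have e1 : ∀ n : ℕ, (∑ w ∈ saw n, ((1 : ℝ) : ℂ)) / ((saw n).card : ℂ) = 1 := fun n => by
    have hc : ((saw n).card : ℂ) ≠ 0 := by exact_mod_cast (NTSF.saw_nonempty n).card_pos.ne'
    simp [div_self hc]
  have e3 : ∀ (c : ℝ) (x : I1 → ℝ), ∑ j : I1, (fun _ => c) j * x j = c * x o1 := fun c x => by
    rw [Fintype.sum_unique]
    rfl
  have e2 : ∀ n : ℕ, Wn (fun _ => 1) n (fun w => ∑ s : I1, (fun _ => t * aT) s * (windS w (tm n s) / √(2 * Real.log n)) +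
        ∑ s : I1, (fun _ => -(t * aT)) s * (windE w (tm n s) / √(2 * Real.log n))) -
      (∑ w ∈ saw n, (((fun _ => 1 : C(unitInterval, ℂ) → ℝ) (curve w) : ℝ) : ℂ)) / ((saw n).card : ℂ) *
        (((Real.exp (-((∑ j : I1, ∑ k : I1, min (j : ℝ) (k : ℝ) * (fun _ => t * aT) j * (fun _ => t * aT) k) / 2)) : ℝ) : ℂ) *
        ((Real.exp (-((∑ j : I1, ∑ k : I1, min (j : ℝ) (k : ℝ) * (fun _ => -(t * aT)) j * (fun _ => -(t * aT)) k) / 2)) : ℝ) :
          ℂ)) =
      (∑ w ∈ saw n, Complex.exp ((t * Tr n w : ℝ) * Complex.I)) / ((saw n).card : ℂ) -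
        ((Real.exp (-((36 / Real.pi ^ 2) * t ^ 2 / 2)) : ℝ) : ℂ) := by
    intro n
    rw [e1 n, one_mul]
    congr 1
    · unfold Wn
      congr 1
      refine Finset.sum_congr rfl fun w hw => ?_
      rw [Complex.ofReal_one, one_mul]
      congr 3
      have e5 := e3 (t * aT) (Thn I1 n w)
      have e6 := e3 (-(t * aT)) (ThnE I1 n w)
      rw [Tr_eq hw]
      show ∑ s : I1, (fun _ => t * aT) s * Thn I1 n w s + ∑ s : I1, (fun _ => -(t * aT)) s * ThnE I1 n w s = _
      rw [e5, e6]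
      ring
    · rw [← Complex.ofReal_mul, ← Real.exp_add]
      congr 3
      rw [Fintype.sum_unique, Fintype.sum_unique, Fintype.sum_unique, Fintype.sum_unique]
      have e4 : (((default : I1) : ℝ≥0) : ℝ) = 1 := rfl
      rw [e4, min_self]
      have h5 := aT_sq
      have h6 : (t * aT) * (t * aT) = t ^ 2 * (18 / Real.pi ^ 2) := by rw [← h5]; ring
      show -(1 * (t * aT) * (t * aT) / 2) + -(1 * (-(t * aT)) * (-(t * aT)) / 2) = _
      have h7 : -(1 * (t * aT) * (t * aT) / 2) + -(1 * (-(t * aT)) * (-(t * aT)) / 2) = -((t * aT) * (t * aT)) := by ring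
      rw [h7, h6]
      ring
  have h4 := (h.congr e2).add_const ((Real.exp (-((36 / Real.pi ^ 2) * t ^ 2 / 2)) : ℝ) : ℂ)
  rw [zero_add] at h4
  exact h4.congr fun n => sub_add_cancel _ _

/-- **the central limit theorem for the turns** -/
theorem turn_cdf (hB : BothSt) (hT : CharW) (x : ℝ) :
    Tendsto (fun n : ℕ => (((saw n).filter fun w => (lefts w : ℝ) - rights w ≤ x * √(Real.log n)).card : ℝ) /
      ((saw n).card : ℝ)) atTop (𝓝 ((gaussianReal 0 (36 / Real.pi ^ 2 : ℝ).toNNReal).real (Set.Iic x))) := by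
  classical
  let Q : ℕ → ProbabilityMeasure ℝ := fun n =>
    ⟨PW.ulaw (saw n) (fun w => (lefts w : ℝ) - rights w), PW.ulaw_prob (NTSF.saw_nonempty n)⟩
  have hv : (0 : ℝ) < 36 / Real.pi ^ 2 := by positivity
  have key : Tendsto (WND.scal Q 1) atTop (𝓝 (WND.gau (36 / Real.pi ^ 2))) := by
    refine ProbabilityMeasure.tendsto_iff_tendsto_charFun.2 fun t => ?_
    rw [WND.charFun_gau hv.le]
    simp_rw [WND.charFun_scal]
    refine (char_turn hB hT t).congr fun n => ?_
    have e1 : (Q n : Measure ℝ) = PW.ulaw (saw n) (fun w => (lefts w : ℝ) - rights w) := rfl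
    rw [e1, charFun_apply_real, PW.ulaw_int]
    · rw [Complex.real_smul, div_eq_inv_mul]
      push_cast
      congr 1
      refine Finset.sum_congr rfl fun w _ => ?_
      congr 1
      unfold Tr
      push_cast
      ring
    · exact (by fun_prop : Continuous fun x : ℝ =>
        Complex.exp (((1 / √(Real.log n) * t : ℝ) : ℂ) * (x : ℂ) * Complex.I)).stronglyMeasurable
  have h := WND.cdf_of hv key x
  refine h.congr fun n => ?_
  have e2 : (Q n : Measure ℝ) = PW.ulaw (saw n) (fun w => (lefts w : ℝ) - rights w) := rfl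
  rw [e2, PW.ulaw_real (measurableSet_le (by fun_prop) (by fun_prop))]
  congr 2
  · refine congrArg Finset.card (Finset.filter_congr fun w _ => ?_)
    simp

end Cg

end NTSF

end
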