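import Pool.Agent.PW.BothWZ
import Pool.Agent.PW.TurnC
import Pool.Agent.PW.CylLim
import Pool.Agent.PW.CylJZ

/-!
# PW, both ends, no hypothesis (helper90)

* **`both_ends`** : the curve, the windings around the starting point and the windings around the end point, jointly;
* **`turns_curve`**, **`turns_cdf`** : the numbers of the left and the right turns.
-/

set_option autoImplicit false

noncomputable section

open MeasureTheory ProbabilityTheory Filter Topology
open scoped ENNReal NNReal BoundedContinuousFunction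

namespace NTSF

open Pool.Agent.NTS.Res Pool.Agent.PW.Res

open Cg

theorem charW0 : CharW := charW_of_cyl PW.cylLim PWJ.tipCyl

theorem bothSt0 : BothSt := fun K M M' _ he => bothW0 K M M' he

/-- **both ends and the curve** -/
theorem both_ends (I J : Finset ℝ≥0) (hI : ∀ s ∈ I, s ≤ 1) (hJ : ∀ s ∈ J, s ≤ 1)
    (F : (C(unitInterval, ℂ) × ((I → ℝ) × (J → ℝ))) →ᵇ ℝ) :
    Tendsto (fun n : ℕ => (∑ w ∈ saw n, F (curve w, (fun s => windS w (tm n s) / √(2 * Real.log n)),
        (fun s => windE w (tm n s) / √(2 * Real.log n)))) / ((saw n).card : ℝ) -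
      ∫ γ, (∫ y, F (γ, y) ∂((BrownianReal.projectiveFamily I).prod (BrownianReal.projectiveFamily J))) ∂(law n)) atTop
      (𝓝 0) := both_all bothSt0 charW0 I J hI hJ F

/-- **the turns and the curve** -/
theorem turns_curve (F : (C(unitInterval, ℂ) × ℝ) →ᵇ ℝ) :
    Tendsto (fun n : ℕ => (∑ w ∈ saw n, F (curve w, ((lefts w : ℝ) - rights w) / √(Real.log n))) / ((saw n).card : ℝ) -
      ∫ γ, (∫ y, F (γ, y) ∂(gaussianReal 0 (36 / Real.pi ^ 2 : ℝ).toNNReal)) ∂(law n)) atTop (𝓝 0) :=
  turn_joint bothSt0 charW0 F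

/-- **the central limit theorem for the turns** -/
theorem turns_cdf (x : ℝ) :
    Tendsto (fun n : ℕ => (((saw n).filter fun w => (lefts w : ℝ) - rights w ≤ x * √(Real.log n)).card : ℝ) /
      ((saw n).card : ℝ)) atTop (𝓝 ((gaussianReal 0 (36 / Real.pi ^ 2 : ℝ).toNNReal).real (Set.Iic x))) :=
  turn_cdf bothSt0 charW0 x

end NTSF

end
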