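import Pool.Agent.PW.PieceC
import Pool.Agent.PW.BoxLen

/-!
PW, row E1d (helper15): the number of the steps of a macroscopic chain of a word of the cylinder is tight, every end.

`LeafTs` : the share of the words with n0 or more leaves (helper68: `leafT`); `chainT_of` : the share of the words with a chain of
N0 times of successive distances at least 2 ^ (log2 k - C).
-/

set_option autoImplicit false

namespace HexObs

namespace PWd

open Finset TS SDN NTW NTA TPC TPC.An PW.BL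

open scoped ENNReal

/-- many leaves are rare, every end of the cylinder -/
def LeafTs : Prop := ∀ (ε : ℝ) (C : ℕ), 0 < ε → ∃ n0 k0 : ℕ, ∀ (k : ℕ) (y : Pt), k0 ≤ k →
  gf {t | t ∈ SA ∧ Dsj k t ∧ EndC k y (vx oo up t t.length) ∧
    ∃ (dir : Bool) (m u : ℕ) (e : ℕ → ℕ), Lf dir (Nat.log 2 k - C + 5) t m u e ∧ n0 ≤ m} ≤
    ENNReal.ofReal ε * gK (Nat.log 2 k)

/-- out of the box is rare, every end of the cylinder -/
def BoxTs : Prop := ∀ ε : ℝ, 0 < ε → ∃ (J k0 : ℕ), ∀ (k : ℕ) (y : Pt), k0 ≤ k →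
    gf {t | t ∈ SA ∧ Dsj k t ∧ EndC k y (vx oo up t t.length) ∧ t ∉ WL (Nat.log 2 k + J)} ≤
      ENNReal.ofReal ε * gK (Nat.log 2 k)

/-- a chain of N0 steps of length at least r -/
def Chn0 (r N0 : ℕ) (t : List Bool) : Prop :=
  ∃ i : ℕ → ℕ, (∀ j, j < N0 → i j ≤ i (j + 1)) ∧ i N0 ≤ t.length ∧
    ∀ j, j < N0 → (r : ℤ) ^ 2 ≤ nrm (vx oo up t (i (j + 1)) - vx oo up t (i j))

theorem BoxTs_of (hX : XDbl) (hS : SD) : BoxTs := by
  intro ε hε
  obtain ⟨J, K0, h⟩ := box_tail hX hS ε hε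
  refine ⟨J, 2 ^ K0, fun k y hk => h k y ?_⟩
  exact Nat.le_log_of_pow_le (by norm_num) hk

/-- **long chains are rare** -/
theorem chainT_of (hB : BoxTs) (hL : LeafTs) (ε : ℝ) (C : ℕ) (hε : 0 < ε) : ∃ N0 k0 : ℕ, ∀ (k : ℕ) (y : Pt), k0 ≤ k →
    gf {t | t ∈ SA ∧ Dsj k t ∧ EndC k y (vx oo up t t.length) ∧ Chn0 (2 ^ (Nat.log 2 k - C)) N0 t} ≤
      ENNReal.ofReal ε * gK (Nat.log 2 k) := by
  obtain ⟨J, k1, h1⟩ := hB (ε / 2) (by positivity)
  obtain ⟨n0, k2, h2⟩ := hL (ε / 2) (C + 8) (by positivity)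
  refine ⟨44 * 2 ^ (J + C) * (n0 + 2), max (max k1 k2) (2 ^ (C + 8)), fun k y hk => ?_⟩
  have hk1 : k1 ≤ k := (le_max_left _ _).trans ((le_max_left _ _).trans hk)
  have hk2 : k2 ≤ k := (le_max_right _ _).trans ((le_max_left _ _).trans hk)
  have hk3 : C + 8 ≤ Nat.log 2 k := Nat.le_log_of_pow_le (by norm_num) ((le_max_right _ _).trans hk)
  have h1 := h1 k y hk1
  have h2 := h2 k y hk2
  obtain ⟨K, hK⟩ : ∃ K, K = Nat.log 2 k := ⟨_, rfl⟩
  rw [← hK] at h1 h2 hk3 ⊢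
  refine (gf_mono (Q := {t | t ∈ SA ∧ Dsj k t ∧ EndC k y (vx oo up t t.length) ∧ t ∉ WL (K + J)} ∪
    {t | t ∈ SA ∧ Dsj k t ∧ EndC k y (vx oo up t t.length) ∧
      ∃ (dir : Bool) (m u : ℕ) (e : ℕ → ℕ), Lf dir (K - (C + 8) + 5) t m u e ∧ n0 ≤ m}) ?_).trans ?_
  · rintro t ⟨a1, a2, a3, i, a4, a5, a6⟩
    by_cases hW : t ∈ WL (K + J)
    · right
      refine ⟨a1, a2, a3, ?_⟩
      have hD : 2 * RR (K - (C + 8) + 5) ≤ ((2 ^ (K - C) : ℕ) : ℤ) := by
        unfold RR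
        have e1 : K - C = K - (C + 8) + 5 + 3 := by omega
        rw [e1]
        push_cast
        rw [pow_add _ (K - (C + 8) + 5) 3]
        have := pow_pos (show (0 : ℤ) < 2 by norm_num) (K - (C + 8) + 5)
        linarith
      obtain ⟨dir, m, u, e, h3, h4⟩ := leaf_many hW hD a4 a5 a6
      refine ⟨dir, m, u, e, h3, ?_⟩
      by_contra hcon
      rw [not_le] at hcon
      obtain ⟨D, hDd⟩ : ∃ D : ℤ, D = ((2 ^ (K - C) : ℕ) : ℤ) := ⟨_, rfl⟩
      have hD0 : 1 ≤ D := by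
        rw [hDd]
        exact_mod_cast Nat.one_le_two_pow
      have e2 : (2 : ℤ) ^ (K + J) = 2 ^ (J + C) * D := by
        rw [hDd]
        push_cast
        rw [← pow_add]
        congr 1
        omega
      rw [← hDd, e2] at h4
      have h5 : (1 : ℤ) ≤ 2 ^ (J + C) := one_le_pow₀ (by norm_num)
      obtain ⟨P, hP⟩ : ∃ P : ℤ, P = 2 ^ (J + C) := ⟨_, rfl⟩
      have e3 : ((44 * 2 ^ (J + C) * (n0 + 2) : ℕ) : ℤ) = 44 * P * (n0 + 2) := by
        rw [hP]
        push_cast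
        ring
      rw [e3, ← hP] at h4
      rw [← hP] at h5
      have h6 : 4 * (3 * (P * D) + 2) + 2 * D ≤ 22 * (P * D) := by nlinarith
      have h7 : (m : ℤ) + 1 ≤ n0 := by exact_mod_cast hcon
      have h8 : 2 * (((m : ℤ) + 2) * (4 * (3 * (P * D) + 2) + 2 * D)) ≤ 2 * ((n0 + 1) * (22 * (P * D))) := by
        have h9 : ((m : ℤ) + 2) * (4 * (3 * (P * D) + 2) + 2 * D) ≤ (n0 + 1) * (22 * (P * D)) :=
          mul_le_mul (by linarith) h6 (by positivity) (by positivity)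
        linarith
      have h10 : 0 < P * D := by positivity
      nlinarith
    · left
      exact ⟨a1, a2, a3, hW⟩
  · calc _ ≤ ENNReal.ofReal (ε / 2) * gK K + ENNReal.ofReal (ε / 2) * gK K :=
          (gf_union_le _ _).trans (add_le_add h1 h2)
      _ = ENNReal.ofReal ε * gK K := by
        rw [← add_mul, ← ENNReal.ofReal_add (by positivity) (by positivity)]
        congr 2
        ring

end PWd

end HexObs
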