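import Pool.Agent.PW.RevT
import Pool.Agent.PW.ChainT
import Pool.Agent.PW.MomT
import Pool.Agent.TPC.XUp
import Pool.Agent.TIW.Hpm

/-!
# PW: the words of the cylinder in finite boxes (helper41)

* `gK_ofReal` : the two literals of the weight of a scale;
* `mass_low` : the mass of `TT k` is at least `c gK (log2 k)`;
* `tsum_diff` : a mean over a countable set and over a finite part;
* **`box_sum`** : a sum over `TT k` is, up to `ε gK`, the sum over finitely many ends `(2 z + 1) (k, k)` and the words of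
  `Ty` in a box.
-/

set_option autoImplicit false

noncomputable section

namespace HexObs

namespace PWT

open SDN LP TPC TIW PWN

open scoped ENNReal

theorem gK_ofReal (K : ℕ) : PW.BL.gK K = ENNReal.ofReal (PWN.gK K) := by
  unfold PW.BL.gK PWN.gK
  have h := NTA.Xb_ne_top K
  rw [ENNReal.ofReal_mul (by have := Num2Aux.UU_pos (2 ^ K); positivity), ENNReal.ofReal_pow ENNReal.toReal_nonneg,
    ENNReal.ofReal_toReal h]

/-- **the mass of the words of the cylinder, from below** -/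
theorem mass_low : ∃ (c : ℝ) (k0 : ℕ), 0 < c ∧ ∀ k : ℕ, k0 ≤ k → 1 ≤ k →
    c * PWN.gK (Nat.log 2 k) ≤ ∑' t : TT k, xc ^ t.1.length := by
  obtain ⟨A, K0, hA, h⟩ := w0_down
  obtain ⟨C, hC, hg⟩ := PW.BL.gK_up xUp
  have hx := xc_pos
  refine ⟨A * 2 ^ (-(5 / 24) : ℝ) / (2 * xc) / C, K0, by positivity, fun k hk hk1 => ?_⟩
  have h1 := h k hk
  have h2 := Z_T hk1
  rw [Pool.Agent.CylSaw.Z_eq hk1] at h2
  obtain ⟨K, hK⟩ : ∃ K, K = Nat.log 2 k := ⟨_, rfl⟩
  have h3 : (k : ℝ) ≤ 2 ^ ((K : ℝ) + 1) := by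
    have h4 : k < 2 ^ (K + 1) := by
      rw [hK]
      exact Nat.lt_pow_succ_log_self (by norm_num) k
    have h5 : (k : ℝ) ≤ (2 : ℝ) ^ (K + 1) := by exact_mod_cast h4.le
    refine h5.trans (le_of_eq ?_)
    rw [← Real.rpow_natCast]
    push_cast
    rfl
  have hk0 : (0 : ℝ) < k := by exact_mod_cast hk1
  have h4 : (2 : ℝ) ^ (-(5 / 24) : ℝ) * 2 ^ (-(5 / 24) * (K : ℝ)) ≤ (k : ℝ) ^ (-(5 / 24) : ℝ) := by
    rw [← Real.rpow_add (by norm_num)]
    calc (2 : ℝ) ^ (-(5 / 24) + -(5 / 24) * (K : ℝ)) = (2 ^ ((K : ℝ) + 1)) ^ (-(5 / 24) : ℝ) := by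
          rw [← Real.rpow_mul (by norm_num)]
          congr 1
          ring
      _ ≤ _ := Real.rpow_le_rpow_of_nonpos hk0 h3 (by norm_num)
  have h5 : PWN.gK K ≤ C * 2 ^ (-(5 / 24) * (K : ℝ)) := by
    have h6 := hg K
    rw [gK_ofReal] at h6
    exact (ENNReal.ofReal_le_ofReal_iff (by positivity)).1 h6
  rw [← hK]
  have h6 : 0 < A / (2 * xc) := by positivity
  calc A * 2 ^ (-(5 / 24) : ℝ) / (2 * xc) / C * PWN.gK K
      ≤ A * 2 ^ (-(5 / 24) : ℝ) / (2 * xc) / C * (C * 2 ^ (-(5 / 24) * (K : ℝ))) :=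
        mul_le_mul_of_nonneg_left h5 (by positivity)
    _ = A / (2 * xc) * (2 ^ (-(5 / 24) : ℝ) * 2 ^ (-(5 / 24) * (K : ℝ))) := by field_simp
    _ ≤ A / (2 * xc) * (k : ℝ) ^ (-(5 / 24) : ℝ) := mul_le_mul_of_nonneg_left h4 h6.le
    _ = (A * (k : ℝ) ^ (-(5 / 24) : ℝ)) / (2 * xc) := by ring
    _ ≤ (2 * xc * ∑' t : TT k, xc ^ t.1.length) / (2 * xc) := by
        refine div_le_div_of_nonneg_right ?_ (by positivity)
        rw [← h2]
        exact h1
    _ = _ := by field_simp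

/-- a sum over a countable set of words and over a finite part -/
theorem tsum_diff {P : Set (List Bool)} (S : Finset (List Bool)) (hS : ∀ t ∈ S, t ∈ P)
    (hP : Summable fun t : P => xc ^ t.1.length) {f : List Bool → ℝ} (hf : ∀ t, |f t| ≤ 1) :
    |∑' t : P, xc ^ t.1.length * f t.1 - ∑ t ∈ S, xc ^ t.length * f t| ≤ (gf {t | t ∈ P ∧ t ∉ S}).toReal := by
  classical
  have hx := xc_pos
  set g : List Bool → ℝ := fun t => xc ^ t.length * f t with hg
  set a : List Bool → ℝ := fun t => xc ^ t.length with ha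
  have hga : ∀ t, ‖g t‖ ≤ a t := fun t => by
    simp only [hg, ha]
    rw [norm_mul, Real.norm_eq_abs, Real.norm_eq_abs, abs_of_pos (pow_pos hx _)]
    calc xc ^ t.length * |f t| ≤ xc ^ t.length * 1 := mul_le_mul_of_nonneg_left (hf t) (pow_pos hx _).le
      _ = _ := mul_one _
  have hPa : Summable (P.indicator a) := summable_subtype_iff_indicator.1 hP
  have hPg : Summable (P.indicator g) := by
    refine Summable.of_norm_bounded hPa fun t => ?_
    by_cases ht : t ∈ P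
    · rw [Set.indicator_of_mem ht, Set.indicator_of_mem ht]
      exact hga t
    · rw [Set.indicator_of_notMem ht, Set.indicator_of_notMem ht, norm_zero]
  have hSg : Summable ((↑S : Set (List Bool)).indicator g) := by
    rw [← summable_subtype_iff_indicator]
    exact (hasSum_fintype _).summable
  have e1 : ∑' t : P, xc ^ t.1.length * f t.1 = ∑' t, P.indicator g t := tsum_subtype P g
  have e2 : ∑ t ∈ S, xc ^ t.length * f t = ∑' t, (↑S : Set (List Bool)).indicator g t := sum_eq_tsum_indicator g S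
  have e3 : ∀ t, P.indicator g t - (↑S : Set (List Bool)).indicator g t = {t | t ∈ P ∧ t ∉ S}.indicator g t := by
    intro t
    by_cases h1 : t ∈ S
    · have h2 : t ∈ (↑S : Set (List Bool)) := h1
      have h3 : t ∉ {t | t ∈ P ∧ t ∉ S} := fun h => h.2 h1
      rw [Set.indicator_of_mem h2, Set.indicator_of_mem (hS t h1), Set.indicator_of_notMem h3, sub_self]
    · have h2 : t ∉ (↑S : Set (List Bool)) := h1
      rw [Set.indicator_of_notMem h2, sub_zero]
      by_cases h3 : t ∈ P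
      · have h4 : t ∈ {t | t ∈ P ∧ t ∉ S} := ⟨h3, h1⟩
        rw [Set.indicator_of_mem h3, Set.indicator_of_mem h4]
      · have h4 : t ∉ {t | t ∈ P ∧ t ∉ S} := fun h => h3 h.1
        rw [Set.indicator_of_notMem h3, Set.indicator_of_notMem h4]
  rw [e1, e2, ← hPg.tsum_sub hSg]
  rw [tsum_congr e3]
  set D : Set (List Bool) := {t | t ∈ P ∧ t ∉ S} with hD
  have hDa : Summable (D.indicator a) := by
    refine Summable.of_nonneg_of_le (fun t => Set.indicator_nonneg (fun _ _ => (pow_pos hx _).le) t) (fun t => ?_) hPa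
    exact Set.indicator_le_indicator_of_subset (fun t ht => ht.1) (fun _ => (pow_pos hx _).le) t
  have hn : ∀ t, ‖D.indicator g t‖ ≤ D.indicator a t := fun t => by
    by_cases ht : t ∈ D
    · rw [Set.indicator_of_mem ht, Set.indicator_of_mem ht]
      exact hga t
    · rw [Set.indicator_of_notMem ht, Set.indicator_of_notMem ht, norm_zero]
  have e4 : (gf D).toReal = ∑' t, D.indicator a t := by
    unfold gf
    rw [ENNReal.tsum_toReal_eq (fun t => by unfold wE; exact ENNReal.ofReal_ne_top), ← tsum_subtype D a]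
    refine tsum_congr fun t => ?_
    unfold wE
    rw [ENNReal.toReal_ofReal (pow_pos hx _).le]
  rw [e4, ← Real.norm_eq_abs]
  exact tsum_of_norm_bounded hDa.hasSum hn

/-- the ends of the words of the cylinder -/
def yT (k : ℕ) (z : ℤ) : Pt := ((2 * z + 1) * k, (2 * z + 1) * k)

open Classical in
/-- the words of the cylinder in a box, finitely many -/
def TB (k J : ℕ) : Finset (List Bool) :=
  (Finset.Icc (-(2 : ℤ) ^ J) (2 ^ J)).biUnion fun z => Ty k (2 ^ (Nat.log 2 k + J + 5)) (1, -1) (yT k z)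

theorem mem_TB_TT {k J : ℕ} {t : List Bool} (h : t ∈ TB k J) : t ∈ TT k := by
  classical
  unfold TB at h
  rw [Finset.mem_biUnion] at h
  obtain ⟨z, -, hz⟩ := h
  rw [mem_Ty] at hz
  exact ⟨hz.1.1, hz.2.1, ⟨z, hz.2.2.1⟩, hz.2.2.2⟩

theorem sum_TB {k J : ℕ} (hk : 1 ≤ k) (g : List Bool → ℝ) : ∑ t ∈ TB k J, g t =
    ∑ z ∈ Finset.Icc (-(2 : ℤ) ^ J) (2 ^ J), ∑ t ∈ Ty k (2 ^ (Nat.log 2 k + J + 5)) (1, -1) (yT k z), g t := by
  classical
  unfold TB
  rw [Finset.sum_biUnion]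
  intro z _ z' _ hne
  rw [Function.onFun, Finset.disjoint_left]
  intro t h1 h2
  rw [mem_Ty] at h1 h2
  have h3 := h1.2.2.1.symm.trans h2.2.2.1
  have h4 : (2 * z + 1) * (k : ℤ) = (2 * z' + 1) * k := congrArg Prod.fst h3
  have hk0 : (0 : ℤ) < k := by exact_mod_cast hk
  have h5 := mul_right_cancel₀ hk0.ne' h4
  exact hne (by omega)

theorem hn_yT (k : ℕ) (z : ℤ) : hn (yT k z) = 3 * |2 * z + 1| * k := by
  have h1 : ip (yT k z) up = 3 * ((2 * z + 1) * k) := by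
    simp only [ip, yT, up]
    ring
  have h2 : ip (yT k z) (rotL up) = 0 := by
    simp only [ip, yT, up, rotL]
    ring
  have h3 : ip (yT k z) (rotR up) = 3 * ((2 * z + 1) * k) := by
    simp only [ip, yT, up, rotR]
    ring
  have hk0 : (0 : ℤ) ≤ k := by positivity
  unfold hn
  rw [h1, h2, h3, abs_mul, abs_mul, abs_of_nonneg hk0, abs_zero, abs_of_nonneg (by norm_num : (0 : ℤ) ≤ 3)]
  have h4 : (0 : ℤ) ≤ 3 * (|2 * z + 1| * k) := by positivity
  rw [max_eq_right h4, max_self]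
  ring

theorem mem_TB_of {k J J' : ℕ} (hk : 1 ≤ k) (hJ : J + 4 ≤ J') {t : List Bool} (ht : t ∈ TT k)
    (hW : t ∈ WL (Nat.log 2 k + J)) : t ∈ TB k J' := by
  classical
  obtain ⟨h1, h2, ⟨z, h3⟩, h4⟩ := ht
  have hb0 : ∀ i, i ≤ t.length → hn (vx oo up t i) ≤ 10 * 2 ^ (Nat.log 2 k + J) := by
    intro i hi
    have h5 := hn_WL hW hi
    have h7 : (1 : ℤ) ≤ 2 ^ (Nat.log 2 k + J) := one_le_pow₀ (by norm_num)
    linarith
  have h16 : (16 : ℤ) * 2 ^ J ≤ 2 ^ J' := by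
    have e : (16 : ℤ) * 2 ^ J = 2 ^ (J + 4) := by ring
    rw [e]
    exact pow_le_pow_right₀ (by norm_num) hJ
  have hb : ∀ i, i ≤ t.length → hn (vx oo up t i) < ((2 ^ (Nat.log 2 k + J' + 5) : ℕ) : ℤ) := by
    intro i hi
    have h5 := hb0 i hi
    have h7 : (1 : ℤ) ≤ 2 ^ (Nat.log 2 k) := one_le_pow₀ (by norm_num)
    have h8 : (0 : ℤ) < 2 ^ J := by positivity
    push_cast
    rw [pow_add] at h5
    rw [pow_add, pow_add]
    nlinarith
  unfold TB
  rw [Finset.mem_biUnion]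
  refine ⟨z, ?_, mem_Ty.2 ⟨⟨h1, hb⟩, h2, h3, h4⟩⟩
  have h5 := hb0 t.length le_rfl
  have h6 : vx oo up t t.length = yT k z := h3
  rw [h6, hn_yT] at h5
  have h7 : (2 : ℤ) ^ Nat.log 2 k ≤ k := by exact_mod_cast Nat.pow_log_le_self 2 (by omega)
  have hk0 : (0 : ℤ) < k := by exact_mod_cast hk
  have h8 : 3 * |2 * z + 1| < 2 ^ J' := by
    by_contra hcon
    push Not at hcon
    have h9 : (2 : ℤ) ^ J' * k ≤ 3 * |2 * z + 1| * k := mul_le_mul_of_nonneg_right hcon hk0.le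
    have h10 : (2 : ℤ) ^ J * 2 ^ Nat.log 2 k ≤ 2 ^ J * k := mul_le_mul_of_nonneg_left h7 (by positivity)
    have h11 : (16 : ℤ) * 2 ^ J * k ≤ 2 ^ J' * k := mul_le_mul_of_nonneg_right h16 hk0.le
    have h12 : (0 : ℤ) < 2 ^ J * k := by positivity
    rw [pow_add] at h5
    nlinarith
  rw [Finset.mem_Icc]
  have h9 : |2 * z + 1| < 2 ^ J' := by
    have := abs_nonneg (2 * z + 1)
    linarith
  rw [abs_lt] at h9
  constructor <;> linarith [h9.1, h9.2]

theorem hn_yT_le {k J : ℕ} (hk : 1 ≤ k) {z : ℤ} (hz : z ∈ Finset.Icc (-(2 : ℤ) ^ J) (2 ^ J)) :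
    hn (yT k z) + (k : ℤ) ≤ ((2 ^ (Nat.log 2 k + J + 5) : ℕ) : ℤ) := by
  rw [Finset.mem_Icc] at hz
  have h1 : |2 * z + 1| ≤ 3 * 2 ^ J := by
    have h2 : (1 : ℤ) ≤ 2 ^ J := one_le_pow₀ (by norm_num)
    rw [abs_le]
    constructor <;> linarith [hz.1, hz.2]
  have h2 : (k : ℤ) < 2 ^ (Nat.log 2 k + 1) := by exact_mod_cast Nat.lt_pow_succ_log_self (by norm_num) k
  have hk0 : (0 : ℤ) < k := by exact_mod_cast hk
  have h3 : (1 : ℤ) ≤ 2 ^ J := one_le_pow₀ (by norm_num)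
  rw [hn_yT]
  have h4 : 3 * |2 * z + 1| * (k : ℤ) ≤ 9 * 2 ^ J * k := by
    refine mul_le_mul_of_nonneg_right ?_ hk0.le
    linarith
  have h5 : (10 : ℤ) * 2 ^ J * k ≤ 10 * 2 ^ J * 2 ^ (Nat.log 2 k + 1) :=
    mul_le_mul_of_nonneg_left h2.le (by positivity)
  push_cast
  have e : (2 : ℤ) ^ (Nat.log 2 k + J + 5) = 16 * (2 ^ J * 2 ^ (Nat.log 2 k + 1)) := by ring
  rw [e]
  have h6 : (0 : ℤ) < 2 ^ J * 2 ^ (Nat.log 2 k + 1) := by positivity
  nlinarith

/-- **sums over the words of the cylinder and over finite boxes** -/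
theorem box_sum (hB : PWd.BoxTs) {ε : ℝ} (hε : 0 < ε) : ∃ J k0 : ℕ, ∀ k : ℕ, k0 ≤ k → 1 ≤ k → ∀ J' : ℕ, J ≤ J' →
    ∀ f : List Bool → ℝ, (∀ t, |f t| ≤ 1) →
    |∑' t : TT k, xc ^ t.1.length * f t.1 - ∑ t ∈ TB k J', xc ^ t.length * f t| ≤ ε * PWN.gK (Nat.log 2 k) := by
  obtain ⟨J, k0, h⟩ := hB ε hε
  refine ⟨J + 4, k0, fun k hk hk1 J' hJ' f hf => ?_⟩
  refine (tsum_diff (TB k J') (fun t ht => mem_TB_TT ht) (summable_T hk1) hf).trans ?_
  have h1 : gf {t | t ∈ TT k ∧ t ∉ TB k J'} ≤ ENNReal.ofReal ε * PW.BL.gK (Nat.log 2 k) := by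
    refine le_trans (gf_mono ?_) (h k ((k : ℤ), (k : ℤ)) hk)
    rintro t ⟨ht, hn⟩
    refine ⟨ht.1, ht.2.1, ?_, fun hW => hn (mem_TB_of hk1 (by omega) ht hW)⟩
    obtain ⟨z, hz⟩ := ht.2.2.1
    refine ⟨z, ?_⟩
    rw [hz]
    refine Prod.ext ?_ ?_ <;> simp only [Prod.fst_add, Prod.snd_add] <;> ring
  rw [gK_ofReal, ← ENNReal.ofReal_mul hε.le] at h1
  exact ENNReal.toReal_le_of_le_ofReal (mul_nonneg hε.le (PWN.gK_nonneg _)) h1

end PWT

end HexObs

end
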