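import Pool.Agent.PW.JointW
import Pool.Agent.WND.Law

/-!
# PW (helper66): the central limit theorem for the winding angle, distribution functions

`cdf_of` : from 90's `CharW`: the proportion of the walks with `n` steps whose winding angle is at most `x * √(log n)` tends
to `N(0, 2) (-∞, x]`.
-/

set_option autoImplicit false

noncomputable section

open MeasureTheory ProbabilityTheory Filter Topology
open scoped ENNReal NNReal BoundedContinuousFunction

namespace PW

open Pool.Agent.NTS.Res Pool.Agent.PW.Res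

theorem tm_one (n : ℕ) : tm n 1 = n := by
  unfold tm
  rw [Real.rpow_one, Nat.floor_natCast]

/-- the characteristic function of the winding angle of the whole walk -/
theorem char_one_of (hT : NTSF.Cg.CharW) (t : ℝ) :
    Tendsto (fun n : ℕ => (∑ w ∈ saw n, Complex.exp ((t * (windS w n / √(Real.log n)) : ℝ) * Complex.I)) /
      ((saw n).card : ℂ)) atTop (𝓝 ((Real.exp (-(t ^ 2)) : ℝ) : ℂ)) := by
  have h := hT (fun _ => 1) ⟨0, LipschitzWith.const _⟩ (fun _ => ⟨zero_le_one, le_rfl⟩) {1}
    (fun s hs => by rw [Finset.mem_singleton] at hs; exact hs.le) (fun _ => √2 * t)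
  have h2 : (√2 : ℝ) ^ 2 = 2 := Real.sq_sqrt (by norm_num)
  have e1 : ∀ n : ℕ, (∑ w ∈ saw n, ((1 : ℝ) : ℂ)) / ((saw n).card : ℂ) = 1 := fun n => by
    have hc : ((saw n).card : ℂ) ≠ 0 := by exact_mod_cast (NTSF.saw_nonempty n).card_pos.ne'
    simp [div_self hc]
  have e2 : ∀ n : ℕ, (∑ w ∈ saw n, (((fun _ => 1 : C(unitInterval, ℂ) → ℝ) (curve w) : ℝ) : ℂ) *
        Complex.exp ((∑ s : ({1} : Finset ℝ≥0), (fun _ => √2 * t) s * (windS w (tm n s) / √(2 * Real.log n)) : ℝ) *
          Complex.I)) / ((saw n).card : ℂ) -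
      (∑ w ∈ saw n, (((fun _ => 1 : C(unitInterval, ℂ) → ℝ) (curve w) : ℝ) : ℂ)) / ((saw n).card : ℂ) *
        ((Real.exp (-((∑ j : ({1} : Finset ℝ≥0), ∑ k : ({1} : Finset ℝ≥0),
          min (j : ℝ) (k : ℝ) * (fun _ => √2 * t) j * (fun _ => √2 * t) k) / 2)) : ℝ) : ℂ) =
      (∑ w ∈ saw n, Complex.exp ((t * (windS w n / √(Real.log n)) : ℝ) * Complex.I)) / ((saw n).card : ℂ) -
        ((Real.exp (-(t ^ 2)) : ℝ) : ℂ) := by
    intro n
    rw [e1 n, one_mul]
    congr 1
    · congr 1
      refine Finset.sum_congr rfl fun w _ => ?_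
      rw [Complex.ofReal_one, one_mul]
      congr 3
      rw [Fintype.sum_unique]
      have e3 : √(2 * Real.log n) = √2 * √(Real.log n) := Real.sqrt_mul (by norm_num) _
      have e4 : (((default : ({1} : Finset ℝ≥0)) : ℝ≥0) : ℝ) = 1 := rfl
      rw [e4, tm_one, e3]
      have h3 : (√2 : ℝ) ≠ 0 := by positivity
      show √2 * t * (windS w n / (√2 * √(Real.log n))) = t * (windS w n / √(Real.log n))
      rw [← div_div, mul_div_assoc', mul_div_assoc']
      congr 1
      field_simp
    · congr 3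
      rw [Fintype.sum_unique, Fintype.sum_unique]
      have e4 : (((default : ({1} : Finset ℝ≥0)) : ℝ≥0) : ℝ) = 1 := rfl
      rw [e4, min_self]
      show 1 * (√2 * t) * (√2 * t) / 2 = t ^ 2
      calc 1 * (√2 * t) * (√2 * t) / 2 = √2 ^ 2 * t ^ 2 / 2 := by ring
        _ = _ := by rw [h2]; ring
  have h3 := (h.congr e2)
  have h4 := h3.add_const ((Real.exp (-(t ^ 2)) : ℝ) : ℂ)
  rw [zero_add] at h4
  exact h4.congr fun n => sub_add_cancel _ _

/-- **the central limit theorem for the winding angle** -/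
theorem cdf_of (hT : NTSF.Cg.CharW) (x : ℝ) :
    Tendsto (fun n : ℕ => (((saw n).filter fun w => windS w n ≤ x * √(Real.log n)).card : ℝ) / ((saw n).card : ℝ))
      atTop (𝓝 ((gaussianReal 0 2).real (Set.Iic x))) := by
  classical
  let Q : ℕ → ProbabilityMeasure ℝ := fun n => ⟨ulaw (saw n) (fun w => windS w n), ulaw_prob (NTSF.saw_nonempty n)⟩
  have key : Tendsto (WND.scal Q 1) atTop (𝓝 (WND.gau 2)) := by
    refine ProbabilityMeasure.tendsto_iff_tendsto_charFun.2 fun t => ?_
    rw [WND.charFun_gau (by norm_num)]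
    simp_rw [WND.charFun_scal]
    have e0 : -(2 * t ^ 2 / 2) = -(t ^ 2) := by ring
    rw [e0]
    refine (char_one_of hT t).congr fun n => ?_
    have e1 : (Q n : Measure ℝ) = ulaw (saw n) (fun w => windS w n) := rfl
    rw [e1, charFun_apply_real, ulaw_int]
    · rw [Complex.real_smul, div_eq_inv_mul]
      push_cast
      congr 1
      refine Finset.sum_congr rfl fun w _ => ?_
      congr 1
      ring
    · exact (by fun_prop : Continuous fun x : ℝ =>
        Complex.exp (((1 / √(Real.log n) * t : ℝ) : ℂ) * (x : ℂ) * Complex.I)).stronglyMeasurable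
  have h := WND.cdf_of (by norm_num) key x
  have e1 : (2 : ℝ).toNNReal = 2 := by simp
  rw [e1] at h
  refine h.congr fun n => ?_
  have e2 : (Q n : Measure ℝ) = ulaw (saw n) (fun w => windS w n) := rfl
  rw [e2, ulaw_real (measurableSet_le (by fun_prop) (by fun_prop))]
  congr 2
  · refine congrArg Finset.card (Finset.filter_congr fun w _ => ?_)
    simp

end PW

end
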