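import Pool.Agent.SIM.GeoIrg

/-!
PW, row E1 (helper15): from a chain of times with large successive distances to many leaves.
* `card_big` : a function with hysteresis (m, e) and |f| ≤ B has at most (m + 2) Q disjoint pieces of displacement ≥ D;
* `leaf_many` : a word of the box 2 ^ L with a chain of N + 1 times whose successive distances are at least D has, in one
  of the two directions, at least N / (2 Q) - 2 leaves of the scale b.
-/

set_option autoImplicit false

namespace HexObs

namespace PWd

open Finset TS SDN NTW NTA SIM SIM.GI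

/-- **few large pieces in one leaf** -/
theorem card_big {f : ℕ → ℤ} {n m u : ℕ} {R B D : ℤ} {e : ℕ → ℕ} (hH : Hyst f n R m u e) (hR : 0 < R)
    (hD : 2 * R ≤ D) (hB : ∀ i, i ≤ n → |f i| ≤ B) {i : ℕ → ℕ} {N : ℕ} (hi : ∀ j, j < N → i j ≤ i (j + 1)) (hN : i N ≤ n) :
    (((range N).filter fun j => D ≤ |f (i (j + 1)) - f (i j)|).card : ℤ) * D ≤ (m + 2) * (4 * B + 2 * D) := by
  have hB0 : 0 ≤ B := (abs_nonneg _).trans (hB 0 (Nat.zero_le _))
  obtain ⟨a, ha⟩ : ∃ a, a = T2.cpt n m e := ⟨_, rfl⟩
  have a0 : a 0 = 0 := by rw [ha]; exact T2.cpt_zero _ _ _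
  have aM : a (m + 2) = n := by rw [ha]; exact T2.cpt_end _ _ _
  have ai : ∀ i, i ≤ m → a (i + 1) = e i := by
    intro i hi
    rw [ha]
    exact T2.cpt_mid _ _ _ hi
  -- the sign of the piece number p
  obtain ⟨s, hs⟩ : ∃ s : ℕ → ℤ → ℤ, s = fun p x => Tight.sg (u + (p - 1)) x := ⟨_, rfl⟩
  have hsB : ∀ p z, z ≤ n → |s p (f z)| ≤ B := by
    intro p z hz
    rw [hs]
    show |Tight.sg _ _| ≤ B
    unfold Tight.sg
    split_ifs
    · rw [abs_neg]
      exact hB z hz
    · exact hB z hz
  have hiN : ∀ M, M ≤ N → i M ≤ n := by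
    intro M hM
    induction' h : N - M with d ih generalizing M
    · have : M = N := by omega
      rw [this]
      exact hN
    · exact (hi M (by omega)).trans (ih (M + 1) (by omega) (by omega))
  -- large displacement inside one piece
  have hin : ∀ p z z', p < m + 2 → a p ≤ z → z ≤ z' → z' ≤ a (p + 1) → D ≤ |f z' - f z| →
      s p (f z) + D ≤ s p (f z') := by
    intro p z z' hp h1 h2 h3 h4
    have hlt : ∀ x y : ℤ, |x - y| < D → ¬ D ≤ |x - y| := fun x y h => not_le.2 h
    rcases Nat.eq_zero_or_pos p with h0 | h0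
    · exfalso
      subst h0
      rw [zero_add, show (1 : ℕ) = 0 + 1 from rfl, ai 0 (Nat.zero_le _)] at h3
      have b1 := hH.start z z' (h2.trans h3) h3
      have b2 := hH.start z' z h3 (h2.trans h3)
      rcases abs_cases (f z' - f z) with ⟨c1, -⟩ | ⟨c1, -⟩ <;> rw [c1] at h4 <;> linarith
    · obtain ⟨q, rfl⟩ : ∃ q, p = q + 1 := ⟨p - 1, by omega⟩
      by_cases h5 : q = m
      · exfalso
        subst h5
        rw [ai q le_rfl] at h1
        rw [aM] at h3
        have b1 := hH.fin z z' h1 (h2.trans h3) (h1.trans h2) h3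
        have b2 := hH.fin z' z (h1.trans h2) h3 h1 (h2.trans h3)
        rcases abs_cases (f z' - f z) with ⟨c1, -⟩ | ⟨c1, -⟩ <;> rw [c1] at h4 <;> linarith
      · rw [ai q (by omega)] at h1
        rw [ai (q + 1) (by omega)] at h3
        have b1 := hH.small q (by omega) z z' h1 h2 h3
        have e1 : ∀ x, s (q + 1) x = Tight.sg (u + q) x := by
          intro x
          rw [hs]
          rfl
        rw [e1, e1]
        unfold Tight.sg at b1 ⊢
        split_ifs at b1 ⊢ <;> rcases abs_cases (f z' - f z) with ⟨c1, -⟩ | ⟨c1, -⟩ <;> rw [c1] at h4 <;> linarith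
  have hsm : ∀ p z z', p < m + 2 → a p ≤ z → z ≤ z' → z' ≤ a (p + 1) → s p (f z) - R ≤ s p (f z') := by
    intro p z z' hp h1 h2 h3
    rcases Nat.eq_zero_or_pos p with h0 | h0
    · subst h0
      rw [zero_add, show (1 : ℕ) = 0 + 1 from rfl, ai 0 (Nat.zero_le _)] at h3
      have b1 := hH.start z z' (h2.trans h3) h3
      have b2 := hH.start z' z h3 (h2.trans h3)
      rw [hs]
      show Tight.sg _ _ - R ≤ Tight.sg _ _
      unfold Tight.sg
      split_ifs <;> linarith
    · obtain ⟨q, rfl⟩ : ∃ q, p = q + 1 := ⟨p - 1, by omega⟩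
      by_cases h5 : q = m
      · subst h5
        rw [ai q le_rfl] at h1
        rw [aM] at h3
        have b1 := hH.fin z z' h1 (h2.trans h3) (h1.trans h2) h3
        have b2 := hH.fin z' z (h1.trans h2) h3 h1 (h2.trans h3)
        rw [hs]
        show Tight.sg _ _ - R ≤ Tight.sg _ _
        unfold Tight.sg
        split_ifs <;> linarith
      · rw [ai q (by omega)] at h1
        rw [ai (q + 1) (by omega)] at h3
        have b1 := hH.small q (by omega) z z' h1 h2 h3
        have e1 : ∀ x, s (q + 1) x = Tight.sg (u + q) x := by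
          intro x
          rw [hs]
          rfl
        rw [e1, e1]
        linarith
  -- the potential
  have key : ∀ M, M ≤ N → ∃ p x, p < m + 2 ∧ a p ≤ i M ∧ i M ≤ a (p + 1) ∧ a p ≤ x ∧ x ≤ i M ∧
      (((range M).filter fun j => D ≤ |f (i (j + 1)) - f (i j)|).card : ℤ) * D ≤
        p * (4 * B + 2 * D) + 2 * (s p (f x) + B) := by
    intro M
    induction M with
    | zero =>
      intro _
      have h1 : ∃ p, p < m + 2 ∧ a p ≤ i 0 ∧ i 0 ≤ a (p + 1) := by
        by_contra hcon
        push Not at hcon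
        have h2 : ∀ p, p ≤ m + 2 → a p ≤ i 0 := by
          intro p
          induction p with
          | zero =>
            intro _
            rw [a0]
            exact Nat.zero_le _
          | succ p ih => intro hp; exact (hcon p (by omega) (ih (by omega))).le
        have h3 := h2 (m + 1) (by omega)
        have h4 := hcon (m + 1) (by omega) h3
        rw [show m + 1 + 1 = m + 2 from rfl, aM] at h4
        have := hiN 0 (Nat.zero_le _)
        omega
      obtain ⟨p, hp, h2, h3⟩ := h1
      refine ⟨p, i 0, hp, h2, h3, h2, le_rfl, ?_⟩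
      rw [Finset.range_zero, Finset.filter_empty, Finset.card_empty]
      have h4 := hsB p (i 0) (hiN 0 (Nat.zero_le _))
      rw [abs_le] at h4
      have h5 : (0 : ℤ) ≤ p := Int.natCast_nonneg p
      have h6 : 0 ≤ (p : ℤ) * (4 * B + 2 * D) := mul_nonneg h5 (by linarith)
      push_cast
      linarith [h4.1]
    | succ M ih =>
      intro hM
      obtain ⟨p, x, hp, h1, h2, h3, h4, h5⟩ := ih (by omega)
      have hstep := hi M (by omega)
      have hMn := hiN (M + 1) hM
      have hcard : (((range (M + 1)).filter fun j => D ≤ |f (i (j + 1)) - f (i j)|).card : ℤ) ≤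
          (((range M).filter fun j => D ≤ |f (i (j + 1)) - f (i j)|).card : ℤ) + 1 := by
        rw [Finset.range_add_one, Finset.filter_insert]
        split_ifs
        · exact_mod_cast Finset.card_insert_le _ _
        · linarith
      have hcard0 : ¬ D ≤ |f (i (M + 1)) - f (i M)| →
          (((range (M + 1)).filter fun j => D ≤ |f (i (j + 1)) - f (i j)|).card : ℤ) =
          (((range M).filter fun j => D ≤ |f (i (j + 1)) - f (i j)|).card : ℤ) := by
        intro h
        rw [Finset.range_add_one, Finset.filter_insert, if_neg h]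
      by_cases h6 : i (M + 1) ≤ a (p + 1)
      · by_cases h7 : D ≤ |f (i (M + 1)) - f (i M)|
        · refine ⟨p, i (M + 1), hp, h1.trans hstep, h6, h1.trans hstep, le_rfl, ?_⟩
          have c1 := hin p (i M) (i (M + 1)) hp h1 hstep h6 h7
          have c2 := hsm p x (i M) hp h3 h4 h2
          nlinarith
        · refine ⟨p, x, hp, h1.trans hstep, h6, h3, h4.trans hstep, ?_⟩
          rw [hcard0 h7]
          exact h5
      · rw [not_le] at h6
        have h8 : ∃ p', p < p' ∧ p' < m + 2 ∧ a p' ≤ i (M + 1) ∧ i (M + 1) ≤ a (p' + 1) := by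
          by_contra hcon
          push Not at hcon
          have h9 : ∀ d, p + 1 + d ≤ m + 2 → a (p + 1 + d) ≤ i (M + 1) := by
            intro d
            induction d with
            | zero => intro _; exact h6.le
            | succ d ih2 => intro hd; exact (hcon (p + 1 + d) (by omega) (by omega) (ih2 (by omega))).le
          rcases Nat.lt_or_ge (p + 1) (m + 2) with h10 | h10
          · have h11 := hcon (m + 1) (by omega) (by omega) (by
              have := h9 (m + 1 - (p + 1)) (by omega)
              rwa [show p + 1 + (m + 1 - (p + 1)) = m + 1 by omega] at this)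
            rw [show m + 1 + 1 = m + 2 from rfl, aM] at h11
            omega
          · have : p + 1 = m + 2 := by omega
            rw [this, aM] at h6
            omega
        obtain ⟨p', q1, q2, q3, q4⟩ := h8
        refine ⟨p', i (M + 1), q2, q3, q4, q3, le_rfl, ?_⟩
        have c1 := hsB p' (i (M + 1)) hMn
        have c2 := hsB p x (h4.trans (hiN M (by omega)))
        rw [abs_le] at c1 c2
        have c3 : (p : ℤ) + 1 ≤ p' := by exact_mod_cast q1
        have c4 : ((p : ℤ) + 1) * (4 * B + 2 * D) ≤ p' * (4 * B + 2 * D) := mul_le_mul_of_nonneg_right c3 (by linarith)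
        have c5 : (((range (M + 1)).filter fun j => D ≤ |f (i (j + 1)) - f (i j)|).card : ℤ) * D ≤
            ((((range M).filter fun j => D ≤ |f (i (j + 1)) - f (i j)|).card : ℤ) + 1) * D :=
          mul_le_mul_of_nonneg_right hcard (by linarith)
        linarith [c1.1, c2.2]
  obtain ⟨p, x, hp, h1, h2, h3, h4, h5⟩ := key N le_rfl
  have c2 := hsB p x (h4.trans hN)
  rw [abs_le] at c2
  have c3 : (p : ℤ) + 1 ≤ m + 2 := by exact_mod_cast hp
  have c4 : ((p : ℤ) + 1) * (4 * B + 2 * D) ≤ (m + 2) * (4 * B + 2 * D) := mul_le_mul_of_nonneg_right c3 (by linarith)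
  linarith [c2.2]

/-- one of the two levels sees the distance -/
lemma lvl_of_nrm {v : Pt} {D : ℤ} (hD : 0 ≤ D) (h : D ^ 2 ≤ nrm v) : D ≤ |lvl false v| ∨ D ≤ |lvl true v| := by
  by_contra hc
  rw [not_or, not_le, not_le] at hc
  obtain ⟨c1, c2⟩ := hc
  have e2 : 3 * nrm v = (lvl false v) ^ 2 + lvl false v * lvl true v + (lvl true v) ^ 2 := by
    unfold lvl hd nrm ip up
    simp
    ring
  have c3 : (lvl false v) ^ 2 < D ^ 2 := by
    rw [← sq_abs]
    exact pow_lt_pow_left₀ c1 (abs_nonneg _) (by norm_num)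
  have c4 : (lvl true v) ^ 2 < D ^ 2 := by
    rw [← sq_abs]
    exact pow_lt_pow_left₀ c2 (abs_nonneg _) (by norm_num)
  nlinarith [sq_nonneg (lvl false v - lvl true v)]

/-- the levels of a word of the box -/
lemma lp_box {L : ℕ} {t : List Bool} (ht : t ∈ WL L) (dir : Bool) (i : ℕ) (hi : i ≤ t.length) :
    |lp dir t i| ≤ 3 * 2 ^ L + 2 := by
  have h1 := ht.2 i hi dir
  have h2 : row dir (vx oo up t i) = lp dir t i / 3 := rfl
  rw [h2, abs_le] at h1
  rw [abs_le]
  constructor
  · have := Int.ediv_mul_le (lp dir t i) (show (3 : ℤ) ≠ 0 by norm_num)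
    omega
  · have := Int.lt_ediv_add_one_mul_self (lp dir t i) (show (0 : ℤ) < 3 by norm_num)
    omega

/-- **a long chain of times with large successive distances: many leaves in one direction** -/
theorem leaf_many {L b : ℕ} {t : List Bool} (ht : t ∈ WL L) {D : ℤ} (hD : 2 * RR b ≤ D) {i : ℕ → ℕ} {N : ℕ}
    (hi : ∀ j, j < N → i j ≤ i (j + 1)) (hN : i N ≤ t.length)
    (hd : ∀ j, j < N → D ^ 2 ≤ nrm (vx oo up t (i (j + 1)) - vx oo up t (i j))) :
    ∃ (dir : Bool) (m u : ℕ) (e : ℕ → ℕ), Lf dir b t m u e ∧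
      (N : ℤ) * D ≤ 2 * ((m + 2) * (4 * (3 * 2 ^ L + 2) + 2 * D)) := by
  have hR : 0 < RR b := by
    unfold RR
    have : (1 : ℤ) ≤ 2 ^ b := one_le_pow₀ (by norm_num)
    linarith
  have hD0 : 0 ≤ D := by linarith
  obtain ⟨m0, u0, e0, h0⟩ := lf_exists false b t
  obtain ⟨m1, u1, e1, h1⟩ := lf_exists true b t
  have b0 := card_big h0 hR hD (fun z hz => lp_box ht false z hz) hi hN
  have b1 := card_big h1 hR hD (fun z hz => lp_box ht true z hz) hi hN
  have hc : N ≤ ((range N).filter fun j => D ≤ |lvl false (vx oo up t (i (j + 1))) - lvl false (vx oo up t (i j))|).card +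
      ((range N).filter fun j => D ≤ |lvl true (vx oo up t (i (j + 1))) - lvl true (vx oo up t (i j))|).card := by
    refine le_trans (le_of_eq (Finset.card_range N).symm) ((Finset.card_le_card ?_).trans (Finset.card_union_le _ _))
    intro j hj
    rw [Finset.mem_union, Finset.mem_filter, Finset.mem_filter]
    rw [Finset.mem_range] at hj
    have h2 := lvl_of_nrm hD0 (hd j hj)
    have e2 : ∀ dir, lvl dir (vx oo up t (i (j + 1)) - vx oo up t (i j)) =
        lvl dir (vx oo up t (i (j + 1))) - lvl dir (vx oo up t (i j)) := by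
      intro dir
      have := SDN.lvl_add dir (vx oo up t (i (j + 1)) - vx oo up t (i j)) (vx oo up t (i j))
      rw [sub_add_cancel] at this
      linarith
    rw [e2, e2] at h2
    rcases h2 with h2 | h2
    · exact Or.inl ⟨Finset.mem_range.2 hj, h2⟩
    · exact Or.inr ⟨Finset.mem_range.2 hj, h2⟩
  have hc' : (N : ℤ) ≤ (((range N).filter fun j => D ≤ |lvl false (vx oo up t (i (j + 1))) - lvl false (vx oo up t (i j))|).card : ℤ) +
      (((range N).filter fun j => D ≤ |lvl true (vx oo up t (i (j + 1))) - lvl true (vx oo up t (i j))|).card : ℤ) := by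
    exact_mod_cast hc
  have hc2 := mul_le_mul_of_nonneg_right hc' hD0
  rw [add_mul] at hc2
  by_cases hm : m0 ≤ m1
  · refine ⟨true, m1, u1, e1, h1, ?_⟩
    have hm' : (m0 : ℤ) ≤ m1 := by exact_mod_cast hm
    have h3 : ((m0 : ℤ) + 2) * (4 * (3 * 2 ^ L + 2) + 2 * D) ≤ (m1 + 2) * (4 * (3 * 2 ^ L + 2) + 2 * D) :=
      mul_le_mul_of_nonneg_right (by linarith) (by positivity)
    linarith
  · refine ⟨false, m0, u0, e0, h0, ?_⟩
    have hm' : (m1 : ℤ) ≤ m0 := by exact_mod_cast (not_le.1 hm).le
    have h3 : ((m1 : ℤ) + 2) * (4 * (3 * 2 ^ L + 2) + 2 * D) ≤ (m0 + 2) * (4 * (3 * 2 ^ L + 2) + 2 * D) :=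
      mul_le_mul_of_nonneg_right (by linarith) (by positivity)
    linarith

end PWd

end HexObs
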