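import Pool.Agent.PW.Wind
import Pool.Agent.PW.PieceC

/-!
PW, row E1 (helper15): the greedy chain for a phase `p` of a path `z` (cylinder: `p = ph z`).
`exists_chain_phase`: if `0 < Re (p i / p j)` whenever `z i`, `z j` are at a distance at most `r + d`, then
`|turn p m m'| ≤ (N + 1) π / 2`, `N` = the length of a chain of times with `‖z (s (j + 1)) - z (s j)‖ ≥ r`.
-/

set_option autoImplicit false

noncomputable section

namespace HexObs.PWd

open Complex Finset
open scoped Real

/-- **the greedy chain for a phase** -/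
theorem exists_chain_phase {z p : ℕ → ℂ} {r d : ℝ} {m m' : ℕ} (hr : 0 < r) (hd0 : 0 ≤ d) (hm : m ≤ m')
    (hd : ∀ i, m ≤ i → i < m' → ‖z (i + 1) - z i‖ ≤ d)
    (hp : ∀ i j, m ≤ i → i ≤ j → j ≤ m' → ‖z j - z i‖ < r + d → 0 < (p j / p i).re) :
    ∃ (N : ℕ) (s : ℕ → ℕ), s 0 = m ∧
      (∀ j, j < N → s j < s (j + 1) ∧ s (j + 1) ≤ m' ∧ r ≤ ‖z (s (j + 1)) - z (s j)‖) ∧
      |turn p m m'| ≤ (N + 1) * (π / 2) := by
  classical
  obtain ⟨k, hk⟩ : ∃ k, m' - m = k := ⟨_, rfl⟩
  induction k using Nat.strong_induction_on generalizing m with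
  | _ k ih =>
  by_cases hex : ∃ i, m ≤ i ∧ i ≤ m' ∧ r ≤ ‖z i - z m‖
  · set i0 := Nat.find hex with hi0
    obtain ⟨h1, h2, h3⟩ := Nat.find_spec hex
    rw [← hi0] at h1 h2 h3
    have hmin : ∀ i, m ≤ i → i < i0 → ‖z i - z m‖ < r := fun i h4 h5 => by
      by_contra h6
      exact Nat.find_min hex h5 ⟨h4, by omega, not_lt.1 h6⟩
    have hne : m ≠ i0 := by
      intro h4
      rw [← h4, sub_self, norm_zero] at h3
      linarith
    have hlt : m < i0 := by omega
    obtain ⟨N, s, hs0, hs, ht⟩ := ih (m' - i0) (by omega) h2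
      (fun i h4 h5 => hd i (by omega) h5) (fun i j h4 h5 h6 h7 => hp i j (by omega) h5 h6 h7) rfl
    refine ⟨N + 1, fun j => if j = 0 then m else s (j - 1), by simp, ?_, ?_⟩
    · intro j hj
      rcases Nat.eq_zero_or_pos j with h0 | h0
      · subst h0
        simp only [if_true, Nat.zero_add, one_ne_zero, if_false, Nat.sub_self, hs0]
        exact ⟨hlt, h2, h3⟩
      · have h5 := hs (j - 1) (by omega)
        have h6 : j - 1 + 1 = j := by omega
        rw [h6] at h5
        simp only [if_neg (show j ≠ 0 by omega), if_neg (show j + 1 ≠ 0 by omega), Nat.add_sub_cancel]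
        exact h5
    · rw [turn_add p hlt.le h2]
      refine (abs_add_le _ _).trans ?_
      have h7 : |turn p m i0| < π / 2 := by
        refine (turn_half hlt.le fun i h8 h9 => hp m i le_rfl h8 (by omega) ?_).2
        rcases h9.lt_or_eq with h10 | h10
        · have := hmin i h8 h10
          linarith
        · subst h10
          have h11 := hmin (i0 - 1) (by omega) (by omega)
          have h12 := hd (i0 - 1) (by omega) (by omega)
          have h13 : i0 - 1 + 1 = i0 := by omega
          rw [h13] at h12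
          have h14 : z i0 - z m = (z i0 - z (i0 - 1)) + (z (i0 - 1) - z m) := by ring
          have h15 := norm_add_le (z i0 - z (i0 - 1)) (z (i0 - 1) - z m)
          rw [h14]
          linarith
      push_cast
      linarith
  · push Not at hex
    refine ⟨0, fun _ => m, rfl, fun j hj => absurd hj (Nat.not_lt_zero _), ?_⟩
    have h7 : |turn p m m'| < π / 2 := by
      refine (turn_half hm fun i h8 h9 => hp m i le_rfl h8 h9 ?_).2
      have := hex i h8 h9
      linarith
    push_cast
    linarith

end HexObs.PWd
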