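import Pool.Agent.MC.Coup
import Pool.Agent.PW.FinX
import Pool.Agent.PW.JointA

/-!
# PW: the winding of the infinite self-avoiding walk (helper90)

`windI w k` : the winding of the first `k` steps of the infinite walk around its starting point. From the characteristic
functions for the uniform walks (`CharN`, times `n ^ s` for the walks with `N n` steps, `n ^ s ≤ N n`) and the macroscopic
coupling (`MC.coupling_of`): **`inf_result`**, the finite dimensional laws of `windI w (n ^ s) / √(2 log n)`, `s ≥ 0`, converge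
to those of the Brownian motion.
-/

set_option autoImplicit false

noncomputable section

open MeasureTheory ProbabilityTheory Filter Topology
open scoped ENNReal NNReal BoundedContinuousFunction

namespace Pool.Agent.PW.Inf

open Pool.Agent.IW Pool.Agent.IW.Res

open Pool.Agent.PW.Res (windS tm)

/-- The winding angle, around the starting point, of the first `k` steps of the infinite walk with the directions `w`. -/
def windI (w : ℕ → Fin 3) (k : ℕ) : ℝ := ∑ i ∈ Finset.Ico 1 k, Complex.arg (ipos w (i + 1) / ipos w i)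

lemma windI_ext {n : ℕ} (s : Fin n → Fin 3) {k : ℕ} (hk : k ≤ n) : windI (ext s) k = windS s k := by
  unfold windI windS
  refine Finset.sum_congr rfl fun i hi => ?_
  rw [Finset.mem_Ico] at hi
  rw [ipos_ext s (by omega), ipos_ext s (by omega)]
  rfl

lemma windI_loc {m k : ℕ} (hk : k ≤ m) {w w' : ℕ → Fin 3} (h : ∀ i, i < m → w i = w' i) : windI w k = windI w' k := by
  unfold windI
  refine Finset.sum_congr rfl fun i hi => ?_
  rw [Finset.mem_Ico] at hi
  rw [ipos_loc (k := m) (by omega) h, ipos_loc (k := m) (by omega) h]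

lemma ipos_meas (k : ℕ) : Measurable fun w : ℕ → Fin 3 => ipos w k := by
  unfold ipos
  refine Finset.measurable_sum _ fun i _ => ?_
  exact (measurable_of_countable (fun a : Fin 3 => step i a)).comp (measurable_pi_apply i)

lemma windI_meas (k : ℕ) : Measurable fun w : ℕ → Fin 3 => windI w k := by
  unfold windI
  refine Finset.measurable_sum _ fun i _ => ?_
  exact Complex.measurable_arg.comp ((ipos_meas _).div (ipos_meas _))

/-! ### 1. Functions of the first m steps -/

/-- depends on the first m steps only -/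
def LocF (m : ℕ) (g : (ℕ → Fin 3) → ℂ) : Prop := ∀ w w', (∀ i, i < m → w i = w' i) → g w = g w'

lemma int_loc {m : ℕ} {g : (ℕ → Fin 3) → ℂ} (hg : LocF m g) (μ : Measure (ℕ → Fin 3)) [IsFiniteMeasure μ] :
    ∫ w, g w ∂μ = ∑ f : Fin m → Fin 3, (μ.real (cyl m (ext f)) : ℂ) * g (ext f) := by
  obtain ⟨G, hG⟩ : ∃ G : (Fin m → Fin 3) → ℂ, ∀ f, g (ext f) = G f := ⟨fun f => g (ext f), fun _ => rfl⟩
  have e : ∀ w, g w = ∑ f : Fin m → Fin 3, (cyl m (ext f)).indicator (fun _ => G f) w := by
    intro w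
    have h1 : w ∈ cyl m (ext (fun i : Fin m => w i)) := fun i hi => by rw [ext_lt _ hi]
    rw [Finset.sum_eq_single (fun i : Fin m => w i)]
    · rw [Set.indicator_of_mem h1, ← hG]
      exact hg _ _ fun i hi => h1 i hi
    · intro f _ hf
      refine Set.indicator_of_notMem (fun h2 => hf ?_) _
      funext i
      have := h2 i i.2
      rw [ext_lt _ i.2] at this
      exact this.symm
    · intro h
      exact absurd (Finset.mem_univ _) h
  have e' : g = fun w => ∑ f : Fin m → Fin 3, (cyl m (ext f)).indicator (fun _ => G f) w := funext e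
  simp only [hG]
  rw [e', integral_finsetSum]
  · refine Finset.sum_congr rfl fun f _ => ?_
    rw [integral_indicator_const _ (clopen_cyl m (ext f)).isOpen.measurableSet, Complex.real_smul]
  · intro f _
    exact (integrable_const _).indicator (clopen_cyl m (ext f)).isOpen.measurableSet

/-- the mean over the walks with N steps of a function of the first m steps -/
lemma mean_loc {m N : ℕ} (hm : m ≤ N) {g : (ℕ → Fin 3) → ℂ} (hg : LocF m g) :
    (∑ s ∈ saw N, g (ext s)) / ((saw N).card : ℂ) = ∑ f : Fin m → Fin 3, (begins N m (ext f) : ℂ) * g (ext f) := by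
  have h1 := (Finset.sum_fiberwise (saw N) (fun s => fun i : Fin m => s ⟨i, lt_of_lt_of_le i.2 hm⟩) (fun s => g (ext s))).symm
  rw [h1, Finset.sum_div]
  refine Finset.sum_congr rfl fun f _ => ?_
  have h2 : ∀ s ∈ (saw N).filter (fun s => (fun i : Fin m => s ⟨i, lt_of_lt_of_le i.2 hm⟩) = f), g (ext s) = g (ext f) := by
    intro s hs
    rw [Finset.mem_filter] at hs
    refine hg _ _ fun i hi => ?_
    rw [ext_lt _ hi, ext_lt _ (lt_of_lt_of_le hi hm), ← hs.2]
  rw [Finset.sum_congr rfl h2, Finset.sum_const, nsmul_eq_mul]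
  unfold begins
  have h3 : (saw N).filter (fun s => (fun i : Fin m => s ⟨i, lt_of_lt_of_le i.2 hm⟩) = f) =
      (saw N).filter (fun s => ∀ i : Fin N, (i : ℕ) < m → s i = ext f i) := by
    ext s
    rw [Finset.mem_filter, Finset.mem_filter]
    refine and_congr_right fun _ => ⟨fun h i hi => ?_, fun h => ?_⟩
    · rw [ext_lt _ hi, ← h]
    · funext i
      have := h ⟨i, lt_of_lt_of_le i.2 hm⟩ i.2
      rw [this]
      exact ext_lt _ i.2
  rw [h3]
  push_cast
  ring

variable {P : Measure (ℕ → Fin 3)} [IsProbabilityMeasure P]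

/-- the coupling -/
lemma close_of {ε : ℝ} {m N : ℕ} (hm : m ≤ N) (h : ∑ f : Fin m → Fin 3, |begins N m (ext f) - P.real (cyl m (ext f))| ≤ ε)
    {g : (ℕ → Fin 3) → ℂ} (hg : LocF m g) (hg1 : ∀ w, ‖g w‖ ≤ 1) :
    ‖(∑ s ∈ saw N, g (ext s)) / ((saw N).card : ℂ) - ∫ w, g w ∂P‖ ≤ ε := by
  rw [mean_loc hm hg, int_loc hg, ← Finset.sum_sub_distrib]
  refine (norm_sum_le _ _).trans (le_trans (Finset.sum_le_sum fun f _ => ?_) h)
  rw [← sub_mul, norm_mul, ← Complex.ofReal_sub, Complex.norm_real, Real.norm_eq_abs]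
  calc |begins N m (ext f) - P.real (cyl m (ext f))| * ‖g (ext f)‖ ≤ |begins N m (ext f) - P.real (cyl m (ext f))| * 1 :=
        mul_le_mul_of_nonneg_left (hg1 _) (abs_nonneg _)
    _ = _ := mul_one _

/-! ### 2. The characteristic functions -/

/-- **what is needed**: the windings of the first `n ^ (s j)` steps of the walks with `N n` steps -/
def CharN : Prop := ∀ (m : ℕ) (s : Fin m → ℝ), StrictMono s → (∀ j, 0 < s j) → ∀ N : ℕ → ℕ, (∀ n j, tm n (s j) ≤ N n) →
  ∀ u : Fin m → ℝ, Tendsto (fun n : ℕ => (∑ x ∈ saw (N n),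
    Complex.exp ((∑ j, u j / √(Real.log n) * windS x (tm n (s j)) : ℝ) * Complex.I)) / ((saw (N n)).card : ℂ)) atTop
    (𝓝 ((Real.exp (-(_root_.PW.bq s u)) : ℝ) : ℂ))

/-- the macroscopic coupling -/
def Coup (P : Measure (ℕ → Fin 3)) : Prop := ∀ ε : ℝ, 0 < ε → ∃ δ : ℝ, 0 < δ ∧ δ ≤ 1 ∧ ∀ n m : ℕ, (m : ℝ) ≤ δ * n →
  ∑ f : Fin m → Fin 3, |begins n m (ext f) - P.real (cyl m (ext f))| ≤ ε

/-- the characteristic functions for the infinite walk -/
theorem inf_char (hC : CharN) (hP : Coup P) {m : ℕ} {s : Fin m → ℝ} (hs : StrictMono s) (hs0 : ∀ j, 0 < s j) (u : Fin m → ℝ) :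
    Tendsto (fun n : ℕ => ∫ w, Complex.exp ((∑ j, u j / √(Real.log n) * windI w (tm n (s j)) : ℝ) * Complex.I) ∂P) atTop
      (𝓝 ((Real.exp (-(_root_.PW.bq s u)) : ℝ) : ℂ)) := by
  rw [Metric.tendsto_atTop]
  intro ε hε
  obtain ⟨δ, hδ, hδ1, hcl⟩ := hP (ε / 2) (by positivity)
  obtain ⟨κ, hκ⟩ : ∃ κ : ℕ → ℕ, κ = fun n => ∑ j, tm n (s j) := ⟨_, rfl⟩
  have hκj : ∀ n j, tm n (s j) ≤ κ n := fun n j => by
    rw [hκ]
    exact Finset.single_le_sum (f := fun j => tm n (s j)) (fun _ _ => Nat.zero_le _) (Finset.mem_univ j)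
  obtain ⟨N, hN⟩ : ∃ N : ℕ → ℕ, N = fun n => ⌈(κ n : ℝ) / δ⌉₊ := ⟨_, rfl⟩
  have hN1 : ∀ n, (κ n : ℝ) ≤ δ * N n := fun n => by
    have h1 : (κ n : ℝ) / δ ≤ N n := by
      rw [hN]
      exact Nat.le_ceil _
    rwa [div_le_iff₀ hδ, mul_comm] at h1
  have hN2 : ∀ n, κ n ≤ N n := fun n => by
    have h1 : (κ n : ℝ) ≤ N n := (hN1 n).trans (by
      have : (0 : ℝ) ≤ N n := Nat.cast_nonneg _
      nlinarith)
    exact_mod_cast h1
  have h2 := hC m s hs hs0 N (fun n j => (hκj n j).trans (hN2 n)) u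
  rw [Metric.tendsto_atTop] at h2
  obtain ⟨n0, hn0⟩ := h2 (ε / 2) (by positivity)
  refine ⟨n0, fun n hn => ?_⟩
  have h3 := hn0 n hn
  have h4 := close_of (P := P) (g := fun w => Complex.exp ((∑ j, u j / √(Real.log n) * windI w (tm n (s j)) : ℝ) * Complex.I))
    (hN2 n) (hcl (N n) (κ n) (hN1 n)) (fun w w' h => by
      simp only
      congr 3
      refine Finset.sum_congr rfl fun j _ => ?_
      rw [windI_loc (hκj n j) h]) (fun w => (Complex.norm_exp_ofReal_mul_I _).le)
  have e1 : ∀ x ∈ saw (N n), Complex.exp ((∑ j, u j / √(Real.log n) * windI (ext x) (tm n (s j)) : ℝ) * Complex.I) =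
      Complex.exp ((∑ j, u j / √(Real.log n) * windS x (tm n (s j)) : ℝ) * Complex.I) := by
    intro x _
    congr 3
    refine Finset.sum_congr rfl fun j _ => ?_
    rw [windI_ext x ((hκj n j).trans (hN2 n))]
  rw [Finset.sum_congr rfl e1] at h4
  rw [dist_eq_norm] at h3 ⊢
  obtain ⟨A, hA⟩ : ∃ A : ℂ, A = (∑ x ∈ saw (N n),
    Complex.exp ((∑ j, u j / √(Real.log n) * windS x (tm n (s j)) : ℝ) * Complex.I)) / ((saw (N n)).card : ℂ) := ⟨_, rfl⟩
  rw [← hA] at h3 h4
  have e2 : ∀ B D : ℂ, B - D = (A - D) - (A - B) := fun B D => by ring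
  rw [e2]
  refine (norm_sub_le _ _).trans_lt ?_
  linarith

/-! ### 3. Weak convergence -/

/-- weak convergence of random vectors from their characteristic functions -/
theorem lim_vec {Ω ι : Type*} [MeasurableSpace Ω] [Fintype ι] {P : Measure Ω} [IsProbabilityMeasure P] {Y : ℕ → Ω → ι → ℝ}
    (hY : ∀ n, Measurable (Y n)) {μ : Measure (ι → ℝ)} [IsProbabilityMeasure μ]
    (h : ∀ t : ι → ℝ, Tendsto (fun n => ∫ w, Complex.exp ((∑ j, t j * Y n w j : ℝ) * Complex.I) ∂P) atTop
      (𝓝 (∫ x, Complex.exp ((∑ j, t j * x j : ℝ) * Complex.I) ∂μ))) (f : (ι → ℝ) →ᵇ ℝ) :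
    Tendsto (fun n => ∫ w, f (Y n w) ∂P) atTop (𝓝 (∫ x, f x ∂μ)) := by
  classical
  let e := MeasurableEquiv.toLp 2 (ι → ℝ)
  have he : ∀ x : ι → ℝ, e x = WithLp.toLp 2 x := fun _ => rfl
  have hμ : IsProbabilityMeasure (μ.map e) := Measure.isProbabilityMeasure_map e.measurable.aemeasurable
  have hm : ∀ n, Measurable fun w => e (Y n w) := fun n => e.measurable.comp (hY n)
  let Q : ℕ → ProbabilityMeasure (EuclideanSpace ℝ ι) := fun n =>
    _root_.PW.toPM (P.map fun w => e (Y n w)) (Measure.isProbabilityMeasure_map (hm n).aemeasurable)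
  let Q0 : ProbabilityMeasure (EuclideanSpace ℝ ι) := _root_.PW.toPM (μ.map e) hμ
  have key : Tendsto Q atTop (𝓝 Q0) := by
    refine ProbabilityMeasure.tendsto_of_tendsto_charFun fun t => ?_
    have e1 : charFun (Q0 : Measure (EuclideanSpace ℝ ι)) t =
        ∫ x, Complex.exp ((∑ j, t j * x j : ℝ) * Complex.I) ∂μ := by
      rw [charFun_apply]
      show ∫ x, _ ∂(μ.map e) = _
      rw [integral_map_equiv]
      refine integral_congr_ae (Eventually.of_forall fun x => ?_)
      simp only [he]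
      congr 3
    rw [e1]
    refine (h t).congr fun n => ?_
    rw [charFun_apply]
    show _ = ∫ x, _ ∂(P.map fun w => e (Y n w))
    rw [integral_map (hm n).aemeasurable]
    · refine integral_congr_ae (Eventually.of_forall fun w => ?_)
      simp only
      congr 2
    · exact (by fun_prop : Continuous fun x : EuclideanSpace ℝ ι =>
        Complex.exp ((inner ℝ x t : ℝ) * Complex.I)).stronglyMeasurable.aestronglyMeasurable
  have e3 := (ProbabilityMeasure.tendsto_iff_forall_integral_tendsto.1 key)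
    (f.compContinuous ⟨fun x : EuclideanSpace ℝ ι => WithLp.ofLp x, by fun_prop⟩)
  have e4 : ∫ x, (f.compContinuous ⟨fun x : EuclideanSpace ℝ ι => WithLp.ofLp x, by fun_prop⟩) x
      ∂(Q0 : Measure (EuclideanSpace ℝ ι)) = ∫ x, f x ∂μ := by
    show ∫ x, _ ∂(μ.map e) = _
    rw [integral_map_equiv]
    rfl
  rw [e4] at e3
  refine e3.congr fun n => ?_
  show ∫ x, _ ∂(P.map fun w => e (Y n w)) = _
  rw [integral_map (hm n).aemeasurable
    (BoundedContinuousFunction.continuous _).stronglyMeasurable.aestronglyMeasurable]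
  rfl

/-- **the winding of the infinite walk**: Brownian motion, all times -/
theorem inf_result (hC : CharN) (hP : Coup P) (I : Finset ℝ≥0) (f : (I → ℝ) →ᵇ ℝ) :
    Tendsto (fun n : ℕ => ∫ w, f (fun s : I => windI w (tm n s) / √(2 * Real.log n)) ∂P) atTop
      (𝓝 (∫ x, f x ∂(BrownianReal.projectiveFamily I))) := by
  refine lim_vec (Y := fun n w (s : I) => windI w (tm n s) / √(2 * Real.log n))
    (fun n => measurable_pi_lambda _ fun s => (windI_meas _).div_const _) (fun t => ?_) f
  rw [_root_.PW.char_brown]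
  have key := inf_char hC hP (_root_.PW.tt_mono I) (fun j => _root_.PW.tt_pos I j) (fun j => _root_.PW.tc I t j / √2)
  rw [_root_.PW.bq_sqrt] at key
  rw [_root_.PW.bq_tc]
  refine key.congr fun n => ?_
  congr 1
  funext w
  congr 3
  have z1 : windI w (tm n 0) = 0 := by
    rw [_root_.PW.tm_zero]
    unfold windI
    simp
  rw [_root_.PW.sum_tc I t (fun s => windI w (tm n s) / √(2 * Real.log n)) (by rw [z1, zero_div])]
  have e3 : √(2 * Real.log n) = √2 * √(Real.log n) := Real.sqrt_mul (by norm_num) _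
  rw [e3]
  refine Finset.sum_congr rfl fun j _ => ?_
  show _root_.PW.tc I t j / √2 / √(Real.log n) * windI w (tm n (_root_.PW.tt I j)) =
    _root_.PW.tc I t j * (windI w (tm n (_root_.PW.tt I j)) / (√2 * √(Real.log n)))
  rw [div_div, div_mul_eq_mul_div, mul_div_assoc]

end Pool.Agent.PW.Inf

end
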