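import Pool.Agent.PW.TipU
import Pool.Agent.PW.JointW
import Pool.Agent.PW.InfW

/-!
# PW: the characteristic functions for arbitrary numbers of steps and times (helper90)

From 16's `tipU`, uniform in the times and in the function of the curve:

* **`char_gen`** : walks with `N n` steps, times `κ j n ≤ N n` with `log κ j n / log n → r j`, any uniformly Lipschitz functions
  `f n` of the curve;
* `JG_walks` : the same for the walks;
* **`charN_of`** : what is needed for the infinite walk.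
-/

set_option autoImplicit false

noncomputable section

open MeasureTheory ProbabilityTheory Filter Topology
open scoped ENNReal NNReal BoundedContinuousFunction

namespace NTSF

namespace Cg

open Finset

open HexObs hiding pos curve

open HexObs.SDN HexObs.TS HexObs.TIW HexObs.PWd

open Pool.Agent.NTS.Res Pool.Agent.PW.Res

open Mg

/-- the mean of `f n` times `exp (i ∑ u j * Θ(κ j n))` for the words with `N n` letters -/
def JG (f : ℕ → C(unitInterval, ℂ) → ℝ) (N : ℕ → ℕ) {m : ℕ} (κ : Fin m → ℕ → ℕ) (n : ℕ) (u : Fin m → ℝ) : ℂ :=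
  EXc (f n) (N n) (fun t => ∑ i, u i * turn (pS t) 1 (κ i n))

variable {K : ℕ → ℕ} {f : ℕ → C(unitInterval, ℂ) → ℝ} {L : ℝ≥0} {m : ℕ} {N : ℕ → ℕ} {κ : Fin m → ℕ → ℕ}

/-- the tips -/
theorem tipX_gen (hKS : ∀ᶠ n in atTop, TIP.Sc (K n) n) (hf : ∀ n, LipschitzWith L (f n)) (hf1 : ∀ n x, |f n x| ≤ 1)
    (hN : ∀ᶠ n in atTop, ∀ j, κ j n ≤ N n) (hmono : ∀ᶠ n in atTop, ∀ i i', i ≤ i' → κ i n ≤ κ i' n)
    (hκ : ∀ j, Tendsto (κ j) atTop atTop) : PW.TipX (JG f N κ) psiW (fun j n => K (κ j n)) := by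
  intro j e he
  obtain ⟨C0, h⟩ := tipU L j he
  refine ⟨C0, fun C hC => ?_⟩
  obtain ⟨D, κ0, h⟩ := h C hC
  refine ⟨D, ?_⟩
  filter_upwards [hN, hmono, (hκ j).eventually_ge_atTop κ0, (hκ j).eventually hKS] with n g1 g2 g3 g4
  intro u hu
  exact h (N n) (K (κ j n)) (fun i => κ i n) (fun i _ => g1 i) (fun i hi => g2 j i hi) g3 g4 (f n) (hf n) (hf1 n) u hu

variable {Φ : ℕ → ℝ → ℂ} {r : Fin m → ℝ}

/-- **the characteristic functions, arbitrary numbers of steps and times** -/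
theorem char_gen (h1 : PW.CylLim Φ (8 / 3)) (h2 : PW.TipCyl Φ psiW) (hψ : ∀ C b, Continuous (psiW C b))
    (hψ0 : ∀ C b, psiW C b 0 = 1) (hKS : ∀ᶠ n in atTop, TIP.Sc (K n) n)
    (hK : Tendsto (fun n : ℕ => Real.log ((2 ^ K n : ℕ) : ℝ) / Real.log n) atTop (𝓝 (3 / 4)))
    (hf : ∀ n, LipschitzWith L (f n)) (hf1 : ∀ n x, |f n x| ≤ 1)
    (hN : ∀ᶠ n in atTop, ∀ j, κ j n ≤ N n) (hmono : ∀ᶠ n in atTop, ∀ i i', i ≤ i' → κ i n ≤ κ i' n)
    (hκ : ∀ j, Tendsto (κ j) atTop atTop) (hr0 : ∀ j, 0 < r j) (hrm : Monotone r)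
    (hlog : ∀ j, Tendsto (fun n : ℕ => Real.log (κ j n : ℕ) / Real.log n) atTop (𝓝 (r j))) (u : Fin m → ℝ) :
    Tendsto (fun n : ℕ => JG f N κ n (fun j => u j / √(Real.log n)) -
      JG f N κ n 0 * ((Real.exp (-(PW.bq r u)) : ℝ) : ℂ)) atTop (𝓝 0) := by
  have key := PW.char_limX (J := JG f N κ) (a := 8 / 3) (r := fun j => 3 / 4 * r j) (K := fun j n => K (κ j n))
    (by norm_num) (fun j => by have := hr0 j; positivity) (fun i j hij => mul_le_mul_of_nonneg_left (hrm hij) (by norm_num))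
    h1 h2 (tipX_gen hKS hf hf1 hN hmono hκ) hψ hψ0 (fun j => (PW.K_tendsto hK).comp (hκ j)) (fun j => ?_)
    (fun n => EXc_le (hf1 n) _ _) u
  · have e : (8 / 3 : ℝ) / 2 * PW.bq (fun j => 3 / 4 * r j) u = PW.bq r u := by
      rw [PW.bq_smul r u (by norm_num)]
      ring
    rw [e] at key
    exact key
  · have h3 := (hK.comp (hκ j)).mul (hlog j)
    refine h3.congr' ?_
    filter_upwards [(hκ j).eventually_ge_atTop 2] with n h4
    have h5 : Real.log (κ j n : ℕ) ≠ 0 := (Real.log_pos (by exact_mod_cast h4)).ne'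
    simp only [Function.comp]
    field_simp

/-- **the same for the walks** -/
theorem JG_walks {n : ℕ} (hN1 : 1 ≤ N n) (hκ : ∀ j, κ j n ≤ N n) (g : ℕ → C(unitInterval, ℂ) → ℝ) (u : Fin m → ℝ) :
    JG (fun n => fsc (g n) (N n)) N κ n u = (∑ x ∈ saw (N n), (g n (curve x) : ℂ) *
      Complex.exp ((∑ j, u j * windS x (κ j n) : ℝ) * Complex.I)) / ((saw (N n)).card : ℂ) := by
  rw [mean_gS hN1 (g n) (fun x => Complex.exp ((∑ j, u j * windS x (κ j n) : ℝ) * Complex.I)) fun x => by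
    simp only [windS_rot]]
  unfold JG EXc
  congr 1
  refine sum_congr rfl fun t _ => ?_
  congr 3
  push_cast
  refine sum_congr rfl fun j _ => ?_
  rw [windS_sw t (hκ j)]
  rfl

/-- no winding, no curve -/
lemma JG_zero_one {n : ℕ} (hN1 : 1 ≤ N n) : JG (fun n => fsc (fun _ => 1) (N n)) N κ n 0 = 1 := by
  have h := JG_walks (κ := fun (_ : Fin 0) (_ : ℕ) => 0) hN1 (fun j => j.elim0) (fun _ _ => 1) Fin.elim0
  have hc : ((saw (N n)).card : ℂ) ≠ 0 := by
    exact_mod_cast (NTSF.saw_nonempty _).card_pos.ne'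
  have e : JG (fun n => fsc (fun _ => 1) (N n)) N κ n 0 =
      JG (fun n => fsc (fun _ => 1) (N n)) N (fun (_ : Fin 0) (_ : ℕ) => 0) n Fin.elim0 := by
    unfold JG
    congr 1
    funext t
    simp
  rw [e, h]
  simp [div_self hc]

end Cg

end NTSF

namespace Pool.Agent.PW.Inf

open Pool.Agent.PW.Res (windS tm)

open NTSF NTSF.Cg

/-- **for the infinite walk** -/
theorem charN_of {Φ : ℕ → ℝ → ℂ} {K : ℕ → ℕ} (h1 : _root_.PW.CylLim Φ (8 / 3)) (h2 : _root_.PW.TipCyl Φ psiW)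
    (hψ : ∀ C b, Continuous (psiW C b)) (hψ0 : ∀ C b, psiW C b 0 = 1) (hKS : ∀ᶠ n in atTop, HexObs.TIP.Sc (K n) n)
    (hK : Tendsto (fun n : ℕ => Real.log ((2 ^ K n : ℕ) : ℝ) / Real.log n) atTop (𝓝 (3 / 4))) : CharN := by
  intro m s hs hs0 N hN u
  rcases Nat.eq_zero_or_pos m with rfl | hm
  · have e : ∀ n, (∑ x ∈ Pool.Agent.IW.Res.saw (N n),
        Complex.exp ((∑ j : Fin 0, u j / √(Real.log n) * windS x (tm n (s j)) : ℝ) * Complex.I)) /
        ((Pool.Agent.IW.Res.saw (N n)).card : ℂ) = 1 := by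
      intro n
      have hc : ((Pool.Agent.IW.Res.saw (N n)).card : ℂ) ≠ 0 := by
        exact_mod_cast (NTSF.saw_nonempty _).card_pos.ne'
      simp [div_self hc]
    simp only [e]
    have e2 : _root_.PW.bq s u = 0 := by simp [_root_.PW.bq]
    rw [e2, neg_zero, Real.exp_zero, Complex.ofReal_one]
    exact tendsto_const_nhds
  have hL : ∀ n, LipschitzWith 0 (fsc (fun _ => 1) (N n)) := fun n => LipschitzWith.const 1
  have hN1 : ∀ᶠ n in atTop, 1 ≤ N n := by
    filter_upwards [(_root_.PW.tm_tendsto (hs0 ⟨0, hm⟩)).eventually_ge_atTop 1] with n hn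
    exact hn.trans (hN n ⟨0, hm⟩)
  have key := char_gen (f := fun n => fsc (fun _ => 1) (N n)) (L := 0) (N := N) (κ := fun j n => tm n (s j)) (r := s) h1 h2
    hψ hψ0 hKS hK hL (fun n x => by
      show |(1 : ℝ)| ≤ 1
      simp) (Eventually.of_forall hN) (by
      filter_upwards [eventually_ge_atTop 1] with n hn
      intro i i' hi
      refine Nat.floor_le_floor (Real.rpow_le_rpow_of_exponent_le (by exact_mod_cast hn) (hs.monotone hi)))
    (fun j => _root_.PW.tm_tendsto (hs0 j)) hs0 hs.monotone (fun j => _root_.PW.log_tm (hs0 j)) u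
  have key2 : Tendsto (fun n : ℕ => JG (fun n => fsc (fun _ => 1) (N n)) N (fun j n => tm n (s j)) n
      (fun j => u j / √(Real.log n))) atTop (𝓝 ((Real.exp (-(_root_.PW.bq s u)) : ℝ) : ℂ)) := by
    have h3 := key.add_const (((Real.exp (-(_root_.PW.bq s u)) : ℝ) : ℂ))
    rw [zero_add] at h3
    refine h3.congr' ?_
    filter_upwards [hN1] with n hn
    rw [JG_zero_one hn, one_mul, sub_add_cancel]
  refine key2.congr' ?_
  filter_upwards [hN1] with n hn
  rw [JG_walks (κ := fun j n => tm n (s j)) hn (hN n) (fun _ _ => 1) _]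
  simp only [Complex.ofReal_one, one_mul]
  rfl

end Pool.Agent.PW.Inf

end
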