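import Pool.Agent.PW.CharK

/-!
# Several scales, with a further factor (PW, row F, helper16)

`J n u` = the mean of `F * exp (i ∑ u j * Θ_n(s j))` for the walk with `n` steps, `|F| ≤ 1` (a functional of the rescaled
curve). Then `J n (u / √(log n)) - J n 0 * (Gaussian factor) → 0`: the windings are asymptotically independent of `F`.
-/

set_option autoImplicit false

noncomputable section

open MeasureTheory ProbabilityTheory Filter Topology

namespace PW

/-- one step of the induction -/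
theorem step_limX {A B β : ℕ → ℂ} {p q : ℕ → ℕ → ℂ} {P Q : ℂ} (hQ : Q ≠ 0) (hβ : ∀ n, ‖β n‖ ≤ 1)
    (h : ∀ e : ℝ, 0 < e → ∃ C0 : ℕ, ∀ C, C0 ≤ C → ∀ᶠ n : ℕ in atTop, ∃ X : ℂ, ‖A n - p C n * X‖ ≤ e ∧
      ‖B n - q C n * X‖ ≤ e)
    (hp : ∀ e : ℝ, 0 < e → ∃ C0 : ℕ, ∀ C, C0 ≤ C → ∀ᶠ n : ℕ in atTop, ‖p C n - P‖ ≤ e)
    (hq : ∀ e : ℝ, 0 < e → ∃ C0 : ℕ, ∀ C, C0 ≤ C → ∀ᶠ n : ℕ in atTop, ‖q C n - Q‖ ≤ e)
    (hB : Tendsto (fun n => B n - β n) atTop (𝓝 0)) : Tendsto (fun n => A n - β n * (P / Q)) atTop (𝓝 0) := by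
  rw [Metric.tendsto_nhds]
  intro ε hε
  have hQ0 : 0 < ‖Q‖ := norm_pos_iff.2 hQ
  set R : ℝ := (1 + 2) / (‖Q‖ / 2) with hR
  have hR0 : 0 < R := by positivity
  set D : ℝ := 1 + R + ‖P / Q‖ * (R + 2) with hD
  have hD0 : 0 < D := by positivity
  set e : ℝ := min (min 1 (‖Q‖ / 2)) (ε / (2 * D)) with he
  have he0 : 0 < e := lt_min (lt_min one_pos (by positivity)) (by positivity)
  have he1 : e ≤ 1 := (min_le_left _ _).trans (min_le_left _ _)
  have he2 : e ≤ ‖Q‖ / 2 := (min_le_left _ _).trans (min_le_right _ _)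
  have he3 : e * D ≤ ε / 2 := by
    calc e * D ≤ ε / (2 * D) * D := mul_le_mul_of_nonneg_right (min_le_right _ _) hD0.le
      _ = ε / 2 := by field_simp
  obtain ⟨C0, hC0⟩ := h e he0
  obtain ⟨C1, hC1⟩ := hp e he0
  obtain ⟨C2, hC2⟩ := hq e he0
  set C := max C0 (max C1 C2) with hC
  filter_upwards [hC0 C (by omega), hC1 C (by omega), hC2 C (by omega),
    hB.eventually (Metric.ball_mem_nhds 0 he0)] with n g1 g2 g3 g4
  obtain ⟨X, g5, g6⟩ := g1
  rw [dist_eq_norm, sub_zero] at g4
  have k1 : ‖q C n * X - β n‖ ≤ 2 * e := by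
    have : q C n * X - β n = -(B n - q C n * X) + (B n - β n) := by ring
    rw [this]
    refine (norm_add_le _ _).trans ?_
    rw [norm_neg]
    linarith
  have k2 : ‖Q‖ / 2 ≤ ‖q C n‖ := by
    have : ‖Q‖ ≤ ‖q C n‖ + ‖q C n - Q‖ := by
      have h1 : Q = q C n - (q C n - Q) := by ring
      calc ‖Q‖ = ‖q C n - (q C n - Q)‖ := by rw [← h1]
        _ ≤ _ := norm_sub_le _ _
    linarith
  have k3 : ‖X‖ ≤ R := by
    rw [hR, le_div_iff₀ (by positivity)]
    have h1 : ‖q C n * X‖ ≤ 1 + 2 := by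
      have : q C n * X = β n + (q C n * X - β n) := by ring
      rw [this]
      refine (norm_add_le _ _).trans ?_
      have := hβ n
      linarith
    rw [norm_mul] at h1
    calc ‖X‖ * (‖Q‖ / 2) ≤ ‖X‖ * ‖q C n‖ := mul_le_mul_of_nonneg_left k2 (norm_nonneg _)
      _ = ‖q C n‖ * ‖X‖ := mul_comm _ _
      _ ≤ _ := h1
  have k4 : ‖Q * X - β n‖ ≤ e * (R + 2) := by
    have : Q * X - β n = -((q C n - Q) * X) + (q C n * X - β n) := by ring
    rw [this]
    refine (norm_add_le _ _).trans ?_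
    rw [norm_neg, norm_mul]
    have := mul_le_mul g3 k3 (norm_nonneg _) he0.le
    linarith
  rw [dist_eq_norm, sub_zero]
  have k5 : A n - β n * (P / Q) = (A n - p C n * X) + ((p C n - P) * X + P / Q * (Q * X - β n)) := by
    field_simp
    ring
  rw [k5]
  refine (norm_add_le _ _).trans_lt ?_
  have k6 : ‖(p C n - P) * X + P / Q * (Q * X - β n)‖ ≤ e * R + ‖P / Q‖ * (e * (R + 2)) := by
    refine (norm_add_le _ _).trans (add_le_add ?_ ?_)
    · rw [norm_mul]
      exact mul_le_mul g2 k3 (norm_nonneg _) he0.le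
    · rw [norm_mul]
      exact mul_le_mul_of_nonneg_left k4 (norm_nonneg _)
  have k7 : e + (e * R + ‖P / Q‖ * (e * (R + 2))) = e * D := by
    rw [hD]
    ring
  linarith

variable {m : ℕ}

theorem bq_nonneg {r : Fin m → ℝ} (hr : ∀ j, 0 < r j) (u : Fin m → ℝ) : 0 ≤ bq r u := by
  have h := posSemidef_matrix_measure_inter (μ := (volume : Measure ℝ)) (s := fun j : Fin m => Set.Icc (0 : ℝ) (r j))
    (fun _ => measurableSet_Icc) (fun _ => isCompact_Icc.measure_ne_top)
  have h1 := h.dotProduct_mulVec_nonneg u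
  refine h1.trans_eq ?_
  unfold bq
  simp only [dotProduct, Matrix.mulVec, Pi.star_apply, star_trivial, Matrix.of_apply]
  refine Finset.sum_congr rfl fun i _ => ?_
  rw [Finset.mul_sum]
  refine Finset.sum_congr rfl fun l _ => ?_
  have : Set.Icc (0 : ℝ) (r i) ∩ Set.Icc 0 (r l) = Set.Icc 0 (min (r i) (r l)) := by
    rw [Set.Icc_inter_Icc, sup_idem]
  rw [this, Real.volume_real_Icc, sub_zero, max_eq_left (le_min (hr i).le (hr l).le)]
  ring

/-- the tip at the scale `K j n - C` sees nothing of what is outside -/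
def TipX (J : ℕ → (Fin m → ℝ) → ℂ) (ψ : ℕ → ℕ → ℝ → ℂ) (K : Fin m → ℕ → ℕ) : Prop :=
  ∀ j : Fin m, ∀ e : ℝ, 0 < e → ∃ C0 : ℕ, ∀ C, C0 ≤ C → ∃ M : ℝ, ∀ᶠ n : ℕ in atTop,
    ∀ (u : Fin m → ℝ), (∀ i, i < j → u i = 0) → ∃ X : ℂ, ∀ v : ℝ,
      ‖J n (Function.update u j (v - ∑ i ∈ Finset.Ioi j, u i)) - ψ C (K j n - C) v * X‖ ≤
        e + M * (|v| + ∑ i ∈ Finset.Ioi j, |u i|)

variable {Φ : ℕ → ℝ → ℂ} {ψ : ℕ → ℕ → ℝ → ℂ} {K : Fin m → ℕ → ℕ} {a : ℝ} {r : Fin m → ℝ}
  {J : ℕ → (Fin m → ℝ) → ℂ}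

/-- **asymptotic independence**. -/
theorem char_limX (ha : 0 < a) (hr0 : ∀ j, 0 < r j) (hrm : Monotone r) (h1 : CylLim Φ a) (h2 : TipCyl Φ ψ)
    (h3 : TipX J ψ K) (hψ : ∀ C b, Continuous (ψ C b)) (hψ0 : ∀ C b, ψ C b 0 = 1) (hK : ∀ j, Tendsto (K j) atTop atTop)
    (hr : ∀ j, Tendsto (fun n : ℕ => Real.log ((2 ^ K j n : ℕ) : ℝ) / Real.log n) atTop (𝓝 (r j)))
    (hJ : ∀ n, ‖J n 0‖ ≤ 1) (u : Fin m → ℝ) :
    Tendsto (fun n : ℕ => J n (fun j => u j / √(Real.log n)) - J n 0 * ((Real.exp (-(a / 2 * bq r u)) : ℝ) : ℂ)) atTop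
      (𝓝 0) := by
  -- induction on the first index
  have main : ∀ j : ℕ, j ≤ m → ∀ u : Fin m → ℝ, (∀ i : Fin m, (i : ℕ) < m - j → u i = 0) →
      Tendsto (fun n : ℕ => J n (fun i => u i / √(Real.log n)) - J n 0 * ((Real.exp (-(a / 2 * bq r u)) : ℝ) : ℂ))
        atTop (𝓝 0) := by
    intro j
    induction j with
    | zero =>
      intro _ u hu
      have hu0 : u = 0 := by
        funext i
        exact hu i (by have := i.2; omega)
      rw [hu0]
      have e1 : bq r 0 = 0 := by simp [bq]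
      rw [e1]
      simp only [Pi.zero_apply, zero_div, mul_zero, neg_zero, Real.exp_zero, Complex.ofReal_one, mul_one]
      have : ∀ n, J n (fun _ => 0) = J n 0 := fun n => rfl
      simp only [this, sub_self]
      exact tendsto_const_nhds
    | succ j ih =>
      intro hj u hu
      set i0 : Fin m := ⟨m - (j + 1), by omega⟩ with hi0
      have hlt : ∀ i : Fin m, i < i0 → u i = 0 := fun i hi => hu i (by
        have := Fin.lt_def.1 hi
        simpa [hi0] using this)
      set u' := Function.update u i0 0 with hu'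
      have hsupp : ∀ i : Fin m, (i : ℕ) < m - j → u' i = 0 := by
        intro i hi
        by_cases h : i = i0
        · rw [hu', h, Function.update_self]
        · rw [hu', Function.update_of_ne h]
          refine hu i ?_
          have h5 : (i : ℕ) ≠ m - (j + 1) := fun h6 => h (Fin.ext (by simpa [hi0] using h6))
          omega
      have hB := ih (by omega) u' hsupp
      set T : ℝ := ∑ i ∈ Finset.Ioi i0, u i with hT
      have hself : Function.update u i0 (u i0) = u := Function.update_eq_self _ _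
      have hbq := bq_update r hrm i0 u hlt (u i0)
      rw [hself] at hbq
      have hP : ∀ v : ℝ, ∀ e : ℝ, 0 < e → ∃ C0 : ℕ, ∀ C, C0 ≤ C → ∀ᶠ n : ℕ in atTop,
          ‖ψ C (K i0 n - C) (v / √(Real.log n)) - ((Real.exp (-(a * r i0 / 2 * v ^ 2)) : ℝ) : ℂ)‖ ≤ e :=
        fun v e he => tip_lim ha (hr0 i0) h1 h2 hψ hψ0 (hK i0) (hr i0) v e he
      have key := step_limX
        (A := fun n => J n (fun i => u i / √(Real.log n)))
        (B := fun n => J n (fun i => u' i / √(Real.log n)))
        (β := fun n => J n 0 * ((Real.exp (-(a / 2 * bq r u')) : ℝ) : ℂ))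
        (p := fun C n => ψ C (K i0 n - C) ((u i0 + T) / √(Real.log n)))
        (q := fun C n => ψ C (K i0 n - C) (T / √(Real.log n)))
        (P := ((Real.exp (-(a * r i0 / 2 * (u i0 + T) ^ 2)) : ℝ) : ℂ))
        (Q := ((Real.exp (-(a * r i0 / 2 * T ^ 2)) : ℝ) : ℂ))
        (by exact_mod_cast (Real.exp_pos _).ne') (fun n => by
          rw [norm_mul, Complex.norm_real, Real.norm_of_nonneg (Real.exp_pos _).le]
          have h8 : Real.exp (-(a / 2 * bq r u')) ≤ 1 := Real.exp_le_one_iff.2 (by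
            have := bq_nonneg hr0 u'
            have : 0 ≤ a / 2 * bq r u' := by positivity
            linarith)
          calc ‖J n 0‖ * Real.exp (-(a / 2 * bq r u')) ≤ 1 * 1 :=
                mul_le_mul (hJ n) h8 (Real.exp_pos _).le zero_le_one
            _ = 1 := one_mul 1) ?_ (hP _) (hP _) hB
      · have e2 : ∀ n, J n 0 * ((Real.exp (-(a / 2 * bq r u')) : ℝ) : ℂ) *
            (((Real.exp (-(a * r i0 / 2 * (u i0 + T) ^ 2)) : ℝ) : ℂ) / ((Real.exp (-(a * r i0 / 2 * T ^ 2)) : ℝ) : ℂ)) =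
            J n 0 * ((Real.exp (-(a / 2 * bq r u)) : ℝ) : ℂ) := by
          intro n
          rw [mul_assoc, ← Complex.ofReal_div, ← Complex.ofReal_mul, ← Real.exp_sub, ← Real.exp_add]
          congr 3
          rw [hbq]
          ring
        simp only [e2] at key
        exact key
      · intro e he
        obtain ⟨C0, hC0⟩ := h3 i0 (e / 2) (by positivity)
        refine ⟨C0, fun C hC => ?_⟩
        obtain ⟨M, hM⟩ := hC0 C hC
        set N : ℝ := |u i0 + T| + |T| + ∑ i ∈ Finset.Ioi i0, |u i| with hN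
        have hN0 : 0 ≤ N := by positivity
        filter_upwards [hM, div_sqrt_log |M| N (e / 2) (by positivity), eventually_ge_atTop 2] with n g1 g2 g3
        have hl : 0 < Real.log n := Real.log_pos (by exact_mod_cast g3)
        have hs : 0 < √(Real.log n) := Real.sqrt_pos.2 hl
        obtain ⟨X, hX⟩ := g1 (fun i => u i / √(Real.log n)) (fun i hi => by rw [hlt i hi, zero_div])
        have hsum : ∑ i ∈ Finset.Ioi i0, u i / √(Real.log n) = T / √(Real.log n) := by
          rw [← Finset.sum_div]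
        have hbd : ∀ v : ℝ, |v| ≤ |u i0 + T| + |T| →
            e / 2 + M * (|v / √(Real.log n)| + ∑ i ∈ Finset.Ioi i0, |u i / √(Real.log n)|) ≤ e := by
          intro v hv
          have q1 : |v / √(Real.log n)| + ∑ i ∈ Finset.Ioi i0, |u i / √(Real.log n)| =
              (|v| + ∑ i ∈ Finset.Ioi i0, |u i|) / √(Real.log n) := by
            simp_rw [abs_div, abs_of_pos hs]
            rw [← Finset.sum_div]
            ring
          rw [q1]
          have q2 : (|v| + ∑ i ∈ Finset.Ioi i0, |u i|) / √(Real.log n) ≤ N / √(Real.log n) := by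
            refine div_le_div_of_nonneg_right ?_ hs.le
            rw [hN]
            linarith
          have q3 := g2 N le_rfl
          rw [abs_of_nonneg (div_nonneg hN0 hs.le)] at q3
          have q4 : 0 ≤ (|v| + ∑ i ∈ Finset.Ioi i0, |u i|) / √(Real.log n) := by positivity
          have q5 : M * ((|v| + ∑ i ∈ Finset.Ioi i0, |u i|) / √(Real.log n)) ≤
              |M| * (N / √(Real.log n)) :=
            (mul_le_mul_of_nonneg_right (le_abs_self M) q4).trans (mul_le_mul_of_nonneg_left q2 (abs_nonneg M))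
          linarith
        have hup : ∀ c : ℝ, Function.update (fun i => u i / √(Real.log n)) i0 (c / √(Real.log n)) =
            fun i => Function.update u i0 c i / √(Real.log n) := by
          intro c
          funext i
          by_cases h : i = i0
          · rw [h, Function.update_self, Function.update_self]
          · rw [Function.update_of_ne h, Function.update_of_ne h]
        refine ⟨X, ?_, ?_⟩
        · have h4 := hX ((u i0 + T) / √(Real.log n))
          rw [hsum, ← sub_div, add_sub_cancel_right, hup, hself] at h4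
          refine h4.trans (hbd _ ?_)
          linarith [abs_nonneg T]
        · have h4 := hX (T / √(Real.log n))
          rw [hsum, ← sub_div, sub_self, hup] at h4
          refine h4.trans (hbd _ ?_)
          linarith [abs_nonneg (u i0 + T)]
  exact main m le_rfl u (fun i hi => by omega)

end PW

end
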