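import Pool.Agent.PW.DefL

/-!
# PW, row P2, first half (helper42): the exact identity of a level for the words with a given end

* `dec_sum` : sum over the decompositions = sum over the triples (lists only);
* `Ty_glue`, `Ty_split` : far part, chain, end against the words of `Ty`;
* **`convP`**: sum over `Ty` of the weight of the level = sum over the far parts and the ends of `vD`.
-/

set_option autoImplicit false

namespace HexObs

namespace PWN

open Finset TS SDN TIW

/-! ### 1. Lists -/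

lemma take_take_drop (t : List Bool) {i j : ℕ} (hij : i ≤ j) : t.take i ++ ((t.take j).drop i ++ t.drop j) = t := by
  have h : t.take i = (t.take j).take i := by
    rw [List.take_take, min_eq_left hij]
  rw [h, ← List.append_assoc, List.take_append_drop, List.take_append_drop]

open Classical in
/-- sum over the decompositions into three pieces = sum over the triples -/
lemma dec_sum (T SAs SV SE : Finset (List Bool)) (F : List Bool → List Bool → List Bool → ℝ) :
    ∑ t ∈ T, ∑ p ∈ ((range (t.length + 1)) ×ˢ (range (t.length + 1))).filter (fun p => p.1 ≤ p.2 ∧ t.take p.1 ∈ SAs ∧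
      (t.take p.2).drop p.1 ∈ SV ∧ t.drop p.2 ∈ SE), F (t.take p.1) ((t.take p.2).drop p.1) (t.drop p.2) =
    ∑ A ∈ SAs, ∑ V ∈ SV, ∑ E ∈ SE, if A ++ (V ++ E) ∈ T then F A V E else 0 := by
  have e1 : ∑ A ∈ SAs, ∑ V ∈ SV, ∑ E ∈ SE, (if A ++ (V ++ E) ∈ T then F A V E else 0) =
      ∑ x ∈ (SAs ×ˢ (SV ×ˢ SE)).filter (fun x => x.1 ++ (x.2.1 ++ x.2.2) ∈ T), F x.1 x.2.1 x.2.2 := by
    rw [sum_filter, sum_product]
    refine sum_congr rfl fun A _ => ?_
    rw [sum_product]
  rw [e1, sum_sigma']
  refine sum_bij' (fun x _ => (x.1.take x.2.1, (x.1.take x.2.2).drop x.2.1, x.1.drop x.2.2))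
    (fun x _ => ⟨x.1 ++ (x.2.1 ++ x.2.2), (x.1.length, x.1.length + x.2.1.length)⟩) ?_ ?_ ?_ ?_ ?_
  · rintro ⟨t, i, j⟩ h
    rw [mem_sigma, mem_filter] at h
    obtain ⟨h1, _, h2, h3, h4, h5⟩ := h
    rw [mem_filter, mem_product, mem_product]
    refine ⟨⟨h3, h4, h5⟩, ?_⟩
    show t.take i ++ ((t.take j).drop i ++ t.drop j) ∈ T
    rw [take_take_drop t h2]
    exact h1
  · rintro ⟨A, V, E⟩ h
    rw [mem_filter, mem_product, mem_product] at h
    obtain ⟨⟨h1, h2, h3⟩, h4⟩ := h
    have k1 : (A ++ (V ++ E)).take A.length = A := List.take_left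
    have k2 : (A ++ (V ++ E)).take (A.length + V.length) = A ++ V := by
      rw [← List.append_assoc, ← List.length_append]
      exact List.take_left
    have k3 : (A ++ (V ++ E)).drop (A.length + V.length) = E := by
      rw [← List.append_assoc, ← List.length_append]
      exact List.drop_left
    rw [mem_sigma, mem_filter, mem_product, mem_range, mem_range]
    refine ⟨h4, ⟨?_, ?_⟩, ?_, ?_, ?_, ?_⟩
    · show A.length < (A ++ (V ++ E)).length + 1
      rw [List.length_append]
      omega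
    · show A.length + V.length < (A ++ (V ++ E)).length + 1
      rw [List.length_append, List.length_append]
      omega
    · exact Nat.le_add_right _ _
    · show (A ++ (V ++ E)).take A.length ∈ SAs
      rw [k1]
      exact h1
    · show ((A ++ (V ++ E)).take (A.length + V.length)).drop A.length ∈ SV
      rw [k2, List.drop_left]
      exact h2
    · show (A ++ (V ++ E)).drop (A.length + V.length) ∈ SE
      rw [k3]
      exact h3
  · rintro ⟨t, i, j⟩ h
    rw [mem_sigma, mem_filter, mem_product, mem_range, mem_range] at h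
    obtain ⟨h1, ⟨h6, h7⟩, h2, h3, h4, h5⟩ := h
    dsimp only at h6 h7 h2 ⊢
    have k1 : t.take i ++ ((t.take j).drop i ++ t.drop j) = t := take_take_drop t h2
    have k2 : (t.take i).length = i := by
      rw [List.length_take]
      omega
    have k3 : ((t.take j).drop i).length = j - i := by
      rw [List.length_drop, List.length_take]
      omega
    rw [k1, k2, k3, Nat.add_sub_cancel' h2]
  · rintro ⟨A, V, E⟩ _
    have k2 : (A ++ (V ++ E)).take (A.length + V.length) = A ++ V := by
      rw [← List.append_assoc, ← List.length_append]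
      exact List.take_left
    have k3 : (A ++ (V ++ E)).drop (A.length + V.length) = E := by
      rw [← List.append_assoc, ← List.length_append]
      exact List.drop_left
    dsimp only
    rw [k2, k3, List.take_left, List.drop_left]
  · rintro ⟨t, i, j⟩ _
    rfl

/-! ### 2. Frames -/

lemma en_app (A Y : List Bool) : en (A ++ Y) = en A + mulE (rt A) (en Y) := by
  unfold en
  rw [List.length_append, vx_app]
  rfl

lemma de_app (A Y : List Bool) : de (A ++ Y) = mulE (rt A) (de Y) := by
  unfold de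
  rw [List.length_append, dx_app]

lemma de_BU {V : List Bool} (hV : V ∈ BU) : de V = up := by
  obtain ⟨T, hT⟩ := hV
  exact (mem_Brd.1 hT).2.2.1

lemma rt_of_de {w : List Bool} (h : de w = up) (p : Pt) : mulE (rt w) p = p := by
  have e1 : rt w = rotTo up up := by
    unfold rt
    rw [h]
  have e2 : rotTo up up = (1, 0) := by decide
  rw [e1, e2]
  exact Prod.ext (by simp [mulE]) (by simp [mulE])

lemma en_VE {V E : List Bool} (hV : V ∈ BU) : en (V ++ E) = en V + en E := by
  rw [en_app, rt_of_de (de_BU hV)]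

lemma de_VE {V E : List Bool} (hV : V ∈ BU) (hE : de E = up) : de (V ++ E) = up := by
  rw [de_app, rt_of_de (de_BU hV), hE]

/-! ### 3. Gluing -/

lemma hn_T (k : ℕ) {m : ℤ} (hm : m ≠ 0) : (6 * k : ℤ) ≤ hn (2 * (k : ℤ) * m, 2 * (k : ℤ) * m) := by
  have h3 : ip (2 * (k : ℤ) * m, 2 * (k : ℤ) * m) up = 6 * k * m := by
    simp only [ip, up]
    ring
  have hk0 : (0 : ℤ) ≤ k := Int.natCast_nonneg k
  rcases lt_or_gt_of_ne hm with h4 | h4
  · have h5 := neg_hn_le_ip (2 * (k : ℤ) * m, 2 * (k : ℤ) * m) upd'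
    rw [h3] at h5
    nlinarith
  · have h5 := ip_le_hn (2 * (k : ℤ) * m, 2 * (k : ℤ) * m) upd'
    rw [h3] at h5
    nlinarith

/-- the chain and the end -/
lemma VE_Hp {l L : ℕ} {Ch : Set (List Bool)} (hC : SLW.Chn L Ch) (hl : l ≤ L) {V E : List Bool} (hV : V ∈ Ch)
    (hE : E ∈ Hp (2 ^ l)) : V ++ E ∈ Hp (2 * 2 ^ L) := by
  refine SLW.bu_hp (hC.bu hV) (fun i hi => ?_) ⟨hE.1, fun i hi => ?_⟩
  · have := hC.size V hV i hi
    push_cast
    exact this
  · have h1 := hE.2 i hi
    have h2 : (2 : ℤ) ^ l ≤ 2 ^ L := pow_le_pow_right₀ (by norm_num) hl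
    push_cast at h1 ⊢
    linarith

/-- a word with small pieces behind a word whose translates avoid the ball about its tip -/
lemma Dsj_glue {k L : ℕ} {A Y : List Bool} (hk : 2 ^ (L + 3) ≤ k) (hA : TPC.Dsj k A) (hT : TrF k (2 ^ (L + 2)) A)
    (hY : Y ∈ Hp (2 * 2 ^ L)) : TPC.Dsj k (A ++ Y) := by
  have hkk : (2 : ℤ) ^ (L + 3) ≤ k := by exact_mod_cast hk
  have hp : (2 : ℤ) ^ (L + 3) = 8 * 2 ^ L := by ring
  have hp2 : (2 : ℤ) ^ (L + 2) = 4 * 2 ^ L := by ring
  have hpp : (0 : ℤ) < 2 ^ L := by positivity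
  have hYn : ∀ j, j ≤ Y.length → hn (mulE (rt A) (vx oo up Y j)) < 2 * 2 ^ L := by
    intro j hj
    rw [hn_mulE (nrm_rt A)]
    have := hY.2 j hj
    push_cast at this
    exact this
  intro i j hi hj m hm he
  rw [List.length_append] at hi hj
  rcases le_or_gt i A.length with h1 | h1
  · rcases le_or_gt j A.length with h2 | h2
    · rw [vx_append (by omega), vx_append (by omega)] at he
      exact hA i j h1 h2 m hm he
    · obtain ⟨j', rfl⟩ := Nat.exists_eq_add_of_le h2.le
      rw [vx_append (by omega), vx_app] at he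
      have h3 := hT i h1 (-m) (neg_ne_zero.2 hm)
      have h4 : vx oo up A i + (2 * (k : ℤ) * (-m), 2 * (k : ℤ) * (-m)) - en A = mulE (rt A) (vx oo up Y j') := by
        rw [he]
        ext1
        · show (en A).1 + (mulE (rt A) (vx oo up Y j')).1 + 2 * (k : ℤ) * m + 2 * (k : ℤ) * (-m) - (en A).1 = _
          ring
        · show (en A).2 + (mulE (rt A) (vx oo up Y j')).2 + 2 * (k : ℤ) * m + 2 * (k : ℤ) * (-m) - (en A).2 = _
          ring
      rw [h4] at h3
      push_cast at h3
      have h5 := hYn j' (by omega)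
      linarith
  · obtain ⟨i', rfl⟩ := Nat.exists_eq_add_of_le h1.le
    rcases le_or_gt j A.length with h2 | h2
    · rw [vx_append (i := j) (by omega), vx_app] at he
      have h3 := hT j h2 m hm
      have h4 : vx oo up A j + (2 * (k : ℤ) * m, 2 * (k : ℤ) * m) - en A = mulE (rt A) (vx oo up Y i') := by
        rw [← he]
        abel
      rw [h4] at h3
      push_cast at h3
      have h5 := hYn i' (by omega)
      linarith
    · obtain ⟨j', rfl⟩ := Nat.exists_eq_add_of_le h2.le
      rw [vx_app, vx_app] at he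
      have h3 := hn_T k hm
      have h4 : ((2 * (k : ℤ) * m, 2 * (k : ℤ) * m) : Pt) = mulE (rt A) (vx oo up Y i') - mulE (rt A) (vx oo up Y j') := by
        have h5 : mulE (rt A) (vx oo up Y i') = mulE (rt A) (vx oo up Y j') + (2 * (k : ℤ) * m, 2 * (k : ℤ) * m) := by
          have h6 := he
          rw [add_assoc] at h6
          exact add_left_cancel h6
        rw [h5]
        abel
      rw [h4] at h3
      have h5 := hn_sub (mulE (rt A) (vx oo up Y i')) (mulE (rt A) (vx oo up Y j'))
      have h6 := hYn i' (by omega)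
      have h7 := hYn j' (by omega)
      linarith

open Classical in
/-- the far parts -/
noncomputable def AF (k R L : ℕ) (e : Pt) : Finset (List Bool) :=
  (Wb R).filter fun A => TPC.Dsj k A ∧ de A = e ∧ A ∈ Fe (4 * 2 ^ L)

lemma mem_AF {k R L : ℕ} {e : Pt} {A : List Bool} : A ∈ AF k R L e ↔
    (A ∈ SA ∧ ∀ i, i ≤ A.length → hn (vx oo up A i) < R) ∧ TPC.Dsj k A ∧ de A = e ∧ A ∈ Fe (4 * 2 ^ L) := by
  classical
  unfold AF
  rw [mem_filter, mem_Wb]

/-- the glued word -/
lemma Ty_glue {k R l L : ℕ} {e y : Pt} {Ch : Set (List Bool)} (hC : SLW.Chn L Ch) (hl : l ≤ L) (hk : 2 ^ (L + 3) ≤ k)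
    (hR : hn y + 2 ^ (L + 4) ≤ R) {A V E : List Bool} (hA : A ∈ AF k R L e) (hT : TrF k (2 ^ (L + 2)) A) (hV : V ∈ Ch)
    (hE : E ∈ Hc l) : A ++ (V ++ E) ∈ Ty k R e y ↔ en A + mulE (rotTo up e) (en V + en E) = y := by
  rw [mem_AF] at hA
  obtain ⟨⟨a1, a2⟩, a3, a4, a5⟩ := hA
  have hVE := VE_Hp hC hl hV hE.1
  have hVu := hC.bu hV
  have hrt : rt A = rotTo up e := by
    unfold rt
    rw [a4]
  have hen : en (A ++ (V ++ E)) = en A + mulE (rotTo up e) (en V + en E) := by
    rw [en_app, en_VE hVu, hrt]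
  have hp : (2 : ℤ) ^ (L + 4) = 16 * 2 ^ L := by ring
  have hpp : (0 : ℤ) < 2 ^ L := by positivity
  rw [mem_Ty]
  constructor
  · rintro ⟨_, _, h, _⟩
    rw [← h, hen]
  · intro h
    have h' : en (A ++ (V ++ E)) = y := by rw [hen, h]
    refine ⟨⟨SLW.glue3 hC a1 a5 hV ?_, fun i hi => ?_⟩, Dsj_glue hk a3 hT hVE, h', ?_⟩
    · exact ⟨hE.1.1, fun i hi => by
        have h1 := hE.1.2 i hi
        have h2 : (2 : ℤ) ^ l ≤ 2 ^ L := pow_le_pow_right₀ (by norm_num) hl
        push_cast at h1 ⊢
        linarith⟩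
    · rcases le_or_gt i A.length with h1 | h1
      · rw [vx_append (by omega)]
        exact a2 i h1
      · obtain ⟨i', rfl⟩ := Nat.exists_eq_add_of_le h1.le
        rw [List.length_append] at hi
        rw [vx_app]
        have h2 := hVE.2 i' (by omega)
        have h3 := hVE.2 (V ++ E).length le_rfl
        have h4 : en A + mulE (rt A) (vx oo up (V ++ E) i') =
            y + (mulE (rt A) (vx oo up (V ++ E) i') - mulE (rt A) (en (V ++ E))) := by
          rw [← h', en_app]
          abel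
        rw [h4]
        have h5 := hn_add y (mulE (rt A) (vx oo up (V ++ E) i') - mulE (rt A) (en (V ++ E)))
        have h6 := hn_sub (mulE (rt A) (vx oo up (V ++ E) i')) (mulE (rt A) (en (V ++ E)))
        rw [hn_mulE (nrm_rt A), hn_mulE (nrm_rt A)] at h6
        have h7 : hn (en (V ++ E)) < 2 * 2 ^ L := by
          unfold en
          push_cast at h3
          exact h3
        push_cast at h2
        linarith
    · rw [de_app, de_VE hVu hE.2, rt_up, a4]

/-- the pieces of a word of Ty -/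
lemma Ty_split {k R l L : ℕ} {e y : Pt} {Ch : Set (List Bool)} (hC : SLW.Chn L Ch) {t : List Bool} (ht : t ∈ Ty k R e y)
    {i j : ℕ} (hj : j ≤ t.length) : Dl l L Ch t i j ↔ i ≤ j ∧ t.take i ∈ AF k R L e ∧ (t.take j).drop i ∈ Ch ∧ t.drop j ∈ Hc l := by
  rw [mem_Ty] at ht
  obtain ⟨⟨a1, a2⟩, a3, a4, a5⟩ := ht
  unfold Dl
  constructor
  · rintro ⟨h1, h2, h3, h4⟩
    refine ⟨h1, ?_, h3, h4⟩
    have hle : (t.take i).length = i := by
      rw [List.length_take]
      omega
    have e1 := take_take_drop t h1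
    have e2 : ∀ s, s ≤ i → vx oo up (t.take i) s = vx oo up t s := by
      intro s hs
      conv_rhs => rw [← e1]
      rw [vx_append (by omega)]
    rw [mem_AF]
    refine ⟨⟨?_, ?_⟩, ?_, ?_, h2⟩
    · refine SLW.SA_take (Y := (t.take j).drop i ++ t.drop j) ?_
      rw [e1]
      exact a1
    · intro s hs
      rw [hle] at hs
      rw [e2 s hs]
      exact a2 s (by omega)
    · intro s s' hs hs' m hm
      rw [hle] at hs hs'
      rw [e2 s hs, e2 s' hs']
      exact a3 s s' (by omega) (by omega) m hm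
    · have h5 : de t = de (t.take i) := by
        conv_lhs => rw [← e1]
        rw [de_app, de_VE (hC.bu h3) h4.2, rt_up]
      rw [← h5, a5]
  · rintro ⟨h1, h2, h3, h4⟩
    rw [mem_AF] at h2
    exact ⟨h1, h2.2.2.2, h3, h4⟩

/-! ### 4. The chains as a finite set -/

open Classical in
/-- the chains as a finite set -/
noncomputable def ChF (L : ℕ) (Ch : Set (List Bool)) : Finset (List Bool) := (Wb (2 ^ L)).filter fun V => V ∈ Ch

lemma SA_BU {V : List Bool} (hV : V ∈ BU) : V ∈ SA := by
  obtain ⟨T, hT⟩ := hV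
  exact ⟨fun _ _ _ => Set.mem_univ _, (mem_Brd.1 hT).2.1⟩

lemma mem_ChF {L : ℕ} {Ch : Set (List Bool)} (hC : SLW.Chn L Ch) {V : List Bool} : V ∈ ChF L Ch ↔ V ∈ Ch := by
  classical
  unfold ChF
  rw [mem_filter, mem_Wb]
  refine ⟨fun h => h.2, fun h => ⟨⟨SA_BU (hC.bu h), fun i hi => ?_⟩, h⟩⟩
  have h1 := hC.size V h i hi
  have h2 := hn_nonneg (vx oo up V i)
  push_cast
  linarith

lemma gf_ChF {L : ℕ} {Ch : Set (List Bool)} (hC : SLW.Chn L Ch) (P : List Bool → Prop) [DecidablePred P] :
    (gf {V | V ∈ Ch ∧ P V}).toReal = ∑ V ∈ ChF L Ch, if P V then xc ^ V.length else 0 := by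
  have h : ({V | V ∈ Ch ∧ P V} : Set (List Bool)) = (((ChF L Ch).filter fun V => P V : Finset (List Bool)) : Set (List Bool)) := by
    ext V
    rw [Finset.mem_coe, mem_filter, mem_ChF hC]
    exact Iff.rfl
  rw [h, gf_finset, ENNReal.toReal_ofReal (sum_nonneg fun V _ => pow_nonneg xc_pos.le _), sum_filter]

lemma vD_eq {L : ℕ} {Ch : Set (List Bool)} (hC : SLW.Chn L Ch) (z : Pt) :
    vD Ch z = ∑ V ∈ ChF L Ch, if en V = z then xc ^ V.length else 0 := gf_ChF hC fun V => en V = z

lemma wD_eq {L : ℕ} {Ch : Set (List Bool)} (hC : SLW.Chn L Ch) : wD Ch = ∑ V ∈ ChF L Ch, xc ^ V.length := by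
  have h := gf_ChF hC fun _ => True
  have e : ({V | V ∈ Ch ∧ True} : Set (List Bool)) = Ch := by
    ext V
    exact ⟨fun h => h.1, fun h => ⟨h, trivial⟩⟩
  rw [e] at h
  unfold wD
  rw [h]
  exact sum_congr rfl fun V _ => if_pos trivial

lemma vD_nonneg (Ch : Set (List Bool)) (z : Pt) : 0 ≤ vD Ch z := ENNReal.toReal_nonneg

/-- the displacements of the chains are small -/
lemma vD_far {L : ℕ} {Ch : Set (List Bool)} (hC : SLW.Chn L Ch) {z : Pt} (hz : (2 : ℤ) ^ L ≤ hn z) : vD Ch z = 0 := by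
  rw [vD_eq hC]
  refine sum_eq_zero fun V hV => ?_
  rw [mem_ChF hC] at hV
  refine if_neg fun h => ?_
  have h1 := hC.size V hV V.length le_rfl
  have h2 : hn (vx oo up V V.length) = hn z := by rw [← h]; rfl
  rw [h2] at h1
  have h3 : (0 : ℤ) < 2 ^ L := by positivity
  linarith

/-! ### 5. The identity -/

/-- the vector from the tip of A to y in the frame of A -/
def zz (e y : Pt) (A : List Bool) : Pt := mulE (conjE (rotTo up e)) (y - en A)

lemma conj_mul {u : Pt} (hu : nrm u = 1) (p : Pt) : mulE (conjE u) (mulE u p) = p := by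
  rw [mulE_assoc, mulE_comm (conjE u) u, mulE_conjE, hu, mulE_one]

lemma mul_conj {u : Pt} (hu : nrm u = 1) (p : Pt) : mulE u (mulE (conjE u) p) = p := by
  rw [mulE_assoc, mulE_conjE, hu, mulE_one]

lemma hn_zz {e : Pt} (he : e ∈ dirs) (y : Pt) (A : List Bool) : hn (zz e y A) = hn (y - en A) := by
  have h : nrm (conjE (rotTo up e)) = 1 := by rw [nrm_conjE, nrm_rotTo upd' he]
  exact hn_mulE h _

lemma end_iff {e : Pt} (he : e ∈ dirs) {y : Pt} {A : List Bool} {v w : Pt} :
    en A + mulE (rotTo up e) (v + w) = y ↔ v = zz e y A - w := by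
  have hu := nrm_rotTo upd' he
  constructor
  · intro h
    have h1 : y - en A = mulE (rotTo up e) (v + w) := by rw [← h]; abel
    unfold zz
    rw [h1, conj_mul hu]
    abel
  · intro h
    rw [h]
    have h1 : zz e y A - w + w = zz e y A := by abel
    rw [h1]
    unfold zz
    rw [mul_conj hu]
    abel

/-- **the identity**: words with a given end, weight of the level -/
theorem convP {k R l L : ℕ} {e y : Pt} {Ch : Set (List Bool)} (he : e ∈ dirs) (hC : SLW.Chn L Ch) (hl : l ≤ L)
    (hk : 2 ^ (L + 3) ≤ k) (hR : hn y + 2 ^ (L + 4) ≤ R) {θ ψ : List Bool → ℝ} (hθ : ∀ A, θ A ≠ 0 → TrF k (2 ^ (L + 2)) A) :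
    ∑ t ∈ Ty k R e y, xc ^ t.length * NW l L Ch θ ψ t =
      ∑ A ∈ AF k R L e, xc ^ A.length * θ A * ∑ E ∈ HcF l, xc ^ E.length * (chi (2 ^ l) E * ψ E) * vD Ch (zz e y A - en E) := by
  classical
  obtain ⟨F, hF⟩ : ∃ F : List Bool → List Bool → List Bool → ℝ, F = fun A V E =>
    (xc ^ A.length * θ A) * (xc ^ V.length * (xc ^ E.length * (chi (2 ^ l) E * ψ E))) := ⟨_, rfl⟩
  have e1 : ∀ t ∈ Ty k R e y, xc ^ t.length * NW l L Ch θ ψ t =
      ∑ p ∈ ((range (t.length + 1)) ×ˢ (range (t.length + 1))).filter (fun p => p.1 ≤ p.2 ∧ t.take p.1 ∈ AF k R L e ∧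
      (t.take p.2).drop p.1 ∈ ChF L Ch ∧ t.drop p.2 ∈ HcF l), F (t.take p.1) ((t.take p.2).drop p.1) (t.drop p.2) := by
    intro t ht
    unfold NW
    rw [mul_sum]
    have e2 : ((range (t.length + 1)) ×ˢ (range (t.length + 1))).filter (fun p => Dl l L Ch t p.1 p.2) =
        ((range (t.length + 1)) ×ˢ (range (t.length + 1))).filter (fun p => p.1 ≤ p.2 ∧ t.take p.1 ∈ AF k R L e ∧
          (t.take p.2).drop p.1 ∈ ChF L Ch ∧ t.drop p.2 ∈ HcF l) := by
      refine filter_congr fun p hp => ?_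
      rw [mem_product, mem_range, mem_range] at hp
      rw [mem_ChF hC, mem_HcF]
      exact Ty_split hC ht (by omega)
    rw [e2]
    refine sum_congr rfl fun p hp => ?_
    rw [mem_filter] at hp
    have e3 : t.length = (t.take p.1).length + (((t.take p.2).drop p.1).length + (t.drop p.2).length) := by
      conv_lhs => rw [← take_take_drop t hp.2.1]
      rw [List.length_append, List.length_append]
    rw [hF]
    dsimp only
    rw [e3, pow_add, pow_add]
    ring
  rw [sum_congr rfl e1, dec_sum]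
  refine sum_congr rfl fun A hA => ?_
  by_cases h0 : θ A = 0
  · rw [h0, mul_zero, zero_mul]
    refine sum_eq_zero fun V _ => sum_eq_zero fun E _ => ?_
    rw [hF]
    dsimp only
    rw [h0]
    split_ifs <;> ring
  · rw [sum_comm, mul_sum]
    refine sum_congr rfl fun E hE => ?_
    rw [vD_eq hC, mul_sum, mul_sum]
    refine sum_congr rfl fun V hV => ?_
    rw [mem_HcF] at hE
    rw [mem_ChF hC] at hV
    have h1 := (Ty_glue hC hl hk hR hA (hθ A h0) hV hE).trans (end_iff he (y := y) (A := A) (v := en V) (w := en E))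
    by_cases h2 : en V = zz e y A - en E
    · rw [if_pos (h1.2 h2), if_pos h2, hF]
      ring
    · rw [if_neg fun h => h2 (h1.1 h), if_neg h2]
      ring

end PWN

end HexObs
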