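import Pool.Agent.PW.TransW
import Pool.Agent.PW.CurveP
import Pool.Agent.PW.TipNF

/-!
# PW, row BM-J (helper16): the tip of the walk with `n` steps and a far phase

* `tipFar` : the tip is far from the start;
* `FarH` : what is needed about the far phase `H`;
* **`core`** : the mean of `f * exp (i (v th + H))`, `f` a function of the curve, `th` = the winding around the start up to the first
  exit from the disc of radius `2 ^ (k' - C) / 2`, is the characteristic function `psiW C (k' - C) v` times a number that does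
  not depend on `v`, up to `e`.
-/

set_option autoImplicit false

noncomputable section

namespace NTSF

open Finset Filter Topology

open HexObs hiding pos

open HexObs.TIW HexObs.SDN HexObs.PWd HexObs.PWN HexObs.PWN.RM HexObs.TOG

open Pool.Agent.NTS.Res Pool.Agent.PW.Res

open NTF (sw JJ JJ_norm JJ_sub JJ_add)

open Cg

open scoped Classical

/-! ### 1. The tip is far -/

theorem En_ind (n : ℕ) (P : List Bool → Prop) : En n (fun t => if P t then 1 else 0) = Pn n {t | P t} := by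
  have h := card_Pn n P
  have h4 : (0 : ℝ) < cS n := by exact_mod_cast TOG.cS_pos n
  unfold En
  rw [← sum_filter, sum_const, nsmul_eq_mul, mul_one, h]
  field_simp

theorem tipFar : TipFar := by
  intro ε hε
  obtain ⟨ρ, hρ, m0, hret⟩ := pm_ret hε one_pos
  obtain ⟨C0, hrad⟩ := rad_small hρ
  obtain ⟨k0, hk0⟩ := big_of_sc m0
  refine ⟨C0, max k0 C0, fun k n hk hS => ?_⟩
  have hkC : C0 ≤ k := (le_max_right _ _).trans hk
  have hn := hk0 k n ((le_max_left _ _).trans hk) hS.1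
  rw [En_ind]
  refine (HexObs.TIP.Nf.Pn_mono (fun t ht hb => ?_)).trans (hret n hn)
  have hl : t.length = n := ht.1
  refine ⟨0, Nat.zero_le _, by simp, ?_⟩
  have e0 : vx oo up t 0 = 0 := rfl
  rw [e0, ← JJ_sub, zero_sub, NTF.JJ_neg, norm_neg]
  have h1 := hrad C0 k n le_rfl hkC hS
  have h2 : (2 : ℝ) ^ (k - C0) = 2 ^ k / 2 ^ C0 := by
    rw [eq_div_iff (by positivity), ← pow_add]
    congr 1
    omega
  have h3 : ‖JJ (en t)‖ < 2 ^ k / 2 ^ C0 := hb
  have e : en t = vx oo up t n := by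
    show vx oo up t t.length = _
    rw [hl]
  rw [e] at h3
  linarith

/-! ### 2. Sums -/

/-- **both ends**, with a function of the curve -/
theorem sum_gW {Q : ℕ → (ℕ → ℂ) → ℝ} (hQ : PF Q) (h0 : ∀ z : ℕ → ℂ, z 0 = 0 → Q 0 z = 0) (f : C(unitInterval, ℂ) → ℝ) (n m : ℕ) :
    ∑ t ∈ sawF m, gS f n t * qS Q t = ∑ t ∈ sawF m, gE f n t * qE Q t := by
  rcases Nat.eq_zero_or_pos m with rfl | hm
  · have e1 : ∀ t ∈ sawF 0, gS f n t * qS Q t = 0 := by
      intro t ht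
      rw [mem_sawF] at ht
      have : qS Q t = 0 := by
        unfold qS
        rw [ht.1]
        refine h0 _ ?_
        have := NTF.JJ_sub (0 : Pt) 0
        unfold pS
        have e : vx oo up t 0 = 0 := rfl
        rw [e]
        simpa using this
      rw [this, mul_zero]
    have e2 : ∀ t ∈ sawF 0, gE f n t * qE Q t = 0 := by
      intro t ht
      rw [mem_sawF] at ht
      have : qE Q t = 0 := by
        unfold qE
        rw [ht.1]
        refine h0 _ ?_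
        unfold pE
        rw [sub_self]
      rw [this, mul_zero]
    rw [sum_eq_zero e1, sum_eq_zero e2]
  · have h := sum_gE (n := n) hm (fun t => mem_sawF) f (fun z _ => ((Q m z : ℝ) : ℂ)) (fun z _ => by rw [hQ.rot])
      (fun z _ => by rw [hQ.neg]) (fun z z' _ _ h _ => by rw [hQ.loc m z z' h])
    have h1 : ∑ t ∈ sawF m, ((gS f n t : ℝ) : ℂ) * ((Q m (pS t) : ℝ) : ℂ) = ((∑ t ∈ sawF m, gS f n t * qS Q t : ℝ) : ℂ) := by
      push_cast
      refine sum_congr rfl fun t ht => ?_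
      rw [mem_sawF] at ht
      unfold qS
      rw [ht.1]
    have h2 : ∑ t ∈ sawF m, ((gE f n t : ℝ) : ℂ) * ((Q m (pE m t) : ℝ) : ℂ) = ((∑ t ∈ sawF m, gE f n t * qE Q t : ℝ) : ℂ) := by
      push_cast
      refine sum_congr rfl fun t ht => ?_
      rw [mem_sawF] at ht
      unfold qE
      rw [ht.1]
    have h3 := h1.symm.trans (h.trans h2)
    exact_mod_cast h3

/-! ### 3. The far phase -/

/-- what is needed about the far phase -/
structure FarH (n k' C0 R : ℕ) (τ : ℝ) (H : ℕ → (ℕ → ℂ) → ℝ) : Prop where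
  rot : ∀ m z, H m (fun i => om * z i) = H m z
  neg : ∀ m z, H m (fun i => -z i) = H m z
  loc : ∀ m z z', (∀ i, i ≤ m → z i = z' i) → H m z = H m z'
  rob : ∃ er : List Bool → ℝ, (∀ t, 0 ≤ er t) ∧
    (∀ m, n ≤ m → m ≤ 2 * n → ∑ t ∈ sawF m, er t ^ 2 ≤ τ ^ 2 * cS m) ∧
    ∀ g : ℝ → ℝ, (∀ x y, |g x - g y| ≤ |x - y|) → (∀ x, |g x| ≤ 1) → Rob (2 ^ (k' - C0)) (fun t => g (qE H t)) er
  srob : ∀ A Y : List Bool, A ++ Y ∈ SA → (∀ i, i ≤ Y.length → hn (vx oo up Y i) < 2 ^ R) →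
    4 * (2 : ℝ) ^ R ≤ ‖pS A A.length‖ → |qS H (A ++ Y) - qS H A| ≤ τ

theorem FarH.pf {n k' C0 R : ℕ} {τ : ℝ} {H : ℕ → (ℕ → ℂ) → ℝ} (h : FarH n k' C0 R τ H) (g : ℝ → ℝ) :
    PF (fun m z => g (H m z)) where
  rot := fun m z => by rw [h.rot]
  neg := fun m z => by rw [h.neg]
  loc := fun m z z' hz => by rw [h.loc m z z' hz]

/-- no far phase -/
theorem farH_zero {n k' C0 R : ℕ} {τ : ℝ} (hτ : 0 ≤ τ) : FarH n k' C0 R τ (fun _ _ => 0) where
  rot := fun _ _ => rfl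
  neg := fun _ _ => rfl
  loc := fun _ _ _ _ => rfl
  rob := ⟨fun _ => 0, fun _ => le_rfl, fun m _ _ => by
    simp only [ne_eq, OfNat.ofNat_ne_zero, not_false_eq_true, zero_pow, sum_const_zero]
    positivity, fun g _ _ A Y _ _ _ => by simp [qE]⟩
  srob := fun A Y _ _ _ => by simpa [qS] using hτ

theorem mul_dist {a b c d : ℝ} (hb : |b| ≤ 1) (hc : |c| ≤ 1) : |a * b - c * d| ≤ |a - c| + |b - d| := by
  have e : a * b - c * d = (a - c) * b + c * (b - d) := by ring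
  rw [e]
  refine (abs_add_le _ _).trans ?_
  rw [abs_mul, abs_mul]
  have h1 := mul_le_mul_of_nonneg_left hb (abs_nonneg (a - c))
  have h2 := mul_le_mul_of_nonneg_right hc (abs_nonneg (b - d))
  linarith

theorem abs_mul_le {a b : ℝ} (ha : |a| ≤ 1) (hb : |b| ≤ 1) : |a * b| ≤ 1 := by
  rw [abs_mul]
  calc |a| * |b| ≤ 1 * 1 := mul_le_mul ha hb (abs_nonneg _) zero_le_one
    _ = 1 := one_mul 1

/-- **the walk with `n` steps**, real form -/
theorem core1 (K : NNReal) {ε : ℝ} (hε : 0 < ε) : ∃ τ : ℝ, 0 < τ ∧ ∃ c c1 C1 : ℕ, ∀ C0 C : ℕ, C1 ≤ C0 → C0 + C1 ≤ C → ∃ k0 : ℕ,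
    ∀ k n k' n' : ℕ, k0 ≤ k' → k' ≤ k → TIP.Sc k n → TIP.Sc k' n' →
    En n (fun t => if ‖JJ (en t)‖ < 2 ^ k / 2 ^ c then 1 else 0) ≤ ε ∧
    ∀ f : C(unitInterval, ℂ) → ℝ, LipschitzWith K f → (∀ x, |f x| ≤ 1) →
    ∀ H : ℕ → (ℕ → ℂ) → ℝ, FarH n k' C0 (k - c1) τ H → ∀ g : ℝ → ℝ, (∀ x y, |g x - g y| ≤ |x - y|) → (∀ x, |g x| ≤ 1) →
    ∀ (r : ℝ) (Q : ℕ → (ℕ → ℂ) → ℝ), InnP r Q → 2 * r ≤ 2 ^ (k' - C) → (∀ m z, |Q m z| ≤ 1) →
    |En n (fun t => gS f n t * (rampP (2 ^ k / 2 ^ (c + 1)) t.length (pS t) * g (qS H t)) * qS Q t) -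
      EA (tent 0) n' (qE Q) * En n (fun t => gS f n t * (rampP (2 ^ k / 2 ^ (c + 1)) t.length (pS t) * g (qS H t)))| ≤ ε := by
  obtain ⟨τ0, hτ0, hN⟩ := tipN0 ε hε
  obtain ⟨τ, hτd⟩ : ∃ τ : ℝ, τ = τ0 / 3 := ⟨_, rfl⟩
  have hτ : 0 < τ := hτd ▸ by positivity
  have hτ3 : τ0 = 3 * τ := by rw [hτd]; ring
  obtain ⟨c, k1, hF⟩ := tipFar ε hε
  obtain ⟨cg, hcg⟩ := gS_rob K hτ
  obtain ⟨Cg0, kg, hCg⟩ := gE_rob K hτ
  obtain ⟨d, hd⟩ := pow_unbounded_of_one_lt (1 / τ) (one_lt_two : (1 : ℝ) < 2)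
  obtain ⟨c1, hc1⟩ : ∃ c1, c1 = max cg (c + 1 + (d + 4)) := ⟨_, rfl⟩
  obtain ⟨C1, hN⟩ := hN c1
  obtain ⟨kb, hkb⟩ := big_of_sc 1
  refine ⟨τ, hτ, c, c1, max C1 (max Cg0 c1), fun C0 C hC0 hC => ?_⟩
  obtain ⟨k2, hN⟩ := hN C0 C (by omega) (by omega)
  refine ⟨k1 + k2 + kg + kb + C + C0 + c1, fun k n k' n' hk' hkk hS hS' => ⟨hF k n (by omega) hS, ?_⟩⟩
  intro f hf hf1 H hH g hg hg1 r Q hQ hr hQ1
  have hn1 : 1 ≤ n := hkb k n (by omega) hS.1
  obtain ⟨ρ, hρ⟩ : ∃ ρ : ℝ, ρ = 2 ^ k / 2 ^ (c + 1) := ⟨_, rfl⟩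
  rw [← hρ]
  have hρ0 : 0 < ρ := hρ ▸ by positivity
  have hpow : ∀ a : ℕ, a ≤ k → (2 : ℝ) ^ (k - a) = 2 ^ k / 2 ^ a := fun a ha => by
    rw [eq_div_iff (by positivity), ← pow_add]
    congr 1
    omega
  have hτd1 : 1 ≤ τ * 2 ^ d := by
    rw [div_lt_iff₀ hτ] at hd
    linarith
  have hD0 : (2 : ℝ) ^ (k - c1) ≤ 2 ^ k / 2 ^ (c + 1) * (1 / (2 ^ d * 2 ^ 4)) := by
    have h1 : (2 : ℝ) ^ (k - c1) ≤ 2 ^ (k - (c + 1 + (d + 4))) := pow_le_pow_right₀ (by norm_num) (by omega)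
    refine h1.trans (le_of_eq ?_)
    rw [hpow _ (by omega), pow_add (2 : ℝ) (c + 1), pow_add (2 : ℝ) d]
    field_simp
  rw [← hρ] at hD0
  have hD1 : (2 : ℝ) ^ (k - c1) ≤ τ * ρ := by
    refine hD0.trans ?_
    rw [mul_comm τ]
    refine mul_le_mul_of_nonneg_left ?_ hρ0.le
    rw [div_le_iff₀ (by positivity)]
    nlinarith
  have hD2 : (2 : ℝ) ^ (k - c1) ≤ ρ / 16 := by
    refine hD0.trans ?_
    rw [div_eq_mul_one_div ρ 16]
    refine mul_le_mul_of_nonneg_left ?_ hρ0.le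
    have h4 : (1 : ℝ) ≤ 2 ^ d := one_le_pow₀ (by norm_num)
    rw [div_le_div_iff₀ (by positivity) (by norm_num)]
    nlinarith
  have hk'c : (2 : ℝ) ^ (k' - C) ≤ 2 ^ (k - c1) := pow_le_pow_right₀ (by norm_num) (by omega)
  have hr2 : r + 2 ^ (k - c1) ≤ ρ := by linarith
  -- the far functional
  obtain ⟨erG, hG0, -, hGrob, hGsum⟩ := hCg C0 k n (by omega) (by omega) (by omega) hS
  obtain ⟨erH, hH0, hHsum, hHrob⟩ := hH.rob
  have hGH := hH.pf g
  obtain ⟨P, hP⟩ : ∃ P : ℕ → (ℕ → ℂ) → ℝ, P = fun m z => rampP ρ m z * g (H m z) := ⟨_, rfl⟩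
  have hP1 : ∀ m z, |P m z| ≤ 1 := fun m z => by
    rw [hP]
    exact abs_mul_le (rampP_abs ρ m z) (hg1 _)
  have hPpf : PF P := hP ▸ (rampP_pf ρ).mul hGH
  have hP0 : ∀ m z, ‖z m‖ ≤ ρ → P m z = 0 := fun m z hz => by
    rw [hP]
    show ramp (‖z m‖ / ρ) * _ = 0
    rw [ramp_zero (by rw [div_le_one hρ0]; exact hz), zero_mul]
  have hPS : SRob (k - c1) (2 * τ) (qS P) := by
    intro A Y hA hY
    rw [hP]
    show |qS (rampP ρ) (A ++ Y) * g (qS H (A ++ Y)) - qS (rampP ρ) A * g (qS H A)| ≤ 2 * τ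
    have r1 := srob_ramp hρ0 hD1 A Y hA hY
    by_cases hfar : 4 * (2 : ℝ) ^ (k - c1) ≤ ‖pS A A.length‖
    · have h1 := mul_dist (a := qS (rampP ρ) (A ++ Y)) (c := qS (rampP ρ) A) (hg1 (qS H (A ++ Y))) (rampP_abs ρ A.length (pS A))
        (d := g (qS H A))
      have h2 := (hg (qS H (A ++ Y)) (qS H A)).trans (hH.srob A Y hA hY hfar)
      linarith
    · push Not at hfar
      have h2 : qS (rampP ρ) A = 0 := by
        show ramp (‖pS A A.length‖ / ρ) = 0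
        exact ramp_zero (by rw [div_le_one hρ0]; linarith)
      have h3 : qS (rampP ρ) (A ++ Y) = 0 := by
        show ramp (‖pS (A ++ Y) (A ++ Y).length‖ / ρ) = 0
        refine ramp_zero ?_
        rw [div_le_one hρ0]
        have h4 := pS_small hY (A := A) (j := Y.length) le_rfl
        rw [List.length_append]
        have h5 : pS (A ++ Y) (A.length + Y.length) =
            pS A A.length + (pS (A ++ Y) (A.length + Y.length) - pS A A.length) := by ring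
        rw [h5]
        refine (norm_add_le _ _).trans ?_
        linarith
      rw [h2, h3]
      simp only [zero_mul, sub_self, abs_zero]
      positivity
  have hgS := hcg c1 k n (by omega) (by omega) hn1 hS f hf
  have key := hN k n k' n' (by omega) hkk hS hS' (qE Q) (fun t => gE f n t * qE P t)
    (fun t => erG t + (τ + erH t))
    (fun t => gS f n t * qS P t * qS Q t) (fun t => gS f n t * qS P t) (fun t => hQ1 _ _)
    (fun t => abs_mul_le (gE_abs hf1 n t) (hP1 _ _))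
    (fun t => abs_mul_le (abs_mul_le (gS_abs hf1 n t) (hP1 _ _)) (hQ1 _ _))
    (fun t => abs_mul_le (gS_abs hf1 n t) (hP1 _ _)) (hQ.inn_qE hr)
    (by
      intro A Y hA hde hY
      show |gE f n (A ++ Y) * qE P (A ++ Y) - gE f n A * qE P A| ≤ erG (A ++ Y) + (τ + erH (A ++ Y))
      have h1 := hGrob f hf hf1 (2 ^ (k' - C0)) (Nat.pow_le_pow_right (by norm_num) (by omega)) A Y hA hde hY
      have h2 : |qE P (A ++ Y) - qE P A| ≤ τ + erH (A ++ Y) := by
        have h3 := hHrob g hg hg1 A Y hA hde hY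
        have h4 : |qE (rampP ρ) (A ++ Y) - qE (rampP ρ) A| ≤ τ := by
          rw [qE_ramp, qE_ramp]
          refine (ramp_end hρ0 (x := 2 ^ (k - c1)) ?_).trans ?_
          · have h3 := (hY _ le_rfl).le
            push_cast at h3
            have h4 : ((hn (vx oo up Y Y.length) : ℤ) : ℝ) ≤ 2 ^ (k' - C0) := by exact_mod_cast h3
            exact h4.trans (pow_le_pow_right₀ (by norm_num) (by omega))
          · rw [div_le_iff₀ hρ0]
            exact hD1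
        rw [hP]
        show |qE (rampP ρ) (A ++ Y) * g (qE H (A ++ Y)) - qE (rampP ρ) A * g (qE H A)| ≤ _
        exact (mul_dist (hg1 _) (rampP_abs ρ _ _)).trans (add_le_add h4 h3)
      exact (mul_dist (hP1 _ _) (gE_abs hf1 n A)).trans (add_le_add h1 h2))
    (fun t => by
      have := hG0 t
      have := hH0 t
      positivity)
    (fun m hm1 hm2 => by
      have h1 := hGsum m hm1 hm2
      have h2 := hHsum m hm1 hm2
      have h3 : ∀ t, (erG t + (τ + erH t)) ^ 2 ≤ 3 * erG t ^ 2 + 3 * τ ^ 2 + 3 * erH t ^ 2 := fun t => by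
        nlinarith [sq_nonneg (erG t - τ), sq_nonneg (erG t - erH t), sq_nonneg (τ - erH t)]
      calc ∑ t ∈ sawF m, (erG t + (τ + erH t)) ^ 2 ≤ ∑ t ∈ sawF m, (3 * erG t ^ 2 + 3 * τ ^ 2 + 3 * erH t ^ 2) :=
            sum_le_sum fun t _ => h3 t
        _ = 3 * ∑ t ∈ sawF m, erG t ^ 2 + 3 * τ ^ 2 * cS m + 3 * ∑ t ∈ sawF m, erH t ^ 2 := by
            rw [sum_add_distrib, sum_add_distrib, sum_const, nsmul_eq_mul, SLW.card_sawF, mul_sum, mul_sum]
            ring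
        _ ≤ τ0 ^ 2 * cS m := by
            rw [hτ3]
            nlinarith)
    (fun m => by
      have h1 := sum_gW (hPpf.mul hQ.pf) (fun z hz => by
        show P 0 z * Q 0 z = 0
        rw [hP0 0 z (by rw [hz, norm_zero]; exact hρ0.le), zero_mul]) f n m
      have e1 : ∀ t, gS f n t * qS P t * qS Q t = gS f n t * qS (fun m z => P m z * Q m z) t := fun t => mul_assoc _ _ _
      have e2 : ∀ t, gE f n t * qE P t * qE Q t = gE f n t * qE (fun m z => P m z * Q m z) t := fun t => mul_assoc _ _ _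
      simp only [e1, e2]
      exact h1)
    (fun m => sum_gW hPpf (fun z hz => hP0 0 z (by rw [hz, norm_zero]; exact hρ0.le)) f n m)
    (by
      intro A Y hA hY
      have h1 := srob_inn hQ hQ1 hP0 hr2 (by positivity) hPS A Y hA hY
      have h2 := hgS A Y hA hY
      have e : ∀ t, gS f n t * qS P t * qS Q t = gS f n t * qS (fun m z => P m z * Q m z) t := fun t => mul_assoc _ _ _
      simp only [e]
      have h3 := mul_dist (a := gS f n (A ++ Y)) (b := qS (fun m z => P m z * Q m z) (A ++ Y)) (c := gS f n A)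
        (d := qS (fun m z => P m z * Q m z) A) (abs_mul_le (hP1 _ _) (hQ1 _ _)) (gS_abs hf1 n A)
      linarith)
    (by
      intro A Y hA hY
      have h1 := hPS A Y hA hY
      have h2 := hgS A Y hA hY
      have h3 := mul_dist (a := gS f n (A ++ Y)) (b := qS P (A ++ Y)) (c := gS f n A)
        (d := qS P A) (hP1 _ _) (gS_abs hf1 n A)
      linarith)
  rw [hP] at key
  exact key

/-- the mean of a function of the curve times `exp (i a)` -/
def EXc (f : C(unitInterval, ℂ) → ℝ) (n : ℕ) (a : List Bool → ℝ) : ℂ :=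
  (∑ t ∈ sawF n, ((gS f n t : ℝ) : ℂ) * Complex.exp ((a t : ℂ) * Complex.I)) / (cS n : ℂ)

theorem cS_cast (n : ℕ) : (cS n : ℂ) = ((cS n : ℝ) : ℂ) := by push_cast; rfl

theorem EXc_sum (f : C(unitInterval, ℂ) → ℝ) (n : ℕ) (a : List Bool → ℝ) :
    EXc f n a = ∑ t ∈ sawF n, ((gS f n t / cS n : ℝ) : ℂ) * Complex.exp ((a t : ℂ) * Complex.I) := by
  unfold EXc
  rw [sum_div]
  refine sum_congr rfl fun t _ => ?_
  push_cast
  ring

/-- the norm of a sum -/
theorem norm_mean_le {n : ℕ} {G : List Bool → ℂ} {F : List Bool → ℝ} (h : ∀ t ∈ sawF n, ‖G t‖ ≤ F t) :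
    ‖∑ t ∈ sawF n, G t / (cS n : ℂ)‖ ≤ En n F := by
  have h4 : (0 : ℝ) < cS n := by exact_mod_cast TOG.cS_pos n
  refine (norm_sum_le _ _).trans ?_
  unfold En
  rw [sum_div]
  refine sum_le_sum fun t ht => ?_
  rw [norm_div, Complex.norm_natCast]
  exact div_le_div_of_nonneg_right (h t ht) h4.le

theorem EXc_le {f : C(unitInterval, ℂ) → ℝ} (hf : ∀ x, |f x| ≤ 1) (n : ℕ) (a : List Bool → ℝ) : ‖EXc f n a‖ ≤ 1 := by
  unfold EXc
  rw [sum_div]
  refine (norm_mean_le (F := fun _ => 1) fun t _ => ?_).trans (En_one n).le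
  rw [norm_mul, Complex.norm_exp_ofReal_mul_I, mul_one, Complex.norm_real]
  exact gS_abs hf n t

/-- **the tip of the walk with `n` steps and a far phase** -/
theorem core (K : NNReal) {e : ℝ} (he : 0 < e) : ∃ τ : ℝ, 0 < τ ∧ ∃ c1 C1 : ℕ, ∀ C0 C : ℕ, C1 ≤ C0 → C0 + C1 ≤ C → ∃ k0 : ℕ,
    ∀ k n k' : ℕ, k0 ≤ k' → k' ≤ k → TIP.Sc k n →
    ∀ f : C(unitInterval, ℂ) → ℝ, LipschitzWith K f → (∀ x, |f x| ≤ 1) →
    ∀ H : ℕ → (ℕ → ℂ) → ℝ, FarH n k' C0 (k - c1) τ H → ∃ X : ℂ, ∀ v : ℝ,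
    ‖EXc f n (fun t => v * qS (th (2 ^ (k' - C) / 2)) t + qS H t) - psiW C (k' - C) v * X‖ ≤ e := by
  obtain ⟨ε, hεd⟩ : ∃ ε : ℝ, ε = e / 5 := ⟨_, rfl⟩
  have hε : 0 < ε := hεd ▸ by positivity
  obtain ⟨τ, hτ, c, c1, C1, h1⟩ := core1 K hε
  obtain ⟨K0, hK0⟩ := nref_sc
  obtain ⟨kM, hM⟩ := MA_pos SLW.aReg (tent_bump 0) (tent_one 0)
  refine ⟨τ, hτ, c1, C1, fun C0 C hC0 hC => ?_⟩
  obtain ⟨k0, h1⟩ := h1 C0 C hC0 hC
  refine ⟨k0 + K0 + kM + C, fun k n k' hk' hkk hS f hf hf1 H hH => ?_⟩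
  have hS' := hK0 k' (by omega)
  have hMA := hM k' (nref k') (by omega) hS'.1
  obtain ⟨hfar, h1⟩ := h1 k n k' (nref k') (by omega) hkk hS hS'
  have h1 := h1 f hf hf1 H hH
  obtain ⟨ρ, hρ⟩ : ∃ ρ : ℝ, ρ = 2 ^ k / 2 ^ (c + 1) := ⟨_, rfl⟩
  rw [← hρ] at h1
  have hρ0 : 0 < ρ := hρ ▸ by positivity
  have hc0 : (0 : ℝ) < cS n := by exact_mod_cast TOG.cS_pos n
  have hcos := fun x y : ℝ => abs_le.2 ⟨by
    have := Real.abs_cos_sub_cos_le x y
    linarith [(abs_le.1 this).1], (abs_le.1 (Real.abs_cos_sub_cos_le x y)).2⟩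
  obtain ⟨G, hG⟩ : ∃ G : (ℝ → ℝ) → ℝ, G = fun g => En n (fun t => gS f n t * (rampP ρ t.length (pS t) * g (qS H t))) :=
    ⟨_, rfl⟩
  refine ⟨((G Real.cos : ℝ) : ℂ) + ((G Real.sin : ℝ) : ℂ) * Complex.I, fun v => ?_⟩
  obtain ⟨r, hr⟩ : ∃ r : ℝ, r = 2 ^ (k' - C) / 2 := ⟨_, rfl⟩
  rw [← hr]
  have hr2 : 2 * r ≤ 2 ^ (k' - C) := by rw [hr]; linarith
  obtain ⟨p, hp⟩ : ∃ p : List Bool → ℝ, p = fun t => gS f n t * rampP ρ t.length (pS t) / cS n := ⟨_, rfl⟩
  have hEn : ∀ (g g' : ℝ → ℝ), En n (fun t => gS f n t * (rampP ρ t.length (pS t) * g (qS H t)) *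
      qS (fun m z => g' (v * th r m z)) t) = ∑ t ∈ sawF n, p t * (g' (v * qS (th r) t) * g (qS H t)) := by
    intro g g'
    unfold En
    rw [sum_div]
    refine sum_congr rfl fun t _ => ?_
    rw [hp]
    show gS f n t * (rampP ρ t.length (pS t) * g (qS H t)) * g' (v * qS (th r) t) / cS n = _
    ring
  have hpsi : psiW C (k' - C) v = ((EA (tent 0) (nref k') (qE (cosP r v)) : ℝ) : ℂ) +
      ((EA (tent 0) (nref k') (qE (sinP r v)) : ℝ) : ℂ) * Complex.I := by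
    unfold psiW
    rw [Nat.sub_add_cancel (by omega : C ≤ k'), if_pos hMA, hr]
  have q1 := h1 Real.cos Real.abs_cos_sub_cos_le Real.abs_cos_le_one r (cosP r v) (cosP_inn r v) hr2
    (fun m z => Real.abs_cos_le_one _)
  have q2 := h1 Real.sin Real.abs_sin_sub_sin_le Real.abs_sin_le_one r (cosP r v) (cosP_inn r v) hr2
    (fun m z => Real.abs_cos_le_one _)
  have q3 := h1 Real.cos Real.abs_cos_sub_cos_le Real.abs_cos_le_one r (sinP r v) (sinP_inn r v) hr2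
    (fun m z => Real.abs_sin_le_one _)
  have q4 := h1 Real.sin Real.abs_sin_sub_sin_le Real.abs_sin_le_one r (sinP r v) (sinP_inn r v) hr2
    (fun m z => Real.abs_sin_le_one _)
  have e1 := hEn Real.cos Real.cos
  have e2 := hEn Real.sin Real.cos
  have e3 := hEn Real.cos Real.sin
  have e4 := hEn Real.sin Real.sin
  have k1 := PW.prod4 (S := sawF n) (p := p) (fun t => v * qS (th r) t) (fun t => qS H t)
    (xc := EA (tent 0) (nref k') (qE (cosP r v))) (xs := EA (tent 0) (nref k') (qE (sinP r v)))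
    (yc := G Real.cos) (ys := G Real.sin) (ε := ε)
    (by rw [← e1, hG]; exact q1) (by rw [← e2, hG]; exact q2) (by rw [← e3, hG]; exact q3) (by rw [← e4, hG]; exact q4)
  rw [← hpsi] at k1
  -- remove the cut-off
  have k2 : ‖EXc f n (fun t => v * qS (th r) t + qS H t) -
      ∑ t ∈ sawF n, (p t : ℂ) * Complex.exp (((v * qS (th r) t + qS H t : ℝ) : ℂ) * Complex.I)‖ ≤ ε := by
    rw [EXc_sum, ← sum_sub_distrib]
    have e5 : ∀ t, ((gS f n t / cS n : ℝ) : ℂ) * Complex.exp (((v * qS (th r) t + qS H t : ℝ) : ℂ) * Complex.I) -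
        (p t : ℂ) * Complex.exp (((v * qS (th r) t + qS H t : ℝ) : ℂ) * Complex.I) =
        (((gS f n t * (1 - rampP ρ t.length (pS t)) : ℝ) : ℂ) *
          Complex.exp (((v * qS (th r) t + qS H t : ℝ) : ℂ) * Complex.I)) / (cS n : ℂ) := by
      intro t
      rw [hp]
      push_cast
      ring
    simp only [e5]
    refine (norm_mean_le fun t _ => ?_).trans hfar
    rw [norm_mul, Complex.norm_exp_ofReal_mul_I, mul_one, Complex.norm_real, Real.norm_eq_abs, abs_mul]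
    have h2 : rampP ρ t.length (pS t) = ramp (‖JJ (en t)‖ / ρ) := rfl
    have h3 := ramp_le (‖JJ (en t)‖ / ρ)
    have h4 := ramp_nn (‖JJ (en t)‖ / ρ)
    rw [h2, abs_of_nonneg (by linarith : 0 ≤ 1 - ramp (‖JJ (en t)‖ / ρ))]
    have h5 := gS_abs hf1 n t
    split_ifs with h
    · calc |gS f n t| * (1 - ramp (‖JJ (en t)‖ / ρ)) ≤ 1 * 1 := mul_le_mul h5 (by linarith) (by linarith) zero_le_one
        _ = 1 := one_mul 1
    · rw [ramp_one, sub_self, mul_zero]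
      rw [le_div_iff₀ hρ0, hρ]
      push Not at h
      refine le_trans (le_of_eq ?_) h
      rw [pow_succ]
      field_simp
  have e6 : EXc f n (fun t => v * qS (th r) t + qS H t) - psiW C (k' - C) v * (((G Real.cos : ℝ) : ℂ) + ((G Real.sin : ℝ) : ℂ) * Complex.I) =
      (EXc f n (fun t => v * qS (th r) t + qS H t) -
      ∑ t ∈ sawF n, (p t : ℂ) * Complex.exp (((v * qS (th r) t + qS H t : ℝ) : ℂ) * Complex.I)) +
      (∑ t ∈ sawF n, (p t : ℂ) * Complex.exp (((v * qS (th r) t + qS H t : ℝ) : ℂ) * Complex.I) -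
        psiW C (k' - C) v * (((G Real.cos : ℝ) : ℂ) + ((G Real.sin : ℝ) : ℂ) * Complex.I)) := by ring
  rw [e6]
  refine (norm_add_le _ _).trans ((add_le_add k2 k1).trans (le_of_eq ?_))
  rw [hεd]
  ring

end NTSF

end
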