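import Pool.Agent.PW.Cover
import Pool.Agent.NTA.RunX
import Pool.Agent.SDN.NormT
import Pool.Agent.BAR.HCut

/-!
# PW: the neighbourhood of a walk has few points, the lengths in a window (helper44)

* **`coverW`**: the words with `m k ≤ |t| < m (k + j)` letters whose neighbourhood of radius `2 ^ (k - c0)` has more than
  `e 4 ^ k` points have at most the mass `e Ub k Xb k ^ 2`, for `c0` large.
-/

set_option autoImplicit false

namespace HexObs

namespace PW

open Finset TS SDN NTW TIW NTA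

open scoped ENNReal Classical

/-- the scale of a number of letters -/
lemma scale_of {m : ℕ → ℝ} {k n : ℕ} : ∀ j : ℕ, m k ≤ n → (n : ℝ) < m (k + j) →
    ∃ i, i < j ∧ m (k + i) ≤ n ∧ (n : ℝ) < m (k + i + 1) := by
  intro j
  induction j with
  | zero => intro h1 h2; rw [add_zero] at h2; linarith
  | succ j ih =>
    intro h1 h2
    by_cases h : (n : ℝ) < m (k + j)
    · obtain ⟨i, hi, h3⟩ := ih h1 h
      exact ⟨i, by omega, h3⟩
    · push Not at h
      exact ⟨j, by omega, h, h2⟩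

/-- **the neighbourhood has few points, the lengths in a window** -/
theorem coverW {m : ℕ → ℝ} (hH : HoldX m (2 / 3)) (hm : ∀ N : ℕ, ∃ k0 : ℕ, ∀ k, k0 ≤ k → (N : ℝ) ≤ m k)
    (hmono : Monotone m) (hMU : ∃ C : ℝ, 1 ≤ C ∧ ∀ k, m (k + 1) ≤ C * m k) (j : ℕ) :
    ∀ e : ℝ, 0 < e → ∃ c1 : ℕ, ∀ c0 : ℕ, c1 ≤ c0 → ∃ k1 : ℕ, ∀ k : ℕ, k1 ≤ k →
      gf {t | t ∈ SA ∧ m k ≤ t.length ∧ (t.length : ℝ) < m (k + j) ∧
        e * 4 ^ k < ((saus (2 ^ (k - c0)) t).ncard : ℝ)} ≤ ENNReal.ofReal (e * Ub k) * Xb k ^ 2 := by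
  intro e he
  obtain ⟨Cm, hCm, hMU⟩ := hMU
  obtain ⟨D, hD, hX⟩ := Xb_pow
  obtain ⟨e', he'⟩ : ∃ e' : ℝ, e' = e / (4 ^ j * (2 ^ j * (D ^ j) ^ 2 * (2 * Cm ^ j))) := ⟨_, rfl⟩
  have hCm0 : 0 < Cm := by linarith
  have hD0 : 0 < D := by linarith
  have he0 : 0 < e' := by
    rw [he']
    positivity
  obtain ⟨c1, hc1⟩ := coverX hH hm e' he0
  refine ⟨c1, fun c0 hc => ?_⟩
  obtain ⟨ka, hka⟩ : ∃ ka : ℕ, ∀ i, i < j → ∀ k n : ℕ, ka ≤ k → m k ≤ n → n < m (k + 1) →
      gf {t | t ∈ SawN n ∧ e' * 4 ^ k < ((saus (2 ^ (k - (c0 + i))) t).ncard : ℝ)} ≤ ENNReal.ofReal e' * nuX m k := by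
    choose f hf using hc1
    refine ⟨∑ i ∈ range j, f (c0 + i) (by omega), fun i hi k n hk => hf (c0 + i) (by omega) k n (le_trans ?_ hk)⟩
    exact Finset.single_le_sum (f := fun i => f (c0 + i) (by omega)) (fun _ _ => Nat.zero_le _) (mem_range.2 hi)
  obtain ⟨kb, hkb⟩ := hm 1
  refine ⟨ka + kb + c0, fun k hk => ?_⟩
  have hU := Ub_pos k
  have hmk : 1 ≤ m k := by
    have := hkb k (by omega)
    push_cast at this
    exact this
  obtain ⟨N, hN⟩ : ∃ N : ℕ, N = ⌊m (k + j)⌋₊ + 1 := ⟨_, rfl⟩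
  have hpow : ∀ i, m (k + i) ≤ Cm ^ i * m k := by
    intro i
    induction i with
    | zero => simp
    | succ i ih =>
      calc m (k + (i + 1)) ≤ Cm * m (k + i) := hMU (k + i)
        _ ≤ Cm * (Cm ^ i * m k) := mul_le_mul_of_nonneg_left ih hCm0.le
        _ = _ := by ring
  have hNm : (N : ℝ) ≤ 2 * Cm ^ j * m k := by
    have h1 : (⌊m (k + j)⌋₊ : ℝ) ≤ m (k + j) := Nat.floor_le (by linarith [hmono (show k ≤ k + j by omega)])
    have h2 : 1 ≤ Cm ^ j * m k := one_le_mul_of_one_le_of_one_le (one_le_pow₀ hCm) hmk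
    rw [hN]
    push_cast
    linarith [hpow j]
  have hone : ∀ n : ℕ, gf {t | t ∈ SawN n ∧ m k ≤ n ∧ (n : ℝ) < m (k + j) ∧
      e * 4 ^ k < ((saus (2 ^ (k - c0)) t).ncard : ℝ)} ≤
        ENNReal.ofReal (e' * (2 ^ j * (D ^ j) ^ 2) * (Ub k / m k)) * Xb k ^ 2 := by
    intro n
    by_cases hn : m k ≤ n ∧ (n : ℝ) < m (k + j)
    · obtain ⟨i, hi, h1, h2⟩ := scale_of j hn.1 hn.2
      have h3 := hka i hi (k + i) n (by omega) h1 h2
      refine (gf_mono ?_).trans (h3.trans ?_)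
      · rintro t ⟨ht, -, -, hb⟩
        refine ⟨ht, ?_⟩
        rw [show k + i - (c0 + i) = k - c0 by omega]
        refine lt_of_le_of_lt ?_ hb
        have e1 : (4 : ℝ) ^ (k + i) ≤ 4 ^ k * 4 ^ j := by
          rw [← pow_add]
          exact pow_le_pow_right₀ (by norm_num) (by omega)
        have e2 : e' * 4 ^ j ≤ e := by
          have h5 : (1 : ℝ) ≤ 2 ^ j * (D ^ j) ^ 2 * (2 * Cm ^ j) := by
            have a1 : (1 : ℝ) ≤ 2 ^ j := one_le_pow₀ (by norm_num)
            have a2 : (1 : ℝ) ≤ (D ^ j) ^ 2 := one_le_pow₀ (one_le_pow₀ hD)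
            have a3 : (1 : ℝ) ≤ 2 * Cm ^ j := by
              have : (1 : ℝ) ≤ Cm ^ j := one_le_pow₀ hCm
              linarith
            exact one_le_mul_of_one_le_of_one_le (one_le_mul_of_one_le_of_one_le a1 a2) a3
          rw [he', div_mul_eq_mul_div, div_le_iff₀ (by positivity)]
          calc e * 4 ^ j = e * (4 ^ j * 1) := by ring
            _ ≤ e * (4 ^ j * (2 ^ j * (D ^ j) ^ 2 * (2 * Cm ^ j))) := by gcongr
        calc e' * 4 ^ (k + i) ≤ e' * (4 ^ k * 4 ^ j) := by gcongr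
          _ = (e' * 4 ^ j) * 4 ^ k := by ring
          _ ≤ e * 4 ^ k := by gcongr
      · unfold nuX
        have hX1 : Xb (k + i) ≤ ENNReal.ofReal (D ^ j) * Xb k := by
          refine (hX k i).trans (mul_le_mul_left (ENNReal.ofReal_le_ofReal ?_) _)
          exact pow_le_pow_right₀ hD (by omega)
        have hU1 : Ub (k + i) ≤ 2 ^ j * Ub k := by
          have h1 := UU_ratio_up k i
          refine h1.trans (mul_le_mul_of_nonneg_right ?_ hU.le)
          exact pow_le_pow_right₀ (by norm_num) hi.le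
        have hm1 : m k ≤ m (k + i) := hmono (by omega)
        have e1 : Ub (k + i) / m (k + i) ≤ 2 ^ j * (Ub k / m k) := by
          rw [← mul_div_assoc]
          exact div_le_div₀ (by positivity) hU1 (by linarith) hm1
        calc ENNReal.ofReal e' * (ENNReal.ofReal (Ub (k + i) / m (k + i)) * Xb (k + i) ^ 2)
            ≤ ENNReal.ofReal e' * (ENNReal.ofReal (2 ^ j * (Ub k / m k)) * (ENNReal.ofReal (D ^ j) * Xb k) ^ 2) := by
              refine mul_le_mul_right ?_ _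
              exact mul_le_mul' (ENNReal.ofReal_le_ofReal e1) (pow_le_pow_left' hX1 2)
          _ = _ := by
              rw [mul_pow, ← ENNReal.ofReal_pow (by positivity), ← mul_assoc, ← mul_assoc,
                ← ENNReal.ofReal_mul (by positivity), ← ENNReal.ofReal_mul (by
                  have := hmk
                  positivity)]
              congr 2
              ring
    · refine le_trans (le_of_eq ?_) zero_le
      have : {t | t ∈ SawN n ∧ m k ≤ n ∧ (n : ℝ) < m (k + j) ∧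
          e * 4 ^ k < ((saus (2 ^ (k - c0)) t).ncard : ℝ)} = ∅ := by
        ext t
        simp only [Set.mem_ofPred_eq, Set.mem_empty_iff_false, iff_false]
        rintro ⟨-, h1, h2, -⟩
        exact hn ⟨h1, h2⟩
      rw [this]
      unfold gf
      simp
  have hsub : {t | t ∈ SA ∧ m k ≤ t.length ∧ (t.length : ℝ) < m (k + j) ∧
      e * 4 ^ k < ((saus (2 ^ (k - c0)) t).ncard : ℝ)} ⊆ ⋃ n ∈ range N, {t | t ∈ SawN n ∧ m k ≤ n ∧ (n : ℝ) < m (k + j) ∧
      e * 4 ^ k < ((saus (2 ^ (k - c0)) t).ncard : ℝ)} := by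
    rintro t ⟨ht, h1, h2, h3⟩
    refine Set.mem_iUnion₂.2 ⟨t.length, mem_range.2 ?_, ⟨rfl, ht⟩, h1, h2, h3⟩
    rw [hN]
    have := Nat.lt_floor_add_one (m (k + j))
    have h4 : (t.length : ℝ) < ((⌊m (k + j)⌋₊ + 1 : ℕ) : ℝ) := by
      push_cast
      linarith
    exact_mod_cast h4
  refine (gf_mono hsub).trans ((BAR.gf_bi_le _ _).trans ((Finset.sum_le_sum fun n _ => hone n).trans ?_))
  rw [Finset.sum_const, Finset.card_range, nsmul_eq_mul, ← mul_assoc]
  refine mul_le_mul_left ?_ _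
  rw [← ENNReal.ofReal_natCast, ← ENNReal.ofReal_mul (by positivity)]
  refine ENNReal.ofReal_le_ofReal ?_
  have hm0 : 0 < m k := by linarith
  calc (N : ℝ) * (e' * (2 ^ j * (D ^ j) ^ 2) * (Ub k / m k))
      ≤ (2 * Cm ^ j * m k) * (e' * (2 ^ j * (D ^ j) ^ 2) * (Ub k / m k)) := by gcongr
    _ = e' * (2 ^ j * (D ^ j) ^ 2 * (2 * Cm ^ j)) * Ub k := by
        field_simp
    _ ≤ e * Ub k := by
        refine mul_le_mul_of_nonneg_right ?_ hU.le
        have h4 : (1 : ℝ) ≤ 4 ^ j := one_le_pow₀ (by norm_num)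
        rw [he', div_mul_eq_mul_div, div_le_iff₀ (by positivity)]
        have h5 : (0 : ℝ) ≤ 2 ^ j * (D ^ j) ^ 2 * (2 * Cm ^ j) := by positivity
        calc e * (2 ^ j * (D ^ j) ^ 2 * (2 * Cm ^ j)) = e * (1 * (2 ^ j * (D ^ j) ^ 2 * (2 * Cm ^ j))) := by ring
          _ ≤ e * (4 ^ j * (2 ^ j * (D ^ j) ^ 2 * (2 * Cm ^ j))) := by gcongr

end PW

end HexObs
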