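import Pool.Agent.SIM.CutV
import Pool.Agent.TPF.UpPt

/-!
# PW, row D2: three nested bridges, with a weight of the last part and with marked cuts (helper29)

The versions of `SIM.cut3_sum` and `SIM.cut3_disp` with a weight `F` of the words that is bounded by a weight `f` of the
last part, where only the cuts with `X0 ++ A ∈ LL` and `B ++ X1 ∈ RR` are used: their pieces have together at least `n` levels.

* `cut3F_disp` : the displacement of the middle bridge lies in one of `M` points;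
* `cut3F_end` : words with a given end.
-/

set_option autoImplicit false

namespace HexObs

namespace PW

open Finset TS SIM SIM.CS TPF

open scoped ENNReal

/-- the levels of the pieces `P` of the bridge `H` such that what is before `P` is in `LL` -/
noncomputable def lvL (LL : Set (List Bool)) (X0 H : List Bool) : ℝ≥0∞ := by
  classical
  exact ∑' A : List Bool, ∑' P : List Bool,
    (if (A ∈ BU ∧ P ∈ IU ∧ ∃ B ∈ BU, H = A ++ (P ++ B)) ∧ X0 ++ A ∈ LL then (hgt P : ℝ≥0∞) else 0)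

/-- the levels of the pieces `P` of the bridge `H` such that what is behind `P` is in `RR` -/
noncomputable def lvR (RR : Set (List Bool)) (H X1 : List Bool) : ℝ≥0∞ := by
  classical
  exact ∑' P : List Bool, ∑' B : List Bool,
    (if (P ∈ IU ∧ B ∈ BU ∧ ∃ A ∈ BU, H = A ++ (P ++ B)) ∧ B ++ X1 ∈ RR then (hgt P : ℝ≥0∞) else 0)

/-- `t` contains three nested bridges `H1`, `H2`, `H3` of heights at most `N`; at least `n` levels of `H1` are in pieces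
with what is before in `LL`, at least `n` levels of `H3` in pieces with what is behind in `RR` -/
def Cut3F (LL RR : Set (List Bool)) (n N : ℕ) (t : List Bool) : Prop :=
  ∃ (X0 H1 H2 H3 X1 : List Bool) (h1 h2 h3 : ℕ), t = X0 ++ (H1 ++ (H2 ++ (H3 ++ X1))) ∧
    H1 ∈ Brd h1 ∧ H2 ∈ Brd h2 ∧ H3 ∈ Brd h3 ∧ n ≤ h2 ∧ h1 ≤ N ∧ h2 ≤ N ∧ h3 ≤ N ∧
    (n : ℝ≥0∞) ≤ lvL LL X0 H1 ∧ (n : ℝ≥0∞) ≤ lvR RR H3 X1

/-- all cuts are marked: the old form -/
lemma lvL_all {LL : Set (List Bool)} {X0 H : List Bool} {h : ℕ} (hH : H ∈ Brd h)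
    (hL : ∀ A B, A ∈ BU → B ∈ BU → H = A ++ B → X0 ++ A ∈ LL) : (h : ℝ≥0∞) ≤ lvL LL X0 H := by
  classical
  refine (hsumL hH).trans ?_
  unfold lvL
  refine ENNReal.tsum_le_tsum fun A => ENNReal.tsum_le_tsum fun P => ?_
  by_cases hc : A ∈ BU ∧ P ∈ IU ∧ ∃ B ∈ BU, H = A ++ (P ++ B)
  · obtain ⟨hA, hP, B, hB, he⟩ := hc
    rw [if_pos ⟨hA, hP, B, hB, he⟩, if_pos ⟨⟨hA, hP, B, hB, he⟩, hL A (P ++ B) hA (app (IUB hP) hB) he⟩]
  · rw [if_neg hc]
    exact zero_le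

lemma lvR_all {RR : Set (List Bool)} {X1 H : List Bool} {h : ℕ} (hH : H ∈ Brd h)
    (hR : ∀ A B, A ∈ BU → B ∈ BU → H = A ++ B → B ++ X1 ∈ RR) : (h : ℝ≥0∞) ≤ lvR RR H X1 := by
  classical
  refine (hsumR hH).trans ?_
  unfold lvR
  refine ENNReal.tsum_le_tsum fun P => ENNReal.tsum_le_tsum fun B => ?_
  by_cases hc : P ∈ IU ∧ B ∈ BU ∧ ∃ A ∈ BU, H = A ++ (P ++ B)
  · obtain ⟨hP, hB, A, hA, he⟩ := hc
    rw [if_pos ⟨hP, hB, A, hA, he⟩, if_pos ⟨⟨hP, hB, A, hA, he⟩, hR (A ++ P) B (app hA (IUB hP)) hB (by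
      rw [he, List.append_assoc])⟩]
  · rw [if_neg hc]
    exact zero_le

/-- the conditions on the five parts -/
def Q5F (LL RR : Set (List Bool)) (n N : ℕ) (L P P2 R Z : List Bool) : Prop :=
  (L ∈ LL ∧ R ∈ RR) ∧ (P ∈ IU ∧ hgt P ≤ N) ∧ (P2 ∈ IU ∧ hgt P2 ≤ N) ∧ (Z ∈ BU ∧ n ≤ hgt Z ∧ hgt Z ≤ 3 * N)

open Classical in
/-- one word -/
lemma pointF {LL RR : Set (List Bool)} {n N : ℕ} {t : List Bool} (h : Cut3F LL RR n N t) :
    (n : ℝ≥0∞) ^ 2 ≤ ∑' L : List Bool, ∑' P : List Bool, ∑' P2 : List Bool, ∑' R : List Bool, ∑' Z : List Bool,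
      (if Q5F LL RR n N L P P2 R Z ∧ L ++ (P ++ (Z ++ (P2 ++ R))) = t then (hgt P : ℝ≥0∞) * (hgt P2 : ℝ≥0∞) else 0) := by
  obtain ⟨X0, H1, H2, H3, X1, h1, h2, h3, he, hH1, hH2, hH3, n2, N1, N2, N3, hl, hr⟩ := h
  obtain ⟨G, hG⟩ : ∃ G : List Bool → List Bool → List Bool → List Bool → ℝ≥0∞, G = fun L P P2 R =>
      ∑' Z : List Bool, (if Q5F LL RR n N L P P2 R Z ∧ L ++ (P ++ (Z ++ (P2 ++ R))) = t then
        (hgt P : ℝ≥0∞) * (hgt P2 : ℝ≥0∞) else 0) := ⟨_, rfl⟩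
  obtain ⟨f, hf⟩ : ∃ f : List Bool → List Bool → ℝ≥0∞, f = fun A P =>
      (if (A ∈ BU ∧ P ∈ IU ∧ ∃ B ∈ BU, H1 = A ++ (P ++ B)) ∧ X0 ++ A ∈ LL then (hgt P : ℝ≥0∞) else 0) := ⟨_, rfl⟩
  obtain ⟨g, hg⟩ : ∃ g : List Bool → List Bool → ℝ≥0∞, g = fun P B =>
      (if (P ∈ IU ∧ B ∈ BU ∧ ∃ A ∈ BU, H3 = A ++ (P ++ B)) ∧ B ++ X1 ∈ RR then (hgt P : ℝ≥0∞) else 0) := ⟨_, rfl⟩
  have key : ∀ A P P2 B, f A P * g P2 B ≤ G (X0 ++ A) P P2 (B ++ X1) := by
    intro A P P2 B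
    rw [hf, hg]
    simp only
    split_ifs with c1 c2
    · obtain ⟨⟨hA, hP, B1, hB1, e1⟩, hLL⟩ := c1
      obtain ⟨⟨hP2, hB, A1, hA1, e2⟩, hRR⟩ := c2
      have b1 := hgt_eq hH1
      rw [e1, happ hA (app (IUB hP) hB1), happ (IUB hP) hB1] at b1
      have b3 := hgt_eq hH3
      rw [e2, happ hA1 (app (IUB hP2) hB), happ (IUB hP2) hB] at b3
      have hH2B : H2 ∈ BU := ⟨h2, hH2⟩
      have hZ : B1 ++ (H2 ++ A1) ∈ BU := app hB1 (app hH2B hA1)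
      have hZh : hgt (B1 ++ (H2 ++ A1)) = hgt B1 + (h2 + hgt A1) := by
        rw [happ hB1 (app hH2B hA1), happ hH2B hA1, hgt_eq hH2]
      rw [hG]
      refine le_trans ?_ (ENNReal.le_tsum (B1 ++ (H2 ++ A1)))
      rw [if_pos]
      refine ⟨⟨⟨hLL, hRR⟩, ⟨hP, by omega⟩, ⟨hP2, by omega⟩, ⟨hZ, by omega, by omega⟩⟩, ?_⟩
      rw [he, e1, e2]
      simp only [List.append_assoc]
    · rw [mul_zero]
      exact zero_le
    · rw [zero_mul]
      exact zero_le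
    · rw [zero_mul]
      exact zero_le
  calc (n : ℝ≥0∞) ^ 2 ≤ (∑' A : List Bool, ∑' P : List Bool, f A P) * ∑' P2 : List Bool, ∑' B : List Bool, g P2 B := by
        rw [pow_two, hf, hg]
        unfold lvL at hl
        unfold lvR at hr
        exact mul_le_mul' hl hr
    _ = ∑' A : List Bool, ∑' P : List Bool, ∑' P2 : List Bool, ∑' B : List Bool, f A P * g P2 B := by
        rw [← ENNReal.tsum_mul_right]
        refine tsum_congr fun A => ?_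
        rw [← ENNReal.tsum_mul_right]
        refine tsum_congr fun P => ?_
        rw [← ENNReal.tsum_mul_left]
        refine tsum_congr fun P2 => ?_
        rw [← ENNReal.tsum_mul_left]
    _ ≤ ∑' A : List Bool, ∑' P : List Bool, ∑' P2 : List Bool, ∑' B : List Bool, G (X0 ++ A) P P2 (B ++ X1) :=
        ENNReal.tsum_le_tsum fun A => ENNReal.tsum_le_tsum fun P => ENNReal.tsum_le_tsum fun P2 =>
          ENNReal.tsum_le_tsum fun B => key A P P2 B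
    _ ≤ ∑' A : List Bool, ∑' P : List Bool, ∑' P2 : List Bool, ∑' R : List Bool, G (X0 ++ A) P P2 R :=
        ENNReal.tsum_le_tsum fun A => ENNReal.tsum_le_tsum fun P => ENNReal.tsum_le_tsum fun P2 =>
          ENNReal.tsum_comp_le_tsum_of_injective (fun a b hab => List.append_cancel_right hab)
            (fun R => G (X0 ++ A) P P2 R)
    _ ≤ ∑' L : List Bool, ∑' P : List Bool, ∑' P2 : List Bool, ∑' R : List Bool, G L P P2 R :=
        ENNReal.tsum_comp_le_tsum_of_injective (fun a b hab => List.append_cancel_left hab)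
          (fun L => ∑' P : List Bool, ∑' P2 : List Bool, ∑' R : List Bool, G L P P2 R)
    _ = _ := by rw [hG]

open Classical in
/-- **the sum over the five parts** -/
theorem cut3F_master {LL RR E : Set (List Bool)} {n N : ℕ} (F : List Bool → ℝ≥0∞) (hE : ∀ t ∈ E, Cut3F LL RR n N t) :
    (n : ℝ≥0∞) ^ 2 * ∑' t : E, wE t.1 * F t.1 ≤
      ∑' L : List Bool, ∑' P : List Bool, ∑' P2 : List Bool, ∑' R : List Bool, ∑' Z : List Bool,
      (if Q5F LL RR n N L P P2 R Z ∧ L ++ (P ++ (Z ++ (P2 ++ R))) ∈ E then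
        wE L * wE P * wE P2 * wE R * wE Z * ((hgt P : ℝ≥0∞) * (hgt P2 : ℝ≥0∞)) *
          F (L ++ (P ++ (Z ++ (P2 ++ R)))) else 0) := by
  have h1 : (n : ℝ≥0∞) ^ 2 * ∑' t : E, wE t.1 * F t.1 = ∑' t : E, wE t.1 * F t.1 * (n : ℝ≥0∞) ^ 2 := by
    rw [ENNReal.tsum_mul_right, mul_comm]
  rw [h1]
  refine (ENNReal.tsum_le_tsum fun t => mul_le_mul' le_rfl (pointF (hE t.1 t.2))).trans ?_
  simp only [← ENNReal.tsum_mul_left]
  rw [ENNReal.tsum_comm]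
  refine ENNReal.tsum_le_tsum fun L => ?_
  rw [ENNReal.tsum_comm]
  refine ENNReal.tsum_le_tsum fun P => ?_
  rw [ENNReal.tsum_comm]
  refine ENNReal.tsum_le_tsum fun P2 => ?_
  rw [ENNReal.tsum_comm]
  refine ENNReal.tsum_le_tsum fun R => ?_
  rw [ENNReal.tsum_comm]
  refine ENNReal.tsum_le_tsum fun Z => ?_
  by_cases hc : Q5F LL RR n N L P P2 R Z ∧ L ++ (P ++ (Z ++ (P2 ++ R))) ∈ E
  · rw [if_pos hc, tsum_eq_single (⟨_, hc.2⟩ : E)]
    · rw [if_pos ⟨hc.1, rfl⟩]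
      simp only [wE_append]
      refine le_of_eq ?_
      ring
    · intro t ht
      rw [if_neg, mul_zero]
      rintro ⟨-, h3⟩
      exact ht (Subtype.ext h3.symm)
  · rw [if_neg hc]
    refine le_of_eq (ENNReal.tsum_eq_zero.2 fun t => ?_)
    rw [if_neg, mul_zero]
    rintro ⟨h2, h3⟩
    exact hc ⟨h2, by rw [h3]; exact t.2⟩

/-- **the sum over the bridge Z between two rigid parts, with weights** -/
theorem cut3F_sum : ∃ C : ℝ, 1 ≤ C ∧ ∀ (LL RR E : Set (List Bool)) (n b : ℕ) (x : ℝ≥0∞) (F f : List Bool → ℝ≥0∞), 1 ≤ n →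
    (∀ t ∈ E, Cut3F LL RR n (2 ^ b) t) → (∀ A R : List Bool, A ++ R ∈ E → R ∈ RR → F (A ++ R) ≤ f R) →
    (∀ A B : List Bool, gf {Z | (Z ∈ BU ∧ n ≤ hgt Z ∧ hgt Z ≤ 3 * 2 ^ b) ∧ A ++ (Z ++ B) ∈ E} ≤ x) →
    ∑' t : E, wE t.1 * F t.1 ≤ ENNReal.ofReal (C * (2 ^ b / (n * Ub b)) ^ 2) *
      (gf LL * (∑' R : RR, wE R.1 * f R.1) * x) := by
  classical
  obtain ⟨K, hK, hP⟩ := piece_mass
  refine ⟨K ^ 2, one_le_pow₀ hK, fun LL RR E n b x F f hn hE hF hx => ?_⟩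
  have hU := Ub_pos b
  have hn0 : (0 : ℝ) < n := by exact_mod_cast hn
  obtain ⟨p, hp⟩ : ∃ p : List Bool → ℝ≥0∞, p = fun P => if P ∈ IU ∧ hgt P ≤ 2 ^ b then wE P * (hgt P : ℝ≥0∞) else 0 :=
    ⟨_, rfl⟩
  obtain ⟨l, hl⟩ : ∃ l : List Bool → ℝ≥0∞, l = fun L => if L ∈ LL then wE L else 0 := ⟨_, rfl⟩
  obtain ⟨r, hr⟩ : ∃ r : List Bool → ℝ≥0∞, r = fun R => if R ∈ RR then wE R * f R else 0 := ⟨_, rfl⟩
  have hsl : ∑' L, l L = gf LL := by
    unfold gf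
    rw [hl, _root_.tsum_subtype LL (fun t => wE t)]
    exact tsum_congr fun t => by rw [Set.indicator_apply]
  have hsr : ∑' L, r L = ∑' R : RR, wE R.1 * f R.1 := by
    rw [hr, _root_.tsum_subtype RR (fun t => wE t * f t)]
    exact tsum_congr fun t => by rw [Set.indicator_apply]
  have h1 : (n : ℝ≥0∞) ^ 2 * ∑' t : E, wE t.1 * F t.1 ≤ ∑' L : List Bool, ∑' P : List Bool, ∑' P2 : List Bool,
      ∑' R : List Bool, l L * (p P * (p P2 * (r R * x))) := by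
    refine (cut3F_master F hE).trans ?_
    refine ENNReal.tsum_le_tsum fun L => ENNReal.tsum_le_tsum fun P => ENNReal.tsum_le_tsum fun P2 =>
      ENNReal.tsum_le_tsum fun R => ?_
    by_cases hc : (L ∈ LL ∧ R ∈ RR) ∧ (P ∈ IU ∧ hgt P ≤ 2 ^ b) ∧ (P2 ∈ IU ∧ hgt P2 ≤ 2 ^ b)
    · have e1 : l L = wE L := by rw [hl]; exact if_pos hc.1.1
      have e2 : r R = wE R * f R := by rw [hr]; exact if_pos hc.1.2
      have e3 : p P = wE P * (hgt P : ℝ≥0∞) := by rw [hp]; exact if_pos hc.2.1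
      have e4 : p P2 = wE P2 * (hgt P2 : ℝ≥0∞) := by rw [hp]; exact if_pos hc.2.2
      have h2 := hx (L ++ P) (P2 ++ R)
      have h3 : gf {Z | (Z ∈ BU ∧ n ≤ hgt Z ∧ hgt Z ≤ 3 * 2 ^ b) ∧ (L ++ P) ++ (Z ++ (P2 ++ R)) ∈ E} =
          ∑' Z : List Bool, (if (Z ∈ BU ∧ n ≤ hgt Z ∧ hgt Z ≤ 3 * 2 ^ b) ∧ (L ++ P) ++ (Z ++ (P2 ++ R)) ∈ E
            then wE Z else 0) := by
        unfold gf
        rw [_root_.tsum_subtype _ (fun t => wE t)]
        exact tsum_congr fun t => by rw [Set.indicator_apply]; rfl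
      rw [h3] at h2
      rw [e1, e2, e3, e4]
      calc (∑' Z : List Bool, (if Q5F LL RR n (2 ^ b) L P P2 R Z ∧ L ++ (P ++ (Z ++ (P2 ++ R))) ∈ E then
            wE L * wE P * wE P2 * wE R * wE Z * ((hgt P : ℝ≥0∞) * (hgt P2 : ℝ≥0∞)) *
              F (L ++ (P ++ (Z ++ (P2 ++ R)))) else 0))
          ≤ ∑' Z : List Bool, wE L * (wE P * (hgt P : ℝ≥0∞)) * (wE P2 * (hgt P2 : ℝ≥0∞)) * (wE R * f R) *
            (if (Z ∈ BU ∧ n ≤ hgt Z ∧ hgt Z ≤ 3 * 2 ^ b) ∧ (L ++ P) ++ (Z ++ (P2 ++ R)) ∈ E then wE Z else 0) := by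
            refine ENNReal.tsum_le_tsum fun Z => ?_
            by_cases hd : Q5F LL RR n (2 ^ b) L P P2 R Z ∧ L ++ (P ++ (Z ++ (P2 ++ R))) ∈ E
            · have hFf : F (L ++ (P ++ (Z ++ (P2 ++ R)))) ≤ f R := by
                have h4 := hF (L ++ (P ++ (Z ++ P2))) R (by
                  simp only [List.append_assoc]
                  exact hd.2) hd.1.1.2
                simpa only [List.append_assoc] using h4
              rw [if_pos hd, List.append_assoc, if_pos ⟨hd.1.2.2.2, hd.2⟩]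
              refine (mul_le_mul' le_rfl hFf).trans (le_of_eq ?_)
              ring
            · rw [if_neg hd]
              exact zero_le
        _ ≤ wE L * (wE P * (hgt P : ℝ≥0∞)) * (wE P2 * (hgt P2 : ℝ≥0∞)) * (wE R * f R) * x := by
            rw [ENNReal.tsum_mul_left]
            exact mul_le_mul' le_rfl h2
        _ = _ := by ring
    · refine le_trans (le_of_eq (ENNReal.tsum_eq_zero.2 fun Z => if_neg ?_)) zero_le
      rintro ⟨h2, -⟩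
      exact hc ⟨h2.1, h2.2.1, h2.2.2.1⟩
  have h2 : ∑' L : List Bool, ∑' P : List Bool, ∑' P2 : List Bool, ∑' R : List Bool,
      l L * (p P * (p P2 * (r R * x))) = gf LL * ((∑' P, p P) * ((∑' P, p P) * ((∑' R : RR, wE R.1 * f R.1) * x))) := by
    simp only [ENNReal.tsum_mul_left, ENNReal.tsum_mul_right, hsl, hsr]
  have h3 : ∑' P, p P ≤ ENNReal.ofReal (K * 2 ^ b / Ub b) := by
    rw [hp]
    exact hP b
  have hn1 : ((n : ℝ≥0∞) ^ 2) ≠ 0 := by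
    have : (n : ℝ≥0∞) ≠ 0 := by exact_mod_cast (by omega : n ≠ 0)
    exact pow_ne_zero _ this
  have hn2 : ((n : ℝ≥0∞) ^ 2) ≠ ⊤ := ENNReal.pow_ne_top (ENNReal.natCast_ne_top n)
  rw [h2] at h1
  have h4 : ∑' t : E, wE t.1 * F t.1 ≤ ((n : ℝ≥0∞) ^ 2)⁻¹ * (gf LL * (ENNReal.ofReal (K * 2 ^ b / Ub b) *
      (ENNReal.ofReal (K * 2 ^ b / Ub b) * ((∑' R : RR, wE R.1 * f R.1) * x)))) := by
    calc ∑' t : E, wE t.1 * F t.1 = ((n : ℝ≥0∞) ^ 2)⁻¹ * ((n : ℝ≥0∞) ^ 2 * ∑' t : E, wE t.1 * F t.1) := by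
          rw [← mul_assoc, ENNReal.inv_mul_cancel hn1 hn2, one_mul]
      _ ≤ _ := mul_le_mul' le_rfl (h1.trans (mul_le_mul' le_rfl (mul_le_mul' h3 (mul_le_mul' h3 le_rfl))))
  refine h4.trans (le_of_eq ?_)
  have h5 : ((n : ℝ≥0∞) ^ 2)⁻¹ = ENNReal.ofReal (((n : ℝ) ^ 2)⁻¹) := by
    rw [ENNReal.ofReal_inv_of_pos (by positivity), ENNReal.ofReal_pow hn0.le, ENNReal.ofReal_natCast]
  have h6 : ENNReal.ofReal (K ^ 2 * (2 ^ b / (n * Ub b)) ^ 2) = ((n : ℝ≥0∞) ^ 2)⁻¹ *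
      (ENNReal.ofReal (K * 2 ^ b / Ub b) * ENNReal.ofReal (K * 2 ^ b / Ub b)) := by
    rw [h5, ← ENNReal.ofReal_mul (by positivity), ← ENNReal.ofReal_mul (by positivity)]
    congr 1
    field_simp
  rw [h6]
  ring

/-- **the displacement of the middle bridge lies in one of M points, with weights** -/
theorem cut3F_disp : ∃ C : ℝ, 1 ≤ C ∧ ∀ (LL RR E : Set (List Bool)) (n b : ℕ) (M : ℝ) (F f : List Bool → ℝ≥0∞), 1 ≤ n →
    0 ≤ M → (∀ t ∈ E, Cut3F LL RR n (2 ^ b) t) → (∀ A R : List Bool, A ++ R ∈ E → R ∈ RR → F (A ++ R) ≤ f R) →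
    (∀ A B : List Bool, ∃ V : Set Pt, V.Finite ∧ (V.ncard : ℝ) ≤ M ∧ ∀ Z : List Bool, Z ∈ BU → n ≤ hgt Z →
      hgt Z ≤ 3 * 2 ^ b → A ++ (Z ++ B) ∈ E → vx oo up Z Z.length ∈ V) →
    ∑' t : E, wE t.1 * F t.1 ≤ ENNReal.ofReal (C * (2 ^ b / (n * Ub b)) ^ 2 * (uu n / n) * M) *
      (gf LL * ∑' R : RR, wE R.1 * f R.1) := by
  obtain ⟨C1, hC1, h1⟩ := cut3F_sum
  obtain ⟨C2, hC2, h2⟩ := PS.spread
  refine ⟨max 1 (C1 * C2), le_max_left _ _, fun LL RR E n b M F f hn hM hE hF hV => ?_⟩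
  have hU := Ub_pos b
  have hu := uu_pos n
  have hn0 : (0 : ℝ) < n := by exact_mod_cast hn
  refine (h1 LL RR E n b (ENNReal.ofReal (C2 * (uu n / n) * M)) F f hn hE hF fun A B => ?_).trans ?_
  · obtain ⟨V, hVf, hVc, hVZ⟩ := hV A B
    refine (gf_mono ?_).trans ((h2 n hn V hVf).trans (ENNReal.ofReal_le_ofReal ?_))
    · rintro Z ⟨⟨a1, a2, a3⟩, a4⟩
      exact ⟨a1, a2, hVZ Z a1 a2 a3 a4⟩
    · exact mul_le_mul_of_nonneg_left hVc (by positivity)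
  · rw [mul_comm (gf LL * _), ← mul_assoc, ← ENNReal.ofReal_mul (by positivity)]
    refine mul_le_mul' (ENNReal.ofReal_le_ofReal ?_) le_rfl
    calc C1 * (2 ^ b / (n * Ub b)) ^ 2 * (C2 * (uu n / n) * M) =
        (C1 * C2) * ((2 ^ b / (n * Ub b)) ^ 2 * (uu n / n) * M) := by ring
      _ ≤ max 1 (C1 * C2) * ((2 ^ b / (n * Ub b)) ^ 2 * (uu n / n) * M) :=
        mul_le_mul_of_nonneg_right (le_max_right _ _) (by positivity)
      _ = _ := by ring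

/-- **words with a given end** -/
theorem cut3F_end : ∃ C : ℝ, 1 ≤ C ∧ ∀ (LL RR E : Set (List Bool)) (n b : ℕ) (y : Pt) (F f : List Bool → ℝ≥0∞), 1 ≤ n →
    (∀ t ∈ E, ev t = y) → (∀ t ∈ E, Cut3F LL RR n (2 ^ b) t) →
    (∀ A R : List Bool, A ++ R ∈ E → R ∈ RR → F (A ++ R) ≤ f R) →
    ∑' t : E, wE t.1 * F t.1 ≤ ENNReal.ofReal (C * (2 ^ b / (n * Ub b)) ^ 2 * (uu n / n)) *
      (gf LL * ∑' R : RR, wE R.1 * f R.1) := by
  obtain ⟨C, hC, h⟩ := cut3F_disp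
  refine ⟨C, hC, fun LL RR E n b y F f hn hy hE hF => ?_⟩
  have h1 := h LL RR E n b 1 F f hn zero_le_one hE hF fun A B =>
    ⟨{mulE (conjE (rotTo up (dx up A A.length))) (y - ev A) - ev B}, Set.finite_singleton _, by
      rw [Set.ncard_singleton]
      norm_num, fun Z hZ _ _ hm => by
      have h2 := mid_disp hZ (hy _ hm)
      rw [Set.mem_singleton_iff, ← h2]
      rfl⟩
  rw [mul_one] at h1
  exact h1

end PW

end HexObs
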