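import Mathlib

/-!
# PW, row F (helper16): means of `exp (i a)`

Small changes of the phase (`mean_shift`); products of real functionals (`prod4`).
-/

set_option autoImplicit false

noncomputable section

namespace PW

open Complex

theorem exp_dist (a b : ℝ) : ‖exp ((a : ℂ) * I) - exp ((b : ℂ) * I)‖ ≤ |a - b| := by
  have h1 : exp ((a : ℂ) * I) - exp ((b : ℂ) * I) = exp ((b : ℂ) * I) * (exp (((a - b : ℝ) : ℂ) * I) - 1) := by
    rw [mul_sub, ← exp_add, mul_one]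
    congr 2
    push_cast
    ring
  rw [h1, norm_mul, norm_exp_ofReal_mul_I, one_mul]
  have h2 := Real.norm_exp_I_mul_ofReal_sub_one_le (x := a - b)
  rw [mul_comm] at h2
  simpa using h2

theorem exp_dist2 (a b : ℝ) : ‖exp ((a : ℂ) * I) - exp ((b : ℂ) * I)‖ ≤ 2 := by
  refine (norm_sub_le _ _).trans ?_
  rw [norm_exp_ofReal_mul_I, norm_exp_ofReal_mul_I]
  norm_num

variable {α : Type*}

/-- **a small change of the phase**, off a set of small mass -/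
theorem mean_shift {S : Finset α} {p : α → ℝ} (hp : ∀ t ∈ S, 0 ≤ p t) (a b : α → ℝ) (P : α → Prop) [DecidablePred P]
    {L : ℝ} (hL0 : 0 ≤ L) (hL : ∀ t ∈ S, ¬ P t → |a t - b t| ≤ L) :
    ‖∑ t ∈ S, (p t : ℂ) * exp ((a t : ℂ) * I) - ∑ t ∈ S, (p t : ℂ) * exp ((b t : ℂ) * I)‖ ≤
      L * ∑ t ∈ S, p t + 2 * ∑ t ∈ S.filter P, p t := by
  rw [← Finset.sum_sub_distrib]
  have h1 : ∀ t ∈ S, ‖(p t : ℂ) * exp ((a t : ℂ) * I) - (p t : ℂ) * exp ((b t : ℂ) * I)‖ ≤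
      L * p t + 2 * (if P t then p t else 0) := by
    intro t ht
    rw [← mul_sub, norm_mul, norm_real, Real.norm_of_nonneg (hp t ht)]
    by_cases h : P t
    · rw [if_pos h]
      have h2 := mul_le_mul_of_nonneg_left (exp_dist2 (a t) (b t)) (hp t ht)
      have h3 := mul_nonneg hL0 (hp t ht)
      linarith
    · rw [if_neg h]
      have h2 := mul_le_mul_of_nonneg_left ((exp_dist (a t) (b t)).trans (hL t ht h)) (hp t ht)
      linarith
  refine (norm_sum_le _ _).trans ((Finset.sum_le_sum h1).trans (le_of_eq ?_))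
  rw [Finset.sum_add_distrib, ← Finset.mul_sum, ← Finset.mul_sum, Finset.sum_filter]

theorem exp_cs (a : ℝ) : exp ((a : ℂ) * I) = (Real.cos a : ℂ) + (Real.sin a : ℂ) * I := by
  rw [exp_mul_I, ofReal_cos, ofReal_sin]

/-- **products**: from real functionals to `exp (i (a + b))` -/
theorem prod4 {S : Finset α} {p : α → ℝ} (a b : α → ℝ) {xc xs yc ys ε : ℝ}
    (h1 : |∑ t ∈ S, p t * (Real.cos (a t) * Real.cos (b t)) - xc * yc| ≤ ε)
    (h2 : |∑ t ∈ S, p t * (Real.cos (a t) * Real.sin (b t)) - xc * ys| ≤ ε)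
    (h3 : |∑ t ∈ S, p t * (Real.sin (a t) * Real.cos (b t)) - xs * yc| ≤ ε)
    (h4 : |∑ t ∈ S, p t * (Real.sin (a t) * Real.sin (b t)) - xs * ys| ≤ ε) :
    ‖∑ t ∈ S, (p t : ℂ) * exp (((a t + b t : ℝ) : ℂ) * I) - ((xc : ℂ) + (xs : ℂ) * I) * ((yc : ℂ) + (ys : ℂ) * I)‖ ≤
      4 * ε := by
  have e0 : ∀ t, (p t : ℂ) * exp (((a t + b t : ℝ) : ℂ) * I) =
      ((p t * (Real.cos (a t) * Real.cos (b t)) : ℝ) : ℂ) - ((p t * (Real.sin (a t) * Real.sin (b t)) : ℝ) : ℂ) +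
      (((p t * (Real.cos (a t) * Real.sin (b t)) : ℝ) : ℂ) + ((p t * (Real.sin (a t) * Real.cos (b t)) : ℝ) : ℂ)) * I := by
    intro t
    have : ((a t + b t : ℝ) : ℂ) * I = (a t : ℂ) * I + (b t : ℂ) * I := by
      push_cast
      ring
    rw [this, exp_add, exp_cs, exp_cs]
    push_cast
    have hI := I_mul_I
    linear_combination ((p t : ℂ) * (cos (a t) * 0 + sin (a t) * sin (b t))) * hI
  have e1 : ∑ t ∈ S, (p t : ℂ) * exp (((a t + b t : ℝ) : ℂ) * I) - ((xc : ℂ) + (xs : ℂ) * I) * ((yc : ℂ) + (ys : ℂ) * I) =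
      ((∑ t ∈ S, p t * (Real.cos (a t) * Real.cos (b t)) - xc * yc : ℝ) : ℂ) -
      ((∑ t ∈ S, p t * (Real.sin (a t) * Real.sin (b t)) - xs * ys : ℝ) : ℂ) +
      (((∑ t ∈ S, p t * (Real.cos (a t) * Real.sin (b t)) - xc * ys : ℝ) : ℂ) +
      ((∑ t ∈ S, p t * (Real.sin (a t) * Real.cos (b t)) - xs * yc : ℝ) : ℂ)) * I := by
    rw [Finset.sum_congr rfl fun t _ => e0 t, Finset.sum_add_distrib, Finset.sum_sub_distrib, ← Finset.sum_mul,
      Finset.sum_add_distrib]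
    push_cast
    have hI := I_mul_I
    linear_combination (-((xs : ℂ) * ys)) * hI
  rw [e1]
  have k1 : ‖((∑ t ∈ S, p t * (Real.cos (a t) * Real.cos (b t)) - xc * yc : ℝ) : ℂ)‖ ≤ ε := by
    rw [norm_real]; exact h1
  have k2 : ‖((∑ t ∈ S, p t * (Real.cos (a t) * Real.sin (b t)) - xc * ys : ℝ) : ℂ)‖ ≤ ε := by
    rw [norm_real]; exact h2
  have k3 : ‖((∑ t ∈ S, p t * (Real.sin (a t) * Real.cos (b t)) - xs * yc : ℝ) : ℂ)‖ ≤ ε := by
    rw [norm_real]; exact h3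
  have k4 : ‖((∑ t ∈ S, p t * (Real.sin (a t) * Real.sin (b t)) - xs * ys : ℝ) : ℂ)‖ ≤ ε := by
    rw [norm_real]; exact h4
  refine (norm_add_le _ _).trans ?_
  rw [norm_mul, norm_I, mul_one]
  have k5 := norm_sub_le ((∑ t ∈ S, p t * (Real.cos (a t) * Real.cos (b t)) - xc * yc : ℝ) : ℂ)
    ((∑ t ∈ S, p t * (Real.sin (a t) * Real.sin (b t)) - xs * ys : ℝ) : ℂ)
  have k6 := norm_add_le ((∑ t ∈ S, p t * (Real.cos (a t) * Real.sin (b t)) - xc * ys : ℝ) : ℂ)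
    ((∑ t ∈ S, p t * (Real.sin (a t) * Real.cos (b t)) - xs * yc : ℝ) : ℂ)
  linarith

/-- the mean of `exp (i b)` from the real ones -/
theorem mean_cs {S : Finset α} {p : α → ℝ} (b : α → ℝ) :
    ∑ t ∈ S, (p t : ℂ) * exp ((b t : ℂ) * I) =
      ((∑ t ∈ S, p t * Real.cos (b t) : ℝ) : ℂ) + ((∑ t ∈ S, p t * Real.sin (b t) : ℝ) : ℂ) * I := by
  push_cast
  rw [Finset.sum_mul, ← Finset.sum_add_distrib]
  refine Finset.sum_congr rfl fun t _ => ?_
  rw [exp_mul_I]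
  ring

end PW

end
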