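import Pool.Agent.PW.TipN
import Pool.Agent.PW.ThDef
import Pool.Agent.PW.ExpL

/-!
# PW, row F (helper16): the characteristic function of the winding around the tip in the reference ensemble

`psiW C b v` : the mean of `exp (i v th)` over the plane ensemble of the scale `b + C`, `th` = the winding around the tip up to
the first exit from the disc of radius `2 ^ b / 2`.
-/

set_option autoImplicit false

noncomputable section

namespace NTSF

open Finset Filter Topology

open HexObs hiding pos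

open HexObs.TIW HexObs.SDN HexObs.PWd HexObs.PWN

/-- the reference number of letters of the scale K -/
def nref (K : ℕ) : ℕ := ⌈PW.mZ (2 ^ K)⌉₊

theorem nref_sc : ∃ K0 : ℕ, ∀ K, K0 ≤ K → TIP.Sc K (nref K) := by
  have h0 : 0 < PW.mZ (2 ^ 0) := NTA.mlow_M.pos 0
  obtain ⟨j, hj⟩ := pow_unbounded_of_one_lt ((1 : ℝ) / PW.mZ (2 ^ 0)) (one_lt_two : (1 : ℝ) < 2)
  refine ⟨j, fun K hK => ⟨Nat.le_ceil _, ?_⟩⟩
  have h1 : (1 : ℝ) < PW.mZ (2 ^ K) := by
    rw [div_lt_iff₀ h0] at hj
    have h2 : (2 : ℝ) ^ j * PW.mZ (2 ^ 0) ≤ 2 ^ K * PW.mZ (2 ^ 0) :=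
      mul_le_mul_of_nonneg_right (pow_le_pow_right₀ (by norm_num) hK) h0.le
    linarith [mz_two K]
  have h3 : (2 : ℝ) * PW.mZ (2 ^ K) ≤ PW.mZ (2 ^ (K + 1)) := by
    have h := NTA.MLow.two NTA.mlow_M K 1
    rwa [pow_one] at h
  have h4 : ((nref K : ℕ) : ℝ) < PW.mZ (2 ^ K) + 1 := Nat.ceil_lt_add_one (by linarith)
  linarith

/-- the cosine of the winding up to the first exit -/
def cosP (r v : ℝ) : ℕ → (ℕ → ℂ) → ℝ := fun m z => Real.cos (v * th r m z)

/-- the sine of the winding up to the first exit -/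
def sinP (r v : ℝ) : ℕ → (ℕ → ℂ) → ℝ := fun m z => Real.sin (v * th r m z)

theorem cosP_inn (r v : ℝ) : InnP r (cosP r v) := th_innP r fun x => Real.cos (v * x)

theorem sinP_inn (r v : ℝ) : InnP r (sinP r v) := th_innP r fun x => Real.sin (v * x)

/-- the characteristic function in the reference ensemble of the scale b + C -/
def psiW (C b : ℕ) (v : ℝ) : ℂ :=
  if 0 < MA (tent 0) (nref (b + C)) then
    ((EA (tent 0) (nref (b + C)) (qE (cosP (2 ^ b / 2) v)) : ℝ) : ℂ) +
      ((EA (tent 0) (nref (b + C)) (qE (sinP (2 ^ b / 2) v)) : ℝ) : ℂ) * Complex.I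
  else 1

theorem psiW_cont (C b : ℕ) : Continuous (psiW C b) := by
  unfold psiW
  by_cases h : 0 < MA (tent 0) (nref (b + C))
  · simp only [if_pos h]
    unfold EA qE cosP sinP
    fun_prop
  · simp only [if_neg h]
    exact continuous_const

theorem psiW_zero (C b : ℕ) : psiW C b 0 = 1 := by
  unfold psiW
  by_cases h : 0 < MA (tent 0) (nref (b + C))
  · rw [if_pos h]
    have h1 : EA (tent 0) (nref (b + C)) (qE (cosP (2 ^ b / 2) 0)) = 1 := by
      unfold EA qE cosP
      simp only [zero_mul, Real.cos_zero, mul_one]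
      exact div_self h.ne'
    have h2 : EA (tent 0) (nref (b + C)) (qE (sinP (2 ^ b / 2) 0)) = 0 := by
      unfold EA qE sinP
      simp
    rw [h1, h2]
    simp
  · rw [if_neg h]

end NTSF

end
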