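import Pool.Agent.PW.BoxT
import Pool.Agent.PW.TipT
import Pool.Agent.PW.PsiW
import Pool.Agent.PW.CharS
import Pool.Agent.PW.E1d

/-!
# PW, row CylJ (helper41): the winding angle on the cylinder is the sum of two independent tips

`tipCyl_of` : `PW.TipCyl angChar psiW` from `TipT` (row P7), the decomposition of the angle `E1S` (row E1d) and the box.
-/

set_option autoImplicit false

noncomputable section

namespace PWJ

open Finset Filter Topology

open HexObs hiding pos

open HexObs.TIW HexObs.SDN HexObs.PWd HexObs.PWN HexObs.PWT NTSF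

open Pool.Agent.PW.Res

open NTF (JJ JJ_re JJ_im JJ_add JJ_sub JJ_neg JJ_norm)

open scoped ENNReal

/-! ### 1. Mirror images -/

theorem th_conj {r : ℝ} {m : ℕ} {z : ℕ → ℂ} (h : ∀ i, 1 ≤ i → i < m → (z (i + 1) / z i).arg ≠ Real.pi) :
    th r m (fun i => (starRingEnd ℂ) (z i)) = -th r m z := by
  unfold NTSF.th
  rw [ex_congr (z' := z) fun i _ => by rw [Complex.norm_conj]]
  exact turn_conj fun i h1 h2 => h i h1 (h2.trans_le (ex_le _ _ _))

theorem JJ_zero : JJ (0 : Pt) = 0 := by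
  have := JJ_sub (0 : Pt) 0
  simpa using this

theorem arg_pS {t : List Bool} (ht : t ∈ SA) {i : ℕ} (hi : 1 ≤ i) (hi' : i < t.length) :
    (pS t (i + 1) / pS t i).arg ≠ Real.pi := by
  intro h
  have h0 : vx oo up t 0 = 0 := rfl
  have h1 := arg_step_lt (t := t) (i := i) (p := 0) (by
    intro h2
    exact ht.2 0 i (by omega) (by omega) (by rw [h0, h2])) (by
    intro h2
    exact ht.2 0 (i + 1) (by omega) (by omega) (by rw [h0, h2]))
  rw [JJ_zero, sub_zero, sub_zero] at h1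
  change |(pS t (i + 1) / pS t i).arg| < _ at h1
  rw [h, abs_of_pos Real.pi_pos] at h1
  linarith [Real.pi_pos]

theorem arg_pE {t : List Bool} (ht : t ∈ SA) {i : ℕ} (hi : 1 ≤ i) (hi' : i < t.length) :
    (pE t.length t (i + 1) / pE t.length t i).arg ≠ Real.pi := by
  intro h
  have h1 := arg_step_lt (t := t) (i := t.length - i - 1) (p := vx oo up t t.length)
    (ht.2 _ _ (by omega) le_rfl) (ht.2 _ _ (by omega) le_rfl)
  rw [show t.length - i - 1 + 1 = t.length - i by omega] at h1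
  change |(pE t.length t i / (JJ (vx oo up t (t.length - i - 1)) - JJ (vx oo up t t.length))).arg| < _ at h1
  have e : JJ (vx oo up t (t.length - i - 1)) - JJ (vx oo up t t.length) = pE t.length t (i + 1) := by
    unfold pE
    rw [show t.length - (i + 1) = t.length - i - 1 by omega]
  rw [e] at h1
  have h2 : |(pE t.length t (i + 1) / pE t.length t i).arg| = |(pE t.length t i / pE t.length t (i + 1)).arg| := by
    rw [← inv_div, Complex.arg_inv]
    split_ifs with h6
    · rw [h6]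
    · rw [abs_neg]
  rw [← h2, h, abs_of_pos Real.pi_pos] at h1
  linarith [Real.pi_pos]

theorem JJ_lm (p : Pt) : JJ (TPC.lm p) = (starRingEnd ℂ) (JJ p) := by
  apply Complex.ext
  · rw [Complex.conj_re, JJ_re, JJ_re]
    simp only [TPC.lm]
    push_cast
    ring
  · rw [Complex.conj_im, JJ_im, JJ_im]
    simp only [TPC.lm]
    push_cast
    ring

theorem pE_not (t : List Bool) {i : ℕ} : pE t.length (t.map not) i = (starRingEnd ℂ) (pE t.length t i) := by
  unfold pE
  rw [TPC.vx_not t (by omega), TPC.vx_not t (by omega), JJ_lm, JJ_lm, map_sub]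

theorem not_SA {t : List Bool} (ht : t ∈ SA) : t.map not ∈ SA := by
  refine ⟨fun i _ _ => Set.mem_univ _, fun i j hij hj e => ?_⟩
  rw [List.length_map] at hj
  rw [TPC.vx_not t (by omega), TPC.vx_not t (by omega)] at e
  have e1 := congrArg TPC.lm e
  rw [TPC.lm_lm, TPC.lm_lm] at e1
  exact ht.2 i j hij hj e1

theorem th_not {t : List Bool} (ht : t ∈ SA) (r : ℝ) :
    th r (t.map not).length (pE (t.map not).length (t.map not)) = -th r t.length (pE t.length t) := by
  rw [List.length_map, ← th_conj (fun i h1 h2 => arg_pE ht h1 h2)]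
  exact th_loc _ _ fun i _ => pE_not t

/-- **the mean of the sine vanishes** -/
theorem EA_sin (g : ℝ → ℝ) (n : ℕ) (r v : ℝ) : EA g n (qE (sinP r v)) = 0 := by
  unfold EA
  have h : ∑ t ∈ AAF n, pA g n t * qE (sinP r v) t = -∑ t ∈ AAF n, pA g n t * qE (sinP r v) t := by
    rw [← Finset.sum_neg_distrib]
    refine Finset.sum_nbij' (fun t => t.map not) (fun t => t.map not) ?_ ?_ ?_ ?_ ?_
    · intro t ht
      rw [mem_AAF] at ht ⊢
      exact ⟨not_SA ht.1, by rw [List.length_map]; exact ht.2⟩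
    · intro t ht
      rw [mem_AAF] at ht ⊢
      exact ⟨not_SA ht.1, by rw [List.length_map]; exact ht.2⟩
    · intro t _
      exact map_not_not t
    · intro t _
      exact map_not_not t
    · intro t ht
      rw [mem_AAF] at ht
      have e1 : pA g n (t.map not) = pA g n t := by
        unfold pA
        rw [List.length_map]
      have e2 : qE (sinP r v) (t.map not) = -qE (sinP r v) t := by
        show Real.sin (v * th r (t.map not).length (pE (t.map not).length (t.map not))) =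
          -Real.sin (v * th r t.length (pE t.length t))
        rw [th_not ht.1, mul_neg, Real.sin_neg]
      rw [e1, e2]
      ring
  have h2 : ∑ t ∈ AAF n, pA g n t * qE (sinP r v) t = 0 := by linarith
  rw [h2, zero_div]

/-- the reversed word seen from its end is the word seen from its start -/
theorem cos_revT {k : ℕ} {t : List Bool} (ht : t ∈ TT k) (r v : ℝ) : qE (cosP r v) (revT t) = qS (cosP r v) t := by
  obtain ⟨s, x, het⟩ := exists_app (ne_nil ht)
  have hl := revT_length (ne_nil ht)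
  have h4 := ht.2.2.2
  show Real.cos (v * th r (revT t).length (pE (revT t).length (revT t))) = Real.cos (v * th r t.length (pS t))
  rw [hl]
  have hv : ∀ i, i ≤ t.length → vx oo up (revT t) i = mir x (vx oo up t (t.length - i) - vx oo up t t.length) := by
    intro i hi
    apply mir_inj x
    rw [mir_mir]
    rw [het] at hi h4 ⊢
    exact vx_revT' h4 hi
  have h0 : vx oo up t 0 = 0 := rfl
  have hp : ∀ i, i ≤ t.length → pE t.length (revT t) i = JJ (mir x (vx oo up t i)) := by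
    intro i hi
    unfold pE
    rw [← JJ_sub, hv _ (Nat.sub_le _ _), hv _ le_rfl, ← mir_sub, Nat.sub_self, h0, show t.length - (t.length - i) = i by omega]
    congr 2
    abel
  cases x
  · have e1 : th r t.length (pE t.length (revT t)) =
        th r t.length (fun i => -(JJ (1, 0)) * (starRingEnd ℂ) (pS t i)) := by
      refine th_loc _ _ fun i hi => ?_
      rw [hp i hi, JJ_mir_false]
      rfl
    have hn : ‖-(JJ (1, 0))‖ = 1 := by
      rw [norm_neg]
      have h1 := JJ_norm (1, 0)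
      have h2 : nrm ((1, 0) : Pt) = 1 := by decide
      rw [h2, Int.cast_one] at h1
      nlinarith [norm_nonneg (JJ (1, 0))]
    rw [e1, th_rot r _ _ hn, th_conj fun i h1 h2 => arg_pS ht.1 h1 h2, mul_neg, Real.cos_neg]
  · have e1 : th r t.length (pE t.length (revT t)) = th r t.length (pS t) := by
      refine th_loc _ _ fun i hi => ?_
      rw [hp i hi]
      rfl
    rw [e1]

/-! ### 2. The functionals of the start are far -/

theorem rob_qS {K C0 : ℕ} {r : ℝ} {Q : ℕ → (ℕ → ℂ) → ℝ} (hQ : InnP r Q) (hr : r ≤ 2 ^ K) (hb : ∀ m z, |Q m z| ≤ 1) :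
    RM.Rob (2 ^ (K - C0)) (qS Q) (fun t => if hn (en t) < 3 * 2 ^ K then 2 else 0) := by
  intro A Y hAY _ hY
  show |qS Q (A ++ Y) - qS Q A| ≤ (if hn (en (A ++ Y)) < 3 * 2 ^ K then 2 else 0)
  by_cases h : hn (en (A ++ Y)) < 3 * 2 ^ K
  · rw [if_pos h]
    have h1 := hb (A ++ Y).length (pS (A ++ Y))
    have h2 := hb A.length (pS A)
    show |Q (A ++ Y).length (pS (A ++ Y)) - Q A.length (pS A)| ≤ 2
    rw [abs_le] at h1 h2 ⊢
    constructor <;> linarith [h1.1, h1.2, h2.1, h2.2]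
  · rw [if_neg h]
    push Not at h
    obtain ⟨u, hu, hv⟩ := vx_last (A := A) (E := Y)
    have e1 := hv Y.length le_rfl
    rw [← List.length_append] at e1
    have h1 : hn (en (A ++ Y)) ≤ hn (en A) + hn (vx oo up Y Y.length) := by
      show hn (vx oo up (A ++ Y) (A ++ Y).length) ≤ _
      rw [e1]
      refine (hn_add _ _).trans ?_
      rw [hn_mulE hu]
      exact le_rfl
    have h2 := hY Y.length le_rfl
    have h3 : ((2 ^ (K - C0) : ℕ) : ℤ) ≤ 2 ^ K := by
      push_cast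
      exact pow_le_pow_right₀ (by norm_num) (Nat.sub_le _ _)
    have h4 : (2 : ℤ) * 2 ^ K ≤ hn (en A) := by linarith
    have h5 : r ≤ ‖pS A A.length‖ := by
      have h6 := hn_le_JJ (en A)
      have h7 : ((2 * 2 ^ K : ℤ) : ℝ) ≤ ((hn (en A) : ℤ) : ℝ) := by exact_mod_cast h4
      push_cast at h7
      have h8 : ‖pS A A.length‖ = ‖JJ (en A)‖ := rfl
      rw [h8]
      linarith
    have hS : ∀ i, i ≤ A.length → pS (A ++ Y) i = pS A i := fun i hi => by
      unfold pS
      rw [vx_append (by omega)]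
    have h6 : qS Q (A ++ Y) = qS Q A := by
      unfold qS
      refine hQ.inn _ _ _ _ A.length (by rw [List.length_append]; omega) le_rfl ?_ hS
      rw [hS _ le_rfl]
      exact h5
    rw [h6, sub_self, abs_zero]

/-! ### 3. Sums over the words of the cylinder -/

/-- the sum over the words of the cylinder -/
def TS (k : ℕ) (f : List Bool → ℝ) : ℝ := ∑' t : TT k, xc ^ t.1.length * f t.1

theorem TS_summable {k : ℕ} (hk : 1 ≤ k) {f : List Bool → ℝ} {B : ℝ} (hf : ∀ t, |f t| ≤ B) :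
    Summable fun t : TT k => xc ^ t.1.length * f t.1 := by
  have hx := xc_pos
  refine Summable.of_norm_bounded ((summable_T hk).mul_right B) fun t => ?_
  rw [norm_mul, Real.norm_eq_abs, Real.norm_eq_abs, abs_of_pos (pow_pos hx _)]
  exact mul_le_mul_of_nonneg_left (hf _) (pow_pos hx _).le

theorem TS_sub {k : ℕ} (hk : 1 ≤ k) {f g : List Bool → ℝ} {B B' : ℝ} (hf : ∀ t, |f t| ≤ B) (hg : ∀ t, |g t| ≤ B') :
    TS k f - TS k g = TS k (fun t => f t - g t) := by
  unfold TS
  rw [← (TS_summable hk hf).tsum_sub (TS_summable hk hg)]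
  exact tsum_congr fun t => by ring

theorem TS_one (k : ℕ) : TS k (fun _ => 1) = ∑' t : TT k, xc ^ t.1.length := by
  unfold TS
  simp only [mul_one]

theorem TS_revT {k : ℕ} (f : List Bool → ℝ) : TS k (fun t => f (revT t)) = TS k f := tsum_revT f

theorem gf_toReal (D : Set (List Bool)) : (gf D).toReal = ∑' t, D.indicator (fun t => xc ^ t.length) t := by
  have hx := xc_pos
  unfold gf
  rw [ENNReal.tsum_toReal_eq (fun t => by unfold wE; exact ENNReal.ofReal_ne_top), ← tsum_subtype D]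
  refine tsum_congr fun t => ?_
  unfold wE
  rw [ENNReal.toReal_ofReal (pow_pos hx _).le]

/-- functions that are close off a bad set -/
theorem TS_close {k : ℕ} (hk : 1 ≤ k) {f g : List Bool → ℝ} (hf : ∀ t, |f t| ≤ 1) (hg : ∀ t, |g t| ≤ 1) {δ : ℝ} (hδ : 0 ≤ δ)
    {Bad : Set (List Bool)} (h : ∀ t ∈ TT k, t ∉ Bad → |f t - g t| ≤ δ) :
    |TS k f - TS k g| ≤ δ * TS k (fun _ => 1) + 2 * (gf {t | t ∈ TT k ∧ t ∈ Bad}).toReal := by
  have hx := xc_pos
  set a : List Bool → ℝ := fun t => xc ^ t.length with ha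
  have hPB : (TT k).indicator (Bad.indicator a) = {t | t ∈ TT k ∧ t ∈ Bad}.indicator a := by
    rw [Set.indicator_indicator]
    rfl
  have hsB : Summable fun t : TT k => Bad.indicator a t.1 := by
    refine Summable.of_nonneg_of_le (fun t => Set.indicator_nonneg (fun _ _ => (pow_pos hx _).le) _) (fun t => ?_)
      (summable_T hk)
    exact Set.indicator_le_self' (fun _ _ => (pow_pos hx _).le) _
  have e1 : (gf {t | t ∈ TT k ∧ t ∈ Bad}).toReal = ∑' t : TT k, Bad.indicator a t.1 := by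
    rw [gf_toReal, ← hPB, tsum_subtype (TT k) (Bad.indicator a)]
  rw [TS_sub hk hf hg, TS_one, e1, ← tsum_mul_left, ← tsum_mul_left, ← ((summable_T hk).mul_left δ).tsum_add (hsB.mul_left 2)]
  unfold TS
  rw [← Real.norm_eq_abs]
  refine tsum_of_norm_bounded (((summable_T hk).mul_left δ).add (hsB.mul_left 2)).hasSum fun t => ?_
  rw [norm_mul, Real.norm_eq_abs, Real.norm_eq_abs, abs_of_pos (pow_pos hx _)]
  have hp := pow_pos hx t.1.length
  by_cases ht : t.1 ∈ Bad
  · rw [Set.indicator_of_mem ht]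
    have h1 := hf t.1
    have h2 := hg t.1
    have h3 : |f t.1 - g t.1| ≤ 2 := by
      rw [abs_le] at *
      constructor <;> linarith [h1.1, h1.2, h2.1, h2.2]
    have h4 : xc ^ t.1.length * |f t.1 - g t.1| ≤ xc ^ t.1.length * 2 := mul_le_mul_of_nonneg_left h3 hp.le
    have h5 : 0 ≤ δ * xc ^ t.1.length := mul_nonneg hδ hp.le
    show _ ≤ δ * xc ^ t.1.length + 2 * (xc ^ t.1.length)
    linarith
  · rw [Set.indicator_of_notMem ht, mul_zero, add_zero, mul_comm δ]
    exact mul_le_mul_of_nonneg_left (h t.1 t.2 ht) hp.le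

/-! ### 4. The product formula -/

theorem one_innP (r : ℝ) : InnP r (fun _ _ => (1 : ℝ)) where
  rot := fun _ _ _ _ => rfl
  loc := fun _ _ _ _ => rfl
  inn := fun _ _ _ _ _ _ _ _ _ => rfl

/-- **the tip is independent of the start** -/
theorem prod_T {g : ℝ → ℝ} (hT : TipT g) (hB : PWd.BoxTs) {Lg : ℝ} (hg : Bump Lg g)
    (hM : ∃ k0 : ℕ, ∀ k n : ℕ, k0 ≤ k → PW.mZ (2 ^ k) ≤ n → 0 < MA g n) {ε : ℝ} (hε : 0 < ε) :
    ∃ C1 : ℕ, ∀ C : ℕ, C1 ≤ C → ∃ k0 : ℕ, ∀ (K k n' : ℕ), k0 ≤ K → Nat.log 2 k = K → 1 ≤ k → TIP.Sc K n' →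
      ∀ (r : ℝ) (Q Q' : ℕ → (ℕ → ℂ) → ℝ), 2 * r ≤ 2 ^ (K - C) → InnP r Q → InnP r Q' → (∀ m z, |Q m z| ≤ 1) →
      (∀ m z, |Q' m z| ≤ 1) →
      |TS k (fun t => qS Q t * qE Q' t) - EA g n' (qE Q') * TS k (qS Q)| ≤ ε * gK K := by
  obtain ⟨J, k1, hbox⟩ := box_sum hB (ε := ε / 4) (by positivity)
  obtain ⟨τ, hτ, C1, h1⟩ := hT (ε / 4 / 2 ^ (J + 2)) (by positivity)
  obtain ⟨k3, hM⟩ := hM
  refine ⟨C1 + C1, fun C hC => ?_⟩
  obtain ⟨k2, h1⟩ := h1 C1 C le_rfl hC
  refine ⟨max (max (k1 + 1) k3) k2, fun K k n' hK hkK hk1 hSc r Q Q' hr hQ hQ' hb hb' => ?_⟩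
  have hK1 : k1 + 1 ≤ K := (le_max_left _ _).trans ((le_max_left _ _).trans hK)
  have hK3 : k3 ≤ K := (le_max_right _ _).trans ((le_max_left _ _).trans hK)
  have hK2 : k2 ≤ K := (le_max_right _ _).trans hK
  have hpow : 2 ^ K ≤ k := by
    rw [← hkK]
    exact Nat.pow_log_le_self 2 (by omega)
  have hkk : k1 ≤ k := by
    have h2 : K < 2 ^ K := Nat.lt_two_pow_self
    omega
  have hgK := gK_pos K
  have hqS : ∀ t, |qS Q t| ≤ 1 := fun t => hb _ _
  have hqE : ∀ t, |qE Q' t| ≤ 1 := fun t => hb' _ _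
  have hqSE : ∀ t, |qS Q t * qE Q' t| ≤ 1 := fun t => by
    rw [abs_mul]
    exact mul_le_one₀ (hqS t) (abs_nonneg _) (hqE t)
  have hEA : |EA g n' (qE Q')| ≤ 1 := EA_abs hg (hM K n' hK3 hSc.1) hqE
  have b1 := hbox k hkk hk1 J le_rfl (fun t => qS Q t * qE Q' t) hqSE
  have b2 := hbox k hkk hk1 J le_rfl (qS Q) hqS
  rw [hkK] at b1 b2
  -- one end
  have hz : ∀ z ∈ Icc (-(2 : ℤ) ^ J) (2 ^ J),
      |∑ t ∈ Ty k (2 ^ (Nat.log 2 k + J + 5)) (1, -1) (yT k z), xc ^ t.length * (qS Q t * qE Q' t) -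
        EA g n' (qE Q') * ∑ t ∈ Ty k (2 ^ (Nat.log 2 k + J + 5)) (1, -1) (yT k z), xc ^ t.length * qS Q t| ≤
      ε / 4 / 2 ^ (J + 2) * gK K := by
    intro z hz
    refine h1 K k (2 ^ (Nat.log 2 k + J + 5)) n' z (1, -1) hK2 hkK hSc (by decide) (hn_yT_le hk1 hz) (qE Q') (qS Q)
      (fun t => if hn (en t) < 3 * 2 ^ K then 2 else 0) hqE hqS (hQ'.inn_qE hr) ?_ ?_ ?_
    · refine rob_qS hQ ?_ hb
      have h2 : (2 : ℝ) ^ (K - C) ≤ 2 ^ K := pow_le_pow_right₀ (by norm_num) (Nat.sub_le _ _)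
      have h3 : (0 : ℝ) < 2 ^ K := by positivity
      linarith
    · intro t
      split_ifs <;> norm_num
    · rw [Finset.sum_eq_zero]
      · positivity
      · intro t ht
        have h2 := (mem_Ty.1 ht).2.2.1
        have h3 : ¬ hn (en t) < 3 * 2 ^ K := by
          rw [h2]
          show ¬ hn (yT k z) < _
          rw [hn_yT, not_lt]
          have h4 : (1 : ℤ) ≤ |2 * z + 1| := by
            rcases le_or_gt 0 (2 * z + 1) with h | h
            · rw [abs_of_nonneg h]
              omega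
            · rw [abs_of_neg h]
              omega
          have h5 : (2 : ℤ) ^ K ≤ k := by exact_mod_cast hpow
          have h6 : (0 : ℤ) < 2 ^ K := by positivity
          nlinarith
        simp only [if_neg h3]
        ring
  have hsum : |∑ t ∈ TB k J, xc ^ t.length * (qS Q t * qE Q' t) - EA g n' (qE Q') * ∑ t ∈ TB k J, xc ^ t.length * qS Q t| ≤
      ε / 4 * gK K := by
    rw [sum_TB hk1, sum_TB hk1, Finset.mul_sum, ← Finset.sum_sub_distrib]
    refine (Finset.abs_sum_le_sum_abs _ _).trans ((Finset.sum_le_sum hz).trans ?_)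
    rw [Finset.sum_const, nsmul_eq_mul]
    have hc : (((Icc (-(2 : ℤ) ^ J) (2 ^ J)).card : ℕ) : ℝ) ≤ 2 ^ (J + 2) := by
      rw [Int.card_Icc]
      have h2 : ((2 : ℤ) ^ J + 1 - -2 ^ J).toNat ≤ 2 ^ (J + 2) := by
        rw [Int.toNat_le]
        push_cast
        have h3 : (1 : ℤ) ≤ 2 ^ J := one_le_pow₀ (by norm_num)
        rw [pow_add]
        linarith
      exact_mod_cast h2
    calc (((Icc (-(2 : ℤ) ^ J) (2 ^ J)).card : ℕ) : ℝ) * (ε / 4 / 2 ^ (J + 2) * gK K)
        ≤ 2 ^ (J + 2) * (ε / 4 / 2 ^ (J + 2) * gK K) := mul_le_mul_of_nonneg_right hc (by positivity)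
      _ = ε / 4 * gK K := by field_simp
  have e1 : TS k (fun t => qS Q t * qE Q' t) - EA g n' (qE Q') * TS k (qS Q) =
      (TS k (fun t => qS Q t * qE Q' t) - ∑ t ∈ TB k J, xc ^ t.length * (qS Q t * qE Q' t)) +
      (∑ t ∈ TB k J, xc ^ t.length * (qS Q t * qE Q' t) - EA g n' (qE Q') * ∑ t ∈ TB k J, xc ^ t.length * qS Q t) -
      EA g n' (qE Q') * (TS k (qS Q) - ∑ t ∈ TB k J, xc ^ t.length * qS Q t) := by ring
  have b3 : |EA g n' (qE Q') * (TS k (qS Q) - ∑ t ∈ TB k J, xc ^ t.length * qS Q t)| ≤ ε / 4 * gK K := by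
    rw [abs_mul]
    calc _ ≤ 1 * (ε / 4 * gK K) := mul_le_mul hEA b2 (abs_nonneg _) zero_le_one
      _ = _ := one_mul _
  rw [e1]
  refine (abs_sub _ _).trans ?_
  have b4 := abs_add_le (TS k (fun t => qS Q t * qE Q' t) - ∑ t ∈ TB k J, xc ^ t.length * (qS Q t * qE Q' t))
    (∑ t ∈ TB k J, xc ^ t.length * (qS Q t * qE Q' t) - EA g n' (qE Q') * ∑ t ∈ TB k J, xc ^ t.length * qS Q t)
  have b5 : |TS k (fun t => qS Q t * qE Q' t) - ∑ t ∈ TB k J, xc ^ t.length * (qS Q t * qE Q' t)| ≤ ε / 4 * gK K := b1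
  have b6 : 0 ≤ ε / 4 * gK K := by positivity
  linarith

/-! ### 5. The result -/

theorem cos_diff (a b : ℝ) : |Real.cos a - Real.cos b| ≤ |a - b| := by
  have h := Real.cos_sub_cos a b
  rw [h, abs_mul, abs_mul, abs_neg, abs_two]
  have h1 : |Real.sin ((a + b) / 2)| ≤ 1 := Real.abs_sin_le_one _
  have h2 : |Real.sin ((a - b) / 2)| ≤ |(a - b) / 2| := Real.abs_sin_le_abs
  rw [abs_div, abs_two] at h2
  have h3 : |Real.sin ((a + b) / 2)| * |Real.sin ((a - b) / 2)| ≤ 1 * (|a - b| / 2) :=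
    mul_le_mul h1 h2 (abs_nonneg _) zero_le_one
  linarith

/-- **two independent tips**, quantitatively -/
theorem two_tips {g : ℝ → ℝ} (hT : TipT g) (hB : PWd.BoxTs) (hE : E1S) {Lg : ℝ} (hg : Bump Lg g)
    (hM : ∃ k0 : ℕ, ∀ k n : ℕ, k0 ≤ k → PW.mZ (2 ^ k) ≤ n → 0 < MA g n) {e : ℝ} (he : 0 < e) :
    ∃ C0 : ℕ, ∀ C : ℕ, C0 ≤ C → ∃ (M : ℝ) (b0 : ℕ), ∀ b : ℕ, b0 ≤ b → ∀ n' : ℕ, TIP.Sc (b + C) n' → ∀ u : ℝ,
      ‖Pool.Agent.CylSaw.angChar (2 ^ (b + C)) u - ((EA g n' (qE (cosP (2 ^ b / 2) u)) : ℝ) : ℂ) ^ 2‖ ≤ e + M * |u| := by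
  obtain ⟨c, k0, hc, hlow⟩ := mass_low
  obtain ⟨C1, hP⟩ := prod_T hT hB hg hM (ε := e * c / 8) (by positivity)
  obtain ⟨C2, hE⟩ := hE (e * c / 8) (by positivity)
  obtain ⟨k3, hM⟩ := hM
  refine ⟨max C1 C2, fun C hC => ?_⟩
  obtain ⟨k1, hP⟩ := hP C ((le_max_left _ _).trans hC)
  obtain ⟨L, k2, hE⟩ := hE C ((le_max_right _ _).trans hC)
  refine ⟨max L 0, max (max k0 k1) (max k2 k3) + 1, fun b hb n' hSc u => ?_⟩
  obtain ⟨k, hk⟩ : ∃ k, k = 2 ^ (b + C) := ⟨_, rfl⟩
  have hlog : Nat.log 2 k = b + C := by rw [hk, Nat.log_pow (by norm_num)]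
  have hb1 : max (max k0 k1) (max k2 k3) + 1 ≤ b := hb
  have hlt : b + C < 2 ^ (b + C) := Nat.lt_two_pow_self
  have hk1 : 1 ≤ k := by omega
  have a1 := le_max_left (max k0 k1) (max k2 k3)
  have a2 := le_max_right (max k0 k1) (max k2 k3)
  have a3 := le_max_left k0 k1
  have a4 := le_max_right k0 k1
  have a5 := le_max_left k2 k3
  have a6 := le_max_right k2 k3
  have hl := hlow k (by omega) hk1
  have hE := hE k (by omega)
  have hMA := hM (b + C) n' (by omega) hSc.1
  rw [hlog] at hl hE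
  have hr : (2 : ℝ) ^ (b + C - C - 1) = 2 ^ b / 2 := by
    have h1 : b + C - C - 1 + 1 = b := by omega
    conv_rhs => rw [← h1]
    rw [pow_succ]
    ring
  rw [hr] at hE
  obtain ⟨r, hr0⟩ : ∃ r : ℝ, r = 2 ^ b / 2 := ⟨_, rfl⟩
  rw [← hr0] at hE ⊢
  obtain ⟨A, hA⟩ : ∃ A, A = TS k (fun _ => 1) := ⟨_, rfl⟩
  rw [← TS_one, ← hA] at hl
  have hgK := gK_pos (b + C)
  have hA0 : 0 < A := lt_of_lt_of_le (mul_pos hc hgK) hl
  have hcos : ∀ m z, |cosP r u m z| ≤ 1 := fun m z => Real.abs_cos_le_one _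
  have hsin : ∀ m z, |sinP r u m z| ≤ 1 := fun m z => Real.abs_sin_le_one _
  have hr2 : 2 * r ≤ 2 ^ (b + C - C) := by
    rw [Nat.add_sub_cancel, hr0]
    linarith
  have p1 := hP (b + C) k n' (by omega) hlog hk1 hSc r (cosP r u) (cosP r u) hr2 (cosP_inn r u) (cosP_inn r u) hcos hcos
  have p2 := hP (b + C) k n' (by omega) hlog hk1 hSc r (sinP r u) (sinP r u) hr2 (sinP_inn r u) (sinP_inn r u) hsin hsin
  have p3 := hP (b + C) k n' (by omega) hlog hk1 hSc r (fun _ _ => 1) (cosP r u) hr2 (one_innP r) (cosP_inn r u)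
    (fun _ _ => by simp) hcos
  rw [EA_sin, zero_mul, sub_zero] at p2
  obtain ⟨a, ha⟩ : ∃ a, a = EA g n' (qE (cosP r u)) := ⟨_, rfl⟩
  rw [← ha] at p1 p3 ⊢
  have ha1 : |a| ≤ 1 := by
    rw [ha]
    exact EA_abs hg hMA fun t => hcos _ _
  have p4 : TS k (qS (cosP r u)) = TS k (qE (cosP r u)) := by
    rw [← TS_revT (qE (cosP r u))]
    unfold TS
    refine tsum_congr fun t => ?_
    show _ = xc ^ t.1.length * qE (cosP r u) (revT t.1)
    rw [cos_revT t.2]
  have p5 : TS k (fun t => qS (fun _ _ => 1) t * qE (cosP r u) t) = TS k (qE (cosP r u)) := by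
    unfold TS
    refine tsum_congr fun t => ?_
    show _ * ((1 : ℝ) * _) = _
    rw [one_mul]
  have p6 : TS k (qS fun _ _ => 1) = A := by
    rw [hA]
    rfl
  rw [p5, p6] at p3
  rw [p4] at p1
  -- the angle
  have q1 : TS k (fun t => Real.cos (u * (th r t.length (pS t) + th r t.length (pE t.length t)))) =
      TS k (fun t => qS (cosP r u) t * qE (cosP r u) t) - TS k (fun t => qS (sinP r u) t * qE (sinP r u) t) := by
    have h1 : ∀ t, |qS (cosP r u) t * qE (cosP r u) t| ≤ 1 := fun t => by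
      rw [abs_mul]
      exact mul_le_one₀ (hcos _ _) (abs_nonneg _) (hcos _ _)
    have h2 : ∀ t, |qS (sinP r u) t * qE (sinP r u) t| ≤ 1 := fun t => by
      rw [abs_mul]
      exact mul_le_one₀ (hsin _ _) (abs_nonneg _) (hsin _ _)
    rw [TS_sub hk1 h1 h2]
    unfold TS
    refine tsum_congr fun t => ?_
    congr 1
    show Real.cos (u * (th r t.1.length (pS t.1) + th r t.1.length (pE t.1.length t.1))) =
      Real.cos (u * th r t.1.length (pS t.1)) * Real.cos (u * th r t.1.length (pE t.1.length t.1)) -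
      Real.sin (u * th r t.1.length (pS t.1)) * Real.sin (u * th r t.1.length (pE t.1.length t.1))
    rw [mul_add, Real.cos_add]
  have q2 := TS_close hk1 (f := fun t => Real.cos (u * thW k t))
    (g := fun t => Real.cos (u * (th r t.length (pS t) + th r t.length (pE t.length t))))
    (fun t => Real.abs_cos_le_one _) (fun t => Real.abs_cos_le_one _) (δ := |u| * max L 0) (by positivity)
    (Bad := {t | L < |thW k t - (th r t.length (pS t) + th r t.length (pE t.length t))|}) (by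
      intro t _ ht
      rw [Set.mem_ofPred_eq, not_lt] at ht
      refine (cos_diff _ _).trans ?_
      rw [← mul_sub, abs_mul]
      exact mul_le_mul_of_nonneg_left (ht.trans (le_max_left _ _)) (abs_nonneg _))
  rw [← hA] at q2
  have q3 : (gf {t | t ∈ TT k ∧ t ∈ {t | L < |thW k t - (th r t.length (pS t) + th r t.length (pE t.length t))|}}).toReal ≤
      e * c / 8 * gK (b + C) := by
    rw [gK_ofReal, ← ENNReal.ofReal_mul (by positivity)] at hE
    exact ENNReal.toReal_le_of_le_ofReal (by positivity) hE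
  have q4 : |TS k (fun t => Real.cos (u * thW k t)) - a ^ 2 * A| ≤ (e + max L 0 * |u|) * A := by
    have h1 : TS k (fun t => Real.cos (u * thW k t)) - a ^ 2 * A =
        (TS k (fun t => Real.cos (u * thW k t)) -
          TS k (fun t => Real.cos (u * (th r t.length (pS t) + th r t.length (pE t.length t))))) +
        (TS k (fun t => qS (cosP r u) t * qE (cosP r u) t) - a * TS k (qE (cosP r u))) +
        a * (TS k (qE (cosP r u)) - a * A) - TS k (fun t => qS (sinP r u) t * qE (sinP r u) t) := by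
      rw [q1]
      ring
    have h2 : |a * (TS k (qE (cosP r u)) - a * A)| ≤ e * c / 8 * gK (b + C) := by
      rw [abs_mul]
      calc _ ≤ 1 * (e * c / 8 * gK (b + C)) := mul_le_mul ha1 p3 (abs_nonneg _) zero_le_one
        _ = _ := one_mul _
    rw [abs_le] at p1 p2 h2 q2 ⊢
    have h3 : e * c / 8 * gK (b + C) ≤ e / 8 * A := by
      have := mul_le_mul_of_nonneg_left hl (by positivity : 0 ≤ e / 8)
      linarith
    have h4 : (e + max L 0 * |u|) * A = e * A + |u| * max L 0 * A := by ring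
    have h5 : 0 < e * A := by positivity
    rw [h4, h1]
    constructor <;> linarith [p1.1, p1.2, p2.1, p2.2, h2.1, h2.2, q2.1, q2.2]
  have q5 : Pool.Agent.CylSaw.angChar k u = ((TS k (fun t => Real.cos (u * thW k t)) / A : ℝ) : ℂ) := by
    rw [angChar_T hk1, hA, TS_one]
    rfl
  rw [← hk, q5, ← Complex.ofReal_pow, ← Complex.ofReal_sub, Complex.norm_real, Real.norm_eq_abs]
  have q6 : TS k (fun t => Real.cos (u * thW k t)) / A - a ^ 2 = (TS k (fun t => Real.cos (u * thW k t)) - a ^ 2 * A) / A := by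
    field_simp
  rw [q6, abs_div, abs_of_pos hA0, div_le_iff₀ hA0]
  exact q4

/-- **the hypothesis of the final theorem about the cylinder** -/
theorem tipCyl_of (hT : TipT (tent 0)) (hB : PWd.BoxTs) (hE : E1S)
    (hM : ∃ k0 : ℕ, ∀ k n : ℕ, k0 ≤ k → PW.mZ (2 ^ k) ≤ n → 0 < MA (tent 0) n) {Lg : ℝ} (hg : Bump Lg (tent 0)) :
    PW.TipCyl (fun k u => Pool.Agent.CylSaw.angChar k u) psiW := by
  intro e he
  obtain ⟨C0, h⟩ := two_tips hT hB hE hg hM he
  obtain ⟨k3, hM⟩ := hM
  obtain ⟨K0, hn⟩ := nref_sc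
  refine ⟨C0, fun C hC => ?_⟩
  obtain ⟨M, b0, h⟩ := h C hC
  refine ⟨M, ?_⟩
  filter_upwards [eventually_ge_atTop (max b0 (max k3 K0))] with b hb u
  have h1 : b0 ≤ b := (le_max_left _ _).trans hb
  have h2 : k3 ≤ b := (le_max_left _ _).trans ((le_max_right _ _).trans hb)
  have h3 : K0 ≤ b := (le_max_right _ _).trans ((le_max_right _ _).trans hb)
  have hSc := hn (b + C) (by omega)
  have h4 := h b h1 (nref (b + C)) hSc u
  have h5 : psiW C b u = ((EA (tent 0) (nref (b + C)) (qE (cosP (2 ^ b / 2) u)) : ℝ) : ℂ) := by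
    unfold psiW
    rw [if_pos (hM (b + C) _ (by omega) hSc.1), EA_sin]
    simp
  rw [h5]
  exact h4

end PWJ

end
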