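import Pool.Agent.TPC.EmbU
import Pool.Agent.PW.DefL
import Pool.Agent.WND.CylAng
import Pool.Agent.WND.SumW

/-!
# PW: the walks of the cylinder are words of the plane (helper41, (Fa) of row F)

* `TT k` : the words `t` of `SA` with `Dsj k t`, the end `(2 z + 1) (k, k)` for some integer `z`, and the last direction
  `(1, -1)` (perpendicular to `(k, k)`: the direction of the cut edge);
* `TT_iff` : these are the words `t` such that `false :: t` is a word of the cylinder;
* `sawT` : the walk of a word; `sawE` : with the reflection, a bijection `Bool × TT k ≃ CSaw k`;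
* **`angChar_T`** : the characteristic function of the winding angle is a mean of cosines over `TT k`.
-/

set_option autoImplicit false

noncomputable section

namespace HexObs

namespace PWT

open SDN LP TPC
open Pool.Agent.CylSaw (Wd wv wk wk_mem wk_inj wk_surj de_w dx_s vx_s step_cases ps co ps_A ps_B vt_cases tr_A tr_B wv_one
  wang angChar Z refl_refl rf zc_eq summable_wt)
open Pool.Agent.NUF.Cyl (Nm Cy pL tr ri)
open Pool.Agent.WND (word word_mem wk_word word_length word_inj word_wk)

/-- the walks of the cylinder as words of the plane -/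
def TT (k : ℕ) : Set (List Bool) := {t | t ∈ SA ∧ Dsj k t ∧
  (∃ z : ℤ, vx oo up t t.length = ((2 * z + 1) * k, (2 * z + 1) * k)) ∧ dx up t t.length = (1, -1)}

theorem vx_f (t : List Bool) (i : ℕ) : vx (pL 0).1 (pL 0).2 (false :: t) (i + 1) =
    (-(vx oo up t i).1, 1 - (vx oo up t i).2) := by
  rw [vx_fr2]
  refine Prod.ext ?_ ?_ <;> simp only [mulE, rho, Bool.false_eq_true, if_false, Prod.fst_add, Prod.snd_add] <;> ring

theorem dx_f (t : List Bool) (i : ℕ) : dx (pL 0).2 (false :: t) (i + 1) = (-(dx up t i).1, -(dx up t i).2) := by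
  rw [dx_fr2]
  refine Prod.ext ?_ ?_ <;> simp only [mulE, rho, Bool.false_eq_true, if_false] <;> ring

/-- equal vertices on the cylinder -/
theorem wv_eq {k : ℕ} {t : List Bool} {i j : ℕ} (h : wv k (false :: t) (i + 1) = wv k (false :: t) (j + 1)) :
    ∃ m : ℤ, vx oo up t i = vx oo up t j + (2 * (k : ℤ) * m, 2 * (k : ℤ) * m) := by
  obtain ⟨m, hm⟩ := tr_of_ps (de_w (false :: t) (i + 1)).2.1 (de_w (false :: t) (j + 1)).2.1 h
  have e2 : vx (pL 0).1 (pL 0).2 (false :: t) (i + 1) =
    tr ((2 * k : ℕ) * m) (vx (pL 0).1 (pL 0).2 (false :: t) (j + 1)) := hm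
  rw [vx_f, vx_f] at e2
  have e3 := congrArg Prod.fst e2
  have e4 := congrArg Prod.snd e2
  simp only [tr] at e3 e4
  push_cast at e3 e4
  refine ⟨-m, Prod.ext ?_ ?_⟩ <;> simp only [Prod.fst_add, Prod.snd_add] <;> linarith

theorem wv_eq' {k : ℕ} {t : List Bool} {i j : ℕ} {m : ℤ}
    (h : vx oo up t i = vx oo up t j + (2 * (k : ℤ) * m, 2 * (k : ℤ) * m)) :
    wv k (false :: t) (i + 1) = wv k (false :: t) (j + 1) := by
  show ps (2 * k) _ = ps (2 * k) _
  have e : vx (pL 0).1 (pL 0).2 (false :: t) (i + 1) =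
      tr ((2 * k : ℕ) * (-m)) (vx (pL 0).1 (pL 0).2 (false :: t) (j + 1)) := by
    rw [vx_f, vx_f, h]
    refine Prod.ext ?_ ?_ <;> simp only [tr, Prod.fst_add, Prod.snd_add] <;> push_cast <;> ring
  rw [e, Pool.Agent.CylSaw.ps_tr]

/-- **words of the plane and words of the cylinder** -/
theorem TT_iff {k : ℕ} (hk : 1 ≤ k) {t : List Bool} : t ∈ TT k ↔ false :: t ∈ Wd k t.length := by
  constructor
  · rintro ⟨h1, h2, ⟨z, h3⟩, h4⟩
    refine ⟨rfl, fun i j hi hij hj e => ?_, ?_, ?_⟩
    · obtain ⟨i', rfl⟩ : ∃ i', i = i' + 1 := ⟨i - 1, by omega⟩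
      obtain ⟨j', rfl⟩ : ∃ j', j = j' + 1 := ⟨j - 1, by omega⟩
      rw [List.length_cons] at hj
      obtain ⟨m, hm⟩ := wv_eq e
      rcases eq_or_ne m 0 with h0 | h0
      · subst h0
        refine h1.2 i' j' (by omega) (by omega) ?_
        rw [hm]
        refine Prod.ext ?_ ?_ <;> simp
      · exact h2 i' j' (by omega) (by omega) m h0 hm
    · show ps (2 * k) (vx (pL 0).1 (pL 0).2 (false :: t) (t.length + 1)) = _
      have e1 : vx (pL 0).1 (pL 0).2 (false :: t) (t.length + 1) = _root_.EXL.A 0 (-((2 * z + 1) * k)) := by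
        rw [vx_f, h3]
        refine Prod.ext ?_ ?_ <;> simp only [_root_.EXL.A] <;> ring
      rw [e1, ps_A]
      refine Prod.ext rfl (Prod.ext ?_ rfl)
      show (((-((2 * z + 1) * (k : ℤ)) : ℤ)) : ZMod (2 * k)) = (k : ZMod (2 * k))
      have e2 : ((2 : ZMod (2 * k)) * k) = 0 := by
        have := ZMod.natCast_self (2 * k)
        push_cast at this
        exact this
      push_cast
      linear_combination (-(z : ZMod (2 * k)) - 1) * e2
    · show dx (pL 0).2 (false :: t) (t.length + 1) = _
      rw [dx_f, h4]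
      rfl
  · rintro ⟨-, h2, h3, h4⟩
    rw [List.length_cons] at h3 h4
    have hinj : ∀ i j, i < j → j ≤ t.length → wv k (false :: t) (i + 1) ≠ wv k (false :: t) (j + 1) :=
      fun i j hij hj => h2 (i + 1) (j + 1) (by omega) (by omega) (by rw [List.length_cons]; omega)
    refine ⟨⟨fun i _ _ => Set.mem_univ _, fun i j hij hj e => ?_⟩, fun i j hi hj m hm e => ?_, ?_, ?_⟩
    · refine hinj i j hij hj ?_
      show ps (2 * k) _ = ps (2 * k) _
      rw [vx_f, vx_f, e]
    · rcases lt_trichotomy i j with h | h | h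
      · exact hinj i j h hj (wv_eq' e)
      · subst h
        have e1 := congrArg Prod.fst e
        simp only [Prod.fst_add] at e1
        have e2 : 2 * (k : ℤ) * m = 0 := by linarith
        have e3 : (2 * (k : ℤ)) ≠ 0 := by
          have : (1 : ℤ) ≤ k := by exact_mod_cast hk
          omega
        rcases mul_eq_zero.1 e2 with h5 | h5
        · exact e3 h5
        · exact hm h5
      · exact hinj j i h hi (wv_eq' e).symm
    · have e0 : ps (2 * k) (_root_.EXL.A 0 (k : ℤ)) = (0, (k : ZMod (2 * k)), false) := by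
        rw [ps_A, Int.cast_natCast]
      rw [← e0] at h3
      obtain ⟨m, hm⟩ := tr_of_ps (N := 2 * k) (de_w (false :: t) (t.length + 1)).2.1
        (Pool.Agent.CylSaw.Vt_A' 0 (k : ℤ)) h3
      simp only at hm
      rw [vx_f, tr_A] at hm
      have e3 := congrArg Prod.fst hm
      have e4 := congrArg Prod.snd hm
      simp only [_root_.EXL.A] at e3 e4
      push_cast at e3 e4
      refine ⟨-m - 1, Prod.ext ?_ ?_⟩ <;> simp only <;> linarith
    · rw [dx_f] at h4
      have e3 := congrArg Prod.fst h4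
      have e4 := congrArg Prod.snd h4
      simp only at e3 e4
      refine Prod.ext ?_ ?_ <;> simp only <;> linarith

/-! ### the bijection -/

variable {k : ℕ}

/-- the walks of the cylinder -/
abbrev CSaw (k : ℕ) : Type := Pool.Agent.CylSaw.Saw k

/-- the walk of a word -/
def sawT (hk : 1 ≤ k) (t : TT k) : CSaw k :=
  ⟨t.1.length, ⟨wk k t.1.length (false :: t.1), wk_mem hk ((TT_iff hk).1 t.2)⟩⟩

theorem word_sawT (hk : 1 ≤ k) (t : TT k) : word hk (sawT hk t) = false :: t.1 :=
  word_wk hk ((TT_iff hk).1 t.2)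

theorem saw_ext {w w' : CSaw k} (h : w.1 = w'.1) (h2 : ∀ i (hi : i < w.1 + 1) (hi' : i < w'.1 + 1),
    w.2.1 ⟨i, hi⟩ = w'.2.1 ⟨i, hi'⟩) : w = w' := by
  obtain ⟨n, w, hw⟩ := w
  obtain ⟨n', w', hw'⟩ := w'
  simp only at h
  subst h
  have h3 : w = w' := by
    funext i
    exact h2 i.1 i.2 i.2
  subst h3
  rfl

theorem wt_sawT (hk : 1 ≤ k) (t : TT k) : Pool.Agent.CylSaw.wt (sawT hk t) = xc ^ (t.1.length + 1) := by
  unfold Pool.Agent.CylSaw.wt sawT
  rw [zc_eq]

theorem ne_nil {t : List Bool} (ht : t ∈ TT k) : t ≠ [] := by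
  rintro rfl
  have := ht.2.2.2
  exact absurd this (by decide)

/-- the second vertex of a word of the cylinder -/
theorem wv_two (c : Bool) (t : List Bool) : wv k (c :: t) 2 = (0, if c then 0 else -1, true) := by
  have e1 : vx (pL 0).1 (pL 0).2 (c :: t) 2 = (0, 1) + mulE (rho c) (vx oo up t 1) := vx_fr2 c t 1
  have e2 : vx oo up t 1 = up := by
    show (oo : Pt) + up = up
    decide
  unfold wv
  rw [e1, e2]
  cases c
  · have e3 : (0, 1) + mulE (rho false) up = _root_.EXL.B 0 (-1) := by decide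
    rw [e3, ps_B]
    simp
  · have e3 : (0, 1) + mulE (rho true) up = _root_.EXL.B 0 0 := by decide
    rw [e3, ps_B]
    simp

theorem len_pos (hk : 1 ≤ k) (w : CSaw k) : 1 ≤ w.1 := by
  by_contra h
  have h0 : w.1 = 0 := by omega
  have h1 := word_mem hk w
  rw [h0] at h1
  obtain ⟨c, hc⟩ : ∃ c, word hk w = [c] := List.length_eq_one_iff.1 h1.1
  have h2 := h1.2.2.1
  rw [hc] at h2
  have h3 : wv k [c] 1 = (0, 0, false) := wv_one _
  have h4 : (0 : ZMod (2 * k)) = (k : ZMod (2 * k)) := congrArg (fun p => p.2.1) (h3.symm.trans h2)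
  have h5 : ((k : ℕ) : ZMod (2 * k)) = 0 := h4.symm
  rw [ZMod.natCast_eq_zero_iff] at h5
  have := Nat.le_of_dvd (by omega) h5
  omega

/-- the first letter of the word of a walk, from its second vertex -/
theorem word_cons (hk : 1 ≤ k) (w : CSaw k) : ∃ (c : Bool) (t : List Bool), word hk w = c :: t ∧ t.length = w.1 ∧ t ≠ [] ∧
    w.2.1 ⟨1, by have := len_pos hk w; omega⟩ = (0, if c then 0 else -1, true) := by
  have h1 := word_length hk w
  have h2 := len_pos hk w
  cases h3 : word hk w with
  | nil =>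
    rw [h3] at h1
    simp at h1
  | cons c t =>
    rw [h3, List.length_cons] at h1
    have h4 : t ≠ [] := by
      rintro rfl
      simp at h1
      omega
    refine ⟨c, t, rfl, by omega, h4, ?_⟩
    rw [← wv_two c t, ← h3, ← wk_word hk w]
    rfl

theorem zero_ne_neg_one (hk : 1 ≤ k) : (0 : ZMod (2 * k)) ≠ -1 := by
  intro h
  have h1 : ((1 : ℕ) : ZMod (2 * k)) = 0 := by
    rw [Nat.cast_one]
    exact neg_eq_zero.1 h.symm
  rw [ZMod.natCast_eq_zero_iff] at h1
  have := Nat.le_of_dvd one_pos h1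
  omega

theorem exists_T (hk : 1 ≤ k) {w : CSaw k} {t : List Bool} (h : word hk w = false :: t) :
    ∃ s : TT k, sawT hk s = w := by
  have h1 := word_mem hk w
  have h2 := h1.1
  rw [h] at h1
  rw [h, List.length_cons] at h2
  have h3 : t.length = w.1 := by omega
  have h4 : t ∈ TT k := (TT_iff hk).2 (by rw [h3]; exact h1)
  refine ⟨⟨t, h4⟩, word_inj hk ?_⟩
  rw [word_sawT, h]

theorem refl_snd (w : CSaw k) {i : ℕ} (hi : i < w.1 + 1) : (Pool.Agent.CylSaw.refl k w).2.1 ⟨i, hi⟩ = rf (w.2.1 ⟨i, hi⟩) := rfl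

/-- the words with the first letter true are the reflections of the others -/
theorem word_refl (hk : 1 ≤ k) {w : CSaw k} {c c' : Bool} {t t' : List Bool} (h : word hk w = c :: t)
    (h' : word hk (Pool.Agent.CylSaw.refl k w) = c' :: t') : c' = !c := by
  obtain ⟨d, s, h1, -, -, h2⟩ := word_cons hk w
  obtain ⟨d', s', h1', -, -, h2'⟩ := word_cons hk (Pool.Agent.CylSaw.refl k w)
  have e1 : d = c := by
    rw [h] at h1
    exact (List.cons.inj h1).1.symm
  have e2 : d' = c' := by
    rw [h'] at h1'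
    exact (List.cons.inj h1').1.symm
  subst e1 e2
  have h2'' : rf (w.2.1 ⟨1, by have := len_pos hk w; omega⟩) = (0, if d' then 0 else -1, true) := h2'
  clear h2'
  rw [h2] at h2''
  have h3 := congrArg (fun p => p.2.1) h2''
  simp only [rf] at h3
  have h0 : (1 : ZMod (2 * k)) ≠ 0 := fun e => zero_ne_neg_one hk (by rw [e, neg_zero])
  cases d <;> cases d'
  · exfalso
    simp at h3
    exact h0 h3
  · rfl
  · rfl
  · exfalso
    simp at h3
    exact h0 h3

/-- the walks as words and reflections of words -/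
def sawB (hk : 1 ≤ k) (p : Bool × TT k) : CSaw k := if p.1 then Pool.Agent.CylSaw.refl k (sawT hk p.2) else sawT hk p.2

theorem sawB_bij (hk : 1 ≤ k) : Function.Bijective (sawB hk) := by
  constructor
  · rintro ⟨c, t⟩ ⟨c', t'⟩ h
    have key : ∀ s s' : TT k, sawT hk s = sawT hk s' → s = s' := fun s s' e => by
      have e1 := congrArg (word hk) e
      rw [word_sawT, word_sawT] at e1
      exact Subtype.ext (List.cons.inj e1).2
    have key2 : ∀ s s' : TT k, sawT hk s ≠ Pool.Agent.CylSaw.refl k (sawT hk s') := fun s s' e => by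
      obtain ⟨d, r, h1, -⟩ := word_cons hk (Pool.Agent.CylSaw.refl k (sawT hk s'))
      have e2 := word_refl hk (word_sawT hk s') h1
      rw [← e, word_sawT] at h1
      have e3 := (List.cons.inj h1).1
      rw [e2] at e3
      exact absurd e3 (by decide)
    cases c <;> cases c'
    · simp only [sawB, Bool.false_eq_true, if_false] at h
      rw [key _ _ h]
    · simp only [sawB, Bool.false_eq_true, if_false, if_true] at h
      exact absurd h (key2 _ _)
    · simp only [sawB, Bool.false_eq_true, if_false, if_true] at h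
      exact absurd h.symm (key2 _ _)
    · simp only [sawB, if_true] at h
      have h1 := congrArg (Pool.Agent.CylSaw.refl k) h
      rw [refl_refl, refl_refl] at h1
      rw [key _ _ h1]
  · intro w
    obtain ⟨c, t, h1, -⟩ := word_cons hk w
    cases c
    · obtain ⟨s, hs⟩ := exists_T hk h1
      exact ⟨(false, s), by simp only [sawB, Bool.false_eq_true, if_false]; exact hs⟩
    · obtain ⟨c', t', h2, -⟩ := word_cons hk (Pool.Agent.CylSaw.refl k w)
      have h3 := word_refl hk h1 h2
      subst h3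
      obtain ⟨s, hs⟩ := exists_T hk h2
      refine ⟨(true, s), ?_⟩
      simp only [sawB, if_true]
      rw [hs, refl_refl]

/-- the bijection -/
def sawE (hk : 1 ≤ k) : Bool × TT k ≃ CSaw k := Equiv.ofBijective (sawB hk) (sawB_bij hk)

/-- the winding angle of a word -/
def thC (hk : 1 ≤ k) (t : TT k) : ℝ := wang (sawT hk t)

theorem wang_refl (hk : 1 ≤ k) (w : CSaw k) : wang (Pool.Agent.CylSaw.refl k w) = -wang w := by
  rw [Pool.Agent.CylSaw.wang_eq hk, Pool.Agent.CylSaw.wang_eq hk, Pool.Agent.CylSaw.cn_refl hk]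
  push_cast
  ring

/-- a sum over the walks -/
theorem tsum_saw (hk : 1 ≤ k) {f : CSaw k → ℝ} (hf : Summable f) :
    ∑' w, f w = ∑' t : TT k, (f (sawT hk t) + f (Pool.Agent.CylSaw.refl k (sawT hk t))) := by
  have h1 : Summable fun p : Bool × TT k => f (sawE hk p) := hf.comp_injective (sawE hk).injective
  rw [← (sawE hk).tsum_eq, h1.tsum_prod, tsum_fintype, Fintype.sum_bool, add_comm]
  have h2 : Summable fun t : TT k => f (sawE hk (false, t)) :=
    h1.comp_injective (i := fun t : TT k => (false, t)) fun a b h => (Prod.mk.inj h).2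
  have h3 : Summable fun t : TT k => f (sawE hk (true, t)) :=
    h1.comp_injective (i := fun t : TT k => (true, t)) fun a b h => (Prod.mk.inj h).2
  rw [← h2.tsum_add h3]
  rfl

theorem summable_T (hk : 1 ≤ k) : Summable fun t : TT k => xc ^ t.1.length := by
  have h1 : Summable fun w : CSaw k => Pool.Agent.CylSaw.wt w := summable_wt hk
  have h2 : Summable fun p : Bool × TT k => Pool.Agent.CylSaw.wt (sawE hk p) := h1.comp_injective (sawE hk).injective
  have h3 : Summable fun t : TT k => Pool.Agent.CylSaw.wt (sawE hk (false, t)) :=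
    h2.comp_injective (i := fun t : TT k => (false, t)) fun a b h => (Prod.mk.inj h).2
  have h4 : (fun t : TT k => Pool.Agent.CylSaw.wt (sawE hk (false, t))) = fun t : TT k => xc * xc ^ t.1.length := by
    funext t
    show Pool.Agent.CylSaw.wt (sawT hk t) = _
    rw [wt_sawT, pow_succ, mul_comm]
  rw [h4] at h3
  exact (summable_mul_left_iff xc_pos.ne').1 h3

theorem wt_refl (w : CSaw k) : Pool.Agent.CylSaw.wt (Pool.Agent.CylSaw.refl k w) = Pool.Agent.CylSaw.wt w := rfl

/-- the partition function -/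
theorem Z_T (hk : 1 ≤ k) : Z k = 2 * xc * ∑' t : TT k, xc ^ t.1.length := by
  unfold Z
  rw [tsum_saw hk (summable_wt hk), ← tsum_mul_left]
  refine tsum_congr fun t => ?_
  rw [wt_refl, wt_sawT, pow_succ]
  ring

/-- a mean of an even function of the winding angle -/
theorem tsum_even (hk : 1 ≤ k) {g : ℝ → ℝ} (hg : ∀ x, g (-x) = g x) {C : ℝ} (hC : ∀ x, |g x| ≤ C) :
    ∑' w : CSaw k, Pool.Agent.CylSaw.wt w * g (wang w) = 2 * xc * ∑' t : TT k, xc ^ t.1.length * g (thC hk t) := by
  have hs : Summable fun w : CSaw k => Pool.Agent.CylSaw.wt w * g (wang w) := by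
    refine Summable.of_norm_bounded ((summable_wt hk).mul_right C) fun w => ?_
    rw [norm_mul, Real.norm_eq_abs, Real.norm_eq_abs, abs_of_nonneg (Pool.Agent.CylSaw.wt_pos w).le]
    exact mul_le_mul_of_nonneg_left (hC _) (Pool.Agent.CylSaw.wt_pos w).le
  rw [tsum_saw hk hs, ← tsum_mul_left]
  refine tsum_congr fun t => ?_
  rw [wt_refl, wang_refl hk, hg, wt_sawT, pow_succ]
  unfold thC
  ring

theorem sum_T_pos (hk : 1 ≤ k) : 0 < ∑' t : TT k, xc ^ t.1.length := by
  have h1 := Pool.Agent.CylSaw.Z_pos hk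
  rw [Z_T hk] at h1
  exact (mul_pos_iff_of_pos_left (by have := xc_pos; positivity)).1 h1

/-- **the characteristic function of the winding angle** -/
theorem angChar_T (hk : 1 ≤ k) (u : ℝ) : angChar k u =
    (((∑' t : TT k, xc ^ t.1.length * Real.cos (u * thC hk t)) / (∑' t : TT k, xc ^ t.1.length) : ℝ) : ℂ) := by
  have h1 := Pool.Agent.CylSaw.angChar_real hk u
  rw [← h1]
  congr 1
  have h2 : (angChar k u).re = (∑' w : CSaw k, Pool.Agent.CylSaw.wt w * Real.cos (u * wang w)) / Z k := by
    unfold angChar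
    rw [Complex.div_ofReal_re]
    congr 1
    have h3 : Summable fun w : CSaw k => (Pool.Agent.CylSaw.wt w : ℂ) * Complex.exp (((u * wang w : ℝ) : ℂ) * Complex.I) := by
      refine Summable.of_norm_bounded (summable_wt hk) fun w => ?_
      rw [norm_mul, Complex.norm_exp_ofReal_mul_I, mul_one, Complex.norm_real, Real.norm_eq_abs,
        abs_of_nonneg (Pool.Agent.CylSaw.wt_pos w).le]
    rw [Complex.re_tsum h3]
    refine tsum_congr fun w => ?_
    rw [Complex.re_ofReal_mul, Complex.exp_ofReal_mul_I_re]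
  rw [h2, tsum_even hk (g := fun x => Real.cos (u * x)) (C := 1) (fun x => by rw [mul_neg, Real.cos_neg])
    (fun x => Real.abs_cos_le_one _), Z_T hk, mul_div_mul_left]
  have := xc_pos
  positivity

end PWT

end HexObs

end
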