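import Pool.Agent.NTS.Dict
import Pool.Agent.PW.RevW
import Pool.Agent.PW.Wind

/-!
# PW, row F (helper16): means over the walks with `n` steps and means over the words with `n` letters

For functions `g` that do not change under the rotation: `mean_words`. The windings `windS`, `windE` do not change under the
rotation (`windS_rot`, `windE_rot`) and are turns of the word (`windS_sw`, `windE_sw`).
-/

set_option autoImplicit false

noncomputable section

namespace NTSF

open Finset

open HexObs hiding pos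

open Pool.Agent.NTS.Res Pool.Agent.PW.Res

open NTF (sw aa de Ed JJ de_aa gf_card xcn_pos)

variable {n : ℕ}

/-! ### sums -/

/-- the walks whose first step has the direction a -/
theorem sum_rot (hn : 0 < n) (g : (Fin n → Fin 3) → ℂ) (hg : ∀ s, g (rot s) = g s) :
    ∑ s ∈ saw n, g s = 3 * ∑ s ∈ (saw n).filter (fun s => s ⟨0, hn⟩ = 0), g s := by
  have h1 : ∑ s ∈ saw n, g s = ∑ a : Fin 3, ∑ s ∈ (saw n).filter (fun s => s ⟨0, hn⟩ = a), g s :=
    (sum_fiberwise (saw n) (fun s => s ⟨0, hn⟩) g).symm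
  have h2 : ∀ a : Fin 3, ∑ s ∈ (saw n).filter (fun s => s ⟨0, hn⟩ = a + 1), g s =
      ∑ s ∈ (saw n).filter (fun s => s ⟨0, hn⟩ = a), g s := by
    intro a
    symm
    refine sum_bij (fun s _ => rot s) ?_ ?_ ?_ ?_
    · intro s hs
      rw [Finset.mem_filter] at hs ⊢
      refine ⟨rot_mem.2 hs.1, ?_⟩
      show s ⟨0, hn⟩ + 1 = a + 1
      rw [hs.2]
    · intro s _ s' _ h
      funext i
      have h3 : s i + 1 = s' i + 1 := congrFun h i
      exact add_right_cancel h3
    · intro s hs
      rw [Finset.mem_filter] at hs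
      have e : rot (fun i => s i - 1) = s := by
        funext i
        show s i - 1 + 1 = s i
        rw [sub_add_cancel]
      refine ⟨fun i => s i - 1, ?_, e⟩
      rw [Finset.mem_filter, ← rot_mem, e]
      refine ⟨hs.1, ?_⟩
      show s ⟨0, hn⟩ - 1 = a
      rw [hs.2, add_sub_cancel_right]
    · intro s _
      exact (hg s).symm
  rw [h1, Fin.sum_univ_three]
  have h3 := h2 0
  have h4 := h2 1
  rw [show (0 : Fin 3) + 1 = 1 from rfl] at h3
  rw [show (1 : Fin 3) + 1 = 2 from rfl] at h4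
  rw [h4, h3]
  ring

/-- the words of a walk -/
theorem sum_sw (hn : 0 < n) {S : Finset (List Bool)} (hS : ∀ t, t ∈ S ↔ t ∈ SawN n) (g : (Fin n → Fin 3) → ℂ) :
    ∑ t ∈ S, g (sw n t) = 2 * ∑ s ∈ (saw n).filter (fun s => s ⟨0, hn⟩ = 0), g s := by
  have h1 : ∑ p ∈ ((saw n).filter (fun s => s ⟨0, hn⟩ = 0)) ×ˢ (univ : Finset Bool), g p.1 =
      2 * ∑ s ∈ (saw n).filter (fun s => s ⟨0, hn⟩ = 0), g s := by
    rw [sum_product]
    simp only [sum_const, Finset.card_univ, Fintype.card_bool, nsmul_eq_mul]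
    rw [← mul_sum]
    norm_num
  rw [← h1]
  refine sum_bij (fun t _ => (sw n t, tf t (n - 1))) ?_ ?_ ?_ ?_
  · intro t ht
    rw [hS] at ht
    rw [Finset.mem_product, Finset.mem_filter]
    exact ⟨⟨sw_mem ht, sw_first hn t⟩, mem_univ _⟩
  · intro t ht t' ht' he
    rw [hS] at ht ht'
    exact sw_inj ht.1 ht'.1 (congrArg Prod.fst he) (congrArg Prod.snd he)
  · rintro ⟨s, b⟩ hp
    rw [Finset.mem_product, Finset.mem_filter] at hp
    obtain ⟨t, ht, e1, e2⟩ := sw_surj hn hp.1.1 hp.1.2 b
    refine ⟨t, (hS t).2 ht, ?_⟩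
    show (sw n t, tf t (n - 1)) = (s, b)
    rw [e1, e2]
  · intro t _
    rfl

/-- **the dictionary for means** -/
theorem mean_words (hn : 0 < n) {S : Finset (List Bool)} (hS : ∀ t, t ∈ S ↔ t ∈ SawN n) (g : (Fin n → Fin 3) → ℂ)
    (hg : ∀ s, g (rot s) = g s) :
    (∑ s ∈ saw n, g s) / ((saw n).card : ℂ) = (∑ t ∈ S, g (sw n t)) / (S.card : ℂ) := by
  have h1 := sum_rot hn g hg
  have h2 := sum_sw hn hS g
  have h3 := sum_rot hn (fun _ => 1) (fun _ => rfl)
  have h4 := sum_sw hn hS (fun _ => 1)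
  rw [sum_const, nsmul_eq_mul, mul_one] at h3 h4
  rw [h1, h2, h3, h4]
  have h5 : (saw n).card ≠ 0 := (saw_nonempty n).card_pos.ne'
  have h6 : ((saw n).card : ℂ) ≠ 0 := by exact_mod_cast h5
  rw [h3] at h6
  have h7 : (∑ s ∈ (saw n).filter (fun s => s ⟨0, hn⟩ = 0), (1 : ℂ)) ≠ 0 := fun h => h6 (by rw [h, mul_zero])
  field_simp

/-! ### the windings -/

theorem windS_rot (s : Fin n → Fin 3) (k : ℕ) : windS (rot s) k = windS s k := by
  unfold windS
  refine sum_congr rfl fun i _ => ?_
  rw [pos_rot, pos_rot, mul_div_mul_left _ _ om_ne]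

theorem windE_rot (s : Fin n → Fin 3) (k : ℕ) : windE (rot s) k = windE s k := by
  unfold windE
  refine sum_congr rfl fun i _ => ?_
  rw [pos_rot, pos_rot, pos_rot, ← mul_sub, ← mul_sub, mul_div_mul_left _ _ om_ne]

/-- the winding around the starting point as a turn of the word -/
theorem windS_sw (t : List Bool) {k : ℕ} (hk : k ≤ n) :
    windS (sw n t) k = HexObs.PWd.turn (fun i => JJ (vx oo up t i)) 1 k := by
  unfold windS HexObs.PWd.turn
  refine sum_congr rfl fun i hi => ?_
  rw [Finset.mem_Ico] at hi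
  rw [pos_sw n t _ (by omega), pos_sw n t _ (by omega)]

/-- the winding around the end point as a turn of the word -/
theorem windE_sw (t : List Bool) {k : ℕ} (hk : k ≤ n) :
    windE (sw n t) k =
      HexObs.PWd.turn (fun i => JJ (vx oo up t (n - i)) - JJ (vx oo up t n)) 1 k := by
  unfold windE HexObs.PWd.turn
  refine sum_congr rfl fun i hi => ?_
  rw [Finset.mem_Ico] at hi
  rw [pos_sw n t (n - (i + 1)) (by omega), pos_sw n t (n - i) (by omega), pos_sw n t n le_rfl]

end NTSF

end
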