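import Pool.Agent.PW.FinU
import Pool.Agent.PW.JointE
import Pool.Agent.PW.CylLim
import Pool.Agent.PW.Cdf

/-!
# PW, row F (helper16): the final form, from the winding on the cylinder
-/

set_option autoImplicit false

noncomputable section

open MeasureTheory ProbabilityTheory Filter Topology
open scoped ENNReal NNReal BoundedContinuousFunction

namespace NTSF

open Pool.Agent.NTS.Res Pool.Agent.PW.Res

open Cg

/-- **the winding and the curve**, from `TipCyl` -/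
theorem final_of (h : PW.TipCyl (fun k u => Pool.Agent.CylSaw.angChar k u) psiW) (I : Finset ℝ≥0) (hI : ∀ s ∈ I, s ≤ 1)
    (F : (C(unitInterval, ℂ) × (I → ℝ)) →ᵇ ℝ) :
    Tendsto (fun n : ℕ => (∑ w ∈ saw n, F (curve w, fun s => windS w (tm n s) / √(2 * Real.log n))) / ((saw n).card : ℝ) -
      ∫ γ, (∫ y, F (γ, y) ∂(BrownianReal.projectiveFamily I)) ∂(law n)) atTop (𝓝 0) ∧
    Tendsto (fun n : ℕ => (∑ w ∈ saw n, F (curve w, fun s => windE w (tm n s) / √(2 * Real.log n))) / ((saw n).card : ℝ) -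
      ∫ γ, (∫ y, F (γ, y) ∂(BrownianReal.projectiveFamily I)) ∂(law n)) atTop (𝓝 0) := by
  have h1 := fun (I : Finset ℝ≥0) (hI : ∀ s ∈ I, s ≤ 1) (F : (C(unitInterval, ℂ) × (I → ℝ)) →ᵇ ℝ) =>
    joint_all (charW_of_cyl PW.cylLim h) I hI F
  exact ⟨h1 I hI F, joint_end h1 I hI F⟩

/-- the three clauses -/
theorem final3_of (h : PW.TipCyl (fun k u => Pool.Agent.CylSaw.angChar k u) psiW) :
    (∀ x : ℝ, Tendsto (fun n : ℕ => (((saw n).filter fun w => windS w n ≤ x * √(Real.log n)).card : ℝ) /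
      ((saw n).card : ℝ)) atTop (𝓝 ((gaussianReal 0 2).real (Set.Iic x)))) ∧
    ∀ (I : Finset ℝ≥0), (∀ s ∈ I, s ≤ 1) → ∀ F : (C(unitInterval, ℂ) × (I → ℝ)) →ᵇ ℝ,
      Tendsto (fun n : ℕ => (∑ w ∈ saw n, F (curve w, fun s => windS w (tm n s) / √(2 * Real.log n))) /
        ((saw n).card : ℝ) - ∫ γ, (∫ y, F (γ, y) ∂(BrownianReal.projectiveFamily I)) ∂(law n)) atTop (𝓝 0) ∧
      Tendsto (fun n : ℕ => (∑ w ∈ saw n, F (curve w, fun s => windE w (tm n s) / √(2 * Real.log n))) /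
        ((saw n).card : ℝ) - ∫ γ, (∫ y, F (γ, y) ∂(BrownianReal.projectiveFamily I)) ∂(law n)) atTop (𝓝 0) :=
  ⟨PW.cdf_of (charW_of_cyl PW.cylLim h), fun I hI F => final_of h I hI F⟩

end NTSF

end
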