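import Pool.Agent.PW.StartZ

/-!
PW: local bridges made of five bridges of comparable heights (`Z5`) and their frequency in the free bridges.
-/

set_option autoImplicit false

namespace HexObs

namespace TIP

open Finset TS SDN SIM NTA

open scoped ENNReal

/-- local bridges of the scale b: five bridges of comparable heights -/
def Z5 (C b : ℕ) : Set (List Bool) :=
  {Z | ∃ V0 V1 V2 V3 V4, Z = V0 ++ (V1 ++ (V2 ++ (V3 ++ V4))) ∧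
    (V0 ∈ BU ∧ 2 ^ (b + 1) ≤ hgt V0 ∧ hgt V0 ≤ 2 ^ (b + 3)) ∧ (V1 ∈ BU ∧ 2 ^ (b + 1) ≤ hgt V1 ∧ hgt V1 ≤ 2 ^ (b + 3)) ∧
    (V2 ∈ BU ∧ 2 ^ (b + 1) ≤ hgt V2 ∧ hgt V2 ≤ 2 ^ (b + 3)) ∧ (V3 ∈ BU ∧ 2 ^ (b + 1) ≤ hgt V3 ∧ hgt V3 ≤ 2 ^ (b + 3)) ∧
    (V4 ∈ BU ∧ 2 ^ (b + 1) ≤ hgt V4 ∧ hgt V4 ≤ 2 ^ (b + 3)) ∧ In (C * 2 ^ b) Z}

namespace Fp

/-- five bridges and one more bridge behind them -/
def S5 (C b : ℕ) : Set (List Bool) := {G | ∃ Z ∈ Z5 C b, ∃ G' ∈ BU, G' ≠ [] ∧ G = Z ++ G'}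

/-- a positive fraction of the bridges of every height -/
lemma S5_mass : ∃ (c : ℝ) (b0 : ℕ), 0 < c ∧ ∀ b t : ℕ, b0 ≤ b → 22 * 2 ^ b ≤ t →
    ENNReal.ofReal (c * uu t) ≤ gf {G | G ∈ Brd t ∧ G ∈ S5 40 b} := by
  obtain ⟨c1, t1, hc1, hV⟩ := Vb_mass 0 1
  refine ⟨c1 ^ 5, t1, by positivity, fun b t hb ht => ?_⟩
  have hpb : b < 2 ^ b := Nat.lt_two_pow_self
  have hp1 : 2 ^ (b + 1) = 2 * 2 ^ b := by rw [pow_succ]; ring
  have hp0 : 1 ≤ 2 ^ b := Nat.one_le_two_pow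
  have m1 := hV (2 ^ (b + 1)) (2 ^ (b + 1)) 0 (by omega) (by simp) (by omega) le_rfl
  obtain ⟨S1, hS1⟩ : ∃ S1, S1 = Vb (2 ^ (b + 1)) 0 (2 ^ (b + 1)) := ⟨_, rfl⟩
  rw [← hS1] at m1
  have o1 : Ok (4 * 2 ^ b) c1 S1 := by
    refine ⟨fun V h => ?_, fun V h V' h' X hX X' hX' he => ?_, m1⟩
    · rw [hS1] at h
      have a1 := h.1.2.2.1
      exact ⟨h.1.1, by omega⟩
    · rw [hS1] at h h'
      exact Vb_pf h h' hX hX' he
  have hOk : ∀ S ∈ [S1, S1, S1, S1, S1], Ok (4 * 2 ^ b) c1 S := by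
    intro S hS
    simp only [List.mem_cons, List.not_mem_nil, or_false, or_self] at hS
    rw [hS]
    exact o1
  have hlen : [S1, S1, S1, S1, S1].length * (4 * 2 ^ b) ≤ t := by
    simp only [List.length_cons, List.length_nil]
    omega
  have k1 := Pr_mass hc1.le [S1, S1, S1, S1, S1] t hOk hlen
  refine le_trans k1 (gf_mono ?_)
  intro G hG
  refine ⟨Pr_Brd _ t hOk hlen hG, ?_⟩
  obtain ⟨V0, h0, W0, ⟨V1, h1, W1, ⟨V2, h2, W2, ⟨V3, h3, W3, ⟨V4, h4, G', hG', e4⟩, e3⟩, e2⟩, e1⟩, e0⟩ := hG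
  rw [hS1] at h0 h1 h2 h3 h4
  have hG'' : G' ∈ Brd (t - hgt V0 - hgt V1 - hgt V2 - hgt V3 - hgt V4) := hG'
  have key : ∀ V ∈ Vb (2 ^ (b + 1)) 0 (2 ^ (b + 1)), V ∈ BU ∧ 2 ^ (b + 1) ≤ hgt V ∧ hgt V ≤ 2 ^ (b + 3) := by
    intro V hV
    have a1 := hV.1.2.2.1
    have hp3 : 2 ^ (b + 3) = 8 * 2 ^ b := by rw [pow_add]; ring
    exact ⟨hV.1.1, hV.1.2.1, by omega⟩
  have b0 := h0.1.2.2.1
  have b1 := h1.1.2.2.1
  have b2 := h2.1.2.2.1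
  have b3 := h3.1.2.2.1
  have b4 := h4.1.2.2.1
  refine ⟨V0 ++ (V1 ++ (V2 ++ (V3 ++ V4))), ⟨V0, V1, V2, V3, V4, rfl, key V0 h0, key V1 h1, key V2 h2, key V3 h3,
    key V4 h4, ?_⟩, G', ⟨_, hG''⟩, ?_, ?_⟩
  · intro i hi
    refine Bl_mono _ ?_ (Es.cat_in h0.1.1 (fun i hi => Es.Tb_in h0.1 hi) (fun i hi => Es.cat_in h1.1.1
      (fun i hi => Es.Tb_in h1.1 hi) (fun i hi => Es.cat_in h2.1.1 (fun i hi => Es.Tb_in h2.1 hi) (fun i hi =>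
      Es.cat_in h3.1.1 (fun i hi => Es.Tb_in h3.1 hi) (fun i hi => Es.Tb_in h4.1 hi) hi) hi) hi) hi)
    rw [pow_succ]
    omega
  · rintro rfl
    have h5 := Brd_height hG'' nil_mem_Brd
    omega
  · rw [e0, e1, e2, e3, e4]
    simp only [List.append_assoc]

end Fp

open Fp

/-- **free bridges without five consecutive bridges of comparable heights in a box are rare** -/
theorem free5 : FreeG (Z5 40) := by
  obtain ⟨c, b0, hc, hM⟩ := S5_mass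
  intro ε hε
  obtain ⟨C', hC', h⟩ := SIM.rare hc hε
  have hlt : 11 * C' < 2 ^ (11 * C') := Nat.lt_two_pow_self
  refine ⟨11 * C', b0, fun b h1 hb hh => le_trans (gf_mono ?_) (h (11 * 2 ^ b) (S5 40 b) ?_ ?_ h1 ?_)⟩
  · rintro Z ⟨hZ, hN⟩
    refine ⟨hZ, ?_⟩
    rintro ⟨A, G, B, hA, ⟨Z', hZ', G', hG', hne, rfl⟩, hB, he⟩
    refine hN A Z' (G' ++ B) ?_ ?_ hZ'
    · rw [he]
      simp only [List.append_assoc]
    · intro h0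
      exact hne (List.append_eq_nil_iff.1 h0).1
  · have : 1 ≤ 2 ^ b := Nat.one_le_two_pow
    omega
  · intro t ht _
    exact hM b t hb (by omega)
  · calc C' * (11 * 2 ^ b) = 2 ^ b * (11 * C') := by ring
      _ ≤ 2 ^ b * 2 ^ (11 * C') := Nat.mul_le_mul_left _ hlt.le
      _ = 2 ^ (b + 11 * C') := by rw [pow_add]
      _ ≤ h1 := hh

end TIP

namespace PW

open Finset TS SDN NTW NTA SIM JNT TIP TPC

open scoped ENNReal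

/-- **near the start there are five consecutive bridges of comparable heights** -/
theorem start5 : ∀ (ε : ℝ) (c1 : ℕ), 0 < ε → ∃ c k0 : ℕ, c1 ≤ c ∧ c ≤ Nat.log 2 k0 ∧ ∀ (k : ℕ) (y : Pt), k0 ≤ k →
    gf {t | t ∈ SA ∧ Dsj k t ∧ labE t = y ∧ (∃ i, i ≤ t.length ∧ vx oo up t i ∉ Bl oo (2 ^ (Nat.log 2 k - c1))) ∧
      t ∉ StZ (Z5 40) (Nat.log 2 k - c) (2 ^ (Nat.log 2 k - c1))} ≤ ENNReal.ofReal ε * gg (Nat.log 2 k) :=
  startZ_one free5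

end PW

end HexObs
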