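import Pool.Agent.PW.RegG

/-!
PW: local bridges with two groups of many cuts (`ZP`, helper75 / helper29) and their frequency in the free bridges
(`freeP : FreeG (ZP κ C)`); the proof of TIP/FreeZ (helper69) for a product of any number of classes.
-/

set_option autoImplicit false

namespace HexObs

namespace TIP

open Finset TS SDN SIM NTA

open scoped ENNReal

/-- local bridges of the scale b with two groups of many cuts -/
def ZP (κ : ℝ) (C b : ℕ) : Set (List Bool) :=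
  {Z | ∃ V0 V1 V2 V3 V4, Z = V0 ++ (V1 ++ (V2 ++ (V3 ++ V4))) ∧ V0 ∈ BU ∧ V1 ∈ BU ∧ V2 ∈ BU ∧ V3 ∈ BU ∧ V4 ∈ BU ∧
    2 ^ (b + 1) ≤ hgt V0 ∧ 2 ^ (b + 1) ≤ hgt V2 ∧ 2 ^ (b + 1) ≤ hgt V4 ∧ hgt V1 ≤ 2 ^ b ∧ hgt V3 ≤ 2 ^ b ∧
    κ * Ub b ≤ (nc V1 : ℝ) ∧ κ * Ub b ≤ (nc V3 : ℝ) ∧ In (C * 2 ^ b) Z}

namespace Fp

/-- words of the classes Ss one after the other and then a bridge, the total height t -/
def Pr : List (Set (List Bool)) → ℕ → Set (List Bool)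
  | [], t => Brd t
  | S :: Ss, t => {G | ∃ V ∈ S, ∃ W ∈ Pr Ss (t - hgt V), G = V ++ W}

/-- a prefix-free class of bridges of height at most H -/
def Ok (H : ℕ) (c : ℝ) (S : Set (List Bool)) : Prop := (∀ V ∈ S, V ∈ BU ∧ hgt V ≤ H) ∧
  (∀ V ∈ S, ∀ V' ∈ S, ∀ X ∈ BU, ∀ X' ∈ BU, V ++ X = V' ++ X' → V = V') ∧ ENNReal.ofReal c ≤ gf S

lemma Pr_Brd {H : ℕ} {c : ℝ} : ∀ (Ss : List (Set (List Bool))) (t : ℕ), (∀ S ∈ Ss, Ok H c S) → Ss.length * H ≤ t →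
    Pr Ss t ⊆ Brd t := by
  intro Ss
  induction Ss with
  | nil => intro t _ _ G h; exact h
  | cons S Ss ih =>
    rintro t hO ht G ⟨V, hV, W, hW, rfl⟩
    obtain ⟨h1, h2⟩ := (hO S List.mem_cons_self).1 V hV
    rw [List.length_cons, add_mul, one_mul] at ht
    have h3 := ih (t - hgt V) (fun S hS => hO S (List.mem_cons_of_mem _ hS)) (by omega) hW
    have h4 := Brd_append (BU_hgt h1) h3
    rwa [show hgt V + (t - hgt V) = t by omega] at h4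

theorem Pr_mass {H : ℕ} {c : ℝ} (hc : 0 ≤ c) : ∀ (Ss : List (Set (List Bool))) (t : ℕ), (∀ S ∈ Ss, Ok H c S) →
    Ss.length * H ≤ t → ENNReal.ofReal (c ^ Ss.length * uu t) ≤ gf (Pr Ss t) := by
  intro Ss
  induction Ss with
  | nil =>
    intro t _ _
    show _ ≤ gf (Brd t)
    rw [gf_Brd, CuLogAux.bt_eq, List.length_nil, pow_zero, one_mul]
  | cons S Ss ih =>
    intro t hO ht
    have hS := hO S List.mem_cons_self
    have hO' : ∀ S ∈ Ss, Ok H c S := fun S hS => hO S (List.mem_cons_of_mem _ hS)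
    rw [List.length_cons, add_mul, one_mul] at ht
    rw [List.length_cons, pow_succ', mul_assoc, ENNReal.ofReal_mul hc]
    refine (mul_le_mul_left hS.2.2 _).trans ?_
    refine gf_dep_ge (A := S) (Q := fun V => Pr Ss (t - hgt V)) ?_ ?_ ?_
    · intro V hV W hW
      exact ⟨V, hV, W, hW, rfl⟩
    · intro V hV W hW V' hV' W' hW' he
      have h1 := (hS.1 V hV).2
      have h2 := (hS.1 V' hV').2
      exact hS.2.1 V hV V' hV' W ⟨_, Pr_Brd Ss _ hO' (by omega) hW⟩ W' ⟨_, Pr_Brd Ss _ hO' (by omega) hW'⟩ he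
    · intro V hV
      have h1 := (hS.1 V hV).2
      refine le_trans (ENNReal.ofReal_le_ofReal ?_) (ih (t - hgt V) hO' (by omega))
      exact mul_le_mul_of_nonneg_left (uu_anti (Nat.sub_le _ _)) (by positivity)

/-- a local bridge with two groups of many cuts and one more bridge behind it -/
def SP (κ : ℝ) (C b : ℕ) : Set (List Bool) := {G | ∃ Z ∈ ZP κ C b, ∃ G' ∈ BU, G' ≠ [] ∧ G = Z ++ G'}

/-- a positive fraction of the bridges of every height -/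
lemma SP_mass : ∃ (κ c : ℝ) (b0 : ℕ), 0 < κ ∧ 0 < c ∧ ∀ b t : ℕ, b0 ≤ b → 22 * 2 ^ b ≤ t →
    ENNReal.ofReal (c * uu t) ≤ gf {G | G ∈ Brd t ∧ G ∈ SP κ 28 b} := by
  obtain ⟨c1, t1, hc1, hV⟩ := Vb_mass 0 1
  obtain ⟨c2, κ, r0, hc2, hκ, hU⟩ := Um_mass
  have hc0 : 0 < min c1 c2 := lt_min hc1 hc2
  refine ⟨κ, min c1 c2 ^ 5, t1 + r0, hκ, by positivity, fun b t hb ht => ?_⟩
  have hpb : b < 2 ^ b := Nat.lt_two_pow_self
  have hp1 : 2 ^ (b + 1) = 2 * 2 ^ b := by rw [pow_succ]; ring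
  have hp0 : 1 ≤ 2 ^ b := Nat.one_le_two_pow
  obtain ⟨m, hm⟩ : ∃ m : ℕ, m = ⌈κ * UU (2 ^ b)⌉₊ := ⟨_, rfl⟩
  have hUr := Num2Aux.UU_pos (2 ^ b)
  have hm1 : (m : ℝ) ≤ κ * UU (2 ^ b) + 1 := by
    rw [hm]
    exact (Nat.ceil_lt_add_one (by positivity)).le
  have hm2 : κ * Ub b ≤ m := by
    rw [hm]
    exact Nat.le_ceil _
  have m1 := hV (2 ^ (b + 1)) (2 ^ (b + 1)) 0 (by omega) (by simp) (by omega) le_rfl
  have m2 := hU m (2 ^ b) (by omega) hm1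
  obtain ⟨S1, hS1⟩ : ∃ S1, S1 = Vb (2 ^ (b + 1)) 0 (2 ^ (b + 1)) := ⟨_, rfl⟩
  obtain ⟨S2, hS2⟩ : ∃ S2, S2 = Um m (2 ^ b) := ⟨_, rfl⟩
  rw [← hS1] at m1
  rw [← hS2] at m2
  have o1 : Ok (4 * 2 ^ b) (min c1 c2) S1 := by
    refine ⟨fun V h => ?_, fun V h V' h' X hX X' hX' he => ?_, (ENNReal.ofReal_le_ofReal (min_le_left _ _)).trans m1⟩
    · rw [hS1] at h
      have a1 := h.1.2.2.1
      exact ⟨h.1.1, by omega⟩
    · rw [hS1] at h h'
      exact Vb_pf h h' hX hX' he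
  have o2 : Ok (4 * 2 ^ b) (min c1 c2) S2 := by
    refine ⟨fun V h => ?_, fun V h V' h' X hX X' hX' he => ?_, (ENNReal.ofReal_le_ofReal (min_le_right _ _)).trans m2⟩
    · rw [hS2] at h
      have a1 := h.2.1
      exact ⟨Ir_BU h.1, by omega⟩
    · rw [hS2] at h h'
      exact Ir_pf h.1 h'.1 hX hX' he
  have hOk : ∀ S ∈ [S1, S2, S1, S2, S1], Ok (4 * 2 ^ b) (min c1 c2) S := by
    intro S hS
    simp only [List.mem_cons, List.not_mem_nil, or_false] at hS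
    rcases hS with rfl | rfl | rfl | rfl | rfl
    · exact o1
    · exact o2
    · exact o1
    · exact o2
    · exact o1
  have hlen : [S1, S2, S1, S2, S1].length * (4 * 2 ^ b) ≤ t := by
    simp only [List.length_cons, List.length_nil]
    omega
  have k1 := Pr_mass hc0.le [S1, S2, S1, S2, S1] t hOk hlen
  refine le_trans k1 (gf_mono ?_)
  intro G hG
  refine ⟨Pr_Brd _ t hOk hlen hG, ?_⟩
  obtain ⟨V0, h0, W0, ⟨V1, h1, W1, ⟨V2, h2, W2, ⟨V3, h3, W3, ⟨V4, h4, G', hG', e4⟩, e3⟩, e2⟩, e1⟩, e0⟩ := hG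
  rw [hS1] at h0 h2 h4
  rw [hS2] at h1 h3
  have hG'' : G' ∈ Brd (t - hgt V0 - hgt V1 - hgt V2 - hgt V3 - hgt V4) := hG'
  have b0 := h0.1.2.2.1
  have b1 := h1.2.1
  have b2 := h2.1.2.2.1
  have b3 := h3.2.1
  have b4 := h4.1.2.2.1
  have hcut : ∀ U ∈ Um m (2 ^ b), κ * Ub b ≤ (nc U : ℝ) := by
    intro U hU
    have a1 := Ir_cuts hU.1
    have a2 := Fz.cuts_le_nc U
    have a3 : (m : ℝ) ≤ nc U := by
      have : m ≤ nc U := by omega
      exact_mod_cast this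
    exact hm2.trans a3
  refine ⟨V0 ++ (V1 ++ (V2 ++ (V3 ++ V4))), ⟨V0, V1, V2, V3, V4, rfl, h0.1.1, Ir_BU h1.1, h2.1.1, Ir_BU h3.1, h4.1.1,
    h0.1.2.1, h2.1.2.1, h4.1.2.1, h1.2.1, h3.2.1, hcut V1 h1, hcut V3 h3, ?_⟩, G', ⟨_, hG''⟩, ?_, ?_⟩
  · intro i hi
    refine Bl_mono _ ?_ (Es.cat_in h0.1.1 (fun i hi => Es.Tb_in h0.1 hi) (fun i hi => Es.cat_in (Ir_BU h1.1)
      (fun i hi => Fz.Um_in h1 hi) (fun i hi => Es.cat_in h2.1.1 (fun i hi => Es.Tb_in h2.1 hi) (fun i hi =>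
      Es.cat_in (Ir_BU h3.1) (fun i hi => Fz.Um_in h3 hi) (fun i hi => Es.Tb_in h4.1 hi) hi) hi) hi) hi)
    rw [pow_succ]
    omega
  · rintro rfl
    have h5 := Brd_height hG'' nil_mem_Brd
    omega
  · rw [e0, e1, e2, e3, e4]
    simp only [List.append_assoc]

end Fp

open Fp

/-- **free bridges without a local bridge with two groups of many cuts are rare** -/
theorem freeP : ∃ κ : ℝ, 0 < κ ∧ ∃ C : ℕ, FreeG (ZP κ C) := by
  obtain ⟨κ, c, b0, hκ, hc, hM⟩ := SP_mass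
  refine ⟨κ, hκ, 28, fun ε hε => ?_⟩
  obtain ⟨C', hC', h⟩ := SIM.rare hc hε
  have hlt : 11 * C' < 2 ^ (11 * C') := Nat.lt_two_pow_self
  refine ⟨11 * C', b0, fun b h1 hb hh => le_trans (gf_mono ?_) (h (11 * 2 ^ b) (SP κ 28 b) ?_ ?_ h1 ?_)⟩
  · rintro Z ⟨hZ, hN⟩
    refine ⟨hZ, ?_⟩
    rintro ⟨A, G, B, hA, ⟨Z', hZ', G', hG', hne, rfl⟩, hB, he⟩
    refine hN A Z' (G' ++ B) ?_ ?_ hZ'
    · rw [he]
      simp only [List.append_assoc]
    · intro h0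
      exact hne (List.append_eq_nil_iff.1 h0).1
  · have : 1 ≤ 2 ^ b := Nat.one_le_two_pow
    omega
  · intro t ht _
    exact hM b t hb (by omega)
  · calc C' * (11 * 2 ^ b) = 2 ^ b * (11 * C') := by ring
      _ ≤ 2 ^ b * 2 ^ (11 * C') := Nat.mul_le_mul_left _ hlt.le
      _ = 2 ^ (b + 11 * C') := by rw [pow_add]
      _ ≤ h1 := hh

end TIP

end HexObs
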