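import Pool.Agent.PW.CutG
import Pool.Agent.PW.Free5
import Pool.Agent.TIP.RevM

/-!
PW, row DomT, the geometry: a local bridge of the class Z5 near the start gives three nested bridges with marked cuts
(`Cut3G`): heads whose reversed word starts with a bridge, tails that start with a bridge, all directions at once.
-/

set_option autoImplicit false

namespace HexObs

namespace PW

open Finset TS SDN NTW NTA SIM TIP TIP.RevM

open scoped ENNReal

namespace G5

lemma co_of_row {v : Pt} {B : ℤ} (h : ∀ dir, |row dir v| ≤ B) : |v.1| ≤ 3 * B + 2 ∧ |v.2| ≤ 3 * B + 2 := by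
  have h1 := h false
  have h2 := h true
  obtain ⟨x, y⟩ := v
  unfold row lvl ip hd up at h1 h2
  simp only [Bool.false_eq_true, if_false, if_true] at h1 h2
  rw [abs_le] at *
  rw [abs_le]
  constructor <;> constructor <;> omega

/-- coordinates in another frame -/
lemma co_frame {c : Pt} (hc : c ∈ dirs) {v : Pt} {B : ℤ} (h1 : |(mulE c v).1| ≤ B) (h2 : |(mulE c v).2| ≤ B) :
    |v.1| ≤ 2 * B ∧ |v.2| ≤ 2 * B := by
  obtain ⟨x, y⟩ := v
  simp only [dirs, mem_insert, mem_singleton] at hc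
  rw [abs_le] at *
  rw [abs_le]
  rcases hc with rfl | rfl | rfl | rfl | rfl | rfl <;> simp only [mulE] at * <;> constructor <;> constructor <;> omega

/-- the rest of a word of the box -/
lemma drop_box {t : List Bool} {K : ℕ} (ht : t ∈ WL K) (hK : 2 ≤ K) {j : ℕ} (hj : j ≤ t.length) :
    t.drop j ∈ WL (K + 4) := by
  obtain ⟨c, hc, -, hf⟩ := drop_frame' t j
  refine ⟨SA_drop ht.1 j, fun i hi dir => ?_⟩
  rw [List.length_drop] at hi
  obtain ⟨a1, a2⟩ := co_of_row (ht.2 (j + i) (by omega))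
  obtain ⟨b1, b2⟩ := co_of_row (ht.2 j hj)
  obtain ⟨c1, c2⟩ := coord (hf i) a1 b1 a2 b2
  refine (row_of hc c1 c2 dir).trans ?_
  have h4 : (4 : ℤ) ≤ 2 ^ K := by
    calc (4 : ℤ) = 2 ^ 2 := by norm_num
      _ ≤ _ := pow_le_pow_right₀ (by norm_num) hK
  rw [pow_add]
  linarith

/-- a factor of a word of a ball -/
lemma In_fac {D : ℕ} {Z X V Y : List Bool} (h : In D Z) (he : Z = X ++ (V ++ Y)) : In (4 * D) V := by
  intro i hi
  obtain ⟨c, hc, -, hf⟩ := drop_frame' Z X.length
  have hlen : Z.length = X.length + (V.length + Y.length) := by rw [he, List.length_append, List.length_append]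
  obtain ⟨a1, a2⟩ := In_coord h (i := X.length + i) (by omega)
  obtain ⟨b1, b2⟩ := In_coord h (i := X.length) (by omega)
  obtain ⟨c1, c2⟩ := coord (hf i) a1 b1 a2 b2
  have e1 : vx oo up (Z.drop X.length) i = vx oo up V i := by
    rw [he, List.drop_left]
    exact vx_append (by omega)
  rw [e1] at c1 c2
  obtain ⟨d1, d2⟩ := co_frame hc c1 c2
  have e2 : (oo : Pt).1 = 0 := rfl
  have e3 : (oo : Pt).2 = 0 := rfl
  refine ⟨?_, ?_⟩
  · rw [e2, sub_zero]
    push_cast
    linarith
  · rw [e3, sub_zero]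
    push_cast
    linarith

/-- words that start with a bridge -/
lemma bot_of {R W Y : List Bool} {K b h : ℕ} (hR : R ∈ WL K) (he : R = W ++ Y) (hW : W ∈ Brd h) (hb : 2 ^ b ≤ h) :
    R ∈ BotS b K := by
  have h1 := mem_Brd.1 hW
  refine ⟨hR, W.length, by rw [he, List.length_append]; omega, ?_, fun i h2 h3 => ?_⟩
  · rw [he, lev_append (by omega), h1.2.2.2]
    unfold RR
    have : ((2 ^ b : ℕ) : ℤ) ≤ (h : ℤ) := by exact_mod_cast hb
    push_cast at this
    omega
  · rw [he, lev_append (by omega)]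
    exact (h1.1 i h2 h3).1

/-- the reversed word of a proper prefix -/
lemma rev_pre {t L R : List Bool} (ht : t ∈ SA) (he : t = L ++ R) (hR : R ≠ []) : rev L ∈ SA := by
  obtain ⟨c, -, h⟩ := rev_frame L
  have hl : 0 < R.length := List.length_pos_iff.2 hR
  have hlen : t.length = L.length + R.length := by rw [he, List.length_append]
  refine ⟨fun _ _ _ => Set.mem_univ _, ?_⟩
  intro i k hik hk heq
  rw [rev_length] at hk
  have h1 := h i (by omega)
  have h2 := h k (by omega)
  have e1 : vx oo up t (L.length + 1 - k) = vx oo up L (L.length + 1 - k) := by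
    rw [he]
    exact vx_append (by omega)
  have e2 : vx oo up t (L.length + 1 - i) = vx oo up L (L.length + 1 - i) := by
    rw [he]
    exact vx_append (by omega)
  refine ht.inj (L.length + 1 - k) (L.length + 1 - i) (by omega) (by omega) ?_
  rw [e1, e2, h1, h2, heq]

end G5

open G5

/-- **the geometry of DomT** -/
theorem geo5 {C b D K : ℕ} (hK : 2 ≤ K) (hD : D ≤ 2 ^ K) {t : List Bool} (ht : t ∈ WL K) (h : t ∈ StZ (Z5 C) b D) :
    Cut3G {L | rev L ∈ BotS (b + 1) (K + 4) ∧ In D L} (BotS (b + 1) (K + 4)) {V | In (4 * C * 2 ^ b) V} (2 ^ (b + 1))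
      (2 ^ (b + 3)) t := by
  obtain ⟨X, Z, Y, he, hY, ⟨V0, V1, V2, V3, V4, hZ, ⟨g0, a0, b0⟩, ⟨g1, a1, b1⟩, ⟨g2, a2, b2⟩, ⟨g3, a3, b3⟩,
    ⟨g4, a4, b4⟩, hIn⟩, hI⟩ := h
  have B0 := TIP.BU_hgt g0
  have B1 := TIP.BU_hgt g1
  have B2 := TIP.BU_hgt g2
  have B3 := TIP.BU_hgt g3
  have B4 := TIP.BU_hgt g4
  have n1 : ((2 ^ (b + 1) : ℕ) : ℝ≥0∞) ≤ (hgt V1 : ℝ≥0∞) := by exact_mod_cast a1
  have n3 : ((2 ^ (b + 1) : ℕ) : ℝ≥0∞) ≤ (hgt V3 : ℝ≥0∞) := by exact_mod_cast a3
  have hp4 : 4 * 2 ^ K + 3 ≤ 2 ^ (K + 4) := by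
    have h4 : 4 ≤ 2 ^ K := by
      calc 4 = 2 ^ 2 := by norm_num
        _ ≤ _ := Nat.pow_le_pow_right (by norm_num) hK
    rw [pow_add]
    omega
  refine ⟨X ++ V0, V1, V2, V3, V4 ++ Y, hgt V1, hgt V2, hgt V3, ?_, B1, B2, B3, a2, b1, b2, b3, n1.trans (lvL_all B1 ?_),
    n3.trans (lvR_all B3 ?_), ?_⟩
  · rw [he, hZ]
    simp only [List.append_assoc]
  · intro A B hA hB hH
    have e1 : t = (X ++ V0 ++ A) ++ (B ++ (V2 ++ (V3 ++ (V4 ++ Y)))) := by
      rw [he, hZ, hH]
      simp only [List.append_assoc]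
    have hne : B ++ (V2 ++ (V3 ++ (V4 ++ Y))) ≠ [] := by
      intro h0
      have := congrArg List.length h0
      have hl := List.length_pos_iff.2 hY
      simp only [List.length_append, List.length_nil] at this
      omega
    have hIL : In D (X ++ V0 ++ A) := by
      intro i hi
      have e2 : X ++ Z = (X ++ V0 ++ A) ++ (B ++ (V2 ++ (V3 ++ V4))) := by
        rw [hZ, hH]
        simp only [List.append_assoc]
      have h1 := hI i (by
        rw [e2, List.length_append]
        omega)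
      rw [e2, vx_append (by omega)] at h1
      exact h1
    have hS := rev_pre ht.1 e1 hne
    refine ⟨bot_of (b := b + 1) (h := hgt V0 + hgt A) (box0 hIL hS (by omega)) (W := rev (V0 ++ A)) (Y := rev X) ?_
      (Brd_rev (Brd_append B0 (TIP.BU_hgt hA))) (by omega), hIL⟩
    rw [List.append_assoc, rev_append]
  · intro A B hA hB hH
    have e1 : t = (X ++ (V0 ++ (V1 ++ (V2 ++ A)))) ++ (B ++ (V4 ++ Y)) := by
      rw [he, hZ, hH]
      simp only [List.append_assoc]
    have hR : B ++ (V4 ++ Y) ∈ WL (K + 4) := by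
      have h1 := drop_box ht hK (j := (X ++ (V0 ++ (V1 ++ (V2 ++ A)))).length) (by
        rw [e1]
        simp only [List.length_append]
        omega)
      rw [e1, List.drop_left] at h1
      exact h1
    refine bot_of (b := b + 1) (h := hgt B + hgt V4) hR (W := B ++ V4) (Y := Y) ?_ (Brd_append (TIP.BU_hgt hB) B4) (by omega)
    rw [List.append_assoc]
  · intro X' V Y' hV
    show In (4 * C * 2 ^ b) V
    have e1 : Z = (V0 ++ X') ++ (V ++ (Y' ++ V4)) := by
      rw [hZ]
      have e2 : V1 ++ (V2 ++ (V3 ++ V4)) = (V1 ++ (V2 ++ V3)) ++ V4 := by simp only [List.append_assoc]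
      rw [e2, hV]
      simp only [List.append_assoc]
    have h1 := In_fac hIn e1
    rwa [← mul_assoc] at h1

end PW

end HexObs
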