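import Pool.Agent.SIM.VCount
import Pool.Agent.SIM.RegDefs
import Pool.Agent.SIM.CutSum
import Pool.Agent.SIM.MidM
import Pool.Agent.SIM.FirstL
import Pool.Agent.TPC.Defs

/-!
PW, row TrV (helper65): near touches of a word with a translate of itself, words with a given end. Definitions.
-/

set_option autoImplicit false

namespace HexObs

namespace PW

open Finset TS SDN SIM NTA

open scoped ENNReal

/-- the word t has a near touching pair `i ≤ n1`, `n2 ≤ j` with its translate by v, from which it is disjoint -/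
def NearV (S d : ℕ) (v : Pt) (ρ R : ℕ → ℕ) (n1 n2 : ℕ) (t : List Bool) : Prop :=
  (∃ i x e j, i ≤ x ∧ x ≤ n1 ∧ n2 ≤ e ∧ e ≤ j ∧ j ≤ t.length ∧ vx oo up t i ∈ Bl (vx oo up t j + v) d ∧
    (∀ s, s < S → vx oo up t x ∉ Bl (vx oo up t i) (R s)) ∧ (∀ s, s < S → vx oo up t e ∉ Bl (vx oo up t j) (R s)) ∧
    ∀ s, s < S → GoodPt (vx oo up t) x (vx oo up t i) (ρ s) (R s)) ∧
    ∀ i j, i < j → j ≤ t.length → vx oo up t i ≠ vx oo up t j + v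

lemma NearV_mono {S d : ℕ} {v : Pt} {ρ R : ℕ → ℕ} (t : List Bool) (n1 n2 n1' n2' : ℕ) (h1 : n1 ≤ n1') (h2 : n2' ≤ n2)
    (h : NearV S d v ρ R n1 n2 t) : NearV S d v ρ R n1' n2' t := by
  obtain ⟨⟨i, x, e, j, a1, a2, a3, a4⟩, h3⟩ := h
  exact ⟨⟨i, x, e, j, a1, a2.trans h1, h2.trans a3, a4⟩, h3⟩

/-- (44) the bridge between the two parts of a near touch, as `SIM.xbound` -/
def XBoundV : Prop := ∃ C : ℝ, 0 < C ∧ ∀ (A B : List Bool) (n K S d : ℕ) (v : Pt) (ρ R : ℕ → ℕ), 1 ≤ n → cl v = 0 →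
    (∀ s, s < S → 64 ≤ ρ s ∧ 320 * ρ s ≤ R s ∧ d ≤ R s ∧ R s ≤ 2 ^ (K + 4)) →
    (∀ s, s + 1 < S → 80 * R (s + 1) ≤ ρ s) → 0 < ∑ s ∈ range S, (ρ s : ℝ) / R s →
    gf {Z | Z ∈ BU ∧ n ≤ hgt Z ∧ A ++ (Z ++ B) ∈ WL K ∧ NearV S d v ρ R A.length (A.length + Z.length) (A ++ (Z ++ B))} ≤
      ENNReal.ofReal (C * 4 ^ K * (UU n / n ^ 2) / ∑ s ∈ range S, (ρ s : ℝ) / R s)

/-- (44) the rests with a near touch, as `hgW` in `SIM.mass_X` -/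
def MassW : Prop := ∀ J D D' : ℕ, 6 ≤ J → D < D' → ∃ (A : ℝ) (k0 : ℕ), 1 ≤ A ∧
  ∀ (k S d : ℕ) (v : Pt) (ρ R : ℕ → ℕ), k0 ≤ k → cl v = 0 →
    (∀ s, s < S → 64 ≤ ρ s ∧ 320 * ρ s ≤ R s ∧ d ≤ R s ∧ R s ≤ 2 ^ (k + J + 3 + 4)) →
    (∀ s, s + 1 < S → 80 * R (s + 1) ≤ ρ s) → 0 < ∑ s ∈ range S, (ρ s : ℝ) / R s →
    gf {s | s ∈ WL (k + J + 3) ∧ Cut3 (NearV S d v ρ R) (TwoF (k + 2 - D') (k + J + 3)) (FirstF (k + 2 - D') (k + J + 3))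
      (2 ^ (k + 1 - D)) (2 ^ (k + 1)) s} ≤
      ENNReal.ofReal (A / (∑ s ∈ range S, (ρ s : ℝ) / R s) * Ub (k + J + 3)) * Xb (k + J + 3)

/-- (73) regularity with a given end, as `SIM.Reg` -/
def RegIE (A B : ℤ) : Prop := ∃ (C c : ℝ) (k0 J0 n0 : ℕ), 1 ≤ C ∧ 0 < c ∧ ∀ (r J n : ℕ) (y : Pt), k0 ≤ r → J0 ≤ J →
  n0 ≤ n → gf {t | vx oo up t t.length = y ∧ t ∈ WL (r + J) ∧ Irg A B r n t} ≤
    ENNReal.ofReal (C ^ J * (2 : ℝ) ^ (-(c * n)) * (Ub (r + J) / 4 ^ (r + J))) * Xb (r + J) ^ 2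

/-- **the goal**: near touches of a word with its translate by v, far from the start, with a macroscopic piece between the
two times, given end -/
def HumpE : Prop := ∀ (e : ℝ) (J a : ℕ), 0 < e → ∃ c1 k0 : ℕ, ∀ (K : ℕ) (y v : Pt), k0 ≤ K → cl v = 0 →
  gf {t | vx oo up t t.length = y ∧ t ∈ WL (K + J) ∧ (∀ i j, i < j → j ≤ t.length → vx oo up t i ≠ vx oo up t j + v) ∧
    ∃ i l j, i ≤ l ∧ l ≤ j ∧ j ≤ t.length ∧ vx oo up t i ∈ Bl (vx oo up t j + v) (2 ^ (K - c1)) ∧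
      (∃ dir : Bool, (2 : ℤ) ^ (K - a) ≤ |lvl dir (vx oo up t i)|) ∧
      ∃ dir : Bool, (2 : ℤ) ^ (K - a) ≤ |lvl dir (vx oo up t l - vx oo up t i)|} ≤
    ENNReal.ofReal (e * (Ub K / 4 ^ K)) * Xb K ^ 2

end PW

end HexObs
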