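import Pool.Agent.TPC.RunZ
import Pool.Agent.TIP.RegZ
import Pool.Agent.JNT.EventM

/-!
PW, row D1: walks of the box with a given end and with a long factor without a factor in Zc (`TIP.RegZ` with the end point):
the event theorem for runs of leaves with a given displacement (JNT, TPC) and the geometry of TIP.
-/

set_option autoImplicit false

namespace HexObs

namespace PW

open Finset TS SDN NTW NTA SIM JNT TIP

open scoped ENNReal

/-- D1: walks of the box with the end y and a long factor in Nz -/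
def RegZL (κ : ℝ) (C : ℕ) : Prop := ∃ (C' c : ℝ) (b0 J0 n0 : ℕ), 1 ≤ C' ∧ 0 < c ∧
  ∀ (b J n : ℕ) (y : Pt), b0 ≤ b → J0 ≤ J → n0 ≤ n →
  gf {t | labE t = y ∧ t ∈ WL (b + J) ∧ t ∈ Lz κ C b n} ≤
    ENNReal.ofReal (C' ^ J * (2 : ℝ) ^ (-(c * n)) * (Ub (b + J) / 4 ^ (b + J))) * Xb (b + J) ^ 2

/-- **D1, the plane** -/
theorem regZL_of {κ : ℝ} {C : ℕ} (hG : GeoZ κ C) (hF : FreeZ κ C) : RegZL κ C := by
  classical
  obtain ⟨s1, J1, V0, k1, e0, C1, he0, hC1, hRB, hRT⟩ := TPC.runRL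
  obtain ⟨s2, k2, CT, hCT, htall⟩ := TPC.tall_L labR_E eventRL_E (w := fun k => 4 ^ k) (fun k => by positivity) hC1 hRT
  obtain ⟨CR, k3, hCR, hrun⟩ := runLn_of labR_E eventRL_E
  obtain ⟨c, kB, hckB, hbad⟩ := badNormZ hF J1 e0 he0
  obtain ⟨s, hs⟩ : ∃ s, s = s1 + s2 := ⟨_, rfl⟩
  obtain ⟨M, hM, hgeo⟩ := hG s c
  have hMr : (1 : ℝ) ≤ M := by exact_mod_cast hM
  have hCR0 : 0 < CR := by linarith
  have hC10 : 0 < C1 := by linarith
  have hCT0 : 0 < CT := by linarith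
  refine ⟨16 * (CR * C1 + CT), 1 / M, k1 + k2 + k3 + kB, c + 6, M * (V0 + 3), by nlinarith, by positivity,
    fun r J n y hr hJ hn => ?_⟩
  obtain ⟨k, hk⟩ : ∃ k, k = r + c := ⟨_, rfl⟩
  obtain ⟨J', hJ'⟩ : ∃ J', J' = J - c := ⟨_, rfl⟩
  obtain ⟨V, hV⟩ : ∃ V, V = n / M - 1 := ⟨_, rfl⟩
  have hkr : k - c = r := by omega
  have hkJ : k + J' = r + J := by omega
  have hnM : V0 + 3 ≤ n / M := (Nat.le_div_iff_mul_le (by omega)).2 (by rw [mul_comm]; exact hn)
  have hV1 : M * (V + 1) ≤ n := by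
    rw [hV, show n / M - 1 + 1 = n / M by omega]
    exact Nat.mul_div_le n M
  have hVr : (n : ℝ) / M ≤ V + 2 := by
    have h1 : n < M * (n / M + 1) := by
      have := Nat.lt_mul_div_succ n (show 0 < M by omega)
      simpa using this
    have h2 : n / M + 1 = V + 2 := by omega
    rw [h2] at h1
    have h3 : (n : ℝ) < M * (V + 2) := by exact_mod_cast h1
    rw [div_le_iff₀ (by linarith)]
    linarith
  have hU := Ub_pos (r + J)
  -- the norm
  have hS : SmRL labE DmJ k (RunB k s1 (Nz κ C r) V) (C1 / (4 ^ k * 2 ^ V)) := by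
    refine hRB k (Nz κ C r) (by omega) (SIM.SmD_mono ?_ (hbad k (by omega))) V (by omega)
    rintro g ⟨h1, h2⟩
    rw [hkr]
    exact ⟨h1, h2⟩
  obtain ⟨TE, hTE⟩ : ∃ TE : Set (List Bool), TE = {t | labE t = y ∧ t ∈ WL (k + J') ∧
      ∃ (dir : Bool) (m u : ℕ) (e : ℕ → ℕ), Lf dir (k + 5) t m u e ∧ ∃ j, j < m ∧
      3 * ((V : ℤ) * 2 ^ (k + s2)) ≤ |lp dir t (e (j + 1)) - lp dir t (e j)|} := ⟨_, rfl⟩
  obtain ⟨RE, hRE⟩ : ∃ RE : Bool → Set (List Bool), RE = fun dir => {t | labE t = y ∧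
      t ∈ ERL dir k (k + J') (RunB k s1 (Nz κ C r) V)} := ⟨_, rfl⟩
  -- the cover
  have hcov : {t | labE t = y ∧ t ∈ WL (r + J) ∧ t ∈ Lz κ C r n} ⊆ ((RE false ∪ RE true) ∪ TE) := by
    rintro t ⟨h0, h1, h2⟩
    have h3 := hgeo k (k + J') V t (by omega) (by omega) (by rw [hkJ]; exact h1) (by
      rw [hkr]
      exact Lz_mono hV1 h2)
    rw [hkr] at h3
    rcases h3 with ⟨dir, h4⟩ | h4
    · left
      rw [hRE]
      have h5 := TPC.erl_mono (RunB_mono (show s1 ≤ s by omega)) h4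
      cases dir
      · exact Or.inl ⟨h0, h5⟩
      · exact Or.inr ⟨h0, h5⟩
    · right
      rw [hTE]
      refine ⟨h0, by rw [hkJ]; exact h1, ?_⟩
      obtain ⟨dir, m, u, e, h5, j, h6, h7⟩ := h4
      refine ⟨dir, m, u, e, h5, j, h6, le_trans ?_ h7⟩
      have e1 : (2 : ℤ) ^ (k + s2) ≤ 2 ^ (k + s) := pow_le_pow_right₀ (by norm_num) (by omega)
      have e2 : (0 : ℤ) ≤ V := by positivity
      nlinarith
  obtain ⟨W, hW⟩ : ∃ W, W = ENNReal.ofReal (CR ^ J' * (C1 / (4 ^ k * 2 ^ V)) * Ub (r + J)) * Xb (r + J) ^ 2 := ⟨_, rfl⟩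
  have hrunX : ∀ dir : Bool, gf (RE dir) ≤ W := by
    intro dir
    rw [hW, hRE, ← hkJ]
    exact hrun dir k J' y _ _ (by omega) (by omega) (by positivity) hS
  have hTE' : gf TE ≤ ENNReal.ofReal (CT ^ J' / (4 ^ k * 2 ^ V) * Ub (r + J)) * Xb (r + J) ^ 2 := by
    rw [hTE, ← hkJ]
    exact htall k J' V y (by omega) (by omega) (by omega)
  have hun : ∀ S T : Set (List Bool), gf (S ∪ T) ≤ gf S + gf T := fun S T => gf_union_le S T
  calc gf {t | labE t = y ∧ t ∈ WL (r + J) ∧ t ∈ Lz κ C r n} ≤ _ := gf_mono hcov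
    _ ≤ (W + W) + ENNReal.ofReal (CT ^ J' / (4 ^ k * 2 ^ V) * Ub (r + J)) * Xb (r + J) ^ 2 :=
        (hun _ _).trans (add_le_add ((hun _ _).trans (add_le_add (hrunX _) (hrunX _))) hTE')
    _ = ENNReal.ofReal ((2 * (CR ^ J' * C1) + CT ^ J') * (4 ^ J' * (1 / 2 ^ V)) * (Ub (r + J) / 4 ^ (r + J))) *
        Xb (r + J) ^ 2 := by
        rw [hW, ← add_mul, ← add_mul, ← ENNReal.ofReal_add (by positivity) (by positivity),
          ← ENNReal.ofReal_add (by positivity) (by positivity)]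
        have e4 : (4 : ℝ) ^ (r + J) = 4 ^ k * 4 ^ J' := by rw [← hkJ, pow_add]
        congr 2
        rw [e4]
        field_simp
        ring
    _ ≤ _ := by
        refine mul_le_mul_left (ENNReal.ofReal_le_ofReal (mul_le_mul_of_nonneg_right ?_ (by positivity))) _
        have hCC : 1 ≤ CR * C1 := one_le_mul_of_one_le_of_one_le hCR hC1
        have h1 : CR ^ J' * C1 ≤ (CR * C1 + CT) ^ J := by
          calc CR ^ J' * C1 ≤ CR ^ J' * C1 ^ J' := by
                refine mul_le_mul_of_nonneg_left ?_ (by positivity)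
                calc C1 = C1 ^ 1 := (pow_one C1).symm
                  _ ≤ _ := pow_le_pow_right₀ hC1 (by omega)
            _ = (CR * C1) ^ J' := (mul_pow _ _ _).symm
            _ ≤ (CR * C1 + CT) ^ J' := pow_le_pow_left₀ (by positivity) (by linarith) _
            _ ≤ _ := pow_le_pow_right₀ (by linarith) (by omega)
        have h2 : CT ^ J' ≤ (CR * C1 + CT) ^ J := by
          calc CT ^ J' ≤ (CR * C1 + CT) ^ J' := pow_le_pow_left₀ (by linarith) (by linarith) _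
            _ ≤ _ := pow_le_pow_right₀ (by linarith) (by omega)
        have h3 : (1 : ℝ) / 2 ^ V ≤ 4 * (2 : ℝ) ^ (-(1 / M * n) : ℝ) := by
          have e1 : (4 : ℝ) * (2 : ℝ) ^ (-(1 / M * n) : ℝ) = (2 : ℝ) ^ (2 - 1 / M * n : ℝ) := by
            rw [sub_eq_add_neg, Real.rpow_add two_pos]
            norm_num
          rw [e1, one_div, ← Real.rpow_natCast, ← Real.rpow_neg (by norm_num)]
          refine Real.rpow_le_rpow_of_exponent_le (by norm_num) ?_
          have e2 : (1 : ℝ) / M * n = n / M := by ring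
          rw [e2]
          linarith
        have h4 : (12 * 4 ^ J' : ℝ) ≤ 16 ^ J := by
          have a1 : (4 : ℝ) ^ J' ≤ 4 ^ J := pow_le_pow_right₀ (by norm_num) (by omega)
          have a2 : (12 : ℝ) ≤ 4 ^ J := by
            calc (12 : ℝ) ≤ 4 ^ 2 := by norm_num
              _ ≤ _ := pow_le_pow_right₀ (by norm_num) (by omega)
          calc (12 * 4 ^ J' : ℝ) ≤ 4 ^ J * 4 ^ J := by gcongr
            _ = 16 ^ J := by
                rw [← mul_pow]
                norm_num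
        have h5 : 0 < (CR * C1 + CT) ^ J := by positivity
        have h6 : 0 < (2 : ℝ) ^ (-(1 / M * n) : ℝ) := Real.rpow_pos_of_pos two_pos _
        calc (2 * (CR ^ J' * C1) + CT ^ J') * (4 ^ J' * (1 / 2 ^ V))
            ≤ (3 * (CR * C1 + CT) ^ J) * (4 ^ J' * (4 * (2 : ℝ) ^ (-(1 / M * n) : ℝ))) := by
              gcongr
              linarith
          _ = (12 * 4 ^ J') * ((CR * C1 + CT) ^ J * (2 : ℝ) ^ (-(1 / M * n) : ℝ)) := by ring
          _ ≤ (16 ^ J) * ((CR * C1 + CT) ^ J * (2 : ℝ) ^ (-(1 / M * n) : ℝ)) := by gcongr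
          _ = _ := by
              rw [mul_pow]
              ring

end PW

end HexObs
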