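import Pool.Agent.PW.HumpP
import Pool.Agent.PW.HumpD
import Pool.Agent.PW.RegIE
import Pool.Agent.TPF.UpPt
import Pool.Agent.TPC.RunM
import Pool.Agent.TPC.TallL
import Pool.Agent.JNT.EventM
import Pool.Agent.SIM.FinA

/-!
PW, row TrV (helper65): words with a given end: irregular pieces, long runs of leaves without cuts, tall leaves.
-/

set_option autoImplicit false

namespace HexObs

namespace PW

open Finset TS SDN NTW NTA JNT TPF

open HexObs.SIM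

open scoped ENNReal

/-- **the runs of leaves without cuts, a given displacement** -/
theorem cls_E : ∃ (s V0 : ℕ) (d : ℕ → ℕ) (C : ℝ), 1 ≤ C ∧ d 0 = 0 ∧ (∀ i, d i + 4 ≤ d (i + 1)) ∧ ∀ kc : ℕ, d 4 ≤ kc →
    ∀ V : ℕ, V0 ≤ V → SmRL labE DmJ kc (RunB kc s (Nc4 d kc) V) (C / (4 ^ kc * 2 ^ V)) := by
  obtain ⟨s, J0, V0, e0, C, he0, hC, hrun, -⟩ := TPC.run_E
  obtain ⟨K, c, hK, hc, hW⟩ := tail_win
  obtain ⟨δ, hδd⟩ : ∃ δ : ℝ, δ = e0 / 4 := ⟨_, rfl⟩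
  have hδ : 0 < δ := by
    rw [hδd]
    positivity
  obtain ⟨d, h0, hd⟩ := depth_exists (X := K * (1 + 2 ^ J0) ^ 2) hc hδ
  have hmon : ∀ i j, i ≤ j → d i ≤ d j := by
    intro i j hij
    induction j, hij using Nat.le_induction with
    | base => exact le_rfl
    | succ j _ ih =>
      have := (hd j).1
      omega
  refine ⟨s, V0, d, C, hC, h0, fun i => (hd i).1, fun kc hkM => hrun kc (Nc4 d kc) ?_⟩
  have hUk := Ub_pos kc
  have hUN : UU (2 ^ (kc + J0)) / Ub kc ≤ 2 ^ J0 := by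
    rw [div_le_iff₀ hUk]
    exact Ub_add kc J0
  have hUN0 : 0 ≤ UU (2 ^ (kc + J0)) / Ub kc := div_nonneg (Num2Aux.UU_pos _).le hUk.le
  have hone : ∀ i, i < 4 → SmD DmJ kc
      {g | g ∈ BrR (2 ^ (kc + 4)) (2 ^ (kc + J0)) ∧ g ∈ NoCut (kc - d (i + 1)) (d (i + 1) - d i - 1)} δ := by
    intro i hi
    have h1 := (hd i).1
    have h2 := hmon (i + 1) 4 hi
    have h3 : kc - d (i + 1) + (d (i + 1) - d i - 1) = kc - d i - 1 := by omega
    refine LQ.SmD_le ?_ (QF.SmD_mono ?_ (hW kc (2 ^ (kc + J0)) (kc - d (i + 1)) (d (i + 1) - d i - 1)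
      (by omega) (by omega)))
    · rw [h3, show kc - (kc - d i - 1) = d i + 1 by omega]
      refine le_trans ?_ (hd i).2
      gcongr
    · rintro g ⟨hg, hn⟩
      exact ⟨hg, Or.inl (noCut_sub hn)⟩
  have hall := LQ.SmD_sum 4 (fun i => {g | g ∈ BrR (2 ^ (kc + 4)) (2 ^ (kc + J0)) ∧
    g ∈ NoCut (kc - d (i + 1)) (d (i + 1) - d i - 1)}) (fun _ => δ) (fun i _ => hδ.le) hone
  rw [Finset.sum_const, Finset.card_range, nsmul_eq_mul] at hall
  refine LQ.SmD_le (le_of_eq ?_) (QF.SmD_mono ?_ hall)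
  · rw [hδd]
    push_cast
    ring
  · rintro g ⟨hg, i, hi, hn⟩
    exact ⟨i, hi, hg, hn⟩

/-- **regularity at all the scales, a given end** -/
theorem regE_off {e M : ℝ} (he : 0 < e) (J0 : ℕ) : ∃ (S : ℕ) (J n : ℕ → ℕ) (K0 : ℕ), 0 < S ∧ (∀ s, J0 ≤ J s) ∧
    (∀ s, 107 ≤ n s) ∧ (∀ s, J s < J (s + 1)) ∧ (∀ s, 240 * n (s + 1) ≤ 2 ^ (J (s + 1) - J s)) ∧
    (3 * (n 0 : ℝ) ≤ e * 2 ^ J 0) ∧ M ≤ ∑ s ∈ range S, 1 / (3 * (n s : ℝ)) ∧ J S + 6 ≤ K0 ∧
    ∀ (K : ℕ) (y : Pt), K0 ≤ K → gf {t | vx oo up t t.length = y ∧ t ∈ OffR S J n K} ≤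
      ENNReal.ofReal (e * (Ub K / 4 ^ K)) * Xb K ^ 2 := by
  obtain ⟨C, c, k0, J1, n0, hC, hc, hreg⟩ := regIE (A := 6) (by norm_num) 8
  obtain ⟨S, J, n, hS, h1, h2, h3, h4, h5, h6, h7⟩ := scales (e := e) (M := M) hC hc he (J0 + J1) n0
  have hJmono : ∀ s, s ≤ S → J s ≤ J S := fun s hs => (strictMono_nat_of_lt_succ h3).monotone hs
  refine ⟨S, J, n, J S + 6 + k0, hS, fun s => by have := h1 s; omega, fun s => (h2 s).2, h3, h5, h6, h7, by omega,
    fun K y hK => ?_⟩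
  have hU : 0 ≤ Ub K / 4 ^ K := div_nonneg (TS.Ub_pos K).le (by positivity)
  have hsub : {t | vx oo up t t.length = y ∧ t ∈ OffR S J n K} ⊆
      ⋃ s ∈ range S, {t | vx oo up t t.length = y ∧ t ∈ WL K ∧ Irg 6 8 (K - J s) (n s) t} := by
    rintro t ⟨h0, ht, s, hs, hI⟩
    rw [Set.mem_iUnion₂]
    exact ⟨s, Finset.mem_range.2 hs, h0, ht, hI⟩
  refine (gf_mono hsub).trans ((ENNReal.tsum_biUnion_le wE (range S) _).trans ?_)
  have hone : ∀ s ∈ range S, gf {t | vx oo up t t.length = y ∧ t ∈ WL K ∧ Irg 6 8 (K - J s) (n s) t} ≤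
      ENNReal.ofReal (e / 2 ^ (s + 1) * (Ub K / 4 ^ K)) * Xb K ^ 2 := by
    intro s hs
    rw [Finset.mem_range] at hs
    have a1 := hJmono s hs.le
    have a2 := hreg (K - J s) (J s) (n s) y (by omega) (by have := h1 s; omega) (h2 s).1
    rw [show K - J s + J s = K by omega] at a2
    refine a2.trans (mul_le_mul_left (ENNReal.ofReal_le_ofReal ?_) _)
    exact mul_le_mul_of_nonneg_right (h4 s) hU
  refine (Finset.sum_le_sum hone).trans ?_
  rw [← Finset.sum_mul]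
  refine mul_le_mul_left ?_ _
  rw [← ENNReal.ofReal_sum_of_nonneg (fun s _ => by positivity)]
  apply ENNReal.ofReal_le_ofReal
  rw [← Finset.sum_mul]
  refine mul_le_mul_of_nonneg_right ?_ hU
  have hgeo : ∀ S : ℕ, ∑ s ∈ range S, e / 2 ^ (s + 1) = e - e / 2 ^ S := by
    intro S
    induction S with
    | zero => simp
    | succ S ih =>
      rw [Finset.sum_range_succ, ih, pow_succ]
      field_simp
      ring
  rw [hgeo]
  have : 0 ≤ e / 2 ^ S := by positivity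
  linarith

lemma numH (k B c : ℝ) (hk : 0 ≤ k) (hB : 1 ≤ B) (hc : 0 < c) :
    ∃ J0 : ℕ, ∀ J : ℕ, J0 ≤ J → k * B ^ J * Real.exp (-(c * (2 : ℝ) ^ J)) ≤ 1 := by
  have h1 : Filter.Tendsto (fun J : ℕ => (J : ℝ) ^ 1 / 2 ^ J) Filter.atTop (nhds 0) :=
    tendsto_pow_const_div_const_pow_of_one_lt 1 (by norm_num)
  obtain ⟨L, hL⟩ : ∃ L : ℝ, L = k + Real.log B + 1 := ⟨_, rfl⟩
  have hlog : 0 ≤ Real.log B := Real.log_nonneg hB
  have hL0 : 0 < L := by rw [hL]; linarith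
  have h2 : ∀ᶠ J : ℕ in Filter.atTop, (J : ℝ) ^ 1 / 2 ^ J < c / L := h1.eventually (gt_mem_nhds (by positivity))
  obtain ⟨J0, hJ0⟩ := Filter.eventually_atTop.1 h2
  refine ⟨J0 + 1, fun J hJ => ?_⟩
  have h3 := hJ0 J (by omega)
  rw [pow_one, div_lt_div_iff₀ (by positivity) (by positivity)] at h3
  have hJ1 : (1 : ℝ) ≤ J := by
    have : 1 ≤ J := by omega
    exact_mod_cast this
  have h6 : k ≤ Real.exp k := by linarith [Real.add_one_le_exp k]
  have h7 : B ^ J = Real.exp (Real.log B * J) := by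
    rw [Real.exp_mul, Real.exp_log (by linarith), Real.rpow_natCast]
  calc k * B ^ J * Real.exp (-(c * (2 : ℝ) ^ J))
      ≤ Real.exp k * Real.exp (Real.log B * J) * Real.exp (-(c * (2 : ℝ) ^ J)) := by
        rw [h7]
        gcongr
    _ = Real.exp (k + Real.log B * J - c * (2 : ℝ) ^ J) := by
        rw [← Real.exp_add, ← Real.exp_add]
        congr 1
    _ ≤ Real.exp 0 := by
        apply Real.exp_le_exp.2
        have h8 : k ≤ k * J := le_mul_of_one_le_right hk hJ1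
        have h9 : (J : ℝ) * L = J * k + J * Real.log B + J := by
          rw [hL]
          ring
        nlinarith
    _ = 1 := Real.exp_zero

/-- numbers: an exponential of the number of scales against a double exponential -/
lemma two_num (A B : ℝ) (hA : 0 ≤ A) (hB : 1 ≤ B) : ∃ w0 : ℕ, ∀ w : ℕ, w0 ≤ w → A * B ^ w ≤ 2 ^ (2 ^ w) := by
  have hl2 : 0 < Real.log 2 := Real.log_pos one_lt_two
  obtain ⟨w0, h⟩ := numH A B (Real.log 2) hA hB hl2
  refine ⟨w0, fun w hw => ?_⟩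
  have h1 := h w hw
  have h2 : Real.exp (-(Real.log 2 * (2 : ℝ) ^ w)) = 1 / 2 ^ (2 ^ w) := by
    rw [Real.exp_neg, one_div, ← Real.rpow_natCast 2 (2 ^ w), Real.rpow_def_of_pos (by norm_num)]
    push_cast
    rfl
  rw [h2, mul_one_div, div_le_one (by positivity)] at h1
  exact h1

/-- **long runs of leaves without cuts and tall leaves, a given end**: at the scale K - a1 - b -/
theorem leaf_ev : ∃ (s : ℕ) (d : ℕ → ℕ), d 0 = 0 ∧ (∀ i, d i + 4 ≤ d (i + 1)) ∧ ∀ (e : ℝ) (a1 : ℕ), 0 < e →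
    ∃ V b K0 : ℕ, 6 ≤ b ∧ a1 + b + d 4 + 8 ≤ K0 ∧ 200 * ((V + 1) * 2 ^ (s + 5)) ≤ 2 ^ b ∧ ∀ (K : ℕ) (y : Pt), K0 ≤ K →
      gf {t | vx oo up t t.length = y ∧ t ∈ ERL false (K - a1 - b) K (RunB (K - a1 - b) s (Nc4 d (K - a1 - b)) V)} ≤
        ENNReal.ofReal (e * (Ub K / 4 ^ K)) * Xb K ^ 2 ∧
      gf {t | vx oo up t t.length = y ∧ t ∈ WL K ∧ ∃ (dir : Bool) (m u : ℕ) (e : ℕ → ℕ), Lf dir (K - a1 - b + 5) t m u e ∧
        ∃ j, j < m ∧ 3 * ((V : ℤ) * 2 ^ (K - a1 - b + s)) ≤ |lp dir t (e (j + 1)) - lp dir t (e j)|} ≤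
        ENNReal.ofReal (e * (Ub K / 4 ^ K)) * Xb K ^ 2 := by
  obtain ⟨s1, V0, d, C1, hC1, hd0, hd, hS⟩ := cls_E
  obtain ⟨s0, J0, V1, k0, e0, C0, he0, hC0, -, hRT⟩ := TPC.runRL
  obtain ⟨s2, k2, CT, hCT, htall⟩ := TPC.tall_L labR_E eventRL_E (w := fun k => 4 ^ k) (fun k => by positivity) hC0 hRT
  obtain ⟨CR, k3, hCR, hrun⟩ := runLn_of labR_E eventRL_E
  obtain ⟨s, hs⟩ : ∃ s, s = s1 + s2 := ⟨_, rfl⟩
  refine ⟨s, d, hd0, hd, fun e a1 he => ?_⟩
  -- the numbers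
  obtain ⟨c3, hc3⟩ : ∃ c3 : ℕ, c3 = s + 5 + 9 := ⟨_, rfl⟩
  obtain ⟨Q, hQ⟩ : ∃ Q : ℝ, Q = 4 * (CR + CT) := ⟨_, rfl⟩
  have hQ1 : 1 ≤ Q := by rw [hQ]; linarith
  have hQ0 : 0 < Q := by linarith
  obtain ⟨w0, hw0⟩ := two_num (Q ^ (a1 + c3) * C1 / e) Q (by positivity) hQ1
  obtain ⟨w, hw⟩ : ∃ w, w = w0 + V0 + 1 := ⟨_, rfl⟩
  obtain ⟨V, hV⟩ : ∃ V : ℕ, V = 2 ^ w := ⟨_, rfl⟩
  obtain ⟨b, hb⟩ : ∃ b, b = w + c3 := ⟨_, rfl⟩
  have hVw : w ≤ V := by rw [hV]; exact Nat.lt_two_pow_self.le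
  have hkey : C1 * Q ^ (a1 + b) ≤ e * 2 ^ V := by
    have h1 := hw0 w (by omega)
    rw [← hV] at h1
    have h2 : Q ^ (a1 + b) = Q ^ (a1 + c3) * Q ^ w := by
      rw [hb, ← pow_add]
      congr 1
      omega
    rw [h2]
    have h3 : e * (Q ^ (a1 + c3) * C1 / e * Q ^ w) ≤ e * 2 ^ V := mul_le_mul_of_nonneg_left h1 he.le
    refine le_trans (le_of_eq ?_) h3
    field_simp
  refine ⟨V, b, a1 + b + d 4 + 8 + k2 + k3, by omega, by omega, ?_, fun K y hK => ?_⟩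
  · have h1 : V + 1 ≤ 2 ^ (w + 1) := by
      rw [hV, pow_succ]
      have : 1 ≤ 2 ^ w := Nat.one_le_two_pow
      omega
    calc 200 * ((V + 1) * 2 ^ (s + 5)) ≤ 2 ^ 8 * (2 ^ (w + 1) * 2 ^ (s + 5)) := by gcongr; norm_num
      _ = 2 ^ b := by
        rw [← pow_add, ← pow_add, hb, hc3]
        congr 1
        omega
  obtain ⟨kc, hkc⟩ : ∃ kc, kc = K - a1 - b := ⟨_, rfl⟩
  have hkcK : kc + (a1 + b) = K := by omega
  rw [← hkc]
  have hU := Ub_pos K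
  have h4 : (4 : ℝ) ^ K = 4 ^ kc * 4 ^ (a1 + b) := by rw [← pow_add, hkcK]
  constructor
  · have h1 := hrun false kc (a1 + b) y (RunB kc s1 (Nc4 d kc) V) (C1 / (4 ^ kc * 2 ^ V)) (by omega) (by omega) (by positivity)
      (hS kc (by omega) V (by omega))
    rw [hkcK] at h1
    refine (gf_mono ?_).trans (h1.trans (mul_le_mul_left (ENNReal.ofReal_le_ofReal ?_) _))
    · rintro t ⟨h2, h3⟩
      exact ⟨h2, TPC.erl_mono (RunB_mono (show s1 ≤ s by omega)) h3⟩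
    · have h5 : CR ^ (a1 + b) * C1 * 4 ^ (a1 + b) ≤ e * 2 ^ V := by
        refine le_trans ?_ hkey
        calc CR ^ (a1 + b) * C1 * 4 ^ (a1 + b) = C1 * (4 * CR) ^ (a1 + b) := by rw [mul_pow]; ring
          _ ≤ C1 * Q ^ (a1 + b) := by
              refine mul_le_mul_of_nonneg_left (pow_le_pow_left₀ (by linarith) ?_ _) (by linarith)
              rw [hQ]
              linarith
      rw [h4]
      calc CR ^ (a1 + b) * (C1 / (4 ^ kc * 2 ^ V)) * Ub K =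
            (CR ^ (a1 + b) * C1 * 4 ^ (a1 + b)) / 2 ^ V * (Ub K / (4 ^ kc * 4 ^ (a1 + b))) := by
              field_simp
        _ ≤ e * (Ub K / (4 ^ kc * 4 ^ (a1 + b))) := by
              refine mul_le_mul_of_nonneg_right ?_ (by positivity)
              rw [div_le_iff₀ (by positivity)]
              exact h5
  · have h1 := htall kc (a1 + b) V y (by omega) (by omega) (by omega)
    rw [hkcK] at h1
    refine (gf_mono ?_).trans (h1.trans (mul_le_mul_left (ENNReal.ofReal_le_ofReal ?_) _))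
    · rintro t ⟨h2, h3, dir, m, u, e', h5, j, h6, h7⟩
      refine ⟨h2, h3, dir, m, u, e', h5, j, h6, le_trans ?_ h7⟩
      have e1 : (2 : ℤ) ^ (kc + s2) ≤ 2 ^ (kc + s) := pow_le_pow_right₀ (by norm_num) (by omega)
      have e2 : (0 : ℤ) ≤ V := by positivity
      nlinarith
    · have h5 : CT ^ (a1 + b) * 4 ^ (a1 + b) ≤ e * 2 ^ V := by
        refine le_trans ?_ hkey
        calc CT ^ (a1 + b) * 4 ^ (a1 + b) = 1 * (4 * CT) ^ (a1 + b) := by rw [mul_pow]; ring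
          _ ≤ C1 * Q ^ (a1 + b) := by
              refine mul_le_mul hC1 (pow_le_pow_left₀ (by linarith) ?_ _) (by positivity) (by linarith)
              rw [hQ]
              linarith
      rw [h4]
      calc CT ^ (a1 + b) / (4 ^ kc * 2 ^ V) * Ub K =
            (CT ^ (a1 + b) * 4 ^ (a1 + b)) / 2 ^ V * (Ub K / (4 ^ kc * 4 ^ (a1 + b))) := by
              field_simp
        _ ≤ e * (Ub K / (4 ^ kc * 4 ^ (a1 + b))) := by
              refine mul_le_mul_of_nonneg_right ?_ (by positivity)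
              rw [div_le_iff₀ (by positivity)]
              exact h5

end PW

end HexObs
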