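import Pool.Agent.SIM.GeoIrg
import Pool.Agent.NTA.StepT

/-!
PW, row TrV (helper65): a macroscopic piece contains a good interior leaf; a piece far from two levels.
-/

set_option autoImplicit false

namespace HexObs

namespace PW

open Finset TS SDN SIM NTA NTW

open scoped ENNReal

open SIM.GI in
/-- **a piece of large displacement contains an interior leaf that is not in S**, if there is no long run of leaves of S and no
tall leaf -/
theorem piece_leaf {s k V K : ℕ} {S : Set (List Bool)} {t : List Bool} (htW : t ∈ WL K) {dir : Bool} {m u : ℕ} {e : ℕ → ℕ}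
    (hF : Lf dir (k + 5) t m u e)
    (htall : ∀ j, j < m → |lp dir t (e (j + 1)) - lp dir t (e j)| < 3 * ((V : ℤ) * 2 ^ (k + s)))
    (hno : t ∉ ERL dir k K (RunB k s S V)) {x y : ℕ} (hxy : x ≤ y) (hy : y ≤ t.length)
    (hbig : 96 * ((V + 1 : ℤ) * 2 ^ (k + s + 5)) ≤ |lp dir t y - lp dir t x|) :
    ∃ l, 2 ≤ l ∧ l + 2 ≤ m ∧ x ≤ e l ∧ e (l + 1) ≤ y ∧ lw t (e l) (e (l + 1)) ∉ S := by
  by_contra hcon
  push Not at hcon
  have ht := htW.1
  obtain ⟨T, hT⟩ : ∃ T : ℤ, T = 3 * ((V + 1 : ℤ) * 2 ^ (k + s + 5)) := ⟨_, rfl⟩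
  have hV0 : (0 : ℤ) ≤ V := Int.natCast_nonneg V
  have hp1 : (1 : ℤ) ≤ 2 ^ (k + s) := one_le_pow₀ (by norm_num)
  have hp5 : (2 : ℤ) ^ (k + s + 5) = 32 * 2 ^ (k + s) := by rw [pow_add]; ring
  have hT0 : 0 ≤ T := by rw [hT]; positivity
  have hTR : RR (k + 5) ≤ T := by
    have h1 : (2 : ℤ) ^ (k + 5) ≤ 2 ^ (k + s + 5) := pow_le_pow_right₀ (by norm_num) (by omega)
    have h2 : (0 : ℤ) < 2 ^ (k + s + 5) := by positivity
    unfold RR
    rw [hT]
    nlinarith
  have hTj : ∀ j, j < m → |lp dir t (e (j + 1)) - lp dir t (e j)| ≤ T := by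
    intro j hj
    refine (htall j hj).le.trans ?_
    rw [hT, hp5]
    nlinarith
  obtain ⟨a, ha⟩ : ∃ a, a = T2.cpt t.length m e := ⟨_, rfl⟩
  have a0 : a 0 = 0 := by rw [ha]; exact T2.cpt_zero _ _ _
  have aM : a (m + 2) = t.length := by rw [ha]; exact T2.cpt_end _ _ _
  have am : ∀ p, p < m + 2 → a p ≤ a (p + 1) := by
    intro p hp
    rw [ha]
    exact cpt_mono hF hp
  have ai : ∀ i, i ≤ m → a (i + 1) = e i := by
    intro i hi
    rw [ha]
    exact T2.cpt_mid _ _ _ hi
  have amm : ∀ i j, i ≤ j → j ≤ m + 2 → a i ≤ a j := by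
    intro i j hij
    induction j, hij using Nat.le_induction with
    | base => intro _; exact le_rfl
    | succ j hj ih => intro hjM; exact (ih (by omega)).trans (am j (by omega))
  have hpc : ∀ p, p < m + 2 → ∀ i j, a p ≤ i → i ≤ a (p + 1) → a p ≤ j → j ≤ a (p + 1) →
      |lp dir t i - lp dir t j| ≤ T := by
    intro p hp i j hi hi' hj hj'
    rw [ha] at hi hi' hj hj'
    exact lf_osc hF hTj hTR hp hi hi' hj hj'
  have hxy' : x < y := by
    rcases Nat.eq_or_lt_of_le hxy with h1 | h1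
    · rw [h1, sub_self, abs_zero] at hbig
      have : (0 : ℤ) < (V + 1 : ℤ) * 2 ^ (k + s + 5) := by positivity
      omega
    · exact h1
  obtain ⟨p0, d, hpd, hx1, hx2, hy1, hy2⟩ := cut_restrict a0 aM am hxy' hy
  obtain ⟨la, hla⟩ : ∃ la, la = max p0 2 := ⟨_, rfl⟩
  obtain ⟨lb, hlb⟩ : ∃ lb, lb = min (p0 + d - 1) (m - 1) := ⟨_, rfl⟩
  obtain ⟨d', hd'⟩ : ∃ d', d' = lb - la := ⟨_, rfl⟩
  rcases Nat.eq_zero_or_pos d' with h0 | h0
  · -- no run
    have h1 := few_osc hT0 hpc (z := x) (d + 1) p0 y (by omega) hx1 hxy (by rw [← add_assoc]; exact hy2)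
    have h2 : ((d + 1 : ℕ) : ℤ) ≤ 6 := by
      have : d + 1 ≤ 6 := by omega
      exact_mod_cast this
    have h3 : ((d + 1 : ℕ) : ℤ) * T ≤ 6 * T := mul_le_mul_of_nonneg_right h2 hT0
    have h4 : (0 : ℤ) < (V + 1 : ℤ) * 2 ^ (k + s + 5) := by positivity
    rw [hT] at h3
    rw [hT] at h1
    linarith
  · -- a run
    have e1 : la + d' ≤ m - 1 := by omega
    have hlbe : lb = la + d' := by omega
    have z1 : a (la + 1) = e la := ai la (by omega)
    have z2 : a (lb + 1) = e lb := ai lb (by omega)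
    have hz1 : x ≤ a (la + 1) := hx2.le.trans (amm _ _ (by omega) (by omega))
    have hz2 : a (lb + 1) ≤ y := (amm _ (p0 + d) (by omega) (by omega)).trans hy1.le
    have hz12 : a (la + 1) ≤ a (lb + 1) := amm _ _ (by omega) (by omega)
    have h1 := few_osc hT0 hpc (z := x) (la + 1 - p0) p0 (a (la + 1)) (by omega) hx1 hz1
      (by rw [show p0 + (la + 1 - p0) = la + 1 by omega])
    have h2 := few_osc hT0 hpc (z := a (lb + 1)) (p0 + d - lb) (lb + 1) y (by omega) le_rfl hz2
      (by rw [show lb + 1 + (p0 + d - lb) = p0 + d + 1 by omega]; exact hy2)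
    have h3 := sum_osc (F := lp dir t) (e := e) (D := fun i => 3 * (hgt (lw t (e (la + i)) (e (la + i + 1))) : ℤ) + 1) la d'
      (fun i hi => by
        obtain ⟨n, n1, -, -, n4⟩ := NC.int_leafD ht (by omega : 1 ≤ k + 5) hF (j := la + i) (by omega) (by omega)
        show _ ≤ 3 * (hgt (lw t (e (la + i)) (e (la + i + 1))) : ℤ) + 1
        rw [hgt_eq n1]
        exact n4.le)
    rw [← hlbe] at h3
    have c1 : ((la + 1 - p0 : ℕ) : ℤ) ≤ 3 := by
      have : la + 1 - p0 ≤ 3 := by omega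
      exact_mod_cast this
    have c2 : ((p0 + d - lb : ℕ) : ℤ) ≤ 3 := by
      have : p0 + d - lb ≤ 3 := by omega
      exact_mod_cast this
    have c3 : ((la + 1 - p0 : ℕ) : ℤ) * T ≤ 3 * T := mul_le_mul_of_nonneg_right c1 hT0
    have c4 : ((p0 + d - lb : ℕ) : ℤ) * T ≤ 3 * T := mul_le_mul_of_nonneg_right c2 hT0
    rw [z1] at h1
    rw [z2] at h2
    have h4 : |lp dir t y - lp dir t x| ≤ |lp dir t y - lp dir t (e lb)| + |lp dir t (e lb) - lp dir t (e la)| +
        |lp dir t (e la) - lp dir t x| := by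
      have b1 := abs_sub_le (lp dir t y) (lp dir t (e lb)) (lp dir t x)
      have b2 := abs_sub_le (lp dir t (e lb)) (lp dir t (e la)) (lp dir t x)
      linarith
    -- the sum of the heights
    have hbr : ∀ g ∈ lws t e la d', ∃ n : ℕ, g ∈ Brd n ∧ 2 ^ (k + 4) ≤ n ∧ g ∈ CL (k + 5) := by
      intro g hg
      obtain ⟨i, hi, rfl⟩ := NC.lws_mem hg
      obtain ⟨n, n1, n2, n3, -⟩ := NC.int_leafD ht (by omega : 1 ≤ k + 5) hF (j := la + i) (by omega) (by omega)
      refine ⟨n, n1, ?_, n3⟩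
      have h5 : 2 ^ (k + 5) = 2 * 2 ^ (k + 4) := by rw [← pow_succ']
      have h6 := Nat.one_le_two_pow (n := k + 4)
      omega
    have hsum : (∑ i ∈ range d', (3 * (hgt (lw t (e (la + i)) (e (la + i + 1))) : ℤ) + 1)) ≤
        4 * (((lws t e la d').map hgt).sum : ℤ) := by
      rw [sum_lws hgt t e la d']
      push_cast
      rw [Finset.mul_sum]
      refine Finset.sum_le_sum fun i hi => ?_
      obtain ⟨n, n1, n2, n3, -⟩ := NC.int_leafD ht (by omega : 1 ≤ k + 5) hF (j := la + i)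
        (by omega) (by rw [Finset.mem_range] at hi; omega)
      rw [hgt_eq n1]
      have h5 : 2 ≤ 2 ^ (k + 5) := by
        calc 2 = 2 ^ 1 := rfl
          _ ≤ 2 ^ (k + 5) := Nat.pow_le_pow_right (by norm_num) (by omega)
      have h6 : (1 : ℤ) ≤ n := by
        have : 1 ≤ n := by omega
        exact_mod_cast this
      linarith
    have hVsum : V ≤ ((lws t e la d').map fun g => hgt g / 2 ^ (k + s) + 1).sum := by
      by_contra hcon
      rw [not_le] at hcon
      have h5 : ((lws t e la d').map hgt).sum ≤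
          2 ^ (k + s) * ((lws t e la d').map fun g => hgt g / 2 ^ (k + s) + 1).sum := by
        generalize lws t e la d' = gs
        induction gs with
        | nil => simp
        | cons g gs ih =>
          rw [List.map_cons, List.sum_cons, List.map_cons, List.sum_cons, mul_add]
          refine Nat.add_le_add ?_ ih
          exact (Nat.lt_mul_div_succ (hgt g) (by positivity)).le
      have h6 : 2 ^ (k + s) * ((lws t e la d').map fun g => hgt g / 2 ^ (k + s) + 1).sum ≤ 2 ^ (k + s) * V :=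
        Nat.mul_le_mul_left _ hcon.le
      have h7 : (((lws t e la d').map hgt).sum : ℤ) ≤ 2 ^ (k + s) * V := by exact_mod_cast h5.trans h6
      obtain ⟨P, hP⟩ : ∃ P : ℤ, P = (V + 1 : ℤ) * 2 ^ (k + s) := ⟨_, rfl⟩
      have h8 : 0 < P := by
        rw [hP]
        positivity
      have h9 : (2 : ℤ) ^ (k + s) * V ≤ P := by
        rw [hP, add_mul, one_mul, mul_comm]
        linarith
      have h10 : (V + 1 : ℤ) * 2 ^ (k + s + 5) = 32 * P := by
        rw [hP, hp5]
        ring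
      rw [h10] at hbig hT
      linarith
    refine hno ⟨htW, m, u, e, hF, la, d', by omega, h0, by omega, ?_, fun g hg => ?_, hVsum⟩
    · intro h5
      have h6 := congrArg List.length h5
      rw [PE.lws_length, List.length_nil] at h6
      omega
    · obtain ⟨n, n1, n2, n3⟩ := hbr g hg
      refine ⟨?_, n3, n, n2, n1⟩
      obtain ⟨i, hi, rfl⟩ := NC.lws_mem hg
      rw [z1] at hz1
      rw [z2] at hz2
      exact hcon (la + i) (by omega) (by omega) (hz1.trans (lf_mono hF (by omega) (by omega)))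
        ((lf_mono hF (by omega) (by omega)).trans hz2)

/-- a piece with a given displacement, far from two levels, positive version -/
lemma sub_pos {F : ℕ → ℤ} (hstep : ∀ p, |F (p + 1) - F p| ≤ 2) {i x : ℕ} (hix : i ≤ x) {L D : ℤ} (hL0 : 0 ≤ L) (hD0 : 0 ≤ D)
    (C : ℤ) (hL : 3 * D + 2 * L + 8 ≤ F x - F i) :
    ∃ a b, i ≤ a ∧ a ≤ b ∧ b ≤ x ∧ L ≤ |F b - F a| ∧ ∀ p, a ≤ p → p ≤ b → D ≤ |F p - F i| ∧ D ≤ |F p - C| := by
  classical
  -- the piece between two levels
  have key : ∀ lo : ℤ, F i ≤ lo → lo + L ≤ F x → ∃ a b, i ≤ a ∧ a ≤ b ∧ b ≤ x ∧ L ≤ F b - F a ∧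
      ∀ p, a ≤ p → p ≤ b → lo - 2 ≤ F p ∧ F p ≤ lo + L + 2 := by
    intro lo hlo hhi
    have hex : ∃ b, i ≤ b ∧ lo + L ≤ F b := ⟨x, hix, hhi⟩
    obtain ⟨b, hb⟩ : ∃ b, b = Nat.find hex := ⟨_, rfl⟩
    have hb1 : i ≤ b ∧ lo + L ≤ F b := by
      rw [hb]
      exact Nat.find_spec hex
    have hbx : b ≤ x := by
      rw [hb]
      exact Nat.find_min' hex ⟨hix, hhi⟩
    have hbm : ∀ p, i ≤ p → p < b → F p < lo + L := by
      intro p hp hpb
      by_contra hcon
      rw [hb] at hpb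
      exact Nat.find_min hex hpb ⟨hp, by omega⟩
    obtain ⟨a, ha⟩ : ∃ a, a = Nat.findGreatest (fun p => i ≤ p ∧ F p ≤ lo) b := ⟨_, rfl⟩
    have ha1 : i ≤ a ∧ F a ≤ lo := by
      rw [ha]
      exact Nat.findGreatest_spec (P := fun p => i ≤ p ∧ F p ≤ lo) hb1.1 ⟨le_rfl, hlo⟩
    have hab : a ≤ b := by
      rw [ha]
      exact Nat.findGreatest_le b
    have ham : ∀ p, a < p → p ≤ b → lo < F p := by
      intro p hp hpb
      rw [ha] at hp
      have := Nat.findGreatest_is_greatest hp hpb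
      by_contra hcon
      exact this ⟨by rw [← ha] at hp; omega, by omega⟩
    refine ⟨a, b, ha1.1, hab, hbx, by linarith [ha1.2, hb1.2], fun p hp hpb => ⟨?_, ?_⟩⟩
    · rcases Nat.eq_or_lt_of_le hp with h1 | h1
      · subst h1
        rcases Nat.eq_or_lt_of_le hab with h2 | h2
        · have := hb1.2
          rw [← h2] at this
          omega
        · have h3 := ham (a + 1) (by omega) h2
          have h4 := hstep a
          rw [abs_le] at h4
          omega
      · have := ham p h1 hpb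
        omega
    · rcases Nat.eq_or_lt_of_le hpb with h1 | h1
      · subst h1
        rcases Nat.eq_or_lt_of_le hb1.1 with h2 | h2
        · rw [← h2]
          omega
        · have h3 := hbm (p - 1) (by omega) (by omega)
          have h4 := hstep (p - 1)
          rw [show p - 1 + 1 = p by omega, abs_le] at h4
          omega
      · have := hbm p (ha1.1.trans hp) h1
        omega
  by_cases hC : F i < C ∧ C < F i + 2 * D + L + 4
  · obtain ⟨a, b, h1, h2, h3, h4, h5⟩ := key (F i + 3 * D + L + 6) (by omega) (by omega)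
    refine ⟨a, b, h1, h2, h3, h4.trans (le_abs_self _), fun p hp hpb => ?_⟩
    have h6 := h5 p hp hpb
    exact ⟨le_trans (by omega) (le_abs_self _), le_trans (by omega) (le_abs_self _)⟩
  · obtain ⟨a, b, h1, h2, h3, h4, h5⟩ := key (F i + D + 2) (by omega) (by omega)
    refine ⟨a, b, h1, h2, h3, h4.trans (le_abs_self _), fun p hp hpb => ?_⟩
    have h6 := h5 p hp hpb
    refine ⟨le_trans (by omega) (le_abs_self _), ?_⟩
    by_cases hc : C ≤ F i
    · exact le_trans (by omega) (le_abs_self _)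
    · refine le_trans ?_ (neg_le_abs _)
      omega

/-- **a piece with a given displacement, far from two levels** -/
theorem sub_piece {F : ℕ → ℤ} (hstep : ∀ p, |F (p + 1) - F p| ≤ 2) {i x : ℕ} (hix : i ≤ x) {L D : ℤ} (hL0 : 0 ≤ L)
    (hD0 : 0 ≤ D) (C : ℤ) (hL : 3 * D + 2 * L + 8 ≤ |F x - F i|) :
    ∃ a b, i ≤ a ∧ a ≤ b ∧ b ≤ x ∧ L ≤ |F b - F a| ∧ ∀ p, a ≤ p → p ≤ b → D ≤ |F p - F i| ∧ D ≤ |F p - C| := by
  rcases le_total 0 (F x - F i) with h | h
  · rw [abs_of_nonneg h] at hL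
    exact sub_pos hstep hix hL0 hD0 C hL
  · rw [abs_of_nonpos h] at hL
    obtain ⟨a, b, h1, h2, h3, h4, h5⟩ := sub_pos (F := fun p => -F p) (fun p => by
      rw [show -F (p + 1) - -F p = -(F (p + 1) - F p) by ring, abs_neg]
      exact hstep p) hix hL0 hD0 (-C) (by linarith)
    refine ⟨a, b, h1, h2, h3, ?_, fun p hp hpb => ?_⟩
    · rw [← abs_neg]
      refine h4.trans (le_of_eq ?_)
      congr 1
      ring
    · obtain ⟨h6, h7⟩ := h5 p hp hpb
      rw [← abs_neg] at h6 h7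
      refine ⟨h6.trans (le_of_eq ?_), h7.trans (le_of_eq ?_)⟩ <;> congr 1 <;> ring

end PW

end HexObs
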