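import Pool.Agent.PW.IndexA
import Pool.Agent.T2.Amplify
import Pool.Agent.NUX.Br2

/-!
PW: from the size of the bridges (TAIL and lower mean, every scale) to both indices of the number of bridges by
the length, for the honeycomb lattice (helper59).
-/

set_option autoImplicit false

namespace HexObs

namespace PWIdx

open Finset TS SDN T2 BrL

open scoped ENNReal

lemma sum_SBT_le (N x : ℕ) : ∑ h ∈ range (N + 1), gf (SBT h x) ≤ gf (SB x) := by
  rw [← gf_biUnion]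
  · apply gf_mono
    intro t ht
    simp only [Set.mem_iUnion] at ht
    obtain ⟨T, _, h⟩ := ht
    exact ⟨⟨T, h.1⟩, h.2⟩
  · intro i _ j _ hij
    rw [Set.disjoint_left]
    rintro t ⟨h3, _⟩ ⟨h4, _⟩
    exact hij (Brd_height h3 h4)

/-- the short bridges carry half of the mass -/
lemma lo_of_tail {N x : ℕ} {lam : ℝ} (h : Tail N lam (1 / 2)) (hx : lam ≤ 2 * (x : ℝ)) :
    HexObs.UU N ≤ 2 * NUX.UU ub x := by
  have h1 : ENNReal.ofReal (HexObs.UU N) ≤ ENNReal.ofReal (1 / 2 * HexObs.UU N) + gf (SB x) := by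
    rw [Amp.ofReal_UU]
    calc ∑ h ∈ range (N + 1), BT h
        ≤ ∑ h ∈ range (N + 1), (gf {Z | Z ∈ Brd h ∧ lam ≤ (Z.length : ℝ)} + gf (SBT h x)) := by
          refine Finset.sum_le_sum fun T _ => ?_
          rw [← gf_Brd]
          refine (gf_mono ?_).trans (gf_union_le _ _)
          intro Z hZ
          rcases le_or_gt lam (Z.length : ℝ) with h | h
          · exact Or.inl ⟨hZ, h⟩
          · refine Or.inr ⟨hZ, ?_⟩
            have : (Z.length : ℝ) < 2 * x := h.trans_le hx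
            exact_mod_cast this.le
      _ = (∑ h ∈ range (N + 1), gf {Z | Z ∈ Brd h ∧ lam ≤ (Z.length : ℝ)}) + ∑ h ∈ range (N + 1), gf (SBT h x) :=
          Finset.sum_add_distrib
      _ ≤ _ := add_le_add h (sum_SBT_le N x)
  have hU := Num2Aux.UU_pos N
  have h2 := ENNReal.toReal_mono (ENNReal.add_ne_top.2 ⟨ENNReal.ofReal_ne_top, SB_ne_top x⟩) h1
  rw [ENNReal.toReal_add ENNReal.ofReal_ne_top (SB_ne_top x), ENNReal.toReal_ofReal hU.le,
    ENNReal.toReal_ofReal (by positivity), ← UU_eq] at h2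
  linarith

/-- the bridges shorter than a typical one of the height N0 are few -/
lemma up_of_not_tail {N0 x : ℕ} {lam q : ℝ} (hq : 0 < q) (h : ¬ Tail N0 lam q) (hx : 2 * (x : ℝ) < lam) :
    NUX.UU ub x ≤ HexObs.UU N0 / q := by
  have h1 := amplify hq h (2 * x)
  have h2 : gf (SB x) ≤ ∑ h ∈ Finset.range (2 * x + 1), gf {Z | Z ∈ Brd h ∧ (Z.length : ℝ) < lam} := by
    rw [← gf_biUnion]
    rotate_left
    · intro i _ j _ hij
      rw [Set.disjoint_left]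
      rintro t ⟨h3, _⟩ ⟨h4, _⟩
      exact hij (Brd_height h3 h4)
    apply gf_mono
    rintro t ⟨⟨T, ht⟩, hl⟩
    simp only [Set.mem_iUnion, Finset.mem_range]
    have h3 := P2_aux.brd_len ht
    refine ⟨T, by omega, ht, ?_⟩
    have : (t.length : ℝ) ≤ 2 * x := by exact_mod_cast hl
    linarith
  have hU := Num2Aux.UU_pos N0
  have h4 := ENNReal.toReal_mono ENNReal.ofReal_ne_top (h2.trans h1)
  rw [ENNReal.toReal_ofReal (by positivity), ← UU_eq] at h4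
  exact h4

lemma ub_nonneg (n : ℕ) : 0 ≤ ub n := ENNReal.toReal_nonneg

lemma UU_mono : Monotone (NUX.UU ub) := fun a b h => by
  unfold NUX.UU
  exact Finset.sum_le_sum_of_subset_of_nonneg (Finset.range_mono (by omega)) fun i _ _ => ub_nonneg i

/-- both indices, cumulative form with the end point -/
theorem index_UU {m : ℕ → ℝ} {K l0 c1 q : ℝ} (hm : Scale m K) (hl : 0 < l0) (hc1 : 0 < c1) (hq : 0 < q)
    (hT : ∀ N : ℕ, 1 ≤ N → Tail N (l0 * m N) (1 / 2)) (hN : ∀ N : ℕ, 1 ≤ N → ¬ Tail N (c1 * m N) q) :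
    ∃ a1 c C : ℝ, 0 < a1 ∧ a1 ≤ 3 / 5 ∧ 0 < c ∧ 0 < C ∧ ∀ b x : ℕ, 1 ≤ b → 1 ≤ x →
      c * (b : ℝ) ^ a1 * NUX.UU ub x ≤ NUX.UU ub (b * x) ∧
      NUX.UU ub (b * x) ≤ C * (b : ℝ) ^ (3 / 5 : ℝ) * NUX.UU ub x := by
  obtain ⟨c0, C0, hc0, _, hW⟩ := BAR.UU_two
  exact index (W := HexObs.UU) (V := NUX.UU ub) hm hl hc0 hW UU_mono (one_pos.trans_le (NUX.UU_pos ren 1))
    (fun N x hN1 hx => lo_of_tail (hT N hN1) hx) hc1 hq (fun N x hN1 hx => up_of_not_tail hq (hN N hN1) hx)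

/-- both indices of U(n) = sum over j < n of u j -/
theorem index_ub {m : ℕ → ℝ} {K l0 c1 q : ℝ} (hm : Scale m K) (hl : 0 < l0) (hc1 : 0 < c1) (hq : 0 < q)
    (hT : ∀ N : ℕ, 1 ≤ N → Tail N (l0 * m N) (1 / 2)) (hN : ∀ N : ℕ, 1 ≤ N → ¬ Tail N (c1 * m N) q) :
    ∃ a1 c C : ℝ, 0 < a1 ∧ a1 ≤ 3 / 5 ∧ 0 < c ∧ 0 < C ∧ ∀ b x : ℕ, 1 ≤ b → 1 ≤ x →
      c * (b : ℝ) ^ a1 * ∑ j ∈ range x, ub j ≤ ∑ j ∈ range (b * x), ub j ∧
      ∑ j ∈ range (b * x), ub j ≤ C * (b : ℝ) ^ (3 / 5 : ℝ) * ∑ j ∈ range x, ub j := by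
  obtain ⟨a1, c, C, h1, h2, h3, h4, h5⟩ := index_UU hm hl hc1 hq hT hN
  -- comparison of the two cumulative sums
  have hle : ∀ x : ℕ, ∑ j ∈ range x, ub j ≤ NUX.UU ub x := fun x =>
    Finset.sum_le_sum_of_subset_of_nonneg (Finset.range_mono (by omega)) fun i _ _ => ub_nonneg i
  have hge : ∃ B : ℝ, 0 < B ∧ ∀ x : ℕ, 1 ≤ x → NUX.UU ub x ≤ B * ∑ j ∈ range x, ub j := by
    have hU1 : 0 < NUX.UU ub 1 := one_pos.trans_le (NUX.UU_pos ren 1)
    refine ⟨max (NUX.UU ub 1) (C * (2 : ℝ) ^ (3 / 5 : ℝ)), lt_max_of_lt_left hU1, fun x hx => ?_⟩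
    rcases Nat.eq_or_lt_of_le hx with h | h
    · rw [← h]
      have e : ∑ j ∈ range 1, ub j = 1 := by rw [Finset.sum_range_one]; exact ren.u0
      rw [e, mul_one]
      exact le_max_left _ _
    · have h6 := (h5 2 (x - 1) (by norm_num) (by omega)).2
      have h7 : NUX.UU ub x ≤ NUX.UU ub (2 * (x - 1)) := UU_mono (by omega)
      have e : NUX.UU ub (x - 1) = ∑ j ∈ range x, ub j := by
        unfold NUX.UU
        rw [Nat.sub_add_cancel hx]
      rw [e] at h6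
      push_cast at h6
      refine (h7.trans h6).trans (mul_le_mul_of_nonneg_right (le_max_right _ _) ?_)
      exact Finset.sum_nonneg fun i _ => ub_nonneg i
  obtain ⟨B, hB, hge⟩ := hge
  refine ⟨a1, c / B, C * B, h1, h2, by positivity, by positivity, fun b x hb hx => ?_⟩
  have hbx : 1 ≤ b * x := Nat.succ_le_of_lt (Nat.mul_pos (by omega) (by omega))
  obtain ⟨g1, g2⟩ := h5 b x hb hx
  constructor
  · have h6 := hge (b * x) hbx
    have h7 := hle x
    have h8 : c * (b : ℝ) ^ a1 * ∑ j ∈ range x, ub j ≤ B * ∑ j ∈ range (b * x), ub j :=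
      ((mul_le_mul_of_nonneg_left h7 (by positivity)).trans g1).trans h6
    calc c / B * (b : ℝ) ^ a1 * ∑ j ∈ range x, ub j = (c * (b : ℝ) ^ a1 * ∑ j ∈ range x, ub j) / B := by ring
      _ ≤ _ := by rw [div_le_iff₀ hB]; linarith
  · calc ∑ j ∈ range (b * x), ub j ≤ NUX.UU ub (b * x) := hle _
      _ ≤ C * (b : ℝ) ^ (3 / 5 : ℝ) * NUX.UU ub x := g2
      _ ≤ C * (b : ℝ) ^ (3 / 5 : ℝ) * (B * ∑ j ∈ range x, ub j) := mul_le_mul_of_nonneg_left (hge x hx) (by positivity)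
      _ = _ := by ring

end PWIdx

end HexObs
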