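import Pool.Agent.PW.JointA

/-!
# PW, joint laws (helper90): the abstract statement with weights

As `JointA`, the law of `a` in the finite set `S n` has the weights `p n a`. **`jointP_weak`** (along a sequence with a limit law
of `X`), **`jointP_all`** (without a limit law, from tightness).
-/

set_option autoImplicit false

noncomputable section

open MeasureTheory ProbabilityTheory Filter Topology
open scoped ENNReal NNReal BoundedContinuousFunction

namespace PW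

/-- the mean with weights -/
def pav {α : Type*} (S : Finset α) (p : α → ℝ) (f : α → ℝ) : ℝ := ∑ a ∈ S, p a * f a

section

variable {α : Type*} {S : Finset α} {p : α → ℝ}

lemma pav_add (f g : α → ℝ) : pav S p (fun a => f a + g a) = pav S p f + pav S p g := by
  unfold pav
  rw [← Finset.sum_add_distrib]
  exact Finset.sum_congr rfl fun a _ => by ring

lemma pav_mul (c : ℝ) (f : α → ℝ) : pav S p (fun a => c * f a) = c * pav S p f := by
  unfold pav
  rw [Finset.mul_sum]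
  exact Finset.sum_congr rfl fun a _ => by ring

lemma pav_const (hp1 : ∑ a ∈ S, p a = 1) (c : ℝ) : pav S p (fun _ => c) = c := by
  unfold pav
  rw [← Finset.sum_mul, hp1, one_mul]

lemma pav_mono (hp : ∀ a ∈ S, 0 ≤ p a) {f g : α → ℝ} (h : ∀ a ∈ S, f a ≤ g a) : pav S p f ≤ pav S p g :=
  Finset.sum_le_sum fun a ha => mul_le_mul_of_nonneg_left (h a ha) (hp a ha)

end

section

variable {ι : Type*} [Fintype ι] {α : ℕ → Type*} {S : ∀ n, Finset (α n)} {p : ∀ n, α n → ℝ} {E : Type*} [MetricSpace E]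
  {X : ∀ n, α n → E} {Y : ∀ n, α n → ι → ℝ} {μ : Measure (ι → ℝ)} [IsProbabilityMeasure μ]

/-- **hypothesis**: the characteristic function of `Y`, with Lipschitz functions of `X` -/
def CharP (S : ∀ n, Finset (α n)) (p : ∀ n, α n → ℝ) (X : ∀ n, α n → E) (Y : ∀ n, α n → ι → ℝ) (μ : Measure (ι → ℝ)) :
    Prop :=
  ∀ F : E → ℝ, (∃ K, LipschitzWith K F) → (∀ x, 0 ≤ F x ∧ F x ≤ 1) → ∀ t : ι → ℝ,
    Tendsto (fun n => (∑ a ∈ S n, ((p n a * F (X n a) : ℝ) : ℂ) * Complex.exp ((∑ j, t j * Y n a j : ℝ) * Complex.I)) -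
      ((pav (S n) (p n) (fun a => F (X n a)) : ℝ) : ℂ) * ∫ x, Complex.exp ((∑ j, t j * x j : ℝ) * Complex.I) ∂μ) atTop (𝓝 0)

variable (hp : ∀ n, ∀ a ∈ S n, 0 ≤ p n a) (hp1 : ∀ n, ∑ a ∈ S n, p n a = 1)

include hp hp1

/-- functions with values in `[1/2, 1]` -/
theorem pav_half (h : CharP S p X Y μ) {F : E → ℝ} (hF : ∃ K, LipschitzWith K F)
    (hF1 : ∀ x, 1 / 2 ≤ F x ∧ F x ≤ 1) (g : (ι → ℝ) →ᵇ ℝ) :
    Tendsto (fun n => pav (S n) (p n) (fun a => F (X n a) * g (Y n a)) -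
      pav (S n) (p n) (fun a => F (X n a)) * ∫ x, g x ∂μ) atTop (𝓝 0) := by
  have hlow : ∀ n, (1 / 2 : ℝ) ≤ pav (S n) (p n) (fun a => F (X n a)) := by
    intro n
    have h1 := pav_mono (hp n) (f := fun _ => (1 / 2 : ℝ)) (g := fun a => F (X n a)) fun a _ => (hF1 _).1
    rwa [pav_const (hp1 n)] at h1
  have hup : ∀ n, pav (S n) (p n) (fun a => F (X n a)) ≤ 1 := by
    intro n
    have h1 := pav_mono (hp n) (g := fun _ => (1 : ℝ)) (f := fun a => F (X n a)) fun a _ => (hF1 _).2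
    rwa [pav_const (hp1 n)] at h1
  have hs : ∀ n, 0 < pav (S n) (p n) (fun a => F (X n a)) := fun n => by linarith [hlow n]
  have h1 := h F hF fun x => ⟨by linarith [(hF1 x).1], (hF1 x).2⟩
  have h2 := lim_w (S := S) (W := fun n a => p n a * F (X n a)) (Y := Y) (μ := μ)
    (fun n a ha => mul_nonneg (hp n a ha) (by linarith [(hF1 (X n a)).1])) hs
    (fun t => by
      have h3 := h1 t
      rw [Metric.tendsto_atTop] at h3 ⊢
      intro ε hε
      obtain ⟨N, hN⟩ := h3 (ε / 2) (by positivity)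
      refine ⟨N, fun n hn => ?_⟩
      have h4 := hN n hn
      rw [dist_eq_norm, sub_zero] at h4
      rw [dist_eq_norm]
      obtain ⟨s, hs'⟩ : ∃ s : ℝ, s = pav (S n) (p n) (fun a => F (X n a)) := ⟨_, rfl⟩
      have hs0 : 0 < s := hs' ▸ hs n
      have hlow' : (1 / 2 : ℝ) ≤ s := hs' ▸ hlow n
      have e1 : ∑ a ∈ S n, p n a * F (X n a) = s := hs'.symm
      rw [← hs'] at h4
      rw [e1]
      obtain ⟨z, hz⟩ : ∃ z : ℂ, z = ∑ a ∈ S n, ((p n a * F (X n a) : ℝ) : ℂ) *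
        Complex.exp ((∑ j, t j * Y n a j : ℝ) * Complex.I) := ⟨_, rfl⟩
      obtain ⟨I, hI⟩ : ∃ I : ℂ, I = ∫ x, Complex.exp ((∑ j, t j * x j : ℝ) * Complex.I) ∂μ := ⟨_, rfl⟩
      rw [← hz, ← hI] at h4
      rw [← hz, ← hI]
      have hsc : (s : ℂ) ≠ 0 := by exact_mod_cast hs0.ne'
      have e2 : z / (s : ℂ) - I = ((1 / s : ℝ) : ℂ) * (z - (s : ℂ) * I) := by
        push_cast
        field_simp
      rw [e2, norm_mul, Complex.norm_of_nonneg (by positivity)]
      have h5 : 1 / s ≤ 2 := by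
        rw [div_le_iff₀ hs0]
        linarith
      calc 1 / s * ‖z - (s : ℂ) * I‖ ≤ 2 * ‖z - (s : ℂ) * I‖ := mul_le_mul_of_nonneg_right h5 (norm_nonneg _)
        _ < 2 * (ε / 2) := by linarith
        _ = ε := by ring) g
  rw [Metric.tendsto_atTop] at h2 ⊢
  intro ε hε
  obtain ⟨N, hN⟩ := h2 ε hε
  refine ⟨N, fun n hn => ?_⟩
  have h3 := hN n hn
  rw [Real.dist_eq] at h3
  rw [Real.dist_eq, sub_zero]
  have hs0 := hs n
  have e4 : ∑ a ∈ S n, p n a * F (X n a) * g (Y n a) = pav (S n) (p n) (fun a => F (X n a) * g (Y n a)) :=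
    Finset.sum_congr rfl fun a _ => by ring
  have e5 : ∑ a ∈ S n, p n a * F (X n a) = pav (S n) (p n) (fun a => F (X n a)) := rfl
  rw [e4, e5] at h3
  have e3 : pav (S n) (p n) (fun a => F (X n a) * g (Y n a)) - pav (S n) (p n) (fun a => F (X n a)) * ∫ x, g x ∂μ =
      pav (S n) (p n) (fun a => F (X n a)) * (pav (S n) (p n) (fun a => F (X n a) * g (Y n a)) /
        pav (S n) (p n) (fun a => F (X n a)) - ∫ x, g x ∂μ) := by
    field_simp
  rw [e3, abs_mul, abs_of_pos hs0]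
  calc _ ≤ 1 * |pav (S n) (p n) (fun a => F (X n a) * g (Y n a)) / pav (S n) (p n) (fun a => F (X n a)) - ∫ x, g x ∂μ| :=
        mul_le_mul_of_nonneg_right (hup n) (abs_nonneg _)
    _ < ε := by rwa [one_mul]

/-- the mean of `g Y` -/
theorem pav_one (h : CharP S p X Y μ) (g : (ι → ℝ) →ᵇ ℝ) :
    Tendsto (fun n => pav (S n) (p n) (fun a => g (Y n a))) atTop (𝓝 (∫ x, g x ∂μ)) := by
  have h1 := pav_half hp hp1 h (F := fun _ => 1) ⟨0, LipschitzWith.const 1⟩ (fun _ => by norm_num) g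
  simp only [one_mul] at h1
  have h2 := h1.add_const (∫ x, g x ∂μ)
  rw [zero_add] at h2
  refine h2.congr fun n => ?_
  rw [pav_const (hp1 n), one_mul, sub_add_cancel]

/-- **bounded Lipschitz functions of `X`** -/
theorem pav_lip (h : CharP S p X Y μ) {F : E → ℝ} (hF : ∃ K, LipschitzWith K F) {C : ℝ}
    (hC : ∀ x, |F x| ≤ C) (g : (ι → ℝ) →ᵇ ℝ) :
    Tendsto (fun n => pav (S n) (p n) (fun a => F (X n a) * g (Y n a)) -
      pav (S n) (p n) (fun a => F (X n a)) * ∫ x, g x ∂μ) atTop (𝓝 0) := by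
  obtain ⟨K, hK⟩ := hF
  obtain ⟨D, hD⟩ : ∃ D : ℝ, D = max C 0 + 1 := ⟨_, rfl⟩
  have hD0 : 0 < D := by
    rw [hD]
    linarith [le_max_right C 0]
  have hFD : ∀ x, |F x| ≤ D := fun x => (hC x).trans (by
    rw [hD]
    linarith [le_max_left C 0])
  have hF1 : ∃ K', LipschitzWith K' fun x => (3 + F x / D) / 4 := by
    refine ⟨⟨K / D / 4, by positivity⟩, LipschitzWith.of_dist_le_mul fun x y => ?_⟩
    have h1 := hK.dist_le_mul x y
    rw [Real.dist_eq] at h1 ⊢
    have e : (3 + F x / D) / 4 - (3 + F y / D) / 4 = (F x - F y) / (D * 4) := by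
      field_simp
      ring
    rw [e, abs_div, abs_of_pos (by positivity : 0 < D * 4), div_le_iff₀ (by positivity)]
    calc |F x - F y| ≤ K * dist x y := h1
      _ = (K / D / 4 : ℝ) * dist x y * (D * 4) := by field_simp
  have h2 := pav_half hp hp1 h hF1 (fun x => by
    have h3 := abs_le.1 (hFD x)
    have h4 : -1 ≤ F x / D := by
      rw [le_div_iff₀ hD0]
      linarith [h3.1]
    have h5 : F x / D ≤ 1 := by
      rw [div_le_one hD0]
      exact h3.2
    constructor <;> linarith) g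
  have h3 := (pav_one hp hp1 h g).sub_const (∫ x, g x ∂μ)
  rw [sub_self] at h3
  have h4 := ((h2.const_mul 4).sub (h3.const_mul 3)).const_mul D
  rw [mul_zero, mul_zero, sub_zero, mul_zero] at h4
  refine h4.congr fun n => ?_
  have e1 : pav (S n) (p n) (fun a => (3 + F (X n a) / D) / 4 * g (Y n a)) =
      3 / 4 * pav (S n) (p n) (fun a => g (Y n a)) + 1 / (4 * D) * pav (S n) (p n) (fun a => F (X n a) * g (Y n a)) := by
    rw [← pav_mul, ← pav_mul, ← pav_add]
    congr 1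
    funext a
    field_simp
  have e2 : pav (S n) (p n) (fun a => (3 + F (X n a) / D) / 4) =
      3 / 4 + 1 / (4 * D) * pav (S n) (p n) (fun a => F (X n a)) := by
    have e : (fun a => (3 + F (X n a) / D) / 4) = fun a => 3 / 4 + 1 / (4 * D) * F (X n a) := by
      funext a
      field_simp
    rw [e, pav_add, pav_const (hp1 n), pav_mul]
  rw [e1, e2]
  field_simp
  ring

variable [MeasurableSpace E] [BorelSpace E] {ν : Measure E} [IsProbabilityMeasure ν]

/-- bounded continuous functions of `X`, `g` with values in `[1/2, 1]` -/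
theorem pav_bdd_half
    (hX : ∀ F : E →ᵇ ℝ, Tendsto (fun n => pav (S n) (p n) (fun a => F (X n a))) atTop (𝓝 (∫ x, F x ∂ν)))
    (h : CharP S p X Y μ) (F : E →ᵇ ℝ) (g : (ι → ℝ) →ᵇ ℝ) (hg : ∀ y, 1 / 2 ≤ g y ∧ g y ≤ 1) :
    Tendsto (fun n => pav (S n) (p n) (fun a => F (X n a) * g (Y n a))) atTop (𝓝 ((∫ x, F x ∂ν) * ∫ y, g y ∂μ)) := by
  have hlow : ∀ n, (1 / 2 : ℝ) ≤ ∑ a ∈ S n, p n a * g (Y n a) := by
    intro n
    have h1 := pav_mono (hp n) (f := fun _ => (1 / 2 : ℝ)) (g := fun a => g (Y n a)) fun a _ => (hg _).1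
    rwa [pav_const (hp1 n)] at h1
  have hs : ∀ n, 0 < ∑ a ∈ S n, p n a * g (Y n a) := fun n => by linarith [hlow n]
  have hw : ∀ n, ∀ a ∈ S n, 0 ≤ p n a * g (Y n a) := fun n a ha => mul_nonneg (hp n a ha) (by linarith [(hg (Y n a)).1])
  have hI : 1 / 2 ≤ ∫ y, g y ∂μ := by
    have h1 : ∫ _y : ι → ℝ, (1 / 2 : ℝ) ∂μ ≤ ∫ y, g y ∂μ :=
      integral_mono (integrable_const _) (g.integrable μ) fun y => (hg y).1
    simpa using h1
  have key : Tendsto (fun n => toPM (wlaw (S n) (fun a => p n a * g (Y n a)) (X n)) (wlaw_prob (hw n) (hs n)))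
      atTop (𝓝 (toPM ν inferInstance)) := by
    rw [tendsto_iff_forall_lipschitz_integral_tendsto]
    rintro f ⟨C, hC⟩ ⟨L, hL⟩
    have hne : (S 0).Nonempty := by
      by_contra h0
      rw [Finset.not_nonempty_iff_eq_empty] at h0
      have h1 := hp1 0
      rw [h0, Finset.sum_empty] at h1
      exact zero_ne_one h1
    have hne : Nonempty E := ⟨X 0 hne.choose⟩
    obtain ⟨x0⟩ := hne
    have hb : ∀ x, |f x| ≤ C + |f x0| := by
      intro x
      have h1 := hC x x0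
      rw [Real.dist_eq] at h1
      have h2 : |f x| ≤ |f x - f x0| + |f x0| := by
        have := abs_add_le (f x - f x0) (f x0)
        rwa [sub_add_cancel] at this
      linarith
    have h1 := pav_lip hp hp1 h ⟨L, hL⟩ hb g
    obtain ⟨fb, hfb⟩ : ∃ fb : E →ᵇ ℝ, ∀ x, fb x = f x := ⟨⟨⟨f, hL.continuous⟩, C, hC⟩, fun _ => rfl⟩
    have h2 := hX fb
    simp only [hfb] at h2
    have h3 := pav_one hp hp1 h g
    have h4 : Tendsto (fun n => pav (S n) (p n) (fun a => f (X n a) * g (Y n a))) atTop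
        (𝓝 ((∫ x, f x ∂ν) * ∫ y, g y ∂μ)) := by
      have h5 := h1.add (h2.mul_const (∫ y, g y ∂μ))
      rw [zero_add] at h5
      exact h5.congr fun n => by ring
    have h5 := h4.div h3 (by linarith)
    rw [mul_div_cancel_right₀ _ (by linarith)] at h5
    refine h5.congr fun n => ?_
    show _ = ∫ x, f x ∂(wlaw (S n) (fun a => p n a * g (Y n a)) (X n))
    rw [wlaw_int hL.continuous.stronglyMeasurable (hw n) (hs n)]
    have e : (∑ a ∈ S n, (p n a * g (Y n a)) • f (X n a)) = ∑ a ∈ S n, p n a * (f (X n a) * g (Y n a)) :=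
      Finset.sum_congr rfl fun a _ => by rw [smul_eq_mul]; ring
    rw [e, smul_eq_mul, inv_mul_eq_div]
    rfl
  have h1 := (ProbabilityMeasure.tendsto_iff_forall_integral_tendsto.1 key) F
  have h2 := h1.mul (pav_one hp hp1 h g)
  refine h2.congr fun n => ?_
  show (∫ x, F x ∂(wlaw (S n) (fun a => p n a * g (Y n a)) (X n))) * _ = _
  rw [wlaw_int F.continuous.stronglyMeasurable (hw n) (hs n)]
  have e : (∑ a ∈ S n, (p n a * g (Y n a)) • F (X n a)) = pav (S n) (p n) (fun a => F (X n a) * g (Y n a)) :=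
    Finset.sum_congr rfl fun a _ => by rw [smul_eq_mul]; ring
  have e2 : pav (S n) (p n) (fun a => g (Y n a)) = ∑ b ∈ S n, p n b * g (Y n b) := rfl
  have h3 := (hs n).ne'
  rw [e, smul_eq_mul, e2]
  field_simp

/-- **bounded continuous functions of `X`** -/
theorem pav_bdd
    (hX : ∀ F : E →ᵇ ℝ, Tendsto (fun n => pav (S n) (p n) (fun a => F (X n a))) atTop (𝓝 (∫ x, F x ∂ν)))
    (h : CharP S p X Y μ) (F : E →ᵇ ℝ) (g : (ι → ℝ) →ᵇ ℝ) :
    Tendsto (fun n => pav (S n) (p n) (fun a => F (X n a) * g (Y n a))) atTop (𝓝 ((∫ x, F x ∂ν) * ∫ y, g y ∂μ)) := by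
  obtain ⟨D, hD⟩ : ∃ D : ℝ, D = ‖g‖ + 1 := ⟨_, rfl⟩
  have hD0 : 0 < D := by
    rw [hD]
    have := norm_nonneg g
    linarith
  obtain ⟨g1, hg1⟩ : ∃ g1 : (ι → ℝ) →ᵇ ℝ, ∀ y, g1 y = (3 + g y / D) / 4 := by
    refine ⟨(BoundedContinuousFunction.const _ (3 / 4 : ℝ)) + (1 / (4 * D)) • g, fun y => ?_⟩
    show 3 / 4 + 1 / (4 * D) * g y = _
    field_simp
  have h2 := pav_bdd_half hp hp1 hX h F g1 (fun y => by
    have h3 := abs_le.1 ((g.norm_coe_le_norm y).trans (by rw [hD]; linarith : ‖g‖ ≤ D))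
    have h4 : -1 ≤ g y / D := by
      rw [le_div_iff₀ hD0]
      linarith [h3.1]
    have h5 : g y / D ≤ 1 := by
      rw [div_le_one hD0]
      exact h3.2
    rw [hg1]
    constructor <;> linarith)
  have h3 := ((h2.const_mul 4).sub ((hX F).const_mul 3)).const_mul D
  have e0 : ∫ y, g1 y ∂μ = 3 / 4 + 1 / (4 * D) * ∫ y, g y ∂μ := by
    simp only [hg1]
    have e : (fun y => (3 + g y / D) / 4) = fun y => 3 / 4 + 1 / (4 * D) * g y := by
      funext y
      field_simp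
    rw [e, integral_add (integrable_const _) ((g.integrable μ).const_mul _), integral_const, integral_const_mul,
      probReal_univ, one_smul]
  have e1 : D * (4 * ((∫ x, F x ∂ν) * ∫ y, g1 y ∂μ) - 3 * ∫ x, F x ∂ν) = (∫ x, F x ∂ν) * ∫ y, g y ∂μ := by
    rw [e0]
    field_simp
    ring
  rw [e1] at h3
  refine h3.congr fun n => ?_
  have e2 : pav (S n) (p n) (fun a => F (X n a) * g1 (Y n a)) =
      3 / 4 * pav (S n) (p n) (fun a => F (X n a)) + 1 / (4 * D) * pav (S n) (p n) (fun a => F (X n a) * g (Y n a)) := by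
    rw [← pav_mul, ← pav_mul, ← pav_add]
    congr 1
    funext a
    rw [hg1]
    field_simp
  rw [e2]
  field_simp
  ring

end

section

variable {ι : Type*} [Fintype ι] {α : ℕ → Type*} {S : ∀ n, Finset (α n)} {p : ∀ n, α n → ℝ} {E : Type*} [MetricSpace E]
  [CompleteSpace E] [SecondCountableTopology E] [MeasurableSpace E] [BorelSpace E]
  {X : ∀ n, α n → E} {Y : ∀ n, α n → ι → ℝ} {μ : Measure (ι → ℝ)} [IsProbabilityMeasure μ]

/-- **joint weak convergence**: the law of the pair converges to the product -/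
theorem jointP_weak (hp : ∀ n, ∀ a ∈ S n, 0 ≤ p n a) (hp1 : ∀ n, ∑ a ∈ S n, p n a = 1) {ν : Measure E}
    [IsProbabilityMeasure ν]
    (hX : ∀ F : E →ᵇ ℝ, Tendsto (fun n => pav (S n) (p n) (fun a => F (X n a))) atTop (𝓝 (∫ x, F x ∂ν)))
    (h : CharP S p X Y μ) (f : (E × (ι → ℝ)) →ᵇ ℝ) :
    Tendsto (fun n => pav (S n) (p n) (fun a => f (X n a, Y n a))) atTop (𝓝 (∫ q, f q ∂(ν.prod μ))) := by
  have hs : ∀ n, 0 < ∑ a ∈ S n, p n a := fun n => by rw [hp1]; exact one_pos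
  have e1 : ∀ (n : ℕ) (f : E × (ι → ℝ) → ℝ), Continuous f →
      ∫ q, f q ∂(wlaw (S n) (p n) (fun a => (X n a, Y n a))) = pav (S n) (p n) (fun a => f (X n a, Y n a)) := by
    intro n f hf
    rw [wlaw_int hf.stronglyMeasurable (hp n) (hs n), hp1, inv_one, one_smul]
    rfl
  have key : Tendsto (fun n => toPM (wlaw (S n) (p n) (fun a => (X n a, Y n a))) (wlaw_prob (hp n) (hs n))) atTop
      (𝓝 ((toPM ν inferInstance).prod (toPM μ inferInstance))) := by
    refine tendsto_pair fun F g => ?_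
    refine (pav_bdd hp hp1 hX h F g).congr fun n => ?_
    exact (e1 n (fun q => F q.1 * g q.2) (by fun_prop)).symm
  have h1 := (ProbabilityMeasure.tendsto_iff_forall_integral_tendsto.1 key) f
  refine h1.congr fun n => ?_
  exact e1 n f f.continuous

/-- the mean over the second variable -/
lemma mean_snd (F : (E × (ι → ℝ)) →ᵇ ℝ) : ∃ G : E →ᵇ ℝ, ∀ x, G x = ∫ y, F (x, y) ∂μ := by
  have hb : ∀ x y, ‖F (x, y)‖ ≤ ‖F‖ := fun x y => F.norm_coe_le_norm _
  have hc : Continuous fun x : E => ∫ y, F (x, y) ∂μ := by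
    refine continuous_of_dominated (bound := fun _ => ‖F‖) (fun x => ?_) (fun x => Eventually.of_forall fun y => hb x y)
      (integrable_const _) (Eventually.of_forall fun y => ?_)
    · exact (by fun_prop : Continuous fun y => F (x, y)).stronglyMeasurable.aestronglyMeasurable
    · exact (by fun_prop : Continuous fun x => F (x, y))
  refine ⟨BoundedContinuousFunction.ofNormedAddCommGroup _ hc ‖F‖ fun x => ?_, fun x => rfl⟩
  refine (norm_integral_le_integral_norm _).trans ?_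
  calc ∫ y, ‖F (x, y)‖ ∂μ ≤ ∫ _y, ‖F‖ ∂μ :=
        integral_mono_of_nonneg (Eventually.of_forall fun y => norm_nonneg _) (integrable_const _)
          (Eventually.of_forall fun y => hb x y)
    _ = ‖F‖ := by simp

/-- **without a limit law** -/
theorem jointP_all (hp : ∀ n, ∀ a ∈ S n, 0 ≤ p n a) (hp1 : ∀ n, ∑ a ∈ S n, p n a = 1)
    (hsub : ∀ φ : ℕ → ℕ, StrictMono φ → ∃ ψ : ℕ → ℕ, StrictMono ψ ∧ ∃ ν : Measure E, IsProbabilityMeasure ν ∧
      ∀ F : E →ᵇ ℝ, Tendsto (fun k => pav (S (φ (ψ k))) (p (φ (ψ k))) (fun a => F (X (φ (ψ k)) a))) atTop (𝓝 (∫ x, F x ∂ν)))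
    (h : CharP S p X Y μ) (f : (E × (ι → ℝ)) →ᵇ ℝ) :
    Tendsto (fun n => pav (S n) (p n) (fun a => f (X n a, Y n a)) -
      pav (S n) (p n) (fun a => ∫ y, f (X n a, y) ∂μ)) atTop (𝓝 0) := by
  obtain ⟨G, hG⟩ := mean_snd (μ := μ) f
  refine tendsto_of_subseq_tendsto fun ns hns => ?_
  obtain ⟨φ, hφ, hφ2⟩ := strictMono_subseq_of_tendsto_atTop hns
  obtain ⟨ψ, hψ, ν, hν, hlaw⟩ := hsub (ns ∘ φ) hφ2
  refine ⟨fun k => φ (ψ k), ?_⟩
  have ht : Tendsto (fun k => ns (φ (ψ k))) atTop atTop := hφ2.tendsto_atTop.comp hψ.tendsto_atTop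
  have h1 := jointP_weak (S := fun k => S (ns (φ (ψ k)))) (p := fun k => p (ns (φ (ψ k))))
    (X := fun k => X (ns (φ (ψ k)))) (Y := fun k => Y (ns (φ (ψ k)))) (μ := μ) (ν := ν) (fun k => hp _) (fun k => hp1 _)
    hlaw (fun F hF hF1 t => (h F hF hF1 t).comp ht) f
  have h2 := hlaw G
  have e : ∫ q, f q ∂(ν.prod μ) = ∫ x, G x ∂ν := by
    rw [integral_prod _ (f.integrable _)]
    simp only [hG]
  rw [e] at h1
  have h3 := h1.sub h2
  rw [sub_self] at h3
  refine h3.congr fun k => ?_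
  simp only [hG]
  rfl

end

end PW

end
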