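import Pool.Agent.PW.CharU
import Pool.Agent.PW.JointP
import Pool.Agent.IW.TightP

/-!
# PW: the winding and the curve of the infinite self-avoiding walk (helper90)

`Y_n` = the first `n` steps of the infinite walk, divided by `n ^ (3 / 4)` (`icurve n`), `Θ_n(s)` = the winding of its first
`n ^ s` steps around the starting point, divided by `√(2 log n)`, `s ≤ 1`. **`inf_joint`** : `(Y_n, Θ_n)` is asymptotically the
pair (curve, independent Brownian motion). The walk with `N ∼ n / δ` steps is close to the infinite walk on the first `n` steps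
(coupling), and the curve of the first `n` steps is a Lipschitz function of the curve of the `N` steps.
-/

set_option autoImplicit false

noncomputable section

open MeasureTheory ProbabilityTheory Filter Topology
open scoped ENNReal NNReal BoundedContinuousFunction

namespace Pool.Agent.PW.Inf

open Pool.Agent.IW Pool.Agent.IW.Res

open Pool.Agent.PW.Res (windS tm)

/-! ### 1. Real functions of the first steps -/

lemma int_locR {m : ℕ} {g : (ℕ → Fin 3) → ℝ} (hg : ∀ w w', (∀ i, i < m → w i = w' i) → g w = g w')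
    (μ : Measure (ℕ → Fin 3)) [IsFiniteMeasure μ] :
    ∫ w, g w ∂μ = ∑ f : Fin m → Fin 3, μ.real (cyl m (ext f)) * g (ext f) := by
  have h := int_loc (g := fun w => (g w : ℂ)) (fun w w' hw => by
    simp only
    rw [hg w w' hw]) μ
  have e : ∫ w, ((g w : ℝ) : ℂ) ∂μ = ((∫ w, g w ∂μ : ℝ) : ℂ) := integral_ofReal
  rw [e] at h
  exact_mod_cast h

/-! ### 2. The curve of the first steps -/

/-- the curve of the first `n` steps from the curve of the `N` steps -/
def cutN (n N : ℕ) (h : n ≤ N) (γ : C(unitInterval, ℂ)) : C(unitInterval, ℂ) :=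
  ((NTS.Res.size N / (n : ℝ) ^ (3 / 4 : ℝ) : ℝ) : ℂ) • γ.comp ⟨Pool.Agent.IW.tm n N h, by
    unfold Pool.Agent.IW.tm
    fun_prop⟩

lemma cutN_curve {n N : ℕ} (hn : 1 ≤ n) (h : n ≤ N) (x : Fin N → Fin 3) :
    cutN n N h (NTS.Res.curve x) = icurve n (ext x) := by
  ext u
  rw [icurve_eq hn h x u]
  rfl

lemma cutN_dist {n N : ℕ} (h : n ≤ N) (γ γ' : C(unitInterval, ℂ)) :
    dist (cutN n N h γ) (cutN n N h γ') ≤ |NTS.Res.size N / (n : ℝ) ^ (3 / 4 : ℝ)| * dist γ γ' := by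
  rw [ContinuousMap.dist_le (by positivity)]
  intro u
  rw [dist_eq_norm]
  show ‖((NTS.Res.size N / (n : ℝ) ^ (3 / 4 : ℝ) : ℝ) : ℂ) • γ _ - ((NTS.Res.size N / (n : ℝ) ^ (3 / 4 : ℝ) : ℝ) : ℂ) • γ' _‖ ≤ _
  rw [← smul_sub, norm_smul, Complex.norm_real, Real.norm_eq_abs, ← dist_eq_norm]
  exact mul_le_mul_of_nonneg_left (ContinuousMap.dist_apply_le_dist _) (abs_nonneg _)

/-- the scaling factor is bounded -/
lemma fac_le {δ : ℝ} (hδ : 0 < δ) : ∃ A : ℝ≥0, ∀ n N : ℕ, (N : ℝ) ≤ (1 / δ + 1) * n →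
    |NTS.Res.size N / (n : ℝ) ^ (3 / 4 : ℝ)| ≤ A := by
  obtain ⟨c, C, hc, hsz, -⟩ := NTSF.finE
  refine ⟨Real.toNNReal (|C| * (1 / δ + 1) ^ (3 / 4 : ℝ)), fun n N hN => ?_⟩
  refine le_trans ?_ (Real.le_coe_toNNReal _)
  rcases Nat.eq_zero_or_pos n with rfl | hn
  · rw [Nat.cast_zero, Real.zero_rpow (by norm_num), div_zero, abs_zero]
    positivity
  · have hn' : (0 : ℝ) < (n : ℝ) ^ (3 / 4 : ℝ) := Real.rpow_pos_of_pos (by exact_mod_cast hn) _
    rw [abs_div, abs_of_pos hn', div_le_iff₀ hn']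
    rcases Nat.eq_zero_or_pos N with rfl | hN0
    · have e : NTS.Res.size 0 = 0 := by
        unfold NTS.Res.size
        simp [NTS.Res.pos]
      rw [e, abs_zero]
      positivity
    · have h1 := hsz N hN0
      have h2 : 0 ≤ NTS.Res.size N := (by positivity : (0 : ℝ) ≤ c * (N : ℝ) ^ (3 / 4 : ℝ)).trans h1.1
      rw [abs_of_nonneg h2]
      refine h1.2.trans ?_
      have h3 : (N : ℝ) ^ (3 / 4 : ℝ) ≤ (1 / δ + 1) ^ (3 / 4 : ℝ) * (n : ℝ) ^ (3 / 4 : ℝ) := by
        rw [← Real.mul_rpow (by positivity) (Nat.cast_nonneg _)]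
        exact Real.rpow_le_rpow (Nat.cast_nonneg _) hN (by norm_num)
      calc C * (N : ℝ) ^ (3 / 4 : ℝ) ≤ |C| * (N : ℝ) ^ (3 / 4 : ℝ) :=
            mul_le_mul_of_nonneg_right (le_abs_self C) (by positivity)
        _ ≤ |C| * ((1 / δ + 1) ^ (3 / 4 : ℝ) * (n : ℝ) ^ (3 / 4 : ℝ)) :=
            mul_le_mul_of_nonneg_left h3 (abs_nonneg _)
        _ = _ := by ring

/-! ### 3. The characteristic functions -/

/-- **what is needed**: the windings and functions of the curve of the walks with `N n` steps -/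
def CharNJ : Prop := ∀ (L : ℝ≥0) (g : ℕ → C(unitInterval, ℂ) → ℝ), (∀ n, LipschitzWith L (g n)) → (∀ n x, |g n x| ≤ 1) →
  ∀ (m : ℕ) (s : Fin m → ℝ), StrictMono s → (∀ j, 0 < s j) → ∀ N : ℕ → ℕ, (∀ n j, tm n (s j) ≤ N n) → ∀ u : Fin m → ℝ,
    Tendsto (fun n : ℕ => (∑ x ∈ saw (N n), (g n (NTS.Res.curve x) : ℂ) *
      Complex.exp ((∑ j, u j / √(Real.log n) * windS x (tm n (s j)) : ℝ) * Complex.I)) / ((saw (N n)).card : ℂ) -
      (∑ x ∈ saw (N n), (g n (NTS.Res.curve x) : ℂ)) / ((saw (N n)).card : ℂ) *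
        ((Real.exp (-(_root_.PW.bq s u)) : ℝ) : ℂ)) atTop (𝓝 0)

open NTSF NTSF.Cg in
/-- **from the words** -/
theorem charNJ_of {Φ : ℕ → ℝ → ℂ} {K : ℕ → ℕ} (h1 : _root_.PW.CylLim Φ (8 / 3)) (h2 : _root_.PW.TipCyl Φ psiW)
    (hψ : ∀ C b, Continuous (psiW C b)) (hψ0 : ∀ C b, psiW C b 0 = 1) (hKS : ∀ᶠ n in atTop, HexObs.TIP.Sc (K n) n)
    (hK : Tendsto (fun n : ℕ => Real.log ((2 ^ K n : ℕ) : ℝ) / Real.log n) atTop (𝓝 (3 / 4))) : CharNJ := by
  intro L g hg hg1 m s hs hs0 N hN u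
  rcases Nat.eq_zero_or_pos m with rfl | hm
  · have e2 : _root_.PW.bq s u = 0 := by simp [_root_.PW.bq]
    rw [e2, neg_zero, Real.exp_zero, Complex.ofReal_one]
    have e3 : ∀ n, (∑ x ∈ saw (N n), (g n (NTS.Res.curve x) : ℂ) *
        Complex.exp ((∑ j : Fin 0, u j / √(Real.log n) * windS x (tm n (s j)) : ℝ) * Complex.I)) / ((saw (N n)).card : ℂ) -
        (∑ x ∈ saw (N n), (g n (NTS.Res.curve x) : ℂ)) / ((saw (N n)).card : ℂ) * 1 = 0 := by
      intro n
      simp
    simp only [e3]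
    exact tendsto_const_nhds
  obtain ⟨C, hC⟩ := fsc_lip
  have hN1 : ∀ᶠ n in atTop, 1 ≤ N n := by
    filter_upwards [(_root_.PW.tm_tendsto (hs0 ⟨0, hm⟩)).eventually_ge_atTop 1] with n hn
    exact hn.trans (hN n ⟨0, hm⟩)
  have key := char_gen (f := fun n => fsc (g n) (N n)) (L := L * C) (N := N) (κ := fun j n => tm n (s j)) (r := s) h1 h2
    hψ hψ0 hKS hK (fun n => hC (g n) L (hg n) (N n)) (fun n x => fsc_abs (hg1 n) _ _) (Eventually.of_forall hN) (by
      filter_upwards [eventually_ge_atTop 1] with n hn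
      intro i i' hi
      refine Nat.floor_le_floor (Real.rpow_le_rpow_of_exponent_le (by exact_mod_cast hn) (hs.monotone hi)))
    (fun j => _root_.PW.tm_tendsto (hs0 j)) hs0 hs.monotone (fun j => _root_.PW.log_tm (hs0 j)) u
  refine key.congr' ?_
  filter_upwards [hN1] with n hn
  rw [JG_walks (κ := fun j n => tm n (s j)) hn (hN n) g, JG_walks (κ := fun j n => tm n (s j)) hn (hN n) g]
  congr 1
  congr 2
  refine Finset.sum_congr rfl fun x _ => ?_
  simp

variable {P : Measure (ℕ → Fin 3)} [IsProbabilityMeasure P]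

/-- **the characteristic functions for the infinite walk, with a function of the curve** -/
theorem inf_charJ (hC : CharNJ) (hP : Coup P) {F : C(unitInterval, ℂ) → ℝ} (hF : ∃ K, LipschitzWith K F)
    (hF1 : ∀ x, |F x| ≤ 1) {m : ℕ} {s : Fin m → ℝ} (hs : StrictMono s) (hs0 : ∀ j, 0 < s j) (hs1 : ∀ j, s j ≤ 1)
    (u : Fin m → ℝ) :
    Tendsto (fun n : ℕ => ∫ w, (F (icurve n w) : ℂ) *
        Complex.exp ((∑ j, u j / √(Real.log n) * windI w (tm n (s j)) : ℝ) * Complex.I) ∂P -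
      (∫ w, (F (icurve n w) : ℂ) ∂P) * ((Real.exp (-(_root_.PW.bq s u)) : ℝ) : ℂ)) atTop (𝓝 0) := by
  obtain ⟨c0, hc0⟩ : ∃ c0 : ℝ, c0 = Real.exp (-(_root_.PW.bq s u)) := ⟨_, rfl⟩
  have hc0' : 0 < c0 := hc0 ▸ Real.exp_pos _
  rw [← hc0]
  rw [Metric.tendsto_atTop]
  intro ε hε
  obtain ⟨δ, hδ, hδ1, hcl⟩ := hP (ε / (2 * (1 + c0))) (by positivity)
  obtain ⟨N, hN⟩ : ∃ N : ℕ → ℕ, N = fun n : ℕ => ⌈(n : ℝ) / δ⌉₊ := ⟨_, rfl⟩
  have hN1 : ∀ n : ℕ, (n : ℝ) ≤ δ * N n := fun n => by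
    have h1 : (n : ℝ) / δ ≤ N n := by
      rw [hN]
      exact Nat.le_ceil _
    rwa [div_le_iff₀ hδ, mul_comm] at h1
  have hN2 : ∀ n : ℕ, n ≤ N n := fun n => by
    have h1 : (n : ℝ) ≤ N n := (hN1 n).trans (by
      have : (0 : ℝ) ≤ N n := Nat.cast_nonneg _
      nlinarith)
    exact_mod_cast h1
  have hN3 : ∀ n : ℕ, (N n : ℝ) ≤ (1 / δ + 1) * n := by
    intro n
    rcases Nat.eq_zero_or_pos n with rfl | hn
    · rw [hN]
      simp
    · have h1 : (N n : ℝ) < (n : ℝ) / δ + 1 := by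
        rw [hN]
        exact Nat.ceil_lt_add_one (by positivity)
      have h2 : (1 : ℝ) ≤ n := by exact_mod_cast hn
      have e : (1 / δ + 1) * (n : ℝ) = (n : ℝ) / δ + n := by ring
      rw [e]
      linarith
  obtain ⟨A, hA⟩ := fac_le hδ
  obtain ⟨K, hK⟩ := hF
  obtain ⟨g, hg⟩ : ∃ g : ℕ → C(unitInterval, ℂ) → ℝ, ∀ n γ, g n γ = F (cutN n (N n) (hN2 n) γ) := ⟨_, fun _ _ => rfl⟩
  have hgL : ∀ n, LipschitzWith (K * A) (g n) := fun n => LipschitzWith.of_dist_le_mul fun x y => by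
    rw [hg, hg]
    refine (hK.dist_le_mul _ _).trans ?_
    rw [NNReal.coe_mul, mul_assoc]
    refine mul_le_mul_of_nonneg_left ((cutN_dist (hN2 n) x y).trans ?_) K.2
    exact mul_le_mul_of_nonneg_right (hA n (N n) (hN3 n)) dist_nonneg
  obtain ⟨N', hN'⟩ : ∃ N' : ℕ → ℕ, N' = fun n : ℕ => max (N n) 1 := ⟨_, rfl⟩
  have htm : ∀ n j, tm n (s j) ≤ N' n := by
    intro n j
    rw [hN']
    rcases Nat.eq_zero_or_pos n with rfl | hn
    · refine le_trans ?_ (le_max_right _ _)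
      unfold Pool.Agent.PW.Res.tm
      rw [Nat.cast_zero, Real.zero_rpow (hs0 j).ne', Nat.floor_zero]
      exact Nat.zero_le _
    · exact ((_root_.PW.tm_le hn (hs1 j)).trans (hN2 n)).trans (le_max_left _ _)
  have h2 := hC (K * A) g hgL (fun n x => by rw [hg]; exact hF1 _) m s hs hs0 N' htm u
  rw [← hc0] at h2
  rw [Metric.tendsto_atTop] at h2
  obtain ⟨n0, hn0⟩ := h2 (ε / 2) (by positivity)
  refine ⟨max n0 1, fun n hn => ?_⟩
  have hn1 : 1 ≤ n := (le_max_right _ _).trans hn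
  have hNn : N' n = N n := by
    rw [hN']
    exact max_eq_left (hn1.trans (hN2 n))
  have h3 := hn0 n ((le_max_left _ _).trans hn)
  rw [hNn] at h3
  -- the two means
  have hloc : ∀ w w' : ℕ → Fin 3, (∀ i, i < n → w i = w' i) → icurve n w = icurve n w' := fun w w' h => icurve_loc h
  have h4 := close_of (P := P) (g := fun w => (F (icurve n w) : ℂ) *
      Complex.exp ((∑ j, u j / √(Real.log n) * windI w (tm n (s j)) : ℝ) * Complex.I))
    (hN2 n) (hcl (N n) n (hN1 n)) (fun w w' h => by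
      simp only
      rw [hloc w w' h]
      congr 4
      refine Finset.sum_congr rfl fun j _ => ?_
      rw [windI_loc (_root_.PW.tm_le hn1 (hs1 j)) h]) (fun w => by
      rw [norm_mul, Complex.norm_exp_ofReal_mul_I, mul_one, Complex.norm_real]
      exact hF1 _)
  have h5 := close_of (P := P) (g := fun w => (F (icurve n w) : ℂ))
    (hN2 n) (hcl (N n) n (hN1 n)) (fun w w' h => by
      simp only
      rw [hloc w w' h]) (fun w => by
      rw [Complex.norm_real]
      exact hF1 _)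
  have e1 : ∀ x ∈ saw (N n), (F (icurve n (ext x)) : ℂ) *
      Complex.exp ((∑ j, u j / √(Real.log n) * windI (ext x) (tm n (s j)) : ℝ) * Complex.I) =
      (g n (NTS.Res.curve x) : ℂ) *
      Complex.exp ((∑ j, u j / √(Real.log n) * windS x (tm n (s j)) : ℝ) * Complex.I) := by
    intro x _
    rw [hg, cutN_curve hn1]
    congr 4
    refine Finset.sum_congr rfl fun j _ => ?_
    rw [windI_ext x ((_root_.PW.tm_le hn1 (hs1 j)).trans (hN2 n))]
  have e2 : ∀ x ∈ saw (N n), (F (icurve n (ext x)) : ℂ) = (g n (NTS.Res.curve x) : ℂ) := by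
    intro x _
    rw [hg, cutN_curve hn1]
  rw [Finset.sum_congr rfl e1] at h4
  rw [Finset.sum_congr rfl e2] at h5
  rw [dist_eq_norm, sub_zero] at h3 ⊢
  obtain ⟨X, hX⟩ : ∃ X : ℂ, X = (∑ x ∈ saw (N n), (g n (NTS.Res.curve x) : ℂ) *
    Complex.exp ((∑ j, u j / √(Real.log n) * windS x (tm n (s j)) : ℝ) * Complex.I)) / ((saw (N n)).card : ℂ) := ⟨_, rfl⟩
  obtain ⟨Z, hZ⟩ : ∃ Z : ℂ, Z = (∑ x ∈ saw (N n), (g n (NTS.Res.curve x) : ℂ)) / ((saw (N n)).card : ℂ) := ⟨_, rfl⟩
  rw [← hX] at h3 h4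
  rw [← hZ] at h3 h5
  have e3 : ∀ B D : ℂ, B - D * (c0 : ℂ) = (X - Z * (c0 : ℂ)) - (X - B) + (Z - D) * (c0 : ℂ) := fun B D => by ring
  rw [e3]
  have h6 : ∀ p q r : ℂ, ‖p - q + r‖ ≤ ‖p‖ + ‖q‖ + ‖r‖ := fun p q r =>
    (norm_add_le _ _).trans (add_le_add_left (norm_sub_le _ _) _)
  refine (h6 _ _ _).trans_lt ?_
  rw [norm_mul, Complex.norm_real, Real.norm_of_nonneg hc0'.le]
  have h7 := mul_le_mul_of_nonneg_right h5 hc0'.le
  have e4 : ε / (2 * (1 + c0)) + ε / (2 * (1 + c0)) * c0 = ε / 2 := by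
    field_simp
  linarith

/-! ### 4. Weak convergence -/

/-- **the winding and the curve of the infinite walk** -/
theorem inf_joint (hC : CharNJ) (hP : Coup P) (hH : HolSt P) (I : Finset ℝ≥0) (hI : ∀ s ∈ I, s ≤ 1)
    (F : (C(unitInterval, ℂ) × (I → ℝ)) →ᵇ ℝ) :
    Tendsto (fun n : ℕ => ∫ w, F (icurve n w, fun s : I => windI w (tm n s) / √(2 * Real.log n)) ∂P -
      ∫ w, (∫ y, F (icurve n w, y) ∂(BrownianReal.projectiveFamily I)) ∂P) atTop (𝓝 0) := by
  have hlocC : ∀ (n : ℕ) (w w' : ℕ → Fin 3), (∀ i, i < n → w i = w' i) → icurve n w = icurve n w' :=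
    fun n w w' h => icurve_loc h
  have hI1 : ∀ s : I, ((s : ℝ≥0) : ℝ) ≤ 1 := fun s => by exact_mod_cast hI s.1 s.2
  have hlocW : ∀ n : ℕ, 1 ≤ n → ∀ w w' : ℕ → Fin 3, (∀ i, i < n → w i = w' i) → ∀ s : I,
      windI w (tm n s) = windI w' (tm n s) := fun n hn w w' h s => windI_loc (_root_.PW.tm_le hn (hI1 s)) h
  have hp1 : ∀ n : ℕ, ∑ f : Fin n → Fin 3, P.real (cyl n (ext f)) = 1 := fun n => by
    have h := int_locR (m := n) (g := fun _ => 1) (fun _ _ _ => rfl) P
    simpa using h.symm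
  have key := _root_.PW.jointP_all (α := fun n => Fin n → Fin 3) (S := fun n => Finset.univ)
    (p := fun n f => P.real (cyl n (ext f))) (X := fun n f => icurve n (ext f))
    (Y := fun n f (s : I) => windI (ext f) (tm n s) / √(2 * Real.log n)) (μ := BrownianReal.projectiveFamily I)
    (fun n f _ => measureReal_nonneg) hp1 (fun φ hφ => by
      obtain ⟨ψ, hψ, ν, hν, hlim⟩ := sub_P hH φ hφ
      refine ⟨ψ, hψ, ν, hν, fun G => (hlim G).congr fun k => ?_⟩
      exact int_locR (m := φ (ψ k)) (g := fun w => G (icurve (φ (ψ k)) w)) (fun w w' h =>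
        congrArg G (hlocC _ w w' h)) P) (fun G hG hG1 t => by
      have hG1' : ∀ x, |G x| ≤ 1 := fun x => by
        have := hG1 x
        rw [abs_le]
        constructor <;> linarith [this.1, this.2]
      have h1 := inf_charJ hC hP hG hG1' (_root_.PW.tt_mono I) (fun j => _root_.PW.tt_pos I j)
        (fun j => _root_.PW.tt_le I hI j) (fun j => _root_.PW.tc I t j / √2)
      rw [_root_.PW.bq_sqrt] at h1
      rw [_root_.PW.char_brown, _root_.PW.bq_tc]
      refine h1.congr' ?_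
      filter_upwards [eventually_ge_atTop 1] with n hn
      congr 1
      · rw [int_loc (m := n) (g := fun w => (G (icurve n w) : ℂ) *
            Complex.exp ((∑ j, _root_.PW.tc I t j / √2 / √(Real.log n) * windI w (tm n (_root_.PW.tt I j)) : ℝ) *
              Complex.I)) (fun w w' h => by
          simp only
          rw [hlocC n w w' h]
          congr 4
          refine Finset.sum_congr rfl fun j _ => ?_
          rw [windI_loc (_root_.PW.tm_le hn (_root_.PW.tt_le I hI j)) h])]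
        refine Finset.sum_congr rfl fun f _ => ?_
        rw [Complex.ofReal_mul, mul_assoc]
        congr 5
        have z1 : windI (ext f) (tm n 0) = 0 := by
          rw [_root_.PW.tm_zero]
          unfold windI
          simp
        rw [_root_.PW.sum_tc I t (fun s => windI (ext f) (tm n s) / √(2 * Real.log n)) (by rw [z1, zero_div])]
        have e3 : √(2 * Real.log n) = √2 * √(Real.log n) := Real.sqrt_mul (by norm_num) _
        rw [e3]
        refine Finset.sum_congr rfl fun j _ => ?_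
        show _root_.PW.tc I t j / √2 / √(Real.log n) * windI (ext f) (tm n (_root_.PW.tt I j)) =
          _root_.PW.tc I t j * (windI (ext f) (tm n (_root_.PW.tt I j)) / (√2 * √(Real.log n)))
        rw [div_div, div_mul_eq_mul_div, mul_div_assoc]
      · congr 1
        have e4 : ∫ w, ((G (icurve n w) : ℝ) : ℂ) ∂P = ((∫ w, G (icurve n w) ∂P : ℝ) : ℂ) := integral_ofReal
        rw [e4]
        congr 1
        exact int_locR (m := n) (g := fun w => G (icurve n w)) (fun w w' h => congrArg G (hlocC n w w' h)) P) F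
  refine key.congr' ?_
  filter_upwards [eventually_ge_atTop 1] with n hn
  congr 1
  · refine (int_locR (m := n) (g := fun w => F (icurve n w, fun s : I => windI w (tm n s) / √(2 * Real.log n)))
      (fun w w' h => ?_) P).symm
    rw [hlocC n w w' h]
    congr 2
    funext s
    rw [hlocW n hn w w' h s]
  · refine (int_locR (m := n) (g := fun w => ∫ y, F (icurve n w, y) ∂(BrownianReal.projectiveFamily I))
      (fun w w' h => ?_) P).symm
    rw [hlocC n w w' h]

end Pool.Agent.PW.Inf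

end
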