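import Pool.Agent.JNT.Marks
import Pool.Agent.JNT.GoodE
import Pool.Agent.JNT.EventM
import Pool.Agent.JNT.Dir
import Pool.Agent.EN.EspM
import Pool.Agent.SIM.GeoIrg

/-!
PW: the number of the leaves of a macroscopic resolution is tight for the critical walks of a box with a given end
(helper68, for rows E1): among n leaves of a walk with at most Lam m K letters half are short, and the labelled norm of
the runs with many short leaves is small.
-/

set_option autoImplicit false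

namespace HexObs

namespace PWd

open Finset TS SDN NTW NTA EN JNT

open scoped ENNReal

/-- at most a part eps of the weight of the walks of the box 2 ^ (K + J) with the end y and at most Lam m K letters has
n0 or more leaves of the resolution 2 ^ (K - C) in one of the two directions -/
def LeafY : Prop := ∀ (ε Lam : ℝ) (C J : ℕ), 0 < ε → 0 < Lam → ∃ n0 K0 : ℕ, ∀ (K : ℕ) (y : Pt), K0 ≤ K →
  gf {t | t ∈ WL (K + J) ∧ vx oo up t t.length = y ∧ (t.length : ℝ) ≤ Lam * PW.mZ (2 ^ K) ∧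
    ∃ (dir : Bool) (m u : ℕ) (e : ℕ → ℕ), Lf dir (K - C + 5) t m u e ∧ n0 ≤ m} ≤
    ENNReal.ofReal (ε * (Ub K / 4 ^ K)) * Xb K ^ 2

open Classical in
/-- runs of n leaves of the box, s of them shorter than lam -/
noncomputable def RnS (kc J n s j0 : ℕ) (lam : ℝ) : Set (List (List Bool)) :=
  {gs | gs.length = n ∧ s + j0 ≤ n ∧ (∀ g ∈ gs, g ∈ BrR (2 ^ (kc + 4)) (2 ^ (kc + J + 2))) ∧
    s ≤ (gs.filter (fun g => decide (g ∈ NTm.SL kc (J + 2) lam))).length}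

open Classical in
/-- the labelled norm -/
theorem rnS_norm : ∃ (j0 : ℕ) (k0 : ℕ) (q0 A C2 : ℝ), 1 ≤ q0 ∧ 1 ≤ A ∧ 1 ≤ C2 ∧ ∀ kc J n s : ℕ, k0 ≤ kc → ∀ y : ℝ,
    0 < y → y ≤ 1 → SmRL labE DmJ kc (RnS kc J n s j0 (y * PW.mZ (2 ^ kc)))
      ((4 * (q0 * 2 ^ J)) ^ n * ((A * 4 ^ (J + 2) * y ^ 1) ^ s * (C2 ^ (J + 1) / 4 ^ kc))) := by
  obtain ⟨J00, h0⟩ := gbmL_E
  obtain ⟨C2, k0, hC2, hG⟩ := h0 J00 le_rfl
  obtain ⟨q0, hq0, hbox⟩ := EN.smD_box
  obtain ⟨A, hA, hS⟩ := shortM_M asm_M 1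
  refine ⟨J00 + 1, k0, q0, A, C2, hq0, hA, hC2, fun kc J n s hk y hy hy1 => ?_⟩
  have hq1 : (1 : ℝ) ≤ q0 * 2 ^ J := one_le_mul_of_one_le_of_one_le hq0 (one_le_pow₀ (by norm_num))
  have hδ : (0 : ℝ) ≤ A * 4 ^ (J + 2) * y ^ 1 := by positivity
  exact smRL_marks dmP inH_box hδ hq1 (hG kc J hk) (hbox kc J) (hS kc (J + 2) y hy hy1) n s

/-- the growth of the mean length -/
lemma mZ_up : ∃ B : ℝ, 1 ≤ B ∧ ∀ k C : ℕ, PW.mZ (2 ^ (k + C)) ≤ B ^ C * PW.mZ (2 ^ k) := by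
  obtain ⟨B, hB, h⟩ := mup_M
  refine ⟨B, hB, fun k C => ?_⟩
  induction C with
  | zero => simp
  | succ C ih =>
    have h1 := h (k + C)
    simp only at h1
    rw [show k + (C + 1) = k + C + 1 by omega]
    refine h1.trans ?_
    rw [pow_succ', mul_assoc]
    exact mul_le_mul_of_nonneg_left ih (by linarith)

lemma lw_len {t : List Bool} {a b : ℕ} (h : a < b) : (lw t a b).length ≤ b - a := by
  unfold lw
  rw [List.length_append, List.length_take, List.length_singleton]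
  omega

lemma lws_sum {t : List Bool} {e : ℕ → ℕ} {l : ℕ} (n : ℕ) (h : ∀ j, l ≤ j → j < l + n → e j < e (j + 1)) :
    ((lws t e l n).map List.length).sum + e l ≤ e (l + n) := by
  induction n with
  | zero => simp [lws]
  | succ n ih =>
    have h1 := ih (fun j h2 h3 => h j h2 (by omega))
    have h2 := h (l + n) (by omega) (by omega)
    have h3 := lw_len (t := t) h2
    have h4 : lws t e l (n + 1) = lws t e l n ++ [lw t (e (l + n)) (e (l + n + 1))] := by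
      unfold lws
      rw [List.range_succ, List.map_append]
      rfl
    rw [h4, List.map_append, List.sum_append]
    simp only [List.map_cons, List.map_nil, List.sum_cons, List.sum_nil, add_zero]
    rw [show l + (n + 1) = l + n + 1 by omega]
    omega

open Classical in
lemma cnt {lam : ℝ} {kc J : ℕ} (gs : List (List Bool))
    (h : ∀ g ∈ gs, g ∈ BrR (2 ^ (kc + 4)) (2 ^ (kc + J + 2))) :
    lam * gs.length ≤ ((gs.map List.length).sum : ℕ) +
      lam * (gs.filter (fun g => decide (g ∈ NTm.SL kc (J + 2) lam))).length := by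
  induction gs with
  | nil => simp
  | cons g gs ih =>
    have h1 := ih (fun g' hg' => h g' (List.mem_cons_of_mem _ hg'))
    have h2 : g ∈ BrR (2 ^ (kc + 4)) (2 ^ (kc + (J + 2))) := by
      have := h g List.mem_cons_self
      rwa [show kc + J + 2 = kc + (J + 2) by omega] at this
    obtain ⟨S, hS⟩ : ∃ S, S = (gs.map List.length).sum := ⟨_, rfl⟩
    rw [List.length_cons, List.map_cons, List.sum_cons, List.filter_cons, ← hS]
    rw [← hS] at h1
    rw [Nat.cast_add, Nat.cast_add, Nat.cast_one]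
    by_cases hg : g ∈ NTm.SL kc (J + 2) lam
    · have e1 : decide (g ∈ NTm.SL kc (J + 2) lam) = true := by simpa using hg
      rw [if_pos e1, List.length_cons, Nat.cast_add, Nat.cast_one]
      have h3 : (0 : ℝ) ≤ g.length := Nat.cast_nonneg _
      nlinarith
    · have e1 : ¬ decide (g ∈ NTm.SL kc (J + 2) lam) = true := by simpa using hg
      rw [if_neg e1]
      have h3 : lam ≤ g.length := by
        by_contra hc
        exact hg ⟨h2, not_le.1 hc⟩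
      nlinarith

/-- the geometry: a walk with many leaves and few letters has a run of n leaves with many short ones -/
theorem geoY {kc J n s p j0 : ℕ} {dir : Bool} {lam L : ℝ} {t : List Bool} {m u : ℕ} {e : ℕ → ℕ} (hlam : 0 < lam)
    (hW : t ∈ WL (kc + J)) (hL : (t.length : ℝ) ≤ L) (hp : L ≤ lam * p) (hs : s + p ≤ n) (hs0 : s + j0 ≤ n) (hn : 1 ≤ n)
    (hF : Lf dir (kc + 5) t m u e) (hm : n + 3 ≤ m) : t ∈ ERL dir kc (kc + J) (RnS kc J n s j0 lam) := by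
  classical
  have H : Hyst (fun i => lvl dir (vx oo up t i)) t.length (RR (kc + 5)) m u e := hF
  refine ⟨hW, m, u, e, hF, 2, n, le_rfl, hn, by omega, ?_⟩
  have hA : ∀ g ∈ lws t e 2 n, g ∈ BrR (2 ^ (kc + 4)) (2 ^ (kc + J + 2)) := by
    intro g hg
    obtain ⟨i, hi, rfl⟩ := NC.lws_mem hg
    obtain ⟨k, k1, k2, -, k4⟩ := NC.int_leafD hW.1 (by omega : 1 ≤ kc + 5) hF (j := 2 + i) (by omega) (by omega)
    have h5 : 2 ^ (kc + 5) = 2 * 2 ^ (kc + 4) := by rw [← pow_succ']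
    have h6 := Nat.one_le_two_pow (n := kc + 4)
    have e1 : e (2 + i + 1) ≤ t.length := by
      have h7 : e (2 + i + 1) ≤ e m := H.monoA (by omega) le_rfl
      exact h7.trans H.le
    have e2 : e (2 + i) ≤ t.length := by
      have := H.lt (2 + i) (by omega)
      omega
    have r1 := hW.2 (e (2 + i + 1)) e1 dir
    have r2 := hW.2 (e (2 + i)) e2 dir
    unfold row at r1 r2
    obtain ⟨X, hX⟩ : ∃ X : ℕ, X = 2 ^ (kc + J) := ⟨_, rfl⟩
    have hX1 : 1 ≤ X := by rw [hX]; exact Nat.one_le_two_pow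
    have hXz : ((2 : ℤ) ^ (kc + J)) = X := by rw [hX]; push_cast; rfl
    rw [hXz] at r1 r2
    have h8 : k ≤ 4 * X := by
      rcases abs_le.1 r1 with ⟨a1, a2⟩
      rcases abs_le.1 r2 with ⟨b1, b2⟩
      rcases abs_cases (lvl dir (vx oo up t (e (2 + i + 1))) - lvl dir (vx oo up t (e (2 + i)))) with ⟨c1, -⟩ | ⟨c1, -⟩
      · rw [c1] at k4
        omega
      · rw [c1] at k4
        omega
    refine ⟨k, by omega, ?_, k1⟩
    rw [pow_add 2 (kc + J) 2, ← hX]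
    omega
  refine ⟨SDN.PE.lws_length _ _ _ _, hs0, hA, ?_⟩
  have h1 := cnt (lam := lam) (kc := kc) (J := J) (lws t e 2 n) hA
  rw [SDN.PE.lws_length] at h1
  have h2 := lws_sum (t := t) (e := e) (l := 2) n (fun j _ h4 => H.lt j (by omega))
  have h3 : e (2 + n) ≤ t.length := by
    have h7 : e (2 + n) ≤ e m := H.monoA (by omega) le_rfl
    exact h7.trans H.le
  obtain ⟨S, hS⟩ : ∃ S, S = ((lws t e 2 n).map List.length).sum := ⟨_, rfl⟩
  rw [← hS] at h1 h2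
  have h4 : (S : ℝ) ≤ L := by
    refine le_trans ?_ hL
    have : S ≤ t.length := by omega
    exact_mod_cast this
  obtain ⟨N, hN⟩ : ∃ N, N = ((lws t e 2 n).filter (fun g => decide (g ∈ NTm.SL kc (J + 2) lam))).length := ⟨_, rfl⟩
  rw [← hN] at h1 ⊢
  have h5 : lam * n ≤ lam * (p + N) := by
    rw [mul_add]
    linarith
  have h6 : (n : ℝ) ≤ p + N := le_of_mul_le_mul_left h5 hlam
  have h7 : n ≤ p + N := by exact_mod_cast h6
  omega

/-- **the number of the leaves is tight at a fixed end** -/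
theorem leafY : LeafY := by
  classical
  intro ε Lam C J hε hLam
  obtain ⟨j0, k0, q0, A, C2, hq0, hA, hC2, hN⟩ := rnS_norm
  obtain ⟨B, hB, hmB⟩ := mZ_up
  obtain ⟨CR, k3, hCR, hrun⟩ := runLn_of labR_E eventRL_E
  obtain ⟨D, hD, hXD⟩ := Xb_pow
  have hD0 : 0 < D := by linarith
  have hCR0 : 0 < CR := by linarith
  have hC20 : 0 < C2 := by linarith
  have hA0 : 0 < A := by linarith
  have hB0 : 0 < B := by linarith
  obtain ⟨JJ, hJJ⟩ : ∃ JJ, JJ = J + C + 6 := ⟨_, rfl⟩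
  obtain ⟨q, hq⟩ : ∃ q : ℝ, q = 4 * (q0 * 2 ^ JJ) := ⟨_, rfl⟩
  have hq1 : 0 < q := by rw [hq]; positivity
  -- Lam' = Lam B ^ C, y = Lam' / p
  obtain ⟨L1, hL1⟩ : ∃ L1 : ℝ, L1 = Lam * B ^ C := ⟨_, rfl⟩
  have hL10 : 0 < L1 := by rw [hL1]; positivity
  obtain ⟨a, ha⟩ : ∃ a : ℝ, a = A * 4 ^ (JJ + 2) * L1 := ⟨_, rfl⟩
  have ha0 : 0 < a := by rw [ha]; positivity
  obtain ⟨F, hF⟩ : ∃ F : ℝ, F = 2 * (CR ^ JJ * (C2 ^ (JJ + 1) * 4 ^ C) * 2 ^ (J + 6) * (D ^ (J + 6)) ^ 2) := ⟨_, rfl⟩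
  have hF0 : 0 < F := by rw [hF]; positivity
  -- the choice of p
  obtain ⟨p, hp1, hp2, hp3, hp4, hp5⟩ : ∃ p : ℕ, 1 ≤ p ∧ j0 ≤ p ∧ L1 ≤ p ∧ q ^ 4 * (a / p) ^ 2 ≤ 1 / 2 ∧
      F * (1 / 2) ^ p ≤ ε := by
    obtain ⟨p1, hp1⟩ := exists_nat_ge L1
    obtain ⟨p2, hp2⟩ := exists_nat_ge (2 * (q ^ 4 * a ^ 2))
    obtain ⟨p3, hp3⟩ := exists_pow_lt_of_lt_one (show 0 < ε / F by positivity) (by norm_num : (1 / 2 : ℝ) < 1)
    refine ⟨1 + j0 + p1 + p2 + p3, by omega, by omega, ?_, ?_, ?_⟩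
    · refine hp1.trans ?_
      exact_mod_cast (by omega : p1 ≤ 1 + j0 + p1 + p2 + p3)
    · obtain ⟨P, hP⟩ : ∃ P : ℝ, P = ((1 + j0 + p1 + p2 + p3 : ℕ) : ℝ) := ⟨_, rfl⟩
      rw [← hP]
      have h1 : (1 : ℝ) ≤ P := by
        rw [hP]
        exact_mod_cast (by omega : 1 ≤ 1 + j0 + p1 + p2 + p3)
      have h2 : (p2 : ℝ) ≤ P := by
        rw [hP]
        exact_mod_cast (by omega : p2 ≤ 1 + j0 + p1 + p2 + p3)
      have h3 : q ^ 4 * (a / P) ^ 2 = q ^ 4 * a ^ 2 / P ^ 2 := by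
        rw [div_pow]
        ring
      rw [h3, div_le_iff₀ (by positivity)]
      nlinarith
    · have h1 : (1 / 2 : ℝ) ^ (1 + j0 + p1 + p2 + p3) ≤ (1 / 2) ^ p3 :=
        pow_le_pow_of_le_one (by norm_num) (by norm_num) (by omega)
      have h2 := mul_le_mul_of_nonneg_left (h1.trans hp3.le) hF0.le
      refine h2.trans (le_of_eq ?_)
      field_simp
  have hp0 : (0 : ℝ) < p := by exact_mod_cast hp1
  obtain ⟨y, hy⟩ : ∃ y : ℝ, y = L1 / p := ⟨_, rfl⟩
  have hy0 : 0 < y := by rw [hy]; positivity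
  have hy1 : y ≤ 1 := by
    rw [hy, div_le_one hp0]
    exact hp3
  obtain ⟨n, hn⟩ : ∃ n, n = 4 * p := ⟨_, rfl⟩
  refine ⟨n + 3, k0 + k3 + C, fun K x hK => ?_⟩
  obtain ⟨kc, hkc⟩ : ∃ kc, K = kc + C := ⟨K - C, by omega⟩
  have hmpos : 0 < PW.mZ (2 ^ kc) := mlow_M.pos kc
  have hUK := Ub_pos K
  obtain ⟨lam, hlam⟩ : ∃ lam, lam = y * PW.mZ (2 ^ kc) := ⟨_, rfl⟩
  have hlam0 : 0 < lam := by rw [hlam]; positivity
  obtain ⟨δ, hδ⟩ : ∃ δ : ℝ, δ = q ^ n * ((A * 4 ^ (JJ + 2) * y ^ 1) ^ (2 * p) * (C2 ^ (JJ + 1) / 4 ^ kc)) := ⟨_, rfl⟩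
  have hδ0 : 0 < δ := by rw [hδ]; positivity
  have hS : SmRL labE DmJ kc (RnS kc JJ n (2 * p) j0 lam) δ := by
    rw [hδ, hlam, hq]
    exact hN kc JJ n (2 * p) (by omega) y hy0 hy1
  have hsub : {t | t ∈ WL (K + J) ∧ vx oo up t t.length = x ∧ (t.length : ℝ) ≤ Lam * PW.mZ (2 ^ K) ∧
      ∃ (dir : Bool) (m u : ℕ) (e : ℕ → ℕ), Lf dir (K - C + 5) t m u e ∧ n + 3 ≤ m} ⊆
      {t | labE t = x ∧ t ∈ ERL false kc (kc + JJ) (RnS kc JJ n (2 * p) j0 lam)} ∪
      {t | labE t = x ∧ t ∈ ERL true kc (kc + JJ) (RnS kc JJ n (2 * p) j0 lam)} := by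
    rintro t ⟨h1, h2, h3, dir, m, u, e, h4, h5⟩
    have h6 : t ∈ WL (kc + JJ) := by
      refine ⟨h1.1, fun i hi d => (h1.2 i hi d).trans ?_⟩
      exact pow_le_pow_right₀ (by norm_num) (by omega)
    rw [show K - C = kc by omega] at h4
    have h7 : Lam * PW.mZ (2 ^ K) ≤ lam * p := by
      have e1 := hmB kc C
      rw [← hkc] at e1
      calc Lam * PW.mZ (2 ^ K) ≤ Lam * (B ^ C * PW.mZ (2 ^ kc)) := mul_le_mul_of_nonneg_left e1 hLam.le
        _ = lam * p := by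
          rw [hlam, hy, hL1]
          field_simp
    have h8 := geoY (n := n) (s := 2 * p) (p := p) (j0 := j0) hlam0 h6 h3 h7 (by omega) (by omega) (by omega) h4 h5
    cases dir
    · exact Or.inl ⟨h2, h8⟩
    · exact Or.inr ⟨h2, h8⟩
  have b := fun dir => hrun dir kc JJ x (RnS kc JJ n (2 * p) j0 lam) δ (by omega) (by omega) hδ0 hS
  refine (gf_mono hsub).trans ((gf_union_le _ _).trans ((add_le_add (b false) (b true)).trans ?_))
  have hkJ : kc + JJ = K + (J + 6) := by omega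
  rw [hkJ, ← two_mul]
  have hU : Ub (K + (J + 6)) ≤ 2 ^ (J + 6) * Ub K := SDN.Ub_add K (J + 6)
  have hX := hXD K (J + 6)
  have hdel : δ * 4 ^ kc ≤ (1 / 2) ^ p * C2 ^ (JJ + 1) := by
    have e1 : (A * 4 ^ (JJ + 2) * y ^ 1) = a / p := by
      rw [hy, ha]
      ring
    have e2 : q ^ n * (a / p) ^ (2 * p) = (q ^ 4 * (a / p) ^ 2) ^ p := by
      rw [hn, mul_pow, ← pow_mul, ← pow_mul]
    have e3 : δ * 4 ^ kc = (q ^ 4 * (a / p) ^ 2) ^ p * C2 ^ (JJ + 1) := by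
      rw [hδ, e1, ← e2]
      field_simp
    rw [e3]
    refine mul_le_mul_of_nonneg_right ?_ (by positivity)
    exact pow_le_pow_left₀ (by positivity) hp4 p
  have h4K : (4 : ℝ) ^ K = 4 ^ kc * 4 ^ C := by rw [hkc, pow_add]
  calc 2 * (ENNReal.ofReal (CR ^ JJ * δ * Ub (K + (J + 6))) * Xb (K + (J + 6)) ^ 2)
      ≤ 2 * (ENNReal.ofReal (CR ^ JJ * δ * (2 ^ (J + 6) * Ub K)) * (ENNReal.ofReal (D ^ (J + 6)) * Xb K) ^ 2) := by
        refine mul_le_mul_right (mul_le_mul' (ENNReal.ofReal_le_ofReal ?_) (pow_le_pow_left' hX 2)) _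
        exact mul_le_mul_of_nonneg_left hU (by positivity)
    _ = ENNReal.ofReal (2 * (CR ^ JJ * δ * (2 ^ (J + 6) * Ub K)) * (D ^ (J + 6)) ^ 2) * Xb K ^ 2 := by
        rw [mul_pow, ← ENNReal.ofReal_pow (by positivity), ← mul_assoc, ← mul_assoc]
        congr 1
        rw [show (2 : ℝ≥0∞) = ENNReal.ofReal 2 by simp, ← ENNReal.ofReal_mul (by norm_num),
          ← ENNReal.ofReal_mul (by positivity)]
    _ ≤ _ := by
        refine mul_le_mul_left (ENNReal.ofReal_le_ofReal ?_) _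
        have e1 : δ ≤ (1 / 2) ^ p * C2 ^ (JJ + 1) / 4 ^ kc := by
          rw [le_div_iff₀ (by positivity)]
          exact hdel
        have e2 : 2 * (CR ^ JJ * δ * (2 ^ (J + 6) * Ub K)) * (D ^ (J + 6)) ^ 2 ≤
            2 * (CR ^ JJ * ((1 / 2) ^ p * C2 ^ (JJ + 1) / 4 ^ kc) * (2 ^ (J + 6) * Ub K)) * (D ^ (J + 6)) ^ 2 := by
          gcongr
        refine e2.trans ?_
        have e3 : 2 * (CR ^ JJ * ((1 / 2) ^ p * C2 ^ (JJ + 1) / 4 ^ kc) * (2 ^ (J + 6) * Ub K)) * (D ^ (J + 6)) ^ 2 =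
            F * (1 / 2) ^ p * (Ub K / 4 ^ K) := by
          rw [hF, h4K]
          field_simp
        rw [e3]
        exact mul_le_mul_of_nonneg_right hp5 (by positivity)

end PWd

end HexObs
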