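import Pool.Agent.PW.ChainT
import Pool.Agent.PW.LeafY

/-!
# PW, rows E1 (helper68): many leaves are rare, every end of the cylinder

`leafT_of`: `LeafTs` of `ChainT` from `leafY` (one end, no hypothesis) and the box and length tails `boxlen_of`
(all the lifts of the end in the box).
-/

set_option autoImplicit false

namespace HexObs

namespace PWd

open Finset TS SDN NTW NTA TPC TPC.An PW.BL

open scoped ENNReal

/-- **many leaves are rare, every end of the cylinder** -/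
theorem leafT_of (hE : EndX fun K => PW.mZ (2 ^ K))
    (hlo : ∃ c : ℝ, 0 < c ∧ ∀ k : ℕ, c * 2 ^ (4 / 3 * (k : ℝ)) ≤ PW.mZ (2 ^ k))
    (hup : ∃ C : ℝ, ∀ k : ℕ, PW.mZ (2 ^ k) ≤ C * 2 ^ (4 / 3 * (k : ℝ))) (hU : XUp) (hL : XLow) (hX : XDbl) (hS : SD) :
    LeafTs := by
  intro ε C hε
  obtain ⟨J, Λ, K0, hΛ, h1⟩ := boxlen_of hE hlo hup hU hL hX hS (ε / 2) (by positivity)
  obtain ⟨δ, hδd⟩ : ∃ δ : ℝ, δ = ε / (2 * 2 ^ (J + 2)) := ⟨_, rfl⟩
  have hδ : 0 < δ := by rw [hδd]; positivity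
  obtain ⟨n0, K1, h2⟩ := leafY δ Λ C J hδ hΛ
  refine ⟨n0, 2 ^ (max (max K0 K1) 1), fun k y hk => ?_⟩
  have hkL : max (max K0 K1) 1 ≤ Nat.log 2 k := Nat.le_log_of_pow_le (by norm_num) hk
  have hk0 : K0 ≤ Nat.log 2 k := (le_max_left _ _).trans ((le_max_left _ _).trans hkL)
  have hk1 : K1 ≤ Nat.log 2 k := (le_max_right _ _).trans ((le_max_left _ _).trans hkL)
  have hk2 : 1 ≤ Nat.log 2 k := (le_max_right _ _).trans hkL
  have h1 := h1 k y hk0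
  obtain ⟨K, hK⟩ : ∃ K, K = Nat.log 2 k := ⟨_, rfl⟩
  rw [← hK] at h1 hk1 hk2 ⊢
  have hkne : k ≠ 0 := by
    rintro rfl
    simp at hK
    omega
  have hKk : 2 ^ K ≤ k := by
    rw [hK]
    exact Nat.pow_log_le_self 2 hkne
  obtain ⟨F, hF⟩ : ∃ F : ℤ → Set (List Bool), F = fun z =>
      {t | (t ∈ WL (K + J) ∧ vx oo up t t.length = y + (2 * (k : ℤ) * z, 2 * (k : ℤ) * z) ∧
        (t.length : ℝ) ≤ Λ * PW.mZ (2 ^ K) ∧
        ∃ (dir : Bool) (m u : ℕ) (e : ℕ → ℕ), Lf dir (K - C + 5) t m u e ∧ n0 ≤ m) ∧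
        |row false y + 2 * (k : ℤ) * z| ≤ 2 ^ J * k} := ⟨_, rfl⟩
  have hsub : {t | t ∈ SA ∧ Dsj k t ∧ EndC k y (vx oo up t t.length) ∧
      ∃ (dir : Bool) (m u : ℕ) (e : ℕ → ℕ), Lf dir (K - C + 5) t m u e ∧ n0 ≤ m} ⊆
      {t | t ∈ SA ∧ Dsj k t ∧ EndC k y (vx oo up t t.length) ∧
        ¬(t ∈ WL (K + J) ∧ (t.length : ℝ) ≤ Λ * PW.mZ (2 ^ K))} ∪ ⋃ z : ℤ, F z := by
    rintro t ⟨a1, a2, a3, a4⟩
    by_cases hW : t ∈ WL (K + J) ∧ (t.length : ℝ) ≤ Λ * PW.mZ (2 ^ K)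
    · right
      obtain ⟨z, hz⟩ := a3
      refine Set.mem_iUnion.2 ⟨z, ?_⟩
      rw [hF]
      refine ⟨⟨hW.1, hz, hW.2, a4⟩, ?_⟩
      have h5 := hW.1.2 t.length le_rfl false
      rw [hz, row_lift] at h5
      refine h5.trans ?_
      rw [show (2 : ℤ) ^ (K + J) = 2 ^ J * 2 ^ K by rw [← pow_add, add_comm]]
      exact mul_le_mul_of_nonneg_left (by exact_mod_cast hKk) (by positivity)
    · left
      exact ⟨a1, a2, a3, hW⟩
  have h3 : ∑' z : ℤ, gf (F z) ≤ 2 ^ (J + 2) * (ENNReal.ofReal (δ * (Ub K / 4 ^ K)) * Xb K ^ 2) := by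
    refine tsum_lift (row false y) (Nat.one_le_iff_ne_zero.2 hkne) J (fun z => gf (F z)) _ (fun z => ?_) fun z hz => ?_
    · refine (gf_mono fun t ht => ?_).trans (h2 K (y + (2 * (k : ℤ) * z, 2 * (k : ℤ) * z)) hk1)
      rw [hF] at ht
      exact ht.1
    · have h4 : F z = ∅ := by
        rw [hF]
        exact Set.eq_empty_iff_forall_notMem.2 fun t ht => hz ht.2
      show gf (F z) = 0
      rw [h4]
      unfold gf
      simp
  have hU0 : 0 < Ub K := Num2Aux.UU_pos _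
  have h4 : (2 : ℝ≥0∞) ^ (J + 2) * (ENNReal.ofReal (δ * (Ub K / 4 ^ K)) * Xb K ^ 2) = ENNReal.ofReal (ε / 2) * gK K := by
    have e2 : (2 : ℝ≥0∞) ^ (J + 2) = ENNReal.ofReal (2 ^ (J + 2)) := by
      rw [ENNReal.ofReal_pow (by norm_num)]
      norm_num
    unfold gK
    rw [e2, ENNReal.ofReal_mul hδ.le, ← mul_assoc, ← mul_assoc, ← ENNReal.ofReal_mul (by positivity), mul_assoc]
    congr 2
    rw [hδd]
    field_simp
  calc _ ≤ gf {t | t ∈ SA ∧ Dsj k t ∧ EndC k y (vx oo up t t.length) ∧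
        ¬(t ∈ WL (K + J) ∧ (t.length : ℝ) ≤ Λ * PW.mZ (2 ^ K))} + gf (⋃ z : ℤ, F z) :=
        (gf_mono hsub).trans (gf_union_le _ _)
    _ ≤ ENNReal.ofReal (ε / 2) * gK K + ENNReal.ofReal (ε / 2) * gK K :=
        add_le_add h1 ((Pool.Agent.GLD.gf_iUnion_le _).trans (h3.trans h4.le))
    _ = ENNReal.ofReal ε * gK K := by
        rw [← add_mul, ← ENNReal.ofReal_add (by positivity) (by positivity)]
        congr 2
        ring

end PWd

end HexObs
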