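import Pool.Agent.PW.RM
import Pool.Agent.SLW.Defs

/-!
PW (winding of the walk): the core of the assembly for the plane ensemble (helper45): most levels have all their values near
the means (`TA_core`).
-/

set_option autoImplicit false

namespace HexObs

namespace PWN

open Finset TS SDN TIW SLW SLW.TW

namespace RM

/-- the far functional Ψ hardly sees a small end of class 0 -/
def Rob (r : ℕ) (Ψ er : List Bool → ℝ) : Prop := ∀ A Y : List Bool, A ++ Y ∈ SA → de Y = up →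
  (∀ i, i ≤ Y.length → hn (vx oo up Y i) < (r : ℤ)) → |Ψ (A ++ Y) - Ψ A| ≤ er (A ++ Y)

lemma gc_dist {c : ℝ} (hc : 0 < c) (x y : ℝ) : |gc c x - gc c y| ≤ |x - y| / c := by
  have key : ∀ x y : ℝ, x ≤ y → |gc c x - gc c y| ≤ |x - y| / c := by
    intro x y h
    have h1 := gc_anti hc h
    have h2 := gc_lip hc h
    rw [abs_of_nonneg (by linarith : 0 ≤ gc c x - gc c y), abs_sub_comm x y, abs_of_nonneg (by linarith : 0 ≤ y - x)]
    linarith
  rcases le_total x y with h | h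
  · exact key x y h
  · rw [abs_sub_comm, abs_sub_comm x y]
    exact key y x h

/-- the cutoff of the levels above -/
lemma Rob_gc {r M l : ℕ} {c ω : ℝ} (hc : 0 < c) {a b : ℕ → List Bool → ℝ}
    (h : ∀ j, l < j → j < M → Rob r (a j) (fun t => ω * b j t)) :
    Rob r (fun t => gc c (Ta (fun j => a j t) M (l + 1))) (fun t => ω / c * ∑ j ∈ Ico (l + 1) M, b j t) := by
  intro A Y hA hd hY
  refine (gc_dist hc _ _).trans ?_
  have e : ω / c * ∑ j ∈ Ico (l + 1) M, b j (A ++ Y) = (∑ j ∈ Ico (l + 1) M, ω * b j (A ++ Y)) / c := by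
    rw [← mul_sum]
    ring
  show |Ta (fun j => a j (A ++ Y)) M (l + 1) - Ta (fun j => a j A) M (l + 1)| / c ≤
    ω / c * ∑ j ∈ Ico (l + 1) M, b j (A ++ Y)
  rw [e]
  refine div_le_div_of_nonneg_right ?_ hc.le
  unfold Ta
  rw [← sum_sub_distrib]
  refine (abs_sum_le_sum_abs _ _).trans (sum_le_sum fun j hj => ?_)
  rw [mem_Ico] at hj
  exact h j (by omega) hj.2 A Y hA hd hY

lemma Ex_cs {Ω : Type*} {S : Finset Ω} {p f g : Ω → ℝ} {B : ℝ} (hp : ∀ t, 0 ≤ p t) (hf : TW.Ex S p (fun t => f t ^ 2) ≤ B)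
    (hg : TW.Ex S p (fun t => g t ^ 2) ≤ B) : TW.Ex S p (fun t => f t * g t) ≤ B := by
  have h1 : TW.Ex S p (fun t => f t * g t) ≤ TW.Ex S p (fun t => 1 / 2 * f t ^ 2 + 1 / 2 * g t ^ 2) :=
    TW.Ex_mono hp fun t _ => by nlinarith [sq_nonneg (f t - g t)]
  have h2 : TW.Ex S p (fun t => 1 / 2 * f t ^ 2 + 1 / 2 * g t ^ 2) =
      1 / 2 * TW.Ex S p (fun t => f t ^ 2) + 1 / 2 * TW.Ex S p (fun t => g t ^ 2) := by
    rw [TW.Ex_add, TW.Ex_smul, TW.Ex_smul]
  rw [h2] at h1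
  linarith

lemma Ex_fsum {Ω : Type*} (S : Finset Ω) (p : Ω → ℝ) (T : Finset ℕ) (f : ℕ → Ω → ℝ) :
    TW.Ex S p (fun t => ∑ j ∈ T, f j t) = ∑ j ∈ T, TW.Ex S p (f j) := by
  unfold TW.Ex
  simp only [mul_sum]
  exact sum_comm

lemma Ex_nonneg {Ω : Type*} {S : Finset Ω} {p f : Ω → ℝ} (hp : ∀ t, 0 ≤ p t) (h : ∀ t ∈ S, 0 ≤ f t) : 0 ≤ TW.Ex S p f :=
  sum_nonneg fun t ht => mul_nonneg (hp t) (h t ht)

/-- the error of the cutoff against the weights -/
lemma er_sum {S : Finset (List Bool)} {p : List Bool → ℝ} {n nb : ℕ → List Bool → ℝ} {B ω c : ℝ} {M N l : ℕ} {e : ℕ → ℕ}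
    (hp : ∀ t, 0 ≤ p t) (h0 : ∀ i t, 0 ≤ n i t) (hnb : ∀ i t, n i t ≤ nb i t)
    (hB : ∀ i, i < N → TW.Ex S p (fun t => nb i t ^ 2) ≤ B) (hω : 0 ≤ ω) (hc : 0 < c) (hM : 1 ≤ M)
    (he : ∀ j, j < M → e j < N) (hl : l < M) :
    TW.Ex S p (fun t => n (e l) t * (ω / M / c * ∑ j ∈ Ico (l + 1) M, nb (e j) t)) ≤ ω * B / c := by
  have hM0 : (0 : ℝ) < M := by exact_mod_cast (by omega : 0 < M)
  have hB0 : 0 ≤ B := le_trans (Ex_nonneg hp fun t _ => sq_nonneg _) (hB (e l) (he l hl))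
  have e1 : TW.Ex S p (fun t => n (e l) t * (ω / M / c * ∑ j ∈ Ico (l + 1) M, nb (e j) t)) =
      ω / M / c * ∑ j ∈ Ico (l + 1) M, TW.Ex S p (fun t => n (e l) t * nb (e j) t) := by
    rw [← Ex_fsum, ← TW.Ex_smul]
    unfold TW.Ex
    refine sum_congr rfl fun t _ => ?_
    show p t * (n (e l) t * (ω / M / c * ∑ j ∈ Ico (l + 1) M, nb (e j) t)) =
      p t * (ω / M / c * ∑ j ∈ Ico (l + 1) M, n (e l) t * nb (e j) t)
    rw [← mul_sum]
    ring
  have h1 : ∑ j ∈ Ico (l + 1) M, TW.Ex S p (fun t => n (e l) t * nb (e j) t) ≤ ∑ _j ∈ Ico (l + 1) M, B := by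
    refine sum_le_sum fun j hj => ?_
    rw [mem_Ico] at hj
    refine (TW.Ex_mono hp fun t _ => ?_).trans (Ex_cs hp (hB (e l) (he l hl)) (hB (e j) (he j hj.2)))
    exact mul_le_mul_of_nonneg_right (hnb _ _) ((h0 _ _).trans (hnb _ _))
  rw [sum_const, Nat.card_Ico, nsmul_eq_mul] at h1
  have h2 : ((M - (l + 1) : ℕ) : ℝ) * B ≤ M * B := by
    refine mul_le_mul_of_nonneg_right ?_ hB0
    exact_mod_cast Nat.sub_le _ _
  rw [e1]
  calc ω / M / c * ∑ j ∈ Ico (l + 1) M, TW.Ex S p (fun t => n (e l) t * nb (e j) t) ≤ ω / M / c * (M * B) :=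
        mul_le_mul_of_nonneg_left (h1.trans h2) (by positivity)
    _ = ω * B / c := by field_simp

/-- **the plane ensemble**: `M` of `(2 Q + 1) M` levels have all their values near the means -/
theorem TA_core {κ : Type} [Fintype κ] {S : Finset (List Bool)} {p : List Bool → ℝ} {M N : ℕ} {r : ℕ → ℕ}
    {n nb : ℕ → List Bool → ℝ} {f : κ → List Bool → ℝ} {ν : κ → ℕ → ℝ} {B ω β c x ε : ℝ}
    (hp : ∀ t, 0 ≤ p t) (hp1 : ∑ t ∈ S, p t = 1) (h0 : ∀ i t, 0 ≤ n i t) (hnb : ∀ i t, n i t ≤ nb i t)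
    (hB : ∀ i, i < N → TW.Ex S p (fun t => nb i t ^ 2) ≤ B) (hf : ∀ k t, |f k t| ≤ 1) (hω : 0 ≤ ω) (hβ : 0 ≤ β)
    (hc : 0 < c) (hM : 1 ≤ M) (hN : (2 * Fintype.card κ + 1) * M ≤ N)
    (hosc : ∀ i j, i < j → j < N → Rob (r i) (n j) (fun t => ω * nb j t))
    (hlev : ∀ i, i < N → ∀ k, ∀ Ψ er : List Bool → ℝ, (∀ t, |Ψ t| ≤ 1) → (∀ t, 0 ≤ er t) → Rob (r i) Ψ er →
      |TW.Ex S p (fun t => Ψ t * (f k t * n i t)) - ν k i * TW.Ex S p (fun t => Ψ t * n i t)| ≤
        2 * TW.Ex S p (fun t => n i t * er t) + β)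
    (hS : ∀ e : ℕ → ℕ, (∀ j, j < M → e j < N) → (∀ i j, i < j → j < M → e i < e j) →
      TW.Ex S p (fun t => by classical exact if Ta (fun j => n (e j) t / M) M 0 < 2 * c then 1 else 0) ≤ x)
    (hε0 : 0 < ε) (hε : x + B / (c ^ 2 * M) + (2 * (ω * B / c) + β) / c ≤ ε) (hε2 : ε ≤ 1 / 4) :
    ∃ e : ℕ → ℕ, (∀ j, j < M → e j < N) ∧ (∀ i j, i < j → j < M → e i < e j) ∧
      ∀ j, j < M → ∀ k, |ν k (e j) - TW.Ex S p (f k)| ≤ 4 * ε := by
  classical
  have hM0 : (0 : ℝ) < M := by exact_mod_cast (by omega : 0 < M)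
  have hm : TW.Ex S p (fun _ => 1) = 1 := by
    unfold TW.Ex
    exact (sum_congr rfl fun t _ => mul_one _).trans hp1
  refine pigeon_e ν (fun k => TW.Ex S p (f k)) (fun k => ?_) hε0 hε2 hM hN fun e he1 he2 => ?_
  · refine (TW.Ex_abs hp).trans ?_
    rw [← hm]
    exact TW.Ex_mono hp fun t _ => hf k t
  obtain ⟨a, ha⟩ : ∃ a : ℕ → List Bool → ℝ, a = fun j t => n (e j) t / M := ⟨_, rfl⟩
  have ha0 : ∀ j t, 0 ≤ a j t := fun j t => by
    rw [ha]
    exact div_nonneg (h0 _ _) hM0.le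
  have hB0 : ∀ i, i < N → 0 ≤ B := fun i hi => le_trans (Ex_nonneg hp fun t _ => sq_nonneg _) (hB i hi)
  have h2 : ∀ l, l < M → TW.Ex S p (fun t => a l t ^ 2) ≤ B / M ^ 2 := by
    intro l hl
    have e1 : TW.Ex S p (fun t => a l t ^ 2) = (1 / (M : ℝ) ^ 2) * TW.Ex S p (fun t => n (e l) t ^ 2) := by
      rw [← TW.Ex_smul]
      unfold TW.Ex
      refine sum_congr rfl fun t _ => ?_
      rw [ha]
      simp only [div_pow]
      ring
    have h3 : TW.Ex S p (fun t => n (e l) t ^ 2) ≤ B := by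
      refine (TW.Ex_mono hp fun t _ => ?_).trans (hB (e l) (he1 l hl))
      exact pow_le_pow_left₀ (h0 _ _) (hnb _ _) 2
    rw [e1, div_eq_mul_one_div B, mul_comm B]
    exact mul_le_mul_of_nonneg_left h3 (by positivity)
  have hS' := hS e he1 he2
  have hal : ∀ l, l < M → ∀ k, |TW.Ex S p (fun t => f k t * al c a M l t) - ν k (e l) * TW.Ex S p (al c a M l)| ≤
      (2 * (ω * B / c) + β) / M := by
    intro l hl k
    have hR : Rob (r (e l)) (fun t => gc c (Ta (fun j => a j t) M (l + 1)))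
        (fun t => ω / M / c * ∑ j ∈ Ico (l + 1) M, nb (e j) t) := by
      refine Rob_gc hc fun j hj1 hj2 A Y hA hd hY => ?_
      have h3 := hosc (e l) (e j) (he2 l j hj1 hj2) (he1 j hj2) A Y hA hd hY
      rw [ha]
      show |n (e j) (A ++ Y) / M - n (e j) A / M| ≤ ω / M * nb (e j) (A ++ Y)
      rw [← sub_div, abs_div, abs_of_pos hM0, div_mul_eq_mul_div]
      exact div_le_div_of_nonneg_right h3 hM0.le
    have h3 := hlev (e l) (he1 l hl) k _ _ (fun t => by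
      rw [abs_of_nonneg (gc_nonneg _ _)]
      exact gc_le_one _ _) (fun t => mul_nonneg (div_nonneg (div_nonneg hω hM0.le) hc.le)
        (sum_nonneg fun j _ => (h0 _ _).trans (hnb _ _))) hR
    have h4 := er_sum (l := l) hp h0 hnb hB hω hc hM he1 hl
    have e1 : TW.Ex S p (fun t => f k t * al c a M l t) = (1 / (M : ℝ)) *
        TW.Ex S p (fun t => gc c (Ta (fun j => a j t) M (l + 1)) * (f k t * n (e l) t)) := by
      rw [← TW.Ex_smul]
      unfold TW.Ex al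
      refine sum_congr rfl fun t _ => ?_
      rw [ha]
      ring
    have e2 : TW.Ex S p (al c a M l) = (1 / (M : ℝ)) *
        TW.Ex S p (fun t => gc c (Ta (fun j => a j t) M (l + 1)) * n (e l) t) := by
      rw [← TW.Ex_smul]
      unfold TW.Ex al
      refine sum_congr rfl fun t _ => ?_
      rw [ha]
      ring
    rw [e1, e2, mul_left_comm, ← mul_sub, abs_mul, abs_of_pos (by positivity : (0 : ℝ) < 1 / M), one_div,
      ← div_eq_inv_mul]
    exact div_le_div_of_nonneg_right (by linarith) hM0.le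
  obtain ⟨w, hw⟩ : ∃ w : ℕ → ℝ, w = fun l => (Gc c (2 * c))⁻¹ * TW.Ex S p (al c a M l) := ⟨_, rfl⟩
  have hI := Gc_I_ge hc
  have hI0 : 0 < Gc c (2 * c) := by linarith
  have hsum : (∑ _l ∈ range M, (2 * (ω * B / c) + β) / M) / c = (2 * (ω * B / c) + β) / c := by
    rw [sum_const, card_range, nsmul_eq_mul]
    field_simp
  have hk0 : 0 ≤ (2 * (ω * B / c) + β) / c := by
    have hN0 : 0 < N := lt_of_lt_of_le (by positivity) hN
    have := hB0 0 hN0
    positivity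
  refine ⟨w, fun j hj => ?_, ?_, fun k => ?_⟩
  · rw [hw]
    exact mul_nonneg (inv_pos.2 hI0).le (Ex_nonneg hp fun t _ => al_nonneg ha0 M j t)
  · by_cases hκ : Nonempty κ
    · obtain ⟨k⟩ := hκ
      have h5 := (mix (x := x) (ν := fun l => ν k (e l)) hp ha0 hc hM (hf k) h2 (by rw [ha]; exact hS') fun l hl => hal l hl k).2
      rw [hm, abs_sub_comm] at h5
      rw [hw]
      exact h5.trans (by linarith)
    · have h5 := (mix (x := x) (q := fun _ => 1) (ν := fun l => 1) (κ := fun _ => 0) hp ha0 hc hM (fun _ => by rw [abs_one]) h2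
        (by rw [ha]; exact hS') fun l hl => by
          rw [one_mul, show (fun t => 1 * al c a M l t) = al c a M l from funext fun t => one_mul _, sub_self, abs_zero]).2
      rw [hm, abs_sub_comm] at h5
      rw [hw]
      exact h5.trans (by linarith)
  · have h5 := (mix (x := x) (ν := fun l => ν k (e l)) hp ha0 hc hM (hf k) h2 (by rw [ha]; exact hS') fun l hl => hal l hl k).1
    rw [hsum, abs_sub_comm] at h5
    rw [hw]
    exact h5.trans hε

end RM

end PWN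

end HexObs
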