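import Pool.Agent.PW.DefA
import Pool.Agent.PW.RMc
import Pool.Agent.PW.ConvP

/-!
# PW, row P4a (helper91): the level identity for the plane ensemble AA

* `convA` : the exact identity (sum over the decompositions = sum over far parts, chains, ends);
* `lev_core` : the level identity, the error of the length cut-off in terms of the mass of the far parts and of the mean length of
  the ends.
-/

set_option autoImplicit false

namespace HexObs

namespace PWN

open Finset TS SDN TIW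

/-- words with the last direction up have an even length -/
lemma even_of_de {E : List Bool} (h : de E = up) : Even E.length := by
  by_contra hne
  have h2 := cl_dx up E E.length
  have h3 : dx up E E.length = up := h
  rw [if_neg hne, h3] at h2
  revert h2
  decide

open Classical in
/-- the far parts of the plane ensemble -/
noncomputable def FA (n L : ℕ) : Finset (List Bool) := (AAF n).filter fun A => A ∈ Fe (4 * 2 ^ L)

lemma mem_FA {n L : ℕ} {A : List Bool} : A ∈ FA n L ↔ (A ∈ SA ∧ A.length < 3 * n) ∧ A ∈ Fe (4 * 2 ^ L) := by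
  classical
  unfold FA
  rw [mem_filter, mem_AAF]

/-- the decompositions of the words of AA -/
lemma AA_split {n l L : ℕ} {Ch : Set (List Bool)} (hC : SLW.Chn L Ch) {t : List Bool} (ht : t ∈ AAF n)
    (i j : ℕ) : Dl l L Ch t i j ↔ i ≤ j ∧ t.take i ∈ FA n L ∧ (t.take j).drop i ∈ ChF L Ch ∧ t.drop j ∈ HcF l := by
  rw [mem_AAF] at ht
  unfold Dl
  rw [mem_ChF hC, mem_HcF, mem_FA]
  constructor
  · rintro ⟨h1, h2, h3, h4⟩
    refine ⟨h1, ⟨⟨?_, ?_⟩, h2⟩, h3, h4⟩
    · refine SLW.SA_take (Y := t.drop i) ?_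
      rw [List.take_append_drop]
      exact ht.1
    · rw [List.length_take]
      omega
  · rintro ⟨h1, h2, h3, h4⟩
    exact ⟨h1, h2.2, h3, h4⟩

/-- **the exact identity of AA** -/
theorem convA {g : ℝ → ℝ} {n l L : ℕ} {Ch : Set (List Bool)} (hC : SLW.Chn L Ch) (hl : l ≤ L) (hn : 0 < n)
    (hg : ∀ u : ℝ, 2 < u → g u = 0) (θ ψ : List Bool → ℝ) :
    ∑ t ∈ AAF n, pA g n t * NW l L Ch θ ψ t =
      ∑ A ∈ FA n L, ∑ V ∈ ChF L Ch, ∑ E ∈ HcF l,
        xc ^ (A.length + (V.length + E.length)) * wA g n (A.length + (V.length + E.length)) * (chi (2 ^ l) E * ψ E * θ A) := by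
  classical
  obtain ⟨F, hF⟩ : ∃ F : List Bool → List Bool → List Bool → ℝ, F = fun A V E =>
    xc ^ (A.length + (V.length + E.length)) * wA g n (A.length + (V.length + E.length)) * (chi (2 ^ l) E * ψ E * θ A) := ⟨_, rfl⟩
  have e1 : ∀ t ∈ AAF n, pA g n t * NW l L Ch θ ψ t =
      ∑ p ∈ ((range (t.length + 1)) ×ˢ (range (t.length + 1))).filter (fun p => p.1 ≤ p.2 ∧ t.take p.1 ∈ FA n L ∧
      (t.take p.2).drop p.1 ∈ ChF L Ch ∧ t.drop p.2 ∈ HcF l), F (t.take p.1) ((t.take p.2).drop p.1) (t.drop p.2) := by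
    intro t ht
    unfold NW
    rw [mul_sum]
    have e2 : ((range (t.length + 1)) ×ˢ (range (t.length + 1))).filter (fun p => Dl l L Ch t p.1 p.2) =
        ((range (t.length + 1)) ×ˢ (range (t.length + 1))).filter (fun p => p.1 ≤ p.2 ∧ t.take p.1 ∈ FA n L ∧
          (t.take p.2).drop p.1 ∈ ChF L Ch ∧ t.drop p.2 ∈ HcF l) := by
      refine filter_congr fun p _ => ?_
      exact AA_split hC ht _ _
    rw [e2]
    refine sum_congr rfl fun p hp => ?_
    rw [mem_filter] at hp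
    have e3 : t.length = (t.take p.1).length + (((t.take p.2).drop p.1).length + (t.drop p.2).length) := by
      conv_lhs => rw [← take_take_drop t hp.2.1]
      rw [List.length_append, List.length_append]
    rw [hF]
    dsimp only
    rw [← e3]
    unfold pA
    ring
  rw [sum_congr rfl e1, dec_sum, hF]
  refine sum_congr rfl fun A hA => sum_congr rfl fun V hV => sum_congr rfl fun E hE => ?_
  rw [mem_FA] at hA
  rw [mem_ChF hC] at hV
  rw [mem_HcF] at hE
  have hE2 : E ∈ Hp (2 ^ L) := ⟨hE.1.1, fun i hi => by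
    have h1 := hE.1.2 i hi
    have h2 : (2 : ℤ) ^ l ≤ 2 ^ L := pow_le_pow_right₀ (by norm_num) hl
    push_cast at h1 ⊢
    linarith⟩
  have hS : A ++ (V ++ E) ∈ SA := SLW.glue3 hC hA.1.1 hA.2 hV hE2
  by_cases h : A ++ (V ++ E) ∈ AAF n
  · rw [if_pos h]
  · rw [if_neg h]
    have h1 : 3 * n ≤ A.length + (V.length + E.length) := by
      by_contra h2
      refine h (mem_AAF.2 ⟨hS, ?_⟩)
      rw [List.length_append, List.length_append]
      omega
    have hn' : (0 : ℝ) < n := by exact_mod_cast hn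
    have h2 : (2 : ℝ) < ((A.length + (V.length + E.length) : ℕ) : ℝ) / n := by
      rw [lt_div_iff₀ hn']
      have : ((3 * n : ℕ) : ℝ) ≤ ((A.length + (V.length + E.length) : ℕ) : ℝ) := by exact_mod_cast h1
      push_cast at this ⊢
      linarith
    have h3 : wA g n (A.length + (V.length + E.length)) = 0 := by
      unfold wA
      rw [hg _ h2, ite_self]
    rw [h3, mul_zero, zero_mul]

/-! ### The far weight -/

lemma chi_nnA (r : ℕ) (E : List Bool) : 0 ≤ chi r E := chi_nonneg r E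

lemma NW_abs {l L : ℕ} {Ch : Set (List Bool)} {ψ : List Bool → ℝ} {t : List Bool} (hψ : ∀ E ∈ Hc l, |ψ E| ≤ 1)
    {Ψ er : List Bool → ℝ} (hC : SLW.Chn L Ch) (hl : l ≤ L) (ht : t ∈ SA) (he : RM.Rob (2 ^ (L + 1)) Ψ er) :
    |Ψ t * NW l L Ch (fun _ => 1) ψ t - NW l L Ch Ψ ψ t| ≤ N0 l L Ch t * er t := by
  classical
  unfold N0 NW
  rw [mul_sum, ← sum_sub_distrib, sum_mul]
  refine (abs_sum_le_sum_abs _ _).trans (sum_le_sum fun p hp => ?_)
  rw [mem_filter, mem_product, mem_range, mem_range] at hp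
  obtain ⟨⟨hp1, hp2⟩, h1, h2, h3, h4⟩ := hp
  have e1 : Ψ t * (chi (2 ^ l) (t.drop p.2) * ψ (t.drop p.2) * 1) - chi (2 ^ l) (t.drop p.2) * ψ (t.drop p.2) * Ψ (t.take p.1) =
      chi (2 ^ l) (t.drop p.2) * (ψ (t.drop p.2) * (Ψ t - Ψ (t.take p.1))) := by ring
  rw [e1, abs_mul, abs_mul, abs_of_nonneg (chi_nnA _ _)]
  have h5 : |Ψ t - Ψ (t.take p.1)| ≤ er t := by
    have h6 := he (t.take p.1) ((t.take p.2).drop p.1 ++ t.drop p.2) (by rw [take_take_drop t h1]; exact ht)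
      (de_VE (hC.bu h3) h4.2) (fun i hi => by
        have h7 := (VE_Hp hC hl h3 h4.1).2 i hi
        rw [pow_succ, mul_comm]
        exact h7)
    rw [take_take_drop t h1] at h6
    exact h6
  have h6 : |ψ (t.drop p.2)| * |Ψ t - Ψ (t.take p.1)| ≤ 1 * er t :=
    mul_le_mul (hψ _ h4) h5 (abs_nonneg _) zero_le_one
  calc chi (2 ^ l) (t.drop p.2) * (|ψ (t.drop p.2)| * |Ψ t - Ψ (t.take p.1)|) ≤ chi (2 ^ l) (t.drop p.2) * (1 * er t) :=
        mul_le_mul_of_nonneg_left h6 (chi_nnA _ _)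
    _ = chi (2 ^ l) (t.drop p.2) * 1 * 1 * er t := by ring

/-! ### The mean value -/

lemma eM_absA {l : ℕ} {q : List Bool → ℝ} (hq : ∀ E ∈ Hc l, |q E| ≤ 1) : |eM l q| ≤ eM l (fun _ => 1) := by
  unfold eM
  refine (abs_sum_le_sum_abs _ _).trans (sum_le_sum fun E hE => ?_)
  rw [mem_HcF] at hE
  have h1 : 0 ≤ xc ^ E.length := pow_nonneg xc_pos.le _
  rw [abs_mul, abs_mul, abs_of_nonneg h1, abs_of_nonneg (chi_nnA _ _)]
  exact mul_le_mul_of_nonneg_left (mul_le_mul_of_nonneg_left (hq E hE) (chi_nnA _ _)) h1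

lemma nu_absA {l : ℕ} {q : List Bool → ℝ} (hq : ∀ E ∈ Hc l, |q E| ≤ 1) : |nu l q| ≤ 1 := by
  have h1 := eM_absA hq
  have h0 : 0 ≤ eM l (fun _ => 1) := (abs_nonneg _).trans h1
  unfold nu
  rw [abs_div, abs_of_nonneg h0]
  exact div_le_one_of_le₀ h1 h0

lemma nu_zeroA {l : ℕ} {q : List Bool → ℝ} (hq : ∀ E ∈ Hc l, |q E| ≤ 1) :
    ∑ E ∈ HcF l, xc ^ E.length * (chi (2 ^ l) E * (q E - nu l q)) = 0 := by
  have e : ∑ E ∈ HcF l, xc ^ E.length * (chi (2 ^ l) E * (q E - nu l q)) = eM l q - nu l q * eM l (fun _ => 1) := by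
    unfold eM
    rw [mul_sum, ← sum_sub_distrib]
    exact sum_congr rfl fun E _ => by ring
  rw [e]
  rcases eq_or_ne (eM l (fun _ => 1)) 0 with h | h
  · have h1 := eM_absA hq
    rw [h] at h1
    rw [h, abs_nonpos_iff.1 h1, mul_zero, sub_zero]
  · unfold nu
    rw [div_mul_cancel₀ _ h, sub_self]

/-- mean length of the ends -/
noncomputable def EL (l : ℕ) : ℝ := ∑ E ∈ HcF l, xc ^ E.length * (E.length : ℝ)

/-- the error of the length cut-off at one far part and one chain -/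
lemma cut_errA {g : ℝ → ℝ} {Lg : ℝ} (hL : ∀ u v, |g u - g v| ≤ Lg * |u - v|) {n l : ℕ} (hn : 0 < n) {q : List Bool → ℝ}
    (hq : ∀ E ∈ Hc l, |q E| ≤ 1) (a : ℕ) :
    |∑ E ∈ HcF l, xc ^ E.length * (chi (2 ^ l) E * (q E - nu l q)) * g (((a + E.length : ℕ) : ℝ) / n)| ≤
      2 * (Lg / n) * EL l := by
  have hn' : (0 : ℝ) < n := by exact_mod_cast hn
  have hLg : 0 ≤ Lg := by
    have := hL 1 0
    have h2 := abs_nonneg (g 1 - g 0)
    norm_num at this
    linarith
  have e : ∑ E ∈ HcF l, xc ^ E.length * (chi (2 ^ l) E * (q E - nu l q)) * g (((a + E.length : ℕ) : ℝ) / n) =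
      ∑ E ∈ HcF l, xc ^ E.length * (chi (2 ^ l) E * (q E - nu l q)) * (g (((a + E.length : ℕ) : ℝ) / n) - g ((a : ℝ) / n)) := by
    have h := nu_zeroA hq
    have h2 : ∑ E ∈ HcF l, xc ^ E.length * (chi (2 ^ l) E * (q E - nu l q)) * g ((a : ℝ) / n) = 0 := by
      rw [← sum_mul, h, zero_mul]
    rw [← sub_zero (∑ E ∈ HcF l, xc ^ E.length * (chi (2 ^ l) E * (q E - nu l q)) * g (((a + E.length : ℕ) : ℝ) / n)), ← h2,
      ← sum_sub_distrib]
    exact sum_congr rfl fun E _ => by ring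
  rw [e]
  unfold EL
  rw [mul_sum]
  refine (abs_sum_le_sum_abs _ _).trans (sum_le_sum fun E hE => ?_)
  rw [mem_HcF] at hE
  have h1 : 0 ≤ xc ^ E.length := pow_nonneg xc_pos.le _
  rw [abs_mul, abs_mul, abs_mul, abs_of_nonneg h1, abs_of_nonneg (chi_nnA _ _)]
  have h2 : |q E - nu l q| ≤ 2 := by
    have h3 := abs_sub (q E) (nu l q)
    have h4 := hq E hE
    have h5 := nu_absA hq
    linarith
  have h3 : |g (((a + E.length : ℕ) : ℝ) / n) - g ((a : ℝ) / n)| ≤ Lg * (E.length / n) := by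
    refine (hL _ _).trans (le_of_eq ?_)
    have e2 : ((a + E.length : ℕ) : ℝ) / n - (a : ℝ) / n = E.length / n := by
      push_cast
      ring
    rw [e2, abs_of_nonneg (by positivity)]
  have h4 : chi (2 ^ l) E * |q E - nu l q| ≤ 1 * 2 := mul_le_mul (chi_le _ _) h2 (abs_nonneg _) zero_le_one
  calc xc ^ E.length * (chi (2 ^ l) E * |q E - nu l q|) * |g (((a + E.length : ℕ) : ℝ) / n) - g ((a : ℝ) / n)|
      ≤ xc ^ E.length * (1 * 2) * (Lg * (E.length / n)) :=
        mul_le_mul (mul_le_mul_of_nonneg_left h4 h1) h3 (abs_nonneg _) (by positivity)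
    _ = 2 * (Lg / n) * (xc ^ E.length * (E.length : ℝ)) := by ring

/-- **the level identity of AA**, the error of the length cut-off explicit -/
theorem lev_core {g : ℝ → ℝ} {Lg : ℝ} (hg : Bump Lg g) {n l L : ℕ} {Ch : Set (List Bool)} (hC : SLW.Chn L Ch) (hl : l ≤ L) (hn : 0 < n)
    {q Ψ er : List Bool → ℝ} (hq : ∀ E ∈ Hc l, |q E| ≤ 1) (hΨ : ∀ t, |Ψ t| ≤ 1) (he : RM.Rob (2 ^ (L + 1)) Ψ er) :
    |∑ t ∈ AAF n, pA g n t * (Ψ t * (NW l L Ch (fun _ => 1) q t - nu l q * N0 l L Ch t))| ≤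
      2 * ∑ t ∈ AAF n, pA g n t * (N0 l L Ch t * er t) +
        (∑ A ∈ FA n L, xc ^ A.length) * wD Ch * (2 * (Lg / n) * EL l) := by
  have hp : ∀ t, 0 ≤ pA g n t := fun t => pA_nonneg hg n t
  have hν := nu_absA hq
  -- step 1
  have s1 : |∑ t ∈ AAF n, pA g n t * (Ψ t * (NW l L Ch (fun _ => 1) q t - nu l q * N0 l L Ch t)) -
      ∑ t ∈ AAF n, pA g n t * (NW l L Ch Ψ q t - nu l q * NW l L Ch Ψ (fun _ => 1) t)| ≤
      2 * ∑ t ∈ AAF n, pA g n t * (N0 l L Ch t * er t) := by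
    rw [← sum_sub_distrib, mul_sum]
    refine (abs_sum_le_sum_abs _ _).trans (sum_le_sum fun t ht => ?_)
    have hS := (mem_AAF.1 ht).1
    have a1 := NW_abs hq hC hl hS he
    have a2 := NW_abs (ψ := fun _ => 1) (fun E _ => by rw [abs_one]) hC hl hS he
    have e1 : pA g n t * (Ψ t * (NW l L Ch (fun _ => 1) q t - nu l q * N0 l L Ch t)) -
        pA g n t * (NW l L Ch Ψ q t - nu l q * NW l L Ch Ψ (fun _ => 1) t) =
        pA g n t * ((Ψ t * NW l L Ch (fun _ => 1) q t - NW l L Ch Ψ q t) -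
          nu l q * (Ψ t * NW l L Ch (fun _ => 1) (fun _ => 1) t - NW l L Ch Ψ (fun _ => 1) t)) := by
      unfold N0
      ring
    rw [e1, abs_mul, abs_of_nonneg (hp t)]
    have a3 := abs_sub (Ψ t * NW l L Ch (fun _ => 1) q t - NW l L Ch Ψ q t)
      (nu l q * (Ψ t * NW l L Ch (fun _ => 1) (fun _ => 1) t - NW l L Ch Ψ (fun _ => 1) t))
    rw [abs_mul (nu l q)] at a3
    have a4 : |nu l q| * |Ψ t * NW l L Ch (fun _ => 1) (fun _ => 1) t - NW l L Ch Ψ (fun _ => 1) t| ≤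
        1 * (N0 l L Ch t * er t) := mul_le_mul hν a2 (abs_nonneg _) zero_le_one
    calc pA g n t * |Ψ t * NW l L Ch (fun _ => 1) q t - NW l L Ch Ψ q t -
          nu l q * (Ψ t * NW l L Ch (fun _ => 1) (fun _ => 1) t - NW l L Ch Ψ (fun _ => 1) t)|
        ≤ pA g n t * (2 * (N0 l L Ch t * er t)) := mul_le_mul_of_nonneg_left (by linarith) (hp t)
      _ = 2 * (pA g n t * (N0 l L Ch t * er t)) := by ring
  -- step 2
  have s2 : ∑ t ∈ AAF n, pA g n t * (NW l L Ch Ψ q t - nu l q * NW l L Ch Ψ (fun _ => 1) t) =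
      ∑ A ∈ FA n L, ∑ V ∈ ChF L Ch, (if A.length % 2 = n % 2 then xc ^ A.length * Ψ A * xc ^ V.length else 0) *
        ∑ E ∈ HcF l, xc ^ E.length * (chi (2 ^ l) E * (q E - nu l q)) * g (((A.length + V.length + E.length : ℕ) : ℝ) / n) := by
    have c1 := convA hC hl hn hg.hi Ψ q
    have c2 := convA hC hl hn hg.hi Ψ (fun _ => 1)
    have e1 : ∑ t ∈ AAF n, pA g n t * (NW l L Ch Ψ q t - nu l q * NW l L Ch Ψ (fun _ => 1) t) =
        ∑ t ∈ AAF n, pA g n t * NW l L Ch Ψ q t - nu l q * ∑ t ∈ AAF n, pA g n t * NW l L Ch Ψ (fun _ => 1) t := by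
      rw [mul_sum, ← sum_sub_distrib]
      exact sum_congr rfl fun t _ => by ring
    rw [e1, c1, c2, mul_sum, ← sum_sub_distrib]
    refine sum_congr rfl fun A _ => ?_
    rw [mul_sum, ← sum_sub_distrib]
    refine sum_congr rfl fun V hV => ?_
    rw [mul_sum, mul_sum, ← sum_sub_distrib]
    refine sum_congr rfl fun E hE => ?_
    rw [mem_HcF] at hE
    rw [mem_ChF hC] at hV
    have p1 := Nat.even_iff.1 (even_of_de hE.2)
    have p2 := Nat.even_iff.1 (hC.even V hV)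
    have p3 : (A.length + (V.length + E.length)) % 2 = A.length % 2 := by omega
    unfold wA
    rw [p3, ← add_assoc]
    by_cases h : A.length % 2 = n % 2
    · rw [if_pos h, if_pos h, pow_add, pow_add]
      ring
    · rw [if_neg h, if_neg h]
      ring
  have s3 : |∑ t ∈ AAF n, pA g n t * (NW l L Ch Ψ q t - nu l q * NW l L Ch Ψ (fun _ => 1) t)| ≤
      (∑ A ∈ FA n L, xc ^ A.length) * wD Ch * (2 * (Lg / n) * EL l) := by
    rw [s2, wD_eq hC, sum_mul_sum, sum_mul]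
    refine (abs_sum_le_sum_abs _ _).trans (sum_le_sum fun A _ => ?_)
    rw [sum_mul]
    refine (abs_sum_le_sum_abs _ _).trans (sum_le_sum fun V _ => ?_)
    rw [abs_mul]
    have hx1 : 0 ≤ xc ^ A.length := pow_nonneg xc_pos.le _
    have hx2 : 0 ≤ xc ^ V.length := pow_nonneg xc_pos.le _
    refine mul_le_mul ?_ (cut_errA hg.lip hn hq (A.length + V.length)) (abs_nonneg _) (mul_nonneg hx1 hx2)
    split_ifs
    · rw [abs_mul, abs_mul, abs_of_nonneg hx1, abs_of_nonneg hx2]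
      have := mul_le_mul_of_nonneg_left (hΨ A) hx1
      rw [mul_one] at this
      exact mul_le_mul_of_nonneg_right this hx2
    · rw [abs_zero]
      exact mul_nonneg hx1 hx2
  have s4 := abs_le.1 s1
  have s5 := abs_le.1 s3
  rw [abs_le]
  constructor <;> linarith [s4.1, s4.2, s5.1, s5.2]

end PWN

end HexObs
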