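import Pool.Agent.PW.ConvP

/-!
# PW, row P2, second half (helper92): the level identity for the words with a given end

* `NW_err` : a far functional at the whole word against the same functional at the far part, one word;
* `near_sum` : the displacements of the chains behind a near far part are counted by the ends `y'` in a ball;
* **`coreP`** : the level identity with far functionals only;
* **`levT`**, **`levTe : LevTe`**.
-/

set_option autoImplicit false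

namespace HexObs

namespace PWN

open Finset TS SDN TIW

/-! ### 1. Weights -/

lemma chi_nn (r : ℕ) (E : List Bool) : 0 ≤ chi r E := by
  unfold chi cl1
  exact le_min (le_max_left _ _) (le_max_left _ _)

lemma xp_nn (n : ℕ) : (0 : ℝ) ≤ xc ^ n := pow_nonneg xc_pos.le _

/-- monotonicity in the far weight -/
lemma NW_mono {l L : ℕ} {Ch : Set (List Bool)} {θ θ' ψ : List Bool → ℝ} {t : List Bool}
    (h : ∀ i j, Dl l L Ch t i j → θ (t.take i) ≤ θ' (t.take i)) (hψ : ∀ E ∈ Hc l, 0 ≤ ψ E) :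
    NW l L Ch θ ψ t ≤ NW l L Ch θ' ψ t := by
  classical
  unfold NW
  refine sum_le_sum fun p hp => ?_
  rw [mem_filter] at hp
  exact mul_le_mul_of_nonneg_left (h _ _ hp.2) (mul_nonneg (chi_nn _ _) (hψ _ hp.2.2.2.2))

lemma NW_nonneg {l L : ℕ} {Ch : Set (List Bool)} {θ ψ : List Bool → ℝ} {t : List Bool} (h : ∀ A, 0 ≤ θ A)
    (hψ : ∀ E ∈ Hc l, 0 ≤ ψ E) : 0 ≤ NW l L Ch θ ψ t := by
  classical
  unfold NW
  refine sum_nonneg fun p hp => ?_
  rw [mem_filter] at hp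
  exact mul_nonneg (mul_nonneg (chi_nn _ _) (hψ _ hp.2.2.2.2)) (h _)

lemma N0_nonneg {l L : ℕ} {Ch : Set (List Bool)} {t : List Bool} : 0 ≤ N0 l L Ch t :=
  NW_nonneg (fun _ => zero_le_one) fun _ _ => zero_le_one

/-- a constant far weight -/
lemma NW_const {l L : ℕ} {Ch : Set (List Bool)} {ψ : List Bool → ℝ} {t : List Bool} (c : ℝ) :
    NW l L Ch (fun _ => c) ψ t = c * NW l L Ch (fun _ => 1) ψ t := by
  classical
  unfold NW
  rw [mul_sum]
  exact sum_congr rfl fun p _ => by ring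

/-- a functional at the whole word against the same functional at the far part -/
lemma NW_err {l L : ℕ} {Ch : Set (List Bool)} {θ ψ ε : List Bool → ℝ} {t : List Bool} (c : ℝ)
    (h : ∀ i j, Dl l L Ch t i j → |c - θ (t.take i)| ≤ ε (t.take i)) (hψ : ∀ E ∈ Hc l, |ψ E| ≤ 1) :
    |c * NW l L Ch (fun _ => 1) ψ t - NW l L Ch θ ψ t| ≤ NW l L Ch ε (fun _ => 1) t := by
  classical
  rw [← NW_const]
  unfold NW
  rw [← sum_sub_distrib]
  refine (abs_sum_le_sum_abs _ _).trans (sum_le_sum fun p hp => ?_)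
  rw [mem_filter] at hp
  have h1 := h _ _ hp.2
  have h2 := hψ _ hp.2.2.2.2
  have h3 := chi_nn (2 ^ l) (t.drop p.2)
  have e1 : chi (2 ^ l) (t.drop p.2) * ψ (t.drop p.2) * c - chi (2 ^ l) (t.drop p.2) * ψ (t.drop p.2) * θ (t.take p.1) =
      chi (2 ^ l) (t.drop p.2) * (ψ (t.drop p.2) * (c - θ (t.take p.1))) := by ring
  rw [e1, abs_mul, abs_of_nonneg h3, mul_one, abs_mul]
  refine mul_le_mul_of_nonneg_left ?_ h3
  calc |ψ (t.drop p.2)| * |c - θ (t.take p.1)| ≤ 1 * ε (t.take p.1) :=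
        mul_le_mul h2 h1 (abs_nonneg _) zero_le_one
    _ = ε (t.take p.1) := one_mul _

/-- the words behind the far part: self-avoiding whole, last direction up, small -/
lemma Dl_back {k R l L : ℕ} {e y : Pt} {Ch : Set (List Bool)} (hC : SLW.Chn L Ch) (hl : l ≤ L) {t : List Bool}
    (ht : t ∈ Ty k R e y) {i j : ℕ} (h : Dl l L Ch t i j) : ∃ Y, t.take i ++ Y = t ∧ t.take i ++ Y ∈ SA ∧ de Y = up ∧
    ∀ s, s ≤ Y.length → hn (vx oo up Y s) < 2 ^ (L + 1) := by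
  have e1 := take_take_drop t h.1
  refine ⟨(t.take j).drop i ++ t.drop j, e1, ?_, de_VE (hC.bu h.2.2.1) h.2.2.2.2, fun s hs => ?_⟩
  · rw [e1]
    exact (mem_Ty.1 ht).1.1
  · have h1 := (VE_Hp hC hl h.2.2.1 h.2.2.2.1).2 s hs
    have h2 : (2 : ℤ) ^ (L + 1) = 2 * 2 ^ L := by ring
    push_cast at h1
    rw [h2]
    exact h1

/-! ### 2. The mean value -/

lemma eM_nonneg {l : ℕ} {ψ : List Bool → ℝ} (h : ∀ E ∈ Hc l, 0 ≤ ψ E) : 0 ≤ eM l ψ := by
  unfold eM
  refine sum_nonneg fun E hE => ?_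
  rw [mem_HcF] at hE
  exact mul_nonneg (xp_nn _) (mul_nonneg (chi_nn _ _) (h E hE))

lemma eM_abs {l : ℕ} {q : List Bool → ℝ} (hq : ∀ E ∈ Hc l, |q E| ≤ 1) : |eM l q| ≤ eM l fun _ => 1 := by
  unfold eM
  refine (abs_sum_le_sum_abs _ _).trans (sum_le_sum fun E hE => ?_)
  rw [mem_HcF] at hE
  rw [abs_mul, abs_of_nonneg (xp_nn _), abs_mul, abs_of_nonneg (chi_nn _ _)]
  exact mul_le_mul_of_nonneg_left (mul_le_mul_of_nonneg_left (hq E hE) (chi_nn _ _)) (xp_nn _)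

lemma nu_abs {l : ℕ} {q : List Bool → ℝ} (hq : ∀ E ∈ Hc l, |q E| ≤ 1) : |nu l q| ≤ 1 := by
  unfold nu
  rw [abs_div, abs_of_nonneg (eM_nonneg fun _ _ => zero_le_one)]
  exact div_le_one_of_le₀ (eM_abs hq) (eM_nonneg fun _ _ => zero_le_one)

/-- the centred end weight has mass zero -/
lemma eM_cent {l : ℕ} {q : List Bool → ℝ} (hq : ∀ E ∈ Hc l, |q E| ≤ 1) :
    ∑ E ∈ HcF l, xc ^ E.length * (chi (2 ^ l) E * (q E - nu l q)) = 0 := by
  have e1 : ∑ E ∈ HcF l, xc ^ E.length * (chi (2 ^ l) E * (q E - nu l q)) = eM l q - nu l q * eM l fun _ => 1 := by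
    unfold eM
    rw [mul_sum, ← sum_sub_distrib]
    exact sum_congr rfl fun E _ => by ring
  rw [e1]
  rcases eq_or_ne (eM l fun _ => 1) 0 with h | h
  · have h1 := eM_abs hq
    rw [h] at h1
    rw [h, mul_zero, sub_zero]
    exact abs_nonpos_iff.1 h1
  · unfold nu
    rw [div_mul_cancel₀ _ h, sub_self]

/-! ### 3. The ends in a ball count the chains -/

lemma en_Hc {l L : ℕ} (hl : l ≤ L) {E : List Bool} (hE : E ∈ Hc l) : hn (en E) < 2 ^ L := by
  have h1 := hE.1.2 E.length le_rfl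
  have h2 : (2 : ℤ) ^ l ≤ 2 ^ L := pow_le_pow_right₀ (by norm_num) hl
  push_cast at h1
  exact lt_of_lt_of_le h1 h2

lemma near_sum {l L : ℕ} {e y : Pt} {Ch : Set (List Bool)} (he : e ∈ dirs) (hC : SLW.Chn L Ch) (hl : l ≤ L)
    {A E : List Bool} (hE : E ∈ Hc l) (hn1 : hn (y - en A) < 2 ^ (L + 1)) :
    wD Ch ≤ ∑ y' ∈ Bs y (2 ^ (L + 2)), vD Ch (zz e y' A - en E) := by
  classical
  have e1 : ∑ y' ∈ Bs y (2 ^ (L + 2)), vD Ch (zz e y' A - en E) =
      ∑ V ∈ ChF L Ch, ∑ y' ∈ Bs y (2 ^ (L + 2)), if en V = zz e y' A - en E then xc ^ V.length else 0 := by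
    rw [sum_comm]
    exact sum_congr rfl fun y' _ => vD_eq hC _
  rw [e1, wD_eq hC]
  refine sum_le_sum fun V hV => ?_
  rw [mem_ChF hC] at hV
  obtain ⟨y0, hy0⟩ : ∃ y0, y0 = en A + mulE (rotTo up e) (en V + en E) := ⟨_, rfl⟩
  have hmem : y0 ∈ Bs y (2 ^ (L + 2)) := by
    rw [mem_Bs]
    have hu := nrm_rotTo upd' he
    have h1 : y0 - y = -(y - en A) + mulE (rotTo up e) (en V + en E) := by
      rw [hy0]
      abel
    have h2 := hn_add (-(y - en A)) (mulE (rotTo up e) (en V + en E))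
    rw [hn_neg, hn_mulE hu] at h2
    have h3 := hn_add (en V) (en E)
    have h4 := en_Hc hl hE
    have h5 := hC.size V hV V.length le_rfl
    have h6 : hn (vx oo up V V.length) = hn (en V) := rfl
    rw [h6] at h5
    have h7 := hn_nonneg (en V)
    have p1 : (2 : ℤ) ^ (L + 1) = 2 * 2 ^ L := by ring
    have p2 : (2 : ℤ) ^ (L + 2) = 4 * 2 ^ L := by ring
    have p3 : (0 : ℤ) < 2 ^ L := by positivity
    rw [h1]
    push_cast
    rw [p1] at hn1
    rw [p2]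
    linarith
  have h8 : en V = zz e y0 A - en E := (end_iff he).1 hy0.symm
  have h9 := single_le_sum (f := fun y' => if en V = zz e y' A - en E then xc ^ V.length else 0)
    (s := Bs y (2 ^ (L + 2))) (fun y' _ => by
      split_ifs
      · exact xp_nn _
      · exact le_rfl) hmem
  rw [if_pos h8] at h9
  exact h9

/-! ### 4. The core -/

theorem coreP {k R l L : ℕ} {e y : Pt} {Ch : Set (List Bool)} {δ : ℝ} {q Ψ Ψ' : List Bool → ℝ} (he : e ∈ dirs)
    (hC : SLW.Chn L Ch) (hl : l ≤ L) (hk : 2 ^ (L + 3) ≤ k) (hR : hn y + 2 ^ (L + 5) ≤ R) (hw : 0 < wD Ch)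
    (hS : SM l Ch δ) (hq : ∀ E ∈ Hc l, |q E| ≤ 1) (hΨ : ∀ A, |Ψ A| ≤ Ψ' A) (hT : ∀ A, Ψ A ≠ 0 → TrF k (2 ^ (L + 2)) A) :
    |∑ t ∈ Ty k R e y, xc ^ t.length * (NW l L Ch Ψ q t - nu l q * NW l L Ch Ψ (fun _ => 1) t)| ≤
      2 * (δ / wD Ch) * ∑ y' ∈ Bs y (2 ^ (L + 2)), ∑ t ∈ Ty k R e y', xc ^ t.length * NW l L Ch Ψ' (fun _ => 1) t := by
  classical
  have hp5 : (2 : ℤ) ^ (L + 5) = 32 * 2 ^ L := by ring
  have hp4 : (2 : ℤ) ^ (L + 4) = 16 * 2 ^ L := by ring
  have hp2 : (2 : ℤ) ^ (L + 2) = 4 * 2 ^ L := by ring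
  have hp1 : (2 : ℤ) ^ (L + 1) = 2 * 2 ^ L := by ring
  have hp0 : (0 : ℤ) < 2 ^ L := by positivity
  have hR4 : hn y + 2 ^ (L + 4) ≤ R := by rw [hp4]; rw [hp5] at hR; linarith
  -- smoothness is nonnegative as soon as there is an end
  have hδ : ∀ E ∈ Hc l, 0 ≤ δ := fun E hE => (abs_nonneg _).trans (hS 0 E hE)
  -- the left side by the identity
  have e1 : ∑ t ∈ Ty k R e y, xc ^ t.length * (NW l L Ch Ψ q t - nu l q * NW l L Ch Ψ (fun _ => 1) t) =
      ∑ A ∈ AF k R L e, xc ^ A.length * Ψ A * ∑ E ∈ HcF l, xc ^ E.length * (chi (2 ^ l) E * (q E - nu l q)) *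
        (vD Ch (zz e y A - en E) - vD Ch (zz e y A)) := by
    have h1 := convP (ψ := q) he hC hl hk hR4 hT
    have h2 := convP (ψ := fun _ => 1) he hC hl hk hR4 hT
    have h3 : ∑ t ∈ Ty k R e y, xc ^ t.length * (NW l L Ch Ψ q t - nu l q * NW l L Ch Ψ (fun _ => 1) t) =
        ∑ t ∈ Ty k R e y, xc ^ t.length * NW l L Ch Ψ q t -
        nu l q * ∑ t ∈ Ty k R e y, xc ^ t.length * NW l L Ch Ψ (fun _ => 1) t := by
      rw [mul_sum, ← sum_sub_distrib]
      exact sum_congr rfl fun t _ => by ring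
    rw [h3, h1, h2, mul_sum, ← sum_sub_distrib]
    refine sum_congr rfl fun A _ => ?_
    have h4 : ∑ E ∈ HcF l, xc ^ E.length * (chi (2 ^ l) E * (q E - nu l q)) *
        (vD Ch (zz e y A - en E) - vD Ch (zz e y A)) =
        (∑ E ∈ HcF l, xc ^ E.length * (chi (2 ^ l) E * q E) * vD Ch (zz e y A - en E)) -
        nu l q * (∑ E ∈ HcF l, xc ^ E.length * (chi (2 ^ l) E * 1) * vD Ch (zz e y A - en E)) -
        (∑ E ∈ HcF l, xc ^ E.length * (chi (2 ^ l) E * (q E - nu l q))) * vD Ch (zz e y A) := by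
      rw [mul_sum, sum_mul, ← sum_sub_distrib, ← sum_sub_distrib]
      exact sum_congr rfl fun E _ => by ring
    rw [h4, eM_cent hq]
    ring
  rw [e1]
  -- far functional on the right side
  obtain ⟨θ, hθ⟩ : ∃ θ : List Bool → ℝ, θ = fun A => if Ψ A ≠ 0 then Ψ' A else 0 := ⟨_, rfl⟩
  have hθT : ∀ A, θ A ≠ 0 → TrF k (2 ^ (L + 2)) A := by
    intro A hA
    rw [hθ] at hA
    dsimp only at hA
    by_cases h : Ψ A ≠ 0
    · exact hT A h
    · rw [if_neg h] at hA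
      exact absurd rfl hA
  have hΨ'nn : ∀ A, 0 ≤ Ψ' A := fun A => (abs_nonneg _).trans (hΨ A)
  have hθnn : ∀ A, 0 ≤ θ A := by
    intro A
    rw [hθ]
    dsimp only
    split_ifs
    · exact hΨ'nn A
    · exact le_rfl
  have hθle : ∀ A, θ A ≤ Ψ' A := by
    intro A
    rw [hθ]
    dsimp only
    split_ifs
    · exact le_rfl
    · exact hΨ'nn A
  have hΨθ : ∀ A, |Ψ A| ≤ θ A := by
    intro A
    rw [hθ]
    dsimp only
    split_ifs with h
    · exact hΨ A
    · rw [not_not] at h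
      rw [h, abs_zero]
  -- one far part
  have e2 : ∀ A ∈ AF k R L e, |xc ^ A.length * Ψ A * ∑ E ∈ HcF l, xc ^ E.length * (chi (2 ^ l) E * (q E - nu l q)) *
      (vD Ch (zz e y A - en E) - vD Ch (zz e y A))| ≤ 2 * (δ / wD Ch) * ∑ y' ∈ Bs y (2 ^ (L + 2)),
      xc ^ A.length * θ A * ∑ E ∈ HcF l, xc ^ E.length * (chi (2 ^ l) E * 1) * vD Ch (zz e y' A - en E) := by
    intro A _
    have e3 : ∑ y' ∈ Bs y (2 ^ (L + 2)), xc ^ A.length * θ A * ∑ E ∈ HcF l, xc ^ E.length * (chi (2 ^ l) E * 1) *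
        vD Ch (zz e y' A - en E) = xc ^ A.length * θ A * ∑ E ∈ HcF l, xc ^ E.length * (chi (2 ^ l) E * 1) *
        ∑ y' ∈ Bs y (2 ^ (L + 2)), vD Ch (zz e y' A - en E) := by
      rw [← mul_sum, sum_comm]
      congr 1
      exact sum_congr rfl fun E _ => (mul_sum _ _ _).symm
    rw [e3, abs_mul, abs_mul, abs_of_nonneg (xp_nn _)]
    have e4 : 2 * (δ / wD Ch) * (xc ^ A.length * θ A * ∑ E ∈ HcF l, xc ^ E.length * (chi (2 ^ l) E * 1) *
        ∑ y' ∈ Bs y (2 ^ (L + 2)), vD Ch (zz e y' A - en E)) = xc ^ A.length * θ A *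
        ∑ E ∈ HcF l, xc ^ E.length * (chi (2 ^ l) E * (2 * (δ / wD Ch))) * ∑ y' ∈ Bs y (2 ^ (L + 2)), vD Ch (zz e y' A - en E) := by
      rw [mul_sum, mul_sum, mul_sum]
      exact sum_congr rfl fun E _ => by ring
    rw [e4]
    refine mul_le_mul (mul_le_mul_of_nonneg_left (hΨθ A) (xp_nn _)) ?_ (abs_nonneg _)
      (mul_nonneg (xp_nn _) (hθnn A))
    refine (abs_sum_le_sum_abs _ _).trans (sum_le_sum fun E hE => ?_)
    rw [mem_HcF] at hE
    have hd := hδ E hE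
    have h5 := nu_abs hq
    have h6 : |q E - nu l q| ≤ 2 := by
      have h7 := abs_sub (q E) (nu l q)
      have h8 := hq E hE
      linarith
    rw [abs_mul, abs_mul, abs_of_nonneg (xp_nn _), abs_mul, abs_of_nonneg (chi_nn _ _)]
    have hcx : 0 ≤ xc ^ E.length * chi (2 ^ l) E := mul_nonneg (xp_nn _) (chi_nn _ _)
    have hsum : 0 ≤ ∑ y' ∈ Bs y (2 ^ (L + 2)), vD Ch (zz e y' A - en E) := sum_nonneg fun y' _ => vD_nonneg _ _
    have hdw : 0 ≤ δ / wD Ch := div_nonneg hd hw.le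
    have key : |vD Ch (zz e y A - en E) - vD Ch (zz e y A)| ≤
        (δ / wD Ch) * ∑ y' ∈ Bs y (2 ^ (L + 2)), vD Ch (zz e y' A - en E) := by
      rcases lt_or_ge (hn (y - en A)) (2 ^ (L + 1)) with hnear | hfar
      · have h9 := near_sum he hC hl hE hnear
        refine (hS _ E hE).trans ?_
        calc δ = (δ / wD Ch) * wD Ch := by
              rw [div_mul_cancel₀ _ hw.ne']
          _ ≤ _ := mul_le_mul_of_nonneg_left h9 hdw
      · have hz : hn (zz e y A) = hn (y - en A) := hn_zz he y A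
        have h10 : (2 : ℤ) ^ L ≤ hn (zz e y A) := by
          rw [hz]
          rw [hp1] at hfar
          linarith
        have h11 : (2 : ℤ) ^ L ≤ hn (zz e y A - en E) := by
          have h12 := hn_add (zz e y A - en E) (en E)
          rw [sub_add_cancel, hz] at h12
          have h13 := en_Hc hl hE
          rw [hp1] at hfar
          linarith
        rw [vD_far hC h10, vD_far hC h11, sub_self, abs_zero]
        exact mul_nonneg hdw hsum
    calc xc ^ E.length * (chi (2 ^ l) E * |q E - nu l q|) * |vD Ch (zz e y A - en E) - vD Ch (zz e y A)|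
        = xc ^ E.length * chi (2 ^ l) E * (|q E - nu l q| * |vD Ch (zz e y A - en E) - vD Ch (zz e y A)|) := by ring
      _ ≤ xc ^ E.length * chi (2 ^ l) E * (2 * ((δ / wD Ch) * ∑ y' ∈ Bs y (2 ^ (L + 2)), vD Ch (zz e y' A - en E))) :=
          mul_le_mul_of_nonneg_left (mul_le_mul h6 key (abs_nonneg _) (by norm_num)) hcx
      _ = _ := by ring
  -- all far parts
  refine (abs_sum_le_sum_abs _ _).trans ((sum_le_sum e2).trans ?_)
  rw [← mul_sum]
  have hδw : 0 ≤ 2 * (δ / wD Ch) ∨ HcF l = ∅ := by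
    rcases (HcF l).eq_empty_or_nonempty with h | ⟨E, hE⟩
    · exact Or.inr h
    · rw [mem_HcF] at hE
      exact Or.inl (mul_nonneg (by norm_num) (div_nonneg (hδ E hE) hw.le))
  have e5 : ∑ A ∈ AF k R L e, ∑ y' ∈ Bs y (2 ^ (L + 2)), xc ^ A.length * θ A * ∑ E ∈ HcF l,
      xc ^ E.length * (chi (2 ^ l) E * 1) * vD Ch (zz e y' A - en E) =
      ∑ y' ∈ Bs y (2 ^ (L + 2)), ∑ t ∈ Ty k R e y', xc ^ t.length * NW l L Ch θ (fun _ => 1) t := by
    rw [sum_comm]
    refine sum_congr rfl fun y' hy' => ?_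
    rw [mem_Bs] at hy'
    have h14 : hn y' + 2 ^ (L + 4) ≤ R := by
      have h15 := hn_add (y' - y) y
      rw [sub_add_cancel] at h15
      push_cast at hy'
      rw [hp2] at hy'
      rw [hp5] at hR
      rw [hp4]
      linarith
    exact (convP (ψ := fun _ => 1) he hC hl hk h14 hθT).symm
  rw [e5]
  rcases hδw with h16 | h16
  · refine mul_le_mul_of_nonneg_left (sum_le_sum fun y' _ => sum_le_sum fun t _ => ?_) h16
    exact mul_le_mul_of_nonneg_left (NW_mono (fun i j _ => hθle _) fun _ _ => zero_le_one) (xp_nn _)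
  · have h17 : ∀ (Θ : List Bool → ℝ) (t : List Bool), NW l L Ch Θ (fun _ => 1) t = 0 := by
      intro Θ t
      unfold NW
      refine sum_eq_zero fun p hp => ?_
      rw [mem_filter] at hp
      have h18 := mem_HcF.2 hp.2.2.2.2
      rw [h16] at h18
      exact absurd h18 (notMem_empty _)
    simp only [h17, mul_zero, sum_const_zero]
    exact le_rfl

/-! ### 5. The level identities -/

/-- far errors -/
theorem levT {k R l L : ℕ} {e y : Pt} {Ch : Set (List Bool)} {δ : ℝ} {q Ψ Ψ' ε : List Bool → ℝ} (he : e ∈ dirs)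
    (hC : SLW.Chn L Ch) (hl : l ≤ L) (hk : 2 ^ (L + 3) ≤ k) (hR : hn y + 2 ^ (L + 5) ≤ R) (hw : 0 < wD Ch)
    (hS : SM l Ch δ) (hq : ∀ E ∈ Hc l, |q E| ≤ 1) (hΨ : ∀ A, |Ψ A| ≤ Ψ' A) (hT : ∀ A, Ψ A ≠ 0 → TrF k (2 ^ (L + 2)) A)
    (hε : ∀ A Y, A ++ Y ∈ SA → de Y = up → (∀ i, i ≤ Y.length → hn (vx oo up Y i) < 2 ^ (L + 1)) →
      |Ψ (A ++ Y) - Ψ A| ≤ ε A) :
    |∑ t ∈ Ty k R e y, xc ^ t.length * (Ψ t * (NW l L Ch (fun _ => 1) q t - nu l q * N0 l L Ch t))| ≤
      2 * ∑ t ∈ Ty k R e y, xc ^ t.length * NW l L Ch ε (fun _ => 1) t +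
      2 * (δ / wD Ch) * ∑ y' ∈ Bs y (2 ^ (L + 2)), ∑ t ∈ Ty k R e y', xc ^ t.length * NW l L Ch Ψ' (fun _ => 1) t := by
  have hco := coreP he hC hl hk hR hw hS hq hΨ hT
  have hnu := nu_abs hq
  have key : ∀ t ∈ Ty k R e y, |Ψ t * (NW l L Ch (fun _ => 1) q t - nu l q * N0 l L Ch t) -
      (NW l L Ch Ψ q t - nu l q * NW l L Ch Ψ (fun _ => 1) t)| ≤ 2 * NW l L Ch ε (fun _ => 1) t := by
    intro t ht
    have hh : ∀ i j, Dl l L Ch t i j → |Ψ t - Ψ (t.take i)| ≤ ε (t.take i) := by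
      intro i j hD
      obtain ⟨Y, h1, h2, h3, h4⟩ := Dl_back hC hl ht hD
      have h5 := hε _ Y h2 h3 h4
      rw [h1] at h5
      exact h5
    have h6 := NW_err (Ψ t) hh hq
    have h7 := NW_err (ψ := fun _ => 1) (Ψ t) hh fun _ _ => by rw [abs_one]
    have e1 : Ψ t * (NW l L Ch (fun _ => 1) q t - nu l q * N0 l L Ch t) -
        (NW l L Ch Ψ q t - nu l q * NW l L Ch Ψ (fun _ => 1) t) =
        (Ψ t * NW l L Ch (fun _ => 1) q t - NW l L Ch Ψ q t) -
        nu l q * (Ψ t * NW l L Ch (fun _ => 1) (fun _ => 1) t - NW l L Ch Ψ (fun _ => 1) t) := by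
      unfold N0
      ring
    rw [e1]
    have h8 := abs_sub (Ψ t * NW l L Ch (fun _ => 1) q t - NW l L Ch Ψ q t)
      (nu l q * (Ψ t * NW l L Ch (fun _ => 1) (fun _ => 1) t - NW l L Ch Ψ (fun _ => 1) t))
    rw [abs_mul] at h8
    have h9 : |nu l q| * |Ψ t * NW l L Ch (fun _ => 1) (fun _ => 1) t - NW l L Ch Ψ (fun _ => 1) t| ≤
        1 * NW l L Ch ε (fun _ => 1) t := mul_le_mul hnu h7 (abs_nonneg _) zero_le_one
    linarith
  have e2 : ∑ t ∈ Ty k R e y, xc ^ t.length * (Ψ t * (NW l L Ch (fun _ => 1) q t - nu l q * N0 l L Ch t)) =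
      ∑ t ∈ Ty k R e y, xc ^ t.length * (NW l L Ch Ψ q t - nu l q * NW l L Ch Ψ (fun _ => 1) t) +
      ∑ t ∈ Ty k R e y, xc ^ t.length * (Ψ t * (NW l L Ch (fun _ => 1) q t - nu l q * N0 l L Ch t) -
        (NW l L Ch Ψ q t - nu l q * NW l L Ch Ψ (fun _ => 1) t)) := by
    rw [← sum_add_distrib]
    exact sum_congr rfl fun t _ => by ring
  have h10 : |∑ t ∈ Ty k R e y, xc ^ t.length * (Ψ t * (NW l L Ch (fun _ => 1) q t - nu l q * N0 l L Ch t) -
      (NW l L Ch Ψ q t - nu l q * NW l L Ch Ψ (fun _ => 1) t))| ≤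
      2 * ∑ t ∈ Ty k R e y, xc ^ t.length * NW l L Ch ε (fun _ => 1) t := by
    rw [mul_sum]
    refine (abs_sum_le_sum_abs _ _).trans (sum_le_sum fun t ht => ?_)
    rw [abs_mul, abs_of_nonneg (xp_nn _)]
    calc xc ^ t.length * _ ≤ xc ^ t.length * (2 * NW l L Ch ε (fun _ => 1) t) :=
          mul_le_mul_of_nonneg_left (key t ht) (xp_nn _)
      _ = _ := by ring
  rw [e2]
  exact (abs_add_le _ _).trans (by linarith)

/-- errors as functions of the word -/
theorem levTe : LevTe := by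
  classical
  intro k R l L e y Ch δ q Ψ Ψ' er he hC hl hk hR hw hS hq her hΨ hT hrob
  have hco := coreP he hC hl hk hR hw hS hq hΨ hT
  have hnu := nu_abs hq
  have hp5 : (2 : ℤ) ^ (L + 5) = 32 * 2 ^ L := by ring
  have hp2 : (2 : ℤ) ^ (L + 2) = 4 * 2 ^ L := by ring
  have key : ∀ t ∈ Ty k R e y, |Ψ t * (NW l L Ch (fun _ => 1) q t - nu l q * N0 l L Ch t) -
      (NW l L Ch Ψ q t - nu l q * NW l L Ch Ψ (fun _ => 1) t)| ≤ 2 * (N0 l L Ch t * er t) := by
    intro t ht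
    have hh : ∀ i j, Dl l L Ch t i j → |Ψ t - Ψ (t.take i)| ≤ (fun _ => er t) (t.take i) := by
      intro i j hD
      obtain ⟨Y, h1, h2, h3, h4⟩ := Dl_back hC hl ht hD
      have h5 := (hrob _ Y h2 h3 h4).1
      rw [h1] at h5
      exact h5
    have h6 := NW_err (ε := fun _ => er t) (Ψ t) hh hq
    have h7 := NW_err (ε := fun _ => er t) (ψ := fun _ => 1) (Ψ t) hh fun _ _ => by rw [abs_one]
    rw [NW_const (er t)] at h6 h7
    have e1 : Ψ t * (NW l L Ch (fun _ => 1) q t - nu l q * N0 l L Ch t) -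
        (NW l L Ch Ψ q t - nu l q * NW l L Ch Ψ (fun _ => 1) t) =
        (Ψ t * NW l L Ch (fun _ => 1) q t - NW l L Ch Ψ q t) -
        nu l q * (Ψ t * NW l L Ch (fun _ => 1) (fun _ => 1) t - NW l L Ch Ψ (fun _ => 1) t) := by
      unfold N0
      ring
    rw [e1]
    have h8 := abs_sub (Ψ t * NW l L Ch (fun _ => 1) q t - NW l L Ch Ψ q t)
      (nu l q * (Ψ t * NW l L Ch (fun _ => 1) (fun _ => 1) t - NW l L Ch Ψ (fun _ => 1) t))
    rw [abs_mul] at h8
    have h9 : |nu l q| * |Ψ t * NW l L Ch (fun _ => 1) (fun _ => 1) t - NW l L Ch Ψ (fun _ => 1) t| ≤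
        1 * (er t * NW l L Ch (fun _ => 1) (fun _ => 1) t) := mul_le_mul hnu h7 (abs_nonneg _) zero_le_one
    have h10 : N0 l L Ch t = NW l L Ch (fun _ => 1) (fun _ => 1) t := rfl
    rw [h10]
    linarith
  have e2 : ∑ t ∈ Ty k R e y, xc ^ t.length * (Ψ t * (NW l L Ch (fun _ => 1) q t - nu l q * N0 l L Ch t)) =
      ∑ t ∈ Ty k R e y, xc ^ t.length * (NW l L Ch Ψ q t - nu l q * NW l L Ch Ψ (fun _ => 1) t) +
      ∑ t ∈ Ty k R e y, xc ^ t.length * (Ψ t * (NW l L Ch (fun _ => 1) q t - nu l q * N0 l L Ch t) -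
        (NW l L Ch Ψ q t - nu l q * NW l L Ch Ψ (fun _ => 1) t)) := by
    rw [← sum_add_distrib]
    exact sum_congr rfl fun t _ => by ring
  have h11 : |∑ t ∈ Ty k R e y, xc ^ t.length * (Ψ t * (NW l L Ch (fun _ => 1) q t - nu l q * N0 l L Ch t) -
      (NW l L Ch Ψ q t - nu l q * NW l L Ch Ψ (fun _ => 1) t))| ≤
      2 * ∑ t ∈ Ty k R e y, xc ^ t.length * (N0 l L Ch t * er t) := by
    rw [mul_sum]
    refine (abs_sum_le_sum_abs _ _).trans (sum_le_sum fun t ht => ?_)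
    rw [abs_mul, abs_of_nonneg (xp_nn _)]
    calc xc ^ t.length * _ ≤ xc ^ t.length * (2 * (N0 l L Ch t * er t)) :=
          mul_le_mul_of_nonneg_left (key t ht) (xp_nn _)
      _ = _ := by ring
  -- the right side
  have h12 : 2 * (δ / wD Ch) * ∑ y' ∈ Bs y (2 ^ (L + 2)), ∑ t ∈ Ty k R e y', xc ^ t.length *
      NW l L Ch Ψ' (fun _ => 1) t ≤ 2 * (δ / wD Ch) * ∑ y' ∈ Bs y (2 ^ (L + 2)), ∑ t ∈ Ty k R e y',
      xc ^ t.length * (N0 l L Ch t * (Ψ' t + er t)) := by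
    rcases (HcF l).eq_empty_or_nonempty with h | ⟨E, hE⟩
    · have h17 : ∀ (Θ : List Bool → ℝ) (t : List Bool), NW l L Ch Θ (fun _ => 1) t = 0 := by
        intro Θ t
        unfold NW
        refine sum_eq_zero fun p hp => ?_
        rw [mem_filter] at hp
        have h18 := mem_HcF.2 hp.2.2.2.2
        rw [h] at h18
        exact absurd h18 (notMem_empty _)
      have h19 : ∀ t : List Bool, N0 l L Ch t = 0 := fun t => h17 _ t
      simp only [h17, h19, zero_mul, mul_zero, sum_const_zero]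
      exact le_rfl
    · rw [mem_HcF] at hE
      have hd : 0 ≤ δ := (abs_nonneg _).trans (hS 0 E hE)
      refine mul_le_mul_of_nonneg_left (sum_le_sum fun y' _ => sum_le_sum fun t ht => ?_)
        (mul_nonneg (by norm_num) (div_nonneg hd hw.le))
      refine mul_le_mul_of_nonneg_left ?_ (xp_nn _)
      have h20 : NW l L Ch Ψ' (fun _ => 1) t ≤ NW l L Ch (fun _ => Ψ' t + er t) (fun _ => 1) t := by
        refine NW_mono (fun i j hD => ?_) fun _ _ => zero_le_one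
        obtain ⟨Y, h1, h2, h3, h4⟩ := Dl_back hC hl ht hD
        have h5 := (hrob _ Y h2 h3 h4).2
        rw [h1] at h5
        exact h5
      rw [NW_const (Ψ' t + er t)] at h20
      have h21 : N0 l L Ch t = NW l L Ch (fun _ => 1) (fun _ => 1) t := rfl
      rw [h21]
      linarith
  rw [e2]
  exact (abs_add_le _ _).trans (by linarith)

end PWN

end HexObs
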