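import Pool.Agent.PW.ConvP

/-!
PW, row E1 (helper15): a word with one decomposition of a level with a positive cut-off does not return to its tip, and (cylinder)
its translates stay away from its tip.

* `noret` : t = A ++ (V ++ E), level (l, L), chi (2 ^ l) E > 0: a vertex at a distance < 2 ^ l / 32 from the tip is followed by
  vertices at a distance < 2 * 2 ^ l only;
* `notrans` : if moreover A is in `TrF k (2 ^ (L + 2))`, no translate of t comes nearer than 2 ^ L to the tip;
* `noret_of_NW` : the same from `NW l L Ch θ ψ t ≠ 0`.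
-/

set_option autoImplicit false

namespace HexObs

namespace PWN

open Finset TS SDN TIW

lemma chi_pos {r : ℕ} {E : List Bool} (h : 0 < chi r E) : (r : ℤ) < 32 * ip (en E) up ∧ 2 * hn (en E) < r := by
  unfold chi at h
  have h1 := lt_of_lt_of_le h (min_le_left _ _)
  have h2 := lt_of_lt_of_le h (min_le_right _ _)
  have key : ∀ x : ℝ, 0 < cl1 x → 0 < x := by
    intro x hx
    unfold cl1 at hx
    by_contra hc
    rw [not_lt] at hc
    rw [min_eq_right (hc.trans zero_le_one), max_eq_left hc] at hx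
    exact lt_irrefl _ hx
  have h3 := key _ h1
  have h4 := key _ h2
  rcases Nat.eq_zero_or_pos r with hr | hr
  · subst hr
    simp at h3
    linarith
  have hr' : (0 : ℝ) < r := by exact_mod_cast hr
  constructor
  · have h5 : (1 : ℝ) < 32 * (ip (en E) up : ℝ) / r := by linarith
    rw [lt_div_iff₀ hr'] at h5
    have h6 : (r : ℝ) < 32 * (ip (en E) up : ℝ) := by linarith
    exact_mod_cast h6
  · have h5 : 32 * (hn (en E) : ℝ) / r < 16 := by linarith
    rw [div_lt_iff₀ hr'] at h5
    have h6 : 2 * (hn (en E) : ℝ) < r := by linarith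
    exact_mod_cast h6

/-- the vertices of a bridge are below its end -/
lemma ip_BU_le {V : List Bool} (hV : V ∈ BU) {i : ℕ} (hi : i ≤ V.length) : ip (vx oo up V i) up ≤ ip (en V) up := by
  obtain ⟨T, hT⟩ := hV
  obtain ⟨h1, -, -, h4⟩ := mem_Brd.1 hT
  rcases Nat.eq_zero_or_pos i with h0 | h0
  · rw [h0]
    have h5 : lev V 0 = 0 := lev_zero _
    have h6 : ip (vx oo up V 0) up = 0 := h5
    rw [h6]
    have h7 : ip (en V) up = 3 * (T : ℤ) := h4
    rw [h7]
    positivity
  · have h5 := (h1 i h0 hi).2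
    have h7 : ip (en V) up = 3 * (T : ℤ) := h4
    rw [h7]
    exact h5

lemma ip_BU_nonneg {V : List Bool} (hV : V ∈ BU) : 0 ≤ ip (en V) up := by
  have := ip_BU_le hV (Nat.zero_le V.length)
  have h5 : ip (vx oo up V 0) up = 0 := lev_zero _
  rwa [h5] at this

section

variable {l L : ℕ} {Ch : Set (List Bool)} {A V E : List Bool}

/-- the tip seen from the end of the far part -/
lemma tip_eq (hV : V ∈ BU) : en (A ++ (V ++ E)) - en A = mulE (rt A) (en V + en E) := by
  rw [en_app, en_VE hV]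
  abel

/-- **no return**, for a triple -/
theorem noret_tri (hC : SLW.Chn L Ch) (hl : l ≤ L) (hA : A ∈ Fe (4 * 2 ^ L)) (hV : V ∈ Ch) (hE : E ∈ Hp (2 ^ l))
    (hchi : 0 < chi (2 ^ l) E) {j i : ℕ} (hji : j ≤ i) (hi : i ≤ (A ++ (V ++ E)).length)
    (hj : 32 * hn (vx oo up (A ++ (V ++ E)) j - en (A ++ (V ++ E))) < 2 ^ l) :
    A.length + V.length < j ∧ hn (vx oo up (A ++ (V ++ E)) i - en (A ++ (V ++ E))) < 2 * 2 ^ l := by
  have hVB := hC.bu hV
  obtain ⟨hc1, hc2⟩ := chi_pos hchi
  push_cast at hc1 hc2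
  have hlL : (2 : ℤ) ^ l ≤ 2 ^ L := pow_le_pow_right₀ (by norm_num) hl
  have hp : (0 : ℤ) < 2 ^ l := by positivity
  have htip := tip_eq (A := A) (E := E) hVB
  have hVn := hC.size V hV V.length le_rfl
  have hVn' : 64 * hn (en V) < 2 ^ L := hVn
  have htn : hn (en V + en E) ≤ hn (en V) + hn (en E) := hn_add _ _
  -- the index is behind the chain
  have hjj : A.length + V.length < j := by
    by_contra hcon
    rw [not_lt] at hcon
    rcases Nat.lt_or_ge A.length j with h1 | h1
    · -- a vertex of the chain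
      obtain ⟨j', rfl⟩ : ∃ j', j = A.length + j' := ⟨j - A.length, by omega⟩
      have e1 : vx oo up (A ++ (V ++ E)) (A.length + j') - en (A ++ (V ++ E)) =
          mulE (rt A) (vx oo up V j' - (en V + en E)) := by
        rw [vx_app, vx_append (by omega), mulE_sub, ← htip]
        abel
      rw [e1, hn_mulE (nrm_rt A), hn_sub_comm] at hj
      have h2 := ip_le_hn (en V + en E - vx oo up V j') upd'
      rw [ip_sub_left, ip_add_left] at h2
      have h3 := ip_BU_le hVB (show j' ≤ V.length by omega)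
      linarith
    · -- a vertex of the far part
      have e0 : vx oo up (A ++ (V ++ E)) j = vx oo up A j := vx_append (by omega)
      rw [e0] at hj
      by_cases h2 : 0 < ip (vx oo up A j - en A) (de A)
      · have h3 := hA j h1 h2
        push_cast at h3
        have h4 := hn_tri (vx oo up A j) (en (A ++ (V ++ E))) (en A)
        rw [htip, hn_mulE (nrm_rt A)] at h4
        linarith
      · rw [not_lt] at h2
        have h3 := ip_le_hn (en (A ++ (V ++ E)) - vx oo up A j) (de_mem A)
        have e1 : en (A ++ (V ++ E)) - vx oo up A j = mulE (rt A) (en V + en E) - (vx oo up A j - en A) := by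
          rw [← htip]
          abel
        have e2 : ip (mulE (rt A) (en V + en E)) (de A) = ip (en V + en E) up := by
          rw [← rt_up A, ip_mulE, nrm_rt, one_mul]
        rw [hn_sub_comm] at hj
        rw [e1] at h3 hj
        rw [ip_sub_left, e2, ip_add_left] at h3
        have h4 := ip_BU_nonneg hVB
        linarith
  refine ⟨hjj, ?_⟩
  obtain ⟨i', rfl⟩ : ∃ i', i = A.length + (V.length + i') := ⟨i - A.length - V.length, by omega⟩
  have hi' : i' ≤ E.length := by
    rw [List.length_append, List.length_append] at hi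
    omega
  have e1 : vx oo up (A ++ (V ++ E)) (A.length + (V.length + i')) - en (A ++ (V ++ E)) =
      mulE (rt A) (vx oo up E i' - en E) := by
    rw [vx_app, vx_app, rt_of_de (de_BU hVB)]
    have e2 : en (A ++ (V ++ E)) = en A + mulE (rt A) (en V + en E) := by
      rw [← htip]
      abel
    rw [e2, mulE_sub]
    have e3 : ∀ p q : Pt, mulE (rt A) (p + q) = mulE (rt A) p + mulE (rt A) q := fun p q => by
      have := mulE_sub (rt A) (p + q) q
      rw [add_sub_cancel_right] at this
      rw [this]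
      abel
    rw [e3, e3]
    abel
  rw [e1, hn_mulE (nrm_rt A)]
  have h2 := hn_sub (vx oo up E i') (en E)
  have h3 := hE.2 i' hi'
  have h4 := hE.2 E.length le_rfl
  have h5 : hn (en E) < ((2 ^ l : ℕ) : ℤ) := h4
  push_cast at h3 h5
  linarith

/-- **the translates stay away from the tip** -/
theorem notrans_tri (hC : SLW.Chn L Ch) (hl : l ≤ L) (hV : V ∈ Ch) (hE : E ∈ Hp (2 ^ l)) {k : ℕ}
    (hk : 2 ^ (L + 3) ≤ k) (hT : TrF k (2 ^ (L + 2)) A) {i : ℕ} (hi : i ≤ (A ++ (V ++ E)).length) {m : ℤ} (hm : m ≠ 0) :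
    (2 : ℤ) ^ L ≤ hn (vx oo up (A ++ (V ++ E)) i + (2 * (k : ℤ) * m, 2 * (k : ℤ) * m) - en (A ++ (V ++ E))) := by
  have hVB := hC.bu hV
  have hlL : (2 : ℤ) ^ l ≤ 2 ^ L := pow_le_pow_right₀ (by norm_num) hl
  have hp : (0 : ℤ) < 2 ^ L := by positivity
  have hY := VE_Hp hC hl hV hE
  have htip := tip_eq (A := A) (E := E) hVB
  obtain ⟨Y, hYe⟩ : ∃ Y, Y = V ++ E := ⟨_, rfl⟩
  rw [← hYe] at hi hY htip ⊢
  have hYn : ∀ j, j ≤ Y.length → hn (mulE (rt A) (vx oo up Y j)) < 2 * 2 ^ L := by
    intro j hj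
    rw [hn_mulE (nrm_rt A)]
    have := hY.2 j hj
    push_cast at this
    exact this
  have htn : hn (en (A ++ Y) - en A) < 2 * 2 ^ L := by
    rw [en_app, add_sub_cancel_left]
    exact hYn Y.length le_rfl
  rw [List.length_append] at hi
  rcases le_or_gt i A.length with h1 | h1
  · rw [vx_append (by omega)]
    have h3 := hT i h1 m hm
    have h4 := hn_tri (vx oo up A i + (2 * (k : ℤ) * m, 2 * (k : ℤ) * m)) (en (A ++ Y)) (en A)
    have e1 : (2 : ℤ) ^ (L + 2) = 4 * 2 ^ L := by ring
    push_cast at h3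
    rw [e1] at h3
    linarith
  · obtain ⟨i', rfl⟩ : ∃ i', i = A.length + i' := ⟨i - A.length, by omega⟩
    rw [vx_app]
    have h3 := hYn i' (by omega)
    have h5 := hn_T k hm
    have h6 : (8 : ℤ) * 2 ^ L ≤ k := by
      have : (2 : ℤ) ^ (L + 3) ≤ k := by exact_mod_cast hk
      have e1 : (2 : ℤ) ^ (L + 3) = 8 * 2 ^ L := by ring
      linarith
    have h7 := hn_sub (en A + mulE (rt A) (vx oo up Y i') + (2 * (k : ℤ) * m, 2 * (k : ℤ) * m) - en (A ++ Y))
      (mulE (rt A) (vx oo up Y i') - (en (A ++ Y) - en A))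
    have e1 : en A + mulE (rt A) (vx oo up Y i') + (2 * (k : ℤ) * m, 2 * (k : ℤ) * m) - en (A ++ Y) -
        (mulE (rt A) (vx oo up Y i') - (en (A ++ Y) - en A)) = (2 * (k : ℤ) * m, 2 * (k : ℤ) * m) := by abel
    rw [e1] at h7
    have h8 := hn_sub (mulE (rt A) (vx oo up Y i')) (en (A ++ Y) - en A)
    linarith

end

open Classical in
/-- **no return and no translate near the tip, from the weight of a level** -/
theorem noret_of_NW {l L k : ℕ} {Ch : Set (List Bool)} (hC : SLW.Chn L Ch) (hl : l ≤ L) (hk : 2 ^ (L + 3) ≤ k)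
    {θ ψ : List Bool → ℝ} (hθ : ∀ A, θ A ≠ 0 → TrF k (2 ^ (L + 2)) A) {t : List Bool} (h : NW l L Ch θ ψ t ≠ 0) :
    (∀ j i, j ≤ i → i ≤ t.length → 32 * hn (vx oo up t j - en t) < 2 ^ l → hn (vx oo up t i - en t) < 2 * 2 ^ l) ∧
      ∀ i, i ≤ t.length → ∀ m : ℤ, m ≠ 0 → (2 : ℤ) ^ L ≤ hn (vx oo up t i + (2 * (k : ℤ) * m, 2 * (k : ℤ) * m) - en t) := by
  obtain ⟨p, hp, hne⟩ := Finset.exists_ne_zero_of_sum_ne_zero h
  rw [mem_filter, mem_product, mem_range, mem_range] at hp
  obtain ⟨-, h1, h2, h3, h4⟩ := hp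
  have hθ' : θ (t.take p.1) ≠ 0 := right_ne_zero_of_mul hne
  have hchi0 : chi (2 ^ l) (t.drop p.2) ≠ 0 := left_ne_zero_of_mul (left_ne_zero_of_mul hne)
  have hchi : 0 < chi (2 ^ l) (t.drop p.2) := by
    refine lt_of_le_of_ne ?_ (Ne.symm hchi0)
    unfold chi cl1
    exact le_min (le_max_left _ _) (le_max_left _ _)
  have e := take_take_drop t h1
  constructor
  · intro j i hji hi hj
    rw [← e] at hi hj ⊢
    exact (noret_tri hC hl h2 h3 h4.1 hchi hji hi hj).2
  · intro i hi m hm
    rw [← e] at hi ⊢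
    exact notrans_tri hC hl h3 h4.1 hk (hθ _ hθ') hi hm

end PWN

end HexObs
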