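import Pool.Agent.PW.WindC
import Pool.Agent.PW.NoRet
import Pool.Agent.TIW.Tog

/-!
PW, row E1d (helper15): the middle part of a word of the cylinder: the deterministic half.

`Mid k rb rc N0 t` : no return to the two ends (inner radius rc, outer radius rb), no translate near the ends, no chain of N0 steps
of length rs. `mid_split` : for such a word the angle of the cylinder is the turning around the start up to the first exit of the
ball rb, minus the turning around the tip behind the last vertex outside the ball rb, up to (N0 + 5) π / 4.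
-/

set_option autoImplicit false

namespace HexObs

namespace PWd

open Finset TS SDN TIW

/-- the good words: the ends are approached once -/
structure Mid (k rb rc rs N0 : ℕ) (t : List Bool) : Prop where
  tip : ∀ i l, i ≤ l → l ≤ t.length → hn (vx oo up t i - en t) < rc → hn (vx oo up t l - en t) < rb
  tipT : ∀ i, i ≤ t.length → ∀ m : ℤ, m ≠ 0 → (rc : ℤ) ≤ hn (vx oo up t i + (2 * (k : ℤ) * m, 2 * (k : ℤ) * m) - en t)
  str : ∀ i l, i ≤ l → l ≤ t.length → hn (vx oo up t l) < rc → hn (vx oo up t i) < rb
  strT : ∀ i, i ≤ t.length → ∀ m : ℤ, m ≠ 0 → (rc : ℤ) ≤ hn (vx oo up t i + (2 * (k : ℤ) * m, 2 * (k : ℤ) * m))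
  chain : ∀ i : ℕ → ℕ, (∀ j, j < N0 → i j ≤ i (j + 1)) → i N0 ≤ t.length →
    ∃ j, j < N0 ∧ nrm (vx oo up t (i (j + 1)) - vx oo up t (i j)) < (rs : ℤ) ^ 2

/-- first index with a distance at least r from the start -/
def IsFirst (r : ℕ) (t : List Bool) (j : ℕ) : Prop :=
  j ≤ t.length ∧ (r : ℤ) ≤ hn (vx oo up t j) ∧ ∀ i, i < j → hn (vx oo up t i) < r

/-- last index with a distance at least r from the tip -/
def IsLast (r : ℕ) (t : List Bool) (j : ℕ) : Prop :=
  j ≤ t.length ∧ (r : ℤ) ≤ hn (vx oo up t j - en t) ∧ ∀ i, j < i → i ≤ t.length → hn (vx oo up t i - en t) < r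

lemma exists_first {r : ℕ} {t : List Bool} (h : (r : ℤ) ≤ hn (en t)) : ∃ j, IsFirst r t j := by
  classical
  have hex : ∃ j, (r : ℤ) ≤ hn (vx oo up t j) := ⟨t.length, h⟩
  refine ⟨Nat.find hex, Nat.find_min' hex h, Nat.find_spec hex, fun i hi => ?_⟩
  exact not_le.1 (Nat.find_min hex hi)

lemma exists_last {r : ℕ} {t : List Bool} (h : (r : ℤ) ≤ hn (en t)) : ∃ j, IsLast r t j := by
  classical
  have hex : ∃ d, (r : ℤ) ≤ hn (vx oo up t (t.length - d) - en t) := ⟨t.length, by
    rw [Nat.sub_self]
    have : vx oo up t 0 = oo := rfl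
    rw [this, hn_sub_comm]
    have e : en t - oo = en t := sub_zero _
    rwa [e]⟩
  refine ⟨t.length - Nat.find hex, Nat.sub_le _ _, Nat.find_spec hex, fun i hi hl => ?_⟩
  have h1 := Nat.find_min hex (m := t.length - i) (by
    by_contra hcon
    rw [not_lt] at hcon
    omega)
  rw [not_le, show t.length - (t.length - i) = i by omega] at h1
  exact h1

/-- a step changes the distance by at most 2 -/
lemma hn_step (t : List Bool) (i : ℕ) : hn (vx oo up t (i + 1) - vx oo up t i) ≤ 2 := by
  have h1 : vx oo up t (i + 1) = vx oo up t i + dx up t i := rfl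
  rw [h1, add_sub_cancel_left]
  have h2 : dx up t i ∈ dirs := ds_mem upd' _
  revert h2
  generalize dx up t i = d
  intro h2
  revert d
  decide

section

open Complex

variable {k rb rc rs N0 : ℕ} {t : List Bool} {j1 j2 : ℕ}

/-- the first exit comes before the last index outside -/
lemma first_le_last (h1 : IsFirst rb t j1) (h2 : IsLast rb t j2) (hy : (2 * rb + 2 : ℤ) ≤ hn (en t)) (hb : 1 ≤ rb) :
    j1 ≤ j2 := by
  by_contra hcon
  rw [not_le] at hcon
  have h3 := h2.2.2 j1 hcon h1.1
  have h4 : hn (vx oo up t j1) < rb + 2 := by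
    rcases Nat.eq_zero_or_pos j1 with h0 | h0
    · have h5 := h1.2.1
      rw [h0] at h5
      have h6 : hn (vx oo up t 0) = 0 := by
        show hn oo = 0
        decide
      omega
    · obtain ⟨i, rfl⟩ : ∃ i, j1 = i + 1 := ⟨j1 - 1, by omega⟩
      have h5 := h1.2.2 i (by omega)
      have h6 := hn_step t i
      have h7 := hn_add (vx oo up t (i + 1) - vx oo up t i) (vx oo up t i)
      rw [sub_add_cancel] at h7
      linarith
  have h5 := hn_tri (vx oo up t j1) (en t) 0
  have h6 := hn_sub (vx oo up t j1) (vx oo up t j1 - en t)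
  rw [sub_sub_cancel] at h6
  linarith

end

end PWd

end HexObs
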