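import Pool.Agent.PW.ChainT
import Pool.Agent.PW.DictT
import Pool.Agent.PW.MidG

/-!
PW, row E1d (helper15): from one lift of the end to the whole class of the cylinder, and the reversed word.

* `RetE r R t` : a return to the ball r around the tip before an exit of the ball R;
* `TrE k r t` : a translate near the tip;
* `lift_union` : a property rare at every lift of the end is rare on `TT k`.
-/

set_option autoImplicit false

namespace HexObs

namespace PWd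

open Finset TIW SDN NTW NTA TPC TPC.An PW.BL PWT

open scoped ENNReal

/-- the ball of radius r around the tip, later outside of the ball of radius R -/
def RetE (r R : ℕ) (t : List Bool) : Prop :=
  ∃ i l, i ≤ l ∧ l ≤ t.length ∧ hn (vx oo up t i - en t) < r ∧ (R : ℤ) ≤ hn (vx oo up t l - en t)

/-- a translate is near the tip -/
def TrE (k r : ℕ) (t : List Bool) : Prop :=
  ∃ (m : ℤ) (i : ℕ), m ≠ 0 ∧ i ≤ t.length ∧ hn (vx oo up t i + (2 * (k : ℤ) * m, 2 * (k : ℤ) * m) - en t) < r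

/-- every lift of the end -/
def LiftS (k : ℕ) (P : List Bool → Prop) (b : ℝ≥0∞) : Prop :=
  ∀ z : ℤ, gf {t | (t ∈ SA ∧ Dsj k t ∧ en t = ((2 * z + 1) * (k : ℤ), (2 * z + 1) * (k : ℤ))) ∧ P t} ≤ b

/-- **from one lift to the cylinder** -/
theorem lift_union (hB : BoxTs) {ε : ℝ} (hε : 0 < ε) : ∃ (δ : ℝ) (k0 : ℕ), 0 < δ ∧ ∀ k, k0 ≤ k → ∀ P : List Bool → Prop,
    LiftS k P (ENNReal.ofReal δ * gK (Nat.log 2 k)) →
    gf {t | t ∈ TT k ∧ P t} ≤ ENNReal.ofReal ε * gK (Nat.log 2 k) := by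
  obtain ⟨J, k1, h1⟩ := hB (ε / 2) (by positivity)
  refine ⟨ε / 2 / 2 ^ (J + 2), max k1 1, by positivity, fun k hk P hP => ?_⟩
  have hk1 : k1 ≤ k := (le_max_left _ _).trans hk
  have hk2 : 1 ≤ k := (le_max_right _ _).trans hk
  have h1 := h1 k ((k : ℤ), (k : ℤ)) hk1
  obtain ⟨K, hK⟩ : ∃ K, K = Nat.log 2 k := ⟨_, rfl⟩
  rw [← hK] at h1 hP ⊢
  have hLk : 2 ^ K ≤ k := by
    rw [hK]
    exact Nat.pow_log_le_self 2 (by omega)
  obtain ⟨F, hF⟩ : ∃ F : ℤ → Set (List Bool), F = fun z =>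
      {t | ((t ∈ SA ∧ Dsj k t ∧ en t = ((2 * z + 1) * (k : ℤ), (2 * z + 1) * (k : ℤ))) ∧ P t) ∧
        |row false ((k : ℤ), (k : ℤ)) + 2 * (k : ℤ) * z| ≤ 2 ^ J * k} := ⟨_, rfl⟩
  have hsub : {t | t ∈ TT k ∧ P t} ⊆
      {t | t ∈ SA ∧ Dsj k t ∧ EndC k ((k : ℤ), (k : ℤ)) (vx oo up t t.length) ∧ t ∉ WL (K + J)} ∪ ⋃ z : ℤ, F z := by
    rintro t ⟨⟨h2, h3, ⟨z, h4⟩, -⟩, h5⟩
    have h6 : vx oo up t t.length = ((k : ℤ), (k : ℤ)) + (2 * (k : ℤ) * z, 2 * (k : ℤ) * z) := by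
      rw [h4]
      refine Prod.ext ?_ ?_ <;> simp only [Prod.fst_add, Prod.snd_add] <;> ring
    by_cases h7 : t ∈ WL (K + J)
    · right
      have h8 := h7.2 t.length le_rfl false
      rw [h6, row_lift] at h8
      refine Set.mem_iUnion.2 ⟨z, ?_⟩
      rw [hF]
      refine ⟨⟨⟨h2, h3, h4⟩, h5⟩, h8.trans ?_⟩
      have h9 : (2 : ℤ) ^ (K + J) = 2 ^ J * 2 ^ K := by rw [← pow_add, add_comm]
      rw [h9]
      exact mul_le_mul_of_nonneg_left (by exact_mod_cast hLk) (by positivity)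
    · left
      exact ⟨h2, h3, ⟨z, h6⟩, h7⟩
  have h2 : gf (⋃ z : ℤ, F z) ≤ ENNReal.ofReal (ε / 2) * gK K := by
    refine (Pool.Agent.GLD.gf_iUnion_le _).trans ?_
    have h3 := tsum_lift (row false ((k : ℤ), (k : ℤ))) hk2 J (fun z => gf (F z))
      (ENNReal.ofReal (ε / 2 / 2 ^ (J + 2)) * gK K)
      (fun z => by
        refine (gf_mono fun t ht => ?_).trans (hP z)
        rw [hF] at ht
        exact ht.1) (fun z hz => by
        have h3 : F z = ∅ := by
          rw [hF]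
          exact Set.eq_empty_iff_forall_notMem.2 fun t ht => hz ht.2
        show gf (F z) = 0
        rw [h3]
        unfold gf
        simp)
    refine h3.trans (le_of_eq ?_)
    have e2 : (2 : ℝ≥0∞) ^ (J + 2) = ENNReal.ofReal (2 ^ (J + 2)) := by
      rw [ENNReal.ofReal_pow (by norm_num)]
      norm_num
    rw [e2, ← mul_assoc, ← ENNReal.ofReal_mul (by positivity)]
    congr 2
    field_simp
  calc _ ≤ gf ({t | t ∈ SA ∧ Dsj k t ∧ EndC k ((k : ℤ), (k : ℤ)) (vx oo up t t.length) ∧ t ∉ WL (K + J)} ∪ ⋃ z : ℤ, F z) :=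
        gf_mono hsub
    _ ≤ ENNReal.ofReal (ε / 2) * gK K + ENNReal.ofReal (ε / 2) * gK K := (gf_union_le _ _).trans (add_le_add h1 h2)
    _ = ENNReal.ofReal ε * gK K := by
        rw [← add_mul, ← ENNReal.ofReal_add (by positivity) (by positivity)]
        congr 2
        ring

end PWd

end HexObs
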