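import Pool.Agent.BAR.TypA

/-!
PW: a sequence that dominates a triple convolution, from below at every index. The middle factor has the pointwise
bound `n ^ (β - 1 - o(1))` from below; of the two outer factors only the partial sums are known, `n ^ (σ - o(1))`.
Then `s n` is at least `n ^ (2 σ + β - 1 - o(1))` for every `n`. The step of the middle index is two, so the outer
factors must have a fixed parity: an odd `n` is always reached (a square), an even `n` by `s (n + 1) ≤ K s n`.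
-/

set_option autoImplicit false

namespace HexObs

namespace PW

open Finset NUX

/-- the products of the same parity are at least half of the square -/
lemma par_sum (b : ℕ → ℝ) (M : ℕ) :
    (∑ k ∈ range M, b k) ^ 2 / 2 ≤
      ∑ p ∈ (range M ×ˢ range M).filter (fun p => (p.1 + p.2) % 2 = 0), b p.1 * b p.2 := by
  have h1 : (∑ k ∈ range M, b k) ^ 2 + (∑ k ∈ range M, (-1 : ℝ) ^ k * b k) ^ 2 =
      2 * ∑ p ∈ (range M ×ˢ range M).filter (fun p => (p.1 + p.2) % 2 = 0), b p.1 * b p.2 := by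
    rw [sq, sq, sum_mul_sum, sum_mul_sum, ← sum_product', ← sum_product', ← sum_add_distrib, sum_filter, mul_sum]
    refine sum_congr rfl fun p _ => ?_
    rcases Nat.even_or_odd (p.1 + p.2) with h | h
    · rw [if_pos (Nat.even_iff.1 h)]
      have h2 : (-1 : ℝ) ^ p.1 * (-1 : ℝ) ^ p.2 = 1 := by rw [← pow_add, h.neg_one_pow]
      linear_combination b p.1 * b p.2 * h2
    · rw [if_neg (by rw [Nat.odd_iff.1 h]; norm_num)]
      have h2 : (-1 : ℝ) ^ p.1 * (-1 : ℝ) ^ p.2 = -1 := by rw [← pow_add, h.neg_one_pow]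
      linear_combination b p.1 * b p.2 * h2
  nlinarith [sq_nonneg (∑ k ∈ range M, (-1 : ℝ) ^ k * b k)]

/-- a bound for large indices is a bound for all -/
lemma lo_ev {g : ℕ → ℝ} {x : ℝ} (hp : ∀ n, 1 ≤ n → 0 < g n) :
    ∀ (N : ℕ) (c : ℝ), 0 < c → (∀ n : ℕ, N ≤ n → 1 ≤ n → c * (n : ℝ) ^ x ≤ g n) →
      ∃ c' : ℝ, 0 < c' ∧ ∀ n : ℕ, 1 ≤ n → c' * (n : ℝ) ^ x ≤ g n := by
  intro N
  induction N with
  | zero => exact fun c hc h => ⟨c, hc, fun n hn => h n (Nat.zero_le _) hn⟩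
  | succ N ih =>
    intro c hc h
    rcases Nat.eq_zero_or_pos N with h0 | h0
    · subst h0
      exact ⟨c, hc, fun n hn => h n hn hn⟩
    · have hN : (0 : ℝ) < N := by exact_mod_cast h0
      have hNx : 0 < (N : ℝ) ^ x := Real.rpow_pos_of_pos hN x
      have hg := hp N h0
      refine ih (min c (g N / (N : ℝ) ^ x)) (lt_min hc (by positivity)) fun n hn hn1 => ?_
      have hnx : (0 : ℝ) ≤ (n : ℝ) ^ x := by positivity
      rcases Nat.eq_or_lt_of_le hn with h1 | h1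
      · subst h1
        calc min c (g N / (N : ℝ) ^ x) * (N : ℝ) ^ x ≤ g N / (N : ℝ) ^ x * (N : ℝ) ^ x :=
              mul_le_mul_of_nonneg_right (min_le_right _ _) hnx
          _ = g N := div_mul_cancel₀ _ hNx.ne'
      · exact (mul_le_mul_of_nonneg_right (min_le_left _ _) hnx).trans (h n h1 hn1)

/-- **the convolution at one odd index** -/
lemma conv_low {a u s : ℕ → ℝ} {D r : ℝ} (ha : ∀ n, 0 ≤ a n) (hr : 0 ≤ r)
    (hconv : ∀ n, ∀ F : Finset (ℕ × ℕ × ℕ), (∀ p ∈ F, p.1 + 2 * p.2.1 + p.2.2 = n) →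
      ∑ p ∈ F, a (p.1 + 1) * (u p.2.1 * a p.2.2) ≤ D * s n)
    {n M : ℕ} (hn : n % 2 = 1) (hM : 4 * M ≤ n) (hM1 : 1 ≤ M) (hu : ∀ j, 1 ≤ j → j ≤ n → r ≤ u j) :
    r * ((∑ k ∈ range M, a (k + 1)) ^ 2 / 2) ≤ D * s n := by
  classical
  set G := (range M ×ˢ range M).filter (fun p : ℕ × ℕ => (p.1 + p.2) % 2 = 0) with hG
  set f : ℕ × ℕ → ℕ × ℕ × ℕ := fun p => (p.1, (n - p.1 - (p.2 + 1)) / 2, p.2 + 1) with hf
  have hinj : Set.InjOn f G := by
    intro p _ q _ h
    simp only [hf, Prod.mk.injEq] at h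
    exact Prod.ext h.1 (by omega)
  have hmem : ∀ p ∈ G, p.1 < M ∧ p.2 < M ∧ (p.1 + p.2) % 2 = 0 := by
    intro p hp
    rw [hG, mem_filter, mem_product, mem_range, mem_range] at hp
    exact ⟨hp.1.1, hp.1.2, hp.2⟩
  have h1 := hconv n (G.image f) (by
    intro p hp
    obtain ⟨q, hq, rfl⟩ := mem_image.1 hp
    obtain ⟨q1, q2, q3⟩ := hmem q hq
    simp only [hf]
    omega)
  rw [sum_image hinj] at h1
  refine le_trans ?_ h1
  calc r * ((∑ k ∈ range M, a (k + 1)) ^ 2 / 2) ≤ r * ∑ p ∈ G, a (p.1 + 1) * a (p.2 + 1) :=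
        mul_le_mul_of_nonneg_left (par_sum (fun k => a (k + 1)) M) hr
    _ = ∑ p ∈ G, a (p.1 + 1) * (r * a (p.2 + 1)) := by
        rw [mul_sum]
        exact sum_congr rfl fun p _ => by ring
    _ ≤ _ := by
        refine sum_le_sum fun p hp => ?_
        obtain ⟨q1, q2, q3⟩ := hmem p hp
        refine mul_le_mul_of_nonneg_left (mul_le_mul_of_nonneg_right ?_ (ha _)) (ha _)
        show r ≤ u ((n - p.1 - (p.2 + 1)) / 2)
        exact hu _ (by omega) (by omega)

/-- **every index** -/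
theorem pw_abs {a u s : ℕ → ℝ} {D K σ β : ℝ} (hσ : 0 < σ) (hβ : β ≤ 1) (ha : ∀ n, 0 ≤ a n) (hD : 0 < D)
    (hK : 0 < K) (hsK : ∀ n, s (n + 1) ≤ K * s n)
    (hconv : ∀ n, ∀ F : Finset (ℕ × ℕ × ℕ), (∀ p ∈ F, p.1 + 2 * p.2.1 + p.2.2 = n) →
      ∑ p ∈ F, a (p.1 + 1) * (u p.2.1 * a p.2.2) ≤ D * s n)
    (hlo : Lo (fun n => ∑ k ∈ range (n + 1), a k) σ) (hul : Lo u (β - 1)) : Lo s (2 * σ + β - 1) := by
  intro ε hε
  obtain ⟨e, he⟩ : ∃ e : ℝ, e = min (ε / 3) (σ / 2) := ⟨_, rfl⟩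
  have he0 : 0 < e := by rw [he]; exact lt_min (by positivity) (by positivity)
  have he1 : e ≤ ε / 3 := by rw [he]; exact min_le_left _ _
  have he2 : e ≤ σ / 2 := by rw [he]; exact min_le_right _ _
  obtain ⟨c1, hc1, h1⟩ := hlo e he0
  obtain ⟨c2, hc2, h2⟩ := hul e he0
  obtain ⟨M0, hM0, h3⟩ := BAR.Typ.ev_pow (a := 0) (b := σ - e) (by linarith) (a 0) (c := c1 / 2) (by positivity)
  have hx0 : 0 ≤ σ - e := by linarith
  -- the partial sums without the first term
  have h4 : ∀ M : ℕ, M0 ≤ M → c1 / 2 * (M : ℝ) ^ (σ - e) ≤ ∑ k ∈ range M, a (k + 1) := by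
    intro M hM
    have h5 := h1 M (hM0.trans hM)
    have h6 := h3 M hM
    simp only [] at h5
    rw [sum_range_succ'] at h5
    rw [Real.rpow_zero, mul_one] at h6
    linarith
  obtain ⟨c3, hc3⟩ : ∃ c3 : ℝ, c3 = c2 * (c1 / 2 * (1 / 8) ^ (σ - e)) ^ 2 / 2 / D := ⟨_, rfl⟩
  have hc30 : 0 < c3 := by rw [hc3]; positivity
  obtain ⟨x, hx⟩ : ∃ x : ℝ, x = 2 * σ + β - 1 - 3 * e := ⟨_, rfl⟩
  -- odd indices
  have h5 : ∀ n : ℕ, n % 2 = 1 → 4 * M0 + 4 ≤ n → c3 * (n : ℝ) ^ x ≤ s n := by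
    intro n hn hnM
    have hnR : (1 : ℝ) ≤ n := by exact_mod_cast (by omega : 1 ≤ n)
    have hn0 : (0 : ℝ) < n := by linarith
    obtain ⟨M, hM⟩ : ∃ M, M = n / 4 := ⟨_, rfl⟩
    have hM8 : n ≤ 8 * M := by omega
    have hMM : M0 ≤ M := by omega
    have hM8R : 1 / 8 * (n : ℝ) ≤ M := by
      have : (n : ℝ) ≤ 8 * M := by exact_mod_cast hM8
      linarith
    have hu : ∀ j, 1 ≤ j → j ≤ n → c2 * (n : ℝ) ^ (β - 1 - e) ≤ u j := by
      intro j hj1 hjn
      refine le_trans (mul_le_mul_of_nonneg_left ?_ hc2.le) (h2 j hj1)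
      exact Real.rpow_le_rpow_of_nonpos (by exact_mod_cast hj1) (by exact_mod_cast hjn) (by linarith)
    have h6 := conv_low ha (by positivity) hconv hn (M := M) (by omega) (by omega) hu
    have h7 : c1 / 2 * (1 / 8) ^ (σ - e) * (n : ℝ) ^ (σ - e) ≤ ∑ k ∈ range M, a (k + 1) := by
      refine le_trans ?_ (h4 M hMM)
      rw [mul_assoc]
      refine mul_le_mul_of_nonneg_left ?_ (by positivity)
      rw [← Real.mul_rpow (by norm_num) hn0.le]
      exact Real.rpow_le_rpow (by positivity) hM8R hx0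
    have h8 : (n : ℝ) ^ x = (n : ℝ) ^ (β - 1 - e) * ((n : ℝ) ^ (σ - e)) ^ 2 := by
      rw [← Real.rpow_natCast, ← Real.rpow_mul hn0.le, ← Real.rpow_add hn0, hx]
      congr 1
      push_cast
      ring
    have h9 : D * (c3 * (n : ℝ) ^ x) ≤ D * s n := by
      refine le_trans ?_ h6
      calc D * (c3 * (n : ℝ) ^ x) = c2 * (n : ℝ) ^ (β - 1 - e) *
            ((c1 / 2 * (1 / 8) ^ (σ - e) * (n : ℝ) ^ (σ - e)) ^ 2 / 2) := by
            rw [h8, hc3]
            field_simp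
        _ ≤ _ := by
            refine mul_le_mul_of_nonneg_left ?_ (by positivity)
            refine div_le_div_of_nonneg_right (pow_le_pow_left₀ (by positivity) h7 2) (by norm_num)
    exact le_of_mul_le_mul_left h9 hD
  -- positivity
  have h6 : ∀ n, 0 < s n := by
    intro n
    by_contra hc
    push Not at hc
    have h7 : ∀ k, s (n + k) ≤ 0 := by
      intro k
      induction k with
      | zero => exact hc
      | succ k ih =>
        refine (hsK (n + k)).trans ?_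
        exact mul_nonpos_of_nonneg_of_nonpos hK.le ih
    have h8 := h5 (2 * (n + 2 * M0 + 2) + 1) (by omega) (by omega)
    have h9 := h7 (n + 4 * M0 + 5)
    rw [show n + (n + 4 * M0 + 5) = 2 * (n + 2 * M0 + 2) + 1 by ring] at h9
    have h10 : 0 < c3 * ((2 * (n + 2 * M0 + 2) + 1 : ℕ) : ℝ) ^ x := by positivity
    linarith
  -- all large indices
  obtain ⟨c4, hc4⟩ : ∃ c4 : ℝ, c4 = min c3 (c3 * min 1 (2 ^ x) / K) := ⟨_, rfl⟩
  have hc40 : 0 < c4 := by
    rw [hc4]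
    have : (0 : ℝ) < min 1 (2 ^ x) := lt_min one_pos (by positivity)
    exact lt_min hc30 (by positivity)
  have h7 : ∀ n : ℕ, 4 * M0 + 4 ≤ n → 1 ≤ n → c4 * (n : ℝ) ^ x ≤ s n := by
    intro n hn hn1
    have hnR : (1 : ℝ) ≤ n := by exact_mod_cast hn1
    have hn0 : (0 : ℝ) < n := by linarith
    have hnx : (0 : ℝ) ≤ (n : ℝ) ^ x := by positivity
    rcases Nat.mod_two_eq_zero_or_one n with h8 | h8
    · have h9 := (h5 (n + 1) (by omega) (by omega)).trans (hsK n)
      have h10 : min 1 (2 ^ x) * (n : ℝ) ^ x ≤ ((n + 1 : ℕ) : ℝ) ^ x := by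
        push_cast
        rcases le_total 0 x with hx1 | hx1
        · calc min 1 (2 ^ x) * (n : ℝ) ^ x ≤ 1 * (n : ℝ) ^ x :=
                mul_le_mul_of_nonneg_right (min_le_left _ _) hnx
            _ = (n : ℝ) ^ x := one_mul _
            _ ≤ _ := Real.rpow_le_rpow hn0.le (by linarith) hx1
        · calc min 1 (2 ^ x) * (n : ℝ) ^ x ≤ 2 ^ x * (n : ℝ) ^ x :=
                mul_le_mul_of_nonneg_right (min_le_right _ _) hnx
            _ = (2 * (n : ℝ)) ^ x := (Real.mul_rpow (by norm_num) hn0.le).symm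
            _ ≤ _ := Real.rpow_le_rpow_of_nonpos (by linarith) (by linarith) hx1
      have h11 : K * (c4 * (n : ℝ) ^ x) ≤ K * s n := by
        refine le_trans ?_ h9
        calc K * (c4 * (n : ℝ) ^ x) ≤ K * (c3 * min 1 (2 ^ x) / K * (n : ℝ) ^ x) := by
              refine mul_le_mul_of_nonneg_left (mul_le_mul_of_nonneg_right ?_ hnx) hK.le
              rw [hc4]
              exact min_le_right _ _
          _ = c3 * (min 1 (2 ^ x) * (n : ℝ) ^ x) := by field_simp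
          _ ≤ _ := mul_le_mul_of_nonneg_left h10 hc30.le
      exact le_of_mul_le_mul_left h11 hK
    · refine le_trans (mul_le_mul_of_nonneg_right ?_ hnx) (h5 n h8 hn)
      rw [hc4]
      exact min_le_left _ _
  obtain ⟨c5, hc5, h8⟩ := lo_ev (x := x) (fun n _ => h6 n) _ c4 hc40 h7
  refine ⟨c5, hc5, fun n hn => le_trans (mul_le_mul_of_nonneg_left ?_ hc5.le) (h8 n hn)⟩
  exact Real.rpow_le_rpow_of_exponent_le (by exact_mod_cast hn) (by rw [hx]; linarith)

end PW

end HexObs
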