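import Pool.Agent.PW.LowZ
import Pool.Agent.Tight.Leaves
import Pool.Agent.TH.FarC

/-!
PW, piece P2a, second part: the words of the strip of height 3 h that leave the strip of height h are bridges of height
3 h or folds of two bridges of the heights T and T - 1, h < T <= 3 h.
-/

set_option autoImplicit false

namespace HexObs

namespace PW

open Finset TS SDN CMP LP

open scoped ENNReal

private lemma la_ip : ∀ d ∈ dirs, -2 ≤ ip d up ∧ ip d up ≤ 2 ∧ (ip d up = 2 → d = up) ∧ (ip d up = -2 → d = -up) := by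
  decide

private lemma la_turn : ∀ b : Bool, turn b up ≠ -up := by
  decide

/-- an arc is the fold of two bridges. -/
lemma arc_split {T R h : ℕ} (hT : 1 ≤ T) (hR : 1 ≤ R) (hh : 1 ≤ h) {t : List Bool} (ht : t ∈ WW T h R)
    (hd : dx up t t.length = -up) :
    ∃ (T0 : ℕ) (g g' : List Bool), h + 1 ≤ T0 ∧ T0 ≤ T ∧ g ∈ Brd T0 ∧ g' ∈ Brd (T0 - 1) ∧ LFold g g' ∧
      t = g.dropLast ++ (!lst g) :: (!lst g) :: g' := by
  obtain ⟨ht1, _, i1, hi1, hi2, hi3⟩ := mem_WW.1 ht
  obtain ⟨ha, ho⟩ := mem_exits.1 ht1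
  have hlev : ∀ i, 1 ≤ i → i ≤ t.length → 0 < lev t i ∧ lev t i < 3 * T + 2 := by
    intro i h1 h2
    have h3 := ha.mem i h1 h2
    rw [arcA_par] at h3
    rw [lev_lv]
    unfold lv
    exact ⟨h3.2.1, h3.2.2.1⟩
  have hmod : ∀ i, lev t i % 3 = if Even i then 0 else 2 := by
    intro i
    have h := HexObs.lev_mod t i
    split_ifs at h ⊢ <;> omega
  have hmod2 : ∀ i, lev t i % 3 = 0 ∨ lev t i % 3 = 2 := by
    intro i
    have := hmod i
    split_ifs at this
    · exact Or.inl this
    · exact Or.inr this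
  -- the end
  have hend : lev t t.length = 2 := by
    rcases Tube.dm_exit upd true hT hR hR ht1 with ⟨_, h1⟩ | ⟨h1, _⟩ | ⟨h1, _⟩ | ⟨h1, _⟩
    · have h2 : ip (tip oo up t - oo) up = lev t (t.length + 1) := lev_sub t _
      rw [h2, lev_succ, hd] at h1
      have h3 : ip (-up) up = -2 := by decide
      omega
    · rw [hd] at h1
      exact absurd h1 (by decide)
    · rw [hd] at h1
      exact absurd h1 (by decide)
    · rw [hd] at h1
      exact absurd h1 (by decide)
  obtain ⟨e0, _, he2, he3, he4⟩ := Tight.last_argmax (fun i => lev t i) (Nat.zero_le t.length)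
  have hmax : 3 * (h : ℤ) + 2 ≤ lev t e0 := hi3.trans (he3 i1 (Nat.zero_le _) hi2)
  have he0 : 1 ≤ e0 := by
    rcases Nat.eq_zero_or_pos e0 with h0 | h0
    · rw [h0, lev_zero] at hmax
      omega
    · exact h0
  have hen : e0 < t.length := by
    rcases Nat.lt_or_ge e0 t.length with h1 | h1
    · exact h1
    · have h2 : e0 = t.length := le_antisymm he2 h1
      rw [h2, hend] at hmax
      omega
  -- the largest level is a multiple of 3
  have hm3 : lev t e0 % 3 = 0 := by
    by_contra hcon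
    have hodd : ¬ Even e0 := by
      intro h1
      have := hmod e0
      rw [if_pos h1] at this
      exact hcon this
    have h1 := hmod e0
    rw [if_neg hodd] at h1
    have h2 := hmod (e0 + 1)
    rw [if_pos (Nat.even_add_one.2 hodd)] at h2
    obtain ⟨k, hk⟩ : ∃ k, e0 = k + 1 := ⟨e0 - 1, by omega⟩
    have hke : Even k := by
      rw [hk, Nat.even_add_one, not_not] at hodd
      exact hodd
    have h3 := hmod k
    rw [if_pos hke] at h3
    have s1 := lev_succ t e0
    have s2 := lev_succ t k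
    rw [← hk] at s2
    have g1 := la_ip _ (dx_mem upd t e0)
    have g2 := la_ip _ (dx_mem upd t k)
    have m1 := he4 (e0 + 1) (by omega) (by omega)
    have m2 := he3 k (Nat.zero_le _) (by omega)
    have d1 : dx up t e0 = -up := g1.2.2.2 (by omega)
    have d2 : dx up t k = up := g2.2.2.1 (by omega)
    have d3 : dx up t e0 = turn (tf t k) (dx up t k) := by rw [hk]; rfl
    rw [d1, d2] at d3
    exact la_turn _ d3.symm
  obtain ⟨T0, hT0⟩ : ∃ T0 : ℕ, lev t e0 = 3 * (T0 : ℤ) := ⟨(lev t e0 / 3).toNat, by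
    have h0 := (hlev e0 he0 he2).1
    omega⟩
  have hT0h : h + 1 ≤ T0 := by omega
  have hT0T : T0 ≤ T := by
    have := (hlev e0 he0 he2).2
    omega
  obtain ⟨e, ee0, ee1⟩ : ∃ e : ℕ → ℕ, e 0 = e0 ∧ e 1 = t.length :=
    ⟨fun k => if k = 0 then e0 else t.length, if_pos rfl, if_neg (by decide)⟩
  have hne : ¬ Even 1 := by decide
  have hne0 : ¬ Even (1 + 0) := by decide
  have hev : Even (1 + 1) := by decide
  obtain ⟨u, us, g1, g2, g3, g4, _, _⟩ := leaves_aux (a := 1) (b := T0) (T := T0) (by omega) 1 1 ((T0 : ℤ) + 1) t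
    e ha.inj (by rw [if_neg hne]; exact hd) ee1 (by rw [ee0]; exact he0)
    (by
      intro k hk
      have : k = 0 := by omega
      subst this
      show e 0 < e 1
      rw [ee0, ee1]
      exact hen)
    (by
      intro j h1 h2
      rw [ee0] at h2 ⊢
      exact ⟨(hlev j h1 (by omega)).1, he3 j (Nat.zero_le _) (by omega)⟩)
    (by
      intro k hk j h1 h2
      have : k = 0 := by omega
      subst this
      have h2' : j ≤ e 1 := h2
      show Tight.sg 0 (lev t (e 0)) < Tight.sg 0 (lev t j) ∧ Tight.sg 0 (lev t j) ≤ Tight.sg 0 (lev t (e 1))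
      rw [ee0] at h1 ⊢
      rw [ee1] at h2' ⊢
      rw [Tight.sg_zero, Tight.sg_zero, Tight.sg_zero, hend]
      have m1 := he4 j h1 h2'
      have m2 := (hlev j (by omega) h2').1
      have m3 := hmod2 j
      constructor <;> omega)
    (by
      intro k hk
      have hk2 : k = 0 ∨ k = 1 := by omega
      rcases hk2 with rfl | rfl
      · rw [if_neg hne0, ee0]
        unfold Lv
        rw [if_neg hne, hT0]
        push_cast
        constructor <;> omega
      · rw [if_pos hev, ee1]
        unfold Lv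
        rw [if_neg hne, hend]
        constructor <;> omega)
    hev
    (by
      show Lv 1 ((T0 : ℤ) + 1) (lev t (e 1)) = 3 * (T0 : ℤ)
      rw [ee1]
      unfold Lv
      rw [if_neg hne, hend]
      ring)
  obtain ⟨g', rfl⟩ : ∃ g', us = [g'] := by
    rw [List.length_cons] at g1
    exact List.length_eq_one_iff.1 (by omega)
  have e1 : decide (Even 1) = false := by decide
  rw [e1] at g4
  obtain ⟨h1, b1, b2, b3, b4⟩ := g4
  obtain ⟨h2, c1, c2⟩ := b4
  push_cast at b3
  have k1 : h1 = T0 := by omega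
  have k2 : h2 = T0 - 1 := by omega
  rw [k1] at b1
  rw [k2] at c1
  refine ⟨T0, u, g', hT0h, hT0T, b1, c1, ?_, g2.symm⟩
  rw [List.isChain_cons_cons] at g3
  exact g3.1

/-- a crossing is a bridge. -/
lemma bridge_of_WW {T R h : ℕ} (hT : 1 ≤ T) (hR : 1 ≤ R) {t : List Bool} (ht : t ∈ WW T h R)
    (hd : dx up t t.length = up) : t ∈ Brd T := by
  obtain ⟨ht1, _, _⟩ := mem_WW.1 ht
  obtain ⟨ha, ho⟩ := mem_exits.1 ht1
  have hmod2 : ∀ i, lev t i % 3 = 0 ∨ lev t i % 3 = 2 := by
    intro i
    have h := HexObs.lev_mod t i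
    split_ifs at h <;> omega
  rw [mem_Brd]
  refine ⟨?_, ha.inj, hd, ?_⟩
  · intro i h1 h2
    have h3 := ha.mem i h1 h2
    rw [arcA_par] at h3
    have h4 := hmod2 i
    rw [lev_lv] at h4 ⊢
    unfold lv at h4 ⊢
    omega
  · rcases Tube.dm_exit upd true hT hR hR ht1 with ⟨h1, _⟩ | ⟨_, h1⟩ | ⟨h1, _⟩ | ⟨h1, _⟩
    · rw [hd] at h1
      exact absurd h1 (by decide)
    · have h2 : ip (tip oo up t - oo) up = lev t (t.length + 1) := lev_sub t _
      rw [h2, lev_succ, hd] at h1
      have h3 : ip up up = 2 := by decide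
      omega
    · rw [hd] at h1
      exact absurd h1 (by decide)
    · rw [hd] at h1
      exact absurd h1 (by decide)

/-- the arcs of height T as folds of two bridges. -/
def Ar (T : ℕ) : Set (List Bool × List Bool) := {p | p.1 ∈ Brd T ∧ p.2 ∈ Brd (T - 1) ∧ LFold p.1 p.2}

/-- the sum of the lengths of the arcs of height T. -/
noncomputable def ArcM (T : ℕ) : ℝ≥0∞ :=
  ∑' p : Ar T, ((p.1.1.length + p.1.2.length : ℕ) : ℝ≥0∞) * (wE p.1.1 * wE p.1.2)

open Classical in
/-- the words that leave the strip of height h, as bridges and arcs. -/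
theorem ww_arcs {h R : ℕ} (hh : 1 ≤ h) (hR : 1 ≤ R) :
    ENNReal.ofReal (∑ t ∈ WW (3 * h) h R, cw t * t.length) ≤
      2 * ∑ T ∈ Finset.Ioc h (3 * h), ArcM T + ∑' t : Brd (3 * h), (t.1.length : ℝ≥0∞) * wE t.1 := by
  have hT : 1 ≤ 3 * h := by omega
  set W := WW (3 * h) h R with hW
  have hx := xc_pos
  have hup : (up : Pt) ≠ -up := by decide
  have h1 : ENNReal.ofReal (∑ t ∈ W, cw t * t.length) ≤ ∑ t ∈ W, (t.length : ℝ≥0∞) * wE t := by
    have h2 : ∑ t ∈ W, cw t * t.length ≤ ∑ t ∈ W, (t.length : ℝ) * xc ^ t.length := by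
      refine Finset.sum_le_sum fun t _ => ?_
      rw [mul_comm]
      exact mul_le_mul_of_nonneg_left (cw_le_pow t) (Nat.cast_nonneg _)
    refine (ENNReal.ofReal_le_ofReal h2).trans (le_of_eq ?_)
    rw [ENNReal.ofReal_sum_of_nonneg fun t _ => by positivity]
    refine Finset.sum_congr rfl fun t _ => ?_
    rw [ENNReal.ofReal_mul (Nat.cast_nonneg _), ENNReal.ofReal_natCast]
    rfl
  refine h1.trans ?_
  rw [← Finset.sum_filter_add_sum_filter_not W (fun t => dx up t t.length = -up)]
  apply add_le_add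
  · -- arcs
    set B := W.filter (fun t => dx up t t.length = -up) with hB
    have hsp : ∀ t ∈ B, ∃ (T0 : ℕ) (p : List Bool × List Bool), T0 ∈ Finset.Ioc h (3 * h) ∧ p ∈ Ar T0 ∧
        t = p.1.dropLast ++ (!lst p.1) :: (!lst p.1) :: p.2 := by
      intro t ht
      rw [hB, Finset.mem_filter] at ht
      obtain ⟨T0, g, g', a1, a2, a3, a4, a5, a6⟩ := arc_split hT hR hh ht.1 ht.2
      exact ⟨T0, (g, g'), Finset.mem_Ioc.2 ⟨by omega, a2⟩, ⟨a3, a4, a5⟩, a6⟩
    choose! T0 p c1 c2 c3 using hsp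
    rw [← Finset.sum_fiberwise_of_maps_to c1, Finset.mul_sum]
    refine Finset.sum_le_sum fun T hTm => ?_
    set F : List Bool × List Bool → ℝ≥0∞ := fun q => ((q.1.length + q.2.length : ℕ) : ℝ≥0∞) * (wE q.1 * wE q.2) with hF
    have h2 : ∀ t ∈ B.filter (fun t => T0 t = T), (t.length : ℝ≥0∞) * wE t ≤ 2 * F (p t) := by
      intro t ht
      rw [Finset.mem_filter] at ht
      have d1 := c2 t ht.1
      have d2 := c3 t ht.1
      have hm := Finset.mem_Ioc.1 (c1 t ht.1)
      obtain ⟨g, hg⟩ : ∃ g, g = (p t).1 := ⟨_, rfl⟩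
      obtain ⟨g', hg'⟩ : ∃ g', g' = (p t).2 := ⟨_, rfl⟩
      rw [hF]
      simp only
      rw [← hg, ← hg'] at d2 ⊢
      have hg1 : 1 ≤ g.length := by
        have d3 := d1.1
        rw [← hg] at d3
        by_contra hcon
        have e0 : g.length = 0 := by omega
        have e1 := (mem_Brd.1 d3).2.2.2
        rw [e0, lev_zero] at e1
        omega
      have hl : t.length = g.length + g'.length + 1 := by
        rw [d2, List.length_append, List.length_dropLast, List.length_cons, List.length_cons]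
        omega
      have hw : wE t ≤ wE g * wE g' := by
        show ENNReal.ofReal (xc ^ t.length) ≤ ENNReal.ofReal (xc ^ g.length) * ENNReal.ofReal (xc ^ g'.length)
        rw [← ENNReal.ofReal_mul (by positivity), ← pow_add, hl]
        apply ENNReal.ofReal_le_ofReal
        exact pow_le_pow_of_le_one hx.le TH.xc_le_one (Nat.le_succ _)
      have hl2 : (t.length : ℝ≥0∞) ≤ 2 * ((g.length + g'.length : ℕ) : ℝ≥0∞) := by
        have : t.length ≤ 2 * (g.length + g'.length) := by omega
        exact_mod_cast this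
      calc (t.length : ℝ≥0∞) * wE t ≤ (2 * ((g.length + g'.length : ℕ) : ℝ≥0∞)) * (wE g * wE g') := mul_le_mul' hl2 hw
        _ = _ := mul_assoc _ _ _
    refine (Finset.sum_le_sum h2).trans ?_
    rw [← Finset.mul_sum]
    refine mul_le_mul' le_rfl ?_
    have hinj : Set.InjOn p (B.filter (fun t => T0 t = T) : Set (List Bool)) := by
      intro a ha b hb hab
      rw [Finset.mem_coe, Finset.mem_filter] at ha hb
      rw [c3 a ha.1, c3 b hb.1, hab]
    rw [← Finset.sum_image (f := F) (g := p) (fun a ha b hb h => hinj ha hb h)]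
    have e2 : ArcM T = ∑' q : List Bool × List Bool, (Ar T).indicator F q := tsum_subtype (Ar T) F
    rw [e2]
    refine le_trans (le_of_eq ?_) (ENNReal.sum_le_tsum ((B.filter (fun t => T0 t = T)).image p))
    refine Finset.sum_congr rfl fun q hq => ?_
    rw [Finset.mem_image] at hq
    obtain ⟨t, ht, rfl⟩ := hq
    rw [Finset.mem_filter] at ht
    have d1 := c2 t ht.1
    rw [ht.2] at d1
    rw [Set.indicator_of_mem d1]
  · -- bridges
    have e2 : ∑' t : Brd (3 * h), (t.1.length : ℝ≥0∞) * wE t.1 =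
        ∑' t : List Bool, (Brd (3 * h)).indicator (fun t => (t.length : ℝ≥0∞) * wE t) t :=
      tsum_subtype (Brd (3 * h)) (fun t : List Bool => (t.length : ℝ≥0∞) * wE t)
    rw [e2]
    refine le_trans (le_of_eq ?_) (ENNReal.sum_le_tsum (W.filter (fun t => ¬ dx up t t.length = -up)))
    refine Finset.sum_congr rfl fun t ht => ?_
    rw [Finset.mem_filter] at ht
    have hd : dx up t t.length = up := by
      rcases (mem_WW.1 ht.1).2.1 with h2 | h2
      · exact h2
      · exact absurd h2 ht.2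
    rw [Set.indicator_of_mem (bridge_of_WW hT hR ht.1 hd)]

/-- P2a in terms of the bridges and the arcs (input of C1). -/
theorem lowArc : ∃ c : ℝ, 0 < c ∧ ∀ h : ℕ, 1 ≤ h → ENNReal.ofReal (c * h * Zt h) ≤
    ∑ T ∈ Finset.Ioc h (3 * h), ArcM T + ∑' t : Brd (3 * h), (t.1.length : ℝ≥0∞) * wE t.1 := by
  obtain ⟨c, K, hc, _, hlow⟩ := lowWW
  refine ⟨c / 2, by positivity, fun h hh => ?_⟩
  obtain ⟨M, hM, _, h1⟩ := hlow h hh
  have h2 := (ENNReal.ofReal_le_ofReal h1).trans (ww_arcs hh (Nat.mul_pos hM (by omega)))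
  have h3 : ENNReal.ofReal (c * h * Zt h) = 2 * ENNReal.ofReal (c / 2 * h * Zt h) := by
    rw [show (2 : ℝ≥0∞) = ENNReal.ofReal 2 by norm_num, ← ENNReal.ofReal_mul (by norm_num)]
    congr 1
    ring
  rw [h3] at h2
  have h4 : 2 * ENNReal.ofReal (c / 2 * h * Zt h) ≤
      2 * (∑ T ∈ Finset.Ioc h (3 * h), ArcM T + ∑' t : Brd (3 * h), (t.1.length : ℝ≥0∞) * wE t.1) := by
    refine h2.trans ?_
    rw [mul_add]
    refine add_le_add le_rfl ?_
    rw [two_mul]
    exact le_self_add
  exact (ENNReal.mul_le_mul_iff_right (by norm_num) (by norm_num)).1 h4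

end PW

end HexObs
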