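import Pool.Agent.PW.TurnB
import Pool.Agent.PW.DefL

/-!
# PW, row P5 (helper10): class 0 in the right parts

`lowB0`: nice right parts of the scale `L + 48` with a given last direction are dominated by the weight of the level
`(l, L)` (ends of class 0), up to the oscillation of the weight.
-/

set_option autoImplicit false

namespace HexObs

namespace PWN

namespace LB0

open Finset TS SDN TIW HexObs.SIM

open scoped ENNReal

/-! ### 1. Three factors -/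

open Classical in
/-- decompositions A ++ (V ++ E) of a word -/
noncomputable def D3 (P Ch EE : Set (List Bool)) (t : List Bool) : Finset (ℕ × ℕ) :=
  ((range (t.length + 1)) ×ˢ (range (t.length + 1))).filter
    (fun p => p.1 ≤ p.2 ∧ t.take p.1 ∈ P ∧ (t.take p.2).drop p.1 ∈ Ch ∧ t.drop p.2 ∈ EE)

lemma mem_D3 {P Ch EE : Set (List Bool)} {t : List Bool} {p : ℕ × ℕ} : p ∈ D3 P Ch EE t ↔
    p.2 ≤ t.length ∧ p.1 ≤ p.2 ∧ t.take p.1 ∈ P ∧ (t.take p.2).drop p.1 ∈ Ch ∧ t.drop p.2 ∈ EE := by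
  classical
  unfold D3
  rw [mem_filter, mem_product, mem_range, mem_range]
  constructor
  · exact fun h => ⟨by omega, h.2⟩
  · exact fun h => ⟨⟨by omega, by omega⟩, h.2⟩

lemma Sx_univ (G : List Bool → ℝ) : Sx Set.univ G = ∑' t : List Bool, wE t * ENNReal.ofReal (G t) := by
  unfold Sx
  exact tsum_congr fun t => if_pos (Set.mem_univ t)

/-- the product of three weighted masses -/
lemma Sx_three (P Ch EE : Set (List Bool)) {f g : List Bool → ℝ} (hf : ∀ t, 0 ≤ f t) (hg : ∀ t, 0 ≤ g t) :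
    Sx P f * (gf Ch * Sx EE g) =
      ∑' t : List Bool, wE t * ENNReal.ofReal (∑ p ∈ D3 P Ch EE t, g (t.drop p.2) * f (t.take p.1)) := by
  classical
  obtain ⟨G, hG⟩ : ∃ G : List Bool → ℝ, G = fun s => ∑ j ∈ KK Ch EE s, 1 * g (s.drop j) := ⟨_, rfl⟩
  have hG0 : ∀ s, 0 ≤ G s := fun s => by
    rw [hG]
    exact sum_nonneg fun j _ => by rw [one_mul]; exact hg _
  have e1 : gf Ch * Sx EE g = Sx Set.univ G := by
    rw [gf_Sx, Sx_cut Ch EE (f := fun _ => 1) (fun _ => zero_le_one) hg, Sx_univ, hG]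
  rw [e1, Sx_cut P Set.univ hf hG0]
  refine tsum_congr fun t => ?_
  congr 2
  rw [hG]
  simp only [one_mul, mul_sum]
  rw [sum_sigma']
  refine sum_nbij' (fun x => (x.1, x.1 + x.2)) (fun p => ⟨p.1, p.2 - p.1⟩) ?_ ?_ ?_ ?_ ?_
  · rintro ⟨i, j⟩ hx
    rw [mem_sigma, mem_KK, mem_KK] at hx
    obtain ⟨⟨h1, h2, -⟩, h3, h4, h5⟩ := hx
    simp only at h1 h2 h3 h4 h5 ⊢
    rw [List.length_drop] at h3
    rw [mem_D3]
    have g1 : (t.drop i).drop j = t.drop (i + j) := List.drop_drop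
    have g2 : (t.drop i).take j = (t.take (i + j)).drop i := by
      rw [List.drop_take, Nat.add_sub_cancel_left]
    refine ⟨by simp only; omega, by simp only; omega, h2, ?_, ?_⟩
    · simp only
      rw [← g2]
      exact h4
    · simp only
      rw [← g1]
      exact h5
  · rintro ⟨i, k⟩ hx
    rw [mem_D3] at hx
    obtain ⟨h1, h2, h3, h4, h5⟩ := hx
    simp only at h1 h2 h3 h4 h5 ⊢
    rw [mem_sigma, mem_KK, mem_KK]
    simp only
    have g1 : (t.drop i).drop (k - i) = t.drop k := by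
      rw [List.drop_drop, show i + (k - i) = k by omega]
    have g2 : (t.drop i).take (k - i) = (t.take k).drop i := by
      rw [List.drop_take]
    rw [List.length_drop]
    refine ⟨⟨by omega, h3, Set.mem_univ _⟩, by omega, ?_, ?_⟩
    · rw [g2]
      exact h4
    · rw [g1]
      exact h5
  · rintro ⟨i, j⟩ _
    simp only [Nat.add_sub_cancel_left]
  · rintro ⟨i, k⟩ hx
    rw [mem_D3] at hx
    have := hx.2.1
    simp only at this ⊢
    rw [Nat.add_sub_cancel' this]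
  · rintro ⟨i, j⟩ _
    simp only
    rw [List.drop_drop]
    ring

/-! ### 2. The right parts -/

lemma BotS_mono {c K K' : ℕ} (h : K ≤ K') : BotS c K ⊆ BotS c K' := by
  rintro t ⟨⟨h1, h2⟩, h3⟩
  exact ⟨⟨h1, fun i hi dir => (h2 i hi dir).trans (pow_le_pow_right₀ (by norm_num) h)⟩, h3⟩

/-- a small end behind a right part -/
lemma bot_ext {c K D : ℕ} {A Y : List Bool} (hA : A ∈ BotS c K) (hS : A ++ Y ∈ SA)
    (hY : ∀ i, i ≤ Y.length → hn (vx oo up Y i) < 2 ^ D) (hD : D + 2 ≤ K) : A ++ Y ∈ BotS c (K + 1) := by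
  obtain ⟨hW, a, ha, h1, h2⟩ := hA
  have p2 : (2 : ℤ) ^ (D + 2) ≤ 2 ^ K := pow_le_pow_right₀ (by norm_num) hD
  have p3 : (2 : ℤ) ^ (D + 2) = 4 * 2 ^ D := by rw [pow_add]; ring
  have p4 : (1 : ℤ) ≤ 2 ^ D := one_le_pow₀ (by norm_num)
  have p5 : (2 : ℤ) ^ (K + 1) = 2 * 2 ^ K := by rw [pow_add]; ring
  have hl : ∀ i : ℕ, i ≤ A.length → lev (A ++ Y) i = lev A i := fun i hi => lev_append (by omega)
  refine ⟨⟨hS, fun i hi dir => ?_⟩, a, by rw [List.length_append]; omega, ?_, fun i hi hia => ?_⟩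
  · rw [List.length_append] at hi
    rcases Nat.le_or_ge i A.length with h3 | h3
    · rw [vx_append (by omega)]
      have h4 := hW.2 i h3 dir
      linarith
    · obtain ⟨j, rfl⟩ := Nat.exists_eq_add_of_le h3
      rw [vx_app]
      have h4 := hW.2 A.length le_rfl dir
      have h5 := hY j (by omega)
      rw [← hn_mulE (nrm_rt A)] at h5
      have h6 := SLW.LB.row_hn dir h4 h5
      have h7 : (vx oo up A A.length : Pt) = en A := rfl
      rw [h7] at h6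
      linarith
  · rw [hl a ha]
    exact h1
  · rw [hl i (by omega)]
    exact h2 i hi hia

/-- a right part without a small end -/
lemma bot_pre {c K D : ℕ} {A Y : List Bool} (h : A ++ Y ∈ BotS (c + 1) K)
    (hY : ∀ i, i ≤ Y.length → hn (vx oo up Y i) < 2 ^ D) (hD : D ≤ c) : A ∈ BotS c K := by
  obtain ⟨hW, a, ha, h1, h2⟩ := h
  have p1 : (2 : ℤ) ^ D ≤ 2 ^ c := pow_le_pow_right₀ (by norm_num) hD
  have p6 : (2 : ℤ) ^ (c + 1) = 2 * 2 ^ c := by rw [pow_add]; ring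
  have p7 : (1 : ℤ) ≤ 2 ^ c := one_le_pow₀ (by norm_num)
  have hAS : A ∈ SA := by
    have := SA_take hW.1 A.length
    rwa [List.take_left' rfl] at this
  have hl : ∀ i : ℕ, i ≤ A.length → lev (A ++ Y) i = lev A i := fun i hi => lev_append (by omega)
  refine ⟨⟨hAS, fun i hi dir => ?_⟩, ?_⟩
  · have h4 := hW.2 i (by rw [List.length_append]; omega) dir
    rwa [vx_append (by omega)] at h4
  · rcases Nat.le_or_ge a A.length with h3 | h3
    · refine ⟨a, h3, ?_, fun i hi hia => ?_⟩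
      · rw [hl a h3] at h1
        unfold RR at h1 ⊢
        linarith
      · have := h2 i hi hia
        rwa [hl i (by omega)] at this
    · obtain ⟨j, rfl⟩ := Nat.exists_eq_add_of_le h3
      rw [List.length_append] at ha
      refine ⟨A.length, le_rfl, ?_, fun i hi hia => ?_⟩
      · have h4 : lev (A ++ Y) (A.length + j) = lev A A.length + ip (mulE (rt A) (vx oo up Y j)) up := by
          unfold lev
          rw [vx_app, ip_add_left]
          rfl
        have h5 := OscA.ip_abs (mulE (rt A) (vx oo up Y j)) upd'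
        rw [hn_mulE (nrm_rt A), abs_le] at h5
        have h6 := hY j (by omega)
        rw [h4] at h1
        unfold RR at h1 ⊢
        linarith [h5.2]
      · have := h2 i hi (by omega)
        rwa [hl i hia] at this

lemma bot_fin {c K : ℕ} {P : List Bool → Prop} : {A | A ∈ BotS c K ∧ P A}.Finite :=
  (SLW.BotS_fin c K).subset fun _ h => h.1

/-! ### 3. Directions -/

lemma de_turn {l : ℕ} {V : Set (List Bool)} (hV : Turn l V) {A v : List Bool} (hv : v ∈ V) :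
    de (A ++ v) = rotR (de A) := by
  have e1 : mulE (rt A) (turn false up) = turn false (mulE (rt A) up) := mulE_turn _ _ _
  have e3 : turn false up = rotR up := rfl
  rw [de_app, hV.dir v hv, ← e3, e1, rt_up]
  rfl

lemma dir_reach : ∀ d ∈ dirs, ∀ d' ∈ dirs, ∃ i : ℕ, i < 6 ∧ rotR^[i] d' = d := by
  decide

lemma de_BU {V : List Bool} (h : V ∈ BU) : de V = up := (BU_hgt h).2.2

/-! ### 4. Up to five turns -/

/-- the oscillation of a weight under ends smaller than D -/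
def OscP (D : ℤ) (Φ θ : List Bool → ℝ) : Prop := ∀ A1 Y, A1 ++ Y ∈ SA →
  (∀ i, i ≤ Y.length → hn (vx oo up Y i) < D) → |Φ (A1 ++ Y) - Φ A1| ≤ θ A1

/-- the far parts after i turns -/
def Yi (L c K i : ℕ) (d : Pt) : Set (List Bool) := {A | A ∈ BotS c (K + i) ∧ (A ∈ Fe (2 ^ (L + 50 - 9 * i)) ∧ de A = d)}

/-- the far parts -/
def ZZ (L c K : ℕ) : Set (List Bool) := {A | A ∈ BotS c (K + 5) ∧ A ∈ Fe (2 ^ (L + 5))}

lemma Yi_ZZ {L c K i : ℕ} (hi : i ≤ 5) (d : Pt) : Yi L c K i d ⊆ ZZ L c K := by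
  rintro A ⟨h1, h2, -⟩
  exact ⟨BotS_mono (by omega) h1, LowA.Fe_mono (Nat.pow_le_pow_right (by norm_num) (by omega)) h2⟩

lemma step_turn {cT : ℝ} {l0 : ℕ} (hcT : 0 < cT)
    (hT : ∀ l : ℕ, l0 ≤ l → ∃ V, Turn l V ∧ ENNReal.ofReal (cT * Ub l) ≤ gf V) {L c K i : ℕ} (hi : i < 5)
    (hL : l0 ≤ L) (hK : L + 52 ≤ K) (d : Pt) {Φ θ : List Bool → ℝ} (hΦ : ∀ t, 0 ≤ Φ t) (hθ : ∀ t, 0 ≤ θ t)
    (ho : OscP (2 ^ (L + 50)) Φ θ) :
    Sx (Yi L c K i d) Φ ≤ ENNReal.ofReal (512 / cT) * Sx (Yi L c K (i + 1) (rotR d)) Φ + 3 * Sx (Yi L c K i d) θ := by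
  obtain ⟨r, hr⟩ : ∃ r, r = L + 40 - 9 * i := ⟨_, rfl⟩
  obtain ⟨V, hV, hm⟩ := hT r (by omega)
  have e1 : L + 50 - 9 * i = r + 10 := by omega
  have e2 : L + 50 - 9 * (i + 1) = r + 1 := by omega
  have hF : ∀ A ∈ Yi L c K i d, A ∈ Fe (1024 * 2 ^ r) := by
    rintro A ⟨-, h2, -⟩
    rw [e1, pow_add] at h2
    rwa [show 1024 * 2 ^ r = 2 ^ r * 2 ^ 10 by ring]
  have hS : ∀ A ∈ Yi L c K i d, ∀ v ∈ V, A ++ v ∈ SA := fun A hA v hv =>
    glue_SA (r := 2 ^ (r + 9)) (by rw [pow_add]; omega) hA.1.1.1 (hF A hA) (hV.hp hv)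
  refine turnB hV hcT hm bot_fin hF (fun A hA v hv => ?_) hΦ hθ fun A hA v hv => ?_
  · refine ⟨?_, ?_, ?_⟩
    · have h3 := bot_ext (D := r + 9) hA.1 (hS A hA v hv) (fun i hi => by
        have := (hV.hp hv).2 i hi
        push_cast at this
        exact this) (by omega)
      rwa [add_assoc] at h3
    · rw [e2, pow_add, mul_comm]
      exact LowA.turn_free hV (hF A hA) hv
    · rw [de_turn hV hv, hA.2.2]
  · refine ho A v (hS A hA v hv) fun i hi => ?_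
    have h3 := (hV.hp hv).2 i hi
    push_cast at h3
    exact h3.trans_le (pow_le_pow_right₀ (by norm_num) (by omega))

lemma turns {cT : ℝ} {l0 : ℕ} (hcT : 0 < cT)
    (hT : ∀ l : ℕ, l0 ≤ l → ∃ V, Turn l V ∧ ENNReal.ofReal (cT * Ub l) ≤ gf V) {L c K : ℕ}
    (hL : l0 ≤ L) (hK : L + 52 ≤ K) (d : Pt) {Φ θ : List Bool → ℝ} (hΦ : ∀ t, 0 ≤ Φ t) (hθ : ∀ t, 0 ≤ θ t)
    (ho : OscP (2 ^ (L + 50)) Φ θ) (i : ℕ) (hi : i ≤ 5) :
    Sx (Yi L c K 0 d) Φ ≤ ENNReal.ofReal ((512 / cT + 1) ^ i) * Sx (Yi L c K i (rotR^[i] d)) Φ +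
      ENNReal.ofReal (3 * i * (512 / cT + 1) ^ i) * Sx (ZZ L c K) θ := by
  obtain ⟨C, hC⟩ : ∃ C, C = 512 / cT + 1 := ⟨_, rfl⟩
  have hc0 : 0 < 512 / cT := by positivity
  have hC1 : 1 ≤ C := by rw [hC]; linarith
  have hC0 : 0 < C := by linarith
  rw [← hC]
  induction i with
  | zero =>
    rw [pow_zero, ENNReal.ofReal_one, one_mul, Function.iterate_zero, id]
    exact le_self_add
  | succ i ih =>
    have h1 := ih (by omega)
    have h2 := step_turn hcT hT (c := c) (i := i) (by omega) hL hK (rotR^[i] d) hΦ hθ ho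
    rw [Function.iterate_succ_apply']
    obtain ⟨Q, hQ⟩ : ∃ Q, Q = Sx (ZZ L c K) θ := ⟨_, rfl⟩
    obtain ⟨P, hP⟩ : ∃ P, P = Sx (Yi L c K (i + 1) (rotR (rotR^[i] d))) Φ := ⟨_, rfl⟩
    have h3 : Sx (Yi L c K i (rotR^[i] d)) θ ≤ Q := by
      rw [hQ]
      exact Sx_mono (Yi_ZZ (by omega) _) _
    rw [← hQ] at h1 ⊢
    rw [← hP] at h2 ⊢
    have e3 : (3 : ℝ≥0∞) = ENNReal.ofReal 3 := by simp
    calc Sx (Yi L c K 0 d) Φ ≤ ENNReal.ofReal (C ^ i) * (ENNReal.ofReal (512 / cT) * P + 3 * Q) +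
          ENNReal.ofReal (3 * i * C ^ i) * Q :=
          h1.trans (add_le_add (mul_le_mul' le_rfl (h2.trans (add_le_add le_rfl (mul_le_mul' le_rfl h3)))) le_rfl)
      _ = ENNReal.ofReal (C ^ i * (512 / cT)) * P + ENNReal.ofReal (3 * (i + 1) * C ^ i) * Q := by
          have g1 : ENNReal.ofReal (C ^ i * (512 / cT)) = ENNReal.ofReal (C ^ i) * ENNReal.ofReal (512 / cT) :=
            ENNReal.ofReal_mul (by positivity)
          have g2 : ENNReal.ofReal (3 * (i + 1) * C ^ i) =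
              ENNReal.ofReal (C ^ i) * 3 + ENNReal.ofReal (3 * i * C ^ i) := by
            rw [e3, ← ENNReal.ofReal_mul (by positivity), ← ENNReal.ofReal_add (by positivity) (by positivity)]
            congr 1
            ring
          rw [g1, g2]
          ring
      _ ≤ _ := by
          refine add_le_add (mul_le_mul' (ENNReal.ofReal_le_ofReal ?_) le_rfl)
            (mul_le_mul' (ENNReal.ofReal_le_ofReal ?_) le_rfl)
          · rw [pow_succ]
            exact mul_le_mul_of_nonneg_left (by rw [hC]; linarith) (by positivity)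
          · push_cast
            exact mul_le_mul_of_nonneg_left (pow_le_pow_right₀ hC1 (by omega)) (by positivity)

/-! ### 5. The weight of the level -/

open Classical in
/-- decompositions with the ends of all the classes, with a weight of the far part -/
noncomputable def NAx (l L : ℕ) (Ch : Set (List Bool)) (θ : List Bool → ℝ) (t : List Bool) : ℝ :=
  ∑ p ∈ D3 (Fe (4 * 2 ^ L)) Ch (Hp (2 ^ l)) t, chi (2 ^ l) (t.drop p.2) * θ (t.take p.1)

lemma geo {l L c K : ℕ} {Ch : Set (List Bool)} (hl : l ≤ L) (hC : SLW.Chn L Ch) (hK : L + 3 ≤ K) {A V E : List Bool}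
    (hA : A ∈ BotS c K) (hF : A ∈ Fe (2 ^ (L + 5))) (hV : V ∈ Ch) (hE : E ∈ Hp (2 ^ l)) :
    A ++ (V ++ E) ∈ BotS c (K + 1) ∧ ∀ i, i ≤ (V ++ E).length → hn (vx oo up (V ++ E) i) < 2 ^ (L + 1) := by
  have hE' : E ∈ Hp (2 ^ L) := ⟨hE.1, fun i hi => (hE.2 i hi).trans_le (by
    push_cast
    exact pow_le_pow_right₀ (by norm_num) hl)⟩
  have h1 := SLW.LB.Hp_cat hC hV hE'
  have h2 : ∀ i, i ≤ (V ++ E).length → hn (vx oo up (V ++ E) i) < 2 ^ (L + 1) := fun i hi => by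
    have := h1.2 i hi
    push_cast at this
    rw [pow_add, mul_comm, pow_one]
    exact this
  exact ⟨bot_ext hA (glue_SA (r := 2 * 2 ^ L) (by rw [pow_add]; omega) hA.1.1 hF h1) h2 (by omega), h2⟩

lemma split3 {t : List Bool} {i j : ℕ} (h : i ≤ j) : t = t.take i ++ ((t.take j).drop i ++ t.drop j) := by
  have e1 : t.take i ++ t.drop i = t := List.take_append_drop i t
  have h3 : t.drop i = (t.drop i).take (j - i) ++ (t.drop i).drop (j - i) := (List.take_append_drop _ _).symm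
  rw [List.drop_drop, show i + (j - i) = j by omega] at h3
  rw [List.drop_take, ← h3, e1]

/-- the weights from below, all the classes -/
lemma low_NA {l L c K : ℕ} {Ch : Set (List Bool)} (hl : l ≤ L) (hC : SLW.Chn L Ch) (hK : L + 3 ≤ K)
    {θ : List Bool → ℝ} (hθ : ∀ t, 0 ≤ θ t) :
    Sx (ZZ L c K) θ * (gf Ch * Sx (Hp (2 ^ l)) (chi (2 ^ l))) ≤ Sx (BotS c (K + 6)) (NAx l L Ch θ) := by
  classical
  rw [Sx_three _ _ _ hθ (fun t => chi_nonneg _ _)]
  unfold Sx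
  refine ENNReal.tsum_le_tsum fun t => ?_
  rcases (D3 (ZZ L c K) Ch (Hp (2 ^ l)) t).eq_empty_or_nonempty with h | ⟨p, hp⟩
  · rw [h, sum_empty, ENNReal.ofReal_zero, mul_zero]
    exact zero_le
  · rw [mem_D3] at hp
    obtain ⟨-, h2, h3, h4, h5⟩ := hp
    have h6 := (geo hl hC (by omega) h3.1 h3.2 h4 h5).1
    rw [← split3 h2] at h6
    rw [if_pos h6]
    refine mul_le_mul' le_rfl (ENNReal.ofReal_le_ofReal ?_)
    refine sum_le_sum_of_subset_of_nonneg (fun q hq => ?_) fun q _ _ => mul_nonneg (chi_nonneg _ _) (hθ _)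
    rw [mem_D3] at hq ⊢
    exact ⟨hq.1, hq.2.1, LowA.Fe_mono (by rw [pow_add]; omega) hq.2.2.1.2, hq.2.2.2⟩

/-- the weights from below, class 0 -/
lemma low_N0 {l L c K : ℕ} {Ch : Set (List Bool)} (hl : l ≤ L) (hC : SLW.Chn L Ch) (hK : L + 3 ≤ K) (d : Pt)
    {Φ θ : List Bool → ℝ} (hΦ : ∀ t, 0 ≤ Φ t) (hθ : ∀ t, 0 ≤ θ t) (ho : OscP (2 ^ (L + 50)) Φ θ) :
    Sx {A | A ∈ BotS c (K + 5) ∧ (A ∈ Fe (2 ^ (L + 5)) ∧ de A = d)} Φ * (gf Ch * Sx (Hc l) (chi (2 ^ l))) ≤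
      Sx {t | t ∈ BotS c (K + 6) ∧ de t = d} (fun t => N0 l L Ch t * Φ t) + Sx (BotS c (K + 6)) (NAx l L Ch θ) := by
  classical
  rw [Sx_three _ _ _ hΦ (fun t => chi_nonneg _ _)]
  unfold Sx
  rw [← ENNReal.tsum_add]
  refine ENNReal.tsum_le_tsum fun t => ?_
  obtain ⟨P, hP⟩ : ∃ P, P = {A | A ∈ BotS c (K + 5) ∧ (A ∈ Fe (2 ^ (L + 5)) ∧ de A = d)} := ⟨_, rfl⟩
  rw [← hP]
  rcases (D3 P Ch (Hc l) t).eq_empty_or_nonempty with h | ⟨p, hp⟩
  · rw [h, sum_empty, ENNReal.ofReal_zero, mul_zero]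
    exact zero_le
  · rw [mem_D3, hP] at hp
    obtain ⟨-, h2, h3, h4, h5⟩ := hp
    have h6 := (geo hl hC (by omega) h3.1 h3.2.1 h4 h5.1).1
    rw [← split3 h2] at h6
    have h7 : de t = d := by
      rw [split3 h2 (t := t), de_app, de_app, h5.2, rt_up, de_BU (hC.bu h4), rt_up]
      exact h3.2.2
    have h8 : t ∈ {t | t ∈ BotS c (K + 6) ∧ de t = d} := ⟨h6, h7⟩
    rw [if_pos h8, if_pos h6, ← mul_add]
    refine mul_le_mul' le_rfl ?_
    have hN : 0 ≤ N0 l L Ch t := sum_nonneg fun p _ => mul_nonneg (mul_nonneg (chi_nonneg _ _) zero_le_one) zero_le_one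
    have hA0 : 0 ≤ NAx l L Ch θ t := sum_nonneg fun p _ => mul_nonneg (chi_nonneg _ _) (hθ _)
    rw [← ENNReal.ofReal_add (mul_nonneg hN (hΦ t)) hA0]
    refine ENNReal.ofReal_le_ofReal ?_
    have b1 : ∑ p ∈ D3 P Ch (Hc l) t, chi (2 ^ l) (t.drop p.2) * Φ (t.take p.1) ≤
        ∑ p ∈ D3 P Ch (Hc l) t, chi (2 ^ l) (t.drop p.2) * Φ t +
        ∑ p ∈ D3 P Ch (Hc l) t, chi (2 ^ l) (t.drop p.2) * θ (t.take p.1) := by
      rw [← sum_add_distrib]
      refine sum_le_sum fun q hq => ?_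
      rw [← mul_add]
      refine mul_le_mul_of_nonneg_left ?_ (chi_nonneg _ _)
      rw [mem_D3, hP] at hq
      obtain ⟨-, g2, g3, g4, g5⟩ := hq
      obtain ⟨g6, g7⟩ := geo hl hC (by omega) g3.1 g3.2.1 g4 g5.1
      have g8 := ho _ _ g6.1.1 fun i hi => (g7 i hi).trans_le (pow_le_pow_right₀ (by norm_num) (by omega))
      rw [← split3 g2, abs_le] at g8
      linarith
    have b2 : ∑ p ∈ D3 P Ch (Hc l) t, chi (2 ^ l) (t.drop p.2) * Φ t ≤ N0 l L Ch t * Φ t := by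
      rw [← sum_mul]
      refine mul_le_mul_of_nonneg_right ?_ (hΦ t)
      have e : N0 l L Ch t = ∑ p ∈ D3 (Fe (4 * 2 ^ L)) Ch (Hc l) t, chi (2 ^ l) (t.drop p.2) := by
        unfold N0 NW D3
        refine sum_congr ?_ fun p _ => by rw [mul_one, mul_one]
        ext p
        rw [mem_filter, mem_filter]
        exact Iff.rfl
      rw [e]
      refine sum_le_sum_of_subset_of_nonneg (fun q hq => ?_) fun q _ _ => chi_nonneg _ _
      rw [mem_D3, hP] at hq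
      rw [mem_D3]
      exact ⟨hq.1, hq.2.1, LowA.Fe_mono (by rw [pow_add]; omega) hq.2.2.1.2.1, hq.2.2.2⟩
    have b3 : ∑ p ∈ D3 P Ch (Hc l) t, chi (2 ^ l) (t.drop p.2) * θ (t.take p.1) ≤ NAx l L Ch θ t := by
      refine sum_le_sum_of_subset_of_nonneg (fun q hq => ?_) fun q _ _ => mul_nonneg (chi_nonneg _ _) (hθ _)
      rw [mem_D3, hP] at hq
      rw [mem_D3]
      exact ⟨hq.1, hq.2.1, LowA.Fe_mono (by rw [pow_add]; omega) hq.2.2.1.2.1, hq.2.2.2.1, hq.2.2.2.2.1⟩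
    linarith

/-! ### 6. Nice words -/

/-- the far parts of the nice words -/
def RB (c K L : ℕ) (YY : Set (List Bool)) : Set (List Bool) :=
  {A | A ∈ Fe (4 * 2 ^ (L + 48)) ∧ ∃ Y, Y ∈ YY ∧ A ++ Y ∈ BotS c K}

open Classical in
lemma ncs_card {M : ℕ} {κ : ℝ} {YY : Set (List Bool)} {t : List Bool} (h : t ∈ SLW.NcS M YY κ) :
    κ * Ub M ≤ (((range (t.length + 1)).filter fun k => t.take k ∈ Fe (4 * 2 ^ M) ∧ t.drop k ∈ YY).card : ℝ) := h

/-- nice words: the sum over the cuts -/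
lemma nice_step {c K L m : ℕ} {κ : ℝ} (hκ : 0 ≤ κ) (d : Pt) {YY : Set (List Bool)} {Φ θ : List Bool → ℝ}
    (hΦ : ∀ t, 0 ≤ Φ t) (hθ : ∀ t, 0 ≤ θ t) (hY : ∀ Y ∈ YY, ∀ i, i ≤ Y.length → hn (vx oo up Y i) < 2 ^ (L + m))
    (ho : OscP (2 ^ (L + m) + 2 ^ (L + 50)) Φ θ) :
    ENNReal.ofReal (κ * Ub (L + 48)) * Sx {t | t ∈ BotS c K ∧ t ∈ SLW.NcS (L + 48) YY κ ∧ de t = d} Φ ≤
      Sx (RB c K L YY) (fun t => Φ t + θ t) * gf YY := by
  classical
  have hU := DL.Ub_pos (L + 48)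
  rw [gf_Sx YY, Sx_cut _ _ (fun t => add_nonneg (hΦ t) (hθ t)) (fun _ => zero_le_one)]
  unfold Sx
  rw [← ENNReal.tsum_mul_left]
  refine ENNReal.tsum_le_tsum fun t => ?_
  by_cases h : t ∈ {t | t ∈ BotS c K ∧ t ∈ SLW.NcS (L + 48) YY κ ∧ de t = d}
  · rw [if_pos h]
    obtain ⟨h1, h2, -⟩ := h
    obtain ⟨S, hS⟩ : ∃ S : Finset ℕ, S = (range (t.length + 1)).filter fun k =>
      t.take k ∈ Fe (4 * 2 ^ (L + 48)) ∧ t.drop k ∈ YY := ⟨_, rfl⟩
    have h3 : κ * Ub (L + 48) ≤ (S.card : ℝ) := by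
      rw [hS]
      exact ncs_card h2
    have hsub : S ⊆ KK (RB c K L YY) YY t := by
      intro k hk
      rw [hS, mem_filter, mem_range] at hk
      rw [mem_KK]
      exact ⟨by omega, ⟨hk.2.1, t.drop k, hk.2.2, by rw [List.take_append_drop]; exact h1⟩, hk.2.2⟩
    have h4 : κ * Ub (L + 48) * Φ t ≤ ∑ k ∈ KK (RB c K L YY) YY t, (Φ (t.take k) + θ (t.take k)) * 1 := by
      calc κ * Ub (L + 48) * Φ t ≤ S.card * Φ t := mul_le_mul_of_nonneg_right h3 (hΦ t)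
        _ = ∑ k ∈ S, Φ t := by rw [sum_const, nsmul_eq_mul]
        _ ≤ ∑ k ∈ S, (Φ (t.take k) + θ (t.take k)) * 1 := by
            refine sum_le_sum fun k hk => ?_
            rw [hS, mem_filter, mem_range] at hk
            have h5 := ho (t.take k) (t.drop k) (by rw [List.take_append_drop]; exact h1.1.1) fun i hi => by
              have := hY _ hk.2.2 i hi
              have h6 : (0 : ℤ) ≤ 2 ^ (L + 50) := by positivity
              linarith
            rw [List.take_append_drop, abs_le] at h5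
            linarith
        _ ≤ _ := sum_le_sum_of_subset_of_nonneg hsub fun k _ _ => by
            rw [mul_one]
            exact add_nonneg (hΦ _) (hθ _)
    calc ENNReal.ofReal (κ * Ub (L + 48)) * (wE t * ENNReal.ofReal (Φ t)) =
          wE t * ENNReal.ofReal (κ * Ub (L + 48) * Φ t) := by
          rw [ENNReal.ofReal_mul (mul_nonneg hκ hU.le)]
          ring
      _ ≤ _ := mul_le_mul' le_rfl (ENNReal.ofReal_le_ofReal h4)
  · rw [if_neg h, mul_zero]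
    exact zero_le

/-! ### 7. The row -/

/-- **P5**: nice right parts with a given last direction are dominated by the weight of the level -/
theorem lowB0_of (hE : ∃ (c : ℝ) (l0 : ℕ), 0 < c ∧ ∀ l : ℕ, l0 ≤ l →
    ENNReal.ofReal (c * Ub l) * NTA.Xb l ≤ Sx (Hc l) (chi (2 ^ l))) (m : ℕ) (CY κ : ℝ) (hCY : 0 < CY) (hκ : 0 < κ) :
    ∃ (A : ℝ) (l0 : ℕ), 0 < A ∧ ∀ (l L c K : ℕ) (d : Pt) (Ch YY : Set (List Bool)) (Φ θ : List Bool → ℝ),
      l0 ≤ l → l ≤ L → L + m + 60 ≤ c → c ≤ K → d ∈ dirs → SLW.Chn L Ch →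
      (∀ Y ∈ YY, ∀ i, i ≤ Y.length → hn (vx oo up Y i) < 2 ^ (L + m)) →
      gf YY ≤ ENNReal.ofReal (CY * Ub L) * NTA.Xb L → (∀ t, 0 ≤ Φ t) → (∀ t, 0 ≤ θ t) →
      OscP (2 ^ (L + m) + 2 ^ (L + 50)) Φ θ →
      ENNReal.ofReal (Ub l) * NTA.Xb l * gf Ch *
          Sx {t | t ∈ BotS c K ∧ t ∈ SLW.NcS (L + 48) YY κ ∧ de t = d} Φ ≤
        ENNReal.ofReal A * NTA.Xb L * (Sx {t | t ∈ BotS (c - 1) (K + 6) ∧ de t = d} (fun t => N0 l L Ch t * Φ t) +
          Sx (BotS (c - 1) (K + 6)) (NAx l L Ch θ)) := by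
  obtain ⟨cE, l1, hcE, hlow⟩ := SLW.LB.eT_low
  obtain ⟨c0, l2, hc0, hlow0⟩ := hE
  obtain ⟨cT, l3, hcT, hT⟩ := turnSt
  obtain ⟨c1, hc1⟩ : ∃ c1, c1 = min c0 cE := ⟨_, rfl⟩
  have hc1p : 0 < c1 := by rw [hc1]; exact lt_min hc0 hcE
  obtain ⟨C, hC⟩ : ∃ C, C = (512 / cT + 1) ^ 5 := ⟨_, rfl⟩
  have hCp : 0 < C := by rw [hC]; positivity
  refine ⟨CY * (192 * C) / (κ * c1), l1 + l2 + l3, by positivity, ?_⟩
  intro l L c K d Ch YY Φ θ hl hlL hLc hcK hd hCh hYs hYm hΦ hθ ho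
  obtain ⟨c, rfl⟩ : ∃ c', c = c' + 1 := ⟨c - 1, by omega⟩
  rw [Nat.add_sub_cancel]
  have ho' : OscP (2 ^ (L + 50)) Φ θ := fun A1 Y h1 h2 => ho A1 Y h1 fun i hi => by
    have := h2 i hi
    have h3 : (0 : ℤ) ≤ 2 ^ (L + m) := by positivity
    linarith
  have hU := DL.Ub_pos l
  have hUL := DL.Ub_pos L
  obtain ⟨N, hN⟩ : ∃ N, N = Sx {t | t ∈ BotS (c + 1) K ∧ t ∈ SLW.NcS (L + 48) YY κ ∧ de t = d} Φ := ⟨_, rfl⟩
  obtain ⟨R, hR⟩ : ∃ R, R = Sx (RB (c + 1) K L YY) (fun t => Φ t + θ t) := ⟨_, rfl⟩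
  obtain ⟨P, hP⟩ : ∃ P, P = Sx {A | A ∈ BotS c (K + 5) ∧ (A ∈ Fe (2 ^ (L + 5)) ∧ de A = d)} Φ := ⟨_, rfl⟩
  obtain ⟨Q, hQ⟩ : ∃ Q, Q = Sx (ZZ L c K) θ := ⟨_, rfl⟩
  obtain ⟨S1, hS1⟩ : ∃ S1, S1 = Sx {t | t ∈ BotS c (K + 6) ∧ de t = d} (fun t => N0 l L Ch t * Φ t) := ⟨_, rfl⟩
  obtain ⟨S2, hS2⟩ : ∃ S2, S2 = Sx (BotS c (K + 6)) (NAx l L Ch θ) := ⟨_, rfl⟩
  -- (a)
  have a1 : ENNReal.ofReal (κ * Ub (L + 48)) * N ≤ R * gf YY := by
    rw [hN, hR]
    exact nice_step hκ.le d hΦ hθ hYs ho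
  have a2 : ENNReal.ofReal κ * N ≤ R * (ENNReal.ofReal CY * NTA.Xb L) := by
    have hk : ENNReal.ofReal (Ub L) ≠ 0 := by
      rw [Ne, ENNReal.ofReal_eq_zero, not_le]
      exact hUL
    refine (ENNReal.mul_le_mul_iff_right hk ENNReal.ofReal_ne_top).1 ?_
    have hmono : Ub L ≤ Ub (L + 48) := Num2Aux.UU_mono (Nat.pow_le_pow_right (by norm_num) (by omega))
    calc ENNReal.ofReal (Ub L) * (ENNReal.ofReal κ * N) = ENNReal.ofReal (κ * Ub L) * N := by
          rw [ENNReal.ofReal_mul hκ.le]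
          ring
      _ ≤ ENNReal.ofReal (κ * Ub (L + 48)) * N :=
          mul_le_mul' (ENNReal.ofReal_le_ofReal (mul_le_mul_of_nonneg_left hmono hκ.le)) le_rfl
      _ ≤ R * gf YY := a1
      _ ≤ R * (ENNReal.ofReal (CY * Ub L) * NTA.Xb L) := mul_le_mul' le_rfl hYm
      _ = _ := by
          rw [ENNReal.ofReal_mul hCY.le]
          ring
  -- (b)
  have b1 : ∀ d' ∈ dirs, Sx (Yi L c K 0 d') (fun t => Φ t + θ t) ≤ ENNReal.ofReal (16 * C) * (P + Q) := by
    intro d' hd'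
    obtain ⟨i, hi, hid⟩ := dir_reach d hd d' hd'
    have h1 := turns hcT hT (c := c) (K := K) (L := L) (by omega) (by omega) d' hΦ hθ ho' i (by omega)
    rw [hid, ← hQ] at h1
    have h2 : Sx (Yi L c K i d) Φ ≤ P := by
      rw [hP]
      refine Sx_mono ?_ _
      rintro A ⟨g1, g2, g3⟩
      exact ⟨BotS_mono (by omega) g1, LowA.Fe_mono (Nat.pow_le_pow_right (by norm_num) (by omega)) g2, g3⟩
    have h3 : Sx (Yi L c K 0 d') θ ≤ Q := by
      rw [hQ]
      exact Sx_mono (Yi_ZZ (by omega) _) _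
    have hq1 : 1 ≤ 512 / cT + 1 := by
      have : 0 < 512 / cT := by positivity
      linarith
    have h4 : (512 / cT + 1) ^ i ≤ C := by
      rw [hC]
      exact pow_le_pow_right₀ hq1 (by omega)
    have h5 : 1 ≤ C := by
      rw [hC]
      exact one_le_pow₀ hq1
    have h6 : 3 * (i : ℝ) * (512 / cT + 1) ^ i ≤ 15 * C := by
      have : (i : ℝ) ≤ 5 := by exact_mod_cast (by omega : i ≤ 5)
      have h7 : 3 * (i : ℝ) ≤ 15 := by linarith
      exact mul_le_mul h7 h4 (by positivity) (by norm_num)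
    calc Sx (Yi L c K 0 d') (fun t => Φ t + θ t) ≤ Sx (Yi L c K 0 d') Φ + Sx (Yi L c K 0 d') θ := Sx_add_le _ _ _
      _ ≤ (ENNReal.ofReal C * P + ENNReal.ofReal (15 * C) * Q) + Q :=
          add_le_add (h1.trans (add_le_add (mul_le_mul' (ENNReal.ofReal_le_ofReal h4) h2)
            (mul_le_mul' (ENNReal.ofReal_le_ofReal h6) le_rfl))) h3
      _ ≤ (ENNReal.ofReal (16 * C) * P + ENNReal.ofReal (15 * C) * Q) + ENNReal.ofReal C * Q := by
          refine add_le_add (add_le_add (mul_le_mul' (ENNReal.ofReal_le_ofReal (by linarith)) le_rfl) le_rfl) ?_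
          calc Q = 1 * Q := (one_mul Q).symm
            _ ≤ _ := mul_le_mul' (by rw [← ENNReal.ofReal_one]; exact ENNReal.ofReal_le_ofReal h5) le_rfl
      _ = _ := by
          rw [add_assoc, ← add_mul, ← ENNReal.ofReal_add (by positivity) (by positivity), mul_add]
          congr 3
          ring
  have b2 : R ≤ ENNReal.ofReal (96 * C) * (P + Q) := by
    have h1 : R ≤ ∑ d' ∈ dirs, Sx (Yi L c K 0 d') (fun t => Φ t + θ t) := by
      rw [hR]
      refine Sx_cover dirs _ _ ?_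
      rintro A ⟨g1, Y, g2, g3⟩
      refine ⟨de A, de_mem A, bot_pre g3 (hYs Y g2) (by omega), ?_, rfl⟩
      rw [show L + 50 - 9 * 0 = 2 + (L + 48) by omega, pow_add]
      exact g1
    refine h1.trans ((sum_le_sum b1).trans (le_of_eq ?_))
    rw [sum_const, show dirs.card = 6 by decide, nsmul_eq_mul, ← mul_assoc]
    congr 1
    rw [show (96 : ℝ) * C = 6 * (16 * C) by ring, ENNReal.ofReal_mul (by norm_num)]
    norm_num
  -- (c)
  have k1 : P * (gf Ch * Sx (Hc l) (chi (2 ^ l))) ≤ S1 + S2 := by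
    rw [hP, hS1, hS2]
    exact low_N0 hlL hCh (by omega) d hΦ hθ ho'
  have k2 : Q * (gf Ch * Sx (Hp (2 ^ l)) (chi (2 ^ l))) ≤ S2 := by
    rw [hQ, hS2]
    exact low_NA hlL hCh (by omega) hθ
  have k3 : ENNReal.ofReal (c1 * Ub l) * NTA.Xb l ≤ Sx (Hc l) (chi (2 ^ l)) := by
    refine le_trans (mul_le_mul' (ENNReal.ofReal_le_ofReal ?_) le_rfl) (hlow0 l (by omega))
    exact mul_le_mul_of_nonneg_right (by rw [hc1]; exact min_le_left _ _) hU.le
  have k4 : ENNReal.ofReal (c1 * Ub l) * NTA.Xb l ≤ Sx (Hp (2 ^ l)) (chi (2 ^ l)) := by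
    refine le_trans (mul_le_mul' (ENNReal.ofReal_le_ofReal ?_) le_rfl) (hlow l (by omega))
    exact mul_le_mul_of_nonneg_right (by rw [hc1]; exact min_le_right _ _) hU.le
  have k5 : (P + Q) * (gf Ch * (ENNReal.ofReal (c1 * Ub l) * NTA.Xb l)) ≤ 2 * (S1 + S2) := by
    calc (P + Q) * (gf Ch * (ENNReal.ofReal (c1 * Ub l) * NTA.Xb l)) =
          P * (gf Ch * (ENNReal.ofReal (c1 * Ub l) * NTA.Xb l)) +
          Q * (gf Ch * (ENNReal.ofReal (c1 * Ub l) * NTA.Xb l)) := by ring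
      _ ≤ P * (gf Ch * Sx (Hc l) (chi (2 ^ l))) + Q * (gf Ch * Sx (Hp (2 ^ l)) (chi (2 ^ l))) :=
          add_le_add (mul_le_mul' le_rfl (mul_le_mul' le_rfl k3)) (mul_le_mul' le_rfl (mul_le_mul' le_rfl k4))
      _ ≤ (S1 + S2) + S2 := add_le_add k1 k2
      _ ≤ (S1 + S2) + (S1 + S2) := add_le_add le_rfl le_add_self
      _ = _ := by ring
  -- the end
  have hk : ENNReal.ofReal (κ * c1) ≠ 0 := by
    rw [Ne, ENNReal.ofReal_eq_zero, not_le]
    positivity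
  rw [← hN, ← hS1, ← hS2]
  refine (ENNReal.mul_le_mul_iff_right hk ENNReal.ofReal_ne_top).1 ?_
  calc ENNReal.ofReal (κ * c1) * (ENNReal.ofReal (Ub l) * NTA.Xb l * gf Ch * N) =
        ENNReal.ofReal c1 * ENNReal.ofReal (Ub l) * NTA.Xb l * gf Ch * (ENNReal.ofReal κ * N) := by
        rw [ENNReal.ofReal_mul hκ.le]
        ring
    _ ≤ ENNReal.ofReal c1 * ENNReal.ofReal (Ub l) * NTA.Xb l * gf Ch *
        ((ENNReal.ofReal (96 * C) * (P + Q)) * (ENNReal.ofReal CY * NTA.Xb L)) :=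
        mul_le_mul' le_rfl (a2.trans (mul_le_mul' b2 le_rfl))
    _ = ENNReal.ofReal (96 * C) * ENNReal.ofReal CY * NTA.Xb L *
        ((P + Q) * (gf Ch * (ENNReal.ofReal (c1 * Ub l) * NTA.Xb l))) := by
        rw [ENNReal.ofReal_mul hc1p.le]
        ring
    _ ≤ ENNReal.ofReal (96 * C) * ENNReal.ofReal CY * NTA.Xb L * (2 * (S1 + S2)) := mul_le_mul' le_rfl k5
    _ = _ := by
        have e1 : ENNReal.ofReal (κ * c1) * ENNReal.ofReal (CY * (192 * C) / (κ * c1)) =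
            ENNReal.ofReal (96 * C) * ENNReal.ofReal CY * 2 := by
          rw [← ENNReal.ofReal_mul (by positivity), ← ENNReal.ofReal_mul (by positivity),
            show (2 : ℝ≥0∞) = ENNReal.ofReal 2 by simp, ← ENNReal.ofReal_mul (by positivity)]
          congr 1
          field_simp
          ring
        calc ENNReal.ofReal (96 * C) * ENNReal.ofReal CY * NTA.Xb L * (2 * (S1 + S2)) =
              (ENNReal.ofReal (96 * C) * ENNReal.ofReal CY * 2) * NTA.Xb L * (S1 + S2) := by ring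
          _ = _ := by
              rw [← e1]
              ring

end LB0

end PWN

end HexObs
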