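import Pool.Agent.PW.LowB0
import Pool.Agent.PW.AllD

/-!
# PW, row P5 (helper10): class 0 in the right parts, final form

`lowB0_mass`: `LowB0` from the mass of the ends of class 0.
-/

set_option autoImplicit false

namespace HexObs

namespace PWN

open Finset TS SDN TIW HexObs.SIM

open scoped ENNReal

open Classical in
/-- **P5**: nice right parts with the last direction `d` are dominated by the weight of the level (ends of class 0) -/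
def LowB0 : Prop := ∀ (m : ℕ) (CY κ : ℝ), 0 < CY → 0 < κ → ∃ (A : ℝ) (l0 : ℕ), 0 < A ∧
  ∀ (l L c K : ℕ) (d : Pt) (Ch YY : Set (List Bool)) (Φ θ : List Bool → ℝ), l0 ≤ l → l ≤ L → L + m + 60 ≤ c → c ≤ K →
    d ∈ dirs → SLW.Chn L Ch → (∀ Y ∈ YY, ∀ i, i ≤ Y.length → hn (vx oo up Y i) < 2 ^ (L + m)) →
    gf YY ≤ ENNReal.ofReal (CY * Ub L) * NTA.Xb L → (∀ t, 0 ≤ Φ t) → (∀ t, 0 ≤ θ t) →
    (∀ A1 Y, A1 ++ Y ∈ SA → (∀ i, i ≤ Y.length → hn (vx oo up Y i) < 2 ^ (L + m) + 2 ^ (L + 50)) →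
      |Φ (A1 ++ Y) - Φ A1| ≤ θ A1) →
    ENNReal.ofReal (Ub l) * NTA.Xb l * gf Ch *
        ∑' t, (if t ∈ BotS c K ∧ t ∈ SLW.NcS (L + 48) YY κ ∧ de t = d then wE t * ENNReal.ofReal (Φ t) else 0) ≤
      ENNReal.ofReal A * NTA.Xb L * (∑' t, (if t ∈ BotS (c - 1) (K + 6) ∧ de t = d then
          wE t * ENNReal.ofReal (N0 l L Ch t * Φ t) else 0) +
        ∑' t, (if t ∈ BotS (c - 1) (K + 6) then wE t * ENNReal.ofReal (NA l L Ch θ t) else 0))

namespace LB0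

lemma Sx_iff {X : Set (List Bool)} {f : List Bool → ℝ} {P : List Bool → Prop} [DecidablePred P] (h : ∀ t, t ∈ X ↔ P t) :
    Sx X f = ∑' t : List Bool, if P t then wE t * ENNReal.ofReal (f t) else 0 := by
  classical
  unfold Sx
  refine tsum_congr fun t => ?_
  by_cases hP : P t
  · rw [if_pos hP, if_pos ((h t).2 hP)]
  · rw [if_neg hP, if_neg fun h' => hP ((h t).1 h')]

end LB0

lemma NAx_eq (l L : ℕ) (Ch : Set (List Bool)) (θ : List Bool → ℝ) : LB0.NAx l L Ch θ = NA l L Ch θ := by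
  classical
  funext t
  unfold LB0.NAx NA LB0.D3
  refine sum_congr ?_ fun _ _ => rfl
  ext p
  rw [mem_filter, mem_filter]
  exact Iff.rfl

open Classical in
theorem lowB0_mass (hE : ∃ (c : ℝ) (l0 : ℕ), 0 < c ∧ ∀ l : ℕ, l0 ≤ l →
    ENNReal.ofReal (c * Ub l) * NTA.Xb l ≤ LB0.Sx (Hc l) (chi (2 ^ l))) : LowB0 := by
  intro m CY κ hCY hκ
  obtain ⟨A, l0, hA, h⟩ := LB0.lowB0_of hE m CY κ hCY hκ
  refine ⟨A, l0, hA, fun l L c K d Ch YY Φ θ h1 h2 h3 h4 h5 h6 h7 h8 h9 h10 h11 => ?_⟩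
  have := h l L c K d Ch YY Φ θ h1 h2 h3 h4 h5 h6 h7 h8 h9 h10 h11
  rw [NAx_eq, LB0.Sx_iff (X := {t | t ∈ BotS c K ∧ t ∈ SLW.NcS (L + 48) YY κ ∧ de t = d})
      (P := fun t => t ∈ BotS c K ∧ t ∈ SLW.NcS (L + 48) YY κ ∧ de t = d) fun t => Iff.rfl,
    LB0.Sx_iff (X := {t | t ∈ BotS (c - 1) (K + 6) ∧ de t = d})
      (P := fun t => t ∈ BotS (c - 1) (K + 6) ∧ de t = d) fun t => Iff.rfl] at this
  exact this

end PWN

end HexObs
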