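import Pool.Agent.BAR.PwLowG

/-!
PW: pointwise lower bound of the number of self-avoiding walks from a pointwise lower bound of the half plane words
with a general exponent `g`: if they weigh at least `n ^ (- g - o(1))` for every `n`, then
`a n >= c n ^ ((3 / 4) (h - 3 / 4) - g - eps) mu ^ n` for every `n`; for `h = 61 / 48`, `g = 3 / 64` the exponent is
`11 / 32`.
-/

set_option autoImplicit false

namespace HexObs

namespace BAR

open SDN T2 Filter

open scoped ENNReal Topology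

/-- **The number of the self-avoiding walks of every length from below**, from the half plane words of every length,
with any exponent of theirs. -/
theorem pw_lowH (hU : Pool.Agent.NUF.NumUp) {g : ℝ} (hg : 0 ≤ g) {e : ℝ} (h1e : 13 / 12 ≤ e) (h2e : e ≤ 3 / 2) (hL : HLow e)
    (h : ∀ ε : ℝ, 0 < ε → ∃ c : ℝ, 0 < c ∧ ∀ n : ℕ, 1 ≤ n → c * (n : ℝ) ^ (-g - ε) ≤ (cH n : ℝ) * xc ^ n)
    {ε : ℝ} (hε : 0 < ε) : ∃ c : ℝ, 0 < c ∧ ∀ n : ℕ, 1 ≤ n → c * (n : ℝ) ^ ((e - 3 / 4) * (3 / 4) - g - ε) * muB ^ n ≤ aB n := by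
  obtain ⟨c1, hc1, h1⟩ := h (ε / 2) (by positivity)
  obtain ⟨c2, hc2, h2⟩ := sI_lowG hU h1e h2e hL (by positivity : 0 < ε / 2)
  have hx := xc_pos
  have hmu := muB_pos
  obtain ⟨c3, hc3⟩ : ∃ c3, c3 = min c1 1 := ⟨_, rfl⟩
  have hc30 : 0 < c3 := by rw [hc3]; exact lt_min hc1 one_pos
  have hc31 : c3 ≤ c1 := by rw [hc3]; exact min_le_left _ _
  have hc32 : c3 ≤ 1 := by rw [hc3]; exact min_le_right _ _
  have hcH0 : (1 : ℝ) ≤ cH 0 := by
    have h3 : ([] : List Bool) ∈ HpN 0 := by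
      refine HpN_iff.2 ⟨rfl, fun i h1 h2 => ?_, fun i l h1 h2 => ?_⟩
      · simp only [List.length_nil] at h2
        omega
      · simp only [List.length_nil] at h2
        omega
    have h4 : 1 ≤ cH 0 := by
      unfold cH
      exact Nat.one_le_iff_ne_zero.2 (Set.ncard_ne_zero_of_mem h3 (HpN_fin 0))
    exact_mod_cast h4
  -- the half plane words of every length up to n
  obtain ⟨q, hq⟩ : ∃ q : ℝ, q = g + ε / 2 := ⟨_, rfl⟩
  have hq0 : 0 < q := by rw [hq]; positivity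
  have h3 : ∀ n : ℕ, 1 ≤ n → ∀ j, j ≤ n → c3 * (n : ℝ) ^ (-q) ≤ (cH j : ℝ) * xc ^ j := by
    intro n hn j hj
    have hnR : (1 : ℝ) ≤ n := by exact_mod_cast hn
    rcases Nat.eq_zero_or_pos j with h0 | h0
    · subst h0
      rw [pow_zero, mul_one]
      have h4 : (n : ℝ) ^ (-q) ≤ 1 := Real.rpow_le_one_of_one_le_of_nonpos hnR (by linarith)
      calc c3 * (n : ℝ) ^ (-q) ≤ 1 * 1 := mul_le_mul hc32 h4 (by positivity) (by norm_num)
        _ = 1 := one_mul 1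
        _ ≤ _ := hcH0
    · have hj0 : (0 : ℝ) < j := by exact_mod_cast h0
      have h4 := h1 j h0
      have e1 : -g - ε / 2 = -q := by rw [hq]; ring
      rw [e1] at h4
      refine le_trans ?_ h4
      have h5 : (n : ℝ) ^ (-q) ≤ (j : ℝ) ^ (-q) := by
        apply Real.rpow_le_rpow_of_nonpos hj0 _ (by linarith)
        exact_mod_cast hj
      exact mul_le_mul hc31 h5 (by positivity) hc1.le
  refine ⟨c2 * c3 / 96, by positivity, fun n hn => ?_⟩
  have hnR : (1 : ℝ) ≤ n := by exact_mod_cast hn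
  have hn0 : (0 : ℝ) < n := by linarith
  have h4 : ∑ k ∈ Finset.range (n + 1), (cI (k + 1) : ℝ) * (cH (n - k) : ℝ) ≤ 12 * cS n := by
    exact_mod_cast count_glue n
  have h5 : (∑ k ∈ Finset.range (n + 1), (cI (k + 1) : ℝ) * xc ^ (k + 1)) * (c3 * (n : ℝ) ^ (-q)) ≤
      12 * cS n * xc ^ (n + 1) := by
    calc (∑ k ∈ Finset.range (n + 1), (cI (k + 1) : ℝ) * xc ^ (k + 1)) * (c3 * (n : ℝ) ^ (-q)) =
        ∑ k ∈ Finset.range (n + 1), (cI (k + 1) : ℝ) * xc ^ (k + 1) * (c3 * (n : ℝ) ^ (-q)) := by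
          rw [Finset.sum_mul]
      _ ≤ ∑ k ∈ Finset.range (n + 1), (cI (k + 1) : ℝ) * (cH (n - k) : ℝ) * xc ^ (n + 1) := by
          refine Finset.sum_le_sum fun k hk => ?_
          rw [Finset.mem_range] at hk
          have h6 := h3 n hn (n - k) (by omega)
          calc (cI (k + 1) : ℝ) * xc ^ (k + 1) * (c3 * (n : ℝ) ^ (-q)) ≤
              (cI (k + 1) : ℝ) * xc ^ (k + 1) * ((cH (n - k) : ℝ) * xc ^ (n - k)) :=
                mul_le_mul_of_nonneg_left h6 (sI_term (k + 1))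
            _ = (cI (k + 1) : ℝ) * (cH (n - k) : ℝ) * (xc ^ (k + 1) * xc ^ (n - k)) := by ring
            _ = (cI (k + 1) : ℝ) * (cH (n - k) : ℝ) * xc ^ (n + 1) := by
                rw [← pow_add, show k + 1 + (n - k) = n + 1 by omega]
      _ = (∑ k ∈ Finset.range (n + 1), (cI (k + 1) : ℝ) * (cH (n - k) : ℝ)) * xc ^ (n + 1) := by
          rw [Finset.sum_mul]
      _ ≤ 12 * cS n * xc ^ (n + 1) := mul_le_mul_of_nonneg_right h4 (by positivity)
  have h6 : c2 * (n : ℝ) ^ ((e - 3 / 4) * (3 / 4) - ε / 2) / 8 * (c3 * (n : ℝ) ^ (-q)) ≤ 12 * cS n * xc ^ (n + 1) := by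
    refine le_trans (mul_le_mul_of_nonneg_right ?_ (by positivity)) h5
    refine le_trans ?_ (sI_succ n)
    have := h2 n hn
    linarith
  have e2 : (n : ℝ) ^ ((e - 3 / 4) * (3 / 4) - ε / 2) * (n : ℝ) ^ (-q) = (n : ℝ) ^ ((e - 3 / 4) * (3 / 4) - g - ε) := by
    rw [← Real.rpow_add hn0]
    congr 1
    rw [hq]
    ring
  have h7 : c2 * c3 / 8 * (n : ℝ) ^ ((e - 3 / 4) * (3 / 4) - g - ε) ≤ 12 * ((aB n : ℝ) / muB ^ n) := by
    calc c2 * c3 / 8 * (n : ℝ) ^ ((e - 3 / 4) * (3 / 4) - g - ε) =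
        c2 * (n : ℝ) ^ ((e - 3 / 4) * (3 / 4) - ε / 2) / 8 * (c3 * (n : ℝ) ^ (-q)) := by
          rw [← e2]
          ring
      _ ≤ 12 * cS n * xc ^ (n + 1) := h6
      _ = 12 * ((cS n : ℝ) * xc ^ n) * xc := by ring
      _ ≤ 12 * ((cS n : ℝ) * xc ^ n) * 1 := by
          apply mul_le_mul_of_nonneg_left _ (by positivity)
          linarith [xc_le]
      _ ≤ 12 * ((aB n : ℝ) / muB ^ n) := by
          rw [mul_one]
          exact mul_le_mul_of_nonneg_left (term_bounds n).1 (by norm_num)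
  have hmn : 0 < muB ^ n := pow_pos hmu n
  have h8 : c2 * c3 / 96 * (n : ℝ) ^ ((e - 3 / 4) * (3 / 4) - g - ε) ≤ (aB n : ℝ) / muB ^ n := by linarith
  rwa [le_div_iff₀ hmn] at h8

/-- the half plane words of every length with the exponent `3 / 64` give the walks of every length with `11 / 32` -/
theorem pw_low_sharp (hU : Pool.Agent.NUF.NumUp) (hL : HLow (61 / 48))
    (h : ∀ ε : ℝ, 0 < ε → ∃ c : ℝ, 0 < c ∧ ∀ n : ℕ, 1 ≤ n → c * (n : ℝ) ^ (-(3 / 64) - ε) ≤ (cH n : ℝ) * xc ^ n)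
    {ε : ℝ} (hε : 0 < ε) : ∃ c : ℝ, 0 < c ∧ ∀ n : ℕ, 1 ≤ n → c * (n : ℝ) ^ (11 / 32 - ε) * muB ^ n ≤ aB n := by
  have h1 := pw_lowH hU (g := 3 / 64) (by norm_num) (e := 61 / 48) (by norm_num) (by norm_num) hL h hε
  rwa [show ((61 : ℝ) / 48 - 3 / 4) * (3 / 4) - 3 / 64 - ε = 11 / 32 - ε by ring] at h1

end BAR

end HexObs
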