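import Pool.Agent.PW.Zt
import Pool.Agent.NUF.LowNF

/-!
PW, piece P2a: the lower mean of the words of the strip of height 3 h that leave the strip of height h: their weight is at
most uu h (CMP.ww_le) and the sum of their lengths is at least c h Zt h.
-/

set_option autoImplicit false

namespace HexObs

namespace PW

open Finset TS SDN CMP LP

open scoped ENNReal

open Classical in
/-- the length-weighted sum from the weight of the walks through a vertex, one height. -/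
theorem mean_ge_z : ∃ C q : ℝ, 0 < C ∧ 0 < q ∧ q < 1 ∧ ∀ (h M : ℕ) (z : ℝ), 1 ≤ h → 1 ≤ M → 0 < z →
    (∃ L0 : ℕ, ∀ L : ℕ, L0 ≤ L → ∀ x ∈ KJ h, z ≤ HH (Par (3 * h) L L) {kv (kl h x)}) →
      (z / 2 - C * h * (M + 1) * q ^ M) * h ≤ ∑ t ∈ WW (3 * h) h (M * (3 * h)), cw t * t.length := by
  obtain ⟨C, q, hC, hq, hq1, hlat⟩ := lat_tail
  have hq2 : 0 < (1 - q)⁻¹ := inv_pos.2 (by linarith)
  refine ⟨12 * C * (1 + (1 - q)⁻¹), q, by positivity, hq, hq1, ?_⟩
  rintro h M z hh hM hz ⟨L0, hL0⟩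
  have hMh : 1 ≤ M * (3 * h) := Nat.mul_pos hM (by omega)
  choose A0 hA0 using fun v : Pt => walls_hit (3 * h) v (z / 2) (by omega) (by positivity)
  set L := 3 * h + 1 + L0 + ∑ x ∈ KJ h, A0 (kv (kl h x)) with hL
  have hL1 : 3 * h < L := by omega
  have hL2 : ∀ x ∈ KJ h, A0 (kv (kl h x)) ≤ L := by
    intro x hx
    have h9 : A0 (kv (kl h x)) ≤ ∑ x ∈ KJ h, A0 (kv (kl h x)) :=
      Finset.single_le_sum (f := fun x => A0 (kv (kl h x))) (fun i _ => Nat.zero_le _) hx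
    omega
  have h1 : ∑ x ∈ KJ h, z ≤ ∑ x ∈ KJ h, (z / 2 +
      ∑ a ∈ (bd (Par (3 * h) L L)).filter (fun a => a.2 = up), ∑ t ∈ Gd (3 * h) L (kv (kl h x)) a, cw t +
      ∑ a ∈ (bd (Par (3 * h) L L)).filter (fun a => a.2 = -up), ∑ t ∈ Gd (3 * h) L (kv (kl h x)) a, cw t) := by
    apply Finset.sum_le_sum
    intro x hx
    exact (hL0 L (by omega) x hx).trans (T2.one_vertex_b (hA0 _ L L (hL2 x hx) (hL2 x hx)))
  rw [Finset.sum_add_distrib, Finset.sum_add_distrib, Finset.sum_const, Finset.sum_const, nsmul_eq_mul, nsmul_eq_mul,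
    KJ_card] at h1
  have h2 := side_total (L := L) hC hq hq1 hh hM (φ := phF h) (fun y z hy hz he => phF_inj h hy hz he)
    (F := (bd (Par (3 * h) L L)).filter (fun a => a.2 = up)) (fun a => -a.1.2)
    (by
      intro a ha b hb he
      rw [Finset.mem_filter] at ha hb
      obtain ⟨k, rfl, _, _⟩ := floor_start (by omega) (by omega) (by omega) ha.1 ha.2
      obtain ⟨l, rfl, _, _⟩ := floor_start (by omega) (by omega) (by omega) hb.1 hb.2
      have he' : - -k = - -l := he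
      have : k = l := by omega
      rw [this])
    (by
      intro a ha
      rw [Finset.mem_filter] at ha
      obtain ⟨k, rfl, h3, h4⟩ := floor_start (by omega) (by omega) (by omega) ha.1 ha.2
      rw [Finset.mem_Ioo]
      show -(L : ℤ) < - -k ∧ - -k < L
      omega)
    (by
      intro a ha x hx
      rw [Finset.mem_filter] at ha
      obtain ⟨k, rfl, h3, h4⟩ := floor_start (by omega) (by omega) (by omega) ha.1 ha.2
      have h5 := floor_bound hlat hh hMh h3 h4 hx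
      have e : - -k = k := neg_neg k
      show _ ≤ ∑ t ∈ (WW (3 * h) h (M * (3 * h))).filter (Vis (phF h (- -k, x))), cw t +
        C * q ^ (max (M * (3 * h)) ((- -k).natAbs - 3 * h) / (3 * h))
      rw [e]
      exact h5)
  have h3 := side_total (L := L) hC hq hq1 hh hM (φ := phT h) (fun y z hy hz he => phT_inj h hy hz he)
    (F := (bd (Par (3 * h) L L)).filter (fun a => a.2 = -up)) (fun a => (3 * h : ℕ) + 1 - a.1.2)
    (by
      intro a ha b hb he
      rw [Finset.mem_filter] at ha hb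
      obtain ⟨k, rfl, _, _⟩ := top_start (by omega) (by omega) (by omega) ha.1 ha.2
      obtain ⟨l, rfl, _, _⟩ := top_start (by omega) (by omega) (by omega) hb.1 hb.2
      have he' : ((3 * h : ℕ) : ℤ) + 1 - ((3 * h : ℕ) + 1 - k) = (3 * h : ℕ) + 1 - ((3 * h : ℕ) + 1 - l) := he
      have : k = l := by linarith
      rw [this])
    (by
      intro a ha
      rw [Finset.mem_filter] at ha
      obtain ⟨k, rfl, h3, h4⟩ := top_start (by omega) (by omega) (by omega) ha.1 ha.2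
      rw [Finset.mem_Ioo]
      show -(L : ℤ) < ((3 * h : ℕ) : ℤ) + 1 - ((3 * h : ℕ) + 1 - k) ∧ ((3 * h : ℕ) : ℤ) + 1 - ((3 * h : ℕ) + 1 - k) < L
      omega)
    (by
      intro a ha x hx
      rw [Finset.mem_filter] at ha
      obtain ⟨k, rfl, h3, h4⟩ := top_start (by omega) (by omega) (by omega) ha.1 ha.2
      have h5 := top_bound hlat hh hMh h3 h4 hx
      have e : ((3 * h : ℕ) : ℤ) + 1 - ((3 * h : ℕ) + 1 - k) = k := by ring
      show _ ≤ ∑ t ∈ (WW (3 * h) h (M * (3 * h))).filter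
        (Vis (phT h (((3 * h : ℕ) : ℤ) + 1 - ((3 * h : ℕ) + 1 - k), x))), cw t +
        C * q ^ (max (M * (3 * h)) ((((3 * h : ℕ) : ℤ) + 1 - ((3 * h : ℕ) + 1 - k)).natAbs - 3 * h) / (3 * h))
      rw [e]
      exact h5)
  push_cast at h1
  have hh1 : (1 : ℝ) ≤ h := by exact_mod_cast hh
  linarith

private lemma lz_dirs {d : Pt} (hd : d ∈ dirs) : d = (1, 0) ∨ d = (0, 1) ∨ d = (-1, 1) ∨ d = (-1, 0) ∨
    d = (0, -1) ∨ d = (1, -1) := by
  revert d
  decide

private lemma lz_fc (v : Pt) : cl v = 1 ↔ (v.1 - v.2) % 3 = 1 := by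
  unfold cl
  have h : ((v.1 - v.2 : ℤ) : ZMod 3) = ((1 : ℤ) : ZMod 3) ↔ (v.1 - v.2 - 1) % 3 = 0 := by
    rw [ZMod.intCast_eq_intCast_iff]
    unfold Int.ModEq
    push_cast
    omega
  rw [Int.cast_one] at h
  rw [h]
  omega

private lemma lz_vt (v : Pt) : Vt v ↔ (v.1 - v.2) % 3 ≠ 1 := by
  unfold Vt
  rw [Ne, lz_fc]

/-- the walks through a vertex of the middle of the strip of height 3 m against the gas. -/
theorem HH_ge_NF {m M L : ℕ} (hL : M + 6 * m + 6 ≤ L) {x : ℕ × ℕ} (hx : x ∈ KJ m) :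
    3 * r2 * NF (2 : ℝ) (PP m M) f0 ≤ HH (Par (3 * m) L L) {kv (kl m x)} := by
  have hr := r2_pos
  obtain ⟨hx1, hx2⟩ := mem_KJ hx
  obtain ⟨l, hl⟩ : ∃ l : ℤ, l = kl m x := ⟨_, rfl⟩
  rw [← hl]
  have hl' : l = 3 * (m + x.1) + x.2 := by
    rw [hl]
    rfl
  have hlv := lv_kv l
  have hnn := nn_kv l
  have hv : kv l ∈ Par (3 * m) L L := by
    rw [mem_par, lz_vt]
    unfold nn lv at *
    omega
  have h1 := (HH_NF (par_full (3 * m) L L) hv).1
  refine le_trans ?_ h1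
  have h2 : ∀ f ∈ fcs (kv l), NF (2 : ℝ) (PP m M) f0 ≤ NF (2 : ℝ) (Par (3 * m) L L) f := by
    intro f hf
    unfold fcs at hf
    rw [Finset.mem_filter, Finset.mem_image] at hf
    obtain ⟨⟨d, hd, rfl⟩, hf1⟩ := hf
    rw [mem_par, lz_vt] at hv
    have hf2 := hf1
    rw [lz_fc] at hf2
    apply NF_face (by norm_num) hf1
    all_goals
      unfold lv nn at *
      rcases lz_dirs hd with rfl | rfl | rfl | rfl | rfl | rfl <;>
        simp only [Prod.fst_add, Prod.snd_add] at * <;> omega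
  have h3 := Finset.sum_le_sum h2
  rw [Finset.sum_const, nsmul_eq_mul, fcs_card (mem_par.1 hv).1] at h3
  calc 3 * r2 * NF (2 : ℝ) (PP m M) f0 = r2 * (((3 : ℕ) : ℝ) * NF (2 : ℝ) (PP m M) f0) := by
        push_cast
        ring
    _ ≤ _ := mul_le_mul_of_nonneg_left h3 hr.le

/-- P2a, with the width. -/
theorem lowWW_M : ∃ C q : ℝ, 0 < C ∧ 0 < q ∧ q < 1 ∧ ∀ h M : ℕ, 1 ≤ h → 1 ≤ M →
    (Zt h / 2 - C * h * (M + 1) * q ^ M) * h ≤ ∑ t ∈ WW (3 * h) h (M * (3 * h)), cw t * t.length := by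
  obtain ⟨C, q, hC, hq, hq1, hm⟩ := mean_ge_z
  refine ⟨C, q, hC, hq, hq1, fun h M hh hM => ?_⟩
  have hZ := Zt_pos h
  refine hm h M (Zt h) hh hM hZ ?_
  have hr : (7 / 10 : ℝ) < r2 := by
    have h1 := r2_sq
    have h2 := r2_pos
    nlinarith
  obtain ⟨M0, hM0⟩ := Zt_reach (m := h) (z := Zt h / 2) (by linarith)
  refine ⟨M0 + 6 * h + 6, fun L hL x hx => le_trans ?_ (HH_ge_NF hL hx)⟩
  have h2 := hM0 M0 le_rfl
  nlinarith

/-- P2a: the lower mean of the words that leave the strip of height h. -/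
theorem lowWW : ∃ (c : ℝ) (K : ℝ), 0 < c ∧ 0 < K ∧ ∀ h : ℕ, 1 ≤ h → ∃ M : ℕ, 1 ≤ M ∧ (M : ℝ) ≤ K * (1 + Real.log h) ∧
    c * h * Zt h ≤ ∑ t ∈ WW (3 * h) h (M * (3 * h)), cw t * t.length := by
  obtain ⟨C, q, hC, hq, hq1, hm⟩ := lowWW_M
  obtain ⟨K, hK, hch⟩ := choose_k (A := 4 * C) (by positivity) hq hq1 1
  refine ⟨1 / 4, K, by norm_num, hK, fun h hh => ?_⟩
  have hhR : (1 : ℝ) ≤ h := by exact_mod_cast hh
  obtain ⟨M, hM1, hM2, hM3⟩ := hch h hhR
  refine ⟨M, hM1, hM2, ?_⟩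
  have h1 := hm h M hh hM1
  have hZ := one_le_Zt h
  rw [pow_one, pow_one] at hM3
  have h2 : C * h * (M + 1) * q ^ M ≤ Zt h / 4 := by
    have h3 : 4 * C * h * (M + 1) * q ^ M = 4 * (C * h * (M + 1) * q ^ M) := by ring
    rw [h3] at hM3
    linarith
  have h0 : (0 : ℝ) ≤ h := by linarith
  calc 1 / 4 * h * Zt h = (Zt h / 4) * h := by ring
    _ ≤ (Zt h / 2 - C * h * (M + 1) * q ^ M) * h := by
      apply mul_le_mul_of_nonneg_right _ h0
      linarith
    _ ≤ _ := h1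

end PW

end HexObs
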