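import Pool.Agent.PW.DefA

/-!
# PW, row P4 (helper86): the mass of the plane ensemble, both sides

`MA g n` is of the order `n a_n`, `a_n = c_n x ^ n`, for every bump with `g ≥ 1 / 2` on an interval `[u0, u1]` in `[1, 2]`;
also without the bump: the mass of the words with less than `3 n` letters is at most `C n a_n`.
-/

set_option autoImplicit false

namespace HexObs

namespace PWN

namespace MS

open Finset TS SDN TIW

/-- the mass of the words with less than 3 n letters -/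
theorem sum_an_le (hA : SLW.AReg) : ∃ C : ℝ, 0 < C ∧ ∀ n : ℕ, 1 ≤ n →
    ∑ m ∈ range (3 * n), (cS m * xc ^ m : ℝ) ≤ C * (n * (cS n * xc ^ n)) := by
  obtain ⟨C, hC, h1, h2⟩ := hA
  refine ⟨3 * C, by positivity, fun n hn => ?_⟩
  have h3 : ∀ m ∈ range (3 * n), (cS m * xc ^ m : ℝ) ≤ C * (cS n * xc ^ n) := by
    intro m hm
    rw [mem_range] at hm
    rcases le_total m n with h | h
    · exact h1 m n h
    · exact h2 m n h (by omega) hn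
  refine (sum_le_sum h3).trans (le_of_eq ?_)
  rw [sum_const, card_range, nsmul_eq_mul]
  push_cast
  ring

theorem MA_up (hA : SLW.AReg) : ∃ C : ℝ, 0 < C ∧ ∀ (Lg : ℝ) (g : ℝ → ℝ), Bump Lg g → ∀ n : ℕ, 1 ≤ n →
    MA g n ≤ C * (n * (cS n * xc ^ n)) := by
  obtain ⟨C, hC, h⟩ := sum_an_le hA
  refine ⟨C, hC, fun Lg g hg n hn => (le_trans ?_ (h n hn))⟩
  rw [MA_eq]
  refine sum_le_sum fun m _ => ?_
  have h1 : 0 ≤ (cS m * xc ^ m : ℝ) := mul_nonneg (Nat.cast_nonneg _) (pow_nonneg xc_pos.le _)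
  exact mul_le_of_le_one_left h1 (wA_le hg n m)

theorem MA_low (hA : SLW.AReg) : ∃ c : ℝ, 0 < c ∧ ∀ (Lg : ℝ) (g : ℝ → ℝ), Bump Lg g → ∀ u0 u1 : ℝ, 1 ≤ u0 → u0 < u1 →
    u1 ≤ 2 → (∀ u, u0 ≤ u → u ≤ u1 → 1 / 2 ≤ g u) → ∀ n : ℕ, 1 ≤ n → 4 ≤ (u1 - u0) * n →
    c * (u1 - u0) * (n * (cS n * xc ^ n)) ≤ MA g n := by
  obtain ⟨C, hC, h1, h2⟩ := hA
  refine ⟨1 / (8 * C), by positivity, fun Lg g hg u0 u1 hu0 hu hu1 hgu n hn hn4 => ?_⟩
  have hnr : (1 : ℝ) ≤ n := by exact_mod_cast hn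
  obtain ⟨A, hAd⟩ : ∃ A : ℝ, A = (u0 - 1) * n / 2 := ⟨_, rfl⟩
  obtain ⟨B, hBd⟩ : ∃ B : ℝ, B = (u1 - 1) * n / 2 := ⟨_, rfl⟩
  have hA0 : 0 ≤ A := by
    rw [hAd]
    have : 0 ≤ u0 - 1 := by linarith
    positivity
  have hB0 : 0 ≤ B := by
    rw [hBd]
    have : 0 ≤ u1 - 1 := by linarith
    positivity
  have hJm : ∀ j ∈ Icc ⌈A⌉₊ ⌊B⌋₊, A ≤ j ∧ (j : ℝ) ≤ B := by
    intro j hj
    rw [mem_Icc] at hj
    exact ⟨Nat.ceil_le.1 hj.1, (Nat.le_floor_iff hB0).1 hj.2⟩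
  have hcard : (u1 - u0) * n / 4 ≤ ((Icc ⌈A⌉₊ ⌊B⌋₊).card : ℝ) := by
    have h3 : B < ⌊B⌋₊ + 1 := Nat.lt_floor_add_one B
    have h4 : (⌈A⌉₊ : ℝ) < A + 1 := Nat.ceil_lt_add_one hA0
    have h5 : (⌊B⌋₊ : ℝ) + 1 - ⌈A⌉₊ ≤ ((Icc ⌈A⌉₊ ⌊B⌋₊).card : ℝ) := by
      rw [Nat.card_Icc]
      have h6 : ⌊B⌋₊ + 1 ≤ (⌊B⌋₊ + 1 - ⌈A⌉₊) + ⌈A⌉₊ := by omega
      have h7 : ((⌊B⌋₊ + 1 : ℕ) : ℝ) ≤ ((⌊B⌋₊ + 1 - ⌈A⌉₊ : ℕ) : ℝ) + ⌈A⌉₊ := by exact_mod_cast h6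
      push_cast at h7
      push_cast
      linarith
    have h8 : B - A = (u1 - u0) * n / 2 := by rw [hAd, hBd]; ring
    linarith
  have hinj : Set.InjOn (fun j => n + 2 * j) (Icc ⌈A⌉₊ ⌊B⌋₊ : Finset ℕ) := fun i _ j _ h => by
    simp only at h
    omega
  have hsub : (Icc ⌈A⌉₊ ⌊B⌋₊).image (fun j => n + 2 * j) ⊆ range (3 * n) := by
    intro m hm
    rw [mem_image] at hm
    obtain ⟨j, hj, rfl⟩ := hm
    have h3 := (hJm j hj).2
    rw [mem_range]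
    have h4 : (2 : ℝ) * j ≤ n := by
      have : (u1 - 1) * n ≤ 1 * n := mul_le_mul_of_nonneg_right (by linarith) (by linarith)
      rw [hBd] at h3
      linarith
    have h5 : 2 * j ≤ n := by exact_mod_cast h4
    omega
  rw [MA_eq]
  have hnn : ∀ m, 0 ≤ wA g n m * (cS m * xc ^ m : ℝ) := fun m =>
    mul_nonneg (wA_nonneg hg n m) (mul_nonneg (Nat.cast_nonneg _) (pow_nonneg xc_pos.le _))
  refine le_trans ?_ (sum_le_sum_of_subset_of_nonneg hsub fun m _ _ => hnn m)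
  rw [sum_image hinj]
  have h3 : ∀ j ∈ Icc ⌈A⌉₊ ⌊B⌋₊, 1 / (2 * C) * (cS n * xc ^ n : ℝ) ≤ wA g n (n + 2 * j) * (cS (n + 2 * j) * xc ^ (n + 2 * j)) := by
    intro j hj
    obtain ⟨h4, h5⟩ := hJm j hj
    have h6 : 1 / 2 ≤ wA g n (n + 2 * j) := by
      unfold wA
      rw [if_pos (by omega)]
      refine hgu _ ?_ ?_
      · rw [le_div_iff₀ (by linarith)]
        push_cast
        rw [hAd] at h4
        linarith
      · rw [div_le_iff₀ (by linarith)]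
        push_cast
        rw [hBd] at h5
        linarith
    have h7 := h1 n (n + 2 * j) (by omega)
    have h8 : 0 ≤ (cS n * xc ^ n : ℝ) := mul_nonneg (Nat.cast_nonneg _) (pow_nonneg xc_pos.le _)
    have h9 : 1 / C * (cS n * xc ^ n : ℝ) ≤ cS (n + 2 * j) * xc ^ (n + 2 * j) := by
      rw [one_div, inv_mul_le_iff₀ hC]
      exact h7
    calc 1 / (2 * C) * (cS n * xc ^ n : ℝ) = 1 / 2 * (1 / C * (cS n * xc ^ n)) := by
          field_simp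
      _ ≤ wA g n (n + 2 * j) * (cS (n + 2 * j) * xc ^ (n + 2 * j)) := by
          refine mul_le_mul h6 h9 (by positivity) ((by norm_num : (0:ℝ) ≤ 1 / 2).trans h6)
  refine le_trans ?_ (sum_le_sum h3)
  rw [sum_const, nsmul_eq_mul]
  have h8 : 0 ≤ (cS n * xc ^ n : ℝ) := mul_nonneg (Nat.cast_nonneg _) (pow_nonneg xc_pos.le _)
  calc 1 / (8 * C) * (u1 - u0) * (n * (cS n * xc ^ n)) = (u1 - u0) * n / 4 * (1 / (2 * C) * (cS n * xc ^ n)) := by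
        field_simp
        ring
    _ ≤ _ := mul_le_mul_of_nonneg_right hcard (by positivity)

end MS

end PWN

end HexObs
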