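import Pool.Agent.SLW.MomB
import Pool.Agent.SLW.Mom

/-!
# PW: the number of the cuts of the words with a given end, self-bounding (helper70)

Everything in the plane: words with the end `y`, at most `N` letters; cuts whose position has the norm at least `ρ`.

* `FY N r ρ y` : the weighted number of the pairs (word with the end y, far cut);
* `pairsY` : removing the low bridge between two cuts of the same direction moves the end by at most `r`;
* **`self_bd`** : if `gf {t | t ∈ SA ∧ en t = y} ≤ G` for `hn y ≥ ρ - r`, then `FY N r ρ y ≤ 72 UU r G` for every `y`,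
  and the second moment is at most `(72 UU r) ^ 2 G`;
* `far_all` : for `hn y ≥ ρ + r` every cut is far.
-/

set_option autoImplicit false

namespace HexObs

namespace PWN

open Finset TS SDN TIW HexObs.SIM

open scoped ENNReal

open scoped Classical

namespace MT

/-- the words of SA with at most N letters -/
lemma WN_finite (N : ℕ) : {t : List Bool | t ∈ SA ∧ t.length ≤ N}.Finite :=
  (List.finite_length_le Bool N).subset fun _ h => h.2

/-- the same as a finite set -/
noncomputable def WN (N : ℕ) : Finset (List Bool) := (WN_finite N).toFinset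

lemma mem_WN {N : ℕ} {t : List Bool} : t ∈ WN N ↔ t ∈ SA ∧ t.length ≤ N := by
  unfold WN
  rw [Set.Finite.mem_toFinset]
  exact Iff.rfl

/-- those with the end y -/
noncomputable def WY (N : ℕ) (y : Pt) : Finset (List Bool) := (WN N).filter fun t => en t = y

lemma mem_WY {N : ℕ} {y : Pt} {t : List Bool} : t ∈ WY N y ↔ (t ∈ SA ∧ t.length ≤ N) ∧ en t = y := by
  unfold WY
  rw [mem_filter, mem_WN]

/-- far parts that end far from the start -/
def FA (ρ : ℕ) : Set (List Bool) := {A | (ρ : ℤ) ≤ hn (en A)}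

/-- number of the far cuts -/
noncomputable def nf (r ρ : ℕ) (t : List Bool) : ℝ := ((SLW.MB.cuA r (FA ρ) t).card : ℝ)

lemma nf_nonneg (r ρ : ℕ) (t : List Bool) : 0 ≤ nf r ρ t := Nat.cast_nonneg _

/-- weighted number of the far cuts of the words with the end y -/
noncomputable def FY (N r ρ : ℕ) (y : Pt) : ℝ := ∑ t ∈ WY N y, xc ^ t.length * nf r ρ t

lemma FY_nonneg (N r ρ : ℕ) (y : Pt) : 0 ≤ FY N r ρ y :=
  sum_nonneg fun t _ => mul_nonneg (pow_nonneg xc_pos.le _) (nf_nonneg r ρ t)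

lemma rt_bu {V : List Bool} (hV : V ∈ BU) (p : Pt) : mulE (rt V) p = p := by
  obtain ⟨T, hT⟩ := hV
  have h : de V = up := (mem_Brd.1 hT).2.2.1
  have e1 : rt V = rotTo up up := by
    unfold rt
    rw [h]
  have e2 : rotTo up up = (1, 0) := by decide
  rw [e1, e2]
  exact Prod.ext (by simp [mulE]) (by simp [mulE])

lemma SA_pre {A E : List Bool} (h : A ++ E ∈ SA) : A ∈ SA := by
  have := SA_take h A.length
  rwa [List.take_left' rfl] at this

/-- **removing a low bridge**: the end moves by the rotated displacement -/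
theorem pairsY (N r ρ : ℕ) (y : Pt) :
    ∑ t ∈ WY N y, xc ^ t.length * ∑ k ∈ SLW.MB.cuA r (FA ρ) t, ((JJ r (t.drop k)).card : ℝ) ≤
      ∑ Z ∈ SLW.BZ r, xc ^ Z.length * ∑ d ∈ dirs, FY N r ρ (y - mulE (rotTo up d) (en Z)) := by
  have hx := xc_pos
  have h1 : ∑ t ∈ WY N y, xc ^ t.length * ∑ k ∈ SLW.MB.cuA r (FA ρ) t, ((JJ r (t.drop k)).card : ℝ) =
      ∑ x ∈ (WY N y).sigma (fun t => (SLW.MB.cuA r (FA ρ) t).sigma fun k => JJ r (t.drop k)), xc ^ x.1.length := by
    rw [sum_sigma]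
    refine sum_congr rfl fun t _ => ?_
    rw [sum_sigma, mul_sum]
    refine sum_congr rfl fun k _ => ?_
    simp only
    rw [sum_const, nsmul_eq_mul, mul_comm]
  have h2 : ∑ Z ∈ SLW.BZ r, xc ^ Z.length * ∑ d ∈ dirs, FY N r ρ (y - mulE (rotTo up d) (en Z)) =
      ∑ x ∈ (SLW.BZ r).sigma (fun Z => dirs.sigma fun d => (WY N (y - mulE (rotTo up d) (en Z))).sigma fun t =>
        SLW.MB.cuA r (FA ρ) t), xc ^ (x.1.length + x.2.2.1.length) := by
    rw [sum_sigma]
    refine sum_congr rfl fun Z _ => ?_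
    rw [sum_sigma, mul_sum]
    refine sum_congr rfl fun d _ => ?_
    rw [sum_sigma]
    unfold FY
    rw [mul_sum]
    refine sum_congr rfl fun t _ => ?_
    simp only
    rw [sum_const, nsmul_eq_mul, pow_add]
    unfold nf
    ring
  rw [h1, h2]
  let φ : (Σ _ : List Bool, (Σ _ : ℕ, ℕ)) → (Σ _ : List Bool, (Σ _ : Pt, (Σ _ : List Bool, ℕ))) := fun x =>
    ⟨(x.1.drop x.2.1).take x.2.2, ⟨de (x.1.take x.2.1), ⟨x.1.take x.2.1 ++ (x.1.drop x.2.1).drop x.2.2, x.2.1⟩⟩⟩
  have hinj : Set.InjOn φ ((WY N y).sigma (fun t => (SLW.MB.cuA r (FA ρ) t).sigma fun k => JJ r (t.drop k)) :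
      Finset (Σ _ : List Bool, (Σ _ : ℕ, ℕ))) := by
    rintro ⟨t, k, j⟩ hx ⟨t', k', j'⟩ hx' he
    rw [mem_coe, mem_sigma, mem_sigma] at hx hx'
    obtain ⟨ht, hk, hj⟩ := hx
    obtain ⟨ht', hk', hj'⟩ := hx'
    simp only at ht hk hj ht' hk' hj'
    rw [SLW.MB.mem_cuA] at hk hk'
    unfold JJ at hj hj'
    rw [mem_filter, mem_range, List.length_drop] at hj hj'
    simp only [φ, Sigma.mk.injEq, heq_eq_eq] at he
    obtain ⟨e1, -, e2, e3⟩ := he
    subst e3
    have hk1 := hk.1
    have hk1' := hk'.1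
    have hj1 := hj.1
    have hj1' := hj'.1
    have e4 := congrArg List.length e1
    rw [List.length_take, List.length_take, List.length_drop, List.length_drop] at e4
    have e5 : j = j' := by omega
    subst e5
    have hl : (t.take k).length = (t'.take k).length := by
      rw [List.length_take, List.length_take]
      omega
    obtain ⟨e6, e7⟩ := List.append_inj e2 hl
    have e8 : t = t' := by
      rw [← List.take_append_drop k t, ← List.take_append_drop k t', e6, ← List.take_append_drop j (t.drop k),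
        ← List.take_append_drop j (t'.drop k), e1, e7]
    subst e8
    rfl
  have hw : ∀ x ∈ (WY N y).sigma (fun t => (SLW.MB.cuA r (FA ρ) t).sigma fun k => JJ r (t.drop k)),
      xc ^ x.1.length = xc ^ ((φ x).1.length + (φ x).2.2.1.length) := by
    rintro ⟨t, k, j⟩ hx
    rw [mem_sigma, mem_sigma] at hx
    obtain ⟨ht, hk, hj⟩ := hx
    simp only at ht hk hj
    rw [SLW.MB.mem_cuA] at hk
    unfold JJ at hj
    rw [mem_filter, mem_range, List.length_drop] at hj
    have hk1 := hk.1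
    have hj1 := hj.1
    simp only [φ]
    congr 1
    have c1 : ((t.drop k).take j).length = j := by
      rw [List.length_take, List.length_drop]
      omega
    have c2 : (t.take k ++ (t.drop k).drop j).length = t.length - j := by
      rw [List.length_append, List.length_take, List.length_drop, List.length_drop]
      omega
    rw [c1, c2]
    omega
  rw [sum_congr rfl hw, ← sum_image (g := φ) (f := fun x => xc ^ (x.1.length + x.2.2.1.length)) hinj]
  refine sum_le_sum_of_subset_of_nonneg ?_ fun x _ _ => pow_nonneg hx.le _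
  intro x hx0
  obtain ⟨⟨t, k, j⟩, hx, rfl⟩ := mem_image.1 hx0
  rw [mem_sigma, mem_sigma] at hx
  obtain ⟨ht, hk, hj⟩ := hx
  simp only at ht hk hj
  rw [mem_WY] at ht
  rw [SLW.MB.mem_cuA] at hk
  unfold JJ at hj
  rw [mem_filter, mem_range, List.length_drop] at hj
  obtain ⟨hk1, ⟨hk2, hk3⟩, hk4⟩ := hk
  obtain ⟨hj1, hj2, hj3, hj4⟩ := hj
  obtain ⟨⟨ht1, ht2⟩, ht3⟩ := ht
  have e1 : (t.drop k).take j ++ (t.drop k).drop j = t.drop k := List.take_append_drop _ _
  have e2 : t.take k ++ t.drop k = t := List.take_append_drop _ _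
  have hA : t.take k ∈ SA := SA_pre (E := t.drop k) (by rwa [e2])
  have hlk : (t.take k).length = k := by
    rw [List.length_take]
    omega
  simp only [φ]
  rw [mem_sigma, mem_sigma, mem_sigma]
  simp only
  refine ⟨?_, de_mem _, ?_, ?_⟩
  · unfold SLW.BZ
    rw [mem_filter, mem_HpF]
    exact ⟨Hp_pre (by rw [e1]; exact hk4), hj2, hj3⟩
  · rw [mem_WY]
    refine ⟨⟨fe_app hA hk3 hj4, ?_⟩, ?_⟩
    · rw [List.length_append, hlk, List.length_drop, List.length_drop]
      omega
    · have e3 : en t = en (t.take k) + mulE (rt (t.take k)) (en ((t.drop k).take j) + en ((t.drop k).drop j)) := by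
        have e4 : en (t.drop k) = en ((t.drop k).take j) + en ((t.drop k).drop j) := by
          have h := en_app ((t.drop k).take j) ((t.drop k).drop j)
          rw [e1, rt_bu hj2] at h
          exact h
        rw [← e4, ← en_app, e2]
      rw [en_app, ← ht3, e3]
      unfold rt
      rw [mulE_add]
      abel
  · rw [SLW.MB.mem_cuA, List.length_append, hlk, List.take_append_of_le_length hlk.ge, List.take_of_length_le hlk.le,
      List.drop_append_of_le_length hlk.ge, List.drop_of_length_le hlk.le, List.nil_append]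
    exact ⟨by omega, ⟨hk2, hk3⟩, hj4⟩

/-- the weighted second moment -/
noncomputable def FY2 (N r ρ : ℕ) (y : Pt) : ℝ := ∑ t ∈ WY N y, xc ^ t.length * nf r ρ t ^ 2

/-- the second moment against the largest first moment -/
theorem FY2_le {N r ρ : ℕ} {S : ℝ} (hS : ∀ y, FY N r ρ y ≤ S) (y : Pt) : FY2 N r ρ y ≤ 72 * UU r * S := by
  have hx := xc_pos
  have hS0 : 0 ≤ S := (FY_nonneg N r ρ y).trans (hS y)
  have h6 : dirs.card = 6 := by decide
  have h1 : FY2 N r ρ y ≤ 12 * ∑ t ∈ WY N y, xc ^ t.length * ∑ k ∈ SLW.MB.cuA r (FA ρ) t, ((JJ r (t.drop k)).card : ℝ) := by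
    unfold FY2
    rw [mul_sum]
    refine sum_le_sum fun t _ => ?_
    have h := SLW.MB.np_sqA r (FA ρ) t
    calc xc ^ t.length * nf r ρ t ^ 2 ≤ xc ^ t.length * (12 * ∑ k ∈ SLW.MB.cuA r (FA ρ) t, ((JJ r (t.drop k)).card : ℝ)) :=
          mul_le_mul_of_nonneg_left h (pow_nonneg hx.le _)
      _ = _ := by ring
  have h2 : ∑ Z ∈ SLW.BZ r, xc ^ Z.length * ∑ d ∈ dirs, FY N r ρ (y - mulE (rotTo up d) (en Z)) ≤ UU r * (6 * S) := by
    calc _ ≤ ∑ Z ∈ SLW.BZ r, xc ^ Z.length * (6 * S) := by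
          refine sum_le_sum fun Z _ => mul_le_mul_of_nonneg_left ?_ (pow_nonneg hx.le _)
          calc ∑ d ∈ dirs, FY N r ρ (y - mulE (rotTo up d) (en Z)) ≤ ∑ _d ∈ dirs, S := sum_le_sum fun d _ => hS _
            _ = 6 * S := by
                rw [sum_const, h6, nsmul_eq_mul]
                norm_num
      _ = (∑ Z ∈ SLW.BZ r, xc ^ Z.length) * (6 * S) := by rw [sum_mul]
      _ ≤ _ := mul_le_mul_of_nonneg_right (SLW.BZ_mass r) (by positivity)
  have h3 := pairsY N r ρ y
  linarith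

/-- Cauchy - Schwarz -/
lemma FY_sq (N r ρ : ℕ) (y : Pt) : FY N r ρ y ^ 2 ≤ (∑ t ∈ WY N y, xc ^ t.length) * FY2 N r ρ y := by
  unfold FY FY2
  refine sum_sq_le_sum_mul_sum_of_sq_le_mul _ (fun t _ => pow_nonneg xc_pos.le _) (fun t _ =>
    mul_nonneg (pow_nonneg xc_pos.le _) (sq_nonneg _)) fun t _ => le_of_eq ?_
  ring

/-- the largest first moment is attained -/
lemma FY_max (N r ρ : ℕ) : ∃ y0, ∀ y, FY N r ρ y ≤ FY N r ρ y0 := by
  obtain ⟨y0, -, hmax⟩ := exists_max_image (insert oo ((WN N).image en)) (FY N r ρ) ⟨oo, mem_insert_self _ _⟩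
  refine ⟨y0, fun y => ?_⟩
  by_cases hy : y ∈ (WN N).image en
  · exact hmax y (mem_insert_of_mem hy)
  · have h1 : WY N y = ∅ := by
      refine eq_empty_of_forall_notMem fun t ht => hy ?_
      unfold WY at ht
      rw [mem_filter] at ht
      exact mem_image.2 ⟨t, ht.1, ht.2⟩
    have h2 : FY N r ρ y = 0 := by
      unfold FY
      rw [h1, sum_empty]
    rw [h2]
    exact FY_nonneg _ _ _ _

/-- the end of a word with a far cut is far -/
lemma far_end {r ρ : ℕ} {t : List Bool} {k : ℕ} (hk : k ∈ SLW.MB.cuA r (FA ρ) t) : (ρ : ℤ) - r ≤ hn (en t) := by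
  rw [SLW.MB.mem_cuA] at hk
  obtain ⟨-, ⟨h1, -⟩, h2⟩ := hk
  have h3 : hn (en (t.drop k)) < r := h2.2 _ le_rfl
  have h4 : en t = en (t.take k) + mulE (rt (t.take k)) (en (t.drop k)) := by
    rw [← en_app, List.take_append_drop]
  have h5 := hn_sub (en t) (mulE (rt (t.take k)) (en (t.drop k)))
  rw [hn_mulE (nrm_rt _), h4, add_sub_cancel_right] at h5
  have h6 : (ρ : ℤ) ≤ hn (en (t.take k)) := h1
  rw [h4]
  linarith

/-- **self-bounding** -/
theorem self_bd {r ρ : ℕ} {G : ℝ} (hG0 : 0 ≤ G)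
    (hG : ∀ (N : ℕ) (y : Pt), (ρ : ℤ) - r ≤ hn y → ∑ t ∈ WY N y, xc ^ t.length ≤ G) (N : ℕ) :
    (∀ y, FY N r ρ y ≤ 72 * UU r * G) ∧ ∀ y, FY2 N r ρ y ≤ (72 * UU r) ^ 2 * G := by
  have hU := Num2Aux.UU_pos r
  obtain ⟨y0, hy0⟩ := FY_max N r ρ
  have h2 := FY2_le hy0
  have key : FY N r ρ y0 ≤ 72 * UU r * G := by
    rcases (FY_nonneg N r ρ y0).eq_or_lt with h0 | h0
    · rw [← h0]
      positivity
    · have h3 : ∃ t ∈ WY N y0, nf r ρ t ≠ 0 := by
        by_contra hc
        push Not at hc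
        refine h0.ne' ?_
        unfold FY
        exact sum_eq_zero fun t ht => by rw [hc t ht, mul_zero]
      obtain ⟨t, ht, hn0⟩ := h3
      have h4 : (SLW.MB.cuA r (FA ρ) t).Nonempty := by
        rw [nonempty_iff_ne_empty]
        intro hc
        refine hn0 ?_
        unfold nf
        rw [hc, card_empty, Nat.cast_zero]
      obtain ⟨k, hk⟩ := h4
      have h5 := far_end hk
      rw [(mem_WY.1 ht).2] at h5
      have h6 := hG N y0 h5
      have h7 := FY_sq N r ρ y0
      have h8 : FY N r ρ y0 ^ 2 ≤ G * (72 * UU r * FY N r ρ y0) := by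
        refine h7.trans ?_
        refine mul_le_mul h6 (h2 y0) ?_ hG0
        exact sum_nonneg fun t _ => mul_nonneg (pow_nonneg xc_pos.le _) (sq_nonneg _)
      have h9 : FY N r ρ y0 * FY N r ρ y0 ≤ (72 * UU r * G) * FY N r ρ y0 := by nlinarith
      exact le_of_mul_le_mul_right h9 h0
  refine ⟨fun y => (hy0 y).trans key, fun y => (h2 y).trans ?_⟩
  calc 72 * UU r * FY N r ρ y0 ≤ 72 * UU r * (72 * UU r * G) := mul_le_mul_of_nonneg_left key (by positivity)
    _ = _ := by ring

/-- every cut is far -/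
lemma far_all {r ρ : ℕ} {t : List Bool} (h : (ρ : ℤ) + r ≤ hn (en t)) : NP r t = nf r ρ t := by
  unfold NP nf
  congr 2
  ext k
  constructor
  · intro hk
    rw [SLW.MB.mem_cuA]
    unfold cu at hk
    rw [mem_filter, mem_range] at hk
    obtain ⟨h1, h2, h3⟩ := hk
    refine ⟨by omega, ⟨?_, h2⟩, h3⟩
    have h4 : hn (en (t.drop k)) < r := h3.2 _ le_rfl
    have h5 : en t = en (t.take k) + mulE (rt (t.take k)) (en (t.drop k)) := by
      rw [← en_app, List.take_append_drop]
    have h6 := hn_add (en (t.take k)) (mulE (rt (t.take k)) (en (t.drop k)))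
    rw [hn_mulE (nrm_rt _), ← h5] at h6
    show (ρ : ℤ) ≤ hn (en (t.take k))
    linarith
  · intro hk
    rw [SLW.MB.mem_cuA] at hk
    unfold cu
    rw [mem_filter, mem_range]
    exact ⟨by omega, hk.2.1.2, hk.2.2⟩

/-- **moments of the number of the cuts, words with a given far end** -/
theorem mom_far {r ρ : ℕ} {G : ℝ} (hG0 : 0 ≤ G)
    (hG : ∀ y : Pt, (ρ : ℤ) - r ≤ hn y → gf {t | t ∈ SA ∧ en t = y} ≤ ENNReal.ofReal G) {y : Pt}
    (hy : (ρ : ℤ) + r ≤ hn y) (T : Finset (List Bool)) (hT : ∀ t ∈ T, t ∈ SA ∧ en t = y) :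
    ∑ t ∈ T, xc ^ t.length * NP r t ≤ 72 * UU r * G ∧
    ∑ t ∈ T, xc ^ t.length * NP r t ^ 2 ≤ (72 * UU r) ^ 2 * G := by
  have hx := xc_pos
  have hG' : ∀ (N : ℕ) (y : Pt), (ρ : ℤ) - r ≤ hn y → ∑ t ∈ WY N y, xc ^ t.length ≤ G := by
    intro N y hy
    have h1 : gf (WY N y : Set (List Bool)) ≤ gf {t | t ∈ SA ∧ en t = y} := by
      refine gf_mono fun t ht => ?_
      rw [mem_coe, mem_WY] at ht
      exact ⟨ht.1.1, ht.2⟩
    rw [gf_finset] at h1
    exact (ENNReal.ofReal_le_ofReal_iff hG0).1 (h1.trans (hG y hy))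
  obtain ⟨N, hN⟩ : ∃ N, ∀ t ∈ T, t.length ≤ N := ⟨T.sup List.length, fun t ht => le_sup (f := List.length) ht⟩
  obtain ⟨h1, h2⟩ := self_bd hG0 hG' N
  have hsub : T ⊆ WY N y := fun t ht => mem_WY.2 ⟨⟨(hT t ht).1, hN t ht⟩, (hT t ht).2⟩
  have e : ∀ t ∈ T, NP r t = nf r ρ t := fun t ht => far_all (by rw [(hT t ht).2]; exact hy)
  constructor
  · refine le_trans (le_of_eq (sum_congr rfl fun t ht => by rw [e t ht])) ((sum_le_sum_of_subset_of_nonneg hsub fun t _ _ =>
      mul_nonneg (pow_nonneg hx.le _) (nf_nonneg r ρ t)).trans (h1 y))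
  · refine le_trans (le_of_eq (sum_congr rfl fun t ht => by rw [e t ht])) ((sum_le_sum_of_subset_of_nonneg hsub fun t _ _ =>
      mul_nonneg (pow_nonneg hx.le _) (sq_nonneg _)).trans (h2 y))

end MT

end PWN

end HexObs
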