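import Pool.Agent.PW.LevQ
import Pool.Agent.SLW.SmallW

/-!
# PW, row SmallT (helper47), geometry: the weight of a level does not see a far piece in front and far translates

* **`NC_far`** : for `t = X ++ R`, the piece `X` and all its translates far from the tip, the translates of `R` far from the
  tip: the weight of `t` with the cut-off `trI` is at least the plain weight of `R`.
-/

set_option autoImplicit false

namespace HexObs

namespace PWN

open Finset TS SDN TIW SLW SLW.Sm

open Classical in
/-- **a far piece in front and far translates** -/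
lemma NC_far {k l L : ℕ} {Ch : Set (List Bool)} (hC : Chn L Ch) (hl : l ≤ L) {X R : List Bool}
    (hX : ∀ i, i ≤ X.length → ∀ m : ℤ, (8 * 2 ^ L : ℤ) ≤
      hn (vx oo up (X ++ R) i + (2 * (k : ℤ) * m, 2 * (k : ℤ) * m) - en (X ++ R)))
    (hR : ∀ i, i ≤ (X ++ R).length → ∀ m : ℤ, m ≠ 0 → (8 * 2 ^ L : ℤ) ≤
      hn (vx oo up (X ++ R) i + (2 * (k : ℤ) * m, 2 * (k : ℤ) * m) - en (X ++ R))) :
    N0 l L Ch R ≤ NC k l L Ch (X ++ R) := by
  unfold N0 NC NW
  have hinj : ∀ p ∈ ((range (R.length + 1)) ×ˢ (range (R.length + 1))).filter (fun p => Dl l L Ch R p.1 p.2),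
      ∀ p' ∈ ((range (R.length + 1)) ×ˢ (range (R.length + 1))).filter (fun p => Dl l L Ch R p.1 p.2),
      (X.length + p.1, X.length + p.2) = (X.length + p'.1, X.length + p'.2) → p = p' := by
    rintro ⟨i, j⟩ _ ⟨i', j'⟩ _ he
    simp only [Prod.mk.injEq] at he
    rw [Prod.mk.injEq]
    omega
  have hdrop : ∀ j, (X ++ R).drop (X.length + j) = R.drop j := fun j => by
    rw [List.drop_append]
    simp
  have htake : ∀ j, (X ++ R).take (X.length + j) = X ++ R.take j := fun j => by
    rw [List.take_append]
    simp
  -- the tips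
  have htip : ∀ i j, Dl l L Ch R i j → hn (en (X ++ R.take i) - en (X ++ R)) < 2 * 2 ^ L := by
    rintro i j ⟨h3, h4, h5, h6⟩
    have e2 : R.drop i = (R.take j).drop i ++ R.drop j := by
      rcases Nat.lt_or_ge R.length i with h | h
      · have h0 : j ≥ i := h3
        rw [List.drop_eq_nil_of_le (by omega : R.length ≤ i), List.drop_eq_nil_of_le (by rw [List.length_take]; omega),
          List.drop_eq_nil_of_le (by omega : R.length ≤ j)]
        rfl
      · rw [← List.drop_append_of_le_length (by rw [List.length_take]; omega), List.take_append_drop]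
    have h7 : R.drop i ∈ Hp (2 * 2 ^ L) := by
      rw [e2]
      refine SLW.bu_hp (hC.bu h5) (fun i hi => ?_) ⟨h6.1.1, fun i hi => ?_⟩
      · have := hC.size _ h5 i hi
        push_cast
        exact this
      · have h1 := h6.1.2 i hi
        have h2 : (2 : ℤ) ^ l ≤ 2 ^ L := pow_le_pow_right₀ (by norm_num) hl
        push_cast at h1 ⊢
        linarith
    have h8 : hn (en (R.drop i)) < ((2 * 2 ^ L : ℕ) : ℤ) := h7.2 _ le_rfl
    have h9 := hn_tip (A := X ++ R.take i) h8
    rw [List.append_assoc, List.take_append_drop] at h9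
    rw [hn_sub_comm]
    push_cast at h9
    exact h9
  have hpp : (0 : ℤ) < 2 ^ L := by positivity
  have hvx : ∀ i m, i ≤ R.length → m ≤ X.length + i → vx oo up (X ++ R.take i) m = vx oo up (X ++ R) m := by
    intro i m hi hm
    have h : vx oo up ((X ++ R.take i) ++ R.drop i) m = vx oo up (X ++ R.take i) m :=
      vx_append (by rw [List.length_append, List.length_take]; omega)
    rw [List.append_assoc, List.take_append_drop] at h
    exact h.symm
  have hfe : ∀ i j, i ≤ R.length → Dl l L Ch R i j → X ++ R.take i ∈ Fe (4 * 2 ^ L) := by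
    intro i j hi hD
    refine Fe_far hD.2.1 fun m hm => ?_
    have h1 := htip i j hD
    have h2 := hX m hm 0
    have e0 : vx oo up (X ++ R) m + (2 * (k : ℤ) * 0, 2 * (k : ℤ) * 0) = vx oo up (X ++ R) m := by
      ext1
      · show (vx oo up (X ++ R) m).1 + 2 * (k : ℤ) * 0 = _
        ring
      · show (vx oo up (X ++ R) m).2 + 2 * (k : ℤ) * 0 = _
        ring
    rw [e0, ← hvx i m hi (by omega)] at h2
    have h3 := hn_tri (vx oo up (X ++ R.take i) m) (en (X ++ R.take i)) (en (X ++ R))
    push_cast
    linarith
  have htr : ∀ i j, i ≤ R.length → Dl l L Ch R i j → trI k L (X ++ R.take i) = 1 := by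
    intro i j hi hD
    unfold trI
    refine if_pos fun m hm z hz => ?_
    have h1 := htip i j hD
    have h2 : (8 * 2 ^ L : ℤ) ≤ hn (vx oo up (X ++ R) m + (2 * (k : ℤ) * z, 2 * (k : ℤ) * z) - en (X ++ R)) := by
      refine hR m ?_ z hz
      rw [List.length_append, List.length_take] at hm
      rw [List.length_append]
      omega
    rw [← hvx i m hi (by rw [List.length_append, List.length_take] at hm; omega)] at h2
    have h3 := hn_tri (vx oo up (X ++ R.take i) m + (2 * (k : ℤ) * z, 2 * (k : ℤ) * z)) (en (X ++ R.take i)) (en (X ++ R))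
    push_cast
    have e : (2 : ℤ) ^ (L + 2) = 4 * 2 ^ L := by ring
    rw [e]
    linarith
  have hsub : (((range (R.length + 1)) ×ˢ (range (R.length + 1))).filter (fun p => Dl l L Ch R p.1 p.2)).image
      (fun p => (X.length + p.1, X.length + p.2)) ⊆
      ((range ((X ++ R).length + 1)) ×ˢ (range ((X ++ R).length + 1))).filter (fun p => Dl l L Ch (X ++ R) p.1 p.2) := by
    intro q hq
    rw [mem_image] at hq
    obtain ⟨⟨i, j⟩, hp, rfl⟩ := hq
    rw [mem_filter, mem_product, mem_range, mem_range] at hp
    obtain ⟨⟨h1, h2⟩, hD⟩ := hp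
    simp only at h1 h2 hD
    rw [mem_filter, mem_product, mem_range, mem_range]
    refine ⟨⟨?_, ?_⟩, ?_, ?_, ?_, ?_⟩
    · show X.length + i < _
      rw [List.length_append]; omega
    · show X.length + j < _
      rw [List.length_append]; omega
    · show X.length + i ≤ X.length + j
      exact Nat.add_le_add_left hD.1 _
    · show (X ++ R).take (X.length + i) ∈ _
      rw [htake]
      exact hfe i j (by omega) hD
    · show ((X ++ R).take (X.length + j)).drop (X.length + i) ∈ Ch
      rw [htake, List.drop_append, List.drop_eq_nil_of_le (by omega), List.nil_append, Nat.add_sub_cancel_left]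
      exact hD.2.2.1
    · show (X ++ R).drop (X.length + j) ∈ _
      rw [hdrop]
      exact hD.2.2.2
  refine le_trans (le_of_eq ?_) (sum_le_sum_of_subset_of_nonneg hsub fun p _ _ => ?_)
  · rw [sum_image hinj]
    refine sum_congr rfl fun p hp => ?_
    rw [mem_filter, mem_product, mem_range, mem_range] at hp
    rw [hdrop, htake, htr p.1 p.2 (by omega) hp.2]
  · exact mul_nonneg (mul_nonneg (chi_nonneg _ _) zero_le_one) (trI_nonneg _ _ _)

end PWN

end HexObs
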