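import Pool.Agent.SLW.OscG
import Pool.Agent.PW.DefL

/-!
# PW, row P3 (helper5): the weights of the levels hardly see a small end of class 0

* `NQ0` : the number of the decompositions of the level (l, L), `NI0` : those with the tip well inside;
* **`oscS0`** : one level, ends of class 0 of size less than rho, 128 rho ≤ 2 ^ l (the argument of SLW/OscS, helper92);
* **`oscV`** : the level (l, L), ends of size less than 2 ^ (L' + 1), L' + s ≤ l;
* **`oscG0`** : the cutoff of the levels above, arbitrary denominators.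
-/

set_option autoImplicit false
set_option linter.unusedVariables false

namespace HexObs

namespace PWN

open Finset TS SDN TIW TIW.OscA SLW

open Classical in
/-- the number of the decompositions -/
noncomputable def NQ0 (l L : ℕ) (Ch : Set (List Bool)) (t : List Bool) : ℝ :=
  ((((range (t.length + 1)) ×ˢ (range (t.length + 1))).filter (fun p => Dl l L Ch t p.1 p.2)).card : ℝ)

open Classical in
/-- the number of the decompositions with the tip well inside -/
noncomputable def NI0 (l L : ℕ) (Ch : Set (List Bool)) (t : List Bool) : ℝ :=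
  ((((range (t.length + 1)) ×ˢ (range (t.length + 1))).filter (fun p => Dl l L Ch t p.1 p.2 ∧
    (2 : ℤ) ^ l ≤ 64 * ip (en (t.drop p.2)) up ∧ 4 * hn (en (t.drop p.2)) ≤ 3 * 2 ^ l)).card : ℝ)

/-- the weights hardly see a small end of the class 0 -/
def OscS0 : Prop := ∀ (l L rho : ℕ) (Ch : Set (List Bool)) (A Y : List Bool), 128 * rho ≤ 2 ^ l → 1 ≤ rho →
  A ++ Y ∈ SA → (∀ i, i ≤ Y.length → hn (vx oo up Y i) < rho) → de Y = up →
    |N0 l L Ch (A ++ Y) - N0 l L Ch A| ≤ 32 * rho / 2 ^ l * NI0 l L Ch A ∧ NI0 l L Ch A ≤ NQ0 l L Ch (A ++ Y)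

namespace OV

open Classical in
/-- the number of the pairs (far part, chain) that end at the index `j` -/
noncomputable def cjV (L : ℕ) (Ch : Set (List Bool)) (t : List Bool) (j : ℕ) : ℝ :=
  (((range (j + 1)).filter fun i => t.take i ∈ Fe (4 * 2 ^ L) ∧ (t.take j).drop i ∈ Ch).card : ℝ)

lemma cjV_nonneg (L : ℕ) (Ch : Set (List Bool)) (t : List Bool) (j : ℕ) : 0 ≤ cjV L Ch t j := Nat.cast_nonneg _

open Classical in
/-- sums over the decompositions -/
lemma pairV_sum (l L : ℕ) (Ch : Set (List Bool)) (t : List Bool) (w : ℕ → ℝ) :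
    ∑ p ∈ ((range (t.length + 1)) ×ˢ (range (t.length + 1))).filter (fun p => Dl l L Ch t p.1 p.2), w p.2 =
      ∑ j ∈ range (t.length + 1), cjV L Ch t j * (if t.drop j ∈ Hp (2 ^ l) ∧ de (t.drop j) = up then w j else 0) := by
  rw [sum_filter, sum_product_right]
  refine sum_congr rfl fun j hj => ?_
  rw [mem_range] at hj
  have e1 : cjV L Ch t j = ∑ i ∈ range (j + 1), if t.take i ∈ Fe (4 * 2 ^ L) ∧ (t.take j).drop i ∈ Ch then (1 : ℝ) else 0 := by
    unfold cjV
    rw [sum_boole]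
  rw [e1, sum_mul]
  symm
  have hsub : range (j + 1) ⊆ range (t.length + 1) := fun i hi => by
    rw [mem_range] at hi ⊢
    omega
  have e2 : ∀ i ∈ range (j + 1), (if t.take i ∈ Fe (4 * 2 ^ L) ∧ (t.take j).drop i ∈ Ch then (1 : ℝ) else 0) *
      (if t.drop j ∈ Hp (2 ^ l) ∧ de (t.drop j) = up then w j else 0) = if Dl l L Ch t i j then w j else 0 := by
    intro i hi
    rw [mem_range] at hi
    unfold Dl Hc
    by_cases h1 : t.take i ∈ Fe (4 * 2 ^ L) ∧ (t.take j).drop i ∈ Ch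
    · by_cases h2 : t.drop j ∈ Hp (2 ^ l) ∧ de (t.drop j) = up
      · rw [if_pos h1, if_pos h2, if_pos ⟨by omega, h1.1, h1.2, h2⟩, one_mul]
      · rw [if_neg h2, mul_zero]
        exact (if_neg fun h => h2 h.2.2.2).symm
    · rw [if_neg h1, zero_mul]
      exact (if_neg fun h => h1 ⟨h.2.1, h.2.2.1⟩).symm
  rw [sum_congr rfl e2]
  refine sum_subset hsub fun i hi hi' => ?_
  rw [mem_range] at hi'
  exact if_neg fun h => hi' (by have := h.1; omega)

open Classical in
lemma N0_sum (l L : ℕ) (Ch : Set (List Bool)) (t : List Bool) : N0 l L Ch t =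
    ∑ j ∈ range (t.length + 1), cjV L Ch t j *
      (if t.drop j ∈ Hp (2 ^ l) ∧ de (t.drop j) = up then chi (2 ^ l) (t.drop j) else 0) := by
  rw [← pairV_sum l L Ch t fun j => chi (2 ^ l) (t.drop j)]
  unfold N0 NW
  exact sum_congr rfl fun p _ => by rw [mul_one, mul_one]

open Classical in
lemma NQ0_sum (l L : ℕ) (Ch : Set (List Bool)) (t : List Bool) : NQ0 l L Ch t =
    ∑ j ∈ range (t.length + 1), cjV L Ch t j * (if t.drop j ∈ Hp (2 ^ l) ∧ de (t.drop j) = up then 1 else 0) := by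
  rw [← pairV_sum l L Ch t fun _ => 1]
  unfold NQ0
  rw [sum_const, nsmul_eq_mul, mul_one]

open Classical in
lemma NI0_sum (l L : ℕ) (Ch : Set (List Bool)) (t : List Bool) : NI0 l L Ch t =
    ∑ j ∈ range (t.length + 1), cjV L Ch t j * (if t.drop j ∈ Hp (2 ^ l) ∧ de (t.drop j) = up then
      (if (2 : ℤ) ^ l ≤ 64 * ip (en (t.drop j)) up ∧ 4 * hn (en (t.drop j)) ≤ 3 * 2 ^ l then 1 else 0) else 0) := by
  rw [← pairV_sum l L Ch t fun j =>
    if (2 : ℤ) ^ l ≤ 64 * ip (en (t.drop j)) up ∧ 4 * hn (en (t.drop j)) ≤ 3 * 2 ^ l then 1 else 0]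
  unfold NI0
  rw [sum_boole, filter_filter]

open Classical in
lemma cjV_app (L : ℕ) (Ch : Set (List Bool)) (A Y : List Bool) {j : ℕ} (hj : j ≤ A.length) :
    cjV L Ch (A ++ Y) j = cjV L Ch A j := by
  unfold cjV
  congr 2
  refine filter_congr fun i hi => ?_
  rw [mem_range] at hi
  rw [List.take_append_of_le_length (by omega), List.take_append_of_le_length hj]

end OV

open OV

open Classical in
/-- **P3, one level** -/
theorem oscS0 : OscS0 := by
  intro l L rho Ch A Y hR hrho hS hY hcl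
  obtain ⟨R, hRe⟩ : ∃ R : ℕ, R = 2 ^ l := ⟨_, rfl⟩
  have hRz' : (2 : ℤ) ^ l = (R : ℤ) := by rw [hRe]; push_cast; rfl
  have hRr' : (2 : ℝ) ^ l = (R : ℝ) := by rw [hRe]; push_cast; rfl
  rw [N0_sum, N0_sum, NI0_sum, NQ0_sum, ← hRe, hRz', hRr']
  rw [← hRe] at hR
  have hR0 : 0 < R := by omega
  have hRz : (128 : ℤ) * rho ≤ R := by exact_mod_cast hR
  have hrz : (1 : ℤ) ≤ rho := by exact_mod_cast hrho
  have hRr : (0 : ℝ) < R := by exact_mod_cast hR0
  have hY0 : hn (en Y) < rho := hY Y.length le_rfl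
  have hcls : ∀ Z : List Bool, de (Z ++ Y) = de Z := fun Z => by
    have e2 : de (Z ++ Y) = mulE (rt Z) (de Y) := by
      unfold de
      rw [List.length_append, dx_app]
    rw [e2, hcl, rt_up]
  obtain ⟨Mc, hMc⟩ : ∃ Mc : ℕ → Prop, Mc = fun k => (A.drop k ∈ Hp R ∧ de (A.drop k) = up) ∧
    ((R : ℤ) ≤ 64 * ip (en (A.drop k)) up ∧ 4 * hn (en (A.drop k)) ≤ 3 * R) := ⟨_, rfl⟩
  have hdk : ∀ k, k ≤ A.length → (A ++ Y).drop k = A.drop k ++ Y := fun k hk => List.drop_append_of_le_length hk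
  have hsplit : ∀ k, A.take k ++ (A.drop k ++ Y) ∈ SA := by
    intro k
    rw [← List.append_assoc, List.take_append_drop]
    exact hS
  have hend : ∀ Z : List Bool, |ip (en (Z ++ Y)) up - ip (en Z) up| ≤ rho ∧ |hn (en (Z ++ Y)) - hn (en Z)| ≤ rho := by
    intro Z
    rw [OscA.en_app]
    have h1 := hn_rot Z (en Y)
    have h2 := ip_abs (mulE (rt Z) (en Y)) upd'
    rw [h1] at h2
    refine ⟨?_, ?_⟩
    · rw [ip_add_left, add_sub_cancel_left]
      linarith
    · have h3 := hn_add (en Z) (mulE (rt Z) (en Y))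
      have h4 := hn_sub (en Z + mulE (rt Z) (en Y)) (mulE (rt Z) (en Y))
      rw [add_sub_cancel_right] at h4
      rw [h1] at h3 h4
      rw [abs_le]
      constructor <;> linarith
  have hzero : ∀ k, ¬ Mc k → A.drop k ∈ Hp R ∧ de (A.drop k) = up →
      chi R (A.drop k) = 0 ∧ chi R (A.drop k ++ Y) = 0 := by
    intro k hm m2
    rw [hMc] at hm
    have hm' : ¬ ((R : ℤ) ≤ 64 * ip (en (A.drop k)) up ∧ 4 * hn (en (A.drop k)) ≤ 3 * R) := fun h => hm ⟨m2, h⟩
    rw [not_and_or, not_le, not_le] at hm'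
    obtain ⟨e1, e2⟩ := hend (A.drop k)
    rw [abs_le] at e1 e2
    rcases hm' with h | h
    · exact ⟨chi_low hR0 (by omega), chi_low hR0 (by omega)⟩
    · exact ⟨chi_far hR0 (by omega), chi_far hR0 (by omega)⟩
  have hext : ∀ k, Mc k → A.drop k ++ Y ∈ Hp R ∧ de (A.drop k ++ Y) = up := by
    intro k hm
    rw [hMc] at hm
    exact ⟨Hp_ext hR hrho (hsplit k) hY hm.1.1 hm.2.1 hm.2.2, by rw [hcls, hm.1.2]⟩
  obtain ⟨f, hf⟩ : ∃ f : ℕ → ℝ, f = fun k => cjV L Ch (A ++ Y) k *
    (if (A ++ Y).drop k ∈ Hp R ∧ de ((A ++ Y).drop k) = up then chi R ((A ++ Y).drop k) else 0) := ⟨_, rfl⟩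
  obtain ⟨g, hg⟩ : ∃ g : ℕ → ℝ, g = fun k => cjV L Ch A k *
    (if A.drop k ∈ Hp R ∧ de (A.drop k) = up then chi R (A.drop k) else 0) := ⟨_, rfl⟩
  have hbig : ∀ k, A.length < k → k ≤ (A ++ Y).length → f k = 0 := by
    intro k hk hk2
    rw [hf]
    simp only
    split_ifs with hc
    · have hz : chi R ((A ++ Y).drop k) = 0 := by
        refine chi_low hR0 ?_
        rw [List.length_append] at hk2
        obtain ⟨j, rfl⟩ : ∃ j, k = A.length + j := ⟨k - A.length, by omega⟩
        have e : (A ++ Y).drop (A.length + j) = Y.drop j := by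
          rw [List.drop_append]
          simp
        rw [e]
        have h1 : en Y = en (Y.take j) + mulE (rt (Y.take j)) (en (Y.drop j)) := by
          rw [← OscA.en_app, List.take_append_drop]
        have hj : j ≤ Y.length := by omega
        have h2 : en (Y.take j) = vx oo up Y j := by
          unfold en
          rw [List.length_take, min_eq_left hj]
          have := vx_append (v0 := oo) (d0 := up) (t := Y.take j) (s := Y.drop j) (i := j)
            (by rw [List.length_take, min_eq_left hj]; omega)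
          rw [List.take_append_drop] at this
          exact this.symm
        have h3 : mulE (rt (Y.take j)) (en (Y.drop j)) = en Y - vx oo up Y j := by
          rw [h1, h2]
          abel
        have h4 := hn_rot (Y.take j) (en (Y.drop j))
        rw [h3] at h4
        have h5 := hn_sub (en Y) (vx oo up Y j)
        have h6 := hY j hj
        have h7 := ip_le_hn (en (Y.drop j)) upd'
        omega
      rw [hz, mul_zero]
    · rw [mul_zero]
  have hsum : ∑ k ∈ range ((A ++ Y).length + 1), f k = ∑ k ∈ range (A.length + 1), f k := by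
    symm
    refine sum_subset (fun k hk => ?_) fun k hk hk' => ?_
    · rw [mem_range] at hk ⊢
      rw [List.length_append]
      omega
    · rw [mem_range] at hk hk'
      exact hbig k (by omega) (by omega)
  have hterm : ∀ k ∈ range (A.length + 1), |f k - g k| ≤ 32 * rho / R * (cjV L Ch A k * (if Mc k then (1 : ℝ) else 0)) := by
    intro k hk
    rw [mem_range] at hk
    have hk' : k ≤ A.length := by omega
    rw [hf, hg]
    simp only
    rw [cjV_app L Ch A Y hk', ← mul_sub, abs_mul, abs_of_nonneg (cjV_nonneg L Ch A k), mul_left_comm]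
    refine mul_le_mul_of_nonneg_left ?_ (cjV_nonneg L Ch A k)
    rw [hdk k hk']
    by_cases hm : Mc k
    · have h1 := hext k hm
      have h2 : A.drop k ∈ Hp R ∧ de (A.drop k) = up := by
        rw [hMc] at hm
        exact hm.1
      rw [if_pos hm, mul_one, if_pos h1, if_pos h2]
      obtain ⟨e1, e2⟩ := hend (A.drop k)
      exact chi_lip hR0 e1 e2
    · rw [if_neg hm, mul_zero]
      have h1 : (if A.drop k ∈ Hp R ∧ de (A.drop k) = up then chi R (A.drop k) else 0) = 0 := by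
        split_ifs with hc
        · exact (hzero k hm hc).1
        · rfl
      have h2 : (if A.drop k ++ Y ∈ Hp R ∧ de (A.drop k ++ Y) = up then chi R (A.drop k ++ Y) else 0) = 0 := by
        split_ifs with hc
        · exact (hzero k hm ⟨OscA.Hp_pre hc.1, by rw [← hcls (A.drop k)]; exact hc.2⟩).2
        · rfl
      rw [h1, h2, sub_zero, abs_zero]
  have hNI : ∀ k, (if A.drop k ∈ Hp R ∧ de (A.drop k) = up then
      (if (R : ℤ) ≤ 64 * ip (en (A.drop k)) up ∧ 4 * hn (en (A.drop k)) ≤ 3 * R then (1 : ℝ) else 0) else 0) =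
      if Mc k then (1 : ℝ) else 0 := by
    intro k
    rw [hMc]
    by_cases h1 : A.drop k ∈ Hp R ∧ de (A.drop k) = up
    · rw [if_pos h1]
      by_cases h2 : (R : ℤ) ≤ 64 * ip (en (A.drop k)) up ∧ 4 * hn (en (A.drop k)) ≤ 3 * R
      · rw [if_pos h2, if_pos ⟨h1, h2⟩]
      · rw [if_neg h2, if_neg fun h => h2 h.2]
    · rw [if_neg h1, if_neg fun h => h1 h.1]
  refine ⟨?_, ?_⟩
  · have hN1 : ∑ j ∈ range ((A ++ Y).length + 1), cjV L Ch (A ++ Y) j *
        (if (A ++ Y).drop j ∈ Hp R ∧ de ((A ++ Y).drop j) = up then chi R ((A ++ Y).drop j) else 0) =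
        ∑ k ∈ range (A.length + 1), f k := by
      rw [← hsum, hf]
    have hN2 : ∑ j ∈ range (A.length + 1), cjV L Ch A j *
        (if A.drop j ∈ Hp R ∧ de (A.drop j) = up then chi R (A.drop j) else 0) = ∑ k ∈ range (A.length + 1), g k := by
      rw [hg]
    rw [hN1, hN2, ← sum_sub_distrib, mul_sum]
    refine (abs_sum_le_sum_abs _ _).trans (sum_le_sum fun k hk => ?_)
    rw [hNI k]
    exact hterm k hk
  · have h1 : ∀ k ∈ range (A.length + 1), cjV L Ch A k * (if A.drop k ∈ Hp R ∧ de (A.drop k) = up then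
        (if (R : ℤ) ≤ 64 * ip (en (A.drop k)) up ∧ 4 * hn (en (A.drop k)) ≤ 3 * R then (1 : ℝ) else 0) else 0) ≤
        cjV L Ch (A ++ Y) k * (if (A ++ Y).drop k ∈ Hp R ∧ de ((A ++ Y).drop k) = up then 1 else 0) := by
      intro k hk
      rw [mem_range] at hk
      have hk' : k ≤ A.length := by omega
      rw [hNI k, cjV_app L Ch A Y hk', hdk k hk']
      refine mul_le_mul_of_nonneg_left ?_ (cjV_nonneg L Ch A k)
      by_cases hm : Mc k
      · rw [if_pos hm, if_pos (hext k hm)]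
      · rw [if_neg hm]
        split_ifs <;> norm_num
    refine (sum_le_sum h1).trans (sum_le_sum_of_subset_of_nonneg (fun k hk => ?_) fun k _ _ => ?_)
    · rw [mem_range] at hk ⊢
      rw [List.length_append]
      omega
    · refine mul_nonneg (cjV_nonneg L Ch _ k) ?_
      split_ifs <;> norm_num

namespace OV

lemma NQ0_nonneg (l L : ℕ) (Ch : Set (List Bool)) (t : List Bool) : 0 ≤ NQ0 l L Ch t := Nat.cast_nonneg _

lemma NI0_nonneg (l L : ℕ) (Ch : Set (List Bool)) (t : List Bool) : 0 ≤ NI0 l L Ch t := Nat.cast_nonneg _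

lemma N0_nonneg (l L : ℕ) (Ch : Set (List Bool)) (t : List Bool) : 0 ≤ N0 l L Ch t := by
  classical
  unfold N0 NW
  exact sum_nonneg fun p _ => mul_nonneg (mul_nonneg (chi_nonneg _ _) zero_le_one) zero_le_one

lemma N0_le_NQ0 (l L : ℕ) (Ch : Set (List Bool)) (t : List Bool) : N0 l L Ch t ≤ NQ0 l L Ch t := by
  classical
  unfold N0 NW NQ0
  have h := sum_le_card_nsmul (((range (t.length + 1)) ×ˢ (range (t.length + 1))).filter (fun p => Dl l L Ch t p.1 p.2))
    (fun p => chi (2 ^ l) (t.drop p.2) * (fun _ => (1 : ℝ)) (t.drop p.2) * (fun _ => (1 : ℝ)) (t.take p.1)) 1 fun p _ => by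
      show chi (2 ^ l) (t.drop p.2) * 1 * 1 ≤ 1
      rw [mul_one, mul_one]
      exact chi_le _ _
  rwa [nsmul_eq_mul, mul_one] at h

/-- the scales -/
lemma scale {L l s : ℕ} (hs : 8 ≤ s) (h : L + s ≤ l) : 128 * (2 * 2 ^ L) ≤ 2 ^ l := by
  have h1 : 2 ^ (L + 8) ≤ 2 ^ l := Nat.pow_le_pow_right (by norm_num) (by omega)
  have h2 : 2 ^ (L + 8) = 128 * (2 * 2 ^ L) := by
    rw [pow_add]
    ring
  omega

/-- one level above -/
lemma osc_one {l L L' s : ℕ} {Ch : Set (List Bool)} (hs : 8 ≤ s) (hl : L' + s ≤ l) {A Y : List Bool} (hA : A ++ Y ∈ SA)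
    (hY : ∀ i', i' ≤ Y.length → hn (vx oo up Y i') < 2 * 2 ^ L') (hcl : de Y = up) :
    |N0 l L Ch (A ++ Y) - N0 l L Ch A| ≤ 64 / 2 ^ s * NI0 l L Ch A ∧ NI0 l L Ch A ≤ NQ0 l L Ch (A ++ Y) := by
  obtain ⟨o1, o2⟩ := oscS0 l L (2 * 2 ^ L') Ch A Y (scale hs hl) (by
    have := Nat.one_le_two_pow (n := L')
    omega) hA (by
    intro i' hi'
    push_cast
    exact hY i' hi') hcl
  refine ⟨o1.trans ?_, o2⟩
  refine mul_le_mul_of_nonneg_right ?_ (NI0_nonneg l L Ch A)
  have h1 : (2 : ℝ) ^ (L' + s) ≤ 2 ^ l := pow_le_pow_right₀ (by norm_num) hl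
  rw [div_le_div_iff₀ (by positivity) (by positivity)]
  push_cast
  calc 32 * (2 * (2 : ℝ) ^ L') * 2 ^ s = 64 * 2 ^ (L' + s) := by
        rw [pow_add]
        ring
    _ ≤ 64 * 2 ^ l := mul_le_mul_of_nonneg_left h1 (by norm_num)

end OV

/-- **P3, one level above**: ends of class 0 of size less than 2 ^ (L' + 1), L' + s ≤ l -/
theorem oscV {l L L' s : ℕ} (Ch : Set (List Bool)) (hs : 8 ≤ s) (hl : L' + s ≤ l) {A Y : List Bool} (hA : A ++ Y ∈ SA)
    (hcl : de Y = up) (hY : ∀ i, i ≤ Y.length → hn (vx oo up Y i) < 2 ^ (L' + 1)) :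
    |N0 l L Ch (A ++ Y) - N0 l L Ch A| ≤ 64 / 2 ^ s * NQ0 l L Ch (A ++ Y) := by
  obtain ⟨h1, h2⟩ := OV.osc_one (L := L) (Ch := Ch) hs hl hA (fun i hi => by
    have h3 := hY i hi
    rw [pow_succ, mul_comm] at h3
    exact h3) hcl
  exact h1.trans (mul_le_mul_of_nonneg_left h2 (by positivity))

open OV TW OG

/-- **the cutoff of the levels above hardly sees a small end of the class 0** -/
theorem oscG0 {lv Lv : ℕ → ℕ} {s M : ℕ} {c : ℝ} {Ch : ℕ → Set (List Bool)} {Dn : ℕ → ℝ} {i : ℕ}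
    (hL : ∀ j, i < j → j < M → Lv i + s ≤ lv j) (hc : 0 < c) (hs : 8 ≤ s) (hD : ∀ j, 0 ≤ Dn j) {A Y : List Bool}
    (hA : A ++ Y ∈ SA) (hcl : de Y = up) (hY : ∀ i', i' ≤ Y.length → hn (vx oo up Y i') < 2 ^ (Lv i + 1)) :
    |gc c (Ta (fun j => N0 (lv j) (Lv j) (Ch j) (A ++ Y) / Dn j) M (i + 1)) -
        gc c (Ta (fun j => N0 (lv j) (Lv j) (Ch j) A / Dn j) M (i + 1))| ≤
      64 / (c * 2 ^ s) * ∑ j ∈ Ico (i + 1) M, NQ0 (lv j) (Lv j) (Ch j) (A ++ Y) / Dn j := by
  refine (gc_dist hc _ _).trans ?_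
  unfold Ta
  rw [← sum_sub_distrib]
  have e0 : ∀ x : ℝ, 64 / (c * 2 ^ s) * x = 64 / 2 ^ s * x / c := fun x => by field_simp
  rw [e0]
  refine div_le_div_of_nonneg_right ?_ hc.le
  rw [mul_sum]
  refine (abs_sum_le_sum_abs _ _).trans (sum_le_sum fun j hj => ?_)
  rw [mem_Ico] at hj
  rw [← sub_div, abs_div, abs_of_nonneg (hD j), ← mul_div_assoc]
  exact div_le_div_of_nonneg_right (oscV (Ch j) hs (hL j (by omega) hj.2) hA hcl hY) (hD j)

end PWN

end HexObs
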