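import Pool.Agent.BAR.Win

/-!
PW: power series with nonnegative coefficients, coefficientwise order (helper15).

* `Nn`, `Lec`, `ps` : nonnegative coefficients, coefficientwise order, partial sums; `ps_mul`;
* `marks` : `V (1 - G) = 1`, `G H ≤ H` give `V H ≤ M H + G ^ M V H`;
* `coeff_expand_le` : the coefficients of `P (z ^ 2) Q (z)`;
* `marks_coeff` : a renewal sequence on the even numbers against a sequence `h` with `f * h ≤ h`:
  `(u * h) n ≤ M h n + (1 - Fb n) ^ M (n + 1) (h 0 + .. + h n)`.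
-/

set_option autoImplicit false

namespace HexObs

namespace PW

open Finset PowerSeries

/-- all coefficients are nonnegative -/
def Nn (P : PowerSeries ℝ) : Prop := ∀ n, 0 ≤ coeff n P

/-- coefficientwise order -/
def Lec (P Q : PowerSeries ℝ) : Prop := ∀ n, coeff n P ≤ coeff n Q

/-- partial sums of the coefficients -/
noncomputable def ps (P : PowerSeries ℝ) (n : ℕ) : ℝ := ∑ k ∈ range (n + 1), coeff k P

variable {P Q R : PowerSeries ℝ}

lemma sum_le_inj {ι κ : Type*} [DecidableEq κ] {s : Finset ι} {t : Finset κ} (g : ι → κ)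
    (hm : ∀ a ∈ s, g a ∈ t) (hi : Set.InjOn g s) {x : ι → ℝ} {y : κ → ℝ}
    (hxy : ∀ a ∈ s, x a ≤ y (g a)) (hy : ∀ b ∈ t, 0 ≤ y b) : ∑ a ∈ s, x a ≤ ∑ b ∈ t, y b := by
  calc ∑ a ∈ s, x a ≤ ∑ a ∈ s, y (g a) := sum_le_sum hxy
    _ = ∑ b ∈ s.image g, y b := (sum_image hi).symm
    _ ≤ ∑ b ∈ t, y b := sum_le_sum_of_subset_of_nonneg (image_subset_iff.2 hm) fun b hb _ => hy b hb

lemma Nn.mul (hP : Nn P) (hQ : Nn Q) : Nn (P * Q) := fun n => by
  rw [coeff_mul]
  exact sum_nonneg fun p _ => mul_nonneg (hP _) (hQ _)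

lemma Nn.one : Nn 1 := fun n => by
  rw [coeff_one]
  split_ifs <;> norm_num

lemma Nn.pow (hP : Nn P) (m : ℕ) : Nn (P ^ m) := by
  induction m with
  | zero =>
    rw [pow_zero]
    exact Nn.one
  | succ m ih =>
    rw [pow_succ]
    exact ih.mul hP

lemma Nn.mk {a : ℕ → ℝ} (ha : ∀ n, 0 ≤ a n) : Nn (PowerSeries.mk a) := fun n => by
  rw [coeff_mk]
  exact ha n

lemma Nn.expand (hP : Nn P) : Nn (PowerSeries.expand 2 two_ne_zero P) := fun n => by
  rw [coeff_expand]
  split_ifs
  · exact hP _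
  · exact le_rfl

lemma Lec.refl (P : PowerSeries ℝ) : Lec P P := fun _ => le_rfl

lemma Lec.trans (h : Lec P Q) (h' : Lec Q R) : Lec P R := fun n => (h n).trans (h' n)

lemma Lec.mul_left (h : Lec P Q) (hR : Nn R) : Lec (R * P) (R * Q) := fun n => by
  rw [coeff_mul, coeff_mul]
  exact sum_le_sum fun p _ => mul_le_mul_of_nonneg_left (h _) (hR _)

lemma ps_nonneg (hP : Nn P) (n : ℕ) : 0 ≤ ps P n := sum_nonneg fun k _ => hP k

lemma coeff_le_ps (hP : Nn P) {k n : ℕ} (h : k ≤ n) : coeff k P ≤ ps P n :=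
  single_le_sum (f := fun k => coeff k P) (fun k _ => hP k) (mem_range.2 (by omega))

/-- the partial sums are submultiplicative -/
lemma ps_mul (hP : Nn P) (hQ : Nn Q) (n : ℕ) : ps (P * Q) n ≤ ps P n * ps Q n := by
  unfold ps
  simp only [coeff_mul]
  rw [sum_mul_sum, ← sum_product', sum_sigma']
  refine sum_le_inj (fun x : (_ : ℕ) × ℕ × ℕ => x.2) ?_ ?_ ?_ ?_
  · rintro ⟨k, p⟩ h
    rw [mem_sigma, mem_range, Finset.HasAntidiagonal.mem_antidiagonal] at h
    rw [mem_product, mem_range, mem_range]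
    simp only at h ⊢
    omega
  · rintro ⟨k, p⟩ h ⟨k', p'⟩ h' he
    rw [mem_coe, mem_sigma, mem_range, Finset.HasAntidiagonal.mem_antidiagonal] at h h'
    simp only at h h' he
    subst he
    have : k = k' := by omega
    subst this
    rfl
  · rintro ⟨k, p⟩ _
    exact le_rfl
  · intro p _
    exact mul_nonneg (hP _) (hQ _)

lemma ps_pow (hP : Nn P) (m n : ℕ) : ps (P ^ m) n ≤ ps P n ^ m := by
  induction m with
  | zero =>
    rw [pow_zero, pow_zero]
    unfold ps
    rw [sum_range_succ', coeff_zero_one]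
    refine le_of_eq ?_
    rw [sum_eq_zero fun k _ => ?_, zero_add]
    rw [coeff_one, if_neg (by omega)]
  | succ m ih =>
    rw [pow_succ, pow_succ]
    exact (ps_mul (hP.pow m) hP n).trans (mul_le_mul_of_nonneg_right ih (ps_nonneg hP n))

/-- the coefficients of `P (z ^ 2)` -/
lemma ps_expand (hP : Nn P) (n : ℕ) : ps (PowerSeries.expand 2 two_ne_zero P) n ≤ ps P n := by
  unfold ps
  have h1 : ∑ k ∈ range (n + 1), coeff k (PowerSeries.expand 2 two_ne_zero P) =
      ∑ k ∈ (range (n + 1)).filter (fun k => 2 ∣ k), coeff (k / 2) P := by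
    rw [sum_filter]
    exact sum_congr rfl fun k _ => coeff_expand 2 two_ne_zero P
  rw [h1]
  refine sum_le_inj (fun k => k / 2) ?_ ?_ ?_ ?_
  · intro k hk
    rw [mem_filter, mem_range] at hk
    rw [mem_range]
    omega
  · intro k hk k' hk' he
    rw [mem_coe, mem_filter] at hk hk'
    simp only at he
    omega
  · intro k _
    exact le_rfl
  · intro k _
    exact hP k

/-- **marks**: a renewal against a series which absorbs one step -/
lemma marks {V G H : PowerSeries ℝ} (hG : Nn G) (hVG : V * (1 - G) = 1)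
    (hGH : Lec (G * H) H) (M : ℕ) (n : ℕ) : coeff n (V * H) ≤ M * coeff n H + coeff n (G ^ M * (V * H)) := by
  have h1 : ∀ m, Lec (G ^ m * H) H := by
    intro m
    induction m with
    | zero =>
      rw [pow_zero, one_mul]
      exact Lec.refl _
    | succ m ih =>
      rw [pow_succ, mul_assoc]
      exact (hGH.mul_left (hG.pow m)).trans ih
  have h2 : V * H = (∑ m ∈ range M, G ^ m) * H + G ^ M * (V * H) := by
    have h3 : (∑ m ∈ range M, G ^ m) * (1 - G) = 1 - G ^ M := by
      have := geom_sum_mul G M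
      linear_combination -this
    linear_combination ((∑ m ∈ range M, G ^ m) * H) * hVG - (V * H) * h3
  rw [h2, map_add, sum_mul, map_sum]
  have h3 : ∑ m ∈ range M, coeff n (G ^ m * H) ≤ M * coeff n H := by
    calc ∑ m ∈ range M, coeff n (G ^ m * H) ≤ ∑ _m ∈ range M, coeff n H := sum_le_sum fun m _ => h1 m n
      _ = M * coeff n H := by rw [sum_const, card_range, nsmul_eq_mul]
  have h4 : coeff n (G ^ M * ((∑ m ∈ range M, G ^ m * H) + G ^ M * (V * H))) = coeff n (G ^ M * (V * H)) := by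
    rw [← sum_mul, ← h2]
  linarith

variable {f u h : ℕ → ℝ}

lemma ren_ps (hr : NUX.Ren f u) : PowerSeries.mk u * (1 - PowerSeries.mk f) = 1 := by
  ext n
  rw [mul_sub, mul_one, map_sub, coeff_mk, coeff_mul]
  simp only [coeff_mk]
  rw [Finset.Nat.sum_antidiagonal_eq_sum_range_succ (fun i j => u i * f j), coeff_one]
  rcases n with _ | n
  · rw [if_pos rfl, sum_range_one, Nat.sub_self, hr.f0, hr.u0]
    norm_num
  · rw [if_neg (by omega), sum_range_succ, Nat.sub_self, hr.f0, hr.urec]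
    ring

/-- the coefficients of `A (z ^ 2) B (z)` -/
lemma coeff_expand_mk (a b : ℕ → ℝ) (n : ℕ) :
    coeff n (PowerSeries.expand 2 two_ne_zero (PowerSeries.mk a) * PowerSeries.mk b) =
      ∑ l ∈ range (n / 2 + 1), a l * b (n - 2 * l) := by
  rw [coeff_mul, Finset.Nat.sum_antidiagonal_eq_sum_range_succ_mk]
  simp only [coeff_mk, coeff_expand]
  have h1 : ∑ k ∈ range n.succ, (if 2 ∣ k then a (k / 2) else 0) * b (n - k) =
      ∑ k ∈ (range n.succ).filter (fun k => 2 ∣ k), a (k / 2) * b (n - k) := by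
    rw [sum_filter]
    refine sum_congr rfl fun k _ => ?_
    split_ifs
    · rfl
    · rw [zero_mul]
  rw [h1]
  refine sum_bij' (fun k _ => k / 2) (fun l _ => 2 * l) ?_ ?_ ?_ ?_ ?_
  · intro k hk
    rw [mem_filter, mem_range] at hk
    rw [mem_range]
    omega
  · intro l hl
    rw [mem_range] at hl
    rw [mem_filter, mem_range]
    exact ⟨by omega, Dvd.intro l rfl⟩
  · intro k hk
    rw [mem_filter] at hk
    omega
  · intro l _
    show 2 * l / 2 = l
    omega
  · intro k hk
    rw [mem_filter] at hk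
    rw [show 2 * (k / 2) = k by omega]

/-- **marks, in coefficients** -/
theorem marks_coeff (hr : NUX.Ren f u) (hh : ∀ n, 0 ≤ h n)
    (hF : ∀ n, ∑ l ∈ range (n / 2 + 1), f l * h (n - 2 * l) ≤ h n) (M n : ℕ) :
    ∑ l ∈ range (n / 2 + 1), u l * h (n - 2 * l) ≤
      M * h n + (1 - NUX.Fb f n) ^ M * ((n + 1) * ∑ k ∈ range (n + 1), h k) := by
  have nF : Nn (PowerSeries.mk f) := Nn.mk hr.fnn
  have nU : Nn (PowerSeries.mk u) := Nn.mk (NUX.u_nonneg hr)
  have nH : Nn (PowerSeries.mk h) := Nn.mk hh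
  have h1 : PowerSeries.expand 2 two_ne_zero (PowerSeries.mk u) *
      (1 - PowerSeries.expand 2 two_ne_zero (PowerSeries.mk f)) = 1 := by
    rw [← map_one (PowerSeries.expand 2 two_ne_zero), ← map_sub, ← map_mul, ren_ps hr]
  have h2 : Lec (PowerSeries.expand 2 two_ne_zero (PowerSeries.mk f) * PowerSeries.mk h) (PowerSeries.mk h) := by
    intro n
    rw [coeff_expand_mk, coeff_mk]
    exact hF n
  have h3 := marks nF.expand h1 h2 M n
  rw [coeff_expand_mk, coeff_mk] at h3
  refine h3.trans (add_le_add le_rfl ?_)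
  refine (coeff_le_ps ((nF.expand.pow M).mul (nU.expand.mul nH)) le_rfl).trans ?_
  refine (ps_mul (nF.expand.pow M) (nU.expand.mul nH) n).trans ?_
  have h4 : ps (PowerSeries.expand 2 two_ne_zero (PowerSeries.mk f) ^ M) n ≤ (1 - NUX.Fb f n) ^ M := by
    refine (ps_pow nF.expand M n).trans ?_
    refine pow_le_pow_left₀ (ps_nonneg nF.expand n) ((ps_expand nF n).trans (le_of_eq ?_)) M
    unfold ps NUX.Fb
    simp only [coeff_mk]
    ring
  have h5 : ps (PowerSeries.expand 2 two_ne_zero (PowerSeries.mk u) * PowerSeries.mk h) n ≤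
      (n + 1) * ∑ k ∈ range (n + 1), h k := by
    refine (ps_mul nU.expand nH n).trans ?_
    refine mul_le_mul ((ps_expand nU n).trans ?_) (le_of_eq ?_) (ps_nonneg nH n) (by positivity)
    · unfold ps
      calc ∑ k ∈ range (n + 1), coeff k (PowerSeries.mk u) ≤ ∑ _k ∈ range (n + 1), (1 : ℝ) :=
            sum_le_sum fun k _ => by
              rw [coeff_mk]
              exact NUX.u_le_one hr k
        _ = n + 1 := by rw [sum_const, card_range, nsmul_eq_mul, mul_one]; push_cast; ring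
    · unfold ps
      simp only [coeff_mk]
  exact mul_le_mul h4 h5 (ps_nonneg (nU.expand.mul nH) n) (pow_nonneg (by
    have := NUX.Fb_le_one hr n
    linarith) M)

end PW

end HexObs
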