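import Pool.Agent.SLW.TeleW

/-!
PW (winding of the walk): the abstract part of the assembly (helper45): mixtures over the levels and the choice of the
levels.
-/

set_option autoImplicit false

namespace HexObs

namespace PWN

open Finset SLW.TW

namespace RM

/-- **the choice of the levels**: if the targets are mixtures of the values of any `M` levels, then `M` of the levels have all
their values near the targets -/
theorem pigeon {κ : Type} [Fintype κ] {M N : ℕ} (ν : κ → ℕ → ℝ) (E : κ → ℝ) (hE : ∀ k, |E k| ≤ 1) {ε : ℝ} (hε : 0 < ε)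
    (hε2 : ε ≤ 1 / 4) (hM : 1 ≤ M) (hN : (2 * Fintype.card κ + 1) * M ≤ N)
    (h : ∀ T : Finset ℕ, T ⊆ range N → T.card = M → ∃ w : ℕ → ℝ, (∀ i ∈ T, 0 ≤ w i) ∧ |∑ i ∈ T, w i - 1| ≤ ε ∧
      ∀ k, |∑ i ∈ T, w i * ν k i - E k| ≤ ε) :
    ∃ T : Finset ℕ, T ⊆ range N ∧ T.card = M ∧ ∀ i ∈ T, ∀ k, |ν k i - E k| ≤ 4 * ε := by
  classical
  -- the bad levels of one functional and one sign
  obtain ⟨Bd, hBd⟩ : ∃ Bd : κ × Bool → Finset ℕ, Bd = fun kb => (range N).filter fun i =>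
      4 * ε < (if kb.2 then (1 : ℝ) else -1) * (ν kb.1 i - E kb.1) := ⟨_, rfl⟩
  have hcard : ∀ kb, (Bd kb).card < M := by
    intro kb
    by_contra hcon
    rw [not_lt] at hcon
    obtain ⟨T, hT1, hT2⟩ := exists_subset_card_eq hcon
    have hTN : T ⊆ range N := hT1.trans (by rw [hBd]; exact filter_subset _ _)
    obtain ⟨w, hw0, hw1, hw2⟩ := h T hTN hT2
    obtain ⟨σ, hσ⟩ : ∃ σ : ℝ, σ = (if kb.2 then (1 : ℝ) else -1) := ⟨_, rfl⟩
    have hσ1 : |σ| = 1 := by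
      rw [hσ]
      split_ifs
      · exact abs_one
      · rw [abs_neg, abs_one]
    have h1 : ∀ i ∈ T, 4 * ε * w i ≤ w i * (σ * (ν kb.1 i - E kb.1)) := by
      intro i hi
      have h2 := hT1 hi
      rw [hBd, mem_filter] at h2
      have h3 := h2.2
      simp only [← hσ] at h3
      have h4 := hw0 i hi
      nlinarith
    have h2 : 4 * ε * ∑ i ∈ T, w i ≤ σ * (∑ i ∈ T, w i * ν kb.1 i - E kb.1 * ∑ i ∈ T, w i) := by
      rw [mul_sum]
      refine (sum_le_sum h1).trans (le_of_eq ?_)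
      rw [mul_sum, ← sum_sub_distrib, mul_sum]
      exact sum_congr rfl fun i _ => by ring
    have h3 : σ * (∑ i ∈ T, w i * ν kb.1 i - E kb.1 * ∑ i ∈ T, w i) ≤ 2 * ε := by
      have e1 : σ * (∑ i ∈ T, w i * ν kb.1 i - E kb.1 * ∑ i ∈ T, w i) =
          σ * (∑ i ∈ T, w i * ν kb.1 i - E kb.1) - σ * (E kb.1 * (∑ i ∈ T, w i - 1)) := by ring
      have h4 : |σ * (∑ i ∈ T, w i * ν kb.1 i - E kb.1)| ≤ ε := by
        rw [abs_mul, hσ1, one_mul]
        exact hw2 kb.1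
      have h5 : |σ * (E kb.1 * (∑ i ∈ T, w i - 1))| ≤ ε := by
        rw [abs_mul, hσ1, one_mul, abs_mul]
        have h6 := hE kb.1
        have h7 := abs_nonneg (∑ i ∈ T, w i - 1)
        nlinarith [abs_nonneg (E kb.1)]
      have h6 := (abs_le.1 h4).2
      have h7 := (abs_le.1 h5).1
      rw [e1]
      linarith
    have h4 := (abs_le.1 hw1).1
    nlinarith
  -- the good levels
  obtain ⟨G, hG⟩ : ∃ G : Finset ℕ, G = (range N) \ (univ.biUnion Bd) := ⟨_, rfl⟩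
  have hGc : M ≤ G.card := by
    have h1 : (univ.biUnion Bd).card ≤ ∑ kb : κ × Bool, (Bd kb).card := card_biUnion_le
    have h2 : ∑ kb : κ × Bool, (Bd kb).card ≤ ∑ _kb : κ × Bool, (M - 1) := sum_le_sum fun kb _ => by
      have := hcard kb
      omega
    rw [sum_const, card_univ, Fintype.card_prod, Fintype.card_bool, smul_eq_mul] at h2
    have h3 : N - (univ.biUnion Bd).card ≤ G.card := by
      rw [hG]
      have := le_card_sdiff (univ.biUnion Bd) (range N)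
      rwa [card_range] at this
    have h4 : Fintype.card κ * 2 * (M - 1) ≤ Fintype.card κ * 2 * M := Nat.mul_le_mul_left _ (Nat.sub_le _ _)
    have h5 : (2 * Fintype.card κ + 1) * M = Fintype.card κ * 2 * M + M := by ring
    omega
  obtain ⟨T, hT1, hT2⟩ := exists_subset_card_eq hGc
  refine ⟨T, hT1.trans (by rw [hG]; exact sdiff_subset), hT2, fun i hi k => ?_⟩
  have h1 := hT1 hi
  rw [hG, mem_sdiff, mem_biUnion] at h1
  have h2 : ∀ b : Bool, i ∉ Bd (k, b) := fun b hb => h1.2 ⟨(k, b), mem_univ _, hb⟩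
  have h3 := h2 true
  have h4 := h2 false
  rw [hBd, mem_filter, not_and] at h3 h4
  have h5 := h3 h1.1
  have h6 := h4 h1.1
  simp only [if_true, one_mul, not_lt] at h5
  simp only [Bool.false_eq_true, if_false, not_lt] at h6
  rw [abs_le]
  constructor <;> linarith

/-- the increasing enumeration of a finite set -/
lemma enum {M : ℕ} (T : Finset ℕ) (hT : T.card = M) : ∃ e : ℕ → ℕ, (∀ j, j < M → e j ∈ T) ∧
    (∀ i j, i < j → j < M → e i < e j) ∧ ∀ f : ℕ → ℝ, ∑ i ∈ T, f i = ∑ j ∈ range M, f (e j) := by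
  classical
  obtain ⟨e, he⟩ : ∃ e : ℕ → ℕ, e = fun j => if h : j < M then T.orderEmbOfFin hT ⟨j, h⟩ else 0 := ⟨_, rfl⟩
  have he1 : ∀ j (h : j < M), e j = T.orderEmbOfFin hT ⟨j, h⟩ := fun j h => by rw [he]; simp only [h, dite_true]
  refine ⟨e, fun j hj => ?_, fun i j hij hj => ?_, fun f => ?_⟩
  · rw [he1 j hj]
    exact T.orderEmbOfFin_mem hT _
  · rw [he1 j hj, he1 i (hij.trans hj)]
    exact (T.orderEmbOfFin hT).strictMono (by exact_mod_cast hij)
  · rw [← Fin.sum_univ_eq_sum_range (fun j => f (e j)) M]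
    have e1 : ∑ i : Fin M, f (e i) = ∑ i : Fin M, f (T.orderEmbOfFin hT i) :=
      sum_congr rfl fun i _ => by rw [he1 i i.2]
    rw [e1]
    symm
    refine sum_bij (fun i _ => T.orderEmbOfFin hT i) (fun i _ => T.orderEmbOfFin_mem hT i)
      (fun i _ j _ h => (T.orderEmbOfFin hT).injective h) (fun b hb => ?_) fun i _ => rfl
    have h1 : b ∈ Set.range (T.orderEmbOfFin hT) := by
      rw [range_orderEmbOfFin]
      exact hb
    obtain ⟨i, hi⟩ := h1
    exact ⟨i, mem_univ _, hi⟩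

/-- the choice of the levels, for increasing sequences of levels -/
theorem pigeon_e {κ : Type} [Fintype κ] {M N : ℕ} (ν : κ → ℕ → ℝ) (E : κ → ℝ) (hE : ∀ k, |E k| ≤ 1) {ε : ℝ} (hε : 0 < ε)
    (hε2 : ε ≤ 1 / 4) (hM : 1 ≤ M) (hN : (2 * Fintype.card κ + 1) * M ≤ N)
    (h : ∀ e : ℕ → ℕ, (∀ j, j < M → e j < N) → (∀ i j, i < j → j < M → e i < e j) → ∃ w : ℕ → ℝ,
      (∀ j, j < M → 0 ≤ w j) ∧ |∑ j ∈ range M, w j - 1| ≤ ε ∧ ∀ k, |∑ j ∈ range M, w j * ν k (e j) - E k| ≤ ε) :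
    ∃ e : ℕ → ℕ, (∀ j, j < M → e j < N) ∧ (∀ i j, i < j → j < M → e i < e j) ∧
      ∀ j, j < M → ∀ k, |ν k (e j) - E k| ≤ 4 * ε := by
  classical
  obtain ⟨T, hT1, hT2, hT3⟩ := pigeon ν E hE hε hε2 hM hN (fun T hTN hTc => by
    obtain ⟨e, he1, he2, he3⟩ := enum T hTc
    obtain ⟨w, hw0, hw1, hw2⟩ := h e (fun j hj => mem_range.1 (hTN (he1 j hj))) he2
    obtain ⟨w', hw'⟩ : ∃ w' : ℕ → ℝ, ∀ j, j < M → w' (e j) = w j := by
      refine ⟨fun i => ∑ j ∈ (range M).filter (fun j => e j = i), w j, fun j hj => ?_⟩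
      have h1 : (range M).filter (fun j' => e j' = e j) = {j} := by
        ext j'
        rw [mem_filter, mem_singleton, mem_range]
        constructor
        · rintro ⟨h1, h2⟩
          rcases lt_trichotomy j' j with h3 | h3 | h3
          · have := he2 j' j h3 hj
            omega
          · exact h3
          · have := he2 j j' h3 h1
            omega
        · rintro rfl
          exact ⟨hj, rfl⟩
      show ∑ j' ∈ (range M).filter (fun j' => e j' = e j), w j' = w j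
      rw [h1, sum_singleton]
    have hmem : ∀ i ∈ T, ∃ j, j < M ∧ e j = i := by
      intro i hi
      by_contra hcon
      push Not at hcon
      have h1 := he3 (fun i' => if i' = i then 1 else 0)
      rw [sum_ite_eq' T i] at h1
      simp only [hi, if_true] at h1
      have h2 : ∑ j ∈ range M, (if e j = i then (1 : ℝ) else 0) = 0 :=
        sum_eq_zero fun j hj => by rw [if_neg (hcon j (mem_range.1 hj))]
      rw [h2] at h1
      exact one_ne_zero h1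
    refine ⟨w', fun i hi => ?_, ?_, fun k => ?_⟩
    · obtain ⟨j, hj, rfl⟩ := hmem i hi
      rw [hw' j hj]
      exact hw0 j hj
    · rw [he3 w', sum_congr rfl fun j hj => hw' j (mem_range.1 hj)]
      exact hw1
    · rw [he3 (fun i => w' i * ν k i), sum_congr rfl fun j hj => by rw [hw' j (mem_range.1 hj)]]
      exact hw2 k)
  obtain ⟨e, he1, he2, he3⟩ := enum T hT2
  exact ⟨e, fun j hj => mem_range.1 (hT1 (he1 j hj)), he2, fun j hj k => hT3 _ (he1 j hj) k⟩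

variable {Ω : Type*}

lemma diff_sum {c I y x : ℝ} {X Y ν κ : ℕ → ℝ} {M : ℕ} (hc : 0 < c) (hI : c ≤ I)
    (h1 : |x - ∑ l ∈ range M, I⁻¹ * X l| ≤ y) (hl : ∀ l, l < M → |X l - ν l * Y l| ≤ κ l) :
    |x - ∑ l ∈ range M, I⁻¹ * Y l * ν l| ≤ y + (∑ l ∈ range M, κ l) / c := by
  have hI0 : 0 < I := by linarith
  have e1 : x - ∑ l ∈ range M, I⁻¹ * Y l * ν l =
      (x - ∑ l ∈ range M, I⁻¹ * X l) + ∑ l ∈ range M, I⁻¹ * (X l - ν l * Y l) := by
    have e2 : ∑ l ∈ range M, I⁻¹ * (X l - ν l * Y l) =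
        ∑ l ∈ range M, I⁻¹ * X l - ∑ l ∈ range M, I⁻¹ * Y l * ν l := by
      rw [← sum_sub_distrib]
      exact sum_congr rfl fun l _ => by ring
    rw [e2]
    ring
  have h2 : |∑ l ∈ range M, I⁻¹ * (X l - ν l * Y l)| ≤ (∑ l ∈ range M, κ l) / c := by
    rw [div_eq_inv_mul, mul_sum]
    refine (abs_sum_le_sum_abs _ _).trans (sum_le_sum fun l hl' => ?_)
    rw [abs_mul, abs_of_pos (inv_pos.2 hI0)]
    have h3 := hl l (mem_range.1 hl')
    exact mul_le_mul (inv_anti₀ hc hI) h3 (abs_nonneg _) (inv_pos.2 hc).le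
  rw [e1]
  exact (abs_add_le _ _).trans (add_le_add h1 h2)

/-- **the mixture over the levels** -/
theorem mix {S : Finset Ω} {p q : Ω → ℝ} {a : ℕ → Ω → ℝ} {ν κ : ℕ → ℝ} {c B x : ℝ} {M : ℕ} (hp : ∀ t, 0 ≤ p t)
    (ha : ∀ l t, 0 ≤ a l t) (hc : 0 < c) (hM : 1 ≤ M) (hq : ∀ t, |q t| ≤ 1)
    (h2 : ∀ l, l < M → Ex S p (fun t => a l t ^ 2) ≤ B / M ^ 2)
    (hS : Ex S p (fun t => by classical exact if Ta (fun j => a j t) M 0 < 2 * c then 1 else 0) ≤ x)
    (hl : ∀ l, l < M → |Ex S p (fun t => q t * al c a M l t) - ν l * Ex S p (al c a M l)| ≤ κ l) :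
    |Ex S p q - ∑ l ∈ range M, (Gc c (2 * c))⁻¹ * Ex S p (al c a M l) * ν l| ≤
      x + B / (c ^ 2 * M) + (∑ l ∈ range M, κ l) / c ∧
    |Ex S p (fun _ => 1) - ∑ l ∈ range M, (Gc c (2 * c))⁻¹ * Ex S p (al c a M l)| ≤ x + B / (c ^ 2 * M) := by
  have hI := Gc_I_ge hc
  have hI0 : 0 < Gc c (2 * c) := by linarith
  have h1 := Ex_Rn (F := q) hp ha hc hM hq h2 hS
  have h1' := Ex_Rn (F := fun _ => 1) hp ha hc hM (fun _ => by rw [abs_one]) h2 hS
  refine ⟨?_, ?_⟩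
  · obtain ⟨X, hX⟩ : ∃ X : ℕ → ℝ, X = fun l => Ex S p (fun t => q t * al c a M l t) := ⟨_, rfl⟩
    obtain ⟨Y, hY⟩ : ∃ Y : ℕ → ℝ, Y = fun l => Ex S p (al c a M l) := ⟨_, rfl⟩
    have hX' : ∀ l, Ex S p (fun t => q t * al c a M l t) = X l := fun l => by rw [hX]
    have hY' : ∀ l, Ex S p (al c a M l) = Y l := fun l => by rw [hY]
    simp only [hX', hY'] at h1 hl ⊢
    exact diff_sum hc hI h1 hl
  · refine le_trans (le_of_eq ?_) h1'
    congr 1
    congr 1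
    refine sum_congr rfl fun l _ => ?_
    congr 1
    unfold Ex
    exact sum_congr rfl fun t _ => by ring

/-- **the join**: all values near one number -/
theorem join {S : Finset Ω} {p F q : Ω → ℝ} {a : ℕ → Ω → ℝ} {ν κ : ℕ → ℝ} {c B x E η m0 : ℝ} {M : ℕ} (hp : ∀ t, 0 ≤ p t)
    (ha : ∀ l t, 0 ≤ a l t) (hc : 0 < c) (hM : 1 ≤ M) (hF : ∀ t, |F t| ≤ 1) (hq : ∀ t, |q t| ≤ 1) (hE : |E| ≤ 1)
    (hη : 0 ≤ η) (hν : ∀ l, l < M → |ν l - E| ≤ η) (hm : ∑ t ∈ S, p t ≤ m0)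
    (h2 : ∀ l, l < M → Ex S p (fun t => a l t ^ 2) ≤ B / M ^ 2)
    (hS : Ex S p (fun t => by classical exact if Ta (fun j => a j t) M 0 < 2 * c then 1 else 0) ≤ x)
    (hl : ∀ l, l < M → |Ex S p (fun t => F t * q t * al c a M l t) - ν l * Ex S p (fun t => F t * al c a M l t)| ≤ κ l) :
    |Ex S p (fun t => F t * q t) - E * Ex S p F| ≤
      2 * (x + B / (c ^ 2 * M)) + (∑ l ∈ range M, κ l) / c + η * (m0 + (x + B / (c ^ 2 * M))) := by
  have hI := Gc_I_ge hc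
  have hI0 : 0 < Gc c (2 * c) := by linarith
  have h1 := Ex_Rn (F := fun t => F t * q t) hp ha hc hM (fun t => by
    rw [abs_mul]
    nlinarith [hF t, hq t, abs_nonneg (F t), abs_nonneg (q t)]) h2 hS
  have h3 := Ex_Rn (F := F) hp ha hc hM hF h2 hS
  have h1' := Ex_Rn (F := fun _ => 1) hp ha hc hM (fun _ => by rw [abs_one]) h2 hS
  obtain ⟨y, hy⟩ : ∃ y, y = x + B / (c ^ 2 * M) := ⟨_, rfl⟩
  rw [← hy] at h1 h3 h1' ⊢
  obtain ⟨X, hX⟩ : ∃ X : ℕ → ℝ, X = fun l => Ex S p (fun t => F t * q t * al c a M l t) := ⟨_, rfl⟩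
  obtain ⟨Y, hY⟩ : ∃ Y : ℕ → ℝ, Y = fun l => Ex S p (fun t => F t * al c a M l t) := ⟨_, rfl⟩
  obtain ⟨Z, hZ⟩ : ∃ Z : ℕ → ℝ, Z = fun l => Ex S p (fun t => 1 * al c a M l t) := ⟨_, rfl⟩
  have hX' : ∀ l, Ex S p (fun t => F t * q t * al c a M l t) = X l := fun l => by rw [hX]
  have hY' : ∀ l, Ex S p (fun t => F t * al c a M l t) = Y l := fun l => by rw [hY]
  have hZ' : ∀ l, Ex S p (fun t => 1 * al c a M l t) = Z l := fun l => by rw [hZ]
  have hYZ : ∀ l, |Y l| ≤ Z l := by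
    intro l
    rw [← hY', ← hZ']
    refine (Ex_abs hp).trans (Ex_mono hp fun t _ => ?_)
    rw [abs_mul, abs_of_nonneg (al_nonneg ha M l t)]
    exact mul_le_mul_of_nonneg_right (hF t) (al_nonneg ha M l t)
  have hm1 : Ex S p (fun _ => 1) ≤ m0 := by
    refine le_trans (le_of_eq ?_) hm
    unfold Ex
    exact sum_congr rfl fun t _ => mul_one _
  simp only [hX', hY', hZ'] at h1 h3 h1' hl
  have h4 := diff_sum hc hI h1 hl
  have h5 : |∑ l ∈ range M, (Gc c (2 * c))⁻¹ * Y l * ν l - E * ∑ l ∈ range M, (Gc c (2 * c))⁻¹ * Y l| ≤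
      η * (m0 + y) := by
    have e1 : ∑ l ∈ range M, (Gc c (2 * c))⁻¹ * Y l * ν l - E * ∑ l ∈ range M, (Gc c (2 * c))⁻¹ * Y l =
        ∑ l ∈ range M, (Gc c (2 * c))⁻¹ * Y l * (ν l - E) := by
      rw [mul_sum, ← sum_sub_distrib]
      exact sum_congr rfl fun l _ => by ring
    have h6 : ∑ l ∈ range M, (Gc c (2 * c))⁻¹ * Z l ≤ m0 + y := by
      have := (abs_le.1 h1').1
      linarith
    rw [e1]
    refine (abs_sum_le_sum_abs _ _).trans (le_trans (sum_le_sum fun l hl' => ?_) (?_ :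
      ∑ l ∈ range M, η * ((Gc c (2 * c))⁻¹ * Z l) ≤ _))
    · rw [abs_mul, abs_mul, abs_of_pos (inv_pos.2 hI0)]
      have h7 := hν l (mem_range.1 hl')
      have h8 := hYZ l
      have h9 : 0 ≤ (Gc c (2 * c))⁻¹ := (inv_pos.2 hI0).le
      calc (Gc c (2 * c))⁻¹ * |Y l| * |ν l - E| ≤ (Gc c (2 * c))⁻¹ * Z l * η :=
            mul_le_mul (mul_le_mul_of_nonneg_left h8 h9) h7 (abs_nonneg _)
              (mul_nonneg h9 ((abs_nonneg _).trans h8))
        _ = η * ((Gc c (2 * c))⁻¹ * Z l) := by ring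
    · rw [← mul_sum]
      exact mul_le_mul_of_nonneg_left h6 hη
  have h6 : |E * ∑ l ∈ range M, (Gc c (2 * c))⁻¹ * Y l - E * Ex S p F| ≤ y := by
    rw [← mul_sub, abs_mul, abs_sub_comm]
    have h7 := abs_nonneg (Ex S p F - ∑ l ∈ range M, (Gc c (2 * c))⁻¹ * Y l)
    nlinarith [abs_nonneg E]
  rw [abs_le] at h4 h5 h6 ⊢
  constructor <;> linarith [h4.1, h4.2, h5.1, h5.2, h6.1, h6.2]

end RM

end PWN

end HexObs
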