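import Mathlib

/-! The recursion that excludes fat tails: abstract form.
`T k B` is the (normalised) weight of the bridges of scale `k` with more than `B` times the mean
number of letters of that scale. -/

namespace Pool.PW.Rec

/-- Choice of the parameters: cost `L ^ J` per localisation, gain `(c 2 ^ (5 J / 4) / r)` in the
threshold. -/
theorem choose_par (L c : ℝ) (hL : 1 ≤ L) (hc : 0 < c) (Q₀ : ℕ) :
    ∃ Q : ℕ, Q₀ ≤ Q ∧ ∃ J : ℕ, 0 < J ∧ 2 ≤ c * 2 ^ J / (2 * Q) ∧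
      L ^ J * ((c * 2 ^ J / (2 * Q)) ^ Q)⁻¹ ≤ 1 / 2 := by
  -- `Q` with `2 ^ Q ≥ 4 L`
  obtain ⟨q, hq⟩ := pow_unbounded_of_one_lt (4 * L) (by norm_num : (1 : ℝ) < 2)
  set Q := max (max Q₀ q) 1 with hQ
  have hQ0 : Q₀ ≤ Q := le_trans (le_max_left _ _) (le_max_left _ _)
  have hQ1 : 1 ≤ Q := le_max_right _ _
  have hqQ : q ≤ Q := le_trans (le_max_right _ _) (le_max_left _ _)
  have hLQ : 4 * L ≤ 2 ^ Q := hq.le.trans (pow_le_pow_right₀ (by norm_num) hqQ)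
  have hQpos : (0 : ℝ) < Q := by exact_mod_cast hQ1
  refine ⟨Q, hQ0, ?_⟩
  set d : ℝ := c / (2 * Q) with hd
  have hd0 : 0 < d := by positivity
  -- `J` with `4 ^ J * d ^ Q ≥ 2` and `d * 2 ^ J ≥ 2`
  obtain ⟨j₁, hj₁⟩ := pow_unbounded_of_one_lt (2 * (d ^ Q)⁻¹) (by norm_num : (1 : ℝ) < 4)
  obtain ⟨j₂, hj₂⟩ := pow_unbounded_of_one_lt (2 * d⁻¹) (by norm_num : (1 : ℝ) < 2)
  set J := max (max j₁ j₂) 1 with hJ
  have hJ1 : 1 ≤ J := le_max_right _ _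
  have h1 : j₁ ≤ J := le_trans (le_max_left _ _) (le_max_left _ _)
  have h2 : j₂ ≤ J := le_trans (le_max_right _ _) (le_max_left _ _)
  have hA : 2 * (d ^ Q)⁻¹ ≤ 4 ^ J := hj₁.le.trans (pow_le_pow_right₀ (by norm_num) h1)
  have hB : 2 * d⁻¹ ≤ 2 ^ J := hj₂.le.trans (pow_le_pow_right₀ (by norm_num) h2)
  have hdQ : 0 < d ^ Q := by positivity
  have hA' : 2 ≤ 4 ^ J * d ^ Q := by
    have := mul_le_mul_of_nonneg_right hA hdQ.le
    rwa [mul_assoc, inv_mul_cancel₀ hdQ.ne', mul_one] at this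
  have hB' : 2 ≤ d * 2 ^ J := by
    have := mul_le_mul_of_nonneg_right hB hd0.le
    rw [mul_assoc, inv_mul_cancel₀ hd0.ne', mul_one] at this
    linarith [mul_comm d ((2 : ℝ) ^ J)]
  have heq : c * 2 ^ J / (2 * Q) = d * 2 ^ J := by rw [hd]; ring
  refine ⟨J, hJ1, by rw [heq]; exact hB', ?_⟩
  rw [heq]
  have hpos : 0 < (d * 2 ^ J) ^ Q := by positivity
  rw [mul_inv_le_iff₀ hpos]
  have h3 : (d * 2 ^ J) ^ Q = d ^ Q * (2 ^ Q) ^ J := by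
    rw [mul_pow, ← pow_mul, ← pow_mul, mul_comm J Q]
  rw [h3]
  have h4 : (4 * L) ^ J ≤ (2 ^ Q) ^ J := pow_le_pow_left₀ (by linarith) hLQ J
  have hLJ : 0 ≤ L ^ J := by positivity
  calc L ^ J ≤ 1 / 2 * ((4 ^ J * d ^ Q) * L ^ J) := by nlinarith
    _ = 1 / 2 * (d ^ Q * (4 * L) ^ J) := by rw [mul_pow]; ring
    _ ≤ 1 / 2 * (d ^ Q * (2 ^ Q) ^ J) := by
        have := mul_le_mul_of_nonneg_left h4 hdQ.le
        linarith

/-- One bounded step of the scale suffices: if `T (k + J) B ≤ M T k (θ B) + A B ^ (-Q)` with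
`M θ ^ (-Q) ≤ 1 / 2`, then `T k B ≤ D B ^ (-Q)` at every scale. -/
theorem tail_of_step (T : ℕ → ℝ → ℝ) {J Q : ℕ} (hJ : 0 < J) {M θ A B₀ : ℝ} (hM : 0 ≤ M)
    (hθ : 1 ≤ θ) (hA : 0 ≤ A) (hMQ : M * (θ ^ Q)⁻¹ ≤ 1 / 2)
    (h1 : ∀ k B, 1 ≤ B → T k B ≤ 1)
    (hbase : ∀ k < J, ∃ D, ∀ B, 1 ≤ B → T k B ≤ D * (B ^ Q)⁻¹)
    (hstep : ∀ k B, B₀ ≤ B → 1 ≤ B → T (k + J) B ≤ M * T k (θ * B) + A * (B ^ Q)⁻¹) :
    ∃ D, 0 < D ∧ ∀ k B, 1 ≤ B → T k B ≤ D * (B ^ Q)⁻¹ := by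
  classical
  choose! Dk hDk using hbase
  set B₁ := max B₀ 1 with hB₁
  set D : ℝ := (∑ k ∈ Finset.range J, |Dk k|) + 2 * A + B₁ ^ Q + 1 with hD
  have hB1 : 1 ≤ B₁ := le_max_right _ _
  have hs : 0 ≤ ∑ k ∈ Finset.range J, |Dk k| := Finset.sum_nonneg fun _ _ => abs_nonneg _
  have hBQ : 0 ≤ B₁ ^ Q := by positivity
  have hD0 : 0 < D := by rw [hD]; linarith
  refine ⟨D, hD0, fun k => ?_⟩
  induction k using Nat.strong_induction_on with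
  | _ k ih =>
    intro B hB
    have hBpos : 0 < B := by linarith
    have hBi : 0 ≤ (B ^ Q)⁻¹ := by positivity
    rcases lt_or_ge k J with hk | hk
    · refine (hDk k hk B hB).trans (mul_le_mul_of_nonneg_right ?_ hBi)
      have : |Dk k| ≤ ∑ k ∈ Finset.range J, |Dk k| :=
        Finset.single_le_sum (f := fun k => |Dk k|) (fun _ _ => abs_nonneg _)
          (Finset.mem_range.2 hk)
      rw [hD]
      linarith [le_abs_self (Dk k)]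
    · obtain ⟨i, rfl⟩ := Nat.exists_eq_add_of_le' hk
      rcases lt_or_ge B B₁ with hb | hb
      · refine (h1 _ B hB).trans ?_
        rw [le_mul_inv_iff₀ (by positivity), one_mul]
        have : B ^ Q ≤ B₁ ^ Q := pow_le_pow_left₀ hBpos.le hb.le Q
        rw [hD]; linarith
      · have h2 := hstep i B ((le_max_left _ _).trans hb) hB
        have h3 := ih i (by omega) (θ * B) (by nlinarith)
        have h4 : M * T i (θ * B) ≤ 1 / 2 * (D * (B ^ Q)⁻¹) := by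
          calc M * T i (θ * B) ≤ M * (D * ((θ * B) ^ Q)⁻¹) := mul_le_mul_of_nonneg_left h3 hM
            _ = (M * (θ ^ Q)⁻¹) * (D * (B ^ Q)⁻¹) := by rw [mul_pow, mul_inv]; ring
            _ ≤ 1 / 2 * (D * (B ^ Q)⁻¹) := mul_le_mul_of_nonneg_right hMQ (by positivity)
        have h5 : A * (B ^ Q)⁻¹ ≤ 1 / 2 * (D * (B ^ Q)⁻¹) := by
          have : A ≤ 1 / 2 * D := by rw [hD]; linarith
          calc A * (B ^ Q)⁻¹ ≤ (1 / 2 * D) * (B ^ Q)⁻¹ := mul_le_mul_of_nonneg_right this hBi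
            _ = _ := by ring
        linarith

/-- The form to use.  For all `r, J` the tail of scale `k + J` is at most `L ^ J` times the tail of
scale `k` at the threshold `c 2 ^ J / r` times as large, plus `A B ^ (-r / 2)`. -/
theorem tail_all (T : ℕ → ℝ → ℝ) {L c : ℝ} (hL : 1 ≤ L) (hc : 0 < c)
    (h1 : ∀ k B, 1 ≤ B → T k B ≤ 1)
    (hbase : ∀ k Q : ℕ, ∃ D, ∀ B, 1 ≤ B → T k B ≤ D * (B ^ Q)⁻¹)
    (hstep : ∀ Q J : ℕ, 0 < Q → 0 < J → ∃ A B₀ : ℝ, 0 ≤ A ∧ ∀ k B, B₀ ≤ B → 1 ≤ B →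
      T (k + J) B ≤ L ^ J * T k (c * 2 ^ J / (2 * Q) * B) + A * (B ^ Q)⁻¹)
    (Q₀ : ℕ) : ∃ D, 0 < D ∧ ∀ k B, 1 ≤ B → T k B ≤ D * (B ^ Q₀)⁻¹ := by
  obtain ⟨Q, hQ, J, hJ, h2, h3⟩ := choose_par L c hL hc (max Q₀ 1)
  have hQ1 : 0 < Q := lt_of_lt_of_le (by norm_num) ((le_max_right Q₀ 1).trans hQ)
  obtain ⟨A, B₀, hA, hst⟩ := hstep Q J hQ1 hJ
  obtain ⟨D, hD, hT⟩ := tail_of_step T (J := J) (Q := Q) hJ (M := L ^ J)
    (θ := c * 2 ^ J / (2 * Q)) (A := A) (B₀ := B₀) (by positivity) (by linarith) hA h3 h1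
    (fun k _ => hbase k Q) hst
  refine ⟨D, hD, fun k B hB => (hT k B hB).trans ?_⟩
  have hBpos : 0 < B := by linarith
  refine mul_le_mul_of_nonneg_left ?_ hD.le
  exact inv_anti₀ (by positivity) (pow_le_pow_right₀ hB ((le_max_left _ _).trans hQ))

end Pool.PW.Rec
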