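import Pool.Agent.PW.NoRet
import Pool.Agent.PW.SmallNZ

/-!
PW, row F, BM-N (helper15): no return to the tip at any scale, exactly n letters.

`retN` : for a walk of n letters and every b below the scale of n: outside probability ε, after the walk has been within 2 ^ b of its
tip it stays within 2 ^ (b + c) of it.
-/

set_option autoImplicit false

namespace HexObs

namespace PWN

open Finset TS SDN TIW SLW

/-- **no return, from the plain weight of a level** -/
theorem noret_of_N0 {l L : ℕ} {Ch : Set (List Bool)} (hC : SLW.Chn L Ch) (hl : l ≤ L) {t : List Bool}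
    (h : N0 l L Ch t ≠ 0) {j i : ℕ} (hji : j ≤ i) (hi : i ≤ t.length) (hj : 32 * hn (vx oo up t j - en t) < 2 ^ l) :
    hn (vx oo up t i - en t) < 2 * 2 ^ l := by
  classical
  obtain ⟨p, hp, hne⟩ := Finset.exists_ne_zero_of_sum_ne_zero h
  rw [mem_filter, mem_product, mem_range, mem_range] at hp
  obtain ⟨-, h1, h2, h3, h4⟩ := hp
  have hchi0 : chi (2 ^ l) (t.drop p.2) ≠ 0 := left_ne_zero_of_mul (left_ne_zero_of_mul hne)
  have hchi : 0 < chi (2 ^ l) (t.drop p.2) := by
    refine lt_of_le_of_ne ?_ (Ne.symm hchi0)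
    unfold chi cl1
    exact le_min (le_max_left _ _) (le_max_left _ _)
  have e := take_take_drop t h1
  rw [← e] at hi hj ⊢
  exact (noret_tri hC hl h2 h3 h4.1 hchi hji hi hj).2

/-- the walk comes within a of its tip and is later at a distance at least A -/
def RetT (a A : ℕ) : Set (List Bool) :=
  {t | ∃ j i, j ≤ i ∧ i ≤ t.length ∧ hn (vx oo up t j - en t) < a ∧ (A : ℤ) ≤ hn (vx oo up t i - en t)}

/-- **no return at any scale** -/
theorem retN : ∀ ε : ℝ, 0 < ε → ∃ c k0 : ℕ, ∀ k n b : ℕ, TIP.Sc k n → k0 ≤ b → b + c ≤ k →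
    TOG.Pn n (RetT (2 ^ b) (2 ^ (b + c))) ≤ ε := by
  classical
  intro ε hε
  obtain ⟨c, hc, h⟩ := smallN ε hε
  obtain ⟨M, h⟩ := h 1 0 one_pos
  obtain ⟨s', h⟩ := h M le_rfl
  obtain ⟨c0, l0, h⟩ := h s' le_rfl
  refine ⟨5 + M * s' + c0 + 1, l0, fun k n b hSc hb hk => ?_⟩
  obtain ⟨lv, hlv⟩ : ∃ lv : ℕ → ℕ, lv = fun i => b + 5 + i * s' := ⟨_, rfl⟩
  have hlv' : ∀ i, lv i = b + 5 + i * s' := fun i => by rw [hlv]
  obtain ⟨Ch, hCh⟩ : ∃ Ch : ℕ → Set (List Bool), Ch = fun _ => {[]} := ⟨_, rfl⟩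
  have htop : ∀ i, i < M → i * s' ≤ M * s' := fun i hi => Nat.mul_le_mul_right _ hi.le
  have hLv : LvS M lv 0 s' 1 Ch := by
    refine ⟨fun i j hij _ => ?_, fun i _ => by rw [hCh]; exact chn_nil _, fun i _ => by rw [hCh]; exact wD_nil.ge⟩
    have h1 : i * s' + s' ≤ j * s' := by
      calc i * s' + s' = (i + 1) * s' := by ring
        _ ≤ j * s' := Nat.mul_le_mul_right _ hij
    rw [hlv', hlv']
    omega
  have key := h k n lv Ch hSc hLv (by rw [hlv']; omega) (fun i hi => by
    have := htop i hi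
    rw [hlv']
    omega)
  have hcS : (0 : ℝ) < cS n := by exact_mod_cast TOG.cS_pos n
  rw [TIW.Pn_eq]
  have h1 : ∑ t ∈ sawF n, (1 / cS n : ℝ) * TIP.ind (t ∈ RetT (2 ^ b) (2 ^ (b + (5 + M * s' + c0 + 1)))) ≤
      ∑ t ∈ sawF n, (1 / cS n : ℝ) *
        smI c (fun i => N0 (lv i) (lv i + 0) (Ch i) t / PWN.UT (lv i) (lv i + 0) (Ch i) / M) M := by
    refine sum_le_sum fun t _ => mul_le_mul_of_nonneg_left ?_ (by positivity)
    by_cases ht : t ∈ RetT (2 ^ b) (2 ^ (b + (5 + M * s' + c0 + 1)))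
    · rw [TIP.ind_pos ht]
      unfold smI
      rw [if_pos]
      by_contra hcon
      rw [not_lt] at hcon
      have h2 : 0 < TW.Ta (fun i => N0 (lv i) (lv i + 0) (Ch i) t / PWN.UT (lv i) (lv i + 0) (Ch i) / M) M 0 :=
        lt_of_lt_of_le (by positivity) hcon
      unfold TW.Ta at h2
      obtain ⟨i, hi, hne⟩ := exists_ne_zero_of_sum_ne_zero h2.ne'
      rw [mem_Ico] at hi
      have h3 : N0 (lv i) (lv i + 0) (Ch i) t ≠ 0 := by
        intro h0
        apply hne
        rw [h0]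
        simp
      obtain ⟨j, i', hji, hi', hj, hfar⟩ := ht
      have h4 := noret_of_N0 (hLv.chn i hi.2) (Nat.le_add_right _ _) h3 hji hi' (by
        have e : (2 : ℤ) ^ lv i = 32 * 2 ^ b * 2 ^ (i * s') := by
          rw [hlv', pow_add, pow_add]
          ring
        have h5 : (1 : ℤ) ≤ 2 ^ (i * s') := one_le_pow₀ (by norm_num)
        have h6 : (0 : ℤ) < 2 ^ b := by positivity
        push_cast at hj
        rw [e]
        nlinarith)
      have h5 : (2 : ℤ) * 2 ^ lv i ≤ 2 ^ (b + (5 + M * s' + c0 + 1)) := by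
        have h6 := htop i hi.2
        rw [hlv', ← pow_succ']
        exact pow_le_pow_right₀ (by norm_num) (by omega)
      push_cast at hfar
      linarith
    · rw [TIP.ind_neg ht]
      unfold smI
      split_ifs <;> norm_num
  refine h1.trans ?_
  rw [← mul_sum]
  have h2 := mul_le_mul_of_nonneg_left key (by positivity : (0 : ℝ) ≤ 1 / cS n)
  refine h2.trans (le_of_eq ?_)
  field_simp

end PWN

end HexObs
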