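import Pool.Agent.PW.CoreW
import Pool.Agent.PW.RetN

/-!
# PW, row BM-J (helper16): inner events of the first `κ` steps of the walk with `m ≥ κ` steps

* `Rows` : `M1W`, `M2W`, `WSW`, `RetN` (helper69, helper15);
* **`red`** : the probability of an inner event of the scale `k' + c'` for the walks with `m ≥ κ` steps is at most its probability
  for the walks with at most `B 4 ^ c' κ` steps, plus `ε`;
* `GdP` : the good paths; **`good_few`** : the other paths are few.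
-/

set_option autoImplicit false

noncomputable section

namespace NTSF

open Finset Filter Topology

open HexObs hiding pos

open HexObs.TIW HexObs.SDN HexObs.PWd HexObs.PWN HexObs.PWN.RM HexObs.TOG

open Pool.Agent.NTS.Res Pool.Agent.PW.Res

open NTF (sw JJ JJ_norm JJ_sub JJ_add)

open Cg

open scoped Classical

/-! ### 1. The rows -/

/-- the walk does not stay near its start -/
def M1W : Prop := ∀ Lam ε : ℝ, 0 < Lam → 0 < ε → ∃ (δ : ℝ) (κ0 : ℕ), 0 < δ ∧ ∀ κ m : ℕ, κ0 ≤ κ → κ ≤ m → (m : ℝ) ≤ Lam * κ →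
  Pn m {t | ∀ i : ℕ, 2 * i ≤ κ → ‖pS t i‖ < δ * (κ : ℝ) ^ (3 / 4 : ℝ)} ≤ ε

/-- the walk is not far after a short time -/
def M2W : Prop := ∀ ε : ℝ, 0 < ε → ∃ H : ℝ, 0 < H ∧ ∀ κ m : ℕ, 1 ≤ κ → κ ≤ m →
  Pn m {t | ∃ i : ℕ, i ≤ 2 * κ ∧ i ≤ m ∧ H * ((m : ℝ) / κ) ^ (1 / 4 : ℝ) * (κ : ℝ) ^ (3 / 4 : ℝ) ≤ ‖pS t i‖} ≤ ε

/-- the winding outside a macroscopic ball -/
def WSW : Prop := ∀ ρ ε : ℝ, 0 < ρ → 0 < ε → ∃ L : ℝ, 0 < L ∧ ∀ m : ℕ, 1 ≤ m →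
  Pn m {t | ∃ i0 k : ℕ, i0 ≤ k ∧ k ≤ m ∧ ρ * (m : ℝ) ^ (3 / 4 : ℝ) ≤ ‖pS t i0‖ ∧ L < |turn (pS t) i0 k|} ≤ ε

/-! ### 2. The reduction -/

theorem nref_bd : ∃ R0 : ℝ, 1 ≤ R0 ∧ ∀ k' d κ n : ℕ, TIP.Sc k' κ → TIP.Sc (k' + d) n → (n : ℝ) ≤ R0 * 4 ^ d * κ := by
  obtain ⟨a, A, ha, hA, hpow⟩ := HexObs.TIP.NQ.scale_pow
  refine ⟨(A / a + 1) ^ 2, ?_, fun k' d κ n hS hS' => ?_⟩
  · have : 0 < A / a := by positivity
    nlinarith
  have h1 := (hpow k' κ hS.1 hS.2).1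
  have h2 := (hpow (k' + d) n hS'.1 hS'.2).2
  obtain ⟨x, hx⟩ : ∃ x : ℝ, x = (A / a + 1) * 2 ^ d := ⟨_, rfl⟩
  have hd : (1 : ℝ) ≤ 2 ^ d := one_le_pow₀ (by norm_num)
  have hAa : 0 < A / a := by positivity
  have hx1 : 1 ≤ x := by
    rw [hx]
    nlinarith
  have h3 : (n : ℝ) ^ (3 / 4 : ℝ) ≤ x * (κ : ℝ) ^ (3 / 4 : ℝ) := by
    have h4 : (2 : ℝ) ^ k' ≤ (κ : ℝ) ^ (3 / 4 : ℝ) / a := by
      rw [le_div_iff₀ ha]
      linarith
    have h5 : (0 : ℝ) ≤ (κ : ℝ) ^ (3 / 4 : ℝ) := Real.rpow_nonneg (Nat.cast_nonneg _) _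
    calc (n : ℝ) ^ (3 / 4 : ℝ) ≤ A * 2 ^ (k' + d) := h2
      _ = A * 2 ^ d * 2 ^ k' := by
        rw [pow_add]
        ring
      _ ≤ A * 2 ^ d * ((κ : ℝ) ^ (3 / 4 : ℝ) / a) := mul_le_mul_of_nonneg_left h4 (by positivity)
      _ = A / a * 2 ^ d * (κ : ℝ) ^ (3 / 4 : ℝ) := by ring
      _ ≤ x * (κ : ℝ) ^ (3 / 4 : ℝ) := by
        rw [hx]
        refine mul_le_mul_of_nonneg_right ?_ h5
        refine mul_le_mul_of_nonneg_right ?_ (by positivity)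
        linarith
  have h6 : (n : ℝ) ≤ x ^ (4 / 3 : ℝ) * κ := by
    have h7 := Real.rpow_le_rpow (Real.rpow_nonneg (Nat.cast_nonneg _) _) h3 (by norm_num : (0 : ℝ) ≤ 4 / 3)
    rw [← Real.rpow_mul (Nat.cast_nonneg _), Real.mul_rpow (by linarith) (Real.rpow_nonneg (Nat.cast_nonneg _) _),
      ← Real.rpow_mul (Nat.cast_nonneg _)] at h7
    norm_num at h7
    exact h7
  refine h6.trans (mul_le_mul_of_nonneg_right ?_ (Nat.cast_nonneg _))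
  calc x ^ (4 / 3 : ℝ) ≤ x ^ (2 : ℝ) := Real.rpow_le_rpow_of_exponent_le hx1 (by norm_num)
    _ = x ^ 2 := by norm_num
    _ = _ := by
      rw [hx, mul_pow, ← pow_mul, mul_comm d 2, pow_mul]
      norm_num

/-- **reduction to comparable numbers of steps** -/
theorem red {ε : ℝ} (hε : 0 < ε) : ∃ B : ℝ, 0 < B ∧ ∀ c' : ℕ, ∃ k0 : ℕ, ∀ k' κ : ℕ, k0 ≤ k' → TIP.Sc k' κ →
    ∀ (r x : ℝ) (Q : ℕ → (ℕ → ℂ) → ℝ), InnP r Q → 2 * r ≤ 2 ^ (k' + c') → (∀ m z, 0 ≤ Q m z) → (∀ m z, Q m z ≤ 1) →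
    (∀ m : ℕ, κ ≤ m → (m : ℝ) ≤ B * 4 ^ c' * κ → En m (qS Q) ≤ x) → ∀ m, κ ≤ m → En m (qS Q) ≤ x + ε := by
  obtain ⟨kM, hM⟩ := MA_pos SLW.aReg (tent_bump 0) (tent_one 0)
  obtain ⟨C1, hT⟩ := transfer (tent_bump 0) tipN0 tipFar ⟨kM, fun k n hk hS => hM k n hk hS.1⟩ ε hε
  obtain ⟨R0, hR0, hR⟩ := nref_bd
  obtain ⟨K0, hK0⟩ := nref_sc
  obtain ⟨kb, hkb⟩ := big_of_sc 1
  obtain ⟨CT, hCT⟩ : ∃ CT, CT = C1 + 1 := ⟨_, rfl⟩
  obtain ⟨k1, hT⟩ := hT CT (by omega)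
  refine ⟨2 * R0 * 4 ^ CT, by positivity, fun c' => ⟨k1 + K0 + kb, fun k' κ hk' hS r x Q hQ hr hQ0 hQ1 hx m hm => ?_⟩⟩
  have h0 : PW.mZ (2 ^ k') ≤ m := hS.1.trans (by exact_mod_cast hm)
  obtain ⟨k, hk1, hSk⟩ := sc_ex h0
  have hκ0 : (0 : ℝ) ≤ κ := Nat.cast_nonneg _
  have e4 : (4 : ℝ) ^ (c' + CT) = 4 ^ c' * 4 ^ CT := pow_add _ _ _
  rcases Nat.lt_or_ge k (k' + (c' + CT)) with hlt | hge
  · refine (hx m hm ?_).trans (by linarith)
    obtain ⟨d, rfl⟩ : ∃ d, k = k' + d := ⟨k - k', by omega⟩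
    have h1 := hR k' d κ m hS hSk
    have h2 : (4 : ℝ) ^ d ≤ 4 ^ (c' + CT) := pow_le_pow_right₀ (by norm_num) (by omega)
    calc (m : ℝ) ≤ R0 * 4 ^ d * κ := h1
      _ ≤ R0 * 4 ^ (c' + CT) * κ :=
        mul_le_mul_of_nonneg_right (mul_le_mul_of_nonneg_left h2 (by linarith)) hκ0
      _ ≤ 2 * R0 * 4 ^ CT * 4 ^ c' * κ := by
        rw [e4]
        have : 0 ≤ R0 * (4 ^ c' * 4 ^ CT) * κ := by positivity
        nlinarith
  · obtain ⟨k'', hk''⟩ : ∃ k'', k'' = k' + (c' + CT) := ⟨_, rfl⟩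
    have hS'' := hK0 k'' (by omega)
    refine hT k m k'' (nref k'') (by omega) (by omega) hSk hS'' r x Q hQ ?_ hQ0 hQ1 fun m'' h1 h2 => hx m'' ?_ ?_
    · rw [show k'' - CT = k' + c' by omega]
      exact hr
    · have h3 : (κ : ℝ) < PW.mZ (2 ^ (k' + 1)) := hS.2
      have h4 : PW.mZ (2 ^ (k' + 1)) ≤ PW.mZ (2 ^ k'') := by
        have h5 := NTA.MLow.two NTA.mlow_M (k' + 1) (k'' - (k' + 1))
        rw [show k' + 1 + (k'' - (k' + 1)) = k'' by omega] at h5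
        have h6 : 0 < PW.mZ (2 ^ (k' + 1)) := NTA.mlow_M.pos _
        have h7 : (1 : ℝ) ≤ 2 ^ (k'' - (k' + 1)) := one_le_pow₀ (by norm_num)
        have h8 : PW.mZ (2 ^ (k' + 1)) ≤ 2 ^ (k'' - (k' + 1)) * PW.mZ (2 ^ (k' + 1)) := by nlinarith
        exact h8.trans h5
      have h5 : (κ : ℝ) < (m'' : ℝ) := by
        have h6 : ((nref k'' : ℕ) : ℝ) ≤ m'' := by exact_mod_cast h1
        have h7 := hS''.1
        linarith
      exact_mod_cast h5.le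
    · have h3 : ((nref k'' : ℕ) : ℝ) ≤ R0 * 4 ^ (c' + CT) * κ := hR k' (c' + CT) κ (nref k'') hS (by rw [← hk'']; exact hS'')
      have h4 : (m'' : ℝ) ≤ 2 * (nref k'' : ℕ) := by exact_mod_cast h2
      rw [e4] at h3
      calc (m'' : ℝ) ≤ 2 * (nref k'' : ℕ) := h4
        _ ≤ 2 * (R0 * (4 ^ c' * 4 ^ CT) * κ) := by linarith
        _ = _ := by ring

/-! ### 3. Good paths -/

/-- good paths with `m` steps at the time `κ` -/
structure GdP (r r0 L : ℝ) (κ m : ℕ) (z : ℕ → ℂ) : Prop where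
  far : ∀ i, κ / 2 ≤ i → i ≤ m → 4 * r ≤ ‖z i‖
  tur : ∀ i, κ ≤ i → i ≤ 2 * κ → i ≤ m → |turn z κ i| ≤ L
  inn : |turn z (ex r0 m z) (min κ m)| ≤ L

theorem GdP.mono {r r0 L L' : ℝ} {κ m : ℕ} {z : ℕ → ℂ} (h : GdP r r0 L κ m z) (hL : L ≤ L') : GdP r r0 L' κ m z where
  far := h.far
  tur := fun i h1 h2 h3 => (h.tur i h1 h2 h3).trans hL
  inn := h.inn.trans hL

theorem GdP_smul {r r0 L : ℝ} {κ m : ℕ} {z : ℕ → ℂ} {c : ℂ} (hc : ‖c‖ = 1) :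
    GdP r r0 L κ m (fun i => c * z i) ↔ GdP r r0 L κ m z := by
  have hc0 : c ≠ 0 := norm_ne_zero_iff.1 (by rw [hc]; norm_num)
  have e1 : ∀ i, ‖c * z i‖ = ‖z i‖ := fun i => by rw [norm_mul, hc, one_mul]
  have e2 : ex r0 m (fun i => c * z i) = ex r0 m z := ex_congr fun i _ => e1 i
  constructor
  · rintro ⟨h1, h2, h3⟩
    refine ⟨fun i hi hi' => ?_, fun i hi hi' hi'' => ?_, ?_⟩
    · rw [← e1 i]; exact h1 i hi hi'
    · rw [← turn_smul hc0]; exact h2 i hi hi' hi''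
    · rw [e2, turn_smul hc0] at h3; exact h3
  · rintro ⟨h1, h2, h3⟩
    refine ⟨fun i hi hi' => ?_, fun i hi hi' hi'' => ?_, ?_⟩
    · rw [e1 i]; exact h1 i hi hi'
    · rw [turn_smul hc0]; exact h2 i hi hi' hi''
    · rw [e2, turn_smul hc0]; exact h3

theorem GdP_congr {r r0 L : ℝ} {κ m : ℕ} {z z' : ℕ → ℂ} (h : ∀ i, i ≤ m → z i = z' i) :
    GdP r r0 L κ m z ↔ GdP r r0 L κ m z' := by
  have key : ∀ {z z' : ℕ → ℂ}, (∀ i, i ≤ m → z i = z' i) → GdP r r0 L κ m z → GdP r r0 L κ m z' := by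
    rintro z z' h ⟨h1, h2, h3⟩
    have e2 : ex r0 m z = ex r0 m z' := ex_congr fun i hi => by rw [h i hi]
    refine ⟨fun i hi hi' => ?_, fun i hi hi' hi'' => ?_, ?_⟩
    · rw [← h i hi']; exact h1 i hi hi'
    · rw [← turn_congr fun j _ hj => h j (hj.trans hi'')]; exact h2 i hi hi' hi''
    · rw [← e2, ← turn_congr fun j _ hj => h j (hj.trans (min_le_right _ _))]; exact h3
  exact ⟨key h, key fun i hi => (h i hi).symm⟩

/-- the indicator of the bad paths -/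
def BdQ (r r0 L : ℝ) (κ : ℕ) (m : ℕ) (z : ℕ → ℂ) : ℝ := if GdP r r0 L κ m z then 0 else 1

theorem BdQ_nn (r r0 L : ℝ) (κ m : ℕ) (z : ℕ → ℂ) : 0 ≤ BdQ r r0 L κ m z := by
  unfold BdQ
  split_ifs <;> norm_num

theorem BdQ_le (r r0 L : ℝ) (κ m : ℕ) (z : ℕ → ℂ) : BdQ r r0 L κ m z ≤ 1 := by
  unfold BdQ
  split_ifs <;> norm_num

theorem BdQ_pf (r r0 L : ℝ) (κ : ℕ) : PF (BdQ r r0 L κ) where
  rot := fun m z => by
    unfold BdQ
    simp only [GdP_smul om_norm]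
  neg := fun m z => by
    unfold BdQ
    have h : ∀ z : ℕ → ℂ, (fun i => -z i) = fun i => (-1 : ℂ) * z i := fun z => by
      funext i
      ring
    simp only [h, GdP_smul (c := (-1 : ℂ)) (by simp)]
  loc := fun m z z' h => by
    unfold BdQ
    simp only [GdP_congr h]

/-- first exit after `κ / 2` -/
def lateQ (r : ℝ) (κ : ℕ) (m : ℕ) (z : ℕ → ℂ) : ℝ := if κ / 2 < ex r m z then 1 else 0

/-- exit up to `2 κ` -/
def exitQ (R : ℝ) (κ : ℕ) (m : ℕ) (z : ℕ → ℂ) : ℝ := if ∃ i, i ≤ 2 * κ ∧ i ≤ m ∧ R ≤ ‖z i‖ then 1 else 0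

/-- large winding before the exit -/
def turnQ (r0 R L : ℝ) (κ : ℕ) (m : ℕ) (z : ℕ → ℂ) : ℝ :=
  if ∃ i0 i, i0 ≤ i ∧ i ≤ 2 * κ ∧ i ≤ ex R m z ∧ r0 ≤ ‖z i0‖ ∧ L < |turn z i0 i| then 1 else 0

/-- return -/
def retQ (r1 r : ℝ) (m : ℕ) (z : ℕ → ℂ) : ℝ := if ∃ i j, i ≤ j ∧ j ≤ m ∧ r1 ≤ ‖z i‖ ∧ ‖z j‖ < 4 * r then 1 else 0

theorem lateQ_inn (r : ℝ) (κ : ℕ) : InnP r (lateQ r κ) where
  rot := fun m z c hc => by
    unfold lateQ
    rw [ex_congr (z' := z) fun i _ => by rw [norm_mul, hc, one_mul]]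
  loc := fun m z z' h => by
    unfold lateQ
    rw [ex_congr (z' := z') fun i hi => by rw [h i hi]]
  inn := fun m m' z z' e he he' hz h => by
    obtain ⟨h1, h2⟩ := ex_inn he he' hz fun i hi => by rw [h i hi]
    unfold lateQ
    rw [h1]

theorem exitQ_inn (R : ℝ) (κ : ℕ) : InnP R (exitQ R κ) where
  rot := fun m z c hc => by
    unfold exitQ
    simp only [norm_mul, hc, one_mul]
  loc := fun m z z' h => by
    unfold exitQ
    refine if_congr ⟨?_, ?_⟩ rfl rfl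
    · rintro ⟨i, h1, h2, h3⟩
      exact ⟨i, h1, h2, by rw [← h i h2]; exact h3⟩
    · rintro ⟨i, h1, h2, h3⟩
      exact ⟨i, h1, h2, by rw [h i h2]; exact h3⟩
  inn := fun m m' z z' e he he' hz h => by
    have key : ∀ (m m' : ℕ) (z z' : ℕ → ℂ), e ≤ m → e ≤ m' → R ≤ ‖z e‖ → (∀ i, i ≤ e → z i = z' i) →
        (∃ i, i ≤ 2 * κ ∧ i ≤ m ∧ R ≤ ‖z i‖) → ∃ i, i ≤ 2 * κ ∧ i ≤ m' ∧ R ≤ ‖z' i‖ := by
      rintro m m' z z' he he' hz h ⟨i, h1, h2, h3⟩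
      rcases Nat.le_total i e with hi | hi
      · exact ⟨i, h1, hi.trans he', by rw [← h i hi]; exact h3⟩
      · exact ⟨e, hi.trans h1, he', by rw [← h e le_rfl]; exact hz⟩
    unfold exitQ
    exact if_congr ⟨key m m' z z' he he' hz h, key m' m z' z he' he (by rw [← h e le_rfl]; exact hz)
      fun i hi => (h i hi).symm⟩ rfl rfl

theorem turnQ_inn (r0 R L : ℝ) (κ : ℕ) : InnP R (turnQ r0 R L κ) where
  rot := fun m z c hc => by
    have hc0 : c ≠ 0 := norm_ne_zero_iff.1 (by rw [hc]; norm_num)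
    unfold turnQ
    rw [ex_congr (z' := z) fun i _ => by rw [norm_mul, hc, one_mul]]
    simp only [norm_mul, hc, one_mul, turn_smul hc0]
  loc := fun m z z' h => by
    have key : ∀ (z z' : ℕ → ℂ), (∀ i, i ≤ m → z i = z' i) →
        (∃ i0 i, i0 ≤ i ∧ i ≤ 2 * κ ∧ i ≤ ex R m z ∧ r0 ≤ ‖z i0‖ ∧ L < |turn z i0 i|) →
        ∃ i0 i, i0 ≤ i ∧ i ≤ 2 * κ ∧ i ≤ ex R m z' ∧ r0 ≤ ‖z' i0‖ ∧ L < |turn z' i0 i| := by
      rintro z z' h ⟨i0, i, h1, h2, h3, h4, h5⟩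
      have h6 : i ≤ m := h3.trans (ex_le _ _ _)
      refine ⟨i0, i, h1, h2, ?_, by rw [← h i0 (h1.trans h6)]; exact h4, ?_⟩
      · rw [← ex_congr (z := z) fun j hj => by rw [h j hj]]
        exact h3
      · rw [← turn_congr fun j _ hj => h j (hj.trans h6)]
        exact h5
    unfold turnQ
    exact if_congr ⟨key z z' h, key z' z fun i hi => (h i hi).symm⟩ rfl rfl
  inn := fun m m' z z' e he he' hz h => by
    have key : ∀ (m m' : ℕ) (z z' : ℕ → ℂ), e ≤ m → e ≤ m' → R ≤ ‖z e‖ → (∀ i, i ≤ e → z i = z' i) →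
        (∃ i0 i, i0 ≤ i ∧ i ≤ 2 * κ ∧ i ≤ ex R m z ∧ r0 ≤ ‖z i0‖ ∧ L < |turn z i0 i|) →
        ∃ i0 i, i0 ≤ i ∧ i ≤ 2 * κ ∧ i ≤ ex R m' z' ∧ r0 ≤ ‖z' i0‖ ∧ L < |turn z' i0 i| := by
      rintro m m' z z' he he' hz h ⟨i0, i, h1, h2, h3, h4, h5⟩
      obtain ⟨h6, h7⟩ := ex_inn he he' hz fun i hi => by rw [h i hi]
      have h8 : i ≤ e := h3.trans h7
      refine ⟨i0, i, h1, h2, by rw [← h6]; exact h3, by rw [← h i0 (h1.trans h8)]; exact h4, ?_⟩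
      rw [← turn_congr fun j _ hj => h j (hj.trans h8)]
      exact h5
    unfold turnQ
    exact if_congr ⟨key m m' z z' he he' hz h, key m' m z' z he' he (by rw [← h e le_rfl]; exact hz)
      fun i hi => (h i hi).symm⟩ rfl rfl

theorem retQ_pf (r1 r : ℝ) : PF (retQ r1 r) where
  rot := fun m z => by
    unfold retQ
    simp only [norm_mul, om_norm, one_mul]
  neg := fun m z => by
    unfold retQ
    simp only [norm_neg]
  loc := fun m z z' h => by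
    have key : ∀ (z z' : ℕ → ℂ), (∀ i, i ≤ m → z i = z' i) → (∃ i j, i ≤ j ∧ j ≤ m ∧ r1 ≤ ‖z i‖ ∧ ‖z j‖ < 4 * r) →
        ∃ i j, i ≤ j ∧ j ≤ m ∧ r1 ≤ ‖z' i‖ ∧ ‖z' j‖ < 4 * r := by
      rintro z z' h ⟨i, j, h1, h2, h3, h4⟩
      exact ⟨i, j, h1, h2, by rw [← h i (h1.trans h2)]; exact h3, by rw [← h j h2]; exact h4⟩
    unfold retQ
    exact if_congr ⟨key z z' h, key z' z fun i hi => (h i hi).symm⟩ rfl rfl

/-- the bad paths -/
theorem BdQ_split {r r0 r1 R L : ℝ} {κ m : ℕ} {z : ℕ → ℂ} (hκ : 1 ≤ κ) (hm : κ ≤ m) (hr : r0 ≤ r1) :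
    BdQ r r0 (2 * L) κ m z ≤ lateQ r1 κ m z + exitQ R κ m z + turnQ r0 R L κ m z + retQ r1 r m z := by
  by_cases h1 : κ / 2 < ex r1 m z
  · have e : lateQ r1 κ m z = 1 := if_pos h1
    have a1 := BdQ_le r r0 (2 * L) κ m z
    have a2 : 0 ≤ exitQ R κ m z := by unfold exitQ; split_ifs <;> norm_num
    have a3 : 0 ≤ turnQ r0 R L κ m z := by unfold turnQ; split_ifs <;> norm_num
    have a4 : 0 ≤ retQ r1 r m z := by unfold retQ; split_ifs <;> norm_num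
    rw [e]
    linarith
  have b1 : 0 ≤ lateQ r1 κ m z := by unfold lateQ; split_ifs <;> norm_num
  by_cases h2 : ∃ i, i ≤ 2 * κ ∧ i ≤ m ∧ R ≤ ‖z i‖
  · have e : exitQ R κ m z = 1 := if_pos h2
    have a1 := BdQ_le r r0 (2 * L) κ m z
    have a3 : 0 ≤ turnQ r0 R L κ m z := by unfold turnQ; split_ifs <;> norm_num
    have a4 : 0 ≤ retQ r1 r m z := by unfold retQ; split_ifs <;> norm_num
    rw [e]
    linarith
  have b2 : 0 ≤ exitQ R κ m z := by unfold exitQ; split_ifs <;> norm_num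
  by_cases h3 : ∃ i0 i, i0 ≤ i ∧ i ≤ 2 * κ ∧ i ≤ ex R m z ∧ r0 ≤ ‖z i0‖ ∧ L < |turn z i0 i|
  · have e : turnQ r0 R L κ m z = 1 := if_pos h3
    have a1 := BdQ_le r r0 (2 * L) κ m z
    have a4 : 0 ≤ retQ r1 r m z := by unfold retQ; split_ifs <;> norm_num
    rw [e]
    linarith
  have b3 : 0 ≤ turnQ r0 R L κ m z := by unfold turnQ; split_ifs <;> norm_num
  by_cases h4 : ∃ i j, i ≤ j ∧ j ≤ m ∧ r1 ≤ ‖z i‖ ∧ ‖z j‖ < 4 * r
  · have e : retQ r1 r m z = 1 := if_pos h4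
    have a1 := BdQ_le r r0 (2 * L) κ m z
    rw [e]
    linarith
  have b4 : 0 ≤ retQ r1 r m z := by unfold retQ; split_ifs <;> norm_num
  push Not at h1 h2 h3 h4
  -- the exit of the disc of radius r1
  have hx1 : ex r1 m z < m := by omega
  have hx2 : r1 ≤ ‖z (ex r1 m z)‖ := by
    refine ex_spec ?_
    by_contra hcon
    unfold ex at hx1
    rw [dif_neg hcon] at hx1
    exact lt_irrefl _ hx1
  -- before the exit of R
  have hR : ∀ i, i ≤ 2 * κ → i ≤ m → i ≤ ex R m z := by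
    intro i hi1 hi2
    by_contra hcon
    push Not at hcon
    have h5 : ex R m z < m := by omega
    have h6 : R ≤ ‖z (ex R m z)‖ := by
      refine ex_spec ?_
      by_contra hcon
      unfold ex at h5
      rw [dif_neg hcon] at h5
      exact lt_irrefl _ h5
    have h7 := h2 (ex R m z) (by omega) (ex_le _ _ _)
    linarith
  have hL : 0 ≤ L := by
    have h5 := h3 (ex r1 m z) (ex r1 m z) le_rfl (by omega) (hR _ (by omega) (ex_le _ _ _)) (hr.trans hx2)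
    exact (abs_nonneg _).trans h5
  have hg : GdP r r0 (2 * L) κ m z := by
    refine ⟨fun i hi hi' => h4 (ex r1 m z) i (by omega) hi' hx2, fun i hi hi' hi'' => ?_, ?_⟩
    · have k1 := h3 (ex r1 m z) i (by omega) hi' (hR i hi' hi'') (hr.trans hx2)
      have k2 := h3 (ex r1 m z) κ (by omega) (by omega) (hR κ (by omega) hm) (hr.trans hx2)
      have k3 := turn_add z (show ex r1 m z ≤ κ by omega) hi
      rw [abs_le] at k1 k2 ⊢
      constructor <;> linarith [k1.1, k1.2, k2.1, k2.2]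
    · rw [min_eq_left hm]
      have hx0 : ex r0 m z ≤ ex r1 m z := ex_le_of (ex_le _ _ _) (hr.trans hx2)
      have hx3 : r0 ≤ ‖z (ex r0 m z)‖ := ex_spec ⟨ex r1 m z, ex_le _ _ _, hr.trans hx2⟩
      have k1 := h3 (ex r0 m z) κ (by omega) (by omega) (hR κ (by omega) hm) hx3
      linarith
  have e : BdQ r r0 (2 * L) κ m z = 0 := if_pos hg
  rw [e]
  linarith

theorem En_le_Pn {n : ℕ} (P : List Bool → Prop) [DecidablePred P] {S : Set (List Bool)} (h : ∀ t ∈ SawN n, P t → t ∈ S) :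
    En n (fun t => if P t then (1 : ℝ) else 0) ≤ Pn n S := by
  have e : (fun t => if P t then (1 : ℝ) else 0) = fun t => @ite ℝ (P t) (Classical.propDecidable _) 1 0 := by
    funext t
    by_cases h : P t
    · rw [if_pos h, if_pos h]
    · rw [if_neg h, if_neg h]
  rw [e, En_ind]
  exact HexObs.TIP.Nf.Pn_mono fun t ht hb => h t ht hb

theorem En_add4 (n : ℕ) (f1 f2 f3 f4 : List Bool → ℝ) :
    En n (fun t => f1 t + f2 t + f3 t + f4 t) = En n f1 + En n f2 + En n f3 + En n f4 := by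
  rw [En_add n (fun t => f1 t + f2 t + f3 t) f4, En_add n (fun t => f1 t + f2 t) f3, En_add n f1 f2]

theorem En_PF {Q : ℕ → (ℕ → ℂ) → ℝ} (h : PF Q) (m : ℕ) : En m (qS Q) = En m (qE Q) := by
  unfold En
  rw [sum_PF h]

/-- **the bad paths are few** -/
theorem good_few (hM1 : M1W) (hM2 : M2W) (hWS : WSW) {ε : ℝ} (hε : 0 < ε) : ∃ c2 : ℕ, ∀ C0 C : ℕ, c2 ≤ C0 → C0 ≤ C →
    ∃ (L : ℝ) (k0 : ℕ), 0 ≤ L ∧ ∀ k' κ : ℕ, k0 ≤ k' → TIP.Sc k' κ → ∀ m, κ ≤ m →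
    En m (qS (BdQ (2 ^ (k' - C0)) (2 ^ (k' - C) / 2) L κ)) ≤ ε := by
  obtain ⟨a, A, ha, hA, hpow⟩ := HexObs.TIP.NQ.scale_pow
  obtain ⟨B, hB, hred⟩ := red (ε := ε / 8) (by positivity)
  obtain ⟨kb, hkb⟩ := big_of_sc 1
  -- late exit
  obtain ⟨δ, κ1, hδ, hM1⟩ := hM1 (B * 4 ^ 0) (ε / 8) (by positivity) (by positivity)
  obtain ⟨kκ, hkκ⟩ := big_of_sc κ1
  obtain ⟨c1, hc1⟩ := pow_unbounded_of_one_lt (1 / (a * δ)) (one_lt_two : (1 : ℝ) < 2)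
  -- early exit
  obtain ⟨H, hH, hM2⟩ := hM2 (ε / 8) (by positivity)
  obtain ⟨q, hq⟩ := pow_unbounded_of_one_lt (2 * H * A * B ^ (1 / 4 : ℝ)) (one_lt_two : (1 : ℝ) < 2)
  obtain ⟨c', hc'⟩ : ∃ c', c' = 2 * q := ⟨_, rfl⟩
  -- return
  obtain ⟨c3, k3, hret⟩ := retN (ε / 4) (by positivity)
  obtain ⟨kr0, hred0⟩ := hred 0
  obtain ⟨kr1, hred1⟩ := hred c'
  obtain ⟨c1', hc1'⟩ : ∃ c1', c1' = c1 + 1 := ⟨_, rfl⟩
  refine ⟨c1' + c3 + 3, fun C0 C hC0 hC => ?_⟩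
  -- the winding
  obtain ⟨ρ, hρ⟩ : ∃ ρ : ℝ, ρ = 1 / (2 * 2 ^ C * A * (B * 4 ^ c') ^ (3 / 4 : ℝ)) := ⟨_, rfl⟩
  have hρ0 : 0 < ρ := by rw [hρ]; positivity
  obtain ⟨L, hL, hWS⟩ := hWS ρ (ε / 8) hρ0 (by positivity)
  refine ⟨2 * L, kb + kκ + kr0 + kr1 + C + C0 + k3, by positivity, fun k' κ hk' hS m hm => ?_⟩
  have hκ1 : 1 ≤ κ := hkb k' κ (by omega) hS.1
  have hκκ : κ1 ≤ κ := hkκ k' κ (by omega) hS.1
  obtain ⟨hp1, hp2⟩ := hpow k' κ hS.1 hS.2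
  have hκ0 : (0 : ℝ) < κ := by exact_mod_cast hκ1
  have hpw : ∀ b : ℕ, b ≤ k' → (2 : ℝ) ^ (k' - b) = 2 ^ k' / 2 ^ b := fun b hb => by
    rw [eq_div_iff (by positivity), ← pow_add]
    congr 1
    omega
  -- 1
  have l1 : ∀ m, κ ≤ m → En m (qS (lateQ (2 ^ (k' - c1')) κ)) ≤ ε / 8 + ε / 8 := by
    refine hred0 k' κ (by omega) hS (2 ^ (k' - c1')) (ε / 8) (lateQ (2 ^ (k' - c1')) κ) (lateQ_inn _ _) ?_
      (fun m z => by unfold lateQ; split_ifs <;> norm_num) (fun m z => by unfold lateQ; split_ifs <;> norm_num) ?_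
    · rw [hpw c1' (by omega), hc1', add_zero, pow_succ]
      have h1 : (1 : ℝ) ≤ 2 ^ c1 := one_le_pow₀ (by norm_num)
      have h2 : (0 : ℝ) < 2 ^ k' := by positivity
      rw [← mul_div_assoc, div_le_iff₀ (by positivity)]
      nlinarith
    · intro m hm1 hm2
      have hh := En_le_Pn (n := m) (fun t => κ / 2 < ex (2 ^ (k' - c1')) t.length (pS t))
        (S := {t | ∀ i : ℕ, 2 * i ≤ κ → ‖pS t i‖ < δ * (κ : ℝ) ^ (3 / 4 : ℝ)}) ?_
      · exact hh.trans (hM1 κ m hκκ hm1 hm2)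
      · intro t ht hb i hi
        have h1 : κ / 2 < ex (2 ^ (k' - c1')) t.length (pS t) := hb
        have h2 := ex_min (show i < ex (2 ^ (k' - c1')) t.length (pS t) by omega)
        refine h2.trans_le ?_
        rw [div_lt_iff₀ (by positivity)] at hc1
        rw [hpw c1' (by omega), hc1', pow_succ, div_le_iff₀ (by positivity)]
        have h3 : (0 : ℝ) < 2 ^ k' := by positivity
        have h4 : (0 : ℝ) < 2 ^ c1 := by positivity
        calc (2 : ℝ) ^ k' = 1 * 2 ^ k' := (one_mul _).symm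
          _ ≤ 2 ^ c1 * (a * δ) * 2 ^ k' := mul_le_mul_of_nonneg_right hc1.le h3.le
          _ = δ * (a * 2 ^ k') * 2 ^ c1 := by ring
          _ ≤ δ * (κ : ℝ) ^ (3 / 4 : ℝ) * 2 ^ c1 :=
            mul_le_mul_of_nonneg_right (mul_le_mul_of_nonneg_left hp1 hδ.le) h4.le
          _ ≤ δ * (κ : ℝ) ^ (3 / 4 : ℝ) * (2 ^ c1 * 2) := by
            have : 0 ≤ δ * (κ : ℝ) ^ (3 / 4 : ℝ) * 2 ^ c1 := by positivity
            linarith
  -- 2
  have e4 : (4 : ℝ) ^ c' = (2 ^ q) ^ 4 := by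
    rw [hc', pow_mul (4 : ℝ) 2 q, ← pow_mul (2 : ℝ) q 4, mul_comm q 4, pow_mul (2 : ℝ) 4 q]
    norm_num
  have l2 : ∀ m, κ ≤ m → En m (qS (exitQ (2 ^ (k' + c') / 2) κ)) ≤ ε / 8 + ε / 8 := by
    refine hred1 k' κ (by omega) hS (2 ^ (k' + c') / 2) (ε / 8) (exitQ (2 ^ (k' + c') / 2) κ) (exitQ_inn _ _) (by linarith)
      (fun m z => by unfold exitQ; split_ifs <;> norm_num) (fun m z => by unfold exitQ; split_ifs <;> norm_num) ?_
    intro m hm1 hm2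
    have hh := En_le_Pn (n := m) (fun t => ∃ i, i ≤ 2 * κ ∧ i ≤ t.length ∧ 2 ^ (k' + c') / 2 ≤ ‖pS t i‖)
      (S := {t | ∃ i : ℕ, i ≤ 2 * κ ∧ i ≤ m ∧ H * ((m : ℝ) / κ) ^ (1 / 4 : ℝ) * (κ : ℝ) ^ (3 / 4 : ℝ) ≤ ‖pS t i‖}) ?_
    · exact hh.trans (hM2 κ m hκ1 hm1)
    · rintro t ht ⟨i, h1, h2, h3⟩
      have hl : t.length = m := ht.1
      refine ⟨i, h1, by rw [← hl]; exact h2, le_trans ?_ h3⟩
      have h4 : (m : ℝ) / κ ≤ B * 4 ^ c' := by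
        rw [div_le_iff₀ hκ0]
        exact hm2
      have h5 : ((m : ℝ) / κ) ^ (1 / 4 : ℝ) ≤ B ^ (1 / 4 : ℝ) * 2 ^ q := by
        refine (Real.rpow_le_rpow (by positivity) h4 (by norm_num)).trans (le_of_eq ?_)
        rw [Real.mul_rpow hB.le (by positivity), e4]
        congr 1
        have := Real.pow_rpow_inv_natCast (x := (2 : ℝ) ^ q) (n := 4) (by positivity) (by norm_num)
        rw [show (((4 : ℕ) : ℝ))⁻¹ = 1 / 4 by norm_num] at this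
        exact this
      have h6 : (0 : ℝ) ≤ (κ : ℝ) ^ (3 / 4 : ℝ) := Real.rpow_nonneg hκ0.le _
      calc H * ((m : ℝ) / κ) ^ (1 / 4 : ℝ) * (κ : ℝ) ^ (3 / 4 : ℝ)
          ≤ H * (B ^ (1 / 4 : ℝ) * 2 ^ q) * (A * 2 ^ k') := by
            refine mul_le_mul (mul_le_mul_of_nonneg_left h5 hH.le) hp2 h6 (by positivity)
        _ = (2 * H * A * B ^ (1 / 4 : ℝ)) * (2 ^ q * 2 ^ k') / 2 := by ring
        _ ≤ 2 ^ q * (2 ^ q * 2 ^ k') / 2 := by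
            have := mul_le_mul_of_nonneg_right hq.le (by positivity : (0 : ℝ) ≤ 2 ^ q * 2 ^ k')
            linarith
        _ = 2 ^ (k' + c') / 2 := by
            rw [hc', pow_add, two_mul q, pow_add]
            ring
  -- 3
  have l3 : ∀ m, κ ≤ m → En m (qS (turnQ (2 ^ (k' - C) / 2) (2 ^ (k' + c') / 2) L κ)) ≤ ε / 8 + ε / 8 := by
    refine hred1 k' κ (by omega) hS (2 ^ (k' + c') / 2) (ε / 8) _ (turnQ_inn _ _ _ _) (by linarith)
      (fun m z => by unfold turnQ; split_ifs <;> norm_num) (fun m z => by unfold turnQ; split_ifs <;> norm_num) ?_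
    intro m hm1 hm2
    have hh := En_le_Pn (n := m) (fun t => ∃ i0 i, i0 ≤ i ∧ i ≤ 2 * κ ∧ i ≤ ex (2 ^ (k' + c') / 2) t.length (pS t) ∧
        2 ^ (k' - C) / 2 ≤ ‖pS t i0‖ ∧ L < |turn (pS t) i0 i|)
      (S := {t | ∃ i0 k : ℕ, i0 ≤ k ∧ k ≤ m ∧ ρ * (m : ℝ) ^ (3 / 4 : ℝ) ≤ ‖pS t i0‖ ∧ L < |turn (pS t) i0 k|}) ?_
    · exact hh.trans (hWS m (hκ1.trans hm1))
    · rintro t ht ⟨i0, i, h1, h2, h3, h4, h5⟩
      have hl : t.length = m := ht.1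
      refine ⟨i0, i, h1, ?_, le_trans ?_ h4, h5⟩
      · rw [← hl]
        exact h3.trans (ex_le _ _ _)
      · have h6 : (m : ℝ) ^ (3 / 4 : ℝ) ≤ (B * 4 ^ c') ^ (3 / 4 : ℝ) * (A * 2 ^ k') := by
          refine (Real.rpow_le_rpow (Nat.cast_nonneg _) hm2 (by norm_num)).trans ?_
          rw [Real.mul_rpow (by positivity) hκ0.le]
          exact mul_le_mul_of_nonneg_left hp2 (by positivity)
        refine (mul_le_mul_of_nonneg_left h6 hρ0.le).trans (le_of_eq ?_)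
        rw [hρ, hpw C (by omega)]
        field_simp
  -- 4
  have l4 : En m (qS (retQ (2 ^ (k' - c1')) (2 ^ (k' - C0)))) ≤ ε / 4 := by
    rw [En_PF (retQ_pf _ _)]
    have h0 : PW.mZ (2 ^ k') ≤ m := hS.1.trans (by exact_mod_cast hm)
    obtain ⟨k, hk1, hSk⟩ := sc_ex h0
    have hh := En_le_Pn (n := m) (fun t => ∃ i j, i ≤ j ∧ j ≤ t.length ∧ 2 ^ (k' - c1') ≤ ‖pE t.length t i‖ ∧
        ‖pE t.length t j‖ < 4 * 2 ^ (k' - C0)) (S := RetT (2 ^ (k' - C0 + 3)) (2 ^ (k' - C0 + 3 + c3))) ?_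
    · exact hh.trans (hret k m (k' - C0 + 3) hSk (by omega) (by omega))
    · rintro t ht ⟨i, j, h1, h2, h3, h4⟩
      have hsub : ∀ i, pE t.length t i = JJ (vx oo up t (t.length - i) - en t) := fun i => by
        unfold pE
        rw [← JJ_sub]
        rfl
      rw [hsub] at h3 h4
      refine ⟨t.length - j, t.length - i, by omega, by omega, ?_, ?_⟩
      · have h5 := hn_le_JJ (vx oo up t (t.length - j) - en t)
        have h6 : ((hn (vx oo up t (t.length - j) - en t) : ℤ) : ℝ) < 2 ^ (k' - C0 + 3) := by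
          rw [pow_add]
          linarith
        push_cast
        exact_mod_cast h6
      · have h5 := JJ_le_hn (vx oo up t (t.length - i) - en t)
        have h6 : (2 : ℝ) ^ (k' - C0 + 3 + c3) ≤ 2 ^ (k' - c1') := pow_le_pow_right₀ (by norm_num) (by omega)
        have h7 : ((2 : ℝ) ^ (k' - C0 + 3 + c3)) ≤ ((hn (vx oo up t (t.length - i) - en t) : ℤ) : ℝ) :=
          h6.trans (h3.trans h5)
        push_cast
        exact_mod_cast h7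
  -- together
  have hr01 : (2 : ℝ) ^ (k' - C) / 2 ≤ 2 ^ (k' - c1') := by
    have h1 : (2 : ℝ) ^ (k' - C) ≤ 2 ^ (k' - c1') := pow_le_pow_right₀ (by norm_num) (by omega)
    have h2 : (0 : ℝ) < 2 ^ (k' - C) := by positivity
    linarith
  have l5 : En m (qS (BdQ (2 ^ (k' - C0)) (2 ^ (k' - C) / 2) (2 * L) κ)) ≤
      En m (fun t => qS (lateQ (2 ^ (k' - c1')) κ) t + qS (exitQ (2 ^ (k' + c') / 2) κ) t +
        qS (turnQ (2 ^ (k' - C) / 2) (2 ^ (k' + c') / 2) L κ) t + qS (retQ (2 ^ (k' - c1')) (2 ^ (k' - C0))) t) := by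
    refine En_mono fun t ht => ?_
    rw [mem_sawF] at ht
    have hl : t.length = m := ht.1
    unfold qS
    rw [hl]
    exact BdQ_split hκ1 hm hr01
  rw [En_add4] at l5
  have := l1 m hm
  have := l2 m hm
  have := l3 m hm
  linarith

end NTSF

end
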