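import Pool.Agent.NUX.Ren5

/-! Theorem R (helper69): the law of the sum of `N` steps of a regular renewal process is Lipschitz at its own scale.
Part A: polynomials, coefficients as integrals, the bound on the characteristic function. -/

namespace PWR

open Finset Polynomial

variable {f u : ℕ → ℝ}

/-- generating polynomial of the steps of size at most `n` -/
noncomputable def Fp (f : ℕ → ℝ) (n : ℕ) : ℝ[X] := ∑ k ∈ range (n + 1), C (f k) * X ^ k

lemma coeff_Fp (f : ℕ → ℝ) (n j : ℕ) : (Fp f n).coeff j = if j ≤ n then f j else 0 := by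
  unfold Fp
  rw [finsetSum_coeff]
  simp only [coeff_C_mul_X_pow]
  by_cases hj : j ≤ n
  · rw [if_pos hj, sum_eq_single j]
    · simp
    · intro b _ hb; simp [Ne.symm hb]
    · intro h; exact absurd (mem_range.2 (by omega)) h
  · rw [if_neg hj]
    apply sum_eq_zero
    intro b hb
    have := mem_range.1 hb
    rw [if_neg (by omega)]

/-- value on the circle -/
noncomputable def val (P : ℝ[X]) (θ : ℝ) : ℂ := P.eval₂ Complex.ofRealHom (Complex.exp (θ * Complex.I))

lemma val_mul (P Q : ℝ[X]) (θ : ℝ) : val (P * Q) θ = val P θ * val Q θ := by unfold val; rw [eval₂_mul]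
lemma val_pow (P : ℝ[X]) (k : ℕ) (θ : ℝ) : val (P ^ k) θ = val P θ ^ k := by unfold val; rw [eval₂_pow]

lemma val_eq (P : ℝ[X]) (θ : ℝ) : val P θ = ∑ k ∈ range (P.natDegree + 1), (P.coeff k : ℂ) * Complex.exp ((k * θ : ℝ) * Complex.I) := by
  unfold val
  rw [eval₂_eq_sum_range]
  refine sum_congr rfl fun k _ => ?_
  rw [← Complex.exp_nat_mul]
  simp only [Complex.ofRealHom_eq_coe]
  congr 2
  push_cast; ring

lemma continuous_val (P : ℝ[X]) : Continuous (val P) := by
  have : val P = fun θ => ∑ k ∈ range (P.natDegree + 1), (P.coeff k : ℂ) * Complex.exp ((k * θ : ℝ) * Complex.I) :=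
    funext fun θ => val_eq P θ
  rw [this]
  fun_prop

/-- coefficients are Fourier coefficients -/
lemma coeff_int (P : ℝ[X]) (j : ℕ) :
    ∫ θ in (-Real.pi)..Real.pi, val P θ * Complex.exp ((-(j * θ) : ℝ) * Complex.I) = 2 * (Real.pi : ℂ) * (P.coeff j : ℂ) := by
  have e : ∀ θ : ℝ, val P θ * Complex.exp ((-(j * θ) : ℝ) * Complex.I)
      = ∑ k ∈ range (P.natDegree + 1), (P.coeff k : ℂ) * Complex.exp ((((k : ℤ) - (j : ℤ) : ℤ) * θ : ℝ) * Complex.I) := by
    intro θ
    rw [val_eq, sum_mul]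
    refine sum_congr rfl fun k _ => ?_
    rw [mul_assoc, ← Complex.exp_add]
    congr 2
    push_cast; ring
  simp_rw [e]
  rw [intervalIntegral.integral_finsetSum]
  · have h2 : ∀ k ∈ range (P.natDegree + 1),
        ∫ θ in (-Real.pi)..Real.pi, (P.coeff k : ℂ) * Complex.exp ((((k : ℤ) - (j : ℤ) : ℤ) * θ : ℝ) * Complex.I)
          = if k = j then 2 * (Real.pi : ℂ) * (P.coeff j : ℂ) else 0 := by
      intro k _
      rw [intervalIntegral.integral_const_mul, NUX.int_exp]
      by_cases hk : k = j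
      · subst hk; simp; ring
      · rw [if_neg hk, if_neg (by omega), mul_zero]
    rw [sum_congr rfl h2, sum_ite_eq']
    split_ifs with hj
    · rfl
    · have : P.coeff j = 0 := coeff_eq_zero_of_natDegree_lt (by rw [mem_range] at hj; omega)
      rw [this]; simp
  · intro k _
    apply Continuous.intervalIntegrable
    fun_prop

/-- differences of coefficients -/
lemma coeff_sub_le (P : ℝ[X]) (i j : ℕ) :
    |P.coeff i - P.coeff j| ≤ |(i : ℝ) - j| * ((2 * Real.pi)⁻¹ * ∫ θ in (-Real.pi)..Real.pi, |θ| * ‖val P θ‖) := by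
  have hpi := Real.pi_pos
  have h1 : 2 * (Real.pi : ℂ) * ((P.coeff i - P.coeff j : ℝ) : ℂ)
      = ∫ θ in (-Real.pi)..Real.pi, (val P θ * Complex.exp ((-(i * θ) : ℝ) * Complex.I)
          - val P θ * Complex.exp ((-(j * θ) : ℝ) * Complex.I)) := by
    rw [intervalIntegral.integral_sub, coeff_int, coeff_int]
    · push_cast; ring
    · apply Continuous.intervalIntegrable
      have := continuous_val P
      fun_prop
    · apply Continuous.intervalIntegrable
      have := continuous_val P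
      fun_prop
  have h2 : ‖2 * (Real.pi : ℂ) * ((P.coeff i - P.coeff j : ℝ) : ℂ)‖ = 2 * Real.pi * |P.coeff i - P.coeff j| := by
    rw [norm_mul, norm_mul, Complex.norm_real, Complex.norm_real, Real.norm_eq_abs, Real.norm_eq_abs, abs_of_pos hpi]
    simp
  have h3 : ‖∫ θ in (-Real.pi)..Real.pi, (val P θ * Complex.exp ((-(i * θ) : ℝ) * Complex.I)
          - val P θ * Complex.exp ((-(j * θ) : ℝ) * Complex.I))‖
      ≤ ∫ θ in (-Real.pi)..Real.pi, |(i : ℝ) - j| * (|θ| * ‖val P θ‖) := by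
    apply intervalIntegral.norm_integral_le_of_norm_le (by linarith)
    · refine Filter.Eventually.of_forall fun θ _ => ?_
      rw [← mul_sub, norm_mul]
      have h4 := NUX.norm_exp_sub (-(i * θ)) (-(j * θ))
      have h5 : |-((i : ℝ) * θ) - -(j * θ)| = |(i : ℝ) - j| * |θ| := by
        rw [← abs_mul, ← abs_neg]; congr 1; ring
      rw [h5] at h4
      calc ‖val P θ‖ * _ ≤ ‖val P θ‖ * (|(i : ℝ) - j| * |θ|) := mul_le_mul_of_nonneg_left h4 (norm_nonneg _)
        _ = _ := by ring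
    · apply Continuous.intervalIntegrable
      have := continuous_val P
      fun_prop
  rw [← h1, h2, intervalIntegral.integral_const_mul] at h3
  have h6 : |P.coeff i - P.coeff j| = (2 * Real.pi)⁻¹ * (2 * Real.pi * |P.coeff i - P.coeff j|) := by
    field_simp
  rw [h6]
  calc _ ≤ (2 * Real.pi)⁻¹ * (|(i : ℝ) - j| * ∫ θ in (-Real.pi)..Real.pi, |θ| * ‖val P θ‖) :=
        mul_le_mul_of_nonneg_left h3 (by positivity)
    _ = _ := by ring

/-- `∑ f k (1 - cos ((k-1) θ))` -/
noncomputable def Dd (f : ℕ → ℝ) (n : ℕ) (θ : ℝ) : ℝ := ∑ k ∈ range (n + 1), f k * (1 - Real.cos (((k : ℝ) - 1) * θ))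

lemma Dd_nonneg (h : NUX.Ren f u) (n : ℕ) (θ : ℝ) : 0 ≤ Dd f n θ :=
  sum_nonneg fun k _ => mul_nonneg (h.fnn k) (by linarith [Real.cos_le_one (((k : ℝ) - 1) * θ)])

lemma sum_f_le (h : NUX.Ren f u) (n : ℕ) : ∑ k ∈ range (n + 1), f k ≤ 1 :=
  sum_le_hasSum _ (fun k _ => h.fnn k) h.fsum

lemma val_Fp (f : ℕ → ℝ) (n : ℕ) (θ : ℝ) :
    val (Fp f n) θ = ∑ k ∈ range (n + 1), (f k : ℂ) * Complex.exp ((k * θ : ℝ) * Complex.I) := by
  unfold val Fp
  rw [eval₂_finsetSum]
  refine sum_congr rfl fun k _ => ?_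
  rw [eval₂_mul, eval₂_C, eval₂_pow, eval₂_X, ← Complex.exp_nat_mul]
  simp only [Complex.ofRealHom_eq_coe]
  congr 2
  push_cast; ring

lemma normSq_val_le (h : NUX.Ren f u) {n : ℕ} (hn : 1 ≤ n) (θ : ℝ) :
    ‖val (Fp f n) θ‖ ^ 2 ≤ 1 - f 1 * Dd f n θ := by
  have e1 : (val (Fp f n) θ).re = ∑ k ∈ range (n + 1), f k * Real.cos (k * θ) := by
    rw [val_Fp, Complex.re_sum]
    refine sum_congr rfl fun k _ => ?_
    rw [Complex.re_ofReal_mul, Complex.exp_ofReal_mul_I_re]
  have e2 : (val (Fp f n) θ).im = ∑ k ∈ range (n + 1), f k * Real.sin (k * θ) := by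
    rw [val_Fp, Complex.im_sum]
    refine sum_congr rfl fun k _ => ?_
    rw [Complex.im_ofReal_mul, Complex.exp_ofReal_mul_I_im]
  rw [← Complex.normSq_eq_norm_sq, Complex.normSq_apply, e1, e2, sum_mul_sum, sum_mul_sum, ← sum_add_distrib]
  have e3 : ∀ k ∈ range (n + 1), (∑ j ∈ range (n + 1), f k * Real.cos (k * θ) * (f j * Real.cos (j * θ)))
        + ∑ j ∈ range (n + 1), f k * Real.sin (k * θ) * (f j * Real.sin (j * θ))
      ≤ f k * 1 - f 1 * (f k * (1 - Real.cos (((k : ℝ) - 1) * θ))) := by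
    intro k _
    rw [← sum_add_distrib]
    have e4 : ∀ j ∈ range (n + 1), f k * Real.cos (k * θ) * (f j * Real.cos (j * θ)) + f k * Real.sin (k * θ) * (f j * Real.sin (j * θ))
        = f k * f j - f k * (f j * (1 - Real.cos (((k : ℝ) - j) * θ))) := by
      intro j _
      rw [sub_mul, Real.cos_sub]; ring
    rw [sum_congr rfl e4, sum_sub_distrib, ← mul_sum, ← mul_sum]
    have e5 : f 1 * (1 - Real.cos (((k : ℝ) - 1) * θ)) ≤ ∑ j ∈ range (n + 1), f j * (1 - Real.cos (((k : ℝ) - j) * θ)) := by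
      have := single_le_sum (f := fun j : ℕ => f j * (1 - Real.cos (((k : ℝ) - j) * θ))) (s := range (n + 1))
        (fun j _ => mul_nonneg (h.fnn j) (by linarith [Real.cos_le_one (((k : ℝ) - j) * θ)])) (mem_range.2 (by omega : 1 < n + 1))
      simpa using this
    have e6 := sum_f_le h n
    have e7 := h.fnn k
    nlinarith [mul_le_mul_of_nonneg_left e5 e7, mul_le_mul_of_nonneg_left e6 e7]
  refine (sum_le_sum e3).trans ?_
  rw [sum_sub_distrib, ← sum_mul, ← mul_sum]
  have e6 := sum_f_le h n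
  unfold Dd
  linarith

lemma norm_val_pow_le (h : NUX.Ren f u) {n : ℕ} (hn : 1 ≤ n) (θ : ℝ) (m : ℕ) :
    ‖val (Fp f n ^ (2 * m)) θ‖ ≤ Real.exp (-(m * (f 1 * Dd f n θ))) := by
  rw [val_pow, norm_pow, pow_mul]
  have h1 := normSq_val_le h hn θ
  have h2 : 1 - f 1 * Dd f n θ ≤ Real.exp (-(f 1 * Dd f n θ)) := Real.one_sub_le_exp_neg _
  have h3 : Real.exp (-(m * (f 1 * Dd f n θ))) = Real.exp (-(f 1 * Dd f n θ)) ^ m := by
    rw [← Real.exp_nat_mul]; congr 1; ring
  rw [h3]
  exact pow_le_pow_left₀ (sq_nonneg _) (h1.trans h2) m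

end PWR
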