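import Pool.Agent.PW.RenA

/-! Theorem R (helper69), part B: the law of the sum of `2m` steps, `m ≥ 1 / Fb n`, is Lipschitz at scale `n`. -/

namespace PWR

open Finset Polynomial

variable {f u : ℕ → ℝ} {a b C : ℝ}

/-- O-regular variation of the tail, with both indices in `(0,1)` -/
structure Reg (f : ℕ → ℝ) (a b C : ℝ) : Prop where
  a0 : 0 < a
  b0 : 0 ≤ b
  b1 : b < 1
  C1 : 1 ≤ C
  f2 : 0 < f 2
  lo : ∀ x y : ℕ, 1 ≤ x → x ≤ y → NUX.Fb f y ≤ C * ((x : ℝ) / y) ^ a * NUX.Fb f x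
  up : ∀ x y : ℕ, 1 ≤ x → x ≤ y → NUX.Fb f x ≤ C * ((y : ℝ) / x) ^ b * NUX.Fb f y

lemma Fb_pos (h : NUX.Ren f u) (hr : Reg f a b C) (n : ℕ) : 0 < NUX.Fb f n := by
  have h1 : 0 < NUX.Fb f 1 := by
    have h2 := NUX.Fb_succ f 1
    have h3 := NUX.Fb_nonneg h 2
    have h4 := hr.f2
    norm_num at h2
    linarith
  rcases Nat.eq_zero_or_pos n with h0 | h0
  · subst h0; rw [NUX.Fb_zero h]; exact one_pos
  · have h5 := hr.up 1 n le_rfl h0
    have h6 : 0 < C * ((n : ℝ) / (1 : ℕ)) ^ b := by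
      have := hr.C1
      have hn : (0 : ℝ) < n := by exact_mod_cast h0
      push_cast
      positivity
    by_contra hc
    push Not at hc
    have : C * ((n : ℝ) / (1 : ℕ)) ^ b * NUX.Fb f n ≤ 0 := mul_nonpos_of_nonneg_of_nonpos h6.le hc
    linarith

lemma exists_K (hr : Reg f a b C) : ∃ K : ℕ, 2 ≤ K ∧ ∀ x : ℕ, 1 ≤ x → NUX.Fb f (K * x) ≤ C * ((K : ℝ)) ^ (-a) * NUX.Fb f x ∧
    C * ((K : ℝ)) ^ (-a) ≤ 1 / 2 := by
  have h1 : Filter.Tendsto (fun k : ℕ => C * ((k : ℝ)) ^ (-a)) Filter.atTop (nhds (C * 0)) :=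
    ((tendsto_rpow_neg_atTop hr.a0).comp tendsto_natCast_atTop_atTop).const_mul C
  rw [mul_zero] at h1
  obtain ⟨K0, hK0⟩ := Filter.eventually_atTop.1 (h1.eventually (gt_mem_nhds (by norm_num : (0 : ℝ) < 1 / 2)))
  refine ⟨max K0 2, le_max_right _ _, fun x hx => ⟨?_, (hK0 _ (le_max_left _ _)).le⟩⟩
  set K := max K0 2 with hK
  have hK2 : 2 ≤ K := le_max_right _ _
  have h2 := hr.lo x (K * x) hx (Nat.le_mul_of_pos_left x (by omega))
  have hx0 : (0 : ℝ) < x := by exact_mod_cast hx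
  have hKr : (0 : ℝ) < K := by exact_mod_cast (by omega : 0 < K)
  have h3 : (x : ℝ) / ((K * x : ℕ) : ℝ) = (K : ℝ)⁻¹ := by push_cast; field_simp
  rw [h3, Real.inv_rpow hKr.le, ← Real.rpow_neg hKr.le] at h2
  exact h2

lemma one_sub_cos_ge {y c : ℝ} (hc : 0 ≤ c) (h1 : c ≤ |y|) (h2 : |y| ≤ Real.pi) : 2 / Real.pi ^ 2 * c ^ 2 ≤ 1 - Real.cos y := by
  have h3 := Real.cos_le_one_sub_mul_cos_sq h2
  have h4 : c ^ 2 ≤ y ^ 2 := by rw [← sq_abs y]; exact pow_le_pow_left₀ hc h1 2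
  have h5 : 2 / Real.pi ^ 2 * c ^ 2 ≤ 2 / Real.pi ^ 2 * y ^ 2 := mul_le_mul_of_nonneg_left h4 (by positivity)
  linarith

lemma Fb_diff (f : ℕ → ℝ) {x y : ℕ} (hxy : x ≤ y) : NUX.Fb f x - NUX.Fb f y = ∑ k ∈ Ioc x y, f k := by
  induction y, hxy using Nat.le_induction with
  | base => simp
  | succ y hy ih =>
    rw [NUX.Fb_succ, ← Finset.insert_Ioc_right_eq_Ioc_add_one hy, sum_insert (by simp), ← ih]
    ring

lemma Dd_low (h : NUX.Ren f u) (hr : Reg f a b C) : ∃ c > 0, ∀ n : ℕ, 2 ≤ n → ∀ θ : ℝ, 1 / (n : ℝ) ≤ |θ| → |θ| ≤ Real.pi →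
    c * (n * |θ|) ^ a * NUX.Fb f n ≤ Dd f n θ := by
  obtain ⟨K, hK2, hK⟩ := exists_K hr
  have hpi := Real.pi_pos
  have hKr : (0 : ℝ) < K := by exact_mod_cast (by omega : 0 < K)
  have hK1 : (1 : ℝ) ≤ K := by exact_mod_cast (by omega : 1 ≤ K)
  have hC := hr.C1
  have hC0 : 0 < C := by linarith
  have hf2 := hr.f2
  have ha := hr.a0
  set q : ℝ := 2 / Real.pi ^ 2 * (1 / (2 * K)) ^ 2 with hq
  have hq0 : 0 < q := by positivity
  refine ⟨min (q * (1 / (2 * C))) (f 2 * q / (Real.pi ^ a * C)), lt_min (by positivity) (by positivity), ?_⟩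
  intro n hn θ h1 h2
  have hn0 : (0 : ℝ) < n := by exact_mod_cast (by omega : 0 < n)
  have hθ : 0 < |θ| := lt_of_lt_of_le (by positivity) h1
  have hF0 : 0 ≤ NUX.Fb f n := NUX.Fb_nonneg h n
  have hpow0 : 0 ≤ (n * |θ|) ^ a := by positivity
  rcases le_total |θ| (1 / (2 * K)) with hsm | hbg
  · -- small angles
    have hv : 1 ≤ 1 / (K * |θ|) := by
      rw [le_div_iff₀ (by positivity)]
      have : (K : ℝ) * |θ| ≤ K * (1 / (2 * K)) := mul_le_mul_of_nonneg_left hsm hKr.le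
      have h3 : (K : ℝ) * (1 / (2 * K)) = 1 / 2 := by field_simp
      linarith
    set x := ⌊1 / (K * |θ|)⌋₊ with hx
    have hx1 : 1 ≤ x := Nat.le_floor (by simpa using hv)
    have hx0 : (0 : ℝ) < x := by exact_mod_cast hx1
    have hxle : (x : ℝ) ≤ 1 / (K * |θ|) := Nat.floor_le (by positivity)
    have hxge : 1 / (2 * K * |θ|) ≤ x := by
      have h3 := Nat.lt_floor_add_one (1 / (K * |θ|))
      rw [← hx] at h3
      have h4 : (1 : ℝ) ≤ x := by exact_mod_cast hx1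
      have h5 : 1 / (2 * K * |θ|) = 1 / (K * |θ|) / 2 := by field_simp
      rw [h5]; linarith
    have hKx : (K : ℝ) * x * |θ| ≤ 1 := by
      have := mul_le_mul_of_nonneg_left hxle (by positivity : 0 ≤ (K : ℝ) * |θ|)
      have h3 : (K : ℝ) * |θ| * (1 / (K * |θ|)) = 1 := by field_simp
      nlinarith
    have hKn : K * x ≤ n := by
      have h3 : ((K * x : ℕ) : ℝ) ≤ n := by
        push_cast
        have h4 : (K : ℝ) * x ≤ 1 / |θ| := by rw [le_div_iff₀ hθ]; exact hKx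
        have h5 : 1 / |θ| ≤ n := by rw [div_le_iff₀ hθ]; rw [div_le_iff₀ hn0] at h1; linarith
        linarith
      exact_mod_cast h3
    have hxn : x ≤ n := le_trans (Nat.le_mul_of_pos_left x (by omega)) hKn
    -- the sum
    have h3 : q * (NUX.Fb f x - NUX.Fb f (K * x)) ≤ Dd f n θ := by
      rw [Fb_diff f (Nat.le_mul_of_pos_left x (by omega)), mul_sum]
      calc ∑ k ∈ Ioc x (K * x), q * f k ≤ ∑ k ∈ Ioc x (K * x), f k * (1 - Real.cos (((k : ℝ) - 1) * θ)) := by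
            apply sum_le_sum
            intro k hk
            rw [mem_Ioc] at hk
            rw [mul_comm]
            apply mul_le_mul_of_nonneg_left _ (h.fnn k)
            have hk1 : (x : ℝ) ≤ (k : ℝ) - 1 := by
              have : ((x + 1 : ℕ) : ℝ) ≤ k := by exact_mod_cast hk.1
              push_cast at this; linarith
            have hk2 : (k : ℝ) - 1 ≤ K * x := by
              have : (k : ℝ) ≤ ((K * x : ℕ) : ℝ) := by exact_mod_cast hk.2
              push_cast at this; linarith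
            apply one_sub_cos_ge (by positivity)
            · rw [abs_mul, abs_of_nonneg (by linarith : 0 ≤ (k : ℝ) - 1)]
              have h4 : 1 / (2 * K) ≤ x * |θ| := by
                have := mul_le_mul_of_nonneg_right hxge hθ.le
                have h5 : 1 / (2 * K * |θ|) * |θ| = 1 / (2 * (K : ℝ)) := by field_simp
                linarith
              exact h4.trans (mul_le_mul_of_nonneg_right hk1 hθ.le)
            · rw [abs_mul, abs_of_nonneg (by linarith : 0 ≤ (k : ℝ) - 1)]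
              have := mul_le_mul_of_nonneg_right hk2 hθ.le
              have h6 := Real.pi_gt_three
              linarith
        _ ≤ _ := by
            apply sum_le_sum_of_subset_of_nonneg
            · intro k hk
              rw [mem_Ioc] at hk
              exact mem_range.2 (by omega)
            · intro k _ _
              exact mul_nonneg (h.fnn k) (by linarith [Real.cos_le_one (((k : ℝ) - 1) * θ)])
    have h4 := (hK x hx1)
    have hFx := NUX.Fb_nonneg h x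
    have h5 : NUX.Fb f x / 2 ≤ NUX.Fb f x - NUX.Fb f (K * x) := by
      nlinarith [mul_le_mul_of_nonneg_right h4.2 hFx]
    have h6 := hr.lo x n hx1 hxn
    have h7 : ((x : ℝ) / n) ^ a * (n * |θ|) ^ a ≤ 1 := by
      rw [← Real.mul_rpow (by positivity) (by positivity)]
      apply Real.rpow_le_one (by positivity) _ ha.le
      have : (x : ℝ) / n * (n * |θ|) = x * |θ| := by field_simp
      rw [this]
      have : (x : ℝ) * |θ| ≤ K * x * |θ| := by nlinarith [mul_pos hx0 hθ]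
      linarith
    have h8 : (n * |θ|) ^ a * NUX.Fb f n ≤ C * NUX.Fb f x := by
      calc (n * |θ|) ^ a * NUX.Fb f n ≤ (n * |θ|) ^ a * (C * ((x : ℝ) / n) ^ a * NUX.Fb f x) :=
            mul_le_mul_of_nonneg_left h6 hpow0
        _ = C * NUX.Fb f x * (((x : ℝ) / n) ^ a * (n * |θ|) ^ a) := by ring
        _ ≤ C * NUX.Fb f x * 1 := mul_le_mul_of_nonneg_left h7 (by positivity)
        _ = _ := by ring
    calc _ ≤ q * (1 / (2 * C)) * (n * |θ|) ^ a * NUX.Fb f n := by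
          apply mul_le_mul_of_nonneg_right _ hF0
          exact mul_le_mul_of_nonneg_right (min_le_left _ _) hpow0
      _ = q * (1 / (2 * C)) * ((n * |θ|) ^ a * NUX.Fb f n) := by ring
      _ ≤ q * (1 / (2 * C)) * (C * NUX.Fb f x) := mul_le_mul_of_nonneg_left h8 (by positivity)
      _ = q * (NUX.Fb f x / 2) := by field_simp
      _ ≤ q * (NUX.Fb f x - NUX.Fb f (K * x)) := mul_le_mul_of_nonneg_left h5 hq0.le
      _ ≤ _ := h3
  · -- large angles
    have h3 : f 2 * q ≤ Dd f n θ := by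
      have h4 := single_le_sum (f := fun k : ℕ => f k * (1 - Real.cos (((k : ℝ) - 1) * θ))) (s := range (n + 1))
        (fun j _ => mul_nonneg (h.fnn j) (by linarith [Real.cos_le_one (((j : ℝ) - 1) * θ)])) (mem_range.2 (by omega : 2 < n + 1))
      refine le_trans ?_ h4
      apply mul_le_mul_of_nonneg_left _ (h.fnn 2)
      have e2 : (((2 : ℕ) : ℝ) - 1) * θ = θ := by push_cast; ring
      rw [e2]
      exact one_sub_cos_ge (by positivity) hbg h2
    have h4 : (n * |θ|) ^ a * NUX.Fb f n ≤ Real.pi ^ a * C := by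
      have h5 := hr.lo 1 n le_rfl (by omega)
      have h6 := NUX.Fb_le_one h 1
      have h7 : (((1 : ℕ) : ℝ) / n) ^ a * (n * |θ|) ^ a ≤ Real.pi ^ a := by
        rw [← Real.mul_rpow (by positivity) (by positivity)]
        apply Real.rpow_le_rpow (by positivity) _ ha.le
        have : ((1 : ℕ) : ℝ) / n * (n * |θ|) = |θ| := by push_cast; field_simp
        rw [this]; exact h2
      calc (n * |θ|) ^ a * NUX.Fb f n ≤ (n * |θ|) ^ a * (C * (((1 : ℕ) : ℝ) / n) ^ a * NUX.Fb f 1) :=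
            mul_le_mul_of_nonneg_left h5 hpow0
        _ = C * ((((1 : ℕ) : ℝ) / n) ^ a * (n * |θ|) ^ a) * NUX.Fb f 1 := by ring
        _ ≤ C * (Real.pi ^ a) * 1 := by
            apply mul_le_mul (mul_le_mul_of_nonneg_left h7 hC0.le) h6 (NUX.Fb_nonneg h 1) (by positivity)
        _ = _ := by ring
    calc _ ≤ f 2 * q / (Real.pi ^ a * C) * (n * |θ|) ^ a * NUX.Fb f n := by
          apply mul_le_mul_of_nonneg_right _ hF0
          exact mul_le_mul_of_nonneg_right (min_le_right _ _) hpow0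
      _ = f 2 * q / (Real.pi ^ a * C) * ((n * |θ|) ^ a * NUX.Fb f n) := by ring
      _ ≤ f 2 * q / (Real.pi ^ a * C) * (Real.pi ^ a * C) := mul_le_mul_of_nonneg_left h4 (by positivity)
      _ = f 2 * q := by field_simp
      _ ≤ _ := h3

/-- stretched exponentials against the third power -/
lemma exp_le_cube {c a : ℝ} (hc : 0 < c) (ha : 0 < a) : ∃ C3 > 0, ∀ y : ℝ, 1 ≤ y → Real.exp (-(c * y ^ a)) ≤ C3 / y ^ 3 := by
  set k := ⌈3 / a⌉₊ with hk
  have hka : 3 ≤ a * k := by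
    have := Nat.le_ceil (3 / a)
    rw [← hk] at this
    rw [div_le_iff₀ ha] at this
    linarith
  refine ⟨(k.factorial : ℝ) / c ^ k, by positivity, fun y hy => ?_⟩
  have hy0 : 0 < y := by linarith
  have h1 : (c * y ^ a) ^ k / (k.factorial : ℝ) ≤ Real.exp (c * y ^ a) := Real.pow_div_factorial_le_exp _ (by positivity) k
  rw [Real.exp_neg]
  have h2 : y ^ 3 ≤ (y ^ a) ^ k := by
    rw [← Real.rpow_natCast (y ^ a) k, ← Real.rpow_mul hy0.le, ← Real.rpow_natCast y 3]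
    exact Real.rpow_le_rpow_of_exponent_le hy (by push_cast; exact hka)
  have h3 : c ^ k * y ^ 3 / (k.factorial : ℝ) ≤ Real.exp (c * y ^ a) := by
    refine le_trans ?_ h1
    rw [mul_pow]
    gcongr
  rw [inv_le_comm₀ (Real.exp_pos _) (by positivity)]
  refine le_trans (le_of_eq ?_) h3
  field_simp

lemma half_int {H : ℝ → ℝ} (hH : Continuous H) {n : ℕ} (hn : 1 ≤ n) {C3 : ℝ} (hC3 : 0 ≤ C3)
    (h1 : ∀ θ, 0 ≤ θ → θ ≤ 1 / (n : ℝ) → H θ ≤ 1 / (n : ℝ))
    (h2 : ∀ θ, 1 / (n : ℝ) ≤ θ → θ ≤ Real.pi → H θ ≤ C3 / (n : ℝ) ^ 3 * θ ^ (-(2 : ℝ))) :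
    ∫ θ in (0 : ℝ)..Real.pi, H θ ≤ (1 + C3) / (n : ℝ) ^ 2 := by
  have hn0 : (0 : ℝ) < n := by exact_mod_cast hn
  have hn1 : (1 : ℝ) ≤ n := by exact_mod_cast hn
  have hpi := Real.pi_gt_three
  have hle : 1 / (n : ℝ) ≤ Real.pi := by
    have : 1 / (n : ℝ) ≤ 1 := by rw [div_le_one hn0]; exact hn1
    linarith
  have h3 : ∫ θ in (0 : ℝ)..Real.pi, H θ = (∫ θ in (0 : ℝ)..(1 / (n : ℝ)), H θ) + ∫ θ in (1 / (n : ℝ))..Real.pi, H θ :=
    (intervalIntegral.integral_add_adjacent_intervals (hH.intervalIntegrable _ _) (hH.intervalIntegrable _ _)).symm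
  have h4 : ∫ θ in (0 : ℝ)..(1 / (n : ℝ)), H θ ≤ 1 / (n : ℝ) ^ 2 := by
    have h5 : ∫ θ in (0 : ℝ)..(1 / (n : ℝ)), H θ ≤ ∫ _θ in (0 : ℝ)..(1 / (n : ℝ)), (1 / (n : ℝ)) :=
      intervalIntegral.integral_mono_on (by positivity) (hH.intervalIntegrable _ _) (by simp)
        (fun θ hθ => h1 θ hθ.1 hθ.2)
    rw [intervalIntegral.integral_const] at h5
    refine h5.trans (le_of_eq ?_)
    rw [sub_zero, smul_eq_mul]; field_simp
  have h5 : ∫ θ in (1 / (n : ℝ))..Real.pi, H θ ≤ C3 / (n : ℝ) ^ 2 := by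
    have hint : IntervalIntegrable (fun θ : ℝ => C3 / (n : ℝ) ^ 3 * θ ^ (-(2 : ℝ))) MeasureTheory.volume (1 / (n : ℝ)) Real.pi := by
      apply ContinuousOn.intervalIntegrable
      apply ContinuousOn.mul continuousOn_const
      apply ContinuousOn.rpow_const continuousOn_id
      intro x hx
      left
      rw [Set.uIcc_of_le hle] at hx
      have : 0 < 1 / (n : ℝ) := by positivity
      exact (lt_of_lt_of_le this hx.1).ne'
    have h6 : ∫ θ in (1 / (n : ℝ))..Real.pi, H θ ≤ ∫ θ in (1 / (n : ℝ))..Real.pi, C3 / (n : ℝ) ^ 3 * θ ^ (-(2 : ℝ)) :=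
      intervalIntegral.integral_mono_on hle (hH.intervalIntegrable _ _) hint (fun θ hθ => h2 θ hθ.1 hθ.2)
    rw [intervalIntegral.integral_const_mul] at h6
    have h7 := NUX.int_pow_le (a := 1 / (n : ℝ)) (s := 2) (by positivity) hle (by norm_num)
    have h8 : (1 / (n : ℝ)) ^ ((1 : ℝ) - 2) / (2 - 1) = n := by
      rw [show (1 : ℝ) - 2 = -1 by norm_num, Real.rpow_neg_one]
      norm_num
    rw [h8] at h7
    calc _ ≤ C3 / (n : ℝ) ^ 3 * n := h6.trans (mul_le_mul_of_nonneg_left h7 (by positivity))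
      _ = _ := by field_simp
  rw [h3]
  have : (1 + C3) / (n : ℝ) ^ 2 = 1 / (n : ℝ) ^ 2 + C3 / (n : ℝ) ^ 2 := by ring
  rw [this]
  linarith

/-- **Lipschitz at scale `n`.** -/
theorem lip (h : NUX.Ren f u) (hr : Reg f a b C) : ∃ A > 0, ∀ n : ℕ, 2 ≤ n → ∀ m : ℕ, 1 ≤ m * NUX.Fb f n → ∀ i j : ℕ,
    |(Fp f n ^ (2 * m)).coeff i - (Fp f n ^ (2 * m)).coeff j| ≤ A * |(i : ℝ) - j| / (n : ℝ) ^ 2 := by
  obtain ⟨c, hc, hD⟩ := Dd_low h hr
  have hf1 := h.f1
  obtain ⟨C3, hC3, hE⟩ := exp_le_cube (mul_pos hf1 hc) hr.a0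
  have hpi := Real.pi_pos
  refine ⟨(1 + C3) / Real.pi, by positivity, ?_⟩
  intro n hn m hm i j
  have hn0 : (0 : ℝ) < n := by exact_mod_cast (by omega : 0 < n)
  refine (coeff_sub_le _ i j).trans ?_
  set G : ℝ → ℝ := fun θ => |θ| * ‖val (Fp f n ^ (2 * m)) θ‖ with hG
  have hGc : Continuous G := by
    have := continuous_val (Fp f n ^ (2 * m))
    fun_prop
  have g1 : ∀ θ, |θ| ≤ 1 / (n : ℝ) → G θ ≤ 1 / (n : ℝ) := by
    intro θ hθ
    have h1 := norm_val_pow_le h (by omega : 1 ≤ n) θ m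
    have h2 : Real.exp (-(m * (f 1 * Dd f n θ))) ≤ 1 := by
      rw [Real.exp_le_one_iff]
      have := Dd_nonneg h n θ
      have : 0 ≤ (m : ℝ) * (f 1 * Dd f n θ) := by positivity
      linarith
    calc G θ ≤ (1 / (n : ℝ)) * 1 := mul_le_mul hθ (h1.trans h2) (norm_nonneg _) (by positivity)
      _ = _ := mul_one _
  have g2 : ∀ θ, 1 / (n : ℝ) ≤ |θ| → |θ| ≤ Real.pi → G θ ≤ C3 / (n : ℝ) ^ 3 * |θ| ^ (-(2 : ℝ)) := by
    intro θ h1 h2
    have hθ : 0 < |θ| := lt_of_lt_of_le (by positivity) h1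
    have h3 := norm_val_pow_le h (by omega : 1 ≤ n) θ m
    have h4 := hD n hn θ h1 h2
    have hy : 1 ≤ n * |θ| := by rw [div_le_iff₀ hn0] at h1; linarith
    have h5 : f 1 * c * (n * |θ|) ^ a ≤ m * (f 1 * Dd f n θ) := by
      have h6 : 0 ≤ f 1 * (c * (n * |θ|) ^ a) := by positivity
      calc f 1 * c * (n * |θ|) ^ a = f 1 * (c * (n * |θ|) ^ a) * 1 := by ring
        _ ≤ f 1 * (c * (n * |θ|) ^ a) * (m * NUX.Fb f n) := mul_le_mul_of_nonneg_left hm h6
        _ = m * (f 1 * (c * (n * |θ|) ^ a * NUX.Fb f n)) := by ring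
        _ ≤ _ := by
          apply mul_le_mul_of_nonneg_left _ (by positivity)
          exact mul_le_mul_of_nonneg_left h4 hf1.le
    have h6 : ‖val (Fp f n ^ (2 * m)) θ‖ ≤ C3 / (n * |θ|) ^ 3 := by
      refine h3.trans (le_trans ?_ (hE _ hy))
      rw [Real.exp_le_exp]
      linarith
    calc G θ ≤ |θ| * (C3 / (n * |θ|) ^ 3) := mul_le_mul_of_nonneg_left h6 hθ.le
      _ = C3 / (n : ℝ) ^ 3 * |θ| ^ (-(2 : ℝ)) := by
        rw [Real.rpow_neg hθ.le, Real.rpow_two]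
        field_simp
  have I1 : ∫ θ in (0 : ℝ)..Real.pi, G θ ≤ (1 + C3) / (n : ℝ) ^ 2 :=
    half_int hGc (by omega) hC3.le
      (fun θ h0 h1 => g1 θ (by rwa [abs_of_nonneg h0]))
      (fun θ h0 h1 => by
        have hθ : 0 ≤ θ := le_trans (by positivity) h0
        have := g2 θ (by rwa [abs_of_nonneg hθ]) (by rwa [abs_of_nonneg hθ])
        rwa [abs_of_nonneg hθ] at this)
  have I2 : ∫ θ in (0 : ℝ)..Real.pi, G (-θ) ≤ (1 + C3) / (n : ℝ) ^ 2 :=
    half_int (hGc.comp continuous_neg) (by omega) hC3.le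
      (fun θ h0 h1 => g1 (-θ) (by rwa [abs_neg, abs_of_nonneg h0]))
      (fun θ h0 h1 => by
        have hθ : 0 ≤ θ := le_trans (by positivity) h0
        have := g2 (-θ) (by rwa [abs_neg, abs_of_nonneg hθ]) (by rwa [abs_neg, abs_of_nonneg hθ])
        rwa [abs_neg, abs_of_nonneg hθ] at this)
  have I3 : ∫ θ in (-Real.pi)..Real.pi, G θ = (∫ θ in (0 : ℝ)..Real.pi, G (-θ)) + ∫ θ in (0 : ℝ)..Real.pi, G θ := by
    rw [intervalIntegral.integral_comp_neg, neg_zero]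
    exact (intervalIntegral.integral_add_adjacent_intervals (hGc.intervalIntegrable _ _) (hGc.intervalIntegrable _ _)).symm
  rw [I3]
  calc |(i : ℝ) - j| * ((2 * Real.pi)⁻¹ * ((∫ θ in (0 : ℝ)..Real.pi, G (-θ)) + ∫ θ in (0 : ℝ)..Real.pi, G θ))
      ≤ |(i : ℝ) - j| * ((2 * Real.pi)⁻¹ * ((1 + C3) / (n : ℝ) ^ 2 + (1 + C3) / (n : ℝ) ^ 2)) := by
        gcongr
    _ = _ := by field_simp; ring

end PWR
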