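import Pool.Agent.PW.RenB
import Pool.Agent.NUX.Ren6

/-! Theorem R (helper69), part C: every window of size `d n` has positive mass under the law of `2m` steps. -/

namespace PWR

open Finset Polynomial

variable {f u : ℕ → ℝ}

/-- nonnegative coefficients -/
def Nn (P : ℝ[X]) : Prop := ∀ j, 0 ≤ P.coeff j
/-- coefficientwise order -/
def Cle (P Q : ℝ[X]) : Prop := ∀ j, P.coeff j ≤ Q.coeff j

lemma Nn.mul {P Q : ℝ[X]} (hP : Nn P) (hQ : Nn Q) : Nn (P * Q) := fun j => by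
  rw [coeff_mul]; exact sum_nonneg fun x _ => mul_nonneg (hP _) (hQ _)

lemma Nn_one : Nn (1 : ℝ[X]) := fun j => by rw [coeff_one]; split_ifs <;> norm_num

lemma Nn.pow {P : ℝ[X]} (hP : Nn P) (k : ℕ) : Nn (P ^ k) := by
  induction k with
  | zero => rw [pow_zero]; exact Nn_one
  | succ k ih => rw [pow_succ]; exact ih.mul hP

lemma Cle.mul {P Q P' Q' : ℝ[X]} (hP : Cle P P') (hQ : Cle Q Q') (h1 : Nn Q) (h2 : Nn P') : Cle (P * Q) (P' * Q') := fun j => by
  rw [coeff_mul, coeff_mul]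
  exact sum_le_sum fun x _ => mul_le_mul (hP _) (hQ _) (h1 _) (h2 _)

lemma Cle.pow {P Q : ℝ[X]} (h : Cle P Q) (hP : Nn P) (hQ : Nn Q) (k : ℕ) : Cle (P ^ k) (Q ^ k) := by
  induction k with
  | zero => intro j; simp
  | succ k ih => rw [pow_succ, pow_succ]; exact Cle.mul ih h hP (hQ.pow k)

/-- mass of a set -/
noncomputable def ms (P : ℝ[X]) (S : Finset ℕ) : ℝ := ∑ j ∈ S, P.coeff j

lemma ms_nonneg {P : ℝ[X]} (hP : Nn P) (S : Finset ℕ) : 0 ≤ ms P S := sum_nonneg fun j _ => hP j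

lemma ms_mono {P Q : ℝ[X]} (h : Cle P Q) (S : Finset ℕ) : ms P S ≤ ms Q S := sum_le_sum fun j _ => h j

lemma ms_mul {P Q : ℝ[X]} (hP : Nn P) (hQ : Nn Q) {S T W : Finset ℕ} (h : ∀ x ∈ S, ∀ y ∈ T, x + y ∈ W) :
    ms P S * ms Q T ≤ ms (P * Q) W := by
  unfold ms
  rw [sum_mul_sum, ← sum_product']
  have h1 : ∀ p ∈ S ×ˢ T, p.1 + p.2 ∈ W := fun p hp => by
    rw [mem_product] at hp; exact h _ hp.1 _ hp.2
  rw [← sum_fiberwise_of_maps_to h1]
  refine sum_le_sum fun j _ => ?_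
  rw [coeff_mul]
  apply sum_le_sum_of_subset_of_nonneg
  · intro p hp
    rw [mem_filter] at hp
    exact mem_antidiagonal.2 hp.2
  · intro p _ _
    exact mul_nonneg (hP _) (hQ _)

lemma ms_pow {P : ℝ[X]} (hP : Nn P) (v w k : ℕ) :
    ms P (Icc v (v + w)) ^ k ≤ ms (P ^ k) (Icc (k * v) (k * (v + w))) := by
  induction k with
  | zero => simp [ms]
  | succ k ih =>
    rw [pow_succ, pow_succ]
    refine le_trans (mul_le_mul_of_nonneg_right ih (ms_nonneg hP _)) ?_
    apply ms_mul (hP.pow k) hP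
    intro x hx y hy
    rw [mem_Icc] at hx hy ⊢
    constructor <;> nlinarith

lemma eval_one_eq (P : ℝ[X]) {d : ℕ} (hd : P.natDegree < d) : P.eval 1 = ∑ j ∈ range d, P.coeff j := by
  rw [eval_eq_sum_range' hd]; simp

lemma deriv_one_eq (P : ℝ[X]) {d : ℕ} (hd : P.natDegree < d) : (derivative P).eval 1 = ∑ j ∈ range d, (j : ℝ) * P.coeff j := by
  have h1 : (derivative P).natDegree < d := lt_of_le_of_lt (natDegree_derivative_le P) (by omega)
  rw [eval_one_eq _ h1]
  simp_rw [coeff_derivative]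
  have h2 := sum_range_succ' (fun j => (j : ℝ) * P.coeff j) d
  have h3 : P.coeff d = 0 := coeff_eq_zero_of_natDegree_lt hd
  rw [sum_range_succ, h3] at h2
  simp only [mul_zero, add_zero, Nat.cast_zero, zero_mul] at h2
  rw [h2]
  refine sum_congr rfl fun j _ => ?_
  push_cast; ring

/-- Markov -/
lemma markov {P : ℝ[X]} (hP : Nn P) (r : ℕ) : P.eval 1 - (derivative P).eval 1 / (r + 1) ≤ ms P (range (r + 1)) := by
  set d := max (P.natDegree + 1) (r + 1) with hd
  have hd1 : P.natDegree < d := lt_of_lt_of_le (Nat.lt_succ_self _) (le_max_left _ _)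
  have hr : r + 1 ≤ d := le_max_right _ _
  rw [eval_one_eq P hd1, deriv_one_eq P hd1]
  unfold ms
  rw [← sum_range_add_sum_Ico _ hr]
  have h1 : ∑ j ∈ Ico (r + 1) d, P.coeff j ≤ (∑ j ∈ range d, (j : ℝ) * P.coeff j) / (r + 1) := by
    rw [sum_div]
    calc ∑ j ∈ Ico (r + 1) d, P.coeff j ≤ ∑ j ∈ Ico (r + 1) d, (j : ℝ) * P.coeff j / (r + 1) := by
          apply sum_le_sum
          intro j hj
          rw [mem_Ico] at hj
          rw [le_div_iff₀ (by positivity), mul_comm]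
          apply mul_le_mul_of_nonneg_right _ (hP j)
          exact_mod_cast hj.1
      _ ≤ _ := by
          apply sum_le_sum_of_subset_of_nonneg
          · intro j hj; rw [mem_Ico] at hj; exact mem_range.2 hj.2
          · intro j _ _; have := hP j; positivity
  linarith

/-- polynomial of the steps in `(v, v+w]` -/
noncomputable def Ap (f : ℕ → ℝ) (v w : ℕ) : ℝ[X] := ∑ k ∈ Ioc v (v + w), C (f k) * X ^ k

lemma coeff_Ap (f : ℕ → ℝ) (v w j : ℕ) : (Ap f v w).coeff j = if j ∈ Ioc v (v + w) then f j else 0 := by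
  unfold Ap
  rw [finsetSum_coeff]
  simp only [coeff_C_mul_X_pow]
  rw [sum_ite_eq]

lemma Nn_Fp (h : NUX.Ren f u) (n : ℕ) : Nn (Fp f n) := fun j => by
  rw [coeff_Fp]; split_ifs
  · exact h.fnn j
  · exact le_rfl

lemma Nn_Ap (h : NUX.Ren f u) (v w : ℕ) : Nn (Ap f v w) := fun j => by
  rw [coeff_Ap]; split_ifs
  · exact h.fnn j
  · exact le_rfl

lemma ms_Ap (f : ℕ → ℝ) (v w : ℕ) : ms (Ap f v w) (Icc v (v + w)) = NUX.Fb f v - NUX.Fb f (v + w) := by
  rw [Fb_diff f (Nat.le_add_right v w)]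
  unfold ms
  simp_rw [coeff_Ap]
  rw [← sum_filter]
  congr 1
  ext j
  simp only [mem_filter, mem_Icc, mem_Ioc]
  omega

lemma eval_Fp (f : ℕ → ℝ) (n : ℕ) : (Fp f n).eval 1 = 1 - NUX.Fb f n := by
  unfold Fp NUX.Fb
  rw [eval_finsetSum]
  simp

lemma deriv_Fp_le (h : NUX.Ren f u) (x : ℕ) : (derivative (Fp f x)).eval 1 ≤ NUX.mm f x := by
  have h1 : (derivative (Fp f x)).eval 1 = ∑ k ∈ range (x + 1), (k : ℝ) * f k := by
    unfold Fp
    rw [derivative_sum, eval_finsetSum]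
    refine sum_congr rfl fun k _ => ?_
    rw [derivative_C_mul_X_pow]
    simp
    ring
  rw [h1]
  clear h1
  have key : ∀ x : ℕ, ∑ k ∈ range (x + 1), (k : ℝ) * f k + x * NUX.Fb f x = NUX.mm f x := by
    intro x
    induction x with
    | zero => simp [NUX.mm]
    | succ x ih =>
      rw [sum_range_succ, NUX.mm_succ, NUX.Fb_succ, ← ih]
      push_cast; ring
  have := key x
  have h2 : 0 ≤ (x : ℝ) * NUX.Fb f x := mul_nonneg (by positivity) (NUX.Fb_nonneg h x)
  linarith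

lemma deriv_Fp_nonneg (h : NUX.Ren f u) (x : ℕ) : 0 ≤ (derivative (Fp f x)).eval 1 := by
  have h1 : (derivative (Fp f x)).eval 1 = ∑ k ∈ range (x + 1), (k : ℝ) * f k := by
    unfold Fp
    rw [derivative_sum, eval_finsetSum]
    refine sum_congr rfl fun k _ => ?_
    rw [derivative_C_mul_X_pow]
    simp
    ring
  rw [h1]
  exact sum_nonneg fun k _ => mul_nonneg (by positivity) (h.fnn k)

/-- mass of small values of the small steps -/
lemma small_mass (h : NUX.Ren f u) {x N r : ℕ} (hx : NUX.Fb f x ≤ 1 / 2) (hN : 4 * (N * NUX.mm f x) ≤ r + 1) :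
    (1 - NUX.Fb f x) ^ N / 2 ≤ ms (Fp f x ^ N) (range (r + 1)) := by
  refine le_trans ?_ (markov ((Nn_Fp h x).pow N) r)
  rw [eval_pow, eval_Fp]
  set s := 1 - NUX.Fb f x with hs
  have hs0 : 1 / 2 ≤ s := by rw [hs]; linarith
  rcases Nat.eq_zero_or_pos N with h0 | h0
  · subst h0
    simp
    norm_num
  · have h1 : (derivative (Fp f x ^ N)).eval 1 ≤ N * s ^ (N - 1) * NUX.mm f x := by
      rw [derivative_pow, eval_mul, eval_mul, eval_pow, eval_Fp, eval_C]
      exact mul_le_mul_of_nonneg_left (deriv_Fp_le h x) (by positivity)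
    have h2 : s ^ N = s ^ (N - 1) * s := by
      conv_lhs => rw [show N = (N - 1) + 1 by omega]
      rw [pow_succ]
    have h3 : (derivative (Fp f x ^ N)).eval 1 / (r + 1) ≤ s ^ N / 2 := by
      rw [div_le_iff₀ (by positivity)]
      refine h1.trans ?_
      rw [h2]
      have h4 : (N : ℝ) * NUX.mm f x ≤ s / 2 * (r + 1) := by
        have h5 : (0 : ℝ) ≤ (r : ℝ) + 1 := by positivity
        nlinarith
      have h6 : 0 ≤ s ^ (N - 1) := by positivity
      calc N * s ^ (N - 1) * NUX.mm f x = s ^ (N - 1) * (N * NUX.mm f x) := by ring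
        _ ≤ s ^ (N - 1) * (s / 2 * (r + 1)) := mul_le_mul_of_nonneg_left h4 h6
        _ = _ := by ring
    linarith

/-- the binomial term -/
lemma binom_le (h : NUX.Ren f u) {n x v w N k : ℕ} (hxv : x ≤ v) (hvw : v + w ≤ n) (hk : k ≤ N) :
    Cle (C (N.choose k : ℝ) * (Ap f v w ^ k * Fp f x ^ (N - k))) (Fp f n ^ N) := by
  set A := Ap f v w with hA
  set B := Fp f n - A with hB
  have hxn : x ≤ n := by omega
  have hAc := coeff_Ap f v w
  have hBc : ∀ j, B.coeff j = if j ≤ n ∧ j ∉ Ioc v (v + w) then f j else 0 := by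
    intro j
    rw [hB, coeff_sub, coeff_Fp, hA, hAc]
    by_cases h1 : j ∈ Ioc v (v + w)
    · have h2 := mem_Ioc.1 h1
      rw [if_pos (by omega), if_pos h1, if_neg (by tauto)]; ring
    · rw [if_neg h1]
      by_cases h2 : j ≤ n
      · rw [if_pos h2, if_pos ⟨h2, h1⟩]; ring
      · rw [if_neg h2, if_neg (by tauto)]; ring
  have hBn : Nn B := fun j => by
    rw [hBc]; split_ifs
    · exact h.fnn j
    · exact le_rfl
  have hAn : Nn A := Nn_Ap h v w
  have hSB : Cle (Fp f x) B := fun j => by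
    rw [coeff_Fp, hBc]
    by_cases h1 : j ≤ x
    · rw [if_pos h1, if_pos ⟨by omega, by rw [mem_Ioc]; omega⟩]
    · rw [if_neg h1]
      split_ifs
      · exact h.fnn j
      · exact le_rfl
  have hF : Fp f n = A + B := by rw [hB]; ring
  intro j
  rw [hF, add_pow, finsetSum_coeff]
  have h1 : (C (N.choose k : ℝ) * (A ^ k * Fp f x ^ (N - k))).coeff j ≤ (A ^ k * B ^ (N - k) * (N.choose k : ℝ[X])).coeff j := by
    have h2 : (A ^ k * B ^ (N - k) * (N.choose k : ℝ[X])) = C (N.choose k : ℝ) * (A ^ k * B ^ (N - k)) := by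
      rw [mul_comm]; simp
    rw [h2, coeff_C_mul, coeff_C_mul]
    apply mul_le_mul_of_nonneg_left _ (by positivity)
    exact Cle.mul (fun _ => le_rfl) (Cle.pow hSB (Nn_Fp h x) hBn _) ((Nn_Fp h x).pow _) (hAn.pow k) j
  refine h1.trans ?_
  apply single_le_sum (f := fun m => (A ^ m * B ^ (N - m) * (N.choose m : ℝ[X])).coeff j) _ (mem_range.2 (by omega))
  intro m _
  have h2 : (A ^ m * B ^ (N - m) * (N.choose m : ℝ[X])) = C (N.choose m : ℝ) * (A ^ m * B ^ (N - m)) := by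
    rw [mul_comm]; simp
  rw [h2, coeff_C_mul]
  exact mul_nonneg (by positivity) (((hAn.pow m).mul (hBn.pow _)) j)

/-- lower bound of the mass of a window -/
lemma window_at (h : NUX.Ren f u) {n x v w N k r : ℕ} {W : Finset ℕ} (hxv : x ≤ v) (hvw : v + w ≤ n) (hk : k ≤ N)
    (hx : NUX.Fb f x ≤ 1 / 2) (hN : 4 * (N * NUX.mm f x) ≤ r + 1)
    (hW : ∀ i ∈ Icc (k * v) (k * (v + w)), ∀ j ∈ range (r + 1), i + j ∈ W) :
    (N.choose k : ℝ) * ((NUX.Fb f v - NUX.Fb f (v + w)) ^ k * ((1 - NUX.Fb f x) ^ N / 2)) ≤ ms (Fp f n ^ N) W := by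
  refine le_trans ?_ (ms_mono (binom_le h hxv hvw hk) W)
  have e : ms (C (N.choose k : ℝ) * (Ap f v w ^ k * Fp f x ^ (N - k))) W
      = (N.choose k : ℝ) * ms (Ap f v w ^ k * Fp f x ^ (N - k)) W := by
    unfold ms
    rw [mul_sum]
    exact sum_congr rfl fun j _ => by rw [coeff_C_mul]
  rw [e]
  apply mul_le_mul_of_nonneg_left _ (by positivity)
  refine le_trans ?_ (ms_mul ((Nn_Ap h v w).pow k) ((Nn_Fp h x).pow _) hW)
  have hs0 : 0 ≤ 1 - NUX.Fb f x := by linarith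
  have hs1 : 1 - NUX.Fb f x ≤ 1 := by linarith [NUX.Fb_nonneg h x]
  have hmm := NUX.mm_nonneg h x
  have h1 : (1 - NUX.Fb f x) ^ N / 2 ≤ ms (Fp f x ^ (N - k)) (range (r + 1)) := by
    refine le_trans ?_ (small_mass h hx (N := N - k) ?_)
    · have := pow_le_pow_of_le_one hs0 hs1 (Nat.sub_le N k)
      linarith
    · refine le_trans ?_ hN
      have : ((N - k : ℕ) : ℝ) ≤ N := by exact_mod_cast Nat.sub_le N k
      nlinarith
  have h2 := ms_pow (Nn_Ap h v w) v w k
  rw [ms_Ap] at h2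
  have h3 : 0 ≤ NUX.Fb f v - NUX.Fb f (v + w) := by linarith [NUX.Fb_anti h (Nat.le_add_right v w)]
  exact mul_le_mul h2 h1 (by positivity) (ms_nonneg ((Nn_Ap h v w).pow k) _)

end PWR
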