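import Pool.Agent.PW.RenC

/-! Theorem R (helper69), part D: uniform lower bound for the mass of a window of size `d n`. -/

namespace PWR

open Finset Polynomial Filter

variable {f u : ℕ → ℝ} {a b C : ℝ}

lemma mm_le (h : NUX.Ren f u) (hr : Reg f a b C) : ∃ B > 0, ∀ x : ℕ, 1 ≤ x → NUX.mm f x ≤ B * (x * NUX.Fb f x) := by
  have hF1 := Fb_pos h hr 1
  have hC := hr.C1
  have hb0 := hr.b0
  have hb1 := hr.b1
  have h1b : 0 < 1 - b := by linarith
  refine ⟨C / NUX.Fb f 1 + C / (1 - b), by positivity, fun x hx => ?_⟩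
  have hx0 : (0 : ℝ) < x := by exact_mod_cast hx
  have hx1 : (1 : ℝ) ≤ x := by exact_mod_cast hx
  have hFx := Fb_pos h hr x
  have h1 : NUX.mm f x ≤ 1 + ∑ j ∈ range (x - 1), NUX.Fb f (j + 1) := by
    have hx' : x = (x - 1) + 1 := by omega
    unfold NUX.mm
    conv_lhs => rw [hx']
    rw [sum_range_succ', NUX.Fb_zero h, add_comm]
  have h2 : ∑ j ∈ range (x - 1), NUX.Fb f (j + 1) ≤ C / (1 - b) * (x * NUX.Fb f x) := by
    have h3 : ∀ j ∈ range (x - 1), NUX.Fb f (j + 1) ≤ C * (x : ℝ) ^ b * NUX.Fb f x * ((j : ℝ) + 1) ^ ((1 - b) - 1) := by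
      intro j hj
      have hj' := mem_range.1 hj
      have h4 := hr.up (j + 1) x (by omega) (by omega)
      have hj0 : (0 : ℝ) < (j : ℝ) + 1 := by positivity
      refine h4.trans (le_of_eq ?_)
      push_cast
      rw [Real.div_rpow hx0.le hj0.le, show (1 - b) - 1 = -b by ring, Real.rpow_neg hj0.le]
      ring
    refine (sum_le_sum h3).trans ?_
    rw [← mul_sum]
    have h5 := NUX.sum_rpow h1b (by linarith) (x - 1)
    have h6 : ((x - 1 : ℕ) : ℝ) ^ (1 - b) ≤ (x : ℝ) ^ (1 - b) := by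
      apply Real.rpow_le_rpow (by positivity) _ h1b.le
      exact_mod_cast Nat.sub_le x 1
    have h7 : (x : ℝ) ^ b * (x : ℝ) ^ (1 - b) = x := by
      rw [← Real.rpow_add hx0]; simp
    calc C * (x : ℝ) ^ b * NUX.Fb f x * ∑ j ∈ range (x - 1), ((j : ℝ) + 1) ^ ((1 - b) - 1)
        ≤ C * (x : ℝ) ^ b * NUX.Fb f x * ((x : ℝ) ^ (1 - b) / (1 - b)) := by
          apply mul_le_mul_of_nonneg_left _ (by positivity)
          exact h5.trans (div_le_div_of_nonneg_right h6 h1b.le)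
      _ = C / (1 - b) * (((x : ℝ) ^ b * (x : ℝ) ^ (1 - b)) * NUX.Fb f x) := by ring
      _ = _ := by rw [h7]
  have h3 : 1 ≤ C / NUX.Fb f 1 * (x * NUX.Fb f x) := by
    have h4 := hr.up 1 x le_rfl hx
    have h5 : ((x : ℝ) / (1 : ℕ)) ^ b ≤ x := by
      push_cast
      rw [div_one]
      calc (x : ℝ) ^ b ≤ (x : ℝ) ^ (1 : ℝ) := Real.rpow_le_rpow_of_exponent_le hx1 hb1.le
        _ = x := Real.rpow_one _
    have h6 : NUX.Fb f 1 ≤ C * x * NUX.Fb f x := by
      refine h4.trans ?_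
      gcongr
    rw [div_mul_eq_mul_div, le_div_iff₀ hF1]
    linarith
  have h7 : (C / NUX.Fb f 1 + C / (1 - b)) * (x * NUX.Fb f x) = C / NUX.Fb f 1 * (x * NUX.Fb f x) + C / (1 - b) * (x * NUX.Fb f x) := by ring
  rw [h7]
  linarith

/-- the subwindow of a class with a positive fraction of its mass -/
lemma exists_sub (f : ℕ → ℝ) (x w J : ℕ) (hJ : 0 < J) :
    ∃ i < J, (NUX.Fb f x - NUX.Fb f (x + J * w)) / J ≤ NUX.Fb f (x + i * w) - NUX.Fb f (x + i * w + w) := by
  have key : ∀ J : ℕ, NUX.Fb f x - NUX.Fb f (x + J * w) = ∑ i ∈ range J, (NUX.Fb f (x + i * w) - NUX.Fb f (x + i * w + w)) := by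
    intro J
    induction J with
    | zero => simp
    | succ J ih =>
      rw [sum_range_succ, ← ih, show x + (J + 1) * w = x + J * w + w by ring]
      ring
  by_contra hc
  push Not at hc
  have hJ0 : (0 : ℝ) < J := by exact_mod_cast hJ
  have h1 : ∑ i ∈ range J, (NUX.Fb f (x + i * w) - NUX.Fb f (x + i * w + w))
      < ∑ _i ∈ range J, (NUX.Fb f x - NUX.Fb f (x + J * w)) / J := by
    apply sum_lt_sum_of_nonempty ⟨0, mem_range.2 hJ⟩
    intro i hi
    exact hc i (mem_range.1 hi)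
  rw [← key, sum_const, card_range, nsmul_eq_mul, mul_div_cancel₀ _ hJ0.ne'] at h1
  exact lt_irrefl _ h1

lemma exp_le_one_sub {s : ℝ} (h0 : 0 ≤ s) (h1 : s ≤ 1 / 2) : Real.exp (-(2 * s)) ≤ 1 - s := by
  have h2 : 1 + 2 * s ≤ Real.exp (2 * s) := by linarith [Real.add_one_le_exp (2 * s)]
  rw [Real.exp_neg, inv_le_comm₀ (Real.exp_pos _) (by linarith)]
  refine le_trans ?_ h2
  rw [inv_le_iff_one_le_mul₀ (by linarith)]
  nlinarith

/-- **every window of size `d n` has mass at least `c`** -/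
theorem window (h : NUX.Ren f u) (hr : Reg f a b C) {d : ℝ} (hd : 0 < d) (hd1 : d ≤ 1) :
    ∃ c > 0, ∀ᶠ n : ℕ in atTop, ∀ m : ℕ, 1 ≤ m * NUX.Fb f n → m * NUX.Fb f n ≤ 3 → ∀ y : ℕ, ⌊d * n⌋₊ ≤ y → y ≤ n →
      c ≤ ms (Fp f n ^ (2 * m)) (Icc (y - ⌊d * n⌋₊) y) := by
  obtain ⟨K, hK2, hK⟩ := exists_K hr
  obtain ⟨B, hB, hmm⟩ := mm_le h hr
  have hC := hr.C1
  have hC0 : 0 < C := by linarith
  have ha := hr.a0
  have hb0 := hr.b0
  have hb1 := hr.b1
  have h1b : 0 < 1 - b := by linarith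
  have hKr : (0 : ℝ) < K := by exact_mod_cast (by omega : 0 < K)
  -- J
  obtain ⟨J, hJ⟩ := exists_nat_ge (16 / d)
  have hJ0r : (0 : ℝ) < J := lt_of_lt_of_le (by positivity) hJ
  have hJ0 : 0 < J := by exact_mod_cast hJ0r
  have hdJ : 16 ≤ d * J := by rw [div_le_iff₀ hd] at hJ; linarith
  -- rho
  obtain ⟨ρ, hρ0, hρ1, hρ2⟩ : ∃ ρ : ℝ, 0 < ρ ∧ ρ * (16 * K) ≤ d ∧ 24 * (C * B) * ρ ^ (1 - b) ≤ d / 16 := by
    have t1 : Tendsto (fun n : ℕ => 24 * (C * B) * ((n : ℝ)) ^ (-(1 - b))) atTop (nhds (24 * (C * B) * 0)) :=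
      ((tendsto_rpow_neg_atTop h1b).comp tendsto_natCast_atTop_atTop).const_mul _
    rw [mul_zero] at t1
    have t2 := t1.eventually (gt_mem_nhds (by positivity : (0 : ℝ) < d / 16))
    obtain ⟨N0, hN0⟩ := exists_nat_ge (16 * K / d)
    obtain ⟨n, hn1, hn2, hn3⟩ := (t2.and ((eventually_ge_atTop N0).and (eventually_ge_atTop 1))).exists
    have hn0 : (0 : ℝ) < n := by exact_mod_cast hn3
    refine ⟨(n : ℝ)⁻¹, by positivity, ?_, ?_⟩
    · have : 16 * K / d ≤ n := hN0.trans (by exact_mod_cast hn2)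
      rw [div_le_iff₀ hd] at this
      rw [inv_mul_le_iff₀ hn0]
      linarith
    · rw [Real.inv_rpow hn0.le, ← Real.rpow_neg hn0.le]
      exact hn1.le
  have hρK : ρ * K ≤ d / 16 := by linarith
  have hK2r : (2 : ℝ) ≤ K := by exact_mod_cast hK2
  have hρle : ρ ≤ 1 / 32 := by nlinarith
  -- kmax
  obtain ⟨kM, hkM⟩ := exists_nat_ge (2 / ρ)
  set q : ℝ := 1 / (4 * J * K) with hq
  have hq0 : 0 < q := by rw [hq]; positivity
  have hq1 : q ≤ 1 := by
    rw [hq, div_le_one (by positivity)]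
    have : (1 : ℝ) ≤ J := by exact_mod_cast hJ0
    nlinarith
  set E : ℝ := 12 * (C * (2 / ρ) ^ b) with hE
  refine ⟨(q ^ kM / (kM.factorial : ℝ)) * (Real.exp (-E) / 2), by positivity, ?_⟩
  -- eventual conditions
  have tF : Tendsto (fun n : ℕ => C * ((n : ℝ)) ^ (-a)) atTop (nhds (C * 0)) :=
    ((tendsto_rpow_neg_atTop ha).comp tendsto_natCast_atTop_atTop).const_mul C
  rw [mul_zero] at tF
  have e1 := tF.eventually (gt_mem_nhds (by norm_num : (0 : ℝ) < 1 / 2))
  have e2 : ∀ᶠ n : ℕ in atTop, C * ((n : ℝ)) ^ (-a) < 1 / (kM + 1) := tF.eventually (gt_mem_nhds (by positivity))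
  obtain ⟨X0, hX0⟩ := eventually_atTop.1 e1
  have e3 : ∀ᶠ n : ℕ in atTop, 2 * ((max X0 (2 * J) : ℕ) : ℝ) + 2 ≤ ρ * n :=
    (tendsto_natCast_atTop_atTop.const_mul_atTop hρ0).eventually_ge_atTop _
  have e4 : ∀ᶠ n : ℕ in atTop, (64 : ℝ) ≤ d * n :=
    (tendsto_natCast_atTop_atTop.const_mul_atTop hd).eventually_ge_atTop _
  filter_upwards [e2, e3, e4, eventually_ge_atTop 1] with n h2 h3 h4 hn1 m hm1 hm2 y hy1 hy2
  have hn0 : (0 : ℝ) < n := by exact_mod_cast hn1
  set D := ⌊d * n⌋₊ with hDdef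
  have hDle : (D : ℝ) ≤ d * n := Nat.floor_le (by positivity)
  have hDge : d * n - 1 < D := by have := Nat.lt_floor_add_one (d * n); rw [← hDdef] at this; linarith
  set x := ⌊ρ * n⌋₊ with hxdef
  have hxle : (x : ℝ) ≤ ρ * n := Nat.floor_le (by positivity)
  have hxge : ρ * n - 1 < x := by have := Nat.lt_floor_add_one (ρ * n); rw [← hxdef] at this; linarith
  have hxX : max X0 (2 * J) ≤ x := by
    have : ((max X0 (2 * J) : ℕ) : ℝ) ≤ x := by
      have : (0 : ℝ) ≤ ((max X0 (2 * J) : ℕ) : ℝ) := by positivity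
      linarith
    exact_mod_cast this
  have hxX0 : X0 ≤ x := le_trans (le_max_left _ _) hxX
  have hx2J : 2 * J ≤ x := le_trans (le_max_right _ _) hxX
  have hx1 : 1 ≤ x := by omega
  have hx0 : (0 : ℝ) < x := by exact_mod_cast hx1
  have hxge2 : ρ * n / 2 ≤ x := by
    have : (0 : ℝ) ≤ ((max X0 (2 * J) : ℕ) : ℝ) := by positivity
    linarith
  have hFx := Fb_pos h hr x
  have hFn := Fb_pos h hr n
  -- Fb x ≤ 1/2
  have hFx2 : NUX.Fb f x ≤ 1 / 2 := by
    have h5 := hr.lo 1 x le_rfl hx1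
    have h6 := NUX.Fb_le_one h 1
    have h7 := (hX0 x hxX0).le
    have h8 : (((1 : ℕ) : ℝ) / x) ^ a = (x : ℝ) ^ (-a) := by
      push_cast
      rw [one_div, Real.inv_rpow hx0.le, ← Real.rpow_neg hx0.le]
    rw [h8] at h5
    have h9 : 0 ≤ C * (x : ℝ) ^ (-a) := by positivity
    nlinarith
  -- m ≥ kM
  have hmk : kM < m := by
    have h5 := hr.lo 1 n le_rfl hn1
    have h6 := NUX.Fb_le_one h 1
    have h8 : (((1 : ℕ) : ℝ) / n) ^ a = (n : ℝ) ^ (-a) := by
      push_cast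
      rw [one_div, Real.inv_rpow hn0.le, ← Real.rpow_neg hn0.le]
    rw [h8] at h5
    have h9 : 0 ≤ C * (n : ℝ) ^ (-a) := by positivity
    have h10 : NUX.Fb f n < 1 / (kM + 1) := by nlinarith
    have h11 : (kM : ℝ) + 1 < m + 1 := by
      rw [lt_div_iff₀ (by positivity)] at h10
      have hm0 : (0 : ℝ) < m := by
        rcases Nat.eq_zero_or_pos m with h0 | h0
        · subst h0; simp at hm1; linarith
        · exact_mod_cast h0
      have : (kM : ℝ) + 1 < m := by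
        by_contra hcon
        push Not at hcon
        have : (m : ℝ) * NUX.Fb f n ≤ (kM + 1) * NUX.Fb f n := mul_le_mul_of_nonneg_right hcon hFn.le
        linarith
      linarith
    have h12 : kM + 1 < m + 1 := by exact_mod_cast h11
    omega
  -- the class
  set w := x / J with hw
  have hw1 : w * J ≤ x := Nat.div_mul_le_self x J
  have hw2 : x < (w + 1) * J := by
    have := Nat.lt_succ_iff.2 (le_refl (x / J))
    have h5 := Nat.div_add_mod x J
    have h6 := Nat.mod_lt x hJ0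
    rw [← hw] at h5
    nlinarith
  have hw3 : x ≤ 2 * J * w := by
    have h5 : 2 ≤ w := by rw [hw, Nat.le_div_iff_mul_le hJ0]; exact hx2J
    nlinarith
  obtain ⟨i, hi, hi2⟩ := exists_sub f x w (2 * J * K) (by positivity)
  set v := x + i * w with hv
  have hxv : x ≤ v := Nat.le_add_right _ _
  have hKx : K * x ≤ x + 2 * J * K * w := by nlinarith
  have hFb2 : NUX.Fb f (x + 2 * J * K * w) ≤ NUX.Fb f x / 2 := by
    refine (NUX.Fb_anti h hKx).trans ?_
    have h5 := hK x hx1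
    nlinarith [mul_le_mul_of_nonneg_right h5.2 hFx.le]
  have hcls : NUX.Fb f x * q ≤ NUX.Fb f v - NUX.Fb f (v + w) := by
    refine le_trans ?_ hi2
    rw [le_div_iff₀ (by push_cast; positivity)]
    rw [hq]
    push_cast
    have : NUX.Fb f x * (1 / (4 * J * K)) * (2 * J * K) = NUX.Fb f x / 2 := by field_simp; ring
    rw [this]; linarith
  -- sizes
  have hiw : i * w ≤ 2 * K * x := by
    calc i * w ≤ 2 * J * K * w := Nat.mul_le_mul_right _ hi.le
      _ = 2 * K * (w * J) := by ring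
      _ ≤ 2 * K * x := Nat.mul_le_mul_left _ hw1
  have hv2 : v + w ≤ 4 * K * x := by
    have h5 : w ≤ x := le_trans (Nat.div_le_self x J) le_rfl
    rw [hv]
    nlinarith
  have hKxr : 4 * K * (x : ℝ) ≤ d * n / 4 := by
    have := mul_le_mul_of_nonneg_left hxle (by positivity : 0 ≤ 4 * (K : ℝ))
    nlinarith
  have hvr : ((v + w : ℕ) : ℝ) ≤ d * n / 4 := by
    have : ((v + w : ℕ) : ℝ) ≤ ((4 * K * x : ℕ) : ℝ) := by exact_mod_cast hv2
    push_cast at this ⊢
    linarith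
  have hvn : v + w ≤ n := by
    have : ((v + w : ℕ) : ℝ) ≤ n := by nlinarith
    exact_mod_cast this
  have hv0 : 0 < v := by omega
  have hv0r : (0 : ℝ) < v := by exact_mod_cast hv0
  set k := (y - D / 2) / v with hk
  set r := D / 8 with hrdef
  have hD64 : 63 ≤ D := by
    have : (63 : ℝ) < (D : ℝ) := by linarith
    have : (63 : ℕ) < D := by exact_mod_cast this
    omega
  have hkv : k * v ≤ y - D / 2 := Nat.div_mul_le_self _ _
  have hkv2 : y - D / 2 < k * v + v := by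
    have h5 := Nat.div_add_mod (y - D / 2) v
    have h6 := Nat.mod_lt (y - D / 2) hv0
    rw [← hk] at h5
    nlinarith
  have hkn : k * x ≤ n := by
    calc k * x ≤ k * v := Nat.mul_le_mul_left _ hxv
      _ ≤ n := by omega
  have hkM2 : k ≤ kM := by
    have h5 : (k : ℝ) ≤ kM := by
      have h6 : (k : ℝ) * x ≤ n := by exact_mod_cast hkn
      have h7 : (k : ℝ) * (ρ * n / 2) ≤ n := le_trans (mul_le_mul_of_nonneg_left hxge2 (by positivity)) h6
      have h8 : (k : ℝ) ≤ 2 / ρ := by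
        rw [le_div_iff₀ hρ0]
        by_contra hcon
        push Not at hcon
        have : 2 * (n : ℝ) < k * ρ * n := mul_lt_mul_of_pos_right hcon hn0
        nlinarith
      linarith
    exact_mod_cast h5
  have hkw : k * w ≤ D / 8 := by
    rw [Nat.le_div_iff_mul_le (by norm_num)]
    have h5 : k * w * J ≤ n := by
      calc k * w * J = k * (w * J) := by ring
        _ ≤ k * x := Nat.mul_le_mul_left _ hw1
        _ ≤ n := hkn
    have h6 : ((k * w : ℕ) : ℝ) * J ≤ n := by exact_mod_cast h5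
    have h7 : ((k * w * 8 : ℕ) : ℝ) ≤ D := by
      push_cast at h6 ⊢
      have h8 : (k : ℝ) * w * 16 ≤ d * n := by
        have h9 : (k : ℝ) * w * J * d ≤ n * d := mul_le_mul_of_nonneg_right h6 hd.le
        have h10 : (0 : ℝ) ≤ k * w := by positivity
        nlinarith
      linarith
    exact_mod_cast h7
  -- hypotheses of window_at
  have hNmm : 4 * (((2 * m : ℕ) : ℝ) * NUX.mm f x) ≤ (r : ℝ) + 1 := by
    have h5 := hmm x hx1
    have hxn : x ≤ n := le_trans hxv (le_trans (Nat.le_add_right _ _) hvn)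
    have h6 := hr.up x n hx1 hxn
    have h7 : (x : ℝ) * (C * ((n : ℝ) / x) ^ b * NUX.Fb f n) = C * (n * ((x : ℝ) / n) ^ (1 - b)) * NUX.Fb f n := by
      have h8 : (x : ℝ) * ((n : ℝ) / x) ^ b = n * ((x : ℝ) / n) ^ (1 - b) := by
        have h9 : ((n : ℝ) / x) ^ b = ((x : ℝ) / n) ^ (-b) := by
          rw [Real.rpow_neg (by positivity), ← Real.inv_rpow (by positivity), inv_div]
        have h10 : ((x : ℝ) / n) ^ (1 - b) = ((x : ℝ) / n) * ((x : ℝ) / n) ^ (-b) := by
          rw [sub_eq_add_neg, Real.rpow_add (by positivity), Real.rpow_one]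
        rw [h9, h10]; field_simp
      calc (x : ℝ) * (C * ((n : ℝ) / x) ^ b * NUX.Fb f n) = C * ((x : ℝ) * ((n : ℝ) / x) ^ b) * NUX.Fb f n := by ring
        _ = _ := by rw [h8]
    have h8 : ((x : ℝ) / n) ^ (1 - b) ≤ ρ ^ (1 - b) := by
      apply Real.rpow_le_rpow (by positivity) _ h1b.le
      rw [div_le_iff₀ hn0]; exact hxle
    have h9 : (x : ℝ) * NUX.Fb f x ≤ C * (n * ρ ^ (1 - b)) * NUX.Fb f n := by
      calc (x : ℝ) * NUX.Fb f x ≤ x * (C * ((n : ℝ) / x) ^ b * NUX.Fb f n) := mul_le_mul_of_nonneg_left h6 hx0.le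
        _ = C * (n * ((x : ℝ) / n) ^ (1 - b)) * NUX.Fb f n := h7
        _ ≤ _ := by gcongr
    have h10 : (m : ℝ) * NUX.mm f x ≤ 3 * (C * B) * ρ ^ (1 - b) * n := by
      calc (m : ℝ) * NUX.mm f x ≤ m * (B * (C * (n * ρ ^ (1 - b)) * NUX.Fb f n)) := by
            apply mul_le_mul_of_nonneg_left _ (by positivity)
            exact h5.trans (mul_le_mul_of_nonneg_left h9 hB.le)
        _ = (C * B) * ρ ^ (1 - b) * n * (m * NUX.Fb f n) := by ring
        _ ≤ (C * B) * ρ ^ (1 - b) * n * 3 := mul_le_mul_of_nonneg_left hm2 (by positivity)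
        _ = _ := by ring
    have h11 : 24 * (C * B) * ρ ^ (1 - b) * n ≤ d / 16 * n := mul_le_mul_of_nonneg_right hρ2 hn0.le
    have h12 : (D : ℝ) / 8 ≤ (r : ℝ) + 1 := by
      have h13 : D < (r + 1) * 8 := by rw [hrdef]; omega
      have h14 : (D : ℝ) < ((r : ℝ) + 1) * 8 := by exact_mod_cast h13
      linarith
    push_cast
    have h15 : d / 16 * n ≤ (D : ℝ) / 8 := by linarith
    linarith
  have hW : ∀ i ∈ Icc (k * v) (k * (v + w)), ∀ j ∈ range (r + 1), i + j ∈ Icc (y - D) y := by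
    intro s hs t ht
    rw [mem_Icc] at hs ⊢
    rw [mem_range] at ht
    have h5 : k * (v + w) = k * v + k * w := by ring
    have hvD : v ≤ D / 2 := by
      rw [Nat.le_div_iff_mul_le (by norm_num)]
      have : ((v * 2 : ℕ) : ℝ) ≤ D := by
        push_cast at hvr ⊢
        have : (0 : ℝ) ≤ w := by positivity
        linarith
      exact_mod_cast this
    obtain ⟨hsa, hsb⟩ := hs
    rw [h5] at hsb
    have g1 : D / 8 * 8 ≤ D := Nat.div_mul_le_self _ _
    have g2 : D / 2 * 2 ≤ D := Nat.div_mul_le_self _ _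
    have g3 : D < (D / 2 + 1) * 2 := by omega
    have g4 : t ≤ D / 8 := by omega
    clear_value D
    generalize k * v = A at *
    generalize k * w = B' at *
    generalize D / 8 = D8 at *
    generalize D / 2 = D2 at *
    constructor
    · rw [tsub_le_iff_right]
      have g5 : y ≤ A + v + D2 := by omega
      omega
    · omega
  have hfin := window_at h (n := n) (x := x) (v := v) (w := w) (N := 2 * m) (k := k) (r := r) (W := Icc (y - D) y)
    hxv hvn (by omega) hFx2 hNmm hW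
  refine le_trans ?_ hfin
  -- numbers
  have hs1 : Real.exp (-E) ≤ (1 - NUX.Fb f x) ^ (2 * m) := by
    have h5 := exp_le_one_sub hFx.le hFx2
    have h6 : Real.exp (-(2 * NUX.Fb f x)) ^ (2 * m) ≤ (1 - NUX.Fb f x) ^ (2 * m) := pow_le_pow_left₀ (Real.exp_pos _).le h5 _
    refine le_trans ?_ h6
    rw [← Real.exp_nat_mul, Real.exp_le_exp]
    have hxn : x ≤ n := le_trans hxv (le_trans (Nat.le_add_right _ _) hvn)
    have h7 := hr.up x n hx1 hxn
    have h8 : ((n : ℝ) / x) ^ b ≤ (2 / ρ) ^ b := by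
      apply Real.rpow_le_rpow (by positivity) _ hb0
      rw [div_le_div_iff₀ hx0 hρ0]
      linarith
    have h9 : NUX.Fb f x ≤ C * (2 / ρ) ^ b * NUX.Fb f n := by
      refine h7.trans ?_
      gcongr
    have h10 : (m : ℝ) * NUX.Fb f x ≤ C * (2 / ρ) ^ b * 3 := by
      calc (m : ℝ) * NUX.Fb f x ≤ m * (C * (2 / ρ) ^ b * NUX.Fb f n) := mul_le_mul_of_nonneg_left h9 (by positivity)
        _ = C * (2 / ρ) ^ b * (m * NUX.Fb f n) := by ring
        _ ≤ _ := mul_le_mul_of_nonneg_left hm2 (by positivity)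
    rw [hE]
    push_cast
    linarith
  have hs2 : q ^ kM / (kM.factorial : ℝ) ≤ ((2 * m).choose k : ℝ) * (NUX.Fb f v - NUX.Fb f (v + w)) ^ k := by
    have h5 : (((2 * m + 1 - k : ℕ) : ℝ) ^ k) / (k.factorial : ℝ) ≤ ((2 * m).choose k : ℝ) := by
      have := Nat.pow_le_choose (α := ℝ) k (2 * m)
      exact_mod_cast this
    have h6 : (m : ℝ) ≤ ((2 * m + 1 - k : ℕ) : ℝ) := by exact_mod_cast (by omega : m ≤ 2 * m + 1 - k)
    have h7 : q ≤ (m : ℝ) * (NUX.Fb f v - NUX.Fb f (v + w)) := by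
      have h8 : NUX.Fb f n ≤ NUX.Fb f x := NUX.Fb_anti h (le_trans hxv (le_trans (Nat.le_add_right _ _) hvn))
      calc q = 1 * q := (one_mul q).symm
        _ ≤ (m * NUX.Fb f x) * q := by
          apply mul_le_mul_of_nonneg_right _ hq0.le
          exact hm1.trans (mul_le_mul_of_nonneg_left h8 (by positivity))
        _ = m * (NUX.Fb f x * q) := by ring
        _ ≤ _ := mul_le_mul_of_nonneg_left hcls (by positivity)
    have h8 : q ^ kM ≤ q ^ k := pow_le_pow_of_le_one hq0.le hq1 hkM2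
    have hd0 : 0 ≤ NUX.Fb f v - NUX.Fb f (v + w) := by linarith [NUX.Fb_anti h (Nat.le_add_right v w)]
    have h9 : (k.factorial : ℝ) ≤ (kM.factorial : ℝ) := by exact_mod_cast Nat.factorial_le hkM2
    have hk0 : (0 : ℝ) < (k.factorial : ℝ) := by exact_mod_cast Nat.factorial_pos k
    calc q ^ kM / (kM.factorial : ℝ) ≤ q ^ k / (k.factorial : ℝ) := by gcongr
      _ ≤ ((m : ℝ) * (NUX.Fb f v - NUX.Fb f (v + w))) ^ k / (k.factorial : ℝ) := by gcongr
      _ = (m : ℝ) ^ k / (k.factorial : ℝ) * (NUX.Fb f v - NUX.Fb f (v + w)) ^ k := by rw [mul_pow]; ring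
      _ ≤ (((2 * m + 1 - k : ℕ) : ℝ) ^ k) / (k.factorial : ℝ) * (NUX.Fb f v - NUX.Fb f (v + w)) ^ k := by gcongr
      _ ≤ _ := mul_le_mul_of_nonneg_right h5 (by positivity)
  calc (q ^ kM / (kM.factorial : ℝ)) * (Real.exp (-E) / 2)
      ≤ (((2 * m).choose k : ℝ) * (NUX.Fb f v - NUX.Fb f (v + w)) ^ k) * ((1 - NUX.Fb f x) ^ (2 * m) / 2) := by
        apply mul_le_mul hs2 (by linarith) (by positivity)
        have hd0 : 0 ≤ NUX.Fb f v - NUX.Fb f (v + w) := by linarith [NUX.Fb_anti h (Nat.le_add_right v w)]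
        positivity
    _ = _ := by ring

end PWR
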