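import Pool.Agent.PW.RenD

/-! Theorem R (helper69), part E: the convolution step and the sum over the number of steps. -/

namespace PWR

open Finset Polynomial Filter

variable {f u : ℕ → ℝ} {a b C : ℝ}

/-- partial sums of the convolution powers are below the renewal sequence -/
lemma sum_pow_le (h : NUX.Ren f u) (n : ℕ) : ∀ M j : ℕ, j ≤ n → ∑ N ∈ range M, (Fp f n ^ N).coeff j ≤ u j := by
  intro M
  induction M with
  | zero => intro j _; simpa using NUX.u_nonneg h j
  | succ M ih =>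
    intro j hj
    rw [sum_range_succ']
    have h1 : ∀ N ∈ range M, (Fp f n ^ (N + 1)).coeff j = ∑ p ∈ antidiagonal j, (Fp f n ^ N).coeff p.1 * (Fp f n).coeff p.2 := by
      intro N _
      rw [pow_succ, coeff_mul]
    rw [sum_congr rfl h1, sum_comm]
    simp_rw [← sum_mul]
    rcases Nat.eq_zero_or_pos j with h0 | h0
    · subst h0
      rw [Finset.Nat.antidiagonal_zero, sum_singleton, coeff_Fp, if_pos (Nat.zero_le _), h.f0]
      simp [h.u0]
    · rw [pow_zero, coeff_one, if_neg (by omega), add_zero]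
      have hj1 : j = (j - 1) + 1 := by omega
      have h2 : u j = ∑ p ∈ antidiagonal j, u p.1 * f p.2 := by
        rw [Nat.antidiagonal_eq_map, sum_map]
        simp only [Function.Embedding.coeFn_mk]
        rw [sum_range_succ]
        simp only [Nat.sub_self, h.f0, mul_zero, add_zero]
        conv_lhs => rw [hj1, h.urec]
        rw [← hj1]
      rw [h2]
      apply sum_le_sum
      intro p hp
      have hp' := mem_antidiagonal.1 hp
      rw [coeff_Fp, if_pos (by omega)]
      exact mul_le_mul_of_nonneg_right (ih p.1 (by omega)) (h.fnn _)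

lemma exists_large {P : ℝ[X]} {S : Finset ℕ} {c : ℝ} {s : ℝ} (hc : 0 < c) (h : c ≤ ms P S) (hs : (S.card : ℝ) ≤ s) :
    ∃ j ∈ S, c / s ≤ P.coeff j := by
  by_contra hcon
  push Not at hcon
  have hne : S.Nonempty := by
    rw [Finset.nonempty_iff_ne_empty]
    intro he
    subst he
    simp [ms] at h
    linarith
  have hcard : (0 : ℝ) < S.card := by exact_mod_cast Finset.card_pos.2 hne
  have hs0 : 0 < s := lt_of_lt_of_le hcard hs
  have h1 : ms P S < ∑ _j ∈ S, c / s := sum_lt_sum_of_nonempty hne fun j hj => hcon j hj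
  rw [sum_const, nsmul_eq_mul] at h1
  have h2 : (S.card : ℝ) * (c / s) ≤ s * (c / s) := mul_le_mul_of_nonneg_right hs (by positivity)
  rw [mul_div_cancel₀ _ hs0.ne'] at h2
  linarith

/-- **the law of `4m` steps has mass `≥ c / n` at `n`** -/
theorem conv_low (h : NUX.Ren f u) (hr : Reg f a b C) : ∃ c > 0, ∀ᶠ n : ℕ in atTop, ∀ m : ℕ, 1 ≤ m * NUX.Fb f n →
    m * NUX.Fb f n ≤ 3 → c / n ≤ (Fp f n ^ (4 * m)).coeff n := by
  obtain ⟨A, hA, hlip⟩ := lip h hr
  -- first window
  obtain ⟨c1, hc1, w1⟩ := window h hr (d := 1 / 4) (by norm_num) (by norm_num)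
  -- δ / n at j0, with δ = c1 / 2
  set δ : ℝ := c1 / 2 with hδ
  have hδ0 : 0 < δ := by rw [hδ]; positivity
  set d2 : ℝ := min (δ / (4 * A)) (1 / 8) with hd2
  have hd20 : 0 < d2 := lt_min (by positivity) (by norm_num)
  have hd21 : d2 ≤ 1 / 8 := min_le_right _ _
  have hd22 : A * d2 ≤ δ / 4 := by
    have : d2 ≤ δ / (4 * A) := min_le_left _ _
    have h1 := mul_le_mul_of_nonneg_left this hA.le
    have h2 : A * (δ / (4 * A)) = δ / 4 := by field_simp
    linarith
  obtain ⟨c2, hc2, w2⟩ := window h hr hd20 (by linarith)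
  set δ2 : ℝ := c2 / 2 with hδ2
  have hδ20 : 0 < δ2 := by rw [hδ2]; positivity
  set d3 : ℝ := min (min (δ2 / (2 * A)) (δ / (4 * A))) (1 / 8) with hd3
  have hd30 : 0 < d3 := lt_min (lt_min (by positivity) (by positivity)) (by norm_num)
  have hd31 : d3 ≤ 1 / 8 := min_le_right _ _
  have hd32 : A * d3 ≤ δ2 / 2 := by
    have : d3 ≤ δ2 / (2 * A) := (min_le_left _ _).trans (min_le_left _ _)
    have h1 := mul_le_mul_of_nonneg_left this hA.le
    have h2 : A * (δ2 / (2 * A)) = δ2 / 2 := by field_simp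
    linarith
  have hd33 : A * d3 ≤ δ / 4 := by
    have : d3 ≤ δ / (4 * A) := (min_le_left _ _).trans (min_le_right _ _)
    have h1 := mul_le_mul_of_nonneg_left this hA.le
    have h2 : A * (δ / (4 * A)) = δ / 4 := by field_simp
    linarith
  refine ⟨d3 / 2 * (δ2 / 2 * (δ / 2)), by positivity, ?_⟩
  have e1 : ∀ᶠ n : ℕ in atTop, (8 : ℝ) ≤ d3 * n :=
    (tendsto_natCast_atTop_atTop.const_mul_atTop hd30).eventually_ge_atTop _
  have e2 : ∀ᶠ n : ℕ in atTop, (8 : ℝ) ≤ d2 * n :=
    (tendsto_natCast_atTop_atTop.const_mul_atTop hd20).eventually_ge_atTop _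
  filter_upwards [w1, w2, e1, e2, eventually_ge_atTop 16] with n hw1 hw2 h3 h4 hn m hm1 hm2
  have hn0 : (0 : ℝ) < n := by exact_mod_cast (by omega : 0 < n)
  have hn16 : (16 : ℝ) ≤ n := by exact_mod_cast hn
  set P := Fp f n ^ (2 * m) with hP
  have hPn : Nn P := (Nn_Fp h n).pow _
  have hL : ∀ i j : ℕ, |P.coeff i - P.coeff j| ≤ A * |(i : ℝ) - j| / (n : ℝ) ^ 2 := hlip n (by omega) m hm1
  -- j0
  have hfl1 : ⌊(1 / 4 : ℝ) * n⌋₊ ≤ n / 2 := by
    rw [Nat.le_div_iff_mul_le (by norm_num)]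
    have := Nat.floor_le (by positivity : (0 : ℝ) ≤ 1 / 4 * n)
    have h5 : ((⌊(1 / 4 : ℝ) * n⌋₊ * 2 : ℕ) : ℝ) ≤ n := by push_cast; linarith
    exact_mod_cast h5
  set D1 := ⌊(1 / 4 : ℝ) * n⌋₊ with hD1
  have hD1le : (D1 : ℝ) ≤ 1 / 4 * n := Nat.floor_le (by positivity)
  obtain ⟨j0, hj0, hj0c⟩ := exists_large (s := n) hc1 (hw1 m hm1 hm2 (n / 2) hfl1 (Nat.div_le_self _ _)) (by
    rw [Nat.card_Icc]
    have h5 : n / 2 + 1 - (n / 2 - D1) = D1 + 1 := by omega
    rw [h5]; push_cast; linarith)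
  rw [mem_Icc] at hj0
  have hj0' : j0 ≤ n / 2 := hj0.2
  have hj0n : 2 * j0 ≤ n := by omega
  have hδj : 2 * δ / n ≤ P.coeff j0 := by
    refine le_trans (le_of_eq ?_) hj0c
    rw [hδ]; ring
  -- j1 close to n - j0
  set D2 := ⌊d2 * n⌋₊ with hD2
  have hD2le : (D2 : ℝ) ≤ d2 * n := Nat.floor_le (by positivity)
  have hD2n : D2 ≤ n - j0 := by
    have h5 : ((D2 * 2 : ℕ) : ℝ) ≤ n := by push_cast; nlinarith
    have h6 : D2 * 2 ≤ n := by exact_mod_cast h5
    omega
  obtain ⟨j1, hj1, hj1c⟩ := exists_large (s := n) hc2 (hw2 m hm1 hm2 (n - j0) hD2n (Nat.sub_le _ _)) (by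
    rw [Nat.card_Icc]
    have h5 : n - j0 + 1 - (n - j0 - D2) = D2 + 1 := by omega
    rw [h5]; push_cast; nlinarith)
  rw [mem_Icc] at hj1
  have hδ2j : 2 * δ2 / n ≤ P.coeff j1 := by
    refine le_trans (le_of_eq ?_) hj1c
    rw [hδ2]; ring
  -- the block
  set D3 := ⌊d3 * n⌋₊ with hD3
  have hD3le : (D3 : ℝ) ≤ d3 * n := Nat.floor_le (by positivity)
  have hD3ge : d3 * n / 2 ≤ D3 := by
    have := Nat.lt_floor_add_one (d3 * n); rw [← hD3] at this; linarith
  have hj1n : D3 ≤ j1 := by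
    have h5 : ((D3 + D2 + j0 : ℕ) : ℝ) ≤ n := by
      push_cast
      have h6 : (2 : ℝ) * j0 ≤ n := by exact_mod_cast hj0n
      nlinarith
    have h6 : D3 + D2 + j0 ≤ n := by exact_mod_cast h5
    omega
  -- lower bound on the block {j1 - t : t < D3}
  have hblock : ∀ t ∈ range D3, δ2 / 2 / n * (δ / 2 / n) ≤ P.coeff (j1 - t) * P.coeff (n - (j1 - t)) := by
    intro t ht
    have ht' := mem_range.1 ht
    have htr : (t : ℝ) ≤ d3 * n := by
      have : (t : ℝ) ≤ D3 := by exact_mod_cast ht'.le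
      linarith
    have e3 : ((j1 - t : ℕ) : ℝ) = (j1 : ℝ) - t := by
      rw [Nat.cast_sub (by omega)]
    have h5 := hL j1 (j1 - t)
    rw [e3] at h5
    have h6 : |(j1 : ℝ) - (j1 - t)| = t := by
      rw [show (j1 : ℝ) - (j1 - t) = t by ring]; exact abs_of_nonneg (by positivity)
    rw [h6] at h5
    have h7 : A * t / (n : ℝ) ^ 2 ≤ δ2 / 2 / n := by
      rw [div_le_div_iff₀ (by positivity) hn0]
      have h8 : A * t ≤ δ2 / 2 * n := by
        calc A * t ≤ A * (d3 * n) := mul_le_mul_of_nonneg_left htr hA.le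
          _ = (A * d3) * n := by ring
          _ ≤ _ := mul_le_mul_of_nonneg_right hd32 hn0.le
      nlinarith
    have h8 : δ2 / 2 / n ≤ P.coeff (j1 - t) := by
      have h9 := (abs_le.1 (h5.trans h7)).2
      have h10 : 2 * δ2 / n = δ2 / 2 / n + δ2 / 2 / n + δ2 / n := by ring
      have h11 : 0 ≤ δ2 / n := by positivity
      linarith
    -- the other factor
    have h12 : ((n - (j1 - t) : ℕ) : ℝ) = (n : ℝ) - j1 + t := by
      rw [Nat.cast_sub (by omega), Nat.cast_sub (by omega)]; ring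
    have h13 := hL j0 (n - (j1 - t))
    rw [h12] at h13
    have h14 : |(j0 : ℝ) - ((n : ℝ) - j1 + t)| ≤ d2 * n + d3 * n := by
      have h15 : (j1 : ℝ) ≤ n - j0 := by
        have : ((j1 + j0 : ℕ) : ℝ) ≤ n := by exact_mod_cast (by omega : j1 + j0 ≤ n)
        push_cast at this; linarith
      have h16 : (n : ℝ) - j0 - D2 ≤ j1 := by
        have : ((n : ℕ) : ℝ) ≤ ((j1 + j0 + D2 : ℕ) : ℝ) := by exact_mod_cast (by omega : n ≤ j1 + j0 + D2)
        push_cast at this; linarith
      rw [abs_le]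
      have : (0 : ℝ) ≤ t := by positivity
      constructor <;> linarith
    have h15 : A * |(j0 : ℝ) - ((n : ℝ) - j1 + t)| / (n : ℝ) ^ 2 ≤ δ / 2 / n := by
      rw [div_le_div_iff₀ (by positivity) hn0]
      have h8 : A * |(j0 : ℝ) - ((n : ℝ) - j1 + t)| ≤ δ / 2 * n := by
        calc A * |(j0 : ℝ) - ((n : ℝ) - j1 + t)| ≤ A * (d2 * n + d3 * n) := mul_le_mul_of_nonneg_left h14 hA.le
          _ = (A * d2 + A * d3) * n := by ring
          _ ≤ (δ / 4 + δ / 4) * n := by gcongr
          _ = _ := by ring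
      nlinarith
    have h16 : δ / 2 / n ≤ P.coeff (n - (j1 - t)) := by
      have h9 := (abs_le.1 (h13.trans h15)).2
      have h10 : 2 * δ / n = δ / 2 / n + δ / 2 / n + δ / n := by ring
      have h11 : 0 ≤ δ / n := by positivity
      linarith
    exact mul_le_mul h8 h16 (by positivity) (hPn _)
  have hsum : ∑ t ∈ range D3, P.coeff (j1 - t) * P.coeff (n - (j1 - t)) ≤ (P * P).coeff n := by
    rw [coeff_mul]
    have hinj : Set.InjOn (fun t : ℕ => ((j1 - t, n - (j1 - t)) : ℕ × ℕ)) (range D3 : Set ℕ) := by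
      intro s hs t ht hst
      simp only [coe_range, Set.mem_Iio] at hs ht
      have := (Prod.ext_iff.1 hst).1
      simp only at this
      omega
    rw [← sum_image (f := fun p : ℕ × ℕ => P.coeff p.1 * P.coeff p.2) hinj]
    apply sum_le_sum_of_subset_of_nonneg
    · intro p hp
      obtain ⟨t, ht, rfl⟩ := mem_image.1 hp
      rw [HasAntidiagonal.mem_antidiagonal]
      have := mem_range.1 ht
      simp only
      omega
    · intro p _ _
      exact mul_nonneg (hPn _) (hPn _)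
  have hPP : Fp f n ^ (4 * m) = P * P := by rw [hP, ← pow_add]; congr 1; ring
  rw [hPP]
  refine le_trans ?_ ((sum_le_sum hblock).trans hsum)
  rw [sum_const, card_range, nsmul_eq_mul]
  calc d3 / 2 * (δ2 / 2 * (δ / 2)) / n = (d3 * n / 2) * (δ2 / 2 / n * (δ / 2 / n)) := by field_simp
    _ ≤ D3 * (δ2 / 2 / n * (δ / 2 / n)) := by
      apply mul_le_mul_of_nonneg_right hD3ge (by positivity)

lemma u_pos (h : NUX.Ren f u) (n : ℕ) : 0 < u n := by
  have h1 : ∀ n, f 1 ^ n ≤ u n := by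
    intro n
    induction n with
    | zero => rw [h.u0]; simp
    | succ n ih =>
      rw [h.urec]
      have h2 := single_le_sum (f := fun k => u k * f (n + 1 - k)) (s := range (n + 1))
        (fun k _ => mul_nonneg (NUX.u_nonneg h k) (h.fnn _)) (mem_range.2 (Nat.lt_succ_self n))
      refine le_trans ?_ h2
      simp only [show n + 1 - n = 1 by omega]
      rw [pow_succ]
      exact mul_le_mul_of_nonneg_right ih h.f1.le
  exact lt_of_lt_of_le (pow_pos h.f1 n) (h1 n)

/-- **Theorem R, tail form.** -/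
theorem u_low (h : NUX.Ren f u) (hr : Reg f a b C) : ∃ c > 0, ∀ n : ℕ, 1 ≤ n → c / (n * NUX.Fb f n) ≤ u n := by
  obtain ⟨c, hc, hE⟩ := conv_low h hr
  have hC := hr.C1
  have ha := hr.a0
  have tF : Tendsto (fun n : ℕ => C * ((n : ℝ)) ^ (-a)) atTop (nhds (C * 0)) :=
    ((tendsto_rpow_neg_atTop ha).comp tendsto_natCast_atTop_atTop).const_mul C
  rw [mul_zero] at tF
  have e1 := tF.eventually (gt_mem_nhds (by norm_num : (0 : ℝ) < 1 / 4))
  -- for large n
  have hlarge : ∀ᶠ n : ℕ in atTop, c / 4 / (n * NUX.Fb f n) ≤ u n := by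
    filter_upwards [hE, e1, eventually_ge_atTop 1] with n h1 h2 hn1
    have hn0 : (0 : ℝ) < n := by exact_mod_cast hn1
    have hF := Fb_pos h hr n
    have hF4 : NUX.Fb f n ≤ 1 / 4 := by
      have h5 := hr.lo 1 n le_rfl hn1
      have h6 := NUX.Fb_le_one h 1
      have h8 : (((1 : ℕ) : ℝ) / n) ^ a = (n : ℝ) ^ (-a) := by
        push_cast
        rw [one_div, Real.inv_rpow hn0.le, ← Real.rpow_neg hn0.le]
      rw [h8] at h5
      have h9 : 0 ≤ C * (n : ℝ) ^ (-a) := by positivity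
      nlinarith
    set M0 := ⌈1 / NUX.Fb f n⌉₊ with hM0
    set M1 := ⌊2 / NUX.Fb f n⌋₊ with hM1
    have hM0a : 1 / NUX.Fb f n ≤ M0 := Nat.le_ceil _
    have hM0b : (M0 : ℝ) < 1 / NUX.Fb f n + 1 := Nat.ceil_lt_add_one (by positivity)
    have hM1a : (M1 : ℝ) ≤ 2 / NUX.Fb f n := Nat.floor_le (by positivity)
    have hM1b : 2 / NUX.Fb f n < M1 + 1 := Nat.lt_floor_add_one _
    have hq : 4 ≤ 1 / NUX.Fb f n := by
      rw [le_div_iff₀ hF]; linarith
    have h21 : 2 / NUX.Fb f n = 2 * (1 / NUX.Fb f n) := by ring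
    have hcard : 1 / NUX.Fb f n / 4 ≤ ((Icc M0 M1).card : ℝ) := by
      rw [Nat.card_Icc]
      have hle : M0 ≤ M1 + 1 := by
        have : (M0 : ℝ) ≤ ((M1 + 1 : ℕ) : ℝ) := by push_cast; linarith
        exact_mod_cast this
      rw [Nat.cast_sub hle]
      push_cast
      linarith
    have hmem : ∀ m ∈ Icc M0 M1, c / n ≤ (Fp f n ^ (4 * m)).coeff n := by
      intro m hm
      rw [mem_Icc] at hm
      have hm1 : (M0 : ℝ) ≤ m := by exact_mod_cast hm.1
      have hm2 : (m : ℝ) ≤ M1 := by exact_mod_cast hm.2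
      apply h1 m
      · have : 1 / NUX.Fb f n ≤ m := hM0a.trans hm1
        rwa [div_le_iff₀ hF] at this
      · have : (m : ℝ) ≤ 2 / NUX.Fb f n := hm2.trans hM1a
        rw [le_div_iff₀ hF] at this
        linarith
    have hsum := sum_pow_le h n (4 * M1 + 1) n le_rfl
    have hsub : ∑ m ∈ Icc M0 M1, (Fp f n ^ (4 * m)).coeff n ≤ ∑ N ∈ range (4 * M1 + 1), (Fp f n ^ N).coeff n := by
      have hinj : Set.InjOn (fun m : ℕ => 4 * m) (Icc M0 M1 : Set ℕ) := by
        intro s _ t _ hst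
        simp only at hst
        omega
      have := sum_image (f := fun N : ℕ => (Fp f n ^ N).coeff n) (s := Icc M0 M1) (g := fun m : ℕ => 4 * m) (by
        intro s _ t _ hst; simp only at hst; omega)
      rw [← this]
      apply sum_le_sum_of_subset_of_nonneg
      · intro p hp
        obtain ⟨t, ht, rfl⟩ := mem_image.1 hp
        rw [mem_Icc] at ht
        exact mem_range.2 (by omega)
      · intro p _ _
        exact ((Nn_Fp h n).pow p) n
    refine le_trans ?_ (hsub.trans hsum)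
    refine le_trans ?_ (sum_le_sum hmem)
    rw [sum_const, nsmul_eq_mul]
    calc c / 4 / (n * NUX.Fb f n) = 1 / NUX.Fb f n / 4 * (c / n) := by field_simp
      _ ≤ _ := mul_le_mul_of_nonneg_right hcard (by positivity)
  -- small n
  obtain ⟨n0, hn0⟩ := eventually_atTop.1 hlarge
  have hsm : ∃ c' > 0, ∀ n ∈ Icc 1 n0, c' / (n * NUX.Fb f n) ≤ u n := by
    obtain ⟨c', hc', hmin⟩ : ∃ c' > 0, ∀ n ∈ Icc 1 n0, c' ≤ u n * (n * NUX.Fb f n) := by
      clear hn0
      induction n0 with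
      | zero => exact ⟨1, one_pos, fun n hn => by simp at hn⟩
      | succ N ih =>
        obtain ⟨c', hc', ih⟩ := ih
        have hpos : 0 < u (N + 1) * (((N + 1 : ℕ) : ℝ) * NUX.Fb f (N + 1)) := by
          have := u_pos h (N + 1)
          have := Fb_pos h hr (N + 1)
          positivity
        refine ⟨min c' (u (N + 1) * (((N + 1 : ℕ) : ℝ) * NUX.Fb f (N + 1))), lt_min hc' hpos, fun n hn => ?_⟩
        rw [mem_Icc] at hn
        rcases Nat.lt_or_ge n (N + 1) with hlt | hge
        · exact (min_le_left _ _).trans (ih n (mem_Icc.2 ⟨hn.1, by omega⟩))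
        · have : n = N + 1 := by omega
          subst this
          exact min_le_right _ _
    refine ⟨c', hc', fun n hn => ?_⟩
    have hn1 := (mem_Icc.1 hn).1
    have hnr : (0 : ℝ) < n := by exact_mod_cast hn1
    have hF := Fb_pos h hr n
    rw [div_le_iff₀ (by positivity)]
    exact hmin n hn
  obtain ⟨c', hc', hs⟩ := hsm
  refine ⟨min (c / 4) c', lt_min (by positivity) hc', fun n hn => ?_⟩
  have hnr : (0 : ℝ) < n := by exact_mod_cast hn
  have hF := Fb_pos h hr n
  rcases le_total n n0 with hle | hge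
  · refine le_trans ?_ (hs n (mem_Icc.2 ⟨hn, hle⟩))
    exact div_le_div_of_nonneg_right (min_le_right _ _) (by positivity)
  · refine le_trans ?_ (hn0 n hge)
    exact div_le_div_of_nonneg_right (min_le_left _ _) (by positivity)

end PWR
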