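import Pool.Agent.PW.RenE

/-! **Theorem R** (helper69), final form: if the cumulative renewal function has both indices in `(0,1)` up to constants,
`u n ≥ c U(n) / n` for every `n`. -/

namespace PWR

open Finset

variable {f u : ℕ → ℝ}

/-- partial sums -/
def W (u : ℕ → ℝ) (x : ℕ) : ℝ := ∑ j ∈ range x, u j

lemma W_succ_eq (u : ℕ → ℝ) (n : ℕ) : W u (n + 1) = NUX.UU u n := rfl

lemma W_mono (h : NUX.Ren f u) : Monotone (W u) := fun _ _ hxy =>
  sum_le_sum_of_subset_of_nonneg (range_mono hxy) fun j _ _ => NUX.u_nonneg h j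

lemma W_pos (h : NUX.Ren f u) {x : ℕ} (hx : 1 ≤ x) : 1 ≤ W u x := by
  obtain ⟨n, rfl⟩ : ∃ n, x = n + 1 := ⟨x - 1, by omega⟩
  have := single_le_sum (f := u) (s := range (n + 1)) (fun j _ => NUX.u_nonneg h j) (mem_range.2 (Nat.succ_pos n))
  rw [h.u0] at this
  exact this

/-- both indices, with constants -/
structure Ind (u : ℕ → ℝ) (a b c C : ℝ) : Prop where
  a0 : 0 < a
  ab : a ≤ b
  b1 : b < 1
  c0 : 0 < c
  lo : ∀ k x : ℕ, 1 ≤ k → 1 ≤ x → c * (k : ℝ) ^ a * W u x ≤ W u (k * x)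
  up : ∀ k x : ℕ, 1 ≤ k → 1 ≤ x → W u (k * x) ≤ C * (k : ℝ) ^ b * W u x

lemma Ind.real {a b c C : ℝ} (h : NUX.Ren f u) (hi : Ind u a b c C) {x y : ℕ} (hx : 1 ≤ x) (hxy : x ≤ y) :
    c * (2 : ℝ) ^ (-a) * ((y : ℝ) / x) ^ a * W u x ≤ W u y ∧ W u y ≤ C * (2 : ℝ) ^ b * ((y : ℝ) / x) ^ b * W u x := by
  have hx0 : (0 : ℝ) < x := by exact_mod_cast hx
  have hy0 : (0 : ℝ) < y := by exact_mod_cast (by omega : 0 < y)
  have hc := hi.c0
  have ha := hi.a0
  have hb : 0 < b := lt_of_lt_of_le ha hi.ab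
  have hWx : 0 < W u x := lt_of_lt_of_le one_pos (W_pos h hx)
  have hC0 : 0 < C := by
    have h1 := hi.up 1 x le_rfl hx
    simp only [one_mul, Nat.cast_one, Real.one_rpow, mul_one] at h1
    by_contra hcon
    push Not at hcon
    have : C * W u x ≤ 0 := mul_nonpos_of_nonpos_of_nonneg hcon hWx.le
    linarith
  set k := y / x with hk
  have hk1 : 1 ≤ k := (Nat.one_le_div_iff (by omega)).2 hxy
  have hkx : k * x ≤ y := Nat.div_mul_le_self y x
  have hkx2 : y < (k + 1) * x := by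
    have h5 := Nat.div_add_mod y x
    have h6 := Nat.mod_lt y (by omega : x > 0)
    rw [← hk] at h5
    nlinarith
  have hk0 : (0 : ℝ) < k := by exact_mod_cast hk1
  have hkr : (k : ℝ) ≤ (y : ℝ) / x := by
    rw [le_div_iff₀ hx0]; exact_mod_cast hkx
  have hkr2 : (y : ℝ) / x < k + 1 := by
    rw [div_lt_iff₀ hx0]; exact_mod_cast hkx2
  have hk1r : (1 : ℝ) ≤ k := by exact_mod_cast hk1
  constructor
  · refine le_trans ?_ ((hi.lo k x hk1 hx).trans (W_mono h hkx))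
    apply mul_le_mul_of_nonneg_right _ hWx.le
    rw [mul_assoc]
    apply mul_le_mul_of_nonneg_left _ hc.le
    have h1 : (2 : ℝ) ^ (-a) * ((y : ℝ) / x) ^ a = ((y : ℝ) / x / 2) ^ a := by
      have h2 := Real.div_rpow (show (0 : ℝ) ≤ (y : ℝ) / x by positivity) (show (0 : ℝ) ≤ 2 by norm_num) a
      rw [h2, Real.rpow_neg (by norm_num)]
      ring
    rw [h1]
    apply Real.rpow_le_rpow (by positivity) _ ha.le
    linarith
  · refine (W_mono h hkx2.le).trans ((hi.up (k + 1) x (by omega) hx).trans ?_)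
    apply mul_le_mul_of_nonneg_right _ hWx.le
    rw [mul_assoc]
    apply mul_le_mul_of_nonneg_left _ hC0.le
    rw [← Real.mul_rpow (by norm_num) (by positivity)]
    apply Real.rpow_le_rpow (by positivity) _ hb.le
    push_cast
    linarith

/-- the tail is `1 / W`, both sides -/
lemma Fb_two {a b c C : ℝ} (h : NUX.Ren f u) (hi : Ind u a b c C) : ∃ B : ℝ, 1 ≤ B ∧ ∀ x : ℕ, 1 ≤ x →
    NUX.Fb f x ≤ 2 / W u x ∧ 1 / (B * W u x) ≤ NUX.Fb f x := by
  have hb1 : 0 < 1 - b := by have := hi.b1; linarith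
  have hmW : ∀ x : ℕ, 1 ≤ x → (x : ℝ) ≤ W u x * NUX.mm f x ∧ W u x * NUX.mm f x ≤ 2 * x := by
    intro x hx
    obtain ⟨n, rfl⟩ : ∃ n, x = n + 1 := ⟨x - 1, by omega⟩
    rw [W_succ_eq]
    have h1 := NUX.UM_lower h n
    have h2 := NUX.UM_upper h n
    push_cast
    exact ⟨h1, by linarith⟩
  have hC0 : 0 < C := by
    have h1 := hi.up 1 1 le_rfl le_rfl
    have h2 := W_pos h (le_refl 1)
    simp only [Nat.cast_one, Real.one_rpow, mul_one] at h1
    by_contra hcon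
    push Not at hcon
    have : C * W u 1 ≤ 0 := mul_nonpos_of_nonpos_of_nonneg hcon (by linarith)
    linarith
  -- multiplier
  obtain ⟨k, hk1, hk⟩ : ∃ k : ℕ, 1 ≤ k ∧ 4 * C * 2 ^ b ≤ (k : ℝ) ^ (1 - b) := by
    have t1 := (tendsto_rpow_atTop hb1).comp (tendsto_natCast_atTop_atTop (R := ℝ))
    obtain ⟨k, h1, h2⟩ := ((t1.eventually_ge_atTop (4 * C * 2 ^ b)).and (Filter.eventually_ge_atTop 1)).exists
    exact ⟨k, h2, h1⟩
  have hk0 : (0 : ℝ) < k := by exact_mod_cast hk1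
  refine ⟨k, by exact_mod_cast hk1, fun x hx => ?_⟩
  have hx0 : (0 : ℝ) < x := by exact_mod_cast hx
  have hWx : 0 < W u x := lt_of_lt_of_le one_pos (W_pos h hx)
  obtain ⟨g1, g2⟩ := hmW x hx
  constructor
  · have h1 := NUX.mul_Fb_le h x
    rw [le_div_iff₀ hWx]
    have h2 : (x : ℝ) * (NUX.Fb f x * W u x) ≤ x * 2 := by nlinarith
    exact le_of_mul_le_mul_left h2 hx0
  · -- mm (k x) ≥ 2 mm x
    have hkx1 : 1 ≤ k * x := Nat.one_le_iff_ne_zero.2 (by positivity)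
    have hxkx : x ≤ k * x := Nat.le_mul_of_pos_left x (by omega)
    obtain ⟨g3, _⟩ := hmW (k * x) hkx1
    have h1 := (hi.real h hx hxkx).2
    have h2 : ((k * x : ℕ) : ℝ) / x = k := by push_cast; field_simp
    rw [h2] at h1
    have hWk : 0 < W u (k * x) := lt_of_lt_of_le one_pos (W_pos h hkx1)
    have h3 : 2 * NUX.mm f x ≤ NUX.mm f (k * x) := by
      have h4 : W u (k * x) * (2 * NUX.mm f x) ≤ W u (k * x) * NUX.mm f (k * x) := by
        refine le_trans ?_ g3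
        calc W u (k * x) * (2 * NUX.mm f x) ≤ C * 2 ^ b * (k : ℝ) ^ b * W u x * (2 * NUX.mm f x) :=
              mul_le_mul_of_nonneg_right h1 (by have := NUX.mm_nonneg h x; linarith)
          _ = C * 2 ^ b * (k : ℝ) ^ b * 2 * (W u x * NUX.mm f x) := by ring
          _ ≤ C * 2 ^ b * (k : ℝ) ^ b * 2 * (2 * x) := mul_le_mul_of_nonneg_left g2 (by positivity)
          _ = (4 * C * 2 ^ b) * (k : ℝ) ^ b * x := by ring
          _ ≤ (k : ℝ) ^ (1 - b) * (k : ℝ) ^ b * x := by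
              apply mul_le_mul_of_nonneg_right _ hx0.le
              exact mul_le_mul_of_nonneg_right hk (by positivity)
          _ = ((k * x : ℕ) : ℝ) := by
              rw [← Real.rpow_add hk0]; push_cast; simp
      exact le_of_mul_le_mul_left h4 hWk
    have h5 := NUX.mm_sub_le h hxkx
    have hF0 := NUX.Fb_nonneg h x
    have h6 : NUX.mm f x ≤ k * x * NUX.Fb f x := by
      push_cast at h5
      nlinarith
    rw [div_le_iff₀ (by positivity)]
    have h7 : (x : ℝ) * 1 ≤ x * (NUX.Fb f x * (k * W u x)) := by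
      calc (x : ℝ) * 1 = x := mul_one _
        _ ≤ W u x * NUX.mm f x := g1
        _ ≤ W u x * (k * x * NUX.Fb f x) := mul_le_mul_of_nonneg_left h6 hWx.le
        _ = _ := by ring
    exact le_of_mul_le_mul_left h7 hx0

lemma reg_of_ind {a b c C : ℝ} (h : NUX.Ren f u) (h2 : 0 < f 2) (hi : Ind u a b c C) : ∃ C' : ℝ, Reg f a b C' := by
  obtain ⟨B, hB, hF⟩ := Fb_two h hi
  have ha := hi.a0
  have hb : 0 < b := lt_of_lt_of_le ha hi.ab
  have hc := hi.c0
  have hC0 : 0 < C := by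
    have h1 := hi.up 1 1 le_rfl le_rfl
    have h2 := W_pos h (le_refl 1)
    simp only [Nat.cast_one, Real.one_rpow, mul_one] at h1
    by_contra hcon
    push Not at hcon
    have : C * W u 1 ≤ 0 := mul_nonpos_of_nonpos_of_nonneg hcon (by linarith)
    linarith
  have hB0 : 0 < B := by linarith
  have hc2 : 0 < c * (2 : ℝ) ^ (-a) := by positivity
  refine ⟨max 1 (max (2 * B / (c * (2 : ℝ) ^ (-a))) (2 * B * (C * 2 ^ b))), ha, hb.le, hi.b1, le_max_left _ _, h2, ?_, ?_⟩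
  · intro x y hx hxy
    have hx0 : (0 : ℝ) < x := by exact_mod_cast hx
    have hy1 : 1 ≤ y := by omega
    have hy0 : (0 : ℝ) < y := by exact_mod_cast hy1
    have hWx : 0 < W u x := lt_of_lt_of_le one_pos (W_pos h hx)
    have hWy : 0 < W u y := lt_of_lt_of_le one_pos (W_pos h hy1)
    have h3 := (hF y hy1).1
    have h4 := (hF x hx).2
    have h5 := (hi.real h hx hxy).1
    have hF0 := NUX.Fb_nonneg h x
    have e : ((x : ℝ) / y) ^ a = (((y : ℝ) / x) ^ a)⁻¹ := by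
      rw [← Real.inv_rpow (by positivity), inv_div]
    have hR : 0 < ((y : ℝ) / x) ^ a := by positivity
    calc NUX.Fb f y ≤ 2 / W u y := h3
      _ ≤ 2 / (c * (2 : ℝ) ^ (-a) * ((y : ℝ) / x) ^ a * W u x) := by
          apply div_le_div_of_nonneg_left (by norm_num) (by positivity) h5
      _ = 2 * B / (c * (2 : ℝ) ^ (-a)) * ((x : ℝ) / y) ^ a * (1 / (B * W u x)) := by
          rw [e]; field_simp
      _ ≤ 2 * B / (c * (2 : ℝ) ^ (-a)) * ((x : ℝ) / y) ^ a * NUX.Fb f x :=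
          mul_le_mul_of_nonneg_left h4 (by positivity)
      _ ≤ _ := by
          apply mul_le_mul_of_nonneg_right _ hF0
          apply mul_le_mul_of_nonneg_right _ (by positivity)
          exact (le_max_left _ _).trans (le_max_right _ _)
  · intro x y hx hxy
    have hx0 : (0 : ℝ) < x := by exact_mod_cast hx
    have hy1 : 1 ≤ y := by omega
    have hy0 : (0 : ℝ) < y := by exact_mod_cast hy1
    have hWx : 0 < W u x := lt_of_lt_of_le one_pos (W_pos h hx)
    have hWy : 0 < W u y := lt_of_lt_of_le one_pos (W_pos h hy1)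
    have h3 := (hF x hx).1
    have h4 := (hF y hy1).2
    have h5 := (hi.real h hx hxy).2
    have hF0 := NUX.Fb_nonneg h y
    have hR : 0 < ((y : ℝ) / x) ^ b := by positivity
    calc NUX.Fb f x ≤ 2 / W u x := h3
      _ = 2 * (C * 2 ^ b) * ((y : ℝ) / x) ^ b / (C * 2 ^ b * ((y : ℝ) / x) ^ b * W u x) := by field_simp
      _ ≤ 2 * (C * 2 ^ b) * ((y : ℝ) / x) ^ b / W u y :=
          div_le_div_of_nonneg_left (by positivity) hWy h5
      _ = 2 * B * (C * 2 ^ b) * ((y : ℝ) / x) ^ b * (1 / (B * W u y)) := by field_simp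
      _ ≤ 2 * B * (C * 2 ^ b) * ((y : ℝ) / x) ^ b * NUX.Fb f y := mul_le_mul_of_nonneg_left h4 (by positivity)
      _ ≤ _ := by
          apply mul_le_mul_of_nonneg_right _ hF0
          apply mul_le_mul_of_nonneg_right _ (by positivity)
          exact (le_max_right _ _).trans (le_max_right _ _)

/-- **Theorem R.** Both indices of `W` in `(0,1)` up to constants imply `u n ≥ c W(n) / n` for EVERY `n ≥ 1`. -/
theorem renewal_low {a b c C : ℝ} (h : NUX.Ren f u) (h2 : 0 < f 2) (hi : Ind u a b c C) :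
    ∃ c' > 0, ∀ n : ℕ, 1 ≤ n → c' * (W u n / n) ≤ u n := by
  obtain ⟨C', hr⟩ := reg_of_ind h h2 hi
  obtain ⟨B, hB, hF⟩ := Fb_two h hi
  obtain ⟨c1, hc1, hu⟩ := u_low h hr
  refine ⟨c1 / 2, by positivity, fun n hn => ?_⟩
  have hn0 : (0 : ℝ) < n := by exact_mod_cast hn
  have hWn : 0 < W u n := lt_of_lt_of_le one_pos (W_pos h hn)
  have hFn := Fb_pos h hr n
  refine le_trans ?_ (hu n hn)
  have h3 := (hF n hn).1
  calc c1 / 2 * (W u n / n) = c1 / (n * (2 / W u n)) := by field_simp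
    _ ≤ _ := by
      apply div_le_div_of_nonneg_left hc1.le (by positivity)
      exact mul_le_mul_of_nonneg_left h3 hn0.le

/-- Theorem R with powers: `W(n) ≥ n^(α - o(1))` gives `u n ≥ n^(α - 1 - o(1))` for EVERY `n`. -/
theorem renewal_lo {a b c C α : ℝ} (h : NUX.Ren f u) (h2 : 0 < f 2) (hi : Ind u a b c C) (hL : NUX.Lo (NUX.UU u) α) :
    NUX.Lo u (α - 1) := by
  obtain ⟨c', hc', hu⟩ := renewal_low h h2 hi
  intro ε hε
  obtain ⟨c1, hc1, h1⟩ := hL ε hε
  have hp : 0 < (2 : ℝ) ^ (-|α - ε|) := by positivity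
  refine ⟨c' * (c1 * (2 : ℝ) ^ (-|α - ε|)) ⊓ u 1, lt_min (by positivity) (u_pos h 1), fun n hn => ?_⟩
  rcases Nat.lt_or_ge n 2 with h3 | h3
  · have : n = 1 := by omega
    subst this
    simp
  · refine le_trans ?_ (hu n hn)
    have hn0 : (0 : ℝ) < n := by exact_mod_cast hn
    obtain ⟨k, rfl⟩ : ∃ k, n = k + 1 := ⟨n - 1, by omega⟩
    have hk1 : 1 ≤ k := by omega
    have hk0 : (0 : ℝ) < k := by exact_mod_cast hk1
    have h4 := h1 k hk1
    rw [← W_succ_eq] at h4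
    have h5 : (2 : ℝ) ^ (-|α - ε|) * ((k + 1 : ℕ) : ℝ) ^ (α - ε) ≤ (k : ℝ) ^ (α - ε) := by
      have hk2 : ((k + 1 : ℕ) : ℝ) ≤ 2 * k := by
        push_cast
        have : (1 : ℝ) ≤ k := by exact_mod_cast hk1
        linarith
      have hk3 : (k : ℝ) ≤ ((k + 1 : ℕ) : ℝ) := by push_cast; linarith
      rcases le_total 0 (α - ε) with h0 | h0
      · rw [abs_of_nonneg h0]
        calc (2 : ℝ) ^ (-(α - ε)) * ((k + 1 : ℕ) : ℝ) ^ (α - ε) ≤ (2 : ℝ) ^ (-(α - ε)) * (2 * k) ^ (α - ε) := by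
              apply mul_le_mul_of_nonneg_left (Real.rpow_le_rpow hn0.le hk2 h0) (by positivity)
          _ = (k : ℝ) ^ (α - ε) := by
              rw [Real.mul_rpow (by norm_num) hk0.le, ← mul_assoc, ← Real.rpow_add (by norm_num)]; simp
      · rw [abs_of_nonpos h0, neg_neg]
        calc (2 : ℝ) ^ (α - ε) * ((k + 1 : ℕ) : ℝ) ^ (α - ε) ≤ 1 * (k : ℝ) ^ (α - ε) := by
              apply mul_le_mul _ (Real.rpow_le_rpow_of_nonpos hk0 hk3 h0) (by positivity) (by norm_num)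
              exact Real.rpow_le_one_of_one_le_of_nonpos (by norm_num) h0
          _ = _ := one_mul _
    have e : ((k + 1 : ℕ) : ℝ) ^ (α - 1 - ε) = ((k + 1 : ℕ) : ℝ) ^ (α - ε) / ((k + 1 : ℕ) : ℝ) := by
      rw [show α - 1 - ε = (α - ε) - 1 by ring, Real.rpow_sub_one hn0.ne']
    rw [e]
    calc (c' * (c1 * (2 : ℝ) ^ (-|α - ε|)) ⊓ u 1) * (((k + 1 : ℕ) : ℝ) ^ (α - ε) / ((k + 1 : ℕ) : ℝ))
        ≤ c' * (c1 * (2 : ℝ) ^ (-|α - ε|)) * (((k + 1 : ℕ) : ℝ) ^ (α - ε) / ((k + 1 : ℕ) : ℝ)) := by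
          apply mul_le_mul_of_nonneg_right inf_le_left (by positivity)
      _ = c' * (c1 * ((2 : ℝ) ^ (-|α - ε|) * ((k + 1 : ℕ) : ℝ) ^ (α - ε)) / ((k + 1 : ℕ) : ℝ)) := by ring
      _ ≤ c' * (W u (k + 1) / ((k + 1 : ℕ) : ℝ)) := by
          apply mul_le_mul_of_nonneg_left _ hc'.le
          apply div_le_div_of_nonneg_right _ hn0.le
          exact (mul_le_mul_of_nonneg_left h5 hc1.le).trans h4

end PWR
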