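import Pool.Agent.PW.RenF

/-!
# The pointwise upper bound of a renewal sequence of lower index `> 1/2`, with constants, general indices (helper69)

`PWR.Ind u a b c C` with `a > 1/2` implies `u n ≤ C' W(n) / n` for every `n`. (Fourier part: helper37, helper90.)
-/

set_option autoImplicit false

namespace PWR

open Finset Complex MeasureTheory NUX

variable {f u : ℕ → ℝ} {a b C : ℝ}

lemma S2_low (h : Ren f u) (hr : Reg f a b C) : ∃ c > 0, ∀ N n : ℕ, 1 ≤ N → N ≤ n →
    c * (N : ℝ) ^ 2 * ((n : ℝ) / N) ^ a * Fb f n ≤ S2 f N := by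
  obtain ⟨K, hK2, hK⟩ := exists_K hr
  have hC := hr.C1
  have hC0 : 0 < C := by linarith
  have ha := hr.a0
  have hf1 := h.f1
  have hKr : (0 : ℝ) < K := by exact_mod_cast (by omega : 0 < K)
  refine ⟨min (1 / (C * (4 * K ^ 2))) (f 1 / (C * K ^ 2)), lt_min (by positivity) (by positivity), ?_⟩
  intro N n hN hNn
  have hN0 : (0 : ℝ) < N := by exact_mod_cast hN
  have hn0 : (0 : ℝ) < n := by exact_mod_cast (by omega : 0 < n)
  have hFn := Fb_nonneg h n
  have hFN := Fb_nonneg h N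
  have h1 := hr.lo N n hN hNn
  have e : ((N : ℝ) / n) ^ a = (((n : ℝ) / N) ^ a)⁻¹ := by
    rw [← Real.inv_rpow (by positivity), inv_div]
  have hR : 0 < ((n : ℝ) / N) ^ a := by positivity
  have h2 : ((n : ℝ) / N) ^ a * Fb f n ≤ C * Fb f N := by
    rw [e] at h1
    calc ((n : ℝ) / N) ^ a * Fb f n ≤ ((n : ℝ) / N) ^ a * (C * (((n : ℝ) / N) ^ a)⁻¹ * Fb f N) :=
          mul_le_mul_of_nonneg_left h1 hR.le
      _ = C * Fb f N := by field_simp
  rcases Nat.lt_or_ge N K with hlt | hge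
  · -- small N
    have h3 := S2_ge_one h hN
    have h4 : (N : ℝ) ^ 2 ≤ (K : ℝ) ^ 2 := by
      have : (N : ℝ) ≤ K := by exact_mod_cast hlt.le
      exact pow_le_pow_left₀ hN0.le this 2
    have h5 := Fb_le_one h N
    calc _ ≤ f 1 / (C * K ^ 2) * (N : ℝ) ^ 2 * ((n : ℝ) / N) ^ a * Fb f n := by
          apply mul_le_mul_of_nonneg_right _ hFn
          apply mul_le_mul_of_nonneg_right _ hR.le
          exact mul_le_mul_of_nonneg_right (min_le_right _ _) (by positivity)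
      _ = f 1 / (C * K ^ 2) * (N : ℝ) ^ 2 * (((n : ℝ) / N) ^ a * Fb f n) := by ring
      _ ≤ f 1 / (C * K ^ 2) * (K : ℝ) ^ 2 * (C * 1) := by
          apply mul_le_mul _ _ (by positivity) (by positivity)
          · exact mul_le_mul_of_nonneg_left h4 (by positivity)
          · exact h2.trans (mul_le_mul_of_nonneg_left h5 hC0.le)
      _ = f 1 := by field_simp
      _ ≤ _ := h3
  · obtain ⟨M, hM⟩ : ∃ M, M = N / K := ⟨_, rfl⟩
    have hM1 : 1 ≤ M := by rw [hM]; exact (Nat.one_le_div_iff (by omega)).2 hge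
    have hMN : M ≤ N := by rw [hM]; exact Nat.div_le_self _ _
    have hKM : K * M ≤ N := by rw [hM]; exact Nat.mul_div_le N K
    have hKM2 : (N : ℝ) ≤ 2 * K * M := by
      have h3 : N < K * (M + 1) := by rw [hM]; exact Nat.lt_mul_div_succ N (by omega)
      have h4 : K * (M + 1) ≤ 2 * K * M := by nlinarith
      exact_mod_cast (h3.le.trans h4)
    have hM0 : (0 : ℝ) < M := by exact_mod_cast hM1
    have h3 := hK M hM1
    have hFM := Fb_nonneg h M
    have h4 : Fb f N ≤ Fb f M / 2 := by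
      refine (Fb_anti h hKM).trans ?_
      nlinarith [mul_le_mul_of_nonneg_right h3.2 hFM]
    have h5 := S2_ge h hMN
    have h6 : (N : ℝ) ^ 2 / (4 * K ^ 2) ≤ (M : ℝ) ^ 2 := by
      rw [div_le_iff₀ (by positivity)]
      have := pow_le_pow_left₀ hN0.le hKM2 2
      calc (N : ℝ) ^ 2 ≤ (2 * K * M) ^ 2 := this
        _ = _ := by ring
    have h7 : Fb f N ≤ Fb f M - Fb f N := by linarith
    calc _ ≤ 1 / (C * (4 * K ^ 2)) * (N : ℝ) ^ 2 * ((n : ℝ) / N) ^ a * Fb f n := by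
          apply mul_le_mul_of_nonneg_right _ hFn
          apply mul_le_mul_of_nonneg_right _ hR.le
          exact mul_le_mul_of_nonneg_right (min_le_left _ _) (by positivity)
      _ = 1 / (C * (4 * K ^ 2)) * (N : ℝ) ^ 2 * (((n : ℝ) / N) ^ a * Fb f n) := by ring
      _ ≤ 1 / (C * (4 * K ^ 2)) * (N : ℝ) ^ 2 * (C * Fb f N) := mul_le_mul_of_nonneg_left h2 (by positivity)
      _ = (N : ℝ) ^ 2 / (4 * K ^ 2) * Fb f N := by field_simp
      _ ≤ (M : ℝ) ^ 2 * (Fb f M - Fb f N) := mul_le_mul h6 h7 hFN (by positivity)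
      _ ≤ _ := h5

lemma re_low (h : Ren f u) (hr : Reg f a b C) : ∃ c > 0, ∀ n : ℕ, 1 ≤ n → ∀ φ : ℝ, Real.pi / n ≤ |φ| → |φ| ≤ Real.pi →
    c * ((n : ℝ) ^ a * Fb f n) * |φ| ^ a ≤ (1 - gf f (zz (Real.exp (-(1 / n))) φ)).re := by
  obtain ⟨c, hc, hS⟩ := S2_low h hr
  have ha := hr.a0
  have hpi := Real.pi_pos
  refine ⟨(2 / Real.pi ^ 2 / Real.exp 1) * (c * ((Real.pi / 2) ^ 2 * Real.pi ^ (-a))), by positivity, ?_⟩
  intro n hn φ h1 h2
  have hn0 : (0 : ℝ) < n := by exact_mod_cast hn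
  have hφ : 0 < |φ| := lt_of_lt_of_le (by positivity) h1
  set N := ⌊Real.pi / |φ|⌋₊ with hN
  have hq1 : 1 ≤ Real.pi / |φ| := by rw [le_div_iff₀ hφ]; linarith
  have hN1 : 1 ≤ N := Nat.le_floor (by simpa using hq1)
  have hNle : (N : ℝ) ≤ Real.pi / |φ| := Nat.floor_le (by positivity)
  have hNn : N ≤ n := by
    have : (N : ℝ) ≤ n := hNle.trans (by rw [div_le_iff₀ hφ]; rw [div_le_iff₀ hn0] at h1; linarith)
    exact_mod_cast this
  have hNφ : (N : ℝ) * |φ| ≤ Real.pi := by rwa [le_div_iff₀ hφ] at hNle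
  have hNge : Real.pi / (2 * |φ|) ≤ N := by
    have h3 := Nat.lt_floor_add_one (Real.pi / |φ|)
    rw [← hN] at h3
    have h4 : (1 : ℝ) ≤ N := by exact_mod_cast hN1
    have : Real.pi / (2 * |φ|) = Real.pi / |φ| / 2 := by field_simp
    rw [this]; linarith
  have hN0 : (0 : ℝ) < N := by exact_mod_cast hN1
  refine le_trans ?_ (re_ge_S2 h hn hNn hNφ)
  have h5 := hS N n hN1 hNn
  have hFn := Fb_nonneg h n
  have h6 : (n * |φ| / Real.pi) ^ a ≤ ((n : ℝ) / N) ^ a := by
    apply Real.rpow_le_rpow (by positivity) _ ha.le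
    rw [div_le_div_iff₀ hpi hN0]
    calc n * |φ| * N = n * (N * |φ|) := by ring
      _ ≤ n * Real.pi := mul_le_mul_of_nonneg_left hNφ hn0.le
  have h7 : (n * |φ| / Real.pi) ^ a = (n : ℝ) ^ a * |φ| ^ a * Real.pi ^ (-a) := by
    rw [Real.div_rpow (by positivity) hpi.le, Real.mul_rpow hn0.le hφ.le, Real.rpow_neg hpi.le]
    ring
  have h8 : (Real.pi / 2) ^ 2 ≤ φ ^ 2 * (N : ℝ) ^ 2 := by
    have h9 : Real.pi / 2 ≤ |φ| * N := by
      have := mul_le_mul_of_nonneg_left hNge hφ.le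
      have h10 : |φ| * (Real.pi / (2 * |φ|)) = Real.pi / 2 := by field_simp
      linarith
    have := pow_le_pow_left₀ (by positivity) h9 2
    rw [mul_pow, sq_abs] at this
    exact this
  calc _ = (2 / Real.pi ^ 2 / Real.exp 1) * ((Real.pi / 2) ^ 2 * (c * ((n * |φ| / Real.pi) ^ a * Fb f n))) := by
        rw [h7]; ring
    _ ≤ (2 / Real.pi ^ 2 / Real.exp 1) * (φ ^ 2 * (N : ℝ) ^ 2 * (c * (((n : ℝ) / N) ^ a * Fb f n))) := by
        apply mul_le_mul_of_nonneg_left _ (by positivity)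
        apply mul_le_mul h8 _ (by positivity) (by positivity)
        apply mul_le_mul_of_nonneg_left _ hc.le
        exact mul_le_mul_of_nonneg_right h6 hFn
    _ = (2 / Real.pi ^ 2 / Real.exp 1) * (φ ^ 2 * (c * (N : ℝ) ^ 2 * ((n : ℝ) / N) ^ a * Fb f n)) := by ring
    _ ≤ (2 / Real.pi ^ 2 / Real.exp 1) * (φ ^ 2 * S2 f N) := by
        apply mul_le_mul_of_nonneg_left _ (by positivity)
        exact mul_le_mul_of_nonneg_left h5 (sq_nonneg _)


/-- **Upper half, tail form**: lower index `> 1/2` gives `u n ≤ C' / (n Fb n)` for every `n`. -/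
theorem u_up (h : Ren f u) (hr : Reg f a b C) (ha2 : 1 / 2 < a) : ∃ C' > 0, ∀ n : ℕ, 1 ≤ n → u n ≤ C' / (n * Fb f n) := by
  obtain ⟨c0, hc0, hre⟩ := re_low h hr
  obtain ⟨B0, hB0, hmm⟩ := mm_le h hr
  have ha := hr.a0
  have hpi := Real.pi_pos
  have h2s : 0 < 2 * a - 1 := by linarith
  set A := 16 * Real.pi with hA
  set B := 2 * (Real.pi * B0 * (2 ^ a / c0 ^ 2) * ((2 * Real.pi) ^ (1 - 2 * a) / (2 * a - 1))) with hB
  have hAp : 0 < A := by positivity
  have hBp : 0 < B := by positivity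
  refine ⟨1 + Real.exp 1 / (4 * Real.pi) * (A + B), by positivity, fun n hn => ?_⟩
  have hn1 : (1 : ℝ) ≤ n := by exact_mod_cast hn
  have hn0 : (0 : ℝ) < n := by linarith
  have hF := Fb_pos h hr n
  have hF1 := Fb_le_one h n
  rcases Nat.lt_or_ge n 2 with hn2 | hn2
  · have : n = 1 := by omega
    subst this
    have h1 := u_le_one h 1
    rw [le_div_iff₀ (by positivity)]
    have h2 : 0 ≤ Real.exp 1 / (4 * Real.pi) * (A + B) := by positivity
    have h3 := u_nonneg h 1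
    push_cast
    nlinarith
  have hn2r : (2 : ℝ) ≤ n := by exact_mod_cast hn2
  set r := Real.exp (-(1 / (n : ℝ))) with hrdef
  have hr0 : 0 ≤ r := (Real.exp_pos _).le
  have hr1 : r < 1 := by rw [hrdef, Real.exp_lt_one_iff, neg_lt_zero]; positivity
  have hrn : r ^ n = Real.exp (-1) := by
    rw [hrdef, ← Real.exp_nat_mul]; congr 1; field_simp
  set δ := Real.pi / n with hδ
  have hδ0 : 0 < δ := by rw [hδ]; positivity
  have h2δ : 2 * δ ≤ Real.pi := by
    rw [hδ]
    have : Real.pi / n ≤ Real.pi / 2 := div_le_div_of_nonneg_left hpi.le (by norm_num) hn2r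
    linarith
  have hsh := shift h hr0 hr1 hn
  rw [hrn, ← hδ] at hsh
  set c1 := c0 * ((n : ℝ) ^ a * Fb f n) with hc1
  have hc1p : 0 < c1 := by rw [hc1]; positivity
  set G : ℝ → ℝ := fun θ => ‖gf u (zz r θ) - gf u (zz r (θ + δ))‖ with hG
  have hGc : Continuous G := by
    have hc := cont_gf h hr0 hr1
    have hc2 : Continuous fun θ => gf u (zz r (θ + δ)) := hc.comp (continuous_id.add continuous_const)
    rw [hG]; exact (hc.sub hc2).norm
  -- bound A
  have hbA : ∀ θ, ‖gf u (zz r θ)‖ ≤ 2 / Fb f n := by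
    intro θ
    have h1 := re_ge_tail h hn θ
    have h4 := norm_gf_le h hr0 hr1 (D := 1 / 2 * Fb f n) (by positivity) h1
    refine h4.trans (le_of_eq ?_)
    field_simp
  have hGA : ∀ θ, G θ ≤ 4 / Fb f n := by
    intro θ
    have h1 := hbA θ
    have h2 := hbA (θ + δ)
    have h3 := norm_sub_le (gf u (zz r θ)) (gf u (zz r (θ + δ)))
    have : G θ ≤ 2 / Fb f n + 2 / Fb f n := by
      rw [hG]; simp only; linarith
    calc G θ ≤ _ := this
      _ = _ := by ring
  -- bound B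
  have hbB : ∀ φ : ℝ, δ ≤ |φ| → |φ| ≤ Real.pi → ‖gf u (zz r φ)‖ ≤ 1 / (c1 * |φ| ^ a) := by
    intro φ h1 h2
    have hφ : 0 < |φ| := lt_of_lt_of_le hδ0 h1
    exact norm_gf_le h hr0 hr1 (by positivity) (hre n hn φ h1 h2)
  set K := δ * (B0 * (n * Fb f n)) * (2 ^ a / c1 ^ 2) with hK
  have hKp : 0 < K := by rw [hK]; positivity
  have hGB : ∀ θ : ℝ, 2 * δ ≤ |θ| → |θ| ≤ Real.pi → G θ ≤ K * |θ| ^ (-(2 * a)) := by
    intro θ h1 h2
    have hθ0 : 0 < |θ| := lt_of_lt_of_le (by positivity) h1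
    obtain ⟨φ, hφz, hφ1, hφ2, hφ3⟩ : ∃ φ : ℝ, zz r (θ + δ) = zz r φ ∧ δ ≤ |φ| ∧ |φ| ≤ Real.pi ∧ |θ| / 2 ≤ |φ| := by
      by_cases hc : θ + δ ≤ Real.pi
      · refine ⟨θ + δ, rfl, ?_⟩
        rcases le_total 0 θ with h0 | h0
        · rw [abs_of_nonneg h0] at h1 h2 ⊢
          rw [abs_of_nonneg (by linarith)]
          exact ⟨by linarith, by linarith, by linarith⟩
        · rw [abs_of_nonpos h0] at h1 h2 ⊢
          rw [abs_of_nonpos (by linarith)]
          exact ⟨by linarith, by linarith, by linarith⟩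
      · push Not at hc
        refine ⟨θ + δ - 2 * Real.pi, ?_, ?_⟩
        · rw [← per_zz r (θ + δ - 2 * Real.pi)]; congr 1; ring
        · have h0 : 0 ≤ θ := by linarith
          rw [abs_of_nonneg h0] at h1 h2 ⊢
          rw [abs_of_nonpos (by linarith)]
          exact ⟨by linarith, by linarith, by linarith⟩
    have hφ0 : 0 < |φ| := lt_of_lt_of_le hδ0 hφ1
    have h3 := norm_gf_sub_le h hr0 hr1 hn θ
    have h4 := hbB θ (by linarith) h2
    have h5 := hbB φ hφ1 hφ2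
    rw [← hφz] at h5
    have h6 : 1 / (c1 * |φ| ^ a) ≤ 1 / (c1 * (|θ| / 2) ^ a) := by
      apply one_div_le_one_div_of_le (by positivity)
      exact mul_le_mul_of_nonneg_left (Real.rpow_le_rpow (by positivity) hφ3 (by linarith)) hc1p.le
    have h7 := hmm n hn
    have hm0 := mm_nonneg h n
    calc G θ ≤ δ * mm f n * (‖gf u (zz r θ)‖ * ‖gf u (zz r (θ + δ))‖) := h3
      _ ≤ δ * (B0 * (n * Fb f n)) * ((1 / (c1 * |θ| ^ a)) * (1 / (c1 * (|θ| / 2) ^ a))) := by
          apply mul_le_mul _ _ (by positivity) (by positivity)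
          · exact mul_le_mul_of_nonneg_left h7 hδ0.le
          · exact mul_le_mul h4 (h5.trans h6) (norm_nonneg _) (by positivity)
      _ = K * |θ| ^ (-(2 * a)) := by
          have hX2 : |θ| ^ (-(2 * a)) = (|θ| ^ a * |θ| ^ a)⁻¹ := by
            rw [Real.rpow_neg hθ0.le, two_mul a, Real.rpow_add hθ0]
          rw [hK, Real.div_rpow hθ0.le (by norm_num), hX2]
          have hX : 0 < |θ| ^ a := by positivity
          generalize |θ| ^ a = X at hX
          field_simp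
  -- integrals
  have hi : ∀ a b, IntervalIntegrable G volume a b := fun a b => hGc.intervalIntegrable a b
  have hsplit : ∫ θ in (-Real.pi)..Real.pi, G θ
      = (∫ θ in (-Real.pi)..(-(2 * δ)), G θ) + (∫ θ in (-(2 * δ))..(2 * δ), G θ) + ∫ θ in (2 * δ)..Real.pi, G θ := by
    rw [intervalIntegral.integral_add_adjacent_intervals (hi _ _) (hi _ _),
      intervalIntegral.integral_add_adjacent_intervals (hi _ _) (hi _ _)]
  have hmid : ∫ θ in (-(2 * δ))..(2 * δ), G θ ≤ 4 * δ * (4 / Fb f n) := by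
    have := intervalIntegral.integral_mono_on (a := -(2 * δ)) (b := 2 * δ) (by linarith) (hi _ _)
      (intervalIntegrable_const (c := 4 / Fb f n)) (fun θ _ => hGA θ)
    rw [intervalIntegral.integral_const, smul_eq_mul] at this
    calc _ ≤ _ := this
      _ = _ := by ring
  have hrp : IntervalIntegrable (fun θ : ℝ => K * θ ^ (-(2 * a))) volume (2 * δ) Real.pi := by
    apply ContinuousOn.intervalIntegrable
    rw [Set.uIcc_of_le h2δ]
    apply ContinuousOn.mul continuousOn_const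
    exact continuousOn_id.rpow_const fun x hx => Or.inl (by have := hx.1; simp only [id]; intro hc; linarith)
  have hint : ∫ θ in (2 * δ)..Real.pi, K * θ ^ (-(2 * a)) ≤ K * ((2 * δ) ^ (1 - 2 * a) / (2 * a - 1)) := by
    rw [intervalIntegral.integral_const_mul]
    exact mul_le_mul_of_nonneg_left (int_pow_le (by positivity) h2δ (by linarith)) hKp.le
  have hright : ∫ θ in (2 * δ)..Real.pi, G θ ≤ K * ((2 * δ) ^ (1 - 2 * a) / (2 * a - 1)) := by
    refine le_trans (intervalIntegral.integral_mono_on h2δ (hi _ _) hrp fun θ hθ => ?_) hint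
    have h0 : 0 ≤ θ := by have := hθ.1; linarith
    have := hGB θ (by rw [abs_of_nonneg h0]; exact hθ.1) (by rw [abs_of_nonneg h0]; exact hθ.2)
    rwa [abs_of_nonneg h0] at this
  have hleft : ∫ θ in (-Real.pi)..(-(2 * δ)), G θ ≤ K * ((2 * δ) ^ (1 - 2 * a) / (2 * a - 1)) := by
    have hneg : ∫ θ in (-Real.pi)..(-(2 * δ)), G θ = ∫ θ in (2 * δ)..Real.pi, G (-θ) := by
      rw [intervalIntegral.integral_comp_neg]
    rw [hneg]
    refine le_trans (intervalIntegral.integral_mono_on h2δ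
      ((hGc.comp continuous_neg).intervalIntegrable _ _) hrp fun θ hθ => ?_) hint
    have h0 : 0 ≤ θ := by have := hθ.1; linarith
    have := hGB (-θ) (by rw [abs_neg, abs_of_nonneg h0]; exact hθ.1) (by rw [abs_neg, abs_of_nonneg h0]; exact hθ.2)
    rwa [abs_neg, abs_of_nonneg h0] at this
  have hfin : 4 * Real.pi * (u n * Real.exp (-1)) ≤ (A + B) * (1 / (n * Fb f n)) := by
    have e1 : 4 * δ * (4 / Fb f n) = A * (1 / (n * Fb f n)) := by
      rw [hA, hδ]; field_simp; ring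
    have e3 : 2 * (K * ((2 * δ) ^ (1 - 2 * a) / (2 * a - 1))) = B * (1 / (n * Fb f n)) := by
      have e4 : (2 * δ) ^ (1 - 2 * a) = (2 * Real.pi) ^ (1 - 2 * a) * (n : ℝ) ^ (2 * a - 1) := by
        rw [hδ, show 2 * (Real.pi / n) = 2 * Real.pi / n by ring, Real.div_rpow (by positivity) hn0.le,
          show 2 * a - 1 = -(1 - 2 * a) by ring, Real.rpow_neg hn0.le]
        rfl
      have e5 : (n : ℝ) ^ (2 * a - 1) = (n : ℝ) ^ a * (n : ℝ) ^ a / n := by
        rw [← Real.rpow_add hn0, eq_div_iff hn0.ne']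
        nth_rewrite 2 [← Real.rpow_one (n : ℝ)]
        rw [← Real.rpow_add hn0]; congr 1; ring
      rw [hK, hB, hc1, e4, e5, hδ]
      have hX : 0 < (n : ℝ) ^ a := by positivity
      generalize (n : ℝ) ^ a = X at hX
      field_simp
    have h1 : 4 * Real.pi * (u n * Real.exp (-1)) ≤ 4 * δ * (4 / Fb f n)
        + 2 * (K * ((2 * δ) ^ (1 - 2 * a) / (2 * a - 1))) := by
      have h2 : 4 * Real.pi * (u n * Real.exp (-1)) ≤ ∫ θ in (-Real.pi)..Real.pi, G θ := hsh
      linarith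
    calc _ ≤ _ := h1
      _ = (A + B) * (1 / (n * Fb f n)) := by rw [e1, e3]; ring
  have hexp : Real.exp 1 * Real.exp (-1) = 1 := by rw [← Real.exp_add]; simp
  have hP : 0 < 1 / (n * Fb f n) := by positivity
  calc u n = Real.exp 1 / (4 * Real.pi) * (4 * Real.pi * (u n * Real.exp (-1))) := by
        field_simp; rw [mul_assoc, hexp, mul_one]
    _ ≤ Real.exp 1 / (4 * Real.pi) * ((A + B) * (1 / (n * Fb f n))) := by gcongr
    _ ≤ (1 + Real.exp 1 / (4 * Real.pi) * (A + B)) * (1 / (n * Fb f n)) := by nlinarith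
    _ = _ := by ring

/-- **Upper half**: indices in `(1/2, 1)` up to constants imply `u n ≤ C' W(n) / n` for EVERY `n ≥ 1`. -/
theorem renewal_up {a b c C : ℝ} (h : Ren f u) (h2 : 0 < f 2) (hi : Ind u a b c C) (ha : 1 / 2 < a) :
    ∃ C' > 0, ∀ n : ℕ, 1 ≤ n → u n ≤ C' * (W u n / n) := by
  obtain ⟨C', hr⟩ := reg_of_ind h h2 hi
  obtain ⟨B, hB, hF⟩ := Fb_two h hi
  obtain ⟨C1, hC1, hu⟩ := u_up h hr ha
  have hB0 : 0 < B := by linarith
  refine ⟨C1 * B, by positivity, fun n hn => ?_⟩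
  have hn0 : (0 : ℝ) < n := by exact_mod_cast hn
  have hWn : 0 < W u n := lt_of_lt_of_le one_pos (W_pos h hn)
  have hFn := Fb_pos h hr n
  refine (hu n hn).trans ?_
  have h3 := (hF n hn).2
  calc C1 / (n * Fb f n) ≤ C1 / (n * (1 / (B * W u n))) := by
        apply div_le_div_of_nonneg_left hC1.le (by positivity)
        exact mul_le_mul_of_nonneg_left h3 hn0.le
    _ = _ := by field_simp

/-- **The two-sided strong renewal law up to constants, every `n`.** -/
theorem renewal_two {a b c C : ℝ} (h : Ren f u) (h2 : 0 < f 2) (hi : Ind u a b c C) (ha : 1 / 2 < a) :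
    ∃ c' C' : ℝ, 0 < c' ∧ 0 < C' ∧ ∀ n : ℕ, 1 ≤ n → c' * (W u n / n) ≤ u n ∧ u n ≤ C' * (W u n / n) := by
  obtain ⟨c', hc', h3⟩ := renewal_low h h2 hi
  obtain ⟨C', hC', h4⟩ := renewal_up h h2 hi ha
  exact ⟨c', C', hc', hC', fun n hn => ⟨h3 n hn, h4 n hn⟩⟩

end PWR
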