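import Pool.Agent.NUX.Ren5

/-!
# The pointwise upper bound of a renewal sequence of index `> 1/2`, with constants (helper90)

Upper half of (E1): `c n^α ≤ ∑_{k ≤ n} u k ≤ C n^α`, `1/2 < α < 1`, implies `u n ≤ C' n^(α - 1)`
for every `n ≥ 1`. (The proof is the one of `NUX.u_hi`, without `ε`.)
-/

set_option autoImplicit false

namespace PWU

open Finset Complex MeasureTheory NUX

variable {f u : ℕ → ℝ} {α : ℝ}

/-- the bound from the tail, the truncated second moment and the truncated mean -/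
lemma u_le_const (h : Ren f u) {cF cS Cm : ℝ} (hcF : 0 < cF) (hcS : 0 < cS) (hCm : 0 < Cm)
    (hα : 1 / 2 < α) (hα1 : α < 1)
    (hF : ∀ n : ℕ, 1 ≤ n → cF * (n : ℝ) ^ (-α) ≤ Fb f n)
    (hS : ∀ n : ℕ, 1 ≤ n → cS * (n : ℝ) ^ (2 - α) ≤ S2 f n)
    (hm : ∀ n : ℕ, 1 ≤ n → mm f n ≤ Cm * (n : ℝ) ^ (1 - α)) :
    ∃ C > 0, ∀ n : ℕ, 1 ≤ n → u n ≤ C * (n : ℝ) ^ (α - 1) := by
  have hpi := Real.pi_pos
  obtain ⟨e, he⟩ : ∃ e : ℝ, e = 0 := ⟨0, rfl⟩
  have hF : ∀ n : ℕ, 1 ≤ n → cF * (n : ℝ) ^ (-α - e) ≤ Fb f n := fun n hn => by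
    rw [he, sub_zero]; exact hF n hn
  have hS : ∀ n : ℕ, 1 ≤ n → cS * (n : ℝ) ^ (2 - α - e) ≤ S2 f n := fun n hn => by
    rw [he, sub_zero]; exact hS n hn
  have hm : ∀ n : ℕ, 1 ≤ n → mm f n ≤ Cm * (n : ℝ) ^ (1 - α + e) := fun n hn => by
    rw [he, add_zero]; exact hm n hn
  have hs1 : α + e < 1 := by rw [he]; linarith
  suffices hsuff : ∃ C > 0, ∀ n : ℕ, 1 ≤ n → u n ≤ C * (n : ℝ) ^ (α - 1 + 3 * e) by
    obtain ⟨C, hC, hh⟩ := hsuff
    refine ⟨C, hC, fun n hn => ?_⟩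
    have := hh n hn
    rwa [he, mul_zero, add_zero] at this
  set s := α + e with hs
  have hs0 : 1 / 2 < s := by rw [hs, he]; linarith
  set c1 := (2 / Real.pi ^ 2 / Real.exp 1) * (cS * (Real.pi / 2) ^ (2 - α - e)) with hc1
  have hc1p : 0 < c1 := by rw [hc1]; positivity
  set A := 16 * Real.pi / cF with hA
  have hAp : 0 < A := by rw [hA]; positivity
  set B := 2 * (Real.pi * Cm * (2 ^ s / c1 ^ 2) * ((2 * Real.pi) ^ (1 - 2 * s) / (2 * s - 1))) with hB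
  have h2s : 0 < 2 * s - 1 := by linarith
  have hBp : 0 < B := by rw [hB]; positivity
  refine ⟨1 + Real.exp 1 / (4 * Real.pi) * (A + B), by positivity, fun n hn => ?_⟩
  have hn1 : (1 : ℝ) ≤ n := by exact_mod_cast hn
  have hn0 : (0 : ℝ) < n := by linarith
  rcases Nat.lt_or_ge n 2 with hn2 | hn2
  · have : n = 1 := by omega
    subst this
    have := u_le_one h 1
    simp only [Nat.cast_one, Real.one_rpow, mul_one]
    have : 0 ≤ Real.exp 1 / (4 * Real.pi) * (A + B) := by positivity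
    linarith
  have hn2r : (2 : ℝ) ≤ n := by exact_mod_cast hn2
  set r := Real.exp (-(1 / (n : ℝ))) with hr
  have hr0 : 0 ≤ r := (Real.exp_pos _).le
  have hr1 : r < 1 := by rw [hr, Real.exp_lt_one_iff, neg_lt_zero]; positivity
  have hrn : r ^ n = Real.exp (-1) := by
    rw [hr, ← Real.exp_nat_mul]; congr 1; field_simp
  set δ := Real.pi / n with hδ
  have hδ0 : 0 < δ := by rw [hδ]; positivity
  have h2δ : 2 * δ ≤ Real.pi := by
    rw [hδ]
    have : Real.pi / n ≤ Real.pi / 2 := div_le_div_of_nonneg_left hpi.le (by norm_num) hn2r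
    linarith
  have hsh := shift h hr0 hr1 hn
  rw [hrn, ← hδ] at hsh
  set G : ℝ → ℝ := fun θ => ‖gf u (zz r θ) - gf u (zz r (θ + δ))‖ with hG
  have hGc : Continuous G := by
    have hc := cont_gf h hr0 hr1
    have hc2 : Continuous fun θ => gf u (zz r (θ + δ)) := hc.comp (continuous_id.add continuous_const)
    rw [hG]; exact (hc.sub hc2).norm
  -- bound A
  have hbA : ∀ θ, ‖gf u (zz r θ)‖ ≤ 2 / cF * (n : ℝ) ^ s := by
    intro θ
    have h1 := re_ge_tail h hn θ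
    have h2 := hF n hn
    have h3 : cF / 2 * (n : ℝ) ^ (-s) ≤ (1 - gf f (zz r θ)).re := by
      rw [show -s = -α - e by rw [hs]; ring]
      linarith
    have h4 := norm_gf_le h hr0 hr1 (D := cF / 2 * (n : ℝ) ^ (-s)) (by positivity) h3
    refine h4.trans (le_of_eq ?_)
    rw [Real.rpow_neg hn0.le]; field_simp
  have hGA : ∀ θ, G θ ≤ 4 / cF * (n : ℝ) ^ s := by
    intro θ
    have h1 := hbA θ
    have h2 := hbA (θ + δ)
    have h3 := norm_sub_le (gf u (zz r θ)) (gf u (zz r (θ + δ)))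
    have : G θ ≤ 2 / cF * (n : ℝ) ^ s + 2 / cF * (n : ℝ) ^ s := by
      rw [hG]; simp only; linarith
    calc G θ ≤ _ := this
      _ = _ := by ring
  -- bound B
  have hbB : ∀ φ : ℝ, δ ≤ |φ| → |φ| ≤ Real.pi → ‖gf u (zz r φ)‖ ≤ 1 / (c1 * |φ| ^ s) := by
    intro φ h1 h2
    have hφ : 0 < |φ| := lt_of_lt_of_le hδ0 h1
    exact norm_gf_le h hr0 hr1 (by positivity) (D_low h hcS (by linarith) hS hn h1 h2)
  set K := δ * (Cm * (n : ℝ) ^ (1 - α + e)) * (2 ^ s / c1 ^ 2) with hK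
  have hKp : 0 < K := by rw [hK]; positivity
  have hGB : ∀ θ : ℝ, 2 * δ ≤ |θ| → |θ| ≤ Real.pi → G θ ≤ K * |θ| ^ (-(2 * s)) := by
    intro θ h1 h2
    have hθ0 : 0 < |θ| := lt_of_lt_of_le (by positivity) h1
    obtain ⟨φ, hφz, hφ1, hφ2, hφ3⟩ : ∃ φ : ℝ, zz r (θ + δ) = zz r φ ∧ δ ≤ |φ| ∧ |φ| ≤ Real.pi ∧ |θ| / 2 ≤ |φ| := by
      by_cases hc : θ + δ ≤ Real.pi
      · refine ⟨θ + δ, rfl, ?_⟩
        rcases le_total 0 θ with h0 | h0
        · rw [abs_of_nonneg h0] at h1 h2 ⊢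
          rw [abs_of_nonneg (by linarith)]
          exact ⟨by linarith, by linarith, by linarith⟩
        · rw [abs_of_nonpos h0] at h1 h2 ⊢
          rw [abs_of_nonpos (by linarith)]
          exact ⟨by linarith, by linarith, by linarith⟩
      · push Not at hc
        refine ⟨θ + δ - 2 * Real.pi, ?_, ?_⟩
        · rw [← per_zz r (θ + δ - 2 * Real.pi)]; congr 1; ring
        · have h0 : 0 ≤ θ := by linarith
          rw [abs_of_nonneg h0] at h1 h2 ⊢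
          rw [abs_of_nonpos (by linarith)]
          exact ⟨by linarith, by linarith, by linarith⟩
    have hφ0 : 0 < |φ| := lt_of_lt_of_le hδ0 hφ1
    have h3 := norm_gf_sub_le h hr0 hr1 hn θ
    have h4 := hbB θ (by linarith) h2
    have h5 := hbB φ hφ1 hφ2
    rw [← hφz] at h5
    have h6 : 1 / (c1 * |φ| ^ s) ≤ 1 / (c1 * (|θ| / 2) ^ s) := by
      apply one_div_le_one_div_of_le (by positivity)
      exact mul_le_mul_of_nonneg_left (Real.rpow_le_rpow (by positivity) hφ3 (by linarith)) hc1p.le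
    have h7 := hm n hn
    have hm0 := mm_nonneg h n
    calc G θ ≤ δ * mm f n * (‖gf u (zz r θ)‖ * ‖gf u (zz r (θ + δ))‖) := h3
      _ ≤ δ * (Cm * (n : ℝ) ^ (1 - α + e)) * ((1 / (c1 * |θ| ^ s)) * (1 / (c1 * (|θ| / 2) ^ s))) := by
          apply mul_le_mul _ _ (by positivity) (by positivity)
          · exact mul_le_mul_of_nonneg_left h7 hδ0.le
          · exact mul_le_mul h4 (h5.trans h6) (norm_nonneg _) (by positivity)
      _ = K * |θ| ^ (-(2 * s)) := by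
          have hX2 : |θ| ^ (-(2 * s)) = (|θ| ^ s * |θ| ^ s)⁻¹ := by
            rw [Real.rpow_neg hθ0.le, two_mul s, Real.rpow_add hθ0]
          rw [hK, Real.div_rpow hθ0.le (by norm_num), hX2]
          have hX : 0 < |θ| ^ s := by positivity
          generalize |θ| ^ s = X at hX
          field_simp
  -- integrals
  have hi : ∀ a b, IntervalIntegrable G volume a b := fun a b => hGc.intervalIntegrable a b
  have hsplit : ∫ θ in (-Real.pi)..Real.pi, G θ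
      = (∫ θ in (-Real.pi)..(-(2 * δ)), G θ) + (∫ θ in (-(2 * δ))..(2 * δ), G θ) + ∫ θ in (2 * δ)..Real.pi, G θ := by
    rw [intervalIntegral.integral_add_adjacent_intervals (hi _ _) (hi _ _),
      intervalIntegral.integral_add_adjacent_intervals (hi _ _) (hi _ _)]
  have hmid : ∫ θ in (-(2 * δ))..(2 * δ), G θ ≤ 4 * δ * (4 / cF * (n : ℝ) ^ s) := by
    have := intervalIntegral.integral_mono_on (a := -(2 * δ)) (b := 2 * δ) (by linarith) (hi _ _)
      (intervalIntegrable_const (c := 4 / cF * (n : ℝ) ^ s)) (fun θ _ => hGA θ)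
    rw [intervalIntegral.integral_const, smul_eq_mul] at this
    calc _ ≤ _ := this
      _ = _ := by ring
  have hrp : IntervalIntegrable (fun θ : ℝ => K * θ ^ (-(2 * s))) volume (2 * δ) Real.pi := by
    apply ContinuousOn.intervalIntegrable
    rw [Set.uIcc_of_le h2δ]
    apply ContinuousOn.mul continuousOn_const
    exact continuousOn_id.rpow_const fun x hx => Or.inl (by have := hx.1; simp only [id]; intro hc; linarith)
  have hint : ∫ θ in (2 * δ)..Real.pi, K * θ ^ (-(2 * s)) ≤ K * ((2 * δ) ^ (1 - 2 * s) / (2 * s - 1)) := by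
    rw [intervalIntegral.integral_const_mul]
    exact mul_le_mul_of_nonneg_left (int_pow_le (by positivity) h2δ (by linarith)) hKp.le
  have hright : ∫ θ in (2 * δ)..Real.pi, G θ ≤ K * ((2 * δ) ^ (1 - 2 * s) / (2 * s - 1)) := by
    refine le_trans (intervalIntegral.integral_mono_on h2δ (hi _ _) hrp fun θ hθ => ?_) hint
    have h0 : 0 ≤ θ := by have := hθ.1; linarith
    have := hGB θ (by rw [abs_of_nonneg h0]; exact hθ.1) (by rw [abs_of_nonneg h0]; exact hθ.2)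
    rwa [abs_of_nonneg h0] at this
  have hleft : ∫ θ in (-Real.pi)..(-(2 * δ)), G θ ≤ K * ((2 * δ) ^ (1 - 2 * s) / (2 * s - 1)) := by
    have hneg : ∫ θ in (-Real.pi)..(-(2 * δ)), G θ = ∫ θ in (2 * δ)..Real.pi, G (-θ) := by
      rw [intervalIntegral.integral_comp_neg]
    rw [hneg]
    refine le_trans (intervalIntegral.integral_mono_on h2δ
      ((hGc.comp continuous_neg).intervalIntegrable _ _) hrp fun θ hθ => ?_) hint
    have h0 : 0 ≤ θ := by have := hθ.1; linarith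
    have := hGB (-θ) (by rw [abs_neg, abs_of_nonneg h0]; exact hθ.1) (by rw [abs_neg, abs_of_nonneg h0]; exact hθ.2)
    rwa [abs_neg, abs_of_nonneg h0] at this
  have hfin : 4 * Real.pi * (u n * Real.exp (-1)) ≤ (A + B) * (n : ℝ) ^ (α - 1 + 3 * e) := by
    have e1 : 4 * δ * (4 / cF * (n : ℝ) ^ s) = A * (n : ℝ) ^ (s - 1) := by
      rw [hA, hδ, Real.rpow_sub hn0, Real.rpow_one]; field_simp; ring
    have e2 : (n : ℝ) ^ (s - 1) ≤ (n : ℝ) ^ (α - 1 + 3 * e) :=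
      Real.rpow_le_rpow_of_exponent_le hn1 (by rw [hs, he]; linarith)
    have e3 : 2 * (K * ((2 * δ) ^ (1 - 2 * s) / (2 * s - 1))) = B * (n : ℝ) ^ (α - 1 + 3 * e) := by
      have e4 : (2 * δ) ^ (1 - 2 * s) = (2 * Real.pi) ^ (1 - 2 * s) * (n : ℝ) ^ (2 * s - 1) := by
        rw [hδ, show 2 * (Real.pi / n) = 2 * Real.pi / n by ring, Real.div_rpow (by positivity) hn0.le,
          show 2 * s - 1 = -(1 - 2 * s) by ring, Real.rpow_neg hn0.le]
        rfl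
      have e5 : (n : ℝ) ^ (α - 1 + 3 * e) = (n : ℝ) ^ (1 - α + e) * (n : ℝ) ^ (2 * s - 1) / n := by
        rw [← Real.rpow_add hn0, eq_div_iff hn0.ne']
        nth_rewrite 2 [← Real.rpow_one (n : ℝ)]
        rw [← Real.rpow_add hn0]; congr 1; rw [hs]; ring
      rw [hK, hB, e4, e5, hδ]; field_simp
    have h1 : 4 * Real.pi * (u n * Real.exp (-1)) ≤ 4 * δ * (4 / cF * (n : ℝ) ^ s)
        + 2 * (K * ((2 * δ) ^ (1 - 2 * s) / (2 * s - 1))) := by
      have h2 : 4 * Real.pi * (u n * Real.exp (-1)) ≤ ∫ θ in (-Real.pi)..Real.pi, G θ := hsh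
      linarith
    calc _ ≤ _ := h1
      _ = A * (n : ℝ) ^ (s - 1) + B * (n : ℝ) ^ (α - 1 + 3 * e) := by rw [e1, e3]
      _ ≤ A * (n : ℝ) ^ (α - 1 + 3 * e) + B * (n : ℝ) ^ (α - 1 + 3 * e) := by gcongr
      _ = _ := by ring
  have hexp : Real.exp 1 * Real.exp (-1) = 1 := by rw [← Real.exp_add]; simp
  have hP : 0 < (n : ℝ) ^ (α - 1 + 3 * e) := by positivity
  calc u n = Real.exp 1 / (4 * Real.pi) * (4 * Real.pi * (u n * Real.exp (-1))) := by
        field_simp; rw [mul_assoc, hexp, mul_one]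
    _ ≤ Real.exp 1 / (4 * Real.pi) * ((A + B) * (n : ℝ) ^ (α - 1 + 3 * e)) := by gcongr
    _ ≤ (1 + Real.exp 1 / (4 * Real.pi) * (A + B)) * (n : ℝ) ^ (α - 1 + 3 * e) := by nlinarith

/-! ### the inputs, with constants -/

lemma mm_up (h : Ren f u) {c : ℝ} (hc : 0 < c) (hL : ∀ n : ℕ, 1 ≤ n → c * (n : ℝ) ^ α ≤ UU u n)
    (n : ℕ) (hn : 1 ≤ n) : mm f n ≤ 3 / c * (n : ℝ) ^ (1 - α) := by
  have hn1 : (1 : ℝ) ≤ n := by exact_mod_cast hn
  have hn0 : (0 : ℝ) < n := by linarith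
  have h1 := UM_upper h n
  have h2 := hL n hn
  have h3 : mm f n ≤ mm f (n + 1) := mm_mono h (Nat.le_succ n)
  have h4 := mm_nonneg h (n + 1)
  have hp : 0 < (n : ℝ) ^ α := Real.rpow_pos_of_pos hn0 _
  have h5 : c * (n : ℝ) ^ α * mm f (n + 1) ≤ 3 * n := by
    have := mul_le_mul_of_nonneg_right h2 h4
    linarith
  have e : (n : ℝ) ^ (1 - α) = n / (n : ℝ) ^ α := by rw [Real.rpow_sub hn0, Real.rpow_one]
  rw [e]
  refine h3.trans ?_
  rw [div_mul_div_comm, le_div_iff₀ (by positivity)]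
  linarith

lemma mm_low (h : Ren f u) {C : ℝ} (hα : 0 ≤ α) (hU : ∀ n : ℕ, 1 ≤ n → UU u n ≤ C * (n : ℝ) ^ α)
    (n : ℕ) (hn : 1 ≤ n) : 1 / C * (n : ℝ) ^ (1 - α) ≤ mm f n := by
  have hn1 : (1 : ℝ) ≤ n := by exact_mod_cast hn
  have hn0 : (0 : ℝ) < n := by linarith
  have hC : 1 ≤ C := by
    have h1 := hU 1 le_rfl
    have h2 : 1 ≤ UU u 1 := by
      unfold UU
      rw [sum_range_succ, sum_range_succ, sum_range_zero, h.u0]
      have := u_nonneg h 1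
      linarith
    simpa using h2.trans h1
  have hC0 : 0 < C := by linarith
  have hp : 0 < (n : ℝ) ^ α := Real.rpow_pos_of_pos hn0 _
  have e : (n : ℝ) ^ (1 - α) = n / (n : ℝ) ^ α := by rw [Real.rpow_sub hn0, Real.rpow_one]
  rw [e, div_mul_div_comm, one_mul, div_le_iff₀ (by positivity)]
  rcases Nat.lt_or_ge n 2 with h2 | h2
  · have : n = 1 := by omega
    subst this
    have h3 : mm f 1 = 1 := by simp [mm, Fb_zero h]
    rw [h3]
    simpa using hC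
  · obtain ⟨k, rfl⟩ : ∃ k, n = k + 1 := ⟨n - 1, by omega⟩
    have hk : 1 ≤ k := by omega
    have h3 := UM_lower h k
    have h4 := hU k hk
    have h5 := mm_nonneg h (k + 1)
    have h6 : (k : ℝ) ^ α ≤ ((k + 1 : ℕ) : ℝ) ^ α :=
      Real.rpow_le_rpow (by positivity) (by push_cast; linarith) hα
    have h7 : UU u k ≤ C * ((k + 1 : ℕ) : ℝ) ^ α := h4.trans (by gcongr)
    have h8 := mul_le_mul_of_nonneg_right h7 h5
    push_cast at h8 ⊢
    linarith

lemma Fb_up (h : Ren f u) {c : ℝ} (hc : 0 < c) (hL : ∀ n : ℕ, 1 ≤ n → c * (n : ℝ) ^ α ≤ UU u n)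
    (n : ℕ) (hn : 1 ≤ n) : Fb f n ≤ 3 / c * (n : ℝ) ^ (-α) := by
  have hn1 : (1 : ℝ) ≤ n := by exact_mod_cast hn
  have hn0 : (0 : ℝ) < n := by linarith
  have h1 := mul_Fb_le h n
  have h2 := mm_up h hc hL n hn
  have e : (n : ℝ) ^ (1 - α) = n * (n : ℝ) ^ (-α) := by
    rw [show 1 - α = 1 + -α by ring, Real.rpow_add hn0, Real.rpow_one]
  rw [e] at h2
  have h3 : n * Fb f n ≤ n * (3 / c * (n : ℝ) ^ (-α)) := by linarith
  exact le_of_mul_le_mul_left h3 hn0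

lemma Fb_low (h : Ren f u) {c C : ℝ} (hα : 0 ≤ α) (hα1 : α < 1) (hc : 0 < c)
    (hL : ∀ n : ℕ, 1 ≤ n → c * (n : ℝ) ^ α ≤ UU u n)
    (hU : ∀ n : ℕ, 1 ≤ n → UU u n ≤ C * (n : ℝ) ^ α) :
    ∃ cF > 0, ∀ n : ℕ, 1 ≤ n → cF * (n : ℝ) ^ (-α) ≤ Fb f n := by
  have hC : 0 < C := by
    have h1 := hU 1 le_rfl
    have h2 := hL 1 le_rfl
    simp only [Nat.cast_one, Real.one_rpow, mul_one] at h1 h2
    linarith
  obtain ⟨b, hb⟩ : ∃ b : ℕ, 1 ≤ b ∧ (3 / c + 1) * C ≤ (b : ℝ) ^ (1 - α) := by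
    have ht := (tendsto_rpow_atTop (show 0 < 1 - α by linarith)).comp tendsto_natCast_atTop_atTop
    obtain ⟨b, h1, h2⟩ := ((ht.eventually_ge_atTop ((3 / c + 1) * C)).and
      (Filter.eventually_ge_atTop 1)).exists
    exact ⟨b, h2, h1⟩
  obtain ⟨hb1, hb2⟩ := hb
  have hb0 : (0 : ℝ) < b := by exact_mod_cast hb1
  refine ⟨1 / b, by positivity, fun n hn => ?_⟩
  have hn0 : (0 : ℝ) < n := by exact_mod_cast hn
  have h1 := mm_sub_le h (M := n) (K := b * n) (Nat.le_mul_of_pos_left n hb1)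
  have h2 := mm_low h hα hU (b * n) (Nat.mul_pos hb1 hn)
  have h3 := mm_up h hc hL n hn
  have h4 := Fb_nonneg h n
  have hp : 0 < (n : ℝ) ^ (1 - α) := Real.rpow_pos_of_pos hn0 _
  have h5 : ((b * n : ℕ) : ℝ) ^ (1 - α) = (b : ℝ) ^ (1 - α) * (n : ℝ) ^ (1 - α) := by
    push_cast
    exact Real.mul_rpow hb0.le hn0.le
  have h6 : (3 / c + 1) * (n : ℝ) ^ (1 - α) ≤ mm f (b * n) := by
    refine le_trans ?_ h2
    rw [h5, ← mul_assoc]
    refine mul_le_mul_of_nonneg_right ?_ hp.le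
    rw [one_div, ← div_eq_inv_mul, le_div_iff₀ hC]
    exact hb2
  have h7 : (((b * n : ℕ) : ℝ) - n) * Fb f n ≤ b * n * Fb f n := by
    push_cast
    nlinarith
  have h8 : (n : ℝ) ^ (1 - α) ≤ b * n * Fb f n := by linarith
  have e : (n : ℝ) ^ (1 - α) = n * (n : ℝ) ^ (-α) := by
    rw [show 1 - α = 1 + -α by ring, Real.rpow_add hn0, Real.rpow_one]
  rw [e] at h8
  rw [one_div, ← div_eq_inv_mul, div_le_iff₀ hb0]
  have h9 : n * (n : ℝ) ^ (-α) ≤ n * (Fb f n * b) := by linarith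
  exact le_of_mul_le_mul_left h9 hn0

lemma S2_low (h : Ren f u) {cF CF : ℝ} (hα : 0 < α) (hcF : 0 < cF)
    (hCF : 0 < CF) (hl : ∀ n : ℕ, 1 ≤ n → cF * (n : ℝ) ^ (-α) ≤ Fb f n)
    (hu : ∀ n : ℕ, 1 ≤ n → Fb f n ≤ CF * (n : ℝ) ^ (-α)) :
    ∃ cS > 0, ∀ n : ℕ, 1 ≤ n → cS * (n : ℝ) ^ (2 - α) ≤ S2 f n := by
  obtain ⟨b, hb1, hb2⟩ : ∃ b : ℕ, 1 ≤ b ∧ 2 * CF / cF ≤ (b : ℝ) ^ α := by
    have ht := (tendsto_rpow_atTop hα).comp tendsto_natCast_atTop_atTop
    obtain ⟨b, h1, h2⟩ := ((ht.eventually_ge_atTop (2 * CF / cF)).and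
      (Filter.eventually_ge_atTop 1)).exists
    exact ⟨b, h2, h1⟩
  have hb0 : (0 : ℝ) < b := by exact_mod_cast hb1
  have hf1 := h.f1
  refine ⟨min (CF / (4 * b ^ 2)) (f 1 / (b : ℝ) ^ (max (2 - α) 0)), by positivity, fun N hN => ?_⟩
  have hN0 : (0 : ℝ) < N := by exact_mod_cast hN
  have hpN : 0 < (N : ℝ) ^ (2 - α) := Real.rpow_pos_of_pos hN0 _
  rcases Nat.lt_or_ge N b with h1 | h1
  · refine (mul_le_mul_of_nonneg_right (min_le_right _ _) hpN.le).trans ?_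
    refine le_trans ?_ (S2_ge_one h hN)
    rw [div_mul_eq_mul_div, div_le_iff₀ (by positivity)]
    refine mul_le_mul_of_nonneg_left ?_ hf1.le
    have h2 : (N : ℝ) ≤ b := by exact_mod_cast h1.le
    have h3 : (1 : ℝ) ≤ N := by exact_mod_cast hN
    calc (N : ℝ) ^ (2 - α) ≤ (N : ℝ) ^ (max (2 - α) 0) :=
          Real.rpow_le_rpow_of_exponent_le h3 (le_max_left _ _)
      _ ≤ _ := Real.rpow_le_rpow hN0.le h2 (le_max_right _ _)
  · refine (mul_le_mul_of_nonneg_right (min_le_left _ _) hpN.le).trans ?_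
    obtain ⟨M, hM⟩ : ∃ M, M = N / b := ⟨_, rfl⟩
    have hM1 : 1 ≤ M := by
      rw [hM]
      exact (Nat.one_le_div_iff hb1).2 h1
    have hMN : M ≤ N := by
      rw [hM]
      exact Nat.div_le_self _ _
    have hM0 : (0 : ℝ) < M := by exact_mod_cast hM1
    have hbM : (b : ℝ) * M ≤ N := by
      have : b * M ≤ N := by rw [hM]; exact Nat.mul_div_le N b
      exact_mod_cast this
    have hMb : (N : ℝ) ≤ 2 * b * M := by
      have h2 : N < b * (M + 1) := by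
        rw [hM]
        exact Nat.lt_mul_div_succ N hb1
      have h3 : b * (M + 1) ≤ 2 * b * M := by nlinarith
      exact_mod_cast (h2.le.trans h3)
    have h2 := S2_ge h hMN
    have h3 := hl M hM1
    have h4 := hu N hN
    have h5 : 2 * CF * (N : ℝ) ^ (-α) ≤ cF * (M : ℝ) ^ (-α) := by
      have h6 : (b : ℝ) ^ α * (M : ℝ) ^ α ≤ (N : ℝ) ^ α := by
        rw [← Real.mul_rpow hb0.le hM0.le]
        exact Real.rpow_le_rpow (by positivity) hbM hα.le
      have hMa : 0 < (M : ℝ) ^ α := by positivity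
      have hNa : 0 < (N : ℝ) ^ α := by positivity
      rw [Real.rpow_neg hN0.le, Real.rpow_neg hM0.le, ← div_eq_mul_inv, ← div_eq_mul_inv,
        div_le_div_iff₀ hNa hMa]
      have h7 : 2 * CF ≤ cF * (b : ℝ) ^ α := by
        rw [div_le_iff₀ hcF] at hb2
        linarith
      calc 2 * CF * (M : ℝ) ^ α ≤ cF * (b : ℝ) ^ α * (M : ℝ) ^ α := by gcongr
        _ = cF * ((b : ℝ) ^ α * (M : ℝ) ^ α) := by ring
        _ ≤ cF * (N : ℝ) ^ α := by gcongr
    have h8 : CF * (N : ℝ) ^ (-α) ≤ Fb f M - Fb f N := by linarith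
    refine le_trans ?_ h2
    have e : (N : ℝ) ^ (2 - α) = (N : ℝ) ^ 2 * (N : ℝ) ^ (-α) := by
      rw [show 2 - α = 2 + -α by ring, Real.rpow_add hN0, Real.rpow_two]
    have h9 : (N : ℝ) ^ 2 / (4 * b ^ 2) ≤ (M : ℝ) ^ 2 := by
      rw [div_le_iff₀ (by positivity)]
      nlinarith
    calc CF / (4 * b ^ 2) * (N : ℝ) ^ (2 - α)
        = (N : ℝ) ^ 2 / (4 * b ^ 2) * (CF * (N : ℝ) ^ (-α)) := by rw [e]; ring
      _ ≤ (M : ℝ) ^ 2 * (Fb f M - Fb f N) := mul_le_mul h9 h8 (by positivity) (by positivity)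

/-- **the pointwise upper bound of a renewal sequence of index `> 1/2`**, no `ε` -/
theorem u_up (h : Ren f u) (hα : 1 / 2 < α) (hα1 : α < 1) {c C : ℝ} (hc : 0 < c)
    (hL : ∀ n : ℕ, 1 ≤ n → c * (n : ℝ) ^ α ≤ UU u n)
    (hU : ∀ n : ℕ, 1 ≤ n → UU u n ≤ C * (n : ℝ) ^ α) :
    ∃ C' > 0, ∀ n : ℕ, 1 ≤ n → u n ≤ C' * (n : ℝ) ^ (α - 1) := by
  have hα0 : 0 < α := by linarith
  obtain ⟨cF, hcF, hFl⟩ := Fb_low h hα0.le hα1 hc hL hU
  obtain ⟨cS, hcS, hS⟩ := S2_low h hα0 hcF (show 0 < 3 / c by positivity) hFl (Fb_up h hc hL)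
  exact u_le_const h hcF hcS (show 0 < 3 / c by positivity) hα hα1 hFl hS (mm_up h hc hL)

end PWU
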