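import Pool.Agent.PW.RenF
import Pool.Agent.PW.RenUp

/-!
# The pointwise upper bound of a renewal sequence, general indices (helper90)

`PWR.Ind u a b c C` with `1 / 2 < a` implies `u n ≤ C' W n / n` for every `n ≥ 1`
(`W n = ∑_{j < n} u j`), the counterpart of helper69's `PWR.renewal_low`.
-/

set_option autoImplicit false

namespace PWU

open Finset Complex MeasureTheory NUX PWR

variable {f u : ℕ → ℝ}

/-- the truncated second moment -/
lemma S2_ind (h : Ren f u) {a b C : ℝ} (hr : Reg f a b C) :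
    ∃ cS > 0, ∀ N n : ℕ, 1 ≤ N → N ≤ n →
      cS * ((n : ℝ) ^ a * (N : ℝ) ^ (2 - a) * Fb f n) ≤ S2 f N := by
  obtain ⟨K, hK2, hK⟩ := exists_K hr
  have hf1 := h.f1
  have hK0 : (0 : ℝ) < K := by
    have : (2 : ℝ) ≤ K := by exact_mod_cast hK2
    linarith
  have hC := hr.C1
  have hC0 : 0 < C := by linarith
  -- first step: `S2 N ≥ c N ^ 2 Fb N`
  have key : ∀ N : ℕ, 1 ≤ N → min (1 / (8 * (K : ℝ) ^ 2)) (f 1 / (K : ℝ) ^ 2) * ((N : ℝ) ^ 2 * Fb f N) ≤
      S2 f N := by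
    intro N hN
    have hN0 : (0 : ℝ) < N := by exact_mod_cast hN
    have hFN := Fb_nonneg h N
    have hFN1 := Fb_le_one h N
    rcases Nat.lt_or_ge N K with h1 | h1
    · refine (mul_le_mul_of_nonneg_right (min_le_right _ _) (by positivity)).trans ?_
      refine le_trans ?_ (S2_ge_one h hN)
      have h2 : (N : ℝ) ≤ K := by exact_mod_cast h1.le
      have h3 : (N : ℝ) ^ 2 * Fb f N ≤ K ^ 2 * 1 := by gcongr
      rw [div_mul_eq_mul_div, div_le_iff₀ (by positivity)]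
      have := mul_le_mul_of_nonneg_left h3 hf1.le
      linarith
    · refine (mul_le_mul_of_nonneg_right (min_le_left _ _) (by positivity)).trans ?_
      obtain ⟨M, hM⟩ : ∃ M, M = N / K := ⟨_, rfl⟩
      have hM1 : 1 ≤ M := by
        rw [hM]
        exact (Nat.one_le_div_iff (by omega)).2 h1
      have hMN : M ≤ N := by
        rw [hM]
        exact Nat.div_le_self _ _
      have hKM : K * M ≤ N := by rw [hM]; exact Nat.mul_div_le N K
      have hMb : (N : ℝ) ≤ 2 * K * M := by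
        have h2 : N < K * (M + 1) := by
          rw [hM]
          exact Nat.lt_mul_div_succ N (by omega)
        have h3 : K * (M + 1) ≤ 2 * K * M := by nlinarith
        exact_mod_cast (h2.le.trans h3)
      obtain ⟨h4, h5⟩ := hK M hM1
      have hFM := Fb_nonneg h M
      have h6 : Fb f (K * M) ≤ 1 / 2 * Fb f M := h4.trans (mul_le_mul_of_nonneg_right h5 hFM)
      have h7 : Fb f N ≤ Fb f (K * M) := Fb_anti h hKM
      have h8 : Fb f N ≤ Fb f M := Fb_anti h hMN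
      have h9 := S2_ge h hMN
      refine le_trans ?_ h9
      have h10 : (N : ℝ) ^ 2 / (4 * K ^ 2) ≤ (M : ℝ) ^ 2 := by
        rw [div_le_iff₀ (by positivity)]
        nlinarith
      calc 1 / (8 * (K : ℝ) ^ 2) * ((N : ℝ) ^ 2 * Fb f N)
          = (N : ℝ) ^ 2 / (4 * (K : ℝ) ^ 2) * (Fb f N / 2) := by field_simp; ring
        _ ≤ (M : ℝ) ^ 2 * (Fb f M - Fb f N) :=
          mul_le_mul h10 (by linarith) (by linarith) (by positivity)
  refine ⟨min (1 / (8 * (K : ℝ) ^ 2)) (f 1 / (K : ℝ) ^ 2) / C, by positivity, fun N n hN hNn => ?_⟩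
  have hN0 : (0 : ℝ) < N := by exact_mod_cast hN
  have hn0 : (0 : ℝ) < n := by exact_mod_cast (lt_of_lt_of_le hN hNn)
  refine le_trans ?_ (key N hN)
  have h1 := hr.lo N n hN hNn
  have e : (n : ℝ) ^ a * (N : ℝ) ^ (2 - a) * Fb f n ≤ C * ((N : ℝ) ^ 2 * Fb f N) := by
    have h2 : (n : ℝ) ^ a * (N : ℝ) ^ (2 - a) * Fb f n ≤
        (n : ℝ) ^ a * (N : ℝ) ^ (2 - a) * (C * ((N : ℝ) / n) ^ a * Fb f N) :=
      mul_le_mul_of_nonneg_left h1 (by positivity)
    refine h2.trans (le_of_eq ?_)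
    rw [Real.div_rpow hN0.le hn0.le, Real.rpow_sub hN0, Real.rpow_two]
    have p1 : (N : ℝ) ^ a ≠ 0 := (Real.rpow_pos_of_pos hN0 _).ne'
    have p2 : (n : ℝ) ^ a ≠ 0 := (Real.rpow_pos_of_pos hn0 _).ne'
    field_simp
  calc min (1 / (8 * (K : ℝ) ^ 2)) (f 1 / (K : ℝ) ^ 2) / C * ((n : ℝ) ^ a * (N : ℝ) ^ (2 - a) * Fb f n)
      ≤ min (1 / (8 * (K : ℝ) ^ 2)) (f 1 / (K : ℝ) ^ 2) / C * (C * ((N : ℝ) ^ 2 * Fb f N)) :=
        mul_le_mul_of_nonneg_left e (by positivity)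
    _ = _ := by field_simp

lemma D_ind (h : Ren f u) {a cS : ℝ} (ha : a < 2) (hcS : 0 < cS)
    (hS : ∀ N n : ℕ, 1 ≤ N → N ≤ n → cS * ((n : ℝ) ^ a * (N : ℝ) ^ (2 - a) * Fb f n) ≤ S2 f N)
    {n : ℕ} (hn : 1 ≤ n) {φ : ℝ} (h1 : Real.pi / n ≤ |φ|) (h2 : |φ| ≤ Real.pi) :
    (2 / Real.pi ^ 2 / Real.exp 1) * (cS * (Real.pi / 2) ^ (2 - a)) * ((n : ℝ) ^ a * |φ| ^ a *
      Fb f n) ≤ (1 - gf f (zz (Real.exp (-(1 / n))) φ)).re := by
  have hn0 : (0 : ℝ) < n := by exact_mod_cast hn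
  have hpi := Real.pi_pos
  have hφ : 0 < |φ| := lt_of_lt_of_le (by positivity) h1
  have hF := Fb_nonneg h n
  obtain ⟨N, hN⟩ : ∃ N, N = ⌊Real.pi / |φ|⌋₊ := ⟨_, rfl⟩
  have hq1 : 1 ≤ Real.pi / |φ| := by rw [le_div_iff₀ hφ]; linarith
  have hN1 : 1 ≤ N := by
    rw [hN]
    exact Nat.le_floor (by simpa using hq1)
  have hNle : (N : ℝ) ≤ Real.pi / |φ| := by
    rw [hN]
    exact Nat.floor_le (by positivity)
  have hNn : N ≤ n := by
    have : (N : ℝ) ≤ n := hNle.trans (by rw [div_le_iff₀ hφ]; rw [div_le_iff₀ hn0] at h1; linarith)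
    exact_mod_cast this
  have hNφ : (N : ℝ) * |φ| ≤ Real.pi := by rwa [le_div_iff₀ hφ] at hNle
  have hNge : Real.pi / (2 * |φ|) ≤ N := by
    have h3 := Nat.lt_floor_add_one (Real.pi / |φ|)
    rw [← hN] at h3
    have h4 : (1 : ℝ) ≤ N := by exact_mod_cast hN1
    have : Real.pi / (2 * |φ|) = Real.pi / |φ| / 2 := by field_simp
    rw [this]; linarith
  refine le_trans ?_ (re_ge_S2 h hn hNn hNφ)
  rw [mul_assoc]
  apply mul_le_mul_of_nonneg_left _ (by positivity)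
  have h5 := hS N n hN1 hNn
  have hex : 0 ≤ 2 - a := by linarith
  have h6 : (Real.pi / (2 * |φ|)) ^ (2 - a) ≤ (N : ℝ) ^ (2 - a) :=
    Real.rpow_le_rpow (by positivity) hNge hex
  have h7 : (Real.pi / (2 * |φ|)) ^ (2 - a) = (Real.pi / 2) ^ (2 - a) * |φ| ^ (-(2 - a)) := by
    rw [Real.rpow_neg hφ.le, ← div_eq_mul_inv, ← Real.div_rpow (by positivity) hφ.le]
    congr 1; field_simp
  have h8 : φ ^ 2 = |φ| ^ (2 : ℝ) := by
    rw [Real.rpow_two, sq_abs]
  have h9 : |φ| ^ a = |φ| ^ (2 : ℝ) * |φ| ^ (-(2 - a)) := by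
    rw [← Real.rpow_add hφ]; congr 1; ring
  calc cS * (Real.pi / 2) ^ (2 - a) * ((n : ℝ) ^ a * |φ| ^ a * Fb f n)
      = φ ^ 2 * (cS * ((n : ℝ) ^ a * (Real.pi / (2 * |φ|)) ^ (2 - a) * Fb f n)) := by
        rw [h7, h8, h9]; ring
    _ ≤ φ ^ 2 * (cS * ((n : ℝ) ^ a * (N : ℝ) ^ (2 - a) * Fb f n)) := by gcongr
    _ ≤ φ ^ 2 * S2 f N := by gcongr

/-- the bound from the truncated second moment and the truncated mean -/
lemma u_le_ind (h : Ren f u) {a cS Cm : ℝ} (ha : 1 / 2 < a) (ha1 : a < 1) (hcS : 0 < cS)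
    (hCm : 0 < Cm) (hF : ∀ n : ℕ, 0 < Fb f n)
    (hS : ∀ N n : ℕ, 1 ≤ N → N ≤ n → cS * ((n : ℝ) ^ a * (N : ℝ) ^ (2 - a) * Fb f n) ≤ S2 f N)
    (hm : ∀ n : ℕ, 1 ≤ n → mm f n ≤ Cm * (n * Fb f n)) :
    ∃ C > 0, ∀ n : ℕ, 1 ≤ n → u n ≤ C / (n * Fb f n) := by
  have hpi := Real.pi_pos
  have h2s : 0 < 2 * a - 1 := by linarith
  obtain ⟨c1, hc1⟩ : ∃ c1, c1 = (2 / Real.pi ^ 2 / Real.exp 1) * (cS * (Real.pi / 2) ^ (2 - a)) :=
    ⟨_, rfl⟩
  have hc1p : 0 < c1 := by rw [hc1]; positivity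
  obtain ⟨A, hA⟩ : ∃ A, A = 16 * Real.pi := ⟨_, rfl⟩
  have hAp : 0 < A := by rw [hA]; positivity
  obtain ⟨B, hB⟩ : ∃ B, B = 2 * (Real.pi * Cm * (2 ^ a / c1 ^ 2) *
    ((2 * Real.pi) ^ (1 - 2 * a) / (2 * a - 1))) := ⟨_, rfl⟩
  have hBp : 0 < B := by rw [hB]; positivity
  refine ⟨1 + Real.exp 1 / (4 * Real.pi) * (A + B), by positivity, fun n hn => ?_⟩
  have hn1 : (1 : ℝ) ≤ n := by exact_mod_cast hn
  have hn0 : (0 : ℝ) < n := by linarith
  have hFn := hF n
  rcases Nat.lt_or_ge n 2 with hn2 | hn2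
  · have : n = 1 := by omega
    subst this
    have h1 := u_le_one h 1
    have h2 : Fb f 1 ≤ 1 := Fb_le_one h 1
    rw [le_div_iff₀ (by positivity)]
    have h3 : 0 ≤ Real.exp 1 / (4 * Real.pi) * (A + B) := by positivity
    have h4 : u 1 * Fb f 1 ≤ 1 * 1 := mul_le_mul h1 h2 (Fb_nonneg h 1) zero_le_one
    rw [Nat.cast_one, one_mul]
    linarith
  have hn2r : (2 : ℝ) ≤ n := by exact_mod_cast hn2
  set r := Real.exp (-(1 / (n : ℝ))) with hr
  have hr0 : 0 ≤ r := (Real.exp_pos _).le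
  have hr1 : r < 1 := by rw [hr, Real.exp_lt_one_iff, neg_lt_zero]; positivity
  have hrn : r ^ n = Real.exp (-1) := by
    rw [hr, ← Real.exp_nat_mul]; congr 1; field_simp
  set δ := Real.pi / n with hδ
  have hδ0 : 0 < δ := by rw [hδ]; positivity
  have h2δ : 2 * δ ≤ Real.pi := by
    rw [hδ]
    have : Real.pi / n ≤ Real.pi / 2 := div_le_div_of_nonneg_left hpi.le (by norm_num) hn2r
    linarith
  have hsh := shift h hr0 hr1 hn
  rw [hrn, ← hδ] at hsh
  set G : ℝ → ℝ := fun θ => ‖gf u (zz r θ) - gf u (zz r (θ + δ))‖ with hG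
  have hGc : Continuous G := by
    have hc := cont_gf h hr0 hr1
    have hc2 : Continuous fun θ => gf u (zz r (θ + δ)) := hc.comp (continuous_id.add continuous_const)
    rw [hG]; exact (hc.sub hc2).norm
  -- bound A
  have hbA : ∀ θ, ‖gf u (zz r θ)‖ ≤ 2 / Fb f n := by
    intro θ
    have h1 := re_ge_tail h hn θ
    have h4 := norm_gf_le h hr0 hr1 (D := (1 / 2) * Fb f n) (by positivity) h1
    refine h4.trans (le_of_eq ?_)
    field_simp
  have hGA : ∀ θ, G θ ≤ 4 / Fb f n := by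
    intro θ
    have h1 := hbA θ
    have h2 := hbA (θ + δ)
    have h3 := norm_sub_le (gf u (zz r θ)) (gf u (zz r (θ + δ)))
    have : G θ ≤ 2 / Fb f n + 2 / Fb f n := by
      rw [hG]; simp only; linarith
    calc G θ ≤ _ := this
      _ = _ := by ring
  -- bound B
  have hbB : ∀ φ : ℝ, δ ≤ |φ| → |φ| ≤ Real.pi →
      ‖gf u (zz r φ)‖ ≤ 1 / (c1 * ((n : ℝ) ^ a * |φ| ^ a * Fb f n)) := by
    intro φ h1 h2
    have hφ : 0 < |φ| := lt_of_lt_of_le hδ0 h1
    refine norm_gf_le h hr0 hr1 (by positivity) ?_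
    rw [hc1]
    exact D_ind h (by linarith) hcS hS hn h1 h2
  obtain ⟨K, hK⟩ : ∃ K, K = δ * (Cm * (n * Fb f n)) *
    (2 ^ a / c1 ^ 2 / ((n : ℝ) ^ (2 * a) * Fb f n ^ 2)) := ⟨_, rfl⟩
  have hKp : 0 < K := by rw [hK]; positivity
  have hGB : ∀ θ : ℝ, 2 * δ ≤ |θ| → |θ| ≤ Real.pi → G θ ≤ K * |θ| ^ (-(2 * a)) := by
    intro θ h1 h2
    have hθ0 : 0 < |θ| := lt_of_lt_of_le (by positivity) h1
    obtain ⟨φ, hφz, hφ1, hφ2, hφ3⟩ : ∃ φ : ℝ, zz r (θ + δ) = zz r φ ∧ δ ≤ |φ| ∧ |φ| ≤ Real.pi ∧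
        |θ| / 2 ≤ |φ| := by
      by_cases hc : θ + δ ≤ Real.pi
      · refine ⟨θ + δ, rfl, ?_⟩
        rcases le_total 0 θ with h0 | h0
        · rw [abs_of_nonneg h0] at h1 h2 ⊢
          rw [abs_of_nonneg (by linarith)]
          exact ⟨by linarith, by linarith, by linarith⟩
        · rw [abs_of_nonpos h0] at h1 h2 ⊢
          rw [abs_of_nonpos (by linarith)]
          exact ⟨by linarith, by linarith, by linarith⟩
      · push Not at hc
        refine ⟨θ + δ - 2 * Real.pi, ?_, ?_⟩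
        · rw [← per_zz r (θ + δ - 2 * Real.pi)]; congr 1; ring
        · have h0 : 0 ≤ θ := by linarith
          rw [abs_of_nonneg h0] at h1 h2 ⊢
          rw [abs_of_nonpos (by linarith)]
          exact ⟨by linarith, by linarith, by linarith⟩
    have hφ0 : 0 < |φ| := lt_of_lt_of_le hδ0 hφ1
    have h3 := norm_gf_sub_le h hr0 hr1 hn θ
    have h4 := hbB θ (by linarith) h2
    have h5 := hbB φ hφ1 hφ2
    rw [← hφz] at h5
    have h6 : 1 / (c1 * ((n : ℝ) ^ a * |φ| ^ a * Fb f n)) ≤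
        1 / (c1 * ((n : ℝ) ^ a * (|θ| / 2) ^ a * Fb f n)) := by
      apply one_div_le_one_div_of_le (by positivity)
      gcongr
    have h7 := hm n hn
    have hm0 := mm_nonneg h n
    calc G θ ≤ δ * mm f n * (‖gf u (zz r θ)‖ * ‖gf u (zz r (θ + δ))‖) := h3
      _ ≤ δ * (Cm * (n * Fb f n)) * ((1 / (c1 * ((n : ℝ) ^ a * |θ| ^ a * Fb f n))) *
          (1 / (c1 * ((n : ℝ) ^ a * (|θ| / 2) ^ a * Fb f n)))) := by
          apply mul_le_mul _ _ (by positivity) (by positivity)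
          · exact mul_le_mul_of_nonneg_left h7 hδ0.le
          · exact mul_le_mul h4 (h5.trans h6) (norm_nonneg _) (by positivity)
      _ = K * |θ| ^ (-(2 * a)) := by
          have hX2 : |θ| ^ (-(2 * a)) = (|θ| ^ a * |θ| ^ a)⁻¹ := by
            rw [Real.rpow_neg hθ0.le, two_mul a, Real.rpow_add hθ0]
          have hY2 : (n : ℝ) ^ (2 * a) = (n : ℝ) ^ a * (n : ℝ) ^ a := by
            rw [two_mul a, Real.rpow_add hn0]
          rw [hK, Real.div_rpow hθ0.le (by norm_num), hX2, hY2]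
          have hX : 0 < |θ| ^ a := by positivity
          have hY : 0 < (n : ℝ) ^ a := by positivity
          generalize |θ| ^ a = X at hX
          generalize (n : ℝ) ^ a = Y at hY
          field_simp
  -- integrals
  have hi : ∀ a b, IntervalIntegrable G volume a b := fun a b => hGc.intervalIntegrable a b
  have hsplit : ∫ θ in (-Real.pi)..Real.pi, G θ
      = (∫ θ in (-Real.pi)..(-(2 * δ)), G θ) + (∫ θ in (-(2 * δ))..(2 * δ), G θ) +
        ∫ θ in (2 * δ)..Real.pi, G θ := by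
    rw [intervalIntegral.integral_add_adjacent_intervals (hi _ _) (hi _ _),
      intervalIntegral.integral_add_adjacent_intervals (hi _ _) (hi _ _)]
  have hmid : ∫ θ in (-(2 * δ))..(2 * δ), G θ ≤ 4 * δ * (4 / Fb f n) := by
    have := intervalIntegral.integral_mono_on (a := -(2 * δ)) (b := 2 * δ) (by linarith) (hi _ _)
      (intervalIntegrable_const (c := 4 / Fb f n)) (fun θ _ => hGA θ)
    rw [intervalIntegral.integral_const, smul_eq_mul] at this
    calc _ ≤ _ := this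
      _ = _ := by ring
  have hrp : IntervalIntegrable (fun θ : ℝ => K * θ ^ (-(2 * a))) volume (2 * δ) Real.pi := by
    apply ContinuousOn.intervalIntegrable
    rw [Set.uIcc_of_le h2δ]
    apply ContinuousOn.mul continuousOn_const
    exact continuousOn_id.rpow_const fun x hx => Or.inl (by
      have := hx.1
      simp only [id]
      intro hc
      linarith)
  have hint : ∫ θ in (2 * δ)..Real.pi, K * θ ^ (-(2 * a)) ≤
      K * ((2 * δ) ^ (1 - 2 * a) / (2 * a - 1)) := by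
    rw [intervalIntegral.integral_const_mul]
    exact mul_le_mul_of_nonneg_left (int_pow_le (by positivity) h2δ (by linarith)) hKp.le
  have hright : ∫ θ in (2 * δ)..Real.pi, G θ ≤ K * ((2 * δ) ^ (1 - 2 * a) / (2 * a - 1)) := by
    refine le_trans (intervalIntegral.integral_mono_on h2δ (hi _ _) hrp fun θ hθ => ?_) hint
    have h0 : 0 ≤ θ := by have := hθ.1; linarith
    have := hGB θ (by rw [abs_of_nonneg h0]; exact hθ.1) (by rw [abs_of_nonneg h0]; exact hθ.2)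
    rwa [abs_of_nonneg h0] at this
  have hleft : ∫ θ in (-Real.pi)..(-(2 * δ)), G θ ≤ K * ((2 * δ) ^ (1 - 2 * a) / (2 * a - 1)) := by
    have hneg : ∫ θ in (-Real.pi)..(-(2 * δ)), G θ = ∫ θ in (2 * δ)..Real.pi, G (-θ) := by
      rw [intervalIntegral.integral_comp_neg]
    rw [hneg]
    refine le_trans (intervalIntegral.integral_mono_on h2δ
      ((hGc.comp continuous_neg).intervalIntegrable _ _) hrp fun θ hθ => ?_) hint
    have h0 : 0 ≤ θ := by have := hθ.1; linarith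
    have := hGB (-θ) (by rw [abs_neg, abs_of_nonneg h0]; exact hθ.1)
      (by rw [abs_neg, abs_of_nonneg h0]; exact hθ.2)
    rwa [abs_neg, abs_of_nonneg h0] at this
  have hfin : 4 * Real.pi * (u n * Real.exp (-1)) ≤ (A + B) / (n * Fb f n) := by
    have e1 : 4 * δ * (4 / Fb f n) = A / (n * Fb f n) := by
      rw [hA, hδ]; field_simp; ring
    have e3 : 2 * (K * ((2 * δ) ^ (1 - 2 * a) / (2 * a - 1))) = B / (n * Fb f n) := by
      have e4 : (2 * δ) ^ (1 - 2 * a) = (2 * Real.pi) ^ (1 - 2 * a) * (n : ℝ) ^ (2 * a - 1) := by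
        rw [hδ, show 2 * (Real.pi / n) = 2 * Real.pi / n by ring, Real.div_rpow (by positivity) hn0.le,
          show 2 * a - 1 = -(1 - 2 * a) by ring, Real.rpow_neg hn0.le]
        rfl
      have e5 : (n : ℝ) ^ (2 * a - 1) = (n : ℝ) ^ (2 * a) / n := by
        rw [Real.rpow_sub hn0, Real.rpow_one]
      have hY : (n : ℝ) ^ (2 * a) ≠ 0 := (Real.rpow_pos_of_pos hn0 _).ne'
      rw [hK, hB, e4, e5, hδ]
      field_simp
    have h1 : 4 * Real.pi * (u n * Real.exp (-1)) ≤ 4 * δ * (4 / Fb f n)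
        + 2 * (K * ((2 * δ) ^ (1 - 2 * a) / (2 * a - 1))) := by
      have h2 : 4 * Real.pi * (u n * Real.exp (-1)) ≤ ∫ θ in (-Real.pi)..Real.pi, G θ := hsh
      linarith
    calc _ ≤ _ := h1
      _ = A / (n * Fb f n) + B / (n * Fb f n) := by rw [e1, e3]
      _ = _ := by ring
  have hexp : Real.exp 1 * Real.exp (-1) = 1 := by rw [← Real.exp_add]; simp
  have hP : 0 < 1 / (n * Fb f n) := by positivity
  calc u n = Real.exp 1 / (4 * Real.pi) * (4 * Real.pi * (u n * Real.exp (-1))) := by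
        field_simp; rw [mul_assoc, hexp, mul_one]
    _ ≤ Real.exp 1 / (4 * Real.pi) * ((A + B) / (n * Fb f n)) := by gcongr
    _ = Real.exp 1 / (4 * Real.pi) * (A + B) * (1 / (n * Fb f n)) := by ring
    _ ≤ (1 + Real.exp 1 / (4 * Real.pi) * (A + B)) * (1 / (n * Fb f n)) := by
        apply mul_le_mul_of_nonneg_right _ hP.le
        linarith
    _ = _ := by ring

/-- **the pointwise upper bound of a renewal sequence with lower index `> 1/2`** -/
theorem renewal_up {a b c C : ℝ} (h : Ren f u) (h2 : 0 < f 2) (hi : Ind u a b c C)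
    (ha : 1 / 2 < a) : ∃ C' > 0, ∀ n : ℕ, 1 ≤ n → u n ≤ C' * (W u n / n) := by
  obtain ⟨C1, hr⟩ := reg_of_ind h h2 hi
  obtain ⟨B, hB1, hB⟩ := Fb_two h hi
  have hB0 : 0 < B := by linarith
  have hWp : ∀ n : ℕ, 1 ≤ n → 0 < W u n := fun n hn => lt_of_lt_of_le one_pos (W_pos h hn)
  obtain ⟨cS, hcS, hS⟩ := S2_ind h hr
  have hm : ∀ n : ℕ, 1 ≤ n → mm f n ≤ 3 * B * (n * Fb f n) := by
    intro n hn
    have hn1 : (1 : ℝ) ≤ n := by exact_mod_cast hn
    have h1 := UM_upper h n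
    have h3 : mm f n ≤ mm f (n + 1) := mm_mono h (Nat.le_succ n)
    have h4 := mm_nonneg h (n + 1)
    have h5 := hWp n hn
    have h6 : W u n ≤ UU u n := by
      rw [← W_succ_eq]
      exact W_mono h (Nat.le_succ n)
    have h7 : W u n * mm f n ≤ 3 * n := by
      calc W u n * mm f n ≤ UU u n * mm f (n + 1) := by
            have := mm_nonneg h n
            gcongr
            exact h5.le.trans h6
        _ ≤ 2 * n + 1 := h1
        _ ≤ 3 * n := by linarith
    have h8 := (hB n hn).2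
    rw [div_le_iff₀ (by positivity)] at h8
    have h9 := mm_nonneg h n
    calc mm f n = mm f n * 1 := (mul_one _).symm
      _ ≤ mm f n * (Fb f n * (B * W u n)) := mul_le_mul_of_nonneg_left h8 h9
      _ = W u n * mm f n * (B * Fb f n) := by ring
      _ ≤ 3 * n * (B * Fb f n) := by
          have := Fb_nonneg h n
          gcongr
      _ = _ := by ring
  obtain ⟨C', hC', hu⟩ := u_le_ind h ha (lt_of_le_of_lt hi.ab hi.b1) hcS
    (show 0 < 3 * B by positivity) (Fb_pos h hr) hS hm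
  refine ⟨C' * B, by positivity, fun n hn => (hu n hn).trans ?_⟩
  have hn0 : (0 : ℝ) < n := by exact_mod_cast hn
  have hF := Fb_pos h hr n
  have h8 := (hB n hn).2
  have h5 := hWp n hn
  rw [div_le_iff₀ (by positivity)] at h8
  rw [div_le_iff₀ (by positivity)]
  calc C' = C' * 1 := (mul_one _).symm
    _ ≤ C' * (Fb f n * (B * W u n)) := mul_le_mul_of_nonneg_left h8 hC'.le
    _ = C' * B * (W u n / n) * (n * Fb f n) := by field_simp

end PWU
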