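import Pool.Agent.NTQ.RepG

/-!
PW: the chain of the pieces of a bridge between successive extremal times, with the words of the interior pieces.
-/

set_option autoImplicit false

namespace HexObs

namespace PW

open Finset TS SDN SDN.ZZ NTm

/-- the chain of the pieces (NTQ/RepG.rep_gen), with the words of the interior pieces -/
theorem rep_mid {m T : ℕ} {t : List Bool} {e : ℕ → ℕ} (ht : t ∈ Brd T) (h : HH t m e) (hm : 1 ≤ m) :
    ∃ gs : List (List Bool), gs.length = m ∧ unf gs = t ∧ gs.IsChain LFold ∧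
      (∀ g ∈ gs, ∃ k : ℕ, 1 ≤ k ∧ g ∈ Brd k) ∧ (∀ (l : ℕ) (hl : l < gs.length), IsH t e l gs[l]) ∧
      ∀ (l : ℕ) (hl : l < gs.length), 1 ≤ l → l + 2 ≤ m → gs[l] = lw t (e l) (e (l + 1)) := by
  obtain ⟨t1, t2, t3, t4⟩ := mem_Brd.1 ht
  have htSA : t ∈ SA := ⟨fun _ _ _ => Set.mem_univ _, t2⟩
  have hodd := hh_odd ht h hm
  rcases Nat.lt_or_ge 1 m with h1 | h1
  swap
  · have : m = 1 := by omega
    subst this
    have h0 : IsH t e 0 t := by
      refine ⟨?_, ?_⟩
      · show 0 + t.length = e 1
        rw [h.last, zero_add]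
      · intro i hi
        show lev t i = Tight.sg 1 (lev t (0 + i) - lev t 0)
        rw [Tight.sg_one, zero_add, lev_zero, sub_zero]
    refine ⟨[t], rfl, rfl, List.isChain_singleton _, ?_, fun l hl => by
      have hl0 : l = 0 := by
        rw [List.length_singleton] at hl
        omega
      subst hl0
      exact h0, fun l hl l1 l2 => by omega⟩
    intro g hg
    rw [List.mem_singleton] at hg
    subst hg
    refine ⟨T, ?_, ht⟩
    have h3 := h.big 0 (by omega)
    rw [zero_add, Tight.sg_one, Tight.sg_one, h.last, h.zero, lev_zero, t4] at h3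
    omega
  obtain ⟨n, rfl⟩ : ∃ n, m = n + 3 := by
    refine ⟨m - 3, ?_⟩
    have : m ≠ 2 := by
      rintro rfl
      exact hodd (by decide)
    omega
  -- the last piece
  have l1 := hh_two h (j := n + 2) (by omega)
  have l2 := h.lt (n + 1) (by omega)
  have l3 : e (n + 2 + 1) = t.length := h.last
  rw [l3] at l1
  obtain ⟨a, ha⟩ : ∃ a, e (n + 2) = a + 1 := ⟨e (n + 2) - 1, by
    rw [show n + 1 + 1 = n + 2 from rfl] at l2
    omega⟩
  have hev : Even (n + 1 + 1) := by
    rw [show n + 3 = n + 1 + 1 + 1 from rfl, Nat.even_add_one, not_not] at hodd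
    exact hodd
  obtain ⟨gl, hgl⟩ : ∃ gl, gl = t.drop (e (n + 2) + 1) := ⟨_, rfl⟩
  obtain ⟨kl, kl1, kl2, kl3, kl4⟩ := last_leaf' ht (a := a) (by omega) (by
      have := h.hi (n + 1) (by omega) a (by rw [show n + 1 + 1 = n + 2 from rfl] at l2; omega) (by
        rw [show n + 1 + 1 = n + 2 from rfl]
        omega)
      rw [Tight.sg_even hev, Tight.sg_even hev, show n + 1 + 1 = n + 2 from rfl, ha] at this
      omega) (fun i i1 i2 => by
      have := h.lo (n + 2) (by omega) i (by omega) (by rw [l3]; exact i2)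
      rw [Tight.sg_odd hodd, Tight.sg_odd hodd, ha] at this
      exact this)
  have hbigl := h.big (n + 2) (by omega)
  rw [Tight.sg_odd hodd, Tight.sg_odd hodd, l3, t4, ha] at hbigl
  have hkl1 : 1 ≤ kl := by omega
  have hlastH : IsH t e (n + 2) gl := by
    refine ⟨?_, ?_⟩
    · show (if n + 2 = 0 then 0 else e (n + 2) + 1) + gl.length = _
      rw [if_neg (by omega), hgl, List.length_drop, l3, ha]
      omega
    · intro i hi
      have e1 : st e (n + 2) = a + 2 := by
        unfold st
        rw [if_neg (by omega), ha]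
      rw [e1, Tight.sg_odd hodd, hgl, ha]
      exact kl4 i
  -- the tail
  have tail : ∀ d j, 1 ≤ j → j + d = n + 2 → ∃ gs : List (List Bool), gs.length = d + 1 ∧ unf gs = t.drop (e j + 1) ∧
      gs.IsChain LFold ∧ (∀ g ∈ gs, ∃ k : ℕ, 1 ≤ k ∧ g ∈ Brd k) ∧ (∀ (i : ℕ) (hi : i < gs.length), IsH t e (j + i) gs[i]) ∧
      (∀ (i : ℕ) (hi : i < gs.length), j + i + 2 ≤ n + 3 → gs[i] = lw t (e (j + i)) (e (j + i + 1))) ∧
      ∃ g0 gs0, gs = g0 :: gs0 ∧ (∀ k, k ≤ g0.length → e j + 1 + k ≤ t.length ∧
        vx oo up g0 k = vx oo up (t.drop (e j + 1)) k) := by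
    intro d
    induction d with
    | zero =>
      intro j j1 j2
      have hj : j = n + 2 := by omega
      subst hj
      refine ⟨[gl], rfl, hgl, List.isChain_singleton _, ?_, ?_, fun i hi h2 => by omega, gl, [], rfl, ?_⟩
      · intro g hg
        rw [List.mem_singleton.1 hg, hgl, ha]
        exact ⟨kl, hkl1, kl1⟩
      · intro i hi
        have hi0 : i = 0 := by
          rw [List.length_singleton] at hi
          omega
        subst hi0
        exact hlastH
      · intro k hk
        rw [hgl, List.length_drop] at hk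
        exact ⟨by omega, by rw [hgl]⟩
    | succ d ih =>
      intro j j1 j2
      obtain ⟨gs, i0, i1, i2, i3, i6, i7, g0, gs0, i4, i5⟩ := ih (j + 1) (by omega) (by omega)
      obtain ⟨⟨M, r3, r6⟩, rH, r9, r10, r12⟩ := piece_mid ht h j1 (by omega)
      have hej : e j + 1 ≤ t.length := by
        have := hh_len h (k := j + 1) (by omega)
        have := h.lt j (by omega)
        omega
      have hsp : t.drop (e j + 1) = (lw t (e j) (e (j + 1))).dropLast ++ (!lst (lw t (e j) (e (j + 1)))) ::
          (!lst (lw t (e j) (e (j + 1)))) :: t.drop (e (j + 1) + 1) := by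
        have hl : (t.take (e j + 1)).length = e j + 1 := by
          rw [List.length_take]
          omega
        conv_lhs => rw [r10]
        rw [List.drop_append_of_le_length (by omega), List.drop_of_length_le (by omega), List.nil_append]
      refine ⟨lw t (e j) (e (j + 1)) :: gs, by rw [List.length_cons, i0], ?_, ?_, ?_, ?_, ?_, _, _, rfl, ?_⟩
      · rw [i4]
        show (lw t (e j) (e (j + 1))).dropLast ++ (!lst (lw t (e j) (e (j + 1)))) ::
          (!lst (lw t (e j) (e (j + 1)))) :: unf (g0 :: gs0) = _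
        rw [← i4, i1, hsp]
      · rw [i4, List.isChain_cons_cons]
        refine ⟨r12 g0 i5, ?_⟩
        rw [← i4]
        exact i2
      · intro g hg
        rw [List.mem_cons] at hg
        rcases hg with rfl | hg
        · exact ⟨M, r3, r6⟩
        · exact i3 g hg
      · intro i hi
        rcases Nat.eq_zero_or_pos i with h0 | h0
        · subst h0
          exact rH
        · obtain ⟨i', rfl⟩ : ∃ i', i = i' + 1 := ⟨i - 1, by omega⟩
          rw [List.getElem_cons_succ, show j + (i' + 1) = j + 1 + i' by ring]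
          exact i6 i' _
      · intro i hi h2
        rcases Nat.eq_zero_or_pos i with h0 | h0
        · subst h0
          rfl
        · obtain ⟨i', rfl⟩ : ∃ i', i = i' + 1 := ⟨i - 1, by omega⟩
          rw [List.getElem_cons_succ, show j + (i' + 1) = j + 1 + i' by ring]
          exact i7 i' _ (by omega)
      · intro k hk
        have hlen := rH.len
        unfold st at hlen
        rw [if_neg (by omega)] at hlen
        have := hh_len h (k := j + 1) (by omega)
        exact ⟨by omega, r9 k hk⟩
  obtain ⟨gs, i0, i1, i2, i3, i6, i7, g0, gs0, i4, i5⟩ := tail (n + 1) 1 le_rfl (by omega)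
  -- the first piece
  have a1 := h.lt 0 (by omega)
  have a2 := h.hi 0 (by omega)
  have a3 := h.big 0 (by omega)
  have a4 := h.lo 1 (by omega)
  have a6 := hh_two h (j := 1) (by omega)
  rw [zero_add, h.zero] at a1 a2 a3
  have hev2 : Even (1 + 1) := by decide
  simp only [Tight.sg_one, lev_zero] at a2 a3
  simp only [Tight.sg_even hev2] at a4
  have a7 := hh_len h (k := 1 + 1) (by omega)
  obtain ⟨c, M, hM1, hM, hsplit, hB, hlen, hvx, hvq, -, -, hH⟩ := fold_step (q := t) (e := e 1) (by omega) (by omega)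
    t2 (fun j j1 j2 => ⟨(lev_range ht (by omega)).2.2 j1, a2 j (by omega) j2⟩)
    (by have := a4 (e 1 + 1) (by omega) (by omega); omega) (by have := a4 (e 1 + 2) (by omega) (by omega); omega)
  have hlG : lst (t.take (e 1 - 1) ++ [!c]) = !c := lst_append _ _
  refine ⟨(t.take (e 1 - 1) ++ [!c]) :: gs, by rw [List.length_cons, i0], ?_, ?_, ?_, ?_, fun l hl l1 l2 => ?_⟩
  rotate_left 4
  · obtain ⟨l', rfl⟩ : ∃ l', l = l' + 1 := ⟨l - 1, by omega⟩
    rw [List.getElem_cons_succ, show l' + 1 = 1 + l' by ring]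
    exact i7 l' _ (by omega)
  · rw [i4]
    show (t.take (e 1 - 1) ++ [!c]).dropLast ++ (!lst (t.take (e 1 - 1) ++ [!c])) ::
      (!lst (t.take (e 1 - 1) ++ [!c])) :: unf (g0 :: gs0) = t
    rw [hlG, Bool.not_not, List.dropLast_concat, ← i4, i1, ← hsplit]
  · rw [i4, List.isChain_cons_cons]
    refine ⟨?_, by rw [← i4]; exact i2⟩
    show Hang _ (lst _) g0
    rw [hlG]
    apply hH
    intro k hk
    obtain ⟨j1, j2⟩ := i5 k hk
    refine ⟨j1, ?_⟩
    rw [j2, ← hvq]
  · intro g hg
    rw [List.mem_cons] at hg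
    rcases hg with rfl | hg
    · exact ⟨M, hM1, hB⟩
    · exact i3 g hg
  · intro l hl
    rcases Nat.eq_zero_or_pos l with h0' | h0'
    · subst h0'
      refine ⟨?_, ?_⟩
      · show 0 + (t.take (e 1 - 1) ++ [!c]).length = e 1
        rw [zero_add, hlen]
      · intro i hi
        show lev (t.take (e 1 - 1) ++ [!c]) i = Tight.sg 1 (lev t (0 + i) - lev t 0)
        have hi' : i ≤ (t.take (e 1 - 1) ++ [!c]).length := hi
        rw [Tight.sg_one, zero_add, lev_zero, sub_zero]
        unfold lev
        rw [hvx i (by rw [hlen] at hi'; exact hi')]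
    · obtain ⟨l', rfl⟩ : ∃ l', l = l' + 1 := ⟨l - 1, by omega⟩
      rw [List.getElem_cons_succ, show l' + 1 = 1 + l' by ring]
      exact i6 l' _

end PW

end HexObs
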