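import Pool.Agent.PW.NoRet

/-!
PW, row E1 (helper15): the word read backwards. `vx_rev_down` : a word with the last direction - up, read backwards, has the
vertices `vx t (|t| + 1 - i) - vx t (|t| + 1)`; `rev_noret`, `rev_notrans` : the conclusions of `NoRet` for `rev t`, said for `t`.
-/

set_option autoImplicit false

namespace HexObs

namespace PWN

open Finset TS SDN TIW

/-- the vertices of the reversed word, frame not turned -/
lemma vx_rev_down {t : List Bool} (hd : de t = -up) {i : ℕ} (hi : i ≤ t.length + 1) :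
    vx oo up (rev t) i = vx oo up t (t.length + 1 - i) - vx oo up t (t.length + 1) := by
  have h1 := vx_rev oo up t i hi
  have h2 : dx up t t.length = -up := hd
  rw [h2, neg_neg] at h1
  have h3 := vx_mulE (1, 0) oo (tip oo up t) up (rev t) i
  have e1 : ∀ p : Pt, mulE (1, 0) p = p := fun p => Prod.ext (by simp [mulE]) (by simp [mulE])
  rw [e1, e1] at h3
  have h4 : vx oo up (rev t) i - oo = vx oo up (rev t) i := sub_zero _
  rw [h4, h1] at h3
  have h5 : tip oo up t = vx oo up t (t.length + 1) := rfl
  rw [h5] at h3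
  rw [h3]
  abel

/-- the end of the reversed word -/
lemma en_rev_down {t : List Bool} (hd : de t = -up) : en (rev t) = vx oo up t 1 - vx oo up t (t.length + 1) := by
  unfold en
  rw [rev_length, vx_rev_down hd (by omega), Nat.add_sub_cancel_left]

/-- no return to the start -/
theorem rev_noret {t : List Bool} (hd : de t = -up) {l : ℕ}
    (h : ∀ j i, j ≤ i → i ≤ (rev t).length → 32 * hn (vx oo up (rev t) j - en (rev t)) < 2 ^ l →
      hn (vx oo up (rev t) i - en (rev t)) < 2 * 2 ^ l) {q p : ℕ} (hq : 1 ≤ q) (hqp : q ≤ p) (hp : p ≤ t.length + 1)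
    (hn1 : 32 * hn (vx oo up t p - vx oo up t 1) < 2 ^ l) : hn (vx oo up t q - vx oo up t 1) < 2 * 2 ^ l := by
  have h1 := h (t.length + 1 - p) (t.length + 1 - q) (by omega) (by rw [rev_length]; omega)
  rw [vx_rev_down hd (by omega), vx_rev_down hd (by omega), en_rev_down hd, sub_sub_sub_cancel_right,
    sub_sub_sub_cancel_right, show t.length + 1 - (t.length + 1 - p) = p by omega,
    show t.length + 1 - (t.length + 1 - q) = q by omega] at h1
  exact h1 hn1

/-- the translates of the start -/
theorem rev_notrans {t : List Bool} (hd : de t = -up) {L k : ℕ}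
    (h : ∀ i, i ≤ (rev t).length → ∀ m : ℤ, m ≠ 0 →
      (2 : ℤ) ^ L ≤ hn (vx oo up (rev t) i + (2 * (k : ℤ) * m, 2 * (k : ℤ) * m) - en (rev t))) {p : ℕ} (hp1 : 1 ≤ p)
    (hp : p ≤ t.length + 1) {m : ℤ} (hm : m ≠ 0) :
    (2 : ℤ) ^ L ≤ hn (vx oo up t p + (2 * (k : ℤ) * m, 2 * (k : ℤ) * m) - vx oo up t 1) := by
  have h1 := h (t.length + 1 - p) (by rw [rev_length]; omega) m hm
  rw [vx_rev_down hd (by omega), en_rev_down hd, show t.length + 1 - (t.length + 1 - p) = p by omega] at h1
  refine h1.trans (le_of_eq ?_)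
  congr 1
  abel

end PWN

end HexObs
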