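import Pool.Agent.NTQ.Geo
import Pool.Agent.PW.RepM

/-!
PW: the monotone chain through a run of leaves of a bridge of the box (as NTQ/Geo, with a run instead of one leaf).
-/

set_option autoImplicit false

namespace HexObs

namespace PW

open Finset TS SDN SDN.CN SDN.ZZ NTm

open scoped ENNReal

/-- THE WHOLE SEQUENCE around the steps l, ..., l + d - 1 -/
theorem hw_run {y : ℕ → ℤ} {m : ℕ} (hA : Alt y m) {l d : ℕ} (hd : 1 ≤ d) (hl : l + d ≤ m)
    (hlo : ∀ j, 0 < j → j ≤ m → y 0 < y j) (hhi : ∀ j, j ≤ m → Tight.sg m (y j) ≤ Tight.sg m (y m)) :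
    ∃ (p r : ℕ) (i : ℕ → ℕ), p + d ≤ r ∧ Hw y 0 m r i ∧ (∀ q, q ≤ d → i (p + q) = l + q) ∧
      (∀ q, q + 1 < p → rg y (i (q + 1)) (i (q + 2)) ≤ rg y (i q) (i (q + 1))) ∧
      (∀ q, p + d ≤ q → q + 1 < r → rg y (i q) (i (q + 1)) ≤ rg y (i (q + 1)) (i (q + 2))) := by
  obtain ⟨p, i1, h1, m1, r1⟩ := hw_left hA (l := l) (by omega) l 0 (by omega) (by
    intro j j1 j2
    rw [zero_add, Tight.sg_one, Tight.sg_one]
    exact hlo j j1 (by omega))
  obtain ⟨s, i2, h2, m2, r2⟩ := hw_right hA (a := l + d) (m - (l + d)) m (by omega) le_rfl (fun j _ j2 => hhi j j2)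
  obtain ⟨i, hi⟩ : ∃ i : ℕ → ℕ, i = fun q => if q ≤ p then i1 q else if q < p + d then l + (q - p) else i2 (q - (p + d)) :=
    ⟨_, rfl⟩
  have ia : ∀ q, q ≤ p → i q = i1 q := fun q hq => by
    rw [hi]
    exact if_pos hq
  have ib : ∀ q, q ≤ d → i (p + q) = l + q := fun q hq => by
    rcases Nat.eq_zero_or_pos q with h0 | h0
    · rw [h0, add_zero, add_zero, ia p le_rfl, h1.last]
    · rw [hi]
      show (if p + q ≤ p then i1 (p + q) else if p + q < p + d then l + (p + q - p) else i2 (p + q - (p + d))) = l + q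
      rw [if_neg (by omega)]
      rcases Nat.lt_or_ge q d with h3 | h3
      · rw [if_pos (by omega), Nat.add_sub_cancel_left]
      · have : q = d := by omega
        subst this
        rw [if_neg (by omega), Nat.sub_self, h2.zero]
  have ic : ∀ q, i (p + d + q) = i2 q := fun q => by
    rw [hi]
    show (if p + d + q ≤ p then i1 (p + d + q) else if p + d + q < p + d then l + (p + d + q - p) else
      i2 (p + d + q - (p + d))) = i2 q
    rw [if_neg (by omega), if_neg (by omega), Nat.add_sub_cancel_left]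
  refine ⟨p, p + d + s, i, by omega, ⟨?_, ?_, ?_⟩, ib, ?_, ?_⟩
  · rw [ia 0 (Nat.zero_le p)]
    exact h1.zero
  · rw [ic]
    exact h2.last
  · intro q hq
    rcases Nat.lt_or_ge q p with hqp | hqp
    · rw [ia q (by omega), ia (q + 1) (by omega)]
      exact h1.seg q hqp
    rcases Nat.lt_or_ge q (p + d) with hqd | hqd
    · obtain ⟨z, rfl⟩ : ∃ z, q = p + z := ⟨q - p, by omega⟩
      rw [ib z (by omega), add_assoc, ib (z + 1) (by omega), ← add_assoc]
      refine ⟨by omega, ?_, ?_, Nat.even_add_one⟩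
      · intro j j1 j2
        have : j = l + z + 1 := by omega
        subst this
        exact hA (l + z) (by omega)
      · intro j j1 j2
        rcases Nat.lt_or_ge (l + z) j with h | h
        · have : j = l + z + 1 := by omega
          subst this
          exact le_rfl
        · have : j = l + z := by omega
          subst this
          exact (hA (l + z) (by omega)).le
    · obtain ⟨z, rfl⟩ : ∃ z, q = p + d + z := ⟨q - (p + d), by omega⟩
      rw [ic, add_assoc (p + d) z 1, ic]
      exact h2.seg z (by omega)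
  · intro q hq
    rw [ia q (by omega), ia (q + 1) (by omega), ia (q + 2) (by omega)]
    exact m1 q hq
  · intro q q1 q2
    obtain ⟨z, rfl⟩ : ∃ z, q = p + d + z := ⟨q - (p + d), by omega⟩
    rw [ic, add_assoc (p + d) z 1, ic, add_assoc (p + d) z 2, ic]
    exact m2 z (by omega)

/-- the monotone chain through a run of leaves of a bridge of the box -/
theorem geo_run {kc J : ℕ} {t : List Bool} {m u : ℕ} {e : ℕ → ℕ} (ht : t ∈ BL (kc + J)) (h : Lf false (kc + 5) t m u e)
    {l d : ℕ} (hd : 1 ≤ d) (hl : l + d ≤ m) : ∃ ls ms rs : List (List Bool), unf (ls ++ (ms ++ rs)) = t ∧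
      (ls ++ (ms ++ rs)).IsChain LFold ∧ (∀ x ∈ ls ++ (ms ++ rs), x ∈ BrR (2 ^ (kc + 4)) (2 ^ (kc + J))) ∧
      ms.length = d ∧ (∀ (q : ℕ) (hq : q < ms.length), IsLf t m e (l + q) ms[q]) ∧
      (∀ (q : ℕ) (hq : q < ms.length), 1 ≤ l + q → l + q + 2 ≤ m → ms[q] = lw t (e (l + q)) (e (l + q + 1))) ∧
      (ls.map hgt).Pairwise (· ≥ ·) ∧ (rs.map hgt).Pairwise (· ≤ ·) := by
  obtain ⟨hBU, hWL⟩ := ht
  obtain ⟨T, hT⟩ : ∃ T, t ∈ Brd T := by
    simpa [BU] using hBU
  obtain ⟨hu, hm2, h'⟩ := bridge_lf hT (by omega) h (by omega)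
  obtain ⟨E, hE⟩ : ∃ E, E = ee m t.length e := ⟨_, rfl⟩
  rw [← hE] at h'
  have hR := RR_ge (b := kc + 5) (by omega)
  have hpow : (2 : ℤ) ^ (kc + 5) = 2 * 2 ^ (kc + 4) := by ring
  have hpow1 : (1 : ℤ) ≤ 2 ^ (kc + 4) := by
    have : (1 : ℕ) ≤ 2 ^ (kc + 4) := Nat.one_le_two_pow
    exact_mod_cast this
  have E0 : E 0 = 0 := by
    rw [hE]
    exact if_pos rfl
  have Em : E m = t.length := by
    rw [hE]
    unfold ee
    rw [if_neg (by omega), if_pos rfl]
  have hlt : ∀ j, j < m → E j < E (j + 1) := h'.lt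
  have hEle : ∀ j, j ≤ m → E j ≤ t.length := fun j hj => by
    rw [← Em]
    exact mono_E hlt hj le_rfl
  have hpar : ∀ j, Even (u + j) ↔ Even (j + 1) := by
    intro j
    rw [Nat.even_add, Nat.even_add_one]
    tauto
  obtain ⟨y, hy⟩ : ∃ y : ℕ → ℤ, y = fun j => lev t (E j) := ⟨_, rfl⟩
  have hy' : ∀ j, y j = lev t (E j) := fun j => by rw [hy]
  have hA : Alt y m := by
    intro j hj
    have := h'.big j hj
    rw [NTm.sg_par (hpar j), NTm.sg_par (hpar j)] at this
    simp only [lvl_false] at this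
    rw [hy', hy']
    have : (0 : ℤ) < RR (kc + 5) := by
      unfold RR
      omega
    omega
  have hpos : ∀ j, 0 < j → j ≤ m → y 0 < y j := by
    intro j j1 j2
    rw [hy', hy', E0, lev_zero]
    have h1 : E 0 < E j := by
      have h2 := hlt 0 (by omega)
      have h3 := mono_E hlt (a := 0 + 1) (b := j) (by omega) j2
      omega
    rw [E0] at h1
    exact (lev_range hT (hEle j j2)).2.2 (by omega)
  have htop : ∀ j, j ≤ m → Tight.sg m (y j) ≤ Tight.sg m (y m) := by
    intro j j1
    rw [Tight.sg_odd hm2, Tight.sg_odd hm2, hy', hy', Em, (mem_Brd.1 hT).2.2.2]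
    exact (lev_range hT (hEle j j1)).2.1
  obtain ⟨p, r, i, hpr, hw, ip, mL, mR⟩ := hw_run hA hd hl hpos htop
  have hipar : ∀ q, q ≤ r → (Even (i q) ↔ Even q) := by
    intro q hq
    have := hw_par hw q hq
    rw [zero_add] at this
    exact this
  have hir : ∀ q, q ≤ r → i q ≤ m := by
    intro q hq
    rw [← hw.last]
    exact hw_mono hw hq le_rfl
  have hsg : ∀ q, q ≤ r → ∀ x, Tight.sg (i q + 1) x = Tight.sg (q + 1) x := by
    intro q hq x
    exact NTm.sg_par (by rw [Nat.even_add_one, Nat.even_add_one, hipar q hq]) x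
  -- the segments
  have hseg : ∀ q, q < r → (∀ x, E (i q) < x → x ≤ E (i (q + 1)) →
      Tight.sg (q + 1) (lev t (E (i q))) < Tight.sg (q + 1) (lev t x)) ∧
      (∀ x, E (i q) ≤ x → x ≤ E (i (q + 1)) → Tight.sg (q + 1) (lev t x) ≤ Tight.sg (q + 1) (lev t (E (i (q + 1))))) ∧
      RR (kc + 5) ≤ Tight.sg (q + 1) (lev t (E (i (q + 1)))) - Tight.sg (q + 1) (lev t (E (i q))) := by
    intro q hq
    have h1 := hw.seg q hq
    rw [hy] at h1
    have h2 := seg_times h' hu h1 (hir (q + 1) (by omega))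
    simp only [hsg q (by omega)] at h2
    exact h2
  have hHH : HH t r (fun q => E (i q)) := by
    refine ⟨?_, ?_, ?_, ?_, ?_, ?_⟩
    · show E (i 0) = 0
      rw [hw.zero, E0]
    · show E (i r) = t.length
      rw [hw.last, Em]
    · intro q hq
      have h1 := (hw.seg q hq).lt
      have h2 := hlt (i q) (by have := hir (q + 1) (by omega); omega)
      have h3 := mono_E hlt (a := i q + 1) (b := i (q + 1)) (by omega) (hir (q + 1) (by omega))
      show E (i q) < E (i (q + 1))
      omega
    · intro q hq x x1 x2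
      exact (hseg q hq).1 x x1 x2
    · intro q hq x x1 x2
      exact (hseg q hq).2.1 x x1 x2
    · intro q hq
      have h1 := (hseg q hq).2.2
      unfold RR at h1
      show 4 ≤ Tight.sg (q + 1) (lev t (E (i (q + 1)))) - Tight.sg (q + 1) (lev t (E (i q)))
      have : (2 : ℤ) ^ (kc + 4) ≥ 1 := hpow1
      omega
  obtain ⟨gs, g1, g2, g3, g4, g5, g6⟩ := rep_mid hT hHH (by omega)
  -- the heights
  have hh : ∀ (q : ℕ) (hq : q < gs.length), ∃ k : ℕ, gs[q] ∈ Brd k ∧ hgt gs[q] = k ∧
      3 * (k : ℤ) ≤ Tight.sg (q + 1) (lev t (E (i (q + 1)))) - Tight.sg (q + 1) (lev t (E (i q))) ∧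
      Tight.sg (q + 1) (lev t (E (i (q + 1)))) - Tight.sg (q + 1) (lev t (E (i q))) ≤ 3 * (k : ℤ) + 2 := by
    intro q hq
    obtain ⟨k, -, hk⟩ := g4 gs[q] (List.getElem_mem hq)
    exact ⟨k, hk, hgt_eq hk, h_hgt hHH (by omega) hk (g5 q hq)⟩
  have hrg : ∀ q, q < r → rg y (i q) (i (q + 1)) =
      Tight.sg (q + 1) (lev t (E (i (q + 1)))) - Tight.sg (q + 1) (lev t (E (i q))) := by
    intro q hq
    unfold rg
    rw [hsg q (by omega), hsg q (by omega), hy', hy']
  have hsplit : gs = gs.take p ++ ((gs.drop p).take d ++ gs.drop (p + d)) := by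
    rw [← List.drop_drop, List.take_append_drop, List.take_append_drop]
  have hml : ((gs.drop p).take d).length = d := by
    rw [List.length_take, List.length_drop]
    omega
  refine ⟨gs.take p, (gs.drop p).take d, gs.drop (p + d), ?_, ?_, ?_, hml, ?_, ?_, ?_, ?_⟩
  · rw [← hsplit]
    exact g2
  · rw [← hsplit]
    exact g3
  · intro x hx
    rw [← hsplit] at hx
    obtain ⟨q, hq, rfl⟩ := List.getElem_of_mem hx
    obtain ⟨k, k1, k2, k3, k4⟩ := hh q hq
    have h1 := (hseg q (by omega)).2.2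
    have h2 := row_top hT hWL
    have h3 := (lev_range hT (hEle (i q) (hir q (by omega))))
    have h4 := (lev_range hT (hEle (i (q + 1)) (hir (q + 1) (by omega))))
    have h5 : Tight.sg (q + 1) (lev t (E (i (q + 1)))) - Tight.sg (q + 1) (lev t (E (i q))) ≤ 3 * (T : ℤ) := by
      unfold Tight.sg
      split_ifs <;> omega
    refine ⟨k, ?_, by omega, k1⟩
    have h6 : ((2 ^ (kc + 4) : ℕ) : ℤ) ≤ (k : ℤ) := by
      push_cast
      unfold RR at h1
      omega
    exact_mod_cast h6
  · -- the leaves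
    intro q0 hq0
    have hq1 : q0 < d := by omega
    have hget : ((gs.drop p).take d)[q0] = gs[p + q0]'(by omega) := by
      rw [List.getElem_take, List.getElem_drop]
    rw [hget]
    have hI := g5 (p + q0) (by omega)
    have ipq := ip q0 (by omega)
    have ipq1 := ip (q0 + 1) (by omega)
    rw [← add_assoc] at ipq1
    have e1 : st (fun q => E (i q)) (p + q0) = st e (l + q0) := by
      unfold st
      rcases Nat.eq_zero_or_pos (p + q0) with hp0 | hp0
      · have hl0 : l + q0 = 0 := by rw [← ipq, hp0, hw.zero]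
        rw [if_pos hp0, if_pos hl0]
      · have hl0 : 0 < l + q0 := by
          have h1 := (hw.seg 0 (by omega)).lt
          have h2 := hw_mono hw (q := 0 + 1) (q' := p + q0) (by omega) (by omega)
          omega
        rw [if_neg (by omega), if_neg (by omega)]
        show E (i (p + q0)) + 1 = e (l + q0) + 1
        rw [ipq, hE]
        unfold ee
        rw [if_neg (by omega), if_neg (by omega)]
    refine ⟨?_, ?_⟩
    · have h1 := hI.len
      rw [e1] at h1
      rw [h1]
      show E (i (p + q0 + 1)) = _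
      rw [ipq1, hE, ← add_assoc]
    · intro x hx
      have h1 := hI.lv x hx
      rw [e1] at h1
      rw [h1]
      exact NTm.sg_par (by rw [Nat.even_add_one, Nat.even_add_one, ← ipq, hipar (p + q0) (by omega)]) _
  · -- the words of the interior leaves
    intro q0 hq0 hl1 hl2
    have hq1 : q0 < d := by omega
    have hget : ((gs.drop p).take d)[q0] = gs[p + q0]'(by omega) := by
      rw [List.getElem_take, List.getElem_drop]
    have ipq := ip q0 (by omega)
    have ipq1 := ip (q0 + 1) (by omega)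
    rw [← add_assoc, ← add_assoc] at ipq1
    have hp1 : 1 ≤ p + q0 := by
      by_contra hc
      have h0 : p + q0 = 0 := by omega
      rw [h0, hw.zero] at ipq
      omega
    have hp2 : p + q0 + 2 ≤ r := by
      by_contra hc
      have h0 : p + q0 + 1 = r := by omega
      rw [h0, hw.last] at ipq1
      omega
    rw [hget, g6 (p + q0) (by omega) hp1 hp2]
    have e1 : E (i (p + q0)) = e (l + q0) := by
      rw [ipq, hE]
      unfold ee
      rw [if_neg (by omega), if_neg (by omega)]
    have e2 : E (i (p + q0 + 1)) = e (l + q0 + 1) := by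
      rw [ipq1, hE]
      unfold ee
      rw [if_neg (by omega), if_neg (by omega)]
    show lw t (E (i (p + q0))) (E (i (p + q0 + 1))) = _
    rw [e1, e2]
  · rw [List.pairwise_map, List.pairwise_iff_getElem]
    intro q q' hq hq' hqq
    rw [List.length_take] at hq hq'
    rw [List.getElem_take, List.getElem_take]
    obtain ⟨k, k1, k2, k3, k4⟩ := hh q (by omega)
    obtain ⟨k', k1', k2', k3', k4'⟩ := hh q' (by omega)
    rw [k2, k2']
    have h1 := seq_anti (f := fun q => rg y (i q) (i (q + 1))) (a := 0) (b := p) (fun q _ hq => mL q hq) (Nat.zero_le q)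
      hqq.le (by omega)
    rw [hrg q (by omega), hrg q' (by omega)] at h1
    show k' ≤ k
    omega
  · rw [List.pairwise_map, List.pairwise_iff_getElem]
    intro q q' hq hq' hqq
    rw [List.length_drop] at hq hq'
    rw [List.getElem_drop, List.getElem_drop]
    obtain ⟨k, k1, k2, k3, k4⟩ := hh (p + d + q) (by omega)
    obtain ⟨k', k1', k2', k3', k4'⟩ := hh (p + d + q') (by omega)
    rw [k2, k2']
    have h1 := seq_anti (f := fun q => -rg y (i q) (i (q + 1))) (a := p + d) (b := r) (fun q h1 h2 => by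
      exact neg_le_neg (mR q (by omega) h2)) (q := p + d + q) (q' := p + d + q') (by omega) (by omega) (by omega)
    rw [hrg _ (by omega), hrg _ (by omega)] at h1
    show k ≤ k'
    omega

end PW

end HexObs
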