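import Pool.Agent.NTA.RunJ
import Pool.Agent.NTW.KernU
import Pool.Agent.NTQ.EventQ
import Pool.Agent.PW.RunGeo

/-!
PW: the event theorem for runs of consecutive leaves in the bridges of the box, exponential constant.
-/

set_option autoImplicit false

namespace HexObs

namespace PW

open Finset TS SDN SDN.CN NTm NTW NTA

open scoped ENNReal

/-- bridges of the box with a marked run in R -/
def ERB (kc J : ℕ) (R : Set (List (List Bool))) : Set (List Bool) :=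
  {t | t ∈ BL (kc + J) ∧ ∃ (m u : ℕ) (e : ℕ → ℕ), Lf false (kc + 5) t m u e ∧ ∃ l d : ℕ, 1 ≤ d ∧ l + d ≤ m ∧
    ∀ ms : List (List Bool), ms.length = d → (∀ (q : ℕ) (hq : q < ms.length), IsLf t m e (l + q) ms[q]) →
      (∀ (q : ℕ) (hq : q < ms.length), 1 ≤ l + q → l + q + 2 ≤ m → ms[q] = lw t (e (l + q)) (e (l + q + 1))) →
      ms.IsChain LFold → (∀ g ∈ ms, g ∈ BrR (2 ^ (kc + 4)) (2 ^ (kc + J))) → ms ∈ R}

lemma BrR_top {kc J : ℕ} {g : List Bool} (h : g ∈ BrR (2 ^ (kc + 4)) (2 ^ (kc + J))) :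
    g ∈ BrR (2 ^ (kc + 4)) (2 ^ (kc + J + 2)) := by
  obtain ⟨k, k1, k2, k3⟩ := h
  exact ⟨k, k1, k2.trans (Nat.pow_le_pow_right (by norm_num) (by omega)), k3⟩

section

variable {kc J n M : ℕ} {W : ℕ → Set (List Bool)} {idx : ℕ → ℕ} {R : Set (List (List Bool))}

/-- the chain of the pieces of a bridge with a run in R -/
lemma tot_ofB (hidx : ∀ h h' : ℕ, h ≤ h' → idx h ≤ idx h')
    (hmem : ∀ (g : List Bool) (h : ℕ), g ∈ Brd h → 2 ^ (kc + 4) ≤ h → h ≤ 2 ^ (kc + J + 2) → idx h < n ∧ g ∈ W (idx h))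
    {ls ms rs : List (List Bool)} (hB : ∀ x ∈ ls ++ (ms ++ rs), x ∈ BrR (2 ^ (kc + 4)) (2 ^ (kc + J)))
    (hms : ms ∈ R) (hne : ms ≠ []) (hM : (ls ++ (ms ++ rs)).length ≤ M)
    (hl : (ls.map hgt).Pairwise (· ≥ ·)) (hr : (rs.map hgt).Pairwise (· ≤ ·)) :
    TotR W n M R (fun _ _ => 1) (ls ++ (ms ++ rs)) 1 1 := by
  obtain ⟨g, ms', rfl⟩ := List.exists_cons_of_ne_nil hne
  have hlsB : ∀ x ∈ ls, x ∈ BrR (2 ^ (kc + 4)) (2 ^ (kc + J + 2)) := fun x hx => BrR_top (hB x (List.mem_append_left _ hx))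
  have hrsB : ∀ x ∈ rs, x ∈ BrR (2 ^ (kc + 4)) (2 ^ (kc + J + 2)) := fun x hx =>
    BrR_top (hB x (List.mem_append_right _ (List.mem_append_right _ hx)))
  have hlsC : ls.IsChain (fun a b => hgt b ≤ hgt a) := by
    rw [List.pairwise_map] at hl
    exact hl.isChain
  have hrsC : rs.IsChain (fun a b => hgt a ≤ hgt b) := by
    rw [List.pairwise_map] at hr
    exact hr.isChain
  rw [List.length_append, List.length_append] at hM
  have hinc : IncE W n (fun _ _ => 1) rs 0 ((g :: ms').getLastD []) 1 :=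
    QF.inc_ofX hidx hmem rs 0 _ hrsB hrsC (fun _ _ => Nat.zero_le _) (fun _ => le_rfl) (fun _ => le_rfl)
  have hmid : MidR W n M R (fun _ _ => 1) g (ms' ++ rs) 1 := ⟨ms', rs, rfl, hms, by omega, hinc⟩
  rw [List.cons_append]
  rcases ls with _ | ⟨x, xs⟩
  · rw [List.nil_append]
    exact Or.inl ⟨le_rfl, hmid⟩
  · rw [List.cons_append]
    obtain ⟨h, a1, a2, a3⟩ := hlsB x List.mem_cons_self
    obtain ⟨b1, b2⟩ := hmem x h a3 a1 a2
    rw [← hgt_eq a3] at b1 b2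
    refine Or.inr ⟨idx (hgt x), b1, b2, le_rfl, RF.dec_ofR hidx hmem hmid xs _
      (fun y hy => hlsB y (List.mem_cons_of_mem _ hy)) hlsC.tail ?_⟩
    intro y hy
    obtain ⟨ls', rfl⟩ : ∃ ls', xs = y :: ls' := by
      rcases xs with _ | ⟨z, ls'⟩
      · simp at hy
      · rw [List.head?_cons, Option.some.injEq] at hy
        exact ⟨ls', by rw [hy]⟩
    rw [List.isChain_cons_cons] at hlsC
    exact Nat.lt_succ_of_le (hidx _ _ hlsC.1)

end

open Classical in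
/-- **the bridges of the box with a marked run in a class of small norm** -/
theorem event_run : ∃ (C : ℝ) (k0 : ℕ), 1 ≤ C ∧ ∀ (kc J : ℕ) (R : Set (List (List Bool))) (δ : ℝ), k0 ≤ kc → 6 ≤ J →
    0 ≤ δ → SmR DmJ kc R δ → gf (ERB kc J R) ≤ ENNReal.ofReal (C ^ J * δ * Ub (kc + J)) := by
  obtain ⟨C0, δ0, hInp⟩ := inp_exists
  obtain ⟨V, k0, hV1, hwin⟩ := win_family
  obtain ⟨Q, hQ, hfun⟩ := fun_boundR dmP (ssA hInp) ss3P ssDP
  have hQ0 : 0 < Q := by linarith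
  refine ⟨16 * Q ^ (2 * V + 2), k0, ?_, ?_⟩
  · have := one_le_pow₀ (n := 2 * V + 2) hQ
    linarith
  intro kc J R δ hkc hJ hδ hS
  have hUL := Ub_pos (kc + J)
  obtain ⟨W, kp, idx, hW, hidx, hmem⟩ := hwin kc (J + 2) hkc (by omega)
  obtain ⟨n, hn⟩ : ∃ n, n = V * (J + 2) := ⟨_, rfl⟩
  rw [← hn] at hW hmem
  have hn1 : 1 ≤ n := by
    rw [hn]
    exact Nat.mul_pos hV1 (by omega)
  have e2 : ENNReal.ofReal 2 = 2 := by simp
  have hH : ∀ k : ℕ, HerD (2 ^ (k + 4)) (fun _ : List Bool => (1 : ℝ≥0∞)) := fun k =>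
    ⟨fun _ _ _ => le_rfl, fun _ _ _ _ => le_rfl⟩
  have hDm : ∀ k : ℕ, DmJ k (xT (2 ^ (k + 4)) k (fun _ => 1)) (fun _ => 1) := fun k => DmJ_dm k _ (hH k)
  have hx1 : ∀ k : ℕ, xT (2 ^ (k + 4)) k (fun _ : List Bool => (1 : ℝ≥0∞)) ≤ ENNReal.ofReal 2 := fun k => by
    rw [e2]
    exact xT_one _ _
  obtain ⟨R', hR'⟩ : ∃ R', R' = {gs : List (List Bool) | gs ∈ R ∧ ∀ g ∈ gs, g ∈ BrR (2 ^ (kc + 4)) (2 ^ (kc + J))} :=
    ⟨_, rfl⟩
  have hR'S : SmR DmJ kc R' δ := SmR_mono (by rw [hR']; exact fun gs h => h.1) hS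
  have hR'H : ∀ gs ∈ R', ∀ g ∈ gs, g ∈ HB (2 ^ (kc + 4)) := by
    intro gs hgs g hg
    rw [hR'] at hgs
    obtain ⟨k, k1, k2, k3⟩ := hgs.2 g hg
    exact ⟨k, k1, k3⟩
  obtain ⟨M, hM⟩ : ∃ M, M = 100 * 4 ^ (kc + J) := ⟨_, rfl⟩
  have hfun' := hfun kc (J + 2) n W kp R' δ 2 _ (fun _ _ => 1) hW hn1 hδ (by norm_num) hR'S
    (fun i _ => (dmP.dom _ _ _ (hDm (kp i))).mono (hx1 _)) (hx1 kc) (hDm kc) (fun _ _ _ _ _ => le_rfl) M
  have hsum := chain_massR (Φ := fun _ _ => 1) hW hR'H M (fun _ => 1) (fun _ => 1) (fun _ _ => rfl)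
  -- the cover
  have hsub : ERB kc J R ⊆ {t | ∃ us : List (List Bool), unf us = t ∧ (∀ x ∈ us, x ∈ BrR (2 ^ (kc + 4)) (2 ^ (kc + J))) ∧
      us ≠ [] ∧ (us.length ≤ M ∧ us.IsChain LFold ∧ TotR W n M R' (fun _ _ => 1) us 1 1)} := by
    rintro t ⟨ht, m, u, e, h, l, d, hd, hl, hR⟩
    obtain ⟨ls, ms, rs, g1, g2, g3, g4, g5, g5', g6, g7⟩ := geo_run ht h hd hl
    have hmsne : ms ≠ [] := by
      intro h0
      rw [h0, List.length_nil] at g4
      omega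
    have hne : ls ++ (ms ++ rs) ≠ [] := by
      intro h0
      rw [List.append_eq_nil_iff, List.append_eq_nil_iff] at h0
      exact hmsne h0.2.1
    have hmB : ∀ g ∈ ms, g ∈ BrR (2 ^ (kc + 4)) (2 ^ (kc + J)) := fun g hg =>
      g3 g (List.mem_append_right _ (List.mem_append_left _ hg))
    have hlen : (ls ++ (ms ++ rs)).length ≤ M := by
      have h1 : (ls ++ (ms ++ rs)).length ≤ (unf (ls ++ (ms ++ rs))).length := by
        apply len_unf
        · intro x hx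
          obtain ⟨k, a1, a2, a3⟩ := g3 x hx
          exact Brd_ne_nil a3 (by have := Nat.one_le_two_pow (n := kc + 4); omega)
        · exact hne
      rw [g1] at h1
      rw [hM]
      exact h1.trans (WL_length ht.2)
    have hchain : ms.IsChain LFold := (List.isChain_append.1 (List.isChain_append.1 g2).2.1).1
    have hmsR : ms ∈ R' := by
      rw [hR']
      exact ⟨hR ms g4 g5 g5' hchain hmB, hmB⟩
    exact ⟨_, g1, g3, hne, hlen, g2, tot_ofB hidx hmem g3 hmsR hmsne hlen g6 g7⟩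
  have hcov : gf (ERB kc J R) ≤ ∑' gs : List (List Bool), (if gs.length ≤ M ∧ gs.IsChain LFold ∧
      TotR W n M R' (fun _ _ => 1) gs 1 1 then SDN.wl gs * (1 * 1) else 0) := by
    refine (gf_mono hsub).trans ?_
    rw [← Rec8.sw_one]
    refine Rec8.sw_cover _ _ _ (fun gs : List (List Bool) => unf gs) ?_
    rintro t ⟨gs, a1, a2, a3, a4⟩
    refine ⟨gs, a1, ?_⟩
    rw [if_pos a4, mul_one, mul_one, mul_one, ← a1]
    refine NTm.wE_unf (fun g hg => ?_) a3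
    obtain ⟨k, b1, b2, b3⟩ := a2 g hg
    exact Brd_ne_nil b3 (by have := Nat.one_le_two_pow (n := kc + 4); omega)
  refine hcov.trans (hsum.trans (hfun'.trans (ENNReal.ofReal_le_ofReal ?_)))
  have hU2 : Ub (kc + (J + 2)) ≤ 4 * Ub (kc + J) := by
    have := UU_ratio_up (kc + J) 2
    calc Ub (kc + (J + 2)) = UU (2 ^ (kc + J + 2)) := rfl
      _ ≤ 2 ^ 2 * Ub (kc + J) := this
      _ = _ := by norm_num
  have hQp : Q ^ (n + (J + 2) + 1) ≤ (Q ^ (2 * V + 2)) ^ J := by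
    rw [← pow_mul]
    apply pow_le_pow_right₀ hQ
    have e5 : V * (J + 2) ≤ 2 * V * J := by
      have : V * 2 ≤ V * J := Nat.mul_le_mul_left _ (by omega)
      calc V * (J + 2) = V * J + V * 2 := by ring
        _ ≤ V * J + V * J := by omega
        _ = _ := by ring
    have e6 : (2 * V + 2) * J = 2 * V * J + 2 * J := by ring
    rw [hn]
    omega
  have h16 : (16 : ℝ) ≤ 16 ^ J := by
    calc (16 : ℝ) = 16 ^ 1 := (pow_one _).symm
      _ ≤ _ := pow_le_pow_right₀ (by norm_num) (by omega)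
  have hUJ2 := Ub_pos (kc + (J + 2))
  have hp0 : 0 ≤ (Q ^ (2 * V + 2)) ^ J := by positivity
  calc Q ^ (n + (J + 2) + 1) * δ * Ub (kc + (J + 2)) * 2 ^ 2
      ≤ (Q ^ (2 * V + 2)) ^ J * δ * (4 * Ub (kc + J)) * 2 ^ 2 := by gcongr
    _ = 16 * ((Q ^ (2 * V + 2)) ^ J * δ * Ub (kc + J)) := by ring
    _ ≤ 16 ^ J * ((Q ^ (2 * V + 2)) ^ J * δ * Ub (kc + J)) := by
        apply mul_le_mul_of_nonneg_right h16
        positivity
    _ = (16 * Q ^ (2 * V + 2)) ^ J * δ * Ub (kc + J) := by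
        rw [mul_pow]
        ring

end PW

end HexObs
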