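import Pool.Agent.IW.PS
import Pool.Agent.TIP.DefsS

/-!
# PW (helper66): the scale of the walk with `n` letters

`scK n` : the scale, `Sc (scK n) n` for large `n`; `log (2 ^ scK n) / log n → 3 / 4`.
-/

set_option autoImplicit false

noncomputable section

open Filter Topology

namespace PW

open HexObs.TIP HexObs.TIP.NQ

open Classical in
/-- the scale of the walk with `n` letters -/
def scK (n : ℕ) : ℕ := if h : ∃ k, Sc k n then h.choose else 0

theorem scK_sc : ∃ n0 : ℕ, ∀ n : ℕ, n0 ≤ n → Sc (scK n) n := by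
  obtain ⟨n0, hn0⟩ := ex_scale 0
  refine ⟨n0, fun n hn => ?_⟩
  obtain ⟨k, -, h1, h2⟩ := hn0 n hn
  have h : ∃ k, Sc k n := ⟨k, h1, h2⟩
  unfold scK
  rw [dif_pos h]
  exact h.choose_spec

theorem scK_ev : ∀ᶠ n : ℕ in atTop, Sc (scK n) n := by
  obtain ⟨n0, h⟩ := scK_sc
  exact (eventually_ge_atTop n0).mono h

theorem scK_log : Tendsto (fun n : ℕ => Real.log ((2 ^ scK n : ℕ) : ℝ) / Real.log n) atTop (𝓝 (3 / 4)) := by
  obtain ⟨a, A, ha, hA, hp⟩ := scale_pow
  have h0 : Tendsto (fun n : ℕ => Real.log n) atTop atTop :=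
    Real.tendsto_log_atTop.comp tendsto_natCast_atTop_atTop
  have h1 : Tendsto (fun n : ℕ => 3 / 4 - Real.log A / Real.log n) atTop (𝓝 (3 / 4 - 0)) :=
    tendsto_const_nhds.sub (Tendsto.const_div_atTop h0 _)
  have h2 : Tendsto (fun n : ℕ => 3 / 4 - Real.log a / Real.log n) atTop (𝓝 (3 / 4 - 0)) :=
    tendsto_const_nhds.sub (Tendsto.const_div_atTop h0 _)
  rw [sub_zero] at h1 h2
  refine tendsto_of_tendsto_of_tendsto_of_le_of_le' h1 h2 ?_ ?_
  · filter_upwards [scK_ev, eventually_ge_atTop 2] with n hn h3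
    have hn1 : (1 : ℝ) < n := by exact_mod_cast h3
    have hl : 0 < Real.log n := Real.log_pos hn1
    have h4 := (hp _ n hn.1 hn.2).2
    have h5 := Real.log_le_log (by positivity) h4
    rw [Real.log_mul hA.ne' (by positivity), Real.log_rpow (by linarith)] at h5
    rw [le_div_iff₀ hl, sub_mul, div_mul_cancel₀ _ hl.ne']
    push_cast
    linarith
  · filter_upwards [scK_ev, eventually_ge_atTop 2] with n hn h3
    have hn1 : (1 : ℝ) < n := by exact_mod_cast h3
    have hl : 0 < Real.log n := Real.log_pos hn1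
    have h4 := (hp _ n hn.1 hn.2).1
    have h5 := Real.log_le_log (by positivity) h4
    rw [Real.log_mul ha.ne' (by positivity), Real.log_rpow (by linarith)] at h5
    rw [div_le_iff₀ hl, sub_mul, div_mul_cancel₀ _ hl.ne']
    push_cast
    linarith

end PW

end
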