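import Pool.Agent.PW.PSr
import Pool.Agent.PW.LowA

/-!
PW, SHORT (C): from windows to every index (helper15).

`u` a renewal sequence of index `α > 1/2` (lengths of the bridges), `h` a sequence with `f * h ≤ h` (half plane words:
an irreducible bridge may be put in front), `h (n + 1) ≤ K h n`, polynomially bounded. If every window of
`n ^ (1 - d)` letters carries the expected mass of `h`, then every single `h n` is as large as expected.

* `WinH h g` : the window form;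
* **`low_of_win`** : `WinH h g → Lo h (-g)`.
-/

set_option autoImplicit false

namespace HexObs

namespace PW

open Finset NUX

/-- the window form: every window of `n ^ (1 - d)` indices in `[n / 4, n]` carries its share -/
def WinH (h : ℕ → ℝ) (g : ℝ) : Prop :=
  ∀ e : ℝ, 0 < e → ∃ d : ℝ, 0 < d ∧ d ≤ e ∧ ∃ (c : ℝ) (n0 : ℕ), 0 < c ∧ ∀ n : ℕ, n0 ≤ n → ∀ k : ℕ,
    n / 4 ≤ k → k ≤ n → c * (n : ℝ) ^ (1 - d - e - g) ≤ ∑ j ∈ Icc (k - ⌊(n : ℝ) ^ (1 - d)⌋₊) k, h j

/-- both parities carry the mass of a window -/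
lemma win_even {h : ℕ → ℝ} {K : ℝ} (hh : ∀ n, 0 ≤ h n) (hK : ∀ n, h (n + 1) ≤ K * h n) (hK0 : 0 ≤ K) {k s : ℕ}
    (hs : 1 ≤ s) (hk : 2 * s ≤ k) :
    ∑ i ∈ Icc (k - s) k, h i ≤ (1 + K) * ∑ j ∈ range (s + 1), h (k - 2 * j) := by
  have h0 : ∀ b ∈ range (s + 1), 0 ≤ h (k - 2 * b) := fun b _ => hh _
  have h1 : ∑ i ∈ (Icc (k - s) k).filter (fun i => (k - i) % 2 = 0), h i ≤
      ∑ j ∈ range (s + 1), h (k - 2 * j) := by
    refine sum_le_inj (fun i => (k - i) / 2) ?_ ?_ ?_ h0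
    · intro i hi
      rw [mem_filter, mem_Icc] at hi
      rw [mem_range]
      omega
    · intro i hi j hj he
      rw [mem_coe, mem_filter, mem_Icc] at hi hj
      simp only at he
      omega
    · intro i hi
      rw [mem_filter, mem_Icc] at hi
      rw [show k - 2 * ((k - i) / 2) = i by omega]
  have h2 : ∑ i ∈ (Icc (k - s) k).filter (fun i => ¬ (k - i) % 2 = 0), h i ≤
      ∑ j ∈ range (s + 1), K * h (k - 2 * j) := by
    refine sum_le_inj (fun i => (k - i + 1) / 2) ?_ ?_ ?_ fun b _ => mul_nonneg hK0 (hh _)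
    · intro i hi
      rw [mem_filter, mem_Icc] at hi
      rw [mem_range]
      omega
    · intro i hi j hj he
      rw [mem_coe, mem_filter, mem_Icc] at hi hj
      simp only at he
      omega
    · intro i hi
      rw [mem_filter, mem_Icc] at hi
      have h3 := hK (k - 2 * ((k - i + 1) / 2))
      rwa [show k - 2 * ((k - i + 1) / 2) + 1 = i by omega] at h3
  rw [← sum_filter_add_sum_filter_not (Icc (k - s) k) (fun i => (k - i) % 2 = 0)]
  rw [← mul_sum] at h2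
  linarith

/-- an exponential beats a power -/
lemma ev_exp {c e : ℝ} (hc : 0 < c) (he : 0 < e) (p A : ℝ) {b : ℝ} (hb : 0 < b) :
    ∃ N : ℕ, 1 ≤ N ∧ ∀ n : ℕ, N ≤ n → A * (n : ℝ) ^ p * Real.exp (-(c * (n : ℝ) ^ e)) ≤ b := by
  have h1 := tendsto_rpow_mul_exp_neg_mul_atTop_nhds_zero (p / e) c hc
  have h2 := (h1.comp (tendsto_rpow_atTop he)).comp tendsto_natCast_atTop_atTop
  have h3 := h2.const_mul A
  rw [mul_zero] at h3
  obtain ⟨N, hN⟩ := Filter.eventually_atTop.1 (h3.eventually_le_const hb)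
  refine ⟨max N 1, le_max_right _ _, fun n hn => ?_⟩
  have hn0 : (0 : ℝ) < n := by exact_mod_cast (le_max_right N 1).trans hn
  have h4 := hN n ((le_max_left _ _).trans hn)
  simp only [Function.comp_apply] at h4
  rw [← Real.rpow_mul hn0.le, mul_div_cancel₀ _ he.ne'] at h4
  refine le_trans (le_of_eq ?_) h4
  rw [show -(c * (n : ℝ) ^ e) = -c * (n : ℝ) ^ e by ring]
  ring

/-- a large value of the renewal sequence, with its neighbours -/
lemma big_u {f u : ℕ → ℝ} {α : ℝ} (hr : Ren f u) (hα : 1 / 2 < α) (hα1 : α < 1) (hU : Hi (UU u) α)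
    (hL : Lo (UU u) α) {d e : ℝ} (hd : 0 < d) (hd1 : d ≤ 1) (he : 0 < e) :
    ∃ (c : ℝ) (N : ℕ), 0 < c ∧ 1 ≤ N ∧ ∀ n : ℕ, N ≤ n → ∃ l : ℕ, l ≤ n / 8 ∧
      ∀ j : ℕ, (j : ℝ) ≤ (n : ℝ) ^ (1 - d) → c * (n : ℝ) ^ (α - 1 - e) ≤ u (l + j) := by
  obtain ⟨γ, hγ⟩ : ∃ γ : ℝ, γ = d / 2 * (2 * α - 1) / 8 := ⟨_, rfl⟩
  have hγ0 : 0 < γ := by
    rw [hγ]
    have : 0 < 2 * α - 1 := by linarith
    positivity
  have hγd : γ ≤ d / 16 := by
    rw [hγ]
    nlinarith
  obtain ⟨κ, hκ⟩ : ∃ κ : ℝ, κ = γ / 2 := ⟨_, rfl⟩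
  have hκ0 : 0 < κ := by rw [hκ]; positivity
  obtain ⟨e1, he1⟩ : ∃ e1 : ℝ, e1 = min e (κ / 8) := ⟨_, rfl⟩
  have he10 : 0 < e1 := by rw [he1]; exact lt_min he (by positivity)
  have he1e : e1 ≤ e := by rw [he1]; exact min_le_left _ _
  have he1κ : e1 ≤ κ / 8 := by rw [he1]; exact min_le_right _ _
  obtain ⟨Cs, hCs, hsm⟩ := NUX.u_smooth hr hα hα1 hU hL (d := d / 2) (by positivity) (by linarith)
  obtain ⟨CU, hCU, hUU⟩ := hU e1 he10
  obtain ⟨cL, hcL, hLL⟩ := hL e1 he10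
  -- constants
  have hxe : 0 ≤ α - e1 := by linarith
  obtain ⟨c1, hc1⟩ : ∃ c1 : ℝ, c1 = cL * (1 / 16) ^ (α - e1) := ⟨_, rfl⟩
  have hc10 : 0 < c1 := by rw [hc1]; positivity
  obtain ⟨N1, hN1, h1⟩ := BAR.Typ.ev_pow (a := (1 - κ) * (α + e1)) (b := α - e1) (by nlinarith) CU
    (c := c1 / 2) (by positivity)
  obtain ⟨N2, hN2, h2⟩ := BAR.Typ.ev_pow (a := α - 1 - γ / 2) (b := α - 1 - e1) (by linarith) Cs
    (c := c1 / 4) (by positivity)
  refine ⟨c1 / 4, max (max N1 N2) 16, by positivity, (by norm_num : 1 ≤ 16).trans (le_max_right _ _),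
    fun n hn => ?_⟩
  have hnN1 : N1 ≤ n := (le_max_left N1 N2).trans ((le_max_left _ _).trans hn)
  have hnN2 : N2 ≤ n := (le_max_right N1 N2).trans ((le_max_left _ _).trans hn)
  have hn16 : 16 ≤ n := (le_max_right _ _).trans hn
  have hnR : (1 : ℝ) ≤ n := by exact_mod_cast (by omega : 1 ≤ n)
  have hn0 : (0 : ℝ) < n := by linarith
  obtain ⟨L, hLd⟩ : ∃ L, L = n / 8 := ⟨_, rfl⟩
  obtain ⟨L0, hL0⟩ : ∃ L0, L0 = ⌊(n : ℝ) ^ (1 - κ)⌋₊ := ⟨_, rfl⟩
  have hL1 : 1 ≤ L := by omega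
  have hκ1 : 0 ≤ 1 - κ := by linarith
  have hL01 : 1 ≤ L0 := by
    rw [hL0]
    apply Nat.le_floor
    rw [Nat.cast_one]
    exact Real.one_le_rpow hnR hκ1
  have hL0le : (L0 : ℝ) ≤ (n : ℝ) ^ (1 - κ) := by
    rw [hL0]
    exact Nat.floor_le (by positivity)
  -- the sum up to L is large, up to L0 small
  have hA : c1 * (n : ℝ) ^ (α - e1) ≤ UU u L := by
    refine le_trans ?_ (hLL L hL1)
    rw [hc1, mul_assoc]
    refine mul_le_mul_of_nonneg_left ?_ hcL.le
    rw [← Real.mul_rpow (by norm_num) hn0.le]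
    refine Real.rpow_le_rpow (by positivity) ?_ hxe
    have : (n : ℝ) ≤ 16 * L := by exact_mod_cast (by omega : n ≤ 16 * L)
    linarith
  have hB : UU u L0 ≤ c1 / 2 * (n : ℝ) ^ (α - e1) := by
    refine (hUU L0 hL01).trans (le_trans ?_ (h1 n hnN1))
    refine mul_le_mul_of_nonneg_left ?_ hCU.le
    rw [Real.rpow_mul hn0.le]
    exact Real.rpow_le_rpow (by positivity) hL0le (by linarith)
  have hlt : L0 < L := by
    by_contra hc
    push Not at hc
    have h3 := UU_mono hr hc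
    have h4 : 0 < c1 * (n : ℝ) ^ (α - e1) := by positivity
    linarith
  -- a large value in (L0, L]
  obtain ⟨l, hl0, hlL, hul⟩ : ∃ l, L0 < l ∧ l ≤ L ∧ c1 / 2 * (n : ℝ) ^ (α - 1 - e1) ≤ u l := by
    by_contra hc
    push Not at hc
    have h3 : UU u L = UU u L0 + ∑ k ∈ Ioc L0 L, u k := by
      unfold UU
      rw [← sum_range_add_sum_Ico _ (by omega : L0 + 1 ≤ L + 1)]
      congr 1
      refine sum_congr ?_ fun _ _ => rfl
      ext k
      rw [mem_Ico, mem_Ioc]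
      omega
    have h4 : ∑ k ∈ Ioc L0 L, u k ≤ ∑ _k ∈ Ioc L0 L, c1 / 2 * (n : ℝ) ^ (α - 1 - e1) := by
      refine sum_le_sum fun k hk => ?_
      rw [mem_Ioc] at hk
      exact (hc k hk.1 hk.2).le
    rw [sum_const, nsmul_eq_mul, Nat.card_Ioc] at h4
    have h5 : ((L - L0 : ℕ) : ℝ) ≤ n / 2 := by
      have : ((L - L0 : ℕ) : ℝ) ≤ L := by exact_mod_cast Nat.sub_le L L0
      have h6 : (L : ℝ) * 8 ≤ n := by exact_mod_cast (by omega : L * 8 ≤ n)
      linarith
    have h6 : (n : ℝ) * (n : ℝ) ^ (α - 1 - e1) = (n : ℝ) ^ (α - e1) := by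
      nth_rewrite 1 [← Real.rpow_one (n : ℝ)]
      rw [← Real.rpow_add hn0]
      congr 1
      ring
    have h7 : ((L - L0 : ℕ) : ℝ) * (c1 / 2 * (n : ℝ) ^ (α - 1 - e1)) ≤ c1 / 4 * (n : ℝ) ^ (α - e1) := by
      calc ((L - L0 : ℕ) : ℝ) * (c1 / 2 * (n : ℝ) ^ (α - 1 - e1)) ≤
            n / 2 * (c1 / 2 * (n : ℝ) ^ (α - 1 - e1)) := mul_le_mul_of_nonneg_right h5 (by positivity)
        _ = c1 / 4 * (n : ℝ) ^ (α - e1) := by
            rw [← h6]
            ring
    have h8 : 0 < c1 * (n : ℝ) ^ (α - e1) := by positivity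
    nlinarith
  refine ⟨l, by omega, fun j hj => ?_⟩
  have hl1 : 1 ≤ l := by omega
  have hln : (n : ℝ) ^ (1 - κ) ≤ l := by
    have h3 := Nat.lt_floor_add_one ((n : ℝ) ^ (1 - κ))
    rw [← hL0] at h3
    have h4 : (L0 : ℝ) + 1 ≤ l := by exact_mod_cast hl0
    linarith
  have hjl : (j : ℝ) ≤ (l : ℝ) ^ (1 - d / 2) := by
    refine hj.trans (le_trans ?_ (Real.rpow_le_rpow (by positivity) hln (by linarith)))
    rw [← Real.rpow_mul hn0.le]
    refine Real.rpow_le_rpow_of_exponent_le hnR ?_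
    nlinarith
  have h3 := (abs_le.1 (hsm l hl1 j hjl)).2
  rw [← hγ] at h3
  have h4 : Cs * (l : ℝ) ^ (α - 1 - γ) ≤ c1 / 4 * (n : ℝ) ^ (α - 1 - e1) := by
    refine le_trans (mul_le_mul_of_nonneg_left ?_ hCs.le) (h2 n hnN2)
    have h5 : (l : ℝ) ^ (α - 1 - γ) ≤ ((n : ℝ) ^ (1 - κ)) ^ (α - 1 - γ) :=
      Real.rpow_le_rpow_of_nonpos (by positivity) hln (by linarith)
    refine h5.trans ?_
    rw [← Real.rpow_mul hn0.le]
    refine Real.rpow_le_rpow_of_exponent_le hnR ?_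
    nlinarith
  have h5 : (n : ℝ) ^ (α - 1 - e) ≤ (n : ℝ) ^ (α - 1 - e1) :=
    Real.rpow_le_rpow_of_exponent_le hnR (by linarith)
  have h6 : c1 / 4 * (n : ℝ) ^ (α - 1 - e) ≤ c1 / 4 * (n : ℝ) ^ (α - 1 - e1) :=
    mul_le_mul_of_nonneg_left h5 (by positivity)
  linarith

/-- **from windows to every index** -/
theorem low_of_win {f u h : ℕ → ℝ} {α g K Cp p : ℝ} (hr : Ren f u) (hα : 1 / 2 < α) (hα1 : α < 1)
    (hU : Hi (UU u) α) (hL : Lo (UU u) α) (hh : ∀ n, 0 ≤ h n) (hK0 : 0 ≤ K) (hK : ∀ n, h (n + 1) ≤ K * h n)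
    (hF : ∀ n, ∑ l ∈ range (n / 2 + 1), f l * h (n - 2 * l) ≤ h n)
    (hp : ∀ n : ℕ, 1 ≤ n → ∑ k ∈ range (n + 1), h k ≤ Cp * (n : ℝ) ^ p) (hE : WinH h g) : Lo h (-g) := by
  intro ε hε
  obtain ⟨e, he⟩ : ∃ e : ℝ, e = min (ε / 4) (1 / 2) := ⟨_, rfl⟩
  have he0 : 0 < e := by rw [he]; exact lt_min (by positivity) (by norm_num)
  have he1 : e ≤ ε / 4 := by rw [he]; exact min_le_left _ _
  have he2 : e ≤ 1 / 2 := by rw [he]; exact min_le_right _ _
  obtain ⟨d, hd, hde, c, n0, hc, hwin⟩ := hE e he0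
  obtain ⟨x, hx⟩ : ∃ x : ℝ, x = ε / 12 := ⟨_, rfl⟩
  have hx0 : 0 < x := by rw [hx]; positivity
  obtain ⟨c1, N1, hc1, hN1, hbig⟩ := big_u hr hα hα1 hU hL hd (by linarith) hx0
  have hm := mm_hi hr hL
  have hml := mm_lo hr hU
  obtain ⟨cF, hcF, hFb⟩ := Fb_lo hr (by linarith) hα1 hm hml x hx0
  -- the exponent of the sum
  obtain ⟨y, hy⟩ : ∃ y : ℝ, y = (α - 1 - x) + (1 - d - e - g) := ⟨_, rfl⟩
  obtain ⟨c2, hc2⟩ : ∃ c2 : ℝ, c2 = c1 * (c / (1 + K)) := ⟨_, rfl⟩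
  have hc20 : 0 < c2 := by rw [hc2]; positivity
  obtain ⟨N2, hN2, hexp⟩ := ev_exp hcF hx0 (1 + p - y) (2 * Cp) (b := c2 / 2) (by positivity)
  -- windows are short
  obtain ⟨N3, hN3, hshort⟩ := BAR.Typ.ev_pow (a := 1 - d) (b := 1) (by linarith) 1 (c := 1 / 8) (by norm_num)
  obtain ⟨N, hN⟩ : ∃ N, N = max (max n0 N1) (max N2 N3) + 8 := ⟨_, rfl⟩
  have hmain : ∀ n : ℕ, N ≤ n → c2 / 4 * (n : ℝ) ^ (-g - ε) ≤ h n := by
    intro n hn
    have hn0' : n0 ≤ n := by
      have := (le_max_left n0 N1).trans (le_max_left _ (max N2 N3))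
      omega
    have hnN1 : N1 ≤ n := by
      have := (le_max_right n0 N1).trans (le_max_left _ (max N2 N3))
      omega
    have hnN2 : N2 ≤ n := by
      have := (le_max_left N2 N3).trans (le_max_right (max n0 N1) _)
      omega
    have hnN3 : N3 ≤ n := by
      have := (le_max_right N2 N3).trans (le_max_right (max n0 N1) _)
      omega
    have hn1 : 1 ≤ n := by omega
    have hnR : (1 : ℝ) ≤ n := by exact_mod_cast hn1
    have hn0 : (0 : ℝ) < n := by linarith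
    obtain ⟨s, hs⟩ : ∃ s, s = ⌊(n : ℝ) ^ (1 - d)⌋₊ := ⟨_, rfl⟩
    have hs1 : 1 ≤ s := by
      rw [hs]
      apply Nat.le_floor
      rw [Nat.cast_one]
      exact Real.one_le_rpow hnR (by linarith)
    have hsle : (s : ℝ) ≤ (n : ℝ) ^ (1 - d) := by
      rw [hs]
      exact Nat.floor_le (by positivity)
    have hs8 : 8 * s ≤ n := by
      have h1 := hshort n hnN3
      rw [one_mul, Real.rpow_one] at h1
      have h2 : (s : ℝ) * 8 ≤ n := by linarith
      have h3 : s * 8 ≤ n := by exact_mod_cast h2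
      omega
    obtain ⟨l, hl8, hul⟩ := hbig n hnN1
    have hw := hwin n hn0' (n - 2 * l) (by omega) (by omega)
    rw [← hs] at hw
    have hev := win_even hh hK hK0 hs1 (show 2 * s ≤ n - 2 * l by omega)
    -- the sum from below
    have h1 : c2 * (n : ℝ) ^ y ≤ ∑ j ∈ range (n / 2 + 1), u j * h (n - 2 * j) := by
      have h2 : ∑ j ∈ range (s + 1), c1 * (n : ℝ) ^ (α - 1 - x) * h (n - 2 * l - 2 * j) ≤
          ∑ j ∈ range (n / 2 + 1), u j * h (n - 2 * j) := by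
        refine sum_le_inj (fun j => l + j) ?_ ?_ ?_ ?_
        · intro j hj
          rw [mem_range] at hj ⊢
          omega
        · intro i _ j _ he
          simp only at he
          omega
        · intro j hj
          rw [mem_range] at hj
          have h3 : (j : ℝ) ≤ (n : ℝ) ^ (1 - d) := by
            refine le_trans ?_ hsle
            exact_mod_cast (by omega : j ≤ s)
          rw [show n - 2 * (l + j) = n - 2 * l - 2 * j by omega]
          exact mul_le_mul_of_nonneg_right (hul j h3) (hh _)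
        · intro j _
          exact mul_nonneg (u_nonneg hr j) (hh _)
      refine le_trans ?_ h2
      rw [← mul_sum]
      have h4 : c / (1 + K) * (n : ℝ) ^ (1 - d - e - g) ≤ ∑ j ∈ range (s + 1), h (n - 2 * l - 2 * j) := by
        have h5 := hw.trans hev
        rw [div_mul_eq_mul_div, div_le_iff₀ (by linarith)]
        linarith
      calc c2 * (n : ℝ) ^ y = c1 * (n : ℝ) ^ (α - 1 - x) * (c / (1 + K) * (n : ℝ) ^ (1 - d - e - g)) := by
            rw [hy, Real.rpow_add hn0, hc2]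
            ring
        _ ≤ _ := mul_le_mul_of_nonneg_left h4 (by positivity)
    -- the marks
    obtain ⟨M, hM⟩ : ∃ M, M = ⌈(n : ℝ) ^ (α + 2 * x)⌉₊ := ⟨_, rfl⟩
    have hMge : (n : ℝ) ^ (α + 2 * x) ≤ M := by
      rw [hM]
      exact Nat.le_ceil _
    have hMle : (M : ℝ) ≤ 2 * (n : ℝ) ^ (α + 2 * x) := by
      have h2 := Nat.ceil_lt_add_one (show 0 ≤ (n : ℝ) ^ (α + 2 * x) by positivity)
      rw [← hM] at h2
      have h3 : (1 : ℝ) ≤ (n : ℝ) ^ (α + 2 * x) := Real.one_le_rpow hnR (by linarith)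
      linarith
    have h2 := marks_coeff hr hh hF M n
    have hF0 := Fb_nonneg hr n
    have hF1 := Fb_le_one hr n
    have h3 : (1 - Fb f n) ^ M ≤ Real.exp (-(cF * (n : ℝ) ^ x)) := by
      have h4 : 1 - Fb f n ≤ Real.exp (-Fb f n) := by
        have := Real.add_one_le_exp (-Fb f n)
        linarith
      refine (pow_le_pow_left₀ (by linarith) h4 M).trans ?_
      rw [← Real.exp_nat_mul]
      apply Real.exp_le_exp.2
      have h5 := hFb n hn1
      have h6 : cF * (n : ℝ) ^ x ≤ M * Fb f n := by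
        calc cF * (n : ℝ) ^ x = (n : ℝ) ^ (α + 2 * x) * (cF * (n : ℝ) ^ (-α - x)) := by
              rw [show x = (α + 2 * x) + (-α - x) by ring, Real.rpow_add hn0]
              ring_nf
          _ ≤ M * Fb f n := mul_le_mul hMge h5 (by positivity) (Nat.cast_nonneg M)
      linarith
    have h4 : (1 - Fb f n) ^ M * ((n + 1) * ∑ k ∈ range (n + 1), h k) ≤ c2 / 2 * (n : ℝ) ^ y := by
      have h5 := hp n hn1
      have hCp : 0 ≤ Cp * (n : ℝ) ^ p := (sum_nonneg fun k _ => hh k).trans h5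
      have h6 : ((n : ℝ) + 1) * ∑ k ∈ range (n + 1), h k ≤ 2 * n * (Cp * (n : ℝ) ^ p) :=
        mul_le_mul (by linarith) h5 (sum_nonneg fun k _ => hh k) (by positivity)
      have h7 := hexp n hnN2
      calc (1 - Fb f n) ^ M * ((n + 1) * ∑ k ∈ range (n + 1), h k) ≤
            Real.exp (-(cF * (n : ℝ) ^ x)) * (2 * n * (Cp * (n : ℝ) ^ p)) :=
              mul_le_mul h3 h6 (mul_nonneg (by positivity) (sum_nonneg fun k _ => hh k)) (Real.exp_pos _).le
        _ = (2 * Cp * (n : ℝ) ^ (1 + p - y) * Real.exp (-(cF * (n : ℝ) ^ x))) * (n : ℝ) ^ y := by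
            have h8 : (n : ℝ) ^ (1 + p - y) * (n : ℝ) ^ y = n * (n : ℝ) ^ p := by
              rw [← Real.rpow_add hn0, show 1 + p - y + y = 1 + p by ring, Real.rpow_add hn0, Real.rpow_one]
            linear_combination -(2 * Cp * Real.exp (-(cF * (n : ℝ) ^ x))) * h8
        _ ≤ c2 / 2 * (n : ℝ) ^ y := mul_le_mul_of_nonneg_right h7 (by positivity)
    have h5 : c2 / 2 * (n : ℝ) ^ y ≤ 2 * (n : ℝ) ^ (α + 2 * x) * h n := by
      have h6 : (M : ℝ) * h n ≤ 2 * (n : ℝ) ^ (α + 2 * x) * h n := mul_le_mul_of_nonneg_right hMle (hh n)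
      linarith
    have h6 : (n : ℝ) ^ (α + 2 * x) * (c2 / 4 * (n : ℝ) ^ (-g - ε)) ≤ (n : ℝ) ^ (α + 2 * x) * h n := by
      have h7 : (n : ℝ) ^ (α + 2 * x) * (n : ℝ) ^ (-g - ε) ≤ (n : ℝ) ^ y := by
        rw [← Real.rpow_add hn0]
        refine Real.rpow_le_rpow_of_exponent_le hnR ?_
        rw [hy, hx]
        linarith
      have h8 : c2 / 4 * ((n : ℝ) ^ (α + 2 * x) * (n : ℝ) ^ (-g - ε)) ≤ c2 / 4 * (n : ℝ) ^ y :=
        mul_le_mul_of_nonneg_left h7 (by positivity)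
      linarith
    exact le_of_mul_le_mul_left h6 (by positivity)
  -- positivity everywhere
  have hpos : ∀ n, 0 < h n := by
    intro n
    rcases (hh n).lt_or_eq with h1 | h1
    · exact h1
    · exfalso
      have h2 : ∀ k, h (n + k) ≤ 0 := by
        intro k
        induction k with
        | zero => exact h1.symm.le
        | succ k ih =>
          refine (hK (n + k)).trans ?_
          exact mul_nonpos_of_nonneg_of_nonpos hK0 ih
      have h3 := hmain (n + N) (by omega)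
      have h4 := h2 N
      have h5 : (0 : ℝ) < ((n + N : ℕ) : ℝ) := by
        exact_mod_cast (by omega : 0 < n + N)
      have h6 : 0 < c2 / 4 * ((n + N : ℕ) : ℝ) ^ (-g - ε) := by positivity
      linarith
  exact lo_ev (fun n _ => hpos n) N (c2 / 4) (by positivity) fun n hn _ => hmain n hn

end PW

end HexObs
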