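import Pool.Agent.PW.ShW
import Pool.Agent.PW.LowH
import Pool.Agent.PS.EVh
import Pool.Agent.NUX.Br3

/-!
PW, SHORT (C): the number of the self-avoiding walks of every length from below, from the window form of the half
plane words (helper15).

* `hx_low` : `EVh → ∀ ε > 0, ∃ c > 0, ∀ n ≥ 1, c n ^ (- 3 / 64 - ε) ≤ cH n xc ^ n`;
* **`aB_low_of_EVh`** : `HLow (61 / 48) → EVh → ∀ ε > 0, ∃ c > 0, ∀ n ≥ 1, c n ^ (11 / 32 - ε) mu ^ n ≤ a n`;
* **`aB_low_of_MuW`** : the same from the mass of the prefixes with a free tip.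
-/

set_option autoImplicit false

namespace HexObs

namespace PW

open Finset NUX BrL T2

theorem letters : Hi (NUX.UU ub) (9 / 16) ∧ Lo (NUX.UU ub) (9 / 16) := by
  have hU := NUI.numUp_of_target NUCR.target
  have hlw := Pool.Agent.NUF.longWalks_third NUCR.nfLow
  have h := bridges_letters (fun a ha => Pool.Agent.NUF.meanLen_of_ZZ (Pool.Agent.NUF.zzUp_of hU) ha) hlw
  exact ⟨h.1, h.2.1⟩

/-- **the half plane words of every length** -/
theorem hx_low (h : PS.EVh) : Lo hx (-(3 / 64)) := by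
  obtain ⟨C, p, hp⟩ := hx_poly
  have hE : WinH hx (3 / 64) := h
  exact low_of_win ren (by norm_num) (by norm_num) letters.1 letters.2 hx_nonneg
    (by have := xc_pos; positivity) hx_succ hx_first hp hE

/-- **the self-avoiding walks of every length, from below** -/
theorem aB_low_of_EVh (hL : BAR.HLow (61 / 48)) (h : PS.EVh) {ε : ℝ} (hε : 0 < ε) :
    ∃ c : ℝ, 0 < c ∧ ∀ n : ℕ, 1 ≤ n → c * (n : ℝ) ^ (11 / 32 - ε) * muB ^ n ≤ aB n :=
  BAR.pw_low_sharp (NUI.numUp_of_target NUCR.target) hL (fun e he => hx_low h e he) hε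

theorem aB_low_of_MuW (hL : BAR.HLow (61 / 48)) (h : PS.MuW) {ε : ℝ} (hε : 0 < ε) :
    ∃ c : ℝ, 0 < c ∧ ∀ n : ℕ, 1 ≤ n → c * (n : ℝ) ^ (11 / 32 - ε) * muB ^ n ≤ aB n :=
  aB_low_of_EVh hL (PS.EVh_of hL h) hε

end PW

end HexObs
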