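import Pool.Agent.PW.ShC
import Pool.Agent.NUX.Br1
import Pool.Agent.BAR.PwCount
import Pool.Agent.BAR.Cum
import Pool.Agent.SDN.SplitP
import Pool.Agent.T2.AllN

/-!
PW, SHORT (C): the half plane words as a sequence (helper15).

* `hx n` : the weight of the half plane words with n letters;
* `hx_succ` : `hx (n + 1) ≤ 2 xc hx n`;
* `hx_first` : an irreducible bridge in front: `fb * hx ≤ hx`;
* `hx_poly` : polynomial bound of the partial sums.
-/

set_option autoImplicit false

namespace HexObs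

namespace PW

open Finset TS SDN BAR BrL

open scoped ENNReal

/-- weight of the half plane words with n letters -/
noncomputable def hx (n : ℕ) : ℝ := (cH n : ℝ) * xc ^ n

lemma hx_nonneg (n : ℕ) : 0 ≤ hx n := mul_nonneg (Nat.cast_nonneg _) (pow_nonneg xc_pos.le n)

lemma hx_eq (n : ℕ) : hx n = (gf (HpN n)).toReal := by
  rw [T2.AllN.gf_len (n := n) fun t ht => ht.1, ENNReal.toReal_mul, ENNReal.toReal_natCast,
    ENNReal.toReal_ofReal (pow_nonneg xc_pos.le n)]
  rfl

lemma gf_HpN_top (n : ℕ) : gf (HpN n) ≠ ∞ := gf_finite (HpN_fin n)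

lemma cH_succ (n : ℕ) : cH (n + 1) ≤ 2 * cH n := by
  have h1 : HpN (n + 1) ⊆ ((fun t => t ++ [true]) '' HpN n) ∪ ((fun t => t ++ [false]) '' HpN n) := by
    intro t ht
    rw [HpN_iff] at ht
    obtain ⟨hl, hp, hi⟩ := ht
    rcases List.eq_nil_or_concat t with h | ⟨s, b, h⟩
    · rw [h] at hl
      simp at hl
    · rw [List.concat_eq_append] at h
      have hsl : s.length = n := by
        rw [h, List.length_append] at hl
        simpa using hl
      have hs : s ∈ HpN n := by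
        rw [HpN_iff]
        refine ⟨hsl, fun i h1 h2 => ?_, fun i l h1 h2 => ?_⟩
        · have h3 := hp i h1 (by omega)
          rwa [h, lev_append (by omega)] at h3
        · have h3 := hi i l h1 (by omega)
          rwa [h, vx_append (by omega), vx_append (by omega)] at h3
      rcases b with _ | _
      · exact Or.inr ⟨s, hs, h.symm⟩
      · exact Or.inl ⟨s, hs, h.symm⟩
  have hf := HpN_fin n
  unfold cH
  calc (HpN (n + 1)).ncard ≤ (((fun t => t ++ [true]) '' HpN n) ∪ ((fun t => t ++ [false]) '' HpN n)).ncard :=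
        Set.ncard_le_ncard h1 ((hf.image _).union (hf.image _))
    _ ≤ ((fun t => t ++ [true]) '' HpN n).ncard + ((fun t => t ++ [false]) '' HpN n).ncard :=
        Set.ncard_union_le _ _
    _ ≤ (HpN n).ncard + (HpN n).ncard := add_le_add (Set.ncard_image_le hf) (Set.ncard_image_le hf)
    _ = 2 * (HpN n).ncard := by ring

lemma hx_succ (n : ℕ) : hx (n + 1) ≤ 2 * xc * hx n := by
  unfold hx
  have h1 : (cH (n + 1) : ℝ) ≤ 2 * cH n := by exact_mod_cast cH_succ n
  have hx := xc_pos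
  calc (cH (n + 1) : ℝ) * xc ^ (n + 1) ≤ 2 * cH n * xc ^ (n + 1) := mul_le_mul_of_nonneg_right h1 (by positivity)
    _ = 2 * xc * (cH n * xc ^ n) := by ring

/-- a bridge in front of a half plane word -/
lemma brd_hp {r k : ℕ} {c s : List Bool} (hc : c ∈ Brd r) (hs : s ∈ HpN k) : c ++ s ∈ HpN (c.length + k) := by
  have hc' := hc
  rw [mem_Brd] at hc'
  obtain ⟨c1, c2, c3, c4⟩ := hc'
  rw [HpN_iff] at hs
  obtain ⟨s1, s2, s3⟩ := hs
  have key : ∀ i, i ≤ (c ++ s).length → ¬ i ≤ c.length → ∃ j, 1 ≤ j ∧ j ≤ s.length ∧ i = c.length + j := by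
    intro i h1 h2
    rw [List.length_append] at h1
    exact ⟨i - c.length, by omega, by omega, by omega⟩
  rw [HpN_iff]
  refine ⟨by rw [List.length_append, s1], fun i h1 h2 => ?_, fun i k hik hk heq => ?_⟩
  · by_cases h : i ≤ c.length
    · rw [lev_append (by omega)]
      exact (c1 i h1 h).1
    · obtain ⟨j, j1, j2, rfl⟩ := key i h2 h
      rw [lev_cat c3, c4]
      have := s2 j j1 j2
      omega
  · by_cases h : k ≤ c.length
    · rw [vx_append (by omega), vx_append (by omega)] at heq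
      exact c2 i k hik h heq
    · obtain ⟨j, j1, j2, rfl⟩ := key k hk h
      by_cases h' : i ≤ c.length
      · have h5 := congrArg (fun p => ip p up) heq
        have h6 : lev (c ++ s) i = lev (c ++ s) (c.length + j) := h5
        rw [lev_cat c3, c4, lev_append (by omega)] at h6
        have h7 := s2 j j1 j2
        rcases Nat.eq_zero_or_pos i with hi | hi
        · rw [hi, lev_zero] at h6
          omega
        · have := (c1 i hi h').2
          omega
      · obtain ⟨j', j1', j2', rfl⟩ := key i (by omega) h'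
        rw [vx_cat c3, vx_cat c3] at heq
        exact s3 j' j (by omega) j2 (add_left_cancel heq)

/-- the first irreducible piece is unique -/
lemma irr_first {r r' : ℕ} {s s' v v' : List Bool} (hs : s ∈ Irr r) (hs' : s' ∈ Irr r') (hv : Pos v)
    (hv' : Pos v') (h : s ++ v = s' ++ v') : s = s' ∧ v = v' := by
  have key : ∀ {r r' : ℕ} {s s' v v' : List Bool}, s ∈ Irr r → s' ∈ Irr r' → Pos v → Pos v' → r ≤ r' →
      s ++ v = s' ++ v' → s = s' ∧ v = v' := by
    intro r r' s s' v v' hs hs' hv hv' hrr h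
    obtain ⟨x, hx, h1, h2⟩ := nested hs.1 hs'.1 hv hv' hrr h
    rcases hs'.2.2 r (r' - r) s x hs.1 hx h1 with h3 | h3
    · exact absurd h3 hs.2.1
    · subst h3
      rw [List.append_nil] at h1
      exact ⟨h1.symm, by simpa using h2⟩
  rcases Nat.le_total r r' with hrr | hrr
  · exact key hs hs' hv hv' hrr h
  · have := key hs' hs hv' hv hrr h.symm
    exact ⟨this.1.symm, this.2.symm⟩

lemma gf_first (n : ℕ) :
    ∑ l ∈ range (n / 2 + 1), gf (ILs (2 * l)) * gf (HpN (n - 2 * l)) ≤ gf (HpN n) := by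
  have pos : ∀ {k : ℕ} {v : List Bool}, v ∈ HpN k → Pos v := fun hv => (HpN_iff.1 hv).2.1
  have h1 : ∀ l, gf (ILs (2 * l)) * gf (HpN (n - 2 * l)) ≤
      gf {w | ∃ s ∈ ILs (2 * l), ∃ v ∈ HpN (n - 2 * l), w = s ++ v} := by
    intro l
    refine mul_le_gf (fun a ha b hb => ⟨a, ha, b, hb, rfl⟩) ?_
    rintro a ⟨⟨r, ha⟩, _⟩ b hb a' ⟨⟨r', ha'⟩, _⟩ b' hb' h
    exact (irr_first ha ha' (pos hb) (pos hb') h).1
  refine (Finset.sum_le_sum fun l _ => h1 l).trans ((gf_bi_eq _ _ ?_).trans (gf_mono ?_))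
  · rintro i j w ⟨s, ⟨⟨r, hs⟩, hsl⟩, v, hv, rfl⟩ ⟨s', ⟨⟨r', hs'⟩, hsl'⟩, v', hv', h⟩
    have := (irr_first hs hs' (pos hv) (pos hv') h).1
    subst this
    omega
  · intro w hw
    rw [Set.mem_iUnion₂] at hw
    obtain ⟨l, hl, s, ⟨⟨r, hs⟩, hsl⟩, v, hv, rfl⟩ := hw
    rw [Finset.mem_range] at hl
    have := brd_hp hs.1 hv
    rwa [hsl, show 2 * l + (n - 2 * l) = n by omega] at this

/-- an irreducible bridge in front -/
theorem hx_first (n : ℕ) : ∑ l ∈ range (n / 2 + 1), fb l * hx (n - 2 * l) ≤ hx n := by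
  have h1 := ENNReal.toReal_mono (gf_HpN_top n) (gf_first n)
  rw [ENNReal.toReal_sum fun l _ => ENNReal.mul_ne_top (ILs_ne_top _) (gf_HpN_top _)] at h1
  rw [hx_eq]
  refine le_trans (le_of_eq ?_) h1
  refine Finset.sum_congr rfl fun l _ => ?_
  rw [ENNReal.toReal_mul, hx_eq]
  rfl

lemma cH_le_cS (n : ℕ) : cH n ≤ cS n := by
  unfold cH cS
  refine Set.ncard_le_ncard ?_ ?_
  · rintro t ⟨h1, h2⟩
    exact ⟨h1, fun i _ _ => Set.mem_univ _, h2.inj⟩
  · exact (List.finite_length_eq Bool n).subset fun t ht => ht.1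

/-- polynomial bound -/
theorem hx_poly : ∃ C p : ℝ, ∀ n : ℕ, 1 ≤ n → ∑ k ∈ range (n + 1), hx k ≤ C * (n : ℝ) ^ p := by
  obtain ⟨C, hC, h⟩ := SAL_poly
  refine ⟨C, C, fun n hn => ?_⟩
  have h1 := h n hn
  rw [gf_SAL] at h1
  have h2 : (0 : ℝ) ≤ (n : ℝ) ^ C * C := by positivity
  have h3 := (ENNReal.ofReal_le_ofReal_iff h2).1 h1
  refine le_trans (Finset.sum_le_sum fun k _ => ?_) (h3.trans (le_of_eq (mul_comm _ _)))
  exact mul_le_mul_of_nonneg_right (by exact_mod_cast cH_le_cS k) (pow_nonneg xc_pos.le k)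

end PW

end HexObs
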