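import Pool.Agent.PW.SmallB0
import Pool.Agent.PW.TipN
import Pool.Agent.PW.LocN
import Pool.Agent.SLW.NicePF
import Pool.Agent.TIW.Lim

/-!
PW, row P6: the sum of the weights of the levels is rarely small, exactly n letters (helper83), from the right parts
(`SmallB0`, helper58) by the transfer `Pn_of_botS` (helper62) and the locality of the weights (helper5).
-/

set_option autoImplicit false

namespace HexObs

namespace PWN

open Finset TS SDN TIW SLW

/-- **P6: the total weight is rarely small, exactly n letters** -/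
theorem smallN_of (h : SmallB0) : SmallN := by
  classical
  intro ε hε
  obtain ⟨c1, C1, d, k1, e, he, htr⟩ := SLW.Pn_of_botS TIP.strU ε hε
  obtain ⟨c, hc, h⟩ := h e (c1 + C1) he
  refine ⟨c, hc, fun w s hw => ?_⟩
  obtain ⟨M0, h⟩ := h w s hw
  refine ⟨max M0 1, fun M hM => ?_⟩
  obtain ⟨s0, h⟩ := h M ((le_max_left _ _).trans hM)
  refine ⟨s0, fun s' hs' => ?_⟩
  obtain ⟨c0, l0, h⟩ := h s' hs'
  have hM1 : 1 ≤ M := (le_max_right _ _).trans hM
  refine ⟨c0 + c1 + d + 10, l0 + k1 + c1, fun k n lv Ch hN hL hl0 htop => ?_⟩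
  have hlv : ∀ i, i < M → lv 0 ≤ lv i := by
    intro i hi
    rcases Nat.eq_zero_or_pos i with rfl | h0
    · exact le_rfl
    · have := hL.gap 0 i h0 hi
      omega
  have hk := htop 0 (by omega)
  obtain ⟨P, hP⟩ : ∃ P : Set (List Bool), P = {t | TW.Ta (fun i => N0 (lv i) (lv i + s) (Ch i) t /
    PWN.UT (lv i) (lv i + s) (Ch i) / M) M 0 < 2 * c} := ⟨_, rfl⟩
  have key : TOG.Pn n P ≤ ε := by
    refine htr k n (2 ^ (k - d)) (by omega) hN (by rw [← pow_add, Nat.sub_add_cancel (by omega)]) P ?_ ?_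
    · intro L R hLR hT
      rw [hP] at hT ⊢
      rw [Set.mem_ofPred_eq] at hT ⊢
      refine lt_of_le_of_lt (le_of_eq ?_) hT
      unfold TW.Ta
      refine sum_congr rfl fun i hi => ?_
      rw [mem_Ico] at hi
      have hi2 := htop i hi.2
      have e1 : N0 (lv i) (lv i + s) (Ch i) (L ++ R) = N0 (lv i) (lv i + s) (Ch i) R := by
        refine N0_far (Nat.le_add_right _ _) (hL.chn i hi.2) fun q hq => ?_
        have h1 := hLR q hq
        have h2 : vx oo up (L ++ R) q - en (L ++ R) ∉ SIM.Bl oo (4 * 2 ^ (k - d)) := by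
          intro h3
          apply h1
          have e0 : (oo : Pt) = (0, 0) := rfl
          rw [e0] at h3
          obtain ⟨h4, h5⟩ := h3
          simp only [sub_zero] at h4 h5
          exact ⟨h4, h5⟩
        have h3 := Sm.hn_far h2
        have h4 : (8 : ℤ) * 2 ^ (lv i + s) ≤ 2 ^ (k - d) := by
          calc (8 : ℤ) * 2 ^ (lv i + s) = 2 ^ (lv i + s + 3) := by ring
            _ ≤ 2 ^ (k - d) := pow_le_pow_right₀ (by norm_num) (by omega)
        have h5 : (0 : ℤ) < 2 ^ (k - d) := by positivity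
        push_cast at h3 ⊢
        linarith
      show N0 (lv i) (lv i + s) (Ch i) R / PWN.UT (lv i) (lv i + s) (Ch i) / M =
        N0 (lv i) (lv i + s) (Ch i) (L ++ R) / PWN.UT (lv i) (lv i + s) (Ch i) / M
      rw [e1]
    · have h1 := h (k - c1) (k + C1) lv Ch hL (fun i hi => by have := hlv i hi; omega)
        (fun i hi => by have := htop i hi; omega) (by omega) (by omega)
      refine (gf_mono ?_).trans h1
      rintro t ⟨t1, t2⟩
      rw [hP] at t2
      exact ⟨t1, t2⟩
  have hcS : (0 : ℝ) < cS n := by exact_mod_cast TOG.cS_pos n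
  have e1 : ∑ t ∈ sawF n, smI c (fun i => N0 (lv i) (lv i + s) (Ch i) t / PWN.UT (lv i) (lv i + s) (Ch i) / M) M =
      cS n * TOG.Pn n P := by
    rw [TIW.Pn_eq, mul_sum]
    refine sum_congr rfl fun t _ => ?_
    have e2 : smI c (fun i => N0 (lv i) (lv i + s) (Ch i) t / PWN.UT (lv i) (lv i + s) (Ch i) / M) M = TIP.ind (t ∈ P) := by
      unfold smI
      by_cases ht : t ∈ P
      · rw [TIP.ind_pos ht, if_pos]
        rw [hP] at ht
        exact ht
      · rw [TIP.ind_neg ht, if_neg]
        rw [hP] at ht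
        exact ht
    rw [e2]
    field_simp
  rw [e1, mul_comm]
  exact mul_le_mul_of_nonneg_right key hcS.le

end PWN

end HexObs
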