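import Pool.Agent.PW.NCfar
import Pool.Agent.TIW.Hpm

/-!
# PW, row SmallT (helper47), geometry, second part

* `TrB v r` : words which are disjoint from their translate by `v` and come near the translate of their tip;
* `Vs k M` : the translations in all frames;
* `FarX k L X R` : `X`, its translates and the translates of `X ++ R` are far from the tip; `NC_farX` : then the weight of a
  level of `X ++ R` (cylinder) is at least the plain weight of `R`;
* **`far_start`** : `FarX` for `t = X ++ R` in the box, the end over `(k, k)`, `X` near the start, `R` in no `TrB v r`.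
-/

set_option autoImplicit false

namespace HexObs

namespace PWN

open Finset TS SDN TIW SLW

/-- the piece `X`, its translates and the translates of `X ++ R` are far from the tip of `X ++ R` -/
def FarX (k L : ℕ) (X R : List Bool) : Prop :=
  (∀ i, i ≤ X.length → ∀ m : ℤ, (8 * 2 ^ L : ℤ) ≤
    hn (vx oo up (X ++ R) i + (2 * (k : ℤ) * m, 2 * (k : ℤ) * m) - en (X ++ R))) ∧
  ∀ i, i ≤ (X ++ R).length → ∀ m : ℤ, m ≠ 0 → (8 * 2 ^ L : ℤ) ≤
    hn (vx oo up (X ++ R) i + (2 * (k : ℤ) * m, 2 * (k : ℤ) * m) - en (X ++ R))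

lemma FarX_mono {k L L' : ℕ} (h : L' ≤ L) {X R : List Bool} (hF : FarX k L X R) : FarX k L' X R := by
  have h1 : (8 * 2 ^ L' : ℤ) ≤ 8 * 2 ^ L := by
    have : (2 : ℤ) ^ L' ≤ 2 ^ L := pow_le_pow_right₀ (by norm_num) h
    linarith
  exact ⟨fun i hi m => h1.trans (hF.1 i hi m), fun i hi m hm => h1.trans (hF.2 i hi m hm)⟩

/-- the weight of a level under `FarX` -/
lemma NC_farX {k l L L' : ℕ} {Ch : Set (List Bool)} (hC : Chn L' Ch) (hl : l ≤ L') (h : L' ≤ L) {X R : List Bool}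
    (hF : FarX k L X R) : N0 l L' Ch R ≤ NC k l L' Ch (X ++ R) :=
  NC_far hC hl (FarX_mono h hF).1 (FarX_mono h hF).2

/-- words disjoint from their translate by v, near the translate of their tip -/
def TrB (v : Pt) (r : ℕ) : Set (List Bool) :=
  {R | (∀ i j, i ≤ R.length → j ≤ R.length → vx oo up R i ≠ vx oo up R j + v) ∧
    ∃ i, i ≤ R.length ∧ vx oo up R i ∈ SIM.Bl (vx oo up R R.length + v) r}

/-- the translations in all frames -/
noncomputable def Vs (k M : ℕ) : Finset Pt :=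
  ((dirs ×ˢ Icc (-(M : ℤ)) M).filter fun p => p.2 ≠ 0).image fun p => mulE p.1 (2 * (k : ℤ) * p.2, 2 * (k : ℤ) * p.2)

lemma Vs_card (k M : ℕ) : (Vs k M).card ≤ 6 * (2 * M + 1) := by
  unfold Vs
  refine card_image_le.trans ((card_filter_le _ _).trans ?_)
  rw [card_product, Int.card_Icc]
  have h1 : dirs.card = 6 := by decide
  have h2 : ((M : ℤ) + 1 - -(M : ℤ)).toNat = 2 * M + 1 := by omega
  rw [h1, h2]

lemma Vs_hn {k M : ℕ} {v : Pt} (hv : v ∈ Vs k M) : (6 * k : ℤ) ≤ hn v := by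
  unfold Vs at hv
  rw [mem_image] at hv
  obtain ⟨⟨d, m⟩, h1, rfl⟩ := hv
  rw [mem_filter, mem_product] at h1
  rw [hn_mulE (mem_dirs.1 h1.1.1)]
  exact hn_T k h1.2

lemma Vs_cl {k M : ℕ} {v : Pt} (hv : v ∈ Vs k M) : cl v = 0 := by
  unfold Vs at hv
  rw [mem_image] at hv
  obtain ⟨⟨d, m⟩, h1, rfl⟩ := hv
  rw [mem_filter, mem_product] at h1
  have h2 : ∀ d : Pt, ∀ a : ℤ, cl (mulE d (a, a)) = 0 := by
    intro d a
    unfold cl
    refine (ZMod.intCast_zmod_eq_zero_iff_dvd _ 3).2 ⟨-(d.2 * a), ?_⟩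
    unfold mulE
    push_cast
    ring
  exact h2 d _

/-- coordinates against the hexagonal norm -/
lemma Bl_of_hn {p q : Pt} {r : ℕ} (h : hn (p - q) < r) : p ∈ SIM.Bl q (2 * r) := by
  have h0 := hn_nonneg (p - q)
  have h1 := nrm_le_hn (p - q)
  have h2 : nrm (p - q) ≤ (r : ℤ) ^ 2 := by nlinarith
  unfold nrm at h2
  have e1 : (p - q).1 = p.1 - q.1 := rfl
  have e2 : (p - q).2 = p.2 - q.2 := rfl
  rw [e1, e2] at h2
  constructor
  · refine abs_le_of_sq_le_sq ?_ (by positivity)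
    push_cast
    nlinarith [sq_nonneg (p.1 - q.1 + 2 * (p.2 - q.2))]
  · refine abs_le_of_sq_le_sq ?_ (by positivity)
    push_cast
    nlinarith [sq_nonneg (p.2 - q.2 + 2 * (p.1 - q.1))]

/-- the piece near the start and its translates are far from the tip -/
theorem far_first {k L K D : ℕ} {z : ℤ} (hK : 2 ^ K ≤ k) (hD : D ≤ 2 ^ K / 4) (hL : L + 4 ≤ K) {X R : List Bool}
    (hen : en (X ++ R) = ((2 * z + 1) * (k : ℤ), (2 * z + 1) * (k : ℤ))) (hX : TIP.In D X) :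
    ∀ i, i ≤ X.length → ∀ m : ℤ, (8 * 2 ^ L : ℤ) ≤
      hn (vx oo up (X ++ R) i + (2 * (k : ℤ) * m, 2 * (k : ℤ) * m) - en (X ++ R)) := by
  have hkk : (2 : ℤ) ^ K ≤ k := by exact_mod_cast hK
  have hLL : (16 : ℤ) * 2 ^ L ≤ 2 ^ K := by
    have : (2 : ℤ) ^ (L + 4) ≤ 2 ^ K := pow_le_pow_right₀ (by norm_num) hL
    rw [pow_add] at this
    linarith
  have hDD : (4 : ℤ) * D ≤ 2 ^ K := by
    have h1 : 4 * D ≤ 2 ^ K := by omega
    exact_mod_cast h1
  have hpL : (0 : ℤ) < 2 ^ L := by positivity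
  intro i hi m
  have h1 : vx oo up (X ++ R) i = vx oo up X i := vx_append (by omega)
  have h2 : hn (vx oo up X i) ≤ 3 * D := hn_le_Bl (hX i hi)
  have h3 : (3 * k : ℤ) ≤ hn (((2 * z + 1) * (k : ℤ), (2 * z + 1) * (k : ℤ)) -
      (2 * (k : ℤ) * m, 2 * (k : ℤ) * m)) := by
    have e : (((2 * z + 1) * (k : ℤ), (2 * z + 1) * (k : ℤ)) : Pt) - (2 * (k : ℤ) * m, 2 * (k : ℤ) * m) =
        ((2 * (z - m) + 1) * (k : ℤ), (2 * (z - m) + 1) * (k : ℤ)) := by
      ext1
      · show (2 * z + 1) * (k : ℤ) - 2 * (k : ℤ) * m = _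
        ring
      · show (2 * z + 1) * (k : ℤ) - 2 * (k : ℤ) * m = _
        ring
    rw [e]
    have h4 : ip ((2 * (z - m) + 1) * (k : ℤ), (2 * (z - m) + 1) * (k : ℤ)) up = 3 * ((2 * (z - m) + 1) * k) := by
      simp only [ip, up]
      ring
    have hk0 : (0 : ℤ) ≤ k := Int.natCast_nonneg k
    rcases lt_or_ge (z - m) 0 with h5 | h5
    · have h6 := neg_hn_le_ip ((2 * (z - m) + 1) * (k : ℤ), (2 * (z - m) + 1) * (k : ℤ)) upd'
      rw [h4] at h6
      nlinarith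
    · have h6 := ip_le_hn ((2 * (z - m) + 1) * (k : ℤ), (2 * (z - m) + 1) * (k : ℤ)) upd'
      rw [h4] at h6
      nlinarith
  rw [h1, hen]
  have h5 : vx oo up X i + (2 * (k : ℤ) * m, 2 * (k : ℤ) * m) - ((2 * z + 1) * (k : ℤ), (2 * z + 1) * (k : ℤ)) =
      vx oo up X i - (((2 * z + 1) * (k : ℤ), (2 * z + 1) * (k : ℤ)) - (2 * (k : ℤ) * m, 2 * (k : ℤ) * m)) := by
    abel
  rw [h5]
  have h6 := hn_tri (((2 * z + 1) * (k : ℤ), (2 * z + 1) * (k : ℤ)) - (2 * (k : ℤ) * m, 2 * (k : ℤ) * m)) (vx oo up X i) 0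
  rw [sub_zero, sub_zero, hn_sub_comm _ (vx oo up X i)] at h6
  linarith

/-- **the start version** -/
theorem far_start {k L K J M D : ℕ} {z : ℤ} (hK : 2 ^ K ≤ k)
    (hD : D ≤ 2 ^ K / 4) (hL : L + 4 ≤ K) (hM : 2 ^ (J + 2) ≤ M) {X R : List Bool}
    (hen : en (X ++ R) = ((2 * z + 1) * (k : ℤ), (2 * z + 1) * (k : ℤ))) (hW : X ++ R ∈ WL (K + J))
    (hDs : TPC.Dsj k (X ++ R)) (hX : TIP.In D X) (hR : ∀ v ∈ Vs k M, R ∉ TrB v (16 * 2 ^ L)) :
    FarX k L X R := by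
  have hkk : (2 : ℤ) ^ K ≤ k := by exact_mod_cast hK
  have hLL : (16 : ℤ) * 2 ^ L ≤ 2 ^ K := by
    have : (2 : ℤ) ^ (L + 4) ≤ 2 ^ K := pow_le_pow_right₀ (by norm_num) hL
    rw [pow_add] at this
    linarith
  have hDD : (4 : ℤ) * D ≤ 2 ^ K := by
    have h1 : 4 * D ≤ 2 ^ K := by omega
    exact_mod_cast h1
  have hpL : (0 : ℤ) < 2 ^ L := by positivity
  -- the far piece
  have hfar := far_first hK hD hL hen hX
  refine ⟨hfar, fun i hi m hm => ?_⟩
  rcases le_or_gt i X.length with h1 | h1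
  · exact hfar i h1 m
  obtain ⟨i', rfl⟩ := Nat.exists_eq_add_of_le h1.le
  rw [List.length_append] at hi
  by_contra hcon
  rw [not_le] at hcon
  -- the number of the translate
  have hm2 : m ∈ Icc (-(M : ℤ)) M := by
    have h2 := hn_WL hW (i := X.length + i') (by rw [List.length_append]; omega)
    have h3 := hn_WL hW (i := (X ++ R).length) le_rfl
    have h3' : hn (en (X ++ R)) ≤ 6 * 2 ^ (K + J) + 4 := h3
    have h4 : hn (2 * (k : ℤ) * m, 2 * (k : ℤ) * m) ≤ 12 * 2 ^ (K + J) + 8 + 8 * 2 ^ L := by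
      have e : ((2 * (k : ℤ) * m, 2 * (k : ℤ) * m) : Pt) = (vx oo up (X ++ R) (X.length + i') +
          (2 * (k : ℤ) * m, 2 * (k : ℤ) * m) - en (X ++ R)) - (vx oo up (X ++ R) (X.length + i') - en (X ++ R)) := by
        abel
      have h5 := hn_sub (vx oo up (X ++ R) (X.length + i') + (2 * (k : ℤ) * m, 2 * (k : ℤ) * m) - en (X ++ R))
        (vx oo up (X ++ R) (X.length + i') - en (X ++ R))
      have h6 := hn_sub (vx oo up (X ++ R) (X.length + i')) (en (X ++ R))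
      rw [← e] at h5
      linarith
    have h5 : ip (2 * (k : ℤ) * m, 2 * (k : ℤ) * m) up = 6 * k * m := by
      simp only [ip, up]
      ring
    have h6 := ip_le_hn (2 * (k : ℤ) * m, 2 * (k : ℤ) * m) upd'
    have h7 := neg_hn_le_ip (2 * (k : ℤ) * m, 2 * (k : ℤ) * m) upd'
    rw [h5] at h6 h7
    have h8 : (2 : ℤ) ^ (K + J) ≤ k * 2 ^ J := by
      rw [pow_add]
      exact mul_le_mul_of_nonneg_right hkk (by positivity)
    have hMM : (4 : ℤ) * 2 ^ J ≤ M := by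
      have h9 : 2 ^ (J + 2) = 4 * 2 ^ J := by ring
      rw [h9] at hM
      exact_mod_cast hM
    have hJ1 : (1 : ℤ) ≤ 2 ^ J := one_le_pow₀ (by norm_num)
    have hk16 : (16 : ℤ) ≤ k := by
      have : (1 : ℤ) ≤ 2 ^ L := one_le_pow₀ (by norm_num)
      linarith
    have h9 : 12 * 2 ^ (K + J) + 8 + 8 * (2 : ℤ) ^ L ≤ 6 * k * M := by nlinarith
    rw [mem_Icc]
    constructor
    · by_contra hc
      rw [not_le] at hc
      nlinarith
    · by_contra hc
      rw [not_le] at hc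
      nlinarith
  -- the frame
  obtain ⟨u, hu⟩ : ∃ u, u = rt X := ⟨_, rfl⟩
  have hu1 : nrm u = 1 := by rw [hu]; exact nrm_rt X
  have hc1 : nrm (conjE u) = 1 := by
    rw [← hu1]
    unfold nrm conjE
    ring
  have huc : ∀ p : Pt, mulE u (mulE (conjE u) p) = p := by
    intro p
    rw [mulE_assoc, mulE_conjE, hu1, mulE_one]
  have hv : mulE (conjE u) (2 * (k : ℤ) * -m, 2 * (k : ℤ) * -m) ∈ Vs k M := by
    unfold Vs
    rw [mem_image]
    refine ⟨(conjE u, -m), ?_, rfl⟩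
    rw [mem_filter, mem_product]
    rw [mem_Icc] at hm2
    exact ⟨⟨mem_dirs.2 hc1, mem_Icc.2 ⟨by linarith [hm2.2], by linarith [hm2.1]⟩⟩, neg_ne_zero.2 hm⟩
  have hneg : ((2 * (k : ℤ) * -m, 2 * (k : ℤ) * -m) : Pt) = -(2 * (k : ℤ) * m, 2 * (k : ℤ) * m) := by
    ext1
    · show 2 * (k : ℤ) * -m = -(2 * (k : ℤ) * m)
      ring
    · show 2 * (k : ℤ) * -m = -(2 * (k : ℤ) * m)
      ring
  refine hR _ hv ⟨fun i j hi hj he => ?_, i', by omega, ?_⟩
  · refine hDs (X.length + i) (X.length + j) (by rw [List.length_append]; omega) (by rw [List.length_append]; omega) (-m)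
      (neg_ne_zero.2 hm) ?_
    rw [vx_app, vx_app, ← hu, he, mulE_add, huc, add_assoc]
  · have e2 : (16 * 2 ^ L : ℕ) = 2 * (8 * 2 ^ L) := by ring
    rw [e2]
    refine Bl_of_hn ?_
    have e : vx oo up (X ++ R) (X.length + i') + (2 * (k : ℤ) * m, 2 * (k : ℤ) * m) - en (X ++ R) =
        mulE u (vx oo up R i' - (vx oo up R R.length + mulE (conjE u) (2 * (k : ℤ) * -m, 2 * (k : ℤ) * -m))) := by
      rw [vx_app, en_app, ← hu, mulE_sub, mulE_add, huc, hneg]
      unfold en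
      abel
    rw [e, hn_mulE hu1] at hcon
    push_cast
    exact hcon

end PWN

end HexObs
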