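import Pool.Agent.PW.CylG
import Pool.Agent.PW.FreeP

/-!
PW, row DomT, the likely half: near the start of a lift of a word of the cylinder there is a factor of the class ZZ.
-/

set_option autoImplicit false

namespace HexObs

namespace PW

open Finset TS SDN NTW NTA SIM JNT TIP TPC

open scoped ENNReal

/-- words with a factor of ZZ b inside the ball of radius D of the start -/
def StZ (ZZ : ℕ → Set (List Bool)) (b D : ℕ) : Set (List Bool) :=
  {t | ∃ X Z Y, t = X ++ (Z ++ Y) ∧ Y ≠ [] ∧ Z ∈ ZZ b ∧ In D (X ++ Z)}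

/-- the first exit of the ball -/
lemma start_or {ZZ : ℕ → Set (List Bool)} {b D n : ℕ} (hD : n * 2 ^ b = D) {t : List Bool}
    (h : ∃ i, i ≤ t.length ∧ vx oo up t i ∉ Bl oo D) : t ∈ StZ ZZ b D ∨ t ∈ LzG ZZ b n := by
  classical
  obtain ⟨hi, hv⟩ := Nat.find_spec h
  have hmin : ∀ j, j < Nat.find h → vx oo up t j ∈ Bl oo D := by
    intro j hj
    by_contra hc
    exact Nat.find_min h hj ⟨by omega, hc⟩
  generalize Nat.find h = i at *
  have hl : (t.take i).length = i := by rw [List.length_take]; omega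
  by_cases hQ : t.take i ∈ NzG ZZ b
  · right
    refine ⟨[], t.take i, t.drop i, by rw [List.nil_append, List.take_append_drop], hQ, fun hI => hv ?_⟩
    rw [hD] at hI
    have h1 := hI i (by omega)
    have h5 : vx oo up t i = vx oo up (t.take i) i := by
      conv_lhs => rw [← List.take_append_drop i t]
      exact vx_append (by omega)
    rw [h5]
    exact h1
  · left
    unfold NzG at hQ
    simp only [Set.mem_ofPred_eq, not_forall, not_not] at hQ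
    obtain ⟨X, Z, Y, he, hY, hZ⟩ := hQ
    have he' : t = X ++ (Z ++ (Y ++ t.drop i)) := by
      conv_lhs => rw [← List.take_append_drop i t, he]
      simp only [List.append_assoc]
    refine ⟨X, Z, Y ++ t.drop i, he', ?_, hZ, fun j hj => ?_⟩
    · intro h0
      exact hY (List.append_eq_nil_iff.1 h0).1
    · have h1 := congrArg List.length he
      have h2 : 0 < Y.length := List.length_pos_iff.2 hY
      rw [hl, List.length_append, List.length_append] at h1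
      rw [List.length_append] at hj
      have h3 := hmin j (by omega)
      have h4 : vx oo up t j = vx oo up (X ++ Z) j := by
        rw [he', ← List.append_assoc X Z]
        exact vx_append (by rw [List.length_append]; omega)
      rwa [h4] at h3

/-- **near the start there is a factor of the class** -/
theorem startZ {ZZ : ℕ → Set (List Bool)} (hF : FreeG ZZ) : ∀ (ε : ℝ) (c1 : ℕ), 0 < ε → ∃ c k0 : ℕ, c1 ≤ c ∧
    c ≤ Nat.log 2 k0 ∧ ∀ (k : ℕ) (y : Pt), k0 ≤ k →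
    ∑' m : ℤ, gf {t | t ∈ Tym k y m ∧ (∃ i, i ≤ t.length ∧ vx oo up t i ∉ Bl oo (2 ^ (Nat.log 2 k - c1))) ∧
      t ∉ StZ ZZ (Nat.log 2 k - c) (2 ^ (Nat.log 2 k - c1))} ≤ ENNReal.ofReal ε * gg (Nat.log 2 k) := by
  intro ε c1 hε
  obtain ⟨c, k0, hc, hc2, h⟩ := cylG hF ε c1 hε
  refine ⟨c, k0, hc, hc2, fun k y hk => ?_⟩
  refine le_trans (ENNReal.tsum_le_tsum fun m => gf_mono ?_) (h k y hk)
  rintro t ⟨h1, h2, h3⟩
  refine ⟨h1, (start_or ?_ h2).resolve_left h3⟩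
  rw [← pow_add]
  congr 1
  have h4 : Nat.log 2 k0 ≤ Nat.log 2 k := Nat.log_mono_right hk
  omega

/-- one exact end -/
theorem startZ_one {ZZ : ℕ → Set (List Bool)} (hF : FreeG ZZ) : ∀ (ε : ℝ) (c1 : ℕ), 0 < ε → ∃ c k0 : ℕ, c1 ≤ c ∧
    c ≤ Nat.log 2 k0 ∧ ∀ (k : ℕ) (y : Pt), k0 ≤ k →
    gf {t | t ∈ SA ∧ Dsj k t ∧ labE t = y ∧ (∃ i, i ≤ t.length ∧ vx oo up t i ∉ Bl oo (2 ^ (Nat.log 2 k - c1))) ∧
      t ∉ StZ ZZ (Nat.log 2 k - c) (2 ^ (Nat.log 2 k - c1))} ≤ ENNReal.ofReal ε * gg (Nat.log 2 k) := by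
  intro ε c1 hε
  obtain ⟨c, k0, hc, hc2, h⟩ := startZ hF ε c1 hε
  refine ⟨c, k0, hc, hc2, fun k y hk => ?_⟩
  refine le_trans (gf_mono ?_) ((ENNReal.le_tsum (0 : ℤ)).trans (h k y hk))
  rintro t ⟨h1, h2, h3, h4, h5⟩
  refine ⟨⟨h1, h2, ?_⟩, h4, h5⟩
  rw [h3]
  obtain ⟨y1, y2⟩ := y
  simp

/-- for the local bridges with two groups of many cuts -/
theorem startZP : ∃ κ : ℝ, 0 < κ ∧ ∃ C : ℕ, ∀ (ε : ℝ) (c1 : ℕ), 0 < ε → ∃ c k0 : ℕ, c1 ≤ c ∧
    c ≤ Nat.log 2 k0 ∧ ∀ (k : ℕ) (y : Pt), k0 ≤ k →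
    gf {t | t ∈ SA ∧ Dsj k t ∧ labE t = y ∧ (∃ i, i ≤ t.length ∧ vx oo up t i ∉ Bl oo (2 ^ (Nat.log 2 k - c1))) ∧
      t ∉ StZ (ZP κ C) (Nat.log 2 k - c) (2 ^ (Nat.log 2 k - c1))} ≤ ENNReal.ofReal ε * gg (Nat.log 2 k) := by
  obtain ⟨κ, hκ, C, hF⟩ := freeP
  exact ⟨κ, hκ, C, startZ_one hF⟩

end PW

end HexObs
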