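import Pool.Agent.PW.DefU
import Pool.Agent.PW.LevAF
import Pool.Agent.PW.SlowA
import Pool.Agent.PW.Inner

/-!
PW (winding of the walk), row P7 (helper45): the plane ensemble in the form of `EnsD`, `LevE`.
-/

set_option autoImplicit false

namespace HexObs

namespace PWN

open Finset TS SDN TIW SLW SLW.TW RM

/-- a bound for the numbers of the letters in the window -/
lemma AA_le' {Lg : ℝ} {g : ℝ → ℝ} (hg : Bump Lg g) {f : List Bool → ℝ} {K : ℝ} {n : ℕ}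
    (h : ∀ m, n ≤ m → m ≤ 2 * n → ∑ t ∈ sawF m, f t ≤ K * cS m) :
    ∑ t ∈ AAF n, pA g n t * f t ≤ K * MA g n := by
  rw [sum_AA, MA_eq, mul_sum]
  refine sum_le_sum fun m hm => ?_
  rw [mem_range] at hm
  by_cases h0 : wA g n m = 0
  · rw [h0, zero_mul, zero_mul, mul_zero]
  · have hn : 0 < n := by omega
    have hn0 : (0 : ℝ) < n := by exact_mod_cast hn
    have h1 : g ((m : ℝ) / n) ≠ 0 := fun h2 => h0 (by
      unfold wA
      rw [h2, ite_self])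
    have h2 : 1 ≤ (m : ℝ) / n := by
      by_contra h3
      exact h1 (hg.lo _ (not_le.1 h3))
    have h3 : (m : ℝ) / n ≤ 2 := by
      by_contra h3
      exact h1 (hg.hi _ (not_le.1 h3))
    rw [le_div_iff₀ hn0, one_mul] at h2
    rw [div_le_iff₀ hn0] at h3
    have h4 := h m (by exact_mod_cast h2) (by exact_mod_cast h3)
    rw [← mul_sum]
    have h5 : 0 ≤ wA g n m * xc ^ m := mul_nonneg (wA_nonneg hg n m) (pow_nonneg xc_pos.le _)
    calc wA g n m * (xc ^ m * ∑ t ∈ sawF m, f t) = wA g n m * xc ^ m * ∑ t ∈ sawF m, f t := by ring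
      _ ≤ wA g n m * xc ^ m * (K * cS m) := mul_le_mul_of_nonneg_left h4 h5
      _ = K * (wA g n m * (cS m * xc ^ m)) := by ring

/-- equal sums over the words with `m` letters give equal sums over the plane ensemble -/
lemma AA_congr {g : ℝ → ℝ} {f f' : List Bool → ℝ} (h : ∀ m, ∑ t ∈ sawF m, f t = ∑ t ∈ sawF m, f' t) (n : ℕ) :
    ∑ t ∈ AAF n, pA g n t * f t = ∑ t ∈ AAF n, pA g n t * f' t := by
  rw [sum_AA, sum_AA]
  refine sum_congr rfl fun m _ => ?_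
  rw [← mul_sum, ← mul_sum, h m]

/-- **the plane ensemble** -/
theorem ensA {C D Lg : ℝ} {g : ℝ → ℝ} (hM : MomAS C) (hg : Bump Lg g)
    (hD : ∀ (l s : ℕ) (w : ℝ) (Ch : Set (List Bool)), 0 < w → w ≤ wD Ch → Ub (l + s) ≤ D ^ s / w * UT l (l + s) Ch)
    {n N M s s' : ℕ} {lv : ℕ → ℕ} {Ch : ℕ → Set (List Bool)} {w c x : ℝ} (hC : 0 < C) (hw : 0 < w)
    (hLv : LvS N lv s s' w Ch) (hMA : 0 < MA g n)
    (hsm : ∀ m, n ≤ m → m ≤ 2 * n → ∀ e : ℕ → ℕ, (∀ j, j < M → e j < N) → (∀ i j, i < j → j < M → e i < e j) →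
      ∑ t ∈ sawF m, smI c (fun j => N0 (lv (e j)) (lv (e j) + s) (Ch (e j)) t /
        UT (lv (e j)) (lv (e j) + s) (Ch (e j)) / M) M ≤ x * cS m) :
    EnsD (AAF n) (pA g n) M N lv s Ch (fun _ _ => 1) (fun i => UT (lv i) (lv i + s) (Ch i)) (MA g n) 1
      ((C * (D ^ s / w)) ^ 2) c x where
  g0 := hMA
  p0 := pA_nonneg hg n
  sa := fun t ht => (mem_AAF.1 ht).1
  mass := by rw [one_mul]; exact le_rfl
  th := fun _ _ => zero_le_one
  u0 := fun i => UT_nonneg _ _ _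
  u1 := fun i hi => UT_pos (hw.trans_le (hLv.mass i hi))
  mom := fun i hi => by
    have h1 := (hM Lg g hg n (lv i) (lv i + s) (Ch i) (Nat.le_add_right _ _) (hLv.chn i hi)).1
    have h2 := hD (lv i) s w (Ch i) hw (hLv.mass i hi)
    have h3 := OG.Ub_pos (lv i + s)
    have h4 : ∑ t ∈ AAF n, pA g n t * NQW (lv i) (lv i + s) (Ch i) (fun _ => 1) t ^ 2 ≤
        ∑ t ∈ AAF n, pA g n t * NQ0 (lv i) (lv i + s) (Ch i) t ^ 2 := by
      refine sum_le_sum fun t _ => mul_le_mul_of_nonneg_left ?_ (pA_nonneg hg n t)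
      exact pow_le_pow_left₀ (OW.NQW_nonneg _ _ _ (fun _ => zero_le_one) t) (OW.NQW_le _ _ _ (fun _ => le_rfl) t) 2
    refine h4.trans (h1.trans ?_)
    refine mul_le_mul_of_nonneg_right ?_ hMA.le
    rw [← mul_pow]
    refine pow_le_pow_left₀ (by positivity) ?_ 2
    calc C * Ub (lv i + s) ≤ C * (D ^ s / w * UT (lv i) (lv i + s) (Ch i)) := mul_le_mul_of_nonneg_left h2 hC.le
      _ = C * (D ^ s / w) * UT (lv i) (lv i + s) (Ch i) := by ring
  small := fun e he1 he2 => AA_le' hg fun m hm1 hm2 => hsm m hm1 hm2 e he1 he2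

/-- the level identity of the plane ensemble in the form of the cores -/
theorem levEA {C' D β Lg : ℝ} {g : ℝ → ℝ} (hg : Bump Lg g) {l0 : ℕ} (hC' : 0 < C')
    (hL : ∀ (n k l L : ℕ) (Ch : Set (List Bool)) (q Ψ er : List Bool → ℝ), TIP.Sc k n → l0 ≤ l →
      l ≤ L → L ≤ k → SLW.Chn L Ch → (∀ E ∈ Hc l, |q E| ≤ 1) → (∀ t, |Ψ t| ≤ 1) → RM.Rob (2 ^ (L + 1)) Ψ er →
      |∑ t ∈ AAF n, pA g n t * (Ψ t * (NW l L Ch (fun _ => 1) q t - nu l q * N0 l L Ch t))| ≤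
        2 * ∑ t ∈ AAF n, pA g n t * (N0 l L Ch t * er t) + C' * (PW.mZ (2 ^ l) / n) * Ub L * MA g n)
    (hD1 : 1 ≤ D)
    (hD : ∀ (l s : ℕ) (w : ℝ) (Ch : Set (List Bool)), 0 < w → w ≤ wD Ch → Ub (l + s) ≤ D ^ s / w * UT l (l + s) Ch)
    {n k N s s' : ℕ} {lv : ℕ → ℕ} {Ch : ℕ → Set (List Bool)} {w : ℝ} {q : List Bool → ℝ} (hSc : TIP.Sc k n)
    (hw : 0 < w) (hLv : LvS N lv s s' w Ch) (hl0 : ∀ i, i < N → l0 ≤ lv i) (hk : ∀ i, i < N → lv i + s ≤ k)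
    (hβ : ∀ i, i < N → C' * (D ^ s / w) ≤ β * 2 ^ (k - lv i)) (hq : ∀ t, |q t| ≤ 1) :
    LevE (AAF n) (pA g n) N lv s Ch (fun _ _ => 1) (fun i => UT (lv i) (lv i + s) (Ch i)) (β * MA g n) q := by
  intro i hi Ψ er hΨ _ hR
  refine (hL n k (lv i) (lv i + s) (Ch i) q Ψ er hSc (hl0 i hi) (Nat.le_add_right _ _) (hk i hi) (hLv.chn i hi)
    (fun E _ => hq E) hΨ hR).trans ?_
  refine add_le_add le_rfl ?_
  have hm0 : 0 < PW.mZ (2 ^ lv i) := NTA.mlow_M.pos (lv i)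
  have h1 := hD (lv i) s w (Ch i) hw (hLv.mass i hi)
  have h2 := hβ i hi
  have h3 : PW.mZ (2 ^ lv i) * 2 ^ (k - lv i) ≤ n := by
    have h4 := NTA.MLow.two NTA.mlow_M (lv i) (k - lv i)
    rw [show lv i + (k - lv i) = k by have := hk i hi; omega] at h4
    have h5 := hSc.1
    linarith
  have hn0 : (0 : ℝ) < n := by
    have : 0 < PW.mZ (2 ^ lv i) * 2 ^ (k - lv i) := by positivity
    linarith
  have h6 : PW.mZ (2 ^ lv i) / n ≤ 1 / 2 ^ (k - lv i) := by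
    rw [div_le_div_iff₀ hn0 (by positivity)]
    linarith
  have hU := OG.Ub_pos (lv i + s)
  have hUT : 0 < UT (lv i) (lv i + s) (Ch i) := UT_pos (hw.trans_le (hLv.mass i hi))
  have hMA := MA_nonneg hg n
  have h7 : C' * (PW.mZ (2 ^ lv i) / n) * Ub (lv i + s) ≤ β * UT (lv i) (lv i + s) (Ch i) := by
    calc C' * (PW.mZ (2 ^ lv i) / n) * Ub (lv i + s) ≤ C' * (1 / 2 ^ (k - lv i)) * (D ^ s / w * UT (lv i) (lv i + s) (Ch i)) :=
          mul_le_mul (mul_le_mul_of_nonneg_left h6 hC'.le) h1 hU.le (by positivity)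
      _ = C' * (D ^ s / w) / 2 ^ (k - lv i) * UT (lv i) (lv i + s) (Ch i) := by ring
      _ ≤ β * UT (lv i) (lv i + s) (Ch i) := by
        refine mul_le_mul_of_nonneg_right ?_ hUT.le
        rw [div_le_iff₀ (by positivity)]
        exact h2
  calc C' * (PW.mZ (2 ^ lv i) / n) * Ub (lv i + s) * MA g n ≤ β * UT (lv i) (lv i + s) (Ch i) * MA g n :=
        mul_le_mul_of_nonneg_right h7 hMA
    _ = β * MA g n * UT (lv i) (lv i + s) (Ch i) := by ring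

end PWN

end HexObs
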