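import Pool.Agent.PW.TipN

/-!
# PW, both ends: the literal `TipB` (66's plan; proof: helper45, user: helper15 in PW/BothW.lean)

The tip is the END of the word; `Φ` does not change much when the last part of the word is changed.
-/

set_option autoImplicit false

namespace HexObs

namespace PWN

/-- **row B2**: the inner functionals of the tip are asymptotically independent of the rest of the walk with `n` steps -/
def TipB (g : ℝ → ℝ) : Prop := ∀ ε : ℝ, 0 < ε → ∃ τ : ℝ, 0 < τ ∧ ∀ c1 : ℕ, ∃ C1 : ℕ, ∀ C : ℕ, C1 ≤ C → ∃ k0 : ℕ,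
  ∀ k n : ℕ, k0 ≤ k → TIP.Sc k n → ∀ q Φ : List Bool → ℝ, (∀ t, |q t| ≤ 1) → (∀ t, |Φ t| ≤ 1) → Inn (k - C) q →
  SRob (k - c1) τ Φ → |En n (fun t => Φ t * q t) - EA g n q * En n Φ| ≤ ε

end PWN

end HexObs
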