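import Pool.Agent.SLW.LowB
import Pool.Agent.SLW.BotFin
import Pool.Agent.TIW.LowT
import Pool.Agent.TIW.Hpm

/-!
# PW, row P5 (helper10): a turn changes the last direction

`turnB`: the weighted mass of a finite set of words with a free half ball is dominated by the weighted mass of the words
with a turn behind them (multiplicities of the splittings controlled by a second moment).
-/

set_option autoImplicit false

namespace HexObs

namespace PWN

namespace LB0

open Finset TS SDN TIW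

open scoped ENNReal

/-! ### 1. Weighted masses -/

open Classical in
/-- weighted mass of a set of words -/
noncomputable def Sx (X : Set (List Bool)) (f : List Bool → ℝ) : ℝ≥0∞ :=
  ∑' t : List Bool, if t ∈ X then wE t * ENNReal.ofReal (f t) else 0

lemma Sx_ne_top {X : Set (List Bool)} (hX : X.Finite) (f : List Bool → ℝ) : Sx X f ≠ ⊤ := by
  classical
  have e : Sx X f = ∑ t ∈ hX.toFinset, wE t * ENNReal.ofReal (f t) := by
    unfold Sx
    rw [tsum_eq_sum (s := hX.toFinset) fun t ht => if_neg fun h => ht (hX.mem_toFinset.2 h)]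
    exact Finset.sum_congr rfl fun t ht => if_pos (hX.mem_toFinset.1 ht)
  rw [e]
  exact (ENNReal.sum_lt_top.2 fun t _ => ENNReal.mul_lt_top ENNReal.ofReal_lt_top ENNReal.ofReal_lt_top).ne

lemma Sx_mono {X Y : Set (List Bool)} (h : X ⊆ Y) (f : List Bool → ℝ) : Sx X f ≤ Sx Y f := by
  classical
  refine ENNReal.tsum_le_tsum fun t => ?_
  by_cases hX : t ∈ X
  · rw [if_pos hX, if_pos (h hX)]
  · rw [if_neg hX]
    exact zero_le

lemma Sx_mono_fun {X : Set (List Bool)} {f g : List Bool → ℝ} (h : ∀ t ∈ X, f t ≤ g t) : Sx X f ≤ Sx X g := by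
  classical
  refine ENNReal.tsum_le_tsum fun t => ?_
  by_cases hX : t ∈ X
  · rw [if_pos hX, if_pos hX]
    exact mul_le_mul' le_rfl (ENNReal.ofReal_le_ofReal (h t hX))
  · rw [if_neg hX, if_neg hX]

lemma Sx_add_le (X : Set (List Bool)) (f g : List Bool → ℝ) : Sx X (fun t => f t + g t) ≤ Sx X f + Sx X g := by
  classical
  unfold Sx
  rw [← ENNReal.tsum_add]
  refine ENNReal.tsum_le_tsum fun t => ?_
  by_cases hX : t ∈ X
  · rw [if_pos hX, if_pos hX, if_pos hX, ← mul_add]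
    exact mul_le_mul' le_rfl ENNReal.ofReal_add_le
  · rw [if_neg hX, if_neg hX, if_neg hX, add_zero]

lemma Sx_mul {X : Set (List Bool)} {c : ℝ} (hc : 0 ≤ c) (f : List Bool → ℝ) :
    Sx X (fun t => c * f t) = ENNReal.ofReal c * Sx X f := by
  classical
  unfold Sx
  rw [← ENNReal.tsum_mul_left]
  refine tsum_congr fun t => ?_
  by_cases hX : t ∈ X
  · rw [if_pos hX, if_pos hX, ENNReal.ofReal_mul hc]
    ring
  · rw [if_neg hX, if_neg hX, mul_zero]

lemma gf_Sx (X : Set (List Bool)) : gf X = Sx X (fun _ => 1) := by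
  classical
  rw [SLW.LB.gf_ite]
  unfold Sx
  refine tsum_congr fun t => ?_
  rw [ENNReal.ofReal_one, mul_one]

/-- a finite cover -/
lemma Sx_cover {ι : Type} (s : Finset ι) {X : Set (List Bool)} (Y : ι → Set (List Bool)) (f : List Bool → ℝ)
    (h : ∀ t ∈ X, ∃ i ∈ s, t ∈ Y i) : Sx X f ≤ ∑ i ∈ s, Sx (Y i) f := by
  classical
  unfold Sx
  rw [← Summable.tsum_finsetSum (fun i _ => ENNReal.summable)]
  refine ENNReal.tsum_le_tsum fun t => ?_
  by_cases hX : t ∈ X
  · obtain ⟨i, hi, hY⟩ := h t hX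
    rw [if_pos hX]
    calc wE t * ENNReal.ofReal (f t) = if t ∈ Y i then wE t * ENNReal.ofReal (f t) else 0 := (if_pos hY).symm
      _ ≤ _ := single_le_sum (f := fun i => if t ∈ Y i then wE t * ENNReal.ofReal (f t) else 0) (fun _ _ => zero_le) hi
  · rw [if_neg hX]
    exact zero_le

open Classical in
/-- the cuts of a word with the left part in X and the right part in V -/
noncomputable def KK (X V : Set (List Bool)) (t : List Bool) : Finset ℕ :=
  (range (t.length + 1)).filter fun k => t.take k ∈ X ∧ t.drop k ∈ V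

lemma mem_KK {X V : Set (List Bool)} {t : List Bool} {k : ℕ} :
    k ∈ KK X V t ↔ k ≤ t.length ∧ t.take k ∈ X ∧ t.drop k ∈ V := by
  classical
  unfold KK
  rw [mem_filter, mem_range]
  constructor
  · exact fun h => ⟨by omega, h.2⟩
  · exact fun h => ⟨by omega, h.2⟩

/-- the product of two weighted masses -/
lemma Sx_cut (X V : Set (List Bool)) {f g : List Bool → ℝ} (hf : ∀ t, 0 ≤ f t) (hg : ∀ t, 0 ≤ g t) :
    Sx X f * Sx V g = ∑' t : List Bool, wE t * ENNReal.ofReal (∑ k ∈ KK X V t, f (t.take k) * g (t.drop k)) := by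
  classical
  obtain ⟨a, ha⟩ : ∃ a : List Bool → ℝ≥0∞, a = fun A => if A ∈ X then wE A * ENNReal.ofReal (f A) else 0 := ⟨_, rfl⟩
  obtain ⟨v, hv⟩ : ∃ v : List Bool → ℝ≥0∞, v = fun A => if A ∈ V then wE A * ENNReal.ofReal (g A) else 0 := ⟨_, rfl⟩
  have e1 : Sx X f = ∑' A, a A := by rw [ha]; rfl
  have e2 : Sx V g = ∑' A, v A := by rw [hv]; rfl
  have e3 : (∑' A, a A) * ∑' A, v A = ∑' A, ∑' Y, a A * v Y := by
    rw [← ENNReal.tsum_mul_right]
    exact tsum_congr fun A => ENNReal.tsum_mul_left.symm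
  rw [e1, e2, e3, SLW.LB.cut_sum (fun A Y => a A * v Y)]
  refine tsum_congr fun t => ?_
  rw [ENNReal.ofReal_sum_of_nonneg (fun k _ => mul_nonneg (hf _) (hg _)), mul_sum]
  unfold KK
  rw [sum_filter]
  refine sum_congr rfl fun k _ => ?_
  rw [ha, hv]
  show (if t.take k ∈ X then wE (t.take k) * ENNReal.ofReal (f (t.take k)) else 0) *
    (if t.drop k ∈ V then wE (t.drop k) * ENNReal.ofReal (g (t.drop k)) else 0) = _
  by_cases h1 : t.take k ∈ X
  · by_cases h2 : t.drop k ∈ V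
    · rw [if_pos h1, if_pos h2, if_pos ⟨h1, h2⟩, ENNReal.ofReal_mul (hf _)]
      have hw : wE t = wE (t.take k) * wE (t.drop k) := by
        conv_lhs => rw [← List.take_append_drop k t]
        exact wE_append _ _
      rw [hw]
      ring
    · have h3 : ¬(t.take k ∈ X ∧ t.drop k ∈ V) := fun h => h2 h.2
      rw [if_pos h1, if_neg h2, if_neg h3, mul_zero]
  · have h3 : ¬(t.take k ∈ X ∧ t.drop k ∈ V) := fun h => h1 h.1
    rw [if_neg h1, if_neg h3, zero_mul]

/-! ### 2. Pairs of cuts -/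

/-- the square of the number of the cuts -/
lemma kk_sq {l : ℕ} {V : Set (List Bool)} (hV : Turn l V) {VF : Finset (List Bool)} (hVF : ∀ v, v ∈ VF ↔ v ∈ V)
    {X : Set (List Bool)} (hX : ∀ A ∈ X, A ∈ Fe (1024 * 2 ^ l)) (t : List Bool) : ((KK X V t).card : ℝ) ^ 2 ≤
      2 * ∑ k ∈ KK X V t, ((LowA.JV l VF (t.drop k)).card : ℝ) := by
  classical
  refine (sq_le_ord _).trans (mul_le_mul_of_nonneg_left (sum_le_sum fun k hk => ?_) (by norm_num))
  have h3 : ((KK X V t).filter fun k' => k ≤ k').card ≤ (LowA.JV l VF (t.drop k)).card := by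
    refine card_le_card_of_injOn (fun k' => k' - k) ?_ ?_
    · intro k' hk'
      rw [mem_coe, mem_filter, mem_KK] at hk'
      rw [mem_KK] at hk
      obtain ⟨⟨hk1, hk2, hk3⟩, hkk⟩ := hk'
      obtain ⟨hk4, hk5, hk6⟩ := hk
      have e1 : t.take k' = t.take k ++ (t.drop k).take (k' - k) := by
        rw [← List.take_add, show k + (k' - k) = k' by omega]
      have e2 : t.drop k' = (t.drop k).drop (k' - k) := by
        rw [List.drop_drop, show k + (k' - k) = k' by omega]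
      have e3 : (t.drop k).take (k' - k) ++ (t.drop k).drop (k' - k) = t.drop k := List.take_append_drop _ _
      have e4 : de (t.take k') = de (t.take k) :=
        LowA.turn_dir hV hk3 hk6 (by rw [List.take_append_drop, List.take_append_drop])
      have h5 := zbu (2 ^ (l + 9)) (t.take k) ((t.drop k).take (k' - k)) ((t.drop k).drop (k' - k)) (by
        rw [← e1, show 2 * 2 ^ (l + 9) = 1024 * 2 ^ l by ring]
        exact hX _ hk2) (by
        rw [e3]
        exact hV.hp hk6) (by rw [← e1]; exact e4)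
      show k' - k ∈ (LowA.JV l VF (t.drop k) : Set ℕ)
      rw [mem_coe]
      unfold LowA.JV
      rw [mem_filter, mem_range, List.length_drop]
      refine ⟨by omega, h5.1, h5.2, ?_⟩
      rw [← e2]
      exact (hVF _).2 hk3
    · intro a ha b hb he
      rw [mem_coe, mem_filter] at ha hb
      simp only at he
      have := ha.2
      have := hb.2
      omega
  exact_mod_cast h3

/-- the splittings of all the turns -/
lemma sum_J {l : ℕ} {V : Set (List Bool)} (hV : Turn l V) {VF : Finset (List Bool)} (hVF : ∀ v, v ∈ VF ↔ v ∈ V) :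
    Sx V (fun E => ((LowA.JV l VF E).card : ℝ)) ≤ ENNReal.ofReal (256 * Ub l) * gf V := by
  classical
  have hx := xc_pos
  have h1 := LowA.sum_JV hV hVF
  have hodd : ∀ w : List Bool → ℝ, LowA.mo VF w = ∑ E ∈ VF, w E * xc ^ E.length := by
    intro w
    unfold LowA.mo
    refine sum_congr rfl fun E hE => ?_
    have := hV.odd E ((hVF E).1 hE)
    rw [TIP.ind_pos (by omega), one_mul]
  rw [hodd, hodd] at h1
  have key : ∀ f : List Bool → ℝ, (∀ t, 0 ≤ f t) → Sx V f = ENNReal.ofReal (∑ E ∈ VF, f E * xc ^ E.length) := by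
    intro f hf
    unfold Sx
    rw [tsum_eq_sum (s := VF) fun t ht => if_neg fun h => ht ((hVF t).2 h),
      ENNReal.ofReal_sum_of_nonneg fun E _ => mul_nonneg (hf E) (pow_nonneg hx.le _)]
    refine sum_congr rfl fun E hE => ?_
    rw [if_pos ((hVF E).1 hE), ENNReal.ofReal_mul (hf E), mul_comm]
    rfl
  rw [gf_Sx, key _ (fun _ => Nat.cast_nonneg _), key _ (fun _ => zero_le_one),
    ← ENNReal.ofReal_mul (by have := DL.Ub_pos l; positivity)]
  exact ENNReal.ofReal_le_ofReal h1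

/-! ### 3. One turn -/

/-- **a turn**: the weighted mass of the words in front of a turn is dominated by the one behind it -/
theorem turnB {l : ℕ} {V : Set (List Bool)} (hV : Turn l V) {c : ℝ} (hc : 0 < c)
    (hm : ENNReal.ofReal (c * Ub l) ≤ gf V) {X X' : Set (List Bool)} (hXf : X.Finite)
    (hF : ∀ A ∈ X, A ∈ Fe (1024 * 2 ^ l)) (hX' : ∀ A ∈ X, ∀ v ∈ V, A ++ v ∈ X') {Φ θ : List Bool → ℝ}
    (hΦ : ∀ t, 0 ≤ Φ t) (hθ : ∀ t, 0 ≤ θ t) (ho : ∀ A ∈ X, ∀ v ∈ V, |Φ (A ++ v) - Φ A| ≤ θ A) :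
    Sx X Φ ≤ ENNReal.ofReal (512 / c) * Sx X' Φ + 3 * Sx X θ := by
  classical
  have hU : 0 < Ub l := DL.Ub_pos l
  have hfin : V.Finite := (Hp_fin (2 ^ (l + 9))).subset hV.hp
  obtain ⟨VF, hVF'⟩ : ∃ VF, VF = hfin.toFinset := ⟨_, rfl⟩
  have hVF : ∀ v, v ∈ VF ↔ v ∈ V := fun v => by rw [hVF', Set.Finite.mem_toFinset]
  obtain ⟨J, hJ⟩ : ∃ J : List Bool → ℝ, J = fun E => ((LowA.JV l VF E).card : ℝ) := ⟨_, rfl⟩
  have hJ0 : ∀ E, 0 ≤ J E := fun E => by rw [hJ]; exact Nat.cast_nonneg _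
  have hJV := sum_J hV hVF
  rw [← hJ] at hJV
  obtain ⟨lam, hlam⟩ : ∃ lam, lam = 256 * Ub l := ⟨_, rfl⟩
  have hlam0 : 0 < lam := by rw [hlam]; positivity
  rw [← hlam] at hJV
  obtain ⟨S, hS⟩ : ∃ S, S = Sx X Φ := ⟨_, rfl⟩
  obtain ⟨T, hT⟩ : ∃ T, T = Sx X θ := ⟨_, rfl⟩
  obtain ⟨S', hS'⟩ : ∃ S', S' = Sx X' Φ := ⟨_, rfl⟩
  obtain ⟨g, hg⟩ : ∃ g, g = gf V := ⟨_, rfl⟩
  have hST : S ≠ ⊤ := by rw [hS]; exact Sx_ne_top hXf _
  have hTT : T ≠ ⊤ := by rw [hT]; exact Sx_ne_top hXf _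
  have hgT : g ≠ ⊤ := by rw [hg]; exact SLW.gf_fin_ne_top hfin
  -- the main inequality
  have main : S * g ≤ ENNReal.ofReal lam * S' + ENNReal.ofReal (1 / (2 * lam)) * ((S + T) * Sx V J) + T * g := by
    have e1 : S * g = ∑' t : List Bool, wE t * ENNReal.ofReal (∑ k ∈ KK X V t, Φ (t.take k) * 1) := by
      rw [hS, hg, gf_Sx, Sx_cut X V hΦ (g := fun _ => 1) (fun _ => zero_le_one)]
    have e2 : T * g = ∑' t : List Bool, wE t * ENNReal.ofReal (∑ k ∈ KK X V t, θ (t.take k) * 1) := by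
      rw [hT, hg, gf_Sx, Sx_cut X V hθ (g := fun _ => 1) (fun _ => zero_le_one)]
    have e3 : (S + T) * Sx V J = ∑' t : List Bool, (wE t * ENNReal.ofReal (∑ k ∈ KK X V t, Φ (t.take k) * J (t.drop k)) +
        wE t * ENNReal.ofReal (∑ k ∈ KK X V t, θ (t.take k) * J (t.drop k))) := by
      rw [add_mul, hS, hT, Sx_cut X V hΦ hJ0, Sx_cut X V hθ hJ0, ENNReal.tsum_add]
    rw [e1, e2, e3, hS']
    unfold Sx
    rw [← ENNReal.tsum_mul_left, ← ENNReal.tsum_mul_left, ← ENNReal.tsum_add, ← ENNReal.tsum_add]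
    refine ENNReal.tsum_le_tsum fun t => ?_
    obtain ⟨K, hK⟩ : ∃ K, K = KK X V t := ⟨_, rfl⟩
    have hsq := kk_sq hV hVF hF t
    rw [← hK] at hsq ⊢
    rcases K.eq_empty_or_nonempty with h | hne
    · rw [h, sum_empty, ENNReal.ofReal_zero, mul_zero]
      exact zero_le
    obtain ⟨k0, hk0⟩ := hne
    have htX : t ∈ X' := by
      rw [hK, mem_KK] at hk0
      have := hX' _ hk0.2.1 _ hk0.2.2
      rwa [List.take_append_drop] at this
    rw [if_pos htX]
    have hl : ∀ k ∈ K, |Φ t - Φ (t.take k)| ≤ θ (t.take k) := by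
      intro k hk
      rw [hK, mem_KK] at hk
      have := ho _ hk.2.1 _ hk.2.2
      rwa [List.take_append_drop] at this
    obtain ⟨m, hm'⟩ : ∃ m : ℝ, m = (K.card : ℝ) := ⟨_, rfl⟩
    rw [← hm'] at hsq
    obtain ⟨s1, hs1⟩ : ∃ x, x = ∑ k ∈ K, Φ (t.take k) * 1 := ⟨_, rfl⟩
    obtain ⟨su, hsu⟩ : ∃ x, x = ∑ k ∈ K, θ (t.take k) * 1 := ⟨_, rfl⟩
    obtain ⟨j1, hj1⟩ : ∃ x, x = ∑ k ∈ K, Φ (t.take k) * J (t.drop k) := ⟨_, rfl⟩
    obtain ⟨ju, hju⟩ : ∃ x, x = ∑ k ∈ K, θ (t.take k) * J (t.drop k) := ⟨_, rfl⟩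
    have hj10 : 0 ≤ j1 := by rw [hj1]; exact sum_nonneg fun k _ => mul_nonneg (hΦ _) (hJ0 _)
    have hju0 : 0 ≤ ju := by rw [hju]; exact sum_nonneg fun k _ => mul_nonneg (hθ _) (hJ0 _)
    have hsu0 : 0 ≤ su := by rw [hsu]; exact sum_nonneg fun k _ => mul_nonneg (hθ _) zero_le_one
    have c1 : s1 ≤ m * Φ t + su := by
      rw [hs1, hsu, hm', ← nsmul_eq_mul, ← sum_const, ← sum_add_distrib]
      refine sum_le_sum fun k hk => ?_
      have := neg_abs_le (Φ t - Φ (t.take k))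
      have := hl k hk
      linarith
    have c2 : m ^ 2 * Φ t ≤ 2 * (j1 + ju) := by
      have d1 : m ^ 2 * Φ t ≤ (2 * ∑ k ∈ K, J (t.drop k)) * Φ t := by
        refine mul_le_mul_of_nonneg_right ?_ (hΦ t)
        rw [hJ]
        exact hsq
      refine d1.trans ?_
      rw [mul_assoc, hj1, hju, sum_mul, ← sum_add_distrib]
      refine mul_le_mul_of_nonneg_left (sum_le_sum fun k hk => ?_) (by norm_num)
      have := le_abs_self (Φ t - Φ (t.take k))
      have h6 := hl k hk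
      have h7 : Φ t ≤ Φ (t.take k) + θ (t.take k) := by linarith
      have h8 := mul_le_mul_of_nonneg_left h7 (hJ0 (t.drop k))
      linarith
    have c3 : m * Φ t ≤ lam * Φ t + 1 / (4 * lam) * (m ^ 2 * Φ t) := by
      have h7 : m ≤ lam + 1 / (4 * lam) * m ^ 2 := by
        have h9 : 1 / (4 * lam) * (m - 2 * lam) ^ 2 = 1 / (4 * lam) * m ^ 2 - m + lam := by
          field_simp
          ring
        have h10 : 0 ≤ 1 / (4 * lam) * (m - 2 * lam) ^ 2 := by positivity
        linarith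
      have := mul_le_mul_of_nonneg_right h7 (hΦ t)
      linarith
    have c4 : s1 ≤ lam * Φ t + 1 / (2 * lam) * (j1 + ju) + su := by
      have d1 : 1 / (4 * lam) * (m ^ 2 * Φ t) ≤ 1 / (4 * lam) * (2 * (j1 + ju)) :=
        mul_le_mul_of_nonneg_left c2 (by positivity)
      have d2 : 1 / (4 * lam) * (2 * (j1 + ju)) = 1 / (2 * lam) * (j1 + ju) := by
        field_simp
        ring
      linarith
    rw [← hs1, ← hsu, ← hj1, ← hju]
    have hΦt := hΦ t
    calc wE t * ENNReal.ofReal s1 ≤ wE t * ENNReal.ofReal (lam * Φ t + 1 / (2 * lam) * (j1 + ju) + su) :=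
          mul_le_mul' le_rfl (ENNReal.ofReal_le_ofReal c4)
      _ = _ := by
          rw [ENNReal.ofReal_add (by positivity) hsu0, ENNReal.ofReal_add (by positivity) (by positivity),
            ENNReal.ofReal_mul hlam0.le, ENNReal.ofReal_mul (by positivity), ENNReal.ofReal_add hj10 hju0]
          ring
  -- the end
  rw [← hS, ← hT, ← hS']
  rcases eq_or_ne S' ⊤ with h | hS'T
  · rw [h, ENNReal.mul_top (by rw [Ne, ENNReal.ofReal_eq_zero, not_le]; positivity), top_add]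
    exact le_top
  have m2 : S * g ≤ ENNReal.ofReal lam * S' + ENNReal.ofReal (1 / 2) * ((S + T) * g) + T * g := by
    refine main.trans (add_le_add (add_le_add le_rfl ?_) le_rfl)
    calc ENNReal.ofReal (1 / (2 * lam)) * ((S + T) * Sx V J) ≤
          ENNReal.ofReal (1 / (2 * lam)) * ((S + T) * (ENNReal.ofReal lam * g)) := by
          rw [hg]
          exact mul_le_mul' le_rfl (mul_le_mul' le_rfl hJV)
      _ = (ENNReal.ofReal (1 / (2 * lam)) * ENNReal.ofReal lam) * ((S + T) * g) := by ring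
      _ = _ := by
          rw [← ENNReal.ofReal_mul (by positivity)]
          congr 2
          field_simp
  lift S to NNReal using hST
  lift T to NNReal using hTT
  lift S' to NNReal using hS'T
  lift g to NNReal using hgT
  rw [← hg] at hm
  have m3 : (S : ℝ) * g ≤ lam * S' + 1 / 2 * ((S + T) * g) + T * g := by
    have h1 := ENNReal.toReal_mono (by
      refine ENNReal.add_ne_top.2 ⟨ENNReal.add_ne_top.2 ⟨ENNReal.mul_ne_top ENNReal.ofReal_ne_top ENNReal.coe_ne_top,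
        ENNReal.mul_ne_top ENNReal.ofReal_ne_top (ENNReal.mul_ne_top (ENNReal.add_ne_top.2 ⟨ENNReal.coe_ne_top,
          ENNReal.coe_ne_top⟩) ENNReal.coe_ne_top)⟩, ENNReal.mul_ne_top ENNReal.coe_ne_top ENNReal.coe_ne_top⟩) m2
    have hT1 : (ENNReal.ofReal lam * (S' : ℝ≥0∞)) ≠ ⊤ := ENNReal.mul_ne_top ENNReal.ofReal_ne_top ENNReal.coe_ne_top
    have hT2 : (ENNReal.ofReal (1 / 2) * (((S : ℝ≥0∞) + T) * g)) ≠ ⊤ :=
      ENNReal.mul_ne_top ENNReal.ofReal_ne_top (ENNReal.mul_ne_top (ENNReal.add_ne_top.2 ⟨ENNReal.coe_ne_top,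
          ENNReal.coe_ne_top⟩) ENNReal.coe_ne_top)
    have hT3 : ((T : ℝ≥0∞) * g) ≠ ⊤ := ENNReal.mul_ne_top ENNReal.coe_ne_top ENNReal.coe_ne_top
    rw [ENNReal.toReal_add (ENNReal.add_ne_top.2 ⟨hT1, hT2⟩) hT3, ENNReal.toReal_add hT1 hT2] at h1
    simp only [ENNReal.toReal_mul, ENNReal.toReal_add ENNReal.coe_ne_top ENNReal.coe_ne_top, ENNReal.coe_toReal,
      ENNReal.toReal_ofReal hlam0.le, ENNReal.toReal_ofReal (show (0 : ℝ) ≤ 1 / 2 by norm_num)] at h1
    exact h1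
  have m4 : c * Ub l ≤ (g : ℝ) := by
    have h1 := ENNReal.toReal_mono ENNReal.coe_ne_top hm
    rwa [ENNReal.toReal_ofReal (by positivity), ENNReal.coe_toReal] at h1
  have hg0 : (0 : ℝ) < g := lt_of_lt_of_le (by positivity) m4
  have m5 : (S : ℝ) ≤ 512 / c * S' + 3 * T := by
    have h1 : (S : ℝ) * g ≤ 2 * lam * S' + 3 * T * g := by linarith
    have h2 : 2 * lam ≤ 512 / c * g := by
      rw [hlam, div_mul_eq_mul_div, le_div_iff₀ hc]
      nlinarith
    have h3 : 2 * lam * (S' : ℝ) ≤ 512 / c * g * S' := mul_le_mul_of_nonneg_right h2 S'.2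
    have h4 : (S : ℝ) * g ≤ (512 / c * S' + 3 * T) * g := by
      calc (S : ℝ) * g ≤ 2 * lam * S' + 3 * T * g := h1
        _ ≤ 512 / c * g * S' + 3 * T * g := by linarith
        _ = _ := by ring
    exact le_of_mul_le_mul_right h4 hg0
  calc (S : ℝ≥0∞) = ENNReal.ofReal (S : ℝ) := by rw [ENNReal.ofReal_coe_nnreal]
    _ ≤ ENNReal.ofReal (512 / c * S' + 3 * T) := ENNReal.ofReal_le_ofReal m5
    _ = _ := by
        rw [ENNReal.ofReal_add (by positivity) (by positivity), ENNReal.ofReal_mul (by positivity),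
          ENNReal.ofReal_mul (by norm_num), ENNReal.ofReal_coe_nnreal, ENNReal.ofReal_coe_nnreal]
        norm_num

end LB0

end PWN

end HexObs
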