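import Pool.Agent.PW.CylZ
import Pool.Agent.TIW.Hpm

/-!
# PW, row MomT, input: the words of the cylinder with a given end which leave a ball of the scale of the cylinder

* `TyF k J y` : words with the plane end `y` that do not meet their translates and leave the ball of radius `k / 2 ^ J`;
* **`twoB`** : their mass is at most `C * gg (log2 k)`, for every `y`.
-/

set_option autoImplicit false

namespace HexObs

namespace PW

open Finset TS SDN NTW NTA SIM JNT TIP TPC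

open TIW (hn)

open scoped ENNReal

/-- words of the cylinder with the given end which leave the ball of radius `k / 2 ^ J` -/
def TyF (k J : ℕ) (y : Pt) : Set (List Bool) :=
  {t | t ∈ SA ∧ Dsj k t ∧ TIW.en t = y ∧ ∃ i, i ≤ t.length ∧ (k : ℤ) ≤ 2 ^ J * hn (vx oo up t i)}

/-- words of a large box which leave the ball: the exact scales -/
private lemma gf_bU1 {ι : Type} (I : Finset ι) (P : ι → Set (List Bool)) : gf (⋃ i ∈ I, P i) ≤ ∑ i ∈ I, gf (P i) :=
  ENNReal.tsum_biUnion_le wE I P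

/-- words of a large box which leave the ball: the exact scales -/
lemma twoB_near (J i0 : ℕ) : ∃ (C : ℝ) (k0 : ℕ), 1 ≤ C ∧ ∀ L k : ℕ, k0 ≤ L → 2 ^ L ≤ k → ∀ y : Pt,
    gf {t | labE t = y ∧ t ∈ WL (L + i0) ∧ t ∈ {t : List Bool | ∃ i, i ≤ t.length ∧ (k : ℤ) ≤ 2 ^ J * hn (vx oo up t i)}} ≤
      ENNReal.ofReal C * gg L := by
  classical
  obtain ⟨C, K0, hC, hU⟩ := TPF.ur
  obtain ⟨D, hD, hgD⟩ := gg_up
  have hD0 : 0 ≤ D := by linarith
  refine ⟨(J + 4 + i0 + 1) * (C * (4 ^ (J + 4) * D ^ i0)) + 1, K0 + (J + 5), ?_, fun L k hL hk y => ?_⟩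
  · have : (0 : ℝ) ≤ (J + 4 + i0 + 1) * (C * (4 ^ (J + 4) * D ^ i0)) := by positivity
    linarith
  have hcov : {t | labE t = y ∧ t ∈ WL (L + i0) ∧
      t ∈ {t : List Bool | ∃ i, i ≤ t.length ∧ (k : ℤ) ≤ 2 ^ J * hn (vx oo up t i)}} ⊆
      ⋃ i ∈ Finset.range (J + 4 + i0 + 1), EndK (L - (J + 4) + i) y := by
    rintro t ⟨h1, h2, i, hi, hik⟩
    have hex : ∃ K, t ∈ WL K := ⟨_, h2⟩
    have h7 := Nat.find_spec hex
    have h8 : ∀ K, K < Nat.find hex → t ∉ WL K := fun K hK => Nat.find_min hex hK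
    have h9 : Nat.find hex ≤ L + i0 := Nat.find_min' hex h2
    generalize Nat.find hex = K at *
    have h10 := TIW.hn_WL h7 hi
    have h11 : L < K + (J + 4) := by
      have h12 : (2 : ℤ) ^ L ≤ k := by exact_mod_cast hk
      have h13 : (2 : ℤ) ^ L ≤ 2 ^ J * (6 * 2 ^ K + 4) :=
        h12.trans (hik.trans (mul_le_mul_of_nonneg_left h10 (by positivity)))
      have h14 : (2 : ℤ) ^ J * (6 * 2 ^ K + 4) < 2 ^ (K + (J + 4)) := by
        have h15 : (1 : ℤ) ≤ 2 ^ K := one_le_pow₀ (by norm_num)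
        have h16 : (0 : ℤ) < 2 ^ J := by positivity
        have e : (2 : ℤ) ^ (K + (J + 4)) = 2 ^ J * (16 * 2 ^ K) := by
          rw [pow_add, pow_add]
          norm_num
          ring
        rw [e]
        exact mul_lt_mul_of_pos_left (by linarith) h16
      have h17 : (2 : ℤ) ^ L < 2 ^ (K + (J + 4)) := h13.trans_lt h14
      exact (pow_lt_pow_iff_right₀ (by norm_num : (1 : ℤ) < 2)).1 h17
    rw [Set.mem_iUnion₂]
    refine ⟨K - (L - (J + 4)), Finset.mem_range.2 (by omega), ?_⟩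
    rw [show L - (J + 4) + (K - (L - (J + 4))) = K by omega]
    refine ⟨h7, ?_, h1⟩
    exact h8 _ (by omega)
  have hone : ∀ i ∈ Finset.range (J + 4 + i0 + 1), gf (EndK (L - (J + 4) + i) y) ≤
      ENNReal.ofReal (C * (4 ^ (J + 4) * D ^ i0)) * gg L := by
    intro i hi
    rw [Finset.mem_range] at hi
    have h1 := hU (L - (J + 4) + i) y (by omega)
    have h2 : gg (L - (J + 4) + i) ≤ ENNReal.ofReal (4 ^ (J + 4) * D ^ i0) * gg L := by
      rcases le_total (L - (J + 4) + i) L with h | h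
      · obtain ⟨j, hj⟩ := Nat.exists_eq_add_of_le h
        have h3 := gg_down (L - (J + 4) + i) j
        rw [← hj] at h3
        refine h3.trans (mul_le_mul' (ENNReal.ofReal_le_ofReal ?_) le_rfl)
        have h4 : (4 : ℝ) ^ j ≤ 4 ^ (J + 4) := pow_le_pow_right₀ (by norm_num) (by omega)
        have h5 : (1 : ℝ) ≤ D ^ i0 := one_le_pow₀ hD
        nlinarith [show (0 : ℝ) < 4 ^ (J + 4) by positivity]
      · obtain ⟨j, hj⟩ := Nat.exists_eq_add_of_le h
        have h3 := hgD L j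
        rw [← hj] at h3
        refine h3.trans (mul_le_mul' (ENNReal.ofReal_le_ofReal ?_) le_rfl)
        have h4 : D ^ j ≤ D ^ i0 := pow_le_pow_right₀ hD (by omega)
        have h5 : (1 : ℝ) ≤ 4 ^ (J + 4) := one_le_pow₀ (by norm_num)
        nlinarith [show (0 : ℝ) ≤ D ^ i0 by positivity]
    have e1 : ENNReal.ofReal (C * (Ub (L - (J + 4) + i) / 4 ^ (L - (J + 4) + i))) * Xb (L - (J + 4) + i) ^ 2 =
        ENNReal.ofReal C * gg (L - (J + 4) + i) := by
      unfold gg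
      rw [← mul_assoc, ← ENNReal.ofReal_mul hC.le]
    rw [e1] at h1
    refine h1.trans ((mul_le_mul' le_rfl h2).trans (le_of_eq ?_))
    rw [← mul_assoc, ← ENNReal.ofReal_mul hC.le]
  calc gf {t | labE t = y ∧ t ∈ WL (L + i0) ∧
        t ∈ {t : List Bool | ∃ i, i ≤ t.length ∧ (k : ℤ) ≤ 2 ^ J * hn (vx oo up t i)}}
      ≤ gf (⋃ i ∈ Finset.range (J + 4 + i0 + 1), EndK (L - (J + 4) + i) y) := gf_mono hcov
    _ ≤ ∑ i ∈ Finset.range (J + 4 + i0 + 1), gf (EndK (L - (J + 4) + i) y) := gf_bU1 _ _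
    _ ≤ ∑ _i ∈ Finset.range (J + 4 + i0 + 1), ENNReal.ofReal (C * (4 ^ (J + 4) * D ^ i0)) * gg L :=
        Finset.sum_le_sum hone
    _ = ENNReal.ofReal ((J + 4 + i0 + 1) * (C * (4 ^ (J + 4) * D ^ i0))) * gg L := by
        have e3 : ENNReal.ofReal ((J : ℝ) + 4 + i0 + 1) = ((J + 4 + i0 + 1 : ℕ) : ℝ≥0∞) := by
          have : ((J : ℝ) + 4 + i0 + 1) = ((J + 4 + i0 + 1 : ℕ) : ℝ) := by
            push_cast
            ring
          rw [this, ENNReal.ofReal_natCast]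
        rw [Finset.sum_const, Finset.card_range, nsmul_eq_mul, ← mul_assoc,
          ENNReal.ofReal_mul (p := (J : ℝ) + 4 + i0 + 1) (by positivity), e3]
    _ ≤ _ := mul_le_mul' (ENNReal.ofReal_le_ofReal (by linarith)) le_rfl

/-- **the words of the cylinder with a given end which leave the ball: two-point bound for every end** -/
theorem twoB (J : ℕ) : ∃ (C : ℝ) (k0 : ℕ), 1 ≤ C ∧ ∀ k : ℕ, k0 ≤ k → ∀ y : Pt,
    gf (TyF k J y) ≤ ENNReal.ofReal C * gg (Nat.log 2 k) := by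
  obtain ⟨i0, k0, hsum⟩ := cyl_sum 1 one_pos
  obtain ⟨C1, K1, hC1, hnear⟩ := twoB_near J i0
  refine ⟨2 ^ (i0 + 1) * C1 + 1, k0 + 2 ^ (K1 + 1), by nlinarith [show (1 : ℝ) ≤ 2 ^ (i0 + 1) from one_le_pow₀ (by norm_num)],
    fun k hk y => ?_⟩
  have hp : 0 < 2 ^ (K1 + 1) := by positivity
  have hK : K1 ≤ Nat.log 2 k := by
    have : K1 + 1 ≤ Nat.log 2 k := (Nat.le_log_iff_pow_le (by norm_num) (by omega)).2 (by omega)
    omega
  have hLk : 2 ^ Nat.log 2 k ≤ k := Nat.pow_log_le_self 2 (by omega)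
  have h1 := hsum k (by omega) {t : List Bool | ∃ i, i ≤ t.length ∧ (k : ℤ) ≤ 2 ^ J * hn (vx oo up t i)} y _
    (fun y' => hnear (Nat.log 2 k) k hK hLk y')
  have h2 : gf (TyF k J y) ≤ ∑' m : ℤ, gf {t | t ∈ Tym k y m ∧
      t ∈ {t : List Bool | ∃ i, i ≤ t.length ∧ (k : ℤ) ≤ 2 ^ J * hn (vx oo up t i)}} := by
    refine le_trans (gf_mono ?_) (ENNReal.le_tsum 0)
    rintro t ⟨g1, g2, g3, g4⟩
    refine ⟨⟨g1, g2, ?_⟩, g4⟩
    have g5 : vx oo up t t.length = y := g3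
    show vx oo up t t.length = _
    rw [g5]
    simp
  refine h2.trans (h1.trans (le_of_eq ?_))
  rw [ENNReal.ofReal_add (by positivity) (by norm_num), ENNReal.ofReal_mul (by positivity),
    ENNReal.ofReal_pow (by norm_num), add_mul, mul_assoc]
  norm_num

end PW

end HexObs
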