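import Pool.Agent.WND.AngPos
import Pool.Agent.PW.Wind

/-!
# PW, row E1c (helper87): the winding in the coordinate of the cylinder against the winding in the plane

`turn z m m'` = the sum of the principal arguments of `z (i + 1) / z i`, `m ≤ i < m'` (`PW.Wind`). The coordinate of
the cylinder is `ph = tanh (a Z)`, `a = aC k = π / (2 √3 k)`, for every lift `Z` of the position (`Lft k v Z`); the two
ends have the lifts `e1 k n = 2 √3 k n i` and `e2 k n = √3 k (2 n + 1) i`.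

* `turn_mul_f`: `u = v f`: the turnings of `u` and `v` differ by `arg (f m') - arg (f m)`;
* `turn_near_f`: `‖f i - 1‖ ≤ 1/2`, `|arg (v (i+1) / v i)| < π / 2`: the difference is at most `π / 2`;
* `turn_piece`: a piece with `‖u i / u m - 1‖ ≤ 1/2` turns by at most `π / 4`;
* `tanh_near`: `‖tanh w / w - 1‖ ≤ 2 ‖w‖ ^ 2`, `‖w‖ ≤ 1/2`; `tanh_far`: `‖tanh x / tanh y - 1‖ ≤ 1/2` away from the
  zeros and the poles, `‖x - y‖ ≤ δ ^ 2 / 7`;
* `ph_tanh`, `ang_turn`: the public definitions;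
* **`turn_e1`**, **`turn_e2`**: near the two ends the turning of `ph` is plus, minus the turning around the end, up to
  `π / 2`; **`turn_far`**, **`chain_far`**: away from the ends;
* `Lft.pair`: two neighbours that are not the two sides of the middle edge;
* **`ang_split`**: `ang` = the turning around the first end up to `j1` minus the turning around the second end from
  `j2` on, up to `(N + 5) π / 4`.
-/

set_option autoImplicit false

namespace HexObs.PWd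

open Complex Finset

/-! ### generic -/

theorem arg_mul_of_add_lt {x y : ℂ} (hx : x ≠ 0) (hy : y ≠ 0) {θ : ℝ} (hθ : ∃ r : ℝ, 0 < r ∧ y = r * Complex.exp (θ * I))
    (h : |x.arg| + |θ| < Real.pi) : (x * y).arg = x.arg + θ := by
  obtain ⟨r, hr, rfl⟩ := hθ
  have h1 := abs_lt.1 (lt_of_le_of_lt (abs_add_le x.arg θ) h)
  have e : x * (r * Complex.exp (θ * I)) = ((‖x‖ * r : ℝ) : ℂ) * Complex.exp (((x.arg + θ : ℝ) : ℂ) * I) := by
    conv_lhs => rw [← Complex.norm_mul_exp_arg_mul_I x]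
    rw [ofReal_add, add_mul, Complex.exp_add, ofReal_mul]
    ring
  have hx' : 0 < ‖x‖ * r := mul_pos (norm_pos_iff.2 hx) hr
  rw [e, Complex.exp_mul_I, ← ofReal_cos, ← ofReal_sin, ofReal_cos, ofReal_sin,
    Complex.arg_mul_cos_add_sin_mul_I hx' ⟨h1.1, h1.2.le⟩]

theorem arg_quot_f {x y : ℂ} (hx : x ≠ 0) (hy : y ≠ 0) :
    ∃ r : ℝ, 0 < r ∧ y / x = r * Complex.exp (((y.arg - x.arg : ℝ) : ℂ) * I) := by
  refine ⟨‖y‖ / ‖x‖, div_pos (norm_pos_iff.2 hy) (norm_pos_iff.2 hx), ?_⟩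
  have hn : (‖x‖ : ℂ) ≠ 0 := by exact_mod_cast (norm_pos_iff.2 hx).ne'
  conv_lhs => rw [← Complex.norm_mul_exp_arg_mul_I x, ← Complex.norm_mul_exp_arg_mul_I y]
  rw [ofReal_sub, sub_mul, Complex.exp_sub, ofReal_div]
  have h1 := Complex.exp_ne_zero ((x.arg : ℂ) * I)
  field_simp

/-- **(1)** the sums of the arguments of `u = v f` and of `v` -/
theorem turn_mul_f {u v f : ℕ → ℂ} {m m' : ℕ} (hm : m ≤ m') (hu : ∀ i, m ≤ i → i ≤ m' → u i = v i * f i)
    (hv : ∀ i, m ≤ i → i ≤ m' → v i ≠ 0) (hf : ∀ i, m ≤ i → i ≤ m' → f i ≠ 0)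
    (h : ∀ i, m ≤ i → i < m' → |(v (i + 1) / v i).arg| + |(f (i + 1)).arg - (f i).arg| < Real.pi) :
    turn u m m' = turn v m m' + ((f m').arg - (f m).arg) := by
  unfold turn
  have h1 : ∀ i ∈ Finset.Ico m m', (u (i + 1) / u i).arg =
      (v (i + 1) / v i).arg + ((f (i + 1)).arg - (f i).arg) := by
    intro i hi
    rw [Finset.mem_Ico] at hi
    have v0 := hv i hi.1 hi.2.le
    have v1 := hv (i + 1) (by omega) (by omega)
    have f0 := hf i hi.1 hi.2.le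
    have f1 := hf (i + 1) (by omega) (by omega)
    have e : u (i + 1) / u i = v (i + 1) / v i * (f (i + 1) / f i) := by
      rw [hu i hi.1 hi.2.le, hu (i + 1) (by omega) (by omega)]
      field_simp
    rw [e]
    exact arg_mul_of_add_lt (div_ne_zero v1 v0) (div_ne_zero f1 f0) (arg_quot_f f0 f1) (h i hi.1 hi.2)
  rw [Finset.sum_congr rfl h1, Finset.sum_add_distrib]
  congr 1
  have := Finset.sum_Ico_sub (fun i => (f i).arg) hm
  rw [← this]

/-- a point near `1` has a small argument -/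
theorem abs_arg_le {z : ℂ} (h : ‖z - 1‖ < 1) : |z.arg| ≤ Real.pi / 2 * ‖z - 1‖ ∧ |z.arg| < Real.pi / 2 ∧ z ≠ 0 := by
  have hre : 0 < z.re := by
    have h1 := (abs_lt.1 (lt_of_le_of_lt (Complex.abs_re_le_norm (z - 1)) h)).1
    simp only [sub_re, one_re] at h1
    linarith
  have hz : z ≠ 0 := by
    rintro rfl
    simp at hre
  have h2 : |z.arg| < Real.pi / 2 := Complex.abs_arg_lt_pi_div_two_iff.2 (Or.inl hre)
  refine ⟨?_, h2, hz⟩
  have h3 : |Real.sin z.arg| ≤ ‖z - 1‖ := by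
    have e : ‖z - 1‖ ^ 2 = (‖z‖ - Real.cos z.arg) ^ 2 + Real.sin z.arg ^ 2 := by
      have e1 : ‖z - 1‖ ^ 2 = (z.re - 1) ^ 2 + z.im ^ 2 := by
        rw [Complex.sq_norm, Complex.normSq_apply]
        simp only [sub_re, one_re, sub_im, one_im, sub_zero]
        ring
      have e2 : ‖z‖ * Real.cos z.arg = z.re := Complex.norm_mul_cos_arg z
      have e3 : ‖z‖ * Real.sin z.arg = z.im := Complex.norm_mul_sin_arg z
      have e4 := Real.sin_sq_add_cos_sq z.arg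
      rw [e1, ← e2, ← e3]
      linear_combination (‖z‖ ^ 2 - 1) * e4
    have h4 : |Real.sin z.arg| ^ 2 ≤ ‖z - 1‖ ^ 2 := by
      rw [sq_abs, e]
      nlinarith [sq_nonneg (‖z‖ - Real.cos z.arg)]
    exact abs_le_of_sq_le_sq h4 (norm_nonneg _) |>.trans' (le_abs_self _)
  have h5 : 2 / Real.pi * |z.arg| ≤ |Real.sin z.arg| := by
    have := Real.mul_abs_le_abs_sin h2.le
    linarith
  have hpi := Real.pi_pos
  have h6 := h5.trans h3
  rw [div_mul_eq_mul_div, div_le_iff₀ hpi] at h6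
  linarith

theorem abs_arg_near_one {z : ℂ} (h : ‖z - 1‖ ≤ 1 / 2) : |z.arg| ≤ Real.pi / 4 ∧ z ≠ 0 := by
  obtain ⟨h1, -, h3⟩ := abs_arg_le (lt_of_le_of_lt h (by norm_num))
  refine ⟨h1.trans ?_, h3⟩
  have := Real.pi_pos
  nlinarith

/-- **(1')** near one end: the two windings differ by at most `π / 2` -/
theorem turn_near_f {u v f : ℕ → ℂ} {m m' : ℕ} (hm : m ≤ m') (hu : ∀ i, m ≤ i → i ≤ m' → u i = v i * f i)
    (hv : ∀ i, m ≤ i → i ≤ m' → v i ≠ 0) (hf : ∀ i, m ≤ i → i ≤ m' → ‖f i - 1‖ ≤ 1 / 2)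
    (h : ∀ i, m ≤ i → i < m' → |(v (i + 1) / v i).arg| < Real.pi / 2) :
    |turn u m m' - turn v m m'| ≤ Real.pi / 2 := by
  have e := turn_mul_f hm hu hv (fun i h1 h2 => (abs_arg_near_one (hf i h1 h2)).2) (fun i h1 h2 => by
    have a1 := (abs_arg_near_one (hf i h1 h2.le)).1
    have a2 := (abs_arg_near_one (hf (i + 1) (by omega) (by omega))).1
    have a3 := abs_sub (f (i + 1)).arg (f i).arg
    have a4 := h i h1 h2
    linarith)
  rw [e, add_sub_cancel_left]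
  have a1 := (abs_arg_near_one (hf m le_rfl hm)).1
  have a2 := (abs_arg_near_one (hf m' hm le_rfl)).1
  have a3 := abs_sub (f m').arg (f m).arg
  linarith

/-- the same for one step -/
theorem step_near_f {u v f : ℕ → ℂ} {m m' : ℕ} (hu : ∀ i, m ≤ i → i ≤ m' → u i = v i * f i)
    (hv : ∀ i, m ≤ i → i ≤ m' → v i ≠ 0) (hf : ∀ i, m ≤ i → i ≤ m' → ‖f i - 1‖ ≤ 1 / 2)
    (h : ∀ i, m ≤ i → i < m' → |(v (i + 1) / v i).arg| < Real.pi / 2) :
    ∀ i, m ≤ i → i < m' → |(u (i + 1) / u i).arg| < Real.pi := by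
  intro i h1 h2
  have v0 := hv i h1 h2.le
  have v1 := hv (i + 1) (by omega) (by omega)
  obtain ⟨a1, f0⟩ := abs_arg_near_one (hf i h1 h2.le)
  obtain ⟨a2, f1⟩ := abs_arg_near_one (hf (i + 1) (by omega) (by omega))
  have a3 := abs_sub (f (i + 1)).arg (f i).arg
  have a4 := h i h1 h2
  have e : u (i + 1) / u i = v (i + 1) / v i * (f (i + 1) / f i) := by
    rw [hu i h1 h2.le, hu (i + 1) (by omega) (by omega)]
    field_simp
  rw [e, arg_mul_of_add_lt (div_ne_zero v1 v0) (div_ne_zero f1 f0) (arg_quot_f f0 f1) (by linarith)]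
  have a5 := abs_add_le (v (i + 1) / v i).arg ((f (i + 1)).arg - (f i).arg)
  linarith

/-- **(1'')** a short piece: the sum is the argument of the total quotient -/
theorem turn_piece {u : ℕ → ℂ} {m m' : ℕ} (hm : m ≤ m') (h0 : u m ≠ 0)
    (h : ∀ i, m ≤ i → i ≤ m' → ‖u i / u m - 1‖ ≤ 1 / 2) :
    |turn u m m'| ≤ Real.pi / 4 := by
  have e := turn_mul_f (u := u) (v := fun _ => u m) (f := fun i => u i / u m) hm
    (fun i _ _ => by field_simp) (fun i _ _ => h0) (fun i h1 h2 => (abs_arg_near_one (h i h1 h2)).2)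
    (fun i h1 h2 => by
      have a1 := (abs_arg_near_one (h i h1 h2.le)).1
      have a2 := (abs_arg_near_one (h (i + 1) (by omega) (by omega))).1
      have a3 := abs_sub (u (i + 1) / u m).arg (u i / u m).arg
      have := Real.pi_pos
      rw [div_self h0, Complex.arg_one, abs_zero, zero_add]
      linarith)
  have e0 : turn (fun _ => u m) m m' = 0 := by
    unfold turn
    simp only [div_self h0, Complex.arg_one, Finset.sum_const_zero]
  rw [e0, div_self h0, Complex.arg_one, zero_add, sub_zero] at e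
  rw [e]
  exact (abs_arg_near_one (h m' hm le_rfl)).1

/-- the inverse coordinate turns the other way -/
theorem turn_inv {u : ℕ → ℂ} {m m' : ℕ} (h : ∀ i, m ≤ i → i < m' → (u (i + 1) / u i).arg ≠ Real.pi) :
    turn (fun i => (u i)⁻¹) m m' = -turn u m m' := by
  unfold turn
  rw [← Finset.sum_neg_distrib]
  refine Finset.sum_congr rfl fun i hi => ?_
  rw [Finset.mem_Ico] at hi
  have e : (u (i + 1))⁻¹ / (u i)⁻¹ = (u (i + 1) / u i)⁻¹ := by
    rw [inv_div_inv, ← inv_div]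
  rw [e, Complex.arg_inv, if_neg (h i hi.1 hi.2)]

/-- a step shorter than the distance -/
theorem arg_step_c {z z' : ℂ} (h : ‖z' - z‖ < ‖z‖) : |(z' / z).arg| < Real.pi / 2 := by
  have hz : z ≠ 0 := by
    rintro rfl
    simp at h
    exact absurd h (not_lt.2 (norm_nonneg _))
  refine (abs_arg_le ?_).2.1
  have e : z' / z - 1 = (z' - z) / z := by field_simp
  rw [e, norm_div, div_lt_one (norm_pos_iff.2 hz)]
  exact h

/-! ### the hyperbolic tangent -/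

theorem exp_two {w : ℂ} (h : ‖w‖ ≤ 1) : ‖Complex.exp w - 1 - w - w ^ 2 / 2‖ ≤ 2 / 9 * ‖w‖ ^ 3 := by
  have h1 := Complex.exp_bound h (n := 3) (by norm_num)
  simp only [Finset.sum_range_succ, Finset.sum_range_zero, Nat.factorial, pow_zero, pow_one, Nat.cast_one, div_one,
    zero_add, Nat.succ_eq_add_one] at h1
  norm_num at h1
  have e : Complex.exp w - (1 + w + w ^ 2 / 2) = Complex.exp w - 1 - w - w ^ 2 / 2 := by ring
  rw [e] at h1
  linarith

theorem norm_sinh_sub {w : ℂ} (h : ‖w‖ ≤ 1) : ‖Complex.sinh w - w‖ ≤ 2 / 9 * ‖w‖ ^ 3 := by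
  have h1 := exp_two h
  have h2 := exp_two (w := -w) (by rwa [norm_neg])
  rw [norm_neg] at h2
  have e : Complex.sinh w - w = ((Complex.exp w - 1 - w - w ^ 2 / 2) -
      (Complex.exp (-w) - 1 - -w - (-w) ^ 2 / 2)) / 2 := by
    rw [Complex.sinh]
    ring
  rw [e, norm_div]
  have h3 := norm_sub_le (Complex.exp w - 1 - w - w ^ 2 / 2) (Complex.exp (-w) - 1 - -w - (-w) ^ 2 / 2)
  have h4 : ‖(2 : ℂ)‖ = 2 := by norm_num
  rw [h4]
  linarith

theorem norm_cosh_sub_one {w : ℂ} (h : ‖w‖ ≤ 1) : ‖Complex.cosh w - 1‖ ≤ ‖w‖ ^ 2 := by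
  have h1 := Complex.norm_exp_sub_one_sub_id_le h
  have h2 := Complex.norm_exp_sub_one_sub_id_le (x := -w) (by rwa [norm_neg])
  rw [norm_neg] at h2
  have e : Complex.cosh w - 1 = ((Complex.exp w - 1 - w) + (Complex.exp (-w) - 1 - -w)) / 2 := by
    rw [Complex.cosh]
    ring
  rw [e, norm_div]
  have h3 := norm_add_le (Complex.exp w - 1 - w) (Complex.exp (-w) - 1 - -w)
  have h4 : ‖(2 : ℂ)‖ = 2 := by norm_num
  rw [h4]
  linarith

theorem norm_cosh_ge {w : ℂ} (h : ‖w‖ ≤ 1 / 2) : 3 / 4 ≤ ‖Complex.cosh w‖ := by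
  have h1 := norm_cosh_sub_one (w := w) (by linarith)
  have h2 := norm_sub_norm_le (1 : ℂ) (1 - Complex.cosh w)
  rw [norm_one, sub_sub_cancel, norm_sub_rev] at h2
  have h3 := norm_nonneg w
  nlinarith

/-- **(2)** near the end -/
theorem tanh_near {w : ℂ} (h0 : w ≠ 0) (h : ‖w‖ ≤ 1 / 2) : ‖Complex.tanh w / w - 1‖ ≤ 2 * ‖w‖ ^ 2 := by
  have hc := norm_cosh_ge h
  have hc0 : Complex.cosh w ≠ 0 := by
    intro e
    rw [e, norm_zero] at hc
    linarith
  have hw : 0 < ‖w‖ := norm_pos_iff.2 h0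
  have e : Complex.tanh w / w - 1 = ((Complex.sinh w - w) - w * (Complex.cosh w - 1)) / (w * Complex.cosh w) := by
    rw [Complex.tanh_eq_sinh_div_cosh]
    field_simp
    ring
  rw [e, norm_div, norm_mul, div_le_iff₀ (by positivity)]
  have h1 := norm_sinh_sub (w := w) (by linarith)
  have h2 := norm_cosh_sub_one (w := w) (by linarith)
  have h3 := norm_sub_le (Complex.sinh w - w) (w * (Complex.cosh w - 1))
  rw [norm_mul] at h3
  have h4 : ‖w‖ * ‖Complex.cosh w - 1‖ ≤ ‖w‖ * ‖w‖ ^ 2 := mul_le_mul_of_nonneg_left h2 hw.le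
  have h5 : 2 * ‖w‖ ^ 2 * (‖w‖ * (3 / 4)) ≤ 2 * ‖w‖ ^ 2 * (‖w‖ * ‖Complex.cosh w‖) := by gcongr
  nlinarith [pow_pos hw 3]

theorem tanh_near_half {w : ℂ} (h0 : w ≠ 0) (h : ‖w‖ ≤ 1 / 2) : ‖Complex.tanh w / w - 1‖ ≤ 1 / 2 := by
  have := tanh_near h0 h
  have h2 := norm_nonneg w
  nlinarith

theorem norm_sinh_sq (y : ℂ) : ‖Complex.sinh y‖ ^ 2 = Real.sinh y.re ^ 2 + Real.sin y.im ^ 2 := by
  have e : Complex.sinh y = ((Real.sinh y.re * Real.cos y.im : ℝ) : ℂ) +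
      ((Real.cosh y.re * Real.sin y.im : ℝ) : ℂ) * I := by
    conv_lhs => rw [← Complex.re_add_im y]
    rw [Complex.sinh_add, Complex.cosh_mul_I, Complex.sinh_mul_I]
    push_cast
    ring
  rw [e, Complex.sq_norm, Complex.normSq_add_mul_I]
  have h1 := Real.cosh_sq y.re
  have h2 := Real.sin_sq_add_cos_sq y.im
  rw [mul_pow, mul_pow, h1]
  linear_combination (Real.sinh y.re ^ 2) * h2

theorem norm_sinh_ge {y : ℂ} {δ : ℝ} (hδ : 0 ≤ δ) (h : ∀ n : ℤ, δ ≤ ‖y - (n * Real.pi : ℝ) * I‖) :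
    2 / Real.pi * δ ≤ ‖Complex.sinh y‖ := by
  have hpi := Real.pi_pos
  have hpi2 := Real.pi_gt_three
  set n : ℤ := round (y.im / Real.pi) with hn
  set t : ℝ := y.im - n * Real.pi with ht
  have h1 : |t| ≤ Real.pi / 2 := by
    have h2 := abs_sub_round (y.im / Real.pi)
    rw [← hn] at h2
    have e : t = (y.im / Real.pi - n) * Real.pi := by
      rw [ht]
      field_simp
    rw [e, abs_mul, abs_of_pos hpi]
    nlinarith
  have h3 : Real.sin y.im ^ 2 = Real.sin t ^ 2 := by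
    rw [ht, Real.sin_sub_int_mul_pi]
    rcases Int.even_or_odd n with hh | hh
    · rw [hh.neg_one_zpow, one_mul]
    · rw [hh.neg_one_zpow]
      ring
  have h4 : (2 / Real.pi * t) ^ 2 ≤ Real.sin t ^ 2 := by
    have h5 := Real.mul_abs_le_abs_sin h1
    have h6 : 0 ≤ 2 / Real.pi * |t| := by positivity
    have h7 := pow_le_pow_left₀ h6 h5 2
    rw [sq_abs, mul_pow, sq_abs, ← mul_pow] at h7
    exact h7
  have h5 : (2 / Real.pi * y.re) ^ 2 ≤ Real.sinh y.re ^ 2 := by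
    have h6 : |y.re| ≤ |Real.sinh y.re| := by
      rcases le_total 0 y.re with h0 | h0
      · rw [abs_of_nonneg h0, abs_of_nonneg (Real.sinh_nonneg_iff.2 h0)]
        exact Real.self_le_sinh_iff.2 h0
      · rw [abs_of_nonpos h0, abs_of_nonpos (Real.sinh_nonpos_iff.2 h0)]
        have := Real.sinh_le_self_iff.2 h0
        linarith
    have h7 : (2 / Real.pi) ≤ 1 := by
      rw [div_le_one hpi]
      linarith
    have h8 := pow_le_pow_left₀ (abs_nonneg _) h6 2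
    rw [sq_abs, sq_abs] at h8
    rw [mul_pow]
    have h9 : (2 / Real.pi) ^ 2 ≤ 1 := pow_le_one₀ (by positivity) h7
    nlinarith [sq_nonneg y.re]
  have h6 := h n
  have h7 : ‖y - (n * Real.pi : ℝ) * I‖ ^ 2 = y.re ^ 2 + t ^ 2 := by
    rw [Complex.sq_norm, Complex.normSq_apply]
    simp only [sub_re, mul_re, ofReal_re, I_re, mul_zero, ofReal_im, I_im, mul_one, sub_self, sub_zero, sub_im, mul_im,
      add_zero]
    rw [ht]
    ring
  have h8 : (2 / Real.pi * δ) ^ 2 ≤ ‖Complex.sinh y‖ ^ 2 := by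
    rw [norm_sinh_sq, h3]
    have h9 : δ ^ 2 ≤ y.re ^ 2 + t ^ 2 := by
      rw [← h7]
      exact pow_le_pow_left₀ hδ h6 2
    have h10 : (2 / Real.pi * δ) ^ 2 ≤ (2 / Real.pi) ^ 2 * (y.re ^ 2 + t ^ 2) := by
      rw [mul_pow]
      exact mul_le_mul_of_nonneg_left h9 (by positivity)
    rw [mul_pow] at h4 h5
    linarith
  exact abs_le_of_sq_le_sq' h8 (norm_nonneg _) |>.2

theorem norm_cosh_ge' {x : ℂ} {δ : ℝ} (hδ : 0 ≤ δ) (h : ∀ n : ℤ, δ ≤ ‖x - ((n + 1 / 2) * Real.pi : ℝ) * I‖) :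
    2 / Real.pi * δ ≤ ‖Complex.cosh x‖ := by
  have e : Complex.cosh x = -I * Complex.sinh (x + (Real.pi / 2 : ℝ) * I) := by
    rw [Complex.sinh_add, Complex.sinh_mul_I, Complex.cosh_mul_I]
    push_cast
    rw [Complex.sin_pi_div_two, Complex.cos_pi_div_two]
    linear_combination (Complex.cosh x) * Complex.I_sq
  rw [e, norm_mul, norm_neg, Complex.norm_I, one_mul]
  refine norm_sinh_ge hδ fun n => ?_
  have h1 := h (n - 1)
  have e2 : x + (Real.pi / 2 : ℝ) * I - (n * Real.pi : ℝ) * I = x - (((n - 1 : ℤ) + 1 / 2) * Real.pi : ℝ) * I := by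
    push_cast
    ring
  rw [e2]
  exact h1

theorem tanh_quot {x y : ℂ} (hx : Complex.cosh x ≠ 0) (hs : Complex.sinh y ≠ 0) :
    Complex.tanh x / Complex.tanh y - 1 = Complex.sinh (x - y) / (Complex.cosh x * Complex.sinh y) := by
  rw [Complex.tanh_eq_sinh_div_cosh, Complex.tanh_eq_sinh_div_cosh, Complex.sinh_sub,
    div_div_div_eq, div_sub_one (mul_ne_zero hx hs)]

theorem norm_sinh_le {w : ℂ} (h : ‖w‖ ≤ 1) : ‖Complex.sinh w‖ ≤ 11 / 9 * ‖w‖ := by
  have h1 := norm_sinh_sub h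
  have h2 := norm_add_le (Complex.sinh w - w) w
  rw [sub_add_cancel] at h2
  have h3 := norm_nonneg w
  have h4 : ‖w‖ ^ 3 ≤ ‖w‖ := by
    have : ‖w‖ ^ 2 ≤ 1 := pow_le_one₀ h3 h
    nlinarith
  linarith

/-- **(3)** away from the two ends -/
theorem tanh_far {x y : ℂ} {δ : ℝ} (h0 : 0 < δ) (h1 : δ ≤ 1) (hy : ∀ n : ℤ, δ ≤ ‖y - (n * Real.pi : ℝ) * I‖)
    (hx : ∀ n : ℤ, δ ≤ ‖x - ((n + 1 / 2) * Real.pi : ℝ) * I‖) (h : ‖x - y‖ ≤ δ ^ 2 / 7) :
    Complex.tanh y ≠ 0 ∧ ‖Complex.tanh x / Complex.tanh y - 1‖ ≤ 1 / 2 := by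
  have hpi := Real.pi_pos
  have hs := norm_sinh_ge h0.le hy
  have hc := norm_cosh_ge' h0.le hx
  have hc' : 2 / Real.pi * (δ - δ ^ 2 / 7) ≤ ‖Complex.cosh y‖ := by
    refine norm_cosh_ge' (by nlinarith) fun n => ?_
    have e : x - ((n + 1 / 2) * Real.pi : ℝ) * I = (x - y) + (y - ((n + 1 / 2) * Real.pi : ℝ) * I) := by ring
    have h2 := norm_add_le (x - y) (y - ((n + 1 / 2) * Real.pi : ℝ) * I)
    rw [← e] at h2
    have h3 := hx n
    linarith
  have p1 : 0 < 2 / Real.pi * δ := by positivity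
  have p2 : 0 < 2 / Real.pi * (δ - δ ^ 2 / 7) := mul_pos (by positivity) (by nlinarith)
  have hs0 : Complex.sinh y ≠ 0 := norm_pos_iff.1 (lt_of_lt_of_le p1 hs)
  have hc0 : Complex.cosh x ≠ 0 := norm_pos_iff.1 (lt_of_lt_of_le p1 hc)
  have hc1 : Complex.cosh y ≠ 0 := norm_pos_iff.1 (lt_of_lt_of_le p2 hc')
  refine ⟨by rw [Complex.tanh_eq_sinh_div_cosh]; exact div_ne_zero hs0 hc1, ?_⟩
  have hd : ‖x - y‖ ≤ 1 := h.trans (by nlinarith)
  have h3 := norm_sinh_le hd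
  have h4 : 2 / Real.pi * δ * (2 / Real.pi * δ) ≤ ‖Complex.cosh x‖ * ‖Complex.sinh y‖ :=
    mul_le_mul hc hs p1.le (norm_nonneg _)
  have h5 : (2 : ℝ) / 5 ≤ 2 / Real.pi * (2 / Real.pi) := by
    rw [div_mul_div_comm, div_le_div_iff₀ (by norm_num) (by positivity)]
    nlinarith [Real.pi_lt_d2, Real.pi_gt_d2]
  have h6 : 2 / 5 * δ ^ 2 ≤ 2 / Real.pi * δ * (2 / Real.pi * δ) := by
    have : 2 / Real.pi * δ * (2 / Real.pi * δ) = 2 / Real.pi * (2 / Real.pi) * δ ^ 2 := by ring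
    rw [this]
    exact mul_le_mul_of_nonneg_right h5 (by positivity)
  rw [tanh_quot hc0 hs0, norm_div, norm_mul, div_le_iff₀ (by positivity)]
  have h7 : 0 < δ ^ 2 := by positivity
  linarith

/-! ### the coordinate of the cylinder -/

theorem tanh_eq_exp (w : ℂ) : Complex.tanh w = (Complex.exp (2 * w) - 1) / (Complex.exp (2 * w) + 1) := by
  have h : (2 * Complex.exp w) ≠ 0 := mul_ne_zero two_ne_zero (Complex.exp_ne_zero w)
  have h1 : Complex.exp w * Complex.exp (-w) = 1 := by rw [← Complex.exp_add, add_neg_cancel, Complex.exp_zero]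
  rw [Complex.tanh_eq_sinh_div_cosh, ← mul_div_mul_left _ _ h, Complex.sinh, Complex.cosh, two_mul w, Complex.exp_add]
  congr 1
  · linear_combination -h1
  · linear_combination h1

/-- `a = π / (2 √3 k)` -/
noncomputable def aC (k : ℕ) : ℝ := Real.pi / (2 * √3 * k)

theorem aC_pos {k : ℕ} (hk : 1 ≤ k) : 0 < aC k := by
  have : (0 : ℝ) < k := by exact_mod_cast hk
  unfold aC
  positivity

/-- `ph = tanh (a Z)` for every lift `Z` of the position -/
theorem ph_tanh {k : ℕ} (hk : 1 ≤ k) (v : Pool.Agent.CylSaw.V (2 * k)) (n : ℤ) :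
    Pool.Agent.CylSaw.ph k v = Complex.tanh ((aC k : ℂ) * ((Pool.Agent.CylSaw.px v : ℂ) +
      ((Pool.Agent.CylSaw.py v + 2 * √3 * k * n : ℝ) : ℂ) * I)) := by
  have hk' : (k : ℂ) ≠ 0 := by
    have : k ≠ 0 := by omega
    exact_mod_cast this
  have h3 : ((√3 : ℝ) : ℂ) ≠ 0 := by
    have : (√3 : ℝ) ≠ 0 := by positivity
    exact_mod_cast this
  rw [tanh_eq_exp, Pool.Agent.CylSaw.ph]
  have e : Pool.Agent.CylSaw.pz k v = Complex.exp (2 * ((aC k : ℂ) * ((Pool.Agent.CylSaw.px v : ℂ) +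
      ((Pool.Agent.CylSaw.py v + 2 * √3 * k * n : ℝ) : ℂ) * I))) := by
    rw [Pool.Agent.CylSaw.pz]
    have e2 : 2 * ((aC k : ℂ) * ((Pool.Agent.CylSaw.px v : ℂ) +
        ((Pool.Agent.CylSaw.py v + 2 * √3 * k * n : ℝ) : ℂ) * I)) =
        ((Real.pi / (√3 * k) : ℝ) : ℂ) * ((Pool.Agent.CylSaw.px v : ℂ) + (Pool.Agent.CylSaw.py v : ℂ) * I) +
          n * (2 * Real.pi * I) := by
      unfold aC
      push_cast
      field_simp
      ring
    rw [e2, Complex.exp_add, Complex.exp_int_mul_two_pi_mul_I, mul_one]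
  rw [e]

/-- the sum of the public definition -/
theorem ang_turn {k n : ℕ} (w : Fin (n + 1) → Pool.Agent.CylSaw.V (2 * k)) (u : ℕ → ℂ)
    (hu : ∀ i : Fin (n + 1), u i = Pool.Agent.CylSaw.ph k (w i)) : Pool.Agent.CylSaw.ang k n w = turn u 0 n := by
  unfold Pool.Agent.CylSaw.ang turn
  rw [← Finset.range_eq_Ico, Finset.sum_range]
  refine Finset.sum_congr rfl fun i _ => ?_
  rw [← hu, ← hu]
  rfl

/-- the lifts of the first end -/
noncomputable def e1 (k : ℕ) (n : ℤ) : ℂ := ((2 * √3 * k * n : ℝ) : ℂ) * I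

/-- the lifts of the second end -/
noncomputable def e2 (k : ℕ) (n : ℤ) : ℂ := ((√3 * k * (2 * n + 1) : ℝ) : ℂ) * I

theorem a_e1 {k : ℕ} (hk : 1 ≤ k) (n : ℤ) : (aC k : ℂ) * e1 k n = ((n * Real.pi : ℝ) : ℂ) * I := by
  have hk' : (k : ℂ) ≠ 0 := by
    have : k ≠ 0 := by omega
    exact_mod_cast this
  have h3 : ((√3 : ℝ) : ℂ) ≠ 0 := by
    have : (√3 : ℝ) ≠ 0 := by positivity
    exact_mod_cast this
  unfold aC e1
  push_cast
  field_simp

theorem a_e2 {k : ℕ} (hk : 1 ≤ k) (n : ℤ) : (aC k : ℂ) * e2 k n = (((n + 1 / 2) * Real.pi : ℝ) : ℂ) * I := by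
  have hk' : (k : ℂ) ≠ 0 := by
    have : k ≠ 0 := by omega
    exact_mod_cast this
  have h3 : ((√3 : ℝ) : ℂ) ≠ 0 := by
    have : (√3 : ℝ) ≠ 0 := by positivity
    exact_mod_cast this
  unfold aC e2
  push_cast
  field_simp

theorem exp_two_int (n : ℤ) : Complex.exp (2 * (((n * Real.pi : ℝ) : ℂ) * I)) = 1 := by
  have e : 2 * (((n * Real.pi : ℝ) : ℂ) * I) = n * (2 * Real.pi * I) := by
    push_cast
    ring
  rw [e, Complex.exp_int_mul_two_pi_mul_I]

theorem exp_two_half (n : ℤ) : Complex.exp (2 * ((((n + 1 / 2) * Real.pi : ℝ) : ℂ) * I)) = -1 := by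
  have e : 2 * ((((n + 1 / 2) * Real.pi : ℝ) : ℂ) * I) = Real.pi * I + n * (2 * Real.pi * I) := by
    push_cast
    ring
  rw [e, Complex.exp_add, Complex.exp_int_mul_two_pi_mul_I, mul_one, Complex.exp_pi_mul_I]

/-- the period -/
theorem tanh_e1 {k : ℕ} (hk : 1 ≤ k) (n : ℤ) (Z : ℂ) :
    Complex.tanh (aC k * Z) = Complex.tanh (aC k * (Z - e1 k n)) := by
  rw [mul_sub, a_e1 hk, tanh_eq_exp, tanh_eq_exp (_ - _), mul_sub, Complex.exp_sub, exp_two_int, div_one]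

/-- the half period: the inverse coordinate -/
theorem tanh_e2 {k : ℕ} (hk : 1 ≤ k) (n : ℤ) (Z : ℂ) :
    Complex.tanh (aC k * Z) = (Complex.tanh (aC k * (Z - e2 k n)))⁻¹ := by
  rw [mul_sub, a_e2 hk, tanh_eq_exp, tanh_eq_exp (_ - _), mul_sub, Complex.exp_sub, exp_two_half, inv_div, div_neg,
    div_one, ← neg_div_neg_eq]
  congr 1 <;> ring

/-- the radius of the two ends -/
theorem aC_mul_le {k : ℕ} (hk : 1 ≤ k) {r : ℝ} (h : r ≤ k / 2) : aC k * r ≤ 1 / 2 := by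
  have ha := aC_pos hk
  have hk' : (0 : ℝ) < k := by exact_mod_cast hk
  have h3 : aC k * k ≤ 1 := by
    unfold aC
    rw [div_mul_eq_mul_div, div_le_one (by positivity)]
    have h4 : (1.7 : ℝ) ≤ √3 := Real.le_sqrt_of_sq_le (by norm_num)
    have h5 := Real.pi_lt_d2
    nlinarith
  have h6 := mul_le_mul_of_nonneg_left h ha.le
  linarith

/-- the turning of `tanh (a V)` against the turning of `V` -/
theorem turn_tanh {k : ℕ} (hk : 1 ≤ k) {V : ℕ → ℂ} {m m' : ℕ} (hm : m ≤ m') (hne : ∀ i, m ≤ i → i ≤ m' → V i ≠ 0)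
    (hb : ∀ i, m ≤ i → i ≤ m' → ‖V i‖ ≤ k / 2)
    (h : ∀ i, m ≤ i → i < m' → ‖V (i + 1) - V i‖ ^ 2 < ‖V i‖ ^ 2 + ‖V (i + 1)‖ ^ 2) :
    |turn (fun i => Complex.tanh (aC k * V i)) m m' - turn V m m'| ≤ Real.pi / 2 ∧
      ∀ i, m ≤ i → i < m' → |(Complex.tanh (aC k * V (i + 1)) / Complex.tanh (aC k * V i)).arg| < Real.pi := by
  have ha := aC_pos hk
  have ha0 : (aC k : ℂ) ≠ 0 := by exact_mod_cast ha.ne'
  rw [← turn_smul (z := V) ha0]
  have hw0 : ∀ i, m ≤ i → i ≤ m' → (aC k : ℂ) * V i ≠ 0 := fun i h1 h2 => mul_ne_zero ha0 (hne i h1 h2)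
  have h1 : ∀ i, m ≤ i → i ≤ m' → Complex.tanh (aC k * V i) =
      (aC k : ℂ) * V i * (Complex.tanh (aC k * V i) / (aC k * V i)) := fun i h1 h2 => by
    rw [mul_div_cancel₀ _ (hw0 i h1 h2)]
  have h2 : ∀ i, m ≤ i → i ≤ m' → ‖Complex.tanh (aC k * V i) / (aC k * V i) - 1‖ ≤ 1 / 2 := fun i h1 h2 => by
    refine tanh_near_half (hw0 i h1 h2) ?_
    rw [norm_mul, Complex.norm_real, Real.norm_of_nonneg ha.le]
    exact aC_mul_le hk (hb i h1 h2)
  have h3 : ∀ i, m ≤ i → i < m' → |((aC k : ℂ) * V (i + 1) / (aC k * V i)).arg| < Real.pi / 2 := fun i h1 h2 => by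
    rw [mul_div_mul_left _ _ ha0]
    exact arg_step (h i h1 h2) (hne i h1 h2.le)
  exact ⟨turn_near_f (f := fun i => Complex.tanh (aC k * V i) / (aC k * V i)) hm h1 hw0 h2 h3,
    step_near_f (f := fun i => Complex.tanh (aC k * V i) / (aC k * V i)) h1 hw0 h2 h3⟩

/-- **near the first end**: the turning of `ph` differs from the turning around the end by at most `π / 2`. -/
theorem turn_e1 {k : ℕ} (hk : 1 ≤ k) (n : ℤ) {Z : ℕ → ℂ} {m m' : ℕ} (hm : m ≤ m')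
    (hne : ∀ i, m ≤ i → i ≤ m' → Z i ≠ e1 k n) (hb : ∀ i, m ≤ i → i ≤ m' → ‖Z i - e1 k n‖ ≤ k / 2)
    (h : ∀ i, m ≤ i → i < m' → ‖Z (i + 1) - Z i‖ ^ 2 < ‖Z i - e1 k n‖ ^ 2 + ‖Z (i + 1) - e1 k n‖ ^ 2) :
    |turn (fun i => Complex.tanh (aC k * Z i)) m m' - turn (fun i => Z i - e1 k n) m m'| ≤ Real.pi / 2 := by
  have h1 := (turn_tanh hk (V := fun i => Z i - e1 k n) hm (fun i h1 h2 => sub_ne_zero.2 (hne i h1 h2)) hb
    (fun i h1 h2 => by
      rw [sub_sub_sub_cancel_right]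
      exact h i h1 h2)).1
  rw [turn_congr (z := fun i => Complex.tanh (aC k * Z i)) (v := fun i => Complex.tanh (aC k * (Z i - e1 k n)))
    (fun i _ _ => tanh_e1 hk n (Z i))]
  exact h1

/-- **near the second end**: the turning of `ph` is minus the turning around the end up to `π / 2`. -/
theorem turn_e2 {k : ℕ} (hk : 1 ≤ k) (n : ℤ) {Z : ℕ → ℂ} {m m' : ℕ} (hm : m ≤ m')
    (hne : ∀ i, m ≤ i → i ≤ m' → Z i ≠ e2 k n) (hb : ∀ i, m ≤ i → i ≤ m' → ‖Z i - e2 k n‖ ≤ k / 2)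
    (h : ∀ i, m ≤ i → i < m' → ‖Z (i + 1) - Z i‖ ^ 2 < ‖Z i - e2 k n‖ ^ 2 + ‖Z (i + 1) - e2 k n‖ ^ 2) :
    |turn (fun i => Complex.tanh (aC k * Z i)) m m' + turn (fun i => Z i - e2 k n) m m'| ≤ Real.pi / 2 := by
  obtain ⟨h1, h2⟩ := turn_tanh hk (V := fun i => Z i - e2 k n) hm (fun i h1 h2 => sub_ne_zero.2 (hne i h1 h2)) hb
    (fun i h1 h2 => by
      rw [sub_sub_sub_cancel_right]
      exact h i h1 h2)
  rw [turn_congr (z := fun i => Complex.tanh (aC k * Z i)) (v := fun i => (Complex.tanh (aC k * (Z i - e2 k n)))⁻¹)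
    (fun i _ _ => tanh_e2 hk n (Z i)), turn_inv (fun i h3 h4 => by
      have h5 := h2 i h3 h4
      rw [abs_lt] at h5
      exact h5.2.ne), neg_add_eq_sub, abs_sub_comm]
  exact h1

/-- **away from the ends**: a piece of diameter `≤ ρ ^ 2 k / 8` turns by at most `π / 4`. -/
theorem turn_far {k : ℕ} (hk : 1 ≤ k) {ρ : ℝ} (h0 : 0 < ρ) (h1 : ρ ≤ 1) {Z : ℕ → ℂ} {m m' : ℕ} (hm : m ≤ m')
    (hf1 : ∀ (n : ℤ), ρ * k ≤ ‖Z m - e1 k n‖) (hf2 : ∀ i, m ≤ i → i ≤ m' → ∀ (n : ℤ), ρ * k ≤ ‖Z i - e2 k n‖)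
    (h : ∀ i, m ≤ i → i ≤ m' → ‖Z i - Z m‖ ≤ ρ ^ 2 * k / 8) :
    |turn (fun i => Complex.tanh (aC k * Z i)) m m'| ≤ Real.pi / 4 := by
  have ha := aC_pos hk
  have hk' : (0 : ℝ) < k := by exact_mod_cast hk
  have hak : aC k * k = Real.pi / (2 * √3) := by
    unfold aC
    field_simp
  have s3 : (√3 : ℝ) ^ 2 = 3 := Real.sq_sqrt (by norm_num)
  have b1 : (1.73 : ℝ) ≤ √3 := Real.le_sqrt_of_sq_le (by norm_num)
  have b2 : √3 ≤ (1.733 : ℝ) := Real.sqrt_le_iff.2 ⟨by norm_num, by norm_num⟩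
  have p1 := Real.pi_lt_d2
  have p2 := Real.pi_gt_d2
  have c1 : aC k * k ≤ 1 := by
    rw [hak, div_le_one (by positivity)]
    linarith
  have c2 : (0.9 : ℝ) ≤ aC k * k := by
    rw [hak, le_div_iff₀ (by positivity)]
    linarith
  set δ : ℝ := aC k * (ρ * k) with hδ
  have hδ1 : δ = aC k * k * ρ := by rw [hδ]; ring
  have d0 : 0 < δ := by positivity
  have d1 : δ ≤ 1 := by rw [hδ1]; nlinarith
  have hy : ∀ n : ℤ, δ ≤ ‖(aC k : ℂ) * Z m - (n * Real.pi : ℝ) * I‖ := fun n => by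
    rw [← a_e1 hk, ← mul_sub, norm_mul, Complex.norm_real, Real.norm_of_nonneg ha.le]
    exact mul_le_mul_of_nonneg_left (hf1 n) ha.le
  have hx : ∀ i, m ≤ i → i ≤ m' → ∀ n : ℤ, δ ≤ ‖(aC k : ℂ) * Z i - ((n + 1 / 2) * Real.pi : ℝ) * I‖ :=
    fun i h2 h3 n => by
      rw [← a_e2 hk, ← mul_sub, norm_mul, Complex.norm_real, Real.norm_of_nonneg ha.le]
      exact mul_le_mul_of_nonneg_left (hf2 i h2 h3 n) ha.le
  have hd : ∀ i, m ≤ i → i ≤ m' → ‖(aC k : ℂ) * Z i - aC k * Z m‖ ≤ δ ^ 2 / 7 := fun i h2 h3 => by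
    rw [← mul_sub, norm_mul, Complex.norm_real, Real.norm_of_nonneg ha.le]
    have h4 := mul_le_mul_of_nonneg_left (h i h2 h3) ha.le
    refine h4.trans ?_
    have e : aC k * (ρ ^ 2 * k / 8) = aC k * k / 8 * ρ ^ 2 := by ring
    rw [e, hδ1, mul_pow]
    have h5 : aC k * k / 8 ≤ (aC k * k) ^ 2 / 7 := by nlinarith
    nlinarith [mul_le_mul_of_nonneg_right h5 (sq_nonneg ρ)]
  refine turn_piece hm (tanh_far d0 d1 hy (hx m le_rfl hm) (hd m le_rfl hm)).1 fun i h2 h3 => ?_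
  exact (tanh_far d0 d1 hy (hx i h2 h3) (hd i h2 h3)).2

/-- **the greedy chain** for a general bound of the pieces -/
theorem exists_chain_gen {z u : ℕ → ℂ} {r d c : ℝ} {m m' : ℕ} (hr : 0 < r) (hd0 : 0 ≤ d) (hm : m ≤ m')
    (hd : ∀ i, m ≤ i → i < m' → ‖z (i + 1) - z i‖ ≤ d)
    (hp : ∀ i j, m ≤ i → i ≤ j → j ≤ m' → (∀ l, i ≤ l → l ≤ j → ‖z l - z i‖ ≤ r + d) → |turn u i j| ≤ c) :
    ∃ (N : ℕ) (s : ℕ → ℕ), s 0 = m ∧
      (∀ j, j < N → s j < s (j + 1) ∧ s (j + 1) ≤ m' ∧ r ≤ ‖z (s (j + 1)) - z (s j)‖ ∧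
        ∀ i, s j ≤ i → i < s (j + 1) → ‖z i - z (s j)‖ < r) ∧
      |turn u m m'| ≤ (N + 1) * c := by
  classical
  obtain ⟨k, hk⟩ : ∃ k, m' - m = k := ⟨_, rfl⟩
  induction k using Nat.strong_induction_on generalizing m with
  | _ k ih =>
  by_cases hex : ∃ i, m ≤ i ∧ i ≤ m' ∧ r ≤ ‖z i - z m‖
  · set i0 := Nat.find hex with hi0
    obtain ⟨h1, h2, h3⟩ := Nat.find_spec hex
    rw [← hi0] at h1 h2 h3
    have hmin : ∀ i, m ≤ i → i < i0 → ‖z i - z m‖ < r := fun i h4 h5 => by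
      by_contra h6
      exact Nat.find_min hex h5 ⟨h4, by omega, not_lt.1 h6⟩
    have hne : m ≠ i0 := by
      intro h4
      rw [← h4, sub_self, norm_zero] at h3
      linarith
    have hlt : m < i0 := by omega
    obtain ⟨N, s, hs0, hs, ht⟩ := ih (m' - i0) (by omega) h2
      (fun i h4 h5 => hd i (by omega) h5) (fun i j h4 h5 h6 h7 => hp i j (by omega) h5 h6 h7) rfl
    refine ⟨N + 1, fun j => if j = 0 then m else s (j - 1), by simp, ?_, ?_⟩
    · intro j hj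
      rcases Nat.eq_zero_or_pos j with h0 | h0
      · subst h0
        simp only [if_true, Nat.zero_add, one_ne_zero, if_false, Nat.sub_self, hs0]
        exact ⟨hlt, h2, h3, hmin⟩
      · have h5 := hs (j - 1) (by omega)
        have h6 : j - 1 + 1 = j := by omega
        rw [h6] at h5
        simp only [if_neg (show j ≠ 0 by omega), if_neg (show j + 1 ≠ 0 by omega), Nat.add_sub_cancel]
        exact h5
    · rw [turn_add u hlt.le h2]
      refine (abs_add_le _ _).trans ?_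
      have h7 : |turn u m i0| ≤ c := by
        refine hp m i0 le_rfl hlt.le h2 fun i h8 h9 => ?_
        rcases h9.lt_or_eq with h10 | h10
        · have := hmin i h8 h10
          linarith
        · subst h10
          have h11 := hmin (i0 - 1) (by omega) (by omega)
          have h12 := hd (i0 - 1) (by omega) (by omega)
          have h13 : i0 - 1 + 1 = i0 := by omega
          rw [h13] at h12
          have h14 : z i0 - z m = (z i0 - z (i0 - 1)) + (z (i0 - 1) - z m) := by ring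
          have h15 := norm_add_le (z i0 - z (i0 - 1)) (z (i0 - 1) - z m)
          rw [h14]
          linarith
      push_cast
      linarith
  · push Not at hex
    refine ⟨0, fun _ => m, rfl, fun j hj => absurd hj (Nat.not_lt_zero _), ?_⟩
    have h7 : |turn u m m'| ≤ c := by
      refine hp m m' le_rfl hm le_rfl fun i h8 h9 => ?_
      have := hex i h8 h9
      linarith
    push_cast
    linarith

/-- **the part away from the ends**: at most `(N + 1) π / 4`, `N` = the number of the steps of a greedy chain of the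
distance `r`, `r + d ≤ ρ ^ 2 k / 8`. -/
theorem chain_far {k : ℕ} (hk : 1 ≤ k) {ρ r d : ℝ} (h0 : 0 < ρ) (h1 : ρ ≤ 1) {Z : ℕ → ℂ} {m m' : ℕ} (hm : m ≤ m')
    (hr : 0 < r) (hd0 : 0 ≤ d) (hrd : r + d ≤ ρ ^ 2 * k / 8) (hd : ∀ i, m ≤ i → i < m' → ‖Z (i + 1) - Z i‖ ≤ d)
    (hf1 : ∀ i, m ≤ i → i ≤ m' → ∀ (n : ℤ), ρ * k ≤ ‖Z i - e1 k n‖)
    (hf2 : ∀ i, m ≤ i → i ≤ m' → ∀ (n : ℤ), ρ * k ≤ ‖Z i - e2 k n‖) :
    ∃ (N : ℕ) (s : ℕ → ℕ), s 0 = m ∧
      (∀ j, j < N → s j < s (j + 1) ∧ s (j + 1) ≤ m' ∧ r ≤ ‖Z (s (j + 1)) - Z (s j)‖ ∧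
        ∀ i, s j ≤ i → i < s (j + 1) → ‖Z i - Z (s j)‖ < r) ∧
      |turn (fun i => Complex.tanh (aC k * Z i)) m m'| ≤ (N + 1) * (Real.pi / 4) :=
  exists_chain_gen hr hd0 hm hd fun i _ h2 h3 h4 h5 =>
    turn_far hk h0 h1 h3 (hf1 i h2 (h3.trans h4)) (fun l h6 h7 => hf2 l (h2.trans h6) (h7.trans h4))
      fun l h6 h7 => (h5 l h6 h7).trans hrd

/-! ### lifts of the positions and the split of the angle -/

open Pool.Agent.CylSaw in
/-- `Z` is a lift of the position of `v` -/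
def Lft (k : ℕ) (v : V (2 * k)) (Z : ℂ) : Prop :=
  ∃ q : ℤ, Z = (px v : ℂ) + ((py v + 2 * √3 * k * q : ℝ) : ℂ) * I

open Pool.Agent.CylSaw in
theorem Lft.ph_eq {k : ℕ} (hk : 1 ≤ k) {v : V (2 * k)} {Z : ℂ} (h : Lft k v Z) : ph k v = Complex.tanh (aC k * Z) := by
  obtain ⟨q, rfl⟩ := h
  exact ph_tanh hk v q

open Pool.Agent.CylSaw in
/-- the real part is `± 1/2` (and then the height is a multiple of `√3`) or at least `1` in absolute value -/
theorem Lft.re_cases {k : ℕ} {v : V (2 * k)} {Z : ℂ} (h : Lft k v Z) :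
    1 ≤ |Z.re| ∨ (|Z.re| = 1 / 2 ∧ ∃ j : ℤ, Z.im = √3 * j) := by
  obtain ⟨q, rfl⟩ := h
  obtain ⟨a, r, b⟩ := v
  simp only [add_re, ofReal_re, mul_re, I_re, mul_zero, ofReal_im, I_im, mul_one, sub_self, add_zero, add_im, mul_im,
    zero_add]
  unfold px py
  cases b
  · simp only [Bool.false_eq_true, if_false, add_zero]
    rcases lt_trichotomy a 0 with h0 | h0 | h0
    · have h1 : (a : ℝ) ≤ -1 := by exact_mod_cast (by omega : a ≤ -1)
      left
      rw [abs_of_neg (by linarith)]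
      linarith
    · subst h0
      right
      refine ⟨by norm_num, (r.val : ℤ) + 2 * k * q, ?_⟩
      push_cast
      ring
    · have h1 : (1 : ℝ) ≤ a := by exact_mod_cast (by omega : 1 ≤ a)
      left
      rw [abs_of_pos (by linarith)]
      linarith
  · simp only [if_true]
    rcases lt_trichotomy a (-1) with h0 | h0 | h0
    · have h1 : (a : ℝ) ≤ -2 := by exact_mod_cast (by omega : a ≤ -2)
      left
      rw [abs_of_neg (by linarith)]
      linarith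
    · subst h0
      right
      refine ⟨by norm_num, (r.val : ℤ) + 2 * k * q, ?_⟩
      push_cast
      ring
    · have h1 : (0 : ℝ) ≤ a := by exact_mod_cast (by omega : 0 ≤ a)
      left
      rw [abs_of_pos (by linarith)]
      linarith

theorem Lft.re_ne {k : ℕ} {v : Pool.Agent.CylSaw.V (2 * k)} {Z : ℂ} (h : Lft k v Z) : Z.re ≠ 0 := by
  intro h0
  rcases h.re_cases with h1 | ⟨h1, -⟩ <;> rw [h0, abs_zero] at h1 <;> norm_num at h1

/-- a lift of an end: `√3 J i` -/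
theorem Lft.ne {k : ℕ} {v : Pool.Agent.CylSaw.V (2 * k)} {Z : ℂ} (h : Lft k v Z) (y : ℝ) : Z ≠ (y : ℂ) * I := by
  intro h0
  refine h.re_ne ?_
  rw [h0]
  simp

theorem Lft.ne_e1 {k : ℕ} {v : Pool.Agent.CylSaw.V (2 * k)} {Z : ℂ} (h : Lft k v Z) (n : ℤ) : Z ≠ e1 k n := h.ne _

theorem Lft.ne_e2 {k : ℕ} {v : Pool.Agent.CylSaw.V (2 * k)} {Z : ℂ} (h : Lft k v Z) (n : ℤ) : Z ≠ e2 k n := h.ne _

/-- the steps near a middle `√3 J i`: every pair of two different lifts except the edge through this middle -/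
theorem Lft.pair {k : ℕ} {v v' : Pool.Agent.CylSaw.V (2 * k)} {Z Z' : ℂ} (h : Lft k v Z) (h' : Lft k v' Z') (J : ℤ)
    (hne : Z ≠ Z') (hc : ¬(Z = ((√3 * J : ℝ) : ℂ) * I + 1 / 2 ∧ Z' = ((√3 * J : ℝ) : ℂ) * I - 1 / 2))
    (hc' : ¬(Z = ((√3 * J : ℝ) : ℂ) * I - 1 / 2 ∧ Z' = ((√3 * J : ℝ) : ℂ) * I + 1 / 2)) :
    1 < ‖Z - ((√3 * J : ℝ) : ℂ) * I‖ ^ 2 + ‖Z' - ((√3 * J : ℝ) : ℂ) * I‖ ^ 2 := by
  have e : ∀ W : ℂ, ‖W - ((√3 * J : ℝ) : ℂ) * I‖ ^ 2 = W.re ^ 2 + (W.im - √3 * J) ^ 2 := fun W => by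
    rw [Complex.sq_norm, Complex.normSq_apply]
    simp only [sub_re, mul_re, ofReal_re, I_re, mul_zero, ofReal_im, I_im, mul_one, sub_self, sub_zero, sub_im, mul_im,
      add_zero]
    ring
  have s3 : (√3 : ℝ) ^ 2 = 3 := Real.sq_sqrt (by norm_num)
  rw [e, e]
  have q : ∀ {x : ℝ}, 1 ≤ |x| → 1 ≤ x ^ 2 := fun {x} hx => by
    rw [← sq_abs]
    nlinarith [abs_nonneg x]
  have q' : ∀ {x : ℝ}, |x| = 1 / 2 → x ^ 2 = 1 / 4 := fun {x} hx => by
    rw [← sq_abs, hx]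
    norm_num
  have p1 := sq_nonneg (Z.im - √3 * J)
  have p2 := sq_nonneg (Z'.im - √3 * J)
  rcases h.re_cases with a | ⟨a, j, aj⟩
  · rcases h'.re_cases with b | ⟨b, -⟩
    · linarith [q a, q b]
    · linarith [q a, q' b]
  · rcases h'.re_cases with b | ⟨b, j', bj⟩
    · linarith [q' a, q b]
    · have r : ∀ {y : ℝ} {i : ℤ}, y = √3 * i → i ≠ J → 3 ≤ (y - √3 * J) ^ 2 := fun {y i} hy hi => by
        have h1 : (1 : ℝ) ≤ ((i : ℝ) - J) ^ 2 := by
          have h2 : (1 : ℤ) ≤ (i - J) ^ 2 := by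
            have : 0 < (i - J) ^ 2 := by
              have : i - J ≠ 0 := sub_ne_zero.2 hi
              positivity
            omega
          exact_mod_cast h2
        have h3 : (y - √3 * J) ^ 2 = (√3) ^ 2 * ((i : ℝ) - J) ^ 2 := by
          rw [hy]
          ring
        rw [h3, s3]
        linarith
      by_cases hj : j = J
      · by_cases hj' : j' = J
        · exfalso
          subst hj
          subst hj'
          have t : ∀ {x : ℝ}, |x| = 1 / 2 → x = 1 / 2 ∨ x = -(1 / 2) := fun {x} hx => by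
            rcases abs_choice x with h1 | h1
            · left
              linarith
            · right
              linarith
          have f : ∀ {W : ℂ} {x y : ℝ}, W.re = x → W.im = y → W = (y : ℂ) * I + x := fun {W x y} h1 h2 => by
            rw [← h1, ← h2, add_comm]
            exact (Complex.re_add_im W).symm
          rcases t a with a1 | a1 <;> rcases t b with b1 | b1
          · exact hne ((f a1 aj).trans (f b1 bj).symm)
          · refine hc ⟨(f a1 aj).trans (by push_cast; rfl), (f b1 bj).trans (by push_cast; ring)⟩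
          · refine hc' ⟨(f a1 aj).trans (by push_cast; ring), (f b1 bj).trans (by push_cast; rfl)⟩
          · exact hne ((f a1 aj).trans (f b1 bj).symm)
        · linarith [q' a, q' b, r bj hj']
      · linarith [q' a, q' b, r aj hj]

open Pool.Agent.CylSaw in
/-- **The split of the angle of the cylinder**: the turning around the first end up to the time `j1`, minus the turning
around the second end from the time `j2` on, up to `(N + 5) π / 4`, `N` = the number of the steps of a greedy chain of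
the middle part. -/
theorem ang_split {k n : ℕ} (hk : 1 ≤ k) (w : Fin (n + 1) → V (2 * k)) {Z : ℕ → ℂ} {ρ r : ℝ} {n1 n2 : ℤ} {j1 j2 : ℕ}
    (hZ : ∀ i : Fin (n + 1), Lft k (w i) (Z i)) (h12 : j1 ≤ j2) (h2n : j2 ≤ n) (hs : ∀ i, i < n → ‖Z (i + 1) - Z i‖ = 1)
    (hc1 : ∀ i, i < j1 → 1 < ‖Z i - e1 k n1‖ ^ 2 + ‖Z (i + 1) - e1 k n1‖ ^ 2)
    (hc2 : ∀ i, j2 ≤ i → i < n → 1 < ‖Z i - e2 k n2‖ ^ 2 + ‖Z (i + 1) - e2 k n2‖ ^ 2)
    (hb1 : ∀ i, i ≤ j1 → ‖Z i - e1 k n1‖ ≤ k / 2) (hb2 : ∀ i, j2 ≤ i → i ≤ n → ‖Z i - e2 k n2‖ ≤ k / 2)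
    (h0 : 0 < ρ) (h1 : ρ ≤ 1) (hr : 0 < r) (hrd : r + 1 ≤ ρ ^ 2 * k / 8)
    (hf1 : ∀ i, j1 ≤ i → i ≤ j2 → ∀ (q : ℤ), ρ * k ≤ ‖Z i - e1 k q‖)
    (hf2 : ∀ i, j1 ≤ i → i ≤ j2 → ∀ (q : ℤ), ρ * k ≤ ‖Z i - e2 k q‖) :
    ∃ (N : ℕ) (s : ℕ → ℕ), s 0 = j1 ∧
      (∀ j, j < N → s j < s (j + 1) ∧ s (j + 1) ≤ j2 ∧ r ≤ ‖Z (s (j + 1)) - Z (s j)‖ ∧
        ∀ i, s j ≤ i → i < s (j + 1) → ‖Z i - Z (s j)‖ < r) ∧
      |ang k n w - (turn (fun i => Z i - e1 k n1) 0 j1 - turn (fun i => Z i - e2 k n2) j2 n)| ≤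
        (N + 5) * (Real.pi / 4) := by
  obtain ⟨N, s, s0, s1, s2⟩ := chain_far hk h0 h1 h12 hr zero_le_one hrd (fun i _ h4 => (hs i (by omega)).le) hf1 hf2
  refine ⟨N, s, s0, s1, ?_⟩
  have hZ' : ∀ i, i ≤ n → ∃ v, Lft k v (Z i) := fun i hi => ⟨_, hZ ⟨i, by omega⟩⟩
  have t1 := turn_e1 hk n1 (Z := Z) (Nat.zero_le j1)
    (fun i _ h4 => (hZ' i (by omega)).choose_spec.ne_e1 n1) (fun i _ h4 => hb1 i h4) (fun i _ h4 => by
      rw [hs i (by omega), one_pow]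
      exact hc1 i h4)
  have t2 := turn_e2 hk n2 (Z := Z) h2n
    (fun i _ h4 => (hZ' i (by omega)).choose_spec.ne_e2 n2) (fun i h3 h4 => hb2 i h3 h4) (fun i h3 h4 => by
      rw [hs i (by omega), one_pow]
      exact hc2 i h3 h4)
  rw [ang_turn w (fun i => Complex.tanh (aC k * Z i)) (fun i => ((hZ i).ph_eq hk).symm),
    turn_add _ (Nat.zero_le j1) (h12.trans h2n), turn_add _ h12 h2n]
  rw [abs_le] at t1 t2 s2 ⊢
  constructor <;> linarith [t1.1, t1.2, t2.1, t2.2, s2.1, s2.2]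

end HexObs.PWd
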