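import Pool.Agent.PW.WindC

/-!
# PW, row E1c (helper87): the lifts of the walks of the honeycomb cylinder

* `Lft.adj`: a lift of a neighbour at distance `1`;
* `Lft.mid_pos`, `Lft.mid_neg`: the lifts `√3 J i ± 1/2` belong to the two ends of the cut edge of the row `J`;
* **`exists_lift`**: every walk of `saws k n` has a lift with `Z 0 = 1 / 2`, `Z n = e2 k n2 + 1 / 2`, unit steps, and
  no step through a lift of one of the two ends.
-/

set_option autoImplicit false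

namespace HexObs.PWd

open Complex Finset
open Pool.Agent.CylSaw

variable {k : ℕ}

theorem Lft.self (v : V (2 * k)) : Lft k v ((px v : ℂ) + (py v : ℂ) * I) := ⟨0, by simp⟩

/-- two elements of `ZMod (2 k)` with a congruence -/
theorem val_congr (hk : 1 ≤ k) {r s : ZMod (2 * k)} {d : ℤ} (h : s = r + (d : ZMod (2 * k))) :
    ∃ q : ℤ, (s.val : ℤ) = r.val + d + 2 * k * q := by
  have : NeZero (2 * k) := ⟨by omega⟩
  have h1 : (((s.val : ℤ) - (r.val + d) : ℤ) : ZMod (2 * k)) = 0 := by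
    push_cast
    rw [ZMod.natCast_zmod_val, ZMod.natCast_zmod_val, h, sub_self]
  rw [ZMod.intCast_zmod_eq_zero_iff_dvd] at h1
  obtain ⟨q, hq⟩ := h1
  refine ⟨q, ?_⟩
  push_cast at hq
  linarith

theorem norm_one_of {x y : ℝ} (h : x ^ 2 + y ^ 2 = 1) : ‖(x : ℂ) + (y : ℂ) * I‖ = 1 := by
  have h1 : ‖(x : ℂ) + (y : ℂ) * I‖ ^ 2 = 1 := by
    rw [Complex.sq_norm, Complex.normSq_add_mul_I, h]
  have h2 := norm_nonneg ((x : ℂ) + (y : ℂ) * I)
  nlinarith

/-- white to black -/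
theorem WB_lift (hk : 1 ≤ k) {a b : V (2 * k)} (h : WB a b) :
    ∃ q : ℤ, (px b - px a) ^ 2 + (py b + 2 * √3 * k * q - py a) ^ 2 = 1 := by
  obtain ⟨a1, ar, ab⟩ := a
  obtain ⟨b1, br, bb⟩ := b
  obtain ⟨h1, h2, h3⟩ := h
  simp only at h1 h2 h3
  subst h1
  subst h2
  have s3 : (√3 : ℝ) ^ 2 = 3 := Real.sq_sqrt (by norm_num)
  unfold px py
  simp only [if_true, Bool.false_eq_true, if_false, add_zero]
  rcases h3 with ⟨rfl, rfl⟩ | ⟨rfl, rfl⟩ | ⟨rfl, h4⟩
  · refine ⟨0, ?_⟩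
    push_cast
    linear_combination (1 / 4) * s3
  · refine ⟨0, ?_⟩
    push_cast
    ring
  · obtain ⟨q, hq⟩ := val_congr hk (r := ar) (s := br) (d := -1) (by rw [h4]; push_cast; ring)
    refine ⟨-q, ?_⟩
    have hq' : (br.val : ℝ) = ar.val - 1 + 2 * k * q := by
      have : ((br.val : ℤ) : ℝ) = ((ar.val + -1 + 2 * k * q : ℤ) : ℝ) := by rw [hq]
      push_cast at this
      linarith
    rw [hq']
    push_cast
    linear_combination (1 / 4) * s3

theorem Lft.adj (hk : 1 ≤ k) {a b : V (2 * k)} {Z : ℂ} (h : Lft k a Z) (hab : (cyl (2 * k)).Adj a b) :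
    ∃ Z', Lft k b Z' ∧ ‖Z' - Z‖ = 1 := by
  obtain ⟨q, rfl⟩ := h
  rcases hab with h1 | h1
  · obtain ⟨q', hq⟩ := WB_lift hk h1
    refine ⟨_, ⟨q + q', rfl⟩, ?_⟩
    have e : (px b : ℂ) + ((py b + 2 * √3 * k * ((q + q' : ℤ) : ℝ) : ℝ) : ℂ) * I -
        ((px a : ℂ) + ((py a + 2 * √3 * k * q : ℝ) : ℂ) * I) =
        ((px b - px a : ℝ) : ℂ) + ((py b + 2 * √3 * k * q' - py a : ℝ) : ℂ) * I := by
      push_cast
      ring
    rw [e]
    exact norm_one_of hq
  · obtain ⟨q', hq⟩ := WB_lift hk h1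
    refine ⟨_, ⟨q - q', rfl⟩, ?_⟩
    have e : (px b : ℂ) + ((py b + 2 * √3 * k * ((q - q' : ℤ) : ℝ) : ℝ) : ℂ) * I -
        ((px a : ℂ) + ((py a + 2 * √3 * k * q : ℝ) : ℂ) * I) =
        ((px b - px a : ℝ) : ℂ) + ((py b - 2 * √3 * k * q' - py a : ℝ) : ℂ) * I := by
      push_cast
      ring
    rw [e]
    refine norm_one_of ?_
    rw [← hq]
    ring

/-- the lift `√3 J i + 1 / 2` -/
theorem Lft.mid_pos (hk : 1 ≤ k) {v : V (2 * k)} {J : ℤ} (h : Lft k v (((√3 * J : ℝ) : ℂ) * I + 1 / 2)) :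
    v = (0, (J : ZMod (2 * k)), false) := by
  have : NeZero (2 * k) := ⟨by omega⟩
  have s3 : (√3 : ℝ) ≠ 0 := by positivity
  obtain ⟨q, hq⟩ := h
  have hre := congrArg Complex.re hq
  have him := congrArg Complex.im hq
  simp only [add_re, ofReal_re, mul_re, I_re, mul_zero, ofReal_im, I_im, mul_one, sub_self, add_zero, add_im, mul_im,
    zero_add] at hre him
  norm_num at hre him
  obtain ⟨a, r, b⟩ := v
  unfold px py at *
  cases b
  · simp only [Bool.false_eq_true, if_false, add_zero] at hre him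
    have ha : (a : ℝ) = 0 := by linarith
    have ha' : a = 0 := by exact_mod_cast ha
    subst ha'
    have h1 : (J : ℝ) = r.val + 2 * k * q := by
      have h2 : √3 * (J : ℝ) = √3 * (r.val + 2 * k * q) := by
        rw [him]
        push_cast
        ring
      exact mul_left_cancel₀ s3 h2
    have h2 : J = (r.val : ℤ) + 2 * k * q := by exact_mod_cast h1
    have h3 : (J : ZMod (2 * k)) = r := by
      rw [h2]
      push_cast
      rw [ZMod.natCast_zmod_val]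
      have h4 : ((2 : ZMod (2 * k)) * k) = 0 := by exact_mod_cast ZMod.natCast_self (2 * k)
      rw [h4, zero_mul, add_zero]
    rw [h3]
  · exfalso
    simp only [if_true] at hre
    have h1 : (3 * a + 1 : ℝ) = 0 := by linarith
    have h2 : 3 * a + 1 = 0 := by exact_mod_cast h1
    omega

/-- the lift `√3 J i - 1 / 2` -/
theorem Lft.mid_neg (hk : 1 ≤ k) {v : V (2 * k)} {J : ℤ} (h : Lft k v (((√3 * J : ℝ) : ℂ) * I - 1 / 2)) :
    v = (-1, (J : ZMod (2 * k)), true) := by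
  have : NeZero (2 * k) := ⟨by omega⟩
  have s3 : (√3 : ℝ) ≠ 0 := by positivity
  obtain ⟨q, hq⟩ := h
  have hre := congrArg Complex.re hq
  have him := congrArg Complex.im hq
  simp only [add_re, ofReal_re, mul_re, I_re, mul_zero, ofReal_im, I_im, mul_one, sub_self, add_zero, add_im, mul_im,
    zero_add, sub_re, sub_im] at hre him
  norm_num at hre him
  obtain ⟨a, r, b⟩ := v
  unfold px py at *
  cases b
  · exfalso
    simp only [Bool.false_eq_true, if_false] at hre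
    have h1 : (3 * a + 2 : ℝ) = 0 := by linarith
    have h2 : 3 * a + 2 = 0 := by exact_mod_cast h1
    omega
  · simp only [if_true] at hre him
    have ha : (a : ℝ) = -1 := by linarith
    have ha' : a = -1 := by exact_mod_cast ha
    subst ha'
    have h1 : (J : ℝ) = r.val + 2 * k * q := by
      have h2 : √3 * (J : ℝ) = √3 * (r.val + 2 * k * q) := by
        rw [him]
        push_cast
        ring
      exact mul_left_cancel₀ s3 h2
    have h2 : J = (r.val : ℤ) + 2 * k * q := by exact_mod_cast h1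
    have h3 : (J : ZMod (2 * k)) = r := by
      rw [h2]
      push_cast
      rw [ZMod.natCast_zmod_val]
      have h4 : ((2 : ZMod (2 * k)) * k) = 0 := by exact_mod_cast ZMod.natCast_self (2 * k)
      rw [h4, zero_mul, add_zero]
    rw [h3]

/-- a step that does not use the cut edge of the row `J` -/
theorem Lft.step (hk : 1 ≤ k) {a b : V (2 * k)} {Z Z' : ℂ} (h : Lft k a Z) (h' : Lft k b Z') (J : ℤ)
    (hs : ‖Z' - Z‖ = 1) (hc : s(a, b) ≠ cut (J : ZMod (2 * k))) :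
    1 < ‖Z - ((√3 * J : ℝ) : ℂ) * I‖ ^ 2 + ‖Z' - ((√3 * J : ℝ) : ℂ) * I‖ ^ 2 := by
  refine h.pair h' J (fun e => ?_) (fun e => hc ?_) (fun e => hc ?_)
  · rw [e, sub_self, norm_zero] at hs
    norm_num at hs
  · have h1 := Lft.mid_pos hk (e.1 ▸ h)
    have h2 := Lft.mid_neg hk (e.2 ▸ h')
    rw [h1, h2, cut, Sym2.eq_swap]
  · have h1 := Lft.mid_neg hk (e.1 ▸ h)
    have h2 := Lft.mid_pos hk (e.2 ▸ h')
    rw [h1, h2, cut]

theorem e1_eq (q : ℤ) : e1 k q = ((√3 * ((2 * k * q : ℤ) : ℝ) : ℝ) : ℂ) * I := by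
  unfold e1
  push_cast
  ring

theorem e2_eq (q : ℤ) : e2 k q = ((√3 * ((k * (2 * q + 1) : ℤ) : ℝ) : ℝ) : ℂ) * I := by
  unfold e2
  push_cast
  ring

theorem row_e1 (q : ℤ) : ((2 * k * q : ℤ) : ZMod (2 * k)) = 0 := by
  have h4 : ((2 : ZMod (2 * k)) * k) = 0 := by exact_mod_cast ZMod.natCast_self (2 * k)
  push_cast
  rw [h4, zero_mul]

theorem row_e2 (q : ℤ) : ((k * (2 * q + 1) : ℤ) : ZMod (2 * k)) = (k : ZMod (2 * k)) := by
  have h4 : ((2 : ZMod (2 * k)) * k) = 0 := by exact_mod_cast ZMod.natCast_self (2 * k)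
  push_cast
  linear_combination (q : ZMod (2 * k)) * h4

/-- **the lift of a path of the cylinder without the two cut edges** -/
theorem exists_lift_path (hk : 1 ≤ k) {n : ℕ} {w : Fin (n + 1) → V (2 * k)} {Z0 : ℂ} (h0 : Lft k (w 0) Z0)
    (hw : ∀ i : Fin n, ((cyl (2 * k)).deleteEdges {cut 0, cut (k : ZMod (2 * k))}).Adj (w i.castSucc) (w i.succ)) :
    ∃ Z : ℕ → ℂ, (∀ i : Fin (n + 1), Lft k (w i) (Z i)) ∧ Z 0 = Z0 ∧ (∀ i, i < n → ‖Z (i + 1) - Z i‖ = 1) ∧
      (∀ i, i < n → ∀ q : ℤ, 1 < ‖Z i - e1 k q‖ ^ 2 + ‖Z (i + 1) - e1 k q‖ ^ 2) ∧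
      (∀ i, i < n → ∀ q : ℤ, 1 < ‖Z i - e2 k q‖ ^ 2 + ‖Z (i + 1) - e2 k q‖ ^ 2) := by
  have key : ∀ j, j ≤ n → ∃ Z : ℕ → ℂ, (∀ i (hi : i ≤ n), i ≤ j → Lft k (w ⟨i, by omega⟩) (Z i)) ∧ Z 0 = Z0 ∧
      ∀ i, i < j → ‖Z (i + 1) - Z i‖ = 1 := by
    intro j
    induction j with
    | zero =>
      intro _
      refine ⟨fun _ => Z0, fun i hi h => ?_, rfl, fun i h => absurd h (Nat.not_lt_zero _)⟩
      obtain rfl : i = 0 := by omega
      exact h0
    | succ j ih =>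
      intro hj
      obtain ⟨Z, z1, z2, z3⟩ := ih (by omega)
      have ha := (hw ⟨j, by omega⟩)
      rw [SimpleGraph.deleteEdges_adj] at ha
      obtain ⟨Z', y1, y2⟩ := (z1 j (by omega) le_rfl).adj hk (b := w ⟨j + 1, by omega⟩) ha.1
      refine ⟨fun i => if i ≤ j then Z i else Z', fun i hi h => ?_, by simpa using z2, fun i h => ?_⟩
      · by_cases hij : i ≤ j
        · simp only [if_pos hij]
          exact z1 i hi hij
        · obtain rfl : i = j + 1 := by omega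
          simp only [if_neg hij]
          exact y1
      · by_cases hij : i + 1 ≤ j
        · simp only [if_pos hij, if_pos (show i ≤ j by omega)]
          exact z3 i (by omega)
        · obtain rfl : i = j := by omega
          simp only [if_neg hij, if_pos le_rfl]
          exact y2
  obtain ⟨Z, z1, z2, z3⟩ := key n le_rfl
  refine ⟨Z, fun i => z1 i (by omega) (by omega), z2, z3, fun i hi q => ?_, fun i hi q => ?_⟩
  · have ha := hw ⟨i, hi⟩
    rw [SimpleGraph.deleteEdges_adj] at ha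
    rw [e1_eq]
    refine (z1 i (by omega) hi.le).step hk (z1 (i + 1) (by omega) hi) _ (z3 i hi) fun e => ha.2 ?_
    rw [row_e1] at e
    exact Or.inl e
  · have ha := hw ⟨i, hi⟩
    rw [SimpleGraph.deleteEdges_adj] at ha
    rw [e2_eq]
    refine (z1 i (by omega) hi.le).step hk (z1 (i + 1) (by omega) hi) _ (z3 i hi) fun e => ha.2 ?_
    rw [row_e2] at e
    exact Or.inr e

theorem px_w0 (r : ZMod (2 * k)) : px ((0, r, false) : V (2 * k)) = 1 / 2 := by
  unfold px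
  norm_num

theorem py_w0 (r : ZMod (2 * k)) : py ((0, r, false) : V (2 * k)) = √3 * r.val := by
  unfold py
  simp

theorem val_k (hk : 1 ≤ k) : ((k : ZMod (2 * k))).val = k := by
  rw [ZMod.val_natCast, Nat.mod_eq_of_lt (by omega)]

/-- **the lift of a walk between the two ends** -/
theorem exists_lift (hk : 1 ≤ k) {n : ℕ} {w : Fin (n + 1) → V (2 * k)} (hw : w ∈ saws k n) :
    ∃ (Z : ℕ → ℂ) (n2 : ℤ), (∀ i : Fin (n + 1), Lft k (w i) (Z i)) ∧ Z 0 = 1 / 2 ∧ Z n = e2 k n2 + 1 / 2 ∧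
      (∀ i, i < n → ‖Z (i + 1) - Z i‖ = 1) ∧
      (∀ i, i < n → ∀ q : ℤ, 1 < ‖Z i - e1 k q‖ ^ 2 + ‖Z (i + 1) - e1 k q‖ ^ 2) ∧
      (∀ i, i < n → ∀ q : ℤ, 1 < ‖Z i - e2 k q‖ ^ 2 + ‖Z (i + 1) - e2 k q‖ ^ 2) := by
  obtain ⟨-, h0, hn, hadj⟩ := hw
  have l0 : Lft k (w 0) (1 / 2) := by
    refine ⟨0, ?_⟩
    rw [h0, px_w0, py_w0]
    simp
  obtain ⟨Z, z1, z2, z3, z4, z5⟩ := exists_lift_path hk l0 hadj
  obtain ⟨q, hq⟩ := z1 (Fin.last n)
  rw [hn, px_w0, py_w0, val_k hk, Fin.val_last] at hq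
  refine ⟨Z, q, z1, z2, ?_, z3, z4, z5⟩
  rw [hq]
  unfold e2
  push_cast
  ring

end HexObs.PWd
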