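import Pool.Agent.TH.NFexp

/-!
PW, module Z1: the gas of nested polygons of two domains: the chains of the large domain begin with the polygons that
leave the small one.
-/

set_option autoImplicit false

namespace HexObs

namespace PW

open LP TH Finset

open Classical in
/-- the weight of the polygons of Ω' around f that leave Ω. -/
noncomputable def LLd (Ω' Ω : Finset Pt) (f : Pt) : ℝ := ∑ E ∈ (pf Ω' f).filter (fun E => ¬ VE E ⊆ Ω), xc ^ E.card

theorem NF_le_mul_exp {Ω : Finset Pt} (hΩ : Full Ω) (f : Pt) (Ω' : Finset Pt) :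
    NF (2 : ℝ) Ω' f ≤ NF (2 : ℝ) Ω f * Real.exp (LLd Ω' Ω f) := by
  classical
  have hx := xc_pos
  have hN : 1 ≤ NF (2 : ℝ) Ω f := one_le_NF (by norm_num) Ω f
  apply pf_ind (P := fun Ω' => NF (2 : ℝ) Ω' f ≤ NF (2 : ℝ) Ω f * Real.exp (LLd Ω' Ω f)) (f := f) _ Ω'
  intro D ih
  obtain ⟨A, hA⟩ : ∃ A : Finset (Finset (Pt × Pt)), A = (pf D f).filter (fun E => ¬ VE E ⊆ Ω) := ⟨_, rfl⟩
  have hAs : A ⊆ pf D f := by
    rw [hA]
    exact Finset.filter_subset _ _
  obtain ⟨n, hn⟩ : ∃ n : Finset (Pt × Pt) → ℕ, n = fun E => (inn D E).card := ⟨_, rfl⟩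
  obtain ⟨a, ha⟩ : ∃ a : ℕ → ℝ, a = fun k => ∑ E ∈ A.filter (fun E => n E < k), xc ^ E.card := ⟨_, rfl⟩
  have h1 : ∀ E ∈ A, NF (2 : ℝ) (inn D E) f ≤ NF (2 : ℝ) Ω f * Real.exp (a (n E)) := by
    intro E hE
    refine (ih E (hAs hE)).trans (mul_le_mul_of_nonneg_left (Real.exp_le_exp.2 ?_) (by linarith))
    unfold LLd
    rw [ha]
    apply Finset.sum_le_sum_of_subset_of_nonneg
    · intro E' hE'
      rw [Finset.mem_filter] at hE'
      have h2 := inn_lt (hAs hE) hE'.1
      rw [Finset.mem_filter, hA, Finset.mem_filter, hn]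
      exact ⟨⟨h2.1, hE'.2⟩, h2.2⟩
    · intro _ _ _
      positivity
  have key : ∀ k : ℕ, 1 + ∑ E ∈ A.filter (fun E => n E < k), xc ^ E.card * Real.exp (a (n E)) ≤
      Real.exp (a k) := by
    intro k
    induction k with
    | zero =>
      have e0 : A.filter (fun E => n E < 0) = ∅ := by
        rw [Finset.filter_eq_empty_iff]
        intro E _
        omega
      have e1 : a 0 = 0 := by
        rw [ha]
        simp only
        rw [e0, Finset.sum_empty]
      rw [e0, Finset.sum_empty, e1, Real.exp_zero, add_zero]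
    | succ k ihk =>
      have e0 : A.filter (fun E => n E < k + 1) = A.filter (fun E => n E < k) ∪ A.filter (fun E => n E = k) := by
        rw [← Finset.filter_or]
        apply Finset.filter_congr
        intro E _
        omega
      have hd : Disjoint (A.filter (fun E => n E < k)) (A.filter (fun E => n E = k)) := by
        rw [Finset.disjoint_filter]
        intro E _ h1 h2
        omega
      have e1 : a (k + 1) = a k + ∑ E ∈ A.filter (fun E => n E = k), xc ^ E.card := by
        rw [ha]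
        simp only
        rw [e0, Finset.sum_union hd]
      have e2 : ∑ E ∈ A.filter (fun E => n E = k), xc ^ E.card * Real.exp (a (n E)) =
          (∑ E ∈ A.filter (fun E => n E = k), xc ^ E.card) * Real.exp (a k) := by
        rw [Finset.sum_mul]
        apply Finset.sum_congr rfl
        intro E hE
        rw [(Finset.mem_filter.1 hE).2]
      rw [e0, Finset.sum_union hd, e2, e1, Real.exp_add]
      have h3 := Real.add_one_le_exp (∑ E ∈ A.filter (fun E => n E = k), xc ^ E.card)
      have h4 := Real.exp_pos (a k)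
      nlinarith
  have h2 := key D.card
  have e3 : A.filter (fun E => n E < D.card) = A := by
    rw [Finset.filter_eq_self]
    intro E hE
    rw [hn]
    exact inn_card (mem_pf.1 (hAs hE)).1
  have e4 : a D.card = LLd D Ω f := by
    rw [ha]
    simp only
    rw [e3, hA]
    rfl
  rw [e3, e4] at h2
  rw [NF_rec, ← Finset.sum_filter_add_sum_filter_not (pf D f) (fun E => VE E ⊆ Ω), ← hA]
  -- the polygons of Ω
  have h5 : 1 + ∑ E ∈ (pf D f).filter (fun E => VE E ⊆ Ω), (xc ^ E.card / 2) • ((2 : ℝ) * NF (2 : ℝ) (inn D E) f) ≤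
      NF (2 : ℝ) Ω f := by
    rw [NF_rec (2 : ℝ) Ω f]
    apply add_le_add_right
    have h3 : ∀ E ∈ (pf D f).filter (fun E => VE E ⊆ Ω), (xc ^ E.card / 2) • ((2 : ℝ) * NF (2 : ℝ) (inn D E) f) ≤
        (xc ^ E.card / 2) • ((2 : ℝ) * NF (2 : ℝ) (inn Ω E) f) := by
      intro E hE
      rw [Finset.mem_filter, mem_pf, mem_polys] at hE
      have h4 : inn D E ⊆ inn Ω E := by
        intro v hv
        rw [mem_inn] at hv ⊢
        exact ⟨hΩ.2 E hE.1.1.1 hE.2 v hv.2, hv.2⟩
      have h5 := NF_mono (z := (2 : ℝ)) (by norm_num) f h4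
      rw [smul_eq_mul, smul_eq_mul]
      gcongr
    refine (Finset.sum_le_sum h3).trans ?_
    apply Finset.sum_le_sum_of_subset_of_nonneg
    · intro E hE
      rw [Finset.mem_filter, mem_pf, mem_polys] at hE
      rw [mem_pf, mem_polys]
      exact ⟨⟨hE.1.1.1, hE.2⟩, hE.1.2⟩
    · intro E _ _
      have := one_le_NF (z := (2 : ℝ)) (by norm_num) (inn Ω E) f
      rw [smul_eq_mul]
      positivity
  -- the others
  have h6 : ∑ E ∈ A, (xc ^ E.card / 2) • ((2 : ℝ) * NF (2 : ℝ) (inn D E) f) ≤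
      NF (2 : ℝ) Ω f * ∑ E ∈ A, xc ^ E.card * Real.exp (a (n E)) := by
    rw [Finset.mul_sum]
    refine Finset.sum_le_sum fun E hE => ?_
    rw [smul_eq_mul]
    have h7 := h1 E hE
    calc xc ^ E.card / 2 * (2 * NF (2 : ℝ) (inn D E) f) = xc ^ E.card * NF (2 : ℝ) (inn D E) f := by ring
      _ ≤ xc ^ E.card * (NF (2 : ℝ) Ω f * Real.exp (a (n E))) := by gcongr
      _ = _ := by ring
  have h8 := mul_le_mul_of_nonneg_left h2 (show 0 ≤ NF (2 : ℝ) Ω f by linarith)
  rw [mul_add, mul_one] at h8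
  linarith

end PW

end HexObs
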