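import Pool.Agent.TH.LLnu
import Pool.Agent.TH.Area
import Pool.Agent.TH.Abel
import Pool.Agent.TH.Link
import Pool.Agent.TH.Rot
import Pool.Agent.TH.NFexp
import Pool.Agent.CenC.Fin

/-!
PW, module Z2: the gas of nested polygons in the strips: Zt m is the supremum over the widths, and it is finite.
-/

set_option autoImplicit false

namespace HexObs

namespace PW

open LP TH Finset ENNReal

/-! ### the tails of the weights of the polygons -/

/-- weight of the polygons with more than j rows. -/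
noncomputable def dj (j : ℕ) : ℝ := (HexPolygon.Sall - HexPolygon.S j).toReal

lemma dj_nonneg (j : ℕ) : 0 ≤ dj j := ENNReal.toReal_nonneg

lemma tail0 (j : ℕ) : nu (fun E => if j ≤ ro 0 E then 1 else 0) ≤ ENNReal.ofReal (2 * dj j) := by
  refine (nu_tail j).trans (le_of_eq ?_)
  have h : HexPolygon.Sall - HexPolygon.S j ≠ ⊤ := ENNReal.sub_ne_top CenC.Sall_ne
  rw [ENNReal.ofReal_mul (by norm_num)]
  congr 1
  · norm_num
  · exact (ENNReal.ofReal_toReal h).symm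

lemma tail1 (j : ℕ) : nu (fun E => if j ≤ ro 1 E then 1 else 0) ≤ ENNReal.ofReal (2 * dj j) := by
  have h : nu (fun E => if j ≤ ro 1 E then 1 else 0) = nu (fun E => if j ≤ ro 0 E then 1 else 0) :=
    nu_rot (fun _ b _ => if j ≤ b then 1 else 0)
  rw [h]
  exact tail0 j

/-- the tail is at most D / j ^ 2. -/
lemma dj_le : ∃ D : ℝ, 0 < D ∧ ∀ j : ℕ, 1 ≤ j → dj j ≤ D / (j : ℝ) ^ 2 := by
  obtain ⟨D, hD⟩ := CenC.central.bddAbove_range
  refine ⟨max D 1, lt_of_lt_of_le one_pos (le_max_right _ _), fun j hj => ?_⟩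
  have hj0 : (0 : ℝ) < (j : ℝ) ^ 2 := by positivity
  rw [le_div_iff₀ hj0]
  have h1 : (j : ℝ) ^ 2 * dj j ≤ D := hD ⟨j, rfl⟩
  calc dj j * (j : ℝ) ^ 2 = (j : ℝ) ^ 2 * dj j := mul_comm _ _
    _ ≤ D := h1
    _ ≤ max D 1 := le_max_left _ _

/-! ### sums over the polygons -/

lemma nu_tsum {ι : Type*} (g : ι → Finset (Pt × Pt) → ℝ≥0∞) : nu (fun E => ∑' i, g i E) = ∑' i, nu (g i) := by
  unfold nu
  rw [ENNReal.tsum_comm]
  refine tsum_congr fun E => ?_
  rw [← ENNReal.tsum_mul_right]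
  simp only [div_eq_mul_inv]
  rw [← ENNReal.tsum_mul_right]

lemma nu_mono_P {g g' : Finset (Pt × Pt) → ℝ≥0∞}
    (h : ∀ E : Finset (Pt × Pt), LP.IsPoly E → Nw E f0 ≠ 0 → g E ≤ g' E) : nu g ≤ nu g' := by
  unfold nu
  refine ENNReal.tsum_le_tsum fun E => ?_
  have := h E.1 E.2.1 E.2.2
  gcongr

lemma wide_split (T r : ℕ) : (if T < r then (r : ℝ≥0∞) else 0) ≤
    (T : ℝ≥0∞) * (if T + 1 ≤ r then 1 else 0) + ∑' j : ℕ, (if T ≤ j then (if j + 1 ≤ r then 1 else 0) else 0) := by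
  by_cases h : T < r
  · rw [if_pos h, if_pos (Nat.succ_le_of_lt h)]
    have h2 : (((r - T : ℕ) : ℝ≥0∞)) ≤ ∑' j : ℕ, (if T ≤ j then (if j + 1 ≤ r then 1 else 0) else 0) := by
      refine le_trans (le_of_eq ?_) (ENNReal.sum_le_tsum (Finset.Ico T r))
      rw [Finset.sum_congr rfl (g := fun _ => (1 : ℝ≥0∞)) (fun j hj => by
        rw [Finset.mem_Ico] at hj
        rw [if_pos hj.1, if_pos (by omega)])]
      rw [Finset.sum_const, Nat.card_Ico, nsmul_eq_mul, mul_one]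
    have h3 : (r : ℝ≥0∞) = (T : ℝ≥0∞) + ((r - T : ℕ) : ℝ≥0∞) := by
      rw [← Nat.cast_add]
      congr 1
      omega
    rw [mul_one]
    calc (r : ℝ≥0∞) = (T : ℝ≥0∞) + ((r - T : ℕ) : ℝ≥0∞) := h3
      _ ≤ _ := add_le_add le_rfl h2
  · rw [if_neg h]
    exact zero_le

lemma inv_sq_sum {T : ℕ} (hT : 1 ≤ T) (n : ℕ) :
    ∑ j ∈ range n, (if T ≤ j then (1 : ℝ) / ((j : ℝ) + 1) ^ 2 else 0) ≤ 1 / (T : ℝ) := by
  rcases lt_or_ge n T with hn | hn
  · rw [Finset.sum_eq_zero (fun j hj => if_neg (by rw [Finset.mem_range] at hj; omega))]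
    positivity
  · have key : ∑ j ∈ range n, (if T ≤ j then (1 : ℝ) / ((j : ℝ) + 1) ^ 2 else 0) ≤ 1 / (T : ℝ) - 1 / (n : ℝ) := by
      induction n, hn using Nat.le_induction with
      | base =>
        rw [Finset.sum_eq_zero (fun j hj => if_neg (by rw [Finset.mem_range] at hj; omega)), sub_self]
      | succ n hn ih =>
        rw [Finset.sum_range_succ, if_pos hn]
        have hn0 : (0 : ℝ) < n := by
          have : 1 ≤ n := hT.trans hn
          exact_mod_cast this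
        have h1 : (1 : ℝ) / ((n : ℝ) + 1) ^ 2 ≤ 1 / n - 1 / ((n : ℝ) + 1) := by
          rw [div_sub_div _ _ hn0.ne' (by positivity), div_le_div_iff₀ (by positivity) (by positivity)]
          nlinarith
        push_cast
        linarith
    have h0 : (0 : ℝ) ≤ 1 / (n : ℝ) := by positivity
    linarith

/-- the wide polygons. -/
theorem nu_wide : ∃ D : ℝ, 0 < D ∧ ∀ T : ℕ, 1 ≤ T →
    nu (fun E => if T < ro 1 E then (ro 1 E : ℝ≥0∞) else 0) ≤ ENNReal.ofReal (D / T) := by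
  obtain ⟨D, hD, hd⟩ := dj_le
  refine ⟨4 * D, by positivity, fun T hT => ?_⟩
  have hT0 : (0 : ℝ) < T := by exact_mod_cast hT
  have h1 := nu_mono_P (g := fun E => if T < ro 1 E then (ro 1 E : ℝ≥0∞) else 0)
    (g' := fun E => (T : ℝ≥0∞) * (if T + 1 ≤ ro 1 E then 1 else 0) +
      ∑' j : ℕ, (if T ≤ j then (if j + 1 ≤ ro 1 E then 1 else 0) else 0)) (fun E _ _ => wide_split T (ro 1 E))
  refine h1.trans ?_
  rw [nu_add, nu_mul, nu_tsum]
  have h2 : (T : ℝ≥0∞) * nu (fun E => if T + 1 ≤ ro 1 E then 1 else 0) ≤ ENNReal.ofReal (2 * D / T) := by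
    refine (mul_le_mul' le_rfl (tail1 (T + 1))).trans ?_
    rw [← ENNReal.ofReal_natCast, ← ENNReal.ofReal_mul (by positivity)]
    apply ENNReal.ofReal_le_ofReal
    have h3 := hd (T + 1) (by omega)
    push_cast at h3
    have h4 : D / ((T : ℝ) + 1) ^ 2 ≤ D / (T : ℝ) ^ 2 := by
      apply div_le_div_of_nonneg_left hD.le (by positivity)
      nlinarith
    have h5 : (T : ℝ) * (2 * (D / (T : ℝ) ^ 2)) = 2 * D / T := by
      field_simp
    have h6 := dj_nonneg (T + 1)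
    nlinarith [mul_le_mul_of_nonneg_left (h3.trans h4) (show (0 : ℝ) ≤ T * 2 by positivity)]
  have h3 : ∑' j : ℕ, nu (fun E => if T ≤ j then (if j + 1 ≤ ro 1 E then 1 else 0) else 0) ≤
      ENNReal.ofReal (2 * D / T) := by
    apply ENNReal.tsum_le_of_sum_range_le
    intro n
    have h4 : ∀ j ∈ range n, nu (fun E => if T ≤ j then (if j + 1 ≤ ro 1 E then 1 else 0) else 0) ≤
        ENNReal.ofReal (2 * D * (if T ≤ j then (1 : ℝ) / ((j : ℝ) + 1) ^ 2 else 0)) := by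
      intro j _
      by_cases hj : T ≤ j
      · simp only [if_pos hj]
        refine (tail1 (j + 1)).trans (ENNReal.ofReal_le_ofReal ?_)
        have h5 := hd (j + 1) (by omega)
        push_cast at h5
        calc 2 * dj (j + 1) ≤ 2 * (D / ((j : ℝ) + 1) ^ 2) := by linarith
          _ = _ := by ring
      · simp only [if_neg hj]
        unfold nu
        simp
    refine (Finset.sum_le_sum h4).trans ?_
    rw [← ENNReal.ofReal_sum_of_nonneg (fun j _ => by positivity), ← Finset.mul_sum]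
    apply ENNReal.ofReal_le_ofReal
    have h5 := inv_sq_sum hT n
    calc 2 * D * ∑ j ∈ range n, (if T ≤ j then (1 : ℝ) / ((j : ℝ) + 1) ^ 2 else 0) ≤ 2 * D * (1 / T) := by gcongr
      _ = _ := by ring
  refine (add_le_add h2 h3).trans ?_
  rw [← ENNReal.ofReal_add (by positivity) (by positivity)]
  apply ENNReal.ofReal_le_ofReal
  apply le_of_eq
  ring

lemma card_diff {F : Finset ℤ} {n : ℕ} (h : ∀ x ∈ F, ∀ y ∈ F, x - y < n) : F.card ≤ n := by
  rcases F.eq_empty_or_nonempty with rfl | hne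
  · simp
  · have h0 : F ⊆ Finset.Ico (F.min' hne) (F.min' hne + n) := by
      intro x hx
      have h1 := F.min'_le x hx
      have h2 := h x hx _ (F.min'_mem hne)
      rw [Finset.mem_Ico]
      constructor <;> omega
    have h3 := Finset.card_le_card h0
    rw [Int.card_Ico] at h3
    omega

/-- the number of the faces of a polygon. -/
theorem area_rect (E : Finset (Pt × Pt)) : (Fi E).card ≤ ro 0 E * ro 1 E := by
  have hinj : Set.InjOn fab (Fi E : Set Pt) := by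
    intro p hp q hq h
    have h1 := Fc_mod1 (Fc_of_mem hp)
    have h2 := Fc_mod1 (Fc_of_mem hq)
    unfold fab at h
    rw [Prod.mk.injEq, ga0, ga0, ga1, ga1] at h
    ext <;> omega
  rw [← card_image_of_injOn hinj]
  have hsub : (Fi E).image fab ⊆ ((Fi E).image fab).image Prod.fst ×ˢ ((Fi E).image fab).image Prod.snd :=
    Finset.subset_product
  refine (Finset.card_le_card hsub).trans ?_
  rw [Finset.card_product]
  refine Nat.mul_le_mul (card_diff ?_) (card_diff ?_)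
  all_goals
    intro x hx y hy
    rw [mem_image] at hx hy
    obtain ⟨x, hx, rfl⟩ := hx
    obtain ⟨y, hy, rfl⟩ := hy
    rw [mem_image] at hx hy
    obtain ⟨p, hp, rfl⟩ := hx
    obtain ⟨q, hq, rfl⟩ := hy
    have h1 := Fc_mod1 (Fc_of_mem hp)
    have h2 := Fc_mod1 (Fc_of_mem hq)
    have g0 := lt_ro 0 hp hq
    have g1 := lt_ro 1 hp hq
    rw [ga0, ga0] at g0
    rw [ga1, ga1] at g1
    unfold fab
    simp only [ga0, ga1]
    omega

/-! ### the gas in the strips -/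

lemma LL_bdd (m : ℕ) : ∃ L : ℝ, ∀ M : ℕ, LL (PP m M) f0 ≤ L := by
  obtain ⟨D, hD, hw⟩ := nu_wide
  have h1 : nu (fun E => if ro 0 E ≤ 2 * m then ((Fi E).card : ℝ≥0∞) else 0) ≤
      nu (fun E => ((2 * m : ℕ) : ℝ≥0∞) * ((if 1 < ro 1 E then (ro 1 E : ℝ≥0∞) else 0) + (if 0 ≤ ro 0 E then 1 else 0))) := by
    apply nu_mono_P
    intro E _ _
    rw [if_pos (Nat.zero_le (ro 0 E))]
    split_ifs with h2 h3
    · have h4 := area_rect E
      have h5 : (Fi E).card ≤ 2 * m * (ro 1 E + 1) := h4.trans (Nat.mul_le_mul h2 (Nat.le_succ _))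
      exact_mod_cast h5
    · have h4 := area_rect E
      have h5 : (Fi E).card ≤ 2 * m * 1 := h4.trans (Nat.mul_le_mul h2 (by omega))
      rw [zero_add]
      exact_mod_cast h5
    · exact zero_le
    · exact zero_le
  have h2 : nu (fun E => ((2 * m : ℕ) : ℝ≥0∞) * ((if 1 < ro 1 E then (ro 1 E : ℝ≥0∞) else 0) +
      (if 0 ≤ ro 0 E then 1 else 0))) ≠ ⊤ := by
    rw [nu_mul, nu_add]
    refine ENNReal.mul_ne_top (ENNReal.natCast_ne_top _) (ENNReal.add_ne_top.2 ⟨?_, ?_⟩)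
    · exact ne_top_of_le_ne_top ENNReal.ofReal_ne_top (hw 1 le_rfl)
    · exact ne_top_of_le_ne_top ENNReal.ofReal_ne_top (tail0 0)
  exact ⟨ENNReal.toReal _, fun M => (ENNReal.ofReal_le_iff_le_toReal h2).1 ((LL_nu m M).trans h1)⟩

/-- the gas of nested polygons at the middle of the strip of height 2 m. -/
noncomputable def Zt (m : ℕ) : ℝ := ⨆ M : ℕ, NF (2 : ℝ) (PP m M) f0

lemma Zt_bdd (m : ℕ) : BddAbove (Set.range fun M : ℕ => NF (2 : ℝ) (PP m M) f0) := by
  obtain ⟨L, hL⟩ := LL_bdd m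
  refine ⟨Real.exp L, ?_⟩
  rintro _ ⟨M, rfl⟩
  exact (NF_le_exp _ _).trans (Real.exp_le_exp.2 (hL M))

lemma NF_le_Zt (m M : ℕ) : NF (2 : ℝ) (PP m M) f0 ≤ Zt m := le_ciSup (Zt_bdd m) M

lemma one_le_Zt (m : ℕ) : 1 ≤ Zt m := (one_le_NF (by norm_num) (PP m 0) f0).trans (NF_le_Zt m 0)

lemma Zt_pos (m : ℕ) : 0 < Zt m := lt_of_lt_of_le one_pos (one_le_Zt m)

lemma Zt_le {m : ℕ} {L : ℝ} (h : ∀ M : ℕ, NF (2 : ℝ) (PP m M) f0 ≤ L) : Zt m ≤ L := ciSup_le h

lemma PP_mono {m m' M M' : ℕ} (h : m ≤ m') (h' : M ≤ M') : PP m M ⊆ PP m' M' := by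
  intro v hv
  rw [mem_PP] at hv ⊢
  have e1 : (m : ℤ) ≤ m' := by exact_mod_cast h
  have e2 : (M : ℤ) ≤ M' := by exact_mod_cast h'
  exact ⟨hv.1, by linarith [hv.2.1], by linarith [hv.2.2]⟩

lemma Zt_mono {m m' : ℕ} (h : m ≤ m') : Zt m ≤ Zt m' :=
  Zt_le fun M => (NF_mono (by norm_num) f0 (PP_mono h le_rfl)).trans (NF_le_Zt m' M)

/-- the supremum is nearly reached for every large width. -/
lemma Zt_reach {m : ℕ} {z : ℝ} (h : z < Zt m) : ∃ M0 : ℕ, ∀ M : ℕ, M0 ≤ M → z < NF (2 : ℝ) (PP m M) f0 := by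
  obtain ⟨M0, h0⟩ := exists_lt_of_lt_ciSup h
  exact ⟨M0, fun M hM => h0.trans_le (NF_mono (by norm_num) f0 (PP_mono le_rfl hM))⟩

end PW

end HexObs
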