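import Pool.Agent.PW.Zt
import Pool.Agent.PW.ZetaA
import Pool.Agent.TH.FarD
import Pool.Agent.HexLoop.Stepped

/-!
PW, module Z3: Zt n <= C (n / h) ^ g Zt h for every g > 5 sqrt 3 / 36.
-/

set_option autoImplicit false

namespace HexObs

namespace PW

open LP TH Finset ENNReal

/-- a polygon that leaves the strip has many rows. -/
lemma leave_ro {T M h : ℕ} {E : Finset (Pt × Pt)} (hE : E ∈ pf (PP T M) f0) (hn : ¬ VE E ⊆ PP h M) : h ≤ ro 0 E := by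
  obtain ⟨h1, h2⟩ := mem_pf.1 hE
  obtain ⟨hP, hV⟩ := mem_polys.1 h1
  rw [Finset.not_subset] at hn
  obtain ⟨v, hv, hv2⟩ := hn
  have h3 := mem_PP.1 (hV hv)
  have h4 : 3 * (h : ℤ) ≤ |lv v - 1| := by
    by_contra hcon
    push Not at hcon
    exact hv2 (mem_PP.2 ⟨h3.1, hcon, h3.2.2⟩)
  obtain ⟨g, hg, n1, n2, _, _⟩ := far_near hP hv
  have hf0 : f0 ∈ Fi E := (mem_Fi hP).2 ⟨TH.Fc_f0, h2⟩
  have e0 : ∀ x, ga 0 x = lv x := fun x => rfl
  have lf : lv f0 = 1 := by decide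
  have k1 := far_ro_le 0 hg hf0
  have k2 := far_ro_le 0 hf0 hg
  rw [e0, e0, lf] at k1 k2
  rcases le_abs.1 h4 with h5 | h5 <;> omega

open Classical in
theorem LLd_nu (T M h : ℕ) : ENNReal.ofReal (LLd (PP T M) (PP h M) f0) ≤
    nu (fun E => if h ≤ ro 0 E ∧ ro 0 E ≤ 2 * T then ((Fi E).card : ℝ≥0∞) else 0) := by
  unfold LLd
  rw [ENNReal.ofReal_sum_of_nonneg fun E _ => pow_nonneg xc_pos.le _]
  unfold nu
  have hsub : ∀ E ∈ (pf (PP T M) f0).filter (fun E => ¬ VE E ⊆ PP h M), IsPoly E ∧ Nw E f0 ≠ 0 := by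
    intro E hE
    obtain ⟨h1, h2⟩ := mem_pf.1 (Finset.mem_filter.1 hE).1
    exact ⟨(mem_polys.1 h1).1, h2⟩
  have key : ∑ E ∈ (pf (PP T M) f0).filter (fun E => ¬ VE E ⊆ PP h M), ENNReal.ofReal (xc ^ E.card) =
      ∑ E : {E // E ∈ (pf (PP T M) f0).filter (fun E => ¬ VE E ⊆ PP h M)},
        (fun E : {E : Finset (Pt × Pt) // IsPoly E ∧ Nw E f0 ≠ 0} =>
          (if h ≤ ro 0 E.1 ∧ ro 0 E.1 ≤ 2 * T then ((Fi E.1).card : ℝ≥0∞) else 0) * ENNReal.ofReal (xc ^ E.1.card) /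
            ((Fi E.1).card : ℝ≥0∞)) ⟨E.1, hsub E.1 E.2⟩ := by
    rw [← Finset.sum_coe_sort]
    refine Finset.sum_congr rfl fun E _ => ?_
    obtain ⟨h1, h2⟩ := Finset.mem_filter.1 E.2
    obtain ⟨h1', h1''⟩ := mem_pf.1 h1
    have hP := (mem_polys.1 h1').1
    have h3 := ro_PP h1' h1''
    have h4 := leave_ro h1 h2
    simp only
    rw [if_pos ⟨h4, h3⟩]
    have hc : (Fi E.1).card ≠ 0 := Finset.card_ne_zero_of_mem ((mem_Fi hP).2 ⟨TH.Fc_f0, h1''⟩)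
    rw [mul_comm, ENNReal.mul_div_cancel_right (by exact_mod_cast hc) (ENNReal.natCast_ne_top _)]
  rw [key, ← tsum_fintype (L := SummationFilter.unconditional _)]
  exact ENNReal.tsum_comp_le_tsum_of_injective
    (f := fun E : {E // E ∈ (pf (PP T M) f0).filter (fun E => ¬ VE E ⊆ PP h M)} =>
      (⟨E.1, hsub E.1 E.2⟩ : {E : Finset (Pt × Pt) // IsPoly E ∧ Nw E f0 ≠ 0}))
    (fun a b h => Subtype.ext (by simpa using congrArg Subtype.val h)) _

/-! ### squares -/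

lemma sum_odd_Ico {h r : ℕ} (hr : h ≤ r) : h ^ 2 + ∑ j ∈ Finset.Ico h r, (2 * j + 1) = r ^ 2 := by
  induction r, hr using Nat.le_induction with
  | base => simp
  | succ r hr ih =>
    rw [Finset.sum_Ico_succ_top hr, ← add_assoc, ih]
    ring

lemma sq_split (h r R : ℕ) : (if h ≤ r ∧ r ≤ R then ((r : ℝ≥0∞)) ^ 2 else 0) ≤
    ((h ^ 2 : ℕ) : ℝ≥0∞) * (if h ≤ r then 1 else 0) +
      ∑ j ∈ Finset.Ico h R, ((2 * j + 1 : ℕ) : ℝ≥0∞) * (if j + 1 ≤ r then 1 else 0) := by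
  split_ifs with h1 h2
  · have h3 : ((∑ j ∈ Finset.Ico h r, (2 * j + 1) : ℕ) : ℝ≥0∞) ≤
        ∑ j ∈ Finset.Ico h R, ((2 * j + 1 : ℕ) : ℝ≥0∞) * (if j + 1 ≤ r then 1 else 0) := by
      rw [Nat.cast_sum]
      calc ∑ j ∈ Finset.Ico h r, ((2 * j + 1 : ℕ) : ℝ≥0∞) =
          ∑ j ∈ Finset.Ico h r, ((2 * j + 1 : ℕ) : ℝ≥0∞) * (if j + 1 ≤ r then 1 else 0) := by
            refine Finset.sum_congr rfl fun j hj => ?_
            rw [Finset.mem_Ico] at hj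
            rw [if_pos (by omega), mul_one]
        _ ≤ _ := Finset.sum_le_sum_of_subset (Finset.Ico_subset_Ico le_rfl h1.2)
    rw [mul_one]
    have h4 := sum_odd_Ico h1.1
    calc ((r : ℝ≥0∞)) ^ 2 = ((r ^ 2 : ℕ) : ℝ≥0∞) := by push_cast; rfl
      _ = ((h ^ 2 : ℕ) : ℝ≥0∞) + ((∑ j ∈ Finset.Ico h r, (2 * j + 1) : ℕ) : ℝ≥0∞) := by
        rw [← h4, Nat.cast_add]
      _ ≤ _ := add_le_add le_rfl h3
  · exact absurd h1.1 h2
  · exact zero_le
  · exact zero_le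

lemma sum_inv_log {h R : ℕ} (hh : 1 ≤ h) (hR : h ≤ R) :
    ∑ j ∈ Finset.Ico h R, ((j : ℝ) + 1)⁻¹ ≤ Real.log ((R : ℝ) / h) := by
  induction R, hR using Nat.le_induction with
  | base =>
    have h0 : (0 : ℝ) < h := by exact_mod_cast hh
    rw [Finset.Ico_self, Finset.sum_empty, div_self h0.ne', Real.log_one]
  | succ R hR ih =>
    rw [Finset.sum_Ico_succ_top hR]
    have h0 : (0 : ℝ) < h := by exact_mod_cast hh
    have hR0 : (0 : ℝ) < R := by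
      have : 1 ≤ R := hh.trans hR
      exact_mod_cast this
    have h1 := Real.one_sub_inv_le_log_of_pos (x := ((R : ℝ) + 1) / R) (by positivity)
    have h2 : 1 - (((R : ℝ) + 1) / R)⁻¹ = ((R : ℝ) + 1)⁻¹ := by
      rw [inv_div]
      field_simp
      ring
    rw [h2] at h1
    have h3 : Real.log (((R + 1 : ℕ) : ℝ) / h) = Real.log ((R : ℝ) / h) + Real.log (((R : ℝ) + 1) / R) := by
      rw [← Real.log_mul (by positivity) (by positivity)]
      congr 1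
      push_cast
      field_simp
    rw [h3]
    linarith

theorem sq_log {lam : ℝ} (hl : 5 * Real.sqrt 3 / 108 < lam) : ∃ C : ℝ, 0 ≤ C ∧ ∀ h R : ℕ, 1 ≤ h → h ≤ R →
    nu (fun E => if h ≤ ro 0 E ∧ ro 0 E ≤ R then ((ro 0 E : ℝ≥0∞)) ^ 2 else 0) ≤
      ENNReal.ofReal (4 * lam * Real.log ((R : ℝ) / h) + C) := by
  obtain ⟨D, hD, hd⟩ := dj_le
  have hlam : 0 < lam := lt_of_le_of_lt (by positivity) hl
  obtain ⟨J, hJ⟩ := Filter.eventually_atTop.1 (CenC.central.eventually (gt_mem_nhds hl))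
  set f : ℕ → ℝ := fun j => (2 * (j : ℝ) + 1) * (2 * dj (j + 1)) with hf
  have f0' : ∀ j, 0 ≤ f j := fun j => mul_nonneg (by positivity) (by linarith [dj_nonneg (j + 1)])
  have fg : ∀ j, J ≤ j → f j ≤ 4 * lam * ((j : ℝ) + 1)⁻¹ := by
    intro j hj
    have h1 := hJ (j + 1) (by omega)
    have h1' : ((j : ℝ) + 1) ^ 2 * dj (j + 1) < lam := by
      push_cast at h1
      exact h1
    have hj1 : (0 : ℝ) < (j : ℝ) + 1 := by positivity
    have h2 : f j ≤ 4 * ((j : ℝ) + 1) * dj (j + 1) := by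
      simp only [hf]
      nlinarith [dj_nonneg (j + 1)]
    have h3 : 4 * ((j : ℝ) + 1) * dj (j + 1) = 4 * (((j : ℝ) + 1) ^ 2 * dj (j + 1)) * ((j : ℝ) + 1)⁻¹ := by
      field_simp
    rw [h3] at h2
    refine h2.trans (mul_le_mul_of_nonneg_right ?_ (by positivity))
    linarith
  have hC0 : 0 ≤ ∑ j ∈ range J, f j := Finset.sum_nonneg fun j _ => f0' j
  refine ⟨2 * D + ∑ j ∈ range J, f j, by positivity, fun h R hh hR => ?_⟩
  have hh0 : (0 : ℝ) < h := by exact_mod_cast hh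
  refine (nu_mono fun E => sq_split h (ro 0 E) R).trans ?_
  rw [nu_add, nu_mul, nu_sum (Finset.Ico h R) (fun j => ((2 * j + 1 : ℕ) : ℝ≥0∞)) (fun j E => if j + 1 ≤ ro 0 E then 1 else 0)]
  have h1 : ((h ^ 2 : ℕ) : ℝ≥0∞) * nu (fun E => if h ≤ ro 0 E then 1 else 0) ≤ ENNReal.ofReal (2 * D) := by
    refine (mul_le_mul' le_rfl (tail0 h)).trans ?_
    rw [← ENNReal.ofReal_natCast, ← ENNReal.ofReal_mul (by positivity)]
    apply ENNReal.ofReal_le_ofReal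
    have h2 := hd h hh
    rw [le_div_iff₀ (by positivity)] at h2
    push_cast
    linarith
  have h2 : ∑ j ∈ Finset.Ico h R, ((2 * j + 1 : ℕ) : ℝ≥0∞) * nu (fun E => if j + 1 ≤ ro 0 E then 1 else 0) ≤
      ENNReal.ofReal (∑ j ∈ Finset.Ico h R, f j) := by
    rw [ENNReal.ofReal_sum_of_nonneg fun j _ => f0' j]
    refine Finset.sum_le_sum fun j _ => ?_
    refine (mul_le_mul' le_rfl (tail0 (j + 1))).trans (le_of_eq ?_)
    have e1 : ENNReal.ofReal (f j) = ENNReal.ofReal (2 * (j : ℝ) + 1) * ENNReal.ofReal (2 * dj (j + 1)) :=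
      ENNReal.ofReal_mul (by positivity)
    rw [e1]
    congr 1
    rw [show (2 * (j : ℝ) + 1) = ((2 * j + 1 : ℕ) : ℝ) by push_cast; ring, ENNReal.ofReal_natCast]
  have h3 : ∑ j ∈ Finset.Ico h R, f j ≤ ∑ j ∈ range J, f j + 4 * lam * Real.log ((R : ℝ) / h) := by
    have h4 : ∀ j ∈ Finset.Ico h R, f j ≤ (if j < J then f j else 0) + 4 * lam * ((j : ℝ) + 1)⁻¹ := by
      intro j _
      have h5 : 0 ≤ 4 * lam * ((j : ℝ) + 1)⁻¹ := by positivity
      split_ifs with hj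
      · linarith
      · linarith [fg j (not_lt.1 hj)]
    refine (Finset.sum_le_sum h4).trans ?_
    rw [Finset.sum_add_distrib, ← Finset.mul_sum]
    apply add_le_add
    · rw [← Finset.sum_filter]
      refine Finset.sum_le_sum_of_subset_of_nonneg (fun j hj => ?_) (fun j _ _ => f0' j)
      exact Finset.mem_range.2 (Finset.mem_filter.1 hj).2
    · exact mul_le_mul_of_nonneg_left (sum_inv_log hh hR) (by positivity)
  refine (add_le_add h1 h2).trans ?_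
  rw [← ENNReal.ofReal_add (by positivity) (Finset.sum_nonneg fun j _ => f0' j)]
  apply ENNReal.ofReal_le_ofReal
  linarith

/-! ### the number of the faces -/

lemma sq_cases (h r R : ℕ) (hr : r ≤ R) : ((r ^ 2 : ℕ) : ℝ≥0∞) ≤
    (if h ≤ r ∧ r ≤ R then ((r : ℝ≥0∞)) ^ 2 else 0) + ((h ^ 2 : ℕ) : ℝ≥0∞) := by
  split_ifs with h1
  · push_cast
    exact le_self_add
  · rw [zero_add]
    have h2 : r ≤ h := by
      by_contra hcon
      exact h1 ⟨by omega, hr⟩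
    have h3 : r ^ 2 ≤ h ^ 2 := Nat.pow_le_pow_left h2 2
    exact_mod_cast h3

lemma face_split {E : Finset (Pt × Pt)} (hE : IsPoly E) {h T : ℕ} (hh : 1 ≤ h) :
    4 * (if h ≤ ro 0 E ∧ ro 0 E ≤ T then ((Fi E).card : ℝ≥0∞) else 0) ≤
      ((if h ≤ ro 0 E ∧ ro 0 E ≤ 2 * T then ((ro 0 E : ℝ≥0∞)) ^ 2 else 0) +
        (if h ≤ ro 1 E ∧ ro 1 E ≤ 2 * T then ((ro 1 E : ℝ≥0∞)) ^ 2 else 0)) +
      ((if h ≤ ro 2 E ∧ ro 2 E ≤ 2 * T then ((ro 2 E : ℝ≥0∞)) ^ 2 else 0) +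
        ((4 * h ^ 2 : ℕ) : ℝ≥0∞) * (if h ≤ ro 0 E then 1 else 0)) +
      ((4 * T : ℕ) : ℝ≥0∞) * (if T < ro 1 E then (ro 1 E : ℝ≥0∞) else 0) := by
  by_cases h0 : h ≤ ro 0 E ∧ ro 0 E ≤ T
  · rw [if_pos h0, if_pos h0.1, mul_one]
    rcases Nat.lt_or_ge T (ro 1 E) with h1 | h1
    · rw [if_pos h1]
      have h2 := area_rect E
      have h3 : 4 * (Fi E).card ≤ 4 * T * ro 1 E := by
        have h4 : ro 0 E * ro 1 E ≤ T * ro 1 E := Nat.mul_le_mul h0.2 le_rfl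
        calc 4 * (Fi E).card ≤ 4 * (T * ro 1 E) := Nat.mul_le_mul le_rfl (h2.trans h4)
          _ = _ := by ring
      have h4 : 4 * ((Fi E).card : ℝ≥0∞) ≤ ((4 * T : ℕ) : ℝ≥0∞) * (ro 1 E : ℝ≥0∞) := by exact_mod_cast h3
      exact h4.trans le_add_self
    · rw [if_neg (show ¬ T < ro 1 E by omega), mul_zero, add_zero]
      have h2 := area_le hE
      have h3 := ro2_le hE
      have h4 : 4 * ((Fi E).card : ℝ≥0∞) ≤ ((ro 0 E ^ 2 : ℕ) : ℝ≥0∞) + ((ro 1 E ^ 2 : ℕ) : ℝ≥0∞) +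
          ((ro 2 E ^ 2 : ℕ) : ℝ≥0∞) + 1 := by exact_mod_cast h2
      have k0 := sq_cases h (ro 0 E) (2 * T) (by omega)
      have k1 := sq_cases h (ro 1 E) (2 * T) (by omega)
      have k2 := sq_cases h (ro 2 E) (2 * T) (by omega)
      have k3 : (1 : ℝ≥0∞) ≤ ((h ^ 2 : ℕ) : ℝ≥0∞) := by
        have : 1 ≤ h ^ 2 := Nat.one_le_pow _ _ hh
        exact_mod_cast this
      refine h4.trans ((add_le_add (add_le_add (add_le_add k0 k1) k2) k3).trans (le_of_eq ?_))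
      push_cast
      ring
  · rw [if_neg h0, mul_zero]
    exact zero_le

theorem LLd_le {lam : ℝ} (hl : 5 * Real.sqrt 3 / 108 < lam) : ∃ C : ℝ, 0 ≤ C ∧ ∀ h n M : ℕ, 1 ≤ h → h ≤ n →
    LLd (PP n M) (PP h M) f0 ≤ 3 * lam * Real.log ((n : ℝ) / h) + C := by
  obtain ⟨D, hD, hd⟩ := dj_le
  obtain ⟨D', hD', hw⟩ := nu_wide
  obtain ⟨C, hC, hsq⟩ := sq_log hl
  have hlam : 0 < lam := lt_of_le_of_lt (by positivity) hl
  have hl4 : 0 ≤ Real.log 4 := Real.log_nonneg (by norm_num)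
  refine ⟨3 / 4 * (4 * lam * Real.log 4 + C) + 2 * D + D', by positivity, fun h n M hh hn => ?_⟩
  have hh0 : (0 : ℝ) < h := by exact_mod_cast hh
  have hn1 : 1 ≤ n := hh.trans hn
  have hn0 : (0 : ℝ) < n := by exact_mod_cast hn1
  have hlog : 0 ≤ Real.log ((n : ℝ) / h) := by
    apply Real.log_nonneg
    rw [le_div_iff₀ hh0, one_mul]
    exact_mod_cast hn
  set T := 2 * n with hT
  set G : Fin 3 → Finset (Pt × Pt) → ℝ≥0∞ := fun i E =>
    if h ≤ ro i E ∧ ro i E ≤ 2 * T then ((ro i E : ℝ≥0∞)) ^ 2 else 0 with hG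
  have e1 : nu (G 1) = nu (G 0) := nu_rot (fun _ b _ => if h ≤ b ∧ b ≤ 2 * T then ((b : ℝ≥0∞)) ^ 2 else 0)
  have e2 : nu (G 2) = nu (G 0) :=
    (nu_rot (fun _ _ c => if h ≤ c ∧ c ≤ 2 * T then ((c : ℝ≥0∞)) ^ 2 else 0)).trans e1
  have e0 : nu (G 0) ≤ ENNReal.ofReal (4 * lam * (Real.log 4 + Real.log ((n : ℝ) / h)) + C) := by
    refine (hsq h (2 * T) hh (by omega)).trans (ENNReal.ofReal_le_ofReal (le_of_eq ?_))
    rw [← Real.log_mul (by norm_num) (by positivity)]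
    congr 3
    rw [hT]
    push_cast
    ring
  have h1 : 4 * ENNReal.ofReal (LLd (PP n M) (PP h M) f0) ≤
      (nu (G 0) + nu (G 1)) + (nu (G 2) + ((4 * h ^ 2 : ℕ) : ℝ≥0∞) * nu (fun E => if h ≤ ro 0 E then 1 else 0)) +
      ((4 * T : ℕ) : ℝ≥0∞) * nu (fun E => if T < ro 1 E then (ro 1 E : ℝ≥0∞) else 0) := by
    rw [← nu_mul, ← nu_mul, ← nu_add, ← nu_add, ← nu_add, ← nu_add]
    calc 4 * ENNReal.ofReal (LLd (PP n M) (PP h M) f0) ≤
        4 * nu (fun E => if h ≤ ro 0 E ∧ ro 0 E ≤ T then ((Fi E).card : ℝ≥0∞) else 0) :=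
          mul_le_mul' le_rfl (LLd_nu n M h)
      _ = nu (fun E => 4 * (if h ≤ ro 0 E ∧ ro 0 E ≤ T then ((Fi E).card : ℝ≥0∞) else 0)) := (nu_mul _ _).symm
      _ ≤ _ := nu_mono_P fun E hE _ => face_split hE hh
  have h2 : ((4 * h ^ 2 : ℕ) : ℝ≥0∞) * nu (fun E => if h ≤ ro 0 E then 1 else 0) ≤ ENNReal.ofReal (8 * D) := by
    refine (mul_le_mul' le_rfl (tail0 h)).trans ?_
    rw [← ENNReal.ofReal_natCast, ← ENNReal.ofReal_mul (by positivity)]
    apply ENNReal.ofReal_le_ofReal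
    have h3 := hd h hh
    rw [le_div_iff₀ (by positivity)] at h3
    push_cast
    linarith
  have h3 : ((4 * T : ℕ) : ℝ≥0∞) * nu (fun E => if T < ro 1 E then (ro 1 E : ℝ≥0∞) else 0) ≤
      ENNReal.ofReal (4 * D') := by
    refine (mul_le_mul' le_rfl (hw T (by omega))).trans ?_
    rw [← ENNReal.ofReal_natCast, ← ENNReal.ofReal_mul (by positivity)]
    apply ENNReal.ofReal_le_ofReal
    have hT0 : (0 : ℝ) < T := by
      rw [hT]
      push_cast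
      positivity
    apply le_of_eq
    push_cast
    field_simp
  rw [e1, e2] at h1
  have hA : 0 ≤ 4 * lam * (Real.log 4 + Real.log ((n : ℝ) / h)) + C := by positivity
  have h4 := h1.trans (add_le_add (add_le_add (add_le_add e0 e0) (add_le_add e0 h2)) h3)
  rw [← ENNReal.ofReal_add hA hA, ← ENNReal.ofReal_add hA (by positivity),
    ← ENNReal.ofReal_add (by positivity) (by positivity), ← ENNReal.ofReal_add (by positivity) (by positivity),
    show (4 : ℝ≥0∞) = ENNReal.ofReal 4 by norm_num, ← ENNReal.ofReal_mul (by norm_num)] at h4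
  have h5 := (ENNReal.ofReal_le_ofReal_iff (by positivity)).1 h4
  linarith

/-- (M3): the growth of the gas. -/
theorem Zt_growth {g : ℝ} (hg : 5 * Real.sqrt 3 / 36 < g) : ∃ C : ℝ, 1 ≤ C ∧ ∀ h n : ℕ, 1 ≤ h → h ≤ n →
    Zt n ≤ C * ((n : ℝ) / h) ^ g * Zt h := by
  obtain ⟨C, hC, hL⟩ := LLd_le (lam := g / 3) (by linarith)
  refine ⟨Real.exp C, Real.one_le_exp hC, fun h n hh hn => ?_⟩
  have hh0 : (0 : ℝ) < h := by exact_mod_cast hh
  have hn1 : 1 ≤ n := hh.trans hn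
  have hn0 : (0 : ℝ) < n := by exact_mod_cast hn1
  refine Zt_le fun M => ?_
  have h1 := NF_le_mul_exp (SP_full h M (3 * M) (3 * M)) f0 (PP n M)
  have h2 := hL h n M hh hn
  have h3 : Real.exp (LLd (PP n M) (PP h M) f0) ≤ Real.exp C * ((n : ℝ) / h) ^ g := by
    rw [Real.rpow_def_of_pos (by positivity), ← Real.exp_add]
    apply Real.exp_le_exp.2
    linarith
  have h4 : 0 ≤ NF (2 : ℝ) (PP h M) f0 := by
    have := one_le_NF (z := (2 : ℝ)) (by norm_num) (PP h M) f0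
    linarith
  calc NF (2 : ℝ) (PP n M) f0 ≤ NF (2 : ℝ) (PP h M) f0 * Real.exp (LLd (PP n M) (PP h M) f0) := h1
    _ ≤ Zt h * (Real.exp C * ((n : ℝ) / h) ^ g) :=
      mul_le_mul (NF_le_Zt h M) h3 (Real.exp_pos _).le (Zt_pos h).le
    _ = _ := by ring

/-- the doubling of the gas. -/
theorem Zt_double : ∃ C : ℝ, 1 ≤ C ∧ ∀ h : ℕ, 1 ≤ h → Zt (2 * h) ≤ C * Zt h := by
  have hs : Real.sqrt 3 ≤ 2 := Real.sqrt_le_iff.2 ⟨by norm_num, by norm_num⟩
  obtain ⟨C, hC, h1⟩ := Zt_growth (g := 1) (by linarith)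
  refine ⟨C * 2, by linarith, fun h hh => ?_⟩
  have h2 := h1 h (2 * h) hh (by omega)
  have hh0 : (0 : ℝ) < h := by exact_mod_cast hh
  rw [Real.rpow_one] at h2
  push_cast at h2
  rw [mul_div_assoc, div_self hh0.ne', mul_one] at h2
  exact h2

end PW

end HexObs
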